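import Pool.Agent.Helper29.Primes

/-!
An ℓ-group with a finite series of ideals with abelian factors is normal-valued.
-/

set_option autoImplicit false
set_option linter.unusedSectionVars false

namespace Pool.Agent.Helper29

universe u

variable {G : Type u} [Group G] [Lattice G] [MulLeftMono G] [MulRightMono G]

theorem one_le_mul_of {a b : G} (ha : 1 ≤ a) (hb : 1 ≤ b) : 1 ≤ a * b := by
  calc (1:G) = 1 * 1 := (one_mul 1).symm
    _ ≤ a * b := mul_le_mul' ha hb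

/-- The convex sub-ℓ-group of elements bounded by `y ^ k * m`, general form. -/
theorem bounded_gen {M : Subgroup G} (hM : IsCvx M) {y : G} (hy : 1 ≤ y)
    (hcomm : ∀ m ∈ M, 1 ≤ m → ∀ l : ℕ, ∃ k' : ℕ, ∃ m' ∈ M, 1 ≤ m' ∧ m * y ^ l ≤ y ^ k' * m') :
    ∃ S : Subgroup G, IsCvx S ∧ M ≤ S ∧ y ∈ S ∧
      ∀ z ∈ S, ∃ k : ℕ, ∃ m ∈ M, z ≤ y ^ k * m := by
  let T : Set G := {z | ∃ k : ℕ, ∃ m ∈ M, 1 ≤ m ∧ z ⊔ 1 ≤ y ^ k * m ∧ z⁻¹ ⊔ 1 ≤ y ^ k * m}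
  have hone : ∀ (k : ℕ) (m : G), 1 ≤ m → 1 ≤ y ^ k * m :=
    fun k m hm => one_le_mul_of (one_le_pow' hy k) hm
  have hmul : ∀ (k l : ℕ) (m n z w: G), m ∈ M → n ∈ M → 1 ≤ m → 1 ≤ n →
      z ≤ y ^ k * m → w ≤ y ^ l * n →
      ∃ k' : ℕ, ∃ m' ∈ M, 1 ≤ m' ∧ (z * w) ⊔ 1 ≤ y ^ k' * m' := by
    intro k l m n z w hmM hnM hm hn hz hw
    obtain ⟨k', m', hm', hm1', h⟩ := hcomm m hmM hm l
    refine ⟨k + k', m' * n, M.mul_mem hm' hnM, one_le_mul_of hm1' hn, ?_⟩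
    apply sup_le _ (hone _ _ (one_le_mul_of hm1' hn))
    calc z * w ≤ (y ^ k * m) * (y ^ l * n) := mul_le_mul' hz hw
      _ = y ^ k * (m * y ^ l) * n := by group
      _ ≤ y ^ k * (y ^ k' * m') * n := mul_le_mul' (mul_le_mul' le_rfl h) le_rfl
      _ = y ^ (k + k') * (m' * n) := by rw [pow_add]; group
  have hcommon : ∀ (k l : ℕ) (m n : G), 1 ≤ m → 1 ≤ n →
      y ^ k * m ≤ y ^ (k + l) * (m * n) ∧ y ^ l * n ≤ y ^ (k + l) * (m * n) := by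
    intro k l m n hm hn
    constructor
    · refine mul_le_mul' ?_ (le_mul_of_one_le_right' hn)
      rw [pow_add]
      exact le_mul_of_one_le_right' (one_le_pow' hy l)
    · refine mul_le_mul' ?_ (le_mul_of_one_le_left' hm)
      rw [pow_add]
      exact le_mul_of_one_le_left' (one_le_pow' hy k)
  let S : Subgroup G :=
    { carrier := T
      mul_mem' := by
        rintro z w ⟨k, m, hm, hm1, hz, hz'⟩ ⟨l, n, hn, hn1, hw, hw'⟩
        obtain ⟨k1, m1, a1, a2, a3⟩ := hmul k l m n z w hm hn hm1 hn1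
          (le_sup_left.trans hz) (le_sup_left.trans hw)
        obtain ⟨k2, m2, b1, b2, b3⟩ := hmul l k n m w⁻¹ z⁻¹ hn hm hn1 hm1
          (le_sup_left.trans hw') (le_sup_left.trans hz')
        refine ⟨k1 + k2, m1 * m2, M.mul_mem a1 b1, one_le_mul_of a2 b2, ?_, ?_⟩
        · exact a3.trans (hcommon k1 k2 m1 m2 a2 b2).1
        · rw [mul_inv_rev]
          exact b3.trans (hcommon k1 k2 m1 m2 a2 b2).2
      one_mem' := ⟨0, 1, M.one_mem, le_rfl, by simp, by simp⟩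
      inv_mem' := by
        rintro z ⟨k, m, hm, hm1, hz, hz'⟩
        exact ⟨k, m, hm, hm1, hz', by rw [inv_inv]; exact hz⟩ }
  refine ⟨S, ⟨?_, ?_⟩, ?_, ?_, ?_⟩
  · rintro z ⟨k, m, hm, hm1, hz, hz'⟩
    refine ⟨k, m, hm, hm1, by simpa using hz, ?_⟩
    apply sup_le _ (hone _ _ hm1)
    rw [inv_sup, inv_one]
    exact inf_le_right.trans (hone _ _ hm1)
  · rintro z ⟨k, m, hm, hm1, hz, hz'⟩ w hw hwz
    refine ⟨k, m, hm, hm1, ?_, ?_⟩
    · exact (sup_le_sup_right hwz 1).trans hz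
    · apply sup_le _ (hone _ _ hm1)
      exact (inv_le_one'.mpr hw).trans (hone _ _ hm1)
  · intro z hz
    refine ⟨0, (z ⊔ 1) * (z⁻¹ ⊔ 1), M.mul_mem (hM.sup_one _ hz) (hM.neg_mem hz),
      one_le_mul_of le_sup_right le_sup_right, ?_, ?_⟩
    · rw [pow_zero, one_mul]
      exact le_mul_of_one_le_right' le_sup_right
    · rw [pow_zero, one_mul]
      exact le_mul_of_one_le_left' le_sup_right
  · refine ⟨1, 1, M.one_mem, le_rfl, ?_, ?_⟩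
    · simp [hy]
    · rw [pow_one, mul_one]
      apply sup_le _ hy
      exact (inv_le_one'.mpr hy).trans hy
  · rintro z ⟨k, m, hm, hm1, hz, hz'⟩
    exact ⟨k, m, hm, le_sup_left.trans hz⟩

/-- An ℓ-group with a finite series of ideals with abelian factors is normal-valued. -/
theorem series_nv (n : ℕ) (H : ℕ → Set G) (h0 : H 0 = {1}) (hn : H n = Set.univ)
    (hone : ∀ i, (1 : G) ∈ H i)
    (hmul : ∀ i, ∀ a ∈ H i, ∀ b ∈ H i, a * b ∈ H i)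
    (hinv : ∀ i, ∀ a ∈ H i, a⁻¹ ∈ H i)
    (hsup : ∀ i, ∀ a ∈ H i, ∀ b ∈ H i, a ⊔ b ∈ H i)
    (hconv : ∀ i, ∀ a ∈ H i, ∀ b ∈ H i, ∀ c : G, a ≤ c → c ≤ b → c ∈ H i)
    (hconj : ∀ i, ∀ a ∈ H i, ∀ g : G, g * a * g⁻¹ ∈ H i)
    (hcomm : ∀ i, ∀ a ∈ H (i + 1), ∀ b ∈ H (i + 1), a * b * a⁻¹ * b⁻¹ ∈ H i) : NV G := by
  classical
  intro a b ha hb
  by_contra hcon
  obtain ⟨Q, hQ, hnle⟩ := exists_prime_not_leQ hcon
  have hc1 : 1 ≤ a * b := one_le_mul_of ha hb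
  have hac : a ≤ a * b := le_mul_of_one_le_right' hb
  have hbc : b ≤ a * b := le_mul_of_one_le_left' ha
  have hcQ : a * b ∉ Q := by
    intro h
    have h1 : a ∈ Q := hQ.conv _ h _ ha hac
    have h2 : b ∈ Q := hQ.conv _ h _ hb hbc
    apply hnle
    apply leQ_of_mem hQ.toIsCvx
    exact Q.mul_mem (Q.inv_mem h) (Q.mul_mem (Q.mul_mem h2 h2) (Q.mul_mem h1 h1))
  have hle : leQ Q (b * b * (a * a)) (a * b) := (leQ_total hQ _ _).resolve_left hnle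
  set M := vl Q (a * b) with hMdef
  set N := cv Q (a * b) with hNdef
  have hM : IsPrm M := vl_prm hQ hcQ
  have hN : IsCvx N := cv_cvx
  have hMN : M ≤ N := vl_le_cv hQ hcQ
  have hcM : a * b ∉ M := not_mem_vl hQ hcQ
  have hcN : a * b ∈ N := self_mem_cv
  have haN : a ∈ N := hN.conv _ hcN _ ha hac
  have hbN : b ∈ N := hN.conv _ hcN _ hb hbc
  -- the index
  have hex : ∃ j, ¬ (H j ⊆ M) := ⟨n, by rw [hn]; intro h; exact hcM (h trivial)⟩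
  obtain ⟨i, hi1, hi2⟩ : ∃ i, H i ⊆ M ∧ ¬ (H (i + 1) ⊆ M) := by
    have hspec := Nat.find_spec hex
    have hmin := fun m (hm : m < Nat.find hex) => Nat.find_min hex hm
    have hpos : Nat.find hex ≠ 0 := by
      intro h
      rw [h, h0] at hspec
      apply hspec
      rintro x rfl
      exact M.one_mem
    obtain ⟨i, hi⟩ := Nat.exists_eq_succ_of_ne_zero hpos
    refine ⟨i, ?_, ?_⟩
    · have := hmin i (by omega)
      exact not_not.mp this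
    · rw [hi] at hspec; exact hspec
  -- Step A
  obtain ⟨z, hzH, hzN, hzM, hz1⟩ : ∃ z, z ∈ H (i + 1) ∧ z ∈ N ∧ z ∉ M ∧ 1 ≤ z := by
    obtain ⟨h, hhH, hhM⟩ := Set.not_subset.mp hi2
    obtain ⟨z0, hz0H, hz0M, hz01⟩ : ∃ z0, z0 ∈ H (i + 1) ∧ z0 ∉ M ∧ 1 ≤ z0 := by
      by_cases h1 : h ⊔ 1 ∈ M
      · refine ⟨h⁻¹ ⊔ 1, hsup _ _ (hinv _ _ hhH) _ (hone _), ?_, le_sup_right⟩
        intro h2
        exact hhM (hM.mem_of_pos_neg h1 h2)
      · exact ⟨h ⊔ 1, hsup _ _ hhH _ (hone _), h1, le_sup_right⟩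
    refine ⟨z0 ⊓ (a * b), ?_, ?_, ?_, le_inf hz01 hc1⟩
    · exact hconv _ _ (hone _) _ hz0H _ (le_inf hz01 hc1) inf_le_left
    · exact hN.conv _ hcN _ (le_inf hz01 hc1) inf_le_right
    · intro h2
      rcases hM.inf_mem h2 with h3 | h3
      · exact hz0M h3
      · exact hcM h3
  -- Step B
  have stepB : ∀ h, h ∈ H (i + 1) → h ∈ N → ∀ m ∈ M, h * m * h⁻¹ ∈ M := by
    intro h hhH hhN
    have pos : ∀ m ∈ M, 1 ≤ m → h * m * h⁻¹ ∈ M := by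
      intro m hm hm1
      by_contra hy
      have hy1 : 1 ≤ h * m * h⁻¹ := by
        have : h * 1 * h⁻¹ ≤ h * m * h⁻¹ := by gcongr
        simpa using this
      set y := h * m * h⁻¹ with hydef
      have hyN : y ∈ N := N.mul_mem (N.mul_mem hhN (hMN hm)) (N.inv_mem hhN)
      set w := h⁻¹ * (y ⊓ z) * h with hwdef
      have h1yz : 1 ≤ y ⊓ z := le_inf hy1 hz1
      have hyzH : y ⊓ z ∈ H (i + 1) := hconv _ _ (hone _) _ hzH _ h1yz inf_le_right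
      have hwH : w ∈ H (i + 1) := by
        have := hconj _ _ hyzH h⁻¹
        rwa [inv_inv] at this
      have hw1 : 1 ≤ w := by
        have : h⁻¹ * 1 * h ≤ h⁻¹ * (y ⊓ z) * h := by gcongr
        simpa using this
      have hwm : w ≤ m := by
        have : h⁻¹ * (y ⊓ z) * h ≤ h⁻¹ * y * h := by gcongr; exact inf_le_left
        have e : h⁻¹ * y * h = m := by rw [hydef]; group
        rwa [e] at this
      have hwM : w ∈ M := hM.conv _ hm _ hw1 hwm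
      have hk : h * w * h⁻¹ * w⁻¹ ∈ M := hi1 (hcomm _ _ hhH _ hwH)
      have e : y ⊓ z = (h * w * h⁻¹ * w⁻¹) * w := by rw [hwdef]; group
      have : y ⊓ z ∈ M := by rw [e]; exact M.mul_mem hk hwM
      rcases hM.inf_mem this with h3 | h3
      · exact hy h3
      · exact hzM h3
    intro m hm
    have e : h * m * h⁻¹ = (h * (m ⊔ 1) * h⁻¹) * (h * (m⁻¹ ⊔ 1) * h⁻¹)⁻¹ := by
      conv_lhs => rw [← pos_mul_neg m]
      group
    rw [e]
    exact M.mul_mem (pos _ (hM.sup_one _ hm) le_sup_right)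
      (M.inv_mem (pos _ (hM.toIsCvx.neg_mem hm) le_sup_right))
  -- powers of z
  have hzpow : ∀ k : ℕ, z ^ k ∈ H (i + 1) ∧ z ^ k ∈ N := by
    intro k
    refine ⟨?_, N.pow_mem hzN k⟩
    induction k with
    | zero => simpa using hone _
    | succ k ih => rw [pow_succ]; exact hmul _ _ ih _ hzH
  -- Step C
  have stepC : ∀ x ∈ N, ∃ k : ℕ, ∃ m ∈ M, x ≤ z ^ k * m := by
    obtain ⟨S, h1, h2, h3, h4⟩ := bounded_gen hM.toIsCvx hz1 (by
      intro m hm hm1 l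
      refine ⟨l, (z ^ l)⁻¹ * m * z ^ l, ?_, ?_, ?_⟩
      · have := stepB ((z ^ l)⁻¹) (hinv _ _ (hzpow l).1) (N.inv_mem (hzpow l).2) m hm
        rwa [inv_inv] at this
      · have : (z ^ l)⁻¹ * 1 * z ^ l ≤ (z ^ l)⁻¹ * m * z ^ l := by gcongr
        simpa using this
      · apply le_of_eq; group)
    have hcS : a * b ∈ S := by
      by_contra hcon
      exact hzM (le_vl_of hQ hcQ h1 ((le_vl hQ hcQ).trans h2) hcon h3)
    intro x hx
    exact h4 x (cv_le_of h1 ((le_vl hQ hcQ).trans h2) hcS hx)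
  -- Step D : positive elements of N decompose
  have stepD : ∀ x ∈ N, 1 ≤ x → ∃ p r, p ∈ H (i + 1) ∧ p ∈ N ∧ r ∈ M ∧ x = p * r := by
    intro x hx hx1
    obtain ⟨k, m, hm, hle⟩ := stepC x hx
    have hzk1 : 1 ≤ z ^ k := one_le_pow' hz1 k
    have h1 : 1 ≤ x ⊓ z ^ k := le_inf hx1 hzk1
    refine ⟨x ⊓ z ^ k, (x ⊓ z ^ k)⁻¹ * x, ?_, ?_, ?_, by group⟩
    · exact hconv _ _ (hone _) _ (hzpow k).1 _ h1 inf_le_right
    · exact hN.conv _ hx _ h1 inf_le_left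
    · have e : (x ⊓ z ^ k)⁻¹ * x = 1 ⊔ (z ^ k)⁻¹ * x := by
        rw [inv_inf, sup_mul, inv_mul_cancel]
      rw [e, sup_comm]
      exact hM.pos_of_le hm (inv_mul_le_iff_le_mul.mpr hle)
  -- normality
  have hnorm1 : ∀ x ∈ N, 1 ≤ x → ∀ m ∈ M, x * m * x⁻¹ ∈ M ∧ x⁻¹ * m * x ∈ M := by
    intro x hx hx1 m hm
    obtain ⟨p, r, hpH, hpN, hr, rfl⟩ := stepD x hx hx1
    constructor
    · have e : p * r * m * (p * r)⁻¹ = p * (r * m * r⁻¹) * p⁻¹ := by group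
      rw [e]
      exact stepB p hpH hpN _ (M.mul_mem (M.mul_mem hr hm) (M.inv_mem hr))
    · have e : (p * r)⁻¹ * m * (p * r) = r⁻¹ * (p⁻¹ * m * (p⁻¹)⁻¹) * r := by group
      rw [e]
      exact M.mul_mem (M.mul_mem (M.inv_mem hr) (stepB p⁻¹ (hinv _ _ hpH) (N.inv_mem hpN) _ hm)) hr
  have hnorm : ∀ x ∈ N, ∀ m ∈ M, x * m * x⁻¹ ∈ M := by
    intro x hx m hm
    have e : x * m * x⁻¹ = (x ⊔ 1) * ((x⁻¹ ⊔ 1)⁻¹ * m * (x⁻¹ ⊔ 1)) * (x ⊔ 1)⁻¹ := by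
      conv_lhs => rw [← pos_mul_neg x]
      group
    rw [e]
    exact (hnorm1 _ (hN.sup_one _ hx) le_sup_right _
      (hnorm1 _ (hN.neg_mem hx) le_sup_right _ hm).2).1
  -- commutators
  have hab : a * b * a⁻¹ * b⁻¹ ∈ M := by
    obtain ⟨p, r, hpH, hpN, hr, hap⟩ := stepD a haN ha
    obtain ⟨p', r', hpH', hpN', hr', hbp⟩ := stepD b hbN hb
    have h1 : p * p' * p⁻¹ * p'⁻¹ ∈ M := hi1 (hcomm _ _ hpH _ hpH')
    -- a b a⁻¹ b⁻¹ = p r p' r' r⁻¹ p⁻¹ r'⁻¹ p'⁻¹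
    have e : a * b * a⁻¹ * b⁻¹ = (p * r * p⁻¹) *
        ((p * p') * (r' * r⁻¹) * (p * p')⁻¹) * (p * p' * p⁻¹ * p'⁻¹) * (p' * r'⁻¹ * p'⁻¹) := by
      rw [hap, hbp]; group
    rw [e]
    refine M.mul_mem (M.mul_mem (M.mul_mem ?_ ?_) h1) ?_
    · exact hnorm _ hpN _ hr
    · exact hnorm _ (N.mul_mem hpN hpN') _ (M.mul_mem hr' (M.inv_mem hr))
    · exact hnorm _ hpN' _ (M.inv_mem hr')
  -- b b a a = (a b) (a b) m
  obtain ⟨m, hm, hmeq⟩ : ∃ m ∈ M, b * b * (a * a) = (a * b) * (a * b) * m := by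
    refine ⟨((a * b) * (a * b))⁻¹ * (b * b * (a * a)), ?_, by group⟩
    -- (ab ab)⁻¹ b b a a
    set k := a * b * a⁻¹ * b⁻¹ with hk
    have hkba : a * b = k * (b * a) := by rw [hk]; group
    -- b a = k⁻¹ a b
    have hba : b * a = k⁻¹ * (a * b) := by rw [hkba]; group
    have e1 : b * b * (a * a) = b * (k⁻¹ * (a * b)) * a := by rw [← hba]; group
    have e2 : b * (k⁻¹ * (a * b)) * a = (b * k⁻¹ * b⁻¹) * (b * a) * (b * a) := by group
    have e3 : (b * k⁻¹ * b⁻¹) * (b * a) * (b * a) =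
      (b * k⁻¹ * b⁻¹) * (k⁻¹ * ((a * b) * k⁻¹ * (a * b)⁻¹)) * ((a * b) * (a * b)) := by
        rw [hba]; group
    have e4 : ((a * b) * (a * b))⁻¹ * (b * b * (a * a)) =
      ((a * b) * (a * b))⁻¹ * ((b * k⁻¹ * b⁻¹) * (k⁻¹ * ((a * b) * k⁻¹ * (a * b)⁻¹))) *
        (((a * b) * (a * b))⁻¹)⁻¹ := by
        rw [e1, e2, e3]; group
    rw [e4]
    apply hnorm
    · exact N.inv_mem (N.mul_mem hcN hcN)
    · exact M.mul_mem (hnorm _ hbN _ (M.inv_mem hab))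
        (M.mul_mem (M.inv_mem hab) (hnorm _ hcN _ (M.inv_mem hab)))
  have hfin : (a * b)⁻¹ * (b * b * (a * a)) ⊔ 1 ∈ M := le_vl hQ hcQ hle
  rw [hmeq] at hfin
  have e : (a * b)⁻¹ * ((a * b) * (a * b) * m) = (a * b) * m := by group
  rw [e] at hfin
  apply hcM
  refine hM.conv _ (M.mul_mem hfin (M.inv_mem hm)) _ hc1 ?_
  have : (a * b) * m ≤ (a * b) * m ⊔ 1 := le_sup_left
  calc a * b = (a * b) * m * m⁻¹ := by group
    _ ≤ ((a * b) * m ⊔ 1) * m⁻¹ := by gcongr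

end Pool.Agent.Helper29
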