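import Mathlib

/-!
ℓ-groups of order automorphisms of a chain, and the iterated wreath power of `ℝ`
acting on `Lex (Fin n → ℝ)`.
-/

set_option autoImplicit false
set_option linter.unusedSectionVars false

namespace Pool.Agent.Helper29

/-- A group of increasing permutations of a chain closed under pointwise maximum. -/
structure CG (α : Type*) [LinearOrder α] where
  toSubgroup : Subgroup (Equiv.Perm α)
  mono : ∀ f ∈ toSubgroup, StrictMono f
  sup_mem : ∀ f ∈ toSubgroup, ∀ g ∈ toSubgroup, ∃ h ∈ toSubgroup, ∀ x, h x = max (f x) (g x)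

namespace CG

variable {α : Type*} [LinearOrder α] (C : CG α)

/-- The underlying type of the group. -/
def T : Type _ := C.toSubgroup

noncomputable instance : Group C.T := inferInstanceAs (Group C.toSubgroup)

instance : FunLike C.T α α where
  coe f := (f.1 : α → α)
  coe_injective f g h := Subtype.ext (Equiv.ext (fun x => congrFun h x))

variable {C}

@[ext] theorem ext {f g : C.T} (h : ∀ x, f x = g x) : f = g := DFunLike.ext f g h

@[simp] theorem mul_apply (f g : C.T) (x : α) : (f * g) x = f (g x) := rfl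
@[simp] theorem one_apply (x : α) : (1 : C.T) x = x := rfl
@[simp] theorem inv_apply_self (f : C.T) (x : α) : f⁻¹ (f x) = x := by
  rw [← mul_apply, inv_mul_cancel, one_apply]
@[simp] theorem apply_inv_self (f : C.T) (x : α) : f (f⁻¹ x) = x := by
  rw [← mul_apply, mul_inv_cancel, one_apply]

theorem smono (f : C.T) : StrictMono f := C.mono f.1 f.2

theorem lt_iff (f : C.T) {x y : α} : f x < f y ↔ x < y := (smono f).lt_iff_lt
theorem le_iff (f : C.T) {x y : α} : f x ≤ f y ↔ x ≤ y := (smono f).le_iff_le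

instance : PartialOrder C.T where
  le f g := ∀ x, f x ≤ g x
  le_refl f x := le_rfl
  le_trans f g h h1 h2 x := (h1 x).trans (h2 x)
  le_antisymm f g h1 h2 := ext fun x => le_antisymm (h1 x) (h2 x)

theorem le_def {f g : C.T} : f ≤ g ↔ ∀ x, f x ≤ g x := Iff.rfl

theorem exists_sup (f g : C.T) : ∃ h : C.T, ∀ x, h x = max (f x) (g x) := by
  obtain ⟨h, hh, h2⟩ := C.sup_mem f.1 f.2 g.1 g.2
  exact ⟨⟨h, hh⟩, h2⟩

theorem exists_inf (f g : C.T) : ∃ h : C.T, ∀ x, h x = min (f x) (g x) := by
  obtain ⟨h, hh⟩ := exists_sup f⁻¹ g⁻¹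
  refine ⟨h⁻¹, fun x => ?_⟩
  apply (smono h).injective
  rw [apply_inv_self]
  rcases le_total (f x) (g x) with h1 | h1
  · rw [min_eq_left h1, hh, inv_apply_self]
    have : g⁻¹ (f x) ≤ x := by
      rw [← le_iff g, apply_inv_self]; exact h1
    rw [max_eq_left this]
  · rw [min_eq_right h1, hh, inv_apply_self]
    have : f⁻¹ (g x) ≤ x := by
      rw [← le_iff f, apply_inv_self]; exact h1
    rw [max_eq_right this]

noncomputable instance : Lattice C.T where
  sup f g := (exists_sup f g).choose
  inf f g := (exists_inf f g).choose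
  le_sup_left f g x := by
    rw [(exists_sup f g).choose_spec x]; exact le_max_left _ _
  le_sup_right f g x := by
    rw [(exists_sup f g).choose_spec x]; exact le_max_right _ _
  sup_le f g h h1 h2 x := by
    rw [(exists_sup f g).choose_spec x]; exact max_le (h1 x) (h2 x)
  inf_le_left f g x := by
    rw [(exists_inf f g).choose_spec x]; exact min_le_left _ _
  inf_le_right f g x := by
    rw [(exists_inf f g).choose_spec x]; exact min_le_right _ _
  le_inf f g h h1 h2 x := by
    rw [(exists_inf g h).choose_spec x]; exact le_min (h1 x) (h2 x)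

@[simp] theorem sup_apply (f g : C.T) (x : α) : (f ⊔ g) x = max (f x) (g x) :=
  (exists_sup f g).choose_spec x

@[simp] theorem inf_apply (f g : C.T) (x : α) : (f ⊓ g) x = min (f x) (g x) :=
  (exists_inf f g).choose_spec x

instance : MulLeftMono C.T := ⟨fun h _ _ hfg x => (le_iff h).mpr (hfg x)⟩
instance : MulRightMono C.T := ⟨fun h _ _ hfg x => hfg (h x)⟩

end CG

section Wr

/-- agreement of two points below the coordinate `k` -/
def Agr {n : ℕ} (k : ℕ) (r s : Lex (Fin n → ℝ)) : Prop := ∀ i : Fin n, (i : ℕ) < k → r i = s i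

/-- The defining condition of the wreath power: the `k`-th coordinate is translated by an
amount depending only on the previous coordinates. -/
def IsW {n : ℕ} (f : Lex (Fin n → ℝ) → Lex (Fin n → ℝ)) : Prop :=
  ∀ (k : Fin n) (r s : Lex (Fin n → ℝ)), Agr k r s → f r k - r k = f s k - s k

variable {n : ℕ}

theorem IsW.agr {f : Lex (Fin n → ℝ) → Lex (Fin n → ℝ)} (hf : IsW f) {k : ℕ}
    {r s : Lex (Fin n → ℝ)} (h : Agr k r s) : Agr k (f r) (f s) := by
  intro i hi
  have h1 := hf i r s (fun j hj => h j (hj.trans hi))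
  have h2 := h i hi
  linarith

theorem lex_lt_iff {r s : Lex (Fin n → ℝ)} : r < s ↔ ∃ k : Fin n, Agr k r s ∧ r k < s k :=
  Iff.rfl

theorem IsW.smono {f : Lex (Fin n → ℝ) → Lex (Fin n → ℝ)} (hf : IsW f) : StrictMono f := by
  intro r s h
  obtain ⟨k, h1, h2⟩ := lex_lt_iff.mp h
  refine lex_lt_iff.mpr ⟨k, hf.agr h1, ?_⟩
  have := hf k r s h1
  linarith

theorem IsW.agr_iff {f : Equiv.Perm (Lex (Fin n → ℝ))} (hf : IsW f) {k : ℕ}
    {r s : Lex (Fin n → ℝ)} : Agr k (f r) (f s) ↔ Agr k r s := by
  refine ⟨fun h => ?_, hf.agr⟩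
  induction k with
  | zero => intro i hi; omega
  | succ k ih =>
    have h1 : Agr k r s := ih (fun i hi => h i (by omega))
    intro i hi
    rcases Nat.lt_succ_iff_lt_or_eq.mp hi with h2 | h2
    · exact h1 i h2
    · have h3 := hf i r s (fun j hj => h1 j (by omega))
      have h4 := h i hi
      linarith

/-- The wreath power as a group of increasing permutations. -/
def Wsub (n : ℕ) : Subgroup (Equiv.Perm (Lex (Fin n → ℝ))) where
  carrier := {f | IsW f}
  mul_mem' := by
    intro f g hf hg k r s h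
    have h1 := hg k r s h
    have h2 := hf k (g r) (g s) (hg.agr h)
    change f (g r) k - r k = f (g s) k - s k
    linarith
  one_mem' := by intro k r s _; simp
  inv_mem' := by
    intro f hf k r s h
    have h0 : Agr k (f⁻¹ r) (f⁻¹ s) := by
      rw [← IsW.agr_iff (f := f) hf]
      have e : ∀ x, f (f⁻¹ x) = x := fun x => f.apply_symm_apply x
      rw [e, e]; exact h
    have h1 := hf k _ _ h0
    have e : ∀ x, f (f⁻¹ x) = x := fun x => f.apply_symm_apply x
    rw [e, e] at h1
    linarith

theorem mem_Wsub {f : Equiv.Perm (Lex (Fin n → ℝ))} : f ∈ Wsub n ↔ IsW f := Iff.rfl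

theorem wr_max_lt_iff {f g : Lex (Fin n → ℝ) → Lex (Fin n → ℝ)} (hf : IsW f) (hg : IsW g)
    {k : ℕ} {r s : Lex (Fin n → ℝ)} (h : Agr k r s) :
    (∃ i : Fin n, (i : ℕ) < k ∧ Agr i (f r) (g r) ∧ f r i < g r i) ↔
    (∃ i : Fin n, (i : ℕ) < k ∧ Agr i (f s) (g s) ∧ f s i < g s i) := by
  have key : ∀ r s : Lex (Fin n → ℝ), Agr k r s →
      (∃ i : Fin n, (i : ℕ) < k ∧ Agr i (f r) (g r) ∧ f r i < g r i) →
      (∃ i : Fin n, (i : ℕ) < k ∧ Agr i (f s) (g s) ∧ f s i < g s i) := by
    rintro r s h ⟨i, hi, h1, h2⟩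
    have e1 := hf.agr h
    have e2 := hg.agr h
    refine ⟨i, hi, ?_, ?_⟩
    · intro j hj
      rw [← e1 j (hj.trans hi), ← e2 j (hj.trans hi)]
      exact h1 j hj
    · rw [← e1 i hi, ← e2 i hi]; exact h2
  exact ⟨key r s h, key s r (fun i hi => (h i hi).symm)⟩

theorem IsW.sup {f g : Lex (Fin n → ℝ) → Lex (Fin n → ℝ)} (hf : IsW f) (hg : IsW g) :
    IsW (fun x => max (f x) (g x)) := by
  classical
  intro k r s h
  -- coordinate k of max, expressed through agreement below k
  have key : ∀ x : Lex (Fin n → ℝ), (max (f x) (g x)) k =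
      if (∃ i : Fin n, (i : ℕ) < k ∧ Agr i (f x) (g x) ∧ f x i < g x i) then g x k
      else if (∃ i : Fin n, (i : ℕ) < k ∧ Agr i (g x) (f x) ∧ g x i < f x i) then f x k
      else max (f x k) (g x k) := by
    intro x
    split_ifs with h1 h2
    · obtain ⟨i, hi, h3, h4⟩ := h1
      have : f x < g x := lex_lt_iff.mpr ⟨i, h3, h4⟩
      rw [max_eq_right this.le]
    · obtain ⟨i, hi, h3, h4⟩ := h2
      have : g x < f x := lex_lt_iff.mpr ⟨i, h3, h4⟩
      rw [max_eq_left this.le]
    · -- agree below k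
      have hagr : Agr k (f x) (g x) := by
        intro i hi
        induction' hm : (i : ℕ) using Nat.strong_induction_on with m ih generalizing i
        subst hm
        have h0 : Agr i (f x) (g x) := fun j hj => ih j hj j (hj.trans hi) rfl
        by_contra hne
        rcases lt_or_gt_of_ne hne with hlt | hlt
        · exact h1 ⟨i, hi, h0, hlt⟩
        · exact h2 ⟨i, hi, fun j hj => (h0 j hj).symm, hlt⟩
      rcases lt_trichotomy (f x k) (g x k) with h3 | h3 | h3
      · have : f x < g x := lex_lt_iff.mpr ⟨k, hagr, h3⟩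
        rw [max_eq_right this.le, max_eq_right h3.le]
      · rw [h3, max_self]
        rcases le_total (f x) (g x) with h4 | h4
        · rw [max_eq_right h4]
        · rw [max_eq_left h4, h3]
      · have : g x < f x := lex_lt_iff.mpr ⟨k, fun j hj => (hagr j hj).symm, h3⟩
        rw [max_eq_left this.le, max_eq_left h3.le]
  have e1 := wr_max_lt_iff hf hg h
  have e2 := wr_max_lt_iff hg hf h
  have e3 := hf k r s h
  have e4 := hg k r s h
  simp only [key, e1, e2]
  split_ifs with h1 h2
  · exact e4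
  · exact e3
  · have e5 : f r k = f s k - s k + r k := by linarith
    have e6 : g r k = g s k - s k + r k := by linarith
    rw [e5, e6]
    have : max (f s k - s k + r k) (g s k - s k + r k) = max (f s k) (g s k) - s k + r k := by
      rw [max_add_add_right, max_sub_sub_right]
    rw [this]; ring

/-- increasing permutations have pointwise maxima -/
theorem exists_max_perm {α : Type*} [LinearOrder α] (f g : Equiv.Perm α) (hf : StrictMono f)
    (hg : StrictMono g) : ∃ h : Equiv.Perm α, ∀ x, h x = max (f x) (g x) := by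
  have hf' : ∀ {x y}, f x ≤ f y ↔ x ≤ y := hf.le_iff_le
  have hg' : ∀ {x y}, g x ≤ g y ↔ x ≤ y := hg.le_iff_le
  refine ⟨⟨fun x => max (f x) (g x), fun x => min (f.symm x) (g.symm x), ?_, ?_⟩, fun x => rfl⟩
  · intro x
    dsimp only
    rcases le_total (f x) (g x) with h | h
    · rw [max_eq_right h, Equiv.symm_apply_apply]
      apply min_eq_right
      rw [← hf', Equiv.apply_symm_apply]; exact h
    · rw [max_eq_left h, Equiv.symm_apply_apply]
      apply min_eq_left
      rw [← hg', Equiv.apply_symm_apply]; exact h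
  · intro x
    dsimp only
    rcases le_total (f.symm x) (g.symm x) with h | h
    · rw [min_eq_left h, Equiv.apply_symm_apply]
      apply max_eq_left
      have := hg'.mpr h
      rwa [Equiv.apply_symm_apply] at this
    · rw [min_eq_right h, Equiv.apply_symm_apply]
      apply max_eq_right
      have := hf'.mpr h
      rwa [Equiv.apply_symm_apply] at this

/-- The wreath power as an ℓ-group. -/
def Wcg (n : ℕ) : CG (Lex (Fin n → ℝ)) where
  toSubgroup := Wsub n
  mono f hf := IsW.smono hf
  sup_mem f hf g hg := by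
    obtain ⟨h, hh⟩ := exists_max_perm f g (IsW.smono hf) (IsW.smono hg)
    refine ⟨h, ?_, hh⟩
    have := IsW.sup hf hg
    intro k r s hrs
    have h2 := this k r s hrs
    dsimp only at h2
    rw [hh, hh]; exact h2

/-- The wreath power of `n` copies of `ℝ`. -/
abbrev W (n : ℕ) : Type := (Wcg n).T

theorem W.isW (f : W n) : IsW f := f.2

/-- Constructing an element of `W n` from a cocycle. -/
theorem exists_W (c : Fin n → Lex (Fin n → ℝ) → ℝ)
    (hc : ∀ (k : Fin n) (r s : Lex (Fin n → ℝ)), Agr k r s → c k r = c k s) :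
    ∃ f : W n, ∀ r k, f r k = r k + c k r := by
  classical
  let F : Lex (Fin n → ℝ) → Lex (Fin n → ℝ) := fun r => toLex (fun k => r k + c k r)
  have hF : ∀ r k, F r k = r k + c k r := fun r k => rfl
  have hW : IsW F := by
    intro k r s h
    rw [hF, hF, hc k r s h]; ring
  have hinj : Function.Injective F := hW.smono.injective
  have hsurj : Function.Surjective F := by
    intro s
    have : ∀ m : ℕ, ∃ r : Lex (Fin n → ℝ), ∀ k : Fin n, (k : ℕ) < m → F r k = s k := by
      intro m
      induction m with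
      | zero => exact ⟨s, fun k hk => by omega⟩
      | succ m ih =>
        obtain ⟨r, hr⟩ := ih
        by_cases hm : m < n
        · let r' : Lex (Fin n → ℝ) := toLex (Function.update (ofLex r) ⟨m, hm⟩ (s ⟨m, hm⟩ - c ⟨m, hm⟩ r))
          have hagr : Agr m r r' := by
            intro i hi
            change r i = Function.update (ofLex r) ⟨m, hm⟩ _ i
            rw [Function.update_of_ne]
            · rfl
            · intro h; rw [h] at hi; simp at hi
          refine ⟨r', ?_⟩
          intro k hk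
          rcases Nat.lt_succ_iff_lt_or_eq.mp hk with h2 | h2
          · rw [← hr k h2, hF, hF, ← hagr k h2, hc k r r' (fun j hj => hagr j (by omega))]
          · have hk' : k = ⟨m, hm⟩ := Fin.ext h2
            subst hk'
            rw [hF, ← hc _ r r' hagr]
            change Function.update (ofLex r) ⟨m, hm⟩ _ ⟨m, hm⟩ + _ = _
            rw [Function.update_self]
            ring
        · exact ⟨r, fun k _ => hr k (by omega)⟩
    obtain ⟨r, hr⟩ := this n
    exact ⟨r, funext fun k => hr k k.2⟩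
  refine ⟨⟨Equiv.ofBijective F ⟨hinj, hsurj⟩, ?_⟩, fun r k => rfl⟩
  exact hW

/-- The `i`-th term of the standard series of ideals. -/
def Hs (n i : ℕ) : Set (W n) := {f | ∀ r, Agr (n - i) (f r) r}

theorem Hs_zero : Hs n 0 = {1} := by
  ext f
  constructor
  · intro h
    apply CG.ext
    intro r
    funext k
    exact h r k (by simp)
  · rintro rfl
    intro r i _; rfl

theorem Hs_top : Hs n n = Set.univ := by
  ext f
  simp only [Set.mem_univ, iff_true]
  intro r i hi
  omega

theorem one_mem_Hs (i : ℕ) : (1 : W n) ∈ Hs n i := fun _ _ _ => rfl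

theorem Agr.symm {k : ℕ} {r s : Lex (Fin n → ℝ)} (h : Agr k r s) : Agr k s r :=
  fun i hi => (h i hi).symm

theorem Agr.trans {k : ℕ} {r s t : Lex (Fin n → ℝ)} (h : Agr k r s) (h' : Agr k s t) :
    Agr k r t := fun i hi => (h i hi).trans (h' i hi)

theorem Agr.mono {j k : ℕ} {r s : Lex (Fin n → ℝ)} (h : Agr k r s) (hjk : j ≤ k) : Agr j r s :=
  fun i hi => h i (by omega)

theorem W.agr (f : W n) {k : ℕ} {r s : Lex (Fin n → ℝ)} (h : Agr k r s) : Agr k (f r) (f s) :=
  f.isW.agr h

theorem mul_mem_Hs {i : ℕ} {f g : W n} (hf : f ∈ Hs n i) (hg : g ∈ Hs n i) : f * g ∈ Hs n i := by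
  intro r
  rw [CG.mul_apply]
  exact (hf (g r)).trans (hg r)

theorem inv_mem_Hs {i : ℕ} {f : W n} (hf : f ∈ Hs n i) : f⁻¹ ∈ Hs n i := by
  intro r
  have := hf (f⁻¹ r)
  rw [CG.apply_inv_self] at this
  exact this.symm

theorem sup_mem_Hs {i : ℕ} {f g : W n} (hf : f ∈ Hs n i) (hg : g ∈ Hs n i) : f ⊔ g ∈ Hs n i := by
  intro r
  rw [CG.sup_apply]
  rcases le_total (f r) (g r) with h | h
  · rw [max_eq_right h]; exact hg r
  · rw [max_eq_left h]; exact hf r

theorem inf_mem_Hs {i : ℕ} {f g : W n} (hf : f ∈ Hs n i) (hg : g ∈ Hs n i) : f ⊓ g ∈ Hs n i := by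
  intro r
  rw [CG.inf_apply]
  rcases le_total (f r) (g r) with h | h
  · rw [min_eq_left h]; exact hf r
  · rw [min_eq_right h]; exact hg r

theorem agr_between {k : ℕ} {r s t u : Lex (Fin n → ℝ)} (h1 : Agr k r u) (h2 : Agr k t u)
    (hrs : r ≤ s) (hst : s ≤ t) : Agr k s u := by
  have key : ∀ m, m ≤ k → Agr m s u := by
    intro m
    induction m with
    | zero => intro _ i hi; omega
    | succ m ih =>
      intro hm
      have h0 := ih (by omega)
      intro i hi
      rcases Nat.lt_succ_iff_lt_or_eq.mp hi with h3 | h3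
      · exact h0 i h3
      · have a1 : r i ≤ s i := by
          by_contra hcon
          push Not at hcon
          have : s < r := lex_lt_iff.mpr ⟨i, fun j hj => by
            rw [h0 j (by omega), h1 j (by omega)], hcon⟩
          exact absurd hrs (not_le.mpr this)
        have a2 : s i ≤ t i := by
          by_contra hcon
          push Not at hcon
          have : t < s := lex_lt_iff.mpr ⟨i, fun j hj => by
            rw [h0 j (by omega), h2 j (by omega)], hcon⟩
          exact absurd hst (not_le.mpr this)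
        have a3 := h1 i (by omega)
        have a4 := h2 i (by omega)
        linarith
  exact key k le_rfl

theorem between_mem_Hs {i : ℕ} {f g h : W n} (hf : f ∈ Hs n i) (hh : h ∈ Hs n i)
    (h1 : f ≤ g) (h2 : g ≤ h) : g ∈ Hs n i := by
  intro r
  exact agr_between (hf r) (hh r) (h1 r) (h2 r)

theorem conj_mem_Hs {i : ℕ} {f : W n} (hf : f ∈ Hs n i) (g : W n) : g * f * g⁻¹ ∈ Hs n i := by
  intro r
  have h1 := hf (g⁻¹ r)
  have h2 := g.agr h1
  rw [CG.apply_inv_self] at h2
  exact h2

theorem Hs_succ {i : ℕ} : Hs n i ⊆ Hs n (i + 1) := by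
  intro f hf r
  exact (hf r).mono (by omega)

theorem comm_mem_Hs {i : ℕ} {f g : W n} (hf : f ∈ Hs n (i + 1)) (hg : g ∈ Hs n (i + 1)) :
    f * g * f⁻¹ * g⁻¹ ∈ Hs n i := by
  intro r
  have hfi := inv_mem_Hs hf
  have hgi := inv_mem_Hs hg
  have b1 : Agr (n - (i + 1)) (g⁻¹ r) r := hgi r
  have b2 : Agr (n - (i + 1)) (f⁻¹ (g⁻¹ r)) (g⁻¹ r) := hfi _
  have b3 : Agr (n - (i + 1)) (g (f⁻¹ (g⁻¹ r))) (f⁻¹ (g⁻¹ r)) := hg _
  have b4 : Agr (n - (i + 1)) (f (g (f⁻¹ (g⁻¹ r)))) (g (f⁻¹ (g⁻¹ r))) := hf _
  change Agr (n - i) (f (g (f⁻¹ (g⁻¹ r)))) r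
  intro k hk
  by_cases hk2 : (k : ℕ) < n - (i + 1)
  · exact ((b4.trans b3).trans (b2.trans b1)) k hk2
  · have hk3 : (k : ℕ) = n - (i + 1) := by omega
    -- all points agree below k
    have c1 := g.isW k (g⁻¹ r) (f⁻¹ (g⁻¹ r)) (by rw [hk3]; exact b2.symm)
    have c2 := f.isW k (f⁻¹ (g⁻¹ r)) (g (f⁻¹ (g⁻¹ r))) (by rw [hk3]; exact b3.symm)
    rw [CG.apply_inv_self] at c1 c2
    linarith

end Wr

end Pool.Agent.Helper29
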