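import Mathlib

/-!
An averaging lemma.
-/

set_option autoImplicit false
set_option linter.unusedSectionVars false

namespace Pool.Agent.Helper29

theorem averaging {G Q : Type} [Group G] [Group Q] [Finite Q] (π : G →* Q)
    (hA : ∀ a b, π a = 1 → π b = 1 → a * b = b * a) {P : ℕ} (hP : P.Prime) (hP2 : P ≠ 2)
    (hcard : ¬ P ∣ Nat.card Q) (C : Subgroup G) (h : G) (hC : ∀ c ∈ C, h * c * h⁻¹ ∈ C) :
    ∃ (M : ℕ) (u : G), ¬ P ∣ M ∧ u ∈ C ∧
      (∀ c ∈ C, (u * h ^ M * u) * c = c * (u * h ^ M * u)) ∧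
      ∀ σ : G → G, (∀ a b, σ (a * b) = σ a * σ b) → (∀ a, σ (σ a) = a) →
        (∀ a, π a = 1 → π (σ a) = 1) → (∀ c ∈ C, σ c ∈ C) → σ h = h⁻¹ → σ u = u⁻¹ := by
  classical
  set e := Nat.card Q with he
  set a := h ^ e with hadef
  have ha : π a = 1 := by rw [hadef, map_pow]; exact pow_card_eq_one'
  have hconjA : ∀ s x : G, π x = 1 → π (s * x * s⁻¹) = 1 := by
    intro s x hx
    rw [map_mul, map_mul, hx, mul_one, map_inv, mul_inv_cancel]
  have hapow : ∀ k : ℕ, ∀ c ∈ C, h ^ k * c * (h ^ k)⁻¹ ∈ C := by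
    intro k
    induction k with
    | zero => intro c hc; simpa using hc
    | succ k ih =>
      intro c hc
      have := ih _ (hC c hc)
      have e1 : h ^ (k + 1) * c * (h ^ (k + 1))⁻¹ = h ^ k * (h * c * h⁻¹) * (h ^ k)⁻¹ := by
        rw [pow_succ]; group
      rw [e1]; exact this
  let A : Subgroup G := π.ker
  let cg : CommGroup A :=
    { (inferInstance : Group A) with
      mul_comm := fun x y => Subtype.ext (hA x.1 y.1 x.2 y.2) }
  let act : MulAction C A :=
    { smul := fun c x => ⟨c.1 * x.1 * c.1⁻¹, hconjA _ _ x.2⟩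
      one_smul := fun x => Subtype.ext (by
        change (1:G) * x.1 * 1⁻¹ = x.1
        group)
      mul_smul := fun c d x => Subtype.ext (by
        change (c.1 * d.1) * x.1 * (c.1 * d.1)⁻¹ = c.1 * (d.1 * x.1 * d.1⁻¹) * c.1⁻¹
        group) }
  have hsmul : ∀ (c : C) (x : A), (c • x : A).1 = c.1 * x.1 * c.1⁻¹ := fun _ _ => rfl
  let a' : A := ⟨a, ha⟩
  let O : Set A := MulAction.orbit C a'
  -- the size of the orbit
  have hle : A.subgroupOf C ≤ MulAction.stabilizer C a' := by
    intro c hc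
    have hc' : π c.1 = 1 := hc
    rw [MulAction.mem_stabilizer_iff]
    apply Subtype.ext
    rw [hsmul]
    change c.1 * a * c.1⁻¹ = a
    rw [hA _ _ hc' ha]; group
  have hdvd : (MulAction.stabilizer C a').index ∣ Nat.card Q := by
    have h1 : (MulAction.stabilizer C a').index ∣ (A.subgroupOf C).index :=
      Subgroup.index_dvd_of_le hle
    have h2 : (A.subgroupOf C).index ∣ A.index := Subgroup.relIndex_dvd_index_of_normal A C
    have h3 : A.index = Nat.card π.range := Subgroup.index_ker π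
    have h4 : Nat.card π.range ∣ Nat.card Q := Subgroup.card_subgroup_dvd_card _
    rw [h3] at h2
    exact h1.trans (h2.trans h4)
  have hpos : 0 < Nat.card Q := Nat.card_pos
  have hind : (MulAction.stabilizer C a').index = O.ncard := MulAction.index_stabilizer C a'
  have hOn : O.ncard ≠ 0 := by
    rw [← hind]
    intro h0
    rw [h0, zero_dvd_iff] at hdvd
    omega
  have hOf : O.Finite := Set.finite_of_ncard_ne_zero hOn
  set m := hOf.toFinset.card with hm
  have hmO : m = O.ncard := (Set.ncard_eq_toFinset_card O hOf).symm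
  have hmdvd : ¬ P ∣ m := by
    intro hd
    rw [hmO, ← hind] at hd
    exact hcard (hd.trans hdvd)
  have memO : ∀ x : A, x ∈ hOf.toFinset ↔ ∃ c : C, c • a' = x := by
    intro x
    rw [Set.Finite.mem_toFinset]
    exact MulAction.mem_orbit_iff
  let N : A := ∏ x ∈ hOf.toFinset, x
  -- invariance
  have hNinv : ∀ c ∈ C, c * N.1 * c⁻¹ = N.1 := by
    intro c hc
    let κ : A →* A :=
      { toFun := fun x => (⟨c, hc⟩ : C) • x
        map_one' := Subtype.ext (by rw [hsmul]; change c * 1 * c⁻¹ = 1; group)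
        map_mul' := fun x y => Subtype.ext (by
          rw [hsmul]
          change c * (x.1 * y.1) * c⁻¹ = (c * x.1 * c⁻¹) * (c * y.1 * c⁻¹)
          group) }
    have h1 : κ N = N := by
      rw [map_prod]
      refine Finset.prod_equiv (MulAction.toPerm (⟨c, hc⟩ : C)) ?_ (fun x _ => rfl)
      intro x
      rw [memO, memO]
      constructor
      · rintro ⟨d, rfl⟩
        exact ⟨⟨c, hc⟩ * d, mul_smul _ _ _⟩
      · rintro ⟨d, hd⟩
        refine ⟨(⟨c, hc⟩ : C)⁻¹ * d, ?_⟩
        rw [mul_smul, hd]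
        change (⟨c, hc⟩ : C)⁻¹ • ((⟨c, hc⟩ : C) • x) = x
        rw [inv_smul_smul]
    exact congrArg Subtype.val h1
  let u : A := N * (a'⁻¹) ^ m
  have hu : u = ∏ x ∈ hOf.toFinset, (x * a'⁻¹) := by
    rw [Finset.prod_mul_distrib, Finset.prod_const]
  have huC : u.1 ∈ C := by
    have : u ∈ C.comap A.subtype := by
      rw [hu]
      apply Subgroup.prod_mem
      intro x hx
      obtain ⟨c, rfl⟩ := (memO x).mp hx
      change c.1 * a * c.1⁻¹ * a⁻¹ ∈ C
      have h1 := hapow e c.1⁻¹ (C.inv_mem c.2)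
      have e1 : c.1 * a * c.1⁻¹ * a⁻¹ = c.1 * (h ^ e * c.1⁻¹ * (h ^ e)⁻¹) := by
        rw [hadef]; group
      rw [e1]
      exact C.mul_mem c.2 h1
    exact this
  have hpow : h ^ (2 * e * m) = (a' ^ (2 * m) : A).1 := by
    change h ^ (2 * e * m) = a ^ (2 * m)
    rw [hadef, ← pow_mul]
    congr 1; ring
  have hkey : u.1 * h ^ (2 * e * m) * u.1 = N.1 * N.1 := by
    rw [hpow]
    have : u * a' ^ (2 * m) * u = N * N := by
      change N * (a'⁻¹) ^ m * a' ^ (2 * m) * (N * (a'⁻¹) ^ m) = N * N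
      rw [two_mul, pow_add, inv_pow]
      have e1 : N * (a' ^ m)⁻¹ * (a' ^ m * a' ^ m) * (N * (a' ^ m)⁻¹) =
          N * (a' ^ m * (N * (a' ^ m)⁻¹)) := by group
      rw [e1, mul_comm N ((a' ^ m)⁻¹), mul_inv_cancel_left]
    exact congrArg Subtype.val this
  refine ⟨2 * e * m, u.1, ?_, huC, ?_, ?_⟩
  · intro hd
    rcases (Nat.Prime.dvd_mul hP).mp hd with h1 | h1
    · rcases (Nat.Prime.dvd_mul hP).mp h1 with h2 | h2
      · exact hP2 ((Nat.prime_dvd_prime_iff_eq hP Nat.prime_two).mp h2)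
      · exact hcard h2
    · exact hmdvd h1
  · intro c hc
    rw [hkey]
    have h1 : c * N.1 = N.1 * c := by
      have := hNinv c hc
      calc c * N.1 = (c * N.1 * c⁻¹) * c := by group
        _ = N.1 * c := by rw [this]
    rw [mul_assoc, ← h1, ← mul_assoc, ← h1, mul_assoc]
  · intro σ hσ hσσ hσA hσC hσh
    have hσ1 : σ 1 = 1 := by
      have := hσ 1 1
      rw [mul_one] at this
      exact mul_eq_left.mp this.symm
    have hσinv : ∀ x, σ x⁻¹ = (σ x)⁻¹ := by
      intro x
      rw [eq_inv_iff_mul_eq_one, ← hσ, inv_mul_cancel, hσ1]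
    have hσpow : ∀ k : ℕ, σ (h ^ k) = (h ^ k)⁻¹ := by
      intro k
      induction k with
      | zero => simpa using hσ1
      | succ k ih => rw [pow_succ, hσ, ih, hσh, ← mul_inv_rev, ← pow_succ', ← pow_succ]
    have hσa : σ a = a⁻¹ := hσpow e
    let σA : A →* A :=
      { toFun := fun x => ⟨σ x.1, hσA _ x.2⟩
        map_one' := Subtype.ext hσ1
        map_mul' := fun x y => Subtype.ext (hσ _ _) }
    let f : A ≃ A :=
      { toFun := fun x => (σA x)⁻¹
        invFun := fun x => (σA x)⁻¹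
        left_inv := fun x => Subtype.ext (by
          change (σ ((σ x.1)⁻¹))⁻¹ = x.1
          rw [hσinv, inv_inv, hσσ])
        right_inv := fun x => Subtype.ext (by
          change (σ ((σ x.1)⁻¹))⁻¹ = x.1
          rw [hσinv, inv_inv, hσσ]) }
    have hfO : ∀ x, x ∈ hOf.toFinset → f x ∈ hOf.toFinset := by
      intro x hx
      obtain ⟨c, rfl⟩ := (memO x).mp hx
      rw [memO]
      refine ⟨⟨σ c.1, hσC _ c.2⟩, ?_⟩
      apply Subtype.ext
      rw [hsmul]
      change σ c.1 * a * (σ c.1)⁻¹ = (σ (c.1 * a * c.1⁻¹))⁻¹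
      rw [hσ, hσ, hσa, hσinv]; group
    have hN : σA N = N⁻¹ := by
      have h1 : (∏ x ∈ hOf.toFinset, (σA x)⁻¹) = N := by
        refine Finset.prod_equiv f ?_ (fun x _ => rfl)
        intro x
        constructor
        · exact hfO x
        · intro hx
          have := hfO _ hx
          have h2 : f (f x) = x := f.left_inv x
          rwa [h2] at this
      rw [Finset.prod_inv_distrib] at h1
      rw [map_prod]
      exact inv_eq_iff_eq_inv.mp h1
    have hfin : σA u = u⁻¹ := by
      change σA (N * (a'⁻¹) ^ m) = (N * (a'⁻¹) ^ m)⁻¹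
      have h3 : σA a' = a'⁻¹ := Subtype.ext hσa
      rw [map_mul, map_pow, map_inv, h3, hN, mul_inv, inv_inv, inv_pow, inv_inv]
    exact congrArg Subtype.val hfin

end Pool.Agent.Helper29
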