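import Pool.Agent.Helper29.CovMeet

/-!
Building an embedding of an integral wreath product from an embedding of the lower part and an
element that moves the components cyclically.
-/

set_option autoImplicit false
set_option linter.unusedSectionVars false

namespace Pool.Agent.Helper29

/-- the extension of a map to the wreath product, reversing the labels -/
def swr {B J : Type} [AddCommGroup B] [AddCommGroup J] {ρ : B →+ J} {G : Type} (s : G → G)
    (t : Wr ρ G) : Wr ρ G := ⟨- t.q, fun i => s (t.f (-i))⟩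

theorem swr_mul {B J : Type} [AddCommGroup B] [AddCommGroup J] {ρ : B →+ J} {G : Type} [Group G]
    {s : G → G} (hs : ∀ a b, s (a * b) = s a * s b) (a b : Wr ρ G) :
    swr s (a * b) = swr s a * swr s b := by
  apply Wr.ext
  · change -(a.q + b.q) = -a.q + -b.q
    rw [neg_add]
  · funext i
    change s (a.f (-i + ρ b.q) * b.f (-i)) = s (a.f (-(i + ρ (-b.q)))) * s (b.f (-i))
    rw [hs]
    congr 3
    rw [map_neg]; abel

section build

variable {G H R : Type} [Group G] [Lattice G] [MulLeftMono G] [MulRightMono G]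
  [Group H] [Lattice H] [MulLeftMono H] [MulRightMono H]
  [AddCommGroup R] [LinearOrder R] [IsOrderedAddMonoid R]
  {p : ℕ} [Fact p.Prime] {ρ : R →+ ZMod p}

theorem pi_mem {I : Subgroup (Wr ρ G)} (F : ZMod p → G)
    (h : ∀ i, (Wr.single i (F i) : Wr ρ G) ∈ I) : (⟨0, F⟩ : Wr ρ G) ∈ I := by
  classical
  let K : Subgroup (ZMod p → G) :=
    { carrier := {F | (⟨0, F⟩ : Wr ρ G) ∈ I}
      mul_mem' := by
        intro a b ha hb
        have := I.mul_mem ha hb
        have e : (⟨0, a⟩ : Wr ρ G) * ⟨0, b⟩ = ⟨0, a * b⟩ := by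
          ext i
          · simp
          · simp
        rw [e] at this
        exact this
      one_mem' := I.one_mem
      inv_mem' := by
        intro a ha
        have := I.inv_mem ha
        have e : (⟨0, a⟩ : Wr ρ G)⁻¹ = ⟨0, a⁻¹⟩ := by
          ext i
          · simp
          · simp
        rw [e] at this
        exact this }
  have : F ∈ K := Subgroup.pi_mem_of_mulSingle_mem F (fun i => h i)
  exact this

theorem ab_zero (F : ZMod p → G) : ab (⟨0, F⟩ : Wr ρ G) = ⟨0, fun i => ab (F i)⟩ := by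
  have h6 : (⟨0, F⟩ : Wr ρ G)⁻¹ = ⟨0, fun ν => (F ν)⁻¹⟩ := by
    ext ν
    · simp
    · simp
  have h7 := Wr.sup_of_eq (ρ := ρ) (a := ⟨0, F⟩) (b := ⟨0, fun ν => (F ν)⁻¹⟩) rfl
  change (⟨0, F⟩ : Wr ρ G) ⊔ (⟨0, F⟩ : Wr ρ G)⁻¹ = _
  rw [h6, h7]; rfl

theorem zpow_add_f0 (x : Wr ρ G) (z w : ℤ) :
    (x ^ (z + w)).f 0 = (x ^ z).f (w * ρ x.q) * (x ^ w).f 0 := by
  rw [zpow_add, Wr.mul_f, Wr.zpow_q, map_zsmul, zero_add, zsmul_eq_mul]

theorem build {S I : Subgroup (Wr ρ G)} (hI : IdealIn S I) {x : Wr ρ G} (hx : x ∈ S)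
    (hxq : 0 < x.q) (hxρ : ρ x.q ≠ 0) (C0 : Subgroup G)
    (hC0 : ∀ t ∈ C0, (Wr.single 0 t : Wr ρ G) ∈ S)
    (hcomm : ∀ t ∈ C0, (x ^ p).f 0 * t = t * (x ^ p).f 0)
    (Φ' : H → G) (hmul : ∀ a b, Φ' (a * b) = Φ' a * Φ' b)
    (hsup : ∀ a b, Φ' (a ⊔ b) = Φ' a ⊔ Φ' b) (hmem : ∀ t, Φ' t ∈ C0)
    (hinj : ∀ t, (Wr.single 0 (Φ' t) : Wr ρ G) ∈ I → t = 1) (hnt : ∃ t : H, t ≠ 1) :
    ∃ Φ : Wr (Int.castAddHom (ZMod p)) H → Wr ρ G, (∀ a b, Φ (a * b) = Φ a * Φ b) ∧
      (∀ a b, Φ (a ⊔ b) = Φ a ⊔ Φ b) ∧ (∀ t, Φ t ∈ S) ∧ (∀ t, Φ t ∈ I → t = 1) ∧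
      ∀ (s : G → G) (s' : H → H), (∀ a b, s (a * b) = s a * s b) →
        (∀ t, Φ' (s' t) = s (Φ' t)) → swr s x = x⁻¹ → ∀ t, Φ (swr s' t) = swr s (Φ t) := by
  classical
  set c := ρ x.q with hc
  -- conjugating elements
  let E : ℤ → G := fun z => (x ^ z).f 0
  have hE : ∀ z w : ℤ, E (z + w) = (x ^ z).f (w * c) * E w := fun z w => zpow_add_f0 x z w
  let F : ℤ → H → G := fun z t => E z * Φ' t * (E z)⁻¹
  have hΦ1 : Φ' 1 = 1 := by
    have := hmul 1 1
    rw [mul_one] at this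
    exact mul_eq_left.mp this.symm
  have hΦinv : ∀ a, Φ' a⁻¹ = (Φ' a)⁻¹ := by
    intro a
    rw [eq_inv_iff_mul_eq_one, ← hmul, inv_mul_cancel, hΦ1]
  have hF1 : ∀ z, F z 1 = 1 := by
    intro z
    change E z * Φ' 1 * (E z)⁻¹ = 1
    rw [hΦ1]; group
  have hFmul : ∀ z a b, F z (a * b) = F z a * F z b := by
    intro z a b
    change E z * Φ' (a * b) * (E z)⁻¹ = E z * Φ' a * (E z)⁻¹ * (E z * Φ' b * (E z)⁻¹)
    rw [hmul]; group
  have hFsup : ∀ z a b, F z (a ⊔ b) = F z a ⊔ F z b := by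
    intro z a b
    change E z * Φ' (a ⊔ b) * (E z)⁻¹ = E z * Φ' a * (E z)⁻¹ ⊔ E z * Φ' b * (E z)⁻¹
    rw [hsup, mul_sup, sup_mul]
  have hFp : ∀ z t, F (z + p) t = F z t := by
    intro z t
    change E (z + p) * Φ' t * (E (z + p))⁻¹ = E z * Φ' t * (E z)⁻¹
    have h1 : E (z + p) = E z * (x ^ p).f 0 := by
      rw [hE]
      have h2 : ((p : ℤ) : ZMod p) = 0 := by simp
      rw [h2, zero_mul]
      change (x ^ z).f 0 * (x ^ (p : ℤ)).f 0 = (x ^ z).f 0 * (x ^ p).f 0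
      rw [zpow_natCast]
    rw [h1]
    have h3 := hcomm _ (hmem t)
    calc E z * (x ^ p).f 0 * Φ' t * (E z * (x ^ p).f 0)⁻¹
        = E z * ((x ^ p).f 0 * Φ' t) * ((x ^ p).f 0)⁻¹ * (E z)⁻¹ := by group
      _ = E z * (Φ' t * (x ^ p).f 0) * ((x ^ p).f 0)⁻¹ * (E z)⁻¹ := by rw [h3]
      _ = E z * Φ' t * (E z)⁻¹ := by group
  have hFpm : ∀ (m : ℤ) z t, F (z + m * p) t = F z t := by
    intro m
    induction m with
    | zero => intro z t; rw [zero_mul, add_zero]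
    | succ m ih =>
      intro z t
      have e : z + (m + 1) * p = (z + m * p) + p := by ring
      rw [e, hFp, ih]
    | pred m ih =>
      intro z t
      have e : z + (-m : ℤ) * p = (z + (-m - 1) * p) + p := by ring
      rw [← ih z t, e, hFp]
  have hFcong : ∀ z w : ℤ, (z : ZMod p) = w → ∀ t, F z t = F w t := by
    intro z w h t
    obtain ⟨m, hm⟩ := (ZMod.intCast_eq_intCast_iff_dvd_sub z w p).mp h
    have e : w = z + m * p := by rw [mul_comm m, ← hm]; ring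
    rw [e, hFpm]
  -- integer representatives
  have hrep : ∀ j : ZMod p, ∃ z : ℤ, (z : ZMod p) = j := fun j => ZMod.intCast_surjective j
  choose r hr using hrep
  let Fb : ZMod p → H → G := fun j t => F (r j) t
  have hFb : ∀ (z : ℤ) (j : ZMod p), (z : ZMod p) = j → ∀ t, Fb j t = F z t := by
    intro z j h t
    exact hFcong _ _ ((hr j).trans h.symm) t
  let Ψf : (ZMod p → H) → ZMod p → G := fun f ν => Fb (ν / c) (f (ν / c))
  let Ψ : (ZMod p → H) → Wr ρ G := fun f => ⟨0, Ψf f⟩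
  have hcc : ∀ ν : ZMod p, ν / c * c = ν := fun ν => div_mul_cancel₀ ν hxρ
  -- one component of Ψ as a conjugate
  have hconj : ∀ (z : ℤ) (t : H), x ^ z * Wr.single 0 (Φ' t) * (x ^ z)⁻¹ =
      Wr.single (z * c) (F z t) := by
    intro z t
    rw [Wr.conj_single, Wr.zpow_q, map_zsmul, zero_add, zsmul_eq_mul]
  have hΨmem : ∀ (K : Subgroup (Wr ρ G)) (f : ZMod p → H),
      (∀ s ∈ S, ∀ a ∈ K, s * a * s⁻¹ ∈ K) → (∀ j, (Wr.single 0 (Φ' (f j)) : Wr ρ G) ∈ K) →
      Ψ f ∈ K := by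
    intro K f hK hf
    apply pi_mem
    intro ν
    change Wr.single ν (Fb (ν / c) (f (ν / c))) ∈ K
    rw [hFb (r (ν / c)) (ν / c) (hr _)]
    have h1 := hK _ (S.zpow_mem hx (r (ν / c))) _ (hf (ν / c))
    rw [hconj, hr, hcc] at h1
    exact h1
  have hΨS : ∀ f, Ψ f ∈ S := fun f => hΨmem S f (ideal_self S).conj (fun j => hC0 _ (hmem _))
  have hΨmul : ∀ f g, Ψ (fun i => f i * g i) = Ψ f * Ψ g := by
    intro f g
    ext ν
    · simp [Ψ]
    · change Ψf (fun i => f i * g i) ν = Ψf f (ν + ρ 0) * Ψf g ν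
      rw [map_zero, add_zero]
      exact hFmul _ _ _
  have hΨcomm : ∀ (k : ℤ) (f : ZMod p → H), x ^ k * Ψ (fun i => f (i + k)) = Ψ f * x ^ k := by
    intro k f
    ext ν
    · simp [Ψ]
    · rw [Wr.mul_f, Wr.mul_f]
      change (x ^ k).f (ν + ρ 0) * Ψf (fun i => f (i + k)) ν =
        Ψf f (ν + ρ (x ^ k).q) * (x ^ k).f ν
      rw [map_zero, add_zero, Wr.zpow_q, map_zsmul, zsmul_eq_mul]
      set z := r (ν / c) with hz
      have hzc : (z : ZMod p) * c = ν := by rw [hz, hr, hcc]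
      have h1 : Ψf (fun i => f (i + k)) ν = F z (f (ν / c + k)) := rfl
      have h2 : Ψf f (ν + k * ρ x.q) = F (z + k) (f (ν / c + k)) := by
        have e : (ν + k * ρ x.q) / c = ν / c + k := by
          rw [add_div, ← hc, mul_div_cancel_right₀ _ hxρ]
        change Fb ((ν + k * ρ x.q) / c) (f ((ν + k * ρ x.q) / c)) = _
        rw [e]
        apply hFb
        push_cast
        rw [hz, hr]
      rw [h1, h2]
      have h3 : E (z + k) = (x ^ k).f ν * E z := by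
        rw [add_comm, hE, hzc]
      change (x ^ k).f ν * (E z * Φ' (f (ν / c + k)) * (E z)⁻¹) =
        E (z + k) * Φ' (f (ν / c + k)) * (E (z + k))⁻¹ * (x ^ k).f ν
      rw [h3]; group
  let Φ : Wr (Int.castAddHom (ZMod p)) H → Wr ρ G := fun t => x ^ t.q * Ψ t.f
  have hΦmul : ∀ a b, Φ (a * b) = Φ a * Φ b := by
    intro a b
    change x ^ (a.q + b.q) * Ψ (fun i => a.f (i + (b.q : ZMod p)) * b.f i) =
      x ^ a.q * Ψ a.f * (x ^ b.q * Ψ b.f)
    rw [hΨmul (fun i => a.f (i + (b.q : ZMod p))) b.f, zpow_add]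
    have := hΨcomm b.q a.f
    calc x ^ a.q * x ^ b.q * (Ψ (fun i => a.f (i + (b.q : ZMod p))) * Ψ b.f)
        = x ^ a.q * (x ^ b.q * Ψ (fun i => a.f (i + (b.q : ZMod p)))) * Ψ b.f := by group
      _ = x ^ a.q * (Ψ a.f * x ^ b.q) * Ψ b.f := by rw [this]
      _ = _ := by group
  have hΦq : ∀ t, (Φ t).q = t.q • x.q := by
    intro t
    change (x ^ t.q).q + 0 = _
    rw [add_zero, Wr.zpow_q]
  have hΦ0 : ∀ t : Wr (Int.castAddHom (ZMod p)) H, t.q = 0 → Φ t = Ψ t.f := by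
    intro t ht
    change x ^ t.q * Ψ t.f = _
    rw [ht, zpow_zero, one_mul]
  have hΦone : Φ 1 = 1 := by
    have := hΦmul 1 1
    rw [mul_one] at this
    exact mul_eq_left.mp this.symm
  have hΦsup1 : ∀ t, Φ (t ⊔ 1) = Φ t ⊔ 1 := by
    intro t
    rcases lt_trichotomy t.q 0 with h | h | h
    · rw [Wr.sup_of_lt (b := (1 : Wr (Int.castAddHom (ZMod p)) H)) h, hΦone, Wr.sup_of_lt]
      rw [hΦq]
      change t.q • x.q < 0
      exact smul_neg_of_neg_of_pos h hxq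
    · have h1 : (t ⊔ 1).q = 0 := by rw [Wr.sup_q, h]; rfl
      have h3 := sup_f (ρ := Int.castAddHom (ZMod p)) h (b := 1) rfl
      rw [hΦ0 _ h1, hΦ0 _ h]
      have h2 : (Ψ t.f ⊔ 1) = ⟨0, Ψf t.f ⊔ 1⟩ := Wr.sup_of_eq (b := (1 : Wr ρ G)) rfl
      rw [h2]
      apply Wr.ext
      · rfl
      · funext ν
        change F (r (ν / c)) ((t ⊔ 1).f (ν / c)) = F (r (ν / c)) (t.f (ν / c)) ⊔ 1
        rw [h3, Wr.one_f, hFsup, hF1]
    · rw [Wr.sup_of_gt (b := (1 : Wr (Int.castAddHom (ZMod p)) H)) h, Wr.sup_of_gt]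
      rw [hΦq]
      change 0 < t.q • x.q
      exact smul_pos h hxq
  refine ⟨Φ, hΦmul, ?_, ?_, ?_, ?_⟩
  · intro a b
    have e : a ⊔ b = (a * b⁻¹ ⊔ 1) * b := by
      rw [sup_mul, inv_mul_cancel_right, one_mul]
    rw [e, hΦmul, hΦsup1, sup_mul, one_mul, ← hΦmul, inv_mul_cancel_right]
  · intro t
    exact S.mul_mem (S.zpow_mem hx _) (hΨS _)
  · intro t ht
    have hq : t.q = 0 := by
      by_contra hq
      obtain ⟨t0, ht0⟩ := hnt
      apply ht0
      apply hinj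
      refine hI.solid (Φ t) ht _ (hC0 _ (hmem _)) ?_
      have h1 : (ab (Φ t)).q = |t.q • x.q| := by
        change (Φ t ⊔ (Φ t)⁻¹).q = _
        rw [Wr.sup_q, Wr.inv_q, hΦq]; rfl
      have h2 : (ab (Wr.single 0 (Φ' t0) : Wr ρ G)).q = 0 := by
        change (_ ⊔ _ : Wr ρ G).q = _
        rw [Wr.sup_q, Wr.inv_q]
        simp
      apply Wr.le_of_q_lt
      rw [h1, h2]
      apply abs_pos.mpr
      rw [smul_ne_zero_iff]
      exact ⟨hq, hxq.ne'⟩
    rw [hΦ0 t hq] at ht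
    apply Wr.ext
    · exact hq
    · funext j
      change t.f j = 1
      apply hinj
      have h1 : (Wr.single (r j * c) (F (r j) (t.f j)) : Wr ρ G) ∈ S := by
        rw [← hconj]
        exact (ideal_self S).conj _ (S.zpow_mem hx _) _ (hC0 _ (hmem _))
      have hjc : (r j : ZMod p) * c / c = j := by rw [hr, mul_div_cancel_right₀ _ hxρ]
      have h2 : (Wr.single (r j * c) (F (r j) (t.f j)) : Wr ρ G) ∈ I := by
        refine hI.solid _ ht _ h1 ?_
        have e1 := ab_zero (ρ := ρ) (Pi.mulSingle ((r j : ZMod p) * c) (F (r j) (t.f j)))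
        have e2 := ab_zero (ρ := ρ) (Ψf t.f)
        change ab (⟨0, Pi.mulSingle ((r j : ZMod p) * c) (F (r j) (t.f j))⟩ : Wr ρ G) ≤
          ab (⟨0, Ψf t.f⟩ : Wr ρ G)
        rw [e1, e2]
        refine Or.inr ⟨rfl, fun ν => ?_⟩
        by_cases hν : ν = r j * c
        · subst hν
          change ab ((Pi.mulSingle ((r j : ZMod p) * c) (F (r j) (t.f j)) : ZMod p → G) _) ≤
            ab (F (r ((r j : ZMod p) * c / c)) (t.f ((r j : ZMod p) * c / c)))
          rw [hjc, Pi.mulSingle_eq_same]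
        · change ab ((Pi.mulSingle ((r j : ZMod p) * c) (F (r j) (t.f j)) : ZMod p → G) ν) ≤ _
          rw [Pi.mulSingle_eq_of_ne hν, ab_one]
          exact one_le_ab _
      rw [← hconj] at h2
      have h3 := hI.conj' (S.zpow_mem hx (r j)) h2
      have e : (x ^ r j)⁻¹ * (x ^ r j * Wr.single 0 (Φ' (t.f j)) * (x ^ r j)⁻¹) * x ^ r j =
        Wr.single 0 (Φ' (t.f j)) := by group
      rwa [e] at h3
  · intro s s' hs hss hsx t
    have hs1 : s 1 = 1 := by
      have := hs 1 1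
      rw [mul_one] at this
      exact mul_eq_left.mp this.symm
    have hsinv : ∀ a, s a⁻¹ = (s a)⁻¹ := by
      intro a
      rw [eq_inv_iff_mul_eq_one, ← hs, inv_mul_cancel, hs1]
    have hW1 : swr s (1 : Wr ρ G) = 1 := by
      have := swr_mul hs (1 : Wr ρ G) 1
      rw [mul_one] at this
      exact mul_eq_left.mp this.symm
    have hWinv : ∀ a : Wr ρ G, swr s a⁻¹ = (swr s a)⁻¹ := by
      intro a
      rw [eq_inv_iff_mul_eq_one, ← swr_mul hs, inv_mul_cancel, hW1]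
    let W : Wr ρ G →* Wr ρ G := MonoidHom.mk' (swr s) (swr_mul hs)
    have hWz : ∀ z : ℤ, swr s (x ^ z) = x ^ (-z) := by
      intro z
      have h1 : W (x ^ z) = (W x) ^ z := map_zpow W x z
      have h2 : W x = x⁻¹ := hsx
      have h3 : swr s (x ^ z) = (x⁻¹) ^ z := by rw [← h2]; exact h1
      rw [h3, inv_zpow, zpow_neg]
    have hsE : ∀ z, s (E z) = E (-z) := by
      intro z
      have h1 : (swr s (x ^ z)).f 0 = (x ^ (-z)).f 0 := by rw [hWz]
      have h2 : (swr s (x ^ z)).f 0 = s ((x ^ z).f (-0)) := rfl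
      rw [neg_zero] at h2
      exact h2.symm.trans h1
    have hsF : ∀ z t, s (F z t) = F (-z) (s' t) := by
      intro z t
      change s (E z * Φ' t * (E z)⁻¹) = E (-z) * Φ' (s' t) * (E (-z))⁻¹
      rw [hs, hs, hsinv, hsE, hss]
    have hsΨ : ∀ f, swr s (Ψ f) = Ψ (fun i => s' (f (-i))) := by
      intro f
      apply Wr.ext
      · change (-0 : R) = 0
        rw [neg_zero]
      · funext ν
        change s (F (r (-ν / c)) (f (-ν / c))) = Fb (ν / c) (s' (f (-(ν / c))))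
        rw [hsF, neg_div]
        symm
        apply hFb
        push_cast
        rw [hr, neg_neg]
    change x ^ (- t.q) * Ψ (fun i => s' (t.f (-i))) = swr s (x ^ t.q * Ψ t.f)
    rw [swr_mul hs, hWz, hsΨ]

end build

end Pool.Agent.Helper29
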