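import Pool.Agent.Helper29.MDefs

/-!
Basic lemmas on varieties of m-groups.
-/

set_option autoImplicit false
set_option linter.unusedSectionVars false

namespace Pool.Agent.Helper29

namespace MGroup

variable (G : MGroup)

theorem star_one : G.star 1 = 1 := by
  have := G.star_mul 1 1
  rw [mul_one] at this
  exact mul_eq_left.mp this.symm

theorem star_inv (x : G.carrier) : G.star x⁻¹ = (G.star x)⁻¹ := by
  symm
  rw [inv_eq_iff_mul_eq_one, ← G.star_mul, mul_inv_cancel, G.star_one]

theorem star_anti {x y : G.carrier} (h : x ≤ y) : G.star y ≤ G.star x := by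
  have := G.star_sup x y
  rw [sup_eq_right.mpr h] at this
  rw [this]; exact inf_le_left

theorem star_inj {x y : G.carrier} (h : G.star x = G.star y) : x = y := by
  have := congrArg G.star h
  rwa [G.star_star, G.star_star] at this

end MGroup

/-- A class of m-groups defined by identities is closed under relational images of products. -/
theorem relHSP {E : Set (MTerm × MTerm)} {ι : Type} (A : ι → MGroup) (hA : ∀ i, A i ∈ Models E)
    (B : MGroup) (R : (∀ i, (A i).carrier) → B.carrier → Prop)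
    (hone : R 1 1)
    (hmul : ∀ p q a b, R p a → R q b → R (p * q) (a * b))
    (hinv : ∀ p a, R p a → R p⁻¹ a⁻¹)
    (hsup : ∀ p q a b, R p a → R q b → R (p ⊔ q) (a ⊔ b))
    (hinf : ∀ p q a b, R p a → R q b → R (p ⊓ q) (a ⊓ b))
    (hstar : ∀ p a, R p a → R (fun i => (A i).star (p i)) (B.star a))
    (htot : ∀ b, ∃ p, R p b)
    (hfun : ∀ p a b, R p a → R p b → a = b) : B ∈ Models E := by
  intro e he w
  choose p hp using fun n => htot (w n)
  have key : ∀ t : MTerm, R (fun i => (A i).eval (fun n => p n i) t) (B.eval w t) := by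
    intro t
    induction t with
    | var n => exact hp n
    | one => exact hone
    | mul s t hs ht => exact hmul _ _ _ _ hs ht
    | inv s hs => exact hinv _ _ hs
    | sup s t hs ht => exact hsup _ _ _ _ hs ht
    | inf s t hs ht => exact hinf _ _ _ _ hs ht
    | star s hs => exact hstar _ _ hs
  apply hfun _ _ _ (key e.1)
  have h2 := key e.2
  have : (fun i => (A i).eval (fun n => p n i) e.1) = (fun i => (A i).eval (fun n => p n i) e.2) :=
    funext fun i => hA i e he _
  rw [this]; exact h2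

/-- Closure under images of embeddings / subalgebras: `B` embeds in `A`. -/
theorem mem_of_embedding {E : Set (MTerm × MTerm)} (A B : MGroup) (hA : A ∈ Models E)
    (f : B.carrier → A.carrier) (hinj : Function.Injective f)
    (hmul : ∀ x y, f (x * y) = f x * f y)
    (hsup : ∀ x y, f (x ⊔ y) = f x ⊔ f y)
    (hstar : ∀ x, f (B.star x) = A.star (f x)) : B ∈ Models E := by
  have hone : f 1 = 1 := by
    have := hmul 1 1
    rw [mul_one] at this
    exact mul_eq_left.mp this.symm
  have hinv : ∀ x, f x⁻¹ = (f x)⁻¹ := by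
    intro x
    symm
    rw [inv_eq_iff_mul_eq_one, ← hmul, mul_inv_cancel, hone]
  have hinf : ∀ x y, f (x ⊓ y) = f x ⊓ f y := by
    intro x y
    have e : x ⊓ y = (x⁻¹ ⊔ y⁻¹)⁻¹ := by rw [inv_sup, inv_inv, inv_inv]
    rw [e, hinv, hsup, hinv, hinv, inv_sup, inv_inv, inv_inv]
  refine relHSP (ι := Unit) (fun _ => A) (fun _ => hA) B (fun p b => p () = f b) ?_ ?_ ?_ ?_ ?_ ?_ ?_ ?_
  · exact hone.symm
  · intro p q a b h1 h2
    change p () * q () = _
    rw [h1, h2, hmul]
  · intro p a h1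
    change (p ())⁻¹ = _
    rw [h1, hinv]
  · intro p q a b h1 h2
    change p () ⊔ q () = _
    rw [h1, h2, hsup]
  · intro p q a b h1 h2
    change p () ⊓ q () = _
    rw [h1, h2, hinf]
  · intro p a h1
    change A.star (p ()) = _
    rw [h1, hstar]
  · intro b
    exact ⟨fun _ => f b, rfl⟩
  · intro p a b h1 h2
    exact hinj (h1.symm.trans h2)

theorem models_subset_of {X : Set MGroup} (hX : IsVariety X) {Y : Set MGroup}
    (h : ∀ E : Set (MTerm × MTerm), X = Models E → Y ⊆ Models E) : Y ⊆ X := by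
  obtain ⟨E, hE⟩ := hX
  have := h E hE
  rwa [← hE] at this

theorem prodVar_mono {X X' Y Y' : Set MGroup} (h1 : X ⊆ X') (h2 : Y ⊆ Y') :
    prodVar X Y ⊆ prodVar X' Y' := by
  rintro G ⟨H, hH, hq⟩
  exact ⟨H, h1 hH, h2 hq⟩

/-- If `X` is idempotent and contains all the factors then it contains the products. -/
theorem prodSeq_subset {X : Set MGroup} (hidem : prodVar X X = X) {ε : ℕ → Bool}
    (h : ∀ n, digitVar (ε n) ⊆ X) (n : ℕ) : prodSeq ε n ⊆ X := by
  induction n with
  | zero => exact h 0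
  | succ n ih =>
    calc prodSeq ε (n + 1) = prodVar (prodSeq ε n) (digitVar (ε (n + 1))) := rfl
      _ ⊆ prodVar X X := prodVar_mono ih (h _)
      _ = X := hidem

theorem seqVar_subset {X : Set MGroup} (hX : IsVariety X) (hidem : prodVar X X = X)
    {ε : ℕ → Bool} (h : ∀ n, digitVar (ε n) ⊆ X) : seqVar ε ⊆ X := by
  intro G hG
  exact hG X hX (fun n => prodSeq_subset hidem h n)

/-- An m-group with a finite series of m-ideals. -/
structure Series (G : MGroup) (n : ℕ) where
  /-- the terms of the series -/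
  H : ℕ → Set G.carrier
  zero : H 0 = {1}
  top : H (n + 1) = Set.univ
  one_mem : ∀ i, (1 : G.carrier) ∈ H i
  mul_mem : ∀ i, ∀ a ∈ H i, ∀ b ∈ H i, a * b ∈ H i
  inv_mem : ∀ i, ∀ a ∈ H i, a⁻¹ ∈ H i
  sup_mem : ∀ i, ∀ a ∈ H i, ∀ b ∈ H i, a ⊔ b ∈ H i
  inf_mem : ∀ i, ∀ a ∈ H i, ∀ b ∈ H i, a ⊓ b ∈ H i
  star_mem : ∀ i, ∀ a ∈ H i, G.star a ∈ H i
  convex : ∀ i, ∀ a ∈ H i, ∀ b ∈ H i, ∀ c, a ≤ c → c ≤ b → c ∈ H i
  conj_mem : ∀ i, ∀ a ∈ H i, ∀ g, g * a * g⁻¹ ∈ H i
  mono : ∀ i, H i ⊆ H (i + 1)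

namespace Series

variable {G : MGroup} {n : ℕ} (S : Series G n)

/-- the terms as m-ideals -/
def ideal (i : ℕ) : MIdeal G where
  toSubgroup :=
    { carrier := S.H i
      mul_mem' := fun {a b} ha hb => S.mul_mem i a ha b hb
      one_mem' := S.one_mem i
      inv_mem' := fun {a} ha => S.inv_mem i a ha }
  normal := ⟨fun a ha g => S.conj_mem i a ha g⟩
  sup_mem := S.sup_mem i
  inf_mem := S.inf_mem i
  convex := S.convex i
  star_mem := S.star_mem i

end Series

namespace Series

variable {G : MGroup} {n : ℕ}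

/-- the series of the last but one term -/
def restrict (S : Series G (n + 1)) : Series (S.ideal (n + 1)).toMGroup n where
  H := fun i => {x | x.1 ∈ S.H i}
  zero := by
    ext x
    constructor
    · intro h
      have : x.1 ∈ S.H 0 := h
      rw [S.zero] at this
      exact Subtype.ext this
    · rintro rfl
      exact S.one_mem 0
  top := by
    ext x
    simp only [Set.mem_univ, iff_true]
    exact x.2
  one_mem := fun i => S.one_mem i
  mul_mem := fun i a ha b hb => S.mul_mem i a.1 ha b.1 hb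
  inv_mem := fun i a ha => S.inv_mem i a.1 ha
  sup_mem := fun i a ha b hb => S.sup_mem i a.1 ha b.1 hb
  inf_mem := fun i a ha b hb => S.inf_mem i a.1 ha b.1 hb
  star_mem := fun i a ha => S.star_mem i a.1 ha
  convex := fun i a ha b hb c h1 h2 => S.convex i a.1 ha b.1 hb c.1 h1 h2
  conj_mem := fun i a ha g => S.conj_mem i a.1 ha g.1
  mono := fun i a ha => S.mono i ha

/-- The condition on the factors of a series. -/
def Factors (S : Series G n) (ε : ℕ → Bool) : Prop :=
  ∀ i, (ε i = false → ∀ a ∈ S.H (i + 1), G.star a * a ∈ S.H i) ∧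
    (ε i = true → ∀ a ∈ S.H (i + 1), ∀ b ∈ S.H (i + 1), a * b * a⁻¹ * b⁻¹ ∈ S.H i)

theorem mem_prodSeq (ε : ℕ → Bool) (n : ℕ) : ∀ (G : MGroup) (S : Series G n), S.Factors ε →
    G ∈ prodSeq ε n := by
  induction n with
  | zero =>
    intro G S hS
    change G ∈ digitVar (ε 0)
    obtain ⟨h1, h2⟩ := hS 0
    have ht : ∀ x, x ∈ S.H (0 + 1) := fun x => by rw [S.top]; trivial
    cases h : ε 0
    · intro x
      have := h1 h x (ht x)
      rw [S.zero] at this
      exact eq_inv_of_mul_eq_one_left this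
    · intro x y
      have := h2 h x (ht x) y (ht y)
      rw [S.zero] at this
      have h3 : x * y * x⁻¹ * y⁻¹ = 1 := this
      calc x * y = (x * y * x⁻¹ * y⁻¹) * (y * x) := by group
        _ = y * x := by rw [h3, one_mul]
  | succ n ih =>
    intro G S hS
    refine ⟨S.ideal (n + 1), ?_, ?_⟩
    · apply ih _ S.restrict
      intro i
      obtain ⟨h1, h2⟩ := hS i
      exact ⟨fun h a ha => h1 h a.1 ha, fun h a ha b hb => h2 h a.1 ha b.1 hb⟩
    · obtain ⟨h1, h2⟩ := hS (n + 1)
      have ht : ∀ x, x ∈ S.H (n + 1 + 1) := fun x => by rw [S.top]; trivial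
      cases h : ε (n + 1)
      · rintro ⟨x⟩
        have h3 := h1 h x (ht x)
        change (Quotient.mk'' (G.star x) : G.carrier ⧸ (S.ideal (n + 1)).toSubgroup) =
          Quotient.mk'' x⁻¹
        apply QuotientGroup.eq.mpr
        change (G.star x)⁻¹ * x⁻¹ ∈ S.H (n + 1)
        have h4 := S.inv_mem _ _ (S.conj_mem _ _ h3 x)
        have e : (x * (G.star x * x) * x⁻¹)⁻¹ = (G.star x)⁻¹ * x⁻¹ := by group
        rwa [e] at h4
      · rintro ⟨x⟩ ⟨y⟩
        have h3 := h2 h x⁻¹ (ht _) y⁻¹ (ht _)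
        change (Quotient.mk'' (x * y) : G.carrier ⧸ (S.ideal (n + 1)).toSubgroup) =
          Quotient.mk'' (y * x)
        apply QuotientGroup.eq.mpr
        change (x * y)⁻¹ * (y * x) ∈ S.H (n + 1)
        have h4 := h2 h y⁻¹ (ht _) x⁻¹ (ht _)
        have e : y⁻¹ * x⁻¹ * y⁻¹⁻¹ * x⁻¹⁻¹ = (x * y)⁻¹ * (y * x) := by group
        rwa [e] at h4

theorem mem_of_series {Y : Set MGroup} {ε : ℕ → Bool} (h : ∀ n, prodSeq ε n ⊆ Y)
    {G : MGroup} {n : ℕ} (S : Series G n) (hS : S.Factors ε) : G ∈ Y :=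
  h n (mem_prodSeq ε n G S hS)

end Series

end Pool.Agent.Helper29
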