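import Pool.Agent.Helper29.CovStep
import Pool.Agent.Helper29.MVar

/-!
Ultrapowers of iterated periodic wreath products.
-/

set_option autoImplicit false
set_option linter.unusedSectionVars false

namespace Pool.Agent.Helper29

open Filter

section germ

variable {X : Type} (U : Ultrafilter X) (P : PS)

theorem germ_const {β : Type} [Finite β] (g : (U : Filter X).Germ β) :
    ∃ c : β, g = (↑c : (U : Filter X).Germ β) := by
  induction g using Filter.Germ.inductionOn with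
  | _ f =>
    have h : ∀ᶠ x in (U : Filter X), ∃ c, f x = c := Eventually.of_forall (fun x => ⟨_, rfl⟩)
    obtain ⟨c, hc⟩ := U.eventually_exists_iff.mp h
    exact ⟨c, Filter.Germ.coe_eq.mpr hc⟩

/-- the residue of a germ -/
noncomputable def gres (p : ℕ) [NeZero p] (g : (U : Filter X).Germ ℤ) : ZMod p :=
  (germ_const U (g.map (fun z : ℤ => (z : ZMod p)))).choose

theorem gres_spec (p : ℕ) [NeZero p] (g : (U : Filter X).Germ ℤ) :
    g.map (fun z : ℤ => (z : ZMod p)) = (↑(gres U p g) : (U : Filter X).Germ (ZMod p)) :=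
  (germ_const U (g.map (fun z : ℤ => (z : ZMod p)))).choose_spec

theorem gres_coe (p : ℕ) [NeZero p] (f : X → ℤ) :
    ∀ᶠ x in (U : Filter X), ((f x : ℤ) : ZMod p) = gres U p ↑f := by
  have := gres_spec U p (↑f)
  exact Filter.Germ.coe_eq.mp this

/-- the residue maps of the ultrapower -/
noncomputable def ρG : ∀ n, (U : Filter X).Germ ℤ →+ ZMod (P.p n) := fun n =>
  AddMonoidHom.mk' (gres U (P.p n)) (by
    intro a b
    induction a using Filter.Germ.inductionOn with
    | _ f =>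
      induction b using Filter.Germ.inductionOn with
      | _ g =>
        have h1 := gres_coe U (P.p n) f
        have h2 := gres_coe U (P.p n) g
        have h3 := gres_coe U (P.p n) (f + g)
        obtain ⟨x, h1, h2, h3⟩ := (h1.and (h2.and h3)).exists
        change gres U (P.p n) (↑(f + g)) = _
        rw [← h1, ← h2, ← h3, Pi.add_apply]
        push_cast; rfl)

theorem ρG_coe (n : ℕ) (f : X → ℤ) :
    ∀ᶠ x in (U : Filter X), ρZ P n (f x) = ρG U P n ↑f := gres_coe U (P.p n) f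

/-- the map to the wreath product over the ultrapower -/
noncomputable def phi : ∀ n, (X → Tw P (ρZ P) n) → Tw P (ρG U P) n
  | 0, _ => ()
  | n + 1, t => (⟨(↑(fun x => (t x).q) : (U : Filter X).Germ ℤ), fun i => phi n (fun x => (t x).f i)⟩ :
      Wr (ρG U P n) (Tw P (ρG U P) n))

theorem phi_congr : ∀ n (t t' : X → Tw P (ρZ P) n), (∀ᶠ x in (U : Filter X), t x = t' x) →
    phi U P n t = phi U P n t'
  | 0, _, _, _ => rfl
  | n + 1, t, t', h => by
    apply Wr.ext
    · apply Filter.Germ.coe_eq.mpr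
      filter_upwards [h] with x hx
      rw [hx]
    · funext i
      apply phi_congr n
      filter_upwards [h] with x hx
      rw [hx]

theorem phi_mul : ∀ n (t t' : X → Tw P (ρZ P) n),
    phi U P n (t * t') = phi U P n t * phi U P n t'
  | 0, _, _ => rfl
  | n + 1, t, t' => by
    apply Wr.ext
    · rfl
    · funext i
      change phi U P n (fun x => (t x).f (i + ρZ P n (t' x).q) * (t' x).f i) =
        phi U P n (fun x => (t x).f (i + ρG U P n ↑(fun x => (t' x).q))) *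
          phi U P n (fun x => (t' x).f i)
      rw [← phi_mul n]
      apply phi_congr
      filter_upwards [ρG_coe U P n (fun x => (t' x).q)] with x hx
      rw [hx]; rfl

theorem phi_sup : ∀ n (t t' : X → Tw P (ρZ P) n),
    phi U P n (t ⊔ t') = phi U P n t ⊔ phi U P n t'
  | 0, _, _ => rfl
  | n + 1, t, t' => by
    have h : ∀ᶠ x in (U : Filter X), (t x).q < (t' x).q ∨ ((t x).q = (t' x).q ∨
        (t' x).q < (t x).q) := Eventually.of_forall (fun x => lt_trichotomy _ _)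
    rw [Ultrafilter.eventually_or, Ultrafilter.eventually_or] at h
    rcases h with h | h | h
    · have h1 : phi U P (n + 1) (t ⊔ t') = phi U P (n + 1) t' := by
        apply phi_congr
        filter_upwards [h] with x hx
        exact Wr.sup_of_lt hx
      have h2 : (phi U P (n + 1) t).q < (phi U P (n + 1) t').q := Filter.Germ.coe_lt.mpr h
      rw [h1]
      exact (Wr.sup_of_lt h2).symm
    · have h2 : (phi U P (n + 1) t).q = (phi U P (n + 1) t').q := Filter.Germ.coe_eq.mpr h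
      refine Eq.trans ?_ (Wr.sup_of_eq h2).symm
      apply Wr.ext
      · apply Filter.Germ.coe_eq.mpr
        filter_upwards [h] with x hx
        exact (congrArg Wr.q (Wr.sup_of_eq hx)).trans rfl
      · funext i
        change phi U P n (fun x => ((t ⊔ t') x).f i) =
          phi U P n (fun x => (t x).f i) ⊔ phi U P n (fun x => (t' x).f i)
        rw [← phi_sup n]
        apply phi_congr
        filter_upwards [h] with x hx
        exact congrFun (congrArg Wr.f (Wr.sup_of_eq hx)) i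
    · have h1 : phi U P (n + 1) (t ⊔ t') = phi U P (n + 1) t := by
        apply phi_congr
        filter_upwards [h] with x hx
        exact Wr.sup_of_gt hx
      have h2 : (phi U P (n + 1) t').q < (phi U P (n + 1) t).q := Filter.Germ.coe_lt.mpr h
      rw [h1]
      exact (Wr.sup_of_gt h2).symm

theorem phi_sg : ∀ n (t : X → Tw P (ρZ P) n),
    phi U P n (fun x => sg P (ρZ P) n (t x)) = sg P (ρG U P) n (phi U P n t)
  | 0, _ => rfl
  | n + 1, t => by
    apply Wr.ext
    · rfl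
    · funext i
      exact phi_sg n _

theorem phi_eq : ∀ n (t t' : X → Tw P (ρZ P) n), phi U P n t = phi U P n t' →
    ∀ᶠ x in (U : Filter X), t x = t' x
  | 0, _, _, _ => Eventually.of_forall (fun _ => rfl)
  | n + 1, t, t', h => by
    have h1 : ∀ᶠ x in (U : Filter X), (t x).q = (t' x).q :=
      Filter.Germ.coe_eq.mp (congrArg Wr.q h)
    have h2 : ∀ᶠ x in (U : Filter X), ∀ i, (t x).f i = (t' x).f i := by
      rw [eventually_all]
      intro i
      exact phi_eq n _ _ (congrFun (congrArg Wr.f h) i)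
    filter_upwards [h1, h2] with x hx1 hx2
    exact Wr.ext hx1 (funext hx2)

end germ

section jonsson

variable (T K : MGroup) (v : ℕ → K.carrier)

/-- term functions -/
def ev (t : MTerm) : (ℕ → T.carrier) → T.carrier := fun x => T.eval x t

/-- the algebra of term functions -/
def S0 : Subgroup ((ℕ → T.carrier) → T.carrier) where
  carrier := {s | ∃ t, ev T t = s}
  mul_mem' := by
    rintro _ _ ⟨t, rfl⟩ ⟨u, rfl⟩
    exact ⟨MTerm.mul t u, rfl⟩
  one_mem' := ⟨MTerm.one, rfl⟩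
  inv_mem' := by
    rintro _ ⟨t, rfl⟩
    exact ⟨MTerm.inv t, rfl⟩

theorem S0_sl : SL (S0 T) := by
  rintro _ ⟨t, rfl⟩ _ ⟨u, rfl⟩
  exact ⟨MTerm.sup t u, rfl⟩

theorem S0_star {s : (ℕ → T.carrier) → T.carrier} (h : s ∈ S0 T) :
    (fun x => T.star (s x)) ∈ S0 T := by
  obtain ⟨t, rfl⟩ := h
  exact ⟨MTerm.star t, rfl⟩

open Classical in
/-- the value in `K` of a term function of `T` -/
noncomputable def pk (s : (ℕ → T.carrier) → T.carrier) : K.carrier :=
  if h : ∃ t, ev T t = s then K.eval v h.choose else 1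

variable {T K v}

theorem pk_ev (hKT : ∀ e, T.Satisfies e → K.Satisfies e) (t : MTerm) :
    pk T K v (ev T t) = K.eval v t := by
  have h : ∃ u, ev T u = ev T t := ⟨t, rfl⟩
  unfold pk
  rw [dif_pos h]
  have h1 : T.Satisfies (h.choose, t) := fun w => congrFun h.choose_spec w
  exact hKT _ h1 v

theorem pk_mul (hKT : ∀ e, T.Satisfies e → K.Satisfies e) :
    ∀ a ∈ S0 T, ∀ b ∈ S0 T, pk T K v (a * b) = pk T K v a * pk T K v b := by
  rintro _ ⟨t, rfl⟩ _ ⟨u, rfl⟩
  have : ev T t * ev T u = ev T (MTerm.mul t u) := rfl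
  rw [this, pk_ev hKT, pk_ev hKT, pk_ev hKT]; rfl

theorem pk_sup (hKT : ∀ e, T.Satisfies e → K.Satisfies e) :
    ∀ a ∈ S0 T, ∀ b ∈ S0 T, pk T K v (a ⊔ b) = pk T K v a ⊔ pk T K v b := by
  rintro _ ⟨t, rfl⟩ _ ⟨u, rfl⟩
  have : ev T t ⊔ ev T u = ev T (MTerm.sup t u) := rfl
  rw [this, pk_ev hKT, pk_ev hKT, pk_ev hKT]; rfl

theorem pk_star (hKT : ∀ e, T.Satisfies e → K.Satisfies e) :
    ∀ a ∈ S0 T, pk T K v (fun x => T.star (a x)) = K.star (pk T K v a) := by
  rintro _ ⟨t, rfl⟩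
  have : (fun x => T.star (ev T t x)) = ev T (MTerm.star t) := rfl
  rw [this, pk_ev hKT, pk_ev hKT]; rfl

instance piML {X : Type} {T : MGroup} : MulLeftMono (X → T.carrier) :=
  ⟨fun c _ _ h i => mul_le_mul_right (h i) (c i)⟩
instance piMR {X : Type} {T : MGroup} : MulRightMono (X → T.carrier) :=
  ⟨fun c _ _ h i => mul_le_mul_left (h i) (c i)⟩

/-- The ultrafilter. -/
theorem exists_ultra (hKT : ∀ e, T.Satisfies e → K.Satisfies e)
    {g : (ℕ → T.carrier) → T.carrier} (hg : g ∈ S0 T) (hg1 : pk T K v g ≠ 1) :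
    ∃ U : Ultrafilter (ℕ → T.carrier), ∀ i ∈ S0 T, pk T K v i = 1 →
      ∀ᶠ x in (U : Filter (ℕ → T.carrier)), ¬ ab (g x) ≤ ab (i x) := by
  have hinv := fun a (ha : a ∈ S0 T) => map_inv_of (pk_mul (v := v) hKT) ha
  have hab : ∀ a ∈ S0 T, pk T K v (ab a) = ab (pk T K v a) := by
    intro a ha
    unfold ab
    rw [pk_sup hKT a ha _ ((S0 T).inv_mem ha), hinv a ha]
  have hone : pk T K v 1 = 1 := map_one_of (pk_mul (v := v) hKT)
  let F : Filter (ℕ → T.carrier) :=
    { sets := {s | ∃ i ∈ S0 T, pk T K v i = 1 ∧ ∀ x, ¬ ab (g x) ≤ ab (i x) → x ∈ s}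
      univ_sets := ⟨1, (S0 T).one_mem, hone, fun _ _ => trivial⟩
      sets_of_superset := by
        rintro s t ⟨i, h1, h2, h3⟩ hst
        exact ⟨i, h1, h2, fun x hx => hst (h3 x hx)⟩
      inter_sets := by
        rintro s t ⟨i, h1, h2, h3⟩ ⟨j, k1, k2, k3⟩
        refine ⟨ab i * ab j, (S0 T).mul_mem ((S0_sl T).ab h1) ((S0_sl T).ab k1), ?_, ?_⟩
        · rw [pk_mul hKT _ ((S0_sl T).ab h1) _ ((S0_sl T).ab k1), hab i h1, hab j k1, h2, k2,
            ab_one, one_mul]
        · intro x hx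
          have e : ab ((ab i * ab j) x) = ab (i x) * ab (j x) := by
            change ab (ab (i x) * ab (j x)) = _
            exact ab_of_one_le (one_le_mul (one_le_ab _) (one_le_ab _))
          rw [e] at hx
          refine ⟨h3 x (fun h => hx ?_), k3 x (fun h => hx ?_)⟩
          · exact h.trans (le_mul_of_one_le_right' (one_le_ab _))
          · exact h.trans (le_mul_of_one_le_left' (one_le_ab _)) }
  have hF : F.NeBot := by
    rw [neBot_iff]
    intro h
    have h0 : (∅ : Set (ℕ → T.carrier)) ∈ F := by rw [h]; exact mem_bot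
    obtain ⟨i, h1, h2, h3⟩ := h0
    have h4 : ab g ≤ ab i := by
      intro x
      by_contra hx
      exact h3 x hx
    have h5 : pk T K v (ab g) ≤ pk T K v (ab i) := by
      have := pk_sup (v := v) hKT _ ((S0_sl T).ab hg) _ ((S0_sl T).ab h1)
      rw [sup_eq_right.mpr h4] at this
      rw [this]; exact le_sup_left
    rw [hab g hg, hab i h1, h2, ab_one] at h5
    exact hg1 (ab_eq_one h5)
  obtain ⟨U, hU⟩ := @Ultrafilter.exists_le _ F hF
  exact ⟨U, fun i h1 h2 => hU ⟨i, h1, h2, fun x hx => hx⟩⟩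

/-- The kernel. -/
def kerI (hKT : ∀ e, T.Satisfies e → K.Satisfies e) :
    Subgroup ((ℕ → T.carrier) → T.carrier) where
  carrier := {s | s ∈ S0 T ∧ pk T K v s = 1}
  mul_mem' := by
    rintro a b ⟨ha, ha'⟩ ⟨hb, hb'⟩
    exact ⟨(S0 T).mul_mem ha hb, by rw [pk_mul hKT a ha b hb, ha', hb', one_mul]⟩
  one_mem' := ⟨(S0 T).one_mem, map_one_of (pk_mul (v := v) hKT)⟩
  inv_mem' := by
    rintro a ⟨ha, ha'⟩
    exact ⟨(S0 T).inv_mem ha, by rw [map_inv_of (pk_mul (v := v) hKT) ha, ha', inv_one]⟩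

theorem pk_ab (hKT : ∀ e, T.Satisfies e → K.Satisfies e) :
    ∀ a ∈ S0 T, pk T K v (ab a) = ab (pk T K v a) := by
  intro a ha
  unfold ab
  rw [pk_sup hKT a ha _ ((S0 T).inv_mem ha), map_inv_of (pk_mul (v := v) hKT) ha]

theorem pk_le (hKT : ∀ e, T.Satisfies e → K.Satisfies e) {a b : (ℕ → T.carrier) → T.carrier}
    (ha : a ∈ S0 T) (hb : b ∈ S0 T) (h : a ≤ b) : pk T K v a ≤ pk T K v b := by
  have := pk_sup (v := v) hKT a ha b hb
  rw [sup_eq_right.mpr h] at this
  rw [this]; exact le_sup_left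

theorem kerI_ideal (hKT : ∀ e, T.Satisfies e → K.Satisfies e) :
    IdealIn (S0 T) (kerI (v := v) hKT) := by
  refine ⟨fun a ha => ha.1, ?_, ?_⟩
  · rintro s hs c ⟨hc, hc'⟩
    refine ⟨(S0 T).mul_mem ((S0 T).mul_mem hs hc) ((S0 T).inv_mem hs), ?_⟩
    rw [pk_mul hKT _ ((S0 T).mul_mem hs hc) _ ((S0 T).inv_mem hs), pk_mul hKT _ hs _ hc, hc',
      map_inv_of (pk_mul (v := v) hKT) hs]
    group
  · rintro c ⟨hc, hc'⟩ x hx h
    refine ⟨hx, ?_⟩
    have h5 := pk_le (v := v) hKT ((S0_sl T).ab hx) ((S0_sl T).ab hc) h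
    rw [pk_ab hKT x hx, pk_ab hKT c hc, hc', ab_one] at h5
    exact ab_eq_one h5

/-- images of ideals -/
theorem map_ideal {A B : Type} [Group A] [Lattice A] [MulLeftMono A] [MulRightMono A]
    [Group B] [Lattice B] [MulLeftMono B] [MulRightMono B] (φ : A →* B)
    (hsup : ∀ a b, φ (a ⊔ b) = φ a ⊔ φ b) {S C : Subgroup A} (hS : SL S) (hC : IdealIn S C) :
    SL (S.map φ) ∧ IdealIn (S.map φ) (C.map φ) := by
  have hab : ∀ a, φ (ab a) = ab (φ a) := by
    intro a; unfold ab; rw [hsup, map_inv]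
  refine ⟨?_, ?_, ?_, ?_⟩
  · rintro _ ⟨a, ha, rfl⟩ _ ⟨b, hb, rfl⟩
    exact ⟨a ⊔ b, hS a ha b hb, hsup a b⟩
  · rintro _ ⟨a, ha, rfl⟩
    exact ⟨a, hC.le ha, rfl⟩
  · rintro _ ⟨s, hs, rfl⟩ _ ⟨c, hc, rfl⟩
    exact ⟨s * c * s⁻¹, hC.conj s hs c hc, by rw [map_mul, map_mul, map_inv]⟩
  · rintro _ ⟨c, hc, rfl⟩ _ ⟨x, hx, rfl⟩ h
    have hcS := hC.le hc
    refine ⟨(x ⊓ ab c) ⊔ (ab c)⁻¹, ?_, ?_⟩
    · exact hC.solid c hc _ (hS.trunc hx (hS.ab hcS)) (ab_trunc_le (one_le_ab c))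
    · have hinf : ∀ a b, φ (a ⊓ b) = φ a ⊓ φ b := by
        intro a b
        have e : a ⊓ b = (a⁻¹ ⊔ b⁻¹)⁻¹ := by rw [inv_sup, inv_inv, inv_inv]
        rw [e, map_inv, hsup, map_inv, map_inv, inv_sup, inv_inv, inv_inv]
      rw [hsup, hinf, map_inv, hab]
      exact trunc_eq h

/-- Substitution. -/
def MTerm.subst (τ : ℕ → MTerm) : MTerm → MTerm
  | MTerm.var n => τ n
  | MTerm.one => MTerm.one
  | MTerm.mul s t => MTerm.mul (s.subst τ) (t.subst τ)
  | MTerm.inv s => MTerm.inv (s.subst τ)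
  | MTerm.sup s t => MTerm.sup (s.subst τ) (t.subst τ)
  | MTerm.inf s t => MTerm.inf (s.subst τ) (t.subst τ)
  | MTerm.star s => MTerm.star (s.subst τ)

theorem eval_subst (G : MGroup) (w : ℕ → G.carrier) (τ : ℕ → MTerm) (t : MTerm) :
    G.eval w (t.subst τ) = G.eval (fun n => G.eval w (τ n)) t := by
  induction t with
  | var n => rfl
  | one => rfl
  | mul s t hs ht => simp only [MTerm.subst, MGroup.eval, hs, ht]
  | inv s hs => simp only [MTerm.subst, MGroup.eval, hs]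
  | sup s t hs ht => simp only [MTerm.subst, MGroup.eval, hs, ht]
  | inf s t hs ht => simp only [MTerm.subst, MGroup.eval, hs, ht]
  | star s hs => simp only [MTerm.subst, MGroup.eval, hs]

/-- An m-homomorphism of the wreath product into the image of the term functions, injective
modulo the kernel, shows that the identities of `K` hold in `T`. -/
theorem sat_of_embed (hKT : ∀ e, T.Satisfies e → K.Satisfies e) {B : MGroup}
    (φ : ((ℕ → T.carrier) → T.carrier) →* B.carrier)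
    (hφsup : ∀ a b, φ (a ⊔ b) = φ a ⊔ φ b)
    (hφstar : ∀ a, φ (fun x => T.star (a x)) = B.star (φ a))
    (Φ : T.carrier → B.carrier) (hΦmul : ∀ a b, Φ (a * b) = Φ a * Φ b)
    (hΦsup : ∀ a b, Φ (a ⊔ b) = Φ a ⊔ Φ b) (hΦstar : ∀ a, Φ (T.star a) = B.star (Φ a))
    (hΦS : ∀ t, Φ t ∈ (S0 T).map φ)
    (hΦI : ∀ t, Φ t ∈ (kerI (v := v) hKT).map φ → t = 1) :
    ∀ e, K.Satisfies e → T.Satisfies e := by
  intro e he w
  choose s hs hsw using fun n => hΦS (w n)
  choose τ hτ using hs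
  have hΦ1 : Φ 1 = 1 := by
    have := hΦmul 1 1
    rw [mul_one] at this
    exact mul_eq_left.mp this.symm
  have hΦinv : ∀ a, Φ a⁻¹ = (Φ a)⁻¹ := by
    intro a
    rw [eq_inv_iff_mul_eq_one, ← hΦmul, inv_mul_cancel, hΦ1]
  have hΦinf : ∀ a b, Φ (a ⊓ b) = Φ a ⊓ Φ b := by
    intro a b
    have e : a ⊓ b = (a⁻¹ ⊔ b⁻¹)⁻¹ := by rw [inv_sup, inv_inv, inv_inv]
    rw [e, hΦinv, hΦsup, hΦinv, hΦinv, inv_sup, inv_inv, inv_inv]
  have hφinf : ∀ a b, φ (a ⊓ b) = φ a ⊓ φ b := by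
    intro a b
    have e : a ⊓ b = (a⁻¹ ⊔ b⁻¹)⁻¹ := by rw [inv_sup, inv_inv, inv_inv]
    rw [e, map_inv, hφsup, map_inv, map_inv, inv_sup, inv_inv, inv_inv]
  have key : ∀ t : MTerm, Φ (T.eval w t) = φ (ev T (t.subst τ)) := by
    intro t
    induction t with
    | var n => rw [MTerm.subst, hτ n]; exact (hsw n).symm
    | one => rw [MTerm.subst]; exact hΦ1.trans (map_one φ).symm
    | mul s t hs ht =>
      change Φ (T.eval w s * T.eval w t) = φ (ev T (s.subst τ) * ev T (t.subst τ))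
      rw [hΦmul, hs, ht, map_mul]
    | inv s hs =>
      change Φ (T.eval w s)⁻¹ = φ (ev T (s.subst τ))⁻¹
      rw [hΦinv, hs, map_inv]
    | sup s t hs ht =>
      change Φ (T.eval w s ⊔ T.eval w t) = φ (ev T (s.subst τ) ⊔ ev T (t.subst τ))
      rw [hΦsup, hs, ht, hφsup]
    | inf s t hs ht =>
      change Φ (T.eval w s ⊓ T.eval w t) = φ (ev T (s.subst τ) ⊓ ev T (t.subst τ))
      rw [hΦinf, hs, ht, hφinf]
    | star s hs =>
      change Φ (T.star (T.eval w s)) = φ (fun x => T.star (ev T (s.subst τ) x))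
      rw [hΦstar, hs, hφstar]
  have h1 : K.eval v (e.1.subst τ) = K.eval v (e.2.subst τ) := by
    rw [eval_subst, eval_subst]; exact he _
  have h2 : Φ (T.eval w e.1 * (T.eval w e.2)⁻¹) ∈ (kerI (v := v) hKT).map φ := by
    refine ⟨ev T (e.1.subst τ) * (ev T (e.2.subst τ))⁻¹, ⟨?_, ?_⟩, ?_⟩
    · exact (S0 T).mul_mem ⟨_, rfl⟩ ((S0 T).inv_mem ⟨_, rfl⟩)
    · rw [pk_mul hKT _ ⟨_, rfl⟩ _ ((S0 T).inv_mem ⟨_, rfl⟩),
        map_inv_of (pk_mul (v := v) hKT) ⟨_, rfl⟩, pk_ev hKT, pk_ev hKT, h1, mul_inv_cancel]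
    · rw [map_mul, map_inv, hΦmul, hΦinv, key, key]
  exact mul_inv_eq_one.mp (hΦI _ h2)

end jonsson

end Pool.Agent.Helper29
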