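import Pool.Agent.Helper29.MAbel2
import Pool.Agent.Helper29.CovUltra

/-!
Critical m-groups give covers.
-/

set_option autoImplicit false
set_option linter.unusedSectionVars false

namespace Pool.Agent.Helper29

section gen

variable (K : MGroup) (w : ℕ → K.carrier)

/-- the values of the terms under an assignment -/
def genS : Subgroup K.carrier where
  carrier := {x | ∃ t, K.eval w t = x}
  mul_mem' := by rintro _ _ ⟨s, rfl⟩ ⟨t, rfl⟩; exact ⟨MTerm.mul s t, rfl⟩
  one_mem' := ⟨MTerm.one, rfl⟩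
  inv_mem' := by rintro _ ⟨s, rfl⟩; exact ⟨MTerm.inv s, rfl⟩

/-- the generated sub-m-group -/
def genM : MGroup where
  carrier := {x : K.carrier // x ∈ genS K w}
  grp := inferInstanceAs (Group (genS K w))
  lat := Subtype.lattice
    (fun {a b} ha hb => by
      obtain ⟨s, rfl⟩ := ha; obtain ⟨t, rfl⟩ := hb; exact ⟨MTerm.sup s t, rfl⟩)
    (fun {a b} ha hb => by
      obtain ⟨s, rfl⟩ := ha; obtain ⟨t, rfl⟩ := hb; exact ⟨MTerm.inf s t, rfl⟩)
  mulLeft := ⟨fun c x y h => mul_le_mul_right (show x.1 ≤ y.1 from h) c.1⟩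
  mulRight := ⟨fun c x y h => mul_le_mul_left (show x.1 ≤ y.1 from h) c.1⟩
  star := fun x => ⟨K.star x.1, by obtain ⟨s, hs⟩ := x.2; exact ⟨MTerm.star s, congrArg _ hs⟩⟩
  star_mul := fun x y => Subtype.ext (K.star_mul x.1 y.1)
  star_star := fun x => Subtype.ext (K.star_star x.1)
  star_sup := fun x y => Subtype.ext (K.star_sup x.1 y.1)
  star_inf := fun x y => Subtype.ext (K.star_inf x.1 y.1)

theorem genM_eval (v : ℕ → (genM K w).carrier) (t : MTerm) :
    ((genM K w).eval v t).1 = K.eval (fun n => (v n).1) t := by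
  induction t with
  | var n => rfl
  | one => rfl
  | mul s t hs ht =>
    change ((genM K w).eval v s).1 * ((genM K w).eval v t).1 = _
    rw [hs, ht]; rfl
  | inv s hs =>
    change (((genM K w).eval v s).1)⁻¹ = _
    rw [hs]; rfl
  | sup s t hs ht =>
    change ((genM K w).eval v s).1 ⊔ ((genM K w).eval v t).1 = _
    rw [hs, ht]; rfl
  | inf s t hs ht =>
    change ((genM K w).eval v s).1 ⊓ ((genM K w).eval v t).1 = _
    rw [hs, ht]; rfl
  | star s hs =>
    change K.star ((genM K w).eval v s).1 = _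
    rw [hs]; rfl

theorem genM_sat {e : MTerm × MTerm} (h : K.Satisfies e) : (genM K w).Satisfies e := by
  intro v
  apply Subtype.ext
  rw [genM_eval, genM_eval]
  exact h _

/-- the generators -/
def genV : ℕ → (genM K w).carrier := fun n => ⟨w n, ⟨MTerm.var n, rfl⟩⟩

theorem genV_surj (k : (genM K w).carrier) : ∃ t, (genM K w).eval (genV K w) t = k := by
  obtain ⟨t, ht⟩ := k.2
  refine ⟨t, Subtype.ext ?_⟩
  rw [genM_eval]
  exact ht

theorem genM_not {E : Set (MTerm × MTerm)} {e : MTerm × MTerm} (he : e ∈ E)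
    (h : K.eval w e.1 ≠ K.eval w e.2) : genM K w ∉ Models E := by
  intro hcon
  apply h
  have h1 := hcon e he (genV K w)
  have h2 := congrArg Subtype.val h1
  rw [genM_eval, genM_eval] at h2
  exact h2

end gen

section polar

variable (G : MGroup)

theorem orth_of_le {x c o : G.carrier} (hx : ab x ≤ c) (ho : 1 ≤ o) (h : c ⊓ o = 1) :
    ab x ⊓ o = 1 :=
  le_antisymm ((inf_le_inf_right o hx).trans h.le) (le_inf (one_le_ab x) ho)

theorem ab_mul_le (x y : G.carrier) : ab (x * y) ≤ ab x * ab y * ab x := by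
  refine ab_le_iff.mpr ⟨?_, ?_⟩
  · calc x * y ≤ ab x * ab y := mul_le_mul' (le_ab x) (le_ab y)
      _ ≤ ab x * ab y * ab x := le_mul_of_one_le_right' (one_le_ab x)
  · rw [mul_inv_rev]
    calc y⁻¹ * x⁻¹ ≤ ab y * ab x := mul_le_mul' (inv_le_ab y) (inv_le_ab x)
      _ ≤ ab x * (ab y * ab x) := le_mul_of_one_le_left' (one_le_ab x)
      _ = ab x * ab y * ab x := (mul_assoc _ _ _).symm

theorem ab_star (x : G.carrier) : ab (G.star x) = (G.star (ab x))⁻¹ := by
  unfold ab
  rw [G.star_sup, inv_inf, G.star_inv, inv_inv, sup_comm]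

variable {G}

/-- the polar of a set of positive elements closed under conjugation and the star -/
def polar (O : Set G.carrier) (h1 : ∀ o ∈ O, 1 ≤ o) (h2 : ∀ o ∈ O, ∀ h, h * o * h⁻¹ ∈ O)
    (h3 : ∀ o ∈ O, (G.star o)⁻¹ ∈ O) : MIdeal G where
  toSubgroup :=
    { carrier := {x | ∀ o ∈ O, ab x ⊓ o = 1}
      mul_mem' := by
        intro a b ha hb o ho
        refine orth_of_le G (ab_mul_le G a b) (h1 o ho) ?_
        have h4 := disj_mul (one_le_ab a) (one_le_ab b) (h1 o ho) (ha o ho) (hb o ho)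
        refine disj_mul ?_ (one_le_ab a) (h1 o ho) h4 (ha o ho)
        calc (1 : G.carrier) = 1 * 1 := (one_mul 1).symm
          _ ≤ ab a * ab b := mul_le_mul' (one_le_ab a) (one_le_ab b)
      one_mem' := by
        intro o ho
        rw [ab_one]
        exact inf_eq_left.mpr (h1 o ho)
      inv_mem' := by
        intro a ha o ho
        rw [ab_inv]
        exact ha o ho }
  normal := by
    constructor
    intro a ha k o ho
    have h4 := ha _ (h2 o ho k⁻¹)
    rw [ab_conj]
    have e : k * ab a * k⁻¹ ⊓ o = k * (ab a ⊓ k⁻¹ * o * (k⁻¹)⁻¹) * k⁻¹ := by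
      rw [mul_inf, inf_mul]
      congr 1
      group
    rw [e, h4]
    group
  sup_mem := by
    intro a ha b hb o ho
    exact orth_of_le G (ab_sup_le a b) (h1 o ho)
      (disj_mul (one_le_ab a) (one_le_ab b) (h1 o ho) (ha o ho) (hb o ho))
  inf_mem := by
    intro a ha b hb o ho
    have e : ab (a ⊓ b) = ab (a⁻¹ ⊔ b⁻¹) := by
      rw [← ab_inv, inv_inf]
    rw [e]
    refine orth_of_le G (ab_sup_le _ _) (h1 o ho) ?_
    rw [ab_inv, ab_inv]
    exact disj_mul (one_le_ab a) (one_le_ab b) (h1 o ho) (ha o ho) (hb o ho)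
  convex := by
    intro a ha b hb c hac hcb o ho
    refine orth_of_le G (c := ab a * ab b) ?_ (h1 o ho)
      (disj_mul (one_le_ab a) (one_le_ab b) (h1 o ho) (ha o ho) (hb o ho))
    refine ab_le_iff.mpr ⟨?_, ?_⟩
    · calc c ≤ b := hcb
        _ ≤ ab b := le_ab b
        _ ≤ ab a * ab b := le_mul_of_one_le_left' (one_le_ab a)
    · calc c⁻¹ ≤ a⁻¹ := inv_le_inv_iff.mpr hac
        _ ≤ ab a := inv_le_ab a
        _ ≤ ab a * ab b := le_mul_of_one_le_right' (one_le_ab b)
  star_mem := by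
    intro a ha o ho
    have h4 := ha _ (h3 o ho)
    have e : o = (G.star (G.star o)⁻¹)⁻¹ := by
      rw [G.star_inv, G.star_star, inv_inv]
    rw [ab_star]
    conv_lhs => rw [e]
    rw [← inv_sup, ← G.star_inf, h4, G.star_one, inv_one]

theorem quot_eval (H : MIdeal G) (w : ℕ → G.carrier) (t : MTerm) :
    H.quot.eval (fun n => (QuotientGroup.mk (w n) : G.carrier ⧸ H.toSubgroup)) t =
      (QuotientGroup.mk (G.eval w t) : G.carrier ⧸ H.toSubgroup) := by
  induction t with
  | var n => rfl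
  | one => rfl
  | mul s t hs ht =>
    change H.quot.eval _ s * H.quot.eval _ t = _
    rw [hs, ht]; rfl
  | inv s hs =>
    change (H.quot.eval _ s)⁻¹ = _
    rw [hs]; rfl
  | sup s t hs ht =>
    change H.quot.eval _ s ⊔ H.quot.eval _ t = _
    rw [hs, ht]; rfl
  | inf s t hs ht =>
    change H.quot.eval _ s ⊓ H.quot.eval _ t = _
    rw [hs, ht]; rfl
  | star s hs =>
    change H.quot.star (H.quot.eval _ s) = _
    rw [hs]; rfl

theorem quot_sat (H : MIdeal G) {e : MTerm × MTerm} (h : G.Satisfies e) :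
    H.quot.Satisfies e := by
  intro v
  obtain ⟨w, hw⟩ : ∃ w : ℕ → G.carrier,
      v = fun n => (QuotientGroup.mk (w n) : G.carrier ⧸ H.toSubgroup) := by
    choose w hw using fun n => QuotientGroup.mk_surjective (s := H.toSubgroup) (v n)
    exact ⟨w, funext fun n => (hw n).symm⟩
  subst hw
  rw [quot_eval, quot_eval, h w]

/-- absolute value of a term -/
def abT (t : MTerm) : MTerm := MTerm.sup t (MTerm.inv t)

theorem eval_abT (w : ℕ → G.carrier) (t : MTerm) : G.eval w (abT t) = ab (G.eval w t) := rfl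

/-- the separating identities -/
def sepId (u r : MTerm) : MTerm × MTerm :=
  (MTerm.inf r (MTerm.mul (MTerm.mul (MTerm.var 0) u) (MTerm.inv (MTerm.var 0))), MTerm.one)

theorem sepId_sat_left {H : MGroup} {u r : MTerm} (hu : ∀ w, H.eval w u = 1)
    (hr : ∀ w, 1 ≤ H.eval w r) : H.Satisfies (sepId u r) := by
  intro w
  change H.eval w r ⊓ (w 0 * H.eval w u * (w 0)⁻¹) = 1
  rw [hu, mul_one, mul_inv_cancel]
  exact inf_eq_right.mpr (hr w)

theorem sepId_sat_right {H : MGroup} {u r : MTerm} (hu : ∀ w, 1 ≤ H.eval w u)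
    (hr : ∀ w, H.eval w r = 1) : H.Satisfies (sepId u r) := by
  intro w
  change H.eval w r ⊓ (w 0 * H.eval w u * (w 0)⁻¹) = 1
  rw [hr]
  apply inf_eq_left.mpr
  have : w 0 * 1 * (w 0)⁻¹ ≤ w 0 * H.eval w u * (w 0)⁻¹ := by
    have := hu w
    gcongr
  rwa [mul_one, mul_inv_cancel] at this

/-- a quotient separating two varieties -/
theorem exists_quot {E : Set (MTerm × MTerm)} {T : MGroup} (hG : G ∉ Models E)
    (hTG : ∀ e, T.Satisfies e → (∀ H ∈ Models E, H.Satisfies e) → G.Satisfies e) :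
    ∃ K : MGroup, K ∉ Models E ∧ (∀ e, T.Satisfies e → K.Satisfies e) ∧
      (∀ e, G.Satisfies e → K.Satisfies e) := by
  classical
  obtain ⟨e0, he0, w0, hw0⟩ : ∃ e0 ∈ E, ∃ w0, G.eval w0 e0.1 ≠ G.eval w0 e0.2 := by
    by_contra hcon
    push Not at hcon
    exact hG (fun e he w => hcon e he w)
  let d := G.eval w0 e0.1 * (G.eval w0 e0.2)⁻¹
  let g := ab d
  have hd : d ≠ 1 := fun h => hw0 (mul_inv_eq_one.mp h)
  have hg1 : 1 ≤ g := one_le_ab d
  have hgne : g ≠ 1 := fun h => hd (ab_eq_one h.le)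
  have hgs : 1 ≤ (G.star g)⁻¹ := by
    apply one_le_inv'.mpr
    have := G.star_anti hg1
    rwa [G.star_one] at this
  have hconj : ∀ {o h : G.carrier}, 1 ≤ o → 1 ≤ h * o * h⁻¹ := by
    intro o h ho
    have : h * 1 * h⁻¹ ≤ h * o * h⁻¹ := by gcongr
    rwa [mul_one, mul_inv_cancel] at this
  let O : Set G.carrier := {o | ∃ h, o = h * g * h⁻¹ ∨ o = h * (G.star g)⁻¹ * h⁻¹}
  let J : MIdeal G := polar O
    (by
      rintro o ⟨h, rfl | rfl⟩
      · exact hconj hg1
      · exact hconj hgs)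
    (by
      rintro o ⟨h, rfl | rfl⟩ k
      · exact ⟨k * h, Or.inl (by group)⟩
      · exact ⟨k * h, Or.inr (by group)⟩)
    (by
      rintro o ⟨h, rfl | rfl⟩
      · refine ⟨G.star h, Or.inr ?_⟩
        rw [G.star_mul, G.star_mul, G.star_inv]
        group
      · refine ⟨G.star h, Or.inl ?_⟩
        rw [G.star_mul, G.star_mul, G.star_inv, G.star_inv, G.star_star]
        group)
  refine ⟨J.quot, ?_, ?_, fun e he => quot_sat J he⟩
  · intro hcon
    have h1 := hcon e0 he0 (fun n => (QuotientGroup.mk (w0 n) : G.carrier ⧸ J.toSubgroup))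
    rw [quot_eval, quot_eval] at h1
    have h2 := QuotientGroup.eq.mp h1
    have h3 : d ∈ J.toSubgroup := by
      have h4 := J.normal.conj_mem _ (J.toSubgroup.inv_mem h2) (G.eval w0 e0.2)
      have h5 := J.normal.conj_mem _ h2 (G.eval w0 e0.1)
      have e : G.eval w0 e0.1 * ((G.eval w0 e0.1)⁻¹ * G.eval w0 e0.2) * (G.eval w0 e0.1)⁻¹ =
        d⁻¹ := by simp only [d]; group
      rw [e] at h5
      have h6 := J.toSubgroup.inv_mem h5
      rwa [inv_inv] at h6
    have h4 := h3 g ⟨1, Or.inl (by group)⟩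
    change g ⊓ g = 1 at h4
    rw [inf_idem] at h4
    exact hgne h4
  · intro e he v
    obtain ⟨w, hw⟩ : ∃ w : ℕ → G.carrier,
        v = fun n => (QuotientGroup.mk (w n) : G.carrier ⧸ J.toSubgroup) := by
      choose w hw using fun n => QuotientGroup.mk_surjective (s := J.toSubgroup) (v n)
      exact ⟨w, funext fun n => (hw n).symm⟩
    subst hw
    rw [quot_eval, quot_eval]
    apply QuotientGroup.eq.mpr
    let τ1 : ℕ → MTerm := fun n => MTerm.var (2 * n + 1)
    let τ2 : ℕ → MTerm := fun n => MTerm.var (2 * n + 2)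
    let u : MTerm := abT (MTerm.mul (e0.1.subst τ1) (MTerm.inv (e0.2.subst τ1)))
    let u' : MTerm := MTerm.inv (MTerm.star u)
    let r : MTerm := abT (MTerm.mul (MTerm.inv (e.1.subst τ2)) (e.2.subst τ2))
    have hu1 : ∀ (H : MGroup) (w : ℕ → H.carrier), 1 ≤ H.eval w u :=
      fun H w => one_le_ab _
    have hu1' : ∀ (H : MGroup) (w : ℕ → H.carrier), 1 ≤ H.eval w u' := by
      intro H w
      change 1 ≤ (H.star (H.eval w u))⁻¹
      apply one_le_inv'.mpr
      have := H.star_anti (hu1 H w)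
      rwa [H.star_one] at this
    have hr1 : ∀ (H : MGroup) (w : ℕ → H.carrier), 1 ≤ H.eval w r :=
      fun H w => one_le_ab _
    have huE : ∀ H ∈ Models E, ∀ w : ℕ → H.carrier, H.eval w u = 1 := by
      intro H hH w
      change ab (H.eval w (e0.1.subst τ1) * (H.eval w (e0.2.subst τ1))⁻¹) = 1
      rw [eval_subst, eval_subst, hH e0 he0, mul_inv_cancel, ab_one]
    have huE' : ∀ H ∈ Models E, ∀ w : ℕ → H.carrier, H.eval w u' = 1 := by
      intro H hH w
      change (H.star (H.eval w u))⁻¹ = 1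
      rw [huE H hH, H.star_one, inv_one]
    have hrT : ∀ w : ℕ → T.carrier, T.eval w r = 1 := by
      intro w
      change ab ((T.eval w (e.1.subst τ2))⁻¹ * T.eval w (e.2.subst τ2)) = 1
      rw [eval_subst, eval_subst, he, inv_mul_cancel, ab_one]
    have hs1 : G.Satisfies (sepId u r) := hTG _ (sepId_sat_right (hu1 T) hrT)
      (fun H hH => sepId_sat_left (huE H hH) (hr1 H))
    have hs2 : G.Satisfies (sepId u' r) := hTG _ (sepId_sat_right (hu1' T) hrT)
      (fun H hH => sepId_sat_left (huE' H hH) (hr1 H))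
    have key : ∀ h : G.carrier, ∃ W : ℕ → G.carrier, W 0 = h ∧ G.eval W u = g ∧
        G.eval W r = ab ((G.eval w e.1)⁻¹ * G.eval w e.2) := by
      intro h
      refine ⟨fun n => if n = 0 then h else if n % 2 = 1 then w0 (n / 2) else w (n / 2 - 1),
        rfl, ?_, ?_⟩
      · change ab (G.eval _ (e0.1.subst τ1) * (G.eval _ (e0.2.subst τ1))⁻¹) = g
        rw [eval_subst, eval_subst]
        have e1 : (fun n => G.eval (fun n => if n = 0 then h else if n % 2 = 1 then w0 (n / 2)
            else w (n / 2 - 1)) (τ1 n)) = w0 := by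
          funext n
          change (if 2 * n + 1 = 0 then h else if (2 * n + 1) % 2 = 1 then w0 ((2 * n + 1) / 2)
            else w ((2 * n + 1) / 2 - 1)) = w0 n
          rw [if_neg (by omega), if_pos (by omega)]
          congr 1
          omega
        rw [e1]
      · change ab ((G.eval _ (e.1.subst τ2))⁻¹ * G.eval _ (e.2.subst τ2)) = _
        rw [eval_subst, eval_subst]
        have e1 : (fun n => G.eval (fun n => if n = 0 then h else if n % 2 = 1 then w0 (n / 2)
            else w (n / 2 - 1)) (τ2 n)) = w := by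
          funext n
          change (if 2 * n + 2 = 0 then h else if (2 * n + 2) % 2 = 1 then w0 ((2 * n + 2) / 2)
            else w ((2 * n + 2) / 2 - 1)) = w n
          rw [if_neg (by omega), if_neg (by omega)]
          congr 1
          omega
        rw [e1]
    rintro o ⟨h, rfl | rfl⟩
    · obtain ⟨W, hW0, hWu, hWr⟩ := key h
      have h1 := hs1 W
      change G.eval W r ⊓ (W 0 * G.eval W u * (W 0)⁻¹) = 1 at h1
      rw [hW0, hWu, hWr] at h1
      exact h1
    · obtain ⟨W, hW0, hWu, hWr⟩ := key h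
      have h1 := hs2 W
      change G.eval W r ⊓ (W 0 * (G.star (G.eval W u))⁻¹ * (W 0)⁻¹) = 1 at h1
      rw [hW0, hWu, hWr] at h1
      exact h1

/-- A critical m-group outside a variety gives a cover of the variety. -/
theorem crit_cover {E : Set (MTerm × MTerm)} {T : MGroup} (hT : T ∉ Models E)
    (hcrit : ∀ K : MGroup, (∀ e, T.Satisfies e → K.Satisfies e) → ∀ v : ℕ → K.carrier,
      (∀ k, ∃ t, K.eval v t = k) → K ∉ Models E → ∀ e, K.Satisfies e → T.Satisfies e) :
    ∃ X, IsVariety X ∧ Models E ⊂ X ∧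
      ∀ Z, IsVariety Z → Models E ⊆ Z → Z ⊆ X → Z = Models E ∨ Z = X := by
  let E' : Set (MTerm × MTerm) := {e | T.Satisfies e ∧ ∀ G ∈ Models E, G.Satisfies e}
  refine ⟨Models E', ⟨E', rfl⟩, ⟨?_, ?_⟩, ?_⟩
  · intro G hG e he
    exact he.2 G hG
  · intro h
    exact hT (h (fun e he => he.1))
  · rintro Z ⟨EZ, rfl⟩ h1 h2
    by_cases h : Models EZ ⊆ Models E
    · left
      exact Set.Subset.antisymm h h1
    · right
      apply Set.Subset.antisymm h2
      obtain ⟨G, hG, hGE⟩ := Set.not_subset.mp h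
      obtain ⟨K, hK1, hK2, hK3⟩ := exists_quot (T := T) hGE
        (fun e h3 h4 => h2 hG e ⟨h3, h4⟩)
      obtain ⟨e0, he0, w, hw⟩ : ∃ e0 ∈ E, ∃ w, K.eval w e0.1 ≠ K.eval w e0.2 := by
        by_contra hcon
        push Not at hcon
        exact hK1 (fun e he w => hcon e he w)
      have h5 := hcrit (genM K w) (fun e he => genM_sat K w (hK2 e he)) (genV K w)
        (genV_surj K w) (genM_not K w he0 hw)
      intro H hH e he
      refine hH e ⟨h5 e (genM_sat K w (hK3 e (hG e he))), ?_⟩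
      intro L hL
      exact h1 hL e he

end polar

end Pool.Agent.Helper29
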