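import Pool.Agent.Helper29.CovDD

/-!
The ideal generated by the elements `a * a_*`.
-/

set_option autoImplicit false
set_option linter.unusedSectionVars false

namespace Pool.Agent.Helper29

section jj

variable {G : Type*} [Group G] [Lattice G] [MulLeftMono G] [MulRightMono G]

/-- the smallest solid normal subgroup of `S` containing all `a * st a` -/
def jj (st : G → G) (S : Subgroup G) : Subgroup G :=
  sInf {C | IdealIn S C ∧ ∀ a ∈ S, a * st a ∈ C}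

variable {st : G → G}

theorem jj_le_of {S C : Subgroup G} (h : IdealIn S C) (hc : ∀ a ∈ S, a * st a ∈ C) :
    jj st S ≤ C := sInf_le ⟨h, hc⟩

theorem mem_jj {S : Subgroup G} {x : G} : x ∈ jj st S ↔ ∀ C, IdealIn S C →
    (∀ a ∈ S, a * st a ∈ C) → x ∈ C := by
  unfold jj
  rw [Subgroup.mem_sInf]
  exact ⟨fun h C h1 h2 => h C ⟨h1, h2⟩, fun h C hC => h C hC.1 hC.2⟩

theorem jj_le {S : Subgroup G} (hS : ∀ a ∈ S, st a ∈ S) : jj st S ≤ S :=
  jj_le_of (ideal_self S) (fun a ha => S.mul_mem ha (hS a ha))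

theorem jj_ideal {S : Subgroup G} (hS : ∀ a ∈ S, st a ∈ S) : IdealIn S (jj st S) where
  le := jj_le hS
  conj s hs c hc := by
    rw [mem_jj] at hc ⊢
    exact fun C h1 h2 => h1.conj s hs c (hc C h1 h2)
  solid c hc x hx h := by
    rw [mem_jj] at hc ⊢
    exact fun C h1 h2 => h1.solid c (hc C h1 h2) x hx h

theorem mul_st_mem_jj {S : Subgroup G} {a : G} (ha : a ∈ S) : a * st a ∈ jj st S := by
  rw [mem_jj]
  exact fun C _ h2 => h2 a ha

end jj

section maps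

variable {G H : Type*} [Group G] [Lattice G] [MulLeftMono G] [MulRightMono G]
  [Group H] [Lattice H] [MulLeftMono H] [MulRightMono H] {st : G → G} {st' : H → H}

theorem jj_map {S : Subgroup G} {F : Subgroup H} {τ : G → H} (hst : ∀ a ∈ S, st a ∈ S)
    (hst' : ∀ a ∈ F, st' a ∈ F) (hS : ∀ a ∈ S, τ a ∈ F)
    (hmul : ∀ a ∈ S, ∀ b ∈ S, τ (a * b) = τ a * τ b)
    (hab : ∀ a ∈ S, ∀ b ∈ S, ab a ≤ ab b → ab (τ a) ≤ ab (τ b))
    (hstar : ∀ a ∈ S, τ (st a) = st' (τ a)) :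
    ∀ a ∈ jj st S, τ a ∈ jj st' F := by
  let C : Subgroup G :=
    { carrier := {a | a ∈ S ∧ τ a ∈ jj st' F}
      mul_mem' := by
        rintro a b ⟨ha, ha'⟩ ⟨hb, hb'⟩
        refine ⟨S.mul_mem ha hb, ?_⟩
        rw [hmul a ha b hb]
        exact (jj st' F).mul_mem ha' hb'
      one_mem' := ⟨S.one_mem, by rw [map_one_of hmul]; exact (jj st' F).one_mem⟩
      inv_mem' := by
        rintro a ⟨ha, ha'⟩
        refine ⟨S.inv_mem ha, ?_⟩
        rw [map_inv_of hmul ha]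
        exact (jj st' F).inv_mem ha' }
  have h1 : IdealIn S C := by
    refine ⟨fun a ha => ha.1, ?_, ?_⟩
    · rintro s hs c ⟨hc, hc'⟩
      refine ⟨S.mul_mem (S.mul_mem hs hc) (S.inv_mem hs), ?_⟩
      rw [hmul _ (S.mul_mem hs hc) _ (S.inv_mem hs), hmul _ hs _ hc, map_inv_of hmul hs]
      exact (jj_ideal hst').conj _ (hS s hs) _ hc'
    · rintro c ⟨hc, hc'⟩ x hx h
      exact ⟨hx, (jj_ideal hst').solid _ hc' _ (hS x hx) (hab x hx c hc h)⟩
  have h2 : ∀ a ∈ S, a * st a ∈ C := by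
    intro a ha
    refine ⟨S.mul_mem ha (hst a ha), ?_⟩
    rw [hmul _ ha _ (hst a ha), hstar a ha]
    exact mul_st_mem_jj (hS a ha)
  intro a ha
  exact (jj_le_of h1 h2 ha).2

theorem jj_surj {S : Subgroup G} {F : Subgroup H} {τ : G → H} (hst : ∀ a ∈ S, st a ∈ S)
    (hSL : SL S)
    (hmul : ∀ a ∈ S, ∀ b ∈ S, τ (a * b) = τ a * τ b)
    (hsup : ∀ a ∈ S, ∀ b ∈ S, τ (a ⊔ b) = τ a ⊔ τ b)
    (hstar : ∀ a ∈ S, τ (st a) = st' (τ a))
    (hS : ∀ a ∈ S, τ a ∈ F) (hsurj : ∀ y ∈ F, ∃ a ∈ S, τ a = y) :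
    ∀ y ∈ jj st' F, ∃ a ∈ jj st S, τ a = y := by
  have hle := jj_le (st := st) hst
  have hid := jj_ideal (st := st) hst
  have hτab : ∀ a ∈ S, τ (ab a) = ab (τ a) := by
    intro a ha
    unfold ab
    rw [hsup a ha _ (S.inv_mem ha), map_inv_of hmul ha]
  have hinf : ∀ a ∈ S, ∀ b ∈ S, τ (a ⊓ b) = τ a ⊓ τ b := by
    intro a ha b hb
    have e : a ⊓ b = (a⁻¹ ⊔ b⁻¹)⁻¹ := by rw [inv_sup, inv_inv, inv_inv]
    rw [e, map_inv_of hmul (hSL _ (S.inv_mem ha) _ (S.inv_mem hb)),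
      hsup _ (S.inv_mem ha) _ (S.inv_mem hb), map_inv_of hmul ha, map_inv_of hmul hb,
      inv_sup, inv_inv, inv_inv]
  let C : Subgroup H :=
    { carrier := {y | ∃ a ∈ jj st S, τ a = y}
      mul_mem' := by
        rintro _ _ ⟨a, ha, rfl⟩ ⟨b, hb, rfl⟩
        exact ⟨a * b, (jj st S).mul_mem ha hb, hmul _ (hle ha) _ (hle hb)⟩
      one_mem' := ⟨1, (jj st S).one_mem, map_one_of hmul⟩
      inv_mem' := by
        rintro _ ⟨a, ha, rfl⟩
        exact ⟨a⁻¹, (jj st S).inv_mem ha, map_inv_of hmul (hle ha)⟩ }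
  have h1 : IdealIn F C := by
    refine ⟨?_, ?_, ?_⟩
    · rintro _ ⟨a, ha, rfl⟩
      exact hS a (hle ha)
    · rintro s hs _ ⟨c, hc, rfl⟩
      obtain ⟨s, hs', rfl⟩ := hsurj s hs
      refine ⟨s * c * s⁻¹, hid.conj s hs' c hc, ?_⟩
      rw [hmul _ (S.mul_mem hs' (hle hc)) _ (S.inv_mem hs'), hmul _ hs' _ (hle hc),
        map_inv_of hmul hs']
    · rintro _ ⟨c, hc, rfl⟩ x hx h
      obtain ⟨a, ha, rfl⟩ := hsurj x hx
      have hcS := hle hc
      have habc := hSL.ab hcS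
      refine ⟨(a ⊓ ab c) ⊔ (ab c)⁻¹, ?_, ?_⟩
      · refine hid.solid c hc _ (hSL.trunc ha habc) ?_
        exact ab_trunc_le (one_le_ab c)
      · rw [hsup _ (hSL.inf ha habc) _ (S.inv_mem habc), hinf _ ha _ habc,
          map_inv_of hmul habc, hτab c hcS]
        exact trunc_eq h
  intro y hy
  refine jj_le_of h1 ?_ hy
  intro a ha
  obtain ⟨a, ha', rfl⟩ := hsurj a ha
  refine ⟨a * st a, mul_st_mem_jj ha', ?_⟩
  rw [hmul _ ha' _ (hst a ha'), hstar a ha']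

end maps

end Pool.Agent.Helper29
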