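import Pool.Agent.Helper29.CovUltra
import Pool.Agent.Helper29.CovJJ

/-!
The periodic wreath products are critical: an m-group satisfying their identities and of full
depth generates the same variety.
-/

set_option autoImplicit false
set_option linter.unusedSectionVars false

namespace Pool.Agent.Helper29

open Filter

section groups

variable {R : Type} [AddCommGroup R] [LinearOrder R] [IsOrderedAddMonoid R] (P : PS)
  (ρ : ∀ n, R →+ ZMod (P.p n))

/-- the wreath product with the symmetry -/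
def TSg (n : ℕ) : MGroup where
  carrier := Tw P ρ n
  star := sg P ρ n
  star_mul := sg_mul P ρ n
  star_star := sg_sg P ρ n
  star_sup := sg_sup P ρ n
  star_inf := sg_inf P ρ n

instance tmML (n : ℕ) : MulLeftMono (Tw P ρ n × Tw P ρ n) :=
  ⟨fun c _ _ h => ⟨mul_le_mul_right h.1 c.1, mul_le_mul_right h.2 c.2⟩⟩
instance tmMR (n : ℕ) : MulRightMono (Tw P ρ n × Tw P ρ n) :=
  ⟨fun c _ _ h => ⟨mul_le_mul_left h.1 c.1, mul_le_mul_left h.2 c.2⟩⟩

/-- the doubled wreath product -/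
def MTg (n : ℕ) : MGroup where
  carrier := Tw P ρ n × Tw P ρ n
  star := fun x => (sg P ρ n x.2, sg P ρ n x.1)
  star_mul := fun x y => Prod.ext (sg_mul P ρ n x.2 y.2) (sg_mul P ρ n x.1 y.1)
  star_star := fun x => Prod.ext (sg_sg P ρ n x.1) (sg_sg P ρ n x.2)
  star_sup := fun x y => Prod.ext (sg_sup P ρ n x.2 y.2) (sg_sup P ρ n x.1 y.1)
  star_inf := fun x y => Prod.ext (sg_inf P ρ n x.2 y.2) (sg_inf P ρ n x.1 y.1)

end groups

theorem iter_ne_bot {K : Type} [Group K] {S : Subgroup K} (h : S ≠ ⊥) : ∃ y ∈ S, y ≠ 1 := by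
  by_contra hcon
  push Not at hcon
  exact h ((Subgroup.eq_bot_iff_forall S).mpr hcon)

section one

variable (P : PS)

/-- The symmetric case. -/
theorem crit_sym (n : ℕ) (K : MGroup)
    (hKT : ∀ e, (TSg P (ρZ P) (n + 1)).Satisfies e → K.Satisfies e)
    (v : ℕ → K.carrier) (hv : ∀ k, ∃ t, K.eval v t = k)
    (hdeep : dd^[n] (⊤ : Subgroup K.carrier) ≠ ⊥) :
    ∀ e, K.Satisfies e → (TSg P (ρZ P) (n + 1)).Satisfies e := by
  set T := TSg P (ρZ P) (n + 1) with hT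
  obtain ⟨y, hy, hy1⟩ := iter_ne_bot hdeep
  obtain ⟨g, hg, rfl⟩ := dd_iter_surj (S := S0 T) (F := ⊤) (τ := pk T K v) (S0_sl T)
    (pk_mul hKT) (pk_sup hKT) (fun _ _ => trivial) (by
      intro y _
      obtain ⟨t, rfl⟩ := hv y
      exact ⟨ev T t, ⟨t, rfl⟩, pk_ev hKT t⟩) n y hy
  obtain ⟨U, hU⟩ := exists_ultra hKT (dd_iter_le _ _ hg) hy1
  let B := TSg P (ρG U P) (n + 1)
  let φ : ((ℕ → T.carrier) → T.carrier) →* B.carrier :=
    MonoidHom.mk' (phi U P (n + 1)) (phi_mul U P (n + 1))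
  have hφsup : ∀ a b, φ (a ⊔ b) = φ a ⊔ φ b := phi_sup U P (n + 1)
  have hφstar : ∀ a, φ (fun x => T.star (a x)) = B.star (φ a) := phi_sg U P (n + 1)
  have hφeq : ∀ a b, φ a = φ b → ∀ᶠ x in (U : Filter (ℕ → T.carrier)), a x = b x :=
    phi_eq U P (n + 1)
  have hφab : ∀ a b, ab a ≤ ab b → ab (φ a) ≤ ab (φ b) := by
    intro a b h
    have hab : ∀ a, φ (ab a) = ab (φ a) := by
      intro a; unfold ab; rw [hφsup, map_inv]
    rw [← hab, ← hab]
    have h2 := hφsup (ab a) (ab b)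
    rw [sup_eq_right.mpr h] at h2
    rw [h2]; exact le_sup_left
  obtain ⟨hSL, hI⟩ := map_ideal φ hφsup (S0_sl T) (kerI_ideal (v := v) hKT)
  have hdeepS : ¬ (dd^[n] ((S0 T).map φ) ≤ (kerI (v := v) hKT).map φ) := by
    intro hcon
    have h1 : φ g ∈ dd^[n] ((S0 T).map φ) :=
      dd_iter_map (F := (S0 T).map φ) (τ := φ) (fun a ha => ⟨a, ha, rfl⟩)
        (fun a _ b _ => map_mul φ a b) (fun a _ b _ => hφab a b) n g hg
    obtain ⟨i, ⟨hi, hi1⟩, hi2⟩ := hcon h1
    have h2 := hφeq i g hi2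
    obtain ⟨x, h3, h4⟩ := (h2.and (hU i hi hi1)).exists
    rw [h3] at h4
    exact h4 le_rfl
  obtain ⟨Φ, h1, h2, h3, h4, h5⟩ := main_embed P (ρG U P) true n ((S0 T).map φ)
    ((kerI (v := v) hKT).map φ) hSL (by
      rintro _ _ ⟨a, ha, rfl⟩
      exact ⟨_, S0_star T ha, hφstar a⟩) hI hdeepS
  exact sat_of_embed (B := B) hKT φ hφsup hφstar Φ h1 h2 (h5 rfl) h3 h4

end one

section two

variable {R : Type} [AddCommGroup R] [LinearOrder R] [IsOrderedAddMonoid R] (P : PS)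
  (ρ : ∀ n, R →+ ZMod (P.p n))

theorem prod_ab {A B : Type} [Group A] [Lattice A] [Group B] [Lattice B] (x : A × B) :
    ab x = (ab x.1, ab x.2) := rfl

theorem prod_ab_le {A B : Type} [Group A] [Lattice A] [Group B] [Lattice B] {x y : A × B}
    (h : ab x ≤ ab y) : ab x.1 ≤ ab y.1 ∧ ab x.2 ≤ ab y.2 := ⟨h.1, h.2⟩

/-- the star of the doubled wreath product -/
def dst (n : ℕ) (x : Tw P ρ n × Tw P ρ n) : Tw P ρ n × Tw P ρ n := (sg P ρ n x.2, sg P ρ n x.1)

theorem dst_mul (n : ℕ) (a b : Tw P ρ n × Tw P ρ n) :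
    dst P ρ n (a * b) = dst P ρ n a * dst P ρ n b := (MTg P ρ n).star_mul a b

/-- The analysis of sub-m-groups of the doubled wreath product. -/
theorem doubled (n : ℕ) (S I : Subgroup (Tw P ρ (n + 1) × Tw P ρ (n + 1))) (hSL : SL S)
    (hst : ∀ a ∈ S, dst P ρ (n + 1) a ∈ S) (hI : IdealIn S I)
    (hIst : ∀ a ∈ I, dst P ρ (n + 1) a ∈ I)
    (hdeep : ¬ (dd^[n] (jj (dst P ρ (n + 1)) S) ≤ I)) :
    ∃ Φ : Tw P (ρZ P) (n + 1) × Tw P (ρZ P) (n + 1) → Tw P ρ (n + 1) × Tw P ρ (n + 1),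
      (∀ a b, Φ (a * b) = Φ a * Φ b) ∧ (∀ a b, Φ (a ⊔ b) = Φ a ⊔ Φ b) ∧
      (∀ a, Φ (dst P (ρZ P) (n + 1) a) = dst P ρ (n + 1) (Φ a)) ∧
      (∀ t, Φ t ∈ S) ∧ (∀ t, Φ t ∈ I → t = 1) := by
  let A := Tw P ρ (n + 1)
  let st : A × A → A × A := dst P ρ (n + 1)
  let s : A → A := sg P ρ (n + 1)
  have hs1 : s 1 = 1 := by
    have := sg_mul P ρ (n + 1) 1 1
    rw [mul_one] at this
    exact mul_eq_left.mp this.symm
  have hl := Tw.isLab P ρ (n + 1)
  have hid := jj_ideal (st := st) hst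
  have hjle := jj_le (st := st) hst
  -- an asymmetric element
  have hasym : ∃ z ∈ S, lab P ρ (n + 1) z.1 ≠ lab P ρ (n + 1) z.2 := by
    by_contra hcon
    push Not at hcon
    apply hdeep
    let K : Subgroup (A × A) :=
      { carrier := {t | t ∈ S ∧ lab P ρ (n + 1) t.1 = 0 ∧ lab P ρ (n + 1) t.2 = 0}
        mul_mem' := by
          rintro a b ⟨ha, ha', ha''⟩ ⟨hb, hb', hb''⟩
          refine ⟨S.mul_mem ha hb, ?_, ?_⟩
          · change lab P ρ (n + 1) (a.1 * b.1) = 0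
            rw [hl.mul, ha', hb', add_zero]
          · change lab P ρ (n + 1) (a.2 * b.2) = 0
            rw [hl.mul, ha'', hb'', add_zero]
        one_mem' := ⟨S.one_mem, hl.one, hl.one⟩
        inv_mem' := by
          rintro a ⟨ha, ha', ha''⟩
          refine ⟨S.inv_mem ha, ?_, ?_⟩
          · change lab P ρ (n + 1) (a.1)⁻¹ = 0
            rw [hl.inv, ha', neg_zero]
          · change lab P ρ (n + 1) (a.2)⁻¹ = 0
            rw [hl.inv, ha'', neg_zero] }
    have h1 : IdealIn S K := by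
      refine ⟨fun a ha => ha.1, ?_, ?_⟩
      · rintro z hz c ⟨hc, hc', hc''⟩
        refine ⟨S.mul_mem (S.mul_mem hz hc) (S.inv_mem hz), ?_, ?_⟩
        · change lab P ρ (n + 1) (z.1 * c.1 * (z.1)⁻¹) = 0
          rw [hl.conj, hc']
        · change lab P ρ (n + 1) (z.2 * c.2 * (z.2)⁻¹) = 0
          rw [hl.conj, hc'']
      · rintro c ⟨hc, hc', hc''⟩ x hx h
        obtain ⟨h3, h4⟩ := h
        have h5 := hl.mono h3
        have h6 := hl.mono h4
        change lab P ρ (n + 1) (ab x.1) ≤ lab P ρ (n + 1) (ab c.1) at h5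
        change lab P ρ (n + 1) (ab x.2) ≤ lab P ρ (n + 1) (ab c.2) at h6
        rw [hl.ab, hl.ab, hc', abs_zero] at h5
        rw [hl.ab, hl.ab, hc'', abs_zero] at h6
        exact ⟨hx, abs_eq_zero.mp (le_antisymm h5 (abs_nonneg _)),
          abs_eq_zero.mp (le_antisymm h6 (abs_nonneg _))⟩
    have h2 : ∀ a ∈ S, a * st a ∈ K := by
      intro a ha
      have h3 := hcon a ha
      refine ⟨S.mul_mem ha (hst a ha), ?_, ?_⟩
      · change lab P ρ (n + 1) (a.1 * sg P ρ (n + 1) a.2) = 0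
        rw [hl.mul]
        change lab P ρ (n + 1) a.1 + - lab P ρ (n + 1) a.2 = 0
        rw [h3]; abel
      · change lab P ρ (n + 1) (a.2 * sg P ρ (n + 1) a.1) = 0
        rw [hl.mul]
        change lab P ρ (n + 1) a.2 + - lab P ρ (n + 1) a.1 = 0
        rw [h3]; abel
    have h3 : jj st S ≤ K := jj_le_of h1 h2
    have hLk : ∀ x : A, lab P ρ (n + 1) x = 0 → x ∈ Lk P ρ 1 (n + 1) := by
      intro x hx
      refine ⟨hx, fun j => ?_⟩
      cases n with
      | zero => change _ ∈ (⊤ : Subgroup (Tw P ρ 0)); trivial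
      | succ n => change _ ∈ (⊤ : Subgroup (Tw P ρ (n + 1))); trivial
    have h4 : ∀ x ∈ dd^[n] (jj st S), x.1 = 1 ∧ x.2 = 1 := by
      intro x hx
      have e1 : x.1 ∈ dd^[n] (Lk P ρ 1 (n + 1)) :=
        dd_iter_map (τ := fun t : A × A => t.1) (fun a ha => hLk _ (h3 ha).2.1)
          (fun _ _ _ _ => rfl) (fun _ _ _ _ h => (prod_ab_le h).1) n x hx
      have e2 : x.2 ∈ dd^[n] (Lk P ρ 1 (n + 1)) :=
        dd_iter_map (τ := fun t : A × A => t.2) (fun a ha => hLk _ (h3 ha).2.2)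
          (fun _ _ _ _ => rfl) (fun _ _ _ _ h => (prod_ab_le h).2) n x hx
      have e3 : dd^[n] (Lk P ρ 1 (n + 1)) ≤ ⊥ := by
        refine (dd_iter_Lk P ρ (n + 1) 1 n).trans ?_
        rw [Nat.add_comm 1 n, Lk_self]
      exact ⟨(Subgroup.mem_bot).mp (e3 e1), (Subgroup.mem_bot).mp (e3 e2)⟩
    intro x hx
    have : x = 1 := Prod.ext (h4 x hx).1 (h4 x hx).2
    rw [this]; exact I.one_mem
  -- a dominating element with one component
  obtain ⟨t0, ht0, ht0l⟩ : ∃ t0 : A, ((t0, 1) : A × A) ∈ S ∧ 0 < lab P ρ (n + 1) t0 := by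
    obtain ⟨z, hz, hzne⟩ := hasym
    obtain ⟨z, hz, hzlt⟩ : ∃ z ∈ S, lab P ρ (n + 1) z.2 < lab P ρ (n + 1) z.1 := by
      rcases lt_or_gt_of_ne hzne with h | h
      · refine ⟨z⁻¹, S.inv_mem hz, ?_⟩
        change lab P ρ (n + 1) (z.2)⁻¹ < lab P ρ (n + 1) (z.1)⁻¹
        rw [hl.inv, hl.inv]; exact neg_lt_neg h
      · exact ⟨z, hz, h⟩
    have h1 : (z * st z) ⊔ 1 ∈ S := hSL _ (S.mul_mem hz (hst z hz)) _ S.one_mem
    have hc : 0 < lab P ρ (n + 1) (z.1 * s z.2) := by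
      rw [hl.mul]
      change 0 < lab P ρ (n + 1) z.1 + - lab P ρ (n + 1) z.2
      rw [← sub_eq_add_neg]; exact sub_pos.mpr hzlt
    have hc' : lab P ρ (n + 1) (z.2 * s z.1) < 0 := by
      rw [hl.mul]
      change lab P ρ (n + 1) z.2 + - lab P ρ (n + 1) z.1 < 0
      rw [← sub_eq_add_neg]; exact sub_neg.mpr hzlt
    have e : (z * st z) ⊔ 1 = ((z.1 * s z.2, 1) : A × A) := by
      apply Prod.ext
      · change (z.1 * s z.2) ⊔ 1 = z.1 * s z.2
        apply sup_eq_left.mpr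
        apply hl.le
        rw [hl.one]; exact hc
      · change (z.2 * s z.1) ⊔ 1 = 1
        apply sup_eq_right.mpr
        apply hl.le
        rw [hl.one]; exact hc'
    refine ⟨z.1 * s z.2, ?_, hc⟩
    have h2 : ((z.1 * s z.2, 1) : A × A) ∈ S := by rw [← e]; exact h1
    exact h2
  -- truncation to the first component
  have htr : ∀ x : A × A, x ∈ S → ∀ t : A, ((t, 1) : A × A) ∈ S → ab x.1 ≤ t →
      ((x.1, 1) : A × A) ∈ S := by
    intro x hx t ht h
    have h1 := hSL.trunc hx ht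
    have e : (x ⊓ ((t, 1) : A × A)) ⊔ ((t, 1) : A × A)⁻¹ = (x.1, 1) := by
      apply Prod.ext
      · exact trunc_eq h
      · change (x.2 ⊓ 1) ⊔ (1 : A)⁻¹ = 1
        rw [inv_one]; exact sup_eq_right.mpr inf_le_right
    have h2 : (x ⊓ ((t, 1) : A × A)) ⊔ ((t, 1) : A × A)⁻¹ ∈ S := h1
    rw [e] at h2
    exact h2
  have hfirst : ∀ x ∈ jj st S, ((x.1, 1) : A × A) ∈ S := by
    let K : Subgroup (A × A) :=
      { carrier := {t | t ∈ S ∧ ((t.1, 1) : A × A) ∈ S}
        mul_mem' := by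
          rintro a b ⟨ha, ha'⟩ ⟨hb, hb'⟩
          refine ⟨S.mul_mem ha hb, ?_⟩
          have := S.mul_mem ha' hb'
          have e : ((a.1, 1) : A × A) * (b.1, 1) = ((a * b).1, 1) :=
            Prod.ext rfl (one_mul 1)
          have h2 : ((a.1, 1) : A × A) * (b.1, 1) ∈ S := this
          rw [e] at h2
          exact h2
        one_mem' := ⟨S.one_mem, S.one_mem⟩
        inv_mem' := by
          rintro a ⟨ha, ha'⟩
          refine ⟨S.inv_mem ha, ?_⟩
          have := S.inv_mem ha'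
          have e : ((a.1, 1) : A × A)⁻¹ = ((a⁻¹).1, 1) := Prod.ext rfl inv_one
          have h2 : ((a.1, 1) : A × A)⁻¹ ∈ S := this
          rw [e] at h2
          exact h2 }
    have h1 : IdealIn S K := by
      refine ⟨fun a ha => ha.1, ?_, ?_⟩
      · rintro z hz c ⟨hc, hc'⟩
        refine ⟨S.mul_mem (S.mul_mem hz hc) (S.inv_mem hz), ?_⟩
        have := (ideal_self S).conj z hz _ hc'
        have e : z * ((c.1, 1) : A × A) * z⁻¹ = ((z * c * z⁻¹).1, 1) := by
          apply Prod.ext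
          · rfl
          · change z.2 * 1 * (z.2)⁻¹ = 1
            group
        have h2 : z * ((c.1, 1) : A × A) * z⁻¹ ∈ S := this
        rw [e] at h2
        exact h2
      · rintro c ⟨hc, hc'⟩ x hx h
        refine ⟨hx, ?_⟩
        have h3 := hSL.ab hc'
        have h4 : ((ab c.1, 1) : A × A) ∈ S := by
          have e : ab ((c.1, 1) : A × A) = (ab c.1, 1) := Prod.ext rfl ab_one
          have h5 : ab ((c.1, 1) : A × A) ∈ S := h3
          rw [e] at h5
          exact h5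
        exact htr x hx _ h4 h.1
    have h2 : ∀ a ∈ S, a * st a ∈ K := by
      intro z hz
      have hzz : z * st z ∈ S := S.mul_mem hz (hst z hz)
      refine ⟨hzz, ?_⟩
      -- compare the labels
      have e1 : (z * st z).1 = z.1 * s z.2 := rfl
      have e2 : (z * st z).2 = z.2 * s z.1 := rfl
      have l1 : lab P ρ (n + 1) (z.1 * s z.2) =
          lab P ρ (n + 1) z.1 - lab P ρ (n + 1) z.2 := by
        rw [hl.mul, sub_eq_add_neg]; rfl
      have l2 : lab P ρ (n + 1) (z.2 * s z.1) =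
          lab P ρ (n + 1) z.2 - lab P ρ (n + 1) z.1 := by
        rw [hl.mul, sub_eq_add_neg]; rfl
      rcases lt_trichotomy (lab P ρ (n + 1) z.1) (lab P ρ (n + 1) z.2) with h | h | h
      · -- negative : take the meet with 1
        have h3 : (z * st z) ⊓ 1 ∈ S := hSL.inf hzz S.one_mem
        have e : (z * st z) ⊓ 1 = (((z * st z).1, 1) : A × A) := by
          apply Prod.ext
          · change (z.1 * s z.2) ⊓ 1 = z.1 * s z.2
            apply inf_eq_left.mpr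
            apply hl.le
            rw [hl.one, l1]; exact sub_neg.mpr h
          · change (z.2 * s z.1) ⊓ 1 = 1
            apply inf_eq_right.mpr
            apply hl.le
            rw [hl.one, l2]; exact sub_pos.mpr h
        have h4 : (z * st z) ⊓ 1 ∈ S := h3
        rw [e] at h4
        exact h4
      · apply htr _ hzz t0 ht0
        apply hl.le
        rw [hl.ab, e1, l1, h, sub_self, abs_zero]
        exact ht0l
      · have h3 : (z * st z) ⊔ 1 ∈ S := hSL _ hzz _ S.one_mem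
        have e : (z * st z) ⊔ 1 = (((z * st z).1, 1) : A × A) := by
          apply Prod.ext
          · change (z.1 * s z.2) ⊔ 1 = z.1 * s z.2
            apply sup_eq_left.mpr
            apply hl.le
            rw [hl.one, l1]; exact sub_pos.mpr h
          · change (z.2 * s z.1) ⊔ 1 = 1
            apply sup_eq_right.mpr
            apply hl.le
            rw [hl.one, l2]; exact sub_neg.mpr h
        have h4 : (z * st z) ⊔ 1 ∈ S := h3
        rw [e] at h4
        exact h4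
    intro x hx
    exact (jj_le_of h1 h2 hx).2
  -- first components inside the ideal
  have hfle : ∀ x : A × A, ab ((x.1, 1) : A × A) ≤ ab x := by
    intro x
    refine ⟨le_rfl, ?_⟩
    change ab (1 : A) ≤ ab x.2
    rw [ab_one]; exact one_le_ab _
  have hsle : ∀ x : A × A, ab ((1, x.2) : A × A) ≤ ab x := by
    intro x
    refine ⟨?_, le_rfl⟩
    change ab (1 : A) ≤ ab x.1
    rw [ab_one]; exact one_le_ab _
  have hfirstJ : ∀ x ∈ jj st S, ((x.1, 1) : A × A) ∈ jj st S :=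
    fun x hx => hid.solid x hx _ (hfirst x hx) (hfle x)
  have hstab : ∀ a b : A × A, ab a ≤ ab b → ab (st a) ≤ ab (st b) := by
    rintro a b ⟨h1, h2⟩
    exact ⟨sg_ab P ρ (n + 1) _ _ h2, sg_ab P ρ (n + 1) _ _ h1⟩
  have hJst : ∀ x ∈ jj st S, st x ∈ jj st S :=
    jj_map (τ := st) hst hst hst (fun a _ b _ => dst_mul P ρ (n + 1) a b)
      (fun a _ b _ => hstab a b) (fun _ _ => rfl)
  let J1 : Subgroup A :=
    { carrier := {t | ((t, 1) : A × A) ∈ jj st S}
      mul_mem' := by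
        intro a b ha hb
        have h := (jj st S).mul_mem ha hb
        have e : ((a, 1) : A × A) * (b, 1) = (a * b, 1) := Prod.ext rfl (one_mul 1)
        have h2 : ((a, 1) : A × A) * (b, 1) ∈ jj st S := h
        rw [e] at h2
        exact h2
      one_mem' := (jj st S).one_mem
      inv_mem' := by
        intro a ha
        have h := (jj st S).inv_mem ha
        have e : ((a, 1) : A × A)⁻¹ = (a⁻¹, 1) := Prod.ext rfl inv_one
        have h2 : ((a, 1) : A × A)⁻¹ ∈ jj st S := h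
        rw [e] at h2
        exact h2 }
  let I1 : Subgroup A :=
    { carrier := {t | ((t, 1) : A × A) ∈ I ∧ t ∈ J1}
      mul_mem' := by
        rintro a b ⟨ha, ha'⟩ ⟨hb, hb'⟩
        refine ⟨?_, J1.mul_mem ha' hb'⟩
        have h := I.mul_mem ha hb
        have e : ((a, 1) : A × A) * (b, 1) = (a * b, 1) := Prod.ext rfl (one_mul 1)
        have h2 : ((a, 1) : A × A) * (b, 1) ∈ I := h
        rw [e] at h2
        exact h2
      one_mem' := ⟨I.one_mem, J1.one_mem⟩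
      inv_mem' := by
        rintro a ⟨ha, ha'⟩
        refine ⟨?_, J1.inv_mem ha'⟩
        have h := I.inv_mem ha
        have e : ((a, 1) : A × A)⁻¹ = (a⁻¹, 1) := Prod.ext rfl inv_one
        have h2 : ((a, 1) : A × A)⁻¹ ∈ I := h
        rw [e] at h2
        exact h2 }
  have hJ1SL : SL J1 := by
    intro a ha b hb
    have h := (hid.sl hSL) _ ha _ hb
    have e : ((a, 1) : A × A) ⊔ (b, 1) = (a ⊔ b, 1) := Prod.ext rfl (sup_idem (1 : A))
    have h2 : ((a, 1) : A × A) ⊔ (b, 1) ∈ jj st S := h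
    rw [e] at h2
    exact h2
  have hI1 : IdealIn J1 I1 := by
    refine ⟨fun a ha => ha.2, ?_, ?_⟩
    · rintro z hz c ⟨hc, hc'⟩
      refine ⟨?_, J1.mul_mem (J1.mul_mem hz hc') (J1.inv_mem hz)⟩
      have h := hI.conj _ (hjle hz) _ hc
      have e : ((z, 1) : A × A) * (c, 1) * (z, 1)⁻¹ = (z * c * z⁻¹, 1) := by
        apply Prod.ext
        · rfl
        · change (1 : A) * 1 * 1⁻¹ = 1
          group
      have h2 : ((z, 1) : A × A) * (c, 1) * (z, 1)⁻¹ ∈ I := h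
      rw [e] at h2
      exact h2
    · rintro c ⟨hc, hc'⟩ x hx h
      refine ⟨hI.solid _ hc _ (hjle hx) ?_, hx⟩
      exact ⟨h, le_rfl⟩
  have hdeep1 : ¬ (dd^[n] J1 ≤ I1) := by
    intro hcon
    apply hdeep
    have hfst : ∀ x ∈ dd^[n] (jj st S), x.1 ∈ dd^[n] J1 :=
      dd_iter_map (τ := fun t : A × A => t.1) hfirstJ (fun _ _ _ _ => rfl)
        (fun _ _ _ _ h => (prod_ab_le h).1) n
    have hstd : ∀ x ∈ dd^[n] (jj st S), st x ∈ dd^[n] (jj st S) :=
      dd_iter_map (τ := st) hJst (fun a _ b _ => dst_mul P ρ (n + 1) a b)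
        (fun a _ b _ => hstab a b) n
    intro x hx
    have h1 : ((x.1, 1) : A × A) ∈ I := (hcon (hfst x hx)).1
    have h2 : (((st x).1, 1) : A × A) ∈ I := (hcon (hfst _ (hstd x hx))).1
    have h3 := hIst _ h2
    have e : st (((st x).1, 1) : A × A) = (1, x.2) := by
      apply Prod.ext
      · exact hs1
      · exact sg_sg P ρ (n + 1) x.2
    have h4 : ((1, x.2) : A × A) ∈ I := by
      have h5 : st (((st x).1, 1) : A × A) ∈ I := h3
      rw [e] at h5
      exact h5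
    have h6 := I.mul_mem h1 h4
    have e2 : ((x.1, 1) : A × A) * (1, x.2) = x := Prod.ext (mul_one _) (one_mul _)
    have h7 : ((x.1, 1) : A × A) * (1, x.2) ∈ I := h6
    rw [e2] at h7
    exact h7
  obtain ⟨Φ, h1, h2, h3, h4, _⟩ := main_embed P ρ false n J1 I1 hJ1SL
    (fun h => absurd h (by simp)) hI1 hdeep1
  have hΦ1 : Φ 1 = 1 := by
    have := h1 1 1
    rw [mul_one] at this
    exact mul_eq_left.mp this.symm
  have hΦinv : ∀ a, Φ a⁻¹ = (Φ a)⁻¹ := by
    intro a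
    rw [eq_inv_iff_mul_eq_one, ← h1, inv_mul_cancel, hΦ1]
  have hΦinf : ∀ a b, Φ (a ⊓ b) = Φ a ⊓ Φ b := by
    intro a b
    have e : a ⊓ b = (a⁻¹ ⊔ b⁻¹)⁻¹ := by rw [inv_sup, inv_inv, inv_inv]
    rw [e, hΦinv, h2, hΦinv, hΦinv, inv_sup, inv_inv, inv_inv]
  let Φ2 : Tw P (ρZ P) (n + 1) × Tw P (ρZ P) (n + 1) → A × A :=
    fun t => (Φ t.1, s (Φ (sg P (ρZ P) (n + 1) t.2)))
  have hΦS : ∀ t, ((Φ t, 1) : A × A) ∈ S := fun t => hjle (h3 t)
  have hΦS' : ∀ t, ((1, s (Φ t)) : A × A) ∈ S := by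
    intro t
    have h5 := hst _ (hΦS t)
    have e : st ((Φ t, 1) : A × A) = (1, s (Φ t)) := Prod.ext hs1 rfl
    have h6 : st ((Φ t, 1) : A × A) ∈ S := h5
    rw [e] at h6
    exact h6
  refine ⟨Φ2, ?_, ?_, ?_, ?_, ?_⟩
  · intro a b
    apply Prod.ext
    · exact h1 _ _
    · change s (Φ (sg P (ρZ P) (n + 1) (a.2 * b.2))) = s (Φ _) * s (Φ _)
      rw [sg_mul, h1]
      exact sg_mul P ρ (n + 1) _ _
  · intro a b
    apply Prod.ext
    · exact h2 _ _
    · change s (Φ (sg P (ρZ P) (n + 1) (a.2 ⊔ b.2))) = s (Φ _) ⊔ s (Φ _)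
      rw [sg_sup, hΦinf]
      exact sg_inf P ρ (n + 1) _ _
  · intro a
    apply Prod.ext
    · change Φ (sg P (ρZ P) (n + 1) a.2) = s (s (Φ (sg P (ρZ P) (n + 1) a.2)))
      exact (sg_sg P ρ (n + 1) _).symm
    · change s (Φ (sg P (ρZ P) (n + 1) (sg P (ρZ P) (n + 1) a.1))) = s (Φ a.1)
      rw [sg_sg]
  · intro t
    have h5 := S.mul_mem (hΦS t.1) (hΦS' (sg P (ρZ P) (n + 1) t.2))
    have e : ((Φ t.1, 1) : A × A) * (1, s (Φ (sg P (ρZ P) (n + 1) t.2))) = Φ2 t :=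
      Prod.ext (mul_one _) (one_mul _)
    have h6 : ((Φ t.1, 1) : A × A) * (1, s (Φ (sg P (ρZ P) (n + 1) t.2))) ∈ S := h5
    rw [e] at h6
    exact h6
  · intro t ht
    have h5 : ((Φ t.1, 1) : A × A) ∈ I := hI.solid _ ht _ (hΦS t.1) (hfle (Φ2 t))
    have h6 : ((1, s (Φ (sg P (ρZ P) (n + 1) t.2))) : A × A) ∈ I :=
      hI.solid _ ht _ (hΦS' _) (hsle (Φ2 t))
    have h7 := hIst _ h6
    have e : st ((1, s (Φ (sg P (ρZ P) (n + 1) t.2))) : A × A) =
        (Φ (sg P (ρZ P) (n + 1) t.2), 1) := by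
      apply Prod.ext
      · exact sg_sg P ρ (n + 1) _
      · exact hs1
    have h8 : ((Φ (sg P (ρZ P) (n + 1) t.2), 1) : A × A) ∈ I := by
      have h9 : st ((1, s (Φ (sg P (ρZ P) (n + 1) t.2))) : A × A) ∈ I := h7
      rw [e] at h9
      exact h9
    have k1 := h4 t.1 ⟨h5, h3 _⟩
    have k2 := h4 _ ⟨h8, h3 _⟩
    have k3 : t.2 = 1 := by
      have h10 : sg P (ρZ P) (n + 1) 1 = 1 := by
        have := sg_mul P (ρZ P) (n + 1) 1 1
        rw [mul_one] at this
        exact mul_eq_left.mp this.symm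
      have := congrArg (sg P (ρZ P) (n + 1)) k2
      rwa [sg_sg, h10] at this
    exact Prod.ext k1 k3

end two

section three

variable (P : PS)

/-- The doubled case. -/
theorem crit_dbl (n : ℕ) (K : MGroup)
    (hKT : ∀ e, (MTg P (ρZ P) (n + 1)).Satisfies e → K.Satisfies e)
    (v : ℕ → K.carrier) (hv : ∀ k, ∃ t, K.eval v t = k)
    (hdeep : dd^[n] (jj K.star (⊤ : Subgroup K.carrier)) ≠ ⊥) :
    ∀ e, K.Satisfies e → (MTg P (ρZ P) (n + 1)).Satisfies e := by
  set T := MTg P (ρZ P) (n + 1) with hT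
  obtain ⟨y, hy, hy1⟩ := iter_ne_bot hdeep
  let stX : ((ℕ → T.carrier) → T.carrier) → ((ℕ → T.carrier) → T.carrier) :=
    fun a x => T.star (a x)
  have hstX : ∀ a ∈ S0 T, stX a ∈ S0 T := fun a ha => S0_star T ha
  have hsurjK : ∀ y ∈ (⊤ : Subgroup K.carrier), ∃ a ∈ S0 T, pk T K v a = y := by
    intro y _
    obtain ⟨t, rfl⟩ := hv y
    exact ⟨ev T t, ⟨t, rfl⟩, pk_ev hKT t⟩
  have hjle := jj_le (st := stX) hstX
  have hjid := jj_ideal (st := stX) hstX
  have hpab : ∀ a ∈ S0 T, ∀ b ∈ S0 T, ab a ≤ ab b → ab (pk T K v a) ≤ ab (pk T K v b) := by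
    intro a ha b hb h
    rw [← pk_ab hKT a ha, ← pk_ab hKT b hb]
    exact pk_le hKT ((S0_sl T).ab ha) ((S0_sl T).ab hb) h
  have hjmap : ∀ a ∈ jj stX (S0 T), pk T K v a ∈ jj K.star (⊤ : Subgroup K.carrier) :=
    jj_map (τ := pk T K v) hstX (fun _ _ => trivial) (fun _ _ => trivial) (pk_mul hKT) hpab
      (pk_star hKT)
  have hjsurj : ∀ y ∈ jj K.star (⊤ : Subgroup K.carrier), ∃ a ∈ jj stX (S0 T), pk T K v a = y :=
    jj_surj (τ := pk T K v) hstX (S0_sl T) (pk_mul hKT) (pk_sup hKT) (pk_star hKT)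
      (fun _ _ => trivial) hsurjK
  obtain ⟨g, hg, rfl⟩ := dd_iter_surj (S := jj stX (S0 T)) (τ := pk T K v) (hjid.sl (S0_sl T))
    (fun a ha b hb => pk_mul hKT a (hjle ha) b (hjle hb))
    (fun a ha b hb => pk_sup hKT a (hjle ha) b (hjle hb)) hjmap hjsurj n y hy
  obtain ⟨U, hU⟩ := exists_ultra hKT (hjle (dd_iter_le _ _ hg)) hy1
  let B := MTg P (ρG U P) (n + 1)
  let φ : ((ℕ → T.carrier) → T.carrier) →* B.carrier :=
    MonoidHom.mk' (fun a => (phi U P (n + 1) (fun x => (a x).1), phi U P (n + 1) (fun x => (a x).2)))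
      (fun a b => Prod.ext (phi_mul U P (n + 1) (fun x => (a x).1) (fun x => (b x).1))
        (phi_mul U P (n + 1) (fun x => (a x).2) (fun x => (b x).2)))
  have hφsup : ∀ a b, φ (a ⊔ b) = φ a ⊔ φ b := fun a b =>
    Prod.ext (phi_sup U P (n + 1) (fun x => (a x).1) (fun x => (b x).1))
      (phi_sup U P (n + 1) (fun x => (a x).2) (fun x => (b x).2))
  have hφstar : ∀ a, φ (fun x => T.star (a x)) = B.star (φ a) := fun a =>
    Prod.ext (phi_sg U P (n + 1) (fun x => (a x).2)) (phi_sg U P (n + 1) (fun x => (a x).1))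
  have hφeq : ∀ a b, φ a = φ b → ∀ᶠ x in (U : Filter (ℕ → T.carrier)), a x = b x := by
    intro a b h
    have h1 := phi_eq U P (n + 1) _ _ (congrArg Prod.fst h)
    have h2 := phi_eq U P (n + 1) _ _ (congrArg Prod.snd h)
    filter_upwards [h1, h2] with x hx1 hx2
    exact Prod.ext hx1 hx2
  have hφab : ∀ a b, ab a ≤ ab b → ab (φ a) ≤ ab (φ b) := by
    intro a b h
    have hab : ∀ a, φ (ab a) = ab (φ a) := by
      intro a; unfold ab; rw [hφsup, map_inv]
    rw [← hab, ← hab]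
    have h2 := hφsup (ab a) (ab b)
    rw [sup_eq_right.mpr h] at h2
    rw [h2]; exact le_sup_left
  obtain ⟨hSL, hI⟩ := map_ideal φ hφsup (S0_sl T) (kerI_ideal (v := v) hKT)
  have hSst : ∀ a ∈ (S0 T).map φ, B.star a ∈ (S0 T).map φ := by
    rintro _ ⟨a, ha, rfl⟩
    exact ⟨_, S0_star T ha, hφstar a⟩
  have hIst : ∀ a ∈ (kerI (v := v) hKT).map φ, B.star a ∈ (kerI (v := v) hKT).map φ := by
    rintro _ ⟨a, ⟨ha, ha1⟩, rfl⟩
    refine ⟨_, ⟨S0_star T ha, ?_⟩, hφstar a⟩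
    rw [pk_star hKT a ha, ha1, K.star_one]
  have hjφ : ∀ a ∈ jj stX (S0 T), φ a ∈ jj B.star ((S0 T).map φ) :=
    jj_map (τ := φ) hstX hSst (fun a ha => ⟨a, ha, rfl⟩) (fun a _ b _ => map_mul φ a b)
      (fun a _ b _ => hφab a b) (fun a _ => hφstar a)
  have hdeepS : ¬ (dd^[n] (jj B.star ((S0 T).map φ)) ≤ (kerI (v := v) hKT).map φ) := by
    intro hcon
    have h1 : φ g ∈ dd^[n] (jj B.star ((S0 T).map φ)) :=
      dd_iter_map (τ := φ) hjφ (fun a _ b _ => map_mul φ a b)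
        (fun a _ b _ => hφab a b) n g hg
    obtain ⟨i, ⟨hi, hi1⟩, hi2⟩ := hcon h1
    have h2 := hφeq i g hi2
    obtain ⟨x, h3, h4⟩ := (h2.and (hU i hi hi1)).exists
    rw [h3] at h4
    exact h4 le_rfl
  obtain ⟨Φ, h1, h2, h3, h4, h5⟩ := doubled P (ρG U P) n ((S0 T).map φ)
    ((kerI (v := v) hKT).map φ) hSL hSst hI hIst hdeepS
  exact sat_of_embed (B := B) hKT φ hφsup hφstar Φ h1 h2 h3 h4 h5

end three

end Pool.Agent.Helper29
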