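import Pool.Agent.Helper29.LG

/-!
The derived convex normal subgroup of a sub-ℓ-group, and its iterates.
-/

set_option autoImplicit false
set_option linter.unusedSectionVars false

namespace Pool.Agent.Helper29

section abs

variable {G : Type*} [Group G] [Lattice G] [MulLeftMono G] [MulRightMono G]

/-- absolute value -/
def ab (a : G) : G := a ⊔ a⁻¹

theorem le_ab (a : G) : a ≤ ab a := le_sup_left
theorem inv_le_ab (a : G) : a⁻¹ ≤ ab a := le_sup_right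

theorem one_le_of_sq {b : G} (h : 1 ≤ b * b) : 1 ≤ b := by
  have h1 : (b ⊓ 1) * (b ⊓ 1) = b ⊓ 1 := by
    rw [inf_mul, mul_inf, mul_one, one_mul]
    apply le_antisymm
    · exact inf_le_right
    · refine le_inf (le_inf ?_ inf_le_left) le_rfl
      exact inf_le_right.trans h
  have h2 : b ⊓ 1 = 1 := mul_eq_left.mp h1
  exact inf_eq_right.mp h2

theorem one_le_ab (a : G) : 1 ≤ ab a := by
  apply one_le_of_sq
  calc (1:G) = a * a⁻¹ := (mul_inv_cancel a).symm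
    _ ≤ ab a * ab a := mul_le_mul' (le_ab a) (inv_le_ab a)

theorem ab_inv (a : G) : ab a⁻¹ = ab a := by
  unfold ab; rw [inv_inv, sup_comm]

theorem ab_of_one_le {a : G} (h : 1 ≤ a) : ab a = a := by
  unfold ab
  exact sup_eq_left.mpr ((inv_le_one'.mpr h).trans h)

theorem ab_ab (a : G) : ab (ab a) = ab a := ab_of_one_le (one_le_ab a)

theorem ab_one : ab (1 : G) = 1 := ab_of_one_le le_rfl

theorem ab_le_iff {a b : G} : ab a ≤ b ↔ a ≤ b ∧ a⁻¹ ≤ b := sup_le_iff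

theorem ab_eq_one {a : G} (h : ab a ≤ 1) : a = 1 := by
  obtain ⟨h1, h2⟩ := ab_le_iff.mp h
  exact le_antisymm h1 (by simpa using h2)

theorem inv_ab_le (a : G) : (ab a)⁻¹ ≤ a := by
  rw [inv_le']; exact inv_le_ab a

theorem ab_conj (g a : G) : ab (g * a * g⁻¹) = g * ab a * g⁻¹ := by
  unfold ab
  rw [mul_sup, sup_mul]
  congr 1
  group

theorem ab_sup_le (a b : G) : ab (a ⊔ b) ≤ ab a * ab b := by
  have h1 : ab a ≤ ab a * ab b := le_mul_of_one_le_right' (one_le_ab b)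
  have h2 : ab b ≤ ab a * ab b := le_mul_of_one_le_left' (one_le_ab a)
  refine ab_le_iff.mpr ⟨sup_le ((le_ab a).trans h1) ((le_ab b).trans h2), ?_⟩
  rw [inv_sup]
  exact inf_le_left.trans ((inv_le_ab a).trans h1)

/-- truncation -/
theorem ab_trunc_le {a c : G} (hc : 1 ≤ c) : ab ((a ⊓ c) ⊔ c⁻¹) ≤ c := by
  refine ab_le_iff.mpr ⟨sup_le inf_le_right ((inv_le_one'.mpr hc).trans hc), ?_⟩
  rw [inv_sup, inv_inv]
  exact inf_le_right

theorem trunc_eq {a c : G} (h : ab a ≤ c) : (a ⊓ c) ⊔ c⁻¹ = a := by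
  obtain ⟨h1, h2⟩ := ab_le_iff.mp h
  rw [inf_eq_left.mpr h1]
  apply sup_eq_left.mpr
  rw [inv_le']; exact h2

end abs

section dd

variable {G : Type*} [Group G] [Lattice G] [MulLeftMono G] [MulRightMono G]

/-- closed under joins -/
def SL (S : Subgroup G) : Prop := ∀ a ∈ S, ∀ b ∈ S, a ⊔ b ∈ S

theorem SL.inf {S : Subgroup G} (h : SL S) {a b : G} (ha : a ∈ S) (hb : b ∈ S) : a ⊓ b ∈ S := by
  have e : a ⊓ b = (a⁻¹ ⊔ b⁻¹)⁻¹ := by rw [inv_sup, inv_inv, inv_inv]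
  rw [e]
  exact S.inv_mem (h _ (S.inv_mem ha) _ (S.inv_mem hb))

theorem SL.ab {S : Subgroup G} (h : SL S) {a : G} (ha : a ∈ S) : ab a ∈ S :=
  h _ ha _ (S.inv_mem ha)

theorem SL.trunc {S : Subgroup G} (h : SL S) {a c : G} (ha : a ∈ S) (hc : c ∈ S) :
    (a ⊓ c) ⊔ c⁻¹ ∈ S := h _ (h.inf ha hc) _ (S.inv_mem hc)

/-- `C` is a solid normal subgroup of `S`. -/
structure IdealIn (S C : Subgroup G) : Prop where
  le : C ≤ S
  conj : ∀ s ∈ S, ∀ c ∈ C, s * c * s⁻¹ ∈ C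
  solid : ∀ c ∈ C, ∀ x ∈ S, ab x ≤ ab c → x ∈ C

theorem IdealIn.conj' {S C : Subgroup G} (h : IdealIn S C) {s c : G} (hs : s ∈ S) (hc : c ∈ C) :
    s⁻¹ * c * s ∈ C := by
  have := h.conj s⁻¹ (S.inv_mem hs) c hc
  rwa [inv_inv] at this

theorem IdealIn.ab_mem {S C : Subgroup G} (hS : SL S) (h : IdealIn S C) {c : G} (hc : c ∈ C) :
    ab c ∈ C := h.solid c hc _ (hS.ab (h.le hc)) (ab_ab c).le

theorem IdealIn.sl {S C : Subgroup G} (hS : SL S) (h : IdealIn S C) : SL C := by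
  intro a ha b hb
  refine h.solid (ab a * ab b) (C.mul_mem (h.ab_mem hS ha) (h.ab_mem hS hb)) _
    (hS a (h.le ha) b (h.le hb)) ?_
  exact (ab_sup_le a b).trans (le_ab _)

/-- The derived ideal: the smallest solid normal subgroup of `S` containing the commutators. -/
def dd (S : Subgroup G) : Subgroup G :=
  sInf {C | IdealIn S C ∧ ∀ a ∈ S, ∀ b ∈ S, a * b * a⁻¹ * b⁻¹ ∈ C}

theorem dd_le_of {S C : Subgroup G} (h : IdealIn S C)
    (hc : ∀ a ∈ S, ∀ b ∈ S, a * b * a⁻¹ * b⁻¹ ∈ C) : dd S ≤ C := sInf_le ⟨h, hc⟩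

theorem mem_dd {S : Subgroup G} {x : G} : x ∈ dd S ↔ ∀ C, IdealIn S C →
    (∀ a ∈ S, ∀ b ∈ S, a * b * a⁻¹ * b⁻¹ ∈ C) → x ∈ C := by
  unfold dd
  rw [Subgroup.mem_sInf]
  exact ⟨fun h C h1 h2 => h C ⟨h1, h2⟩, fun h C hC => h C hC.1 hC.2⟩

theorem ideal_self (S : Subgroup G) : IdealIn S S where
  le := le_rfl
  conj _ hs _ hc := S.mul_mem (S.mul_mem hs hc) (S.inv_mem hs)
  solid _ _ _ hx _ := hx

theorem comm_mem_self (S : Subgroup G) : ∀ a ∈ S, ∀ b ∈ S, a * b * a⁻¹ * b⁻¹ ∈ S :=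
  fun _ ha _ hb => S.mul_mem (S.mul_mem (S.mul_mem ha hb) (S.inv_mem ha)) (S.inv_mem hb)

theorem dd_le (S : Subgroup G) : dd S ≤ S := dd_le_of (ideal_self S) (comm_mem_self S)

theorem dd_ideal (S : Subgroup G) : IdealIn S (dd S) where
  le := dd_le S
  conj s hs c hc := by
    rw [mem_dd] at hc ⊢
    exact fun C h1 h2 => h1.conj s hs c (hc C h1 h2)
  solid c hc x hx h := by
    rw [mem_dd] at hc ⊢
    exact fun C h1 h2 => h1.solid c (hc C h1 h2) x hx h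

theorem comm_mem_dd {S : Subgroup G} {a b : G} (ha : a ∈ S) (hb : b ∈ S) :
    a * b * a⁻¹ * b⁻¹ ∈ dd S := by
  rw [mem_dd]
  exact fun C _ h2 => h2 a ha b hb

theorem dd_iter_le (S : Subgroup G) (k : ℕ) : dd^[k] S ≤ S := by
  induction k with
  | zero => exact le_rfl
  | succ k ih =>
    rw [Function.iterate_succ_apply']
    exact (dd_le _).trans ih

theorem dd_iter_sl {S : Subgroup G} (hS : SL S) (k : ℕ) : SL (dd^[k] S) := by
  induction k with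
  | zero => exact hS
  | succ k ih =>
    rw [Function.iterate_succ_apply']
    exact (dd_ideal _).sl ih

end dd

section maps

variable {G H : Type*} [Group G] [Lattice G] [MulLeftMono G] [MulRightMono G]
  [Group H] [Lattice H] [MulLeftMono H] [MulRightMono H]

theorem map_one_of {S : Subgroup G} {τ : G → H}
    (hmul : ∀ a ∈ S, ∀ b ∈ S, τ (a * b) = τ a * τ b) : τ 1 = 1 := by
  have := hmul 1 S.one_mem 1 S.one_mem
  rw [mul_one] at this
  exact mul_eq_left.mp this.symm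

theorem map_inv_of {S : Subgroup G} {τ : G → H}
    (hmul : ∀ a ∈ S, ∀ b ∈ S, τ (a * b) = τ a * τ b) {a : G} (ha : a ∈ S) :
    τ a⁻¹ = (τ a)⁻¹ := by
  rw [eq_inv_iff_mul_eq_one, ← hmul _ (S.inv_mem ha) _ ha, inv_mul_cancel, map_one_of hmul]

theorem dd_map {S : Subgroup G} {F : Subgroup H} {τ : G → H} (hS : ∀ a ∈ S, τ a ∈ F)
    (hmul : ∀ a ∈ S, ∀ b ∈ S, τ (a * b) = τ a * τ b)
    (hab : ∀ a ∈ S, ∀ b ∈ S, ab a ≤ ab b → ab (τ a) ≤ ab (τ b)) :
    ∀ a ∈ dd S, τ a ∈ dd F := by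
  let C : Subgroup G :=
    { carrier := {a | a ∈ S ∧ τ a ∈ dd F}
      mul_mem' := by
        rintro a b ⟨ha, ha'⟩ ⟨hb, hb'⟩
        refine ⟨S.mul_mem ha hb, ?_⟩
        rw [hmul a ha b hb]
        exact (dd F).mul_mem ha' hb'
      one_mem' := ⟨S.one_mem, by rw [map_one_of hmul]; exact (dd F).one_mem⟩
      inv_mem' := by
        rintro a ⟨ha, ha'⟩
        refine ⟨S.inv_mem ha, ?_⟩
        rw [map_inv_of hmul ha]
        exact (dd F).inv_mem ha' }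
  have h1 : IdealIn S C := by
    refine ⟨fun a ha => ha.1, ?_, ?_⟩
    · rintro s hs c ⟨hc, hc'⟩
      refine ⟨S.mul_mem (S.mul_mem hs hc) (S.inv_mem hs), ?_⟩
      rw [hmul _ (S.mul_mem hs hc) _ (S.inv_mem hs), hmul _ hs _ hc, map_inv_of hmul hs]
      exact (dd_ideal F).conj _ (hS s hs) _ hc'
    · rintro c ⟨hc, hc'⟩ x hx h
      exact ⟨hx, (dd_ideal F).solid _ hc' _ (hS x hx) (hab x hx c hc h)⟩
  have h2 : ∀ a ∈ S, ∀ b ∈ S, a * b * a⁻¹ * b⁻¹ ∈ C := by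
    intro a ha b hb
    refine ⟨comm_mem_self S a ha b hb, ?_⟩
    rw [hmul _ (S.mul_mem (S.mul_mem ha hb) (S.inv_mem ha)) _ (S.inv_mem hb),
      hmul _ (S.mul_mem ha hb) _ (S.inv_mem ha), hmul _ ha _ hb, map_inv_of hmul ha,
      map_inv_of hmul hb]
    exact comm_mem_dd (hS a ha) (hS b hb)
  intro a ha
  exact (dd_le_of h1 h2 ha).2

theorem dd_iter_map {S : Subgroup G} {F : Subgroup H} {τ : G → H} (hS : ∀ a ∈ S, τ a ∈ F)
    (hmul : ∀ a ∈ S, ∀ b ∈ S, τ (a * b) = τ a * τ b)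
    (hab : ∀ a ∈ S, ∀ b ∈ S, ab a ≤ ab b → ab (τ a) ≤ ab (τ b)) (k : ℕ) :
    ∀ a ∈ dd^[k] S, τ a ∈ dd^[k] F := by
  induction k with
  | zero => exact hS
  | succ k ih =>
    rw [Function.iterate_succ_apply', Function.iterate_succ_apply']
    have hle := dd_iter_le S k
    exact dd_map ih (fun a ha b hb => hmul a (hle ha) b (hle hb))
      (fun a ha b hb => hab a (hle ha) b (hle hb))

theorem dd_surj {S : Subgroup G} {F : Subgroup H} {τ : G → H} (hSL : SL S)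
    (hmul : ∀ a ∈ S, ∀ b ∈ S, τ (a * b) = τ a * τ b)
    (hsup : ∀ a ∈ S, ∀ b ∈ S, τ (a ⊔ b) = τ a ⊔ τ b)
    (hS : ∀ a ∈ S, τ a ∈ F) (hsurj : ∀ y ∈ F, ∃ a ∈ S, τ a = y) :
    ∀ y ∈ dd F, ∃ a ∈ dd S, τ a = y := by
  have hτab : ∀ a ∈ S, τ (ab a) = ab (τ a) := by
    intro a ha
    unfold ab
    rw [hsup a ha _ (S.inv_mem ha), map_inv_of hmul ha]
  have hinf : ∀ a ∈ S, ∀ b ∈ S, τ (a ⊓ b) = τ a ⊓ τ b := by
    intro a ha b hb
    have e : a ⊓ b = (a⁻¹ ⊔ b⁻¹)⁻¹ := by rw [inv_sup, inv_inv, inv_inv]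
    rw [e, map_inv_of hmul (hSL _ (S.inv_mem ha) _ (S.inv_mem hb)),
      hsup _ (S.inv_mem ha) _ (S.inv_mem hb), map_inv_of hmul ha, map_inv_of hmul hb,
      inv_sup, inv_inv, inv_inv]
  let C : Subgroup H :=
    { carrier := {y | ∃ a ∈ dd S, τ a = y}
      mul_mem' := by
        rintro _ _ ⟨a, ha, rfl⟩ ⟨b, hb, rfl⟩
        exact ⟨a * b, (dd S).mul_mem ha hb, hmul _ (dd_le S ha) _ (dd_le S hb)⟩
      one_mem' := ⟨1, (dd S).one_mem, map_one_of hmul⟩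
      inv_mem' := by
        rintro _ ⟨a, ha, rfl⟩
        exact ⟨a⁻¹, (dd S).inv_mem ha, map_inv_of hmul (dd_le S ha)⟩ }
  have h1 : IdealIn F C := by
    refine ⟨?_, ?_, ?_⟩
    · rintro _ ⟨a, ha, rfl⟩
      exact hS a (dd_le S ha)
    · rintro s hs _ ⟨c, hc, rfl⟩
      obtain ⟨s, hs', rfl⟩ := hsurj s hs
      refine ⟨s * c * s⁻¹, (dd_ideal S).conj s hs' c hc, ?_⟩
      rw [hmul _ (S.mul_mem hs' (dd_le S hc)) _ (S.inv_mem hs'), hmul _ hs' _ (dd_le S hc),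
        map_inv_of hmul hs']
    · rintro _ ⟨c, hc, rfl⟩ x hx h
      obtain ⟨a, ha, rfl⟩ := hsurj x hx
      have hcS := dd_le S hc
      have habc := hSL.ab hcS
      refine ⟨(a ⊓ ab c) ⊔ (ab c)⁻¹, ?_, ?_⟩
      · refine (dd_ideal S).solid c hc _ (hSL.trunc ha habc) ?_
        exact ab_trunc_le (one_le_ab c)
      · rw [hsup _ (hSL.inf ha habc) _ (S.inv_mem habc), hinf _ ha _ habc,
          map_inv_of hmul habc, hτab c hcS]
        exact trunc_eq h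
  intro y hy
  refine dd_le_of h1 ?_ hy
  intro a ha b hb
  obtain ⟨a, ha', rfl⟩ := hsurj a ha
  obtain ⟨b, hb', rfl⟩ := hsurj b hb
  refine ⟨a * b * a⁻¹ * b⁻¹, comm_mem_dd ha' hb', ?_⟩
  rw [hmul _ (S.mul_mem (S.mul_mem ha' hb') (S.inv_mem ha')) _ (S.inv_mem hb'),
      hmul _ (S.mul_mem ha' hb') _ (S.inv_mem ha'), hmul _ ha' _ hb', map_inv_of hmul ha',
      map_inv_of hmul hb']

theorem dd_iter_surj {S : Subgroup G} {F : Subgroup H} {τ : G → H} (hSL : SL S)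
    (hmul : ∀ a ∈ S, ∀ b ∈ S, τ (a * b) = τ a * τ b)
    (hsup : ∀ a ∈ S, ∀ b ∈ S, τ (a ⊔ b) = τ a ⊔ τ b)
    (hS : ∀ a ∈ S, τ a ∈ F) (hsurj : ∀ y ∈ F, ∃ a ∈ S, τ a = y) (k : ℕ) :
    ∀ y ∈ dd^[k] F, ∃ a ∈ dd^[k] S, τ a = y := by
  induction k with
  | zero => exact hsurj
  | succ k ih =>
    rw [Function.iterate_succ_apply', Function.iterate_succ_apply']
    have hle := dd_iter_le S k
    have hmul' : ∀ a ∈ dd^[k] S, ∀ b ∈ dd^[k] S, τ (a * b) = τ a * τ b :=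
      fun a ha b hb => hmul a (hle ha) b (hle hb)
    refine dd_surj (dd_iter_sl hSL k) hmul'
      (fun a ha b hb => hsup a (hle ha) b (hle hb)) ?_ ih
    apply dd_iter_map hS hmul
    intro a ha b hb h
    have hτab : ∀ a ∈ S, τ (ab a) = ab (τ a) := by
      intro a ha
      unfold ab
      rw [hsup a ha _ (S.inv_mem ha), map_inv_of hmul ha]
    rw [← hτab a ha, ← hτab b hb]
    have h2 := hsup _ (hSL.ab ha) _ (hSL.ab hb)
    rw [sup_eq_right.mpr h] at h2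
    rw [h2]; exact le_sup_left

/-- monotonicity -/
theorem dd_iter_mono {S S' : Subgroup G} (h : S ≤ S') (k : ℕ) : dd^[k] S ≤ dd^[k] S' :=
  dd_iter_map (τ := id) (fun _ ha => h ha) (fun _ _ _ _ => rfl) (fun _ _ _ _ h => h) k

theorem dd_mono {S S' : Subgroup G} (h : S ≤ S') : dd S ≤ dd S' := dd_iter_mono h 1

/-- elements normalising `S` normalise the iterated derived ideals -/
theorem dd_iter_conj {S : Subgroup G} {g : G} (h : ∀ s ∈ S, g * s * g⁻¹ ∈ S) (k : ℕ) :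
    ∀ c ∈ dd^[k] S, g * c * g⁻¹ ∈ dd^[k] S := by
  refine dd_iter_map (τ := fun c => g * c * g⁻¹) h (fun a _ b _ => by group) ?_ k
  intro a _ b _ hab
  rw [ab_conj, ab_conj]
  gcongr

end maps

end Pool.Agent.Helper29
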