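import Pool.Agent.Helper29.CovAvg
import Pool.Agent.Helper29.CovBuild

/-!
The induction step: sub-ℓ-groups of a periodic wreath product.
-/

set_option autoImplicit false
set_option linter.unusedSectionVars false

namespace Pool.Agent.Helper29

section gen

variable {G R : Type} [Group G] [Lattice G] [MulLeftMono G] [MulRightMono G]
  [AddCommGroup R] [LinearOrder R] [IsOrderedAddMonoid R] {lab : G → R}
  {p : ℕ} [Fact p.Prime] {ρ : R →+ ZMod p}

theorem wr_isLab : IsLab (fun t : Wr ρ G => t.q) :=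
  ⟨fun _ _ => rfl, fun a b => Wr.sup_q a b, fun _ _ h => Or.inl h⟩

theorem wr_ab_q (a : Wr ρ G) : (ab a).q = |a.q| := wr_isLab.ab a

theorem wr_eq {a : Wr ρ G} (ha : a.q = 0) : a = ⟨0, a.f⟩ := Wr.ext ha rfl

theorem wr_ab_f {a : Wr ρ G} (ha : a.q = 0) (i : ZMod p) : (ab a).f i = ab (a.f i) := by
  have h : ab a = ⟨0, fun i => ab (a.f i)⟩ := by
    conv_lhs => rw [wr_eq ha]
    exact ab_zero a.f
  rw [h]

theorem wr_f_le {a b : Wr ρ G} (ha : a.q = 0) (hb : b.q = 0) (h : a ≤ b) (i : ZMod p) :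
    a.f i ≤ b.f i := by
  rcases h with h | ⟨_, h⟩
  · rw [ha, hb] at h; exact absurd h (lt_irrefl _)
  · exact h i

theorem wr_comp_ab {a b : Wr ρ G} (ha : a.q = 0) (hb : b.q = 0) (i : ZMod p)
    (h : ab a ≤ ab b) : ab (a.f i) ≤ ab (b.f i) := by
  rw [← wr_ab_f ha, ← wr_ab_f hb]
  apply wr_f_le _ _ h
  · rw [wr_ab_q, ha, abs_zero]
  · rw [wr_ab_q, hb, abs_zero]

theorem wr_q_solid {c x : Wr ρ G} (hc : c.q = 0) (h : ab x ≤ ab c) : x.q = 0 := by
  have h2 := wr_isLab.mono h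
  rw [wr_ab_q, wr_ab_q, hc, abs_zero] at h2
  exact abs_eq_zero.mp (le_antisymm h2 (abs_nonneg _))

theorem wr_mul_f0 {a b : Wr ρ G} (hb : b.q = 0) (i : ZMod p) : (a * b).f i = a.f i * b.f i := by
  rw [Wr.mul_f, hb, map_zero, add_zero]

theorem wr_inv_f0 {a : Wr ρ G} (ha : a.q = 0) (i : ZMod p) : (a⁻¹).f i = (a.f i)⁻¹ := by
  rw [Wr.inv_f, ha, map_zero, sub_zero]

theorem comm_q0 (a b : Wr ρ G) : (a * b * a⁻¹ * b⁻¹).q = 0 := by
  change a.q + b.q + - a.q + - b.q = 0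
  abel

theorem wr_sum_mul (hl : IsLab lab) (a b : Wr ρ G) :
    ∑ i, lab ((a * b).f i) = ∑ i, lab (a.f i) + ∑ i, lab (b.f i) := by
  have h1 : ∀ i, lab ((a * b).f i) =
      lab (a.f (i + ρ b.q)) + lab (b.f i) := fun i => hl.mul _ _
  simp_rw [h1]
  rw [Finset.sum_add_distrib]
  congr 1
  exact Equiv.sum_comp (Equiv.addRight (ρ b.q)) (fun i => lab (a.f i))

theorem wr_sum_comm (hl : IsLab lab) (a b : Wr ρ G) :
    ∑ i, lab ((a * b * a⁻¹ * b⁻¹).f i) = 0 := by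
  let Λ : Wr ρ G →* Multiplicative R := MonoidHom.mk'
    (fun t => Multiplicative.ofAdd (∑ i, lab (t.f i))) (fun a b => by
      rw [wr_sum_mul hl]; rfl)
  have h : Λ (a * b * a⁻¹ * b⁻¹) = 1 := by
    rw [map_mul, map_mul, map_mul, map_inv, map_inv, mul_comm (Λ a) (Λ b)]
    group
  exact congrArg Multiplicative.toAdd h

theorem wr_trunc {c : Wr ρ G} (hc : c.q = 0) {ν : ZMod p} {t : G} (h : ab (c.f ν) ≤ t) :
    (c ⊓ Wr.single ν t) ⊔ (Wr.single ν t)⁻¹ = Wr.single ν (c.f ν) := by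
  have hq1 : (c ⊓ Wr.single ν t).q = 0 := inf_q0 hc rfl
  rw [← Wr.single_inv]
  apply Wr.ext
  · exact sup_q0 hq1 rfl
  · funext i
    rw [sup_f hq1 rfl, inf_f hc rfl]
    by_cases hi : i = ν
    · subst hi
      rw [Wr.single_f_self, Wr.single_f_self, Wr.single_f_self]
      exact trunc_eq h
    · rw [Wr.single_f_ne hi, Wr.single_f_ne hi, Wr.single_f_ne hi]
      exact sup_eq_right.mpr inf_le_right

theorem wr_ab_single (ν : ZMod p) (t : G) :
    ab (Wr.single ν t : Wr ρ G) = Wr.single ν (ab t) := by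
  apply Wr.ext
  · rw [wr_ab_q, Wr.single_q, Wr.single_q, abs_zero]
  · funext i
    rw [wr_ab_f rfl]
    by_cases hi : i = ν
    · subst hi; rw [Wr.single_f_self, Wr.single_f_self]
    · rw [Wr.single_f_ne hi, Wr.single_f_ne hi, ab_one]

theorem wr_single_le {ν : ZMod p} {t t' : G} (h : t ≤ t') :
    (Wr.single ν t : Wr ρ G) ≤ Wr.single ν t' := by
  refine Or.inr ⟨rfl, fun i => ?_⟩
  by_cases hi : i = ν
  · subst hi; rw [Wr.single_f_self, Wr.single_f_self]; exact h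
  · rw [Wr.single_f_ne hi, Wr.single_f_ne hi]

theorem wr_single_sup (ν : ZMod p) (t t' : G) :
    (Wr.single ν (t ⊔ t') : Wr ρ G) = Wr.single ν t ⊔ Wr.single ν t' := by
  apply Wr.ext
  · rw [sup_q0 rfl rfl]; rfl
  · funext i
    rw [sup_f rfl rfl]
    by_cases hi : i = ν
    · subst hi; rw [Wr.single_f_self, Wr.single_f_self, Wr.single_f_self]
    · rw [Wr.single_f_ne hi, Wr.single_f_ne hi, Wr.single_f_ne hi, sup_idem]

theorem wr_ab_comp_le {x : Wr ρ G} (hx : x.q = 0) (ν : ZMod p) :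
    ab (Wr.single ν (x.f ν) : Wr ρ G) ≤ ab x := by
  rw [wr_ab_single]
  refine Or.inr ⟨by rw [wr_ab_q, hx, abs_zero]; rfl, fun i => ?_⟩
  rw [wr_ab_f hx]
  by_cases hi : i = ν
  · subst hi; rw [Wr.single_f_self]
  · rw [Wr.single_f_ne hi]; exact one_le_ab _

/-- the elements with zero labels at the first two levels -/
theorem wr_dd_lab2 (hl : IsLab lab) {S : Subgroup (Wr ρ G)}
    (h : ∀ a ∈ S, ∀ b ∈ S, ∀ i, lab ((a * b * a⁻¹ * b⁻¹).f i) = 0) :
    ∀ x ∈ dd S, x.q = 0 ∧ ∀ i, lab (x.f i) = 0 := by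
  let K : Subgroup (Wr ρ G) :=
    { carrier := {t | t ∈ S ∧ t.q = 0 ∧ ∀ i, lab (t.f i) = 0}
      mul_mem' := by
        rintro a b ⟨ha, ha', ha''⟩ ⟨hb, hb', hb''⟩
        refine ⟨S.mul_mem ha hb, ?_, fun i => ?_⟩
        · change a.q + b.q = 0
          rw [ha', hb', add_zero]
        · rw [wr_mul_f0 hb', hl.mul, ha'', hb'', add_zero]
      one_mem' := ⟨S.one_mem, rfl, fun i => hl.one⟩
      inv_mem' := by
        rintro a ⟨ha, ha', ha''⟩
        refine ⟨S.inv_mem ha, ?_, fun i => ?_⟩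
        · change - a.q = 0
          rw [ha', neg_zero]
        · rw [wr_inv_f0 ha', hl.inv, ha'', neg_zero] }
  have h1 : IdealIn S K := by
    refine ⟨fun a ha => ha.1, ?_, ?_⟩
    · rintro s hs c ⟨hc, hc', hc''⟩
      refine ⟨S.mul_mem (S.mul_mem hs hc) (S.inv_mem hs), ?_, fun i => ?_⟩
      · exact (Wr.conj_q s c).trans hc'
      · rw [Wr.conj_f s c hc', hl.conj, hc'']
    · rintro c ⟨hc, hc', hc''⟩ x hx h
      have hxq := wr_q_solid hc' h
      refine ⟨hx, hxq, fun i => ?_⟩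
      have h3 := hl.mono (wr_comp_ab hxq hc' i h)
      rw [hl.ab, hl.ab, hc'', abs_zero] at h3
      exact abs_eq_zero.mp (le_antisymm h3 (abs_nonneg _))
  have h2 : ∀ a ∈ S, ∀ b ∈ S, a * b * a⁻¹ * b⁻¹ ∈ K := by
    intro a ha b hb
    exact ⟨comm_mem_self S a ha b hb, comm_q0 a b, h a ha b hb⟩
  intro x hx
  exact (dd_le_of h1 h2 hx).2

/-- commutators restricted to a component -/
theorem wr_comm_single (hl : IsLab lab) {S : Subgroup (Wr ρ G)} (hS : SL S)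
    {x : Wr ρ G} (hx : x ∈ S) (hxq : ρ x.q ≠ 0) {a0 b0 : Wr ρ G} (ha0 : a0 ∈ S) (hb0 : b0 ∈ S)
    (hne : ∃ i, lab ((a0 * b0 * a0⁻¹ * b0⁻¹).f i) ≠ 0)
    {a b : Wr ρ G} (ha : a ∈ S) (hb : b ∈ S) (ν : ZMod p) :
    (Wr.single ν ((a * b * a⁻¹ * b⁻¹).f ν) : Wr ρ G) ∈ S := by
  obtain ⟨t0, ht0, ht01, ht0l, _⟩ := meet_trick hl hS hx hxq
    (comm_mem_self S a0 ha0 b0 hb0) (comm_q0 a0 b0) (wr_sum_comm hl a0 b0) hne ν
  have hcq := comm_q0 a b
  have hcS := comm_mem_self S a ha b hb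
  have hsum := wr_sum_comm hl a b
  set c : Wr ρ G := a * b * a⁻¹ * b⁻¹ with hc
  -- a dominating element
  obtain ⟨t, ht, ht1, hlt⟩ : ∃ t, (Wr.single ν t : Wr ρ G) ∈ S ∧ 1 ≤ t ∧
      lab (ab (c.f ν)) < lab t := by
    by_cases h0 : ∃ i, lab (c.f i) ≠ 0
    · obtain ⟨t1, ht1, ht11, ht1l, h1⟩ := meet_trick hl hS hx hxq hcS hcq hsum h0 ν
      refine ⟨t1 * t0, ?_, ?_, ?_⟩
      · rw [Wr.single_mul]; exact S.mul_mem ht1 ht0
      · exact one_le_mul ht11 ht01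
      · rw [hl.ab, hl.mul]
        have h2 : |lab (c.f ν)| ≤ lab t1 := abs_le'.mpr (h1 ν)
        exact lt_of_le_of_lt h2 (lt_add_of_pos_right _ ht0l)
    · push Not at h0
      refine ⟨t0, ht0, ht01, ?_⟩
      rw [hl.ab, h0 ν, abs_zero]; exact ht0l
  have hle : ab (c.f ν) ≤ t := hl.le _ _ hlt
  have h3 := hS.trunc hcS ht
  rwa [wr_trunc hcq hle] at h3

/-- elements of the derived ideal restricted to a component -/
theorem wr_dd_single {S : Subgroup (Wr ρ G)} (hS : SL S)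
    (h : ∀ a ∈ S, ∀ b ∈ S, ∀ ν, (Wr.single ν ((a * b * a⁻¹ * b⁻¹).f ν) : Wr ρ G) ∈ S) :
    ∀ x ∈ dd S, x.q = 0 ∧ ∀ ν, (Wr.single ν (x.f ν) : Wr ρ G) ∈ dd S := by
  let K : Subgroup (Wr ρ G) :=
    { carrier := {t | t ∈ S ∧ t.q = 0 ∧ ∀ ν, (Wr.single ν (t.f ν) : Wr ρ G) ∈ S}
      mul_mem' := by
        rintro a b ⟨ha, ha', ha''⟩ ⟨hb, hb', hb''⟩
        refine ⟨S.mul_mem ha hb, ?_, fun i => ?_⟩
        · change a.q + b.q = 0
          rw [ha', hb', add_zero]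
        · rw [wr_mul_f0 hb', Wr.single_mul]
          exact S.mul_mem (ha'' i) (hb'' i)
      one_mem' := ⟨S.one_mem, rfl, fun i => by
        rw [Wr.one_f, Wr.single_one]; exact S.one_mem⟩
      inv_mem' := by
        rintro a ⟨ha, ha', ha''⟩
        refine ⟨S.inv_mem ha, ?_, fun i => ?_⟩
        · change - a.q = 0
          rw [ha', neg_zero]
        · rw [wr_inv_f0 ha', Wr.single_inv]
          exact S.inv_mem (ha'' i) }
  have h1 : IdealIn S K := by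
    refine ⟨fun a ha => ha.1, ?_, ?_⟩
    · rintro s hs c ⟨hc, hc', hc''⟩
      refine ⟨S.mul_mem (S.mul_mem hs hc) (S.inv_mem hs), ?_, fun ν => ?_⟩
      · exact (Wr.conj_q s c).trans hc'
      · have h2 := (ideal_self S).conj s hs _ (hc'' (ν - ρ s.q))
        rw [Wr.conj_single, sub_add_cancel] at h2
        rw [Wr.conj_f s c hc']
        exact h2
    · rintro c ⟨hc, hc', hc''⟩ x hx h
      have hxq := wr_q_solid hc' h
      refine ⟨hx, hxq, fun ν => ?_⟩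
      have hle : ab (x.f ν) ≤ ab (c.f ν) := wr_comp_ab hxq hc' ν h
      have h3 := hS.ab (hc'' ν)
      rw [wr_ab_single] at h3
      have h4 := hS.trunc hx h3
      rwa [wr_trunc hxq hle] at h4
  have h2 : ∀ a ∈ S, ∀ b ∈ S, a * b * a⁻¹ * b⁻¹ ∈ K := by
    intro a ha b hb
    exact ⟨comm_mem_self S a ha b hb, comm_q0 a b, h a ha b hb⟩
  intro x hx
  have hxK := dd_le_of h1 h2 hx
  refine ⟨hxK.2.1, fun ν => ?_⟩
  exact (dd_ideal S).solid x hx _ (hxK.2.2 ν) (wr_ab_comp_le hxK.2.1 ν)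

end gen

end Pool.Agent.Helper29
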