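import Pool.Agent.Helper29.CovTower
import Pool.Agent.Helper29.CovJJ

/-!
Towers of convex subgroups obtained from a prime subgroup and a descending sequence of ideals.
-/

set_option autoImplicit false
set_option linter.unusedSectionVars false

namespace Pool.Agent.Helper29

section ideals

variable {G : Type} [Group G] [Lattice G] [MulLeftMono G] [MulRightMono G]

theorem IdealIn.normal {L : Subgroup G} (h : IdealIn ⊤ L) : L.Normal :=
  ⟨fun n hn g => h.conj g trivial n hn⟩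

theorem sl_top : SL (⊤ : Subgroup G) := fun _ _ _ _ => trivial

theorem IdealIn.cvx {L : Subgroup G} (h : IdealIn ⊤ L) : IsCvx L := by
  constructor
  · intro a ha
    exact h.sl sl_top a ha 1 L.one_mem
  · intro a ha b hb hba
    refine h.solid a ha b trivial ?_
    rw [ab_of_one_le hb, ab_of_one_le (hb.trans hba)]
    exact hba

theorem ideal_top : IdealIn (⊤ : Subgroup G) ⊤ := ideal_self _

theorem ideal_dd {S : Subgroup G} (h : IdealIn ⊤ S) : IdealIn ⊤ (dd S) where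
  le := le_top
  conj s hs c hc := dd_iter_conj (S := S) (g := s) (fun x hx => h.conj s hs x hx) 1 c hc
  solid c hc x hx hle :=
    (dd_ideal S).solid c hc x (h.solid c (dd_le S hc) x hx hle) hle

theorem ideal_dd_iter {S : Subgroup G} (h : IdealIn ⊤ S) (k : ℕ) : IdealIn ⊤ (dd^[k] S) := by
  induction k with
  | zero => exact h
  | succ k ih =>
    rw [Function.iterate_succ_apply']
    exact ideal_dd ih

theorem mem_join {Q L : Subgroup G} (hL : IdealIn ⊤ L) {x : G} :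
    x ∈ Q ⊔ L ↔ ∃ q ∈ Q, ∃ l ∈ L, q * l = x := by
  haveI := hL.normal
  exact Subgroup.mem_sup_of_normal_right

theorem join_cvx {Q L : Subgroup G} (hQ : IsCvx Q) (hL : IdealIn ⊤ L) : IsCvx (Q ⊔ L) := by
  have key : ∀ q ∈ Q, ∀ l ∈ L, 1 ≤ q → 1 ≤ l → ∀ b, 1 ≤ b → b ≤ q * l → b ∈ Q ⊔ L := by
    intro q hq l hl hq1 hl1 b hb hbl
    rw [mem_join hL]
    refine ⟨b ⊓ q, hQ.conv q hq _ (le_inf hb hq1) inf_le_right, (b ⊓ q)⁻¹ * b, ?_, by group⟩
    refine hL.cvx.conv l hl _ ?_ ?_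
    · rw [le_inv_mul_iff_mul_le, mul_one]; exact inf_le_left
    · rw [inv_inf, sup_mul, inv_mul_cancel]
      exact sup_le hl1 (inv_mul_le_iff_le_mul.mpr hbl)
  have hab : ∀ x ∈ Q ⊔ L, ∃ q ∈ Q, ∃ l ∈ L, 1 ≤ q ∧ 1 ≤ l ∧ x ≤ q * l := by
    intro x hx
    obtain ⟨q, hq, l, hl, rfl⟩ := (mem_join hL).mp hx
    exact ⟨q ⊔ 1, hQ.sup_one q hq, l ⊔ 1, hL.cvx.sup_one l hl, le_sup_right, le_sup_right,
      mul_le_mul' le_sup_left le_sup_left⟩
  constructor
  · intro a ha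
    obtain ⟨q, hq, l, hl, h1, h2, h3⟩ := hab a ha
    refine key q hq l hl h1 h2 _ le_sup_right (sup_le h3 ?_)
    calc (1:G) = 1 * 1 := (one_mul 1).symm
      _ ≤ q * l := mul_le_mul' h1 h2
  · intro a ha b hb hba
    obtain ⟨q, hq, l, hl, h1, h2, h3⟩ := hab a ha
    exact key q hq l hl h1 h2 b hb (hba.trans h3)

/-- conjugates of elements of a prime by elements of an ideal -/
theorem conj_key {Q L L' : Subgroup G} (hQ : IsPrm Q) (hL : IdealIn ⊤ L) (hL' : IdealIn ⊤ L')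
    (hcomm : ∀ a ∈ L, ∀ b ∈ L, a * b * a⁻¹ * b⁻¹ ∈ L') {y q : G} (hy : y ∈ L) (hq : q ∈ Q) :
    y⁻¹ * q * y ∈ Q ⊔ L' := by
  have hC : IsCvx (Q ⊔ L') := join_cvx hQ.toIsCvx hL'
  have hQC : Q ≤ Q ⊔ L' := le_sup_left
  have hLC : L' ≤ Q ⊔ L' := le_sup_right
  have pos : ∀ q ∈ Q, 1 ≤ q → y⁻¹ * q * y ∈ Q ⊔ L' := by
    intro q hq hq1
    let c := q * y * q⁻¹
    have hc : c ∈ L := hL.conj q trivial y hy
    let z := y⁻¹ * c
    let w := y * c⁻¹
    have h1 : leQ (Q ⊔ L') 1 z := by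
      rw [leQ_iff hC]
      refine ⟨q, hQC hq, ?_⟩
      have : y⁻¹ * 1 * y ≤ y⁻¹ * q * y := by gcongr
      have e1 : y⁻¹ * 1 * y = 1 := by group
      have e2 : y⁻¹ * q * y = z * q := by simp only [z, c]; group
      rw [e1, e2] at this
      exact this
    have h2 : leQ (Q ⊔ L') 1 w := by
      rw [leQ_iff hC]
      refine ⟨q, hQC hq, ?_⟩
      have : y * 1 * y⁻¹ ≤ y * q * y⁻¹ := by gcongr
      have e1 : y * 1 * y⁻¹ = 1 := by group
      have e2 : y * q * y⁻¹ = w * q := by simp only [w, c]; group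
      rw [e1, e2] at this
      exact this
    have h3 : leQ (Q ⊔ L') z (z * w) := by
      have := (leQ_mul_left (Q := Q ⊔ L') z 1 w).mpr h2
      rwa [mul_one] at this
    have h4 : z * w ∈ L' := by
      have h5 := hL'.conj y⁻¹ trivial _ (hcomm c hc y hy)
      have h6 := hcomm y⁻¹ (L.inv_mem hy) c hc
      have e : z * w = y⁻¹ * c * (y⁻¹)⁻¹ * c⁻¹ := by simp only [z, w]; group
      rw [e]; exact h6
    have h5 : leQ (Q ⊔ L') (z * w) 1 := by
      apply leQ_of_mem hC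
      rw [mul_one]
      exact (Q ⊔ L').inv_mem (hLC h4)
    have h6 : z ∈ Q ⊔ L' := by
      have := leQ_antisymm hC h1 (leQ_trans hC h3 h5)
      simpa using this
    have e : y⁻¹ * q * y = z * q := by simp only [z, c]; group
    rw [e]
    exact (Q ⊔ L').mul_mem h6 (hQC hq)
  have e : y⁻¹ * q * y = (y⁻¹ * (q ⊔ 1) * y) * (y⁻¹ * (q⁻¹ ⊔ 1) * y)⁻¹ := by
    conv_lhs => rw [← pos_mul_neg q]
    group
  rw [e]
  exact (Q ⊔ L').mul_mem (pos _ (hQ.sup_one q hq) le_sup_right)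
    ((Q ⊔ L').inv_mem (pos _ (hQ.sup_one _ (Q.inv_mem hq)) le_sup_right))

/-- commutators in the tower -/
theorem tow_comm {Q L L' : Subgroup G} (hQ : IsPrm Q) (hL : IdealIn ⊤ L) (hL' : IdealIn ⊤ L')
    (hcomm : ∀ a ∈ L, ∀ b ∈ L, a * b * a⁻¹ * b⁻¹ ∈ L') :
    ∀ a ∈ Q ⊔ L, ∀ b ∈ Q ⊔ L, a * b * a⁻¹ * b⁻¹ ∈ Q ⊔ L' := by
  intro a ha b hb
  obtain ⟨q, hq, l, hl, rfl⟩ := (mem_join hL).mp ha
  obtain ⟨q', hq', l', hl', rfl⟩ := (mem_join hL).mp hb
  have hQC : Q ≤ Q ⊔ L' := le_sup_left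
  have hLC : L' ≤ Q ⊔ L' := le_sup_right
  have h1 : l * q' * l⁻¹ ∈ Q ⊔ L' := by
    have := conj_key hQ hL hL' hcomm (L.inv_mem hl) hq'
    rwa [inv_inv] at this
  have h2 : l' * q * l'⁻¹ ∈ Q ⊔ L' := by
    have := conj_key hQ hL hL' hcomm (L.inv_mem hl') hq
    rwa [inv_inv] at this
  have e : q * l * (q' * l') * (q * l)⁻¹ * (q' * l')⁻¹ =
      q * (l * q' * l⁻¹) * (l * l' * l⁻¹ * l'⁻¹) * (l' * q * l'⁻¹)⁻¹ * q'⁻¹ := by group
  rw [e]
  have := Q ⊔ L'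
  exact (Q ⊔ L').mul_mem ((Q ⊔ L').mul_mem ((Q ⊔ L').mul_mem ((Q ⊔ L').mul_mem (hQC hq) h1)
    (hLC (hcomm l hl l' hl'))) ((Q ⊔ L').inv_mem h2)) ((Q ⊔ L').inv_mem (hQC hq'))

end ideals

/-- large sequences of primes -/
theorem exists_PS (N : ℕ) : ∃ P : PS, ∀ j, N ≤ P.p j := by
  have h : ∀ n, n + 2 ≤ Nat.nth Nat.Prime n := fun n => Nat.add_two_le_nth_prime n
  refine ⟨⟨fun j => Nat.nth Nat.Prime (N + j + 3), fun n => Nat.prime_nth_prime _, ?_, ?_⟩, ?_⟩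
  · intro n
    have := h (N + n + 3)
    omega
  · intro a b hab
    have := Nat.nth_injective Nat.infinite_setOf_prime hab
    omega
  · intro j
    have := h (N + j + 3)
    change N ≤ Nat.nth Nat.Prime (N + j + 3)
    omega

section tower

variable {G : Type} [Group G] [Lattice G] [MulLeftMono G] [MulRightMono G]

/-- Mimicking along the tower of iterated derived ideals of an ideal. -/
theorem ideal_mimic {Q L : Subgroup G} (hQ : IsPrm Q) (hL : IdealIn ⊤ L) (n : ℕ)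
    (hn : dd^[n] L = ⊥) (D : Finset G) : ∃ N : ℕ, ∀ P : PS, (∀ j, N ≤ P.p j) →
      ∃ (x : G → Pt n) (v : G → Tw P (ρZ P) n),
        (∀ a ∈ D, ∀ b ∈ D, a ∈ Q ⊔ L → b ∈ Q ⊔ L → (x a ≤ x b ↔ leQ Q a b)) ∧
        (∀ g ∈ D, ∀ a ∈ D, g ∈ Q ⊔ L → a ∈ Q ⊔ L → actT P n (v g) (x a) = x (g * a)) := by
  have h := tower_mimic hQ (fun k => Q ⊔ dd^[n - k] L) n (by simp [hn])
    (fun k => join_cvx hQ.toIsCvx (ideal_dd_iter hL _)) (fun k => le_sup_left)
    (by
      intro k hk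
      refine tow_comm hQ (ideal_dd_iter hL _) (ideal_dd_iter hL _) ?_
      intro a ha b hb
      have e : n - k = (n - (k + 1)) + 1 := by omega
      rw [e, Function.iterate_succ_apply']
      exact comm_mem_dd ha hb) n le_rfl D
  simpa using h

end tower

end Pool.Agent.Helper29
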