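import Pool.Agent.Helper29.MVar
import Pool.Agent.Helper29.Primes

/-!
Membership in a variety from local models: actions on chains that mimic the action on the cosets
of a prime on finite sets.
-/

set_option autoImplicit false
set_option linter.unusedSectionVars false

namespace Pool.Agent.Helper29

/-- a local model of the action on the cosets of `Q`, on the finite set `D` -/
structure LM (E : Set (MTerm × MTerm)) (G : MGroup) (Q : Subgroup G.carrier)
    (D : Finset G.carrier) where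
  A : MGroup
  mem : A ∈ Models E
  Ω : Type
  lo : LinearOrder Ω
  act : A.carrier → Ω → Ω
  act_one : ∀ ω, act 1 ω = ω
  act_mul : ∀ a b ω, act (a * b) ω = act a (act b ω)
  act_sup : ∀ a b ω, act (a ⊔ b) ω = max (act a ω) (act b ω)
  act_inf : ∀ a b ω, act (a ⊓ b) ω = min (act a ω) (act b ω)
  x : G.carrier → Ω
  v : G.carrier → A.carrier
  ord : ∀ a ∈ D, ∀ b ∈ D, (x a ≤ x b ↔ leQ Q a b)
  v_act : ∀ g ∈ D, ∀ a ∈ D, act (v g) (x a) = x (g * a)
  v_star : ∀ g ∈ D, ∀ a ∈ D, act (A.star (v g)) (x a) = x (G.star g * a)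

instance {E : Set (MTerm × MTerm)} {G : MGroup} {Q : Subgroup G.carrier}
    {D : Finset G.carrier} (m : LM E G Q D) : LinearOrder m.Ω := m.lo

section loc

variable {E : Set (MTerm × MTerm)} {G : MGroup}

/-- The index set. -/
structure IxL (G : MGroup) where
  Q : Subgroup G.carrier
  D : Finset G.carrier
  prm : IsPrm Q

variable (m : ∀ i : IxL G, LM E G i.Q i.D)

/-- `w` mimics `g` at every point, for large finite sets. -/
def MimL {Q : Subgroup G.carrier} (hQ : IsPrm Q) (w : ∀ i : IxL G, (m i).A.carrier)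
    (g : G.carrier) : Prop :=
  ∀ a : G.carrier, ∃ D0 : Finset G.carrier, ∀ D : Finset G.carrier, D0 ⊆ D →
    (m ⟨Q, D, hQ⟩).act (w ⟨Q, D, hQ⟩) ((m ⟨Q, D, hQ⟩).x a) = (m ⟨Q, D, hQ⟩).x (g * a)

variable {m} {Q : Subgroup G.carrier} {hQ : IsPrm Q}

theorem MimL.congr {w w' : ∀ i : IxL G, (m i).A.carrier} {g g' : G.carrier}
    (h : MimL m hQ w g) (hw : ∀ i, w i = w' i) (hg : g = g') : MimL m hQ w' g' := by
  have : w = w' := funext hw
  subst this; subst hg; exact h

theorem MimL.mul {w w' : ∀ i : IxL G, (m i).A.carrier} {g g' : G.carrier}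
    (h : MimL m hQ w g) (h' : MimL m hQ w' g') : MimL m hQ (fun i => w i * w' i) (g * g') := by
  classical
  intro a
  obtain ⟨D, hD⟩ := h (g' * a)
  obtain ⟨D', hD'⟩ := h' a
  refine ⟨D ∪ D', fun F hF => ?_⟩
  beta_reduce
  rw [(m _).act_mul, hD' F (Finset.subset_union_right.trans hF),
    hD F (Finset.subset_union_left.trans hF), mul_assoc]

theorem MimL.one : MimL m hQ (fun _ => 1) (1 : G.carrier) := by
  intro a
  exact ⟨∅, fun F _ => by beta_reduce; rw [(m _).act_one, one_mul]⟩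

theorem MimL.sup {w w' : ∀ i : IxL G, (m i).A.carrier}
    {g g' : G.carrier} (h : MimL m hQ w g) (h' : MimL m hQ w' g') :
    MimL m hQ (fun i => w i ⊔ w' i) (g ⊔ g') := by
  classical
  intro a
  obtain ⟨D, hD⟩ := h a
  obtain ⟨D', hD'⟩ := h' a
  refine ⟨D ∪ D' ∪ {g * a, g' * a, (g ⊔ g') * a}, fun F hF => ?_⟩
  have hm := (m ⟨Q, F, hQ⟩).ord
  have h1F : g * a ∈ F := hF (by simp)
  have h2F : g' * a ∈ F := hF (by simp)
  have h3F : (g ⊔ g') * a ∈ F := hF (by simp)
  beta_reduce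
  rw [(m _).act_sup, hD F (by intro x hx; apply hF; simp [hx]),
    hD' F (by intro x hx; apply hF; simp [hx])]
  have e : (g ⊔ g') * a = g * a ⊔ g' * a := sup_mul _ _ _
  rcases leQ_total hQ (g * a) (g' * a) with h1 | h1
  · have h2 := (hm (g * a) h1F (g' * a) h2F).mpr h1
    rw [max_eq_right h2]
    have h3 : (g' * a)⁻¹ * ((g ⊔ g') * a) ∈ Q := by rw [e]; exact sup_mem_of_leQ h1
    apply le_antisymm
    · exact (hm _ h2F _ h3F).mpr (leQ_of_mem hQ.toIsCvx h3)
    · exact (hm _ h3F _ h2F).mpr (leQ_of_mem' hQ.toIsCvx h3)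
  · have h2 := (hm (g' * a) h2F (g * a) h1F).mpr h1
    rw [max_eq_left h2]
    have h3 : (g * a)⁻¹ * ((g ⊔ g') * a) ∈ Q := by
      rw [e, sup_comm]; exact sup_mem_of_leQ h1
    apply le_antisymm
    · exact (hm _ h1F _ h3F).mpr (leQ_of_mem hQ.toIsCvx h3)
    · exact (hm _ h3F _ h1F).mpr (leQ_of_mem' hQ.toIsCvx h3)

theorem MimL.inf {w w' : ∀ i : IxL G, (m i).A.carrier}
    {g g' : G.carrier} (h : MimL m hQ w g) (h' : MimL m hQ w' g') :
    MimL m hQ (fun i => w i ⊓ w' i) (g ⊓ g') := by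
  classical
  intro a
  obtain ⟨D, hD⟩ := h a
  obtain ⟨D', hD'⟩ := h' a
  refine ⟨D ∪ D' ∪ {g * a, g' * a, (g ⊓ g') * a}, fun F hF => ?_⟩
  have hm := (m ⟨Q, F, hQ⟩).ord
  have h1F : g * a ∈ F := hF (by simp)
  have h2F : g' * a ∈ F := hF (by simp)
  have h3F : (g ⊓ g') * a ∈ F := hF (by simp)
  beta_reduce
  rw [(m _).act_inf, hD F (by intro x hx; apply hF; simp [hx]),
    hD' F (by intro x hx; apply hF; simp [hx])]
  have e : (g ⊓ g') * a = g * a ⊓ g' * a := inf_mul _ _ _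
  rcases leQ_total hQ (g * a) (g' * a) with h1 | h1
  · have h2 := (hm (g * a) h1F (g' * a) h2F).mpr h1
    rw [min_eq_left h2]
    have h3 : (g * a)⁻¹ * ((g ⊓ g') * a) ∈ Q := by rw [e]; exact inf_mem_of_leQ h1
    apply le_antisymm
    · exact (hm _ h1F _ h3F).mpr (leQ_of_mem hQ.toIsCvx h3)
    · exact (hm _ h3F _ h1F).mpr (leQ_of_mem' hQ.toIsCvx h3)
  · have h2 := (hm (g' * a) h2F (g * a) h1F).mpr h1
    rw [min_eq_right h2]
    have h3 : (g' * a)⁻¹ * ((g ⊓ g') * a) ∈ Q := by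
      rw [e, inf_comm]; exact inf_mem_of_leQ h1
    apply le_antisymm
    · exact (hm _ h2F _ h3F).mpr (leQ_of_mem hQ.toIsCvx h3)
    · exact (hm _ h3F _ h2F).mpr (leQ_of_mem' hQ.toIsCvx h3)

theorem act_inv_act {Q : Subgroup G.carrier} {D : Finset G.carrier} (M : LM E G Q D)
    (a : M.A.carrier) (ω : M.Ω) : M.act a⁻¹ (M.act a ω) = ω := by
  rw [← M.act_mul, inv_mul_cancel, M.act_one]

theorem MimL.gen (g : G.carrier) : MimL m hQ (fun i => (m i).v g) g := by
  classical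
  intro a
  exact ⟨{g, a}, fun F hF => (m _).v_act g (hF (by simp)) a (hF (by simp))⟩

theorem MimL.gen_inv (g : G.carrier) : MimL m hQ (fun i => ((m i).v g)⁻¹) g⁻¹ := by
  classical
  intro a
  refine ⟨{g, g⁻¹ * a}, fun F hF => ?_⟩
  have h1 := (m ⟨Q, F, hQ⟩).v_act g (hF (by simp)) (g⁻¹ * a) (hF (by simp))
  rw [mul_inv_cancel_left] at h1
  rw [← h1, act_inv_act]

theorem MimL.gen_star (g : G.carrier) :
    MimL m hQ (fun i => (m i).A.star ((m i).v g)) (G.star g) := by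
  classical
  intro a
  exact ⟨{g, a}, fun F hF => (m _).v_star g (hF (by simp)) a (hF (by simp))⟩

theorem MimL.gen_star_inv (g : G.carrier) :
    MimL m hQ (fun i => ((m i).A.star ((m i).v g))⁻¹) (G.star g)⁻¹ := by
  classical
  intro a
  refine ⟨{g, (G.star g)⁻¹ * a}, fun F hF => ?_⟩
  have h1 := (m ⟨Q, F, hQ⟩).v_star g (hF (by simp)) ((G.star g)⁻¹ * a) (hF (by simp))
  rw [mul_inv_cancel_left] at h1
  rw [← h1, act_inv_act]

theorem MimL.unique {w : ∀ i : IxL G, (m i).A.carrier} {g g' : G.carrier}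
    (h : MimL m hQ w g) (h' : MimL m hQ w g') : g⁻¹ * g' ∈ Q := by
  classical
  obtain ⟨D, hD⟩ := h 1
  obtain ⟨D', hD'⟩ := h' 1
  have h1 := hD (D ∪ D' ∪ {g, g'}) (by intro x hx; simp [hx])
  have h2 := hD' (D ∪ D' ∪ {g, g'}) (by intro x hx; simp [hx])
  rw [mul_one] at h1 h2
  have h3 := h1.symm.trans h2
  have hm := (m ⟨Q, D ∪ D' ∪ {g, g'}, hQ⟩).ord
  apply leQ_antisymm hQ.toIsCvx
  · exact (hm g (by simp) g' (by simp)).mp h3.le
  · exact (hm g' (by simp) g (by simp)).mp h3.ge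

/-- The relation between families and elements. -/
def InL (m : ∀ i : IxL G, LM E G i.Q i.D) (p : ∀ i : IxL G, (m i).A.carrier)
    (g : G.carrier) : Prop :=
  ∀ (Q : Subgroup G.carrier) (hQ : IsPrm Q),
    MimL m hQ p g ∧ MimL m hQ (fun i => (p i)⁻¹) g⁻¹ ∧
    MimL m hQ (fun i => (m i).A.star (p i)) (G.star g) ∧
    MimL m hQ (fun i => ((m i).A.star (p i))⁻¹) (G.star g)⁻¹

/-- Membership from local models. -/
theorem mem_of_local (h : ∀ (Q : Subgroup G.carrier), IsPrm Q → ∀ D : Finset G.carrier,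
    Nonempty (LM E G Q D)) : G ∈ Models E := by
  classical
  let m : ∀ i : IxL G, LM E G i.Q i.D := fun i => (h i.Q i.prm i.D).some
  refine relHSP (ι := IxL G) (fun i => (m i).A) (fun i => (m i).mem) G (fun p g => InL m p g)
    ?_ ?_ ?_ ?_ ?_ ?_ ?_ ?_
  · intro Q hQ
    refine ⟨MimL.one, ?_, ?_, ?_⟩
    · exact (MimL.one (m := m) (hQ := hQ)).congr (fun i => inv_one.symm) inv_one.symm
    · exact (MimL.one (m := m) (hQ := hQ)).congr (fun i => ((m i).A.star_one).symm)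
        G.star_one.symm
    · exact (MimL.one (m := m) (hQ := hQ)).congr
        (fun i => (inv_one.symm.trans (congrArg _ ((m i).A.star_one).symm)))
        (inv_one.symm.trans (congrArg _ G.star_one.symm))
  · intro p q a b h1 h2 Q hQ
    obtain ⟨p1, p2, p3, p4⟩ := h1 Q hQ
    obtain ⟨q1, q2, q3, q4⟩ := h2 Q hQ
    refine ⟨p1.mul q1, ?_, ?_, ?_⟩
    · exact (q2.mul p2).congr (fun i => (mul_inv_rev _ _).symm) (mul_inv_rev _ _).symm
    · exact (p3.mul q3).congr (fun i => ((m i).A.star_mul _ _).symm) (G.star_mul _ _).symm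
    · exact (q4.mul p4).congr
        (fun i => (mul_inv_rev _ _).symm.trans (congrArg _ ((m i).A.star_mul _ _).symm))
        ((mul_inv_rev _ _).symm.trans (congrArg _ (G.star_mul _ _).symm))
  · intro p a h1 Q hQ
    obtain ⟨p1, p2, p3, p4⟩ := h1 Q hQ
    refine ⟨p2, ?_, ?_, ?_⟩
    · exact p1.congr (fun i => (inv_inv _).symm) (inv_inv _).symm
    · exact p4.congr (fun i => ((m i).A.star_inv _).symm) (G.star_inv _).symm
    · exact p3.congr (fun i => (inv_inv _).symm.trans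
        (congrArg (fun y : (m i).A.carrier => y⁻¹) ((m i).A.star_inv (p i)).symm))
        ((inv_inv _).symm.trans (congrArg _ (G.star_inv _).symm))
  · intro p q a b h1 h2 Q hQ
    obtain ⟨p1, p2, p3, p4⟩ := h1 Q hQ
    obtain ⟨q1, q2, q3, q4⟩ := h2 Q hQ
    refine ⟨p1.sup q1, ?_, ?_, ?_⟩
    · exact (p2.inf q2).congr (fun i => (inv_sup _ _).symm) (inv_sup _ _).symm
    · exact (p3.inf q3).congr (fun i => ((m i).A.star_sup _ _).symm) (G.star_sup _ _).symm
    · exact (p4.sup q4).congr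
        (fun i => (inv_inf _ _).symm.trans (congrArg _ ((m i).A.star_sup _ _).symm))
        ((inv_inf _ _).symm.trans (congrArg _ (G.star_sup _ _).symm))
  · intro p q a b h1 h2 Q hQ
    obtain ⟨p1, p2, p3, p4⟩ := h1 Q hQ
    obtain ⟨q1, q2, q3, q4⟩ := h2 Q hQ
    refine ⟨p1.inf q1, ?_, ?_, ?_⟩
    · exact (p2.sup q2).congr (fun i => (inv_inf _ _).symm) (inv_inf _ _).symm
    · exact (p3.sup q3).congr (fun i => ((m i).A.star_inf _ _).symm) (G.star_inf _ _).symm
    · exact (p4.inf q4).congr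
        (fun i => (inv_sup _ _).symm.trans (congrArg _ ((m i).A.star_inf _ _).symm))
        ((inv_sup _ _).symm.trans (congrArg _ (G.star_inf _ _).symm))
  · intro p a h1 Q hQ
    obtain ⟨p1, p2, p3, p4⟩ := h1 Q hQ
    refine ⟨p3, p4, ?_, ?_⟩
    · exact p1.congr (fun i => ((m i).A.star_star _).symm) (G.star_star _).symm
    · exact p2.congr (fun i => congrArg _ ((m i).A.star_star _).symm)
        (congrArg _ (G.star_star _).symm)
  · intro g
    exact ⟨fun i => (m i).v g, fun Q hQ => ⟨MimL.gen g, MimL.gen_inv g, MimL.gen_star g,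
      MimL.gen_star_inv g⟩⟩
  · intro p a b h1 h2
    by_contra hne
    obtain ⟨Q, hQ, hn⟩ := exists_prime_ne hne
    exact hn (MimL.unique (h1 Q hQ).1 (h2 Q hQ).1)

end loc

end Pool.Agent.Helper29
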