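import Pool.Agent.Helper29.CovWr
import Pool.Agent.Helper29.CovDD

/-!
The meet trick: in a sub-ℓ-group of a periodic wreath product that moves the components
cyclically, an element with labels summing to zero gives elements with one component.
-/

set_option autoImplicit false
set_option linter.unusedSectionVars false

namespace Pool.Agent.Helper29

/-- A label: a homomorphism to an ordered group that decides the order when the labels differ. -/
structure IsLab {G R : Type} [Group G] [Lattice G] [AddCommGroup R] [LinearOrder R]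
    (lab : G → R) : Prop where
  mul : ∀ a b, lab (a * b) = lab a + lab b
  sup : ∀ a b, lab (a ⊔ b) = max (lab a) (lab b)
  le : ∀ a b, lab a < lab b → a ≤ b

namespace IsLab

variable {G R : Type} [Group G] [Lattice G] [MulLeftMono G] [MulRightMono G]
  [AddCommGroup R] [LinearOrder R] [IsOrderedAddMonoid R] {lab : G → R}

theorem one (h : IsLab lab) : lab 1 = 0 := by
  have := h.mul 1 1
  rw [mul_one] at this
  exact (left_eq_add.mp this)

theorem inv (h : IsLab lab) (a : G) : lab a⁻¹ = - lab a := by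
  rw [eq_neg_iff_add_eq_zero, ← h.mul, inv_mul_cancel, h.one]

theorem inf (h : IsLab lab) (a b : G) : lab (a ⊓ b) = min (lab a) (lab b) := by
  have e : a ⊓ b = (a⁻¹ ⊔ b⁻¹)⁻¹ := by rw [inv_sup, inv_inv, inv_inv]
  rw [e, h.inv, h.sup, h.inv, h.inv, max_neg_neg, neg_neg]

theorem mono (h : IsLab lab) {a b : G} (hab : a ≤ b) : lab a ≤ lab b := by
  have := h.sup a b
  rw [sup_eq_right.mpr hab] at this
  rw [this]; exact le_max_left _ _

theorem nonneg (h : IsLab lab) {a : G} (ha : 1 ≤ a) : 0 ≤ lab a := by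
  have := h.mono ha
  rwa [h.one] at this

theorem conj (h : IsLab lab) (g a : G) : lab (g * a * g⁻¹) = lab a := by
  rw [h.mul, h.mul, h.inv]; abel

theorem pow (h : IsLab lab) (a : G) (n : ℕ) : lab (a ^ n) = n • lab a := by
  induction n with
  | zero => simp [h.one]
  | succ n ih => rw [pow_succ, h.mul, ih, succ_nsmul]

theorem ab (h : IsLab lab) (a : G) : lab (ab a) = |lab a| := by
  unfold Helper29.ab
  rw [h.sup, h.inv]; rfl

end IsLab

section big

variable {R : Type} [AddCommGroup R] [LinearOrder R] [IsOrderedAddMonoid R]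

/-- some multiple of `t` is at least `M` -/
def Big (M t : R) : Prop := ∃ m : ℕ, M ≤ m • t

theorem Big.mono {M t t' : R} (h : Big M t) (htt : t ≤ t') : Big M t' := by
  obtain ⟨m, hm⟩ := h
  exact ⟨m, hm.trans (nsmul_le_nsmul_right htt m)⟩

theorem Big.min {M t t' : R} (h : Big M t) (h' : Big M t') :
    Big M (min t t') := by
  rcases le_total t t' with h1 | h1
  · rw [min_eq_left h1]; exact h
  · rw [min_eq_right h1]; exact h'

theorem Big.sub {M t s : R} (h : Big M t) (hs : ¬ Big M s) : Big M (t - s) := by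
  obtain ⟨m, hm⟩ := h
  have h1 : (2 * m) • s < M := not_le.mp (fun h => hs ⟨2 * m, h⟩)
  refine ⟨2 * m, ?_⟩
  rw [nsmul_sub]
  have h2 : (2 * m) • t = m • t + m • t := by rw [two_mul, add_nsmul]
  rw [h2]
  have h3 : M + M ≤ m • t + m • t := add_le_add hm hm
  rw [le_sub_iff_add_le]
  exact (add_le_add le_rfl h1.le).trans h3

theorem Big.lt {M t s : R} (h : Big M t) (hs : ¬ Big M s) : s < t := by
  by_contra hcon
  exact hs (h.mono (not_lt.mp hcon))

end big

section meet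

variable {G R : Type} [Group G] [Lattice G] [MulLeftMono G] [MulRightMono G]
  [AddCommGroup R] [LinearOrder R] [IsOrderedAddMonoid R] {lab : G → R}
  {p : ℕ} [Fact p.Prime] {ρ : R →+ ZMod p}

/-- there are elements moving any component to any other one -/
theorem exists_rot {S : Subgroup (Wr ρ G)} {x : Wr ρ G} (hx : x ∈ S) (hxq : ρ x.q ≠ 0)
    (i j : ZMod p) : ∃ y ∈ S, i + ρ y.q = j := by
  refine ⟨x ^ ((j - i) / ρ x.q).val, S.pow_mem hx _, ?_⟩
  rw [Wr.pow_q, map_nsmul, nsmul_eq_mul, ZMod.natCast_val, ZMod.cast_id',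
    id_eq, div_mul_cancel₀ _ hxq]
  ring

/-- positive elements with zero root label -/
def Fam (S : Subgroup (Wr ρ G)) (y : Wr ρ G) : Prop := y ∈ S ∧ y.q = 0 ∧ ∀ i, 1 ≤ y.f i

theorem inf_f {a b : Wr ρ G} (ha : a.q = 0) (hb : b.q = 0) (i : ZMod p) :
    (a ⊓ b).f i = a.f i ⊓ b.f i := by
  have h := Wr.inf_of_eq (ha.trans hb.symm)
  rw [h]; rfl

theorem sup_f {a b : Wr ρ G} (ha : a.q = 0) (hb : b.q = 0) (i : ZMod p) :
    (a ⊔ b).f i = a.f i ⊔ b.f i := by
  have h := Wr.sup_of_eq (ha.trans hb.symm)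
  rw [h]; rfl

theorem inf_q0 {a b : Wr ρ G} (ha : a.q = 0) (hb : b.q = 0) : (a ⊓ b).q = 0 := by
  rw [Wr.inf_q, ha, hb, min_self]

theorem sup_q0 {a b : Wr ρ G} (ha : a.q = 0) (hb : b.q = 0) : (a ⊔ b).q = 0 := by
  rw [Wr.sup_q, ha, hb, max_self]

theorem Fam.inf {S : Subgroup (Wr ρ G)} (hS : SL S) {y z : Wr ρ G} (hy : Fam S y) (hz : Fam S z) :
    Fam S (y ⊓ z) := by
  obtain ⟨h1, h2, h3⟩ := hy
  obtain ⟨k1, k2, k3⟩ := hz
  refine ⟨hS.inf h1 k1, inf_q0 h2 k2, fun i => ?_⟩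
  rw [inf_f h2 k2]
  exact le_inf (h3 i) (k3 i)

theorem one_le_conj {g a : G} (h : 1 ≤ a) : 1 ≤ g * a * g⁻¹ := by
  have : g * 1 * g⁻¹ ≤ g * a * g⁻¹ := by gcongr
  simpa using this

theorem Fam.conj {S : Subgroup (Wr ρ G)} {g y : Wr ρ G} (hg : g ∈ S) (hy : Fam S y) :
    Fam S (g * y * g⁻¹) := by
  obtain ⟨h1, h2, h3⟩ := hy
  refine ⟨S.mul_mem (S.mul_mem hg h1) (S.inv_mem hg), by rw [Wr.conj_q, h2], fun i => ?_⟩
  rw [Wr.conj_f _ _ h2]
  exact one_le_conj (h3 _)

/-- the reduction to one big component -/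
theorem meet_reduce (hl : IsLab lab) {S : Subgroup (Wr ρ G)} (hS : SL S) {x : Wr ρ G}
    (hx : x ∈ S) (hxq : ρ x.q ≠ 0) (M : R) : ∀ (c : ℕ) (y : Wr ρ G), Fam S y →
    {i | Big M (lab (y.f i))}.ncard = c → (∃ i, Big M (lab (y.f i))) →
    (∃ i, ¬ Big M (lab (y.f i))) →
    ∃ z ν, Fam S z ∧ Big M (lab (z.f ν)) ∧ ∀ i, i ≠ ν → ¬ Big M (lab (z.f i)) := by
  intro c
  induction c using Nat.strong_induction_on with
  | _ c ih =>
    intro y hy hc hne hnu
    by_cases hone : ∃ s t, s ≠ t ∧ Big M (lab (y.f s)) ∧ Big M (lab (y.f t))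
    swap
    · obtain ⟨ν, hν⟩ := hne
      refine ⟨y, ν, hy, hν, fun i hi hb => hone ⟨i, ν, hi, hb, hν⟩⟩
    obtain ⟨s, t, hst, hs, ht⟩ := hone
    obtain ⟨g, hg, hgq⟩ := exists_rot hx hxq s t
    have hd : ρ g.q = t - s := by rw [← hgq]; ring
    have hy' : Fam S (y ⊓ g * y * g⁻¹) := hy.inf hS (hy.conj hg)
    have hf : ∀ i, lab ((y ⊓ g * y * g⁻¹).f i) = min (lab (y.f i)) (lab (y.f (i - (t - s)))) := by
      intro i
      rw [inf_f hy.2.1 (by rw [Wr.conj_q, hy.2.1]), hl.inf, Wr.conj_f _ _ hy.2.1, hl.conj, hd]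
    have hbig : ∀ i, Big M (lab ((y ⊓ g * y * g⁻¹).f i)) ↔
        Big M (lab (y.f i)) ∧ Big M (lab (y.f (i - (t - s)))) := by
      intro i
      rw [hf]
      constructor
      · intro h
        exact ⟨h.mono (min_le_left _ _), h.mono (min_le_right _ _)⟩
      · rintro ⟨h1, h2⟩
        exact h1.min h2
    have hsub : {i | Big M (lab ((y ⊓ g * y * g⁻¹).f i))} ⊂ {i | Big M (lab (y.f i))} := by
      refine ⟨fun i hi => ((hbig i).mp hi).1, fun hcon => ?_⟩
      have hstep : ∀ i, Big M (lab (y.f i)) → Big M (lab (y.f (i - (t - s)))) :=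
        fun i hi => ((hbig i).mp (hcon hi)).2
      have hall : ∀ k : ℕ, Big M (lab (y.f (s - k * (t - s)))) := by
        intro k
        induction k with
        | zero => simpa using hs
        | succ k ih2 =>
          have := hstep _ ih2
          have e : s - (k : ZMod p) * (t - s) - (t - s) = s - ((k + 1 : ℕ) : ZMod p) * (t - s) := by
            push_cast; ring
          rwa [e] at this
      obtain ⟨i, hi⟩ := hnu
      apply hi
      have hts : t - s ≠ 0 := sub_ne_zero.mpr (Ne.symm hst)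
      have := hall ((s - i) / (t - s)).val
      rw [ZMod.natCast_val, ZMod.cast_id', id_eq, div_mul_cancel₀ _ hts] at this
      simpa using this
    refine ih _ ?_ _ hy' rfl ?_ ?_
    · rw [← hc]
      exact Set.ncard_lt_ncard hsub (Set.toFinite _)
    · refine ⟨t, (hbig t).mpr ⟨ht, ?_⟩⟩
      have e : t - (t - s) = s := by ring
      rw [e]; exact hs
    · obtain ⟨i, hi⟩ := hnu
      exact ⟨i, fun h => hi ((hbig i).mp h).1⟩

/-- killing the other components -/
theorem meet_kill (hl : IsLab lab) {S : Subgroup (Wr ρ G)} (hS : SL S) {x : Wr ρ G}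
    (hx : x ∈ S) (hxq : ρ x.q ≠ 0) {M : R} {y : Wr ρ G} (hy : Fam S y) {ν : ZMod p}
    (hν : Big M (lab (y.f ν))) (hne : ∀ i, i ≠ ν → ¬ Big M (lab (y.f i))) :
    ∃ t : G, Wr.single ν t ∈ S ∧ 1 ≤ t ∧ Big M (lab t) := by
  classical
  have key : ∀ A : Finset (ZMod p), ν ∉ A → ∃ z, Fam S z ∧ Big M (lab (z.f ν)) ∧
      ∀ i ∈ A, z.f i = 1 := by
    intro A
    induction A using Finset.induction_on with
    | empty => intro _; exact ⟨y, hy, hν, fun i hi => absurd hi (Finset.notMem_empty i)⟩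
    | insert a A ha ih =>
      intro hνA
      obtain ⟨z, hz, hzν, hzA⟩ := ih (fun h => hνA (Finset.mem_insert_of_mem h))
      have haν : a ≠ ν := fun h => hνA (by rw [← h]; exact Finset.mem_insert_self _ _)
      obtain ⟨g, hg, hgq⟩ := exists_rot hx hxq ν a
      have hgq' : ρ g.q = a - ν := by rw [← hgq]; ring
      have hc0 : (g * y * g⁻¹).q = 0 := by rw [Wr.conj_q, hy.2.1]
      have hi0 : ((g * y * g⁻¹)⁻¹).q = 0 := by rw [Wr.inv_q, hc0, neg_zero]
      have hm0 : (y * (g * y * g⁻¹)⁻¹).q = 0 := by rw [Wr.mul_q, hy.2.1, hi0, add_zero]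
      have hmf : ∀ i, (y * (g * y * g⁻¹)⁻¹).f i =
          y.f i * ((g * y * g⁻¹).f i)⁻¹ := by
        intro i
        rw [Wr.mul_f, hi0, map_zero, add_zero, Wr.inv_f, hc0, map_zero, sub_zero]
      have hw : Fam S (y * (g * y * g⁻¹)⁻¹ ⊔ 1) := by
        refine ⟨hS _ (S.mul_mem hy.1 (S.inv_mem (hy.conj hg).1)) _ S.one_mem,
          sup_q0 hm0 Wr.one_q, fun i => ?_⟩
        rw [sup_f hm0 Wr.one_q, Wr.one_f]
        exact le_sup_right
      have hwf : ∀ i, (y * (g * y * g⁻¹)⁻¹ ⊔ 1).f i =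
          y.f i * ((g * y * g⁻¹).f i)⁻¹ ⊔ 1 := by
        intro i
        rw [sup_f hm0 Wr.one_q, Wr.one_f, hmf]
      refine ⟨z ⊓ (y * (g * y * g⁻¹)⁻¹ ⊔ 1), hz.inf hS hw, ?_, ?_⟩
      · rw [inf_f hz.2.1 hw.2.1, hl.inf]
        apply hzν.min
        rw [hwf, hl.sup, hl.one]
        refine Big.mono ?_ (le_max_left _ _)
        rw [hl.mul, hl.inv, Wr.conj_f _ _ hy.2.1, hl.conj, hgq', ← sub_eq_add_neg]
        apply hν.sub
        apply hne
        intro h
        apply haν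
        have h2 : ν - (a - ν) = ν := h
        have h3 : a - ν = 0 := by
          have := congrArg (fun w => ν - w) h2
          simpa using this
        exact sub_eq_zero.mp h3
      · intro i hi
        rw [inf_f hz.2.1 hw.2.1]
        rcases Finset.mem_insert.mp hi with rfl | hi
        · have h1 : (y * (g * y * g⁻¹)⁻¹ ⊔ 1).f i = 1 := by
            rw [hwf]
            apply sup_eq_right.mpr
            rw [mul_inv_le_iff_le_mul, one_mul]
            apply hl.le
            rw [Wr.conj_f _ _ hy.2.1, hl.conj, hgq']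
            have e : i - (i - ν) = ν := by ring
            rw [e]
            exact hν.lt (hne i haν)
          rw [h1]
          exact inf_eq_right.mpr (hz.2.2 i)
        · rw [hzA i hi]
          exact inf_eq_left.mpr (hw.2.2 i)
  obtain ⟨z, hz, hzν, hzA⟩ := key (Finset.univ.erase ν) (Finset.notMem_erase ν _)
  refine ⟨z.f ν, ?_, hz.2.2 ν, hzν⟩
  have : Wr.single ν (z.f ν) = z := by
    ext i
    · rw [Wr.single_q, hz.2.1]
    · by_cases hi : i = ν
      · rw [hi, Wr.single_f_self]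
      · rw [Wr.single_f_ne hi, hzA i (Finset.mem_erase.mpr ⟨hi, Finset.mem_univ _⟩)]
  rw [this]; exact hz.1

theorem single_pow_mem {S : Subgroup (Wr ρ G)} {i : ZMod p} {t : G}
    (h : (Wr.single i t : Wr ρ G) ∈ S) (n : ℕ) : (Wr.single i (t ^ n) : Wr ρ G) ∈ S := by
  induction n with
  | zero => rw [pow_zero, Wr.single_one]; exact S.one_mem
  | succ n ih => rw [pow_succ, Wr.single_mul]; exact S.mul_mem ih h

/-- The meet trick. -/
theorem meet_trick (hl : IsLab lab) {S : Subgroup (Wr ρ G)} (hS : SL S) {x : Wr ρ G}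
    (hx : x ∈ S) (hxq : ρ x.q ≠ 0) {c : Wr ρ G} (hc : c ∈ S) (hcq : c.q = 0)
    (hsum : ∑ i, lab (c.f i) = 0) (hne : ∃ i, lab (c.f i) ≠ 0) (ν : ZMod p) :
    ∃ t : G, Wr.single ν t ∈ S ∧ 1 ≤ t ∧ 0 < lab t ∧
      ∀ i, lab (c.f i) ≤ lab t ∧ - lab (c.f i) ≤ lab t := by
  classical
  obtain ⟨i0, hi0⟩ := Finite.exists_max (fun i => lab (c.f i))
  have hM : 0 < lab (c.f i0) := by
    by_contra hcon
    have h1 : ∀ i ∈ (Finset.univ : Finset (ZMod p)), lab (c.f i) ≤ 0 :=
      fun i _ => (hi0 i).trans (not_lt.mp hcon)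
    have h2 := (Finset.sum_eq_zero_iff_of_nonpos h1).mp hsum
    obtain ⟨i, hi⟩ := hne
    exact hi (h2 i (Finset.mem_univ i))
  set M := lab (c.f i0) with hMdef
  have hneg : ∀ j, - lab (c.f j) ≤ p • M := by
    intro j
    have h1 : lab (c.f j) + ∑ i ∈ Finset.univ.erase j, lab (c.f i) = 0 :=
      (Finset.add_sum_erase Finset.univ (fun i => lab (c.f i)) (Finset.mem_univ j)).trans hsum
    have h2 : ∑ i ∈ Finset.univ.erase j, lab (c.f i) ≤ (Finset.univ.erase j).card • M :=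
      Finset.sum_le_card_nsmul _ _ _ (fun i _ => hi0 i)
    have h3 : - lab (c.f j) = ∑ i ∈ Finset.univ.erase j, lab (c.f i) :=
      (eq_neg_of_add_eq_zero_right h1).symm
    rw [h3]
    refine h2.trans (nsmul_le_nsmul_left hM.le ?_)
    calc (Finset.univ.erase j).card ≤ (Finset.univ : Finset (ZMod p)).card :=
          Finset.card_le_card (Finset.erase_subset _ _)
      _ = p := by rw [Finset.card_univ, ZMod.card]
  -- the starting element
  have hy0 : Fam S (c ⊔ 1) := by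
    refine ⟨hS _ hc _ S.one_mem, sup_q0 hcq Wr.one_q, fun i => ?_⟩
    rw [sup_f hcq Wr.one_q, Wr.one_f]
    exact le_sup_right
  have hy0f : ∀ i, lab ((c ⊔ 1).f i) = max (lab (c.f i)) 0 := by
    intro i
    rw [sup_f hcq Wr.one_q, Wr.one_f, hl.sup, hl.one]
  have hb1 : ∃ i, Big M (lab ((c ⊔ 1).f i)) :=
    ⟨i0, 1, by rw [hy0f, one_nsmul]; exact le_max_left _ _⟩
  have hb2 : ∃ i, ¬ Big M (lab ((c ⊔ 1).f i)) := by
    by_contra hcon
    push Not at hcon
    have h1 : ∀ i, 0 < lab (c.f i) := by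
      intro i
      by_contra h
      obtain ⟨m, hm⟩ := hcon i
      rw [hy0f, max_eq_right (not_lt.mp h), nsmul_zero] at hm
      exact absurd hM (not_lt.mpr hm)
    have h2 : 0 < ∑ i, lab (c.f i) := Finset.sum_pos (fun i _ => h1 i) ⟨0, Finset.mem_univ 0⟩
    rw [hsum] at h2
    exact lt_irrefl _ h2
  obtain ⟨z, ν0, hz, hzν, hzne⟩ := meet_reduce hl hS hx hxq M _ _ hy0 rfl hb1 hb2
  obtain ⟨t, ht, ht1, m, hm⟩ := meet_kill hl hS hx hxq hz hzν hzne
  obtain ⟨g, hg, hgq⟩ := exists_rot hx hxq ν0 ν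
  have hg2 : g * Wr.single ν0 t * g⁻¹ ∈ S := S.mul_mem (S.mul_mem hg ht) (S.inv_mem hg)
  rw [Wr.conj_single, hgq] at hg2
  set t' := g.f ν0 * t * (g.f ν0)⁻¹ with ht'
  have hlt' : lab t' = lab t := hl.conj _ _
  have h1t' : 1 ≤ t' := one_le_conj ht1
  have hpow : lab (t' ^ (p * m)) = p • (m • lab t) := by
    rw [hl.pow, hlt', mul_nsmul']
  have hpM : p • M ≤ lab (t' ^ (p * m)) := by
    rw [hpow]; exact nsmul_le_nsmul_right hm p
  have hp1 : M ≤ p • M := by
    calc M = 1 • M := (one_nsmul M).symm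
      _ ≤ p • M := nsmul_le_nsmul_left hM.le (Fact.out (p := p.Prime)).one_lt.le
  refine ⟨t' ^ (p * m), single_pow_mem hg2 _, one_le_pow_of_one_le' h1t' _, ?_, ?_⟩
  · exact hM.trans_le (hp1.trans hpM)
  · intro i
    exact ⟨(hi0 i).trans (hp1.trans hpM), (hneg i).trans hpM⟩

end meet

end Pool.Agent.Helper29
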