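import Pool.Agent.Helper29.CovIdeals
import Pool.Agent.Helper29.CovLocal
import Pool.Agent.Helper29.CovCrit

/-!
Membership of solvable-like m-groups in varieties containing the periodic wreath products.
-/

set_option autoImplicit false
set_option linter.unusedSectionVars false

namespace Pool.Agent.Helper29

variable {E : Set (MTerm × MTerm)} {G : MGroup}

/-- the doubled wreath products generate the m-groups of bounded derived depth -/
theorem mem_of_dbl (n : ℕ) (hM : ∀ P : PS, MTg P (ρZ P) n ∈ Models E)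
    (hd : dd^[n] (⊤ : Subgroup G.carrier) = ⊥) : G ∈ Models E := by
  classical
  apply mem_of_local
  intro Q hQ D
  obtain ⟨N, hN⟩ := ideal_mimic hQ ideal_top n hd (D ∪ D.image G.star)
  obtain ⟨P, hP⟩ := exists_PS N
  obtain ⟨x, v, h1, h2⟩ := hN P hP
  have htop : ∀ a : G.carrier, a ∈ Q ⊔ (⊤ : Subgroup G.carrier) := fun a =>
    (le_sup_right : (⊤ : Subgroup G.carrier) ≤ Q ⊔ ⊤) trivial
  have hD : ∀ a ∈ D, a ∈ D ∪ D.image G.star := fun a ha => Finset.mem_union_left _ ha
  exact ⟨{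
    A := MTg P (ρZ P) n
    mem := hM P
    Ω := Pt n
    lo := Pt.lo n
    act := fun a ω => actT P n a.1 ω
    act_one := fun ω => actT_one P n ω
    act_mul := fun a b ω => actT_mul P n a.1 b.1 ω
    act_sup := fun a b ω => actT_sup P n a.1 b.1 ω
    act_inf := fun a b ω => actT_inf P n a.1 b.1 ω
    x := x
    v := fun g => (v g, sg P (ρZ P) n (v (G.star g)))
    ord := fun a ha b hb => h1 a (hD a ha) b (hD b hb) (htop a) (htop b)
    v_act := fun g hg a ha => h2 g (hD g hg) a (hD a ha) (htop g) (htop a)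
    v_star := fun g hg a ha => by
      change actT P n (sg P (ρZ P) n (sg P (ρZ P) n (v (G.star g)))) (x a) = x (G.star g * a)
      rw [sg_sg]
      exact h2 _ (Finset.mem_union_right _ (Finset.mem_image_of_mem _ hg)) a (hD a ha)
        (htop _) (htop _) }⟩

theorem comm_mem_jj (a b : G.carrier) : a * b * a⁻¹ * b⁻¹ ∈ jj G.star ⊤ := by
  have hJ : IdealIn ⊤ (jj G.star (⊤ : Subgroup G.carrier)) := jj_ideal (fun _ _ => trivial)
  have h1 : a * G.star a ∈ jj G.star (⊤ : Subgroup G.carrier) := mul_st_mem_jj trivial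
  have h2 : b * G.star b ∈ jj G.star (⊤ : Subgroup G.carrier) := mul_st_mem_jj trivial
  have h3 : (a * b) * G.star (a * b) ∈ jj G.star (⊤ : Subgroup G.carrier) :=
    mul_st_mem_jj trivial
  rw [G.star_mul] at h3
  have h4 := hJ.conj (G.star b)⁻¹ trivial _ ((jj G.star (⊤ : Subgroup G.carrier)).inv_mem h1)
  have e : a * b * a⁻¹ * b⁻¹ = (a * b * (G.star a * G.star b)) *
      ((G.star b)⁻¹ * (a * G.star a)⁻¹ * ((G.star b)⁻¹)⁻¹) * (b * G.star b)⁻¹ := by group
  rw [e]
  exact Subgroup.mul_mem _ (Subgroup.mul_mem _ h3 h4) (Subgroup.inv_mem _ h2)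

/-- the wreath products with the symmetry -/
theorem mem_of_sym (m : ℕ) (hM : ∀ P : PS, TSg P (ρZ P) (m + 1) ∈ Models E)
    (hd : dd^[m] (jj G.star (⊤ : Subgroup G.carrier)) = ⊥) : G ∈ Models E := by
  classical
  have hJ : IdealIn ⊤ (jj G.star (⊤ : Subgroup G.carrier)) := jj_ideal (fun _ _ => trivial)
  apply mem_of_local
  intro Q hQ D
  obtain ⟨N, hN⟩ := tower_step (C' := ⊤) hQ (le_sup_left (b := jj G.star ⊤))
    (join_cvx hQ.toIsCvx hJ)
    (fun a _ b _ => (le_sup_right : jj G.star ⊤ ≤ Q ⊔ jj G.star ⊤) (comm_mem_jj a b)) m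
    (fun D => ideal_mimic hQ hJ m hd D) (D ∪ D.image G.star)
  obtain ⟨P, hP⟩ := exists_PS N
  obtain ⟨x, v, h1, h2⟩ := hN P hP
  have hD : ∀ a ∈ D, a ∈ D ∪ D.image G.star := fun a ha => Finset.mem_union_left _ ha
  have hD' : ∀ a ∈ D, G.star a ∈ D ∪ D.image G.star := fun a ha =>
    Finset.mem_union_right _ (Finset.mem_image_of_mem _ ha)
  have hs : ∀ g : G.carrier, g * G.star g ∈ Q ⊔ jj G.star ⊤ := fun g =>
    (le_sup_right : jj G.star ⊤ ≤ Q ⊔ jj G.star ⊤) (mul_st_mem_jj trivial)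
  exact ⟨{
    A := TSg P (ρZ P) (m + 1)
    mem := hM P
    Ω := Pt (m + 1)
    lo := Pt.lo (m + 1)
    act := fun a ω => actT P (m + 1) a ω
    act_one := fun ω => actT_one P (m + 1) ω
    act_mul := fun a b ω => actT_mul P (m + 1) a b ω
    act_sup := fun a b ω => actT_sup P (m + 1) a b ω
    act_inf := fun a b ω => actT_inf P (m + 1) a b ω
    x := x
    v := fun g => v g (G.star g)
    ord := fun a ha b hb => h1 a (hD a ha) b (hD b hb) trivial trivial
    v_act := fun g hg a ha =>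
      (h2 g (hD g hg) (G.star g) (hD' g hg) a (hD a ha) trivial trivial trivial (hs g)).1
    v_star := fun g hg a ha =>
      (h2 g (hD g hg) (G.star g) (hD' g hg) a (hD a ha) trivial trivial trivial (hs g)).2 }⟩

end Pool.Agent.Helper29
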