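import Pool.Agent.Helper29.MNorm
import Pool.Agent.Helper29.CovDD

/-!
A variety containing all m-groups of finite derived depth contains all the normal-valued ones.
-/

set_option autoImplicit false
set_option linter.unusedSectionVars false

namespace Pool.Agent.Helper29

/-- Every normal-valued m-group lies in every variety that contains the doubled wreath powers. -/
theorem nv_mem_of {E : Set (MTerm × MTerm)} (hA : ∀ n, MWM n ∈ Models E) {G : MGroup}
    (law : NV G.carrier) : G ∈ Models E := by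
  have hanti : ∀ x y : G.carrier, x ≤ y → G.star y ≤ G.star x := fun x y h => G.star_anti h
  let P := bigP G.star G.star_mul hanti G.star_star
  refine relHSP (ι := Ix G.carrier) (fun i => MWM i.1) (fun i => hA i.1) G
    (fun p g => InP G.star (p, g)) ?_ ?_ ?_ ?_ ?_ ?_ ?_ ?_
  · exact P.toSubgroup.one_mem
  · intro p q a b h1 h2; exact P.toSubgroup.mul_mem (x := (p, a)) (y := (q, b)) h1 h2
  · intro p a h1; exact P.toSubgroup.inv_mem (x := (p, a)) h1
  · intro p q a b h1 h2; exact P.sup_mem (p, a) h1 (q, b) h2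
  · intro p q a b h1 h2; exact P.inf_mem (p, a) h1 (q, b) h2
  · intro p a h1 Q hQ
    obtain ⟨p1, p2, p3, p4⟩ := h1 Q hQ
    refine ⟨p3, p4, ?_, ?_⟩
    · change Mim Q (fun i => (p i).1) (G.star (G.star a))
      rw [G.star_star]; exact p1
    · change Mim Q (fun i => ((p i).1)⁻¹) (G.star (G.star a))⁻¹
      rw [G.star_star]; exact p2
  · intro g
    refine ⟨fun i => (i.2.2 g, OrderDual.toDual (i.2.2 (G.star g))), ?_⟩
    intro Q hQ
    exact ⟨Mim.gen g, Mim.gen_inv g, Mim.gen (G.star g), Mim.gen_inv (G.star g)⟩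
  · intro p a b h1 h2
    by_contra hne
    obtain ⟨Q, hQ, hn⟩ := exists_prime_ne hne
    exact hn (Mim.unique law hQ (h1 Q hQ).1 (h2 Q hQ).1)

/-- the terms of the standard series as subgroups -/
noncomputable def hsS (n i : ℕ) : Subgroup (MWM n).carrier where
  carrier := MW.Hs n i
  mul_mem' := fun {a b} ha hb => (((MW.series n).2.2 i).2.1 a ha b hb).1
  one_mem' := ((MW.series n).2.2 i).1
  inv_mem' := fun {a} ha => (((MW.series n).2.2 i).2.1 a ha a ha).2.1

theorem MWM.depth (n : ℕ) : dd^[n] (⊤ : Subgroup (MWM n).carrier) = ⊥ := by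
  have key : ∀ k ≤ n, dd^[k] (⊤ : Subgroup (MWM n).carrier) ≤ hsS n (n - k) := by
    intro k
    induction k with
    | zero =>
      intro _ x _
      change x ∈ MW.Hs n (n - 0)
      rw [Nat.sub_zero, (MW.series n).2.1]
      trivial
    | succ k ih =>
      intro hk
      rw [Function.iterate_succ_apply']
      have ih' := ih (by omega)
      set S := dd^[k] (⊤ : Subgroup (MWM n).carrier) with hS
      obtain ⟨_, h2, h3, h4, _, _⟩ := (MW.series n).2.2 (n - (k + 1))
      have h1 : IdealIn S (S ⊓ hsS n (n - (k + 1))) := by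
        refine ⟨inf_le_left, ?_, ?_⟩
        · rintro s hs c ⟨hc, hc'⟩
          exact ⟨S.mul_mem (S.mul_mem hs hc) (S.inv_mem hs), h4 c hc' s⟩
        · rintro c ⟨hc, hc'⟩ x hx h
          refine ⟨hx, ?_⟩
          have h5 : ab c ∈ hsS n (n - (k + 1)) := (h2 c hc' c⁻¹ ((hsS n _).inv_mem hc')).2.2.1
          have h6 : (ab c)⁻¹ ∈ hsS n (n - (k + 1)) := (hsS n _).inv_mem h5
          refine h3 (ab c)⁻¹ h6 (ab c) h5 x ?_ ((le_ab x).trans h)
          exact (inv_le_inv_iff.mpr h).trans (inv_ab_le x)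
      have h2 : ∀ a ∈ S, ∀ b ∈ S, a * b * a⁻¹ * b⁻¹ ∈ S ⊓ hsS n (n - (k + 1)) := by
        intro a ha b hb
        refine ⟨comm_mem_self S a ha b hb, ?_⟩
        have h5 := ((MW.series n).2.2 (n - (k + 1))).2.2.2.2.2
        have e : n - (k + 1) + 1 = n - k := by omega
        rw [e] at h5
        exact h5 a (ih' ha) b (ih' hb)
      exact (dd_le_of h1 h2).trans inf_le_right
  rw [Subgroup.eq_bot_iff_forall]
  intro x hx
  have h1 := key n le_rfl hx
  change x ∈ MW.Hs n (n - n) at h1
  rw [Nat.sub_self, (MW.series n).1] at h1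
  exact h1

end Pool.Agent.Helper29
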