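import Pool.Agent.Helper29.CovStep

/-!
The action of the integral wreath products on lexicographic powers of the integers.
-/

set_option autoImplicit false
set_option linter.unusedSectionVars false

namespace Pool.Agent.Helper29

/-- lexicographic powers of the integers -/
def Pt : ℕ → Type
  | 0 => Unit
  | n + 1 => ℤ ×ₗ Pt n

noncomputable instance Pt.lo (n : ℕ) : LinearOrder (Pt n) :=
  Nat.rec (motive := fun n => LinearOrder (Pt n)) (inferInstanceAs (LinearOrder Unit))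
    (fun n ih => @Prod.Lex.instLinearOrder ℤ (Pt n) _ ih) n

/-- pairs as points -/
def mkPt {n : ℕ} (r : ℤ) (ω : Pt n) : Pt (n + 1) := toLex (r, ω)

theorem mkPt_le {n : ℕ} {r r' : ℤ} {ω ω' : Pt n} :
    mkPt r ω ≤ mkPt r' ω' ↔ r < r' ∨ (r = r' ∧ ω ≤ ω') := Prod.Lex.le_iff

theorem mkPt_eta {n : ℕ} (ω : Pt (n + 1)) : mkPt (ofLex ω).1 (ofLex ω).2 = ω := rfl

variable (P : PS)

/-- the action -/
def actT : ∀ n, Tw P (ρZ P) n → Pt n → Pt n
  | 0, _, ω => ω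
  | n + 1, t, ω => mkPt (t.q + (ofLex ω).1) (actT n (t.f (ρZ P n (ofLex ω).1)) (ofLex ω).2)

theorem actT_mk (n : ℕ) (t : Tw P (ρZ P) (n + 1)) (r : ℤ) (ω : Pt n) :
    actT P (n + 1) t (mkPt r ω) = mkPt (t.q + r) (actT P n (t.f (ρZ P n r)) ω) := rfl

theorem actT_mul : ∀ n (a b : Tw P (ρZ P) n) (ω : Pt n),
    actT P n (a * b) ω = actT P n a (actT P n b ω)
  | 0, _, _, _ => rfl
  | n + 1, a, b, ω => by
    obtain ⟨r, ω, rfl⟩ : ∃ r ω', mkPt r ω' = ω := ⟨_, _, mkPt_eta ω⟩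
    rw [actT_mk, actT_mk, actT_mk]
    change mkPt (a.q + b.q + r)
      (actT P n (a.f (ρZ P n r + ρZ P n b.q) * b.f (ρZ P n r)) ω) = _
    rw [actT_mul n, map_add, add_comm (ρZ P n b.q), add_assoc]

theorem actT_one : ∀ n (ω : Pt n), actT P n 1 ω = ω
  | 0, _ => rfl
  | n + 1, ω => by
    obtain ⟨r, ω, rfl⟩ : ∃ r ω', mkPt r ω' = ω := ⟨_, _, mkPt_eta ω⟩
    rw [actT_mk]
    change mkPt (0 + r) (actT P n 1 ω) = _
    rw [actT_one n, zero_add]

theorem actT_le {n : ℕ} {a b : Tw P (ρZ P) (n + 1)} {r : ℤ} {ω : Pt n}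
    (h : a.q < b.q ∨ (a.q = b.q ∧ actT P n (a.f (ρZ P n r)) ω ≤ actT P n (b.f (ρZ P n r)) ω)) :
    actT P (n + 1) a (mkPt r ω) ≤ actT P (n + 1) b (mkPt r ω) := by
  rw [actT_mk, actT_mk, mkPt_le]
  rcases h with h | ⟨h, h'⟩
  · left; omega
  · right; exact ⟨by omega, h'⟩

theorem actT_sup : ∀ n (a b : Tw P (ρZ P) n) (ω : Pt n),
    actT P n (a ⊔ b) ω = max (actT P n a ω) (actT P n b ω)
  | 0, _, _, _ => rfl
  | n + 1, a, b, ω => by
    obtain ⟨r, ω, rfl⟩ : ∃ r ω', mkPt r ω' = ω := ⟨_, _, mkPt_eta ω⟩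
    rcases lt_trichotomy a.q b.q with h | h | h
    · have h1 : a ⊔ b = b := Wr.sup_of_lt h
      rw [h1]
      exact (max_eq_right (actT_le P (Or.inl h))).symm
    · have h1 : a ⊔ b = (⟨a.q, a.f ⊔ b.f⟩ : Wr (ρZ P n) (Tw P (ρZ P) n)) := Wr.sup_of_eq h
      have h2 : actT P (n + 1) (a ⊔ b) (mkPt r ω) =
          mkPt (a.q + r) (actT P n (a.f (ρZ P n r) ⊔ b.f (ρZ P n r)) ω) := by
        rw [h1]; rfl
      rw [h2, actT_sup n]
      rcases le_total (actT P n (a.f (ρZ P n r)) ω) (actT P n (b.f (ρZ P n r)) ω) with h3 | h3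
      · rw [max_eq_right h3]
        refine Eq.trans ?_ (max_eq_right (actT_le P (Or.inr ⟨h, h3⟩))).symm
        rw [actT_mk, h]
      · rw [max_eq_left h3]
        refine Eq.trans ?_ (max_eq_left (actT_le P (Or.inr ⟨h.symm, h3⟩))).symm
        rw [actT_mk]
    · have h1 : a ⊔ b = a := Wr.sup_of_gt h
      rw [h1]
      exact (max_eq_left (actT_le P (Or.inl h))).symm

theorem actT_inf : ∀ n (a b : Tw P (ρZ P) n) (ω : Pt n),
    actT P n (a ⊓ b) ω = min (actT P n a ω) (actT P n b ω)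
  | 0, _, _, _ => rfl
  | n + 1, a, b, ω => by
    obtain ⟨r, ω, rfl⟩ : ∃ r ω', mkPt r ω' = ω := ⟨_, _, mkPt_eta ω⟩
    rcases lt_trichotomy a.q b.q with h | h | h
    · have h1 : a ⊓ b = a := Wr.inf_of_lt h
      rw [h1]
      exact (min_eq_left (actT_le P (Or.inl h))).symm
    · have h1 : a ⊓ b = (⟨a.q, a.f ⊓ b.f⟩ : Wr (ρZ P n) (Tw P (ρZ P) n)) := Wr.inf_of_eq h
      have h2 : actT P (n + 1) (a ⊓ b) (mkPt r ω) =
          mkPt (a.q + r) (actT P n (a.f (ρZ P n r) ⊓ b.f (ρZ P n r)) ω) := by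
        rw [h1]; rfl
      rw [h2, actT_inf n]
      rcases le_total (actT P n (a.f (ρZ P n r)) ω) (actT P n (b.f (ρZ P n r)) ω) with h3 | h3
      · rw [min_eq_left h3]
        refine Eq.trans ?_ (min_eq_left (actT_le P (Or.inr ⟨h, h3⟩))).symm
        rw [actT_mk]
      · rw [min_eq_right h3]
        refine Eq.trans ?_ (min_eq_right (actT_le P (Or.inr ⟨h.symm, h3⟩))).symm
        rw [actT_mk, h]
    · have h1 : a ⊓ b = b := Wr.inf_of_gt h
      rw [h1]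
      exact (min_eq_right (actT_le P (Or.inl h))).symm

end Pool.Agent.Helper29
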