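import Pool.Agent.Helper29.CovMeet

/-!
Iterated periodic wreath products.
-/

set_option autoImplicit false
set_option linter.unusedSectionVars false

namespace Pool.Agent.Helper29

/-- sequences of distinct odd primes -/
structure PS where
  /-- the sequence -/
  p : ℕ → ℕ
  prime : ∀ n, (p n).Prime
  odd : ∀ n, p n ≠ 2
  inj : Function.Injective p

instance (P : PS) (n : ℕ) : Fact (P.p n).Prime := ⟨P.prime n⟩
instance (P : PS) (n : ℕ) : NeZero (P.p n) := ⟨(P.prime n).ne_zero⟩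

section T

variable {R : Type} [AddCommGroup R] (P : PS) (ρ : ∀ n, R →+ ZMod (P.p n))

/-- the iterated wreath product with `n` levels -/
def Tw : ℕ → Type
  | 0 => Unit
  | n + 1 => Wr (ρ n) (Tw n)

instance Tw.grp (n : ℕ) : Group (Tw P ρ n) :=
  Nat.rec (motive := fun n => Group (Tw P ρ n)) (inferInstanceAs (Group Unit))
    (fun n ih => @Wr.grpI R (ZMod (P.p n)) (Tw P ρ n) _ _ (ρ n) ih) n

variable [LinearOrder R]

instance Tw.lat (n : ℕ) : Lattice (Tw P ρ n) :=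
  Nat.rec (motive := fun n => Lattice (Tw P ρ n)) (inferInstanceAs (Lattice Unit))
    (fun n ih => @Wr.latI R (ZMod (P.p n)) (Tw P ρ n) _ _ (ρ n) _ ih) n

variable [IsOrderedAddMonoid R]

theorem Tw.mono (n : ℕ) : MulLeftMono (Tw P ρ n) ∧ MulRightMono (Tw P ρ n) := by
  induction n with
  | zero =>
    exact ⟨⟨fun _ _ _ _ => le_of_eq (Subsingleton.elim (α := Unit) _ _)⟩,
      ⟨fun _ _ _ _ => le_of_eq (Subsingleton.elim (α := Unit) _ _)⟩⟩
  | succ n ih =>
    obtain ⟨h1, h2⟩ := ih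
    exact ⟨inferInstanceAs (MulLeftMono (Wr (ρ n) (Tw P ρ n))),
      inferInstanceAs (MulRightMono (Wr (ρ n) (Tw P ρ n)))⟩

instance Tw.ml (n : ℕ) : MulLeftMono (Tw P ρ n) := (Tw.mono P ρ n).1
instance Tw.mr (n : ℕ) : MulRightMono (Tw P ρ n) := (Tw.mono P ρ n).2

/-- the root label -/
def lab : ∀ n, Tw P ρ n → R
  | 0, _ => 0
  | _ + 1, t => t.q

theorem Tw.isLab : ∀ n, IsLab (lab P ρ n)
  | 0 => ⟨fun _ _ => (add_zero 0).symm, fun _ _ => (max_self 0).symm,
      fun _ _ h => absurd h (lt_irrefl _)⟩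
  | _ + 1 => ⟨fun _ _ => rfl, fun a b => Wr.sup_q a b, fun _ _ h => Or.inl h⟩

/-- the symmetry -/
def sg : ∀ n, Tw P ρ n → Tw P ρ n
  | 0, t => t
  | n + 1, t => (⟨- t.q, fun i => sg n (t.f (-i))⟩ : Wr (ρ n) (Tw P ρ n))

theorem sg_succ_q (n : ℕ) (t : Tw P ρ (n + 1)) : (sg P ρ (n + 1) t).q = - t.q := rfl
theorem sg_succ_f (n : ℕ) (t : Tw P ρ (n + 1)) (i : ZMod (P.p n)) :
    (sg P ρ (n + 1) t).f i = sg P ρ n (t.f (-i)) := rfl

theorem sg_mul : ∀ n (a b : Tw P ρ n), sg P ρ n (a * b) = sg P ρ n a * sg P ρ n b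
  | 0, _, _ => rfl
  | n + 1, a, b => by
    apply Wr.ext
    · change -(a.q + b.q) = -a.q + -b.q
      rw [neg_add]
    · funext i
      change sg P ρ n (a.f (-i + ρ n b.q) * b.f (-i)) =
        sg P ρ n (a.f (-(i + ρ n (-b.q)))) * sg P ρ n (b.f (-i))
      rw [sg_mul n]
      congr 3
      rw [map_neg]; ring

theorem sg_sg : ∀ n (a : Tw P ρ n), sg P ρ n (sg P ρ n a) = a
  | 0, _ => rfl
  | n + 1, a => by
    apply Wr.ext
    · change - - a.q = a.q
      rw [neg_neg]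
    · funext i
      change sg P ρ n (sg P ρ n (a.f (- -i))) = a.f i
      rw [sg_sg n, neg_neg]

theorem sg_anti : ∀ n (a b : Tw P ρ n), a ≤ b → sg P ρ n b ≤ sg P ρ n a
  | 0, _, _, _ => le_of_eq (Subsingleton.elim (α := Unit) _ _)
  | n + 1, a, b, h => by
    rcases h with h | ⟨h, h'⟩
    · exact Or.inl (neg_lt_neg h)
    · refine Or.inr ⟨?_, fun i => sg_anti n _ _ (h' (-i))⟩
      change - b.q = - a.q
      rw [h]

theorem sg_sup (n : ℕ) (a b : Tw P ρ n) : sg P ρ n (a ⊔ b) = sg P ρ n a ⊓ sg P ρ n b := by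
  apply le_antisymm
  · exact le_inf (sg_anti P ρ n _ _ le_sup_left) (sg_anti P ρ n _ _ le_sup_right)
  · have h1 : a ⊔ b ≤ sg P ρ n (sg P ρ n a ⊓ sg P ρ n b) := by
      apply sup_le
      · have := sg_anti P ρ n _ _ (inf_le_left : sg P ρ n a ⊓ sg P ρ n b ≤ sg P ρ n a)
        rwa [sg_sg] at this
      · have := sg_anti P ρ n _ _ (inf_le_right : sg P ρ n a ⊓ sg P ρ n b ≤ sg P ρ n b)
        rwa [sg_sg] at this
    have := sg_anti P ρ n _ _ h1
    rwa [sg_sg] at this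

theorem sg_inf (n : ℕ) (a b : Tw P ρ n) : sg P ρ n (a ⊓ b) = sg P ρ n a ⊔ sg P ρ n b := by
  have h := sg_sup P ρ n (sg P ρ n a) (sg P ρ n b)
  rw [sg_sg, sg_sg] at h
  rw [← h, sg_sg]

/-- the elements with zero labels above level `m` -/
def Lk : ∀ (_ : ℕ) (n : ℕ), Subgroup (Tw P ρ n)
  | _, 0 => ⊤
  | 0, _ + 1 => ⊤
  | m + 1, n + 1 =>
    { carrier := {t | t.q = 0 ∧ ∀ i, t.f i ∈ Lk m n}
      mul_mem' := by
        rintro a b ⟨ha, ha'⟩ ⟨hb, hb'⟩
        refine ⟨?_, fun i => (Lk m n).mul_mem (ha' _) (hb' _)⟩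
        change a.q + b.q = 0
        rw [ha, hb, add_zero]
      one_mem' := ⟨rfl, fun _ => (Lk m n).one_mem⟩
      inv_mem' := by
        rintro a ⟨ha, ha'⟩
        refine ⟨?_, fun i => (Lk m n).inv_mem (ha' _)⟩
        change - a.q = 0
        rw [ha, neg_zero] }

theorem Lk_self : ∀ n, Lk P ρ n n = ⊥
  | 0 => by
    rw [eq_bot_iff]
    intro x _
    exact Subsingleton.elim (α := Unit) x _
  | n + 1 => by
    rw [eq_bot_iff]
    rintro x ⟨hx, hx'⟩
    rw [Subgroup.mem_bot]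
    apply Wr.ext
    · exact hx
    · funext i
      have := hx' i
      rw [Lk_self n, Subgroup.mem_bot] at this
      exact this

theorem f_le_of {n : ℕ} {a b : Tw P ρ (n + 1)} (ha : a.q = 0) (hb : b.q = 0) (h : a ≤ b)
    (i : ZMod (P.p n)) : a.f i ≤ b.f i := by
  rcases h with h | ⟨_, h⟩
  · rw [ha, hb] at h; exact absurd h (lt_irrefl _)
  · exact h i

theorem ab_q {n : ℕ} (a : Tw P ρ (n + 1)) : (ab a).q = |a.q| := (Tw.isLab P ρ (n + 1)).ab a

theorem ab_f {n : ℕ} {a : Tw P ρ (n + 1)} (ha : a.q = 0) (i : ZMod (P.p n)) :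
    (ab a).f i = ab (a.f i) := by
  have h1 : (a⁻¹).q = 0 := by change - a.q = 0; rw [ha, neg_zero]
  have h2 : (a⁻¹).f i = (a.f i)⁻¹ := by
    change (a.f (i - ρ n a.q))⁻¹ = _
    rw [ha, map_zero, sub_zero]
  have h3 : (a ⊔ a⁻¹).f i = a.f i ⊔ (a⁻¹).f i := sup_f ha h1 i
  change (a ⊔ a⁻¹).f i = a.f i ⊔ (a.f i)⁻¹
  rw [h3, h2]

/-- components of elements without root label form a homomorphism -/
theorem mul_f0 {n : ℕ} {a b : Tw P ρ (n + 1)} (hb : b.q = 0) (i : ZMod (P.p n)) :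
    (a * b).f i = a.f i * b.f i := by
  change a.f (i + ρ n b.q) * b.f i = _
  rw [hb, map_zero, add_zero]

theorem comp_ab {n : ℕ} {a b : Tw P ρ (n + 1)} (ha : a.q = 0) (hb : b.q = 0) (i : ZMod (P.p n))
    (h : ab a ≤ ab b) : ab (a.f i) ≤ ab (b.f i) := by
  rw [← ab_f P ρ ha, ← ab_f P ρ hb]
  apply f_le_of P ρ _ _ h
  · rw [ab_q, ha, abs_zero]
  · rw [ab_q, hb, abs_zero]

/-- the derived ideal has no root labels -/
theorem dd_q {n : ℕ} (S : Subgroup (Tw P ρ (n + 1))) : ∀ x ∈ dd S, x.q = 0 := by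
  let K : Subgroup (Tw P ρ (n + 1)) :=
    { carrier := {t | t ∈ S ∧ t.q = 0}
      mul_mem' := by
        rintro a b ⟨ha, ha'⟩ ⟨hb, hb'⟩
        refine ⟨S.mul_mem ha hb, ?_⟩
        change a.q + b.q = 0
        rw [ha', hb', add_zero]
      one_mem' := ⟨S.one_mem, rfl⟩
      inv_mem' := by
        rintro a ⟨ha, ha'⟩
        refine ⟨S.inv_mem ha, ?_⟩
        change - a.q = 0
        rw [ha', neg_zero] }
  have h1 : IdealIn S K := by
    refine ⟨fun a ha => ha.1, ?_, ?_⟩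
    · rintro s hs c ⟨hc, hc'⟩
      refine ⟨S.mul_mem (S.mul_mem hs hc) (S.inv_mem hs), ?_⟩
      have := Wr.conj_q (ρ := ρ n) s c
      exact this.trans hc'
    · rintro c ⟨hc, hc'⟩ x hx h
      refine ⟨hx, ?_⟩
      have h2 := (Tw.isLab P ρ (n + 1)).mono h
      change (ab x).q ≤ (ab c).q at h2
      rw [ab_q, ab_q, hc', abs_zero] at h2
      exact abs_eq_zero.mp (le_antisymm h2 (abs_nonneg _))
  have h2 : ∀ a ∈ S, ∀ b ∈ S, a * b * a⁻¹ * b⁻¹ ∈ K := by
    intro a ha b hb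
    refine ⟨comm_mem_self S a ha b hb, ?_⟩
    change a.q + b.q + - a.q + - b.q = 0
    abel
  exact fun x hx => (dd_le_of h1 h2 hx).2

theorem dd_Lk : ∀ n m, dd (Lk P ρ m n) ≤ Lk P ρ (m + 1) n
  | 0, _ => by
    intro x _
    change x ∈ (⊤ : Subgroup (Tw P ρ 0))
    trivial
  | n + 1, 0 => by
    intro x hx
    refine ⟨dd_q P ρ _ x hx, fun i => ?_⟩
    cases n with
    | zero => change _ ∈ (⊤ : Subgroup (Tw P ρ 0)); trivial
    | succ n => change _ ∈ (⊤ : Subgroup (Tw P ρ (n + 1))); trivial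
  | n + 1, m + 1 => by
    intro x hx
    refine ⟨dd_q P ρ _ x hx, fun i => ?_⟩
    apply dd_Lk n m
    refine dd_map (τ := fun t : Tw P ρ (n + 1) => t.f i) (F := Lk P ρ m n) ?_ ?_ ?_ x hx
    · intro a ha
      exact ha.2 i
    · intro a ha b hb
      exact mul_f0 P ρ hb.1 i
    · intro a ha b hb h
      exact comp_ab P ρ ha.1 hb.1 i h

theorem dd_iter_Lk (n m k : ℕ) : dd^[k] (Lk P ρ m n) ≤ Lk P ρ (m + k) n := by
  induction k with
  | zero => exact le_rfl
  | succ k ih =>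
    rw [Function.iterate_succ_apply']
    exact (dd_mono ih).trans (dd_Lk P ρ n (m + k))

end T

section fin

variable (P : PS)

/-- the finite quotients -/
def Gf : ℕ → Type
  | 0 => Unit
  | n + 1 => Wr (AddMonoidHom.id (ZMod (P.p n))) (Gf n)

instance Gf.grp (n : ℕ) : Group (Gf P n) :=
  Nat.rec (motive := fun n => Group (Gf P n)) (inferInstanceAs (Group Unit))
    (fun n ih => @Wr.grpI (ZMod (P.p n)) (ZMod (P.p n)) (Gf P n) _ _
      (AddMonoidHom.id (ZMod (P.p n))) ih) n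

/-- a wreath product as a set of pairs -/
def wrEquiv {B J : Type} [AddCommGroup B] [AddCommGroup J] (ρ : B →+ J) (G : Type) :
    Wr ρ G ≃ B × (J → G) where
  toFun x := (x.q, x.f)
  invFun x := ⟨x.1, x.2⟩
  left_inv _ := rfl
  right_inv _ := rfl

instance Gf.fin (n : ℕ) : Finite (Gf P n) := by
  induction n with
  | zero => exact inferInstanceAs (Finite Unit)
  | succ n ih =>
    exact Finite.of_equiv _ (wrEquiv (AddMonoidHom.id (ZMod (P.p n))) (Gf P n)).symm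

theorem Gf.card_succ (n : ℕ) : Nat.card (Gf P (n + 1)) = P.p n * Nat.card (Gf P n) ^ P.p n := by
  have h1 : Nat.card (Gf P (n + 1)) = Nat.card (ZMod (P.p n) × (ZMod (P.p n) → Gf P n)) :=
    Nat.card_congr (wrEquiv (AddMonoidHom.id (ZMod (P.p n))) (Gf P n))
  rw [h1, Nat.card_prod, Nat.card_fun, Nat.card_zmod]

theorem Gf.not_dvd : ∀ n m, n ≤ m → ¬ P.p m ∣ Nat.card (Gf P n)
  | 0, m, _ => by
    have : Nat.card (Gf P 0) = 1 := Nat.card_unique (α := Unit)
    rw [this]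
    exact (P.prime m).one_lt.ne' ∘ Nat.dvd_one.mp
  | n + 1, m, h => by
    intro hd
    rw [Gf.card_succ] at hd
    rcases (P.prime m).dvd_mul.mp hd with h1 | h1
    · have h2 := (Nat.prime_dvd_prime_iff_eq (P.prime m) (P.prime n)).mp h1
      have := P.inj h2
      omega
    · exact Gf.not_dvd n m (by omega) ((P.prime m).dvd_of_dvd_pow h1)

variable {R : Type} [AddCommGroup R] (ρ : ∀ n, R →+ ZMod (P.p n))

/-- the map to the finite quotient -/
def pif : ∀ n, Tw P ρ n → Gf P n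
  | 0, _ => ()
  | n + 1, t => (⟨ρ n t.q, fun i => pif n (t.f i)⟩ : Wr (AddMonoidHom.id (ZMod (P.p n))) (Gf P n))

theorem pif_mul : ∀ n (a b : Tw P ρ n), pif P ρ n (a * b) = pif P ρ n a * pif P ρ n b
  | 0, _, _ => rfl
  | n + 1, a, b => by
    apply Wr.ext
    · exact map_add (ρ n) a.q b.q
    · funext i
      exact pif_mul n _ _

/-- the map to the finite quotient as a homomorphism -/
def pifHom (n : ℕ) : Tw P ρ n →* Gf P n := MonoidHom.mk' (pif P ρ n) (pif_mul P ρ n)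

theorem pif_comm : ∀ n (a b : Tw P ρ n), pif P ρ n a = 1 → pif P ρ n b = 1 → a * b = b * a
  | 0, _, _, _, _ => rfl
  | n + 1, a, b, ha, hb => by
    have ha1 : ρ n a.q = 0 := congrArg Wr.q ha
    have hb1 : ρ n b.q = 0 := congrArg Wr.q hb
    have ha2 : ∀ i, pif P ρ n (a.f i) = 1 := fun i => congrFun (congrArg Wr.f ha) i
    have hb2 : ∀ i, pif P ρ n (b.f i) = 1 := fun i => congrFun (congrArg Wr.f hb) i
    apply Wr.ext
    · exact add_comm a.q b.q
    · funext i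
      change a.f (i + ρ n b.q) * b.f i = b.f (i + ρ n a.q) * a.f i
      rw [ha1, hb1, add_zero]
      exact pif_comm n _ _ (ha2 i) (hb2 i)

theorem pif_sg : ∀ n (a : Tw P ρ n), pif P ρ n a = 1 → pif P ρ n (sg P ρ n a) = 1
  | 0, _, _ => rfl
  | n + 1, a, ha => by
    have ha1 : ρ n a.q = 0 := congrArg Wr.q ha
    have ha2 : ∀ i, pif P ρ n (a.f i) = 1 := fun i => congrFun (congrArg Wr.f ha) i
    apply Wr.ext
    · change ρ n (- a.q) = 0
      rw [map_neg, ha1, neg_zero]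
    · funext i
      exact pif_sg n _ (ha2 _)

end fin

end Pool.Agent.Helper29
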