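import Pool.Agent.Helper29.CovGen
import Pool.Agent.Helper29.CovT

/-!
Sub-ℓ-groups of iterated periodic wreath products over `R` of full depth contain the
corresponding wreath product over `ℤ`.
-/

set_option autoImplicit false
set_option linter.unusedSectionVars false

namespace Pool.Agent.Helper29

section step

variable {G H R : Type} [Group G] [Lattice G] [MulLeftMono G] [MulRightMono G]
  [Group H] [Lattice H] [MulLeftMono H] [MulRightMono H]
  [AddCommGroup R] [LinearOrder R] [IsOrderedAddMonoid R] {lab : G → R}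
  {p : ℕ} [Fact p.Prime] {ρ : R →+ ZMod p}

theorem single_mul_mul_f (u : G) (y : Wr ρ G) (i : ZMod p) :
    (Wr.single 0 u * y * Wr.single 0 u : Wr ρ G).f i =
      (Wr.single 0 u : Wr ρ G).f (i + ρ y.q) * y.f i * (Wr.single 0 u : Wr ρ G).f i := by
  simp [Wr.mul_f]

theorem pow_f_succ (x : Wr ρ G) (k : ℕ) :
    (x ^ (k + 1)).f 0 = x.f (k * ρ x.q) * (x ^ k).f 0 := by
  rw [pow_succ', Wr.mul_f, Wr.pow_q, map_nsmul, zero_add, nsmul_eq_mul]

/-- the return map of the corrected element -/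
theorem return_map (u : G) (y : Wr ρ G) (hy : ρ y.q ≠ 0) :
    ((Wr.single 0 u * y * Wr.single 0 u : Wr ρ G) ^ p).f 0 = u * (y ^ p).f 0 * u := by
  have hp2 : 2 ≤ p := (Fact.out (p := p.Prime)).two_le
  set x : Wr ρ G := Wr.single 0 u * y * Wr.single 0 u with hx
  have hxq : x.q = y.q := by simp [hx]
  have hne : ∀ k : ℕ, 0 < k → k < p → (k : ZMod p) * ρ y.q ≠ 0 := by
    intro k hk hkp h
    rcases mul_eq_zero.mp h with h1 | h1
    · rw [ZMod.natCast_eq_zero_iff] at h1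
      exact absurd (Nat.le_of_dvd hk h1) (by omega)
    · exact hy h1
  have hstep : ∀ k : ℕ, 0 < k → k < p → (x ^ k).f 0 = (y ^ k).f 0 * u := by
    intro k
    induction k with
    | zero => intro h; exact absurd h (lt_irrefl _)
    | succ k ih =>
      intro _ hkp
      rw [pow_f_succ, pow_f_succ, hxq]
      by_cases hk : k = 0
      · subst hk
        rw [pow_zero, pow_zero, Wr.one_f, Nat.cast_zero, zero_mul, hx, single_mul_mul_f,
          Wr.single_f_self, zero_add, Wr.single_f_ne hy]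
        simp
      · rw [ih (by omega) (by omega)]
        have h1 : x.f (k * ρ y.q) = y.f (k * ρ y.q) := by
          rw [hx, single_mul_mul_f, Wr.single_f_ne (hne k (by omega) (by omega)),
            Wr.single_f_ne, one_mul, mul_one]
          have := hne (k + 1) (by omega) hkp
          intro h
          apply this
          push_cast
          rw [← h]; ring
        rw [h1, mul_assoc]
  obtain ⟨k, rfl⟩ : ∃ k, p = k + 1 := ⟨p - 1, by omega⟩
  rw [pow_f_succ, hxq, hstep k (by omega) (by omega), pow_f_succ]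
  have h2 : x.f (k * ρ y.q) = u * y.f (k * ρ y.q) := by
    rw [hx, single_mul_mul_f, Wr.single_f_ne (hne k (by omega) (by omega)), mul_one]
    congr 1
    have h3 : (k : ZMod (k + 1)) * ρ y.q + ρ y.q = 0 := by
      have h4 : ((k + 1 : ℕ) : ZMod (k + 1)) = 0 := ZMod.natCast_self _
      calc (k : ZMod (k + 1)) * ρ y.q + ρ y.q = ((k + 1 : ℕ) : ZMod (k + 1)) * ρ y.q := by
            push_cast; ring
        _ = 0 := by rw [h4, zero_mul]
    rw [h3, Wr.single_f_self]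
  rw [h2]; group

theorem pow_f_of_zero {z : Wr ρ G} (hz : ρ z.q = 0) (M : ℕ) : (z ^ M).f 0 = (z.f 0) ^ M := by
  induction M with
  | zero => simp
  | succ M ih => rw [pow_f_succ, hz, mul_zero, ih, pow_succ']

theorem swr_inv {s : G → G} (hs : ∀ a b, s (a * b) = s a * s b) (a : Wr ρ G) :
    swr s a⁻¹ = (swr s a)⁻¹ := map_inv (MonoidHom.mk' (swr s) (swr_mul (ρ := ρ) hs)) a

theorem swr_pow {s : G → G} (hs : ∀ a b, s (a * b) = s a * s b) (a : Wr ρ G) (n : ℕ) :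
    swr s (a ^ n) = (swr s a) ^ n := map_pow (MonoidHom.mk' (swr s) (swr_mul (ρ := ρ) hs)) a n

theorem swr_single {s : G → G} (hs : ∀ a b, s (a * b) = s a * s b) (t : G) :
    swr s (Wr.single 0 t : Wr ρ G) = Wr.single 0 (s t) := by
  have hs1 : s 1 = 1 := by
    have := hs 1 1
    rw [mul_one] at this
    exact mul_eq_left.mp this.symm
  apply Wr.ext
  · change -(0 : R) = 0
    rw [neg_zero]
  · funext i
    change s ((Wr.single 0 t : Wr ρ G).f (-i)) = _
    by_cases hi : i = 0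
    · subst hi; rw [neg_zero, Wr.single_f_self, Wr.single_f_self]
    · rw [Wr.single_f_ne hi, Wr.single_f_ne (neg_ne_zero.mpr hi), hs1]

/-- The induction step. -/
theorem step (hl : IsLab lab) (hp2 : p ≠ 2) {Q : Type} [Group Q] [Finite Q] (π : G →* Q)
    (hπ : ∀ a b, π a = 1 → π b = 1 → a * b = b * a) (hcard : ¬ p ∣ Nat.card Q)
    (s : G → G) (hs : ∀ a b, s (a * b) = s a * s b) (hss : ∀ a, s (s a) = a)
    (hπs : ∀ a, π a = 1 → π (s a) = 1) (s' : H → H) (b : Bool)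
    {S I : Subgroup (Wr ρ G)} (hSL : SL S) (hsS : b = true → ∀ a ∈ S, swr s a ∈ S)
    (hsab : ∀ a b : Wr ρ G, ab a ≤ ab b → ab (swr s a) ≤ ab (swr s b))
    (hI : IdealIn S I) (k : ℕ) (hdeep : ¬ (dd^[k + 1] S ≤ I))
    (hlab2 : ¬ (∀ x ∈ dd S, x.q = 0 ∧ ∀ i, lab (x.f i) = 0))
    (IH : ∀ S0 I0 : Subgroup G, SL S0 → (b = true → ∀ a ∈ S0, s a ∈ S0) → IdealIn S0 I0 →
      ¬ (dd^[k] S0 ≤ I0) → ∃ Φ' : H → G, (∀ a b, Φ' (a * b) = Φ' a * Φ' b) ∧
        (∀ a b, Φ' (a ⊔ b) = Φ' a ⊔ Φ' b) ∧ (∀ t, Φ' t ∈ S0) ∧ (∀ t, Φ' t ∈ I0 → t = 1) ∧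
        (b = true → ∀ t, Φ' (s' t) = s (Φ' t)))
    (hnt : ∃ t : H, t ≠ 1) :
    ∃ Φ : Wr (Int.castAddHom (ZMod p)) H → Wr ρ G, (∀ a b, Φ (a * b) = Φ a * Φ b) ∧
      (∀ a b, Φ (a ⊔ b) = Φ a ⊔ Φ b) ∧ (∀ t, Φ t ∈ S) ∧ (∀ t, Φ t ∈ I → t = 1) ∧
      (b = true → ∀ t, Φ (swr s' t) = swr s (Φ t)) := by
  classical
  -- commutators with nonzero labels
  obtain ⟨a0, ha0, b0, hb0, hne⟩ : ∃ a0 ∈ S, ∃ b0 ∈ S,
      ∃ i, lab ((a0 * b0 * a0⁻¹ * b0⁻¹).f i) ≠ 0 := by
    by_contra hcon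
    push Not at hcon
    exact hlab2 (wr_dd_lab2 hl hcon)
  -- an element moving the components
  obtain ⟨x0, hx0, hx0q⟩ : ∃ x ∈ S, ρ x.q ≠ 0 := by
    by_contra hcon
    push Not at hcon
    obtain ⟨i, hi⟩ := hne
    apply hi
    have h1 := hcon a0 ha0
    have h2 := hcon b0 hb0
    have e : (a0 * b0 * a0⁻¹ * b0⁻¹).f i = a0.f i * b0.f i * (a0.f i)⁻¹ * (b0.f i)⁻¹ := by
      rw [Wr.mul_f, Wr.mul_f, Wr.mul_f, Wr.inv_f, Wr.inv_f, Wr.inv_q, Wr.inv_q, map_neg, map_neg,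
        h1, h2]
      simp
    rw [e, hl.mul, hl.mul, hl.mul, hl.inv, hl.inv]; abel
  obtain ⟨x1, hx1, hx1q, hx1pos⟩ : ∃ x ∈ S, ρ x.q ≠ 0 ∧ 0 < x.q := by
    rcases lt_trichotomy x0.q 0 with h | h | h
    · refine ⟨x0⁻¹, S.inv_mem hx0, ?_, ?_⟩
      · rw [Wr.inv_q, map_neg]; exact neg_ne_zero.mpr hx0q
      · rw [Wr.inv_q]; exact neg_pos.mpr h
    · exfalso; apply hx0q; rw [h, map_zero]
    · exact ⟨x0, hx0, hx0q, h⟩
  -- symmetrised
  have h2ne : (2 : ZMod p) ≠ 0 := by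
    intro h
    have h3 : ((2 : ℕ) : ZMod p) = 0 := by exact_mod_cast h
    rw [ZMod.natCast_eq_zero_iff] at h3
    exact hp2 ((Nat.prime_dvd_prime_iff_eq Fact.out Nat.prime_two).mp h3)
  have hswrinv : ∀ a : Wr ρ G, swr s a⁻¹ = (swr s a)⁻¹ := swr_inv hs
  have hswr2 : ∀ a : Wr ρ G, swr s (swr s a) = a := by
    intro a
    apply Wr.ext
    · change - - a.q = a.q
      rw [neg_neg]
    · funext i
      change s (s (a.f (- - i))) = a.f i
      rw [hss, neg_neg]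
  obtain ⟨x2, hx2, hx2q, hx2pos, hx2s⟩ : ∃ x ∈ S, ρ x.q ≠ 0 ∧ 0 < x.q ∧
      (b = true → swr s x = x⁻¹) := by
    cases hb : b
    · exact ⟨x1, hx1, hx1q, hx1pos, fun h => absurd h (by simp)⟩
    · have hq : (x1 * (swr s x1)⁻¹).q = x1.q + x1.q := by
        change x1.q + - - x1.q = _
        rw [neg_neg]
      refine ⟨x1 * (swr s x1)⁻¹, S.mul_mem hx1 (S.inv_mem (hsS hb _ hx1)), ?_, ?_, fun _ => ?_⟩
      · rw [hq, map_add, ← two_mul]
        exact mul_ne_zero h2ne hx1q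
      · rw [hq]; exact add_pos hx1pos hx1pos
      · rw [swr_mul hs, hswrinv, hswr2, mul_inv_rev, inv_inv]
  -- the lower part
  have hsingle := fun (a : Wr ρ G) (ha : a ∈ S) (b : Wr ρ G) (hb : b ∈ S) (ν : ZMod p) =>
    wr_comm_single hl hSL hx2 hx2q ha0 hb0 hne ha hb ν
  have hddq := wr_dd_single hSL hsingle
  let C := dd S
  have hCS : C ≤ S := dd_le S
  have hCI : IdealIn S C := dd_ideal S
  have hCSL : SL C := hCI.sl hSL
  let C0 : Subgroup G :=
    { carrier := {t | (Wr.single 0 t : Wr ρ G) ∈ C}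
      mul_mem' := by
        intro a b ha hb
        change (Wr.single 0 (a * b) : Wr ρ G) ∈ C
        rw [Wr.single_mul]; exact C.mul_mem ha hb
      one_mem' := by
        change (Wr.single 0 1 : Wr ρ G) ∈ C
        rw [Wr.single_one]; exact C.one_mem
      inv_mem' := by
        intro a ha
        change (Wr.single 0 a⁻¹ : Wr ρ G) ∈ C
        rw [Wr.single_inv]; exact C.inv_mem ha }
  let I0 : Subgroup G :=
    { carrier := {t | (Wr.single 0 t : Wr ρ G) ∈ I ∧ (Wr.single 0 t : Wr ρ G) ∈ C}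
      mul_mem' := by
        rintro a b ⟨ha, ha'⟩ ⟨hb, hb'⟩
        change (Wr.single 0 (a * b) : Wr ρ G) ∈ I ∧ (Wr.single 0 (a * b) : Wr ρ G) ∈ C
        rw [Wr.single_mul]; exact ⟨I.mul_mem ha hb, C.mul_mem ha' hb'⟩
      one_mem' := by
        change (Wr.single 0 1 : Wr ρ G) ∈ I ∧ (Wr.single 0 1 : Wr ρ G) ∈ C
        rw [Wr.single_one]; exact ⟨I.one_mem, C.one_mem⟩
      inv_mem' := by
        rintro a ⟨ha, ha'⟩
        change (Wr.single 0 a⁻¹ : Wr ρ G) ∈ I ∧ (Wr.single 0 a⁻¹ : Wr ρ G) ∈ C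
        rw [Wr.single_inv]; exact ⟨I.inv_mem ha, C.inv_mem ha'⟩ }
  have hC0SL : SL C0 := by
    intro a ha b hb
    change (Wr.single 0 (a ⊔ b) : Wr ρ G) ∈ C
    rw [wr_single_sup]; exact hCSL _ ha _ hb
  have hI0 : IdealIn C0 I0 := by
    refine ⟨fun a ha => ha.2, ?_, ?_⟩
    · rintro t ht c ⟨hc, hc'⟩
      change (Wr.single 0 (t * c * t⁻¹) : Wr ρ G) ∈ I ∧ (Wr.single 0 (t * c * t⁻¹) : Wr ρ G) ∈ C
      rw [Wr.single_mul, Wr.single_mul, Wr.single_inv]
      exact ⟨hI.conj _ (hCS ht) _ hc, hCI.conj _ (hCS ht) _ hc'⟩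
    · rintro c ⟨hc, hc'⟩ t ht h
      refine ⟨hI.solid _ hc _ (hCS ht) ?_, ht⟩
      rw [wr_ab_single, wr_ab_single]
      exact wr_single_le h
  have hCs : b = true → ∀ a ∈ C, swr s a ∈ C := by
    intro hb
    exact dd_map (τ := swr s) (hsS hb) (fun a _ b _ => swr_mul hs a b)
      (fun a _ b _ h => hsab a b h)
  have hC0s : b = true → ∀ a ∈ C0, s a ∈ C0 := by
    intro hb a ha
    change (Wr.single 0 (s a) : Wr ρ G) ∈ C
    rw [← swr_single hs]
    exact hCs hb _ ha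
  have hdeep0 : ¬ (dd^[k] C0 ≤ I0) := by
    intro hcon
    apply hdeep
    rw [Function.iterate_succ_apply]
    intro x hx
    have hxC : x ∈ C := dd_iter_le C k hx
    obtain ⟨hxq, hxν⟩ := hddq x hxC
    have hcomp : ∀ z ∈ dd^[k] C, z.f 0 ∈ dd^[k] C0 := by
      refine dd_iter_map (τ := fun t : Wr ρ G => t.f 0) ?_ ?_ ?_ k
      · intro a ha
        exact (hddq a ha).2 0
      · intro a _ b hb
        exact wr_mul_f0 (hddq b hb).1 0
      · intro a ha b hb h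
        exact wr_comp_ab (hddq a ha).1 (hddq b hb).1 0 h
    have hall : ∀ ν, (Wr.single ν (x.f ν) : Wr ρ G) ∈ I := by
      intro ν
      obtain ⟨g, hg, hgq⟩ := exists_rot hx2 hx2q ν 0
      have h1 : g * x * g⁻¹ ∈ dd^[k] C :=
        dd_iter_conj (fun c hc => hCI.conj g hg c hc) k x hx
      have h2 := hcon (hcomp _ h1)
      have h3 := h2.1
      have hν : (0 : ZMod p) - ρ g.q = ν := by rw [← hgq]; ring
      rw [Wr.conj_f g x hxq, hν] at h3
      have h4 := Wr.conj_single g ν (x.f ν)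
      rw [hgq] at h4
      rw [← h4] at h3
      have h5 := hI.conj' hg h3
      have e : g⁻¹ * (g * (Wr.single ν (x.f ν) : Wr ρ G) * g⁻¹) * g = Wr.single ν (x.f ν) := by
        group
      rwa [e] at h5
    rw [wr_eq hxq]
    exact pi_mem x.f hall
  obtain ⟨Φ', h1, h2, h3, h4, h5⟩ := IH C0 I0 hC0SL hC0s hI0 hdeep0
  -- the return map
  set h := (x2 ^ p).f 0 with hh
  have hρp : ρ (x2 ^ p).q = 0 := by
    rw [Wr.pow_q, map_nsmul, nsmul_eq_mul]; simp
  have hnorm : ∀ c ∈ C0, h * c * h⁻¹ ∈ C0 := by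
    intro c hc
    have h6 := hCI.conj _ (S.pow_mem hx2 p) _ hc
    rw [Wr.conj_single, hρp, zero_add] at h6
    exact h6
  obtain ⟨M, u, hM, huC, hcent, hsym⟩ := averaging π hπ (Fact.out (p := p.Prime)) hp2 hcard C0 h
    hnorm
  set y := x2 ^ M with hy
  have hMne : (M : ZMod p) ≠ 0 := by
    intro h0
    rw [ZMod.natCast_eq_zero_iff] at h0
    exact hM h0
  have hM0 : M ≠ 0 := by rintro rfl; exact hM (dvd_zero p)
  have hyq : ρ y.q ≠ 0 := by
    rw [hy, Wr.pow_q, map_nsmul, nsmul_eq_mul]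
    exact mul_ne_zero hMne hx2q
  have hypos : 0 < y.q := by
    rw [hy, Wr.pow_q]
    exact nsmul_pos hx2pos hM0
  have hyp : (y ^ p).f 0 = h ^ M := by
    have e : y ^ p = (x2 ^ p) ^ M := by rw [hy, ← pow_mul, ← pow_mul, mul_comm]
    rw [e, pow_f_of_zero hρp]
  set x : Wr ρ G := Wr.single 0 u * y * Wr.single 0 u with hx
  have hxS : x ∈ S := S.mul_mem (S.mul_mem (hCS huC) (S.pow_mem hx2 M)) (hCS huC)
  have hxq : x.q = y.q := by simp [hx]
  have hxp : (x ^ p).f 0 = u * h ^ M * u := by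
    rw [hx, return_map u y hyq, hyp]
  have hsx : b = true → swr s x = x⁻¹ := by
    intro hb
    have hs1 : s 1 = 1 := by
      have := hs 1 1
      rw [mul_one] at this
      exact mul_eq_left.mp this.symm
    have hsh : s h = h⁻¹ := by
      have e1 : (swr s (x2 ^ p)).f 0 = s ((x2 ^ p).f (-0)) := rfl
      rw [neg_zero, swr_pow hs, hx2s hb, inv_pow, Wr.inv_f, hρp, sub_zero] at e1
      exact e1.symm
    have hsu : s u = u⁻¹ := hsym s hs hss hπs (hC0s hb) hsh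
    have hsy : swr s y = y⁻¹ := by rw [hy, swr_pow hs, hx2s hb, inv_pow]
    rw [hx, swr_mul hs, swr_mul hs, swr_single hs, hsu, hsy, Wr.single_inv]
    group
  obtain ⟨Φ, k1, k2, k3, k4, k5⟩ := build (S := S) (I := I) hI hxS (by rw [hxq]; exact hypos)
    (by rw [hxq]; exact hyq) C0 (fun t ht => hCS ht) (fun t ht => by rw [hxp]; exact hcent t ht)
    Φ' h1 h2 h3 (fun t ht => h4 t ⟨ht, h3 t⟩) hnt
  exact ⟨Φ, k1, k2, k3, k4, fun hb => k5 s s' hs (h5 hb) (hsx hb)⟩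

end step

section main

variable {R : Type} [AddCommGroup R] [LinearOrder R] [IsOrderedAddMonoid R] (P : PS)
  (ρ : ∀ n, R →+ ZMod (P.p n))

theorem zpow_mono'' {K : Type} [Group K] [Lattice K] [MulLeftMono K] [MulRightMono K] {y : K}
    (hy : 1 ≤ y) {j k : ℤ} (h : j ≤ k) : y ^ j ≤ y ^ k := by
  obtain ⟨m, rfl⟩ : ∃ m : ℕ, k = j + m := ⟨(k - j).toNat, by omega⟩
  rw [zpow_add, zpow_natCast]
  exact le_mul_of_one_le_right' (one_le_pow_of_one_le' hy m)

/-- the residue maps of the integers -/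
def ρZ (P : PS) : ∀ n, ℤ →+ ZMod (P.p n) := fun n => Int.castAddHom (ZMod (P.p n))

theorem sg_ab (n : ℕ) (a b : Tw P ρ n) (h : ab a ≤ ab b) :
    ab (sg P ρ n a) ≤ ab (sg P ρ n b) := by
  have h1 : sg P ρ n 1 = 1 := by
    have := sg_mul P ρ n 1 1
    rw [mul_one] at this
    exact mul_eq_left.mp this.symm
  have h2 : ∀ a, sg P ρ n a⁻¹ = (sg P ρ n a)⁻¹ := by
    intro a
    rw [eq_inv_iff_mul_eq_one, ← sg_mul, inv_mul_cancel, h1]
  have h3 : ∀ a, ab (sg P ρ n a) = (sg P ρ n (ab a))⁻¹ := by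
    intro a
    unfold ab
    rw [sg_sup, h2, inv_inf, inv_inv, sup_comm]
  rw [h3, h3]
  exact inv_le_inv_iff.mpr (sg_anti P ρ n _ _ h)

/-- Full depth implies that the integral group embeds. -/
theorem main_embed (b : Bool) : ∀ (n : ℕ) (S I : Subgroup (Tw P ρ (n + 1))), SL S →
    (b = true → ∀ a ∈ S, sg P ρ (n + 1) a ∈ S) → IdealIn S I → ¬ (dd^[n] S ≤ I) →
    ∃ Φ : Tw P (ρZ P) (n + 1) → Tw P ρ (n + 1), (∀ a b, Φ (a * b) = Φ a * Φ b) ∧
      (∀ a b, Φ (a ⊔ b) = Φ a ⊔ Φ b) ∧ (∀ t, Φ t ∈ S) ∧ (∀ t, Φ t ∈ I → t = 1) ∧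
      (b = true → ∀ t, Φ (sg P (ρZ P) (n + 1) t) = sg P ρ (n + 1) (Φ t)) := by
  intro n
  induction n with
  | zero =>
    intro S I hSL hsS hI hdeep
    obtain ⟨x0, hx0, hx0I⟩ := SetLike.not_le_iff_exists.mp hdeep
    have hx0S : x0 ∈ S := hx0
    have hxS : ab x0 ∈ S := hSL.ab hx0S
    have hxI : ab x0 ∉ I := by
      intro h
      exact hx0I (hI.solid _ h _ hx0S (by rw [ab_ab]))
    set x := ab x0 with hx
    have hx1 : 1 ≤ x := one_le_ab x0
    have hxz : ∀ z : ℤ, z ≠ 0 → x ^ z ∉ I := by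
      intro z hz h
      apply hxI
      refine hI.solid _ h _ hxS ?_
      rw [ab_of_one_le hx1]
      rcases lt_or_gt_of_ne hz with h1 | h1
      · refine le_trans ?_ (inv_le_ab _)
        rw [← zpow_neg]
        calc x = x ^ (1 : ℤ) := (zpow_one x).symm
          _ ≤ x ^ (-z) := zpow_mono'' hx1 (by omega)
      · refine le_trans ?_ (le_ab _)
        calc x = x ^ (1 : ℤ) := (zpow_one x).symm
          _ ≤ x ^ z := zpow_mono'' hx1 (by omega)
    have hxs : sg P ρ 1 x = x⁻¹ := by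
      apply Wr.ext
      · rfl
      · funext i
        exact Subsingleton.elim (α := Unit) _ _
    refine ⟨fun t => x ^ t.q, ?_, ?_, fun t => S.zpow_mem hxS _, ?_, ?_⟩
    · intro a b
      exact zpow_add x a.q b.q
    · intro a b
      have e : (a ⊔ b).q = max a.q b.q := Wr.sup_q _ _
      change x ^ (a ⊔ b).q = x ^ a.q ⊔ x ^ b.q
      refine (congrArg (fun z : ℤ => x ^ z) e).trans ?_
      dsimp only
      rcases le_total a.q b.q with h | h
      · rw [max_eq_right h, sup_eq_right.mpr (zpow_mono'' hx1 h)]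
      · rw [max_eq_left h, sup_eq_left.mpr (zpow_mono'' hx1 h)]
    · intro t ht
      have h0 : t.q = 0 := by
        by_contra h0
        exact hxz _ h0 ht
      apply Wr.ext
      · exact h0
      · funext i
        exact Subsingleton.elim (α := Unit) _ _
    · intro _ t
      change x ^ (- t.q) = sg P ρ 1 (x ^ t.q)
      have h1 : sg P ρ 1 (x ^ t.q) = (sg P ρ 1 x) ^ t.q :=
        map_zpow (MonoidHom.mk' (sg P ρ 1) (sg_mul P ρ 1)) x t.q
      rw [h1, hxs, inv_zpow, zpow_neg]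
  | succ n ih =>
    intro S I hSL hsS hI hdeep
    have hnt : ∃ t : Tw P (ρZ P) (n + 1), t ≠ 1 := by
      refine ⟨(⟨1, fun _ => 1⟩ : Wr (ρZ P n) (Tw P (ρZ P) n)), fun h => ?_⟩
      have h1 : (1 : ℤ) = 0 := congrArg Wr.q h
      exact absurd h1 one_ne_zero
    have hlab2 : ¬ (∀ x ∈ dd S, x.q = 0 ∧ ∀ i, lab P ρ (n + 1) (x.f i) = 0) := by
      intro hcon
      apply hdeep
      have h1 : dd S ≤ Lk P ρ 2 (n + 2) := by
        intro x hx
        obtain ⟨h4, h5⟩ := hcon x hx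
        refine ⟨h4, fun i => ⟨h5 i, fun j => ?_⟩⟩
        cases n with
        | zero => change _ ∈ (⊤ : Subgroup (Tw P ρ 0)); trivial
        | succ n => change _ ∈ (⊤ : Subgroup (Tw P ρ (n + 1))); trivial
      rw [Function.iterate_succ_apply]
      refine (dd_iter_mono h1 n).trans ((dd_iter_Lk P ρ (n + 2) 2 n).trans ?_)
      rw [Nat.add_comm 2 n, Lk_self]
      exact bot_le
    exact step (G := Tw P ρ (n + 1)) (H := Tw P (ρZ P) (n + 1)) (ρ := ρ (n + 1))
      (Tw.isLab P ρ (n + 1)) (P.odd (n + 1)) (pifHom P ρ (n + 1)) (pif_comm P ρ (n + 1))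
      (Gf.not_dvd P (n + 1) (n + 1) le_rfl) (sg P ρ (n + 1)) (sg_mul P ρ (n + 1))
      (sg_sg P ρ (n + 1)) (pif_sg P ρ (n + 1)) (sg P (ρZ P) (n + 1)) b (S := S) (I := I) hSL hsS
      (sg_ab P ρ (n + 2)) hI n hdeep hlab2 ih hnt

end main

end Pool.Agent.Helper29
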