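import Pool.Agent.Helper29.MAbel

/-!
Integer valued local homomorphisms of totally ordered abelian sections.
-/

set_option autoImplicit false
set_option linter.unusedSectionVars false

namespace Pool.Agent.Helper29

/-- A finitely generated group of reals has sign-preserving maps to the integers. -/
theorem real_to_int (F : Finset ℝ) : ∃ θ : ℝ → ℤ,
    (∀ a ∈ AddSubgroup.closure (F : Set ℝ), ∀ b ∈ AddSubgroup.closure (F : Set ℝ),
      θ (a + b) = θ a + θ b) ∧ ∀ a ∈ F, (0 ≤ θ a ↔ 0 ≤ a) := by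
  classical
  let H := AddSubgroup.closure (F : Set ℝ)
  have hfg : AddGroup.FG H := (AddGroup.fg_iff_addSubgroup_fg H).mpr ⟨F, rfl⟩
  have hfin : Module.Finite ℤ H := Module.Finite.iff_addGroup_fg.mpr hfg
  let b := Module.Free.chooseBasis ℤ H
  let β : Module.Free.ChooseBasisIndex ℤ H → ℝ := fun i => ((b i : H) : ℝ)
  let θN : ℕ → H → ℤ := fun N h => ∑ i, b.repr h i * ⌊(N : ℝ) * β i⌋
  let Kb : H → ℝ := fun h => ∑ i, |(b.repr h i : ℝ)|
  have hsum : ∀ h : H, (h : ℝ) = ∑ i, (b.repr h i : ℝ) * β i := by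
    intro h
    conv_lhs => rw [← b.sum_repr h]
    rw [AddSubgroup.val_finsetSum]
    apply Finset.sum_congr rfl
    intro i _
    rw [AddSubgroup.coe_zsmul, zsmul_eq_mul]
  have hest : ∀ (N : ℕ) (h : H), |(θN N h : ℝ) - N * (h : ℝ)| ≤ Kb h := by
    intro N h
    have e : (θN N h : ℝ) - N * (h : ℝ) =
        ∑ i, (b.repr h i : ℝ) * ((⌊(N : ℝ) * β i⌋ : ℝ) - N * β i) := by
      rw [hsum h, Finset.mul_sum]
      simp only [θN]
      push_cast
      rw [← Finset.sum_sub_distrib]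
      apply Finset.sum_congr rfl
      intro i _
      ring
    rw [e]
    refine (Finset.abs_sum_le_sum_abs _ _).trans ?_
    apply Finset.sum_le_sum
    intro i _
    rw [abs_mul]
    have h1 : |(⌊(N : ℝ) * β i⌋ : ℝ) - N * β i| ≤ 1 := by
      rw [abs_le]
      constructor
      · have := Int.sub_one_lt_floor ((N : ℝ) * β i)
        linarith
      · have := Int.floor_le ((N : ℝ) * β i)
        linarith
    exact mul_le_of_le_one_right (abs_nonneg _) h1
  have hF : ∀ a ∈ F, a ∈ H := fun a ha => AddSubgroup.subset_closure ha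
  -- a large N
  obtain ⟨N, hN⟩ : ∃ N : ℕ, ∀ a (ha : a ∈ F), a ≠ 0 → Kb ⟨a, hF a ha⟩ < N * |a| := by
    have h1 : ∀ a ∈ F.attach, ∀ᶠ N : ℕ in Filter.atTop,
        a.1 ≠ 0 → Kb ⟨a.1, hF a.1 a.2⟩ < N * |a.1| := by
      intro a _
      by_cases h0 : a.1 = 0
      · exact Filter.Eventually.of_forall (fun _ h => absurd h0 h)
      · have hpos : 0 < |a.1| := abs_pos.mpr h0
        obtain ⟨M, hM⟩ := exists_nat_gt (Kb ⟨a.1, hF a.1 a.2⟩ / |a.1|)
        filter_upwards [Filter.eventually_ge_atTop M] with N hNM _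
        rw [div_lt_iff₀ hpos] at hM
        refine hM.trans_le ?_
        gcongr
    have h2 := (Filter.eventually_all_finset F.attach).mpr h1
    obtain ⟨N, hN⟩ := h2.exists
    exact ⟨N, fun a ha => hN ⟨a, ha⟩ (Finset.mem_attach _ _)⟩
  refine ⟨fun a => if h : a ∈ H then θN N ⟨a, h⟩ else 0, ?_, ?_⟩
  · intro a ha c hc
    have hac : a + c ∈ H := H.add_mem ha hc
    have ha' : a ∈ H := ha
    have hc' : c ∈ H := hc
    simp only [dif_pos hac, dif_pos ha', dif_pos hc']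
    have e : (⟨a + c, hac⟩ : H) = ⟨a, ha'⟩ + ⟨c, hc'⟩ := rfl
    simp only [θN]
    rw [e, map_add, ← Finset.sum_add_distrib]
    apply Finset.sum_congr rfl
    intro i _
    rw [Finsupp.add_apply, add_mul]
  · intro a ha
    have ha' : a ∈ H := hF a ha
    simp only [dif_pos ha']
    by_cases h0 : a = 0
    · subst h0
      have e : (⟨0, ha'⟩ : H) = 0 := rfl
      simp only [θN]
      rw [e, map_zero]
      simp
    · have h1 := hN a ha h0
      have h2 := abs_le.mp (hest N ⟨a, ha'⟩)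
      rcases lt_or_gt_of_ne h0 with h | h
      · rw [abs_of_neg h] at h1
        have h3 : (θN N ⟨a, ha'⟩ : ℝ) < 0 := by
          have := h2.2
          simp only at this
          linarith
        have h4 : θN N ⟨a, ha'⟩ < 0 := by exact_mod_cast h3
        constructor
        · intro h5; omega
        · intro h5; linarith
      · rw [abs_of_pos h] at h1
        have h3 : (0 : ℝ) < θN N ⟨a, ha'⟩ := by
          have := h2.1
          simp only at this
          linarith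
        have h4 : 0 < θN N ⟨a, ha'⟩ := by exact_mod_cast h3
        exact ⟨fun _ => h.le, fun _ => h4.le⟩

section quotient

variable {G : Type} [Group G] [Lattice G] [MulLeftMono G] [MulRightMono G]

theorem leQ_congr {C : Subgroup G} (hC : IsCvx C) {a a' b b' : G} (ha : a⁻¹ * a' ∈ C)
    (hb : b⁻¹ * b' ∈ C) : leQ C a b ↔ leQ C a' b' := by
  constructor
  · intro h
    exact leQ_trans hC (leQ_of_mem' hC ha) (leQ_trans hC h (leQ_of_mem hC hb))
  · intro h
    exact leQ_trans hC (leQ_of_mem hC ha) (leQ_trans hC h (leQ_of_mem' hC hb))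

theorem leQ_refl' {C : Subgroup G} (hC : IsCvx C) (a : G) : leQ C a a :=
  leQ_of_mem hC (by rw [inv_mul_cancel]; exact C.one_mem)

theorem exists_theta {C C' : Subgroup G} (hC : IsPrm C)
    (hcomm : ∀ a ∈ C', ∀ b ∈ C', a * b * a⁻¹ * b⁻¹ ∈ C) (D : Finset G) :
    ∃ θ : G → ℤ, (∀ a ∈ Subgroup.closure {a | a ∈ D ∧ a ∈ C'},
        ∀ b ∈ Subgroup.closure {a | a ∈ D ∧ a ∈ C'}, θ (a * b) = θ a + θ b) ∧
      ∀ c ∈ D, c ∈ C' → (0 ≤ θ c ↔ c⁻¹ ⊔ 1 ∈ C) := by
  classical
  let N : Subgroup C' := C.subgroupOf C'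
  have hN : N.Normal := ⟨by
    intro n hn g
    change g.1 * n.1 * g.1⁻¹ ∈ C
    have hn' : n.1 ∈ C := hn
    have h1 := hcomm g.1 g.2 n.1 n.2
    have e : g.1 * n.1 * g.1⁻¹ = (g.1 * n.1 * g.1⁻¹ * n.1⁻¹) * n.1 := by group
    rw [e]
    exact C.mul_mem h1 hn'⟩
  have hrel : ∀ a b : C', QuotientGroup.leftRel N a b → a.1⁻¹ * b.1 ∈ C := by
    intro a b h
    have := QuotientGroup.leftRel_apply.mp h
    exact this
  let lo : LinearOrder (C' ⧸ N) :=
    { le := fun x y => Quotient.liftOn₂' x y (fun a b => leQ C a.1 b.1)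
        (fun a b a' b' h1 h2 => propext (leQ_congr hC.toIsCvx (hrel _ _ h1) (hrel _ _ h2)))
      le_refl := by
        rintro ⟨a⟩
        exact leQ_refl' hC.toIsCvx a.1
      le_trans := by
        rintro ⟨a⟩ ⟨b⟩ ⟨c⟩ h1 h2
        exact leQ_trans hC.toIsCvx (show leQ C a.1 b.1 from h1) (show leQ C b.1 c.1 from h2)
      le_antisymm := by
        rintro ⟨a⟩ ⟨b⟩ h1 h2
        apply Quotient.sound'
        rw [QuotientGroup.leftRel_apply]
        exact leQ_antisymm hC.toIsCvx (show leQ C a.1 b.1 from h1) (show leQ C b.1 a.1 from h2)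
      le_total := by
        rintro ⟨a⟩ ⟨b⟩
        exact leQ_total hC a.1 b.1
      toDecidableLE := Classical.decRel _ }
  have hcom : ∀ x y : C' ⧸ N, x * y = y * x := by
    rintro ⟨a⟩ ⟨b⟩
    apply QuotientGroup.eq.mpr
    change (a.1 * b.1)⁻¹ * (b.1 * a.1) ∈ C
    have h1 := hcomm b.1⁻¹ (C'.inv_mem b.2) a.1⁻¹ (C'.inv_mem a.2)
    have e : b.1⁻¹ * a.1⁻¹ * b.1⁻¹⁻¹ * a.1⁻¹⁻¹ = (a.1 * b.1)⁻¹ * (b.1 * a.1) := by group
    rwa [e] at h1
  have hml : MulLeftMono (C' ⧸ N) := ⟨by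
    rintro ⟨c⟩ ⟨a⟩ ⟨b⟩ h
    have h' : leQ C a.1 b.1 := h
    change leQ C (c.1 * a.1) (c.1 * b.1)
    exact (leQ_mul_left c.1 a.1 b.1).mpr h'⟩
  have hmr : MulRightMono (C' ⧸ N) := ⟨by
    intro c a b h
    change a * c ≤ b * c
    rw [hcom a c, hcom b c]
    exact mul_le_mul_right h c⟩
  have hbot : IsPrm (⊥ : Subgroup (C' ⧸ N)) := by
    refine ⟨⟨?_, ?_⟩, ?_⟩
    · intro a ha
      rw [Subgroup.mem_bot] at ha ⊢
      rw [ha, sup_idem]
    · intro a ha b h1 h2
      rw [Subgroup.mem_bot] at ha ⊢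
      rw [ha] at h2
      exact le_antisymm h2 h1
    · intro a
      rcases le_total a 1 with h | h
      · left; rw [Subgroup.mem_bot]; exact sup_eq_right.mpr h
      · right; rw [Subgroup.mem_bot]; exact sup_eq_right.mpr (inv_le_one'.mpr h)
  let cl : G → C' ⧸ N := fun g => if h : g ∈ C' then ((⟨g, h⟩ : C') : C' ⧸ N) else 1
  have hcl : ∀ g (h : g ∈ C'), cl g = ((⟨g, h⟩ : C') : C' ⧸ N) := fun g h => dif_pos h
  obtain ⟨f, hf1, hf2⟩ := exists_hom hcom hbot (D.image cl)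
  obtain ⟨θ, hθ1, hθ2⟩ := real_to_int ((D.image cl).image f)
  have hclmul : ∀ a ∈ C', ∀ b ∈ C', cl (a * b) = cl a * cl b := by
    intro a ha b hb
    rw [hcl a ha, hcl b hb, hcl _ (C'.mul_mem ha hb)]; rfl
  have hcl1 : cl 1 = 1 := by rw [hcl 1 C'.one_mem]; rfl
  have hf0 : f 1 = 0 := by
    have := hf1 1 1
    rw [one_mul] at this
    linarith
  have hfinv : ∀ x, f x⁻¹ = - f x := by
    intro x
    have := hf1 x x⁻¹
    rw [mul_inv_cancel, hf0] at this
    linarith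
  have hgen : ∀ a ∈ Subgroup.closure {a | a ∈ D ∧ a ∈ C'},
      a ∈ C' ∧ f (cl a) ∈ AddSubgroup.closure (((D.image cl).image f : Finset ℝ) : Set ℝ) := by
    intro a ha
    induction ha using Subgroup.closure_induction with
    | mem x hx =>
      refine ⟨hx.2, AddSubgroup.subset_closure ?_⟩
      rw [Finset.mem_coe]
      exact Finset.mem_image_of_mem f (Finset.mem_image_of_mem cl hx.1)
    | one => exact ⟨C'.one_mem, by rw [hcl1, hf0]; exact AddSubgroup.zero_mem _⟩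
    | mul x y _ _ h1 h2 =>
      refine ⟨C'.mul_mem h1.1 h2.1, ?_⟩
      rw [hclmul x h1.1 y h2.1, hf1]
      exact AddSubgroup.add_mem _ h1.2 h2.2
    | inv x _ h1 =>
      refine ⟨C'.inv_mem h1.1, ?_⟩
      have e : cl x⁻¹ = (cl x)⁻¹ := by
        rw [eq_inv_iff_mul_eq_one, ← hclmul _ (C'.inv_mem h1.1) _ h1.1, inv_mul_cancel, hcl1]
      rw [e, hfinv]
      exact AddSubgroup.neg_mem _ h1.2
  refine ⟨fun g => θ (f (cl g)), ?_, ?_⟩
  · intro a ha b hb
    obtain ⟨ha1, ha2⟩ := hgen a ha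
    obtain ⟨hb1, hb2⟩ := hgen b hb
    dsimp only
    rw [hclmul a ha1 b hb1, hf1, hθ1 _ ha2 _ hb2]
  · intro c hc hcC
    dsimp only
    rw [hθ2 _ (Finset.mem_image_of_mem f (Finset.mem_image_of_mem cl hc)),
      hf2 _ (Finset.mem_image_of_mem cl hc), Subgroup.mem_bot]
    have h1 : (cl c)⁻¹ ⊔ 1 = 1 ↔ 1 ≤ cl c := by
      rw [sup_eq_right]
      exact inv_le_one'
    rw [h1, hcl c hcC]
    change leQ C 1 c ↔ _
    unfold leQ
    rw [mul_one]

end quotient

end Pool.Agent.Helper29
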