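import Pool.Agent.Helper29.CovPt
import Pool.Agent.Helper29.CovTheta
import Pool.Agent.Helper29.Conj

/-!
Mimicking the action on the cosets of a prime by periodic wreath products, along a tower of
convex subgroups with abelian factors.
-/

set_option autoImplicit false
set_option linter.unusedSectionVars false

namespace Pool.Agent.Helper29

section tower

variable {G : Type} [Group G] [Lattice G] [MulLeftMono G] [MulRightMono G]

theorem zmod_inj {p : ℕ} {z w : ℤ} (h : (z : ZMod p) = w) (hlt : |z - w| < p) : z = w := by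
  have h1 := (ZMod.intCast_eq_intCast_iff_dvd_sub w z p).mp h.symm
  have h2 := Int.eq_zero_of_abs_lt_dvd h1 hlt
  omega

/-- One step of the tower. -/
theorem tower_step {Q C C' : Subgroup G} (hQ : IsPrm Q) (hQC : Q ≤ C) (hC : IsCvx C)
    (hcomm : ∀ a ∈ C', ∀ b ∈ C', a * b * a⁻¹ * b⁻¹ ∈ C) (k : ℕ)
    (IH : ∀ D : Finset G, ∃ N : ℕ, ∀ P : PS, (∀ j, N ≤ P.p j) →
      ∃ (x : G → Pt k) (v : G → Tw P (ρZ P) k),
        (∀ a ∈ D, ∀ b ∈ D, a ∈ C → b ∈ C → (x a ≤ x b ↔ leQ Q a b)) ∧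
        (∀ g ∈ D, ∀ a ∈ D, g ∈ C → a ∈ C → actT P k (v g) (x a) = x (g * a)))
    (D : Finset G) : ∃ N : ℕ, ∀ P : PS, (∀ j, N ≤ P.p j) →
      ∃ (x : G → Pt (k + 1)) (v : G → G → Tw P (ρZ P) (k + 1)),
        (∀ a ∈ D, ∀ b ∈ D, a ∈ C' → b ∈ C' → (x a ≤ x b ↔ leQ Q a b)) ∧
        (∀ g ∈ D, ∀ g' ∈ D, ∀ a ∈ D, g ∈ C' → g' ∈ C' → a ∈ C' → g * g' ∈ C →
          actT P (k + 1) (v g g') (x a) = x (g * a) ∧
          actT P (k + 1) (sg P (ρZ P) (k + 1) (v g g')) (x a) = x (g' * a)) := by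
  classical
  have hCp : IsPrm C := prm_of_le hQ hC hQC
  let D2 : Finset G := D ∪ D.image (fun a => a⁻¹)
  let F : Finset G := D2 ∪ (D2 ×ˢ D2).image (fun q => q.1⁻¹ * q.2)
  obtain ⟨θ, hθ1, hθ2⟩ := exists_theta hCp hcomm F
  have hD2 : ∀ a ∈ D, a ∈ D2 := fun a ha => Finset.mem_union_left _ ha
  have hD2i : ∀ a ∈ D, a⁻¹ ∈ D2 := fun a ha =>
    Finset.mem_union_right _ (Finset.mem_image_of_mem _ ha)
  have hgen : ∀ a ∈ D2, a ∈ C' → a ∈ Subgroup.closure {a | a ∈ F ∧ a ∈ C'} := fun a ha haC =>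
    Subgroup.subset_closure ⟨Finset.mem_union_left _ ha, haC⟩
  have hθone : θ 1 = 0 := by
    have := hθ1 1 (Subgroup.one_mem _) 1 (Subgroup.one_mem _)
    rw [one_mul] at this
    omega
  have hθinv : ∀ a ∈ Subgroup.closure {a | a ∈ F ∧ a ∈ C'}, θ a⁻¹ = - θ a := by
    intro a ha
    have := hθ1 a ha a⁻¹ (Subgroup.inv_mem _ ha)
    rw [mul_inv_cancel, hθone] at this
    omega
  have hS1 : ∀ a ∈ D2, ∀ b ∈ D2, a ∈ C' → b ∈ C' → (θ a ≤ θ b ↔ leQ C a b) := by
    intro a ha b hb haC hbC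
    have h1 : a⁻¹ * b ∈ F := Finset.mem_union_right _ (Finset.mem_image.mpr
      ⟨(a, b), Finset.mem_product.mpr ⟨ha, hb⟩, rfl⟩)
    have h2 := hθ2 _ h1 (C'.mul_mem (C'.inv_mem haC) hbC)
    rw [hθ1 _ (Subgroup.inv_mem _ (hgen a ha haC)) _ (hgen b hb hbC),
      hθinv _ (hgen a ha haC)] at h2
    have e : (a⁻¹ * b)⁻¹ = b⁻¹ * a := by group
    rw [e] at h2
    unfold leQ
    rw [← h2]
    constructor
    · intro h; omega
    · intro h; omega
  have hS2 : ∀ a ∈ D2, ∀ b ∈ D2, a ∈ C' → b ∈ C' → (θ a = θ b ↔ a⁻¹ * b ∈ C) := by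
    intro a ha b hb haC hbC
    constructor
    · intro h
      exact leQ_antisymm hC ((hS1 a ha b hb haC hbC).mp h.le) ((hS1 b hb a ha hbC haC).mp h.ge)
    · intro h
      exact le_antisymm ((hS1 a ha b hb haC hbC).mpr (leQ_of_mem hC h))
        ((hS1 b hb a ha hbC haC).mpr (leQ_of_mem' hC h))
  -- transversal
  let t : G → G := fun a => ((a : G ⧸ C)).out
  have ht : ∀ a, (t a)⁻¹ * a ∈ C := by
    intro a
    rw [← QuotientGroup.eq]
    exact Quotient.out_eq' _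
  have ht' : ∀ a b, a⁻¹ * b ∈ C → t a = t b := by
    intro a b h
    have : (a : G ⧸ C) = (b : G ⧸ C) := QuotientGroup.eq.mpr h
    simp only [t, this]
  let cA : G → G → G := fun g a => (t (g * a))⁻¹ * g * t a
  have hcAC : ∀ g a, cA g a ∈ C := by
    intro g a
    have e : cA g a = ((t (g * a))⁻¹ * (g * a)) * ((t a)⁻¹ * a)⁻¹ := by
      simp only [cA]; group
    rw [e]
    exact C.mul_mem (ht _) (C.inv_mem (ht _))
  have hcAmul : ∀ g a, cA g a * ((t a)⁻¹ * a) = (t (g * a))⁻¹ * (g * a) := by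
    intro g a
    simp only [cA]; group
  have hcAcong : ∀ g a b, a⁻¹ * b ∈ C → cA g a = cA g b := by
    intro g a b h
    have h1 : (g * a)⁻¹ * (g * b) ∈ C := by
      have e : (g * a)⁻¹ * (g * b) = a⁻¹ * b := by group
      rw [e]; exact h
    simp only [cA]
    rw [ht' a b h, ht' _ _ h1]
  let D' : Finset G := D.image (fun a => (t a)⁻¹ * a) ∪
    (D ×ˢ D).image (fun q => cA q.1 q.2)
  obtain ⟨N', hN'⟩ := IH D'
  let B : ℕ := D.sup (fun a => (θ a).natAbs)
  have hB : ∀ a ∈ D, |θ a| ≤ B := by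
    intro a ha
    have h1 : (θ a).natAbs ≤ B := Finset.le_sup (f := fun a => (θ a).natAbs) ha
    rw [Int.abs_eq_natAbs]
    exact_mod_cast h1
  refine ⟨max N' (4 * B + 5), fun P hP => ?_⟩
  obtain ⟨x', v', hx', hv'⟩ := hN' P (fun j => (le_max_left _ _).trans (hP j))
  have hp : 4 * B + 5 ≤ P.p k := (le_max_right _ _).trans (hP k)
  have hp' : (4 * B + 5 : ℤ) ≤ P.p k := by exact_mod_cast hp
  let L : ℤ := B + 1
  have hinj : ∀ z w : ℤ, |z - w| < P.p k → ρZ P k z = ρZ P k w → z = w := by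
    intro z w h1 h2
    exact zmod_inj (p := P.p k) h2 h1
  let x : G → Pt (k + 1) := fun a => mkPt (θ a + L) (x' ((t a)⁻¹ * a))
  let vf : G → G → ZMod (P.p k) → Tw P (ρZ P) k := fun g g' i =>
    if h : ∃ a, a ∈ D ∧ a ∈ C' ∧ ρZ P k (θ a + L) = i then v' (cA g h.choose)
    else if h : ∃ a, a ∈ D ∧ a ∈ C' ∧ ρZ P k (-(θ a + L)) = i then
      sg P (ρZ P) k (v' (cA g' h.choose)) else 1
  let v : G → G → Tw P (ρZ P) (k + 1) := fun g g' =>
    (⟨θ g, vf g g'⟩ : Wr (ρZ P k) (Tw P (ρZ P) k))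
  have hkey1 : ∀ g g' a, a ∈ D → a ∈ C' → vf g g' (ρZ P k (θ a + L)) = v' (cA g a) := by
    intro g g' a ha haC
    have h : ∃ b, b ∈ D ∧ b ∈ C' ∧ ρZ P k (θ b + L) = ρZ P k (θ a + L) := ⟨a, ha, haC, rfl⟩
    have e : vf g g' (ρZ P k (θ a + L)) = v' (cA g h.choose) := dif_pos h
    rw [e]
    obtain ⟨h1, h2, h3⟩ := h.choose_spec
    have b1 := abs_le.mp (hB a ha)
    have b2 := abs_le.mp (hB _ h1)
    have h4 : θ h.choose + L = θ a + L := by
      apply hinj _ _ _ h3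
      rw [abs_lt]
      constructor <;> omega
    have h5 : θ h.choose = θ a := by omega
    rw [hcAcong g _ _ ((hS2 _ (hD2 _ h1) _ (hD2 _ ha) h2 haC).mp h5)]
  have hkey2 : ∀ g g' a, a ∈ D → a ∈ C' →
      vf g g' (ρZ P k (-(θ a + L))) = sg P (ρZ P) k (v' (cA g' a)) := by
    intro g g' a ha haC
    have b1 := abs_le.mp (hB a ha)
    have hno : ¬ ∃ b, b ∈ D ∧ b ∈ C' ∧ ρZ P k (θ b + L) = ρZ P k (-(θ a + L)) := by
      rintro ⟨b, hb, _, h⟩
      have b2 := abs_le.mp (hB b hb)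
      have h4 : θ b + L = -(θ a + L) := by
        apply hinj _ _ _ h
        rw [abs_lt]
        simp only [L]
        constructor <;> omega
      simp only [L] at h4
      omega
    have h : ∃ b, b ∈ D ∧ b ∈ C' ∧ ρZ P k (-(θ b + L)) = ρZ P k (-(θ a + L)) :=
      ⟨a, ha, haC, rfl⟩
    have e : vf g g' (ρZ P k (-(θ a + L))) = sg P (ρZ P) k (v' (cA g' h.choose)) := by
      simp only [vf]
      rw [dif_neg hno, dif_pos h]
    rw [e]
    obtain ⟨h1, h2, h3⟩ := h.choose_spec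
    have b2 := abs_le.mp (hB _ h1)
    have h4 : -(θ h.choose + L) = -(θ a + L) := by
      apply hinj _ _ _ h3
      rw [abs_lt]
      constructor <;> omega
    have h5 : θ h.choose = θ a := by omega
    rw [hcAcong g' _ _ ((hS2 _ (hD2 _ h1) _ (hD2 _ ha) h2 haC).mp h5)]
  have hact : ∀ g ∈ D, ∀ a ∈ D, g ∈ C' → a ∈ C' →
      mkPt (θ g + (θ a + L)) (actT P k (v' (cA g a)) (x' ((t a)⁻¹ * a))) = x (g * a) := by
    intro g hg a ha hgC haC
    have h1 : cA g a ∈ D' := Finset.mem_union_right _ (Finset.mem_image.mpr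
      ⟨(g, a), Finset.mem_product.mpr ⟨hg, ha⟩, rfl⟩)
    have h2 : (t a)⁻¹ * a ∈ D' := Finset.mem_union_left _ (Finset.mem_image_of_mem _ ha)
    rw [hv' _ h1 _ h2 (hcAC g a) (ht a), hcAmul]
    have h3 := hθ1 g (hgen g (hD2 g hg) hgC) a (hgen a (hD2 a ha) haC)
    simp only [x]
    rw [h3]
    congr 1
    ring
  refine ⟨x, v, ?_, ?_⟩
  · intro a ha b hb haC hbC
    have hS1' := hS1 a (hD2 a ha) b (hD2 b hb) haC hbC
    have hS2' := hS2 a (hD2 a ha) b (hD2 b hb) haC hbC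
    simp only [x]
    rw [mkPt_le]
    have h1 : (t a)⁻¹ * a ∈ D' := Finset.mem_union_left _ (Finset.mem_image_of_mem _ ha)
    have h2 : (t b)⁻¹ * b ∈ D' := Finset.mem_union_left _ (Finset.mem_image_of_mem _ hb)
    by_cases hab : a⁻¹ * b ∈ C
    · have e1 : θ a = θ b := hS2'.mpr hab
      have e2 := ht' a b hab
      have h3 := hx' _ h1 _ h2 (ht a) (ht b)
      rw [e2] at h3
      rw [leQ_mul_left] at h3
      rw [← h3, e2]
      constructor
      · rintro (h | ⟨_, h⟩)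
        · omega
        · exact h
      · intro h
        exact Or.inr ⟨by omega, h⟩
    · have hne : θ a ≠ θ b := fun h => hab (hS2'.mp h)
      constructor
      · rintro (h | ⟨h, _⟩)
        · have h4 : leQ C a b := hS1'.mp (by omega)
          by_contra hcon
          have h5 : leQ Q b a := (leQ_total hQ a b).resolve_left hcon
          exact hab (leQ_antisymm hC h4 (leQ_mono hQC h5))
        · omega
      · intro h
        left
        have h4 : θ a ≤ θ b := hS1'.mpr (leQ_mono hQC h)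
        omega
  · intro g hg g' hg' a ha hgC hgC' haC hgg
    have hθg : θ g' = - θ g := by
      have h1 := (hS2 g⁻¹ (hD2i g hg) g' (hD2 g' hg') (C'.inv_mem hgC) hgC').mpr (by
        rw [inv_inv]; exact hgg)
      rw [hθinv g (hgen g (hD2 g hg) hgC)] at h1
      omega
    constructor
    · change mkPt (θ g + (θ a + L)) (actT P k (vf g g' (ρZ P k (θ a + L))) _) = _
      rw [hkey1 g g' a ha haC]
      exact hact g hg a ha hgC haC
    · change mkPt (- θ g + (θ a + L))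
        (actT P k (sg P (ρZ P) k (vf g g' (- ρZ P k (θ a + L)))) _) = _
      rw [← map_neg, hkey2 g g' a ha haC, sg_sg, ← hθg]
      exact hact g' hg' a ha hgC' haC

/-- Mimicking along a tower. -/
theorem tower_mimic {Q : Subgroup G} (hQ : IsPrm Q) (C : ℕ → Subgroup G) (n : ℕ) (h0 : C 0 = Q)
    (hcvx : ∀ k, IsCvx (C k)) (hQC : ∀ k, Q ≤ C k)
    (hcomm : ∀ k < n, ∀ a ∈ C (k + 1), ∀ b ∈ C (k + 1), a * b * a⁻¹ * b⁻¹ ∈ C k) :
    ∀ k ≤ n, ∀ D : Finset G, ∃ N : ℕ, ∀ P : PS, (∀ j, N ≤ P.p j) →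
      ∃ (x : G → Pt k) (v : G → Tw P (ρZ P) k),
        (∀ a ∈ D, ∀ b ∈ D, a ∈ C k → b ∈ C k → (x a ≤ x b ↔ leQ Q a b)) ∧
        (∀ g ∈ D, ∀ a ∈ D, g ∈ C k → a ∈ C k → actT P k (v g) (x a) = x (g * a)) := by
  classical
  intro k
  induction k with
  | zero =>
    intro _ D
    refine ⟨0, fun P _ => ⟨fun _ => (() : Unit), fun _ => 1, ?_, ?_⟩⟩
    · intro a _ b _ ha hb
      constructor
      · intro _
        rw [h0] at ha hb
        exact hQ.sup_one _ (Q.mul_mem (Q.inv_mem hb) ha)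
      · intro _
        exact le_refl _
    · intro g _ a _ _ _
      rfl
  | succ k ih =>
    intro hk D
    obtain ⟨N, hN⟩ := tower_step hQ (hQC k) (hcvx k) (hcomm k (by omega)) k (ih (by omega))
      (D ∪ D.image (fun a => a⁻¹))
    refine ⟨N, fun P hP => ?_⟩
    obtain ⟨x, v, h1, h2⟩ := hN P hP
    refine ⟨x, fun g => v g g⁻¹, ?_, ?_⟩
    · intro a ha b hb
      exact h1 a (Finset.mem_union_left _ ha) b (Finset.mem_union_left _ hb)
    · intro g hg a ha hgC haC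
      refine (h2 g (Finset.mem_union_left _ hg) g⁻¹
        (Finset.mem_union_right _ (Finset.mem_image_of_mem _ hg)) a
        (Finset.mem_union_left _ ha) hgC ((C (k + 1)).inv_mem hgC) haC ?_).1
      rw [mul_inv_cancel]; exact (C k).one_mem

end tower

end Pool.Agent.Helper29
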