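import Mathlib

/-!
Periodic wreath products: groups `Wr ρ G` of pairs `(q, f)` with `q` in an ordered group `B` and
`f` a family of elements of `G` indexed by `J`, where `q` moves the index by `ρ q`.
-/

set_option autoImplicit false
set_option linter.unusedSectionVars false

namespace Pool.Agent.Helper29

/-- The wreath product of `G` and `B` with respect to `ρ : B → J`. -/
@[ext] structure Wr {B J : Type} [AddCommGroup B] [AddCommGroup J] (ρ : B →+ J) (G : Type) where
  /-- the root label -/
  q : B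
  /-- the lower part -/
  f : J → G

namespace Wr

variable {B J G : Type} [AddCommGroup B] [AddCommGroup J] {ρ : B →+ J}

section grp

variable [Group G]

instance : Mul (Wr ρ G) := ⟨fun a b => ⟨a.q + b.q, fun i => a.f (i + ρ b.q) * b.f i⟩⟩
instance : One (Wr ρ G) := ⟨⟨0, fun _ => 1⟩⟩
instance : Inv (Wr ρ G) := ⟨fun a => ⟨-a.q, fun i => (a.f (i - ρ a.q))⁻¹⟩⟩

@[simp] theorem mul_q (a b : Wr ρ G) : (a * b).q = a.q + b.q := rfl
@[simp] theorem mul_f (a b : Wr ρ G) (i : J) : (a * b).f i = a.f (i + ρ b.q) * b.f i := rfl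
@[simp] theorem one_q : (1 : Wr ρ G).q = 0 := rfl
@[simp] theorem one_f (i : J) : (1 : Wr ρ G).f i = 1 := rfl
@[simp] theorem inv_q (a : Wr ρ G) : (a⁻¹).q = - a.q := rfl
@[simp] theorem inv_f (a : Wr ρ G) (i : J) : (a⁻¹).f i = (a.f (i - ρ a.q))⁻¹ := rfl

instance grpI : Group (Wr ρ G) := Group.ofLeftAxioms
  (by
    intro a b c
    ext i
    · simp [add_assoc]
    · simp [mul_assoc, add_comm, add_left_comm])
  (by
    intro a
    ext i
    · simp
    · simp)
  (by
    intro a
    ext i
    · simp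
    · simp)

theorem pow_q (a : Wr ρ G) (n : ℕ) : (a ^ n).q = n • a.q := by
  induction n with
  | zero => simp
  | succ n ih => rw [pow_succ, mul_q, ih, succ_nsmul]

theorem zpow_q (a : Wr ρ G) (n : ℤ) : (a ^ n).q = n • a.q := by
  induction n with
  | zero => simp
  | succ n ih => rw [zpow_add_one, mul_q, ih, add_zsmul, one_zsmul]
  | pred n ih => rw [zpow_sub_one, mul_q, ih, sub_zsmul, one_zsmul, inv_q]

/-- components of conjugates of elements with zero label -/
theorem conj_f (a b : Wr ρ G) (hb : b.q = 0) (i : J) :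
    (a * b * a⁻¹).f i = a.f (i - ρ a.q) * b.f (i - ρ a.q) * (a.f (i - ρ a.q))⁻¹ := by
  simp [hb, sub_eq_add_neg]

theorem conj_q (a b : Wr ρ G) : (a * b * a⁻¹).q = b.q := by
  simp

/-- The element with one component. -/
def single [DecidableEq J] (i : J) (g : G) : Wr ρ G := ⟨0, Pi.mulSingle i g⟩

variable [DecidableEq J]

@[simp] theorem single_q (i : J) (g : G) : (single i g : Wr ρ G).q = 0 := rfl
theorem single_f (i : J) (g : G) : (single i g : Wr ρ G).f = Pi.mulSingle i g := rfl
@[simp] theorem single_f_self (i : J) (g : G) : (single i g : Wr ρ G).f i = g := by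
  rw [single_f]; simp
theorem single_f_ne {i j : J} (h : j ≠ i) (g : G) : (single i g : Wr ρ G).f j = 1 := by
  rw [single_f]; simp [h]

theorem single_mul (i : J) (g h : G) : (single i (g * h) : Wr ρ G) = single i g * single i h := by
  ext j
  · simp
  · by_cases hj : j = i
    · subst hj; simp
    · simp [single_f_ne hj]

theorem single_one (i : J) : (single i 1 : Wr ρ G) = 1 := by
  ext j
  · simp
  · by_cases hj : j = i
    · subst hj; simp
    · simp [single_f_ne hj]

theorem single_inv (i : J) (g : G) : (single i g⁻¹ : Wr ρ G) = (single i g)⁻¹ := by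
  rw [eq_inv_iff_mul_eq_one, ← single_mul, inv_mul_cancel, single_one]

theorem single_inj {i : J} {g h : G} (e : (single i g : Wr ρ G) = single i h) : g = h := by
  have := congrArg (fun x : Wr ρ G => x.f i) e
  simpa using this

/-- conjugates of elements with one component -/
theorem conj_single (a : Wr ρ G) (i : J) (g : G) :
    a * single i g * a⁻¹ = single (i + ρ a.q) (a.f i * g * (a.f i)⁻¹) := by
  ext j
  · simp
  · rw [conj_f _ _ (single_q i g)]
    by_cases hj : j = i + ρ a.q
    · subst hj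
      simp
    · rw [single_f_ne hj, single_f_ne (fun h => hj (by rw [← h]; simp))]
      simp

theorem single_comm {i j : J} (h : i ≠ j) (g g' : G) :
    (single i g : Wr ρ G) * single j g' = single j g' * single i g := by
  ext k
  · simp
  · simp only [mul_f, single_q, map_zero, add_zero]
    by_cases hk : k = i
    · subst hk
      rw [single_f_ne h]; simp
    · rw [single_f_ne hk]; simp

end grp

section ord

variable [LinearOrder B] [Lattice G]

instance : LE (Wr ρ G) := ⟨fun a b => a.q < b.q ∨ (a.q = b.q ∧ a.f ≤ b.f)⟩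

theorem le_def {a b : Wr ρ G} : a ≤ b ↔ a.q < b.q ∨ (a.q = b.q ∧ a.f ≤ b.f) := Iff.rfl

instance : PartialOrder (Wr ρ G) where
  le_refl a := Or.inr ⟨rfl, le_rfl⟩
  le_trans a b c := by
    rintro (h | ⟨h, h'⟩) (k | ⟨k, k'⟩)
    · exact Or.inl (h.trans k)
    · exact Or.inl (h.trans_eq k)
    · exact Or.inl (h.trans_lt k)
    · exact Or.inr ⟨h.trans k, h'.trans k'⟩
  le_antisymm a b := by
    rintro (h | ⟨h, h'⟩) (k | ⟨k, k'⟩)
    · exact absurd (h.trans k) (lt_irrefl _)
    · exact absurd (h.trans_eq k) (lt_irrefl _)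
    · exact absurd (h.trans_lt k) (lt_irrefl _)
    · exact Wr.ext h (le_antisymm h' k')

theorem le_of_q_lt {a b : Wr ρ G} (h : a.q < b.q) : a ≤ b := Or.inl h

theorem q_le {a b : Wr ρ G} (h : a ≤ b) : a.q ≤ b.q := by
  rcases h with h | ⟨h, _⟩
  · exact h.le
  · exact h.le

instance : Max (Wr ρ G) := ⟨fun a b => if a.q < b.q then b else if b.q < a.q then a else
  ⟨a.q, a.f ⊔ b.f⟩⟩
instance : Min (Wr ρ G) := ⟨fun a b => if a.q < b.q then a else if b.q < a.q then b else
  ⟨a.q, a.f ⊓ b.f⟩⟩

theorem sup_of_lt {a b : Wr ρ G} (h : a.q < b.q) : a ⊔ b = b := if_pos h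
theorem sup_of_gt {a b : Wr ρ G} (h : b.q < a.q) : a ⊔ b = a := by
  change (if a.q < b.q then b else if b.q < a.q then a else ⟨a.q, a.f ⊔ b.f⟩) = a
  rw [if_neg (not_lt.mpr h.le), if_pos h]
theorem sup_of_eq {a b : Wr ρ G} (h : a.q = b.q) : a ⊔ b = ⟨a.q, a.f ⊔ b.f⟩ := by
  change (if a.q < b.q then b else if b.q < a.q then a else ⟨a.q, a.f ⊔ b.f⟩) = _
  rw [if_neg h.not_lt, if_neg h.not_gt]
theorem inf_of_lt {a b : Wr ρ G} (h : a.q < b.q) : a ⊓ b = a := if_pos h
theorem inf_of_gt {a b : Wr ρ G} (h : b.q < a.q) : a ⊓ b = b := by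
  change (if a.q < b.q then a else if b.q < a.q then b else ⟨a.q, a.f ⊓ b.f⟩) = b
  rw [if_neg (not_lt.mpr h.le), if_pos h]
theorem inf_of_eq {a b : Wr ρ G} (h : a.q = b.q) : a ⊓ b = ⟨a.q, a.f ⊓ b.f⟩ := by
  change (if a.q < b.q then a else if b.q < a.q then b else ⟨a.q, a.f ⊓ b.f⟩) = _
  rw [if_neg h.not_lt, if_neg h.not_gt]

instance latI : Lattice (Wr ρ G) :=
  { (inferInstance : PartialOrder (Wr ρ G)) with
    sup := fun a b => a ⊔ b
    inf := fun a b => a ⊓ b
    le_sup_left := by
      intro a b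
      change a ≤ a ⊔ b
      rcases lt_trichotomy a.q b.q with h | h | h
      · rw [sup_of_lt h]; exact le_of_q_lt h
      · rw [sup_of_eq h]; exact Or.inr ⟨rfl, le_sup_left⟩
      · rw [sup_of_gt h]
    le_sup_right := by
      intro a b
      change b ≤ a ⊔ b
      rcases lt_trichotomy a.q b.q with h | h | h
      · rw [sup_of_lt h]
      · rw [sup_of_eq h]; exact Or.inr ⟨h.symm, le_sup_right⟩
      · rw [sup_of_gt h]; exact le_of_q_lt h
    sup_le := by
      intro a b c h1 h2
      change a ⊔ b ≤ c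
      rcases lt_trichotomy a.q b.q with h | h | h
      · rw [sup_of_lt h]; exact h2
      · rw [sup_of_eq h]
        rcases h1 with h1 | ⟨h1, h1'⟩
        · exact Or.inl h1
        · rcases h2 with h2 | ⟨h2, h2'⟩
          · exact Or.inl (h.trans_lt h2)
          · exact Or.inr ⟨h1, sup_le h1' h2'⟩
      · rw [sup_of_gt h]; exact h1
    inf_le_left := by
      intro a b
      change a ⊓ b ≤ a
      rcases lt_trichotomy a.q b.q with h | h | h
      · rw [inf_of_lt h]
      · rw [inf_of_eq h]; exact Or.inr ⟨rfl, inf_le_left⟩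
      · rw [inf_of_gt h]; exact le_of_q_lt h
    inf_le_right := by
      intro a b
      change a ⊓ b ≤ b
      rcases lt_trichotomy a.q b.q with h | h | h
      · rw [inf_of_lt h]; exact le_of_q_lt h
      · rw [inf_of_eq h]; exact Or.inr ⟨h, inf_le_right⟩
      · rw [inf_of_gt h]
    le_inf := by
      intro a b c h1 h2
      change a ≤ b ⊓ c
      rcases lt_trichotomy b.q c.q with h | h | h
      · rw [inf_of_lt h]; exact h1
      · rw [inf_of_eq h]
        rcases h1 with h1 | ⟨h1, h1'⟩
        · exact Or.inl h1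
        · rcases h2 with h2 | ⟨h2, h2'⟩
          · exact Or.inl (h2.trans_eq h.symm)
          · exact Or.inr ⟨h1, le_inf h1' h2'⟩
      · rw [inf_of_gt h]; exact h2 }

theorem sup_q (a b : Wr ρ G) : (a ⊔ b).q = max a.q b.q := by
  rcases lt_trichotomy a.q b.q with h | h | h
  · rw [sup_of_lt h, max_eq_right h.le]
  · rw [sup_of_eq h, h, max_self]
  · rw [sup_of_gt h, max_eq_left h.le]

theorem inf_q (a b : Wr ρ G) : (a ⊓ b).q = min a.q b.q := by
  rcases lt_trichotomy a.q b.q with h | h | h
  · rw [inf_of_lt h, min_eq_left h.le]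
  · rw [inf_of_eq h, h, min_self]
  · rw [inf_of_gt h, min_eq_right h.le]

variable [IsOrderedAddMonoid B] [Group G] [MulLeftMono G] [MulRightMono G]

instance : MulLeftMono (Wr ρ G) := ⟨by
  intro c a b h
  rcases h with h | ⟨h, h'⟩
  · exact Or.inl (by simpa using h)
  · refine Or.inr ⟨by simp [h], ?_⟩
    intro i
    rw [mul_f, mul_f, h]
    exact mul_le_mul_right (h' i) _⟩

instance : MulRightMono (Wr ρ G) := ⟨by
  intro c a b h
  rcases h with h | ⟨h, h'⟩
  · refine Or.inl ?_
    change a.q + c.q < b.q + c.q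
    exact add_lt_add_left h _
  · refine Or.inr ⟨by change a.q + c.q = b.q + c.q; rw [h], ?_⟩
    intro i
    change (a * c).f i ≤ (b * c).f i
    rw [mul_f, mul_f]
    exact mul_le_mul_left (h' _) _⟩

end ord

end Wr

end Pool.Agent.Helper29
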