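import Pool.Agent.Helper29.Mimic

/-!
The normal-valued m-groups lie in the variety generated by the powers of the abelian variety.
-/

set_option autoImplicit false
set_option linter.unusedSectionVars false

namespace Pool.Agent.Helper29

section instances

theorem prod_mulLeftMono (A B : Type*) [Mul A] [Mul B] [LE A] [LE B] [MulLeftMono A]
    [MulLeftMono B] : MulLeftMono (A × B) :=
  ⟨fun c _ _ h => ⟨mul_le_mul_right h.1 c.1, mul_le_mul_right h.2 c.2⟩⟩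

theorem prod_mulRightMono (A B : Type*) [Mul A] [Mul B] [LE A] [LE B] [MulRightMono A]
    [MulRightMono B] : MulRightMono (A × B) :=
  ⟨fun c _ _ h => ⟨mul_le_mul_left h.1 c.1, mul_le_mul_left h.2 c.2⟩⟩

theorem pi_mulLeftMono {I : Type*} (A : I → Type*) [∀ i, Mul (A i)] [∀ i, LE (A i)]
    [∀ i, MulLeftMono (A i)] : MulLeftMono (∀ i, A i) :=
  ⟨fun c _ _ h i => mul_le_mul_right (h i) (c i)⟩

theorem pi_mulRightMono {I : Type*} (A : I → Type*) [∀ i, Mul (A i)] [∀ i, LE (A i)]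
    [∀ i, MulRightMono (A i)] : MulRightMono (∀ i, A i) :=
  ⟨fun c _ _ h i => mul_le_mul_left (h i) (c i)⟩

end instances

/-- A sub-ℓ-group. -/
structure SubL (H : Type*) [Group H] [Lattice H] where
  toSubgroup : Subgroup H
  sup_mem : ∀ a ∈ toSubgroup, ∀ b ∈ toSubgroup, a ⊔ b ∈ toSubgroup
  inf_mem : ∀ a ∈ toSubgroup, ∀ b ∈ toSubgroup, a ⊓ b ∈ toSubgroup

namespace SubL
variable {H : Type*} [Group H] [Lattice H] (S : SubL H)

/-- The underlying type. -/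
def T : Type _ := {x : H // x ∈ S.toSubgroup}

instance : Group S.T := inferInstanceAs (Group S.toSubgroup)
instance : Lattice S.T :=
  Subtype.lattice (fun {a b} ha hb => S.sup_mem a ha b hb) (fun {a b} ha hb => S.inf_mem a ha b hb)

theorem val_mul (a b : S.T) : (a * b).1 = a.1 * b.1 := rfl
theorem val_sup (a b : S.T) : (a ⊔ b).1 = a.1 ⊔ b.1 := rfl
theorem val_inf (a b : S.T) : (a ⊓ b).1 = a.1 ⊓ b.1 := rfl
theorem val_le {a b : S.T} : a ≤ b ↔ a.1 ≤ b.1 := Iff.rfl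

theorem mulLeftMono [MulLeftMono H] : MulLeftMono S.T :=
  ⟨fun c _ _ h => mul_le_mul_right (val_le S |>.mp h) c.1⟩
theorem mulRightMono [MulRightMono H] : MulRightMono S.T :=
  ⟨fun c _ _ h => mul_le_mul_left (val_le S |>.mp h) c.1⟩
end SubL

/-- The doubled wreath power, with the coordinate swap as involution. -/
abbrev MW (n : ℕ) : Type := W n × (W n)ᵒᵈ

instance (n : ℕ) : MulLeftMono (MW n) := prod_mulLeftMono _ _
instance (n : ℕ) : MulRightMono (MW n) := prod_mulRightMono _ _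

/-- The involution. -/
def MW.star {n : ℕ} (p : MW n) : MW n := (OrderDual.ofDual p.2, OrderDual.toDual p.1)

theorem MW.star_mul {n : ℕ} (p q : MW n) : MW.star (p * q) = MW.star p * MW.star q := rfl
theorem MW.star_star {n : ℕ} (p : MW n) : MW.star (MW.star p) = p := rfl
theorem MW.star_anti {n : ℕ} {p q : MW n} (h : p ≤ q) : MW.star q ≤ MW.star p := ⟨h.2, h.1⟩

/-- The standard ideal series of the doubled wreath power. -/
def MW.Hs (n i : ℕ) : Set (MW n) :=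
  {p | p.1 ∈ Helper29.Hs n i ∧ OrderDual.ofDual p.2 ∈ Helper29.Hs n i}

theorem MW.series (n : ℕ) : MW.Hs n 0 = {1} ∧ MW.Hs n n = Set.univ ∧
    ∀ i : ℕ, (1 : MW n) ∈ MW.Hs n i ∧
      (∀ a ∈ MW.Hs n i, ∀ b ∈ MW.Hs n i, a * b ∈ MW.Hs n i ∧ a⁻¹ ∈ MW.Hs n i ∧
        a ⊔ b ∈ MW.Hs n i ∧ a ⊓ b ∈ MW.Hs n i ∧ MW.star a ∈ MW.Hs n i) ∧
      (∀ a ∈ MW.Hs n i, ∀ b ∈ MW.Hs n i, ∀ c : MW n, a ≤ c → c ≤ b → c ∈ MW.Hs n i) ∧
      (∀ a ∈ MW.Hs n i, ∀ g : MW n, g * a * g⁻¹ ∈ MW.Hs n i) ∧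
      MW.Hs n i ⊆ MW.Hs n (i + 1) ∧
      (∀ a ∈ MW.Hs n (i + 1), ∀ b ∈ MW.Hs n (i + 1), a * b * a⁻¹ * b⁻¹ ∈ MW.Hs n i) := by
  refine ⟨?_, ?_, ?_⟩
  · ext p
    constructor
    · rintro ⟨h1, h2⟩
      rw [Hs_zero] at h1 h2
      exact Prod.ext h1 h2
    · rintro rfl
      exact ⟨one_mem_Hs 0, one_mem_Hs 0⟩
  · ext p
    simp only [Set.mem_univ, iff_true]
    exact ⟨by rw [Hs_top]; trivial, by rw [Hs_top]; trivial⟩
  · intro i
    refine ⟨⟨one_mem_Hs i, one_mem_Hs i⟩, ?_, ?_, ?_, ?_, ?_⟩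
    · rintro a ⟨ha1, ha2⟩ b ⟨hb1, hb2⟩
      exact ⟨⟨mul_mem_Hs ha1 hb1, mul_mem_Hs ha2 hb2⟩, ⟨inv_mem_Hs ha1, inv_mem_Hs ha2⟩,
        ⟨sup_mem_Hs ha1 hb1, inf_mem_Hs ha2 hb2⟩, ⟨inf_mem_Hs ha1 hb1, sup_mem_Hs ha2 hb2⟩,
        ⟨ha2, ha1⟩⟩
    · rintro a ⟨ha1, ha2⟩ b ⟨hb1, hb2⟩ c h1 h2
      exact ⟨between_mem_Hs ha1 hb1 h1.1 h2.1, between_mem_Hs hb2 ha2 h2.2 h1.2⟩
    · rintro a ⟨ha1, ha2⟩ g
      exact ⟨conj_mem_Hs ha1 g.1, conj_mem_Hs ha2 g.2⟩
    · rintro a ⟨ha1, ha2⟩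
      exact ⟨Hs_succ ha1, Hs_succ ha2⟩
    · rintro a ⟨ha1, ha2⟩ b ⟨hb1, hb2⟩
      exact ⟨comm_mem_Hs ha1 hb1, comm_mem_Hs ha2 hb2⟩

section main

variable (G : Type) [Group G] [Lattice G] [MulLeftMono G] [MulRightMono G]

/-- The index set of the product. -/
def Ix : Type := Σ n : ℕ, (G → Lex (Fin n → ℝ)) × (G → W n)

variable {G}

/-- Good indices for a prime and a finite set. -/
def Good (Q : Subgroup G) (D : Finset G) (i : Ix G) : Prop :=
  (∀ a ∈ D, ∀ b ∈ D, (i.2.1 a ≤ i.2.1 b ↔ leQ Q a b)) ∧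
    ∀ g : G, ∀ a ∈ D, i.2.2 g (i.2.1 a) = i.2.1 (g * a)

theorem Good.mono {Q : Subgroup G} {D D' : Finset G} {i : Ix G} (h : Good Q D' i)
    (hD : D ⊆ D') : Good Q D i :=
  ⟨fun a ha b hb => h.1 a (hD ha) b (hD hb), fun g a ha => h.2 g a (hD ha)⟩

theorem exists_good (law : NV G) {Q : Subgroup G} (hQ : IsPrm Q) (D : Finset G) :
    ∃ i : Ix G, Good Q D i := by
  obtain ⟨n, x, v, h1, h2⟩ := mimic law hQ D
  exact ⟨⟨n, x, v⟩, h1, h2⟩

/-- `w` mimics `g` at every point, for large finite sets. -/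
def Mim (Q : Subgroup G) (w : ∀ i : Ix G, W i.1) (g : G) : Prop :=
  ∀ a : G, ∃ D : Finset G, ∀ i : Ix G, Good Q D i → w i (i.2.1 a) = i.2.1 (g * a)

theorem Mim.congr {Q : Subgroup G} {w w' : ∀ i : Ix G, W i.1} {g g' : G} (h : Mim Q w g)
    (hw : ∀ i, w i = w' i) (hg : g = g') : Mim Q w' g' := by
  have : w = w' := funext hw
  subst this; subst hg; exact h

theorem Mim.mul {Q : Subgroup G} {w w' : ∀ i : Ix G, W i.1} {g g' : G} (h : Mim Q w g)
    (h' : Mim Q w' g') : Mim Q (fun i => w i * w' i) (g * g') := by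
  classical
  intro a
  obtain ⟨D, hD⟩ := h (g' * a)
  obtain ⟨D', hD'⟩ := h' a
  refine ⟨D ∪ D', fun i hi => ?_⟩
  rw [CG.mul_apply, hD' i (hi.mono Finset.subset_union_right),
    hD i (hi.mono Finset.subset_union_left), mul_assoc]

theorem Mim.one {Q : Subgroup G} : Mim Q (fun _ => 1) (1 : G) := by
  intro a
  exact ⟨∅, fun i _ => by rw [CG.one_apply, one_mul]⟩

theorem Mim.sup {Q : Subgroup G} (hQ : IsPrm Q) {w w' : ∀ i : Ix G, W i.1} {g g' : G}
    (h : Mim Q w g) (h' : Mim Q w' g') : Mim Q (fun i => w i ⊔ w' i) (g ⊔ g') := by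
  classical
  intro a
  obtain ⟨D, hD⟩ := h a
  obtain ⟨D', hD'⟩ := h' a
  refine ⟨D ∪ D' ∪ {g * a, g' * a, (g ⊔ g') * a}, fun i hi => ?_⟩
  have hm := hi.1
  rw [CG.sup_apply, hD i (hi.mono (by intro x hx; simp [hx])),
    hD' i (hi.mono (by intro x hx; simp [hx]))]
  have e : (g ⊔ g') * a = g * a ⊔ g' * a := sup_mul _ _ _
  rcases leQ_total hQ (g * a) (g' * a) with h1 | h1
  · have h2 := (hm (g * a) (by simp) (g' * a) (by simp)).mpr h1
    rw [max_eq_right h2]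
    have h3 : (g' * a)⁻¹ * ((g ⊔ g') * a) ∈ Q := by rw [e]; exact sup_mem_of_leQ h1
    apply le_antisymm
    · exact (hm _ (by simp) _ (by simp)).mpr (leQ_of_mem hQ.toIsCvx h3)
    · exact (hm _ (by simp) _ (by simp)).mpr (leQ_of_mem' hQ.toIsCvx h3)
  · have h2 := (hm (g' * a) (by simp) (g * a) (by simp)).mpr h1
    rw [max_eq_left h2]
    have h3 : (g * a)⁻¹ * ((g ⊔ g') * a) ∈ Q := by
      rw [e, sup_comm]; exact sup_mem_of_leQ h1
    apply le_antisymm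
    · exact (hm _ (by simp) _ (by simp)).mpr (leQ_of_mem hQ.toIsCvx h3)
    · exact (hm _ (by simp) _ (by simp)).mpr (leQ_of_mem' hQ.toIsCvx h3)

theorem Mim.inf {Q : Subgroup G} (hQ : IsPrm Q) {w w' : ∀ i : Ix G, W i.1} {g g' : G}
    (h : Mim Q w g) (h' : Mim Q w' g') : Mim Q (fun i => w i ⊓ w' i) (g ⊓ g') := by
  classical
  intro a
  obtain ⟨D, hD⟩ := h a
  obtain ⟨D', hD'⟩ := h' a
  refine ⟨D ∪ D' ∪ {g * a, g' * a, (g ⊓ g') * a}, fun i hi => ?_⟩
  have hm := hi.1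
  rw [CG.inf_apply, hD i (hi.mono (by intro x hx; simp [hx])),
    hD' i (hi.mono (by intro x hx; simp [hx]))]
  have e : (g ⊓ g') * a = g * a ⊓ g' * a := inf_mul _ _ _
  rcases leQ_total hQ (g * a) (g' * a) with h1 | h1
  · have h2 := (hm (g * a) (by simp) (g' * a) (by simp)).mpr h1
    rw [min_eq_left h2]
    have h3 : (g * a)⁻¹ * ((g ⊓ g') * a) ∈ Q := by rw [e]; exact inf_mem_of_leQ h1
    apply le_antisymm
    · exact (hm _ (by simp) _ (by simp)).mpr (leQ_of_mem hQ.toIsCvx h3)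
    · exact (hm _ (by simp) _ (by simp)).mpr (leQ_of_mem' hQ.toIsCvx h3)
  · have h2 := (hm (g' * a) (by simp) (g * a) (by simp)).mpr h1
    rw [min_eq_right h2]
    have h3 : (g' * a)⁻¹ * ((g ⊓ g') * a) ∈ Q := by
      rw [e, inf_comm]; exact inf_mem_of_leQ h1
    apply le_antisymm
    · exact (hm _ (by simp) _ (by simp)).mpr (leQ_of_mem hQ.toIsCvx h3)
    · exact (hm _ (by simp) _ (by simp)).mpr (leQ_of_mem' hQ.toIsCvx h3)

theorem Mim.gen {Q : Subgroup G} (g : G) : Mim Q (fun i => i.2.2 g) g := by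
  intro a
  exact ⟨{a}, fun i hi => hi.2 g a (by simp)⟩

theorem Mim.gen_inv {Q : Subgroup G} (g : G) : Mim Q (fun i => (i.2.2 g)⁻¹) g⁻¹ := by
  classical
  intro a
  refine ⟨{g⁻¹ * a}, fun i hi => ?_⟩
  have h1 := hi.2 g (g⁻¹ * a) (by simp)
  rw [mul_inv_cancel_left] at h1
  rw [← h1, CG.inv_apply_self]

theorem Mim.unique (law : NV G) {Q : Subgroup G} (hQ : IsPrm Q) {w : ∀ i : Ix G, W i.1} {g g' : G}
    (h : Mim Q w g) (h' : Mim Q w g') : g⁻¹ * g' ∈ Q := by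
  classical
  obtain ⟨D, hD⟩ := h 1
  obtain ⟨D', hD'⟩ := h' 1
  obtain ⟨i, hi⟩ := exists_good law hQ (D ∪ D' ∪ {g, g'})
  have h1 := hD i (hi.mono (by intro x hx; simp [hx]))
  have h2 := hD' i (hi.mono (by intro x hx; simp [hx]))
  rw [mul_one] at h1 h2
  have h3 : i.2.1 g = i.2.1 g' := h1.symm.trans h2
  apply leQ_antisymm hQ.toIsCvx
  · exact (hi.1 g (by simp) g' (by simp)).mp h3.le
  · exact (hi.1 g' (by simp) g (by simp)).mp h3.ge

variable (σ : G → G)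

/-- The membership predicate of the big subalgebra. -/
def InP (p : (∀ i : Ix G, MW i.1) × G) : Prop :=
  ∀ Q : Subgroup G, IsPrm Q →
    Mim Q (fun i => (p.1 i).1) p.2 ∧ Mim Q (fun i => ((p.1 i).1)⁻¹) p.2⁻¹ ∧
    Mim Q (fun i => OrderDual.ofDual (p.1 i).2) (σ p.2) ∧
    Mim Q (fun i => (OrderDual.ofDual (p.1 i).2)⁻¹) (σ p.2)⁻¹

instance : MulLeftMono (∀ i : Ix G, MW i.1) := pi_mulLeftMono _
instance : MulRightMono (∀ i : Ix G, MW i.1) := pi_mulRightMono _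
instance : MulLeftMono ((∀ i : Ix G, MW i.1) × G) := prod_mulLeftMono _ _
instance : MulRightMono ((∀ i : Ix G, MW i.1) × G) := prod_mulRightMono _ _

/-- The big subalgebra. -/
def bigP (hσ : ∀ x y : G, σ (x * y) = σ x * σ y)
    (hanti : ∀ x y : G, x ≤ y → σ y ≤ σ x) (hinv : ∀ x : G, σ (σ x) = x) :
    SubL ((∀ i : Ix G, MW i.1) × G) where
  toSubgroup :=
    { carrier := {p | InP σ p}
      mul_mem' := by
        intro p q hp hq Q hQ
        obtain ⟨p1, p2, p3, p4⟩ := hp Q hQ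
        obtain ⟨q1, q2, q3, q4⟩ := hq Q hQ
        refine ⟨p1.mul q1, ?_, ?_, ?_⟩
        · exact (q2.mul p2).congr (fun i => (mul_inv_rev _ _).symm) (mul_inv_rev _ _).symm
        · exact (p3.mul q3).congr (fun i => rfl) (hσ _ _).symm
        · exact (q4.mul p4).congr (fun i => (mul_inv_rev _ _).symm)
            ((mul_inv_rev _ _).symm.trans (congrArg _ (hσ _ _).symm))
      one_mem' := by
        intro Q hQ
        have hσ1 : σ 1 = 1 := by
          have := hσ 1 1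
          rw [mul_one] at this
          exact (mul_eq_left.mp this.symm)
        refine ⟨Mim.one, ?_, ?_, ?_⟩
        · exact (Mim.one (Q := Q)).congr (fun i => inv_one.symm) inv_one.symm
        · exact (Mim.one (Q := Q)).congr (fun i => rfl) hσ1.symm
        · exact (Mim.one (Q := Q)).congr (fun i => inv_one.symm)
            (inv_one.symm.trans (congrArg _ hσ1.symm))
      inv_mem' := by
        intro p hp Q hQ
        obtain ⟨p1, p2, p3, p4⟩ := hp Q hQ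
        have hσinv : σ p.2⁻¹ = (σ p.2)⁻¹ := by
          have hσ1 : σ 1 = 1 := by
            have := hσ 1 1
            rw [mul_one] at this
            exact (mul_eq_left.mp this.symm)
          have := hσ p.2 p.2⁻¹
          rw [mul_inv_cancel, hσ1] at this
          exact (inv_eq_of_mul_eq_one_right this.symm).symm
        refine ⟨p2, ?_, ?_, ?_⟩
        · exact p1.congr (fun i => (inv_inv _).symm) (inv_inv _).symm
        · exact p4.congr (fun i => rfl) hσinv.symm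
        · exact p3.congr (fun i => (inv_inv _).symm)
            ((inv_inv _).symm.trans (congrArg _ hσinv.symm)) }
  sup_mem := by
    intro p hp q hq Q hQ
    obtain ⟨p1, p2, p3, p4⟩ := hp Q hQ
    obtain ⟨q1, q2, q3, q4⟩ := hq Q hQ
    have hs : σ (p.2 ⊔ q.2) = σ p.2 ⊓ σ q.2 := by
      apply le_antisymm
      · exact le_inf (hanti _ _ le_sup_left) (hanti _ _ le_sup_right)
      · have h1 : p.2 ⊔ q.2 ≤ σ (σ p.2 ⊓ σ q.2) := by
          apply sup_le
          · have := hanti _ _ (inf_le_left : σ p.2 ⊓ σ q.2 ≤ σ p.2)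
            rwa [hinv] at this
          · have := hanti _ _ (inf_le_right : σ p.2 ⊓ σ q.2 ≤ σ q.2)
            rwa [hinv] at this
        have := hanti _ _ h1
        rwa [hinv] at this
    refine ⟨p1.sup hQ q1, ?_, ?_, ?_⟩
    · exact (p2.inf hQ q2).congr (fun i => (inv_sup _ _).symm) (inv_sup _ _).symm
    · exact (p3.inf hQ q3).congr (fun i => rfl) hs.symm
    · exact (p4.sup hQ q4).congr (fun i => (inv_inf _ _).symm)
        ((inv_inf _ _).symm.trans (congrArg _ hs.symm))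
  inf_mem := by
    intro p hp q hq Q hQ
    obtain ⟨p1, p2, p3, p4⟩ := hp Q hQ
    obtain ⟨q1, q2, q3, q4⟩ := hq Q hQ
    have hs : σ (p.2 ⊓ q.2) = σ p.2 ⊔ σ q.2 := by
      apply le_antisymm
      · have h1 : σ (σ p.2 ⊔ σ q.2) ≤ p.2 ⊓ q.2 := by
          apply le_inf
          · have := hanti _ _ (le_sup_left : σ p.2 ≤ σ p.2 ⊔ σ q.2)
            rwa [hinv] at this
          · have := hanti _ _ (le_sup_right : σ q.2 ≤ σ p.2 ⊔ σ q.2)
            rwa [hinv] at this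
        have := hanti _ _ h1
        rwa [hinv] at this
      · exact sup_le (hanti _ _ inf_le_left) (hanti _ _ inf_le_right)
    refine ⟨p1.inf hQ q1, ?_, ?_, ?_⟩
    · exact (p2.sup hQ q2).congr (fun i => (inv_inf _ _).symm) (inv_inf _ _).symm
    · exact (p3.sup hQ q3).congr (fun i => rfl) hs.symm
    · exact (p4.inf hQ q4).congr (fun i => (inv_sup _ _).symm)
        ((inv_sup _ _).symm.trans (congrArg _ hs.symm))

theorem forward (law : NV G) (hσ : ∀ x y : G, σ (x * y) = σ x * σ y)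
    (hanti : ∀ x y : G, x ≤ y → σ y ≤ σ x) (hinv : ∀ x : G, σ (σ x) = x) :
     ∃ (P : Type) (_ : Group P) (_ : Lattice P) (_ : MulLeftMono P) (_ : MulRightMono P)
       (τ : P → P) (f : P → G),
       (∀ x y : P, τ (x * y) = τ x * τ y) ∧ (∀ x y : P, x ≤ y → τ y ≤ τ x) ∧
       (∀ x : P, τ (τ x) = x) ∧ Function.Surjective f ∧
       (∀ a b : P, f (a * b) = f a * f b ∧ f (a ⊔ b) = f a ⊔ f b ∧
          f (a ⊓ b) = f a ⊓ f b ∧ f (τ a) = σ (f a)) ∧
       ∀ x y : P, x ≠ y →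
         ∃ (n : ℕ) (h : P → MW n),
           (∀ a b : P, h (a * b) = h a * h b ∧ h (a ⊔ b) = h a ⊔ h b ∧
              h (a ⊓ b) = h a ⊓ h b ∧ h (τ a) = MW.star (h a)) ∧
           h x ≠ h y := by
  let P := bigP σ hσ hanti hinv
  have hτmem : ∀ p : P.T, InP σ ((fun i => MW.star (p.1.1 i)), σ p.1.2) := by
    intro p Q hQ
    obtain ⟨p1, p2, p3, p4⟩ := p.2 Q hQ
    refine ⟨p3, p4, ?_, ?_⟩
    · change Mim Q (fun i => (p.1.1 i).1) (σ (σ p.1.2))
      rw [hinv]; exact p1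
    · change Mim Q (fun i => ((p.1.1 i).1)⁻¹) (σ (σ p.1.2))⁻¹
      rw [hinv]; exact p2
  let τ : P.T → P.T := fun p => ⟨((fun i => MW.star (p.1.1 i)), σ p.1.2), hτmem p⟩
  refine ⟨P.T, inferInstance, inferInstance, P.mulLeftMono, P.mulRightMono, τ,
    fun p => p.1.2, ?_, ?_, ?_, ?_, ?_, ?_⟩
  · intro x y
    apply Subtype.ext
    exact Prod.ext rfl (hσ _ _)
  · intro x y h
    exact ⟨fun i => MW.star_anti (h.1 i), hanti _ _ h.2⟩
  · intro x
    apply Subtype.ext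
    exact Prod.ext rfl (hinv _)
  · intro g
    refine ⟨⟨((fun i => (i.2.2 g, OrderDual.toDual (i.2.2 (σ g)))), g), ?_⟩, rfl⟩
    intro Q hQ
    exact ⟨Mim.gen g, Mim.gen_inv g, Mim.gen (σ g), Mim.gen_inv (σ g)⟩
  · intro a b
    exact ⟨rfl, rfl, rfl, rfl⟩
  · intro x y hxy
    by_cases h : x.1.1 = y.1.1
    · exfalso
      apply hxy
      apply Subtype.ext
      refine Prod.ext h ?_
      by_contra hne
      obtain ⟨Q, hQ, hn⟩ := exists_prime_ne hne
      apply hn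
      obtain ⟨p1, _⟩ := x.2 Q hQ
      obtain ⟨q1, _⟩ := y.2 Q hQ
      rw [h] at p1
      exact Mim.unique law hQ p1 q1
    · obtain ⟨i, hi⟩ := Function.ne_iff.mp h
      refine ⟨i.1, fun p => p.1.1 i, ?_, hi⟩
      intro a b
      exact ⟨rfl, rfl, rfl, rfl⟩

end main

end Pool.Agent.Helper29
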