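import Pool.Agent.Helper29.MimicS

/-!
Symmetric normal-valued m-groups lie in the join of the powers of `Z`.
-/

set_option autoImplicit false
set_option linter.unusedSectionVars false

namespace Pool.Agent.Helper29

/-- The index set. -/
structure IxS (G : MGroup) where
  n : ℕ
  V : Fin n → AddSubgroup ℝ
  x : G.carrier → Lex (Fin n → ℝ)
  v : G.carrier → ZT V

variable {G : MGroup}

/-- Good indices for a prime and a finite set. -/
def GoodS (Q : Subgroup G.carrier) (D : Finset G.carrier) (i : IxS G) : Prop :=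
  (∀ a ∈ D, ∀ b ∈ D, (i.x a ≤ i.x b ↔ leQ Q a b)) ∧
    ∀ g ∈ D, ∀ a ∈ D, i.v g (i.x a) = i.x (g * a) ∧ zstar (i.v g) (i.x a) = i.x (G.star g * a)

theorem GoodS.mono {Q : Subgroup G.carrier} {D D' : Finset G.carrier} {i : IxS G}
    (h : GoodS Q D' i) (hD : D ⊆ D') : GoodS Q D i :=
  ⟨fun a ha b hb => h.1 a (hD ha) b (hD hb), fun g hg a ha => h.2 g (hD hg) a (hD ha)⟩

theorem exists_goodS (law : NV G.carrier) (hS : SymLaw G) {Q : Subgroup G.carrier}
    (hQ : IsPrm Q) (D : Finset G.carrier) : ∃ i : IxS G, GoodS Q D i := by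
  obtain ⟨n, V, x, v, h1, h2⟩ := mimicS law hS hQ D
  exact ⟨⟨n, V, x, v⟩, h1, h2⟩

/-- `w` mimics `g` at every point, for large finite sets. -/
def MimS (Q : Subgroup G.carrier) (w : ∀ i : IxS G, ZT i.V) (g : G.carrier) : Prop :=
  ∀ a : G.carrier, ∃ D : Finset G.carrier, ∀ i : IxS G, GoodS Q D i →
    w i (i.x a) = i.x (g * a)

theorem MimS.congr {Q : Subgroup G.carrier} {w w' : ∀ i : IxS G, ZT i.V} {g g' : G.carrier}
    (h : MimS Q w g) (hw : ∀ i, w i = w' i) (hg : g = g') : MimS Q w' g' := by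
  have : w = w' := funext hw
  subst this; subst hg; exact h

theorem MimS.mul {Q : Subgroup G.carrier} {w w' : ∀ i : IxS G, ZT i.V} {g g' : G.carrier}
    (h : MimS Q w g) (h' : MimS Q w' g') : MimS Q (fun i => w i * w' i) (g * g') := by
  classical
  intro a
  obtain ⟨D, hD⟩ := h (g' * a)
  obtain ⟨D', hD'⟩ := h' a
  refine ⟨D ∪ D', fun i hi => ?_⟩
  rw [CG.mul_apply, hD' i (hi.mono Finset.subset_union_right),
    hD i (hi.mono Finset.subset_union_left), mul_assoc]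

theorem MimS.one {Q : Subgroup G.carrier} : MimS Q (fun _ => 1) (1 : G.carrier) := by
  intro a
  exact ⟨∅, fun i _ => by rw [CG.one_apply, one_mul]⟩

theorem MimS.sup {Q : Subgroup G.carrier} (hQ : IsPrm Q) {w w' : ∀ i : IxS G, ZT i.V}
    {g g' : G.carrier} (h : MimS Q w g) (h' : MimS Q w' g') :
    MimS Q (fun i => w i ⊔ w' i) (g ⊔ g') := by
  classical
  intro a
  obtain ⟨D, hD⟩ := h a
  obtain ⟨D', hD'⟩ := h' a
  refine ⟨D ∪ D' ∪ {g * a, g' * a, (g ⊔ g') * a}, fun i hi => ?_⟩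
  have hm := hi.1
  rw [CG.sup_apply, hD i (hi.mono (by intro x hx; simp [hx])),
    hD' i (hi.mono (by intro x hx; simp [hx]))]
  have e : (g ⊔ g') * a = g * a ⊔ g' * a := sup_mul _ _ _
  rcases leQ_total hQ (g * a) (g' * a) with h1 | h1
  · have h2 := (hm (g * a) (by simp) (g' * a) (by simp)).mpr h1
    rw [max_eq_right h2]
    have h3 : (g' * a)⁻¹ * ((g ⊔ g') * a) ∈ Q := by rw [e]; exact sup_mem_of_leQ h1
    apply le_antisymm
    · exact (hm _ (by simp) _ (by simp)).mpr (leQ_of_mem hQ.toIsCvx h3)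
    · exact (hm _ (by simp) _ (by simp)).mpr (leQ_of_mem' hQ.toIsCvx h3)
  · have h2 := (hm (g' * a) (by simp) (g * a) (by simp)).mpr h1
    rw [max_eq_left h2]
    have h3 : (g * a)⁻¹ * ((g ⊔ g') * a) ∈ Q := by
      rw [e, sup_comm]; exact sup_mem_of_leQ h1
    apply le_antisymm
    · exact (hm _ (by simp) _ (by simp)).mpr (leQ_of_mem hQ.toIsCvx h3)
    · exact (hm _ (by simp) _ (by simp)).mpr (leQ_of_mem' hQ.toIsCvx h3)

theorem MimS.inf {Q : Subgroup G.carrier} (hQ : IsPrm Q) {w w' : ∀ i : IxS G, ZT i.V}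
    {g g' : G.carrier} (h : MimS Q w g) (h' : MimS Q w' g') :
    MimS Q (fun i => w i ⊓ w' i) (g ⊓ g') := by
  classical
  intro a
  obtain ⟨D, hD⟩ := h a
  obtain ⟨D', hD'⟩ := h' a
  refine ⟨D ∪ D' ∪ {g * a, g' * a, (g ⊓ g') * a}, fun i hi => ?_⟩
  have hm := hi.1
  rw [CG.inf_apply, hD i (hi.mono (by intro x hx; simp [hx])),
    hD' i (hi.mono (by intro x hx; simp [hx]))]
  have e : (g ⊓ g') * a = g * a ⊓ g' * a := inf_mul _ _ _
  rcases leQ_total hQ (g * a) (g' * a) with h1 | h1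
  · have h2 := (hm (g * a) (by simp) (g' * a) (by simp)).mpr h1
    rw [min_eq_left h2]
    have h3 : (g * a)⁻¹ * ((g ⊓ g') * a) ∈ Q := by rw [e]; exact inf_mem_of_leQ h1
    apply le_antisymm
    · exact (hm _ (by simp) _ (by simp)).mpr (leQ_of_mem hQ.toIsCvx h3)
    · exact (hm _ (by simp) _ (by simp)).mpr (leQ_of_mem' hQ.toIsCvx h3)
  · have h2 := (hm (g' * a) (by simp) (g * a) (by simp)).mpr h1
    rw [min_eq_right h2]
    have h3 : (g' * a)⁻¹ * ((g ⊓ g') * a) ∈ Q := by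
      rw [e, inf_comm]; exact inf_mem_of_leQ h1
    apply le_antisymm
    · exact (hm _ (by simp) _ (by simp)).mpr (leQ_of_mem hQ.toIsCvx h3)
    · exact (hm _ (by simp) _ (by simp)).mpr (leQ_of_mem' hQ.toIsCvx h3)

theorem MimS.gen {Q : Subgroup G.carrier} (g : G.carrier) : MimS Q (fun i => i.v g) g := by
  classical
  intro a
  exact ⟨{g, a}, fun i hi => (hi.2 g (by simp) a (by simp)).1⟩

theorem MimS.gen_inv {Q : Subgroup G.carrier} (g : G.carrier) :
    MimS Q (fun i => (i.v g)⁻¹) g⁻¹ := by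
  classical
  intro a
  refine ⟨{g, g⁻¹ * a}, fun i hi => ?_⟩
  have h1 := (hi.2 g (by simp) (g⁻¹ * a) (by simp)).1
  rw [mul_inv_cancel_left] at h1
  rw [← h1, CG.inv_apply_self]

theorem MimS.gen_star {Q : Subgroup G.carrier} (g : G.carrier) :
    MimS Q (fun i => zstar (i.v g)) (G.star g) := by
  classical
  intro a
  exact ⟨{g, a}, fun i hi => (hi.2 g (by simp) a (by simp)).2⟩

theorem MimS.gen_star_inv {Q : Subgroup G.carrier} (g : G.carrier) :
    MimS Q (fun i => (zstar (i.v g))⁻¹) (G.star g)⁻¹ := by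
  classical
  intro a
  refine ⟨{g, (G.star g)⁻¹ * a}, fun i hi => ?_⟩
  have h1 := (hi.2 g (by simp) ((G.star g)⁻¹ * a) (by simp)).2
  rw [mul_inv_cancel_left] at h1
  rw [← h1, CG.inv_apply_self]

theorem MimS.unique (law : NV G.carrier) (hS : SymLaw G) {Q : Subgroup G.carrier} (hQ : IsPrm Q)
    {w : ∀ i : IxS G, ZT i.V} {g g' : G.carrier}
    (h : MimS Q w g) (h' : MimS Q w g') : g⁻¹ * g' ∈ Q := by
  classical
  obtain ⟨D, hD⟩ := h 1
  obtain ⟨D', hD'⟩ := h' 1
  obtain ⟨i, hi⟩ := exists_goodS law hS hQ (D ∪ D' ∪ {g, g'})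
  have h1 := hD i (hi.mono (by intro x hx; simp [hx]))
  have h2 := hD' i (hi.mono (by intro x hx; simp [hx]))
  rw [mul_one] at h1 h2
  have h3 : i.x g = i.x g' := h1.symm.trans h2
  apply leQ_antisymm hQ.toIsCvx
  · exact (hi.1 g (by simp) g' (by simp)).mp h3.le
  · exact (hi.1 g' (by simp) g (by simp)).mp h3.ge

/-- The relation between families and elements. -/
def InS (p : ∀ i : IxS G, ZT i.V) (g : G.carrier) : Prop :=
  ∀ Q : Subgroup G.carrier, IsPrm Q →
    MimS Q p g ∧ MimS Q (fun i => (p i)⁻¹) g⁻¹ ∧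
    MimS Q (fun i => zstar (p i)) (G.star g) ∧ MimS Q (fun i => (zstar (p i))⁻¹) (G.star g)⁻¹

/-- Symmetric normal-valued m-groups lie in the join of the powers of `Z`. -/
theorem sym_mem_seqVar (law : NV G.carrier) (hS : SymLaw G) :
    G ∈ seqVar (fun _ => false) := by
  intro Y hY hprod
  obtain ⟨E, rfl⟩ := hY
  have hA : ∀ i : IxS G, ZWM i.V ∈ Models E := fun i =>
    (ZWM.series i.V).mem_of_series hprod (ZWM.factors i.V)
  refine relHSP (ι := IxS G) (fun i => ZWM i.V) hA G (fun p g => InS p g) ?_ ?_ ?_ ?_ ?_ ?_ ?_ ?_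
  · intro Q hQ
    have hz : ∀ i : IxS G, zstar (1 : ZT i.V) = 1 := fun i => (ZWM i.V).star_one
    refine ⟨MimS.one, ?_, ?_, ?_⟩
    · exact (MimS.one (Q := Q)).congr (fun i => inv_one.symm) inv_one.symm
    · exact (MimS.one (Q := Q)).congr (fun i => (hz i).symm) G.star_one.symm
    · exact (MimS.one (Q := Q)).congr (fun i => (inv_one.symm.trans (congrArg _ (hz i).symm)))
        (inv_one.symm.trans (congrArg _ G.star_one.symm))
  · intro p q a b h1 h2 Q hQ
    obtain ⟨p1, p2, p3, p4⟩ := h1 Q hQ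
    obtain ⟨q1, q2, q3, q4⟩ := h2 Q hQ
    refine ⟨p1.mul q1, ?_, ?_, ?_⟩
    · exact (q2.mul p2).congr (fun i => (mul_inv_rev _ _).symm) (mul_inv_rev _ _).symm
    · exact (p3.mul q3).congr (fun i => (zstar_mul _ _).symm) (G.star_mul _ _).symm
    · exact (q4.mul p4).congr
        (fun i => (mul_inv_rev _ _).symm.trans (congrArg _ (zstar_mul _ _).symm))
        ((mul_inv_rev _ _).symm.trans (congrArg _ (G.star_mul _ _).symm))
  · intro p a h1 Q hQ
    obtain ⟨p1, p2, p3, p4⟩ := h1 Q hQ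
    refine ⟨p2, ?_, ?_, ?_⟩
    · exact p1.congr (fun i => (inv_inv _).symm) (inv_inv _).symm
    · exact p4.congr (fun i => ((ZWM i.V).star_inv _).symm) (G.star_inv _).symm
    · exact p3.congr (fun i => (inv_inv _).symm.trans
        (congrArg (fun y : ZT i.V => y⁻¹) ((ZWM i.V).star_inv (p i)).symm))
        ((inv_inv _).symm.trans (congrArg _ (G.star_inv _).symm))
  · intro p q a b h1 h2 Q hQ
    obtain ⟨p1, p2, p3, p4⟩ := h1 Q hQ
    obtain ⟨q1, q2, q3, q4⟩ := h2 Q hQ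
    refine ⟨p1.sup hQ q1, ?_, ?_, ?_⟩
    · exact (p2.inf hQ q2).congr (fun i => (inv_sup _ _).symm) (inv_sup _ _).symm
    · exact (p3.inf hQ q3).congr (fun i => (zstar_sup _ _).symm) (G.star_sup _ _).symm
    · exact (p4.sup hQ q4).congr
        (fun i => (inv_inf _ _).symm.trans (congrArg _ (zstar_sup _ _).symm))
        ((inv_inf _ _).symm.trans (congrArg _ (G.star_sup _ _).symm))
  · intro p q a b h1 h2 Q hQ
    obtain ⟨p1, p2, p3, p4⟩ := h1 Q hQ
    obtain ⟨q1, q2, q3, q4⟩ := h2 Q hQ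
    refine ⟨p1.inf hQ q1, ?_, ?_, ?_⟩
    · exact (p2.sup hQ q2).congr (fun i => (inv_inf _ _).symm) (inv_inf _ _).symm
    · exact (p3.sup hQ q3).congr (fun i => (zstar_inf _ _).symm) (G.star_inf _ _).symm
    · exact (p4.inf hQ q4).congr
        (fun i => (inv_sup _ _).symm.trans (congrArg _ (zstar_inf _ _).symm))
        ((inv_sup _ _).symm.trans (congrArg _ (G.star_inf _ _).symm))
  · intro p a h1 Q hQ
    obtain ⟨p1, p2, p3, p4⟩ := h1 Q hQ
    refine ⟨p3, p4, ?_, ?_⟩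
    · exact p1.congr (fun i => (zstar_zstar _).symm) (G.star_star _).symm
    · exact p2.congr (fun i => congrArg _ (zstar_zstar _).symm)
        (congrArg _ (G.star_star _).symm)
  · intro g
    exact ⟨fun i => i.v g, fun Q hQ => ⟨MimS.gen g, MimS.gen_inv g, MimS.gen_star g,
      MimS.gen_star_inv g⟩⟩
  · intro p a b h1 h2
    by_contra hne
    obtain ⟨Q, hQ, hn⟩ := exists_prime_ne hne
    exact hn (MimS.unique law hS hQ (h1 Q hQ).1 (h2 Q hQ).1)

end Pool.Agent.Helper29
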