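import Pool.Agent.Helper29.Hol1
import Pool.Agent.Helper29.MVar

/-!
m-groups that are not normal-valued: realising finite configurations, independently for an
element and its star.
-/

set_option autoImplicit false
set_option linter.unusedSectionVars false

namespace Pool.Agent.Helper29

universe u

section lgroup

variable {G : Type u} [Group G] [Lattice G] [MulLeftMono G] [MulRightMono G]

/-- A prime with a locally transitive point. -/
def Adj (M : Subgroup G) : Prop :=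
  IsPrm M ∧ ∃ v, ltQ M 1 v ∧ ∀ p, ltQ M 1 p → ∃ m ∈ M, ltQ M (m * v) p

theorem exists_Adj (h : ¬ NV G) : ∃ M : Subgroup G, Adj M := by
  obtain ⟨M, N, hP⟩ := exists_prim h
  exact ⟨M, hP.prm, hP.exists_adj⟩

theorem ltQ_cj {g a b : G} {M : Subgroup G} :
    ltQ (cj g M) a b ↔ ltQ M (g⁻¹ * a * g) (g⁻¹ * b * g) := by
  unfold ltQ; rw [leQ_cj]

theorem Adj.conj {M : Subgroup G} (h : Adj M) (g : G) : Adj (cj g M) := by
  obtain ⟨hM, v, hv, hadj⟩ := h
  refine ⟨cj_prm hM, g * v * g⁻¹, ?_, ?_⟩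
  · rw [ltQ_cj]
    have e1 : g⁻¹ * 1 * g = 1 := by group
    have e2 : g⁻¹ * (g * v * g⁻¹) * g = v := by group
    rw [e1, e2]; exact hv
  · intro p hp
    rw [ltQ_cj] at hp
    have e1 : g⁻¹ * 1 * g = 1 := by group
    rw [e1] at hp
    obtain ⟨m, hm, h⟩ := hadj _ hp
    refine ⟨g * m * g⁻¹, conj_mem_cj.mpr hm, ?_⟩
    rw [ltQ_cj]
    have e2 : g⁻¹ * (g * m * g⁻¹ * (g * v * g⁻¹)) * g = m * v := by group
    rw [e2]; exact h

/-- equality of left cosets -/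
def eqQ (M : Subgroup G) (a b : G) : Prop := leQ M a b ∧ leQ M b a

theorem eqQ.symm {M : Subgroup G} {a b : G} (h : eqQ M a b) : eqQ M b a := ⟨h.2, h.1⟩

theorem eqQ.trans {M : Subgroup G} (hM : IsCvx M) {a b c : G} (h : eqQ M a b) (h' : eqQ M b c) :
    eqQ M a c := ⟨leQ_trans hM h.1 h'.1, leQ_trans hM h'.2 h.2⟩

theorem eqQ_mul_left {M : Subgroup G} (g a b : G) : eqQ M (g * a) (g * b) ↔ eqQ M a b := by
  unfold eqQ; rw [leQ_mul_left, leQ_mul_left]

theorem eqQ_refl {M : Subgroup G} (hM : IsCvx M) (a : G) : eqQ M a a :=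
  ⟨leQ_refl hM a, leQ_refl hM a⟩

theorem eqQ_mem {M : Subgroup G} (hM : IsCvx M) {m a : G} (hm : m ∈ M) : eqQ M (a * m) a :=
  ⟨leQ_mem_left hM hm, leQ_mem_right hM hm⟩

theorem ltQ_inf {M : Subgroup G} (hM : IsPrm M) {a b t : G} (h : ltQ M t a) (h' : ltQ M t b) :
    ltQ M t (a ⊓ b) := by
  rcases leQ_total hM a b with h1 | h1
  · exact h.trans_le hM (leQ_of_mem hM.toIsCvx (inf_mem_of_leQ h1))
  · refine h'.trans_le hM (leQ_of_mem hM.toIsCvx ?_)
    rw [inf_comm]; exact inf_mem_of_leQ h1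

/-- transitivity of the stabiliser on the points up to `v` -/
theorem adj_trans {M : Subgroup G} (hM : IsPrm M) {v : G}
    (hadj : ∀ p, ltQ M 1 p → ∃ m ∈ M, ltQ M (m * v) p) {p : G} (hp : ltQ M 1 p)
    (hp' : ∃ m ∈ M, leQ M p (m * v)) : ∃ m ∈ M, eqQ M (m * v) p := by
  have hMc := hM.toIsCvx
  obtain ⟨s, hs, h1⟩ := hadj p hp
  obtain ⟨s', hs', h2⟩ := hp'
  refine ⟨((p * v⁻¹) ⊔ s) ⊓ s', ?_, ?_, ?_⟩
  · refine hMc.between (hMc.inf_mem hs hs') hs' ?_ inf_le_right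
    exact inf_le_inf_right _ le_sup_right
  · rw [inf_mul, sup_mul, inv_mul_cancel_right]
    refine leQ_trans hMc (leQ_of_le hMc inf_le_left) ?_
    exact leQ_sup hMc (leQ_refl hMc p) (h1.le hM)
  · rw [inf_mul, sup_mul, inv_mul_cancel_right]
    exact leQ_inf hM (leQ_of_le hMc le_sup_left) h2

/-- differences of points up to `v` are again such points -/
theorem adj_diff {M : Subgroup G} (hM : IsPrm M) {v a b : G} (ha : leQ M 1 a) (hab : ltQ M a b)
    (hb : ∃ m ∈ M, leQ M b (m * v)) :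
    ltQ M 1 (a⁻¹ * b) ∧ ∃ m ∈ M, leQ M (a⁻¹ * b) (m * v) := by
  have hMc := hM.toIsCvx
  constructor
  · have := (ltQ_mul_left (M := M) a⁻¹ a b).mpr hab
    rwa [inv_mul_cancel] at this
  · obtain ⟨m, hm, h⟩ := hb
    have hm1 : a⁻¹ * (a ⊔ 1) ∈ M := by
      have : a⁻¹ * 1 ⊔ 1 ∈ M := ha
      rw [mul_sup, inv_mul_cancel, sup_comm]; exact this
    refine ⟨a⁻¹ * (a ⊔ 1) * m, M.mul_mem hm1 hm, ?_⟩
    have h1 : a⁻¹ * b ≤ a⁻¹ * (a ⊔ 1) * b := by
      rw [mul_assoc]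
      gcongr
      exact le_mul_of_one_le_left' le_sup_right
    refine leQ_trans hMc (leQ_of_le hMc h1) ?_
    rw [mul_assoc (a⁻¹ * (a ⊔ 1))]
    exact (leQ_mul_left _ _ _).mpr h

end lgroup

/-- In a non-normal-valued m-group some locally transitive prime is not closed under the star. -/
theorem exists_Adj_star {G : MGroup} {M : Subgroup G.carrier} (hA : Adj M) :
    ∃ M' : Subgroup G.carrier, Adj M' ∧ ∃ x ∈ M', G.star x ∉ M' := by
  by_contra hcon
  push Not at hcon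
  have hM := hA.1
  have hMc := hM.toIsCvx
  have hstar : ∀ x ∈ M, G.star x ∈ M := hcon M hA
  have hstar' : ∀ g : G.carrier, ∀ x ∈ cj g M, G.star x ∈ cj g M := fun g => hcon _ (hA.conj g)
  have hnorm : ∀ g : G.carrier, ∀ p ∈ M, ((G.star g)⁻¹ * g)⁻¹ * p * ((G.star g)⁻¹ * g) ∈ M := by
    intro g p hp
    have h1 : g * G.star p * g⁻¹ ∈ cj g M := conj_mem_cj.mpr (hstar _ hp)
    have h2 := hstar' g _ h1
    rw [G.star_mul, G.star_mul, G.star_star, G.star_inv, mem_cj] at h2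
    have e : g⁻¹ * (G.star g * p * (G.star g)⁻¹) * g =
      ((G.star g)⁻¹ * g)⁻¹ * p * ((G.star g)⁻¹ * g) := by group
    rwa [e] at h2
  obtain ⟨v, hv, hadj⟩ := hA.2
  obtain ⟨m, hm, hmv⟩ := hadj v hv
  -- q = m v, 1 < q < v
  have hq1 : ltQ M 1 (m * v) := by
    have h1 : ltQ M (m * 1) (m * v) := (ltQ_mul_left _ _ _).mpr hv
    rw [mul_one] at h1
    refine leQ.trans_lt hM ?_ h1
    have := leQ_mem_right hMc (a := 1) hm
    rwa [one_mul] at this
  set P := m * v ⊔ 1 with hP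
  have hP1 : 1 ≤ P := le_sup_right
  have hPv : ltQ M P v := by
    refine leQ.trans_lt hM (leQ_sup hMc (leQ_refl hMc _) (hq1.le hM)) hmv
  have hPpos : ltQ M 1 P := hq1.trans_le hM (leQ_of_le hMc le_sup_left)
  set t := (P ⊓ (P⁻¹ * v)) ⊔ 1 with ht
  have ht1 : 1 ≤ t := le_sup_right
  have hPv' : ltQ M 1 (P⁻¹ * v) := by
    have := (ltQ_mul_left (M := M) P⁻¹ P v).mpr hPv
    rwa [inv_mul_cancel] at this
  have htpos : ltQ M 1 t := (ltQ_inf hM hPpos hPv').trans_le hM (leQ_of_le hMc le_sup_left)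
  have htt : leQ M (t * t) v := by
    have h1 : t ≤ P := sup_le inf_le_left hP1
    have h2 : t ≤ P⁻¹ * v ⊔ 1 := sup_le_sup_right inf_le_right 1
    have h3 : t * t ≤ P * (P⁻¹ * v ⊔ 1) := mul_le_mul' h1 h2
    have e : P * (P⁻¹ * v ⊔ 1) = v ⊔ P := by rw [mul_sup, mul_inv_cancel_left, mul_one]
    rw [e] at h3
    exact leQ_trans hMc (leQ_of_le hMc h3) (leQ_sup hMc (leQ_refl hMc v) (hPv.le hM))
  have hst1 : 1 ≤ (G.star t)⁻¹ := by
    have := G.star_anti ht1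
    rw [G.star_one] at this
    exact one_le_inv'.mpr this
  set g := t ⊓ (G.star t)⁻¹ with hg
  have hg1 : 1 ≤ g := le_inf ht1 hst1
  have hgs : (G.star g)⁻¹ = g := by
    rw [hg, G.star_inf, G.star_inv, G.star_star, inv_sup, inv_inv, inf_comm]
  have hgM : g ∉ M := by
    intro h
    rcases hM.inf_mem h with h1 | h1
    · exact not_mem_of_ltQ hM htpos h1
    · have h2 := hstar _ (M.inv_mem h1)
      rw [inv_inv, G.star_star] at h2
      exact not_mem_of_ltQ hM htpos h2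
  have hgpos : ltQ M 1 g := by
    rcases ltQ_or hM hgM with h | h
    · exact h
    · exact absurd (leQ_of_le hMc hg1) h
  have hggpos : ltQ M 1 (g * g) := hgpos.trans_le hM (leQ_of_le hMc (le_mul_of_one_le_right' hg1))
  have hggv : leQ M (g * g) (1 * v) := by
    rw [one_mul]
    refine leQ_trans hMc (leQ_of_le hMc ?_) htt
    exact mul_le_mul' inf_le_left inf_le_left
  obtain ⟨m', hm', heq⟩ := adj_trans hM hadj hggpos ⟨1, M.one_mem, hggv⟩
  -- M fixes g g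
  have hfix : ∀ p ∈ M, eqQ M (p * (g * g)) (g * g) := by
    intro p hp
    have h1 := hnorm g p hp
    rw [hgs] at h1
    have h2 := eqQ_mem hMc (a := g * g) h1
    have e : g * g * ((g * g)⁻¹ * p * (g * g)) = p * (g * g) := by group
    rwa [e] at h2
  -- contradiction
  apply hmv
  -- m v ≡ v
  have h1 := hfix (m' * m * m'⁻¹) (M.mul_mem (M.mul_mem hm' hm) (M.inv_mem hm'))
  have h2 : eqQ M (m' * m * m'⁻¹ * (m' * v)) (m' * m * m'⁻¹ * (g * g)) :=
    (eqQ_mul_left _ _ _).mpr heq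
  have h3 := (h2.trans hMc h1).trans hMc heq.symm
  have e : m' * m * m'⁻¹ * (m' * v) = m' * (m * v) := by group
  rw [e, eqQ_mul_left] at h3
  exact h3.2

/-- The data used to realise finite configurations. -/
structure Cfg (G : MGroup) where
  M : Subgroup G.carrier
  prm : IsPrm M
  q : ℕ → G.carrier
  dec : ∀ j, ltQ M (q (j + 1)) (q j)
  real : ∀ S S' : Finset (ℕ × ℕ), (∀ x ∈ S, ∀ y ∈ S, x.1 < y.1 ↔ x.2 < y.2) →
    (∀ x ∈ S', ∀ y ∈ S', x.1 < y.1 ↔ x.2 < y.2) →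
    ∃ g : G.carrier, (∀ x ∈ S, eqQ M (g * q x.1) (q x.2)) ∧
      ∀ x ∈ S', eqQ M (G.star g * q x.1) (q x.2)

theorem exists_cfg {G : MGroup} (hnv : ¬ NV G.carrier) : Nonempty (Cfg G) := by
  classical
  obtain ⟨M0, hA0⟩ := exists_Adj hnv
  obtain ⟨M, hA, x0, hx0, hx0s⟩ := exists_Adj_star hA0
  have hM := hA.1
  have hMc := hM.toIsCvx
  obtain ⟨v, hv, hadj⟩ := hA.2
  -- the element d
  obtain ⟨d, hd1, hdM, hdS⟩ : ∃ d : G.carrier, 1 ≤ d ∧ d ∉ M ∧ G.star d ∈ M := by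
    by_cases h : G.star x0 ⊔ 1 ∈ M
    · refine ⟨(G.star x0)⁻¹ ⊔ 1, le_sup_right, fun h' => hx0s (hMc.mem_of_pos_neg h h'), ?_⟩
      rw [G.star_sup, G.star_inv, G.star_star, G.star_one]
      exact hMc.inf_mem (M.inv_mem hx0) M.one_mem
    · refine ⟨G.star x0 ⊔ 1, le_sup_right, h, ?_⟩
      rw [G.star_sup, G.star_star, G.star_one]
      exact hMc.inf_mem hx0 M.one_mem
  set d' := (G.star d)⁻¹ with hd'
  have hd'M : d' ∈ M := M.inv_mem hdS
  have hsd : G.star d = d'⁻¹ := by rw [hd', inv_inv]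
  have hsd' : G.star d' = d⁻¹ := by rw [hd', G.star_inv, G.star_star]
  have hdpos : ltQ M 1 d := by
    rcases ltQ_or hM hdM with h | h
    · exact h
    · exact absurd (leQ_of_le hMc hd1) h
  set c₀ := d * d'⁻¹ ⊔ 1 with hc₀
  have hc1 : 1 ≤ c₀ := le_sup_right
  have hcpos : ltQ M 1 c₀ := by
    refine hdpos.trans_le hM (leQ_trans hMc (leQ_mem_right hMc (M.inv_mem hd'M)) ?_)
    exact leQ_of_le hMc le_sup_left
  have hddpos : ltQ M 1 (d'⁻¹ * d) := by
    have h1 : ltQ M (d'⁻¹ * 1) (d'⁻¹ * d) := (ltQ_mul_left _ _ _).mpr hdpos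
    rw [mul_one] at h1
    refine leQ.trans_lt hM ?_ h1
    have := leQ_mem_right hMc (a := 1) (M.inv_mem hd'M)
    rwa [one_mul] at this
  set e₀ := v ⊓ (c₀ ⊓ (d'⁻¹ * d)) with he₀
  have he₀pos : ltQ M 1 e₀ := ltQ_inf hM hv (ltQ_inf hM hcpos hddpos)
  have he₀c : leQ M e₀ c₀ := leQ_of_le hMc (inf_le_right.trans inf_le_left)
  have he₀d : leQ M e₀ (d'⁻¹ * d) := leQ_of_le hMc (inf_le_right.trans inf_le_right)
  -- the star of an element bounded by c₀ acts trivially near the base point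
  have hS : ∀ h : G.carrier, c₀⁻¹ ≤ h → h ≤ c₀ → ∀ p, leQ M 1 p → leQ M p e₀ →
      eqQ M (G.star h * p) p := by
    intro h h1 h2 p hp1 hp2
    have hsc : (G.star c₀)⁻¹ = d⁻¹ * d' ⊔ 1 := by
      rw [hc₀, G.star_sup, G.star_mul, G.star_inv, hsd, hsd', G.star_one, inv_inf, inv_one]
      congr 1
      group
    have a1 : leQ M ((G.star c₀)⁻¹ * p) p := by
      rw [hsc, sup_mul, one_mul]
      apply leQ_sup hMc _ (leQ_refl hMc p)
      -- d⁻¹ d' p ≤ p
      have b1 : leQ M (d' * p) d := by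
        have := (leQ_mul_left (Q := M) d' p (d'⁻¹ * d)).mpr (leQ_trans hMc hp2 he₀d)
        rwa [mul_inv_cancel_left] at this
      have b2 : leQ M d (d * p) := by
        have := (leQ_mul_left (Q := M) d 1 p).mpr hp1
        rwa [mul_one] at this
      have b3 := (leQ_mul_left (Q := M) d⁻¹ _ _).mpr (leQ_trans hMc b1 b2)
      rwa [inv_mul_cancel_left, ← mul_assoc] at b3
    have a2 : G.star h ≤ (G.star c₀)⁻¹ := by
      have := G.star_anti h1
      rwa [G.star_inv] at this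
    have a3 : G.star c₀ ≤ G.star h := G.star_anti h2
    constructor
    · refine leQ_trans hMc (leQ_of_le hMc ?_) a1
      gcongr
    · have a4 : leQ M p (G.star c₀ * p) := by
        have := (leQ_mul_left (Q := M) (G.star c₀) _ _).mpr a1
        rwa [mul_inv_cancel_left] at this
      refine leQ_trans hMc a4 (leQ_of_le hMc ?_)
      gcongr
  -- the points
  obtain ⟨m₁, hm₁, hu⟩ := hadj e₀ he₀pos
  have hupos : ltQ M 1 (m₁ * v) := by
    have h1 : ltQ M (m₁ * 1) (m₁ * v) := (ltQ_mul_left _ _ _).mpr hv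
    rw [mul_one] at h1
    refine leQ.trans_lt hM ?_ h1
    have := leQ_mem_right hMc (a := 1) hm₁
    rwa [one_mul] at this
  obtain ⟨m₂, hm₂, hlt⟩ := hadj _ hupos
  set t := m₂ * m₁⁻¹ with ht
  have htM : t ∈ M := M.mul_mem hm₂ (M.inv_mem hm₁)
  let q : ℕ → G.carrier := fun j => t ^ j * (m₁ * v)
  have hq : ∀ j, q j = t ^ j * (m₁ * v) := fun j => rfl
  have hdec : ∀ j, ltQ M (q (j + 1)) (q j) := by
    intro j
    rw [hq, hq, pow_succ, mul_assoc, ltQ_mul_left]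
    have e : t * (m₁ * v) = m₂ * v := by rw [ht]; group
    rw [e]; exact hlt
  have hdec' : ∀ i j, i < j → ltQ M (q j) (q i) := by
    intro i j hij
    induction j with
    | zero => omega
    | succ j ih =>
      rcases Nat.lt_succ_iff_lt_or_eq.mp hij with h | h
      · exact (hdec j).trans hM (ih h)
      · rw [h]; exact hdec j
  have hqpos : ∀ j, ltQ M 1 (q j) := by
    intro j
    have h1 : ltQ M (t ^ j * 1) (t ^ j * (m₁ * v)) := (ltQ_mul_left _ _ _).mpr hupos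
    rw [mul_one] at h1
    refine leQ.trans_lt hM ?_ h1
    have := leQ_mem_right hMc (a := 1) (M.pow_mem htM j)
    rwa [one_mul] at this
  have hqe : ∀ j, leQ M (q j) e₀ := by
    intro j
    rcases Nat.eq_zero_or_pos j with h | h
    · rw [h, hq, pow_zero, one_mul]; exact hu.le hM
    · have h0 : q 0 = m₁ * v := by rw [hq, pow_zero, one_mul]
      have := hdec' 0 j h
      rw [h0] at this
      exact leQ_trans hMc (this.le hM) (hu.le hM)
  have hqΔ : ∀ j, ∃ m ∈ M, leQ M (q j) (m * v) := by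
    intro j
    refine ⟨t ^ j * m₁, M.mul_mem (M.pow_mem htM j) hm₁, ?_⟩
    rw [hq, mul_assoc]; exact leQ_refl hMc _
  -- pair maps
  have hpair : ∀ x y : ℕ × ℕ, (x.1 < y.1 ↔ x.2 < y.2) → (y.1 < x.1 ↔ y.2 < x.2) →
      ∃ g : G.carrier, eqQ M (g * q x.1) (q x.2) ∧ eqQ M (g * q y.1) (q y.2) := by
    have key : ∀ x y : ℕ × ℕ, x.1 < y.1 → x.2 < y.2 →
      ∃ g : G.carrier, eqQ M (g * q x.1) (q x.2) ∧ eqQ M (g * q y.1) (q y.2) := by
      intro x y h1 h2
      have a1 := hdec' _ _ h1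
      have a2 := hdec' _ _ h2
      obtain ⟨b1, b2⟩ := adj_diff hM ((hqpos y.1).le hM) a1 (hqΔ x.1)
      obtain ⟨b3, b4⟩ := adj_diff hM ((hqpos y.2).le hM) a2 (hqΔ x.2)
      obtain ⟨n₁, hn₁, hn₁e⟩ := adj_trans hM hadj b1 b2
      obtain ⟨n₂, hn₂, hn₂e⟩ := adj_trans hM hadj b3 b4
      refine ⟨q y.2 * n₂ * n₁⁻¹ * (q y.1)⁻¹, ?_, ?_⟩
      · -- g q(x.1) = q(y.2) n₂ n₁⁻¹ (q(y.1)⁻¹ q(x.1))
        have c1 : eqQ M (q y.2 * n₂ * n₁⁻¹ * ((q y.1)⁻¹ * q x.1)) (q y.2 * n₂ * n₁⁻¹ * (n₁ * v)) :=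
          (eqQ_mul_left _ _ _).mpr hn₁e.symm
        have c2 : eqQ M (q y.2 * (n₂ * v)) (q y.2 * ((q y.2)⁻¹ * q x.2)) :=
          (eqQ_mul_left _ _ _).mpr hn₂e
        rw [mul_inv_cancel_left] at c2
        have e1 : q y.2 * n₂ * n₁⁻¹ * (n₁ * v) = q y.2 * (n₂ * v) := by group
        rw [e1] at c1
        have e2 : q y.2 * n₂ * n₁⁻¹ * ((q y.1)⁻¹ * q x.1) =
          q y.2 * n₂ * n₁⁻¹ * (q y.1)⁻¹ * q x.1 := by group
        rw [e2] at c1
        exact c1.trans hMc c2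
      · have e1 : q y.2 * n₂ * n₁⁻¹ * (q y.1)⁻¹ * q y.1 = q y.2 * (n₂ * n₁⁻¹) := by group
        rw [e1]
        exact eqQ_mem hMc (M.mul_mem hn₂ (M.inv_mem hn₁))
    intro x y h1 h2
    rcases lt_trichotomy x.1 y.1 with h | h | h
    · exact key x y h (h1.mp h)
    · have h3 : x.2 = y.2 := by
        rcases lt_trichotomy x.2 y.2 with h4 | h4 | h4
        · exact absurd (h1.mpr h4) (by omega)
        · exact h4
        · exact absurd (h2.mpr h4) (by omega)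
      refine ⟨q x.2 * (q x.1)⁻¹, ?_, ?_⟩
      · rw [inv_mul_cancel_right]; exact eqQ_refl hMc _
      · rw [← h, ← h3, inv_mul_cancel_right]; exact eqQ_refl hMc _
    · obtain ⟨g, g1, g2⟩ := key y x h (h2.mp h)
      exact ⟨g, g2, g1⟩
  -- finite maps
  have hfin : ∀ S : Finset (ℕ × ℕ), (∀ x ∈ S, ∀ y ∈ S, x.1 < y.1 ↔ x.2 < y.2) →
      ∃ g : G.carrier, ∀ x ∈ S, eqQ M (g * q x.1) (q x.2) := by
    intro S hS
    rcases S.eq_empty_or_nonempty with hSe | hSn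
    · exact ⟨1, fun x hx => by rw [hSe] at hx; exact absurd hx (by simp)⟩
    have hex : ∀ x y : ℕ × ℕ, ∃ g : G.carrier, x ∈ S → y ∈ S →
        eqQ M (g * q x.1) (q x.2) ∧ eqQ M (g * q y.1) (q y.2) := by
      intro x y
      by_cases h : x ∈ S ∧ y ∈ S
      · obtain ⟨g, hg⟩ := hpair x y (hS x h.1 y h.2) (hS y h.2 x h.1)
        exact ⟨g, fun _ _ => hg⟩
      · exact ⟨1, fun h1 h2 => absurd ⟨h1, h2⟩ h⟩
    choose F hF using hex
    refine ⟨S.sup' hSn (fun x => S.inf' hSn (fun y => F x y)), ?_⟩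
    intro y hy
    constructor
    · refine Finset.sup'_induction hSn _ (p := fun g => leQ M (g * q y.1) (q y.2)) ?_ ?_
      · intro a ha b hb
        rw [sup_mul]; exact leQ_sup hMc ha hb
      · intro x hx
        refine leQ_trans hMc (leQ_of_le hMc ?_) (hF x y hx hy).2.1
        gcongr
        exact Finset.inf'_le _ hy
    · have h1 : leQ M (q y.2) (S.inf' hSn (fun z => F y z) * q y.1) := by
        refine Finset.inf'_induction hSn _ (p := fun g => leQ M (q y.2) (g * q y.1)) ?_ ?_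
        · intro a ha b hb
          rw [inf_mul]; exact leQ_inf hM ha hb
        · intro z hz
          exact (hF y z hy hz).1.2
      refine leQ_trans hMc h1 (leQ_of_le hMc ?_)
      gcongr
      exact Finset.le_sup' (fun x => S.inf' hSn (fun y => F x y)) hy
  -- the cut
  have hcut : ∀ (h : G.carrier) (i j : ℕ), eqQ M (h * q i) (q j) →
      eqQ M (((h ⊓ c₀) ⊔ c₀⁻¹) * q i) (q j) := by
    intro h i j he
    have hle : ∀ i j, leQ M (q j) (c₀ * q i) := by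
      intro i j
      have b1 : leQ M c₀ (c₀ * q i) := by
        have := (leQ_mul_left (Q := M) c₀ 1 (q i)).mpr ((hqpos i).le hM)
        rwa [mul_one] at this
      exact leQ_trans hMc (leQ_trans hMc (hqe j) he₀c) b1
    constructor
    · rw [sup_mul, inf_mul]
      apply leQ_sup hMc
      · exact leQ_trans hMc (leQ_of_le hMc inf_le_left) he.1
      · have := (leQ_mul_left (Q := M) c₀⁻¹ _ _).mpr (hle j i)
        rwa [inv_mul_cancel_left] at this
    · rw [sup_mul, inf_mul]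
      refine leQ_trans hMc ?_ (leQ_of_le hMc le_sup_left)
      exact leQ_inf hM he.2 (hle i j)
  have hbd : ∀ h : G.carrier, c₀⁻¹ ≤ (h ⊓ c₀) ⊔ c₀⁻¹ ∧ (h ⊓ c₀) ⊔ c₀⁻¹ ≤ c₀ := by
    intro h
    refine ⟨le_sup_right, sup_le inf_le_right ?_⟩
    exact (inv_le_one'.mpr hc1).trans hc1
  refine ⟨⟨M, hM, q, hdec, ?_⟩⟩
  intro S S' hS1 hS2
  obtain ⟨h₁, hh₁⟩ := hfin S hS1
  obtain ⟨h₂, hh₂⟩ := hfin S' hS2
  set k₁ := (h₁ ⊓ c₀) ⊔ c₀⁻¹ with hk₁
  set k₂ := (h₂ ⊓ c₀) ⊔ c₀⁻¹ with hk₂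
  refine ⟨k₁ * G.star k₂, ?_, ?_⟩
  · intro x hx
    have a1 := hS k₂ (hbd h₂).1 (hbd h₂).2 (q x.1) ((hqpos x.1).le hM) (hqe x.1)
    have a2 := hcut h₁ x.1 x.2 (hh₁ x hx)
    rw [mul_assoc]
    exact ((eqQ_mul_left _ _ _).mpr a1).trans hMc a2
  · intro x hx
    have a1 := hS k₁ (hbd h₁).1 (hbd h₁).2 (q x.2) ((hqpos x.2).le hM) (hqe x.2)
    have a2 := hcut h₂ x.1 x.2 (hh₂ x hx)
    rw [G.star_mul, G.star_star, mul_assoc]
    exact ((eqQ_mul_left _ _ _).mpr a2).trans hMc a1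

end Pool.Agent.Helper29
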