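import Pool.Agent.Helper29.Hol2

/-!
A variety of m-groups containing an m-group that is not normal-valued contains all m-groups.
-/

set_option autoImplicit false
set_option linter.unusedSectionVars false

namespace Pool.Agent.Helper29

/-- The index set. -/
structure IxK (G K : MGroup) where
  r : K.carrier → ℕ
  v : K.carrier → G.carrier

variable {G K : MGroup} (c : Cfg G)

theorem Cfg.dec' {i j : ℕ} (h : i < j) : ltQ c.M (c.q j) (c.q i) := by
  induction j with
  | zero => omega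
  | succ j ih =>
    rcases Nat.lt_succ_iff_lt_or_eq.mp h with h1 | h1
    · exact (c.dec j).trans c.prm (ih h1)
    · rw [h1]; exact c.dec j

theorem Cfg.le_of {i j : ℕ} (h : i ≤ j) : leQ c.M (c.q j) (c.q i) := by
  rcases h.lt_or_eq with h1 | h1
  · exact (c.dec' h1).le c.prm
  · rw [h1]; exact leQ_refl c.prm.toIsCvx _

theorem Cfg.inj {i j : ℕ} (h : eqQ c.M (c.q i) (c.q j)) : i = j := by
  rcases lt_trichotomy i j with h1 | h1 | h1
  · exact absurd h.1 (c.dec' h1)
  · exact h1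
  · exact absurd h.2 (c.dec' h1)

/-- Good indices for a prime and a finite set. -/
def GoodK (Q : Subgroup K.carrier) (D : Finset K.carrier) (i : IxK G K) : Prop :=
  (∀ a ∈ D, ∀ b ∈ D, (i.r b ≤ i.r a ↔ leQ Q a b)) ∧
    ∀ g ∈ D, ∀ a ∈ D, (g * a ∈ D → eqQ c.M (i.v g * c.q (i.r a)) (c.q (i.r (g * a)))) ∧
      (K.star g * a ∈ D → eqQ c.M (G.star (i.v g) * c.q (i.r a)) (c.q (i.r (K.star g * a))))

variable {c}

theorem GoodK.mono {Q : Subgroup K.carrier} {D D' : Finset K.carrier} {i : IxK G K}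
    (h : GoodK c Q D' i) (hD : D ⊆ D') : GoodK c Q D i :=
  ⟨fun a ha b hb => h.1 a (hD ha) b (hD hb), fun g hg a ha =>
    ⟨fun h1 => (h.2 g (hD hg) a (hD ha)).1 (hD h1), fun h1 => (h.2 g (hD hg) a (hD ha)).2 (hD h1)⟩⟩

variable (c)

theorem exists_goodK {Q : Subgroup K.carrier} (hQ : IsPrm Q) (D : Finset K.carrier) :
    ∃ i : IxK G K, GoodK c Q D i := by
  classical
  let r : K.carrier → ℕ := fun a => (D.filter (fun b => ¬ leQ Q b a)).card
  have hr : ∀ a ∈ D, ∀ b ∈ D, (r b ≤ r a ↔ leQ Q a b) := by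
    have h1 : ∀ a ∈ D, ∀ b ∈ D, leQ Q a b → r b ≤ r a := by
      intro a ha b hb h
      apply Finset.card_le_card
      intro x hx
      rw [Finset.mem_filter] at hx ⊢
      exact ⟨hx.1, fun h2 => hx.2 (leQ_trans hQ.toIsCvx h2 h)⟩
    have h2 : ∀ a ∈ D, ∀ b ∈ D, ¬ leQ Q a b → r a < r b := by
      intro a ha b hb h
      have hba := (leQ_total hQ a b).resolve_left h
      apply Finset.card_lt_card
      rw [Finset.ssubset_iff_of_subset]
      · exact ⟨a, Finset.mem_filter.mpr ⟨ha, h⟩, fun h3 =>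
          (Finset.mem_filter.mp h3).2 (leQ_refl hQ.toIsCvx a)⟩
      · intro x hx
        rw [Finset.mem_filter] at hx ⊢
        exact ⟨hx.1, fun h2 => hx.2 (leQ_trans hQ.toIsCvx h2 hba)⟩
    intro a ha b hb
    refine ⟨fun h => ?_, h1 a ha b hb⟩
    by_contra hcon
    exact absurd (h2 a ha b hb hcon) (not_lt.mpr h)
  have hord : ∀ g : K.carrier, ∀ x ∈ (D.filter (fun a => g * a ∈ D)).image (fun a => (r a, r (g * a))),
      ∀ y ∈ (D.filter (fun a => g * a ∈ D)).image (fun a => (r a, r (g * a))),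
      x.1 < y.1 ↔ x.2 < y.2 := by
    intro g x hx y hy
    obtain ⟨a, ha, rfl⟩ := Finset.mem_image.mp hx
    obtain ⟨b, hb, rfl⟩ := Finset.mem_image.mp hy
    rw [Finset.mem_filter] at ha hb
    dsimp only
    rw [← not_le, ← not_le, hr a ha.1 b hb.1, hr _ ha.2 _ hb.2, leQ_mul_left]
  have hex : ∀ g : K.carrier, ∃ w : G.carrier,
      (∀ a ∈ D, g * a ∈ D → eqQ c.M (w * c.q (r a)) (c.q (r (g * a)))) ∧
      (∀ a ∈ D, K.star g * a ∈ D → eqQ c.M (G.star w * c.q (r a)) (c.q (r (K.star g * a)))) := by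
    intro g
    obtain ⟨w, hw1, hw2⟩ := c.real _ _ (hord g) (hord (K.star g))
    refine ⟨w, ?_, ?_⟩
    · intro a ha hga
      exact hw1 (r a, r (g * a)) (Finset.mem_image.mpr ⟨a, Finset.mem_filter.mpr ⟨ha, hga⟩, rfl⟩)
    · intro a ha hga
      exact hw2 (r a, r (K.star g * a))
        (Finset.mem_image.mpr ⟨a, Finset.mem_filter.mpr ⟨ha, hga⟩, rfl⟩)
  choose v hv using hex
  exact ⟨⟨r, v⟩, hr, fun g _ a ha => ⟨(hv g).1 a ha, (hv g).2 a ha⟩⟩

/-- `w` mimics `g` at every point, for large finite sets. -/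
def MimK (Q : Subgroup K.carrier) (w : IxK G K → G.carrier) (g : K.carrier) : Prop :=
  ∀ a : K.carrier, ∃ D : Finset K.carrier, ∀ i : IxK G K, GoodK c Q D i →
    eqQ c.M (w i * c.q (i.r a)) (c.q (i.r (g * a)))

variable {c}

theorem MimK.congr {Q : Subgroup K.carrier} {w w' : IxK G K → G.carrier} {g g' : K.carrier}
    (h : MimK c Q w g) (hw : ∀ i, w i = w' i) (hg : g = g') : MimK c Q w' g' := by
  have : w = w' := funext hw
  subst this; subst hg; exact h

theorem MimK.mul {Q : Subgroup K.carrier} {w w' : IxK G K → G.carrier} {g g' : K.carrier}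
    (h : MimK c Q w g) (h' : MimK c Q w' g') : MimK c Q (fun i => w i * w' i) (g * g') := by
  classical
  intro a
  obtain ⟨D, hD⟩ := h (g' * a)
  obtain ⟨D', hD'⟩ := h' a
  refine ⟨D ∪ D', fun i hi => ?_⟩
  have h1 := hD' i (hi.mono Finset.subset_union_right)
  have h2 := hD i (hi.mono Finset.subset_union_left)
  rw [mul_assoc, mul_assoc]
  exact ((eqQ_mul_left _ _ _).mpr h1).trans c.prm.toIsCvx h2

theorem MimK.one {Q : Subgroup K.carrier} : MimK c Q (fun _ => 1) (1 : K.carrier) := by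
  intro a
  exact ⟨∅, fun i _ => by rw [one_mul, one_mul]; exact eqQ_refl c.prm.toIsCvx _⟩

theorem GoodK.r_eq {Q : Subgroup K.carrier} (hQ : IsPrm Q) {D : Finset K.carrier} {i : IxK G K}
    (hi : GoodK c Q D i) {a b : K.carrier} (ha : a ∈ D) (hb : b ∈ D) (h : a⁻¹ * b ∈ Q) :
    i.r a = i.r b := by
  apply le_antisymm
  · exact (hi.1 b hb a ha).mpr (leQ_of_mem' hQ.toIsCvx h)
  · exact (hi.1 a ha b hb).mpr (leQ_of_mem hQ.toIsCvx h)

theorem MimK.sup {Q : Subgroup K.carrier} (hQ : IsPrm Q) {w w' : IxK G K → G.carrier}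
    {g g' : K.carrier} (h : MimK c Q w g) (h' : MimK c Q w' g') :
    MimK c Q (fun i => w i ⊔ w' i) (g ⊔ g') := by
  classical
  have hMc := c.prm.toIsCvx
  intro a
  obtain ⟨D, hD⟩ := h a
  obtain ⟨D', hD'⟩ := h' a
  refine ⟨D ∪ D' ∪ {g * a, g' * a, (g ⊔ g') * a}, fun i hi => ?_⟩
  have hm := hi.1
  have k1 := hD i (hi.mono (by intro x hx; simp [hx]))
  have k2 := hD' i (hi.mono (by intro x hx; simp [hx]))
  have e : (g ⊔ g') * a = g * a ⊔ g' * a := sup_mul _ _ _
  rcases leQ_total hQ (g * a) (g' * a) with h1 | h1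
  · have h2 := (hm (g * a) (by simp) (g' * a) (by simp)).mpr h1
    have h3 : (g' * a)⁻¹ * ((g ⊔ g') * a) ∈ Q := by rw [e]; exact sup_mem_of_leQ h1
    rw [← hi.r_eq hQ (by simp) (by simp) h3]
    constructor
    · rw [sup_mul]
      exact leQ_sup hMc (leQ_trans hMc k1.1 (c.le_of h2)) k2.1
    · rw [sup_mul]
      exact leQ_trans hMc k2.2 (leQ_of_le hMc le_sup_right)
  · have h2 := (hm (g' * a) (by simp) (g * a) (by simp)).mpr h1
    have h3 : (g * a)⁻¹ * ((g ⊔ g') * a) ∈ Q := by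
      rw [e, sup_comm]; exact sup_mem_of_leQ h1
    rw [← hi.r_eq hQ (by simp) (by simp) h3]
    constructor
    · rw [sup_mul]
      exact leQ_sup hMc k1.1 (leQ_trans hMc k2.1 (c.le_of h2))
    · rw [sup_mul]
      exact leQ_trans hMc k1.2 (leQ_of_le hMc le_sup_left)

theorem MimK.inf {Q : Subgroup K.carrier} (hQ : IsPrm Q) {w w' : IxK G K → G.carrier}
    {g g' : K.carrier} (h : MimK c Q w g) (h' : MimK c Q w' g') :
    MimK c Q (fun i => w i ⊓ w' i) (g ⊓ g') := by
  classical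
  have hMc := c.prm.toIsCvx
  intro a
  obtain ⟨D, hD⟩ := h a
  obtain ⟨D', hD'⟩ := h' a
  refine ⟨D ∪ D' ∪ {g * a, g' * a, (g ⊓ g') * a}, fun i hi => ?_⟩
  have hm := hi.1
  have k1 := hD i (hi.mono (by intro x hx; simp [hx]))
  have k2 := hD' i (hi.mono (by intro x hx; simp [hx]))
  have e : (g ⊓ g') * a = g * a ⊓ g' * a := inf_mul _ _ _
  rcases leQ_total hQ (g * a) (g' * a) with h1 | h1
  · have h2 := (hm (g * a) (by simp) (g' * a) (by simp)).mpr h1
    have h3 : (g * a)⁻¹ * ((g ⊓ g') * a) ∈ Q := by rw [e]; exact inf_mem_of_leQ h1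
    rw [← hi.r_eq hQ (by simp) (by simp) h3]
    constructor
    · rw [inf_mul]
      exact leQ_trans hMc (leQ_of_le hMc inf_le_left) k1.1
    · rw [inf_mul]
      exact leQ_inf c.prm k1.2 (leQ_trans hMc (c.le_of h2) k2.2)
  · have h2 := (hm (g' * a) (by simp) (g * a) (by simp)).mpr h1
    have h3 : (g' * a)⁻¹ * ((g ⊓ g') * a) ∈ Q := by
      rw [e, inf_comm]; exact inf_mem_of_leQ h1
    rw [← hi.r_eq hQ (by simp) (by simp) h3]
    constructor
    · rw [inf_mul]
      exact leQ_trans hMc (leQ_of_le hMc inf_le_right) k2.1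
    · rw [inf_mul]
      exact leQ_inf c.prm (leQ_trans hMc (c.le_of h2) k1.2) k2.2

theorem MimK.gen {Q : Subgroup K.carrier} (g : K.carrier) : MimK c Q (fun i => i.v g) g := by
  classical
  intro a
  exact ⟨{g, a, g * a}, fun i hi => (hi.2 g (by simp) a (by simp)).1 (by simp)⟩

theorem MimK.gen_inv {Q : Subgroup K.carrier} (g : K.carrier) :
    MimK c Q (fun i => (i.v g)⁻¹) g⁻¹ := by
  classical
  intro a
  refine ⟨{g, g⁻¹ * a, a}, fun i hi => ?_⟩
  have h1 := (hi.2 g (by simp) (g⁻¹ * a) (by simp)).1 (by simp)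
  rw [mul_inv_cancel_left] at h1
  have h2 := (eqQ_mul_left (M := c.M) (i.v g)⁻¹ _ _).mpr h1
  rw [inv_mul_cancel_left] at h2
  exact h2.symm

theorem MimK.gen_star {Q : Subgroup K.carrier} (g : K.carrier) :
    MimK c Q (fun i => G.star (i.v g)) (K.star g) := by
  classical
  intro a
  exact ⟨{g, a, K.star g * a}, fun i hi => (hi.2 g (by simp) a (by simp)).2 (by simp)⟩

theorem MimK.gen_star_inv {Q : Subgroup K.carrier} (g : K.carrier) :
    MimK c Q (fun i => (G.star (i.v g))⁻¹) (K.star g)⁻¹ := by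
  classical
  intro a
  refine ⟨{g, (K.star g)⁻¹ * a, a}, fun i hi => ?_⟩
  have h1 := (hi.2 g (by simp) ((K.star g)⁻¹ * a) (by simp)).2 (by simp)
  rw [mul_inv_cancel_left] at h1
  have h2 := (eqQ_mul_left (M := c.M) (G.star (i.v g))⁻¹ _ _).mpr h1
  rw [inv_mul_cancel_left] at h2
  exact h2.symm

theorem MimK.unique {Q : Subgroup K.carrier} (hQ : IsPrm Q) {w : IxK G K → G.carrier}
    {g g' : K.carrier} (h : MimK c Q w g) (h' : MimK c Q w g') : g⁻¹ * g' ∈ Q := by
  classical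
  obtain ⟨D, hD⟩ := h 1
  obtain ⟨D', hD'⟩ := h' 1
  obtain ⟨i, hi⟩ := exists_goodK c hQ (D ∪ D' ∪ {g, g'})
  have h1 := hD i (hi.mono (by intro x hx; simp [hx]))
  have h2 := hD' i (hi.mono (by intro x hx; simp [hx]))
  rw [mul_one] at h1 h2
  have h3 : i.r g = i.r g' := c.inj (h1.symm.trans c.prm.toIsCvx h2)
  apply leQ_antisymm hQ.toIsCvx
  · exact (hi.1 g (by simp) g' (by simp)).mp h3.ge
  · exact (hi.1 g' (by simp) g (by simp)).mp h3.le

/-- The m-group version of Holland's theorem. -/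
theorem holland {E : Set (MTerm × MTerm)} (hG : G ∈ Models E) (hnv : ¬ NV G.carrier)
    (K : MGroup) : K ∈ Models E := by
  obtain ⟨c⟩ := exists_cfg hnv
  refine relHSP (ι := IxK G K) (fun _ => G) (fun _ => hG) K
    (fun p g => ∀ Q : Subgroup K.carrier, IsPrm Q →
      MimK c Q p g ∧ MimK c Q (fun i => (p i)⁻¹) g⁻¹ ∧
      MimK c Q (fun i => G.star (p i)) (K.star g) ∧
      MimK c Q (fun i => (G.star (p i))⁻¹) (K.star g)⁻¹) ?_ ?_ ?_ ?_ ?_ ?_ ?_ ?_
  · intro Q hQ
    refine ⟨MimK.one, ?_, ?_, ?_⟩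
    · exact (MimK.one (Q := Q)).congr (fun i => inv_one.symm) inv_one.symm
    · exact (MimK.one (Q := Q)).congr (fun i => G.star_one.symm) K.star_one.symm
    · exact (MimK.one (Q := Q)).congr (fun i => (inv_one.symm.trans (congrArg _ G.star_one.symm)))
        (inv_one.symm.trans (congrArg _ K.star_one.symm))
  · intro p q a b h1 h2 Q hQ
    obtain ⟨p1, p2, p3, p4⟩ := h1 Q hQ
    obtain ⟨q1, q2, q3, q4⟩ := h2 Q hQ
    refine ⟨p1.mul q1, ?_, ?_, ?_⟩
    · exact (q2.mul p2).congr (fun i => (mul_inv_rev _ _).symm) (mul_inv_rev _ _).symm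
    · exact (p3.mul q3).congr (fun i => (G.star_mul _ _).symm) (K.star_mul _ _).symm
    · exact (q4.mul p4).congr
        (fun i => (mul_inv_rev _ _).symm.trans (congrArg _ (G.star_mul _ _).symm))
        ((mul_inv_rev _ _).symm.trans (congrArg _ (K.star_mul _ _).symm))
  · intro p a h1 Q hQ
    obtain ⟨p1, p2, p3, p4⟩ := h1 Q hQ
    refine ⟨p2, ?_, ?_, ?_⟩
    · exact p1.congr (fun i => (inv_inv _).symm) (inv_inv _).symm
    · exact p4.congr (fun i => (G.star_inv _).symm) (K.star_inv _).symm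
    · exact p3.congr (fun i => (inv_inv _).symm.trans
        (congrArg (fun y : G.carrier => y⁻¹) (G.star_inv (p i)).symm))
        ((inv_inv _).symm.trans (congrArg _ (K.star_inv _).symm))
  · intro p q a b h1 h2 Q hQ
    obtain ⟨p1, p2, p3, p4⟩ := h1 Q hQ
    obtain ⟨q1, q2, q3, q4⟩ := h2 Q hQ
    refine ⟨p1.sup hQ q1, ?_, ?_, ?_⟩
    · exact (p2.inf hQ q2).congr (fun i => (inv_sup _ _).symm) (inv_sup _ _).symm
    · exact (p3.inf hQ q3).congr (fun i => (G.star_sup _ _).symm) (K.star_sup _ _).symm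
    · exact (p4.sup hQ q4).congr
        (fun i => (inv_inf _ _).symm.trans (congrArg _ (G.star_sup _ _).symm))
        ((inv_inf _ _).symm.trans (congrArg _ (K.star_sup _ _).symm))
  · intro p q a b h1 h2 Q hQ
    obtain ⟨p1, p2, p3, p4⟩ := h1 Q hQ
    obtain ⟨q1, q2, q3, q4⟩ := h2 Q hQ
    refine ⟨p1.inf hQ q1, ?_, ?_, ?_⟩
    · exact (p2.sup hQ q2).congr (fun i => (inv_inf _ _).symm) (inv_inf _ _).symm
    · exact (p3.sup hQ q3).congr (fun i => (G.star_inf _ _).symm) (K.star_inf _ _).symm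
    · exact (p4.inf hQ q4).congr
        (fun i => (inv_sup _ _).symm.trans (congrArg _ (G.star_inf _ _).symm))
        ((inv_sup _ _).symm.trans (congrArg _ (K.star_inf _ _).symm))
  · intro p a h1 Q hQ
    obtain ⟨p1, p2, p3, p4⟩ := h1 Q hQ
    refine ⟨p3, p4, ?_, ?_⟩
    · exact p1.congr (fun i => (G.star_star _).symm) (K.star_star _).symm
    · exact p2.congr (fun i => congrArg _ (G.star_star _).symm)
        (congrArg _ (K.star_star _).symm)
  · intro g
    exact ⟨fun i => i.v g, fun Q hQ => ⟨MimK.gen g, MimK.gen_inv g, MimK.gen_star g,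
      MimK.gen_star_inv g⟩⟩
  · intro p a b h1 h2
    by_contra hne
    obtain ⟨Q, hQ, hn⟩ := exists_prime_ne hne
    exact hn (MimK.unique hQ (h1 Q hQ).1 (h2 Q hQ).1)

end Pool.Agent.Helper29
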