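import Mathlib

/-!
Basic theory of (non-commutative) lattice-ordered groups: convex sub-ℓ-groups,
prime subgroups, values and covers.
-/

set_option autoImplicit false
set_option linter.unusedSectionVars false

namespace Pool.Agent.Helper29

universe u

variable {G : Type u} [Group G] [Lattice G] [MulLeftMono G] [MulRightMono G]

/-- Convex sub-ℓ-groups. -/
structure IsCvx (M : Subgroup G) : Prop where
  sup_one : ∀ a ∈ M, a ⊔ 1 ∈ M
  conv : ∀ a ∈ M, ∀ b, 1 ≤ b → b ≤ a → b ∈ M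

/-- Prime convex sub-ℓ-groups. -/
structure IsPrm (Q : Subgroup G) : Prop extends IsCvx Q where
  prime : ∀ a, a ⊔ 1 ∈ Q ∨ a⁻¹ ⊔ 1 ∈ Q

omit [MulLeftMono G] [MulRightMono G] in
theorem one_le_sup_one (a : G) : 1 ≤ a ⊔ 1 := le_sup_right

theorem pos_mul_neg (a : G) : (a ⊔ 1) * (a⁻¹ ⊔ 1)⁻¹ = a := by
  have h : a ⊔ 1 = a * (a⁻¹ ⊔ 1) := by
    rw [mul_sup, mul_inv_cancel, mul_one, sup_comm]
  rw [h]; group

theorem inf_pos_neg (a : G) : (a ⊔ 1) ⊓ (a⁻¹ ⊔ 1) = 1 := by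
  have h : a ⊔ 1 = a * (a⁻¹ ⊔ 1) := by
    rw [mul_sup, mul_inv_cancel, mul_one, sup_comm]
  have h2 : (a ⊔ 1) ⊓ (a⁻¹ ⊔ 1) = (a ⊓ 1) * (a⁻¹ ⊔ 1) := by
    rw [inf_mul, ← h, one_mul]
  rw [h2]
  have h3 : a⁻¹ ⊔ 1 = (a ⊓ 1)⁻¹ := by rw [inv_inf, inv_one]
  rw [h3, mul_inv_cancel]

namespace IsCvx

variable {M : Subgroup G}

theorem mem_of_pos_neg (_hM : IsCvx M) {a : G} (h1 : a ⊔ 1 ∈ M) (h2 : a⁻¹ ⊔ 1 ∈ M) : a ∈ M := by
  have := pos_mul_neg a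
  rw [← this]
  exact M.mul_mem h1 (M.inv_mem h2)

theorem neg_mem (hM : IsCvx M) {a : G} (h : a ∈ M) : a⁻¹ ⊔ 1 ∈ M := hM.sup_one _ (M.inv_mem h)

/-- if `b ≤ a` with `a ∈ M` then the positive part of `b` is in `M` -/
theorem pos_of_le (hM : IsCvx M) {a b : G} (ha : a ∈ M) (h : b ≤ a) : b ⊔ 1 ∈ M :=
  hM.conv _ (hM.sup_one _ ha) _ le_sup_right (sup_le_sup_right h 1)

theorem sup_mem (hM : IsCvx M) {a b : G} (ha : a ∈ M) (hb : b ∈ M) : a ⊔ b ∈ M := by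
  have : a ⊔ b = b * (b⁻¹ * a ⊔ 1) := by rw [mul_sup, mul_inv_cancel_left, mul_one]
  rw [this]
  exact M.mul_mem hb (hM.sup_one _ (M.mul_mem (M.inv_mem hb) ha))

theorem inf_mem (hM : IsCvx M) {a b : G} (ha : a ∈ M) (hb : b ∈ M) : a ⊓ b ∈ M := by
  have : a ⊓ b = (a⁻¹ ⊔ b⁻¹)⁻¹ := by rw [inv_sup, inv_inv, inv_inv]
  rw [this]
  exact M.inv_mem (hM.sup_mem (M.inv_mem ha) (M.inv_mem hb))

theorem between (hM : IsCvx M) {a b c : G} (ha : a ∈ M) (hc : c ∈ M) (h1 : a ≤ b) (h2 : b ≤ c) :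
    b ∈ M := by
  apply hM.mem_of_pos_neg
  · exact hM.pos_of_le hc h2
  · exact hM.pos_of_le (M.inv_mem ha) (inv_le_inv_iff.mpr h1)

end IsCvx

namespace IsPrm

variable {Q : Subgroup G}

theorem inf_mem (hQ : IsPrm Q) {a b : G} (h : a ⊓ b ∈ Q) : a ∈ Q ∨ b ∈ Q := by
  have key : ∀ a b : G, a = (a * b⁻¹ ⊔ 1) * (a ⊓ b) := by
    intro a b
    have : a * b⁻¹ ⊔ 1 = a * (a ⊓ b)⁻¹ := by
      rw [inv_inf, mul_sup, mul_inv_cancel, sup_comm]
    rw [this]; group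
  rcases hQ.prime (a * b⁻¹) with h1 | h1
  · left; rw [key a b]; exact Q.mul_mem h1 h
  · right; rw [key b a]
    have : b * a⁻¹ = (a * b⁻¹)⁻¹ := by group
    rw [this, inf_comm]
    exact Q.mul_mem h1 h

end IsPrm

/-- The total preorder of left cosets of `Q`: `a Q ≤ b Q`. -/
def leQ (Q : Subgroup G) (a b : G) : Prop := b⁻¹ * a ⊔ 1 ∈ Q

section leQ
variable {Q : Subgroup G}

theorem leQ_iff (hQ : IsCvx Q) {a b : G} : leQ Q a b ↔ ∃ q ∈ Q, a ≤ b * q := by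
  constructor
  · intro h
    refine ⟨_, h, ?_⟩
    rw [mul_sup, mul_inv_cancel_left]
    exact le_sup_left
  · rintro ⟨q, hq, h⟩
    exact hQ.pos_of_le hq (inv_mul_le_iff_le_mul.mpr h)

theorem leQ_of_le (hQ : IsCvx Q) {a b : G} (h : a ≤ b) : leQ Q a b :=
  (leQ_iff hQ).mpr ⟨1, Q.one_mem, by simpa using h⟩

theorem leQ_trans (hQ : IsCvx Q) {a b c : G} (h1 : leQ Q a b) (h2 : leQ Q b c) : leQ Q a c := by
  obtain ⟨q, hq, h⟩ := (leQ_iff hQ).mp h1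
  obtain ⟨r, hr, h'⟩ := (leQ_iff hQ).mp h2
  refine (leQ_iff hQ).mpr ⟨r * q, Q.mul_mem hr hq, ?_⟩
  calc a ≤ b * q := h
    _ ≤ c * r * q := mul_le_mul_left h' q
    _ = c * (r * q) := mul_assoc _ _ _

omit [MulLeftMono G] [MulRightMono G] in
theorem leQ_mul_left (g a b : G) : leQ Q (g * a) (g * b) ↔ leQ Q a b := by
  unfold leQ
  have : (g * b)⁻¹ * (g * a) = b⁻¹ * a := by group
  rw [this]

omit [MulLeftMono G] [MulRightMono G] in
theorem leQ_total (hQ : IsPrm Q) (a b : G) : leQ Q a b ∨ leQ Q b a := by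
  rcases hQ.prime (b⁻¹ * a) with h | h
  · exact Or.inl h
  · right; unfold leQ
    have : a⁻¹ * b = (b⁻¹ * a)⁻¹ := by group
    rw [this]; exact h

theorem leQ_antisymm (hQ : IsCvx Q) {a b : G} (h1 : leQ Q a b) (h2 : leQ Q b a) : a⁻¹ * b ∈ Q := by
  apply hQ.mem_of_pos_neg h2
  have : (a⁻¹ * b)⁻¹ = b⁻¹ * a := by group
  rw [this]; exact h1

theorem leQ_of_mem (hQ : IsCvx Q) {a b : G} (h : a⁻¹ * b ∈ Q) : leQ Q a b := by
  unfold leQ
  have : b⁻¹ * a = (a⁻¹ * b)⁻¹ := by group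
  rw [this]; exact hQ.neg_mem h

theorem leQ_of_mem' (hQ : IsCvx Q) {a b : G} (h : a⁻¹ * b ∈ Q) : leQ Q b a :=
  hQ.sup_one _ h

theorem leQ_mono {M : Subgroup G} (hQM : Q ≤ M) {a b : G} (h : leQ Q a b) : leQ M a b := hQM h

/-- if `a Q ≤ b Q` then `(a ⊔ b) Q = b Q` -/
theorem sup_mem_of_leQ {a b : G} (h : leQ Q a b) : b⁻¹ * (a ⊔ b) ∈ Q := by
  rw [mul_sup, inv_mul_cancel]; exact h

/-- if `a Q ≤ b Q` then `(a ⊓ b) Q = a Q` -/
theorem inf_mem_of_leQ {a b : G} (h : leQ Q a b) : a⁻¹ * (a ⊓ b) ∈ Q := by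
  have : a⁻¹ * (a ⊓ b) = (b⁻¹ * a ⊔ 1)⁻¹ := by
    rw [mul_inf, inv_mul_cancel, inv_sup, inv_one, inf_comm]; group
  rw [this]; exact Q.inv_mem h

end leQ

/-- Convex sub-ℓ-groups containing a prime form a chain. -/
theorem cvx_chain {Q C D : Subgroup G} (hQ : IsPrm Q) (hC : IsCvx C) (hD : IsCvx D)
    (hQC : Q ≤ C) (hQD : Q ≤ D) : C ≤ D ∨ D ≤ C := by
  by_contra hcon
  push Not at hcon
  obtain ⟨h1, h2⟩ := hcon
  obtain ⟨c, hc, hcD⟩ := SetLike.not_le_iff_exists.mp h1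
  obtain ⟨d, hd, hdC⟩ := SetLike.not_le_iff_exists.mp h2
  -- replace c by a positive element
  have key : ∀ (C D : Subgroup G), IsCvx C → IsCvx D → ∀ c ∈ C, c ∉ D →
      ∃ c' ∈ C, c' ∉ D ∧ 1 ≤ c' := by
    intro C D hC hD c hc hcD
    by_cases h : c ⊔ 1 ∈ D
    · refine ⟨c⁻¹ ⊔ 1, hC.neg_mem hc, fun h' => hcD (hD.mem_of_pos_neg h h'), le_sup_right⟩
    · exact ⟨c ⊔ 1, hC.sup_one _ hc, h, le_sup_right⟩
  obtain ⟨c', hc', hcD', hc1⟩ := key C D hC hD c hc hcD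
  obtain ⟨d', hd', hdC', hd1⟩ := key D C hD hC d hd hdC
  rcases hQ.prime (c' * d'⁻¹) with h | h
  · -- c' ≤ (c' d'⁻¹ ⊔ 1) d'
    apply hcD'
    refine hD.conv _ (D.mul_mem (hQD h) hd') _ hc1 ?_
    rw [sup_mul, inv_mul_cancel_right, one_mul]
    exact le_sup_left
  · apply hdC'
    refine hC.conv _ (C.mul_mem (hQC h) hc') _ hd1 ?_
    rw [sup_mul, one_mul]
    have : (c' * d'⁻¹)⁻¹ * c' = d' := by group
    rw [this]
    exact le_sup_left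

/-- The largest convex sub-ℓ-group above `Q` not containing `a`. -/
noncomputable def vl (Q : Subgroup G) (a : G) : Subgroup G :=
  sSup {C | IsCvx C ∧ Q ≤ C ∧ a ∉ C}

/-- The smallest convex sub-ℓ-group above `Q` containing `a`. -/
noncomputable def cv (Q : Subgroup G) (a : G) : Subgroup G :=
  sInf {C | IsCvx C ∧ Q ≤ C ∧ a ∈ C}

section vl
variable {Q : Subgroup G} {a : G}

theorem mem_vl (hQ : IsPrm Q) (ha : a ∉ Q) {x : G} :
    x ∈ vl Q a ↔ ∃ C : Subgroup G, IsCvx C ∧ Q ≤ C ∧ a ∉ C ∧ x ∈ C := by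
  unfold vl
  rw [Subgroup.mem_sSup_of_directedOn]
  · constructor
    · rintro ⟨C, ⟨h1, h2, h3⟩, h4⟩; exact ⟨C, h1, h2, h3, h4⟩
    · rintro ⟨C, h1, h2, h3, h4⟩; exact ⟨C, ⟨h1, h2, h3⟩, h4⟩
  · exact ⟨Q, hQ.toIsCvx, le_rfl, ha⟩
  · rintro C ⟨h1, h2, h3⟩ D ⟨h4, h5, h6⟩
    rcases cvx_chain hQ h1 h4 h2 h5 with h | h
    · exact ⟨D, ⟨h4, h5, h6⟩, h, le_rfl⟩
    · exact ⟨C, ⟨h1, h2, h3⟩, le_rfl, h⟩

theorem vl_cvx (hQ : IsPrm Q) (ha : a ∉ Q) : IsCvx (vl Q a) := by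
  constructor
  · intro x hx
    obtain ⟨C, h1, h2, h3, h4⟩ := (mem_vl hQ ha).mp hx
    exact (mem_vl hQ ha).mpr ⟨C, h1, h2, h3, h1.sup_one _ h4⟩
  · intro x hx y hy hyx
    obtain ⟨C, h1, h2, h3, h4⟩ := (mem_vl hQ ha).mp hx
    exact (mem_vl hQ ha).mpr ⟨C, h1, h2, h3, h1.conv _ h4 _ hy hyx⟩

theorem le_vl (hQ : IsPrm Q) (ha : a ∉ Q) : Q ≤ vl Q a := by
  intro x hx
  exact (mem_vl hQ ha).mpr ⟨Q, hQ.toIsCvx, le_rfl, ha, hx⟩

theorem not_mem_vl (hQ : IsPrm Q) (ha : a ∉ Q) : a ∉ vl Q a := by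
  intro h
  obtain ⟨C, _, _, h3, h4⟩ := (mem_vl hQ ha).mp h
  exact h3 h4

theorem le_vl_of (hQ : IsPrm Q) (ha : a ∉ Q) {C : Subgroup G} (hC : IsCvx C) (hQC : Q ≤ C)
    (h : a ∉ C) : C ≤ vl Q a := by
  intro x hx
  exact (mem_vl hQ ha).mpr ⟨C, hC, hQC, h, hx⟩

theorem vl_prm (hQ : IsPrm Q) (ha : a ∉ Q) : IsPrm (vl Q a) :=
  { vl_cvx hQ ha with
    prime := fun x => (hQ.prime x).imp (fun h => le_vl hQ ha h) (fun h => le_vl hQ ha h) }

omit [MulLeftMono G] [MulRightMono G] in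
theorem mem_cv {x : G} :
    x ∈ cv Q a ↔ ∀ C : Subgroup G, IsCvx C → Q ≤ C → a ∈ C → x ∈ C := by
  unfold cv
  rw [Subgroup.mem_sInf]
  exact ⟨fun h C h1 h2 h3 => h C ⟨h1, h2, h3⟩, fun h C ⟨h1, h2, h3⟩ => h C h1 h2 h3⟩

omit [MulLeftMono G] [MulRightMono G] in
theorem cv_cvx : IsCvx (cv Q a) := by
  constructor
  · intro x hx
    rw [mem_cv] at hx ⊢
    intro C h1 h2 h3
    exact h1.sup_one _ (hx C h1 h2 h3)
  · intro x hx y hy hyx
    rw [mem_cv] at hx ⊢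
    intro C h1 h2 h3
    exact h1.conv _ (hx C h1 h2 h3) _ hy hyx

omit [MulLeftMono G] [MulRightMono G] in
theorem le_cv : Q ≤ cv Q a := by
  intro x hx
  rw [mem_cv]
  intro C _ h2 _
  exact h2 hx

omit [MulLeftMono G] [MulRightMono G] in
theorem self_mem_cv : a ∈ cv Q a := by
  rw [mem_cv]; intro C _ _ h; exact h

omit [MulLeftMono G] [MulRightMono G] in
theorem cv_le_of {C : Subgroup G} (hC : IsCvx C) (hQC : Q ≤ C) (h : a ∈ C) : cv Q a ≤ C := by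
  intro x hx
  exact mem_cv.mp hx C hC hQC h

theorem vl_le_cv (hQ : IsPrm Q) (ha : a ∉ Q) : vl Q a ≤ cv Q a := by
  rcases cvx_chain hQ (vl_cvx hQ ha) (cv_cvx (Q := Q) (a := a)) (le_vl hQ ha) le_cv with h | h
  · exact h
  · exact absurd (h self_mem_cv) (not_mem_vl hQ ha)

/-- values with the same value have the same cover -/
theorem mem_cv_of_vl_eq (hQ : IsPrm Q) (ha : a ∉ Q) {b : G} (hb : b ∉ Q)
    (h : vl Q a = vl Q b) : a ∈ cv Q b := by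
  rw [mem_cv]
  intro C h1 h2 h3
  by_contra hcon
  have : C ≤ vl Q b := h ▸ le_vl_of hQ ha h1 h2 hcon
  exact not_mem_vl hQ hb (this h3)

end vl

/-- The defining law of normal-valued ℓ-groups. -/
def NV (G : Type u) [Group G] [Lattice G] : Prop :=
  ∀ a b : G, 1 ≤ a → 1 ≤ b → a * b ≤ b * b * (a * a)

section NV
variable {Q : Subgroup G} {a : G}

theorem one_le_pow' {y : G} (hy : 1 ≤ y) (n : ℕ) : 1 ≤ y ^ n := by
  induction n with
  | zero => simp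
  | succ n ih =>
    rw [pow_succ]
    calc (1:G) = 1 * 1 := (one_mul 1).symm
      _ ≤ y ^ n * y := mul_le_mul' ih hy

/-- The convex sub-ℓ-group of elements bounded by `y ^ k * m` -/
theorem bounded_right (law : NV G) {M : Subgroup G} (hM : IsCvx M) {y : G} (hy : 1 ≤ y) :
    ∃ S : Subgroup G, IsCvx S ∧ M ≤ S ∧ y ∈ S ∧
      ∀ z ∈ S, ∃ k : ℕ, ∃ m ∈ M, z ≤ y ^ k * m := by
  let T : Set G := {z | ∃ k : ℕ, ∃ m ∈ M, 1 ≤ m ∧ z ⊔ 1 ≤ y ^ k * m ∧ z⁻¹ ⊔ 1 ≤ y ^ k * m}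
  have hmul : ∀ (k l : ℕ) (m n z w: G), 1 ≤ m → 1 ≤ n → z ≤ y ^ k * m → w ≤ y ^ l * n →
      z * w ≤ y ^ (k + 2 * l) * (m * m * n) := by
    intro k l m n z w hm hn hz hw
    calc z * w ≤ (y ^ k * m) * (y ^ l * n) := mul_le_mul' hz hw
      _ = y ^ k * (m * y ^ l) * n := by group
      _ ≤ y ^ k * (y ^ l * y ^ l * (m * m)) * n :=
          mul_le_mul' (mul_le_mul' le_rfl (law _ _ hm (one_le_pow' hy l))) le_rfl
      _ = y ^ (k + 2 * l) * (m * m * n) := by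
          rw [pow_add, two_mul, pow_add]; group
  have hmono : ∀ (k l : ℕ) (m n : G), 1 ≤ m → 1 ≤ n →
      y ^ k * m ≤ y ^ (k + 2 * l) * (m * m * n) := by
    intro k l m n hm hn
    have h1 : y ^ k ≤ y ^ (k + 2 * l) := by
      rw [pow_add]
      exact le_mul_of_one_le_right' (one_le_pow' hy _)
    have h2 : m ≤ m * m * n := by
      calc m = m * 1 := (mul_one m).symm
        _ ≤ m * (m * n) := by
          gcongr
          calc (1:G) = 1 * 1 := (one_mul 1).symm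
            _ ≤ m * n := mul_le_mul' hm hn
        _ = m * m * n := by group
    exact mul_le_mul' h1 h2
  have hone : ∀ (k : ℕ) (m : G), 1 ≤ m → 1 ≤ y ^ k * m := by
    intro k m hm
    calc (1:G) = 1 * 1 := (one_mul 1).symm
      _ ≤ y ^ k * m := mul_le_mul' (one_le_pow' hy k) hm
  let S : Subgroup G :=
    { carrier := T
      mul_mem' := by
        rintro z w ⟨k, m, hm, hm1, hz, hz'⟩ ⟨l, n, hn, hn1, hw, hw'⟩
        have hA : ∀ (k l : ℕ) (m n : G), m ∈ M → n ∈ M → 1 ≤ m → 1 ≤ n →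
          m * m * n ∈ M ∧ 1 ≤ m * m * n := by
          intro k l m n hm hn hm1 hn1
          refine ⟨M.mul_mem (M.mul_mem hm hm) hn, ?_⟩
          calc (1:G) = 1 * 1 * 1 := by simp
            _ ≤ m * m * n := by gcongr
        -- common bound
        set B1 := y ^ (k + 2 * l) * (m * m * n) with hB1
        set B2 := y ^ (l + 2 * k) * (n * n * m) with hB2
        have h1 : (z * w) ⊔ 1 ≤ B1 := by
          apply sup_le
          · exact hmul k l m n z w hm1 hn1 (le_sup_left.trans hz) (le_sup_left.trans hw)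
          · exact hone _ _ (hA k l m n hm hn hm1 hn1).2
        have h2 : (z * w)⁻¹ ⊔ 1 ≤ B2 := by
          apply sup_le
          · rw [mul_inv_rev]
            exact hmul l k n m w⁻¹ z⁻¹ hn1 hm1 (le_sup_left.trans hw') (le_sup_left.trans hz')
          · exact hone _ _ (hA l k n m hn hm hn1 hm1).2
        have hM1 := (hA k l m n hm hn hm1 hn1)
        have hM2 := (hA l k n m hn hm hn1 hm1)
        refine ⟨(k + 2 * l) + 2 * (l + 2 * k),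
          (m * m * n) * (m * m * n) * (n * n * m), ?_, ?_, ?_, ?_⟩
        · exact M.mul_mem (M.mul_mem hM1.1 hM1.1) hM2.1
        · calc (1:G) = 1 * 1 * 1 := by simp
            _ ≤ _ := mul_le_mul' (mul_le_mul' hM1.2 hM1.2) hM2.2
        · exact h1.trans (hmono _ _ _ _ hM1.2 hM2.2)
        · refine h2.trans ?_
          have e1 : y ^ (l + 2 * k) ≤ y ^ ((k + 2 * l) + 2 * (l + 2 * k)) := by
            have : (k + 2 * l) + 2 * (l + 2 * k) = (l + 2 * k) + ((k + 2 * l) + (l + 2 * k)) := by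
              ring
            rw [this, pow_add y (l + 2 * k)]
            exact le_mul_of_one_le_right' (one_le_pow' hy _)
          have e2 : n * n * m ≤ (m * m * n) * (m * m * n) * (n * n * m) := by
            apply le_mul_of_one_le_left'
            calc (1:G) = 1 * 1 := (one_mul 1).symm
              _ ≤ _ := mul_le_mul' hM1.2 hM1.2
          exact mul_le_mul' e1 e2
      one_mem' := ⟨0, 1, M.one_mem, le_rfl, by simp, by simp⟩
      inv_mem' := by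
        rintro z ⟨k, m, hm, hm1, hz, hz'⟩
        exact ⟨k, m, hm, hm1, hz', by rw [inv_inv]; exact hz⟩ }
  refine ⟨S, ⟨?_, ?_⟩, ?_, ?_, ?_⟩
  · rintro z ⟨k, m, hm, hm1, hz, hz'⟩
    refine ⟨k, m, hm, hm1, by simpa using hz, ?_⟩
    apply sup_le _ (hone _ _ hm1)
    rw [inv_sup, inv_one]
    exact inf_le_right.trans (hone _ _ hm1)
  · rintro z ⟨k, m, hm, hm1, hz, hz'⟩ w hw hwz
    refine ⟨k, m, hm, hm1, ?_, ?_⟩
    · exact (sup_le_sup_right hwz 1).trans hz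
    · apply sup_le _ (hone _ _ hm1)
      exact (inv_le_one'.mpr hw).trans (hone _ _ hm1)
  · intro z hz
    refine ⟨0, (z ⊔ 1) * (z⁻¹ ⊔ 1), M.mul_mem (hM.sup_one _ hz) (hM.neg_mem hz), ?_, ?_, ?_⟩
    · calc (1:G) = 1 * 1 := (one_mul 1).symm
        _ ≤ _ := mul_le_mul' le_sup_right le_sup_right
    · rw [pow_zero, one_mul]
      exact le_mul_of_one_le_right' le_sup_right
    · rw [pow_zero, one_mul]
      exact le_mul_of_one_le_left' le_sup_right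
  · refine ⟨1, 1, M.one_mem, le_rfl, ?_, ?_⟩
    · simp [hy]
    · rw [pow_one, mul_one]
      apply sup_le _ hy
      exact (inv_le_one'.mpr hy).trans hy
  · rintro z ⟨k, m, hm, hm1, hz, hz'⟩
    exact ⟨k, m, hm, le_sup_left.trans hz⟩

/-- The convex sub-ℓ-group of elements bounded by `m * y ^ k` -/
theorem bounded_left (law : NV G) {M : Subgroup G} (hM : IsCvx M) {y : G} (hy : 1 ≤ y) :
    ∃ S : Subgroup G, IsCvx S ∧ M ≤ S ∧ y ∈ S ∧
      ∀ z ∈ S, ∃ k : ℕ, ∃ m ∈ M, 1 ≤ m ∧ z ≤ m * y ^ k := by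
  obtain ⟨S, h1, h2, h3, h4⟩ := bounded_right law hM hy
  refine ⟨S, h1, h2, h3, ?_⟩
  intro z hz
  obtain ⟨k, m, hm, h⟩ := h4 z hz
  refine ⟨k + k, (m ⊔ 1) * (m ⊔ 1), M.mul_mem (hM.sup_one _ hm) (hM.sup_one _ hm), ?_, ?_⟩
  · calc (1:G) = 1 * 1 := (one_mul 1).symm
      _ ≤ _ := mul_le_mul' le_sup_right le_sup_right
  · calc z ≤ y ^ k * m := h
      _ ≤ y ^ k * (m ⊔ 1) := mul_le_mul' le_rfl le_sup_left
      _ ≤ (m ⊔ 1) * (m ⊔ 1) * (y ^ k * y ^ k) := law _ _ (one_le_pow' hy k) le_sup_right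
      _ = (m ⊔ 1) * (m ⊔ 1) * y ^ (k + k) := by rw [pow_add]

/-- Archimedean property of the cover over the value. -/
theorem nv_arch (law : NV G) (hQ : IsPrm Q) (ha : a ∉ Q) {y b : G} (hy : 1 ≤ y)
    (hyN : y ∉ vl Q a) (hb : b ∈ cv Q a) : ∃ k : ℕ, ∃ m ∈ vl Q a, b ≤ y ^ k * m := by
  obtain ⟨S, h1, h2, h3, h4⟩ := bounded_right law (vl_cvx hQ ha) hy
  apply h4
  have haS : a ∈ S := by
    by_contra hcon
    exact hyN (le_vl_of hQ ha h1 ((le_vl hQ ha).trans h2) hcon h3)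
  exact cv_le_of h1 ((le_vl hQ ha).trans h2) haS hb

theorem nv_arch' (law : NV G) (hQ : IsPrm Q) (ha : a ∉ Q) {y b : G} (hy : 1 ≤ y)
    (hyN : y ∉ vl Q a) (hb : b ∈ cv Q a) : ∃ k : ℕ, ∃ m ∈ vl Q a, 1 ≤ m ∧ b ≤ m * y ^ k := by
  obtain ⟨S, h1, h2, h3, h4⟩ := bounded_left law (vl_cvx hQ ha) hy
  apply h4
  have haS : a ∈ S := by
    by_contra hcon
    exact hyN (le_vl_of hQ ha h1 ((le_vl hQ ha).trans h2) hcon h3)
  exact cv_le_of h1 ((le_vl hQ ha).trans h2) haS hb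

theorem nv_conj_pos (law : NV G) (hQ : IsPrm Q) (ha : a ∉ Q) {x m : G} (hx : x ∈ cv Q a)
    (hx1 : 1 ≤ x) (hm : m ∈ vl Q a) (hm1 : 1 ≤ m) :
    x⁻¹ * m * x ∈ vl Q a ∧ x * m * x⁻¹ ∈ vl Q a := by
  set M := vl Q a with hM
  have hMc : IsCvx M := vl_cvx hQ ha
  by_cases hxM : x ∈ M
  · exact ⟨M.mul_mem (M.mul_mem (M.inv_mem hxM) hm) hxM,
      M.mul_mem (M.mul_mem hxM hm) (M.inv_mem hxM)⟩
  constructor
  · by_contra hcon
    have hy1 : 1 ≤ x⁻¹ * m * x := by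
      have : x⁻¹ * 1 * x ≤ x⁻¹ * m * x := by gcongr
      simpa using this
    obtain ⟨k, m', hm', hm'1, h⟩ := nv_arch' law hQ ha hy1 hcon hx
    have hpow : (x⁻¹ * m * x) ^ k = x⁻¹ * m ^ k * x := by
      have := conj_pow (i := k) (a := x⁻¹) (b := m)
      simpa using this
    rw [hpow] at h
    apply hxM
    refine hMc.conv _ (M.mul_mem (M.pow_mem hm k) hm') _ hx1 ?_
    -- x ≤ m' x⁻¹ m^k x  → x ≤ m^k m'
    have h1 : 1 ≤ m' * x⁻¹ * m ^ k := by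
      have : x * x⁻¹ ≤ (m' * (x⁻¹ * m ^ k * x)) * x⁻¹ := by gcongr
      have e : (m' * (x⁻¹ * m ^ k * x)) * x⁻¹ = m' * x⁻¹ * m ^ k := by group
      rw [e, mul_inv_cancel] at this
      exact this
    have h2 : x * m'⁻¹ * 1 ≤ x * m'⁻¹ * (m' * x⁻¹ * m ^ k) := by gcongr
    have e2 : x * m'⁻¹ * (m' * x⁻¹ * m ^ k) = m ^ k := by group
    rw [e2, mul_one] at h2
    calc x = x * m'⁻¹ * m' := by group
      _ ≤ m ^ k * m' := by gcongr
  · by_contra hcon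
    have hy1 : 1 ≤ x * m * x⁻¹ := by
      have : x * 1 * x⁻¹ ≤ x * m * x⁻¹ := by gcongr
      simpa using this
    obtain ⟨k, m', hm', h⟩ := nv_arch law hQ ha hy1 hcon hx
    rw [conj_pow] at h
    have hm'' := hMc.sup_one _ hm'
    apply hxM
    refine hMc.conv _ (M.mul_mem hm' (M.pow_mem hm k)) _ hx1 ?_
    -- x ≤ x m^k x⁻¹ m' → 1 ≤ m^k x⁻¹ m' → x ≤ m' m^k
    have h1 : 1 ≤ m ^ k * x⁻¹ * m' := by
      have : x⁻¹ * x ≤ x⁻¹ * (x * m ^ k * x⁻¹ * m') := by gcongr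
      have e : x⁻¹ * (x * m ^ k * x⁻¹ * m') = m ^ k * x⁻¹ * m' := by group
      rw [e, inv_mul_cancel] at this
      exact this
    have h2 : x * (m ^ k)⁻¹ * 1 ≤ x * (m ^ k)⁻¹ * (m ^ k * x⁻¹ * m') := by gcongr
    have e2 : x * (m ^ k)⁻¹ * (m ^ k * x⁻¹ * m') = m' := by group
    rw [e2, mul_one] at h2
    calc x = x * (m ^ k)⁻¹ * m ^ k := by group
      _ ≤ m' * m ^ k := by gcongr

/-- In a normal-valued ℓ-group, the value is normal in its cover. -/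
theorem nv_normal (law : NV G) (hQ : IsPrm Q) (ha : a ∉ Q) {x m : G} (hx : x ∈ cv Q a)
    (hm : m ∈ vl Q a) : x * m * x⁻¹ ∈ vl Q a := by
  set M := vl Q a with hM
  have hMc : IsCvx M := vl_cvx hQ ha
  have hN : IsCvx (cv Q a) := cv_cvx
  -- first for x positive
  have step : ∀ x ∈ cv Q a, 1 ≤ x → ∀ m ∈ M, x * m * x⁻¹ ∈ M ∧ x⁻¹ * m * x ∈ M := by
    intro x hx hx1 m hm
    have h1 := nv_conj_pos law hQ ha hx hx1 (hMc.sup_one _ hm) le_sup_right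
    have h2 := nv_conj_pos law hQ ha hx hx1 (hMc.neg_mem hm) le_sup_right
    constructor
    · have e : x * m * x⁻¹ = (x * (m ⊔ 1) * x⁻¹) * (x * (m⁻¹ ⊔ 1) * x⁻¹)⁻¹ := by
        conv_lhs => rw [← pos_mul_neg m]
        group
      rw [e]
      exact M.mul_mem h1.2 (M.inv_mem h2.2)
    · have e : x⁻¹ * m * x = (x⁻¹ * (m ⊔ 1) * x) * (x⁻¹ * (m⁻¹ ⊔ 1) * x)⁻¹ := by
        conv_lhs => rw [← pos_mul_neg m]
        group
      rw [e]
      exact M.mul_mem h1.1 (M.inv_mem h2.1)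
  have e : x * m * x⁻¹ = (x ⊔ 1) * ((x⁻¹ ⊔ 1)⁻¹ * m * (x⁻¹ ⊔ 1)) * (x ⊔ 1)⁻¹ := by
    conv_lhs => rw [← pos_mul_neg x]
    group
  rw [e]
  exact (step _ (hN.sup_one _ hx) le_sup_right _
    (step _ (hN.neg_mem hx) le_sup_right _ hm).2).1

end NV

end Pool.Agent.Helper29
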