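import Pool.Agent.Helper29.Primes
import Pool.Agent.Helper29.Chain

/-!
Every finite configuration in a normal-valued ℓ-group can be mimicked in an
iterated wreath power of `ℝ`.
-/

set_option autoImplicit false
set_option linter.unusedSectionVars false

namespace Pool.Agent.Helper29

universe u

variable {G : Type u} [Group G] [Lattice G] [MulLeftMono G] [MulRightMono G]

/-- The chain of convex sub-ℓ-groups above a prime. -/
@[instance_reducible] noncomputable def cvxLO {Q : Subgroup G} (hQ : IsPrm Q) :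
    LinearOrder {C : Subgroup G // IsCvx C ∧ Q ≤ C} :=
  { (inferInstance : PartialOrder {C : Subgroup G // IsCvx C ∧ Q ≤ C}) with
    le_total := fun a b => cvx_chain hQ a.2.1 b.2.1 a.2.2 b.2.2
    toDecidableLE := Classical.decRel _ }

/-- A finite set of elements outside a prime gives a finite decreasing list of levels. -/
theorem exists_levels {Q : Subgroup G} (hQ : IsPrm Q) (E : Finset G) (hE : ∀ c ∈ E, c ∉ Q) :
    ∃ (n : ℕ) (c : Fin n → G), (∀ k, c k ∉ Q) ∧ (∀ i j, i < j → vl Q (c j) < vl Q (c i)) ∧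
      (∀ a ∈ E, ∃ k, vl Q (c k) = vl Q a) := by
  classical
  let _ := cvxLO hQ
  let F : G → {C : Subgroup G // IsCvx C ∧ Q ≤ C} := fun c =>
    if h : c ∉ Q then ⟨vl Q c, vl_cvx hQ h, le_vl hQ h⟩ else ⟨Q, hQ.toIsCvx, le_rfl⟩
  have hF : ∀ c, c ∉ Q → ((F c : {C : Subgroup G // IsCvx C ∧ Q ≤ C}) : Subgroup G) = vl Q c := by
    intro c hc
    simp only [F, dif_pos hc]
  let S : Finset {C : Subgroup G // IsCvx C ∧ Q ≤ C} := E.image F
  let e := S.orderEmbOfFin (rfl : S.card = S.card)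
  have he : ∀ k, ∃ c, c ∈ E ∧ F c = e (Fin.rev k) := by
    intro k
    have : e (Fin.rev k) ∈ S := Finset.orderEmbOfFin_mem S rfl _
    obtain ⟨c, hc, h⟩ := Finset.mem_image.mp this
    exact ⟨c, hc, h⟩
  choose c hcE hce using he
  refine ⟨S.card, c, fun k => hE _ (hcE k), ?_, ?_⟩
  · intro i j hij
    have h1 : e (Fin.rev j) < e (Fin.rev i) := e.strictMono (Fin.rev_lt_rev.mpr hij)
    have h2 : ((e (Fin.rev j) : {C : Subgroup G // IsCvx C ∧ Q ≤ C}) : Subgroup G) <
      ((e (Fin.rev i) : {C : Subgroup G // IsCvx C ∧ Q ≤ C}) : Subgroup G) := h1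
    rw [← hce, ← hce, hF _ (hE _ (hcE j)), hF _ (hE _ (hcE i))] at h2
    exact h2
  · intro a ha
    have h1 : F a ∈ Set.range e := by
      rw [Finset.range_orderEmbOfFin]
      exact Finset.mem_coe.mpr (Finset.mem_image_of_mem F ha)
    obtain ⟨k, hk⟩ := h1
    refine ⟨Fin.rev k, ?_⟩
    rw [← hF _ (hE _ (hcE _)), hce, Fin.rev_rev, hk, hF _ (hE _ ha)]

/-- The main local embedding lemma. -/
theorem mimic (law : NV G) {Q : Subgroup G} (hQ : IsPrm Q) (D : Finset G) :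
    ∃ (n : ℕ) (x : G → Lex (Fin n → ℝ)) (v : G → W n),
      (∀ a ∈ D, ∀ b ∈ D, (x a ≤ x b ↔ leQ Q a b)) ∧
      (∀ g : G, ∀ a ∈ D, v g (x a) = x (g * a)) := by
  classical
  let E : Finset G := ((D ×ˢ D).image (fun p => p.1⁻¹ * p.2)).filter (fun c => c ∉ Q)
  have hE : ∀ c ∈ E, c ∉ Q := fun c hc => (Finset.mem_filter.mp hc).2
  have hE' : ∀ a ∈ D, ∀ b ∈ D, a⁻¹ * b ∉ Q → a⁻¹ * b ∈ E := by
    intro a ha b hb h
    refine Finset.mem_filter.mpr ⟨Finset.mem_image.mpr ⟨(a, b), ?_, rfl⟩, h⟩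
    exact Finset.mem_product.mpr ⟨ha, hb⟩
  obtain ⟨n, c, hcQ, hanti, hlev⟩ := exists_levels hQ E hE
  -- levels
  have hMc : ∀ k, IsCvx (vl Q (c k)) := fun k => vl_cvx hQ (hcQ k)
  have hMN : ∀ k, vl Q (c k) ≤ cv Q (c k) := fun k => vl_le_cv hQ (hcQ k)
  have hNM : ∀ i j, i < j → cv Q (c j) ≤ vl Q (c i) := by
    intro i j hij
    apply cv_le_of (hMc i) (le_vl hQ (hcQ i))
    by_contra hcon
    have := le_vl_of hQ (hcQ j) (hMc i) (le_vl hQ (hcQ i)) hcon
    exact absurd this (not_le_of_gt (hanti i j hij))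
  have hNN : ∀ i j, i ≤ j → cv Q (c j) ≤ cv Q (c i) := by
    intro i j hij
    rcases hij.lt_or_eq with h | h
    · exact (hNM i j h).trans (hMN i)
    · rw [h]
  have hol : ∀ k, ∃ φ : G → ℝ, (∀ x ∈ cv Q (c k), ∀ y ∈ cv Q (c k), φ (x * y) = φ x + φ y) ∧
      ∀ x ∈ cv Q (c k), (0 ≤ φ x ↔ x⁻¹ ⊔ 1 ∈ vl Q (c k)) := fun k => exists_holder law hQ (hcQ k)
  choose φ hφadd hφpos using hol
  have hφ0 : ∀ k, φ k 1 = 0 := by
    intro k
    have := hφadd k 1 (cv Q (c k)).one_mem 1 (cv Q (c k)).one_mem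
    rw [one_mul] at this
    linarith
  have hφinv : ∀ k, ∀ x ∈ cv Q (c k), φ k x⁻¹ = - φ k x := by
    intro k x hx
    have := hφadd k x hx x⁻¹ ((cv Q (c k)).inv_mem hx)
    rw [mul_inv_cancel, hφ0] at this
    linarith
  have hφM : ∀ k, ∀ x ∈ cv Q (c k), (φ k x = 0 ↔ x ∈ vl Q (c k)) := by
    intro k x hx
    constructor
    · intro h
      have h1 := (hφpos k x hx).mp h.ge
      have h2 := (hφpos k x⁻¹ ((cv Q (c k)).inv_mem hx)).mp (by rw [hφinv k x hx, h]; simp)
      rw [inv_inv] at h2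
      exact (hMc k).mem_of_pos_neg h2 h1
    · intro h
      have h1 := (hφpos k x hx).mpr ((hMc k).neg_mem h)
      have h2 := (hφpos k x⁻¹ ((cv Q (c k)).inv_mem hx)).mpr (by
        rw [inv_inv]; exact (hMc k).sup_one _ h)
      rw [hφinv k x hx] at h2
      linarith
  -- transversals
  let t : Fin n → G → G := fun k a => ((a : G ⧸ cv Q (c k))).out
  have ht : ∀ k a, (t k a)⁻¹ * a ∈ cv Q (c k) := by
    intro k a
    rw [← QuotientGroup.eq]
    exact Quotient.out_eq' _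
  have ht' : ∀ k a b, a⁻¹ * b ∈ cv Q (c k) → t k a = t k b := by
    intro k a b h
    have : (a : G ⧸ cv Q (c k)) = (b : G ⧸ cv Q (c k)) := QuotientGroup.eq.mpr h
    simp only [t, this]
  let x : G → Lex (Fin n → ℝ) := fun a => toLex (fun k => φ k ((t k a)⁻¹ * a))
  have hx : ∀ a k, x a k = φ k ((t k a)⁻¹ * a) := fun a k => rfl
  have F1 : ∀ k a b, a⁻¹ * b ∈ cv Q (c k) → x b k = x a k + φ k (a⁻¹ * b) := by
    intro k a b h
    rw [hx, hx, ← ht' k a b h, ← hφadd k _ (ht k a) _ h]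
    congr 1
    group
  have F2 : ∀ k a b, a⁻¹ * b ∈ vl Q (c k) → x b k = x a k := by
    intro k a b h
    rw [F1 k a b (hMN k h), (hφM k _ (hMN k h)).mpr h, add_zero]
  have F3 : ∀ k g a b, a⁻¹ * b ∈ cv Q (c k) →
      x (g * b) k - x b k = x (g * a) k - x a k := by
    intro k g a b h
    have e : (g * a)⁻¹ * (g * b) = a⁻¹ * b := by group
    have h1 := F1 k (g * a) (g * b) (by rw [e]; exact h)
    rw [e] at h1
    have h2 := F1 k a b h
    linarith
  -- for a b in D not congruent mod Q there is a level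
  have F4 : ∀ a ∈ D, ∀ b ∈ D, a⁻¹ * b ∉ Q → ∃ j, a⁻¹ * b ∈ cv Q (c j) ∧ a⁻¹ * b ∉ vl Q (c j) := by
    intro a ha b hb h
    obtain ⟨j, hj⟩ := hlev _ (hE' a ha b hb h)
    refine ⟨j, mem_cv_of_vl_eq hQ h (hcQ j) hj.symm, ?_⟩
    rw [hj]; exact not_mem_vl hQ h
  have F5 : ∀ a ∈ D, ∀ b ∈ D, leQ Q a b → x a ≤ x b := by
    intro a ha b hb h
    by_cases hab : a⁻¹ * b ∈ Q
    · have : x a = x b := by
        funext k
        exact (F2 k a b (le_vl hQ (hcQ k) hab)).symm
      rw [this]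
    · obtain ⟨j, hj1, hj2⟩ := F4 a ha b hb hab
      apply le_of_lt
      refine lex_lt_iff.mpr ⟨j, ?_, ?_⟩
      · intro i hi
        exact (F2 i a b (hNM i j hi hj1)).symm
      · rw [F1 j a b hj1]
        have h1 : 0 ≤ φ j (a⁻¹ * b) := by
          rw [hφpos j _ hj1]
          apply le_vl hQ (hcQ j)
          have e : (a⁻¹ * b)⁻¹ = b⁻¹ * a := by group
          rw [e]; exact h
        have h2 : φ j (a⁻¹ * b) ≠ 0 := fun h0 => hj2 ((hφM j _ hj1).mp h0)
        have h3 : 0 < φ j (a⁻¹ * b) := lt_of_le_of_ne h1 (Ne.symm h2)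
        linarith
  have F6 : ∀ a ∈ D, ∀ b ∈ D, ∀ k : Fin n, Agr k (x a) (x b) → a⁻¹ * b ∈ cv Q (c k) := by
    intro a ha b hb k h
    by_cases hab : a⁻¹ * b ∈ Q
    · exact le_cv hab
    · obtain ⟨j, hj1, hj2⟩ := F4 a ha b hb hab
      by_cases hjk : j < k
      · exfalso
        have h1 := h j hjk
        have h2 := F1 j a b hj1
        apply hj2
        rw [← hφM j _ hj1]
        linarith
      · exact hNN k j (not_lt.mp hjk) hj1
  -- cocycle
  let co : G → Fin n → Lex (Fin n → ℝ) → ℝ := fun g k r =>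
    if h : ∃ a ∈ D, Agr k (x a) r then x (g * h.choose) k - x h.choose k else 0
  have hco : ∀ g (k : Fin n) r s, Agr k r s → co g k r = co g k s := by
    intro g k r s h
    have e : (fun a => a ∈ D ∧ Agr k (x a) r) = (fun a => a ∈ D ∧ Agr k (x a) s) := by
      funext a
      apply propext
      exact ⟨fun ⟨h1, h2⟩ => ⟨h1, h2.trans h⟩, fun ⟨h1, h2⟩ => ⟨h1, h2.trans h.symm⟩⟩
    simp only [co]
    have e2 : (∃ a ∈ D, Agr k (x a) r) = (∃ a ∈ D, Agr k (x a) s) := by
      have := congrArg (fun P : G → Prop => ∃ a, P a) e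
      exact this
    by_cases h1 : ∃ a ∈ D, Agr k (x a) r
    · have h2 : ∃ a ∈ D, Agr k (x a) s := e2 ▸ h1
      rw [dif_pos h1, dif_pos h2]
      have e3 : h1.choose = h2.choose := by
        congr 1
      rw [e3]
    · have h2 : ¬ ∃ a ∈ D, Agr k (x a) s := e2 ▸ h1
      rw [dif_neg h1, dif_neg h2]
  have hv : ∀ g, ∃ f : W n, ∀ r k, f r k = r k + co g k r := fun g => exists_W (co g) (hco g)
  choose v hv using hv
  refine ⟨n, x, v, ?_, ?_⟩
  · intro a ha b hb
    constructor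
    · intro h
      by_contra hcon
      have h1 : leQ Q b a := (leQ_total hQ a b).resolve_left hcon
      have h2 := F5 b hb a ha h1
      have h3 : x a = x b := le_antisymm h h2
      by_cases hab : a⁻¹ * b ∈ Q
      · exact hcon (leQ_of_mem hQ.toIsCvx hab)
      · obtain ⟨j, hj1, hj2⟩ := F4 a ha b hb hab
        apply hj2
        rw [← hφM j _ hj1]
        have h4 := F1 j a b hj1
        rw [h3] at h4
        linarith
    · exact F5 a ha b hb
  · intro g a ha
    funext k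
    rw [hv]
    have h1 : ∃ b ∈ D, Agr k (x b) (x a) := ⟨a, ha, fun _ _ => rfl⟩
    have h2 : co g k (x a) = x (g * h1.choose) k - x h1.choose k := by
      simp only [co]
      rw [dif_pos h1]
    rw [h2]
    have h3 := h1.choose_spec
    have h4 := F3 k g _ _ (F6 _ h3.1 a ha k h3.2)
    linarith

end Pool.Agent.Helper29
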