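import Pool.Agent.Helper29.MVar
import Pool.Agent.Helper29.Mimic

/-!
Abelian m-groups: generation of the varieties `Z` and `A`.
-/

set_option autoImplicit false
set_option linter.unusedSectionVars false

namespace Pool.Agent.Helper29

open Filter Topology

section Extend

theorem extend_hom {G : Type*} [Group G] (hc : ∀ x y : G, x * y = y * x) (N : Subgroup G)
    (φ : G → ℝ) (h : ∀ x ∈ N, ∀ y ∈ N, φ (x * y) = φ x + φ y) :
    ∃ π : G → ℝ, (∀ x y, π (x * y) = π x + π y) ∧ ∀ x ∈ N, π x = φ x := by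
  let _ : CommGroup G := { (inferInstance : Group G) with mul_comm := hc }
  let ψ : Additive N →+ ℝ := AddMonoidHom.mk' (fun x => φ (Additive.toMul x).1)
    (fun x y => h _ (Additive.toMul x).2 _ (Additive.toMul y).2)
  let ι : Additive N →+ Additive G := MonoidHom.toAdditive N.subtype
  obtain ⟨g, hg⟩ := (Module.Baer.of_divisible ℝ).extension_property_addMonoidHom ι
    (fun x y hxy => by
      have : (Additive.toMul x).1 = (Additive.toMul y).1 := hxy
      exact Additive.toMul.injective (Subtype.ext this)) ψ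
  refine ⟨fun x => g (Additive.ofMul x), fun x y => ?_, fun x hx => ?_⟩
  · exact map_add g (Additive.ofMul x) (Additive.ofMul y)
  · have := DFunLike.congr_fun hg (Additive.ofMul (⟨x, hx⟩ : N))
    exact this

end Extend

section Hom

variable {G : Type} [Group G] [Lattice G] [MulLeftMono G] [MulRightMono G]

theorem nv_of_comm (hc : ∀ x y : G, x * y = y * x) : NV G := by
  intro a b ha hb
  have h1 : a * b = b * a := hc a b
  rw [h1]
  calc b * a ≤ (b * b) * (a * a) := by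
        apply mul_le_mul'
        · exact le_mul_of_one_le_right' hb
        · exact le_mul_of_one_le_right' ha
    _ = b * b * (a * a) := rfl

/-- For small `ε`, the sign of a polynomial is the sign of its first nonzero coefficient. -/
theorem small_eps (n : ℕ) : ∀ (S : Finset (Fin n → ℝ)), ∃ ε : ℝ, 0 < ε ∧ ∀ r ∈ S, ∀ k : Fin n,
    (∀ i < k, r i = 0) → 0 < r k → 0 < ∑ j : Fin n, ε ^ (j : ℕ) * r j := by
  classical
  intro S
  have key : ∀ r ∈ S, ∀ᶠ ε : ℝ in 𝓝[>] 0, ∀ k : Fin n,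
    (∀ i < k, r i = 0) → 0 < r k → 0 < ∑ j : Fin n, ε ^ (j : ℕ) * r j := by
    intro r _
    rw [eventually_all]
    intro k
    by_cases h0 : ∀ i < k, r i = 0
    swap
    · exact Eventually.of_forall (fun _ h => absurd h h0)
    by_cases hk : 0 < r k
    swap
    · exact Eventually.of_forall (fun _ _ h => absurd h hk)
    -- ∑_{j} ε^j r_j = ε^k ∑_{j ≥ k} ε^(j-k) r_j
    have h1 : Tendsto (fun ε : ℝ => ∑ j : Fin n, (if k ≤ j then ε ^ ((j : ℕ) - k) * r j else 0))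
        (𝓝[>] 0) (𝓝 (r k)) := by
      have h2 : Tendsto (fun ε : ℝ => ∑ j : Fin n, (if k ≤ j then ε ^ ((j : ℕ) - k) * r j else 0))
        (𝓝 0) (𝓝 (∑ j : Fin n, (if k ≤ j then (0:ℝ) ^ ((j : ℕ) - k) * r j else 0))) := by
        apply tendsto_finsetSum
        intro j _
        split_ifs with hkj
        · exact ((continuous_pow _).tendsto 0).mul_const _
        · exact tendsto_const_nhds
      have h3 : ∑ j : Fin n, (if k ≤ j then (0:ℝ) ^ ((j : ℕ) - k) * r j else 0) = r k := by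
        rw [Finset.sum_eq_single k]
        · simp
        · intro j _ hj
          split_ifs with hkj
          · have : (j : ℕ) - k ≠ 0 := by
              have : k < j := lt_of_le_of_ne hkj (Ne.symm hj)
              have h5 : (k : ℕ) < j := this
              omega
            rw [zero_pow this, zero_mul]
          · rfl
        · intro h; exact absurd (Finset.mem_univ _) h
      rw [h3] at h2
      exact h2.mono_left nhdsWithin_le_nhds
    have h4 := h1.eventually (lt_mem_nhds hk)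
    filter_upwards [h4, self_mem_nhdsWithin] with ε h5 h6 _ _
    have h6' : (0:ℝ) < ε := h6
    have h7 : ∑ j : Fin n, ε ^ (j : ℕ) * r j =
        ε ^ (k : ℕ) * ∑ j : Fin n, (if k ≤ j then ε ^ ((j : ℕ) - k) * r j else 0) := by
      rw [Finset.mul_sum]
      apply Finset.sum_congr rfl
      intro j _
      split_ifs with hkj
      · rw [← mul_assoc, ← pow_add]
        congr 2
        have : (k : ℕ) ≤ j := hkj
        omega
      · rw [h0 j (not_le.mp hkj)]; simp
    rw [h7]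
    positivity
  have h2 : ∀ᶠ ε : ℝ in 𝓝[>] 0, ∀ r ∈ S, ∀ k : Fin n,
    (∀ i < k, r i = 0) → 0 < r k → 0 < ∑ j : Fin n, ε ^ (j : ℕ) * r j := by
    rw [Filter.eventually_all_finset]
    exact key
  obtain ⟨ε, h3, h4⟩ := (h2.and self_mem_nhdsWithin).exists
  exact ⟨ε, h4, h3⟩

/-- In an abelian ℓ-group, for every prime and every finite set there is a homomorphism to the
reals detecting the sign modulo the prime on the finite set. -/
theorem exists_hom (hc : ∀ x y : G, x * y = y * x) {Q : Subgroup G} (hQ : IsPrm Q) (D : Finset G) :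
    ∃ f : G → ℝ, (∀ x y, f (x * y) = f x + f y) ∧ ∀ a ∈ D, (0 ≤ f a ↔ a⁻¹ ⊔ 1 ∈ Q) := by
  classical
  have law : NV G := nv_of_comm hc
  obtain ⟨n, c, hcQ, hanti, hlev⟩ := exists_levels hQ (D.filter (fun c => c ∉ Q))
    (fun c hc => (Finset.mem_filter.mp hc).2)
  have hMc : ∀ k, IsCvx (vl Q (c k)) := fun k => vl_cvx hQ (hcQ k)
  have hMN : ∀ k, vl Q (c k) ≤ cv Q (c k) := fun k => vl_le_cv hQ (hcQ k)
  have hNM : ∀ i j, i < j → cv Q (c j) ≤ vl Q (c i) := by
    intro i j hij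
    apply cv_le_of (hMc i) (le_vl hQ (hcQ i))
    by_contra hcon
    have := le_vl_of hQ (hcQ j) (hMc i) (le_vl hQ (hcQ i)) hcon
    exact absurd this (not_le_of_gt (hanti i j hij))
  have hol : ∀ k, ∃ φ : G → ℝ, (∀ x ∈ cv Q (c k), ∀ y ∈ cv Q (c k), φ (x * y) = φ x + φ y) ∧
      ∀ x ∈ cv Q (c k), (0 ≤ φ x ↔ x⁻¹ ⊔ 1 ∈ vl Q (c k)) := fun k => exists_holder law hQ (hcQ k)
  choose φ hφadd hφpos using hol
  have hext : ∀ k, ∃ π : G → ℝ, (∀ x y, π (x * y) = π x + π y) ∧ ∀ x ∈ cv Q (c k), π x = φ k x :=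
    fun k => extend_hom hc _ (φ k) (hφadd k)
  choose π hπ hπφ using hext
  have hπ1 : ∀ k, π k 1 = 0 := by
    intro k
    have := hπ k 1 1
    rw [one_mul] at this
    linarith
  have hπinv : ∀ k x, π k x⁻¹ = - π k x := by
    intro k x
    have := hπ k x x⁻¹
    rw [mul_inv_cancel, hπ1] at this
    linarith
  have hπpos : ∀ k, ∀ x ∈ cv Q (c k), (0 ≤ π k x ↔ x⁻¹ ⊔ 1 ∈ vl Q (c k)) := by
    intro k x hx
    rw [hπφ k x hx]; exact hφpos k x hx
  have hπM : ∀ k, ∀ x ∈ cv Q (c k), (π k x = 0 ↔ x ∈ vl Q (c k)) := by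
    intro k x hx
    constructor
    · intro h
      have h1 := (hπpos k x hx).mp h.ge
      have h2 := (hπpos k x⁻¹ ((cv Q (c k)).inv_mem hx)).mp (by rw [hπinv k x, h]; simp)
      rw [inv_inv] at h2
      exact (hMc k).mem_of_pos_neg h2 h1
    · intro h
      have h1 := (hπpos k x hx).mpr ((hMc k).neg_mem h)
      have h2 := (hπpos k x⁻¹ ((cv Q (c k)).inv_mem hx)).mpr (by
        rw [inv_inv]; exact (hMc k).sup_one _ h)
      rw [hπinv k x] at h2
      linarith
  obtain ⟨ε, hε, hS⟩ := small_eps n ((D ∪ D.image (fun a => a⁻¹)).image (fun a => fun k => π k a))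
  refine ⟨fun x => ∑ j : Fin n, ε ^ (j : ℕ) * π j x, ?_, ?_⟩
  · intro x y
    rw [← Finset.sum_add_distrib]
    apply Finset.sum_congr rfl
    intro j _
    rw [hπ]; ring
  · intro a ha
    dsimp only
    have hneg : ∑ j : Fin n, ε ^ (j : ℕ) * π j a⁻¹ = - ∑ j : Fin n, ε ^ (j : ℕ) * π j a := by
      rw [← Finset.sum_neg_distrib]
      apply Finset.sum_congr rfl
      intro j _
      rw [hπinv]; ring
    by_cases haQ : a ∈ Q
    · have h0 : ∀ k, π k a = 0 := fun k =>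
        (hπM k a (hMN k (le_vl hQ (hcQ k) haQ))).mpr (le_vl hQ (hcQ k) haQ)
      have : ∑ j : Fin n, ε ^ (j : ℕ) * π j a = 0 := by
        apply Finset.sum_eq_zero
        intro j _
        rw [h0, mul_zero]
      rw [this]
      exact ⟨fun _ => hQ.toIsCvx.neg_mem haQ, fun _ => le_rfl⟩
    · obtain ⟨k, hk⟩ := hlev a (Finset.mem_filter.mpr ⟨ha, haQ⟩)
      have hak : a ∈ cv Q (c k) := mem_cv_of_vl_eq hQ haQ (hcQ k) hk.symm
      have hakM : a ∉ vl Q (c k) := by rw [hk]; exact not_mem_vl hQ haQ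
      have h0 : ∀ i < k, π i a = 0 := fun i hi =>
        (hπM i a (hMN i (hNM i k hi hak))).mpr (hNM i k hi hak)
      have hne : π k a ≠ 0 := fun h => hakM ((hπM k a hak).mp h)
      constructor
      · intro h
        by_contra hcon
        have h1 : a ⊔ 1 ∈ Q := (hQ.prime a).resolve_right hcon
        have h2 : 0 ≤ π k a⁻¹ := (hπpos k a⁻¹ ((cv Q (c k)).inv_mem hak)).mpr (by
          rw [inv_inv]; exact le_vl hQ (hcQ k) h1)
        rw [hπinv] at h2
        have h3 : 0 < π k a⁻¹ := by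
          rw [hπinv]
          exact lt_of_le_of_ne h2 (fun h => hne (by linarith))
        have h4 := hS (fun k => π k a⁻¹) (Finset.mem_image_of_mem _ (by
          apply Finset.mem_union_right
          exact Finset.mem_image_of_mem _ ha)) k (fun i hi => by rw [hπinv, h0 i hi, neg_zero]) h3
        rw [hneg] at h4
        linarith
      · intro h
        have h2 : 0 ≤ π k a := (hπpos k a hak).mpr (le_vl hQ (hcQ k) h)
        have h3 : 0 < π k a := lt_of_le_of_ne h2 (Ne.symm hne)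
        exact (hS (fun k => π k a) (Finset.mem_image_of_mem _ (Finset.mem_union_left _ ha)) k
          h0 h3).le

/-- homomorphisms to the reals -/
structure RHom (G : Type) [Group G] where
  /-- the map -/
  val : G → ℝ
  prop : ∀ x y, val (x * y) = val x + val y

theorem RHom.one (f : RHom G) : f.1 1 = 0 := by
  have := f.2 1 1
  rw [one_mul] at this
  linarith

theorem RHom.inv (f : RHom G) (x : G) : f.1 x⁻¹ = - f.1 x := by
  have := f.2 x x⁻¹
  rw [mul_inv_cancel, f.one] at this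
  linarith

/-- homomorphisms that are good for a prime on a finite set -/
def GoodH (Q : Subgroup G) (D : Finset G) (f : RHom G) : Prop := ∀ a ∈ D, (0 ≤ f.1 a ↔ a⁻¹ ⊔ 1 ∈ Q)

theorem GoodH.mono {Q : Subgroup G} {D D' : Finset G} {f : RHom G} (h : GoodH Q D' f)
    (hD : D ⊆ D') : GoodH Q D f := fun a ha => h a (hD ha)

/-- `p` agrees with `g` at good homomorphisms. -/
def MimH (Q : Subgroup G) (p : RHom G → ℝ) (g : G) : Prop :=
  ∃ D : Finset G, ∀ f, GoodH Q D f → p f = f.1 g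

theorem MimH.one {Q : Subgroup G} : MimH Q (fun _ => 0) (1 : G) := ⟨∅, fun f _ => f.one.symm⟩

theorem MimH.mul {Q : Subgroup G} {p p' : RHom G → ℝ} {g g' : G} (h : MimH Q p g)
    (h' : MimH Q p' g') : MimH Q (fun f => p f + p' f) (g * g') := by
  classical
  obtain ⟨D, hD⟩ := h
  obtain ⟨D', hD'⟩ := h'
  refine ⟨D ∪ D', fun f hf => ?_⟩
  dsimp only
  rw [hD f (hf.mono Finset.subset_union_left), hD' f (hf.mono Finset.subset_union_right), f.2]

theorem MimH.inv {Q : Subgroup G} {p : RHom G → ℝ} {g : G} (h : MimH Q p g) :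
    MimH Q (fun f => - p f) (g⁻¹) := by
  obtain ⟨D, hD⟩ := h
  exact ⟨D, fun f hf => by dsimp only; rw [hD f hf, f.inv]⟩

theorem MimH.sup {Q : Subgroup G} (hQ : IsPrm Q) {p p' : RHom G → ℝ} {g g' : G}
    (h : MimH Q p g) (h' : MimH Q p' g') : MimH Q (fun f => max (p f) (p' f)) (g ⊔ g') := by
  classical
  obtain ⟨D, hD⟩ := h
  obtain ⟨D', hD'⟩ := h'
  refine ⟨D ∪ D' ∪ {g⁻¹ * g', g'⁻¹ * g, g'⁻¹ * (g ⊔ g'), (g'⁻¹ * (g ⊔ g'))⁻¹,
    g⁻¹ * (g ⊔ g'), (g⁻¹ * (g ⊔ g'))⁻¹}, fun f hf => ?_⟩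
  dsimp only
  rw [hD f (hf.mono (by intro x hx; simp [hx])), hD' f (hf.mono (by intro x hx; simp [hx]))]
  have hz : ∀ x, x ∈ Q → x ∈ (D ∪ D' ∪ {g⁻¹ * g', g'⁻¹ * g, g'⁻¹ * (g ⊔ g'),
      (g'⁻¹ * (g ⊔ g'))⁻¹, g⁻¹ * (g ⊔ g'), (g⁻¹ * (g ⊔ g'))⁻¹} : Finset G) →
      x⁻¹ ∈ (D ∪ D' ∪ {g⁻¹ * g', g'⁻¹ * g, g'⁻¹ * (g ⊔ g'),
      (g'⁻¹ * (g ⊔ g'))⁻¹, g⁻¹ * (g ⊔ g'), (g⁻¹ * (g ⊔ g'))⁻¹} : Finset G) → f.1 x = 0 := by
    intro x hx h1 h2
    have h3 := (hf x h1).mpr (hQ.toIsCvx.neg_mem hx)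
    have h4 := (hf x⁻¹ h2).mpr (by rw [inv_inv]; exact hQ.sup_one _ hx)
    rw [f.inv] at h4
    linarith
  rcases leQ_total hQ g g' with h1 | h1
  · have h2 : g'⁻¹ * (g ⊔ g') ∈ Q := sup_mem_of_leQ h1
    have h3 := hz _ h2 (by simp) (by simp)
    rw [f.2, f.inv] at h3
    have h4 : 0 ≤ f.1 (g⁻¹ * g') := by
      rw [hf _ (by simp)]
      have e : (g⁻¹ * g')⁻¹ = g'⁻¹ * g := by group
      rw [e]; exact h1
    rw [f.2, f.inv] at h4
    rw [max_eq_right (by linarith)]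
    linarith
  · have h2 : g⁻¹ * (g ⊔ g') ∈ Q := by rw [sup_comm]; exact sup_mem_of_leQ h1
    have h3 := hz _ h2 (by simp) (by simp)
    rw [f.2, f.inv] at h3
    have h4 : 0 ≤ f.1 (g'⁻¹ * g) := by
      rw [hf _ (by simp)]
      have e : (g'⁻¹ * g)⁻¹ = g⁻¹ * g' := by group
      rw [e]; exact h1
    rw [f.2, f.inv] at h4
    rw [max_eq_left (by linarith)]
    linarith

theorem MimH.inf {Q : Subgroup G} (hQ : IsPrm Q) {p p' : RHom G → ℝ} {g g' : G}
    (h : MimH Q p g) (h' : MimH Q p' g') : MimH Q (fun f => min (p f) (p' f)) (g ⊓ g') := by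
  obtain ⟨D, hD⟩ := (h.inv.sup hQ h'.inv).inv
  refine ⟨D, fun f hf => ?_⟩
  have h1 := hD f hf
  have e : (g⁻¹ ⊔ g'⁻¹)⁻¹ = g ⊓ g' := by rw [inv_sup, inv_inv, inv_inv]
  rw [e] at h1
  rw [← h1]
  dsimp only
  rw [max_neg_neg, neg_neg]

theorem MimH.gen {Q : Subgroup G} (g : G) : MimH Q (fun f => f.1 g) g := ⟨∅, fun _ _ => rfl⟩

theorem MimH.unique (hc : ∀ x y : G, x * y = y * x) {Q : Subgroup G} (hQ : IsPrm Q)
    {p : RHom G → ℝ} {g g' : G} (h : MimH Q p g) (h' : MimH Q p g') : g⁻¹ * g' ∈ Q := by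
  classical
  obtain ⟨D, hD⟩ := h
  obtain ⟨D', hD'⟩ := h'
  obtain ⟨f, hf1, hf2⟩ := exists_hom hc hQ (D ∪ D' ∪ {g⁻¹ * g', (g⁻¹ * g')⁻¹})
  let F : RHom G := ⟨f, hf1⟩
  have hF : GoodH Q (D ∪ D' ∪ {g⁻¹ * g', (g⁻¹ * g')⁻¹}) F := hf2
  have h1 := hD F (hF.mono (by intro x hx; simp [hx]))
  have h2 := hD' F (hF.mono (by intro x hx; simp [hx]))
  have h3 : F.1 (g⁻¹ * g') = 0 := by
    rw [F.2, F.inv]; linarith
  have h4 := (hF (g⁻¹ * g') (by simp)).mp h3.ge
  have h5 := (hF (g⁻¹ * g')⁻¹ (by simp)).mp (by rw [F.inv, h3]; simp)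
  rw [inv_inv] at h5
  exact hQ.toIsCvx.mem_of_pos_neg h5 h4

end Hom

end Pool.Agent.Helper29
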