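import Pool.Agent.Helper29.MAbel
import Pool.Agent.Helper29.Forward

/-!
The varieties `Z` and `A` are generated by small m-groups.
-/

set_option autoImplicit false
set_option linter.unusedSectionVars false

namespace Pool.Agent.Helper29

open Filter Topology

/-- the m-group of a totally ordered abelian group, with `x_* = -x` -/
def minusM (L : Type) [AddCommGroup L] [LinearOrder L] [IsOrderedAddMonoid L] : MGroup where
  carrier := Multiplicative L
  star := fun x => x⁻¹
  star_mul := fun x y => mul_inv x y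
  star_star := fun x => inv_inv x
  star_sup := fun x y => inv_sup x y
  star_inf := fun x y => inv_inf x y

/-- the m-group of pairs, with the swap -/
def swapM (L : Type) [AddCommGroup L] [LinearOrder L] [IsOrderedAddMonoid L] : MGroup where
  carrier := Multiplicative L × (Multiplicative L)ᵒᵈ
  mulLeft := prod_mulLeftMono _ _
  mulRight := prod_mulRightMono _ _
  star := fun x => (OrderDual.ofDual x.2, OrderDual.toDual x.1)
  star_mul := fun _ _ => rfl
  star_star := fun _ => rfl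
  star_sup := fun _ _ => rfl
  star_inf := fun _ _ => rfl

/-- asymptotic slope -/
def Slope (p : ℕ → ℤ) (r : ℝ) : Prop := Tendsto (fun n : ℕ => (p n : ℝ) / n) atTop (𝓝 r)

theorem Slope.zero : Slope (fun _ => 0) 0 := by
  unfold Slope
  simp

theorem Slope.add {p q : ℕ → ℤ} {r s : ℝ} (h : Slope p r) (h' : Slope q s) :
    Slope (fun n => p n + q n) (r + s) := by
  have := Tendsto.add h h'
  refine this.congr (fun n => ?_)
  push_cast; ring

theorem Slope.neg {p : ℕ → ℤ} {r : ℝ} (h : Slope p r) : Slope (fun n => - p n) (-r) := by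
  have := Tendsto.neg h
  refine this.congr (fun n => ?_)
  push_cast; ring

theorem Slope.max {p q : ℕ → ℤ} {r s : ℝ} (h : Slope p r) (h' : Slope q s) :
    Slope (fun n => p n ⊔ q n) (r ⊔ s) := by
  have := Tendsto.max h h'
  refine this.congr (fun n => ?_)
  push_cast
  exact (max_div_div_right (Nat.cast_nonneg n) _ _)

theorem Slope.min {p q : ℕ → ℤ} {r s : ℝ} (h : Slope p r) (h' : Slope q s) :
    Slope (fun n => p n ⊓ q n) (r ⊓ s) := by
  have := Tendsto.min h h'
  refine this.congr (fun n => ?_)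
  push_cast
  exact (min_div_div_right (Nat.cast_nonneg n) _ _)

theorem Slope.exists (r : ℝ) : ∃ p, Slope p r := by
  refine ⟨fun n => ⌊r * n⌋, ?_⟩
  have h1 : Tendsto (fun n : ℕ => ((⌊r * n⌋ : ℤ) : ℝ) / n - r) atTop (𝓝 0) := by
    apply squeeze_zero_norm' (a := fun n : ℕ => 1 / (n : ℝ))
    · filter_upwards [eventually_gt_atTop 0] with n hn
      have hn' : (0:ℝ) < n := by exact_mod_cast hn
      rw [Real.norm_eq_abs]
      have e : ((⌊r * n⌋ : ℤ) : ℝ) / n - r = (((⌊r * n⌋ : ℤ) : ℝ) - r * n) / n := by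
        field_simp
      rw [e, abs_div, abs_of_pos hn']
      apply div_le_div_of_nonneg_right _ hn'.le
      rw [abs_le]
      have a1 := Int.floor_le (r * n)
      have a2 := Int.lt_floor_add_one (r * n)
      constructor <;> linarith
    · exact tendsto_one_div_atTop_nhds_zero_nat
  have h2 := h1.add_const r
  rw [zero_add] at h2
  refine h2.congr (fun n => ?_)
  ring

theorem Slope.unique {p : ℕ → ℤ} {r s : ℝ} (h : Slope p r) (h' : Slope p s) : r = s :=
  tendsto_nhds_unique h h'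

variable {E : Set (MTerm × MTerm)}

theorem minusR_mem (h : minusM ℤ ∈ Models E) : minusM ℝ ∈ Models E := by
  refine relHSP (ι := ℕ) (fun _ => minusM ℤ) (fun _ => h) (minusM ℝ)
    (fun p r => Slope (fun n => Multiplicative.toAdd (p n : Multiplicative ℤ))
      (Multiplicative.toAdd (r : Multiplicative ℝ))) ?_ ?_ ?_ ?_ ?_ ?_ ?_ ?_
  · exact Slope.zero
  · intro p q a b h1 h2; exact h1.add h2
  · intro p a h1; exact h1.neg
  · intro p q a b h1 h2; exact h1.max h2
  · intro p q a b h1 h2; exact h1.min h2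
  · intro p a h1; exact h1.neg
  · intro b
    obtain ⟨p, hp⟩ := Slope.exists (Multiplicative.toAdd (b : Multiplicative ℝ))
    exact ⟨fun n => Multiplicative.ofAdd (p n), hp⟩
  · intro p a b h1 h2
    exact Multiplicative.toAdd.injective (h1.unique h2)

theorem swapR_mem (h : swapM ℤ ∈ Models E) : swapM ℝ ∈ Models E := by
  refine relHSP (ι := ℕ) (fun _ => swapM ℤ) (fun _ => h) (swapM ℝ)
    (fun p r => Slope (fun n => Multiplicative.toAdd
        (p n : Multiplicative ℤ × (Multiplicative ℤ)ᵒᵈ).1)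
      (Multiplicative.toAdd (r : Multiplicative ℝ × (Multiplicative ℝ)ᵒᵈ).1) ∧
      Slope (fun n => Multiplicative.toAdd
        (OrderDual.ofDual (p n : Multiplicative ℤ × (Multiplicative ℤ)ᵒᵈ).2))
      (Multiplicative.toAdd
        (OrderDual.ofDual (r : Multiplicative ℝ × (Multiplicative ℝ)ᵒᵈ).2))) ?_ ?_ ?_ ?_ ?_ ?_ ?_ ?_
  · exact ⟨Slope.zero, Slope.zero⟩
  · intro p q a b h1 h2; exact ⟨h1.1.add h2.1, h1.2.add h2.2⟩
  · intro p a h1; exact ⟨h1.1.neg, h1.2.neg⟩
  · intro p q a b h1 h2; exact ⟨h1.1.max h2.1, h1.2.min h2.2⟩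
  · intro p q a b h1 h2; exact ⟨h1.1.min h2.1, h1.2.max h2.2⟩
  · intro p a h1; exact ⟨h1.2, h1.1⟩
  · rintro ⟨b, b'⟩
    obtain ⟨p, hp⟩ := Slope.exists (Multiplicative.toAdd (b : Multiplicative ℝ))
    obtain ⟨q, hq⟩ := Slope.exists (Multiplicative.toAdd
      (OrderDual.ofDual (b' : (Multiplicative ℝ)ᵒᵈ)))
    exact ⟨fun n => (Multiplicative.ofAdd (p n), OrderDual.toDual (Multiplicative.ofAdd (q n))),
      hp, hq⟩
  · rintro p ⟨a, a'⟩ ⟨b, b'⟩ h1 h2
    exact Prod.ext (Multiplicative.toAdd.injective (h1.1.unique h2.1))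
      (OrderDual.ofDual.injective (Multiplicative.toAdd.injective (h1.2.unique h2.2)))

theorem zVar_subset (h : minusM ℝ ∈ Models E) : zVar ⊆ Models E := by
  intro G hG
  have hc : ∀ x y : G.carrier, x * y = y * x := by
    intro x y
    have h1 := G.star_mul x⁻¹ y⁻¹
    rw [hG, hG, hG, inv_inv, inv_inv, mul_inv_rev, inv_inv, inv_inv] at h1
    exact h1.symm
  refine relHSP (ι := RHom G.carrier) (fun _ => minusM ℝ) (fun _ => h) G
    (fun p g => ∀ Q : Subgroup G.carrier, IsPrm Q →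
      MimH Q (fun f => Multiplicative.toAdd (p f : Multiplicative ℝ)) g) ?_ ?_ ?_ ?_ ?_ ?_ ?_ ?_
  · intro Q hQ; exact MimH.one
  · intro p q a b h1 h2 Q hQ; exact (h1 Q hQ).mul (h2 Q hQ)
  · intro p a h1 Q hQ; exact (h1 Q hQ).inv
  · intro p q a b h1 h2 Q hQ; exact (h1 Q hQ).sup hQ (h2 Q hQ)
  · intro p q a b h1 h2 Q hQ; exact (h1 Q hQ).inf hQ (h2 Q hQ)
  · intro p a h1 Q hQ; rw [hG a]; exact (h1 Q hQ).inv
  · intro b
    exact ⟨fun f => Multiplicative.ofAdd (f.1 b), fun Q hQ => MimH.gen b⟩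
  · intro p a b h1 h2
    by_contra hne
    obtain ⟨Q, hQ, hn⟩ := exists_prime_ne hne
    exact hn (MimH.unique hc hQ (h1 Q hQ) (h2 Q hQ))

theorem abelianVar_subset (h : swapM ℝ ∈ Models E) : abelianVar ⊆ Models E := by
  intro G hG
  have hc : ∀ x y : G.carrier, x * y = y * x := hG
  refine relHSP (ι := RHom G.carrier) (fun _ => swapM ℝ) (fun _ => h) G
    (fun p g => ∀ Q : Subgroup G.carrier, IsPrm Q →
      MimH Q (fun f => Multiplicative.toAdd
        (p f : Multiplicative ℝ × (Multiplicative ℝ)ᵒᵈ).1) g ∧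
      MimH Q (fun f => Multiplicative.toAdd
        (OrderDual.ofDual (p f : Multiplicative ℝ × (Multiplicative ℝ)ᵒᵈ).2)) (G.star g))
      ?_ ?_ ?_ ?_ ?_ ?_ ?_ ?_
  · intro Q hQ
    refine ⟨MimH.one, ?_⟩
    rw [G.star_one]; exact MimH.one
  · intro p q a b h1 h2 Q hQ
    refine ⟨(h1 Q hQ).1.mul (h2 Q hQ).1, ?_⟩
    rw [G.star_mul]; exact (h1 Q hQ).2.mul (h2 Q hQ).2
  · intro p a h1 Q hQ
    refine ⟨(h1 Q hQ).1.inv, ?_⟩
    rw [G.star_inv]; exact (h1 Q hQ).2.inv
  · intro p q a b h1 h2 Q hQ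
    refine ⟨(h1 Q hQ).1.sup hQ (h2 Q hQ).1, ?_⟩
    rw [G.star_sup]; exact (h1 Q hQ).2.inf hQ (h2 Q hQ).2
  · intro p q a b h1 h2 Q hQ
    refine ⟨(h1 Q hQ).1.inf hQ (h2 Q hQ).1, ?_⟩
    rw [G.star_inf]; exact (h1 Q hQ).2.sup hQ (h2 Q hQ).2
  · intro p a h1 Q hQ
    refine ⟨(h1 Q hQ).2, ?_⟩
    rw [G.star_star]; exact (h1 Q hQ).1
  · intro b
    exact ⟨fun f => (Multiplicative.ofAdd (f.1 b), OrderDual.toDual
      (Multiplicative.ofAdd (f.1 (G.star b)))), fun Q hQ => ⟨MimH.gen b, MimH.gen (G.star b)⟩⟩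
  · intro p a b h1 h2
    by_contra hne
    obtain ⟨Q, hQ, hn⟩ := exists_prime_ne hne
    exact hn (MimH.unique hc hQ (h1 Q hQ).1 (h2 Q hQ).1)

section Embeddings

variable {G : Type} [Group G] [Lattice G] [MulLeftMono G] [MulRightMono G]

theorem one_le_zpow' {y : G} (hy : 1 ≤ y) {k : ℤ} (hk : 0 ≤ k) : 1 ≤ y ^ k := by
  obtain ⟨n, rfl⟩ := Int.eq_ofNat_of_zero_le hk
  rw [zpow_natCast]
  exact one_le_pow' hy n

theorem zpow_mono' {y : G} (hy : 1 ≤ y) {j k : ℤ} (h : j ≤ k) : y ^ j ≤ y ^ k := by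
  have e : y ^ k = y ^ j * y ^ (k - j) := by rw [← zpow_add]; congr 1; ring
  rw [e]
  exact le_mul_of_one_le_right' (one_le_zpow' hy (by omega))

theorem pow_eq_one' {y : G} (hy : 1 ≤ y) {n : ℕ} (hn : n ≠ 0) (h : y ^ n = 1) : y = 1 := by
  apply le_antisymm _ hy
  obtain ⟨m, rfl⟩ := Nat.exists_eq_succ_of_ne_zero hn
  calc y = 1 * y := (one_mul y).symm
    _ ≤ y ^ m * y := mul_le_mul' (one_le_pow' hy m) le_rfl
    _ = 1 := by rw [← pow_succ]; exact h

theorem zpow_inj' {y : G} (hy : 1 ≤ y) (hy1 : y ≠ 1) {j k : ℤ} (h : y ^ j = y ^ k) : j = k := by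
  have key : ∀ {j k : ℤ}, y ^ j = y ^ k → j ≤ k := by
    intro j k h
    by_contra hcon
    push Not at hcon
    have h1 : y ^ (j - k) = 1 := by
      rw [zpow_sub, h, mul_inv_cancel]
    obtain ⟨n, hn⟩ := Int.eq_ofNat_of_zero_le (show 0 ≤ j - k by omega)
    rw [hn, zpow_natCast] at h1
    exact hy1 (pow_eq_one' hy (by omega) h1)
  exact le_antisymm (key h) (key h.symm)

theorem disj_sup {x y : G} (h : x ⊓ y = 1) : x ⊔ y = x * y := by
  have h1 : x * (x ⊓ y)⁻¹ * y = x ⊔ y := by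
    rw [inv_inf, mul_sup, mul_inv_cancel, sup_mul, one_mul, inv_mul_cancel_right, sup_comm]
  rw [← h1, h, inv_one, mul_one]

theorem disj_comm {x y : G} (h : x ⊓ y = 1) : x * y = y * x := by
  rw [← disj_sup h, ← disj_sup (by rw [inf_comm]; exact h), sup_comm]

theorem disj_mul {x x' y : G} (hx : 1 ≤ x) (hx' : 1 ≤ x') (hy : 1 ≤ y) (h : x ⊓ y = 1)
    (h' : x' ⊓ y = 1) : (x * x') ⊓ y = 1 := by
  apply le_antisymm
  · have := mul_inf_le_aux hx hx' hy
    rwa [h, h', one_mul] at this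
  · exact le_inf (by
      calc (1:G) = 1 * 1 := (one_mul 1).symm
        _ ≤ x * x' := mul_le_mul' hx hx') hy

theorem disj_pow_left {x y : G} (hx : 1 ≤ x) (hy : 1 ≤ y) (h : x ⊓ y = 1) (n : ℕ) :
    x ^ n ⊓ y = 1 := by
  induction n with
  | zero => rw [pow_zero]; exact inf_eq_left.mpr hy
  | succ n ih => rw [pow_succ]; exact disj_mul (one_le_pow' hx n) hx hy ih h

theorem disj_pow {x y : G} (hx : 1 ≤ x) (hy : 1 ≤ y) (h : x ⊓ y = 1) (n m : ℕ) :
    x ^ n ⊓ y ^ m = 1 := by
  have h1 := disj_pow_left hx hy h n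
  rw [inf_comm] at h1
  have := disj_pow_left hy (one_le_pow' hx n) h1 m
  rwa [inf_comm] at this

end Embeddings

theorem minusZ_mem {G : MGroup} (hG : G ∈ Models E) {y : G.carrier} (hy : 1 ≤ y) (hy1 : y ≠ 1)
    (hs : G.star y = y⁻¹) : minusM ℤ ∈ Models E := by
  refine mem_of_embedding G (minusM ℤ) hG
    (fun n : Multiplicative ℤ => y ^ (Multiplicative.toAdd n)) ?_ ?_ ?_ ?_
  · intro a b h
    exact Multiplicative.toAdd.injective (zpow_inj' hy hy1 h)
  · intro a b
    exact zpow_add y _ _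
  · intro (a : Multiplicative ℤ) (b : Multiplicative ℤ)
    change y ^ (max (Multiplicative.toAdd (a : Multiplicative ℤ))
      (Multiplicative.toAdd (b : Multiplicative ℤ))) = _
    rcases le_total (Multiplicative.toAdd (a : Multiplicative ℤ))
      (Multiplicative.toAdd (b : Multiplicative ℤ)) with h | h
    · rw [max_eq_right h, sup_eq_right.mpr (zpow_mono' hy h)]
    · rw [max_eq_left h, sup_eq_left.mpr (zpow_mono' hy h)]
  · intro a
    have hz : ∀ k : ℤ, G.star (y ^ k) = y ^ (-k) := by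
      have hn : ∀ n : ℕ, G.star (y ^ n) = (y ^ n)⁻¹ := by
        intro n
        induction n with
        | zero => rw [pow_zero, G.star_one, inv_one]
        | succ n ih =>
          rw [pow_succ, G.star_mul, ih, hs, mul_inv_rev]
          have : Commute (y ^ n)⁻¹ y⁻¹ := (Commute.inv_left (Commute.inv_right
            ((Commute.refl y).pow_left n)))
          exact this
      intro k
      rcases Int.eq_nat_or_neg k with ⟨n, rfl | rfl⟩
      · rw [zpow_natCast, hn, zpow_neg, zpow_natCast]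
      · rw [zpow_neg, zpow_natCast, G.star_inv, hn, inv_inv, neg_neg, zpow_natCast]
    exact (hz _).symm

theorem swapZ_mem {G : MGroup} (hG : G ∈ Models E) {c : G.carrier} (hc : 1 ≤ c) (hc1 : c ≠ 1)
    (hd : c ⊓ (G.star c)⁻¹ = 1) : swapM ℤ ∈ Models E := by
  set d := (G.star c)⁻¹ with hddef
  have hsc : G.star c = d⁻¹ := by rw [hddef, inv_inv]
  have hsd : G.star d = c⁻¹ := by rw [hddef, G.star_inv, G.star_star]
  have hd1 : 1 ≤ d := by
    have := G.star_anti hc
    rw [G.star_one] at this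
    rw [hddef]; exact one_le_inv'.mpr this
  have hd1' : d ≠ 1 := by
    intro h
    rw [h, inf_eq_right.mpr hc] at hd
    apply hc1
    apply G.star_inj
    rw [G.star_one, hsc, h, inv_one]
  have hcd : Commute c d := disj_comm hd
  have hzz : ∀ i j : ℤ, Commute (c ^ i) (d ^ j) := fun i j => hcd.zpow_zpow i j
  have hstar : ∀ k : ℤ, G.star (c ^ k) = (d ^ k)⁻¹ ∧ G.star (d ^ k) = (c ^ k)⁻¹ := by
    have hn : ∀ n : ℕ, G.star (c ^ n) = (d ^ n)⁻¹ ∧ G.star (d ^ n) = (c ^ n)⁻¹ := by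
      intro n
      induction n with
      | zero => rw [pow_zero, pow_zero, G.star_one, inv_one]; exact ⟨rfl, rfl⟩
      | succ n ih =>
        constructor
        · rw [pow_succ, G.star_mul, ih.1, hsc, pow_succ', mul_inv_rev]
        · rw [pow_succ, G.star_mul, ih.2, hsd, pow_succ', mul_inv_rev]
    intro k
    rcases Int.eq_nat_or_neg k with ⟨n, rfl | rfl⟩
    · rw [zpow_natCast, zpow_natCast]; exact hn n
    · rw [zpow_neg, zpow_neg, zpow_natCast, zpow_natCast, G.star_inv, G.star_inv, (hn n).1,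
        (hn n).2]
      exact ⟨rfl, rfl⟩
  -- the sup formula
  have hpos : ∀ i j : ℤ, 0 ≤ i → 0 ≤ j → c ^ i ⊔ d ^ j = c ^ i * d ^ j := by
    intro i j hi hj
    obtain ⟨n, rfl⟩ := Int.eq_ofNat_of_zero_le hi
    obtain ⟨m, rfl⟩ := Int.eq_ofNat_of_zero_le hj
    rw [zpow_natCast, zpow_natCast]
    exact disj_sup (disj_pow hc hd1 hd n m)
  have hsup1 : ∀ m a k b : ℤ, m ≤ k → c ^ m * d ^ a ⊔ c ^ k * d ^ b =
      c ^ k * d ^ (max a b) := by
    intro m a k b hmk
    rcases le_total a b with hab | hab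
    · rw [max_eq_right hab]
      apply sup_eq_right.mpr
      exact mul_le_mul' (zpow_mono' hc hmk) (zpow_mono' hd1 hab)
    · rw [max_eq_left hab]
      have e1 : c ^ m * d ^ a = c ^ m * d ^ b * d ^ (a - b) := by
        rw [mul_assoc, ← zpow_add]; congr 2; ring
      have e2 : c ^ k * d ^ b = c ^ m * d ^ b * c ^ (k - m) := by
        rw [mul_assoc, ← (hzz (k - m) b).eq, ← mul_assoc, ← zpow_add]; congr 2; ring
      rw [e1, e2, ← mul_sup, sup_comm, hpos _ _ (by omega) (by omega)]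
      rw [mul_assoc, ← mul_assoc (d ^ b), ← (hzz (k - m) b).eq, mul_assoc (c ^ (k - m)),
        ← zpow_add, ← mul_assoc, ← zpow_add]
      congr 2 <;> ring
  have hsup : ∀ m a k b : ℤ, c ^ m * d ^ a ⊔ c ^ k * d ^ b =
      c ^ (max m k) * d ^ (max a b) := by
    intro m a k b
    rcases le_total m k with h | h
    · rw [hsup1 m a k b h, max_eq_right h]
    · rw [sup_comm, hsup1 k b m a h, max_eq_left h, max_comm]
  have hinj : ∀ i j : ℤ, c ^ i = d ^ j → i = 0 ∧ j = 0 := by
    intro i j h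
    have h0 : c ^ i ⊔ d ^ (0:ℤ) = c ^ (max i 0) * d ^ (max 0 (0:ℤ)) := by
      have := hsup i 0 0 0
      simpa using this
    -- compare signs
    have key : ∀ i j : ℤ, 0 ≤ i → 0 ≤ j → c ^ i = d ^ j → i = 0 ∧ j = 0 := by
      intro i j hi hj h
      obtain ⟨n, rfl⟩ := Int.eq_ofNat_of_zero_le hi
      obtain ⟨m, rfl⟩ := Int.eq_ofNat_of_zero_le hj
      rw [zpow_natCast, zpow_natCast] at h
      have h1 := disj_pow hc hd1 hd n m
      rw [h, inf_idem] at h1
      have hm : m = 0 := by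
        by_contra hm; exact hd1' (pow_eq_one' hd1 hm h1)
      rw [h1] at h
      have hn : n = 0 := by
        by_contra hn; exact hc1 (pow_eq_one' hc hn h)
      exact ⟨by rw [hn]; rfl, by rw [hm]; rfl⟩
    rcases le_total 0 i with hi | hi <;> rcases le_total 0 j with hj | hj
    · exact key i j hi hj h
    · have h1 : c ^ i = 1 := by
        apply le_antisymm
        · rw [h]
          have := zpow_mono' hd1 hj
          simpa using this
        · exact one_le_zpow' hc hi
      have h2 : d ^ j = 1 := by rw [← h]; exact h1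
      exact ⟨zpow_inj' hc hc1 (h1.trans (zpow_zero c).symm),
        zpow_inj' hd1 hd1' (h2.trans (zpow_zero d).symm)⟩
    · have h1 : c ^ i = 1 := by
        apply le_antisymm
        · have := zpow_mono' hc hi
          simpa using this
        · rw [h]; exact one_le_zpow' hd1 hj
      have h2 : d ^ j = 1 := by rw [← h]; exact h1
      exact ⟨zpow_inj' hc hc1 (h1.trans (zpow_zero c).symm),
        zpow_inj' hd1 hd1' (h2.trans (zpow_zero d).symm)⟩
    · have h2 : c ^ (-i) = d ^ (-j) := by rw [zpow_neg, zpow_neg, h]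
      obtain ⟨a1, a2⟩ := key (-i) (-j) (by omega) (by omega) h2
      exact ⟨by omega, by omega⟩
  refine mem_of_embedding G (swapM ℤ) hG
    (fun n : Multiplicative ℤ × (Multiplicative ℤ)ᵒᵈ => c ^ (Multiplicative.toAdd n.1) *
      d ^ (- Multiplicative.toAdd (OrderDual.ofDual n.2))) ?_ ?_ ?_ ?_
  · rintro ⟨a, a'⟩ ⟨b, b'⟩ h
    have h' : c ^ (Multiplicative.toAdd a) * d ^ (- Multiplicative.toAdd (OrderDual.ofDual a')) =
      c ^ (Multiplicative.toAdd b) * d ^ (- Multiplicative.toAdd (OrderDual.ofDual b')) := h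
    have h1 : c ^ (Multiplicative.toAdd a - Multiplicative.toAdd b) =
        d ^ ((- Multiplicative.toAdd (OrderDual.ofDual b')) -
          (- Multiplicative.toAdd (OrderDual.ofDual a'))) := by
      rw [sub_eq_neg_add (Multiplicative.toAdd a), zpow_add, zpow_neg, zpow_sub]
      have h2 := congrArg (fun x => (c ^ (Multiplicative.toAdd b))⁻¹ * x *
        (d ^ (- Multiplicative.toAdd (OrderDual.ofDual a')))⁻¹) h'
      rw [mul_assoc, mul_inv_cancel_right, inv_mul_cancel_left] at h2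
      exact h2
    obtain ⟨h3, h4⟩ := hinj _ _ h1
    have h5 : Multiplicative.toAdd a = Multiplicative.toAdd b := by omega
    have h6 : Multiplicative.toAdd (OrderDual.ofDual a') =
      Multiplicative.toAdd (OrderDual.ofDual b') := by omega
    exact Prod.ext (Multiplicative.toAdd.injective h5)
      (OrderDual.ofDual.injective (Multiplicative.toAdd.injective h6))
  · rintro ⟨a, a'⟩ ⟨b, b'⟩
    change c ^ (Multiplicative.toAdd a + Multiplicative.toAdd b) *
      d ^ (- (Multiplicative.toAdd (OrderDual.ofDual a') +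
        Multiplicative.toAdd (OrderDual.ofDual b'))) =
      (c ^ (Multiplicative.toAdd a) * d ^ (- Multiplicative.toAdd (OrderDual.ofDual a'))) *
      (c ^ (Multiplicative.toAdd b) * d ^ (- Multiplicative.toAdd (OrderDual.ofDual b')))
    rw [zpow_add, neg_add, zpow_add]
    have := (hzz (Multiplicative.toAdd b) (- Multiplicative.toAdd (OrderDual.ofDual a'))).eq
    rw [mul_assoc, mul_assoc, ← mul_assoc (c ^ (Multiplicative.toAdd b)), this, mul_assoc]
  · rintro ⟨a, a'⟩ ⟨b, b'⟩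
    change c ^ (max (Multiplicative.toAdd a) (Multiplicative.toAdd b)) *
      d ^ (- (min (Multiplicative.toAdd (OrderDual.ofDual a'))
        (Multiplicative.toAdd (OrderDual.ofDual b')))) =
      (c ^ (Multiplicative.toAdd a) * d ^ (- Multiplicative.toAdd (OrderDual.ofDual a'))) ⊔
      (c ^ (Multiplicative.toAdd b) * d ^ (- Multiplicative.toAdd (OrderDual.ofDual b')))
    rw [hsup, max_neg_neg]
  · rintro ⟨a, a'⟩
    change c ^ (Multiplicative.toAdd (OrderDual.ofDual a')) * d ^ (- Multiplicative.toAdd a) =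
      G.star (c ^ (Multiplicative.toAdd a) * d ^ (- Multiplicative.toAdd (OrderDual.ofDual a')))
    rw [G.star_mul, (hstar _).1, (hstar _).2, zpow_neg, zpow_neg, inv_inv]
    exact ((hzz _ _).inv_right).eq

/-- A nontrivial m-group gives `Z`. -/
theorem zVar_of_nontrivial {G : MGroup} (hG : G ∈ Models E) (hn : ¬ Subsingleton G.carrier) :
    zVar ⊆ Models E := by
  rw [not_subsingleton_iff_nontrivial] at hn
  obtain ⟨a, ha⟩ := exists_ne (1 : G.carrier)
  -- x > 1
  obtain ⟨x, hx, hx1⟩ : ∃ x : G.carrier, 1 ≤ x ∧ x ≠ 1 := by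
    by_cases h : a ⊔ 1 = 1
    · refine ⟨a⁻¹ ⊔ 1, le_sup_right, ?_⟩
      intro h2
      apply ha
      have := pos_mul_neg a
      rw [h, h2, inv_one, mul_one] at this
      exact this.symm
    · exact ⟨a ⊔ 1, le_sup_right, h⟩
  have hs : 1 ≤ (G.star x)⁻¹ := by
    have := G.star_anti hx
    rw [G.star_one] at this
    exact one_le_inv'.mpr this
  apply zVar_subset
  apply minusR_mem
  refine minusZ_mem hG (y := x * (G.star x)⁻¹) ?_ ?_ ?_
  · calc (1:G.carrier) = 1 * 1 := (one_mul 1).symm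
      _ ≤ _ := mul_le_mul' hx hs
  · intro h
    apply hx1
    apply le_antisymm _ hx
    calc x = x * 1 := (mul_one x).symm
      _ ≤ x * (G.star x)⁻¹ := mul_le_mul' le_rfl hs
      _ = 1 := h
  · rw [G.star_mul, G.star_inv, G.star_star, mul_inv_rev, inv_inv]

/-- Failure of the symmetry law gives `A`. -/
theorem abelianVar_of_not_sym {G : MGroup} (hG : G ∈ Models E) (law : NV G.carrier)
    (h : ¬ ∀ x : G.carrier, 1 ≤ x → x ≤ (G.star x)⁻¹ * (G.star x)⁻¹) :
    abelianVar ⊆ Models E := by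
  push Not at h
  obtain ⟨a, ha, hab⟩ := h
  set b := (G.star a)⁻¹ with hb
  have hsa : G.star a = b⁻¹ := by rw [hb, inv_inv]
  have hsb : G.star b = a⁻¹ := by rw [hb, G.star_inv, G.star_star]
  have hb1 : 1 ≤ b := by
    have := G.star_anti ha
    rw [G.star_one] at this
    exact one_le_inv'.mpr this
  apply abelianVar_subset
  apply swapR_mem
  refine swapZ_mem hG (c := a * (b * b)⁻¹ ⊔ 1) le_sup_right ?_ ?_
  · intro h
    apply hab
    have : a * (b * b)⁻¹ ≤ 1 := by
      rw [← h]; exact le_sup_left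
    rwa [mul_inv_le_one_iff_le] at this
  · have e : (G.star (a * (b * b)⁻¹ ⊔ 1))⁻¹ = (a * a)⁻¹ * b ⊔ 1 := by
      rw [G.star_sup, G.star_one, inv_inf, inv_one, G.star_mul, G.star_inv, G.star_mul, hsa, hsb]
      congr 1
      group
    rw [e]
    by_contra hne
    have h1 : 1 ≤ (a * (b * b)⁻¹ ⊔ 1) ⊓ ((a * a)⁻¹ * b ⊔ 1) := le_inf le_sup_right le_sup_right
    obtain ⟨Q, hQ, hm⟩ := exists_prime_pos h1 hne
    have hp1 : a * (b * b)⁻¹ ⊔ 1 ∉ Q := fun h => hm (hQ.conv _ h _ h1 inf_le_left)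
    have hp2 : (a * a)⁻¹ * b ⊔ 1 ∉ Q := fun h => hm (hQ.conv _ h _ h1 inf_le_right)
    have hp1' := (hQ.prime _).resolve_left hp1
    have hp2' := (hQ.prime _).resolve_left hp2
    have haab : a ≤ a * b := le_mul_of_one_le_right' hb1
    have hbab : b ≤ a * b := le_mul_of_one_le_left' ha
    have habQ : a * b ∉ Q := by
      intro h
      have haQ : a ∈ Q := hQ.conv _ h _ ha haab
      have hbQ : b ∈ Q := hQ.conv _ h _ hb1 hbab
      exact hp1 (hQ.sup_one _ (Q.mul_mem haQ (Q.inv_mem (Q.mul_mem hbQ hbQ))))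
    obtain ⟨φ, hφ, hφpos⟩ := exists_holder law hQ habQ
    have habN : a * b ∈ cv Q (a * b) := self_mem_cv
    have haN : a ∈ cv Q (a * b) := cv_cvx.conv _ habN _ ha haab
    have hbN : b ∈ cv Q (a * b) := cv_cvx.conv _ habN _ hb1 hbab
    have hφ1 : φ 1 = 0 := by
      have := hφ 1 (cv Q (a * b)).one_mem 1 (cv Q (a * b)).one_mem
      rw [one_mul] at this
      linarith
    have hφinv : ∀ x ∈ cv Q (a * b), φ x⁻¹ = - φ x := by
      intro x hx
      have := hφ x hx x⁻¹ ((cv Q (a * b)).inv_mem hx)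
      rw [mul_inv_cancel, hφ1] at this
      linarith
    have hbbN := (cv Q (a * b)).mul_mem hbN hbN
    have haaN := (cv Q (a * b)).mul_mem haN haN
    have k1 : 0 ≤ φ (a * (b * b)⁻¹) := by
      rw [hφpos _ ((cv Q (a * b)).mul_mem haN ((cv Q (a * b)).inv_mem hbbN))]
      exact le_vl hQ habQ hp1'
    have k2 : 0 ≤ φ ((a * a)⁻¹ * b) := by
      rw [hφpos _ ((cv Q (a * b)).mul_mem ((cv Q (a * b)).inv_mem haaN) hbN)]
      exact le_vl hQ habQ hp2'
    rw [hφ _ haN _ ((cv Q (a * b)).inv_mem hbbN), hφinv _ hbbN, hφ _ hbN _ hbN] at k1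
    rw [hφ _ ((cv Q (a * b)).inv_mem haaN) _ hbN, hφinv _ haaN, hφ _ haN _ haN] at k2
    have k3 : 0 ≤ φ (a * b) := by
      rw [hφpos _ habN]
      have : (a * b)⁻¹ ⊔ 1 = 1 := by
        apply sup_eq_right.mpr
        apply inv_le_one'.mpr
        exact ha.trans haab
      rw [this]; exact (vl Q (a * b)).one_mem
    have k4 : φ (a * b) ≠ 0 := by
      intro h0
      have h1 := (hφpos (a * b)⁻¹ ((cv Q (a * b)).inv_mem habN)).mp (by
        rw [hφinv _ habN, h0]; simp)
      rw [inv_inv] at h1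
      have : a * b ⊔ 1 = a * b := sup_eq_left.mpr (ha.trans haab)
      rw [this] at h1
      exact not_mem_vl hQ habQ h1
    have k5 : 0 < φ (a * b) := lt_of_le_of_ne k3 (Ne.symm k4)
    rw [hφ _ haN _ hbN] at k5
    linarith

end Pool.Agent.Helper29
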