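import Mathlib

/-!
m-groups, their terms, identities and varieties; m-ideals, quotients, products of varieties;
the varieties `X_ε` of 0-1 sequences.
-/

set_option autoImplicit false
set_option linter.unusedSectionVars false

namespace Pool.Agent.Helper29

/-- An m-group: a lattice-ordered group with a unary operation `star` that is an automorphism of
order two of the group and an anti-automorphism of the lattice. -/
structure MGroup where
  /-- the underlying set -/
  carrier : Type
  [grp : Group carrier]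
  [lat : Lattice carrier]
  [mulLeft : MulLeftMono carrier]
  [mulRight : MulRightMono carrier]
  /-- the unary operation -/
  star : carrier → carrier
  star_mul : ∀ x y, star (x * y) = star x * star y
  star_star : ∀ x, star (star x) = x
  star_sup : ∀ x y, star (x ⊔ y) = star x ⊓ star y
  star_inf : ∀ x y, star (x ⊓ y) = star x ⊔ star y

namespace MGroup

instance (G : MGroup) : Group G.carrier := G.grp
instance (G : MGroup) : Lattice G.carrier := G.lat
instance (G : MGroup) : MulLeftMono G.carrier := G.mulLeft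
instance (G : MGroup) : MulRightMono G.carrier := G.mulRight

end MGroup

/-- Terms in the signature of m-groups, in countably many variables. -/
inductive MTerm : Type
  | var : ℕ → MTerm
  | one : MTerm
  | mul : MTerm → MTerm → MTerm
  | inv : MTerm → MTerm
  | sup : MTerm → MTerm → MTerm
  | inf : MTerm → MTerm → MTerm
  | star : MTerm → MTerm

/-- The value of a term in an m-group under an assignment of the variables. -/
def MGroup.eval (G : MGroup) (v : ℕ → G.carrier) : MTerm → G.carrier
  | MTerm.var n => v n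
  | MTerm.one => 1
  | MTerm.mul s t => G.eval v s * G.eval v t
  | MTerm.inv s => (G.eval v s)⁻¹
  | MTerm.sup s t => G.eval v s ⊔ G.eval v t
  | MTerm.inf s t => G.eval v s ⊓ G.eval v t
  | MTerm.star s => G.star (G.eval v s)

/-- The identity `e.1 = e.2` holds in the m-group `G`. -/
def MGroup.Satisfies (G : MGroup) (e : MTerm × MTerm) : Prop :=
  ∀ v : ℕ → G.carrier, G.eval v e.1 = G.eval v e.2

/-- The class of all m-groups that satisfy all the identities in `E`. -/
def Models (E : Set (MTerm × MTerm)) : Set MGroup := {G | ∀ e ∈ E, G.Satisfies e}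

/-- A variety of m-groups is a class defined by identities. -/
def IsVariety (X : Set MGroup) : Prop := ∃ E : Set (MTerm × MTerm), X = Models E

/-- An m-ideal: a convex normal subgroup, closed under the lattice operations and the star. -/
structure MIdeal (G : MGroup) where
  /-- the underlying subgroup -/
  toSubgroup : Subgroup G.carrier
  normal : toSubgroup.Normal
  sup_mem : ∀ a ∈ toSubgroup, ∀ b ∈ toSubgroup, a ⊔ b ∈ toSubgroup
  inf_mem : ∀ a ∈ toSubgroup, ∀ b ∈ toSubgroup, a ⊓ b ∈ toSubgroup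
  convex : ∀ a ∈ toSubgroup, ∀ b ∈ toSubgroup, ∀ c, a ≤ c → c ≤ b → c ∈ toSubgroup
  star_mem : ∀ a ∈ toSubgroup, G.star a ∈ toSubgroup

namespace MIdeal

variable {G : MGroup} (H : MIdeal G)

/-- An m-ideal, as an m-group. -/
def toMGroup : MGroup where
  carrier := {x : G.carrier // x ∈ H.toSubgroup}
  grp := inferInstanceAs (Group H.toSubgroup)
  lat := Subtype.lattice (fun {a b} ha hb => H.sup_mem a ha b hb)
    (fun {a b} ha hb => H.inf_mem a ha b hb)
  mulLeft := ⟨fun c x y h => mul_le_mul_right (show x.1 ≤ y.1 from h) c.1⟩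
  mulRight := ⟨fun c x y h => mul_le_mul_left (show x.1 ≤ y.1 from h) c.1⟩
  star := fun x => ⟨G.star x.1, H.star_mem x.1 x.2⟩
  star_mul := fun x y => Subtype.ext (G.star_mul x.1 y.1)
  star_star := fun x => Subtype.ext (G.star_star x.1)
  star_sup := fun x y => Subtype.ext (G.star_sup x.1 y.1)
  star_inf := fun x y => Subtype.ext (G.star_inf x.1 y.1)

theorem quot_aux_sup {a b a' b' : G.carrier} (h1 : a⁻¹ * a' ∈ H.toSubgroup)
    (h2 : b⁻¹ * b' ∈ H.toSubgroup) : (a ⊔ b)⁻¹ * (a' ⊔ b') ∈ H.toSubgroup := by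
  refine H.convex _ (H.inf_mem _ h1 _ h2) _ (H.sup_mem _ h1 _ h2) _ ?_ ?_
  · rw [le_inv_mul_iff_mul_le, sup_mul]
    apply sup_le_sup
    · rw [← le_inv_mul_iff_mul_le]; exact inf_le_left
    · rw [← le_inv_mul_iff_mul_le]; exact inf_le_right
  · rw [inv_mul_le_iff_le_mul, sup_mul]
    apply sup_le_sup
    · rw [← inv_mul_le_iff_le_mul]; exact le_sup_left
    · rw [← inv_mul_le_iff_le_mul]; exact le_sup_right

theorem quot_aux_inf {a b a' b' : G.carrier} (h1 : a⁻¹ * a' ∈ H.toSubgroup)
    (h2 : b⁻¹ * b' ∈ H.toSubgroup) : (a ⊓ b)⁻¹ * (a' ⊓ b') ∈ H.toSubgroup := by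
  refine H.convex _ (H.inf_mem _ h1 _ h2) _ (H.sup_mem _ h1 _ h2) _ ?_ ?_
  · rw [le_inv_mul_iff_mul_le, inf_mul]
    apply inf_le_inf
    · rw [← le_inv_mul_iff_mul_le]; exact inf_le_left
    · rw [← le_inv_mul_iff_mul_le]; exact inf_le_right
  · rw [inv_mul_le_iff_le_mul, inf_mul]
    apply inf_le_inf
    · rw [← inv_mul_le_iff_le_mul]; exact le_sup_left
    · rw [← inv_mul_le_iff_le_mul]; exact le_sup_right

theorem quot_aux_star {a a' : G.carrier} (h : a⁻¹ * a' ∈ H.toSubgroup) :
    (G.star a)⁻¹ * G.star a' ∈ H.toSubgroup := by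
  have h1 : G.star 1 = 1 := by
    have := G.star_mul 1 1
    rw [mul_one] at this
    exact mul_eq_left.mp this.symm
  have h2 : (G.star a)⁻¹ = G.star a⁻¹ := by
    rw [inv_eq_iff_mul_eq_one, ← G.star_mul, mul_inv_cancel, h1]
  rw [h2, ← G.star_mul]
  exact H.star_mem _ h

/-- The join of two cosets: the coset of the join. -/
def qsup (x y : G.carrier ⧸ H.toSubgroup) : G.carrier ⧸ H.toSubgroup :=
  Quotient.liftOn₂' x y (fun a b => ((a ⊔ b : G.carrier) : G.carrier ⧸ H.toSubgroup))
    (fun _ _ _ _ h1 h2 => QuotientGroup.eq.mpr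
      (H.quot_aux_sup (QuotientGroup.leftRel_apply.mp h1) (QuotientGroup.leftRel_apply.mp h2)))

/-- The meet of two cosets: the coset of the meet. -/
def qinf (x y : G.carrier ⧸ H.toSubgroup) : G.carrier ⧸ H.toSubgroup :=
  Quotient.liftOn₂' x y (fun a b => ((a ⊓ b : G.carrier) : G.carrier ⧸ H.toSubgroup))
    (fun _ _ _ _ h1 h2 => QuotientGroup.eq.mpr
      (H.quot_aux_inf (QuotientGroup.leftRel_apply.mp h1) (QuotientGroup.leftRel_apply.mp h2)))

/-- The star of a coset: the coset of the star. -/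
def qstar (x : G.carrier ⧸ H.toSubgroup) : G.carrier ⧸ H.toSubgroup :=
  Quotient.liftOn' x (fun a => ((G.star a : G.carrier) : G.carrier ⧸ H.toSubgroup))
    (fun _ _ h => QuotientGroup.eq.mpr (H.quot_aux_star (QuotientGroup.leftRel_apply.mp h)))

/-- The lattice structure of the quotient by an m-ideal. -/
@[instance_reducible] def qlattice : Lattice (G.carrier ⧸ H.toSubgroup) :=
  letI : Max (G.carrier ⧸ H.toSubgroup) := ⟨H.qsup⟩
  letI : Min (G.carrier ⧸ H.toSubgroup) := ⟨H.qinf⟩
  Lattice.mk'
    (by rintro ⟨a⟩ ⟨b⟩; exact congrArg _ (sup_comm a b))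
    (by rintro ⟨a⟩ ⟨b⟩ ⟨c⟩; exact congrArg _ (sup_assoc a b c))
    (by rintro ⟨a⟩ ⟨b⟩; exact congrArg _ (inf_comm a b))
    (by rintro ⟨a⟩ ⟨b⟩ ⟨c⟩; exact congrArg _ (inf_assoc a b c))
    (by rintro ⟨a⟩ ⟨b⟩; exact congrArg _ (sup_inf_self (a := a) (b := b)))
    (by rintro ⟨a⟩ ⟨b⟩; exact congrArg _ (inf_sup_self (a := a) (b := b)))

/-- The quotient of an m-group by an m-ideal: the quotient group, with the operations of cosets
computed on representatives. -/
def quot : MGroup :=
  letI := H.normal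
  letI := H.qlattice
  { carrier := G.carrier ⧸ H.toSubgroup
    grp := QuotientGroup.Quotient.group H.toSubgroup
    lat := H.qlattice
    mulLeft := ⟨by
      rintro ⟨c⟩ ⟨a⟩ ⟨b⟩ h
      have h' : (Quotient.mk'' (a ⊔ b) : G.carrier ⧸ H.toSubgroup) = Quotient.mk'' b :=
        sup_eq_right.mpr h
      apply sup_eq_right.mp
      change (Quotient.mk'' (c * a ⊔ c * b) : G.carrier ⧸ H.toSubgroup) = Quotient.mk'' (c * b)
      rw [← mul_sup]
      have h3 := QuotientGroup.eq.mp h'
      apply QuotientGroup.eq.mpr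
      have e : (c * (a ⊔ b))⁻¹ * (c * b) = (a ⊔ b)⁻¹ * b := by group
      rw [e]; exact h3⟩
    mulRight := ⟨by
      rintro ⟨c⟩ ⟨a⟩ ⟨b⟩ h
      have h' : (Quotient.mk'' (a ⊔ b) : G.carrier ⧸ H.toSubgroup) = Quotient.mk'' b :=
        sup_eq_right.mpr h
      apply sup_eq_right.mp
      change (Quotient.mk'' (a * c ⊔ b * c) : G.carrier ⧸ H.toSubgroup) = Quotient.mk'' (b * c)
      rw [← sup_mul]
      have h3 := QuotientGroup.eq.mp h'
      apply QuotientGroup.eq.mpr
      have e : ((a ⊔ b) * c)⁻¹ * (b * c) = c⁻¹ * ((a ⊔ b)⁻¹ * b) * (c⁻¹)⁻¹ := by group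
      rw [e]; exact H.normal.conj_mem _ h3 _⟩
    star := H.qstar
    star_mul := by
      rintro ⟨a⟩ ⟨b⟩
      exact congrArg _ (G.star_mul a b)
    star_star := by
      rintro ⟨a⟩
      exact congrArg _ (G.star_star a)
    star_sup := by
      rintro ⟨a⟩ ⟨b⟩
      exact congrArg _ (G.star_sup a b)
    star_inf := by
      rintro ⟨a⟩ ⟨b⟩
      exact congrArg _ (G.star_inf a b) }

end MIdeal

/-- The product `X · Y`: the m-groups with an m-ideal in `X` and the quotient by it in `Y`. -/
def prodVar (X Y : Set MGroup) : Set MGroup :=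
  {G | ∃ H : MIdeal G, H.toMGroup ∈ X ∧ H.quot ∈ Y}

/-- The trivial variety. -/
def trivialVar : Set MGroup := {G | Subsingleton G.carrier}

/-- The variety of abelian m-groups. -/
def abelianVar : Set MGroup := {G | ∀ x y : G.carrier, x * y = y * x}

/-- The variety defined by `x_* = x⁻¹`. -/
def zVar : Set MGroup := {G | ∀ x : G.carrier, G.star x = x⁻¹}

/-- The factor attached to a digit: `Z` for `0` (`false`), `A` for `1` (`true`). -/
def digitVar : Bool → Set MGroup
  | false => zVar
  | true => abelianVar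

/-- The product `X_1 · X_2 ⋯ X_{n+1}` attached to the 0-1 sequence `ε 0, ε 1, …`. -/
def prodSeq (ε : ℕ → Bool) : ℕ → Set MGroup
  | 0 => digitVar (ε 0)
  | n + 1 => prodVar (prodSeq ε n) (digitVar (ε (n + 1)))

/-- The join of a sequence of classes in the lattice of varieties: the intersection of all
varieties containing all of them. -/
def joinVar (F : ℕ → Set MGroup) : Set MGroup :=
  {G | ∀ Y : Set MGroup, IsVariety Y → (∀ n, F n ⊆ Y) → G ∈ Y}

/-- The variety `X_ε`: the join of the finite products. -/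
def seqVar (ε : ℕ → Bool) : Set MGroup := joinVar (prodSeq ε)

end Pool.Agent.Helper29
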