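import Pool.Agent.Helper29.MVar
import Pool.Agent.Helper29.Forward

/-!
Normal-valued m-groups lie in the join of the powers of `A`.
-/

set_option autoImplicit false
set_option linter.unusedSectionVars false

namespace Pool.Agent.Helper29

/-- the doubled wreath power as an m-group -/
noncomputable def MWM (n : ℕ) : MGroup where
  carrier := MW n
  star := MW.star
  star_mul := fun p q => MW.star_mul p q
  star_star := fun p => MW.star_star p
  star_sup := fun _ _ => rfl
  star_inf := fun _ _ => rfl

noncomputable def MWM.series (n : ℕ) : Series (MWM n) n where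
  H := MW.Hs n
  zero := (MW.series n).1
  top := by
    have h1 := (MW.series n).2.1
    have h2 := ((MW.series n).2.2 n).2.2.2.2.1
    rw [h1] at h2
    exact Set.eq_univ_of_univ_subset h2
  one_mem := fun i => ((MW.series n).2.2 i).1
  mul_mem := fun i a ha b hb => (((MW.series n).2.2 i).2.1 a ha b hb).1
  inv_mem := fun i a ha => (((MW.series n).2.2 i).2.1 a ha a ha).2.1
  sup_mem := fun i a ha b hb => (((MW.series n).2.2 i).2.1 a ha b hb).2.2.1
  inf_mem := fun i a ha b hb => (((MW.series n).2.2 i).2.1 a ha b hb).2.2.2.1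
  star_mem := fun i a ha => (((MW.series n).2.2 i).2.1 a ha a ha).2.2.2.2
  convex := fun i a ha b hb c h1 h2 => ((MW.series n).2.2 i).2.2.1 a ha b hb c h1 h2
  conj_mem := fun i a ha g => ((MW.series n).2.2 i).2.2.2.1 a ha g
  mono := fun i => ((MW.series n).2.2 i).2.2.2.2.1

theorem MWM.factors (n : ℕ) : (MWM.series n).Factors (fun _ => true) := by
  intro i
  exact ⟨fun h => absurd h (by simp), fun _ => ((MW.series n).2.2 i).2.2.2.2.2⟩

/-- Every normal-valued m-group lies in the join of the powers of `A`. -/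
theorem nv_mem_seqVar {G : MGroup} (law : NV G.carrier) : G ∈ seqVar (fun _ => true) := by
  intro Y hY hprod
  obtain ⟨E, rfl⟩ := hY
  have hA : ∀ n, MWM n ∈ Models E := fun n =>
    (MWM.series n).mem_of_series hprod (MWM.factors n)
  have hanti : ∀ x y : G.carrier, x ≤ y → G.star y ≤ G.star x := fun x y h => G.star_anti h
  let P := bigP G.star G.star_mul hanti G.star_star
  refine relHSP (ι := Ix G.carrier) (fun i => MWM i.1) (fun i => hA i.1) G
    (fun p g => InP G.star (p, g)) ?_ ?_ ?_ ?_ ?_ ?_ ?_ ?_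
  · exact P.toSubgroup.one_mem
  · intro p q a b h1 h2; exact P.toSubgroup.mul_mem (x := (p, a)) (y := (q, b)) h1 h2
  · intro p a h1; exact P.toSubgroup.inv_mem (x := (p, a)) h1
  · intro p q a b h1 h2; exact P.sup_mem (p, a) h1 (q, b) h2
  · intro p q a b h1 h2; exact P.inf_mem (p, a) h1 (q, b) h2
  · intro p a h1 Q hQ
    obtain ⟨p1, p2, p3, p4⟩ := h1 Q hQ
    refine ⟨p3, p4, ?_, ?_⟩
    · change Mim Q (fun i => (p i).1) (G.star (G.star a))
      rw [G.star_star]; exact p1
    · change Mim Q (fun i => ((p i).1)⁻¹) (G.star (G.star a))⁻¹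
      rw [G.star_star]; exact p2
  · intro g
    refine ⟨fun i => (i.2.2 g, OrderDual.toDual (i.2.2 (G.star g))), ?_⟩
    intro Q hQ
    exact ⟨Mim.gen g, Mim.gen_inv g, Mim.gen (G.star g), Mim.gen_inv (G.star g)⟩
  · intro p a b h1 h2
    by_contra hne
    obtain ⟨Q, hQ, hn⟩ := exists_prime_ne hne
    exact hn (Mim.unique law hQ (h1 Q hQ).1 (h2 Q hQ).1)

end Pool.Agent.Helper29
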