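import Pool.Agent.Helper29.MVar
import Pool.Agent.Helper29.Conj

/-!
m-groups satisfying the symmetry law `x ≤ (x_*⁻¹)²` for `x ≥ 1`.
-/

set_option autoImplicit false
set_option linter.unusedSectionVars false

namespace Pool.Agent.Helper29

/-- The symmetry law. -/
def SymLaw (G : MGroup) : Prop := ∀ x : G.carrier, 1 ≤ x → x ≤ (G.star x)⁻¹ * (G.star x)⁻¹

namespace SymLaw

variable {G : MGroup} (hS : SymLaw G)

include hS

theorem le' {x : G.carrier} (hx : 1 ≤ x) : (G.star x)⁻¹ ≤ x * x := by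
  have h1 : 1 ≤ (G.star x)⁻¹ := by
    have := G.star_anti hx
    rw [G.star_one] at this
    exact one_le_inv'.mpr this
  have := hS _ h1
  rwa [G.star_inv, G.star_star, inv_inv] at this

/-- convex sub-ℓ-groups are closed under the star -/
theorem star_mem {C : Subgroup G.carrier} (hC : IsCvx C) {x : G.carrier} (hx : x ∈ C) :
    G.star x ∈ C := by
  have pos : ∀ x ∈ C, 1 ≤ x → G.star x ∈ C := by
    intro x hx h1
    have h2 : 1 ≤ (G.star x)⁻¹ := by
      have := G.star_anti h1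
      rw [G.star_one] at this
      exact one_le_inv'.mpr this
    have := hC.conv _ (C.mul_mem hx hx) _ h2 (hS.le' h1)
    rw [← inv_inv (G.star x)]; exact C.inv_mem this
  rw [← pos_mul_neg x, G.star_mul, G.star_inv]
  exact C.mul_mem (pos _ (hC.sup_one _ hx) le_sup_right)
    (C.inv_mem (pos _ (hC.neg_mem hx) le_sup_right))

omit hS in
/-- the order-preserving map `x ↦ (x_*)⁻¹` -/
theorem tau_mono {x y : G.carrier} (h : x ≤ y) : (G.star x)⁻¹ ≤ (G.star y)⁻¹ :=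
  inv_le_inv_iff.mpr (G.star_anti h)

/-- On the normaliser of a prime, `(x_*)⁻¹ ≡ x`. -/
theorem tau_eq {P : Subgroup G.carrier} (hP : IsPrm P) {x : G.carrier}
    (hx : ∀ p ∈ P, x * p * x⁻¹ ∈ P) (hx' : ∀ p ∈ P, x⁻¹ * p * x ∈ P) :
    x⁻¹ * (G.star x)⁻¹ ∈ P := by
  rcases leQ_total hP x (G.star x)⁻¹ with h | h
  · apply leQ_antisymm hP.toIsCvx h
    obtain ⟨q, hq, hle⟩ := (leQ_iff hP.toIsCvx).mp h
    have h1 := tau_mono hle
    -- (star x)⁻¹ ≤ (star ((star x)⁻¹ * q))⁻¹ = (star q)⁻¹ * x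
    have e : (G.star ((G.star x)⁻¹ * q))⁻¹ = x * (x⁻¹ * (G.star q)⁻¹ * x) := by
      rw [G.star_mul, G.star_inv, G.star_star]; group
    rw [e] at h1
    exact (leQ_iff hP.toIsCvx).mpr ⟨_, hx' _ (P.inv_mem (hS.star_mem hP.toIsCvx hq)), h1⟩
  · refine leQ_antisymm hP.toIsCvx ?_ h
    obtain ⟨q, hq, hle⟩ := (leQ_iff hP.toIsCvx).mp h
    have h1 := tau_mono hle
    have e : (G.star (x * q))⁻¹ = (G.star x)⁻¹ * (G.star x * (G.star q)⁻¹ * (G.star x)⁻¹) := by
      rw [G.star_mul]; group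
    rw [G.star_inv, G.star_star, inv_inv, e] at h1
    refine (leQ_iff hP.toIsCvx).mpr ⟨_, ?_, h1⟩
    have h2 : x * q⁻¹ * x⁻¹ ∈ P := hx _ (P.inv_mem hq)
    have h3 := hS.star_mem hP.toIsCvx h2
    rwa [G.star_mul, G.star_mul, G.star_inv, G.star_inv] at h3

/-- two elements normalising a prime commute modulo the prime -/
theorem comm_mem {P : Subgroup G.carrier} (hP : IsPrm P) {x y : G.carrier}
    (hx : ∀ p ∈ P, x * p * x⁻¹ ∈ P) (hx' : ∀ p ∈ P, x⁻¹ * p * x ∈ P)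
    (hy : ∀ p ∈ P, y * p * y⁻¹ ∈ P) (hy' : ∀ p ∈ P, y⁻¹ * p * y ∈ P) :
    (y * x)⁻¹ * (x * y) ∈ P := by
  have h1 := hS.tau_eq hP hx hx'
  have h2 := hS.tau_eq hP hy hy'
  have h3 := hS.tau_eq hP (x := x * y) (by
    intro p hp
    have e : x * y * p * (x * y)⁻¹ = x * (y * p * y⁻¹) * x⁻¹ := by group
    rw [e]; exact hx _ (hy _ hp)) (by
    intro p hp
    have e : (x * y)⁻¹ * p * (x * y) = y⁻¹ * (x⁻¹ * p * x) * y := by group
    rw [e]; exact hy' _ (hx' _ hp))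
  have e : (y * x)⁻¹ * (x * y) = (x⁻¹ * (y⁻¹ * (G.star y)⁻¹) * x * (x⁻¹ * (G.star x)⁻¹)) *
      ((x * y)⁻¹ * (G.star (x * y))⁻¹)⁻¹ := by
    rw [G.star_mul]; group
  rw [e]
  exact P.mul_mem (P.mul_mem (hx' _ h2) h1) (P.inv_mem h3)

end SymLaw

/-- the element `ρ(g) = (g_*)⁻¹ g` -/
def rho (G : MGroup) (g : G.carrier) : G.carrier := (G.star g)⁻¹ * g

/-- the elements normalising all primes -/
def RR (G : MGroup) : Subgroup G.carrier where
  carrier := {r | ∀ P : Subgroup G.carrier, IsPrm P → ∀ p, p ∈ P ↔ r * p * r⁻¹ ∈ P}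
  mul_mem' := by
    intro a b ha hb P hP p
    have e : a * b * p * (a * b)⁻¹ = a * (b * p * b⁻¹) * a⁻¹ := by group
    rw [e, ← ha P hP, ← hb P hP]
  one_mem' := by
    intro P hP p
    rw [one_mul, inv_one, mul_one]
  inv_mem' := by
    intro a ha P hP p
    rw [ha P hP (a⁻¹ * p * a⁻¹⁻¹)]
    have e : a * (a⁻¹ * p * a⁻¹⁻¹) * a⁻¹ = p := by group
    rw [e]

section RR

variable {G : MGroup}

theorem mem_RR {r : G.carrier} :
    r ∈ RR G ↔ ∀ P : Subgroup G.carrier, IsPrm P → ∀ p, p ∈ P ↔ r * p * r⁻¹ ∈ P := Iff.rfl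

theorem RR_conj {r : G.carrier} (hr : r ∈ RR G) {P : Subgroup G.carrier} (hP : IsPrm P) :
    (∀ p ∈ P, r * p * r⁻¹ ∈ P) ∧ (∀ p ∈ P, r⁻¹ * p * r ∈ P) := by
  refine ⟨fun p hp => (hr P hP p).mp hp, fun p hp => ?_⟩
  have := ((RR G).inv_mem hr P hP p).mp hp
  rwa [inv_inv] at this

theorem RR_normal {r : G.carrier} (hr : r ∈ RR G) (g : G.carrier) : g⁻¹ * r * g ∈ RR G := by
  intro P hP p
  have h := hr (cj g P) (cj_prm hP) (g * p * g⁻¹)
  rw [conj_mem_cj] at h
  rw [h, mem_cj]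
  have e : g⁻¹ * (r * (g * p * g⁻¹) * r⁻¹) * g = (g⁻¹ * r * g) * p * (g⁻¹ * r * g)⁻¹ := by group
  rw [e]

theorem RR_star (hS : SymLaw G) {r : G.carrier} (hr : r ∈ RR G) : G.star r = r⁻¹ := by
  have : r = (G.star r)⁻¹ := by
    by_contra hne
    obtain ⟨P, hP, hn⟩ := exists_prime_ne hne
    exact hn (hS.tau_eq hP (RR_conj hr hP).1 (RR_conj hr hP).2)
  rw [eq_comm, inv_eq_iff_eq_inv]; exact this

theorem RR_comm (hS : SymLaw G) {r s : G.carrier} (hr : r ∈ RR G) (hs : s ∈ RR G) :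
    r * s = s * r := by
  have h1 := RR_star hS ((RR G).mul_mem hr hs)
  rw [G.star_mul, RR_star hS hr, RR_star hS hs, mul_inv_rev] at h1
  have h2 := congrArg (fun x => x⁻¹) h1
  simp only [mul_inv_rev, inv_inv] at h2
  exact h2.symm

theorem rho_mem (hS : SymLaw G) (g : G.carrier) : rho G g ∈ RR G := by
  -- star closedness of the conjugate
  have key : ∀ P : Subgroup G.carrier, IsPrm P → ∀ p ∈ P,
      (rho G g)⁻¹ * p * rho G g ∈ P ∧ rho G g * p * (rho G g)⁻¹ ∈ P := by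
    intro P hP p hp
    have hD : IsCvx (cj g P) := cj_cvx hP.toIsCvx
    constructor
    · have h1 : g * G.star p * g⁻¹ ∈ cj g P := conj_mem_cj.mpr (hS.star_mem hP.toIsCvx hp)
      have h2 := hS.star_mem hD h1
      rw [G.star_mul, G.star_mul, G.star_star, G.star_inv, mem_cj] at h2
      have e : g⁻¹ * (G.star g * p * (G.star g)⁻¹) * g = (rho G g)⁻¹ * p * rho G g := by
        unfold rho; group
      rwa [e] at h2
    · have h1 : g * p * g⁻¹ ∈ cj g P := conj_mem_cj.mpr hp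
      have h2 := hS.star_mem hD h1
      rw [mem_cj] at h2
      have h3 := hS.star_mem hP.toIsCvx h2
      have e : G.star (g⁻¹ * G.star (g * p * g⁻¹) * g) = rho G g * p * (rho G g)⁻¹ := by
        rw [G.star_mul, G.star_mul, G.star_star, G.star_inv]
        unfold rho; group
      rwa [e] at h3
  intro P hP p
  constructor
  · intro hp; exact (key P hP p hp).2
  · intro hp
    have := (key P hP _ hp).1
    have e : (rho G g)⁻¹ * (rho G g * p * (rho G g)⁻¹) * rho G g = p := by group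
    rwa [e] at this

theorem rho_mul (g a : G.carrier) : rho G (g * a) = rho G a * (a⁻¹ * rho G g * a) := by
  unfold rho
  rw [G.star_mul]; group

theorem rho_star_mul (g a : G.carrier) :
    rho G (G.star g * a) = rho G a * (a⁻¹ * rho G g * a)⁻¹ := by
  unfold rho
  rw [G.star_mul, G.star_star]; group

theorem rho_mul_R (hS : SymLaw G) {r : G.carrier} (hr : r ∈ RR G) (a : G.carrier) :
    rho G (a * r) = rho G a * (r * r) := by
  have h1 : rho G (a * r) = r * rho G a * r := by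
    unfold rho
    rw [G.star_mul, RR_star hS hr]; group
  rw [h1, RR_comm hS hr (rho_mem hS a), mul_assoc]

theorem leQ_rho_of (hS : SymLaw G) {P : Subgroup G.carrier} (hP : IsPrm P) {a b : G.carrier}
    (h : leQ P a b) : leQ P (rho G a) ((G.star b)⁻¹ * a) ∧ leQ P ((G.star b)⁻¹ * a) (rho G b) := by
  obtain ⟨q, hq, hle⟩ := (leQ_iff hP.toIsCvx).mp h
  constructor
  · -- (star a)⁻¹ ≤ (star q)⁻¹ (star b)⁻¹
    have h1 := SymLaw.tau_mono hle
    rw [G.star_mul, mul_inv_rev] at h1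
    -- (star a)⁻¹ a ≤ (star q)⁻¹ (star b)⁻¹ a
    -- we use ρ(a) normalising : (star q) ρ(a) = ρ(a) q'
    have h2 : G.star q * (G.star a)⁻¹ * a ≤ (G.star b)⁻¹ * a := by
      have : G.star q * (G.star a)⁻¹ * a ≤ G.star q * ((G.star q)⁻¹ * (G.star b)⁻¹) * a := by
        gcongr
      have e : G.star q * ((G.star q)⁻¹ * (G.star b)⁻¹) * a = (G.star b)⁻¹ * a := by group
      rwa [e] at this
    have h3 : G.star q * (G.star a)⁻¹ * a = rho G a * ((rho G a)⁻¹ * G.star q * rho G a) := by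
      unfold rho; group
    rw [h3] at h2
    have h4 : (rho G a)⁻¹ * G.star q * rho G a ∈ P :=
      (RR_conj (rho_mem hS a) hP).2 _ (hS.star_mem hP.toIsCvx hq)
    refine leQ_trans hP.toIsCvx ?_ (leQ_of_le hP.toIsCvx h2)
    apply leQ_of_mem hP.toIsCvx
    rw [inv_mul_cancel_left]; exact h4
  · exact (leQ_mul_left _ _ _).mpr h

theorem leQ_rho (hS : SymLaw G) {P : Subgroup G.carrier} (hP : IsPrm P) {a b : G.carrier} :
    leQ P a b ↔ leQ P (rho G a) (rho G b) := by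
  constructor
  · intro h
    obtain ⟨h1, h2⟩ := leQ_rho_of hS hP h
    exact leQ_trans hP.toIsCvx h1 h2
  · intro h
    rcases leQ_total hP a b with h1 | h1
    · exact h1
    · obtain ⟨h2, h3⟩ := leQ_rho_of hS hP h1
      -- ρ b ≤ (star a)⁻¹ b ≤ ρ a ≤ ρ b
      have h4 : leQ P (rho G a) ((G.star a)⁻¹ * b) := leQ_trans hP.toIsCvx h h2
      exact (leQ_mul_left _ _ _).mp h4

end RR

end Pool.Agent.Helper29
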