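import Pool.Agent.Helper29.MVar
import Pool.Agent.Helper29.Chain

/-!
The symmetric wreath type groups.
-/

set_option autoImplicit false
set_option linter.unusedSectionVars false

namespace Pool.Agent.Helper29

variable {n : ℕ} (V : Fin n → AddSubgroup ℝ)

/-- Congruence of points below the coordinate `k`. -/
def Cong (k : ℕ) (r s : Lex (Fin n → ℝ)) : Prop :=
  ∀ i : Fin n, (i : ℕ) < k → ∃ t ∈ V i, r i - s i = 2 * t

variable {V}

theorem Cong.refl (k : ℕ) (r : Lex (Fin n → ℝ)) : Cong V k r r :=
  fun i _ => ⟨0, (V i).zero_mem, by simp⟩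

theorem Cong.symm {k : ℕ} {r s : Lex (Fin n → ℝ)} (h : Cong V k r s) : Cong V k s r := by
  intro i hi
  obtain ⟨t, ht, e⟩ := h i hi
  exact ⟨-t, (V i).neg_mem ht, by linarith⟩

theorem Cong.trans {k : ℕ} {r s u : Lex (Fin n → ℝ)} (h : Cong V k r s) (h' : Cong V k s u) :
    Cong V k r u := by
  intro i hi
  obtain ⟨t, ht, e⟩ := h i hi
  obtain ⟨t', ht', e'⟩ := h' i hi
  exact ⟨t + t', (V i).add_mem ht ht', by linarith⟩

theorem Cong.mono {j k : ℕ} {r s : Lex (Fin n → ℝ)} (h : Cong V k r s) (hjk : j ≤ k) :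
    Cong V j r s := fun i hi => h i (by omega)

theorem Cong.of_agr {k : ℕ} {r s : Lex (Fin n → ℝ)} (h : Agr k r s) : Cong V k r s := by
  intro i hi
  exact ⟨0, (V i).zero_mem, by rw [h i hi]; simp⟩

variable (V)

/-- The defining condition. -/
def IsZ (f : Lex (Fin n → ℝ) → Lex (Fin n → ℝ)) : Prop :=
  (∀ k r, f r k - r k ∈ V k) ∧ ∀ (k : Fin n) (r s : Lex (Fin n → ℝ)), Cong V k r s →
    f r k - r k = f s k - s k

variable {V}

theorem IsZ.isW {f : Lex (Fin n → ℝ) → Lex (Fin n → ℝ)} (hf : IsZ V f) : IsW f :=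
  fun k r s h => hf.2 k r s (Cong.of_agr h)

theorem IsZ.cong {f : Lex (Fin n → ℝ) → Lex (Fin n → ℝ)} (hf : IsZ V f) {k : ℕ}
    {r s : Lex (Fin n → ℝ)} (h : Cong V k r s) : Cong V k (f r) (f s) := by
  intro i hi
  have h1 := hf.2 i r s (h.mono hi.le)
  obtain ⟨t, ht, e⟩ := h i hi
  exact ⟨t, ht, by linarith⟩

theorem IsZ.cong_iff {f : Lex (Fin n → ℝ) → Lex (Fin n → ℝ)} (hf : IsZ V f) {k : ℕ}
    {r s : Lex (Fin n → ℝ)} (h : Cong V k (f r) (f s)) : Cong V k r s := by
  induction k with
  | zero => intro i hi; omega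
  | succ k ih =>
    have h1 : Cong V k r s := ih (fun i hi => h i (by omega))
    intro i hi
    have h3 := hf.2 i r s (h1.mono (by omega))
    obtain ⟨t, ht, e⟩ := h i hi
    exact ⟨t, ht, by linarith⟩

/-- maxima respect agreement -/
theorem agr_max {m : ℕ} {u u' v v' : Lex (Fin n → ℝ)} (h : Agr m u u') (h' : Agr m v v') :
    Agr m (max u v) (max u' v') := by
  have key : ∀ {u u' v v' : Lex (Fin n → ℝ)}, Agr m u u' → Agr m v v' → u ≤ v → v' ≤ u' →
      Agr m v u' := by
    intro u u' v v' h h' h1 h2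
    rcases h1.lt_or_eq with h3 | h3
    · obtain ⟨i, hi, hlt⟩ := lex_lt_iff.mp h3
      by_cases him : (i : ℕ) < m
      · exfalso
        have : u' < v' := lex_lt_iff.mpr ⟨i, fun j hj => by
          rw [← h j (by omega), ← h' j (by omega)]; exact hi j hj, by
          rw [← h i him, ← h' i him]; exact hlt⟩
        exact absurd h2 (not_le.mpr this)
      · intro j hj
        rw [← h j hj]
        exact (hi j (by omega)).symm
    · rw [← h3]; exact h
  rcases le_total u v with h1 | h1 <;> rcases le_total u' v' with h2 | h2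
  · rw [max_eq_right h1, max_eq_right h2]; exact h'
  · rw [max_eq_right h1, max_eq_left h2]; exact key h h' h1 h2
  · rw [max_eq_left h1, max_eq_right h2]; exact key h' h h1 h2
  · rw [max_eq_left h1, max_eq_left h2]; exact h

/-- the displacement -/
def disp (f : Lex (Fin n → ℝ) → Lex (Fin n → ℝ)) (r : Lex (Fin n → ℝ)) : Lex (Fin n → ℝ) :=
  toLex (fun k => f r k - r k)

theorem disp_apply (f : Lex (Fin n → ℝ) → Lex (Fin n → ℝ)) (r : Lex (Fin n → ℝ)) (k : Fin n) :
    disp f r k = f r k - r k := rfl

theorem disp_le {f g : Lex (Fin n → ℝ) → Lex (Fin n → ℝ)} {r : Lex (Fin n → ℝ)} (h : f r ≤ g r) :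
    disp f r ≤ disp g r := by
  rcases h.lt_or_eq with h1 | h1
  · obtain ⟨i, hi, hlt⟩ := lex_lt_iff.mp h1
    apply le_of_lt
    refine lex_lt_iff.mpr ⟨i, fun j hj => ?_, ?_⟩
    · rw [disp_apply, disp_apply, hi j hj]
    · rw [disp_apply, disp_apply]; linarith
  · apply le_of_eq
    funext k
    rw [disp_apply, disp_apply, h1]

theorem disp_max (f g : Lex (Fin n → ℝ) → Lex (Fin n → ℝ)) (r : Lex (Fin n → ℝ)) :
    disp (fun x => max (f x) (g x)) r = max (disp f r) (disp g r) := by
  rcases le_total (f r) (g r) with h | h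
  · rw [max_eq_right (disp_le h)]
    funext k
    rw [disp_apply, disp_apply, max_eq_right h]
  · rw [max_eq_left (disp_le h)]
    funext k
    rw [disp_apply, disp_apply, max_eq_left h]

theorem IsZ.max {f g : Lex (Fin n → ℝ) → Lex (Fin n → ℝ)} (hf : IsZ V f) (hg : IsZ V g) :
    IsZ V (fun x => max (f x) (g x)) := by
  refine ⟨fun k r => ?_, fun k r s h => ?_⟩
  · dsimp only
    rcases le_total (f r) (g r) with h | h
    · rw [max_eq_right h]; exact hg.1 k r
    · rw [max_eq_left h]; exact hf.1 k r
  · have h1 : Agr ((k : ℕ) + 1) (disp f r) (disp f s) := by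
      intro i hi
      exact hf.2 i r s (h.mono (by omega))
    have h2 : Agr ((k : ℕ) + 1) (disp g r) (disp g s) := by
      intro i hi
      exact hg.2 i r s (h.mono (by omega))
    have h3 := agr_max h1 h2 k (by omega)
    rw [← disp_max, ← disp_max] at h3
    exact h3

variable (V)

/-- The symmetric wreath type group as a group of increasing permutations. -/
def Zcg : CG (Lex (Fin n → ℝ)) where
  toSubgroup :=
    { carrier := {f | IsZ V f}
      mul_mem' := by
        intro f g hf hg
        refine ⟨fun k r => ?_, fun k r s h => ?_⟩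
        · have h1 := hg.1 k r
          have h2 := hf.1 k (g r)
          have e : f (g r) k - r k = (f (g r) k - (g r) k) + ((g r) k - r k) := by ring
          change f (g r) k - r k ∈ V k
          rw [e]; exact (V k).add_mem h2 h1
        · have h1 := hg.2 k r s h
          have h2 := hf.2 k (g r) (g s) (hg.cong h)
          change f (g r) k - r k = f (g s) k - s k
          linarith
      one_mem' := by
        refine ⟨fun k r => ?_, fun k r s _ => ?_⟩
        · change r k - r k ∈ V k
          rw [sub_self]; exact (V k).zero_mem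
        · change r k - r k = s k - s k
          rw [sub_self, sub_self]
      inv_mem' := by
        intro f hf
        have e : ∀ x, f (f⁻¹ x) = x := fun x => f.apply_symm_apply x
        refine ⟨fun k r => ?_, fun k r s h => ?_⟩
        · have h1 := hf.1 k (f⁻¹ r)
          rw [e] at h1
          have := (V k).neg_mem h1
          rwa [neg_sub] at this
        · have h0 : Cong V k (f⁻¹ r) (f⁻¹ s) := by
            apply IsZ.cong_iff (f := f) hf
            rw [e, e]; exact h
          have h1 := hf.2 k _ _ h0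
          rw [e, e] at h1
          linarith }
  mono f hf := IsW.smono (IsZ.isW hf)
  sup_mem f hf g hg := by
    obtain ⟨h, hh⟩ := exists_max_perm f g (IsW.smono (IsZ.isW hf)) (IsW.smono (IsZ.isW hg))
    refine ⟨h, ?_, hh⟩
    have h1 := IsZ.max hf hg
    have h2 : (h : Lex (Fin n → ℝ) → Lex (Fin n → ℝ)) = fun x => Max.max (f x) (g x) := funext hh
    change IsZ V h
    rw [h2]; exact h1

/-- the elements -/
abbrev ZT : Type := (Zcg V).T

variable {V}

theorem ZT.isZ (f : ZT V) : IsZ V f := f.2

theorem exists_Z (c : Fin n → Lex (Fin n → ℝ) → ℝ) (hV : ∀ k r, c k r ∈ V k)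
    (hc : ∀ (k : Fin n) (r s : Lex (Fin n → ℝ)), Cong V k r s → c k r = c k s) :
    ∃ f : ZT V, ∀ r k, f r k = r k + c k r := by
  obtain ⟨f, hf⟩ := exists_W c (fun k r s h => hc k r s (Cong.of_agr h))
  refine ⟨⟨f.1, ?_⟩, fun r k => hf r k⟩
  refine ⟨fun k r => ?_, fun k r s h => ?_⟩
  · have := hf r k
    have e : f r k - r k = c k r := by rw [this]; ring
    change f r k - r k ∈ V k
    rw [e]; exact hV k r
  · change f r k - r k = f s k - s k
    rw [hf, hf, hc k r s h]; ring

theorem exists_star (f : ZT V) : ∃ g : ZT V, ∀ r k, g r k = 2 * r k - f r k := by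
  obtain ⟨g, hg⟩ := exists_Z (V := V) (fun k r => -(f r k - r k))
    (fun k r => (V k).neg_mem (f.isZ.1 k r)) (fun k r s h => by rw [f.isZ.2 k r s h])
  exact ⟨g, fun r k => by rw [hg]; ring⟩

/-- the star: negation of the displacement -/
noncomputable def zstar (f : ZT V) : ZT V := (exists_star f).choose

theorem zstar_apply (f : ZT V) (r : Lex (Fin n → ℝ)) (k : Fin n) :
    zstar f r k = 2 * r k - f r k := (exists_star f).choose_spec r k

theorem zstar_mul (f g : ZT V) : zstar (f * g) = zstar f * zstar g := by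
  apply CG.ext
  intro r
  funext k
  rw [zstar_apply, CG.mul_apply, CG.mul_apply, zstar_apply]
  have h : Cong V k (g r) (zstar g r) := by
    intro i _
    refine ⟨g r i - r i, g.isZ.1 i r, ?_⟩
    rw [zstar_apply]; ring
  have h1 := f.isZ.2 k _ _ h
  rw [zstar_apply] at h1 ⊢
  linarith

theorem zstar_zstar (f : ZT V) : zstar (zstar f) = f := by
  apply CG.ext
  intro r
  funext k
  rw [zstar_apply, zstar_apply]; ring

theorem lex_refl {u v u' v' : Lex (Fin n → ℝ)} {w : Fin n → ℝ} (hu : ∀ k, u' k = w k - u k)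
    (hv : ∀ k, v' k = w k - v k) (h : u ≤ v) : v' ≤ u' := by
  rcases h.lt_or_eq with h1 | h1
  · obtain ⟨i, hi, hlt⟩ := lex_lt_iff.mp h1
    apply le_of_lt
    refine lex_lt_iff.mpr ⟨i, fun j hj => ?_, ?_⟩
    · rw [hu, hv, hi j hj]
    · rw [hu, hv]; linarith
  · apply le_of_eq
    funext k
    rw [hu, hv, h1]

theorem zstar_anti {f g : ZT V} (h : f ≤ g) : zstar g ≤ zstar f := fun r =>
  lex_refl (w := fun k => 2 * r k) (fun k => zstar_apply f r k) (fun k => zstar_apply g r k) (h r)

theorem zstar_sup (f g : ZT V) : zstar (f ⊔ g) = zstar f ⊓ zstar g := by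
  apply le_antisymm
  · exact le_inf (zstar_anti le_sup_left) (zstar_anti le_sup_right)
  · have h1 : f ⊔ g ≤ zstar (zstar f ⊓ zstar g) := by
      apply sup_le
      · have := zstar_anti (inf_le_left : zstar f ⊓ zstar g ≤ zstar f)
        rwa [zstar_zstar] at this
      · have := zstar_anti (inf_le_right : zstar f ⊓ zstar g ≤ zstar g)
        rwa [zstar_zstar] at this
    have := zstar_anti h1
    rwa [zstar_zstar] at this

theorem zstar_inf (f g : ZT V) : zstar (f ⊓ g) = zstar f ⊔ zstar g := by
  have := zstar_sup (zstar f) (zstar g)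
  rw [zstar_zstar, zstar_zstar] at this
  rw [← this, zstar_zstar]

variable (V)

/-- the symmetric wreath type m-group -/
noncomputable def ZWM : MGroup where
  carrier := ZT V
  star := zstar
  star_mul := zstar_mul
  star_star := zstar_zstar
  star_sup := zstar_sup
  star_inf := zstar_inf

variable {V}

/-- the embedding in the wreath power -/
def toW (f : ZT V) : W n := ⟨f.1, f.isZ.isW⟩

theorem toW_apply (f : ZT V) (r : Lex (Fin n → ℝ)) : toW f r = f r := rfl

theorem toW_mul (f g : ZT V) : toW (f * g) = toW f * toW g := rfl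

theorem toW_one : toW (1 : ZT V) = 1 := rfl

theorem toW_inv (f : ZT V) : toW f⁻¹ = (toW f)⁻¹ := rfl

theorem toW_sup (f g : ZT V) : toW (f ⊔ g) = toW f ⊔ toW g := by
  apply CG.ext; intro r
  rw [toW_apply, CG.sup_apply, CG.sup_apply, toW_apply, toW_apply]

theorem toW_inf (f g : ZT V) : toW (f ⊓ g) = toW f ⊓ toW g := by
  apply CG.ext; intro r
  rw [toW_apply, CG.inf_apply, CG.inf_apply, toW_apply, toW_apply]

theorem toW_le {f g : ZT V} (h : f ≤ g) : toW f ≤ toW g := h

theorem toW_inj {f g : ZT V} (h : toW f = toW g) : f = g := by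
  apply CG.ext; intro r
  rw [← toW_apply, h, toW_apply]

variable (V)

/-- the standard series -/
noncomputable def ZWM.series : Series (ZWM V) n where
  H := fun i => {f | toW (f : ZT V) ∈ Hs n i}
  zero := by
    ext f
    constructor
    · intro h
      have h1 : toW (f : ZT V) ∈ Hs n 0 := h
      rw [Hs_zero] at h1
      exact toW_inj h1
    · rintro rfl
      exact one_mem_Hs 0
  top := by
    ext f
    simp only [Set.mem_univ, iff_true]
    intro r i hi
    omega
  one_mem := fun i => one_mem_Hs i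
  mul_mem := fun i a ha b hb => mul_mem_Hs ha hb
  inv_mem := fun i a ha => inv_mem_Hs ha
  sup_mem := fun i (a : ZT V) ha (b : ZT V) hb => by
    change toW (a ⊔ b) ∈ Hs n i
    rw [toW_sup]; exact sup_mem_Hs ha hb
  inf_mem := fun i (a : ZT V) ha (b : ZT V) hb => by
    change toW (a ⊓ b) ∈ Hs n i
    rw [toW_inf]; exact inf_mem_Hs ha hb
  star_mem := fun i (a : ZT V) ha => by
    intro r j hj
    have h1 : a r j = r j := ha r j hj
    change zstar a r j = r j
    rw [zstar_apply, h1]; ring
  convex := fun i a ha b hb c h1 h2 => between_mem_Hs ha hb (toW_le h1) (toW_le h2)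
  conj_mem := fun i a ha g => conj_mem_Hs ha (toW (g : ZT V))
  mono := fun i a ha => Hs_succ ha

theorem ZWM.factors : (ZWM.series V).Factors (fun _ => false) := by
  intro i
  refine ⟨fun _ => ?_, fun h => absurd h (by simp)⟩
  intro (a : ZT V) ha r j hj
  change zstar a (a r) j = r j
  rw [zstar_apply]
  have h0 : Agr (n - (i + 1)) (a r) r := ha r
  have h1 := (toW a).isW j (a r) r (by
    by_cases hj2 : (j : ℕ) < n - (i + 1)
    · exact h0.mono hj2.le
    · have : (j : ℕ) = n - (i + 1) := by omega
      rw [this]; exact h0)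
  rw [toW_apply, toW_apply] at h1
  linarith

end Pool.Agent.Helper29
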