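import Pool.Agent.Helper29.Retr
import Pool.Agent.Helper29.SymG
import Pool.Agent.Helper29.ZW

/-!
Finite configurations of symmetric normal-valued m-groups in symmetric wreath type groups.
-/

set_option autoImplicit false
set_option linter.unusedSectionVars false

namespace Pool.Agent.Helper29

theorem mimicS {G : MGroup} (law : NV G.carrier) (hS : SymLaw G) {Q : Subgroup G.carrier}
    (hQ : IsPrm Q) (D : Finset G.carrier) :
    ∃ (n : ℕ) (V : Fin n → AddSubgroup ℝ) (x : G.carrier → Lex (Fin n → ℝ))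
      (v : G.carrier → ZT V),
      (∀ a ∈ D, ∀ b ∈ D, (x a ≤ x b ↔ leQ Q a b)) ∧
      (∀ g ∈ D, ∀ a ∈ D, v g (x a) = x (g * a) ∧ zstar (v g) (x a) = x (G.star g * a)) := by
  classical
  -- the finitely generated group
  let S : Finset G.carrier := D.image (rho G) ∪ (D ×ˢ D).image (fun p => p.2⁻¹ * rho G p.1 * p.2)
  let Γ : Subgroup G.carrier := Subgroup.closure (S : Set G.carrier)
  have hSR : (S : Set G.carrier) ⊆ RR G := by
    intro y hy
    rcases Finset.mem_union.mp (Finset.mem_coe.mp hy) with h | h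
    · obtain ⟨a, _, rfl⟩ := Finset.mem_image.mp h
      exact rho_mem hS a
    · obtain ⟨p, _, rfl⟩ := Finset.mem_image.mp h
      exact RR_normal (rho_mem hS p.1) p.2
  have hΓR : Γ ≤ RR G := (Subgroup.closure_le _).mpr hSR
  have hfg : Γ.FG := ⟨S, rfl⟩
  have hcomm : ∀ x ∈ Γ, ∀ y ∈ Γ, x * y = y * x := fun x hx y hy =>
    RR_comm hS (hΓR hx) (hΓR hy)
  have hρΓ : ∀ a ∈ D, rho G a ∈ Γ := fun a ha =>
    Subgroup.subset_closure (Finset.mem_coe.mpr (Finset.mem_union_left _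
      (Finset.mem_image_of_mem _ ha)))
  have hcΓ : ∀ g ∈ D, ∀ a ∈ D, a⁻¹ * rho G g * a ∈ Γ := fun g hg a ha =>
    Subgroup.subset_closure (Finset.mem_coe.mpr (Finset.mem_union_right _
      (Finset.mem_image.mpr ⟨(g, a), Finset.mem_product.mpr ⟨hg, ha⟩, rfl⟩)))
  -- the levels
  obtain ⟨E, hE, hE'⟩ := finite_levels hQ Γ hfg hcomm
  obtain ⟨n, c, hcQ, hanti, hlev⟩ := exists_levels hQ E hE
  have hMc : ∀ k, IsCvx (vl Q (c k)) := fun k => vl_cvx hQ (hcQ k)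
  have hMN : ∀ k, vl Q (c k) ≤ cv Q (c k) := fun k => vl_le_cv hQ (hcQ k)
  have hNM : ∀ i j, i < j → cv Q (c j) ≤ vl Q (c i) := fun i j hij =>
    cv_le_vl_of_lt hQ (hcQ j) (hcQ i) (hanti i j hij)
  have hNN : ∀ i j, i ≤ j → cv Q (c j) ≤ cv Q (c i) := by
    intro i j hij
    rcases hij.lt_or_eq with h | h
    · exact (hNM i j h).trans (hMN i)
    · rw [h]
  have hlevΓ : ∀ γ ∈ Γ, γ ∉ Q → ∃ k, γ ∈ cv Q (c k) ∧ γ ∉ vl Q (c k) := by
    intro γ hγ hγQ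
    obtain ⟨e, he, h1⟩ := hE' γ hγ hγQ
    obtain ⟨k, hk⟩ := hlev e he
    refine ⟨k, mem_cv_of_vl_eq hQ hγQ (hcQ k) (by rw [hk, h1]), ?_⟩
    rw [hk, h1]; exact not_mem_vl hQ hγQ
  have hol : ∀ k, ∃ φ : G.carrier → ℝ, (∀ x ∈ cv Q (c k), ∀ y ∈ cv Q (c k),
      φ (x * y) = φ x + φ y) ∧
      ∀ x ∈ cv Q (c k), (0 ≤ φ x ↔ x⁻¹ ⊔ 1 ∈ vl Q (c k)) := fun k => exists_holder law hQ (hcQ k)
  choose φ hφadd hφpos using hol
  have hNprm : ∀ k, IsPrm (cv Q (c k)) := fun k => prm_of_le hQ cv_cvx le_cv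
  have hMprm : ∀ k, IsPrm (vl Q (c k)) := fun k => vl_prm hQ (hcQ k)
  have hext := fun k => ext_retr Γ (cv Q (c k)) hfg hcomm
    (fun x _ n hn h => mem_of_zpow_mem (hNprm k) hn h) (φ k) (hφadd k)
  choose π hπadd hπφ hπV using hext
  have hφ0 : ∀ k, φ k 1 = 0 := by
    intro k
    have := hφadd k 1 (cv Q (c k)).one_mem 1 (cv Q (c k)).one_mem
    rw [one_mul] at this
    linarith
  have hφinv : ∀ k, ∀ x ∈ cv Q (c k), φ k x⁻¹ = - φ k x := by
    intro k x hx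
    have := hφadd k x hx x⁻¹ ((cv Q (c k)).inv_mem hx)
    rw [mul_inv_cancel, hφ0] at this
    linarith
  have hφM : ∀ k, ∀ x ∈ cv Q (c k), (φ k x = 0 ↔ x ∈ vl Q (c k)) := by
    intro k x hx
    constructor
    · intro h
      have h1 := (hφpos k x hx).mp h.ge
      have h2 := (hφpos k x⁻¹ ((cv Q (c k)).inv_mem hx)).mp (by rw [hφinv k x hx, h]; simp)
      rw [inv_inv] at h2
      exact (hMc k).mem_of_pos_neg h2 h1
    · intro h
      have h1 := (hφpos k x hx).mpr ((hMc k).neg_mem h)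
      have h2 := (hφpos k x⁻¹ ((cv Q (c k)).inv_mem hx)).mpr (by
        rw [inv_inv]; exact (hMc k).sup_one _ h)
      rw [hφinv k x hx] at h2
      linarith
  have hπ0 : ∀ k, π k 1 = 0 := by
    intro k
    have := hπadd k 1 Γ.one_mem 1 Γ.one_mem
    rw [one_mul] at this
    linarith
  have hπinv : ∀ k, ∀ x ∈ Γ, π k x⁻¹ = - π k x := by
    intro k x hx
    have := hπadd k x hx x⁻¹ (Γ.inv_mem hx)
    rw [mul_inv_cancel, hπ0] at this
    linarith
  -- vanishing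
  have hπM : ∀ k, ∀ γ ∈ Γ, γ ∈ vl Q (c k) → π k γ = 0 := by
    intro k γ hγ h
    rw [hπφ k γ hγ (hMN k h)]
    exact (hφM k γ (hMN k h)).mpr h
  have hπQ : ∀ k, ∀ γ ∈ Γ, γ ∈ Q → π k γ = 0 := fun k γ hγ h => hπM k γ hγ (le_vl hQ (hcQ k) h)
  have hG1 : ∀ γ ∈ Γ, ∀ k : Fin n, (∀ i < k, π i γ = 0) → γ ∈ cv Q (c k) := by
    intro γ hγ k h
    by_cases hγQ : γ ∈ Q
    · exact le_cv hγQ
    · obtain ⟨j, hj1, hj2⟩ := hlevΓ γ hγ hγQ
      by_cases hjk : j < k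
      · exfalso
        apply hj2
        rw [← hφM j γ hj1, ← hπφ j γ hγ hj1]
        exact h j hjk
      · exact hNN k j (not_lt.mp hjk) hj1
  let V : Fin n → AddSubgroup ℝ := fun k =>
    { carrier := {t | ∃ γ ∈ Γ, t = π k γ}
      add_mem' := by
        rintro a b ⟨γ, hγ, rfl⟩ ⟨δ, hδ, rfl⟩
        exact ⟨γ * δ, Γ.mul_mem hγ hδ, (hπadd k γ hγ δ hδ).symm⟩
      zero_mem' := ⟨1, Γ.one_mem, (hπ0 k).symm⟩
      neg_mem' := by
        rintro a ⟨γ, hγ, rfl⟩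
        exact ⟨γ⁻¹, Γ.inv_mem hγ, (hπinv k γ hγ).symm⟩ }
  have hVmem : ∀ k, ∀ γ ∈ Γ, π k γ ∈ V k := fun k γ hγ => ⟨γ, hγ, rfl⟩
  let x : G.carrier → Lex (Fin n → ℝ) := fun a => toLex (fun k => π k (rho G a))
  have hx : ∀ a k, x a k = π k (rho G a) := fun a k => rfl
  -- order
  have F5 : ∀ a ∈ D, ∀ b ∈ D, leQ Q a b → x a ≤ x b := by
    intro a ha b hb h
    rw [leQ_rho hS hQ] at h
    have hγΓ : (rho G a)⁻¹ * rho G b ∈ Γ := Γ.mul_mem (Γ.inv_mem (hρΓ a ha)) (hρΓ b hb)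
    have hxab : ∀ k, x b k = x a k + π k ((rho G a)⁻¹ * rho G b) := by
      intro k
      rw [hx, hx, ← hπadd k _ (hρΓ a ha) _ hγΓ, mul_inv_cancel_left]
    by_cases hab : (rho G a)⁻¹ * rho G b ∈ Q
    · apply le_of_eq
      funext k
      rw [hxab k, hπQ k _ hγΓ hab, add_zero]
    · obtain ⟨j, hj1, hj2⟩ := hlevΓ _ hγΓ hab
      apply le_of_lt
      refine lex_lt_iff.mpr ⟨j, ?_, ?_⟩
      · intro i hi
        rw [hxab i, hπM i _ hγΓ (hNM i j hi hj1), add_zero]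
      · rw [hxab j, hπφ j _ hγΓ hj1]
        have h1 : 0 ≤ φ j ((rho G a)⁻¹ * rho G b) := by
          rw [hφpos j _ hj1]
          apply le_vl hQ (hcQ j)
          have e : ((rho G a)⁻¹ * rho G b)⁻¹ = (rho G b)⁻¹ * rho G a := by group
          rw [e]; exact h
        have h2 : φ j ((rho G a)⁻¹ * rho G b) ≠ 0 := fun h0 => hj2 ((hφM j _ hj1).mp h0)
        have h3 := lt_of_le_of_ne h1 (Ne.symm h2)
        linarith
  have F5' : ∀ a ∈ D, ∀ b ∈ D, x a = x b → (rho G a)⁻¹ * rho G b ∈ Q := by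
    intro a ha b hb h
    have hγΓ : (rho G a)⁻¹ * rho G b ∈ Γ := Γ.mul_mem (Γ.inv_mem (hρΓ a ha)) (hρΓ b hb)
    have hz : ∀ k, π k ((rho G a)⁻¹ * rho G b) = 0 := by
      intro k
      rw [hπadd k _ (Γ.inv_mem (hρΓ a ha)) _ (hρΓ b hb), hπinv k _ (hρΓ a ha), ← hx, ← hx, h]
      ring
    by_contra hab
    obtain ⟨j, hj1, hj2⟩ := hlevΓ _ hγΓ hab
    apply hj2
    rw [← hφM j _ hj1, ← hπφ j _ hγΓ hj1]
    exact hz j
  -- the correction argument
  have F6 : ∀ a ∈ D, ∀ b ∈ D, ∀ j : ℕ, j ≤ n → Cong V j (x a) (x b) →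
      ∃ s ∈ Γ, ∀ i : Fin n, (i : ℕ) < j → π i ((rho G a)⁻¹ * rho G b * (s * s)⁻¹) = 0 := by
    intro a ha b hb j
    have hγΓ : (rho G a)⁻¹ * rho G b ∈ Γ := Γ.mul_mem (Γ.inv_mem (hρΓ a ha)) (hρΓ b hb)
    induction j with
    | zero => intro _ _; exact ⟨1, Γ.one_mem, fun i hi => by omega⟩
    | succ j ih =>
      intro hjn hcong
      obtain ⟨s, hs, h0⟩ := ih (by omega) (hcong.mono (by omega))
      have hss : s * s ∈ Γ := Γ.mul_mem hs hs
      set γ := (rho G a)⁻¹ * rho G b * (s * s)⁻¹ with hγdef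
      have hγ : γ ∈ Γ := Γ.mul_mem hγΓ (Γ.inv_mem hss)
      have hjn' : j < n := by omega
      have hγN : γ ∈ cv Q (c ⟨j, hjn'⟩) := hG1 γ hγ ⟨j, hjn'⟩ (fun i hi => h0 i hi)
      obtain ⟨t, ht, he⟩ := hcong ⟨j, hjn'⟩ (by simp)
      -- π_j(γ) ∈ 2 V_j
      have h1 : π ⟨j, hjn'⟩ γ = - 2 * t - 2 * π ⟨j, hjn'⟩ s := by
        rw [hγdef, hπadd _ _ hγΓ _ (Γ.inv_mem hss), hπadd _ _ (Γ.inv_mem (hρΓ a ha)) _ (hρΓ b hb),
          hπinv _ _ (hρΓ a ha), hπinv _ _ hss, hπadd _ _ hs _ hs, ← hx, ← hx]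
        linarith
      have h2 : -t - π ⟨j, hjn'⟩ s ∈ V ⟨j, hjn'⟩ :=
        (V ⟨j, hjn'⟩).sub_mem ((V ⟨j, hjn'⟩).neg_mem ht) (hVmem _ s hs)
      obtain ⟨δ0, hδ0, he0⟩ := h2
      obtain ⟨δ, hδ, hδN, he1⟩ := hπV ⟨j, hjn'⟩ δ0 hδ0
      refine ⟨s * δ, Γ.mul_mem hs hδ, ?_⟩
      have e : (rho G a)⁻¹ * rho G b * (s * δ * (s * δ))⁻¹ = γ * (δ⁻¹ * δ⁻¹) := by
        have hc1 : s * δ = δ * s := hcomm s hs δ hδ
        have hc2 : s * δ * (s * δ) = δ * δ * (s * s) := by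
          calc s * δ * (s * δ) = (s * δ) * (δ * s) := by rw [hc1]
            _ = (δ * s) * (δ * s) := by rw [hc1]
            _ = δ * (s * δ) * s := by group
            _ = δ * (δ * s) * s := by rw [hc1]
            _ = δ * δ * (s * s) := by group
        rw [hc2, hγdef]; group
      intro i hi
      have hδδ : δ⁻¹ * δ⁻¹ ∈ Γ := Γ.mul_mem (Γ.inv_mem hδ) (Γ.inv_mem hδ)
      rw [e, hπadd i γ hγ _ hδδ, hπadd i _ (Γ.inv_mem hδ) _ (Γ.inv_mem hδ), hπinv i δ hδ]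
      rcases Nat.lt_succ_iff_lt_or_eq.mp hi with h3 | h3
      · rw [h0 i h3, hπM i δ hδ (hNM i ⟨j, hjn'⟩ h3 hδN)]; ring
      · have h4 : i = ⟨j, hjn'⟩ := Fin.ext h3
        rw [h4, h1, hπφ _ δ hδ hδN, ← he1, ← he0]; ring
  -- well-definedness of the cocycle
  have F7 : ∀ g ∈ D, ∀ a ∈ D, ∀ b ∈ D, ∀ k : Fin n, Cong V k (x a) (x b) →
      π k (a⁻¹ * rho G g * a) = π k (b⁻¹ * rho G g * b) := by
    intro g hg a ha b hb k hcong
    obtain ⟨s, hs, h0⟩ := F6 a ha b hb k k.2.le hcong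
    have hsR : s ∈ RR G := hΓR hs
    have hss : s * s ∈ Γ := Γ.mul_mem hs hs
    have hγΓ : (rho G a)⁻¹ * rho G b ∈ Γ := Γ.mul_mem (Γ.inv_mem (hρΓ a ha)) (hρΓ b hb)
    have hγN := hG1 _ (Γ.mul_mem hγΓ (Γ.inv_mem hss)) k (fun i hi => h0 i hi)
    -- u = (a s)⁻¹ b ∈ N_k
    have hρas : (rho G (a * s))⁻¹ * rho G b ∈ cv Q (c k) := by
      rw [rho_mul_R hS hsR]
      have e : (rho G a * (s * s))⁻¹ * rho G b = (rho G a)⁻¹ * rho G b * (s * s)⁻¹ := by
        have h1 := hcomm (s * s)⁻¹ (Γ.inv_mem hss) _ hγΓ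
        calc (rho G a * (s * s))⁻¹ * rho G b = (s * s)⁻¹ * ((rho G a)⁻¹ * rho G b) := by group
          _ = _ := h1
      rw [e]; exact hγN
    have hle1 : leQ (cv Q (c k)) (a * s) b := by
      rw [leQ_rho hS (hNprm k)]
      exact leQ_of_mem cv_cvx hρas
    have hle2 : leQ (cv Q (c k)) b (a * s) := by
      rw [leQ_rho hS (hNprm k)]
      exact leQ_of_mem' cv_cvx hρas
    have huN : (a * s)⁻¹ * b ∈ cv Q (c k) := leQ_antisymm cv_cvx hle1 hle2
    set u := (a * s)⁻¹ * b with hu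
    have hb' : b = a * s * u := by rw [hu]; group
    set cg := a⁻¹ * rho G g * a with hcg
    have hcgR : cg ∈ RR G := RR_normal (rho_mem hS g) a
    have hcgΓ : cg ∈ Γ := hcΓ g hg a ha
    have hcb : b⁻¹ * rho G g * b = u⁻¹ * cg * u := by
      have h1 : s⁻¹ * cg * s = cg := by
        rw [RR_comm hS ((RR G).inv_mem hsR) hcgR]; group
      calc b⁻¹ * rho G g * b = u⁻¹ * (s⁻¹ * (a⁻¹ * rho G g * a) * s) * u := by
            rw [hb']; group
        _ = u⁻¹ * cg * u := by rw [← hcg, h1]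
    have hmem : cg⁻¹ * (b⁻¹ * rho G g * b) ∈ vl Q (c k) := by
      rw [hcb]
      have e : cg⁻¹ * (u⁻¹ * cg * u) = (u * cg)⁻¹ * (cg * u) := by group
      rw [e]
      refine hS.comm_mem (hMprm k) (RR_conj hcgR (hMprm k)).1 (RR_conj hcgR (hMprm k)).2 ?_ ?_
      · intro p hp
        exact nv_normal law hQ (hcQ k) huN hp
      · intro p hp
        have := nv_normal law hQ (hcQ k) ((cv Q (c k)).inv_mem huN) hp
        rwa [inv_inv] at this
    have hcbΓ : b⁻¹ * rho G g * b ∈ Γ := hcΓ g hg b hb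
    have h5 := hπM k _ (Γ.mul_mem (Γ.inv_mem hcgΓ) hcbΓ) hmem
    rw [hπadd k _ (Γ.inv_mem hcgΓ) _ hcbΓ, hπinv k _ hcgΓ] at h5
    linarith
  -- the cocycle
  let co : G.carrier → Fin n → Lex (Fin n → ℝ) → ℝ := fun g k r =>
    if h : g ∈ D ∧ ∃ a ∈ D, Cong V k (x a) r then
      π k (h.2.choose⁻¹ * rho G g * h.2.choose) else 0
  have hcoV : ∀ g (k : Fin n) r, co g k r ∈ V k := by
    intro g k r
    simp only [co]
    split_ifs with h
    · exact hVmem k _ (hcΓ g h.1 _ h.2.choose_spec.1)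
    · exact (V k).zero_mem
  have hcoval : ∀ g ∈ D, ∀ (k : Fin n) r, ∀ a ∈ D, Cong V k (x a) r →
      co g k r = π k (a⁻¹ * rho G g * a) := by
    intro g hg k r a ha h
    have h1 : g ∈ D ∧ ∃ a ∈ D, Cong V k (x a) r := ⟨hg, a, ha, h⟩
    have h2 : co g k r = π k (h1.2.choose⁻¹ * rho G g * h1.2.choose) := by
      simp only [co]
      rw [dif_pos h1]
    rw [h2]
    have h3 := h1.2.choose_spec
    exact F7 g hg _ h3.1 a ha k (h3.2.trans h.symm)
  have hco : ∀ g (k : Fin n) r s, Cong V k r s → co g k r = co g k s := by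
    intro g k r s h
    by_cases hg : g ∈ D
    · by_cases h1 : ∃ a ∈ D, Cong V k (x a) r
      · obtain ⟨a, ha, h2⟩ := h1
        rw [hcoval g hg k r a ha h2, hcoval g hg k s a ha (h2.trans h)]
      · have h2 : ¬ ∃ a ∈ D, Cong V k (x a) s := by
          rintro ⟨a, ha, h3⟩
          exact h1 ⟨a, ha, h3.trans h.symm⟩
        simp only [co]
        rw [dif_neg (fun h' => h1 h'.2), dif_neg (fun h' => h2 h'.2)]
    · simp only [co]
      rw [dif_neg (fun h' => hg h'.1), dif_neg (fun h' => hg h'.1)]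
  have hv : ∀ g, ∃ f : ZT V, ∀ r k, f r k = r k + co g k r := fun g =>
    exists_Z (co g) (hcoV g) (hco g)
  choose v hv using hv
  refine ⟨n, V, x, v, ?_, ?_⟩
  · intro a ha b hb
    constructor
    · intro h
      by_contra hcon
      have h1 : leQ Q b a := (leQ_total hQ a b).resolve_left hcon
      have h2 := F5 b hb a ha h1
      have h3 : x a = x b := le_antisymm h h2
      have h4 := F5' a ha b hb h3
      apply hcon
      rw [leQ_rho hS hQ]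
      exact leQ_of_mem hQ.toIsCvx h4
    · exact F5 a ha b hb
  · intro g hg a ha
    have hval : ∀ k, co g k (x a) = π k (a⁻¹ * rho G g * a) := fun k =>
      hcoval g hg k (x a) a ha (Cong.refl _ _)
    have hρa := hρΓ a ha
    have hca := hcΓ g hg a ha
    constructor
    · funext k
      rw [hv, hval, hx, hx, rho_mul, hπadd k _ hρa _ hca]
    · funext k
      rw [zstar_apply, hv, hval, hx, hx, rho_star_mul, hπadd k _ hρa _ (Γ.inv_mem hca),
        hπinv k _ hca]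
      ring

end Pool.Agent.Helper29
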