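import Pool.Agent.Helper29.NilPrime

/-!
The group theoretic part of the validity of the identity.
-/

set_option autoImplicit false
set_option linter.unusedSectionVars false

namespace Pool.Agent.Helper29

/-! ### The quotient group -/

section quot

variable {K : Type} [Group K]

theorem commute_root (hroot : ∀ (x y : K) (n : ℕ), n ≠ 0 → x ^ n = y ^ n → x = y) {x y : K} {n : ℕ}
    (hn : n ≠ 0) (h : Commute (x ^ n) y) : Commute x y := by
  have h1 : (y⁻¹ * x * y) ^ n = x ^ n := by
    have e : (y⁻¹ * x * y) ^ n = y⁻¹ * x ^ n * y := by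
      have := conj_pow (i := n) (a := y⁻¹) (b := x)
      simpa using this
    rw [e, mul_assoc, h.eq, inv_mul_cancel_left]
  have h2 := hroot _ _ n hn h1
  have h3 : y * (y⁻¹ * x * y) = y * x := by rw [h2]
  have h4 : y * (y⁻¹ * x * y) = x * y := by group
  exact (h4.symm.trans h3)

theorem commute_conj {x y : K} (g : K) (h : Commute x y) : Commute (g * x * g⁻¹) (g * y * g⁻¹) := by
  have h' := h.eq
  change g * x * g⁻¹ * (g * y * g⁻¹) = g * y * g⁻¹ * (g * x * g⁻¹)
  calc g * x * g⁻¹ * (g * y * g⁻¹) = g * (x * y) * g⁻¹ := by group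
    _ = g * (y * x) * g⁻¹ := by rw [h']
    _ = _ := by group

/-- the `F` word -/
def Fw (q : ℕ) (x y z : K) : K := x ^ (q ^ 2 + q + 1) * (y ^ (q ^ 2 + q + 1))⁻¹ * z ^ q

theorem Fw_conj (q : ℕ) (g x y z : K) :
    g * Fw q x y z * g⁻¹ = Fw q (g * x * g⁻¹) (g * y * g⁻¹) (g * z * g⁻¹) := by
  unfold Fw
  rw [conj_pow, conj_pow, conj_pow]
  group

variable {a t s : K} {q : ℕ}

/-- the conjugates -/
def AA (t a : K) (n : ℤ) : K := t ^ n * a * (t ^ n)⁻¹

theorem AA_shift (n m : ℤ) : t ^ m * AA t a n * (t ^ m)⁻¹ = AA t a (n + m) := by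
  unfold AA
  rw [add_comm, zpow_add]; group

theorem AA_root (hts : Commute t s)
    (h2 : s * a ^ q * s⁻¹ = Fw q a (AA t a 1) (AA t a 2)) (n : ℤ) :
    s * (AA t a n) ^ q * s⁻¹ = Fw q (AA t a n) (AA t a (n + 1)) (AA t a (n + 2)) := by
  have e0 : AA t a 0 = a := by unfold AA; group
  have e1 : (AA t a n) ^ q = t ^ n * a ^ q * (t ^ n)⁻¹ := by
    unfold AA; rw [conj_pow]
  have h3 : s * t ^ n = t ^ n * s := (hts.zpow_left n).symm.eq
  have h3' : (t ^ n)⁻¹ * s⁻¹ = s⁻¹ * (t ^ n)⁻¹ := by
    rw [← mul_inv_rev, ← mul_inv_rev, h3]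
  have e2 : s * (AA t a n) ^ q * s⁻¹ = t ^ n * (s * a ^ q * s⁻¹) * (t ^ n)⁻¹ := by
    rw [e1]
    calc s * (t ^ n * a ^ q * (t ^ n)⁻¹) * s⁻¹ = (s * t ^ n) * a ^ q * ((t ^ n)⁻¹ * s⁻¹) := by group
      _ = (t ^ n * s) * a ^ q * (s⁻¹ * (t ^ n)⁻¹) := by rw [h3, h3']
      _ = _ := by group
  have h4 := AA_shift (a := a) (t := t) 0 n
  rw [e0, zero_add] at h4
  rw [e2, h2, Fw_conj, AA_shift, AA_shift, h4, add_comm 1 n, add_comm 2 n]

theorem all_commute (hroot : ∀ (x y : K) (n : ℕ), n ≠ 0 → x ^ n = y ^ n → x = y)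
    (hq : q ≠ 0) (hts : Commute t s) (h1 : Commute a (AA t a 1)) (h2 : Commute a (AA t a 2))
    (h3 : s * a ^ q * s⁻¹ = Fw q a (AA t a 1) (AA t a 2)) (i j : ℤ) :
    Commute (AA t a i) (AA t a j) := by
  have e0 : AA t a 0 = a := by unfold AA; group
  have hsh : ∀ i j m, Commute (AA t a i) (AA t a j) → Commute (AA t a (i + m)) (AA t a (j + m)) := by
    intro i j m h
    rw [← AA_shift, ← AA_shift]
    exact commute_conj _ h
  -- reduction to natural differences
  have hred : ∀ k : ℕ, (∀ d : ℕ, d ≤ k → Commute (AA t a 0) (AA t a d)) →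
      ∀ i j : ℤ, |i - j| ≤ k → Commute (AA t a i) (AA t a j) := by
    intro k hk i j hij
    rcases le_total i j with h | h
    · obtain ⟨d, hd⟩ := Int.eq_ofNat_of_zero_le (sub_nonneg.mpr h)
      have h5 : |i - j| = d := by rw [abs_sub_comm, hd]; simp
      have h6 := hsh 0 d i (hk d (by rw [h5] at hij; exact_mod_cast hij))
      rw [zero_add] at h6
      have h7 : (d : ℤ) + i = j := by rw [← hd]; ring
      rwa [h7] at h6
    · obtain ⟨d, hd⟩ := Int.eq_ofNat_of_zero_le (sub_nonneg.mpr h)
      have h5 : |i - j| = d := by rw [hd]; simp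
      have h6 := hsh 0 d j (hk d (by rw [h5] at hij; exact_mod_cast hij))
      rw [zero_add] at h6
      have h7 : (d : ℤ) + j = i := by rw [← hd]; ring
      rw [h7] at h6
      exact h6.symm
  have key : ∀ k : ℕ, ∀ d : ℕ, d ≤ k + 2 → Commute (AA t a 0) (AA t a d) := by
    intro k
    induction k with
    | zero =>
      intro d hd
      have : d = 0 ∨ d = 1 ∨ d = 2 := by omega
      rcases this with rfl | rfl | rfl
      · exact Commute.refl _
      · rw [e0]; exact h1
      · rw [e0]; exact h2
    | succ k ih =>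
      intro d hd
      by_cases hd' : d ≤ k + 2
      · exact ih d hd'
      have hdk : d = k + 3 := by omega
      subst hdk
      have hc := hred (k + 2) ih
      -- F_0 and F_{k+1}
      have hF : Commute (Fw q (AA t a 0) (AA t a (0 + 1)) (AA t a (0 + 2)))
          (Fw q (AA t a (k + 1 : ℤ)) (AA t a ((k + 1 : ℤ) + 1)) (AA t a ((k + 1 : ℤ) + 2))) := by
        rw [← AA_root hts h3, ← AA_root hts h3]
        apply commute_conj
        apply Commute.pow_pow
        apply hc
        push_cast
        rw [abs_le]; constructor <;> omega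
      set X := Fw q (AA t a (k + 1 : ℤ)) (AA t a ((k + 1 : ℤ) + 1)) (AA t a ((k + 1 : ℤ) + 2))
        with hX
      have hX1 : ∀ i : ℤ, 1 ≤ i → i ≤ 2 → Commute (AA t a i) X := by
        intro i hi1 hi2
        rw [hX]
        unfold Fw
        apply Commute.mul_right
        · apply Commute.mul_right
          · apply Commute.pow_right
            apply hc
            rw [abs_le]; push_cast; constructor <;> omega
          · apply Commute.inv_right
            apply Commute.pow_right
            apply hc
            rw [abs_le]; push_cast; constructor <;> omega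
        · apply Commute.pow_right
          apply hc
          rw [abs_le]; push_cast; constructor <;> omega
      have hA0 : Commute (AA t a 0) X := by
        apply commute_root hroot (n := q ^ 2 + q + 1) (by omega)
        have e : AA t a 0 ^ (q ^ 2 + q + 1) =
          Fw q (AA t a 0) (AA t a (0 + 1)) (AA t a (0 + 2)) *
            ((AA t a (0 + 1) ^ (q ^ 2 + q + 1))⁻¹ * AA t a (0 + 2) ^ q)⁻¹ := by
          unfold Fw; group
        rw [e]
        apply Commute.mul_left hF
        apply Commute.inv_left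
        apply Commute.mul_left
        · apply Commute.inv_left
          apply Commute.pow_left
          exact hX1 _ (by omega) (by omega)
        · apply Commute.pow_left
          exact hX1 _ (by omega) (by omega)
      have e3 : ((k + 3 : ℕ) : ℤ) = (k + 1 : ℤ) + 2 := by push_cast; ring
      rw [e3]
      apply Commute.symm
      apply commute_root hroot hq
      apply Commute.symm
      have e : AA t a ((k + 1 : ℤ) + 2) ^ q =
        (AA t a (k + 1 : ℤ) ^ (q ^ 2 + q + 1) *
          (AA t a ((k + 1 : ℤ) + 1) ^ (q ^ 2 + q + 1))⁻¹)⁻¹ * X := by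
        rw [hX]; unfold Fw; group
      rw [e]
      apply Commute.mul_right
      · apply Commute.inv_right
        apply Commute.mul_right
        · apply Commute.pow_right
          apply hc
          rw [abs_le]; push_cast; constructor <;> omega
        · apply Commute.inv_right
          apply Commute.pow_right
          apply hc
          rw [abs_le]; push_cast; constructor <;> omega
      · exact hA0
  refine hred ((i - j).natAbs + 2) (fun d hd => key (i - j).natAbs d hd) i j ?_
  push_cast
  rw [← Int.natCast_natAbs]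
  omega

end quot

/-! ### The recurrence -/

theorem rec_zero {q : ℝ} (hq : q ≠ 1) (k : ℕ) : ∀ e : ℤ → ℝ, dd^[k] e = 0 →
    (∀ j, q * ((e (j + 2) - 2 * e (j + 1) + e j) - 2 * (e (j + 1) - 2 * e j + e (j - 1)) +
      (e j - 2 * e (j - 1) + e (j - 2))) = (q - 1) ^ 2 * (e (j + 1) - 2 * e j + e (j - 1))) →
    ∀ j, e (j + 1) - 2 * e j + e (j - 1) = 0 := by
  induction k with
  | zero =>
    intro e h _ j
    rw [Function.iterate_zero_apply] at h
    simp [h]
  | succ k ih =>
    intro e h hrec
    rw [Function.iterate_succ_apply] at h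
    have h1 := ih (dd e) h (by
      intro j
      have h2 := hrec j
      have h3 := hrec (j + 1)
      unfold dd
      have e1 : j + 1 + 2 = j + 2 + 1 := by ring
      have e2 : j + 1 - 1 = j - 1 + 1 := by ring
      have e3 : j + 1 - 2 = j - 2 + 1 := by ring
      rw [e1, e2, e3] at h3
      have e4 : j - 1 + 1 = j := by ring
      rw [e4] at h3 ⊢
      linarith)
    have h2 : dd (fun j => e (j + 1) - 2 * e j + e (j - 1)) = 0 := by
      funext j
      have h3 := h1 j
      unfold dd at h3 ⊢
      have e2 : j + 1 - 1 = j - 1 + 1 := by ring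
      simp only [Pi.zero_apply, e2]
      linarith
    have h3 := const_of_dd h2
    intro j
    have h4 := hrec j
    have h5 := h3 j
    have h6 := h3 (j + 1)
    have h7 := h3 (j - 1)
    have e1 : j + 1 + 1 = j + 2 := by ring
    have e2 : j + 1 - 1 = j := by ring
    have e3 : j - 1 + 1 = j := by ring
    have e4 : j - 1 - 1 = j - 2 := by ring
    simp only [e1, e2] at h6
    simp only [e3, e4] at h7
    rw [h5, h6, h7] at h4
    have h8 : (q - 1) ^ 2 * (e (0 + 1) - 2 * e 0 + e (0 - 1)) = 0 := by rw [← h4]; ring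
    rw [h5]
    rcases mul_eq_zero.mp h8 with h9 | h9
    · exact absurd (sub_eq_zero.mp (pow_eq_zero_iff (two_ne_zero) |>.mp h9)) hq
    · exact h9

end Pool.Agent.Helper29
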