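import Pool.Agent.Helper29.NilO

/-!
The ordered groups `G_p` and the words that fail in them.
-/

set_option autoImplicit false
set_option linter.unusedSectionVars false

namespace Pool.Agent.Helper29

open Polynomial

section padic

variable {p : ℕ} [hp : Fact p.Prime]

theorem padic_le_of_one {r : ℚ} (h : padicNorm p (r - 1) < 1) : padicNorm p r = 1 := by
  apply le_antisymm
  · have e : r = (r - 1) + 1 := by ring
    rw [e]
    refine (padicNorm.nonarchimedean).trans ?_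
    rw [padicNorm.one]
    exact max_le h.le le_rfl
  · by_contra hcon
    have hcon' : padicNorm p r < 1 := not_le.mp hcon
    have e : (1 : ℚ) = r + -(r - 1) := by ring
    have h1 : padicNorm p (1 : ℚ) ≤ max (padicNorm p r) (padicNorm p (-(r - 1))) := by
      conv_lhs => rw [e]
      exact padicNorm.nonarchimedean
    rw [padicNorm.one, padicNorm.neg] at h1
    exact absurd h1 (not_le.mpr (max_lt hcon' h))

theorem padic_mul_one {r s : ℚ} (h : padicNorm p (r - 1) < 1) (h' : padicNorm p (s - 1) < 1) :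
    padicNorm p (r * s - 1) < 1 := by
  have e : r * s - 1 = r * (s - 1) + (r - 1) := by ring
  rw [e]
  refine lt_of_le_of_lt padicNorm.nonarchimedean (max_lt ?_ h)
  rw [padicNorm.mul, padic_le_of_one h, one_mul]
  exact h'

theorem padic_inv_one {r : ℚ} (h : padicNorm p (r - 1) < 1) : padicNorm p (r⁻¹ - 1) < 1 := by
  have h1 := padic_le_of_one h
  have hr : r ≠ 0 := by
    rintro rfl
    rw [padicNorm.zero] at h1
    exact zero_ne_one h1
  have h2 : padicNorm p r * padicNorm p r⁻¹ = 1 := by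
    rw [← padicNorm.mul, mul_inv_cancel₀ hr, padicNorm.one]
  rw [h1, one_mul] at h2
  have e : r⁻¹ - 1 = -(r⁻¹ * (r - 1)) := by
    rw [mul_sub, inv_mul_cancel₀ hr]; ring
  rw [e, padicNorm.neg, padicNorm.mul, h2, one_mul]
  exact h

end padic

/-- the second point -/
noncomputable def thb (p : ℕ) : ℚ := ((p : ℚ) + 1)⁻¹ - 1

/-- the ring -/
abbrev Op (p : ℕ) : Type := OO (p : ℚ) (thb p)

open OO in
/-- the acting group -/
def TT (p : ℕ) [hp : Fact p.Prime] : Subgroup (Op p)ˣ where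
  carrier := {u | ev0 (u : Op p) = 1 ∧ ev1 (u : Op p) * ev2 (u : Op p) = 1 ∧
    0 < ev1 (u : Op p) ∧ padicNorm p (ev1 (u : Op p) - 1) < 1}
  mul_mem' := by
    rintro u v ⟨u0, u1, u2, u3⟩ ⟨v0, v1, v2, v3⟩
    refine ⟨?_, ?_, ?_, ?_⟩
    · rw [Units.val_mul, map_mul, u0, v0, one_mul]
    · rw [Units.val_mul, map_mul, map_mul]
      calc _ = (ev1 (u : Op p) * ev2 (u : Op p)) * (ev1 (v : Op p) * ev2 (v : Op p)) := by ring
        _ = 1 := by rw [u1, v1, one_mul]
    · rw [Units.val_mul, map_mul]; exact mul_pos u2 v2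
    · rw [Units.val_mul, map_mul]; exact padic_mul_one u3 v3
  one_mem' := by
    refine ⟨by simp, by simp, by simp, ?_⟩
    simp
  inv_mem' := by
    rintro u ⟨u0, u1, u2, u3⟩
    have h0 : ev0 (((u⁻¹ : (Op p)ˣ)) : Op p) = (ev0 (u : Op p))⁻¹ :=
      eq_inv_of_mul_eq_one_left (by rw [← map_mul, Units.inv_mul, map_one])
    have h1 : ev1 (((u⁻¹ : (Op p)ˣ)) : Op p) = (ev1 (u : Op p))⁻¹ :=
      eq_inv_of_mul_eq_one_left (by rw [← map_mul, Units.inv_mul, map_one])
    have h2 : ev2 (((u⁻¹ : (Op p)ˣ)) : Op p) = (ev2 (u : Op p))⁻¹ :=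
      eq_inv_of_mul_eq_one_left (by rw [← map_mul, Units.inv_mul, map_one])
    refine ⟨?_, ?_, ?_, ?_⟩
    · rw [h0, u0, inv_one]
    · rw [h1, h2, ← mul_inv, u1, inv_one]
    · rw [h1]; exact inv_pos.mpr u2
    · rw [h1]; exact padic_inv_one u3

variable (p : ℕ) [hp : Fact p.Prime]

noncomputable instance : LinearOrder (TT p) :=
  LinearOrder.lift' (fun u : TT p => ((u : (Op p)ˣ) : Op p))
    (fun _ _ h => Subtype.ext (Units.ext h))

theorem TT_lt {u v : TT p} : u < v ↔ ((u : (Op p)ˣ) : Op p) < ((v : (Op p)ˣ) : Op p) := Iff.rfl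
theorem TT_le {u v : TT p} : u ≤ v ↔ ((u : (Op p)ˣ) : Op p) ≤ ((v : (Op p)ˣ) : Op p) := Iff.rfl

instance : IsOrderedMonoid (TT p) where
  mul_le_mul_left := by
    intro a b h c
    rw [TT_le] at h ⊢
    rcases eq_or_lt_of_le h with h1 | h1
    · rw [show a = b from Subtype.ext (Units.ext h1)]
    · have := OO.mul_lt ((c : (Op p)ˣ) : Op p) c.2.1 h1
      rw [Subgroup.coe_mul, Subgroup.coe_mul, Units.val_mul, Units.val_mul, mul_comm, mul_comm _
        ((c : (Op p)ˣ) : Op p)]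
      exact this.le

open OO in
/-- the data of `G_p` -/
noncomputable def DG : KD (TT p) (Op p) ℚ where
  act u α := ((u : (Op p)ˣ) : Op p) * α
  act_one x := by simp
  act_mul u v x := by simp [mul_assoc]
  act_add u x y := by ring
  bil α β := ev1 α * ev2 β
  bil_add_left x y z := by rw [map_add]; ring
  bil_add_right x y z := by rw [map_add]; ring
  bil_act u x y := by
    rw [map_mul, map_mul]
    calc _ = (ev1 ((u : (Op p)ˣ) : Op p) * ev2 ((u : (Op p)ˣ) : Op p)) * (ev1 x * ev2 y) := by ring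
      _ = _ := by rw [u.2.2.1, one_mul]

noncomputable instance : LinearOrder (DG p).G := (DG p).linearOrder

theorem DG_strict : ∀ u x y, x < y → (DG p).act u x < (DG p).act u y :=
  fun u _ _ h => OO.mul_lt ((u : (Op p)ˣ) : Op p) u.2.1 h

instance : MulLeftMono (DG p).G := KD.mulLeftMono (DG_strict p)
instance : MulRightMono (DG p).G := KD.mulRightMono

/-! ### The words -/

/-- commutator word -/
def cw (a b : FreeGroup ℕ) : FreeGroup ℕ := a * b * a⁻¹ * b⁻¹

/-- the words -/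
def wa : FreeGroup ℕ := FreeGroup.of 0
/-- the words -/
def wt : FreeGroup ℕ := FreeGroup.of 1
/-- the words -/
def ws : FreeGroup ℕ := FreeGroup.of 2
/-- the conjugate of `a` by a power of `t` -/
def wat (j : ℕ) : FreeGroup ℕ := wt ^ j * wa * (wt ^ j)⁻¹
/-- the main word -/
def w0 : FreeGroup ℕ := cw wa (wat 2) * (cw wa (wat 1))⁻¹ ^ 2
/-- relator -/
def r1 : FreeGroup ℕ := cw wt ws
/-- relator -/
def r2 (q : ℕ) : FreeGroup ℕ := ws * wa ^ q * ws⁻¹ *
  (wa ^ (q ^ 2 + q + 1) * ((wat 1) ^ (q ^ 2 + q + 1))⁻¹ * (wat 2) ^ q)⁻¹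
/-- relator -/
def r3 : FreeGroup ℕ := cw wa (wat 1)
/-- relator -/
def r4 : FreeGroup ℕ := cw wa (wat 2)

/-- the relators -/
def rels (q : ℕ) : Finset (FreeGroup ℕ) := {r1, r2 q, r3, r4}

/-- the identity -/
def idn (q N : ℕ) : Finset (FreeGroup ℕ) :=
  insert w0 ((rels q).image (fun r => w0 ^ N * r) ∪ (rels q).image (fun r => w0 ^ N * r⁻¹))


namespace KD

variable {U X Z : Type} [CommGroup U] [AddCommGroup X] [AddCommGroup Z] {D : KD U X Z}

theorem pow_u (g : D.G) (n : ℕ) : (g ^ n).u = g.u ^ n := by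
  induction n with
  | zero => simp
  | succ n ih => rw [pow_succ, pow_succ, mul_u, ih]

theorem pow_x {g : D.G} (h : g.u = 1) (n : ℕ) : (g ^ n).x = n • g.x := by
  induction n with
  | zero => simp
  | succ n ih => rw [pow_succ, mul_x, ih, pow_u, h, one_pow, D.act_one, succ_nsmul]

theorem conj_eq (u : U) (x : X) (z : Z) :
    (⟨u, 0, 0⟩ : D.G) * ⟨1, x, z⟩ * (⟨u, 0, 0⟩ : D.G)⁻¹ = ⟨1, D.act u x, z⟩ := by
  ext
  · simp
  · simp [D.act_zero]
  · simp [D.act_zero, D.bil_zero_left, D.bil_zero_right]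

theorem pow_diag (u : U) (n : ℕ) : (⟨u, 0, 0⟩ : D.G) ^ n = ⟨u ^ n, 0, 0⟩ := by
  induction n with
  | zero => simp only [pow_zero]; rfl
  | succ n ih =>
    rw [pow_succ, ih]
    ext
    · simp [pow_succ]
    · simp [D.act_zero]
    · simp [D.bil_zero_left]

theorem comm_eq (x y : X) (z w : Z) :
    (⟨1, x, z⟩ : D.G) * ⟨1, y, w⟩ * (⟨1, x, z⟩ : D.G)⁻¹ * (⟨1, y, w⟩ : D.G)⁻¹ =
      ⟨1, 0, D.bil x y - D.bil y x⟩ := by
  ext
  · simp
  · simp [D.act_one]
  · simp only [mul_z, mul_x, mul_u, inv_x, inv_u, inv_z, one_mul, inv_one, D.act_one,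
      D.bil_neg_left, D.bil_neg_right, D.bil_add_left, D.bil_add_right, mul_one]
    abel

theorem cen_mul (z w : Z) : (⟨1, 0, z⟩ : D.G) * ⟨1, 0, w⟩ = ⟨1, 0, z + w⟩ := by
  ext
  · simp
  · simp [D.act_zero]
  · simp [D.bil_zero_left]

theorem cen_inv (z : Z) : (⟨1, 0, z⟩ : D.G)⁻¹ = ⟨1, 0, -z⟩ := by
  ext
  · simp
  · simp [D.act_zero]
  · simp [D.bil_zero_left]

theorem cen_pow (z : Z) (n : ℕ) : (⟨1, 0, z⟩ : D.G) ^ n = ⟨1, 0, n • z⟩ := by
  induction n with
  | zero => simp only [pow_zero, zero_smul]; rfl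
  | succ n ih => rw [pow_succ, ih, cen_mul, succ_nsmul]

theorem eq_cen {g : D.G} (h1 : g.u = 1) (h2 : g.x = 0) : g = ⟨1, 0, g.z⟩ := by
  ext
  · exact h1
  · exact h2
  · rfl

end KD

section fails

open OO

/-- `q = p + 1` -/
noncomputable def qq : ℚ := (p : ℚ) + 1

theorem qq_pos : 0 < qq p := by unfold qq; positivity

theorem qq_one_lt : 1 < qq p := by
  unfold qq
  have : (0 : ℚ) < p := by exact_mod_cast hp.out.pos
  linarith

/-- the polynomial of `t` -/
noncomputable def pt : ℚ[X] := 1 + X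

/-- the polynomial of `s` -/
noncomputable def ps : ℚ[X] := C (qq p)⁻¹ * (C (qq p ^ 2 + qq p + 1) - C (qq p ^ 2 + qq p + 1) * pt
  + C (qq p) * pt ^ 2)

theorem pt_0 : pt.eval 0 = 1 := by simp [pt]
theorem pt_a : pt.eval (p : ℚ) = qq p := by simp [pt, qq, add_comm]
theorem pt_b : pt.eval (thb p) = (qq p)⁻¹ := by simp [pt, qq, thb]

theorem ps_0 : (ps p).eval 0 = 1 := by
  have := (qq_pos p).ne'
  simp only [ps, eval_mul, eval_add, eval_sub, eval_C, eval_pow, pt_0]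
  field_simp
  ring

theorem ps_a : (ps p).eval (p : ℚ) = (qq p)⁻¹ := by
  have := (qq_pos p).ne'
  simp only [ps, eval_mul, eval_add, eval_sub, eval_C, eval_pow, pt_a]
  field_simp
  ring

theorem ps_b : (ps p).eval (thb p) = qq p := by
  have := (qq_pos p).ne'
  simp only [ps, eval_mul, eval_add, eval_sub, eval_C, eval_pow, pt_b]
  field_simp
  ring

theorem pt_mem : pt ∈ MM (p : ℚ) (thb p) := by
  refine ⟨?_, ?_, ?_⟩
  · rw [pt_0]; exact one_ne_zero
  · rw [pt_a]; exact (qq_pos p).ne'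
  · rw [pt_b]; exact inv_ne_zero (qq_pos p).ne'

theorem ps_mem : ps p ∈ MM (p : ℚ) (thb p) := by
  refine ⟨?_, ?_, ?_⟩
  · rw [ps_0]; exact one_ne_zero
  · rw [ps_a]; exact inv_ne_zero (qq_pos p).ne'
  · rw [ps_b]; exact (qq_pos p).ne'

theorem qq_padic : padicNorm p (qq p - 1) < 1 := by
  have : qq p - 1 = p := by unfold qq; ring
  rw [this]
  exact padicNorm.padicNorm_p_lt_one_of_prime

/-- the unit `t` -/
noncomputable def ut : TT p := ⟨(isUnit_ι (pt_mem p)).unit, by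
  have h : ((isUnit_ι (pt_mem p)).unit : Op p) = ι pt := IsUnit.unit_spec _
  refine ⟨?_, ?_, ?_, ?_⟩
  · rw [h, ev0_ι, pt_0]
  · rw [h, ev1_ι, ev2_ι, pt_a, pt_b]; exact mul_inv_cancel₀ (qq_pos p).ne'
  · rw [h, ev1_ι, pt_a]; exact qq_pos p
  · rw [h, ev1_ι, pt_a]; exact qq_padic p⟩

/-- the unit `s` -/
noncomputable def us : TT p := ⟨(isUnit_ι (ps_mem p)).unit, by
  have h : ((isUnit_ι (ps_mem p)).unit : Op p) = ι (ps p) := IsUnit.unit_spec _
  refine ⟨?_, ?_, ?_, ?_⟩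
  · rw [h, ev0_ι, ps_0]
  · rw [h, ev1_ι, ev2_ι, ps_a, ps_b]; exact inv_mul_cancel₀ (qq_pos p).ne'
  · rw [h, ev1_ι, ps_a]; exact inv_pos.mpr (qq_pos p)
  · rw [h, ev1_ι, ps_a]; exact padic_inv_one (qq_padic p)⟩

theorem ut_val : (((ut p : TT p) : (Op p)ˣ) : Op p) = ι pt := IsUnit.unit_spec _
theorem us_val : (((us p : TT p) : (Op p)ˣ) : Op p) = ι (ps p) := IsUnit.unit_spec _

/-- the assignment -/
noncomputable def vG : ℕ → (DG p).G
  | 0 => ⟨1, 1, 0⟩
  | 1 => ⟨ut p, 0, 0⟩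
  | 2 => ⟨us p, 0, 0⟩
  | _ + 3 => 1

theorem lift_wa : FreeGroup.lift (vG p) wa = ⟨1, 1, 0⟩ := by simp [wa, vG]
theorem lift_wt : FreeGroup.lift (vG p) wt = ⟨ut p, 0, 0⟩ := by simp [wt, vG]
theorem lift_ws : FreeGroup.lift (vG p) ws = ⟨us p, 0, 0⟩ := by simp [ws, vG]

theorem DG_act (u : TT p) (x : Op p) : (DG p).act u x = ((u : (Op p)ˣ) : Op p) * x := rfl
theorem DG_bil (x y : Op p) : (DG p).bil x y = ev1 x * ev2 y := rfl

theorem lift_wat (j : ℕ) : FreeGroup.lift (vG p) (wat j) = ⟨1, (ι (pt ^ j) : Op p), 0⟩ := by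
  unfold wat
  rw [map_mul, map_mul, map_inv, map_pow, lift_wa, lift_wt, KD.pow_diag, KD.conj_eq, DG_act]
  simp [ut_val]

theorem lift_cw (a b : FreeGroup ℕ) : FreeGroup.lift (vG p) (cw a b) =
    FreeGroup.lift (vG p) a * FreeGroup.lift (vG p) b * (FreeGroup.lift (vG p) a)⁻¹ *
      (FreeGroup.lift (vG p) b)⁻¹ := by
  unfold cw
  rw [map_mul, map_mul, map_mul, map_inv, map_inv]

theorem lift_comm (j : ℕ) : FreeGroup.lift (vG p) (cw wa (wat j)) =
    ⟨1, 0, (qq p)⁻¹ ^ j - qq p ^ j⟩ := by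
  rw [lift_cw, lift_wa, lift_wat, KD.comm_eq, DG_bil, DG_bil]
  simp [pt_a, pt_b]

/-- the value of the main word -/
noncomputable def zval : ℚ := (qq p)⁻¹ ^ 2 - qq p ^ 2 - 2 * ((qq p)⁻¹ - qq p)

theorem zval_neg : zval p < 0 := by
  have h1 := qq_one_lt p
  have h2 := qq_pos p
  have h3 : (qq p)⁻¹ < 1 := inv_lt_one_of_one_lt₀ h1
  have h4 : 0 < (qq p)⁻¹ := inv_pos.mpr h2
  have e : zval p = ((qq p)⁻¹ - qq p) * ((qq p)⁻¹ + qq p - 2) := by unfold zval; ring
  rw [e]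
  apply mul_neg_of_neg_of_pos
  · linarith
  · have h5 : (qq p)⁻¹ * qq p = 1 := inv_mul_cancel₀ h2.ne'
    nlinarith [mul_pos h4 (mul_pos (sub_pos.mpr h1) (sub_pos.mpr h1))]

theorem lift_w0 : FreeGroup.lift (vG p) w0 = ⟨1, 0, zval p⟩ := by
  unfold w0
  rw [map_mul, map_pow, map_inv, lift_comm, lift_comm, KD.cen_inv, KD.cen_pow, KD.cen_mul]
  unfold zval
  congr 1
  simp only [nsmul_eq_mul]
  push_cast
  ring

theorem r_cen (r : FreeGroup ℕ) (hr : r ∈ rels (p + 1)) :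
    (FreeGroup.lift (vG p) r).u = 1 ∧ (FreeGroup.lift (vG p) r).x = 0 := by
  simp only [rels, Finset.mem_insert, Finset.mem_singleton] at hr
  rcases hr with rfl | rfl | rfl | rfl
  · unfold r1
    rw [lift_cw, lift_wt, lift_ws]
    constructor
    · simp
    · simp [(DG p).act_zero]
  · unfold r2
    simp only [map_mul, map_inv, map_pow, lift_wa, lift_ws, lift_wat]
    constructor
    · simp [KD.pow_u]
    · have h := (qq_pos p).ne'
      simp only [KD.mul_x, KD.mul_u, KD.inv_x, KD.inv_u, KD.pow_u, KD.pow_x, mul_one, one_pow,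
        inv_one, one_mul, (DG p).act_one, (DG p).act_zero, neg_zero, add_zero, zero_add,
        (DG p).act_neg, (DG p).act_add, mul_inv_cancel, DG_act, us_val]
      have e : (ι (ps p) : Op p) * ((p + 1) • (1 : Op p)) =
          ι (C (qq p) * ps p) := by
        rw [map_mul, nsmul_eq_mul, mul_one, mul_comm]
        congr 1
        unfold qq
        push_cast
        simp
      have e2 : C (qq p) * ps p = C (qq p ^ 2 + qq p + 1) - C (qq p ^ 2 + qq p + 1) * pt
          + C (qq p) * pt ^ 2 := by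
        unfold ps
        rw [← mul_assoc, ← C_mul, mul_inv_cancel₀ h, C_1, one_mul]
      rw [e, e2]
      unfold qq
      simp only [nsmul_eq_mul, map_add, map_sub, map_mul, map_pow]
      push_cast
      simp
      ring
  · unfold r3
    rw [lift_comm]
    exact ⟨rfl, rfl⟩
  · unfold r4
    rw [lift_comm]
    exact ⟨rfl, rfl⟩

/-- The identity fails in `G_p`. -/
theorem DG_fails : ∃ (N : ℕ) (v : ℕ → (DG p).G), ∀ w ∈ idn (p + 1) N, FreeGroup.lift v w < 1 := by
  classical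
  let c : FreeGroup ℕ → ℚ := fun r => |(FreeGroup.lift (vG p) r).z|
  let M : ℚ := ∑ r ∈ rels (p + 1), c r
  obtain ⟨N, hN⟩ := exists_nat_gt (M / (-zval p))
  have hz := zval_neg p
  have hN' : M + N * zval p < 0 := by
    rw [div_lt_iff₀ (by linarith)] at hN
    linarith
  have hc : ∀ r ∈ rels (p + 1), c r ≤ M := fun r hr =>
    Finset.single_le_sum (f := c) (fun i _ => abs_nonneg _) hr
  refine ⟨N, vG p, ?_⟩
  have hlt : ∀ z : ℚ, z < 0 → (⟨1, 0, z⟩ : (DG p).G) < 1 := by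
    intro z hz
    rw [KD.lt_iff]
    right
    exact ⟨rfl, Or.inr ⟨rfl, hz⟩⟩
  intro w hw
  simp only [idn, Finset.mem_insert, Finset.mem_union, Finset.mem_image] at hw
  rcases hw with rfl | ⟨r, hr, rfl⟩ | ⟨r, hr, rfl⟩
  · rw [lift_w0]; exact hlt _ hz
  · rw [map_mul, map_pow, lift_w0, KD.eq_cen (r_cen p r hr).1 (r_cen p r hr).2, KD.cen_pow,
      KD.cen_mul]
    apply hlt
    have h1 := hc r hr
    have h2 : (FreeGroup.lift (vG p) r).z ≤ c r := le_abs_self _
    rw [nsmul_eq_mul]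
    linarith
  · rw [map_mul, map_pow, map_inv, lift_w0, KD.eq_cen (r_cen p r hr).1 (r_cen p r hr).2,
      KD.cen_pow, KD.cen_inv, KD.cen_mul]
    apply hlt
    have h1 := hc r hr
    have h2 : -(FreeGroup.lift (vG p) r).z ≤ c r := neg_le_abs _
    rw [nsmul_eq_mul]
    linarith

end fails

end Pool.Agent.Helper29
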