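import Pool.Agent.Helper29.NilPrime

/-!
Nilpotent ℓ-groups: all primes are normal and the Hölder maps are conjugation invariant.
-/

set_option autoImplicit false
set_option linter.unusedSectionVars false

namespace Pool.Agent.Helper29

variable {H : Type} [Group H] [Lattice H] [MulLeftMono H] [MulRightMono H]

/-- The Hölder map at a prime. -/
theorem exists_phi (law : NV H) {Q : Subgroup H} (hQ : IsPrm Q) {e : H} (he : e ∉ Q) :
    ∃ φ : H → ℝ, IsAdd (cv Q e) φ ∧ (∀ x ∈ cv Q e, φ (x ⊔ 1) = max (φ x) 0) ∧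
      ∀ x ∈ cv Q e, (φ x = 0 ↔ x ∈ vl Q e) := by
  obtain ⟨φ, h1, h2⟩ := exists_holder law hQ he
  have hadd : IsAdd (cv Q e) φ := ⟨h1⟩
  have hC : IsCvx (vl Q e) := vl_cvx hQ he
  have hD : IsCvx (cv Q e) := cv_cvx
  have hQC : Q ≤ vl Q e := le_vl hQ he
  have hz : ∀ x ∈ cv Q e, (φ x = 0 ↔ x ∈ vl Q e) := by
    intro x hx
    have h3 := h2 x hx
    have h4 := h2 x⁻¹ ((cv Q e).inv_mem hx)
    rw [hadd.inv hx, inv_inv] at h4
    constructor
    · intro h
      exact hC.mem_of_pos_neg (h4.mp (by rw [h]; simp)) (h3.mp (by rw [h]))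
    · intro h
      exact le_antisymm (by linarith [h4.mpr (hC.sup_one _ h)]) (h3.mpr (hC.neg_mem h))
  refine ⟨φ, hadd, ?_, hz⟩
  intro x hx
  have hx1 : x ⊔ 1 ∈ cv Q e := hD.sup_one _ hx
  have hx2 : x⁻¹ ⊔ 1 ∈ cv Q e := hD.neg_mem hx
  rcases hQ.prime x with h | h
  · have h3 : φ (x ⊔ 1) = 0 := (hz _ hx1).mpr (hQC h)
    have h4 : 0 ≤ φ x⁻¹ := (h2 _ ((cv Q e).inv_mem hx)).mpr (by rw [inv_inv]; exact hQC h)
    rw [hadd.inv hx] at h4
    rw [h3, max_eq_right (by linarith)]
  · have h3 : φ (x⁻¹ ⊔ 1) = 0 := (hz _ hx2).mpr (hQC h)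
    have h4 : φ x = φ (x ⊔ 1) := by
      conv_lhs => rw [← pos_mul_neg x]
      rw [hadd.mul _ hx1 _ ((cv Q e).inv_mem hx2), hadd.inv hx2, h3, neg_zero, add_zero]
    have h5 : 0 ≤ φ x := (h2 _ hx).mpr (hQC h)
    rw [← h4, max_eq_left h5]

theorem exists_max_cv {Q : Subgroup H} (hQ : IsPrm Q) (f : ℕ → H) (c : ℕ) :
    ∃ i0, i0 < c + 1 ∧ ∀ i < c + 1, f i ∈ cv Q (f i0) := by
  induction c with
  | zero =>
    refine ⟨0, by omega, fun i hi => ?_⟩
    have : i = 0 := by omega
    subst this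
    exact self_mem_cv
  | succ c ih =>
    obtain ⟨i0, h0, h1⟩ := ih
    rcases cvx_chain hQ (cv_cvx (Q := Q) (a := f i0)) (cv_cvx (Q := Q) (a := f (c + 1)))
      le_cv le_cv with h | h
    · refine ⟨c + 1, by omega, fun i hi => ?_⟩
      by_cases hic : i < c + 1
      · exact h (h1 i hic)
      · have : i = c + 1 := by omega
        subst this
        exact self_mem_cv
    · refine ⟨i0, by omega, fun i hi => ?_⟩
      by_cases hic : i < c + 1
      · exact h1 i hic
      · have : i = c + 1 := by omega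
        subst this
        exact h self_mem_cv

/-- In a nilpotent ℓ-group every prime is normal. -/
theorem prime_normal (hn : Group.IsNilpotent H) {Q : Subgroup H} (hQ : IsPrm Q) (x b : H)
    (hb : b ∈ Q) : x * b * x⁻¹ ∈ Q := by
  by_contra hcon
  have law := nil_nv hn
  obtain ⟨c, hc, -⟩ := exists_ad hn
  let f : ℕ → H := fun i => (ad x)^[i] b
  have hf : ∀ i, f (i + 1) = ad x (f i) := fun i => Function.iterate_succ_apply' _ _ _
  have hfc : ∀ i, c ≤ i → f i = 1 := by
    intro i hi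
    obtain ⟨m, rfl⟩ := Nat.exists_eq_add_of_le hi
    change (ad x)^[c + m] b = 1
    rw [Function.iterate_add_apply]
    exact hc x _
  obtain ⟨i0, hi0, hmax⟩ := exists_max_cv hQ f c
  -- all f i in D
  have hD : IsCvx (cv Q (f i0)) := cv_cvx
  have hfD : ∀ i, f i ∈ cv Q (f i0) := by
    intro i
    by_cases hi : i < c + 1
    · exact hmax i hi
    · rw [hfc i (by omega)]; exact (cv Q (f i0)).one_mem
  have he : f i0 ∉ Q := by
    intro h
    have h1 : cv Q (f i0) ≤ Q := cv_le_of hQ.toIsCvx le_rfl h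
    apply hcon
    have h2 : f 1 ∈ Q := h1 (hfD 1)
    have h3 : f 1 = x * b * x⁻¹ * b⁻¹ := rfl
    rw [h3] at h2
    have := Q.mul_mem h2 hb
    rwa [inv_mul_cancel_right] at this
  have hconj : ∀ j i, c ≤ i + j → ∀ n : ℤ, cjz x (f i) n ∈ cv Q (f i0) := by
    intro j
    induction j with
    | zero =>
      intro i hi n
      rw [hfc i hi, cjz_one]; exact (cv Q (f i0)).one_mem
    | succ j ih =>
      intro i hi n
      have h1 := ih (i + 1) (by omega)
      have h2 : ∀ n, cjz x (f i) (n + 1) = cjz x (f (i + 1)) n * cjz x (f i) n := by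
        intro n
        rw [hf, cjz_ad, inv_mul_cancel_right]
      induction n using Int.induction_on with
      | zero => rw [cjz_zero]; exact hfD i
      | succ k ihk => rw [h2]; exact (cv Q (f i0)).mul_mem (h1 _) ihk
      | pred k ihk =>
        have h3 := h2 (-(k : ℤ) - 1)
        rw [sub_add_cancel] at h3
        have h4 : cjz x (f i) (-(k : ℤ) - 1) =
          (cjz x (f (i + 1)) (-(k : ℤ) - 1))⁻¹ * cjz x (f i) (-(k : ℤ)) := by
          rw [h3, inv_mul_cancel_left]
        rw [h4]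
        exact (cv Q (f i0)).mul_mem ((cv Q (f i0)).inv_mem (h1 _)) ihk
  have hconj' : ∀ i n, cjz x (f i) n ∈ cv Q (f i0) := fun i n => hconj c i (by omega) n
  obtain ⟨φ, hadd, hsup, hz⟩ := exists_phi law hQ he
  have h0 : ∀ i, φ (f i) = 0 := by
    intro i
    cases i with
    | zero =>
      exact (hz _ (hfD 0)).mpr (le_vl hQ he hb)
    | succ i =>
      have h1 := conj_const hD hadd hsup (hc x) c (f i) (hconj' i) (by
        rw [← sq_ad_iter hadd c (f i) (hconj' i), hc]
        funext n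
        unfold sq
        rw [cjz_one, hadd.one]; rfl)
      have h2 := congrFun h1 0
      rw [← sq_ad hadd (hconj' i)] at h2
      unfold sq at h2
      rw [cjz_zero, ← hf] at h2
      exact h2
  exact not_mem_vl hQ he ((hz _ (hfD i0)).mp (h0 i0))

/-- Conjugation invariance of the Hölder maps. -/
theorem phi_conj (hn : Group.IsNilpotent H) {Q : Subgroup H} (hQ : IsPrm Q) {e : H} (_he : e ∉ Q)
    {φ : H → ℝ} (hadd : IsAdd (cv Q e) φ) (hsup : ∀ x ∈ cv Q e, φ (x ⊔ 1) = max (φ x) 0)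
    (x a : H) (ha : a ∈ cv Q e) : φ (x * a * x⁻¹) = φ a := by
  obtain ⟨c, hc, -⟩ := exists_ad hn
  have hDp : IsPrm (cv Q e) := prm_of_le hQ cv_cvx le_cv
  have hall : ∀ n, cjz x a n ∈ cv Q e := fun n => prime_normal hn hDp _ _ ha
  have h1 := conj_const cv_cvx hadd hsup (hc x) c a hall (by
    rw [← sq_ad_iter hadd c a hall, hc]
    funext n
    unfold sq
    rw [cjz_one, hadd.one]; rfl)
  have h2 := congrFun h1 0
  unfold dd sq at h2
  rw [zero_add, cjz_zero] at h2
  have h3 : cjz x a 1 = x * a * x⁻¹ := by unfold cjz; rw [zpow_one]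
  rw [h3] at h2
  exact sub_eq_zero.mp h2

end Pool.Agent.Helper29
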