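import Pool.Agent.Helper29.NilOm
import Pool.Agent.Helper29.NilPrime2
import Pool.Agent.Helper29.NilG

/-!
The identity holds in all nilpotent ℓ-groups.
-/

set_option autoImplicit false
set_option linter.unusedSectionVars false

namespace Pool.Agent.Helper29

variable {H : Type} [Group H] [Lattice H] [MulLeftMono H] [MulRightMono H]

/-- uniqueness of roots modulo a normal prime -/
theorem root_aux {D : Subgroup H} (hD : IsPrm D) (hnorm : ∀ g, ∀ a ∈ D, g * a * g⁻¹ ∈ D)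
    {x y : H} {n : ℕ} (hn : n ≠ 0) (h : (x ^ n)⁻¹ * y ^ n ∈ D) : x⁻¹ * y ∈ D := by
  have hr : ∀ a b g : H, leQ D a b → leQ D (a * g) (b * g) := by
    intro a b g hab
    have h1 := hnorm g⁻¹ _ hab
    rw [inv_inv, conj_sup] at h1
    unfold leQ
    have e1 : g⁻¹ * (b⁻¹ * a) * g = (b * g)⁻¹ * (a * g) := by group
    have e2 : g⁻¹ * 1 * g = 1 := by group
    rwa [e1, e2] at h1
  have key : ∀ x y : H, leQ D x y → (x ^ n)⁻¹ * y ^ n ∈ D → leQ D y x := by
    intro x y hxy h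
    have hpow : ∀ k : ℕ, leQ D (x ^ k) (y ^ k) := by
      intro k
      induction k with
      | zero => rw [pow_zero, pow_zero]; exact leQ_refl hD.toIsCvx 1
      | succ k ih =>
        rw [pow_succ', pow_succ']
        exact leQ_trans hD.toIsCvx ((leQ_mul_left _ _ _).mpr ih) (hr _ _ _ hxy)
    obtain ⟨k, rfl⟩ := Nat.exists_eq_succ_of_ne_zero hn
    have h1 : leQ D (y ^ (k + 1)) (x ^ (k + 1)) := leQ_of_mem' hD.toIsCvx h
    have h2 : leQ D (x * x ^ k) (x * y ^ k) := (leQ_mul_left _ _ _).mpr (hpow k)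
    rw [pow_succ', pow_succ'] at h1
    have h3 := hr _ _ (y ^ k)⁻¹ (leQ_trans hD.toIsCvx h1 h2)
    rwa [mul_inv_cancel_right, mul_inv_cancel_right] at h3
  rcases leQ_total hD x y with h1 | h1
  · exact leQ_antisymm hD.toIsCvx h1 (key x y h1 h)
  · have h2 : (y ^ n)⁻¹ * x ^ n ∈ D := by
      have := D.inv_mem h
      rwa [mul_inv_rev, inv_inv] at this
    exact leQ_antisymm hD.toIsCvx (key y x h1 h2) h1

theorem lift_mul_words (v : ℕ → H) (j : ℕ) : FreeGroup.lift v (wat j) =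
    AA (v 1) (v 0) (j : ℤ) := by
  unfold wat AA wt wa
  simp

theorem idn_valid (hn : Group.IsNilpotent H) {q : ℕ} (hq : 2 ≤ q) (N : ℕ)
    (hs : (idn q N).Nonempty) (v : ℕ → H) :
    (1 : H) ≤ (idn q N).sup' hs (fun w => FreeGroup.lift v w) := by
  classical
  by_contra hcon
  obtain ⟨Q, hQ, hnQ⟩ := exists_prime_not_leQ hcon
  have law := nil_nv hn
  have hw1 : ∀ w ∈ idn q N, (FreeGroup.lift v w)⁻¹ ⊔ 1 ∉ Q := by
    intro w hw h
    apply hnQ
    have h1 : leQ Q 1 (FreeGroup.lift v w) := by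
      unfold leQ; rw [mul_one]; exact h
    exact leQ_trans hQ.toIsCvx h1 (leQ_of_le hQ.toIsCvx
      (Finset.le_sup' (fun w => FreeGroup.lift v w) hw))
  have hw2 : ∀ w ∈ idn q N, FreeGroup.lift v w ⊔ 1 ∈ Q := by
    intro w hw
    rcases hQ.prime (FreeGroup.lift v w) with h | h
    · exact h
    · exact absurd h (hw1 w hw)
  let e : H := (idn q N).sup' hs (fun w => (FreeGroup.lift v w)⁻¹ ⊔ 1)
  have hle : ∀ w ∈ idn q N, (FreeGroup.lift v w)⁻¹ ⊔ 1 ≤ e := fun w hw =>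
    Finset.le_sup' (fun w => (FreeGroup.lift v w)⁻¹ ⊔ 1) hw
  have hw0 : w0 ∈ idn q N := Finset.mem_insert_self _ _
  have he : e ∉ Q := fun h => hw1 w0 hw0 (hQ.conv _ h _ le_sup_right (hle w0 hw0))
  set D := cv Q e with hDdef
  have hDc : IsCvx D := cv_cvx
  have hDp : IsPrm D := prm_of_le hQ hDc le_cv
  have hDn : ∀ g, ∀ a ∈ D, g * a * g⁻¹ ∈ D := fun g a ha => prime_normal hn hDp g a ha
  have hDnormal : D.Normal := ⟨fun a ha g => hDn g a ha⟩
  obtain ⟨φ, hadd, hsup, hz⟩ := exists_phi law hQ he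
  have hconj : ∀ x, ∀ a ∈ D, φ (x * a * x⁻¹) = φ a := fun x a ha =>
    phi_conj hn hQ he hadd hsup x a ha
  have hwD : ∀ w ∈ idn q N, FreeGroup.lift v w ∈ D := by
    intro w hw
    apply hDc.mem_of_pos_neg
    · exact le_cv (hw2 w hw)
    · exact hDc.conv _ self_mem_cv _ le_sup_right (hle w hw)
  have hwle : ∀ w ∈ idn q N, φ (FreeGroup.lift v w) ≤ 0 := by
    intro w hw
    have h1 := hsup _ (hwD w hw)
    have h2 : φ (FreeGroup.lift v w ⊔ 1) = 0 :=
      (hz _ (hDc.sup_one _ (hwD w hw))).mpr (le_vl hQ he (hw2 w hw))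
    rw [h2] at h1
    have := le_max_left (φ (FreeGroup.lift v w)) 0
    linarith
  have hwex : ¬ ∀ w ∈ idn q N, φ (FreeGroup.lift v w) = 0 := by
    intro hall
    have h1 : e ∈ vl Q e := by
      refine Finset.sup'_induction hs _ (p := fun z => z ∈ vl Q e) ?_ ?_
      · intro a ha b hb
        exact (vl_cvx hQ he).sup_mem ha hb
      · intro w hw
        exact (vl_cvx hQ he).neg_mem ((hz _ (hwD w hw)).mp (hall w hw))
    exact not_mem_vl hQ he h1
  -- relators lie in D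
  have hW0 := hwD w0 hw0
  have hW0le := hwle w0 hw0
  have hmem1 : ∀ r ∈ rels q, w0 ^ N * r ∈ idn q N := fun r hr =>
    Finset.mem_insert_of_mem (Finset.mem_union_left _ (Finset.mem_image_of_mem _ hr))
  have hmem2 : ∀ r ∈ rels q, w0 ^ N * r⁻¹ ∈ idn q N := fun r hr =>
    Finset.mem_insert_of_mem (Finset.mem_union_right _
      (Finset.mem_image.mpr ⟨r, hr, rfl⟩))
  have hrD : ∀ r ∈ rels q, FreeGroup.lift v r ∈ D := by
    intro r hr
    have h1 := hwD _ (hmem1 r hr)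
    rw [map_mul, map_pow] at h1
    have h2 := D.mul_mem (D.inv_mem (D.pow_mem hW0 N)) h1
    rwa [inv_mul_cancel_left] at h2
  have hW0lt : φ (FreeGroup.lift v w0) ≠ 0 := by
    intro h0
    apply hwex
    have hr0 : ∀ r ∈ rels q, φ (FreeGroup.lift v r) = 0 := by
      intro r hr
      have h1 := hwle _ (hmem1 r hr)
      have h2 := hwle _ (hmem2 r hr)
      rw [map_mul, map_pow, hadd.mul _ (D.pow_mem hW0 N) _ (hrD r hr), hadd.pow hW0, h0] at h1
      rw [map_mul, map_pow, map_inv, hadd.mul _ (D.pow_mem hW0 N) _ (D.inv_mem (hrD r hr)),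
        hadd.pow hW0, h0, hadd.inv (hrD r hr)] at h2
      simp only [mul_zero, zero_add] at h1 h2
      linarith
    intro w hw
    simp only [idn, Finset.mem_insert, Finset.mem_union, Finset.mem_image] at hw
    rcases hw with rfl | ⟨r, hr, rfl⟩ | ⟨r, hr, rfl⟩
    · exact h0
    · rw [map_mul, map_pow, hadd.mul _ (D.pow_mem hW0 N) _ (hrD r hr), hadd.pow hW0, h0,
        hr0 r hr]
      simp
    · rw [map_mul, map_pow, map_inv, hadd.mul _ (D.pow_mem hW0 N) _ (D.inv_mem (hrD r hr)),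
        hadd.pow hW0, h0, hadd.inv (hrD r hr), hr0 r hr]
      simp
  -- algebra
  obtain ⟨c, hc, -⟩ := exists_ad hn
  have g1 : FreeGroup.lift v r1 = v 1 * v 2 * (v 1)⁻¹ * (v 2)⁻¹ := by
    simp [r1, cw, wt, ws]
  have A1 : FreeGroup.lift v (wat 1) = AA (v 1) (v 0) 1 := lift_mul_words v 1
  have A2 : FreeGroup.lift v (wat 2) = AA (v 1) (v 0) 2 := lift_mul_words v 2
  have ga : FreeGroup.lift v wa = v 0 := by simp [wa]
  have gs : FreeGroup.lift v ws = v 2 := by simp [ws]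
  have g2 : FreeGroup.lift v (r2 q) = v 2 * v 0 ^ q * (v 2)⁻¹ *
      (Fw q (v 0) (AA (v 1) (v 0) 1) (AA (v 1) (v 0) 2))⁻¹ := by
    unfold r2 Fw
    simp only [map_mul, map_inv, map_pow, A1, A2, ga, gs]
  have g3 : FreeGroup.lift v r3 = v 0 * AA (v 1) (v 0) 1 * (v 0)⁻¹ * (AA (v 1) (v 0) 1)⁻¹ := by
    unfold r3 cw
    simp only [map_mul, map_inv, A1, ga]
  have g4 : FreeGroup.lift v r4 = v 0 * AA (v 1) (v 0) 2 * (v 0)⁻¹ * (AA (v 1) (v 0) 2)⁻¹ := by
    unfold r4 cw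
    simp only [map_mul, map_inv, A2, ga]
  have m1 := hrD r1 (by simp [rels])
  have m2 := hrD (r2 q) (by simp [rels])
  have m3 := hrD r3 (by simp [rels])
  have m4 := hrD r4 (by simp [rels])
  have hroot : ∀ (x y : H ⧸ D) (n : ℕ), n ≠ 0 → x ^ n = y ^ n → x = y := by
    intro x y n hn0
    refine QuotientGroup.induction_on x (fun x => ?_)
    refine QuotientGroup.induction_on y (fun y => ?_)
    intro h
    rw [← QuotientGroup.mk_pow, ← QuotientGroup.mk_pow, QuotientGroup.eq] at h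
    rw [QuotientGroup.eq]
    exact root_aux hDp hDn hn0 h
  have hfin := om_main (D := D) (φ := φ) hadd hconj hroot hc (a := v 0) (t := v 1) (s := v 2) hq
    (g1 ▸ m1) (g2 ▸ m2) (g3 ▸ m3) (g4 ▸ m4)
  apply hW0lt
  have g0 : FreeGroup.lift v w0 = FreeGroup.lift v r4 * (FreeGroup.lift v r3)⁻¹ ^ 2 := by
    unfold w0 r4 r3
    rw [map_mul, map_pow, map_inv]
  rw [g0, hadd.mul _ m4 _ (D.pow_mem (D.inv_mem m3) 2), hadd.pow (D.inv_mem m3), hadd.inv m3,
    g4, g3]
  unfold om at hfin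
  rw [hfin]
  push_cast
  ring

end Pool.Agent.Helper29
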