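import Mathlib

/-!
Groups on `U × X × Z` (semidirect product of a class two group by an abelian group),
their lexicographic order and their nilpotency.
-/

set_option autoImplicit false
set_option linter.unusedSectionVars false

namespace Pool.Agent.Helper29

/-- Data for the groups on `U × X × Z`. -/
structure KD (U X Z : Type) [CommGroup U] [AddCommGroup X] [AddCommGroup Z] where
  /-- the action -/
  act : U → X → X
  act_one : ∀ x, act 1 x = x
  act_mul : ∀ u v x, act (u * v) x = act u (act v x)
  act_add : ∀ u x y, act u (x + y) = act u x + act u y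
  /-- the biadditive map -/
  bil : X → X → Z
  bil_add_left : ∀ x y z, bil (x + y) z = bil x z + bil y z
  bil_add_right : ∀ x y z, bil x (y + z) = bil x y + bil x z
  bil_act : ∀ u x y, bil (act u x) (act u y) = bil x y

namespace KD

variable {U X Z : Type} [CommGroup U] [AddCommGroup X] [AddCommGroup Z]

/-- The underlying set of the group. -/
@[ext] structure G (D : KD U X Z) where
  /-- first component -/
  u : U
  /-- second component -/
  x : X
  /-- third component -/
  z : Z

variable (D : KD U X Z)

theorem act_zero (u : U) : D.act u 0 = 0 := by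
  have := D.act_add u 0 0
  rw [add_zero] at this
  exact left_eq_add.mp this

theorem act_neg (u : U) (x : X) : D.act u (-x) = -D.act u x := by
  have := D.act_add u x (-x)
  rw [add_neg_cancel, D.act_zero] at this
  exact (neg_eq_of_add_eq_zero_right this.symm).symm

theorem act_sub (u : U) (x y : X) : D.act u (x - y) = D.act u x - D.act u y := by
  rw [sub_eq_add_neg, D.act_add, D.act_neg, sub_eq_add_neg]

theorem bil_zero_left (x : X) : D.bil 0 x = 0 := by
  have := D.bil_add_left 0 0 x
  rw [add_zero] at this
  exact left_eq_add.mp this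

theorem bil_zero_right (x : X) : D.bil x 0 = 0 := by
  have := D.bil_add_right x 0 0
  rw [add_zero] at this
  exact left_eq_add.mp this

theorem bil_neg_left (x y : X) : D.bil (-x) y = -D.bil x y := by
  have := D.bil_add_left x (-x) y
  rw [add_neg_cancel, D.bil_zero_left] at this
  exact (neg_eq_of_add_eq_zero_right this.symm).symm

theorem bil_neg_right (x y : X) : D.bil x (-y) = -D.bil x y := by
  have := D.bil_add_right x y (-y)
  rw [add_neg_cancel, D.bil_zero_right] at this
  exact (neg_eq_of_add_eq_zero_right this.symm).symm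

theorem act_act_inv (u : U) (x : X) : D.act u (D.act u⁻¹ x) = x := by
  rw [← D.act_mul, mul_inv_cancel, D.act_one]

theorem act_inv_act (u : U) (x : X) : D.act u⁻¹ (D.act u x) = x := by
  rw [← D.act_mul, inv_mul_cancel, D.act_one]

variable {D}

instance : Mul D.G := ⟨fun a b => ⟨a.u * b.u, a.x + D.act a.u b.x,
  a.z + b.z + D.bil a.x (D.act a.u b.x)⟩⟩
instance : One D.G := ⟨⟨1, 0, 0⟩⟩
instance : Inv D.G := ⟨fun a => ⟨a.u⁻¹, -D.act a.u⁻¹ a.x, -a.z + D.bil a.x a.x⟩⟩

@[simp] theorem mul_u (a b : D.G) : (a * b).u = a.u * b.u := rfl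
@[simp] theorem mul_x (a b : D.G) : (a * b).x = a.x + D.act a.u b.x := rfl
@[simp] theorem mul_z (a b : D.G) :
    (a * b).z = a.z + b.z + D.bil a.x (D.act a.u b.x) := rfl
@[simp] theorem one_u : (1 : D.G).u = 1 := rfl
@[simp] theorem one_x : (1 : D.G).x = 0 := rfl
@[simp] theorem one_z : (1 : D.G).z = 0 := rfl
@[simp] theorem inv_u (a : D.G) : (a⁻¹).u = a.u⁻¹ := rfl
@[simp] theorem inv_x (a : D.G) : (a⁻¹).x = -D.act a.u⁻¹ a.x := rfl
@[simp] theorem inv_z (a : D.G) : (a⁻¹).z = -a.z + D.bil a.x a.x := rfl

instance instGroup : Group D.G :=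
  Group.ofLeftAxioms
    (by
      intro a b c
      ext
      · simp [mul_assoc]
      · simp [D.act_add, D.act_mul, add_assoc]
      · simp only [mul_z, mul_x, mul_u, D.act_add, D.act_mul, D.bil_add_left, D.bil_add_right,
          D.bil_act]
        abel)
    (by
      intro a
      ext
      · simp
      · simp [D.act_one]
      · simp [D.act_one, D.bil_zero_left])
    (by
      intro a
      ext
      · simp
      · simp
      · simp [D.bil_neg_left, D.bil_act])

/-! ### Functoriality -/

/-- Morphisms of data. -/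
structure Hom {U' X' Z' : Type} [CommGroup U'] [AddCommGroup X'] [AddCommGroup Z']
    (D : KD U X Z) (D' : KD U' X' Z') where
  /-- on the first component -/
  f : U →* U'
  /-- on the second component -/
  g : X →+ X'
  /-- on the third component -/
  h : Z →+ Z'
  hg : ∀ u x, g (D.act u x) = D'.act (f u) (g x)
  hh : ∀ x y, h (D.bil x y) = D'.bil (g x) (g y)

/-- The group homomorphism of a morphism of data. -/
def Hom.map {U' X' Z' : Type} [CommGroup U'] [AddCommGroup X'] [AddCommGroup Z']
    {D : KD U X Z} {D' : KD U' X' Z'} (φ : Hom D D') : D.G →* D'.G where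
  toFun a := ⟨φ.f a.u, φ.g a.x, φ.h a.z⟩
  map_one' := by ext <;> simp
  map_mul' a b := by
    ext
    · simp
    · simp [φ.hg]
    · simp [φ.hg, φ.hh]

/-! ### The order -/

section order

variable [LinearOrder U] [LinearOrder X] [LinearOrder Z]

/-- the lexicographic order -/
@[instance_reducible] def linearOrder (D : KD U X Z) : LinearOrder D.G :=
  LinearOrder.lift' (fun a : D.G => (toLex (a.u, toLex (a.x, a.z)) : U ×ₗ (X ×ₗ Z)))
    (by
      intro a b h
      simp only [toLex_inj, Prod.mk.injEq] at h
      exact KD.G.ext h.1 h.2.1 h.2.2)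

attribute [local instance] linearOrder

theorem lt_iff {a b : D.G} : a < b ↔
    a.u < b.u ∨ (a.u = b.u ∧ (a.x < b.x ∨ (a.x = b.x ∧ a.z < b.z))) := by
  change (toLex (a.u, toLex (a.x, a.z)) : U ×ₗ (X ×ₗ Z)) < toLex (b.u, toLex (b.x, b.z)) ↔ _
  simp only [Prod.Lex.toLex_lt_toLex]

variable [IsOrderedMonoid U] [IsOrderedAddMonoid X] [IsOrderedAddMonoid Z]

theorem mul_lt_left (hact : ∀ u x y, x < y → D.act u x < D.act u y) (c a b : D.G) (h : a < b) :
    c * a < c * b := by
  rw [lt_iff] at h ⊢
  rcases h with h | ⟨h, h' | ⟨h', h''⟩⟩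
  · left
    exact mul_lt_mul_right h c.u
  · right
    refine ⟨by simp [h], Or.inl ?_⟩
    simp only [mul_x]
    exact add_lt_add_right (hact _ _ _ h') c.x
  · right
    refine ⟨by simp [h], Or.inr ⟨by simp [h'], ?_⟩⟩
    simp only [mul_z, h']
    exact add_lt_add_left (add_lt_add_right h'' _) _

theorem mul_lt_right (c a b : D.G) (h : a < b) :
    a * c < b * c := by
  rw [lt_iff] at h ⊢
  rcases h with h | ⟨h, h' | ⟨h', h''⟩⟩
  · left
    exact mul_lt_mul_left h c.u
  · right
    refine ⟨by simp [h], Or.inl ?_⟩
    simp only [mul_x, h]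
    exact add_lt_add_left h' _
  · right
    refine ⟨by simp [h], Or.inr ⟨by simp [h, h'], ?_⟩⟩
    simp only [mul_z, h', h]
    exact add_lt_add_left (add_lt_add_left h'' _) _

theorem mulLeftMono (hact : ∀ u x y, x < y → D.act u x < D.act u y) : MulLeftMono D.G := by
  constructor
  intro c a b h
  rcases eq_or_lt_of_le h with h | h
  · rw [h]
  · exact (mul_lt_left hact c a b h).le

theorem mulRightMono : MulRightMono D.G := by
  constructor
  intro c a b h
  rcases eq_or_lt_of_le h with h | h
  · rw [h]
  · exact (mul_lt_right c a b h).le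

end order

/-! ### Nilpotency -/

open scoped commutatorElement in
theorem nilpotent (D : KD U X Z) (W : ℕ → AddSubgroup X) (h0 : W 0 = ⊤) (k : ℕ) (hk : W k = ⊥)
    (hact : ∀ j u x, x ∈ W j → D.act u x - x ∈ W (j + 1)) : Group.IsNilpotent D.G := by
  rw [Subgroup.nilpotent_iff_finite_descending_central_series]
  let H : ℕ → Subgroup D.G := fun n =>
    match n with
    | 0 => ⊤
    | j + 1 =>
      { carrier := {g | g.u = 1 ∧ g.x ∈ W j ∧ (k ≤ j → g.x = 0) ∧ (k + 1 ≤ j → g.z = 0)}
        mul_mem' := by
          rintro a b ⟨a1, a2, a3, a4⟩ ⟨b1, b2, b3, b4⟩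
          refine ⟨by simp [a1, b1], ?_, ?_, ?_⟩
          · simp only [mul_x, a1, D.act_one]; exact (W j).add_mem a2 b2
          · intro h; simp [a3 h, b3 h, D.act_zero]
          · intro h; simp [a3 (by omega), b3 (by omega), a4 h, b4 h, D.act_zero, D.bil_zero_left]
        one_mem' := ⟨rfl, (W j).zero_mem, fun _ => rfl, fun _ => rfl⟩
        inv_mem' := by
          rintro a ⟨a1, a2, a3, a4⟩
          refine ⟨by simp [a1], ?_, ?_, ?_⟩
          · simp only [inv_x, a1, inv_one, D.act_one]; exact (W j).neg_mem a2
          · intro h; simp [a3 h, D.act_zero]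
          · intro h; simp [a3 (by omega), a4 h, D.bil_zero_left] }
  refine ⟨k + 2, H, ⟨rfl, ?_⟩, ?_⟩
  · intro a n ha b
    have hu : (⁅a, b⁆ : D.G).u = 1 := by
      rw [commutatorElement_def]; simp
    cases n with
    | zero =>
      refine ⟨hu, ?_, ?_, ?_⟩
      · rw [h0]; exact AddSubgroup.mem_top _
      · intro (h : k ≤ 0)
        have hk0 : k = 0 := by omega
        subst hk0
        have : ∀ x : X, x ∈ W 0 := fun x => by rw [h0]; exact AddSubgroup.mem_top _
        rw [hk] at this
        exact this _
      · intro (h : k + 1 ≤ 0); omega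
    | succ j =>
      obtain ⟨a1, a2, a3, a4⟩ := ha
      have hx : (⁅a, b⁆ : D.G).x = -(D.act b.u a.x - a.x) := by
        simp only [commutatorElement_def, mul_x, mul_u, inv_x, inv_u, a1, one_mul, inv_one, D.act_one, D.act_neg,
          mul_one, D.act_act_inv]
        abel
      have hx0 : k ≤ j → (⁅a, b⁆ : D.G).z = 0 := by
        intro h
        simp only [commutatorElement_def, mul_z, mul_x, mul_u, inv_x, inv_u, inv_z, a1, a3 h, one_mul, inv_one, D.act_one,
          D.act_zero, D.act_neg, neg_zero, add_zero, zero_add, D.bil_zero_left, D.bil_zero_right,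
          mul_one, D.act_act_inv, D.bil_neg_right]
        abel
      refine ⟨hu, ?_, ?_, fun (h : k + 1 ≤ j + 1) => hx0 (by omega)⟩
      · rw [hx]; exact (W (j + 1)).neg_mem (hact j _ _ a2)
      · intro (h : k ≤ j + 1)
        rw [hx]
        by_cases hkj : k ≤ j
        · rw [a3 hkj, D.act_zero]; simp
        · have e : k = j + 1 := by omega
          have := hact j b.u a.x a2
          rw [← e, hk] at this
          rw [AddSubgroup.mem_bot.mp this, neg_zero]
  · rw [eq_bot_iff]
    rintro a ⟨a1, a2, a3, a4⟩
    rw [Subgroup.mem_bot]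
    ext
    · exact a1
    · exact a3 (by omega)
    · exact a4 (by omega)

end KD

end Pool.Agent.Helper29
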