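import Mathlib

/-!
Orders on abelian groups from filtrations, invariant under unipotent maps.
-/

set_option autoImplicit false
set_option linter.unusedSectionVars false

namespace Pool.Agent.Helper29

/-- A filtration with a cone at each level gives a total group order for which all maps
that respect the filtration unipotently are increasing. -/
theorem exists_order {X : Type} [AddCommGroup X] (W : ℕ → AddSubgroup X)
    (hanti : ∀ j, W (j + 1) ≤ W j)
    (hex : ∀ x, x ≠ 0 → ∃ j, x ∈ W j ∧ x ∉ W (j + 1))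
    (P : ℕ → Set X)
    (hPW : ∀ j, ∀ x ∈ P j, x ∈ W j)
    (hadd : ∀ j, ∀ x ∈ P j, ∀ y ∈ P j, x + y ∈ P j)
    (hshift : ∀ j, ∀ x ∈ P j, ∀ y ∈ W (j + 1), x + y ∈ P j)
    (hdisj : ∀ j, ∀ x ∈ P j, x ∉ W (j + 1))
    (htot : ∀ j, ∀ x ∈ W j, x ∉ W (j + 1) → x ∈ P j ∨ -x ∈ P j) :
    ∃ (_ : LinearOrder X), IsOrderedAddMonoid X ∧ (∀ x : X, 0 < x ↔ ∃ j, x ∈ P j) ∧
      ∀ f : X → X, (∀ x y, f (x - y) = f x - f y) → (∀ j, ∀ x ∈ W j, f x - x ∈ W (j + 1)) →
        ∀ x y, x < y → f x < f y := by
  classical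
  have hmono : ∀ i j, i ≤ j → W j ≤ W i := fun i j h => antitone_nat_of_succ_le hanti h
  -- the set of positive elements
  let Q : Set X := {x | ∃ j, x ∈ P j}
  have hQadd : ∀ x ∈ Q, ∀ y ∈ Q, x + y ∈ Q := by
    have key : ∀ i j x y, i ≤ j → x ∈ P i → y ∈ P j → x + y ∈ P i := by
      intro i j x y hij hx hy
      rcases eq_or_lt_of_le hij with h | h
      · subst h; exact hadd i x hx y hy
      · exact hshift i x hx y (hmono (i + 1) j h (hPW j y hy))
    rintro x ⟨i, hx⟩ y ⟨j, hy⟩
    rcases le_total i j with h | h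
    · exact ⟨i, key i j x y h hx hy⟩
    · exact ⟨j, by rw [add_comm]; exact key j i y x h hy hx⟩
  have hQ0 : (0 : X) ∉ Q := by
    rintro ⟨j, hj⟩
    exact hdisj j 0 hj (W (j + 1)).zero_mem
  have hQtot : ∀ x, x ≠ 0 → x ∈ Q ∨ -x ∈ Q := by
    intro x hx
    obtain ⟨j, h1, h2⟩ := hex x hx
    rcases htot j x h1 h2 with h | h
    · exact Or.inl ⟨j, h⟩
    · exact Or.inr ⟨j, h⟩
  let lo : LinearOrder X :=
    { le := fun x y => x = y ∨ y - x ∈ Q
      le_refl := fun x => Or.inl rfl
      le_trans := by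
        rintro x y z (rfl | h1) (rfl | h2)
        · exact Or.inl rfl
        · exact Or.inr h2
        · exact Or.inr h1
        · right
          have := hQadd _ h1 _ h2
          have e : y - x + (z - y) = z - x := by abel
          rwa [e] at this
      le_antisymm := by
        rintro x y (h | h1) (h' | h2)
        · exact h
        · exact h
        · exact h'.symm
        · exfalso
          have := hQadd _ h1 _ h2
          have e : y - x + (x - y) = 0 := by abel
          rw [e] at this
          exact hQ0 this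
      le_total := by
        intro x y
        by_cases h : x = y
        · exact Or.inl (Or.inl h)
        · rcases hQtot (y - x) (fun h' => h (sub_eq_zero.mp h').symm) with h1 | h1
          · exact Or.inl (Or.inr h1)
          · right; right
            have e : -(y - x) = x - y := by abel
            rwa [e] at h1
      toDecidableLE := Classical.decRel _ }
  have hlt : ∀ x y : X, x < y ↔ y - x ∈ Q := by
    intro x y
    constructor
    · intro h
      rcases h.le with h1 | h1
      · exact absurd h1 h.ne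
      · exact h1
    · intro h
      have h1 : x ≤ y := Or.inr h
      refine lt_of_le_of_ne h1 ?_
      rintro rfl
      rw [sub_self] at h
      exact hQ0 h
  refine ⟨lo, { add_le_add_left := ?_ }, ?_, ?_⟩
  · intro a b h c
    rcases h with h | h
    · left; rw [h]
    · right
      have e : b + c - (a + c) = b - a := by abel
      rw [e]; exact h
  · intro x
    rw [hlt, sub_zero]
    rfl
  · intro f hf hfW x y h
    rw [hlt] at h ⊢
    rw [← hf]
    obtain ⟨j, hj⟩ := h
    refine ⟨j, ?_⟩
    have e : f (y - x) = (y - x) + (f (y - x) - (y - x)) := by abel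
    rw [e]
    exact hshift j _ hj _ (hfW j _ (hPW j _ hj))

/-- The positive elements of a total order on a quotient vector space. -/
theorem exists_cone {X : Type} [AddCommGroup X] [Module ℚ X] (S : Submodule ℚ X) :
    ∃ P : Set X, (∀ x ∈ P, ∀ y ∈ P, x + y ∈ P) ∧ (∀ x ∈ P, ∀ y ∈ S, x + y ∈ P) ∧
      (∀ x ∈ P, x ∉ S) ∧ ∀ x, x ∉ S → x ∈ P ∨ -x ∈ P := by
  classical
  let b := Module.Basis.ofVectorSpace ℚ (X ⧸ S)
  let _ : LinearOrder (Module.Basis.ofVectorSpaceIndex ℚ (X ⧸ S)) :=
    linearOrderOfSTO WellOrderingRel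
  let ρ : X → Lex (Module.Basis.ofVectorSpaceIndex ℚ (X ⧸ S) →₀ ℚ) :=
    fun x => toLex (b.repr (S.mkQ x))
  have hadd : ∀ x y, ρ (x + y) = ρ x + ρ y := by
    intro x y
    simp only [ρ, map_add]
    rfl
  have hneg : ∀ x, ρ (-x) = -ρ x := by
    intro x
    simp only [ρ, map_neg]
    rfl
  have hzero : ∀ x, ρ x = 0 ↔ x ∈ S := by
    intro x
    have : ρ x = 0 ↔ b.repr (S.mkQ x) = 0 := Iff.rfl
    rw [this, LinearEquiv.map_eq_zero_iff]
    exact Submodule.Quotient.mk_eq_zero S
  refine ⟨{x | 0 < ρ x}, ?_, ?_, ?_, ?_⟩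
  · intro x hx y hy
    have hx' : 0 < ρ x := hx
    have hy' : 0 < ρ y := hy
    change 0 < ρ (x + y)
    rw [hadd]; exact add_pos hx' hy'
  · intro x hx y hy
    change 0 < ρ (x + y)
    rw [hadd, (hzero y).mpr hy, add_zero]; exact hx
  · intro x hx hxS
    have hx' : 0 < ρ x := hx
    rw [(hzero x).mpr hxS] at hx'
    exact lt_irrefl _ hx'
  · intro x hx
    rcases lt_trichotomy 0 (ρ x) with h | h | h
    · exact Or.inl h
    · exact absurd ((hzero x).mp h.symm) hx
    · right
      change 0 < ρ (-x)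
      rw [hneg]; exact neg_pos.mpr h

/-- Arbitrary finite filtrations of rational vector spaces. -/
theorem exists_order' {X : Type} [AddCommGroup X] [Module ℚ X] (W : ℕ → Submodule ℚ X)
    (hanti : ∀ j, W (j + 1) ≤ W j) (h0 : W 0 = ⊤) (k : ℕ) (hk : W k = ⊥) :
    ∃ (_ : LinearOrder X), IsOrderedAddMonoid X ∧
      ∀ f : X → X, (∀ x y, f (x - y) = f x - f y) → (∀ j, ∀ x ∈ W j, f x - x ∈ W (j + 1)) →
        ∀ x y, x < y → f x < f y := by
  classical
  choose P h1 h2 h3 h4 using fun j => exists_cone (W (j + 1))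
  obtain ⟨lo, ho, _, hf⟩ := exists_order (fun j => (W j).toAddSubgroup)
    (fun j x hx => hanti j hx) (by
      intro x hx
      by_contra hcon
      push Not at hcon
      have : ∀ j, x ∈ W j := by
        intro j
        induction j with
        | zero => rw [h0]; trivial
        | succ j ih => exact hcon j ih
      have h := this k
      rw [hk] at h
      exact hx ((Submodule.mem_bot ℚ).mp h)) (fun j => P j ∩ (W j : Set X))
    (fun j x hx => hx.2)
    (fun j x hx y hy => ⟨h1 j x hx.1 y hy.1, (W j).add_mem hx.2 hy.2⟩)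
    (fun j x hx y hy => ⟨h2 j x hx.1 y hy, (W j).add_mem hx.2 (hanti j hy)⟩)
    (fun j x hx => h3 j x hx.1)
    (fun j x hx hx' => by
      rcases h4 j x hx' with h | h
      · exact Or.inl ⟨h, hx⟩
      · exact Or.inr ⟨h, (W j).neg_mem hx⟩)
  exact ⟨lo, ho, hf⟩

end Pool.Agent.Helper29
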