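import Pool.Agent.Helper29.NilK
import Pool.Agent.Helper29.NilOrd

/-!
Nilpotent ordered groups from Noetherian domains in ordered fields.
-/

set_option autoImplicit false
set_option linter.unusedSectionVars false

namespace Pool.Agent.Helper29

/-- The data with `X = A × A`, action `(u b, u⁻¹ c)` and pairing `l (b c')`. -/
def HD {U A Z : Type} [CommGroup U] [CommRing A] [AddCommGroup Z] (χ : U →* Aˣ) (l : A →+ Z) :
    KD U (A × A) Z where
  act u x := ((χ u : A) * x.1, (((χ u)⁻¹ : Aˣ) : A) * x.2)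
  act_one x := by simp
  act_mul u v x := by
    ext
    · simp [mul_assoc]
    · simp only [map_mul, mul_inv, Units.val_mul]
      ring
  act_add u x y := by
    ext <;> simp [mul_add]
  bil x y := l (x.1 * y.2)
  bil_add_left x y z := by simp [add_mul]
  bil_add_right x y z := by simp [mul_add]
  bil_act u x y := by
    congr 1
    have : (χ u : A) * (((χ u)⁻¹ : Aˣ) : A) = 1 := (χ u).mul_inv
    calc (χ u : A) * x.1 * ((((χ u)⁻¹ : Aˣ) : A) * y.2)
        = ((χ u : A) * (((χ u)⁻¹ : Aˣ) : A)) * (x.1 * y.2) := by ring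
      _ = x.1 * y.2 := by rw [this, one_mul]

variable {R F : Type} [CommRing R] [Algebra ℚ R] [Field F] [LinearOrder F]
  [IsStrictOrderedRing F]

/-- positive units congruent to one -/
def posUnits (j : R →ₐ[ℚ] F) (I : Ideal R) : Subgroup Rˣ where
  carrier := {u | 0 < j (u : R) ∧ (u : R) - 1 ∈ I}
  mul_mem' := by
    rintro a b ⟨a1, a2⟩ ⟨b1, b2⟩
    refine ⟨?_, ?_⟩
    · rw [Units.val_mul, map_mul]; exact mul_pos a1 b1
    · have e : ((a * b : Rˣ) : R) - 1 = (a : R) * ((b : R) - 1) + ((a : R) - 1) := by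
        rw [Units.val_mul]; ring
      rw [e]
      exact I.add_mem (I.mul_mem_left _ b2) a2
  one_mem' := by
    refine ⟨by simp, by simp⟩
  inv_mem' := by
    rintro a ⟨a1, a2⟩
    have h1 : j (a : R) * j ((a⁻¹ : Rˣ) : R) = 1 := by
      rw [← map_mul, Units.mul_inv, map_one]
    refine ⟨?_, ?_⟩
    · by_contra hcon
      have h2 : j ((a⁻¹ : Rˣ) : R) ≤ 0 := not_lt.mp hcon
      have h3 : j (a : R) * j ((a⁻¹ : Rˣ) : R) ≤ 0 := mul_nonpos_of_nonneg_of_nonpos a1.le h2
      rw [h1] at h3
      exact absurd h3 (not_le.mpr one_pos)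
    · have e : ((a⁻¹ : Rˣ) : R) - 1 = -(((a⁻¹ : Rˣ) : R) * ((a : R) - 1)) := by
        rw [mul_sub, Units.inv_mul]; ring
      rw [e]
      exact I.neg_mem (I.mul_mem_left _ a2)

/-- Choice of a functional on a quotient by a power of an ideal. -/
theorem exists_functional [IsDomain R] [IsNoetherianRing R] (j : R →ₐ[ℚ] F) (I : Ideal R)
    (hI : I ≠ ⊤) (s : Finset R) : ∃ (k : ℕ) (ψ : (R ⧸ (I ^ k)) →ₗ[ℚ] F),
      ∀ z ∈ s, ψ (Ideal.Quotient.mk (I ^ k) z) = j z := by
  classical
  let S : Submodule ℚ R := Submodule.span ℚ (s : Set R)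
  have : FiniteDimensional ℚ S := FiniteDimensional.span_finset ℚ s
  let f : ℕ →o (Submodule ℚ S)ᵒᵈ :=
    { toFun := fun k => OrderDual.toDual (((I ^ k).restrictScalars ℚ).comap S.subtype)
      monotone' := by
        intro a b hab
        change (((I ^ b).restrictScalars ℚ).comap S.subtype) ≤
          (((I ^ a).restrictScalars ℚ).comap S.subtype)
        intro x hx
        exact Ideal.pow_le_pow_right hab hx }
  obtain ⟨k, hk⟩ := IsArtinian.monotone_stabilizes f
  have hk' : ∀ x : S, (x : R) ∈ I ^ k → x = 0 := by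
    intro x hx
    have h1 : ∀ m, (x : R) ∈ I ^ m := by
      intro m
      rcases le_total k m with h | h
      · have h2 := hk m h
        have h3 : x ∈ (((I ^ k).restrictScalars ℚ).comap S.subtype) := hx
        have h4 : (((I ^ k).restrictScalars ℚ).comap S.subtype) =
          (((I ^ m).restrictScalars ℚ).comap S.subtype) := h2
        rw [h4] at h3
        exact h3
      · exact Ideal.pow_le_pow_right h hx
    have h5 : (x : R) ∈ (⨅ i, I ^ i : Ideal R) := by
      rw [Submodule.mem_iInf]; exact h1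
    rw [Ideal.iInf_pow_eq_bot_of_isDomain I hI] at h5
    exact Subtype.ext (by simpa using h5)
  let g : S →ₗ[ℚ] (R ⧸ (I ^ k)) :=
    (Ideal.Quotient.mkₐ ℚ (I ^ k)).toLinearMap.comp S.subtype
  have hg : LinearMap.ker g = ⊥ := by
    rw [LinearMap.ker_eq_bot']
    intro x hx
    apply hk'
    exact Ideal.Quotient.eq_zero_iff_mem.mp hx
  obtain ⟨h, hh⟩ := g.exists_leftInverse_of_injective hg
  refine ⟨k, j.toLinearMap.comp (S.subtype.comp h), ?_⟩
  intro z hz
  have hzS : z ∈ S := Submodule.subset_span hz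
  have h1 : g ⟨z, hzS⟩ = Ideal.Quotient.mk (I ^ k) z := rfl
  rw [← h1]
  have h2 : h (g ⟨z, hzS⟩) = ⟨z, hzS⟩ := by
    have := congrArg (fun t => t ⟨z, hzS⟩) hh
    exact this
  simp only [LinearMap.comp_apply, h2]
  rfl

/-- The nilpotent ordered group. -/
theorem krull_step [IsDomain R] [IsNoetherianRing R] (j : R →ₐ[ℚ] F)
    (hj : Function.Injective j) (I : Ideal R) (hI : I ≠ ⊤) (s : Finset (FreeGroup ℕ))
    (v : ℕ → (HD (posUnits j I).subtype (AddMonoidHom.id R)).G)
    (hw : ∀ w ∈ s, (FreeGroup.lift v w).u = 1 ∧ (FreeGroup.lift v w).x = 0 ∧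
      j (FreeGroup.lift v w).z < 0) :
    ∃ (H : Type) (_ : Group H) (_ : LinearOrder H) (_ : MulLeftMono H) (_ : MulRightMono H),
      Group.IsNilpotent H ∧ ∃ v' : ℕ → H, ∀ w ∈ s, FreeGroup.lift v' w < 1 := by
  classical
  obtain ⟨k, ψ, hψ⟩ := exists_functional j I hI (s.image fun w => (FreeGroup.lift v w).z)
  let π := Ideal.Quotient.mk (I ^ k)
  let χ : (posUnits j I) →* (R ⧸ (I ^ k))ˣ :=
    (Units.map (π : R →* R ⧸ (I ^ k))).comp (posUnits j I).subtype
  let D := HD χ ψ.toAddMonoidHom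
  let J : ℕ → Ideal (R ⧸ (I ^ k)) := fun i => Ideal.map π (I ^ i)
  let W : ℕ → Submodule ℚ ((R ⧸ (I ^ k)) × (R ⧸ (I ^ k))) := fun i =>
    ((J i).restrictScalars ℚ).prod ((J i).restrictScalars ℚ)
  have hJ : ∀ i, J (i + 1) ≤ J i := fun i => Ideal.map_mono (Ideal.pow_le_pow_right (by omega))
  have hW : ∀ i, W (i + 1) ≤ W i := fun i x hx => ⟨hJ i hx.1, hJ i hx.2⟩
  have hW0 : W 0 = ⊤ := by
    rw [eq_top_iff]
    rintro x -
    have : J 0 = ⊤ := by
      change Ideal.map π (I ^ 0) = ⊤
      rw [pow_zero, Ideal.one_eq_top, Ideal.map_top]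
    refine ⟨?_, ?_⟩
    · change x.1 ∈ J 0; rw [this]; trivial
    · change x.2 ∈ J 0; rw [this]; trivial
  have hWk : W k = ⊥ := by
    rw [eq_bot_iff]
    intro x hx
    have : J k = ⊥ := Ideal.map_quotient_self (I ^ k)
    have h1 : x.1 ∈ J k := hx.1
    have h2 : x.2 ∈ J k := hx.2
    rw [this] at h1 h2
    rw [Submodule.mem_bot]
    exact Prod.ext (Ideal.mem_bot.mp h1) (Ideal.mem_bot.mp h2)
  have hmul : ∀ (u : posUnits j I) (i : ℕ) (b : R ⧸ (I ^ k)), b ∈ J i →
      (χ u : R ⧸ (I ^ k)) * b - b ∈ J (i + 1) := by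
    intro u i b hb
    have e : (χ u : R ⧸ (I ^ k)) * b - b = π (((u : Rˣ) : R) - 1) * b := by
      rw [map_sub, map_one, sub_mul, one_mul]
      rfl
    rw [e]
    have h1 : J (i + 1) = Ideal.map π I * J i := by
      change Ideal.map π (I ^ (i + 1)) = _
      rw [pow_succ', Ideal.map_mul]
    rw [h1]
    exact Ideal.mul_mem_mul (Ideal.mem_map_of_mem π u.2.2) hb
  have hact : ∀ (u : posUnits j I) (i : ℕ), ∀ x ∈ W i, D.act u x - x ∈ W (i + 1) := by
    intro u i x hx
    refine ⟨hmul u i x.1 hx.1, ?_⟩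
    have := hmul u⁻¹ i x.2 hx.2
    rw [map_inv] at this
    exact this
  obtain ⟨loX, hoX, hmono⟩ := exists_order' W hW hW0 k hWk
  let loU : LinearOrder (posUnits j I) :=
    LinearOrder.lift' (fun u => j (((u : Rˣ) : R))) (by
      intro a b h
      exact Subtype.ext (Units.ext (hj h)))
  have hoU : IsOrderedMonoid (posUnits j I) :=
    { mul_le_mul_left := by
        intro a b h c
        change j ((((a * c : posUnits j I) : Rˣ) : R)) ≤ j ((((b * c : posUnits j I) : Rˣ) : R))
        have h' : j ((((a : posUnits j I) : Rˣ) : R)) ≤ j ((((b : posUnits j I) : Rˣ) : R)) := h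
        simp only [Subgroup.coe_mul, Units.val_mul, map_mul]
        exact mul_le_mul_of_nonneg_right h' c.2.1.le }
  let loG : LinearOrder D.G := D.linearOrder
  have hstrict : ∀ u x y, x < y → D.act u x < D.act u y := by
    intro u
    exact hmono (D.act u) (fun x y => D.act_sub u x y) (fun i x hx => hact u i x hx)
  refine ⟨D.G, inferInstance, loG, KD.mulLeftMono hstrict, KD.mulRightMono, ?_, ?_⟩
  · exact KD.nilpotent D (fun i => (W i).toAddSubgroup) (by rw [hW0]; rfl) k (by rw [hWk]; rfl)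
      (fun i u x hx => hact u i x hx)
  · let φ : KD.Hom (HD (posUnits j I).subtype (AddMonoidHom.id R)) D :=
      { f := MonoidHom.id _
        g := AddMonoidHom.prodMap (π : R →+ R ⧸ (I ^ k)) (π : R →+ R ⧸ (I ^ k))
        h := ψ.toAddMonoidHom.comp (π : R →+ R ⧸ (I ^ k))
        hg := by
          intro u x
          apply Prod.ext
          · exact map_mul π _ _
          · exact map_mul π _ _
        hh := by
          intro x y
          change ψ (π (x.1 * y.2)) = ψ (π x.1 * π y.2)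
          rw [map_mul] }
    refine ⟨fun i => φ.map (v i), ?_⟩
    intro w hws
    have h1 : FreeGroup.lift (fun i => φ.map (v i)) w = φ.map (FreeGroup.lift v w) := by
      have : FreeGroup.lift (fun i => φ.map (v i)) = φ.map.comp (FreeGroup.lift v) := by
        ext i
        · simp
        · simp
        · simp
        · simp
      rw [this]; rfl
    rw [h1, KD.lt_iff]
    obtain ⟨h2, h3, h4⟩ := hw w hws
    right
    refine ⟨?_, Or.inr ⟨?_, ?_⟩⟩
    · change (FreeGroup.lift v w).u = 1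
      exact h2
    · change (π (FreeGroup.lift v w).x.1, π (FreeGroup.lift v w).x.2) = 0
      rw [h3]
      simp
    · change ψ (π (FreeGroup.lift v w).z) < 0
      have h5 := hψ (FreeGroup.lift v w).z (Finset.mem_image_of_mem _ hws)
      have h6 : ψ (π (FreeGroup.lift v w).z) = j (FreeGroup.lift v w).z := h5
      rw [h6]; exact h4

end Pool.Agent.Helper29
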