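import Pool.Agent.Helper29.NilK
import Pool.Agent.Helper29.NilOrd

/-!
A semilocal ring of rational functions with its `x`-adic order.
-/

set_option autoImplicit false
set_option linter.unusedSectionVars false

namespace Pool.Agent.Helper29

open Polynomial

/-- polynomials not vanishing at three points -/
def MM (a b : ℚ) : Submonoid ℚ[X] where
  carrier := {g | g.eval 0 ≠ 0 ∧ g.eval a ≠ 0 ∧ g.eval b ≠ 0}
  mul_mem' := by
    rintro f g ⟨f0, f1, f2⟩ ⟨g0, g1, g2⟩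
    refine ⟨?_, ?_, ?_⟩
    · rw [eval_mul]; exact mul_ne_zero f0 g0
    · rw [eval_mul]; exact mul_ne_zero f1 g1
    · rw [eval_mul]; exact mul_ne_zero f2 g2
  one_mem' := by simp

theorem MM_le (a b : ℚ) : MM a b ≤ nonZeroDivisors ℚ[X] := by
  intro g hg
  rw [mem_nonZeroDivisors_iff_ne_zero]
  rintro rfl
  exact hg.1 (by simp)

/-- the semilocal ring -/
def OO (a b : ℚ) : Type := Localization (MM a b)

noncomputable instance (a b : ℚ) : CommRing (OO a b) :=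
  inferInstanceAs (CommRing (Localization (MM a b)))

noncomputable instance (a b : ℚ) : Algebra ℚ[X] (OO a b) :=
  inferInstanceAs (Algebra ℚ[X] (Localization (MM a b)))

instance (a b : ℚ) : IsLocalization (MM a b) (OO a b) :=
  inferInstanceAs (IsLocalization (MM a b) (Localization (MM a b)))

instance (a b : ℚ) : IsDomain (OO a b) := IsLocalization.isDomain_localization (MM_le a b)

namespace OO

variable {a b : ℚ}

/-- inclusion of polynomials -/
noncomputable def ι : ℚ[X] →+* OO a b := algebraMap ℚ[X] (OO a b)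

theorem ι_inj : Function.Injective (ι (a := a) (b := b)) :=
  IsLocalization.injective (OO a b) (MM_le a b)

/-- evaluation at `0` -/
noncomputable def ev0 : OO a b →+* ℚ :=
  IsLocalization.lift (M := MM a b) (g := evalRingHom 0) (fun y => IsUnit.mk0 _ y.2.1)

/-- evaluation at `a` -/
noncomputable def ev1 : OO a b →+* ℚ :=
  IsLocalization.lift (M := MM a b) (g := evalRingHom a) (fun y => IsUnit.mk0 _ y.2.2.1)

/-- evaluation at `b` -/
noncomputable def ev2 : OO a b →+* ℚ :=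
  IsLocalization.lift (M := MM a b) (g := evalRingHom b) (fun y => IsUnit.mk0 _ y.2.2.2)

@[simp] theorem ev0_ι (g : ℚ[X]) : ev0 (ι g : OO a b) = g.eval 0 := IsLocalization.lift_eq _ g
@[simp] theorem ev1_ι (g : ℚ[X]) : ev1 (ι g : OO a b) = g.eval a := IsLocalization.lift_eq _ g
@[simp] theorem ev2_ι (g : ℚ[X]) : ev2 (ι g : OO a b) = g.eval b := IsLocalization.lift_eq _ g

/-- the variable -/
noncomputable def x : OO a b := ι X

theorem x_ne : (x : OO a b) ≠ 0 := by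
  intro h
  have : (X : ℚ[X]) = 0 := ι_inj (a := a) (b := b) (by rw [map_zero]; exact h)
  exact X_ne_zero this

@[simp] theorem ev0_x : ev0 (x : OO a b) = 0 := by simp [x]

theorem exists_rep (α : OO a b) : ∃ g m : ℚ[X], m ∈ MM a b ∧ α * ι m = ι g := by
  obtain ⟨⟨g, m⟩, h⟩ := IsLocalization.surj (MM a b) α
  exact ⟨g, m, m.2, h⟩

theorem isUnit_ι {m : ℚ[X]} (hm : m ∈ MM a b) : IsUnit (ι m : OO a b) :=
  IsLocalization.map_units (OO a b) (⟨m, hm⟩ : MM a b)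

/-- every nonzero element is a power of `x` times an element not vanishing at `0` -/
theorem exists_pow (α : OO a b) (hα : α ≠ 0) : ∃ (n : ℕ) (β : OO a b), α = x ^ n * β ∧
    ev0 β ≠ 0 := by
  obtain ⟨g, m, hm, h⟩ := exists_rep α
  have hu := isUnit_ι hm
  have hg : g ≠ 0 := by
    rintro rfl
    rw [map_zero] at h
    rcases mul_eq_zero.mp h with h1 | h1
    · exact hα h1
    · exact hu.ne_zero h1
  obtain ⟨f, hf, hf'⟩ := exists_eq_pow_rootMultiplicity_mul_and_not_dvd g hg 0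
  have hf0 : f.eval 0 ≠ 0 := by
    intro h0
    exact hf' (dvd_iff_isRoot.mpr h0)
  obtain ⟨u, hu'⟩ := hu
  refine ⟨rootMultiplicity 0 g, ι f * ((u⁻¹ : (OO a b)ˣ) : OO a b), ?_, ?_⟩
  · have h1 : α = ι g * ((u⁻¹ : (OO a b)ˣ) : OO a b) := by
      rw [← h, ← hu', mul_assoc, Units.mul_inv, mul_one]
    rw [h1]
    conv_lhs => rw [hf]
    rw [map_mul, map_pow, C_0, sub_zero]
    unfold x
    ring
  · rw [map_mul, ev0_ι]
    apply mul_ne_zero hf0
    intro h0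
    have h1 : ev0 (u : OO a b) * ev0 ((u⁻¹ : (OO a b)ˣ) : OO a b) = 1 := by
      rw [← map_mul, Units.mul_inv, map_one]
    rw [h0, mul_zero] at h1
    exact zero_ne_one h1

theorem dvd_of_ev0 {α : OO a b} (h : ev0 α = 0) : ∃ β, α = x * β := by
  by_cases hα : α = 0
  · exact ⟨0, by rw [hα, mul_zero]⟩
  obtain ⟨n, β, h1, h2⟩ := exists_pow α hα
  cases n with
  | zero =>
    rw [pow_zero, one_mul] at h1
    rw [h1] at h
    exact absurd h h2
  | succ n => exact ⟨x ^ n * β, by rw [h1, pow_succ']; ring⟩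

theorem ev0_of_pow_eq {n : ℕ} {β γ : OO a b} (h : x ^ n * β = x ^ (n + 1) * γ) : ev0 β = 0 := by
  have h1 : x ^ n * β = x ^ n * (x * γ) := by rw [h, pow_succ]; ring
  have h2 := mul_left_cancel₀ (pow_ne_zero n x_ne) h1
  rw [h2, map_mul, ev0_x, zero_mul]

/-- the ideals `x^n` -/
def W (n : ℕ) : AddSubgroup (OO a b) where
  carrier := {α | ∃ β, α = x ^ n * β}
  add_mem' := by
    rintro _ _ ⟨β, rfl⟩ ⟨γ, rfl⟩
    exact ⟨β + γ, by ring⟩
  zero_mem' := ⟨0, by simp⟩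
  neg_mem' := by
    rintro _ ⟨β, rfl⟩
    exact ⟨-β, by ring⟩

theorem mem_W {n : ℕ} {α : OO a b} : α ∈ W n ↔ ∃ β, α = x ^ n * β := Iff.rfl

theorem W_zero : (W 0 : AddSubgroup (OO a b)) = ⊤ := by
  rw [eq_top_iff]
  rintro α -
  exact ⟨α, by simp⟩

theorem W_anti (n : ℕ) : (W (n + 1) : AddSubgroup (OO a b)) ≤ W n := by
  rintro α ⟨β, rfl⟩
  exact ⟨x * β, by ring⟩

theorem W_mul {n : ℕ} {α : OO a b} (h : α ∈ W n) (τ : OO a b) (hτ : ev0 τ = 1) :
    τ * α - α ∈ W (n + 1) := by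
  obtain ⟨β, rfl⟩ := h
  obtain ⟨γ, hγ⟩ := dvd_of_ev0 (α := τ - 1) (by rw [map_sub, map_one, hτ, sub_self])
  refine ⟨γ * β, ?_⟩
  have : τ = 1 + x * γ := by rw [← hγ]; ring
  rw [this]; ring

/-- positive elements of order `n` -/
def P (n : ℕ) : Set (OO a b) := {α | ∃ β, α = x ^ n * β ∧ 0 < ev0 β}

theorem P_add {n : ℕ} {α β : OO a b} (h : α ∈ P n) (h' : β ∈ P n) : α + β ∈ P n := by
  obtain ⟨γ, rfl, h1⟩ := h
  obtain ⟨δ, rfl, h2⟩ := h'
  exact ⟨γ + δ, by ring, by rw [map_add]; exact add_pos h1 h2⟩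

theorem P_shift {n : ℕ} {α β : OO a b} (h : α ∈ P n) (h' : β ∈ W (n + 1)) : α + β ∈ P n := by
  obtain ⟨γ, rfl, h1⟩ := h
  obtain ⟨δ, rfl⟩ := h'
  exact ⟨γ + x * δ, by ring, by rw [map_add, map_mul, ev0_x, zero_mul, add_zero]; exact h1⟩

theorem P_disj {n : ℕ} {α : OO a b} (h : α ∈ P n) : α ∉ W (n + 1) := by
  rintro ⟨δ, h2⟩
  obtain ⟨γ, rfl, h1⟩ := h
  exact h1.ne' (ev0_of_pow_eq h2)

theorem P_tot {n : ℕ} {α : OO a b} (h : α ∈ W n) (h' : α ∉ W (n + 1)) : α ∈ P n ∨ -α ∈ P n := by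
  obtain ⟨β, rfl⟩ := h
  rcases lt_trichotomy 0 (ev0 β) with h1 | h1 | h1
  · exact Or.inl ⟨β, rfl, h1⟩
  · exfalso
    obtain ⟨γ, rfl⟩ := dvd_of_ev0 h1.symm
    exact h' ⟨γ, by ring⟩
  · right
    exact ⟨-β, by ring, by rw [map_neg]; exact neg_pos.mpr h1⟩

theorem exists_lo : ∃ (_ : LinearOrder (OO a b)), IsOrderedAddMonoid (OO a b) ∧
    (∀ α : OO a b, 0 < α ↔ ∃ j, α ∈ P j) ∧
      ∀ f : OO a b → OO a b, (∀ x y, f (x - y) = f x - f y) →
        (∀ j, ∀ x ∈ W j, f x - x ∈ W (j + 1)) → ∀ x y, x < y → f x < f y :=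
  exists_order W W_anti (by
    intro α hα
    obtain ⟨n, β, h1, h2⟩ := exists_pow α hα
    refine ⟨n, ⟨β, h1⟩, ?_⟩
    rintro ⟨γ, hγ⟩
    exact h2 (ev0_of_pow_eq (h1.symm.trans hγ))) P
    (by rintro j _ ⟨β, h, _⟩; exact ⟨β, h⟩)
    (fun j x hx y hy => P_add hx hy) (fun j x hx y hy => P_shift hx hy)
    (fun j x hx => P_disj hx) (fun j x hx hx' => P_tot hx hx')

noncomputable instance : LinearOrder (OO a b) := (exists_lo (a := a) (b := b)).choose

theorem lo_spec : IsOrderedAddMonoid (OO a b) ∧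
    (∀ α : OO a b, 0 < α ↔ ∃ j, α ∈ P j) ∧
      ∀ f : OO a b → OO a b, (∀ x y, f (x - y) = f x - f y) →
        (∀ j, ∀ x ∈ W j, f x - x ∈ W (j + 1)) → ∀ x y, x < y → f x < f y :=
  (exists_lo (a := a) (b := b)).choose_spec

instance : IsOrderedAddMonoid (OO a b) := lo_spec.1

theorem pos_iff {α : OO a b} : 0 < α ↔ ∃ j, α ∈ P j := lo_spec.2.1 α

theorem mul_lt (τ : OO a b) (hτ : ev0 τ = 1) {α β : OO a b} (h : α < β) : τ * α < τ * β :=
  lo_spec.2.2 (fun γ => τ * γ) (fun _ _ => mul_sub _ _ _) (fun _ _ hx => W_mul hx τ hτ) _ _ h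

end OO

end Pool.Agent.Helper29
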