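import Pool.Agent.Helper29.NilAlg

/-!
The commutator form and the contradiction.
-/

set_option autoImplicit false
set_option linter.unusedSectionVars false

namespace Pool.Agent.Helper29

section om

variable {H : Type} [Group H] {D : Subgroup H} {φ : H → ℝ}

/-- commutator form -/
def om (φ : H → ℝ) (x y : H) : ℝ := φ (x * y * x⁻¹ * y⁻¹)

variable [hD : D.Normal]

theorem cm_iff {x y : H} : x * y * x⁻¹ * y⁻¹ ∈ D ↔
    Commute (QuotientGroup.mk' D x) (QuotientGroup.mk' D y) := by
  have h : x * y * x⁻¹ * y⁻¹ ∈ D ↔ QuotientGroup.mk' D (x * y * x⁻¹ * y⁻¹) = 1 := by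
    rw [← MonoidHom.mem_ker, QuotientGroup.ker_mk']
  rw [h, map_mul, map_mul, map_mul, map_inv, map_inv]
  constructor
  · intro h
    have := mul_inv_eq_one.mp h
    exact mul_inv_eq_iff_eq_mul.mp this
  · intro h
    rw [h.eq]; group

variable (hadd : IsAdd D φ) (hconj : ∀ x, ∀ a ∈ D, φ (x * a * x⁻¹) = φ a)

include hadd hconj

theorem om_mul_left {x y z : H} (h1 : Commute (QuotientGroup.mk' D x) (QuotientGroup.mk' D z))
    (h2 : Commute (QuotientGroup.mk' D y) (QuotientGroup.mk' D z)) :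
    om φ (x * y) z = om φ x z + om φ y z := by
  have h1' := cm_iff.mpr h1
  have h2' := cm_iff.mpr h2
  unfold om
  have e : x * y * z * (x * y)⁻¹ * z⁻¹ = (x * (y * z * y⁻¹ * z⁻¹) * x⁻¹) * (x * z * x⁻¹ * z⁻¹) := by
    group
  rw [e, hadd.mul _ (hD.conj_mem _ h2' x) _ h1', hconj _ _ h2', add_comm]

theorem om_mul_right {x y z : H} (h1 : Commute (QuotientGroup.mk' D x) (QuotientGroup.mk' D y))
    (h2 : Commute (QuotientGroup.mk' D x) (QuotientGroup.mk' D z)) :
    om φ x (y * z) = om φ x y + om φ x z := by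
  have h1' := cm_iff.mpr h1
  have h2' := cm_iff.mpr h2
  unfold om
  have e : x * (y * z) * x⁻¹ * (y * z)⁻¹ = (x * y * x⁻¹ * y⁻¹) * (y * (x * z * x⁻¹ * z⁻¹) * y⁻¹) := by
    group
  rw [e, hadd.mul _ h1' _ (hD.conj_mem _ h2' y), hconj _ _ h2']

omit hconj in
theorem om_swap {x y : H} (h1 : Commute (QuotientGroup.mk' D x) (QuotientGroup.mk' D y)) :
    om φ y x = -om φ x y := by
  have h1' := cm_iff.mpr h1
  unfold om
  have e : y * x * y⁻¹ * x⁻¹ = (x * y * x⁻¹ * y⁻¹)⁻¹ := by group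
  rw [e, hadd.inv h1']

omit hadd in
theorem om_conj {x y : H} (h1 : Commute (QuotientGroup.mk' D x) (QuotientGroup.mk' D y)) (g : H) :
    om φ (g * x * g⁻¹) (g * y * g⁻¹) = om φ x y := by
  have h1' := cm_iff.mpr h1
  unfold om
  have e : g * x * g⁻¹ * (g * y * g⁻¹) * (g * x * g⁻¹)⁻¹ * (g * y * g⁻¹)⁻¹ =
    g * (x * y * x⁻¹ * y⁻¹) * g⁻¹ := by group
  rw [e, hconj _ _ h1']

theorem om_mem_left {d x : H} (hd : d ∈ D) : om φ d x = 0 := by
  unfold om
  have e : d * x * d⁻¹ * x⁻¹ = d * (x * d⁻¹ * x⁻¹) := by group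
  rw [e, hadd.mul _ hd _ (hD.conj_mem _ (D.inv_mem hd) x), hconj _ _ (D.inv_mem hd), hadd.inv hd]
  ring

theorem om_inv_left {x y : H} (h1 : Commute (QuotientGroup.mk' D x) (QuotientGroup.mk' D y)) :
    om φ x⁻¹ y = -om φ x y := by
  have h2 : Commute (QuotientGroup.mk' D x⁻¹) (QuotientGroup.mk' D y) := by
    rw [map_inv]; exact h1.inv_left
  have h3 := om_mul_left hadd hconj h1 h2
  rw [mul_inv_cancel, om_mem_left hadd hconj D.one_mem] at h3
  linarith

theorem om_pow_left {x y : H} (h1 : Commute (QuotientGroup.mk' D x) (QuotientGroup.mk' D y))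
    (n : ℕ) : om φ (x ^ n) y = n * om φ x y := by
  induction n with
  | zero => rw [pow_zero, om_mem_left hadd hconj D.one_mem]; simp
  | succ n ih =>
    rw [pow_succ, om_mul_left hadd hconj (by rw [map_pow]; exact h1.pow_left n) h1, ih]
    push_cast; ring

theorem om_inv_right {x y : H} (h1 : Commute (QuotientGroup.mk' D x) (QuotientGroup.mk' D y)) :
    om φ x y⁻¹ = -om φ x y := by
  have h2 : Commute (QuotientGroup.mk' D x) (QuotientGroup.mk' D y⁻¹) := by
    rw [map_inv]; exact h1.inv_right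
  rw [om_swap hadd h2.symm, om_inv_left hadd hconj h1.symm, om_swap hadd h1.symm]

theorem om_pow_right {x y : H} (h1 : Commute (QuotientGroup.mk' D x) (QuotientGroup.mk' D y))
    (n : ℕ) : om φ x (y ^ n) = n * om φ x y := by
  have h2 : Commute (QuotientGroup.mk' D x) (QuotientGroup.mk' D (y ^ n)) := by
    rw [map_pow]; exact h1.pow_right n
  rw [om_swap hadd h2.symm, om_pow_left hadd hconj h1.symm, om_swap hadd h1.symm]
  ring

theorem om_congr_left {x x' y : H} (h : QuotientGroup.mk' D x = QuotientGroup.mk' D x')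
    (h1 : Commute (QuotientGroup.mk' D x) (QuotientGroup.mk' D y)) : om φ x y = om φ x' y := by
  have hd : x * x'⁻¹ ∈ D := by
    rw [← QuotientGroup.ker_mk' D, MonoidHom.mem_ker, map_mul, map_inv, h, mul_inv_cancel]
  have h1' : Commute (QuotientGroup.mk' D x') (QuotientGroup.mk' D y) := h ▸ h1
  have e : x = (x * x'⁻¹) * x' := by group
  have h2 : Commute (QuotientGroup.mk' D (x * x'⁻¹)) (QuotientGroup.mk' D y) := by
    rw [map_mul, map_inv]; exact h1.mul_left h1'.inv_left
  rw [e, om_mul_left hadd hconj h2 h1', om_mem_left hadd hconj hd, zero_add]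

theorem om_congr_right {x y y' : H} (h : QuotientGroup.mk' D y = QuotientGroup.mk' D y')
    (h1 : Commute (QuotientGroup.mk' D x) (QuotientGroup.mk' D y)) : om φ x y = om φ x y' := by
  have h1' : Commute (QuotientGroup.mk' D x) (QuotientGroup.mk' D y') := h ▸ h1
  rw [om_swap hadd h1.symm, om_swap hadd h1'.symm, om_congr_left hadd hconj h h1.symm]

theorem om_Fw_left {q : ℕ} {x y z w : H}
    (h1 : Commute (QuotientGroup.mk' D x) (QuotientGroup.mk' D w))
    (h2 : Commute (QuotientGroup.mk' D y) (QuotientGroup.mk' D w))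
    (h3 : Commute (QuotientGroup.mk' D z) (QuotientGroup.mk' D w)) :
    om φ (Fw q x y z) w = ((q ^ 2 + q + 1 : ℕ) : ℝ) * om φ x w
      - ((q ^ 2 + q + 1 : ℕ) : ℝ) * om φ y w + q * om φ z w := by
  unfold Fw
  have c1 : Commute (QuotientGroup.mk' D (x ^ (q ^ 2 + q + 1))) (QuotientGroup.mk' D w) := by
    rw [map_pow]; exact h1.pow_left _
  have c2 : Commute (QuotientGroup.mk' D (y ^ (q ^ 2 + q + 1))) (QuotientGroup.mk' D w) := by
    rw [map_pow]; exact h2.pow_left _
  have c2' : Commute (QuotientGroup.mk' D (y ^ (q ^ 2 + q + 1))⁻¹) (QuotientGroup.mk' D w) := by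
    rw [map_inv]; exact c2.inv_left
  have c3 : Commute (QuotientGroup.mk' D (z ^ q)) (QuotientGroup.mk' D w) := by
    rw [map_pow]; exact h3.pow_left _
  have c12 : Commute (QuotientGroup.mk' D (x ^ (q ^ 2 + q + 1) * (y ^ (q ^ 2 + q + 1))⁻¹))
      (QuotientGroup.mk' D w) := by
    rw [map_mul]; exact c1.mul_left c2'
  rw [om_mul_left hadd hconj c12 c3, om_mul_left hadd hconj c1 c2', om_inv_left hadd hconj c2,
    om_pow_left hadd hconj h1, om_pow_left hadd hconj h2, om_pow_left hadd hconj h3]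
  ring

theorem om_Fw_right {q : ℕ} {x y z w : H}
    (h1 : Commute (QuotientGroup.mk' D w) (QuotientGroup.mk' D x))
    (h2 : Commute (QuotientGroup.mk' D w) (QuotientGroup.mk' D y))
    (h3 : Commute (QuotientGroup.mk' D w) (QuotientGroup.mk' D z)) :
    om φ w (Fw q x y z) = ((q ^ 2 + q + 1 : ℕ) : ℝ) * om φ w x
      - ((q ^ 2 + q + 1 : ℕ) : ℝ) * om φ w y + q * om φ w z := by
  have c : Commute (QuotientGroup.mk' D w) (QuotientGroup.mk' D (Fw q x y z)) := by
    unfold Fw
    rw [map_mul, map_mul, map_inv, map_pow, map_pow, map_pow]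
    exact ((h1.pow_right _).mul_right (h2.pow_right _).inv_right).mul_right (h3.pow_right _)
  rw [om_swap hadd c.symm, om_Fw_left hadd hconj h1.symm h2.symm h3.symm,
    om_swap hadd h1.symm, om_swap hadd h2.symm, om_swap hadd h3.symm]
  ring

omit hadd hconj in
theorem mk_Fw (q : ℕ) (x y z : H) : QuotientGroup.mk' D (Fw q x y z) =
    Fw q (QuotientGroup.mk' D x) (QuotientGroup.mk' D y) (QuotientGroup.mk' D z) := by
  unfold Fw
  rw [map_mul, map_mul, map_inv, map_pow, map_pow, map_pow]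

omit hadd hconj in
theorem mk_AA (t a : H) (n : ℤ) : QuotientGroup.mk' D (AA t a n) =
    AA (QuotientGroup.mk' D t) (QuotientGroup.mk' D a) n := by
  unfold AA
  rw [map_mul, map_mul, map_inv, map_zpow]

theorem om_main
    (hroot : ∀ (x y : H ⧸ D) (n : ℕ), n ≠ 0 → x ^ n = y ^ n → x = y)
    {c : ℕ} (hc : ∀ x a : H, (ad x)^[c] a = 1) {a t s : H} {q : ℕ} (hq : 2 ≤ q)
    (h1 : t * s * t⁻¹ * s⁻¹ ∈ D)
    (h2 : s * a ^ q * s⁻¹ * (Fw q a (AA t a 1) (AA t a 2))⁻¹ ∈ D)
    (h3 : a * AA t a 1 * a⁻¹ * (AA t a 1)⁻¹ ∈ D)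
    (h4 : a * AA t a 2 * a⁻¹ * (AA t a 2)⁻¹ ∈ D) :
    om φ a (AA t a 2) = 2 * om φ a (AA t a 1) := by
  set π := QuotientGroup.mk' D with hπ
  have e0 : AA t a 0 = a := by unfold AA; group
  have hts : Commute (π t) (π s) := cm_iff.mp h1
  have k1 : Commute (π a) (AA (π t) (π a) 1) := by
    rw [← mk_AA]; exact cm_iff.mp h3
  have k2 : Commute (π a) (AA (π t) (π a) 2) := by
    rw [← mk_AA]; exact cm_iff.mp h4
  have k3 : π s * π a ^ q * (π s)⁻¹ = Fw q (π a) (AA (π t) (π a) 1) (AA (π t) (π a) 2) := by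
    have h5 : π (s * a ^ q * s⁻¹ * (Fw q a (AA t a 1) (AA t a 2))⁻¹) = 1 := by
      rw [← MonoidHom.mem_ker, hπ, QuotientGroup.ker_mk']; exact h2
    rw [map_mul, map_mul, map_mul, map_inv, map_inv, map_pow, mul_inv_eq_one, mk_Fw, mk_AA,
      mk_AA] at h5
    exact h5
  have hall : ∀ i j : ℤ, Commute (π (AA t a i)) (π (AA t a j)) := by
    intro i j
    rw [mk_AA, mk_AA]
    exact all_commute hroot (by omega) hts k1 k2 k3 i j
  have hB : ∀ n : ℤ, π (s * (AA t a n) ^ q * s⁻¹) =
      π (Fw q (AA t a n) (AA t a (n + 1)) (AA t a (n + 2))) := by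
    intro n
    rw [mk_Fw, mk_AA, mk_AA, mk_AA, ← AA_root hts k3 n, map_mul, map_mul, map_inv, map_pow, mk_AA]
  let e : ℤ → ℝ := fun j => om φ a (AA t a j)
  have hsh : ∀ i j : ℤ, om φ (AA t a i) (AA t a j) = e (j - i) := by
    intro i j
    have h5 := om_conj (D := D) (φ := φ) hconj (hall 0 (j - i)) (t ^ i)
    rw [AA_shift, AA_shift, zero_add, sub_add_cancel, e0] at h5
    exact h5
  -- recurrence
  set Q : ℝ := ((q ^ 2 + q + 1 : ℕ) : ℝ) with hQ
  have hrec : ∀ j : ℤ, (q : ℝ) * (q * e j) =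
      Q * (Q * e j - Q * e (j + 1) + q * e (j + 2)) -
      Q * (Q * e (j - 1) - Q * e j + q * e (j + 1)) +
      q * (Q * e (j - 2) - Q * e (j - 1) + q * e j) := by
    intro j
    have hcom : Commute (π (AA t a 0)) (π (AA t a j)) := hall 0 j
    have s1 : om φ (s * (AA t a 0) ^ q * s⁻¹) (s * (AA t a j) ^ q * s⁻¹) = q * (q * e j) := by
      have c1 : Commute (π ((AA t a 0) ^ q)) (π ((AA t a j) ^ q)) := by
        rw [map_pow, map_pow]; exact hcom.pow_pow _ _
      have c2 : Commute (π (AA t a 0)) (π ((AA t a j) ^ q)) := by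
        rw [map_pow]; exact hcom.pow_right _
      rw [om_conj (D := D) hconj c1 s, om_pow_left hadd hconj c2, om_pow_right hadd hconj hcom,
        hsh, sub_zero]
    have cF : ∀ i : ℤ, Commute (π (AA t a i))
        (π (Fw q (AA t a j) (AA t a (j + 1)) (AA t a (j + 2)))) := by
      intro i
      rw [mk_Fw]
      unfold Fw
      exact (((hall i j).pow_right _).mul_right ((hall i (j + 1)).pow_right _).inv_right).mul_right
        ((hall i (j + 2)).pow_right _)
    have cFF : Commute (π (Fw q (AA t a 0) (AA t a (0 + 1)) (AA t a (0 + 2))))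
        (π (Fw q (AA t a j) (AA t a (j + 1)) (AA t a (j + 2)))) := by
      rw [mk_Fw]
      unfold Fw
      exact (((cF 0).pow_left _).mul_left ((cF (0 + 1)).pow_left _).inv_left).mul_left
        ((cF (0 + 2)).pow_left _)
    have s2 : om φ (s * (AA t a 0) ^ q * s⁻¹) (s * (AA t a j) ^ q * s⁻¹) =
        om φ (Fw q (AA t a 0) (AA t a (0 + 1)) (AA t a (0 + 2)))
          (Fw q (AA t a j) (AA t a (j + 1)) (AA t a (j + 2))) := by
      have c1 : Commute (π (s * (AA t a 0) ^ q * s⁻¹)) (π (s * (AA t a j) ^ q * s⁻¹)) := by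
        rw [hB, hB]; exact cFF
      rw [om_congr_left hadd hconj (hB 0) c1]
      apply om_congr_right hadd hconj (hB j)
      rw [hB]; exact cFF
    have s3 : om φ (Fw q (AA t a 0) (AA t a (0 + 1)) (AA t a (0 + 2)))
          (Fw q (AA t a j) (AA t a (j + 1)) (AA t a (j + 2))) =
        Q * (Q * e j - Q * e (j + 1) + q * e (j + 2)) -
        Q * (Q * e (j - 1) - Q * e j + q * e (j + 1)) +
        q * (Q * e (j - 2) - Q * e (j - 1) + q * e j) := by
      rw [om_Fw_left hadd hconj (cF 0) (cF (0 + 1)) (cF (0 + 2)),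
        om_Fw_right hadd hconj (hall 0 j) (hall 0 (j + 1)) (hall 0 (j + 2)),
        om_Fw_right hadd hconj (hall (0 + 1) j) (hall (0 + 1) (j + 1)) (hall (0 + 1) (j + 2)),
        om_Fw_right hadd hconj (hall (0 + 2) j) (hall (0 + 2) (j + 1)) (hall (0 + 2) (j + 2))]
      simp only [hsh]
      have a1 : j - 0 = j := by ring
      have a2 : j + 1 - 0 = j + 1 := by ring
      have a3 : j + 2 - 0 = j + 2 := by ring
      have a4 : j - (0 + 1) = j - 1 := by ring
      have a5 : j + 1 - (0 + 1) = j := by ring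
      have a6 : j + 2 - (0 + 1) = j + 1 := by ring
      have a7 : j - (0 + 2) = j - 2 := by ring
      have a8 : j + 1 - (0 + 2) = j - 1 := by ring
      have a9 : j + 2 - (0 + 2) = j := by ring
      rw [a1, a2, a3, a4, a5, a6, a7, a8, a9]
    rw [← s1, s2, s3]
  -- polynomiality
  have hpoly : ∀ k : ℕ, ∀ y : H, (∀ n, Commute (π a) (π (cjz t y n))) →
      dd^[k] (fun n => om φ a (cjz t y n)) = fun n => om φ a (cjz t ((ad t)^[k] y) n) := by
    intro k
    induction k with
    | zero => intro y _; rfl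
    | succ k ih =>
      intro y hy
      rw [Function.iterate_succ_apply, Function.iterate_succ_apply]
      have h5 : dd (fun n => om φ a (cjz t y n)) = fun n => om φ a (cjz t (ad t y) n) := by
        funext n
        unfold dd
        rw [cjz_ad, om_mul_right hadd hconj (hy _) (by rw [map_inv]; exact (hy n).inv_right),
          om_inv_right hadd hconj (hy n)]
        ring
      rw [h5]
      apply ih
      intro n
      rw [cjz_ad, map_mul, map_inv]
      exact (hy _).mul_right (hy n).inv_right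
  have hde : dd^[c] e = 0 := by
    have h5 := hpoly c a (fun n => by
      have := hall 0 n
      rw [e0] at this
      exact this)
    have h6 : (fun n => om φ a (cjz t a n)) = e := rfl
    rw [h6] at h5
    rw [h5, hc]
    funext n
    rw [cjz_one]
    unfold om
    rw [mul_one, mul_inv_cancel, one_mul, inv_one, hadd.one]
    rfl
  have hq1 : (q : ℝ) ≠ 1 := by
    have : (2 : ℝ) ≤ q := by exact_mod_cast hq
    linarith
  have hQpos : Q ≠ 0 := by
    rw [hQ]
    exact_mod_cast (show q ^ 2 + q + 1 ≠ 0 by omega)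
  have hQe : Q = (q : ℝ) ^ 2 + q + 1 := by rw [hQ]; push_cast; ring
  have hfin := rec_zero hq1 c e hde (by
    intro j
    have h5 := hrec j
    have h6 : Q * (q * ((e (j + 2) - 2 * e (j + 1) + e j) - 2 * (e (j + 1) - 2 * e j + e (j - 1)) +
      (e j - 2 * e (j - 1) + e (j - 2))) - (q - 1) ^ 2 * (e (j + 1) - 2 * e j + e (j - 1))) = 0 := by
      have h7 : Q * (Q * e j - Q * e (j + 1) + q * e (j + 2)) -
        Q * (Q * e (j - 1) - Q * e j + q * e (j + 1)) +
        q * (Q * e (j - 2) - Q * e (j - 1) + q * e j) - (q : ℝ) * (q * e j) = 0 := by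
        rw [← h5]; ring
      rw [← h7, hQe]
      ring
    rcases mul_eq_zero.mp h6 with h8 | h8
    · exact absurd h8 hQpos
    · exact sub_eq_zero.mp h8) 1
  have he0 : e 0 = 0 := by
    change om φ a (AA t a 0) = 0
    rw [e0]
    unfold om
    rw [mul_inv_cancel_right, mul_inv_cancel, hadd.one]
  have a1 : (1 : ℤ) + 1 = 2 := by norm_num
  have a2 : (1 : ℤ) - 1 = 0 := by norm_num
  rw [a1, a2, he0] at hfin
  change e 2 = 2 * e 1
  linarith

end om

end Pool.Agent.Helper29
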