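import Pool.Agent.Helper29.NilKrull
import Pool.Agent.Helper29.NilG

/-!
The ultraproduct step.
-/

set_option autoImplicit false
set_option linter.unusedSectionVars false

namespace Pool.Agent.Helper29

open Filter

/-! ### Words and homomorphisms -/

theorem lift_hom {G H : Type} [Group G] [Group H] (φ : G →* H) (v : ℕ → G) (w : FreeGroup ℕ) :
    FreeGroup.lift (fun i => φ (v i)) w = φ (FreeGroup.lift v w) := by
  have : FreeGroup.lift (fun i => φ (v i)) = φ.comp (FreeGroup.lift v) := by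
    ext i : 1
    simp
  rw [this]; rfl

theorem exists_support (w : FreeGroup ℕ) : ∃ N : ℕ, ∀ (G : Type) [Group G] (v v' : ℕ → G),
    (∀ i < N, v i = v' i) → FreeGroup.lift v w = FreeGroup.lift v' w := by
  induction w using FreeGroup.induction_on with
  | C1 => exact ⟨0, fun G _ v v' _ => by simp⟩
  | of i => exact ⟨i + 1, fun G _ v v' h => by simpa using h i (by omega)⟩
  | inv_of i ih =>
    obtain ⟨N, hN⟩ := ih
    exact ⟨N, fun G _ v v' h => by rw [map_inv, map_inv, hN G v v' h]⟩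
  | mul x y hx hy =>
    obtain ⟨N, hN⟩ := hx
    obtain ⟨M, hM⟩ := hy
    exact ⟨max N M, fun G _ v v' h => by
      rw [map_mul, map_mul, hN G v v' (fun i hi => h i (lt_of_lt_of_le hi (le_max_left _ _))),
        hM G v v' (fun i hi => h i (lt_of_lt_of_le hi (le_max_right _ _)))]⟩

theorem exists_support' (s : Finset (FreeGroup ℕ)) : ∃ N : ℕ, ∀ (G : Type) [Group G] (v v' : ℕ → G),
    (∀ i < N, v i = v' i) → ∀ w ∈ s, FreeGroup.lift v w = FreeGroup.lift v' w := by
  classical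
  choose N hN using exists_support
  refine ⟨s.sup N, fun G _ v v' h w hw => hN w G v v' (fun i hi => h i (lt_of_lt_of_le hi ?_))⟩
  exact Finset.le_sup (f := N) hw

/-! ### The groups `M(A)` -/

/-- the data of `M(A)` -/
def MD (A : Type) [CommRing A] : KD Aˣ (A × A) A := HD (MonoidHom.id Aˣ) (AddMonoidHom.id A)

/-- functoriality -/
def MDmap {A B : Type} [CommRing A] [CommRing B] (φ : A →+* B) : KD.Hom (MD A) (MD B) where
  f := Units.map (φ : A →* B)
  g := AddMonoidHom.prodMap (φ : A →+ B) (φ : A →+ B)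
  h := (φ : A →+ B)
  hg u x := by
    apply Prod.ext
    · exact map_mul φ _ _
    · exact map_mul φ _ _
  hh x y := map_mul φ _ _

/-- scaling -/
def MDscale (c : ℚ) : KD.Hom (MD ℚ) (MD ℚ) where
  f := MonoidHom.id _
  g := AddMonoidHom.prodMap (AddMonoidHom.mulLeft c) (AddMonoidHom.mulLeft c)
  h := AddMonoidHom.mulLeft (c * c)
  hg u x := by
    apply Prod.ext
    · change c * ((u : ℚ) * x.1) = (u : ℚ) * (c * x.1); ring
    · change c * ((u⁻¹ : ℚˣ) * x.2) = (u⁻¹ : ℚˣ) * (c * x.2); ring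
  hh x y := by
    change c * c * (x.1 * y.2) = (c * x.1) * (c * y.2); ring

open OO in
/-- evaluation of `G_p` -/
noncomputable def evHom (p : ℕ) [hp : Fact p.Prime] : KD.Hom (DG p) (MD ℚ) where
  f := (Units.map ((ev1 : Op p →+* ℚ) : Op p →* ℚ)).comp (TT p).subtype
  g := AddMonoidHom.prod ((ev1 : Op p →+* ℚ) : Op p →+ ℚ) ((ev2 : Op p →+* ℚ) : Op p →+ ℚ)
  h := AddMonoidHom.id ℚ
  hg u x := by
    apply Prod.ext
    · change ev1 (((u : (Op p)ˣ) : Op p) * x) = ev1 (((u : (Op p)ˣ) : Op p)) * ev1 x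
      rw [map_mul]
    · change ev2 (((u : (Op p)ˣ) : Op p) * x) =
        (((Units.map ((ev1 : Op p →+* ℚ) : Op p →* ℚ) (u : (Op p)ˣ))⁻¹ : ℚˣ) : ℚ) * ev2 x
      rw [map_mul]
      congr 1
      rw [← map_inv]
      change ev2 (((u : (Op p)ˣ) : Op p)) = ev1 ((((u : (Op p)ˣ)⁻¹ : (Op p)ˣ)) : Op p)
      have h1 : ev1 (((u : (Op p)ˣ) : Op p)) * ev1 ((((u : (Op p)ˣ)⁻¹ : (Op p)ˣ)) : Op p) = 1 := by
        rw [← map_mul, Units.mul_inv, map_one]
      exact mul_left_cancel₀ u.2.2.2.1.ne' (u.2.2.1.trans h1.symm)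
  hh x y := rfl

/-! ### Integrality -/

theorem padic_pow (p : ℕ) [hp : Fact p.Prime] (M : ℕ) :
    padicNorm p ((p : ℚ) ^ M) = ((p : ℚ) ^ M)⁻¹ := by
  induction M with
  | zero => simp
  | succ M ih => rw [pow_succ, padicNorm.mul, ih, padicNorm.padicNorm_p_of_prime, mul_inv]

theorem exists_int (p : ℕ) [hp : Fact p.Prime] (r : ℚ) : ∃ N : ℕ, ∀ M, N ≤ M →
    padicNorm p ((p : ℚ) ^ M * r) ≤ 1 := by
  obtain ⟨N, hN⟩ := pow_unbounded_of_one_lt (padicNorm p r) (y := (p : ℚ))
    (by exact_mod_cast hp.out.one_lt)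
  have hp0 : (0 : ℚ) < p := by exact_mod_cast hp.out.pos
  refine ⟨N, fun M hM => ?_⟩
  have h1 : padicNorm p ((p : ℚ) ^ M) = ((p : ℚ) ^ M)⁻¹ := padic_pow p M
  rw [padicNorm.mul]
  have h2 : padicNorm p ((p : ℚ) ^ M) * (p : ℚ) ^ M = 1 := by
    rw [h1]
    exact inv_mul_cancel₀ (pow_ne_zero _ hp0.ne')
  have h3 : (p : ℚ) ^ N ≤ (p : ℚ) ^ M :=
    pow_le_pow_right₀ (by exact_mod_cast hp.out.one_lt.le) hM
  calc padicNorm p ((p : ℚ) ^ M) * padicNorm p r ≤ padicNorm p ((p : ℚ) ^ M) * (p : ℚ) ^ M :=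
        mul_le_mul_of_nonneg_left (hN.le.trans h3) (padicNorm.nonneg _)
    _ = 1 := h2


/-- integral elements of `M(ℚ)` -/
structure IntM (p : ℕ) (g : (MD ℚ).G) : Prop where
  pos : 0 < (g.u : ℚ)
  unit : padicNorm p ((g.u : ℚ) - 1) < 1
  x1 : padicNorm p g.x.1 ≤ 1
  x2 : padicNorm p g.x.2 ≤ 1
  z : padicNorm p g.z ≤ 1

theorem IntM.one (p : ℕ) : IntM p 1 :=
  ⟨one_pos, by
    have : (((1 : (MD ℚ).G).u : ℚˣ) : ℚ) = 1 := rfl
    rw [this, sub_self, padicNorm.zero]; exact one_pos,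
    by
      have : (1 : (MD ℚ).G).x.1 = 0 := rfl
      rw [this, padicNorm.zero]; exact zero_le_one,
    by
      have : (1 : (MD ℚ).G).x.2 = 0 := rfl
      rw [this, padicNorm.zero]; exact zero_le_one,
    by
      have : (1 : (MD ℚ).G).z = 0 := rfl
      rw [this, padicNorm.zero]; exact zero_le_one⟩

theorem local_step (p : ℕ) [hp : Fact p.Prime] (s : Finset (FreeGroup ℕ)) (N0 : ℕ)
    (hN0 : ∀ (G : Type) [Group G] (v v' : ℕ → G), (∀ i < N0, v i = v' i) →
      ∀ w ∈ s, FreeGroup.lift v w = FreeGroup.lift v' w) (v : ℕ → (DG p).G) :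
    ∃ w' : ℕ → (MD ℚ).G, (∀ i, IntM p (w' i)) ∧ (∀ i, N0 ≤ i → w' i = 1) ∧
      ((∀ w ∈ s, (FreeGroup.lift v w).u = 1 ∧ (FreeGroup.lift v w).x = 0 ∧
        (FreeGroup.lift v w).z < 0) → ∀ w ∈ s, (FreeGroup.lift w' w).u = 1 ∧
          (FreeGroup.lift w' w).x = 0 ∧ (FreeGroup.lift w' w).z < 0) := by
  classical
  choose J hJ using exists_int p
  let e : ℕ → (MD ℚ).G := fun i => (evHom p).map (v i)
  let N := (Finset.range N0).sup (fun i => max (J (e i).x.1) (max (J (e i).x.2) (J (e i).z)))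
  have hN : ∀ i < N0, J (e i).x.1 ≤ N ∧ J (e i).x.2 ≤ N ∧ J (e i).z ≤ N := by
    intro i hi
    have := Finset.le_sup (f := fun i => max (J (e i).x.1) (max (J (e i).x.2) (J (e i).z)))
      (Finset.mem_range.mpr hi)
    simp only [max_le_iff] at this
    exact this
  have hp0 : (0 : ℚ) < p := by exact_mod_cast hp.out.pos
  let c : ℚ := (p : ℚ) ^ N
  have hc : 0 < c := pow_pos hp0 _
  refine ⟨fun i => if i < N0 then (MDscale c).map (e i) else 1, ?_, ?_, ?_⟩
  · intro i
    by_cases hi : i < N0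
    · simp only [hi, if_true]
      obtain ⟨h1, h2, h3⟩ := hN i hi
      refine ⟨?_, ?_, ?_, ?_, ?_⟩
      · exact (v i).u.2.2.2.1
      · exact (v i).u.2.2.2.2
      · exact hJ _ _ h1
      · exact hJ _ _ h2
      · change padicNorm p (c * c * (e i).z) ≤ 1
        have e1 : c * c * (e i).z = (p : ℚ) ^ (N + N) * (e i).z := by
          rw [pow_add]
        rw [e1]
        exact hJ _ _ (h3.trans (Nat.le_add_left _ _))
    · simp only [hi, if_false]
      exact IntM.one p
  · intro i hi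
    simp only [not_lt.mpr hi, if_false]
  · intro h w hw
    have e1 := hN0 (MD ℚ).G (fun i => if i < N0 then (MDscale c).map (e i) else 1)
      (fun i => (MDscale c).map (e i)) (fun i hi => by simp only [hi, if_true]) w hw
    rw [e1, lift_hom, lift_hom]
    obtain ⟨h1, h2, h3⟩ := h w hw
    refine ⟨?_, ?_, ?_⟩
    · change (evHom p).f (FreeGroup.lift v w).u = 1
      rw [h1, map_one]
    · change (MDscale c).g ((evHom p).g (FreeGroup.lift v w).x) = 0
      rw [h2, map_zero, map_zero]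
    · change c * c * (FreeGroup.lift v w).z < 0
      exact mul_neg_of_pos_of_neg (mul_pos hc hc) h3

/-! ### Germs -/

/-- the ultrapower of the rationals -/
abbrev FF : Type := Germ (hyperfilter ℕ : Filter ℕ) ℚ

section germs

variable (p : ℕ → ℕ) [hp : ∀ n, Fact (p n).Prime] (hgt : ∀ n, n < p n)

/-- the integral germs -/
noncomputable def VV : Subalgebra ℚ FF where
  carrier := {x | ∃ f : ℕ → ℚ, x = (f : FF) ∧ ∀ᶠ n in (hyperfilter ℕ : Filter ℕ),
    padicNorm (p n) (f n) ≤ 1}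
  mul_mem' := by
    rintro _ _ ⟨f, rfl, hf⟩ ⟨g, rfl, hg⟩
    refine ⟨f * g, rfl, ?_⟩
    filter_upwards [hf, hg] with n h1 h2
    rw [Pi.mul_apply, padicNorm.mul]
    exact mul_le_one₀ h1 (padicNorm.nonneg _) h2
  add_mem' := by
    rintro _ _ ⟨f, rfl, hf⟩ ⟨g, rfl, hg⟩
    refine ⟨f + g, rfl, ?_⟩
    filter_upwards [hf, hg] with n h1 h2
    rw [Pi.add_apply]
    exact padicNorm.nonarchimedean.trans (max_le h1 h2)
  algebraMap_mem' := by
    intro r
    refine ⟨fun _ => r, ?_, ?_⟩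
    · have h1 : (algebraMap ℚ FF) = (Germ.coeRingHom (hyperfilter ℕ : Filter ℕ)).comp
        (Pi.constRingHom ℕ ℚ) := RingHom.ext_rat _ _
      rw [h1]; rfl
    · have h1 : ∀ᶠ n in (hyperfilter ℕ : Filter ℕ), r.den < n :=
        (Nat.hyperfilter_le_atTop) (eventually_gt_atTop r.den)
      filter_upwards [h1] with n hn
      have h2 : ¬ (p n) ∣ r.den := by
        intro h
        have := Nat.le_of_dvd r.den_pos h
        have := hgt n
        omega
      have h3 := (padicNorm.nat_eq_one_iff (p := p n) r.den).mpr h2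
      have h4 : padicNorm (p n) r * padicNorm (p n) (r.den : ℚ) = padicNorm (p n) (r.num : ℚ) := by
        rw [← padicNorm.mul, Rat.mul_den_eq_num]
      rw [h3, mul_one] at h4
      rw [h4]
      exact padicNorm.of_int _

/-- the infinitesimal elements of a subalgebra -/
noncomputable def II (R : Subalgebra ℚ FF) (hR : R ≤ VV p hgt) : Ideal R where
  carrier := {x | ∃ f : ℕ → ℚ, (x : FF) = (f : FF) ∧ ∀ᶠ n in (hyperfilter ℕ : Filter ℕ),
    padicNorm (p n) (f n) < 1}
  add_mem' := by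
    rintro x y ⟨f, hf', hf⟩ ⟨g, hg', hg⟩
    refine ⟨f + g, ?_, ?_⟩
    · rw [Subalgebra.coe_add, hf', hg']; rfl
    filter_upwards [hf, hg] with n h1 h2
    rw [Pi.add_apply]
    exact lt_of_le_of_lt padicNorm.nonarchimedean (max_lt h1 h2)
  zero_mem' := by
    refine ⟨0, rfl, ?_⟩
    filter_upwards with n
    simp
  smul_mem' := by
    rintro c x ⟨f, hf', hf⟩
    obtain ⟨g, hg', hg⟩ := hR c.2
    refine ⟨g * f, ?_, ?_⟩
    · rw [smul_eq_mul, Subalgebra.coe_mul, hf', hg']; rfl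
    filter_upwards [hf, hg] with n h1 h2
    rw [Pi.mul_apply, padicNorm.mul]
    exact mul_lt_one_of_nonneg_of_lt_one_right h2 (padicNorm.nonneg _) h1

theorem II_ne_top (R : Subalgebra ℚ FF) (hR : R ≤ VV p hgt) : II p hgt R hR ≠ ⊤ := by
  intro h
  have h1 : (1 : R) ∈ II p hgt R hR := by rw [h]; trivial
  obtain ⟨f, hf', hf⟩ := h1
  have h2 : ((fun _ => (1 : ℚ)) : ℕ → ℚ) =ᶠ[(hyperfilter ℕ : Filter ℕ)] f := by
    have h3 : ((((fun _ => (1 : ℚ)) : ℕ → ℚ)) : FF) = (f : FF) := hf'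
    exact Germ.coe_eq.mp h3
  have h4 : ∀ᶠ n in (hyperfilter ℕ : Filter ℕ), False := by
    filter_upwards [h2, hf] with n h5 h6
    rw [← h5] at h6
    simp at h6
  exact h4.exists.elim fun _ h => h

end germs


section main

variable (p : ℕ → ℕ) [hp : ∀ n, Fact (p n).Prime]

/-- the sequence ring -/
abbrev SR : Type := ℕ → ℚ

/-- an element of `M` of the sequence ring -/
def seqM (w : ℕ → (MD ℚ).G) : (MD SR).G where
  u := MulEquiv.piUnits.symm (fun n => (w n).u)
  x := (fun n => (w n).x.1, fun n => (w n).x.2)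
  z := fun n => (w n).z

theorem seqM_eval (w : ℕ → (MD ℚ).G) (n : ℕ) :
    (MDmap (Pi.evalRingHom (fun _ : ℕ => ℚ) n)).map (seqM w) = w n := by
  apply KD.G.ext
  · apply Units.ext; rfl
  · rfl
  · rfl

/-- the germ map -/
noncomputable def gm : SR →+* FF := Germ.coeRingHom (hyperfilter ℕ : Filter ℕ)

theorem gm_eq {f g : SR} : gm f = gm g ↔ ∀ᶠ n in (hyperfilter ℕ : Filter ℕ), f n = g n :=
  Germ.coe_eq

theorem gm_lt {f g : SR} : gm f < gm g ↔ ∀ᶠ n in (hyperfilter ℕ : Filter ℕ), f n < g n :=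
  Germ.coe_lt

theorem ultra_main (s : Finset (FreeGroup ℕ)) (N0 : ℕ) (w : ℕ → ℕ → (MD ℚ).G)
    (hgt : ∀ n, n < p n) (hint : ∀ n i, IntM (p n) (w n i)) (hone : ∀ n i, N0 ≤ i → w n i = 1)
    (hs : ∀ᶠ n in (hyperfilter ℕ : Filter ℕ), ∀ r ∈ s, (FreeGroup.lift (w n) r).u = 1 ∧
      (FreeGroup.lift (w n) r).x = 0 ∧ (FreeGroup.lift (w n) r).z < 0) :
    ∃ (H : Type) (_ : Group H) (_ : LinearOrder H) (_ : MulLeftMono H) (_ : MulRightMono H),
      Group.IsNilpotent H ∧ ∃ v' : ℕ → H, ∀ r ∈ s, FreeGroup.lift v' r < 1 := by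
  classical
  -- the sequence level
  let wS : ℕ → (MD SR).G := fun i => seqM (fun n => w n i)
  have hS : ∀ n r, (MDmap (Pi.evalRingHom (fun _ : ℕ => ℚ) n)).map (FreeGroup.lift wS r) =
      FreeGroup.lift (w n) r := by
    intro n r
    rw [← lift_hom]
    have e : (fun i => (MDmap (Pi.evalRingHom (fun _ : ℕ => ℚ) n)).map (wS i)) = w n :=
      funext fun i => seqM_eval _ n
    rw [e]
  let wF : ℕ → (MD FF).G := fun i => (MDmap gm).map (wS i)
  have hF : ∀ r, FreeGroup.lift wF r = (MDmap gm).map (FreeGroup.lift wS r) :=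
    fun r => lift_hom _ _ _
  have hFs : ∀ r ∈ s, (FreeGroup.lift wF r).u = 1 ∧ (FreeGroup.lift wF r).x = 0 ∧
      (FreeGroup.lift wF r).z < 0 := by
    intro r hr
    rw [hF]
    have h1 : ∀ᶠ n in (hyperfilter ℕ : Filter ℕ), (FreeGroup.lift (w n) r).u = 1 ∧
      (FreeGroup.lift (w n) r).x = 0 ∧ (FreeGroup.lift (w n) r).z < 0 := by
      filter_upwards [hs] with n hn
      exact hn r hr
    refine ⟨?_, ?_, ?_⟩
    · apply Units.ext
      change gm ((FreeGroup.lift wS r).u : SR) = 1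
      rw [← map_one gm, gm_eq]
      filter_upwards [h1] with n hn
      have h2 := congrArg (fun g => ((KD.G.u g : ℚˣ) : ℚ)) (hS n r)
      change ((FreeGroup.lift wS r).u : SR) n = _ at h2
      rw [h2, hn.1]; rfl
    · apply Prod.ext
      · change gm ((FreeGroup.lift wS r).x.1 : SR) = 0
        rw [← map_zero gm, gm_eq]
        filter_upwards [h1] with n hn
        have h2 := congrArg (fun g => (KD.G.x g).1) (hS n r)
        change (FreeGroup.lift wS r).x.1 n = _ at h2
        rw [h2, hn.2.1]; rfl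
      · change gm ((FreeGroup.lift wS r).x.2 : SR) = 0
        rw [← map_zero gm, gm_eq]
        filter_upwards [h1] with n hn
        have h2 := congrArg (fun g => (KD.G.x g).2) (hS n r)
        change (FreeGroup.lift wS r).x.2 n = _ at h2
        rw [h2, hn.2.1]; rfl
    · change gm ((FreeGroup.lift wS r).z : SR) < 0
      rw [← map_zero gm, gm_lt]
      filter_upwards [h1] with n hn
      have h2 := congrArg (fun g => KD.G.z g) (hS n r)
      change (FreeGroup.lift wS r).z n = _ at h2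
      rw [h2]; exact hn.2.2
  have hFone : ∀ i, N0 ≤ i → wF i = 1 := by
    intro i hi
    have : wS i = 1 := by
      apply KD.G.ext
      · apply Units.ext
        funext n
        change ((w n i).u : ℚ) = 1
        rw [hone n i hi]; rfl
      · apply Prod.ext
        · funext n
          change (w n i).x.1 = 0
          rw [hone n i hi]; rfl
        · funext n
          change (w n i).x.2 = 0
          rw [hone n i hi]; rfl
      · funext n
        change (w n i).z = 0
        rw [hone n i hi]; rfl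
    change (MDmap gm).map (wS i) = 1
    rw [this, map_one]
  -- the finitely generated ring
  let S : Finset FF := (Finset.range N0).biUnion (fun i =>
    {((wF i).u : FF), (((wF i).u⁻¹ : FFˣ) : FF), (wF i).x.1, (wF i).x.2, (wF i).z})
  let R : Subalgebra ℚ FF := Algebra.adjoin ℚ (S : Set FF)
  have hRmem : ∀ i, ((wF i).u : FF) ∈ R ∧ (((wF i).u⁻¹ : FFˣ) : FF) ∈ R ∧ (wF i).x.1 ∈ R ∧
      (wF i).x.2 ∈ R ∧ (wF i).z ∈ R := by
    intro i
    by_cases hi : i < N0
    · have h1 : ∀ y ∈ ({((wF i).u : FF), (((wF i).u⁻¹ : FFˣ) : FF), (wF i).x.1, (wF i).x.2,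
          (wF i).z} : Finset FF), y ∈ R := by
        intro y hy
        apply Algebra.subset_adjoin
        exact Finset.mem_coe.mpr (Finset.mem_biUnion.mpr ⟨i, Finset.mem_range.mpr hi, hy⟩)
      refine ⟨h1 _ ?_, h1 _ ?_, h1 _ ?_, h1 _ ?_, h1 _ ?_⟩ <;> simp
    · rw [hFone i (not_lt.mp hi)]
      refine ⟨?_, ?_, ?_, ?_, ?_⟩
      · exact R.one_mem
      · simp only [KD.one_u, inv_one, Units.val_one]; exact R.one_mem
      · exact R.zero_mem
      · exact R.zero_mem
      · exact R.zero_mem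
  have hVmem : ∀ i, ((wF i).u : FF) ∈ VV p hgt ∧ (((wF i).u⁻¹ : FFˣ) : FF) ∈ VV p hgt ∧
      (wF i).x.1 ∈ VV p hgt ∧ (wF i).x.2 ∈ VV p hgt ∧ (wF i).z ∈ VV p hgt := by
    intro i
    refine ⟨⟨fun n => ((w n i).u : ℚ), rfl, ?_⟩, ⟨fun n => (((w n i).u⁻¹ : ℚˣ) : ℚ), rfl, ?_⟩,
      ⟨fun n => (w n i).x.1, rfl, ?_⟩, ⟨fun n => (w n i).x.2, rfl, ?_⟩,
      ⟨fun n => (w n i).z, rfl, ?_⟩⟩
    · filter_upwards with n
      exact (padic_le_of_one (hint n i).unit).le
    · filter_upwards with n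
      have := padic_inv_one (hint n i).unit
      rw [Units.val_inv_eq_inv_val]
      exact (padic_le_of_one this).le
    · filter_upwards with n using (hint n i).x1
    · filter_upwards with n using (hint n i).x2
    · filter_upwards with n using (hint n i).z
  have hRV : R ≤ VV p hgt := by
    apply Algebra.adjoin_le
    intro y hy
    obtain ⟨i, hi, hy⟩ := Finset.mem_biUnion.mp (Finset.mem_coe.mp hy)
    simp only [Finset.mem_insert, Finset.mem_singleton] at hy
    rcases hy with rfl | rfl | rfl | rfl | rfl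
    · exact (hVmem i).1
    · exact (hVmem i).2.1
    · exact (hVmem i).2.2.1
    · exact (hVmem i).2.2.2.1
    · exact (hVmem i).2.2.2.2
  have hNoeth : IsNoetherianRing R := by
    have h1 : R.FG := Subalgebra.fg_adjoin_finset S
    have h2 : Algebra.FiniteType ℚ R := R.fg_iff_finiteType.mp h1
    exact Algebra.FiniteType.isNoetherianRing ℚ R
  let I := II p hgt R hRV
  -- lift to the ring
  have hunit : ∀ i, ∃ u : posUnits R.val I, Units.map (R.val : R →* FF) (u : Rˣ) = (wF i).u := by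
    intro i
    obtain ⟨h1, h2, -⟩ := hRmem i
    let u0 : Rˣ := ⟨⟨_, h1⟩, ⟨_, h2⟩, Subtype.ext (Units.mul_inv _), Subtype.ext (Units.inv_mul _)⟩
    refine ⟨⟨u0, ?_, ?_⟩, ?_⟩
    · change (0 : FF) < ((wF i).u : FF)
      change (0 : FF) < gm (fun n => ((w n i).u : ℚ))
      rw [← map_zero gm, gm_lt]
      filter_upwards with n using (hint n i).pos
    · refine ⟨fun n => ((w n i).u : ℚ) - 1, rfl, ?_⟩
      filter_upwards with n using (hint n i).unit
    · exact Units.ext rfl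
  choose uR huR using hunit
  let wR : ℕ → (HD (posUnits R.val I).subtype (AddMonoidHom.id R)).G := fun i =>
    ⟨uR i, (⟨(wF i).x.1, (hRmem i).2.2.1⟩, ⟨(wF i).x.2, (hRmem i).2.2.2.1⟩),
      ⟨(wF i).z, (hRmem i).2.2.2.2⟩⟩
  let δ : KD.Hom (HD (posUnits R.val I).subtype (AddMonoidHom.id R)) (MD FF) :=
    { f := (Units.map (R.val : R →* FF)).comp (posUnits R.val I).subtype
      g := AddMonoidHom.prodMap (R.val : R →+ FF) (R.val : R →+ FF)
      h := (R.val : R →+ FF)
      hg := fun u x => rfl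
      hh := fun x y => rfl }
  have hδ : ∀ i, δ.map (wR i) = wF i := by
    intro i
    apply KD.G.ext
    · exact huR i
    · rfl
    · rfl
  have hR : ∀ r, δ.map (FreeGroup.lift wR r) = FreeGroup.lift wF r := by
    intro r
    rw [← lift_hom]
    have e : (fun i => δ.map (wR i)) = wF := funext hδ
    rw [e]
  refine krull_step R.val Subtype.val_injective I (II_ne_top p hgt R hRV) s wR ?_
  intro r hr
  obtain ⟨h1, h2, h3⟩ := hFs r hr
  rw [← hR] at h1 h2 h3
  refine ⟨?_, ?_, ?_⟩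
  · have h4 : Units.map (R.val : R →* FF) (((FreeGroup.lift wR r).u : posUnits R.val I) : Rˣ) = 1 :=
      h1
    have h5 : (((FreeGroup.lift wR r).u : posUnits R.val I) : Rˣ) = 1 := by
      apply Units.ext
      apply Subtype.ext
      exact congrArg Units.val h4
    exact Subtype.ext h5
  · have h4 : ((((FreeGroup.lift wR r).x.1 : R) : FF), (((FreeGroup.lift wR r).x.2 : R) : FF)) =
      (0 : FF × FF) := h2
    rw [Prod.mk_eq_zero] at h4
    exact Prod.ext (Subtype.ext h4.1) (Subtype.ext h4.2)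
  · exact h3

end main

end Pool.Agent.Helper29
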