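import Pool.Agent.Helper29.NilTrunc
import Pool.Agent.Helper29.NilUltra

/-!
Any finite set of identities valid in all nilpotent ℓ-groups holds in some `G_p`.
-/

set_option autoImplicit false
set_option linter.unusedSectionVars false

namespace Pool.Agent.Helper29

open Filter

/-- lexicographic product of two ordered groups -/
def LexG (H K : Type) : Type := H × K

/-- pairing -/
def LexG.mk {H K : Type} (a : H) (b : K) : LexG H K := (a, b)

section lex

variable {H K : Type} [Group H] [Group K]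

instance : Group (LexG H K) := inferInstanceAs (Group (H × K))

variable [LinearOrder H] [LinearOrder K]

noncomputable instance : LinearOrder (LexG H K) :=
  LinearOrder.lift' (fun a : H × K => (toLex a : H ×ₗ K)) (fun _ _ h => h)

theorem LexG.lt_iff {a b : LexG H K} : a < b ↔ a.1 < b.1 ∨ (a.1 = b.1 ∧ a.2 < b.2) :=
  Prod.Lex.toLex_lt_toLex (x := (a : H × K)) (y := b)

variable [MulLeftMono H] [MulRightMono H] [MulLeftMono K] [MulRightMono K]

instance : MulLeftMono (LexG H K) := by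
  constructor
  intro c a b h
  rcases eq_or_lt_of_le h with h | h
  · rw [h]
  · apply le_of_lt
    change c * a < c * b
    rw [LexG.lt_iff] at h ⊢
    rcases h with h | ⟨h1, h2⟩
    · left; exact mul_lt_mul_right h c.1
    · right
      exact ⟨congrArg (fun t => c.1 * t) h1, mul_lt_mul_right h2 c.2⟩

instance : MulRightMono (LexG H K) := by
  constructor
  intro c a b h
  rcases eq_or_lt_of_le h with h | h
  · rw [h]
  · apply le_of_lt
    change a * c < b * c
    rw [LexG.lt_iff] at h ⊢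
    rcases h with h | ⟨h1, h2⟩
    · left; exact mul_lt_mul_left h c.1
    · right
      exact ⟨congrArg (fun t => t * c.1) h1, mul_lt_mul_left h2 c.2⟩

instance [Group.IsNilpotent H] [Group.IsNilpotent K] : Group.IsNilpotent (LexG H K) :=
  inferInstanceAs (Group.IsNilpotent (H × K))

end lex

theorem lift_lex {H K : Type} [Group H] [Group K] (v : ℕ → H) (v' : ℕ → K) (w : FreeGroup ℕ) :
    FreeGroup.lift (fun i => LexG.mk (v i) (v' i)) w =
      LexG.mk (FreeGroup.lift v w) (FreeGroup.lift v' w) := by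
  have h1 : (FreeGroup.lift (fun i => LexG.mk (v i) (v' i)) w).1 = FreeGroup.lift v w :=
    (lift_hom (G := LexG H K) (MonoidHom.fst H K) (fun i => LexG.mk (v i) (v' i)) w).symm
  have h2 : (FreeGroup.lift (fun i => LexG.mk (v i) (v' i)) w).2 = FreeGroup.lift v' w :=
    (lift_hom (G := LexG H K) (MonoidHom.snd H K) (fun i => LexG.mk (v i) (v' i)) w).symm
  exact Prod.ext h1 h2

/-- Key step: a finite set of words negative in `G_{p n}` for almost all `n` is negative in some
nilpotent ordered group. -/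
theorem nil_of_seq (p : ℕ → ℕ) [hp : ∀ n, Fact (p n).Prime] (hgt : ∀ n, n < p n)
    (s : Finset (FreeGroup ℕ)) (v : ∀ n, ℕ → (DG (p n)).G)
    (hs : ∀ᶠ n in (hyperfilter ℕ : Filter ℕ), ∀ w ∈ s, FreeGroup.lift (v n) w < 1) :
    ∃ (H : Type) (_ : Group H) (_ : LinearOrder H) (_ : MulLeftMono H) (_ : MulRightMono H),
      Group.IsNilpotent H ∧ ∃ v' : ℕ → H, ∀ w ∈ s, FreeGroup.lift v' w < 1 := by
  classical
  let Z : FreeGroup ℕ → ℕ → Prop := fun w n =>
    (FreeGroup.lift (v n) w).u = 1 ∧ (FreeGroup.lift (v n) w).x = 0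
  let s' := s.filter (fun w => ∀ᶠ n in (hyperfilter ℕ : Filter ℕ), Z w n)
  -- a good index
  have h1 : ∀ᶠ n in (hyperfilter ℕ : Filter ℕ), ∀ w ∈ s,
      (Z w n ↔ ∀ᶠ m in (hyperfilter ℕ : Filter ℕ), Z w m) := by
    rw [Filter.eventually_all_finset]
    intro w _
    by_cases h : ∀ᶠ m in (hyperfilter ℕ : Filter ℕ), Z w m
    · filter_upwards [h] with n hn
      exact ⟨fun _ => h, fun _ => hn⟩
    · have h' : ∀ᶠ m in (hyperfilter ℕ : Filter ℕ), ¬ Z w m := Ultrafilter.eventually_not.mpr h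
      filter_upwards [h'] with n hn
      exact ⟨fun h2 => absurd h2 hn, fun h2 => absurd h2 h⟩
  obtain ⟨n0, hn0, hn0'⟩ := (hs.and h1).exists
  obtain ⟨H1, _, _, _, _, hnil1, v1, hv1⟩ := trunc_step (p n0) s (v n0) hn0
  -- the ultraproduct part
  obtain ⟨N0, hN0⟩ := exists_support' s'
  choose w hw1 hw2 hw3 using fun n => local_step (p n) s' N0 hN0 (v n)
  have h2 : ∀ᶠ n in (hyperfilter ℕ : Filter ℕ), ∀ r ∈ s', (FreeGroup.lift (v n) r).u = 1 ∧
      (FreeGroup.lift (v n) r).x = 0 ∧ (FreeGroup.lift (v n) r).z < 0 := by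
    rw [Filter.eventually_all_finset]
    intro r hr
    obtain ⟨hrs, hrz⟩ := Finset.mem_filter.mp hr
    filter_upwards [hs, hrz] with n h3 h4
    have h5 := h3 r hrs
    rw [KD.lt_iff] at h5
    rcases h5 with h5 | ⟨h5, h6 | ⟨h6, h7⟩⟩
    · exact absurd (h4.1 ▸ h5) (lt_irrefl _)
    · exact absurd (h4.2 ▸ h6) (lt_irrefl _)
    · exact ⟨h4.1, h4.2, h7⟩
  obtain ⟨H2, _, _, _, _, hnil2, v2, hv2⟩ := ultra_main p s' N0 w hgt hw1 hw2 (by
    filter_upwards [h2] with n hn
    exact hw3 n hn)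
  refine ⟨LexG H1 H2, inferInstance, inferInstance, inferInstance, inferInstance, inferInstance,
    fun i => LexG.mk (v1 i) (v2 i), ?_⟩
  intro r hr
  rw [lift_lex v1 v2 r, LexG.lt_iff]
  rcases hv1 r hr with h4 | ⟨h4, h5, h6⟩
  · exact Or.inl h4
  · right
    refine ⟨h6, ?_⟩
    have h7 : r ∈ s' := Finset.mem_filter.mpr ⟨hr, (hn0' r hr).mp ⟨h4, h5⟩⟩
    exact hv2 r h7

/-- Any finite set of identities valid in all nilpotent ℓ-groups holds in some `G_p`. -/
theorem part2 (E : Finset (Finset (FreeGroup ℕ)))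
    (hE : ∀ (H : Type) [Group H] [Lattice H] [MulLeftMono H] [MulRightMono H],
      Group.IsNilpotent H → ∀ s ∈ E, ∀ hs : s.Nonempty, ∀ v : ℕ → H,
        (1 : H) ≤ s.sup' hs (fun w => FreeGroup.lift v w)) :
    ∃ (p : ℕ) (_ : Fact p.Prime), ∀ s ∈ E, ∀ hs : s.Nonempty, ∀ v : ℕ → (DG p).G,
      (1 : (DG p).G) ≤ s.sup' hs (fun w => FreeGroup.lift v w) := by
  classical
  by_contra hcon
  push Not at hcon
  choose p hpn hpp using fun n : ℕ => Nat.exists_infinite_primes (n + 1)
  have hp : ∀ n, Fact (p n).Prime := fun n => ⟨hpp n⟩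
  have hgt : ∀ n, n < p n := fun n => hpn n
  choose s hsE hsne v hv using fun n => hcon (p n) (hp n)
  have h1 : ∀ᶠ n in (hyperfilter ℕ : Filter ℕ), ∃ t ∈ (E : Set (Finset (FreeGroup ℕ))), s n = t := by
    filter_upwards with n
    exact ⟨s n, hsE n, rfl⟩
  rw [Ultrafilter.eventually_exists_mem_iff E.finite_toSet] at h1
  obtain ⟨t, htE, ht⟩ := h1
  obtain ⟨H, _, _, _, _, hnil, v', hv'⟩ := nil_of_seq p hgt t v (by
    filter_upwards [ht] with n hn w hw
    have h2 := hv n
    rw [Finset.sup'_lt_iff] at h2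
    exact h2 w (hn ▸ hw))
  obtain ⟨n, hn⟩ := ht.exists
  have htne : t.Nonempty := hn ▸ hsne n
  have h3 := hE H hnil t htE htne v'
  rw [Finset.le_sup'_iff] at h3
  obtain ⟨w, hw, h4⟩ := h3
  exact absurd (hv' w hw) (not_lt.mpr h4)

end Pool.Agent.Helper29
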