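import Pool.Agent.Helper29.Conj
import Pool.Agent.Helper29.Hol3
import Pool.Agent.Helper29.NilK
import Pool.Agent.Helper29.Forward

/-!
Nilpotent ℓ-groups: they are normal valued, all primes are normal and all the Hölder maps are
conjugation invariant.
-/

set_option autoImplicit false
set_option linter.unusedSectionVars false

namespace Pool.Agent.Helper29

/-! ### Commutators -/

/-- commutator map -/
def ad {G : Type} [Group G] (x a : G) : G := x * a * x⁻¹ * a⁻¹

open scoped commutatorElement in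
theorem exists_ad {G : Type} [Group G] (hn : Group.IsNilpotent G) :
    ∃ c : ℕ, (∀ x a : G, (ad x)^[c] a = 1) ∧
      ∀ f g : ℕ → G, (∀ k, f (k + 1) = f k * g k * (f k)⁻¹ * (g k)⁻¹) → f c = 1 := by
  rw [Subgroup.nilpotent_iff_finite_descending_central_series] at hn
  obtain ⟨c, H, ⟨h0, hH⟩, hc⟩ := hn
  refine ⟨c, ?_, ?_⟩
  · intro x a
    have key : ∀ k, (ad x)^[k] a ∈ H k := by
      intro k
      induction k with
      | zero => rw [h0]; trivial
      | succ k ih =>
        rw [Function.iterate_succ_apply']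
        have h1 := (H (k + 1)).inv_mem (hH _ k ih x)
        have e : (⁅(ad x)^[k] a, x⁆)⁻¹ = ad x ((ad x)^[k] a) := by
          rw [commutatorElement_def, ad]; group
        rwa [e] at h1
    have := key c
    rw [hc] at this
    exact Subgroup.mem_bot.mp this
  · intro f g hfg
    have key : ∀ k, f k ∈ H k := by
      intro k
      induction k with
      | zero => rw [h0]; trivial
      | succ k ih =>
        have h1 := hH _ k ih (g k)
        rw [commutatorElement_def] at h1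
        rw [hfg k]; exact h1
    have := key c
    rw [hc] at this
    exact Subgroup.mem_bot.mp this

/-! ### Nilpotent ℓ-groups are normal valued -/

section nv

/-- the double of an ℓ-group -/
def dbl (H : Type) [Group H] [Lattice H] [MulLeftMono H] [MulRightMono H] : MGroup where
  carrier := H × Hᵒᵈ
  mulLeft := prod_mulLeftMono _ _
  mulRight := prod_mulRightMono _ _
  star x := (OrderDual.ofDual x.2, OrderDual.toDual x.1)
  star_mul _ _ := rfl
  star_star _ := rfl
  star_sup _ _ := rfl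
  star_inf _ _ := rfl

/-- the commutator terms -/
def nt : ℕ → MTerm
  | 0 => MTerm.var 0
  | k + 1 => MTerm.mul (MTerm.mul (MTerm.mul (nt k) (MTerm.var (k + 1))) (MTerm.inv (nt k)))
      (MTerm.inv (MTerm.var (k + 1)))

/-- the affine group -/
def affD : KD {u : ℚ // 0 < u} ℚ ℚ where
  act u x := (u : ℚ) * x
  act_one x := by simp
  act_mul u v x := by simp [mul_assoc]
  act_add u x y := by ring
  bil _ _ := 0
  bil_add_left x y z := by simp
  bil_add_right x y z := by simp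
  bil_act u x y := rfl

instance : LinearOrder affD.G := affD.linearOrder

theorem affD_strict : ∀ u x y, x < y → affD.act u x < affD.act u y :=
  fun u _ _ h => mul_lt_mul_of_pos_left h u.2

instance : MulLeftMono affD.G := KD.mulLeftMono affD_strict
instance : MulRightMono affD.G := KD.mulRightMono

theorem aff_not (c : ℕ) : ¬ (dbl affD.G).Satisfies (nt c, MTerm.one) := by
  intro h
  let g : affD.G := ⟨⟨2, two_pos⟩, 0, 0⟩
  let a : affD.G := ⟨1, 1, 0⟩
  let v : ℕ → (dbl affD.G).carrier := fun n =>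
    match n with
    | 0 => ((a, 1) : affD.G × affD.Gᵒᵈ)
    | _ + 1 => ((g, 1) : affD.G × affD.Gᵒᵈ)
  have key : ∀ k, ∃ z, (((dbl affD.G).eval v (nt k) : affD.G × affD.Gᵒᵈ)).1 =
      (⟨1, (-1) ^ k, z⟩ : affD.G) := by
    intro k
    induction k with
    | zero => exact ⟨0, rfl⟩
    | succ k ih =>
      obtain ⟨z, hz⟩ := ih
      have e : (((dbl affD.G).eval v (nt (k + 1)) : affD.G × affD.Gᵒᵈ)).1 =
        (((dbl affD.G).eval v (nt k) : affD.G × affD.Gᵒᵈ)).1 * g *
          ((((dbl affD.G).eval v (nt k) : affD.G × affD.Gᵒᵈ)).1)⁻¹ * g⁻¹ := rfl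
      rw [e, hz]
      refine ⟨_, KD.G.ext ?_ ?_ rfl⟩
      · simp
      · simp only [KD.mul_x, KD.mul_u, KD.inv_x, KD.inv_u, g]
        have e1 : ∀ (u : {u : ℚ // 0 < u}) (x : ℚ), affD.act u x = (u : ℚ) * x := fun _ _ => rfl
        simp only [e1]
        simp
        ring
  obtain ⟨z, hz⟩ := key c
  have h1 := h v
  have h2 : (((dbl affD.G).eval v (nt c) : affD.G × affD.Gᵒᵈ)).1 = (1 : affD.G) := by
    have h3 : ((dbl affD.G).eval v (nt c) : affD.G × affD.Gᵒᵈ) = (1 : affD.G × affD.Gᵒᵈ) := h1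
    rw [h3]; rfl
  rw [h2] at hz
  have h4 : (0 : ℚ) = (-1) ^ c := congrArg KD.G.x hz
  exact absurd h4.symm (pow_ne_zero c (by norm_num))

theorem nil_nv {H : Type} [Group H] [Lattice H] [MulLeftMono H] [MulRightMono H]
    (hn : Group.IsNilpotent H) : NV H := by
  by_contra hnv
  have hn' : Group.IsNilpotent (dbl H).carrier := by
    have h1 : Group.IsNilpotent Hᵒᵈ := hn
    exact inferInstanceAs (Group.IsNilpotent (H × Hᵒᵈ))
  obtain ⟨c, -, hc⟩ := exists_ad hn'
  have hG : dbl H ∈ Models {(nt c, MTerm.one)} := by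
    intro e he
    rw [Set.mem_singleton_iff] at he
    subst he
    intro v
    exact hc (fun k => (dbl H).eval v (nt k)) (fun k => v (k + 1)) (fun k => rfl)
  have hnv' : ¬ NV (dbl H).carrier := by
    intro h
    apply hnv
    intro a b ha hb
    have h1 := h ((a, 1) : H × Hᵒᵈ) ((b, 1) : H × Hᵒᵈ) ⟨ha, le_rfl⟩ ⟨hb, le_rfl⟩
    exact h1.1
  have h2 := holland hG hnv' (dbl affD.G) (nt c, MTerm.one) rfl
  exact aff_not c h2

end nv

/-! ### Differences -/

/-- difference operator -/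
def dd (p : ℤ → ℝ) : ℤ → ℝ := fun n => p (n + 1) - p n

theorem const_of_dd {p : ℤ → ℝ} (h : dd p = 0) (n : ℤ) : p n = p 0 := by
  have h1 : ∀ n, p (n + 1) = p n := fun n => sub_eq_zero.mp (congrFun h n)
  induction n using Int.induction_on with
  | zero => rfl
  | succ i ih => rw [h1, ih]
  | pred i ih =>
    have := h1 (-(i : ℤ) - 1)
    rw [sub_add_cancel, ih] at this
    exact this.symm

theorem zero_of_dd (k : ℕ) : ∀ p : ℤ → ℝ, dd^[k] p = 0 → (∃ N : ℤ, ∀ n, N ≤ n → p n = 0) →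
    p = 0 := by
  induction k with
  | zero => intro p h _; exact h
  | succ k ih =>
    intro p h ⟨N, hN⟩
    rw [Function.iterate_succ_apply] at h
    have h1 := ih (dd p) h ⟨N, fun n hn => by
      unfold dd
      rw [hN n hn, hN (n + 1) (by omega), sub_zero]⟩
    funext n
    rw [const_of_dd h1 n, ← const_of_dd h1 N, hN N le_rfl]
    rfl

section conj

variable {H : Type} [Group H] [Lattice H] [MulLeftMono H] [MulRightMono H]

/-- additive maps on a subgroup -/
structure IsAdd (D : Subgroup H) (φ : H → ℝ) : Prop where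
  mul : ∀ x ∈ D, ∀ y ∈ D, φ (x * y) = φ x + φ y

omit [Lattice H] [MulLeftMono H] [MulRightMono H] in
theorem IsAdd.one {D : Subgroup H} {φ : H → ℝ} (h : IsAdd D φ) : φ 1 = 0 := by
  have := h.mul 1 D.one_mem 1 D.one_mem
  rw [one_mul] at this
  linarith

omit [Lattice H] [MulLeftMono H] [MulRightMono H] in
theorem IsAdd.inv {D : Subgroup H} {φ : H → ℝ} (h : IsAdd D φ) {x : H} (hx : x ∈ D) :
    φ x⁻¹ = -φ x := by
  have := h.mul x hx x⁻¹ (D.inv_mem hx)
  rw [mul_inv_cancel, h.one] at this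
  linarith

omit [Lattice H] [MulLeftMono H] [MulRightMono H] in
theorem IsAdd.pow {D : Subgroup H} {φ : H → ℝ} (h : IsAdd D φ) {x : H} (hx : x ∈ D) (n : ℕ) :
    φ (x ^ n) = n * φ x := by
  induction n with
  | zero => simp [h.one]
  | succ n ih =>
    rw [pow_succ, h.mul _ (D.pow_mem hx n) _ hx, ih]
    push_cast; ring

theorem IsAdd.sup {D : Subgroup H} (hD : IsCvx D) {φ : H → ℝ} (h : IsAdd D φ)
    (hs : ∀ x ∈ D, φ (x ⊔ 1) = max (φ x) 0) {x y : H} (hx : x ∈ D) (hy : y ∈ D) :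
    φ (x ⊔ y) = max (φ x) (φ y) := by
  have e : x ⊔ y = y * (y⁻¹ * x ⊔ 1) := by rw [mul_sup, mul_inv_cancel_left, mul_one]
  have h1 : y⁻¹ * x ∈ D := D.mul_mem (D.inv_mem hy) hx
  rw [e, h.mul _ hy _ (hD.sup_one _ h1), hs _ h1, h.mul _ (D.inv_mem hy) _ hx, h.inv hy,
    ← max_add_add_left]
  congr 1 <;> ring

theorem IsAdd.inf {D : Subgroup H} (hD : IsCvx D) {φ : H → ℝ} (h : IsAdd D φ)
    (hs : ∀ x ∈ D, φ (x ⊔ 1) = max (φ x) 0) {x y : H} (hx : x ∈ D) (hy : y ∈ D) :
    φ (x ⊓ y) = min (φ x) (φ y) := by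
  have e : x ⊓ y = (x⁻¹ ⊔ y⁻¹)⁻¹ := by rw [inv_sup, inv_inv, inv_inv]
  rw [e, h.inv (hD.sup_mem (D.inv_mem hx) (D.inv_mem hy)),
    h.sup hD hs (D.inv_mem hx) (D.inv_mem hy), h.inv hx, h.inv hy, max_neg_neg, neg_neg]

/-- conjugate by an integral power -/
def cjz (x a : H) (n : ℤ) : H := x ^ n * a * (x ^ n)⁻¹

omit [Lattice H] [MulLeftMono H] [MulRightMono H] in
theorem cjz_mul (x a b : H) (n : ℤ) : cjz x (a * b) n = cjz x a n * cjz x b n := by
  unfold cjz; group

omit [Lattice H] [MulLeftMono H] [MulRightMono H] in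
theorem cjz_inv (x a : H) (n : ℤ) : cjz x a⁻¹ n = (cjz x a n)⁻¹ := by
  unfold cjz; group

omit [Lattice H] [MulLeftMono H] [MulRightMono H] in
theorem cjz_pow (x a : H) (n : ℤ) (k : ℕ) : cjz x (a ^ k) n = (cjz x a n) ^ k := by
  induction k with
  | zero => unfold cjz; group
  | succ k ih => rw [pow_succ, pow_succ, cjz_mul, ih]

omit [Lattice H] [MulLeftMono H] [MulRightMono H] in
theorem cjz_one (x : H) (n : ℤ) : cjz x 1 n = 1 := by
  unfold cjz; group

omit [Lattice H] [MulLeftMono H] [MulRightMono H] in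
theorem cjz_zero (x a : H) : cjz x a 0 = a := by
  unfold cjz; group

omit [Lattice H] [MulLeftMono H] [MulRightMono H] in
theorem cjz_ad (x a : H) (n : ℤ) : cjz x (ad x a) n = cjz x a (n + 1) * (cjz x a n)⁻¹ := by
  unfold cjz ad; rw [zpow_add_one]; group

theorem cjz_sup (x a b : H) (n : ℤ) : cjz x (a ⊔ b) n = cjz x a n ⊔ cjz x b n := by
  unfold cjz; rw [mul_sup, sup_mul]

theorem cjz_inf (x a b : H) (n : ℤ) : cjz x (a ⊓ b) n = cjz x a n ⊓ cjz x b n := by
  unfold cjz; rw [mul_inf, inf_mul]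

/-- the sequence of values on conjugates -/
def sq (φ : H → ℝ) (x a : H) : ℤ → ℝ := fun n => φ (cjz x a n)

omit [Lattice H] [MulLeftMono H] [MulRightMono H] in
theorem sq_ad {D : Subgroup H} {φ : H → ℝ} (h : IsAdd D φ) {x a : H}
    (ha : ∀ n, cjz x a n ∈ D) : sq φ x (ad x a) = dd (sq φ x a) := by
  funext n
  unfold sq dd
  rw [cjz_ad, h.mul _ (ha _) _ (D.inv_mem (ha _)), h.inv (ha _)]
  rfl

omit [Lattice H] [MulLeftMono H] [MulRightMono H] in
theorem ad_mem {D : Subgroup H} {x a : H} (ha : ∀ n, cjz x a n ∈ D) (n : ℤ) :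
    cjz x (ad x a) n ∈ D := by
  rw [cjz_ad]; exact D.mul_mem (ha _) (D.inv_mem (ha _))

omit [Lattice H] [MulLeftMono H] [MulRightMono H] in
theorem sq_ad_iter {D : Subgroup H} {φ : H → ℝ} (h : IsAdd D φ) {x : H} (k : ℕ) :
    ∀ a, (∀ n, cjz x a n ∈ D) → sq φ x ((ad x)^[k] a) = dd^[k] (sq φ x a) := by
  induction k with
  | zero => intro a _; rfl
  | succ k ih =>
    intro a ha
    rw [Function.iterate_succ_apply, Function.iterate_succ_apply, ih _ (ad_mem ha), sq_ad h ha]

theorem no_growth {D : Subgroup H} (hD : IsCvx D) {φ : H → ℝ} (h : IsAdd D φ)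
    (hs : ∀ x ∈ D, φ (x ⊔ 1) = max (φ x) 0) {c : ℕ} {x : H} (hc : ∀ a : H, (ad x)^[c] a = 1)
    {a : H} (ha : ∀ n, cjz x a n ∈ D) {κ : ℝ} (hκ : 0 < κ) (hgr : ∀ n, dd (sq φ x a) n = κ) :
    False := by
  have hlin : ∀ n : ℤ, sq φ x a n = κ * n + sq φ x a 0 := by
    intro n
    have h1 : ∀ n, sq φ x a (n + 1) = sq φ x a n + κ := by
      intro n
      have := hgr n
      unfold dd at this
      linarith
    induction n using Int.induction_on with
    | zero => simp
    | succ i ih => rw [h1, ih]; push_cast; ring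
    | pred i ih =>
      have := h1 (-(i : ℤ) - 1)
      rw [sub_add_cancel, ih] at this
      push_cast at this ⊢
      linarith
  -- parameters
  obtain ⟨n1, hn1⟩ := exists_nat_gt (-(sq φ x a 0) / κ)
  have hpos : 0 < sq φ x a n1 := by
    rw [hlin]
    rw [div_lt_iff₀ hκ] at hn1
    push_cast
    linarith
  obtain ⟨M, hM⟩ := exists_nat_gt (sq φ x a n1 / κ)
  have hpos2 : 0 < M * κ - sq φ x a n1 := by
    rw [div_lt_iff₀ hκ] at hM
    linarith
  let b := ad x a
  have hb : ∀ n, cjz x b n ∈ D := ad_mem ha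
  have hbv : ∀ n, φ (cjz x b n) = κ := by
    intro n
    have := congrFun (sq_ad h ha) n
    rw [hgr n] at this
    exact this
  let r : H := (a ⊓ b ^ M * a⁻¹) ⊔ 1
  have hrn : ∀ n, cjz x r n = (cjz x a n ⊓ (cjz x b n) ^ M * (cjz x a n)⁻¹) ⊔ 1 := by
    intro n
    simp only [r, cjz_sup, cjz_inf, cjz_mul, cjz_pow, cjz_inv, cjz_one]
  have hm2 : ∀ n, (cjz x b n) ^ M * (cjz x a n)⁻¹ ∈ D := fun n =>
    D.mul_mem (D.pow_mem (hb n) M) (D.inv_mem (ha n))
  have hr : ∀ n, cjz x r n ∈ D := by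
    intro n
    rw [hrn]
    exact hD.sup_one _ (hD.inf_mem (ha n) (hm2 n))
  have hrv : ∀ n, sq φ x r n = max (min (sq φ x a n) (M * κ - sq φ x a n)) 0 := by
    intro n
    unfold sq
    rw [hrn, hs _ (hD.inf_mem (ha n) (hm2 n)), h.inf hD hs (ha n) (hm2 n),
      h.mul _ (D.pow_mem (hb n) M) _ (D.inv_mem (ha n)), h.pow (hb n), h.inv (ha n), hbv n]
    rfl
  have h1 : dd^[c] (sq φ x r) = 0 := by
    rw [← sq_ad_iter h c r hr, hc r]
    funext n
    unfold sq
    rw [cjz_one, h.one]; rfl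
  have h2 := zero_of_dd c _ h1 (by
    obtain ⟨N, hN⟩ := exists_nat_gt ((M * κ - sq φ x a 0) / κ)
    refine ⟨N, fun n hn => ?_⟩
    rw [hrv]
    have h3 : (N : ℝ) ≤ (n : ℝ) := by exact_mod_cast hn
    have h4 : M * κ - sq φ x a n ≤ 0 := by
      rw [hlin n]
      rw [div_lt_iff₀ hκ] at hN
      nlinarith
    exact max_eq_right ((min_le_right _ _).trans h4))
  have h3 := congrFun h2 (n1 : ℤ)
  rw [hrv] at h3
  have h4 : 0 < max (min (sq φ x a n1) (M * κ - sq φ x a n1)) 0 :=
    lt_max_of_lt_left (lt_min hpos hpos2)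
  rw [h3] at h4
  exact lt_irrefl _ h4

theorem conj_const {D : Subgroup H} (hD : IsCvx D) {φ : H → ℝ} (h : IsAdd D φ)
    (hs : ∀ x ∈ D, φ (x ⊔ 1) = max (φ x) 0) {c : ℕ} {x : H} (hc : ∀ a : H, (ad x)^[c] a = 1)
    (k : ℕ) : ∀ a : H, (∀ n, cjz x a n ∈ D) → dd^[k] (sq φ x a) = 0 → dd (sq φ x a) = 0 := by
  induction k with
  | zero =>
    intro a ha h1
    rw [Function.iterate_zero_apply] at h1
    rw [h1]
    funext n
    simp [dd]
  | succ k ih =>
    intro a ha h1
    rw [Function.iterate_succ_apply, ← sq_ad h ha] at h1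
    have h2 := ih _ (ad_mem ha) h1
    have h3 : ∀ n, dd (sq φ x a) n = sq φ x (ad x a) 0 := by
      intro n
      rw [← sq_ad h ha]
      exact const_of_dd h2 n
    rcases lt_trichotomy 0 (sq φ x (ad x a) 0) with h4 | h4 | h4
    · exact (no_growth hD h hs hc ha h4 h3).elim
    · funext n
      rw [h3, ← h4]; rfl
    · exfalso
      have ha' : ∀ n, cjz x a⁻¹ n ∈ D := fun n => by rw [cjz_inv]; exact D.inv_mem (ha n)
      refine no_growth hD h hs hc ha' (neg_pos.mpr h4) ?_
      intro n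
      have h5 : ∀ m, sq φ x a⁻¹ m = -sq φ x a m := by
        intro m
        unfold sq
        rw [cjz_inv, h.inv (ha m)]
      have h6 := h3 n
      unfold dd at h6 ⊢
      rw [h5, h5]
      linarith

end conj

end Pool.Agent.Helper29
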