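import Pool.Agent.Helper29.NilG

/-!
Truncations of the groups `G_p`.
-/

set_option autoImplicit false
set_option linter.unusedSectionVars false

namespace Pool.Agent.Helper29

open Polynomial OO

variable (p : ℕ) [hp : Fact p.Prime]

/-- the truncated ring -/
abbrev Oc (c : ℕ) : Type := Op p ⧸ (Ideal.span {(x : Op p) ^ c})

/-- the quotient map -/
noncomputable abbrev mkc (c : ℕ) : Op p →+* Oc p c := Ideal.Quotient.mk _

theorem mkc_eq_zero {c : ℕ} {α : Op p} : mkc p c α = 0 ↔ α ∈ (W c : AddSubgroup (Op p)) := by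
  rw [Ideal.Quotient.eq_zero_iff_mem, Ideal.mem_span_singleton]
  exact Iff.rfl

/-- filtration of the truncated ring -/
noncomputable def Wq (c j : ℕ) : AddSubgroup (Oc p c) := (W j : AddSubgroup (Op p)).map (mkc p c : Op p →+ Oc p c)

theorem mem_Wq {c j : ℕ} {e : Oc p c} : e ∈ Wq p c j ↔ ∃ β, mkc p c (x ^ j * β) = e := by
  constructor
  · rintro ⟨α, ⟨β, rfl⟩, rfl⟩; exact ⟨β, rfl⟩
  · rintro ⟨β, rfl⟩; exact ⟨_, ⟨β, rfl⟩, rfl⟩

/-- positive elements of the truncated ring -/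
noncomputable def Pq (c j : ℕ) : Set (Oc p c) := {e | j < c ∧ ∃ α ∈ (P j : Set (Op p)), mkc p c α = e}

theorem aux_disj {c n : ℕ} (hn : n < c) {β γ : Op p} (h : mkc p c (x ^ n * β) =
    mkc p c (x ^ (n + 1) * γ)) : ev0 β = 0 := by
  have h1 : mkc p c (x ^ n * β - x ^ (n + 1) * γ) = 0 := by rw [map_sub, h, sub_self]
  rw [mkc_eq_zero] at h1
  obtain ⟨δ, hδ⟩ := h1
  obtain ⟨m, rfl⟩ := Nat.exists_eq_add_of_lt hn
  apply ev0_of_pow_eq (n := n) (γ := γ + x ^ m * δ)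
  have e : x ^ n * β = (x ^ n * β - x ^ (n + 1) * γ) + x ^ (n + 1) * γ := by ring
  rw [e, hδ]
  ring

theorem exists_lo_trunc (c : ℕ) : ∃ (_ : LinearOrder (Oc p c)), IsOrderedAddMonoid (Oc p c) ∧
    (∀ e : Oc p c, 0 < e ↔ ∃ j, e ∈ Pq p c j) ∧
      ∀ f : Oc p c → Oc p c, (∀ x y, f (x - y) = f x - f y) →
        (∀ j, ∀ x ∈ Wq p c j, f x - x ∈ Wq p c (j + 1)) → ∀ x y, x < y → f x < f y := by
  refine exists_order (Wq p c) (fun j => AddSubgroup.map_mono (W_anti j)) ?_ (Pq p c) ?_ ?_ ?_ ?_ ?_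
  · intro e he
    obtain ⟨α, rfl⟩ := Ideal.Quotient.mk_surjective e
    have hα : α ≠ 0 := by rintro rfl; exact he (map_zero _)
    obtain ⟨n, β, h1, h2⟩ := exists_pow α hα
    have hn : n < c := by
      by_contra hcon
      apply he
      change mkc p c α = 0
      rw [mkc_eq_zero]
      obtain ⟨m, rfl⟩ := Nat.exists_eq_add_of_le (not_lt.mp hcon)
      exact ⟨x ^ m * β, by rw [h1]; ring⟩
    refine ⟨n, (mem_Wq p).mpr ⟨β, by rw [h1]⟩, ?_⟩
    intro h3
    obtain ⟨γ, hγ⟩ := (mem_Wq p).mp h3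
    apply h2
    apply aux_disj p hn (γ := γ)
    rw [← h1]; exact hγ.symm
  · rintro j e ⟨hj, α, ⟨β, rfl, _⟩, rfl⟩
    exact (mem_Wq p).mpr ⟨β, rfl⟩
  · rintro j e ⟨hj, α, hα, rfl⟩ e' ⟨_, α', hα', rfl⟩
    exact ⟨hj, α + α', P_add hα hα', map_add _ _ _⟩
  · rintro j e ⟨hj, α, hα, rfl⟩ e' he'
    obtain ⟨β, rfl⟩ := (mem_Wq p).mp he'
    exact ⟨hj, _, P_shift hα ⟨β, rfl⟩, map_add _ _ _⟩
  · rintro j e ⟨hj, α, ⟨β, rfl, hβ⟩, rfl⟩ h3
    obtain ⟨γ, hγ⟩ := (mem_Wq p).mp h3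
    exact hβ.ne' (aux_disj p hj hγ.symm)
  · rintro j e he he'
    obtain ⟨β, rfl⟩ := (mem_Wq p).mp he
    have hj : j < c := by
      by_contra hcon
      apply he'
      have : mkc p c (x ^ j * β) = 0 := by
        rw [mkc_eq_zero]
        obtain ⟨m, rfl⟩ := Nat.exists_eq_add_of_le (not_lt.mp hcon)
        exact ⟨x ^ m * β, by ring⟩
      rw [this]
      exact (Wq p c (j + 1)).zero_mem
    have h1 : (x ^ j * β : Op p) ∉ (W (j + 1) : AddSubgroup (Op p)) := by
      rintro ⟨γ, hγ⟩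
      apply he'
      rw [hγ]
      exact (mem_Wq p).mpr ⟨γ, rfl⟩
    rcases P_tot (n := j) (α := (x ^ j * β : Op p)) ⟨β, rfl⟩ h1 with h | h
    · exact Or.inl ⟨hj, _, h, rfl⟩
    · exact Or.inr ⟨hj, _, h, map_neg _ _⟩

/-- data of the truncated group -/
noncomputable def Dc (c : ℕ) : KD (TT p) (Oc p c) ℚ where
  act u e := mkc p c ((u : (Op p)ˣ) : Op p) * e
  act_one x := by simp
  act_mul u v x := by simp [mul_assoc]
  act_add u x y := by ring
  bil _ _ := 0
  bil_add_left x y z := by simp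
  bil_add_right x y z := by simp
  bil_act u x y := rfl

/-- truncation -/
noncomputable def truncHom (c : ℕ) : KD.Hom (DG p) (Dc p c) where
  f := MonoidHom.id _
  g := (mkc p c : Op p →+ Oc p c)
  h := 0
  hg u x := by
    change mkc p c (((u : (Op p)ˣ) : Op p) * x) = mkc p c ((u : (Op p)ˣ) : Op p) * mkc p c x
    rw [map_mul]
  hh _ _ := rfl

theorem Dc_act {c : ℕ} (j : ℕ) (u : TT p) (e : Oc p c) (he : e ∈ Wq p c j) :
    (Dc p c).act u e - e ∈ Wq p c (j + 1) := by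
  obtain ⟨β, rfl⟩ := (mem_Wq p).mp he
  have h : (x ^ j * β : Op p) ∈ (W j : AddSubgroup (Op p)) := ⟨β, rfl⟩
  obtain ⟨γ, hγ⟩ := W_mul h ((u : (Op p)ˣ) : Op p) u.2.1
  refine (mem_Wq p).mpr ⟨γ, ?_⟩
  rw [← hγ, map_sub, map_mul]
  rfl

theorem trunc_step (s : Finset (FreeGroup ℕ)) (v : ℕ → (DG p).G)
    (hs : ∀ w ∈ s, FreeGroup.lift v w < 1) :
    ∃ (H : Type) (_ : Group H) (_ : LinearOrder H) (_ : MulLeftMono H) (_ : MulRightMono H),
      Group.IsNilpotent H ∧ ∃ v' : ℕ → H, ∀ w ∈ s, FreeGroup.lift v' w < 1 ∨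
        ((FreeGroup.lift v w).u = 1 ∧ (FreeGroup.lift v w).x = 0 ∧ FreeGroup.lift v' w = 1) := by
  classical
  have h0 : ∀ w : FreeGroup ℕ, ∃ j, (FreeGroup.lift v w).x < 0 →
      -(FreeGroup.lift v w).x ∈ (P j : Set (Op p)) := by
    intro w
    by_cases h : (FreeGroup.lift v w).x < 0
    · obtain ⟨j, hj⟩ := pos_iff.mp (neg_pos.mpr h)
      exact ⟨j, fun _ => hj⟩
    · exact ⟨0, fun h' => absurd h' h⟩
  choose J hJ using h0
  let c := s.sup J + 1
  obtain ⟨loX, hoX, hpos, hmono⟩ := exists_lo_trunc p c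
  let loG : LinearOrder (Dc p c).G := (Dc p c).linearOrder
  have hstrict : ∀ u x y, x < y → (Dc p c).act u x < (Dc p c).act u y := by
    intro u
    exact hmono ((Dc p c).act u) (fun x y => (Dc p c).act_sub u x y)
      (fun i x hx => Dc_act p i u x hx)
  refine ⟨(Dc p c).G, inferInstance, loG, KD.mulLeftMono hstrict, KD.mulRightMono, ?_, ?_⟩
  · refine KD.nilpotent (Dc p c) (Wq p c) ?_ c ?_ (fun i u x hx => Dc_act p i u x hx)
    · rw [eq_top_iff]
      rintro e -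
      obtain ⟨α, rfl⟩ := Ideal.Quotient.mk_surjective e
      exact (mem_Wq p).mpr ⟨α, by simp⟩
    · rw [eq_bot_iff]
      intro e he
      obtain ⟨β, rfl⟩ := (mem_Wq p).mp he
      rw [AddSubgroup.mem_bot, mkc_eq_zero]
      exact ⟨β, rfl⟩
  · refine ⟨fun i => (truncHom p c).map (v i), ?_⟩
    intro w hws
    have h1 : FreeGroup.lift (fun i => (truncHom p c).map (v i)) w =
        (truncHom p c).map (FreeGroup.lift v w) := by
      have : FreeGroup.lift (fun i => (truncHom p c).map (v i)) =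
          (truncHom p c).map.comp (FreeGroup.lift v) := by
        ext i : 1
        simp
      rw [this]; rfl
    rw [h1]
    have h2 := hs w hws
    rw [KD.lt_iff] at h2
    rcases h2 with h2 | ⟨h2, h3 | ⟨h3, h4⟩⟩
    · left
      rw [KD.lt_iff]
      exact Or.inl h2
    · left
      rw [KD.lt_iff]
      right
      refine ⟨h2, Or.inl ?_⟩
      change mkc p c (FreeGroup.lift v w).x < 0
      rw [← neg_pos, hpos]
      refine ⟨J w, ?_, _, hJ w h3, map_neg _ _⟩
      have := Finset.le_sup (f := J) hws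
      change J w < s.sup J + 1
      omega
    · right
      refine ⟨h2, h3, ?_⟩
      apply KD.G.ext
      · exact h2
      · change mkc p c (FreeGroup.lift v w).x = 0
        rw [h3]
        exact map_zero _
      · rfl

end Pool.Agent.Helper29
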