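import Pool.Agent.Helper29.Mimic
import Pool.Agent.Helper29.Conj

/-!
Finitely generated commutative subgroups: retractions and finiteness of the set of levels.
-/

set_option autoImplicit false
set_option linter.unusedSectionVars false

namespace Pool.Agent.Helper29

theorem retr {A : Type*} [AddCommGroup A] [Module.Finite ℤ A] (B : AddSubgroup A)
    (h : ∀ (a : A) (n : ℤ), n ≠ 0 → n • a ∈ B → a ∈ B) :
    ∃ p : A →+ A, (∀ a, p a ∈ B) ∧ ∀ b ∈ B, p b = b := by
  let B' : Submodule ℤ A := AddSubgroup.toIntSubmodule B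
  have htf : Module.IsTorsionFree ℤ (A ⧸ B') := by
    constructor
    intro r hr
    have hr0 : r ≠ 0 := by
      rintro rfl
      have := hr.1 (show (0:ℤ) * 1 = 0 * 0 by simp)
      exact one_ne_zero this
    intro x y hxy
    obtain ⟨a, rfl⟩ := Submodule.Quotient.mk_surjective B' x
    obtain ⟨b, rfl⟩ := Submodule.Quotient.mk_surjective B' y
    have h1 : Submodule.Quotient.mk (p := B') (r • (a - b)) = 0 := by
      have h2 : r • Submodule.Quotient.mk (p := B') a = r • Submodule.Quotient.mk (p := B') b := hxy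
      rw [smul_sub, Submodule.Quotient.mk_sub, Submodule.Quotient.mk_smul,
        Submodule.Quotient.mk_smul, h2, sub_self]
    rw [Submodule.Quotient.mk_eq_zero] at h1
    have h3 : a - b ∈ B := h _ r hr0 h1
    exact (Submodule.Quotient.eq B').mpr h3
  obtain ⟨s, hs⟩ := Module.projective_lifting_property B'.mkQ (LinearMap.id (R := ℤ) (M := A ⧸ B'))
    B'.mkQ_surjective
  have hs' : ∀ x, B'.mkQ (s x) = x := fun x => LinearMap.congr_fun hs x
  refine ⟨(LinearMap.id - s ∘ₗ B'.mkQ : A →ₗ[ℤ] A).toAddMonoidHom, ?_, ?_⟩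
  · intro a
    change a - s (B'.mkQ a) ∈ B'
    rw [← Submodule.Quotient.mk_eq_zero B']
    change B'.mkQ (a - s (B'.mkQ a)) = 0
    rw [map_sub, hs', sub_self]
  · intro b hb
    change b - s (B'.mkQ b) = b
    have : B'.mkQ b = 0 := (Submodule.Quotient.mk_eq_zero B').mpr hb
    rw [this, map_zero, sub_zero]

section

variable {G : Type*} [Group G]

/-- the commutative group structure -/
@[instance_reducible] def commOf (Γ : Subgroup G) (hcomm : ∀ x ∈ Γ, ∀ y ∈ Γ, x * y = y * x) : CommGroup Γ :=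
  { (inferInstance : Group Γ) with
    mul_comm := fun x y => Subtype.ext (hcomm x.1 x.2 y.1 y.2) }

theorem finite_of_fg (Γ : Subgroup G) (hfg : Γ.FG) (hcomm : ∀ x ∈ Γ, ∀ y ∈ Γ, x * y = y * x) :
    letI := commOf Γ hcomm
    Module.Finite ℤ (Additive Γ) := by
  let _ := commOf Γ hcomm
  have h1 : Group.FG Γ := (Group.fg_iff_subgroup_fg Γ).mpr hfg
  have h2 : AddGroup.FG (Additive Γ) := GroupFG.iff_add_fg.mp h1
  exact Module.Finite.iff_addGroup_fg.mpr h2

theorem ext_retr (Γ N : Subgroup G) (hfg : Γ.FG) (hcomm : ∀ x ∈ Γ, ∀ y ∈ Γ, x * y = y * x)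
    (hiso : ∀ x ∈ Γ, ∀ n : ℤ, n ≠ 0 → x ^ n ∈ N → x ∈ N) (φ : G → ℝ)
    (hφ : ∀ x ∈ N, ∀ y ∈ N, φ (x * y) = φ x + φ y) :
    ∃ π : G → ℝ, (∀ x ∈ Γ, ∀ y ∈ Γ, π (x * y) = π x + π y) ∧ (∀ x ∈ Γ, x ∈ N → π x = φ x) ∧
      ∀ x ∈ Γ, ∃ y ∈ Γ, y ∈ N ∧ π x = φ y := by
  classical
  let _ := commOf Γ hcomm
  have hfin : Module.Finite ℤ (Additive Γ) := finite_of_fg Γ hfg hcomm
  let B : AddSubgroup (Additive Γ) :=
    { carrier := {a | (Additive.toMul a).1 ∈ N}
      add_mem' := fun {a b} ha hb => N.mul_mem ha hb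
      zero_mem' := N.one_mem
      neg_mem' := fun {a} ha => N.inv_mem ha }
  obtain ⟨p, hp1, hp2⟩ := retr B (by
    intro a n hn h
    exact hiso (Additive.toMul a).1 (Additive.toMul a).2 n hn h)
  let P : G → G := fun x => if h : x ∈ Γ then (Additive.toMul (p (Additive.ofMul ⟨x, h⟩))).1 else 1
  have hP : ∀ x (h : x ∈ Γ), P x = (Additive.toMul (p (Additive.ofMul ⟨x, h⟩))).1 := by
    intro x h
    simp only [P, dif_pos h]
  have hPΓ : ∀ x ∈ Γ, P x ∈ Γ := by
    intro x h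
    rw [hP x h]; exact (Additive.toMul (p (Additive.ofMul ⟨x, h⟩))).2
  have hPN : ∀ x ∈ Γ, P x ∈ N := by
    intro x h
    rw [hP x h]; exact hp1 _
  have hPmul : ∀ x ∈ Γ, ∀ y ∈ Γ, P (x * y) = P x * P y := by
    intro x hx y hy
    rw [hP x hx, hP y hy, hP (x * y) (Γ.mul_mem hx hy)]
    have : p (Additive.ofMul (⟨x * y, Γ.mul_mem hx hy⟩ : Γ)) =
        p (Additive.ofMul ⟨x, hx⟩) + p (Additive.ofMul ⟨y, hy⟩) := by
      rw [← map_add]; rfl
    rw [this]; rfl
  have hPid : ∀ x ∈ Γ, x ∈ N → P x = x := by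
    intro x hx hxN
    rw [hP x hx, hp2 _ hxN]; rfl
  refine ⟨fun x => φ (P x), ?_, ?_, ?_⟩
  · intro x hx y hy
    dsimp only
    rw [hPmul x hx y hy, hφ _ (hPN x hx) _ (hPN y hy)]
  · intro x hx hxN
    dsimp only
    rw [hPid x hx hxN]
  · intro x hx
    exact ⟨P x, hPΓ x hx, hPN x hx, rfl⟩

end

section

universe u

variable {G : Type u} [Group G] [Lattice G] [MulLeftMono G] [MulRightMono G]

theorem cv_le_vl_of_lt {Q : Subgroup G} (hQ : IsPrm Q) {a b : G} (ha : a ∉ Q) (hb : b ∉ Q)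
    (h : vl Q a < vl Q b) : cv Q a ≤ vl Q b := by
  apply cv_le_of (vl_cvx hQ hb) (le_vl hQ hb)
  by_contra hcon
  exact absurd (le_vl_of hQ ha (vl_cvx hQ hb) (le_vl hQ hb) hcon) (not_le_of_gt h)

theorem finite_levels {Q : Subgroup G} (hQ : IsPrm Q) (Γ : Subgroup G) (hfg : Γ.FG)
    (hcomm : ∀ x ∈ Γ, ∀ y ∈ Γ, x * y = y * x) :
    ∃ E : Finset G, (∀ c ∈ E, c ∉ Q) ∧ ∀ γ ∈ Γ, γ ∉ Q → ∃ c ∈ E, vl Q c = vl Q γ := by
  classical
  let _ := commOf Γ hcomm
  have hfin : Module.Finite ℤ (Additive Γ) := finite_of_fg Γ hfg hcomm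
  let VV : Set (Subgroup G) := {C | ∃ γ ∈ Γ, γ ∉ Q ∧ C = vl Q γ}
  have hVV : VV.Finite := by
    by_contra hinf
    obtain ⟨t, ht, hcard⟩ := Set.Infinite.exists_subset_card_eq hinf
      (Module.finrank ℤ (Additive Γ) + 1)
    have hex : ∀ C : t, ∃ γ ∈ Γ, γ ∉ Q ∧ (C : Subgroup G) = vl Q γ := fun C => ht C.2
    choose γ hγΓ hγQ hγ using hex
    let v : t → Additive Γ := fun C => Additive.ofMul ⟨γ C, hγΓ C⟩
    have hli : LinearIndependent ℤ v := by
      rw [Fintype.linearIndependent_iff]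
      intro g hg i
      by_contra hi
      -- choose the largest level
      let _ := cvxLO hQ
      let F : t → {C : Subgroup G // IsCvx C ∧ Q ≤ C} := fun C =>
        ⟨vl Q (γ C), vl_cvx hQ (hγQ C), le_vl hQ (hγQ C)⟩
      obtain ⟨i0, hi0, hmax⟩ := Finset.exists_max_image (Finset.univ.filter (fun C => g C ≠ 0)) F
        ⟨i, Finset.mem_filter.mpr ⟨Finset.mem_univ _, hi⟩⟩
      have hg0 : g i0 ≠ 0 := (Finset.mem_filter.mp hi0).2
      have hlt : ∀ j, g j ≠ 0 → j ≠ i0 → γ j ∈ vl Q (γ i0) := by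
        intro j hj hne
        have h1 : F j ≤ F i0 := hmax j (Finset.mem_filter.mpr ⟨Finset.mem_univ _, hj⟩)
        have h2 : vl Q (γ j) ≤ vl Q (γ i0) := h1
        have h3 : vl Q (γ j) ≠ vl Q (γ i0) := by
          intro h
          rw [← hγ, ← hγ] at h
          exact hne (Subtype.ext h)
        exact cv_le_vl_of_lt hQ (hγQ j) (hγQ i0) (lt_of_le_of_ne h2 h3) self_mem_cv
      let B : AddSubgroup (Additive Γ) :=
        { carrier := {a | (Additive.toMul a).1 ∈ vl Q (γ i0)}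
          add_mem' := fun {a b} ha hb => (vl Q (γ i0)).mul_mem ha hb
          zero_mem' := (vl Q (γ i0)).one_mem
          neg_mem' := fun {a} ha => (vl Q (γ i0)).inv_mem ha }
      have hsum : ∑ j ∈ Finset.univ.erase i0, g j • v j ∈ B := by
        apply B.sum_mem
        intro j hj
        by_cases hj0 : g j = 0
        · rw [hj0, zero_smul]; exact B.zero_mem
        · exact B.zsmul_mem (hlt j hj0 (Finset.ne_of_mem_erase hj)) _
      rw [← Finset.add_sum_erase _ _ (Finset.mem_univ i0)] at hg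
      have h4 : g i0 • v i0 ∈ B := by
        have : g i0 • v i0 = - ∑ j ∈ Finset.univ.erase i0, g j • v j :=
          eq_neg_of_add_eq_zero_left hg
        rw [this]; exact B.neg_mem hsum
      have h5 : (γ i0) ^ (g i0) ∈ vl Q (γ i0) := h4
      exact not_mem_vl hQ (hγQ i0) (mem_of_zpow_mem (vl_prm hQ (hγQ i0)) hg0 h5)
    have := hli.fintype_card_le_finrank
    rw [Fintype.card_coe, hcard] at this
    omega
  have hex : ∀ C : VV, ∃ γ ∈ Γ, γ ∉ Q ∧ (C : Subgroup G) = vl Q γ := fun C => C.2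
  choose γ hγΓ hγQ hγ using hex
  have : Fintype VV := hVV.fintype
  refine ⟨Finset.univ.image γ, ?_, ?_⟩
  · intro c hc
    obtain ⟨C, _, rfl⟩ := Finset.mem_image.mp hc
    exact hγQ C
  · intro δ hδ hδQ
    let C : VV := ⟨vl Q δ, δ, hδ, hδQ, rfl⟩
    exact ⟨γ C, Finset.mem_image_of_mem _ (Finset.mem_univ C), (hγ C).symm⟩

end

end Pool.Agent.Helper29
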