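import Pool.Agent.Helper29.RotDefs

set_option autoImplicit false

open CircleDeg1Lift Set

namespace Pool.Agent.Helper29.Rot

theorem mul_app (a b : G) (x : ℝ) : (a * b : G) x = a (b x) := rfl

theorem one_app (x : ℝ) : (1 : G) x = x := rfl

theorem inv_app_app (a : G) (x : ℝ) : (a⁻¹ : G) (a x) = x := units_inv_apply_apply a x

theorem app_inv_app (a : G) (x : ℝ) : a ((a⁻¹ : G) x) = x := units_apply_inv_apply a x

theorem unit_sub_lt (a : G) (x : ℝ) :
    |a x - x - translationNumber (a : CircleDeg1Lift)| ≤ 1 := by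
  have h1 := map_lt_add_translationNumber_add_one (a : CircleDeg1Lift) x
  have h2 := map_lt_add_translationNumber_add_one ((a⁻¹ : G) : CircleDeg1Lift) (a x)
  rw [translationNumber_units_inv] at h2
  have h3 : ((a⁻¹ : G) : CircleDeg1Lift) (a x) = x := inv_app_app a x
  rw [h3] at h2
  rw [abs_le]
  constructor <;> linarith

theorem exists_avg (n : ℕ) (hn : 0 < n) (h : ℕ → G) :
    ∃ a : G, ∀ x : ℝ, a x = (∑ i ∈ Finset.range n, h i x) / n := by
  have hn' : (0 : ℝ) < n := Nat.cast_pos.2 hn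
  have hsm : ∀ i, StrictMono (h i : ℝ → ℝ) := fun i =>
    (strictMono_iff_injective _).2 (isUnit_iff_bijective.1 (h i).isUnit).1
  have hct : ∀ i, Continuous (h i : ℝ → ℝ) := fun i =>
    (continuous_iff_surjective _).2 (isUnit_iff_bijective.1 (h i).isUnit).2
  have hS : StrictMono (fun x : ℝ => (∑ i ∈ Finset.range n, h i x) / n) := by
    intro x y hxy
    apply div_lt_div_of_pos_right _ hn'
    apply Finset.sum_lt_sum_of_nonempty
    · exact ⟨0, Finset.mem_range.2 hn⟩
    · intro i _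
      exact hsm i hxy
  let A : CircleDeg1Lift :=
    { toFun := fun x : ℝ => (∑ i ∈ Finset.range n, h i x) / n
      monotone' := hS.monotone
      map_add_one' := by
        intro x
        have : ∀ i, h i (x + 1) = h i x + 1 := fun i => map_add_one _ x
        simp only [this, Finset.sum_add_distrib, Finset.sum_const, Finset.card_range,
          nsmul_eq_mul, mul_one]
        field_simp }
  have hAct : Continuous A := by
    change Continuous (fun x : ℝ => (∑ i ∈ Finset.range n, h i x) / n)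
    exact (continuous_finsetSum _ (fun i _ => hct i)).div_const _
  have hA : IsUnit A :=
    isUnit_iff_bijective.2 ⟨hS.injective, (continuous_iff_surjective A).1 hAct⟩
  obtain ⟨a, ha⟩ := hA
  refine ⟨a, fun x => ?_⟩
  have : (a : CircleDeg1Lift) x = A x := by rw [ha]
  exact this

theorem deg1_lip (a : G) (x y : ℝ) : |a x - a y| ≤ |x - y| + 1 := by
  have key : ∀ x y : ℝ, y ≤ x → |a x - a y| ≤ |x - y| + 1 := by
    intro x y hxy
    have hm : a y ≤ a x := (a : CircleDeg1Lift).monotone hxy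
    have h1 : x ≤ y + ⌈x - y⌉ := by
      have := Int.le_ceil (x - y)
      linarith
    have h2 : a x ≤ a (y + ⌈x - y⌉) := (a : CircleDeg1Lift).monotone h1
    rw [map_add_int] at h2
    have h3 := Int.ceil_lt_add_one (x - y)
    rw [abs_of_nonneg (sub_nonneg.2 hm), abs_of_nonneg (sub_nonneg.2 hxy)]
    linarith
  rcases le_total y x with h | h
  · exact key x y h
  · rw [abs_sub_comm, abs_sub_comm x y]
    exact key y x h

theorem level_functions (ℓ K : ℕ) (hℓ : 0 < ℓ) (hK : 0 < K) (g : ℕ → G) (c : ℝ)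
    (hc : ∀ k, k < ℓ → |translationNumber (g k : CircleDeg1Lift)| ≤ c) :
    ∃ (ψ : G) (f : ℕ → G),
      (∀ x : ℝ, ∑ k ∈ Finset.range ℓ, f k x = ℓ * x) ∧
      (∀ k, k + 1 < ℓ → ∀ x : ℝ, f (k + 1) ((ψ * g k * ψ⁻¹ : G) x) = f k x) ∧
      (∀ x : ℝ, |f 0 ((ψ * g (ℓ - 1) * ψ⁻¹ : G) x) - f (ℓ - 1) x
        - translationNumber (prodSeq g ℓ : CircleDeg1Lift)| ≤ 1 / K) ∧
      (∀ k, k < ℓ → ∀ x : ℝ, |f k x - x| ≤ ℓ * (c + 3)) := by
  have hℓ' : (0 : ℝ) < ℓ := Nat.cast_pos.2 hℓ
  have hK' : (0 : ℝ) < K := Nat.cast_pos.2 hK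
  have hc0 : 0 ≤ c := (abs_nonneg _).trans (hc 0 hℓ)
  obtain ⟨F0, hF0⟩ := exists_avg K hK (fun j => (prodSeq g ℓ) ^ j)
  obtain ⟨F, hFdef⟩ : ∃ F : ℕ → G, F = fun k => Nat.rec F0 (fun k A => A * (g k)⁻¹) k := ⟨_, rfl⟩
  have hFz : F 0 = F0 := by subst hFdef; rfl
  have hFs : ∀ k, F (k + 1) = F k * (g k)⁻¹ := by intro k; subst hFdef; rfl
  clear hFdef
  obtain ⟨ψ, hψ⟩ := exists_avg ℓ hℓ F
  have hFprod : ∀ k (z : ℝ), F k (prodSeq g k z) = F 0 z := by
    intro k
    induction k with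
    | zero => intro z; rfl
    | succ k ih =>
      intro z
      rw [hFs, mul_app]
      change F k ((g k)⁻¹ ((g k * prodSeq g k : G) z)) = F 0 z
      rw [mul_app, inv_app_app, ih]
  have h1 : ∀ x : ℝ, ∑ k ∈ Finset.range ℓ, (F k * ψ⁻¹ : G) x = ℓ * x := by
    intro x
    have h := hψ ((ψ⁻¹ : G) x)
    rw [app_inv_app] at h
    simp only [mul_app]
    rw [eq_div_iff hℓ'.ne'] at h
    linarith
  have h2 : ∀ k, ∀ x : ℝ, (F (k + 1) * ψ⁻¹ : G) ((ψ * g k * ψ⁻¹ : G) x) = (F k * ψ⁻¹ : G) x := by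
    intro k x
    simp only [mul_app, hFs, inv_app_app]
  refine ⟨ψ, fun k => F k * ψ⁻¹, h1, fun k _ x => h2 k x, ?_, ?_⟩
  · intro x
    simp only [mul_app, inv_app_app]
    set y := (ψ⁻¹ : G) x with hy
    obtain ⟨m, rfl⟩ : ∃ m, ℓ = m + 1 := ⟨ℓ - 1, by omega⟩
    rw [Nat.add_sub_cancel]
    set z := ((prodSeq g m)⁻¹ : G) y with hz
    have hyz : y = prodSeq g m z := by rw [hz, app_inv_app]
    have e1 : F m y = F 0 z := by rw [hyz, hFprod]
    have e2 : g m y = prodSeq g (m + 1) z := by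
      change g m y = (g m * prodSeq g m : G) z
      rw [mul_app, ← hyz]
    rw [e1, e2, hFz]
    set W := prodSeq g (m + 1) with hW
    have e3 : F0 (W z) - F0 z = ((W ^ K : G) z - z) / K := by
      rw [hF0, hF0, ← sub_div]
      congr 1
      have : ∀ j : ℕ, (W ^ j : G) (W z) = (W ^ (j + 1) : G) z := by
        intro j
        rw [pow_succ, mul_app]
      simp only [this]
      rw [← Finset.sum_sub_distrib, Finset.sum_range_sub (fun j => (W ^ j : G) z)]
      simp
    rw [e3]
    have e4 := unit_sub_lt (W ^ K) z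
    have e5 : translationNumber ((W ^ K : G) : CircleDeg1Lift) =
        K * translationNumber (W : CircleDeg1Lift) := by
      rw [Units.val_pow_eq_pow_val, translationNumber_pow]
    rw [e5] at e4
    have e6 : ((W ^ K : G) z - z) / K - translationNumber (W : CircleDeg1Lift) =
        ((W ^ K : G) z - z - K * translationNumber (W : CircleDeg1Lift)) / K := by
      field_simp
    rw [e6, abs_div, abs_of_pos hK']
    exact div_le_div_of_nonneg_right e4 hK'.le
  · -- displacement
    have hstep : ∀ k, k < ℓ → ∀ x : ℝ, |(F (k + 1) * ψ⁻¹ : G) x - (F k * ψ⁻¹ : G) x| ≤ c + 2 := by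
      intro k hk x
      obtain ⟨q, hq⟩ : ∃ q : G, q = ψ * g k * ψ⁻¹ := ⟨_, rfl⟩
      have e1 : (F (k + 1) * ψ⁻¹ : G) x = (F k * ψ⁻¹ : G) ((q⁻¹ : G) x) := by
        have := h2 k ((q⁻¹ : G) x)
        rw [← hq, app_inv_app] at this
        exact this
      rw [e1]
      refine (deg1_lip _ _ _).trans ?_
      have e2 := unit_sub_lt q⁻¹ x
      have e3 : translationNumber ((q⁻¹ : G) : CircleDeg1Lift) =
          - translationNumber (g k : CircleDeg1Lift) := by
        rw [translationNumber_units_inv, hq]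
        have := translationNumber_conj_eq ψ (g k : CircleDeg1Lift)
        rw [← this]
        rfl
      rw [e3] at e2
      have e4 := hc k hk
      have e5 : |(q⁻¹ : G) x - x| ≤ c + 1 := by
        have := abs_le.1 e2
        have := abs_le.1 e4
        rw [abs_le]
        constructor <;> linarith
      linarith
    have hfar : ∀ i d, i + d < ℓ → ∀ x : ℝ,
        |(F (i + d) * ψ⁻¹ : G) x - (F i * ψ⁻¹ : G) x| ≤ d * (c + 2) := by
      intro i d
      induction d with
      | zero => intro _ x; simp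
      | succ d ih =>
        intro hd x
        have a1 := ih (by omega) x
        have a2 := hstep (i + d) (by omega) x
        have a3 := abs_sub_le ((F (i + d + 1) * ψ⁻¹ : G) x) ((F (i + d) * ψ⁻¹ : G) x)
          ((F i * ψ⁻¹ : G) x)
        have : ((d + 1 : ℕ) : ℝ) = d + 1 := by push_cast; ring
        rw [this]
        change |(F (i + d + 1) * ψ⁻¹ : G) x - (F i * ψ⁻¹ : G) x| ≤ _
        linarith
    have hall : ∀ i j, i < ℓ → j < ℓ → ∀ x : ℝ,
        |(F i * ψ⁻¹ : G) x - (F j * ψ⁻¹ : G) x| ≤ ℓ * (c + 2) := by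
      intro i j hi hj x
      rcases le_total i j with hij | hij
      · obtain ⟨d, rfl⟩ := Nat.exists_eq_add_of_le hij
        rw [abs_sub_comm]
        refine (hfar i d hj x).trans ?_
        have : (d : ℝ) ≤ ℓ := by exact_mod_cast (by omega : d ≤ ℓ)
        nlinarith
      · obtain ⟨d, rfl⟩ := Nat.exists_eq_add_of_le hij
        refine (hfar j d hi x).trans ?_
        have : (d : ℝ) ≤ ℓ := by exact_mod_cast (by omega : d ≤ ℓ)
        nlinarith
    intro k hk x
    have e1 : (ℓ : ℝ) * ((F k * ψ⁻¹ : G) x - x) =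
        ∑ j ∈ Finset.range ℓ, ((F k * ψ⁻¹ : G) x - (F j * ψ⁻¹ : G) x) := by
      rw [Finset.sum_sub_distrib, h1 x]
      simp
      ring
    have e2 : |(ℓ : ℝ) * ((F k * ψ⁻¹ : G) x - x)| ≤ ℓ * (ℓ * (c + 2)) := by
      rw [e1]
      refine (Finset.abs_sum_le_sum_abs _ _).trans ?_
      have : ∑ j ∈ Finset.range ℓ, |(F k * ψ⁻¹ : G) x - (F j * ψ⁻¹ : G) x| ≤
          ∑ j ∈ Finset.range ℓ, (ℓ * (c + 2) : ℝ) :=
        Finset.sum_le_sum (fun j hj => hall k j hk (Finset.mem_range.1 hj) x)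
      simpa using this
    rw [abs_mul, abs_of_pos hℓ'] at e2
    have e3 := le_of_mul_le_mul_left e2 hℓ'
    refine e3.trans ?_
    apply mul_le_mul_of_nonneg_left _ hℓ'.le
    linarith

end Pool.Agent.Helper29.Rot
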