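import Pool.Agent.Helper29.RotDefs

set_option autoImplicit false

open CircleDeg1Lift Set

namespace Pool.Agent.Helper29.Rot

theorem bl_mul (a b : G) (x : ℝ) : (a * b : G) x = a (b x) := rfl

theorem bl_conj (ℓ : ℕ) (g : ℕ → G) (δ : ℕ → ℤ) (u : G) (j : ℕ) :
    prodSeq (fun k => u ^ (δ k) * g k * u ^ (-δ k)) (j + 1) =
      u ^ (δ j) * prodSeq (fun k => g k * u ^ (expo ℓ δ k)) (j + 1) * u ^ (-δ (ℓ - 1)) := by
  induction j with
  | zero =>
    show u ^ (δ 0) * g 0 * u ^ (-δ 0) * 1 = u ^ (δ 0) * (g 0 * u ^ (expo ℓ δ 0) * 1) *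
      u ^ (-δ (ℓ - 1))
    have e : expo ℓ δ 0 = δ (ℓ - 1) - δ 0 := by
      unfold expo
      rw [if_pos rfl]
    rw [e, zpow_sub, zpow_neg, zpow_neg]
    have hc : u ^ (δ (ℓ - 1)) * (u ^ (δ 0))⁻¹ = (u ^ (δ 0))⁻¹ * u ^ (δ (ℓ - 1)) := by
      rw [← zpow_neg, ← zpow_add, ← zpow_add, add_comm]
    rw [hc]
    group
  | succ j ih =>
    show u ^ (δ (j + 1)) * g (j + 1) * u ^ (-δ (j + 1)) *
        prodSeq (fun k => u ^ (δ k) * g k * u ^ (-δ k)) (j + 1) =
      u ^ (δ (j + 1)) * (g (j + 1) * u ^ (expo ℓ δ (j + 1)) *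
        prodSeq (fun k => g k * u ^ (expo ℓ δ k)) (j + 1)) * u ^ (-δ (ℓ - 1))
    have e : expo ℓ δ (j + 1) = -δ (j + 1) + δ j := by
      unfold expo
      rw [if_neg (Nat.succ_ne_zero j), Nat.add_sub_cancel]
      ring
    rw [ih, e, zpow_add]
    simp only [mul_assoc]

theorem barrier_level (ℓ : ℕ) (hℓ : 0 < ℓ) (g : ℕ → G) (δ : ℕ → ℤ) (u : G) (f : ℕ → G) (t κ : ℝ)
    (h1 : ∀ k, k + 1 < ℓ → ∀ x : ℝ, f (k + 1) (g k x) = f k x)
    (h2 : ∀ x : ℝ, |f 0 (g (ℓ - 1) x) - f (ℓ - 1) x - t| ≤ κ)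
    (N : ℕ) (M : ℤ) (hN : 0 < N) (p : ℕ → ℝ)
    (hp : ∀ k, k < N * ℓ → ∀ x : ℝ, p k ≤ f (k % ℓ) x →
      p (k + 1) - (if (k + 1) % ℓ = 0 then t - κ else 0)
        ≤ f (k % ℓ) ((u ^ (expo ℓ δ (k % ℓ)) : G) x))
    (hM : p 0 + M ≤ p (N * ℓ)) :
    (M : ℝ) / N ≤ translationNumber
      (prodSeq (fun k => u ^ (δ k) * g k * u ^ (-δ k)) ℓ : CircleDeg1Lift) := by
  obtain ⟨x0, hx0⟩ : ∃ x0 : ℝ, f 0 x0 = p 0 :=
    ⟨(f 0)⁻¹ (p 0), units_apply_inv_apply (f 0) (p 0)⟩
  let x : ℕ → ℝ := fun k => Nat.rec x0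
    (fun k y => g (k % ℓ) ((u ^ (expo ℓ δ (k % ℓ)) : G) y)) k
  have hxs : ∀ k, x (k + 1) = g (k % ℓ) ((u ^ (expo ℓ δ (k % ℓ)) : G) (x k)) := fun k => rfl
  have claim1 : ∀ k, k ≤ N * ℓ → p k ≤ f (k % ℓ) (x k) := by
    intro k
    induction k with
    | zero =>
      intro _
      rw [Nat.zero_mod]
      exact hx0.ge
    | succ k ih =>
      intro hk
      have h3 := hp k hk (x k) (ih (by omega))
      rw [hxs]
      by_cases h4 : (k + 1) % ℓ = 0
      · rw [if_pos h4] at h3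
        have h5 : k % ℓ = ℓ - 1 := by
          have h6 := Nat.mod_lt k hℓ
          rw [Nat.add_mod] at h4
          rcases Nat.lt_or_ge 1 ℓ with h7 | h7
          · rw [Nat.mod_eq_of_lt h7] at h4
            by_contra hne
            rw [Nat.mod_eq_of_lt (by omega)] at h4
            omega
          · have : ℓ = 1 := by omega
            subst this
            omega
        rw [h4]
        rw [h5] at h3 ⊢
        have h8 := (abs_le.1 (h2 ((u ^ (expo ℓ δ (ℓ - 1)) : G) (x k)))).1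
        linarith
      · rw [if_neg h4, sub_zero] at h3
        have h6 := Nat.mod_lt k hℓ
        have h5 : (k + 1) % ℓ = k % ℓ + 1 ∧ k % ℓ + 1 < ℓ := by
          have h9 : k % ℓ + 1 ≠ ℓ := by
            intro h10
            apply h4
            have h11 := Nat.div_add_mod k ℓ
            have h12 : k + 1 = ℓ * (k / ℓ + 1) := by
              rw [mul_add, mul_one]
              omega
            rw [h12, Nat.mul_mod_right]
          have h10 : k % ℓ + 1 < ℓ := by omega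
          refine ⟨?_, h10⟩
          rw [Nat.add_mod]
          have h11 : 1 % ℓ = 1 := Nat.mod_eq_of_lt (by omega)
          rw [h11, Nat.mod_eq_of_lt h10]
        rw [h5.1, h1 (k % ℓ) h5.2]
        exact h3
  set W : ℕ → G := fun k => g k * u ^ (expo ℓ δ k) with hW
  have claim2 : ∀ j i, i ≤ ℓ → x (j * ℓ + i) = (prodSeq W i) (x (j * ℓ)) := by
    intro j i
    induction i with
    | zero => intro _; rfl
    | succ i ih =>
      intro hi
      have h3 : (j * ℓ + i) % ℓ = i := by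
        rw [Nat.mul_add_mod', Nat.mod_eq_of_lt (by omega)]
      rw [← Nat.add_assoc, hxs, h3, ih (by omega)]
      rfl
  have claim3 : ∀ j : ℕ, x (j * ℓ) = ((prodSeq W ℓ) ^ j : G) x0 := by
    intro j
    induction j with
    | zero =>
      rw [Nat.zero_mul]
      rfl
    | succ j ih =>
      rw [Nat.succ_mul, claim2 j ℓ le_rfl, ih, pow_succ']
      rfl
  have h3 : x0 + M ≤ ((prodSeq W ℓ) ^ N : G) x0 := by
    rw [← claim3]
    have h4 := claim1 (N * ℓ) le_rfl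
    rw [Nat.mul_mod_left] at h4
    have h5 : f 0 (x0 + M) ≤ f 0 (x (N * ℓ)) := by
      rw [map_add_int, hx0]
      exact hM.trans h4
    have h6 := ((f 0)⁻¹ : G).val.monotone h5
    have h7 : ∀ y : ℝ, ((f 0)⁻¹ : G).val (f 0 y) = y := fun y => units_inv_apply_apply (f 0) y
    rw [h7, h7] at h6
    exact h6
  have h4 : (M : ℝ) ≤ translationNumber (((prodSeq W ℓ) ^ N : G) : CircleDeg1Lift) :=
    le_translationNumber_of_add_int_le _ h3
  rw [Units.val_pow_eq_pow_val, translationNumber_pow] at h4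
  have h5 : translationNumber
      (prodSeq (fun k => u ^ (δ k) * g k * u ^ (-δ k)) ℓ : CircleDeg1Lift) =
      translationNumber (prodSeq W ℓ : CircleDeg1Lift) := by
    obtain ⟨m, rfl⟩ : ∃ m, ℓ = m + 1 := ⟨ℓ - 1, by omega⟩
    rw [bl_conj (m + 1) g δ u m, Nat.add_sub_cancel, zpow_neg, Units.val_mul, Units.val_mul]
    exact translationNumber_conj_eq (u ^ δ m) _
  rw [h5]
  have hN' : (0 : ℝ) < N := by exact_mod_cast hN
  rw [div_le_iff₀ hN', mul_comm]
  exact h4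

end Pool.Agent.Helper29.Rot
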