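import Pool.Agent.Helper29.RotDefs

set_option autoImplicit false

open CircleDeg1Lift Set

namespace Pool.Agent.Helper29.Rot

theorem limit_functions (ℓ : ℕ) (C : ℝ) (f : ℕ → ℕ → ℝ → ℝ)
    (mono : ∀ n k, k < ℓ → Monotone (f n k))
    (deg : ∀ n k, k < ℓ → ∀ x, f n k (x + 1) = f n k x + 1)
    (lip : ∀ n k, k < ℓ → ∀ x y, |f n k x - f n k y| ≤ ℓ * |x - y|)
    (bd : ∀ n k, k < ℓ → ∀ x, |f n k x - x| ≤ C) :
    ∃ F : ℕ → ℝ → ℝ, (∀ k, k < ℓ → Monotone (F k)) ∧
      (∀ k, k < ℓ → ∀ x, F k (x + 1) = F k x + 1) ∧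
      (∀ k, k < ℓ → ∀ x y, |F k x - F k y| ≤ ℓ * |x - y|) ∧
      (∀ η : ℝ, 0 < η → ∀ n₀ : ℕ, ∃ n, n₀ ≤ n ∧ ∀ k, k < ℓ → ∀ x, |f n k x - F k x| ≤ η) := by
  classical
  let U : Ultrafilter ℕ := Filter.hyperfilter ℕ
  have hex : ∀ (k : ℕ) (x : ℝ), ∃ y : ℝ, k < ℓ →
      Filter.Tendsto (fun n => f n k x) (U : Filter ℕ) (nhds y) := by
    intro k x
    by_cases hk : k < ℓ
    · have hc : IsCompact (Icc (x - C) (x + C)) := isCompact_Icc
      obtain ⟨y, -, hy⟩ := hc.ultrafilter_le_nhds (U.map fun n => f n k x) (by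
        rw [Filter.le_principal_iff]
        show (fun n => f n k x) ⁻¹' (Icc (x - C) (x + C)) ∈ (U : Filter ℕ)
        refine Filter.univ_mem' fun n => ?_
        have := abs_le.1 (bd n k hk x)
        exact ⟨by linarith, by linarith⟩)
      exact ⟨y, fun _ => hy⟩
    · exact ⟨0, fun h => absurd h hk⟩
  choose F hF using hex
  have hF1 : ∀ k, k < ℓ → ∀ x, F k (x + 1) = F k x + 1 := by
    intro k hk x
    have h1 := hF k (x + 1) hk
    have h2 := (hF k x hk).add_const 1
    have h3 : (fun n => f n k (x + 1)) = fun n => f n k x + 1 := by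
      funext n; exact deg n k hk x
    rw [h3] at h1
    exact tendsto_nhds_unique h1 h2
  have hF2 : ∀ k, k < ℓ → ∀ x y, |F k x - F k y| ≤ ℓ * |x - y| := by
    intro k hk x y
    exact le_of_tendsto ((hF k x hk).sub (hF k y hk)).abs
      (Filter.Eventually.of_forall fun n => lip n k hk x y)
  refine ⟨F, ?_, hF1, hF2, ?_⟩
  · intro k hk x y hxy
    exact le_of_tendsto_of_tendsto (hF k x hk) (hF k y hk)
      (Filter.Eventually.of_forall fun n => mono n k hk hxy)
  · intro η hη n₀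
    obtain ⟨m, hm⟩ := exists_nat_gt (4 * (ℓ : ℝ) / η)
    have hm0 : (0 : ℝ) < m := lt_of_le_of_lt (by positivity) hm
    have hlm : (ℓ : ℝ) * (1 / m) ≤ η / 4 := by
      rw [div_lt_iff₀ hη] at hm
      rw [mul_one_div, div_le_iff₀ hm0]
      nlinarith
    have hev : ∀ᶠ n in (U : Filter ℕ), ∀ k ∈ Finset.range ℓ, ∀ j ∈ Finset.range (m + 1),
        |f n k ((j : ℝ) / m) - F k ((j : ℝ) / m)| ≤ η / 4 := by
      rw [Filter.eventually_all_finset]
      intro k hk
      rw [Filter.eventually_all_finset]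
      intro j _
      have h1 := ((hF k ((j : ℝ) / m) (Finset.mem_range.1 hk)).sub_const (F k ((j : ℝ) / m))).abs
      rw [sub_self, abs_zero] at h1
      exact (h1.eventually (gt_mem_nhds (show (0 : ℝ) < η / 4 by positivity))).mono
        fun n hn => le_of_lt hn
    have hge : ∀ᶠ n in (U : Filter ℕ), n₀ ≤ n :=
      (Filter.eventually_ge_atTop n₀).filter_mono Nat.hyperfilter_le_atTop
    obtain ⟨n, hn1, hn2⟩ := (hev.and hge).exists
    refine ⟨n, hn2, fun k hk x => ?_⟩
    have hper : Function.Periodic (fun x => f n k x - F k x) 1 := by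
      intro x
      show f n k (x + 1) - F k (x + 1) = f n k x - F k x
      rw [deg n k hk, hF1 k hk]; ring
    have hfr : f n k x - F k x = f n k (Int.fract x) - F k (Int.fract x) := by
      have := hper.sub_int_mul_eq ⌊x⌋ (x := x)
      simp only [mul_one] at this
      rw [Int.fract]
      exact this.symm
    rw [hfr]
    set y := Int.fract x with hy
    have hy0 : 0 ≤ y := Int.fract_nonneg x
    have hy1 : y < 1 := Int.fract_lt_one x
    set j := ⌊(m : ℝ) * y⌋₊ with hj
    have hj1 : (j : ℝ) ≤ m * y := Nat.floor_le (by positivity)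
    have hj2 : (m : ℝ) * y < j + 1 := Nat.lt_floor_add_one _
    have hjm : j < m + 1 := by
      have : (j : ℝ) < m + 1 := by nlinarith
      exact_mod_cast this
    have hd : |y - (j : ℝ) / m| ≤ 1 / m := by
      have e1 : y - (j : ℝ) / m = (m * y - j) / m := by field_simp
      rw [e1, abs_div, abs_of_nonneg (by linarith : 0 ≤ (m : ℝ) * y - j), abs_of_pos hm0]
      exact div_le_div_of_nonneg_right (by linarith) hm0.le
    have h1 := hn1 k (Finset.mem_range.2 hk) j (Finset.mem_range.2 hjm)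
    have h2 := lip n k hk y ((j : ℝ) / m)
    have h3 := hF2 k hk y ((j : ℝ) / m)
    have h4 : (ℓ : ℝ) * |y - (j : ℝ) / m| ≤ η / 4 :=
      (mul_le_mul_of_nonneg_left hd (by positivity)).trans hlm
    rw [abs_le] at h1 h2 h3 ⊢
    constructor <;> linarith [h1.1, h1.2, h2.1, h2.2, h3.1, h3.2]

theorem robust_step (F : ℝ → ℝ) (hm : Monotone F) (hc : Continuous F)
    (hd : ∀ x, F (x + 1) = F x + 1) (u : G) (p p' : ℝ)
    (h : ∀ x : ℝ, p ≤ F x → p' ≤ F (u x)) (η' : ℝ) (hη' : 0 < η') :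
    ∃ η : ℝ, 0 < η ∧ ∀ f : ℝ → ℝ, (∀ x, |f x - F x| ≤ η) →
      ∀ x : ℝ, p - η ≤ f x → p' - η' ≤ f (u x) := by
  have hcu : Continuous (fun x : ℝ => u x) := by
    have h1 := (CircleDeg1Lift.toOrderIso u).continuous
    have h2 : (⇑(CircleDeg1Lift.toOrderIso u) : ℝ → ℝ) = (fun x : ℝ => u x) := by
      rw [CircleDeg1Lift.coe_toOrderIso]
    rw [h2] at h1
    exact h1
  have hmu : Monotone (fun x : ℝ => u x) := (u : CircleDeg1Lift).monotone
  have hn : ∀ (n : ℕ) (x : ℝ), F (x + n) = F x + n := by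
    intro n
    induction n with
    | zero => intro x; simp
    | succ n ih =>
      intro x
      push_cast
      rw [← add_assoc, hd, ih]
      ring
  have hn' : ∀ (n : ℕ) (x : ℝ), F (x - n) = F x - n := by
    intro n x
    have := hn n (x - n)
    rw [sub_add_cancel] at this
    linarith
  set S : Set ℝ := {x | p ≤ F x} with hS
  have hSc : IsClosed S := isClosed_le continuous_const hc
  have hSn : S.Nonempty := by
    obtain ⟨n, hn1⟩ := exists_nat_ge (p - F 0)
    refine ⟨0 + n, ?_⟩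
    show p ≤ F (0 + n)
    rw [hn]
    linarith
  have hSb : BddBelow S := by
    obtain ⟨n, hn1⟩ := exists_nat_gt (F 0 - p)
    refine ⟨0 - n, ?_⟩
    intro x hx
    by_contra hlt
    push Not at hlt
    have h1 := hm hlt.le
    rw [hn'] at h1
    have h2 : p ≤ F x := hx
    linarith
  set xp : ℝ := sInf S with hxp
  have hxpS : xp ∈ S := hSc.csInf_mem hSn hSb
  have hlt : ∀ x, x < xp → F x < p := by
    intro x hx
    by_contra h1
    push Not at h1
    exact absurd (csInf_le hSb (show x ∈ S from h1)) (not_le.mpr hx)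
  have h2 : p' ≤ F (u xp) := h xp hxpS
  have hcc : ContinuousAt (fun x : ℝ => F (u x)) xp := (hc.comp hcu).continuousAt
  rw [Metric.continuousAt_iff] at hcc
  obtain ⟨d, hd0, hd1⟩ := hcc (η' / 2) (by positivity)
  have h3 := hd1 (x := xp - d / 2) (by
    rw [Real.dist_eq]
    rw [show xp - d / 2 - xp = -(d / 2) by ring, abs_neg, abs_of_pos (by positivity)]
    linarith)
  rw [Real.dist_eq, abs_lt] at h3
  have h4 := hlt (xp - d / 2) (by linarith)
  set x0 : ℝ := xp - d / 2 with hx0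
  refine ⟨min ((p - F x0) / 3) (η' / 2), lt_min (by linarith) (by positivity), ?_⟩
  intro f hf x hx
  have hη1 : min ((p - F x0) / 3) (η' / 2) ≤ (p - F x0) / 3 := min_le_left _ _
  have hη2 : min ((p - F x0) / 3) (η' / 2) ≤ η' / 2 := min_le_right _ _
  have h5 := abs_le.mp (hf x)
  have h6 : F x0 < F x := by linarith [h5.2]
  have h7 : x0 < x := by
    by_contra hle
    push Not at hle
    exact absurd (hm hle) (not_le.mpr h6)
  have h8 : F (u x0) ≤ F (u x) := hm (hmu h7.le)
  have h9 := abs_le.mp (hf (u x))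
  linarith [h9.1, h3.1]

end Pool.Agent.Helper29.Rot
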