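import Pool.Agent.Helper29.RotDefs

set_option autoImplicit false

open CircleDeg1Lift Set

namespace Pool.Agent.Helper29.Rot

theorem avi_pt (C : G) (P : ℤ) (Q : ℕ) (hC : ∀ x : ℝ, (C ^ Q : G) x = x + P) (j : ℤ) :
    (C ^ (j + Q) : G) (0 : ℝ) = (C ^ j : G) (0 : ℝ) + P := by
  rw [add_comm, zpow_add, zpow_natCast]
  exact hC _

theorem avi_int (F : G) (x : ℝ) (P : ℤ) : F (x + P) = F x + P :=
  CircleDeg1Lift.map_add_int _ _ _

theorem avi_sum (C : G) (P : ℤ) (Q : ℕ) (hC : ∀ x : ℝ, (C ^ Q : G) x = x + P) (F : G) (s : ℤ)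
    (hs : s = 1 ∨ s = -1) :
    ∑ j ∈ Finset.range Q, (F ((C ^ ((j:ℤ) - s) : G) (0 : ℝ)) - F ((C ^ (j:ℤ) : G) (0 : ℝ)))
      = -((s : ℝ) * P) := by
  rcases hs with rfl | rfl
  · have h1 := Finset.sum_range_sub' (fun j : ℕ => F ((C ^ ((j:ℤ) - 1) : G) (0 : ℝ))) Q
    have h2 : ∀ j : ℕ, F ((C ^ ((j:ℤ) - 1) : G) (0 : ℝ)) - F ((C ^ (j:ℤ) : G) (0 : ℝ)) =
        F ((C ^ ((j:ℤ) - 1) : G) (0 : ℝ)) - F ((C ^ (((j + 1 : ℕ):ℤ) - 1) : G) (0 : ℝ)) := by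
      intro j
      have : (((j + 1 : ℕ):ℤ) - 1) = (j : ℤ) := by push_cast; ring
      rw [this]
    rw [Finset.sum_congr rfl (fun j _ => h2 j), h1]
    have h3 : ((Q:ℤ) - 1) = -1 + Q := by ring
    have h4 : (((0:ℕ):ℤ) - 1) = -1 := by norm_num
    rw [h3, h4, avi_pt C P Q hC, avi_int]
    push_cast; ring
  · have h1 := Finset.sum_range_sub (fun j : ℕ => F ((C ^ (j:ℤ) : G) (0 : ℝ))) Q
    have h2 : ∀ j : ℕ, F ((C ^ ((j:ℤ) - -1) : G) (0 : ℝ)) - F ((C ^ (j:ℤ) : G) (0 : ℝ)) =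
        F ((C ^ ((j + 1 : ℕ):ℤ) : G) (0 : ℝ)) - F ((C ^ (j:ℤ) : G) (0 : ℝ)) := by
      intro j
      have : (((j + 1 : ℕ):ℤ)) = (j : ℤ) - -1 := by push_cast; ring
      rw [this]
    rw [Finset.sum_congr rfl (fun j _ => h2 j), h1]
    have h3 : ((Q:ℤ)) = ((0:ℕ):ℤ) + Q := by simp
    rw [h3, avi_pt C P Q hC, avi_int]
    push_cast; ring

theorem avi_main (C : G) (P : ℤ) (Q : ℕ) (hC : ∀ x : ℝ, (C ^ Q : G) x = x + P) (m : ℕ)
    (σ : ℕ → ℤ) (hσ : ∀ k, σ k = 1 ∨ σ k = -1) (g : ℕ → G) (w : ℕ → ℝ)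
    (hw : ∀ k, w k = 0 ∨ (w k = 1 ∧ g k = C ^ (σ k)))
    (f : ℕ → G) (t κ : ℝ) (hκ : 0 ≤ κ)
    (h1 : ∀ k, k < m → ∀ x : ℝ, f (k + 1) (g k x) = f k x)
    (h2 : ∀ x : ℝ, |f 0 (g m x) - f m x - t| ≤ κ) :
    |∑ j ∈ Finset.range Q, (∑ k ∈ Finset.range m, w k * (f (k + 1) ((C ^ (j:ℤ) : G) (0 : ℝ)) -
        f k ((C ^ (j:ℤ) : G) (0 : ℝ))) + w m * (f 0 ((C ^ (j:ℤ) : G) (0 : ℝ)) -
        f m ((C ^ (j:ℤ) : G) (0 : ℝ)))) -
      (-((∑ k ∈ Finset.range (m + 1), w k * σ k) * P) + w m * Q * t)| ≤ Q * κ := by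
  have hinv : ∀ (s j : ℤ), (C ^ s : G) ((C ^ (j - s) : G) (0 : ℝ)) = (C ^ j : G) (0 : ℝ) := by
    intro s j
    have : (C ^ j : G) = C ^ s * C ^ (j - s) := by rw [← zpow_add]; congr 1; ring
    rw [this]; rfl
  rw [Finset.sum_add_distrib, Finset.sum_comm]
  have hk : ∀ k ∈ Finset.range m, ∑ j ∈ Finset.range Q, w k *
      (f (k + 1) ((C ^ (j:ℤ) : G) (0 : ℝ)) - f k ((C ^ (j:ℤ) : G) (0 : ℝ))) =
      -(w k * σ k * P) := by
    intro k hk
    rw [Finset.mem_range] at hk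
    rcases hw k with h | ⟨h, hg⟩
    · rw [h]; simp
    · have e1 : ∀ j : ℕ, f (k + 1) ((C ^ (j:ℤ) : G) (0 : ℝ)) =
          f k ((C ^ ((j:ℤ) - σ k) : G) (0 : ℝ)) := by
        intro j
        rw [← h1 k hk, hg, hinv]
      have e2 := avi_sum C P Q hC (f k) (σ k) (hσ k)
      rw [h, ← Finset.mul_sum]
      simp only [e1, e2]
      ring
  rw [Finset.sum_congr rfl hk, Finset.sum_range_succ, ← Finset.mul_sum]
  rcases hw m with h | ⟨h, hg⟩
  · rw [h]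
    have e1 : ∑ k ∈ Finset.range m, -(w k * (σ k : ℝ) * P) = -((∑ k ∈ Finset.range m, w k * σ k) * P) := by
      rw [Finset.sum_neg_distrib, Finset.sum_mul]
    rw [e1]
    have : 0 ≤ (Q:ℝ) * κ := by positivity
    simpa using this
  · have e2 := avi_sum C P Q hC (f m) (σ m) (hσ m)
    have e1 : ∑ k ∈ Finset.range m, -(w k * (σ k : ℝ) * P) = -((∑ k ∈ Finset.range m, w k * σ k) * P) := by
      rw [Finset.sum_neg_distrib, Finset.sum_mul]
    have e3 : ∑ j ∈ Finset.range Q, (f 0 ((C ^ (j:ℤ) : G) (0 : ℝ)) - f m ((C ^ (j:ℤ) : G) (0 : ℝ))) =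
        ∑ j ∈ Finset.range Q, (f 0 ((C ^ (j:ℤ) : G) (0 : ℝ)) -
          f m ((C ^ ((j:ℤ) - σ m) : G) (0 : ℝ)) - t) + Q * t + -((σ m : ℝ) * P) := by
      rw [← e2]
      rw [Finset.sum_sub_distrib, Finset.sum_sub_distrib, Finset.sum_sub_distrib,
        Finset.sum_sub_distrib, Finset.sum_const, Finset.card_range, nsmul_eq_mul]
      ring
    rw [e1, e3, h]
    have e4 : (-((∑ k ∈ Finset.range m, w k * (σ k : ℝ)) * P) + 1 *
        (∑ j ∈ Finset.range Q, (f 0 ((C ^ (j:ℤ) : G) (0 : ℝ)) -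
          f m ((C ^ ((j:ℤ) - σ m) : G) (0 : ℝ)) - t) + Q * t + -((σ m : ℝ) * P)) -
        (-((∑ k ∈ Finset.range m, w k * (σ k : ℝ) + 1 * (σ m : ℝ)) * P) + 1 * Q * t)) =
        ∑ j ∈ Finset.range Q, (f 0 ((C ^ (j:ℤ) : G) (0 : ℝ)) -
          f m ((C ^ ((j:ℤ) - σ m) : G) (0 : ℝ)) - t) := by ring
    rw [e4]
    refine (Finset.abs_sum_le_sum_abs _ _).trans ?_
    have e5 : ∀ j ∈ Finset.range Q, |f 0 ((C ^ (j:ℤ) : G) (0 : ℝ)) -
          f m ((C ^ ((j:ℤ) - σ m) : G) (0 : ℝ)) - t| ≤ κ := by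
      intro j _
      have := h2 ((C ^ ((j:ℤ) - σ m) : G) (0 : ℝ))
      rw [hg, hinv] at this
      exact this
    refine (Finset.sum_le_sum e5).trans ?_
    rw [Finset.sum_const, Finset.card_range, nsmul_eq_mul]

theorem avi_div {X Y q κ η c : ℝ} (hq : 0 < q) (h1 : |X - Y| ≤ q * κ) (h2 : |X - q * c| ≤ q * η) :
    |Y / q - c| ≤ κ + η := by
  have h3 : |Y - q * c| ≤ q * (κ + η) := by
    have : Y - q * c = -(X - Y) + (X - q * c) := by ring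
    rw [this]
    refine (abs_add_le _ _).trans ?_
    rw [abs_neg]
    linarith
  have h4 : Y / q - c = (Y - q * c) / q := by field_simp
  rw [h4, abs_div, abs_of_pos hq, div_le_iff₀ hq]
  linarith

theorem avg_identity (ℓ : ℕ) (hℓ : 0 < ℓ) (A B : G) (p p' : ℤ) (q q' : ℕ) (hq : 0 < q)
    (hq' : 0 < q') (hA : ∀ x : ℝ, (A ^ q : G) x = x + p) (hB : ∀ x : ℝ, (B ^ q' : G) x = x + p')
    (cls : ℕ → Bool) (σ : ℕ → ℤ) (hσ : ∀ k, σ k = 1 ∨ σ k = -1) (g : ℕ → G)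
    (hg : ∀ k, g k = if cls k then A ^ (σ k) else B ^ (σ k))
    (f : ℕ → G) (t κ : ℝ)
    (h1 : ∀ k, k + 1 < ℓ → ∀ x : ℝ, f (k + 1) (g k x) = f k x)
    (h2 : ∀ x : ℝ, |f 0 (g (ℓ - 1) x) - f (ℓ - 1) x - t| ≤ κ)
    (cst η : ℝ)
    (hD : ∀ x : ℝ, |∑ k ∈ Finset.range ℓ,
      ((expo ℓ (fun j => if cls j then 1 else 0) k : ℤ) : ℝ) * f k x - cst| ≤ η) :
    |t - ((∑ k ∈ Finset.range ℓ, if cls k then (σ k : ℝ) else 0) * p / q
        + (∑ k ∈ Finset.range ℓ, if cls k then 0 else (σ k : ℝ)) * p' / q')| ≤ 2 * η + 2 * κ := by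
  obtain ⟨m, rfl⟩ : ∃ m, ℓ = m + 1 := ⟨ℓ - 1, by omega⟩
  rw [Nat.add_sub_cancel] at h2
  have hκ : 0 ≤ κ := (abs_nonneg _).trans (h2 0)
  obtain ⟨w, hw⟩ : ∃ w : ℕ → ℝ, w = fun k => if cls k then (1:ℝ) else 0 := ⟨_, rfl⟩
  have h1' : ∀ k, k < m → ∀ x : ℝ, f (k + 1) (g k x) = f k x := fun k hk => h1 k (by omega)
  -- formula for D
  have hDf : ∀ x : ℝ, ∑ k ∈ Finset.range (m + 1),
      ((expo (m + 1) (fun j => if cls j then 1 else 0) k : ℤ) : ℝ) * f k x =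
      ∑ k ∈ Finset.range m, w k * (f (k + 1) x - f k x) + w m * (f 0 x - f m x) := by
    intro x
    have e1 : ∀ k, ((expo (m + 1) (fun j => if cls j then 1 else 0) k : ℤ) : ℝ) =
        (if k = 0 then w m else w (k - 1)) - w k := by
      intro k
      rw [hw]
      unfold expo
      simp only [Nat.add_sub_cancel]
      push_cast
      split_ifs <;> simp
    simp only [e1, sub_mul, Finset.sum_sub_distrib]
    rw [Finset.sum_range_succ' (fun k => (if k = 0 then w m else w (k - 1)) * f k x),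
      Finset.sum_range_succ (fun k => w k * f k x)]
    simp only [mul_sub, Finset.sum_sub_distrib]
    simp
    ring
  have hDg : ∀ x : ℝ, -(∑ k ∈ Finset.range m, w k * (f (k + 1) x - f k x) + w m * (f 0 x - f m x)) =
      ∑ k ∈ Finset.range m, (1 - w k) * (f (k + 1) x - f k x) + (1 - w m) * (f 0 x - f m x) := by
    intro x
    have e1 := Finset.sum_range_sub (fun k => f k x) m
    have e2 : ∑ k ∈ Finset.range m, (1 - w k) * (f (k + 1) x - f k x) =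
        ∑ k ∈ Finset.range m, (f (k + 1) x - f k x) -
          ∑ k ∈ Finset.range m, w k * (f (k + 1) x - f k x) := by
      rw [← Finset.sum_sub_distrib]
      exact Finset.sum_congr rfl fun k _ => by ring
    rw [e2, e1]
    ring
  have hA' := avi_main A p q hA m σ hσ g w (by
    intro k
    rw [hw, hg k]
    by_cases hc : cls k = true
    · right; simp [hc]
    · left; simp [hc]) f t κ hκ h1' h2
  have hB' := avi_main B p' q' hB m σ hσ g (fun k => 1 - w k) (by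
    intro k
    rw [hw, hg k]
    by_cases hc : cls k = true
    · left; simp [hc]
    · right; simp [hc]) f t κ hκ h1' h2
  have hsum : ∀ (C : G) (Q : ℕ), |∑ j ∈ Finset.range Q, (∑ k ∈ Finset.range m, w k * (f (k + 1) ((C ^ (j:ℤ) : G) (0 : ℝ)) -
        f k ((C ^ (j:ℤ) : G) (0 : ℝ))) + w m * (f 0 ((C ^ (j:ℤ) : G) (0 : ℝ)) -
        f m ((C ^ (j:ℤ) : G) (0 : ℝ)))) - Q * cst| ≤ Q * η := by
    intro C Q
    have e1 : (Q:ℝ) * cst = ∑ j ∈ Finset.range Q, cst := by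
      rw [Finset.sum_const, Finset.card_range, nsmul_eq_mul]
    rw [e1, ← Finset.sum_sub_distrib]
    refine (Finset.abs_sum_le_sum_abs _ _).trans ?_
    have e5 : ∀ j ∈ Finset.range Q, |(∑ k ∈ Finset.range m, w k * (f (k + 1) ((C ^ (j:ℤ) : G) (0 : ℝ)) -
        f k ((C ^ (j:ℤ) : G) (0 : ℝ))) + w m * (f 0 ((C ^ (j:ℤ) : G) (0 : ℝ)) -
        f m ((C ^ (j:ℤ) : G) (0 : ℝ)))) - cst| ≤ η := by
      intro j _
      have := hD ((C ^ (j:ℤ) : G) (0 : ℝ))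
      rw [hDf] at this
      exact this
    refine (Finset.sum_le_sum e5).trans ?_
    rw [Finset.sum_const, Finset.card_range, nsmul_eq_mul]
  have hqr : (0:ℝ) < q := by exact_mod_cast hq
  have hqr' : (0:ℝ) < q' := by exact_mod_cast hq'
  have hA2 := avi_div hqr hA' (hsum A q)
  have hB2 : |(-((∑ k ∈ Finset.range (m + 1), (1 - w k) * σ k) * p') + (1 - w m) * q' * t) / q' - (-cst)|
      ≤ κ + η := by
    refine avi_div hqr' hB' ?_
    have e1 : ∑ j ∈ Finset.range q', (∑ k ∈ Finset.range m, (1 - w k) * (f (k + 1) ((B ^ (j:ℤ) : G) (0 : ℝ)) -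
        f k ((B ^ (j:ℤ) : G) (0 : ℝ))) + (1 - w m) * (f 0 ((B ^ (j:ℤ) : G) (0 : ℝ)) -
        f m ((B ^ (j:ℤ) : G) (0 : ℝ)))) - q' * (-cst) = -(∑ j ∈ Finset.range q', (∑ k ∈ Finset.range m, w k * (f (k + 1) ((B ^ (j:ℤ) : G) (0 : ℝ)) -
        f k ((B ^ (j:ℤ) : G) (0 : ℝ))) + w m * (f 0 ((B ^ (j:ℤ) : G) (0 : ℝ)) -
        f m ((B ^ (j:ℤ) : G) (0 : ℝ)))) - q' * cst) := by
      simp only [← hDg, Finset.sum_neg_distrib]
      ring
    rw [e1, abs_neg]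
    exact hsum B q'
  have s1 : (∑ k ∈ Finset.range (m + 1), if cls k then (σ k : ℝ) else 0) =
      ∑ k ∈ Finset.range (m + 1), w k * σ k := by
    refine Finset.sum_congr rfl fun k _ => ?_
    rw [hw]
    by_cases hc : cls k = true <;> simp [hc]
  have s2 : (∑ k ∈ Finset.range (m + 1), if cls k then 0 else (σ k : ℝ)) =
      ∑ k ∈ Finset.range (m + 1), (1 - w k) * σ k := by
    refine Finset.sum_congr rfl fun k _ => ?_
    rw [hw]
    by_cases hc : cls k = true <;> simp [hc]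
  rw [s1, s2]
  have hfin : t - ((∑ k ∈ Finset.range (m + 1), w k * σ k) * p / q
        + (∑ k ∈ Finset.range (m + 1), (1 - w k) * σ k) * p' / q') =
      ((-((∑ k ∈ Finset.range (m + 1), w k * σ k) * p) + w m * q * t) / q - cst) +
      ((-((∑ k ∈ Finset.range (m + 1), (1 - w k) * σ k) * p') + (1 - w m) * q' * t) / q' - (-cst)) := by
    field_simp
    ring
  rw [hfin]
  refine (abs_add_le _ _).trans ?_
  linarith

end Pool.Agent.Helper29.Rot
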