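import Pool.Agent.Helper29.RotDefs

set_option autoImplicit false

open CircleDeg1Lift Set

namespace Pool.Agent.Helper29.Rot

theorem const_of_deriv (ℓ : ℕ) (F : ℕ → ℝ → ℝ) (e : ℕ → ℝ) (c : ℝ)
    (lip : ∀ k, k < ℓ → ∀ x y, |F k x - F k y| ≤ c * |x - y|)
    (h : ∀ (y : ℝ) (ρ : ℕ → ℝ), (∀ k, k < ℓ → HasDerivAt (F k) (ρ k) y) →
      ∑ k ∈ Finset.range ℓ, e k * ρ k = 0) :
    ∀ x y, ∑ k ∈ Finset.range ℓ, e k * F k x = ∑ k ∈ Finset.range ℓ, e k * F k y := by
  intro x y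
  have lip' : ∀ k, k < ℓ → LipschitzWith (Real.toNNReal |c|) (F k) := by
    intro k hk
    refine LipschitzWith.of_dist_le_mul fun u v => ?_
    rw [Real.dist_eq, Real.dist_eq, Real.coe_toNNReal _ (abs_nonneg c)]
    exact (lip k hk u v).trans (mul_le_mul_of_nonneg_right (le_abs_self c) (abs_nonneg _))
  have hC : 0 ≤ ∑ k ∈ Finset.range ℓ, |e k| * |c| :=
    Finset.sum_nonneg fun k _ => mul_nonneg (abs_nonneg _) (abs_nonneg _)
  have lipD : LipschitzWith (Real.toNNReal (∑ k ∈ Finset.range ℓ, |e k| * |c|))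
      (fun x => ∑ k ∈ Finset.range ℓ, e k * F k x) := by
    refine LipschitzWith.of_dist_le_mul fun u v => ?_
    rw [Real.dist_eq, Real.dist_eq, Real.coe_toNNReal _ hC, ← Finset.sum_sub_distrib,
      Finset.sum_mul]
    refine (Finset.abs_sum_le_sum_abs _ _).trans (Finset.sum_le_sum fun k hk => ?_)
    rw [← mul_sub, abs_mul, mul_assoc]
    refine mul_le_mul_of_nonneg_left ?_ (abs_nonneg _)
    exact (lip k (Finset.mem_range.1 hk) u v).trans
      (mul_le_mul_of_nonneg_right (le_abs_self c) (abs_nonneg _))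
  have hae : ∀ᵐ z : ℝ, ∀ k, k < ℓ → DifferentiableAt ℝ (F k) z := by
    rw [MeasureTheory.ae_all_iff]
    intro k
    by_cases hk : k < ℓ
    · filter_upwards [(lip' k hk).ae_differentiableAt_real] with z hz _ using hz
    · exact Filter.Eventually.of_forall fun z hz => absurd hz hk
  have hD : ∀ᵐ z : ℝ, z ∈ uIcc x y →
      HasDerivAt (fun x => ∑ k ∈ Finset.range ℓ, e k * F k x) 0 z := by
    filter_upwards [hae] with z hz _
    have h1 : ∀ k ∈ Finset.range ℓ,
        HasDerivAt (fun x => e k * F k x) (e k * deriv (F k) z) z := fun k hk =>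
      (hz k (Finset.mem_range.1 hk)).hasDerivAt.const_mul (e k)
    have h2 := HasDerivAt.fun_sum h1
    rwa [h z (fun k => deriv (F k) z) (fun k hk => (hz k hk).hasDerivAt)] at h2
  obtain ⟨C, hC⟩ := (LipschitzOnWith.absolutelyContinuousOnInterval
    (lipD.lipschitzOnWith (s := uIcc x y))).const_of_ae_hasDerivAt_zero hD
  rw [hC x left_mem_uIcc, hC y right_mem_uIcc]

/-- the subgroup of order isomorphisms supported in `(-L, L)` -/
def exists_periodic_sub (L : ℝ) : Subgroup (ℝ ≃o ℝ) where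
  carrier := {V | ∀ X, L ≤ |X| → V X = X}
  mul_mem' := by
    intro V W hV hW X hX
    rw [RelIso.mul_apply, hW X hX, hV X hX]
  one_mem' := by
    intro X _
    rfl
  inv_mem' := by
    intro V hV X hX
    have h1 := hV X hX
    have h2 : (V⁻¹ : ℝ ≃o ℝ) (V X) = X := RelIso.inv_apply_self V X
    rw [h1] at h2
    exact h2

/-- the perturbed map -/
noncomputable def exists_periodic_f (y0 S : ℝ) (V : ℝ ≃o ℝ) (x : ℝ) : ℝ :=
  y0 + ⌊x - y0 + 1 / 2⌋ + V (S * (x - y0 - ⌊x - y0 + 1 / 2⌋)) / S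

theorem exists_periodic_f_eq (y0 S : ℝ) (V : ℝ ≃o ℝ) (m : ℤ) (r : ℝ) (h1 : -(1 / 2) ≤ r)
    (h2 : r < 1 / 2) : exists_periodic_f y0 S V (y0 + m + r) = y0 + m + V (S * r) / S := by
  have hfl : ⌊y0 + m + r - y0 + 1 / 2⌋ = m := by
    rw [Int.floor_eq_iff]
    constructor <;> linarith
  unfold exists_periodic_f
  rw [hfl]
  have : y0 + (m : ℝ) + r - y0 - m = r := by ring
  rw [this]

theorem exists_periodic_repr (y0 x : ℝ) : ∃ (m : ℤ) (r : ℝ), -(1 / 2) ≤ r ∧ r < 1 / 2 ∧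
    x = y0 + m + r := by
  refine ⟨⌊x - y0 + 1 / 2⌋, x - y0 - ⌊x - y0 + 1 / 2⌋, ?_, ?_, ?_⟩
  · have := Int.floor_le (x - y0 + 1 / 2)
    linarith
  · have := Int.lt_floor_add_one (x - y0 + 1 / 2)
    linarith
  · ring

theorem exists_periodic_range {L S : ℝ} (hL : 0 < L) (hS : 2 * L < S) {V : ℝ ≃o ℝ}
    (hV : ∀ X, L ≤ |X| → V X = X) {r : ℝ} (h1 : -(1 / 2) ≤ r) (h2 : r < 1 / 2) :
    -(1 / 2) ≤ V (S * r) / S ∧ V (S * r) / S < 1 / 2 := by
  have hS0 : 0 < S := by linarith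
  have hp : V (S / 2) = S / 2 := hV _ (by rw [abs_of_pos (by linarith)]; linarith)
  have hm : V (-(S / 2)) = -(S / 2) :=
    hV _ (by rw [abs_neg, abs_of_pos (by linarith)]; linarith)
  constructor
  · rw [le_div_iff₀ hS0]
    have h3 : V (-(S / 2)) ≤ V (S * r) := V.monotone (by nlinarith)
    rw [hm] at h3
    linarith
  · rw [div_lt_iff₀ hS0]
    have h3 : V (S * r) < V (S / 2) := V.strictMono (by nlinarith)
    rw [hp] at h3
    linarith

theorem exists_periodic_mul {L S : ℝ} (y0 : ℝ) (hL : 0 < L) (hS : 2 * L < S) {V W : ℝ ≃o ℝ}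
    (hW : ∀ X, L ≤ |X| → W X = X) (x : ℝ) :
    exists_periodic_f y0 S V (exists_periodic_f y0 S W x) = exists_periodic_f y0 S (V * W) x := by
  have hS0 : S ≠ 0 := by linarith
  obtain ⟨m, r, h1, h2, rfl⟩ := exists_periodic_repr y0 x
  obtain ⟨h3, h4⟩ := exists_periodic_range hL hS hW h1 h2
  rw [exists_periodic_f_eq y0 S W m r h1 h2, exists_periodic_f_eq y0 S V m _ h3 h4,
    exists_periodic_f_eq y0 S (V * W) m r h1 h2, RelIso.mul_apply]
  have : S * (W (S * r) / S) = W (S * r) := by field_simp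
  rw [this]

/-- the circle lift of `V` -/
noncomputable def exists_periodic_lift (y0 L S : ℝ) (hL : 0 < L) (hS : 2 * L < S)
    (V : exists_periodic_sub L) : CircleDeg1Lift where
  toFun := exists_periodic_f y0 S V
  monotone' := by
    intro x x' hx
    obtain ⟨m, r, h1, h2, rfl⟩ := exists_periodic_repr y0 x
    obtain ⟨m', r', h1', h2', rfl⟩ := exists_periodic_repr y0 x'
    obtain ⟨h3, h4⟩ := exists_periodic_range hL hS V.2 h1 h2
    obtain ⟨h3', h4'⟩ := exists_periodic_range hL hS V.2 h1' h2'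
    rw [exists_periodic_f_eq y0 S V m r h1 h2, exists_periodic_f_eq y0 S V m' r' h1' h2']
    rcases lt_trichotomy m m' with h | h | h
    · have h5 : (m : ℝ) + 1 ≤ m' := by exact_mod_cast h
      linarith
    · subst h
      have h5 : r ≤ r' := by linarith
      have h6 : (V : ℝ ≃o ℝ) (S * r) ≤ (V : ℝ ≃o ℝ) (S * r') :=
        (V : ℝ ≃o ℝ).monotone (mul_le_mul_of_nonneg_left h5 (by linarith))
      have h7 : (V : ℝ ≃o ℝ) (S * r) / S ≤ (V : ℝ ≃o ℝ) (S * r') / S :=
        div_le_div_of_nonneg_right h6 (by linarith)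
      linarith
    · exfalso
      have h5 : (m' : ℝ) + 1 ≤ m := by exact_mod_cast h
      linarith
  map_add_one' := by
    intro x
    obtain ⟨m, r, h1, h2, rfl⟩ := exists_periodic_repr y0 x
    have h3 : y0 + (m : ℝ) + r + 1 = y0 + ((m + 1 : ℤ) : ℝ) + r := by push_cast; ring
    show exists_periodic_f y0 S V (y0 + m + r + 1) = exists_periodic_f y0 S V (y0 + m + r) + 1
    rw [h3, exists_periodic_f_eq y0 S V m r h1 h2, exists_periodic_f_eq y0 S V (m + 1) r h1 h2]
    push_cast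
    ring

/-- the homomorphism -/
noncomputable def exists_periodic_hom (y0 L S : ℝ) (hL : 0 < L) (hS : 2 * L < S) :
    exists_periodic_sub L →* CircleDeg1Lift where
  toFun V := exists_periodic_lift y0 L S hL hS V
  map_one' := by
    ext x
    show exists_periodic_f y0 S (1 : ℝ ≃o ℝ) x = x
    have hS0 : S ≠ 0 := by linarith
    obtain ⟨m, r, h1, h2, rfl⟩ := exists_periodic_repr y0 x
    rw [exists_periodic_f_eq y0 S 1 m r h1 h2]
    show y0 + m + (S * r) / S = y0 + m + r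
    field_simp
  map_mul' := by
    intro V W
    ext x
    exact (exists_periodic_mul y0 hL hS W.2 x).symm

theorem exists_periodic (U : ℝ ≃o ℝ) (L : ℝ) (hL : 0 < L) (hU : ∀ X, L ≤ |X| → U X = X)
    (y0 S : ℝ) (hS : 2 * L < S) :
    ∃ u : G, (∀ (m : ℤ) (X : ℝ), |X| ≤ L → ∀ e : ℤ,
        (u ^ e : G) (y0 + m + X / S) = y0 + m + ((U ^ e : ℝ ≃o ℝ) X) / S) ∧
      (∀ x : ℝ, (∀ m : ℤ, L / S ≤ |x - y0 - m|) → ∀ e : ℤ, (u ^ e : G) x = x) := by
  have hS0 : 0 < S := by linarith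
  let U' : exists_periodic_sub L := ⟨U, hU⟩
  have hpow : ∀ (e : ℤ) (x : ℝ), (((exists_periodic_hom y0 L S hL hS).toHomUnits U') ^ e : G) x =
      exists_periodic_f y0 S ((U ^ e : ℝ ≃o ℝ)) x := by
    intro e x
    rw [← map_zpow]
    rfl
  refine ⟨(exists_periodic_hom y0 L S hL hS).toHomUnits U', ?_, ?_⟩
  · intro m X hX e
    rw [hpow]
    obtain ⟨hX1, hX2⟩ := abs_le.1 hX
    have h1 : -(1 / 2) ≤ X / S := by
      rw [le_div_iff₀ hS0]
      linarith
    have h2 : X / S < 1 / 2 := by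
      rw [div_lt_iff₀ hS0]
      linarith
    rw [exists_periodic_f_eq y0 S _ m (X / S) h1 h2]
    have : S * (X / S) = X := by field_simp
    rw [this]
  · intro x hx e
    rw [hpow]
    have hmem : (U ^ e : ℝ ≃o ℝ) ∈ exists_periodic_sub L := (U' ^ e).2
    obtain ⟨m, r, h1, h2, rfl⟩ := exists_periodic_repr y0 x
    have h3 := hx m
    have h4 : y0 + (m : ℝ) + r - y0 - m = r := by ring
    rw [h4, div_le_iff₀ hS0] at h3
    rw [exists_periodic_f_eq y0 S _ m r h1 h2]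
    have h5 : (U ^ e : ℝ ≃o ℝ) (S * r) = S * r := by
      apply hmem
      rw [abs_mul, abs_of_pos hS0]
      linarith
    rw [h5]
    field_simp

end Pool.Agent.Helper29.Rot
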