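import Pool.Agent.Helper29.RotA2
import Pool.Agent.Helper29.RotA3

set_option autoImplicit false

open CircleDeg1Lift Set

namespace Pool.Agent.Helper29.Rot

/-- TARGET -/
theorem nc_of_limit (θ : ℝ) (ℓ : ℕ) (hℓ : 0 < ℓ) (δ : ℕ → ℤ) (g : ℕ → ℕ → G) (f : ℕ → ℕ → G)
    (t : ℕ → ℝ) (F : ℕ → ℝ → ℝ)
    (h1 : ∀ n k, k + 1 < ℓ → ∀ x : ℝ, f n (k + 1) (g n k x) = f n k x)
    (h2 : ∀ n, ∀ x : ℝ, |f n 0 (g n (ℓ - 1) x) - f n (ℓ - 1) x - t n| ≤ 1 / ((n : ℝ) + 1))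
    (ht : ∀ n : ℕ, θ - 1 / ((n : ℝ) + 1) ≤ t n)
    (mono : ∀ k, k < ℓ → Monotone (F k))
    (deg : ∀ k, k < ℓ → ∀ x, F k (x + 1) = F k x + 1)
    (lip : ∀ k, k < ℓ → ∀ x y, |F k x - F k y| ≤ ℓ * |x - y|)
    (hF : ∀ η : ℝ, 0 < η → ∀ n₀ : ℕ, ∃ n, n₀ ≤ n ∧ ∀ k, k < ℓ → ∀ x : ℝ,
      |f n k x - F k x| ≤ η)
    (hle : ∀ (n : ℕ) (u : G), translationNumber
      (prodSeq (fun k => u ^ (δ k) * g n k * u ^ (-δ k)) ℓ : CircleDeg1Lift) ≤ θ)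
    (u : G) (N : ℕ) (M : ℤ) (hN : 0 < N) (hM : (N : ℝ) * θ < M) (ts : ℤ) (q : ℕ → ℝ)
    (hq : ∀ k, k < N * ℓ → ∀ x : ℝ, q k + ((ts : ℝ) + ((k / ℓ : ℕ) : ℝ)) * θ ≤ F (k % ℓ) x →
      q (k + 1) + ((ts : ℝ) + ((k / ℓ : ℕ) : ℝ)) * θ
        ≤ F (k % ℓ) ((u ^ (expo ℓ δ (k % ℓ)) : G) x)) :
    q (N * ℓ) - q 0 ≤ M - N * θ := by
  by_contra hcon
  rw [not_le] at hcon
  set E : ℝ := q (N * ℓ) - q 0 - (M - N * θ) with hEdef
  have hE : 0 < E := by rw [hEdef]; linarith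
  have hNℓ : 0 < N * ℓ := Nat.mul_pos hN hℓ
  have hcont : ∀ k, k < ℓ → Continuous (F k) := by
    intro k hk
    have : LipschitzWith (ℓ : NNReal) (F k) := by
      apply LipschitzWith.of_dist_le_mul
      intro x y
      rw [Real.dist_eq, Real.dist_eq]
      simpa using lip k hk x y
    exact this.continuous
  have hstep : ∀ (k : ℕ) (η' : ℝ), k < N * ℓ → 0 < η' → ∃ η : ℝ, 0 < η ∧
      ∀ f' : ℝ → ℝ, (∀ x, |f' x - F (k % ℓ) x| ≤ η) → ∀ x : ℝ,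
        (q k + ((ts : ℝ) + ((k / ℓ : ℕ) : ℝ)) * θ) - η ≤ f' x →
        (q (k + 1) + ((ts : ℝ) + ((k / ℓ : ℕ) : ℝ)) * θ) - η' ≤
          f' ((u ^ (expo ℓ δ (k % ℓ)) : G) x) := by
    intro k η' hk hη'
    have hkl : k % ℓ < ℓ := Nat.mod_lt _ hℓ
    exact robust_step (F (k % ℓ)) (mono _ hkl) (hcont _ hkl) (deg _ hkl)
      (u ^ (expo ℓ δ (k % ℓ)) : G) _ _ (hq k hk) η' hη'
  choose! c hc0 hc1 using hstep
  let h : ℕ → ℝ := fun j => Nat.rec E (fun j hj => c (N * ℓ - (j + 1)) (hj / 2)) j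
  have hh0 : h 0 = E := rfl
  have hhs : ∀ j, h (j + 1) = c (N * ℓ - (j + 1)) (h j / 2) := fun j => rfl
  have hpos : ∀ j, 0 < h j := by
    intro j
    induction j with
    | zero => rw [hh0]; exact hE
    | succ j ih =>
      rw [hhs]
      exact hc0 _ _ (by omega) (by linarith)
  let η : ℕ → ℝ := fun k => h (N * ℓ - k)
  have hηpos : ∀ k, 0 < η k := fun k => hpos _
  have hηE : η (N * ℓ) = E := by
    change h (N * ℓ - N * ℓ) = E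
    rw [Nat.sub_self]
    exact hh0
  have hη : ∀ k, k < N * ℓ → ∀ f' : ℝ → ℝ, (∀ x, |f' x - F (k % ℓ) x| ≤ η k) → ∀ x : ℝ,
        (q k + ((ts : ℝ) + ((k / ℓ : ℕ) : ℝ)) * θ) - η k ≤ f' x →
        (q (k + 1) + ((ts : ℝ) + ((k / ℓ : ℕ) : ℝ)) * θ) - η (k + 1) / 2 ≤
          f' ((u ^ (expo ℓ δ (k % ℓ)) : G) x) := by
    intro k hk f' hf' x hx
    have e1 : N * ℓ - k = (N * ℓ - (k + 1)) + 1 := by omega
    have e2 : N * ℓ - ((N * ℓ - (k + 1)) + 1) = k := by omega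
    have e3 : η k = c k (η (k + 1) / 2) := by
      change h (N * ℓ - k) = c k (h (N * ℓ - (k + 1)) / 2)
      rw [e1, hhs, e2]
    rw [e3] at hf' hx
    exact hc1 k (η (k + 1) / 2) hk (by have := hηpos (k + 1); linarith) f' hf' x hx
  obtain ⟨m, hm0, hm⟩ : ∃ m : ℝ, 0 < m ∧ ∀ k, k ≤ N * ℓ → m ≤ η k := by
    obtain ⟨k0, _, hk0⟩ := Finset.exists_min_image (Finset.range (N * ℓ + 1)) η
      ⟨0, Finset.mem_range.2 (by omega)⟩
    exact ⟨η k0, hηpos k0, fun k hk => hk0 k (Finset.mem_range.2 (by omega))⟩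
  obtain ⟨n₀, hn₀⟩ := exists_nat_gt (4 / m)
  obtain ⟨n, hn, hfn⟩ := hF m hm0 n₀
  have hn1 : 2 * (1 / ((n : ℝ) + 1)) ≤ m / 2 := by
    have h1 : (n₀ : ℝ) ≤ n := by exact_mod_cast hn
    have h2 : 4 / m < (n : ℝ) + 1 := by linarith
    have h3 : 0 < (n : ℝ) + 1 := by positivity
    rw [div_lt_iff₀ hm0] at h2
    rw [mul_one_div, div_le_iff₀ h3]
    nlinarith
  let p : ℕ → ℝ := fun k => (q k + ((ts : ℝ) + ((k / ℓ : ℕ) : ℝ)) * θ) - η k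
  have hbar := barrier_level ℓ hℓ (g n) δ u (f n) (t n) (1 / ((n : ℝ) + 1)) (h1 n) (h2 n) N M hN p
    (by
      intro k hk x hx
      have hkl : k % ℓ < ℓ := Nat.mod_lt _ hℓ
      have h4 := hη k hk (f n (k % ℓ)) (fun x => (hfn _ hkl x).trans (hm k hk.le)) x hx
      refine le_trans ?_ h4
      have h5 := hηpos (k + 1)
      have h6 := hm (k + 1) hk
      change (q (k + 1) + ((ts : ℝ) + (((k + 1) / ℓ : ℕ) : ℝ)) * θ) - η (k + 1) - _ ≤ _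
      by_cases hmod : (k + 1) % ℓ = 0
      · rw [if_pos hmod]
        have hdiv : (k + 1) / ℓ = k / ℓ + 1 := by
          rw [Nat.succ_div, if_pos (Nat.dvd_of_mod_eq_zero hmod)]
        rw [hdiv]
        push_cast
        have := ht n
        nlinarith
      · rw [if_neg hmod]
        have hdiv : (k + 1) / ℓ = k / ℓ := by
          rw [Nat.succ_div, if_neg (fun hd => hmod (Nat.mod_eq_zero_of_dvd hd)), add_zero]
        rw [hdiv]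
        linarith)
    (by
      change (q 0 + ((ts : ℝ) + ((0 / ℓ : ℕ) : ℝ)) * θ) - η 0 + M ≤
        (q (N * ℓ) + ((ts : ℝ) + ((N * ℓ / ℓ : ℕ) : ℝ)) * θ) - η (N * ℓ)
      rw [Nat.zero_div, Nat.mul_div_cancel _ hℓ, hηE]
      have h7 := hηpos 0
      push_cast
      rw [hEdef]
      nlinarith)
  have hfin := hbar.trans (hle n u)
  have hN0 : (0 : ℝ) < N := by exact_mod_cast hN
  rw [div_le_iff₀ hN0] at hfin
  linarith

end Pool.Agent.Helper29.Rot
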