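import Pool.Agent.Helper29.RotA4

set_option autoImplicit false

open CircleDeg1Lift Set

namespace Pool.Agent.Helper29.Rot

/-- TARGET -/
theorem rational_of_const (θ : ℝ) (ℓ : ℕ) (hℓ : 0 < ℓ) (p p' : ℤ) (m m' : ℕ) (hm : 0 < m)
    (hm' : 0 < m') (A B : ℕ → G) (hA : ∀ n, ∀ x : ℝ, (A n ^ m : G) x = x + p)
    (hB : ∀ n, ∀ x : ℝ, (B n ^ m' : G) x = x + p')
    (cls : ℕ → Bool) (σ : ℕ → ℤ) (hσ : ∀ k, σ k = 1 ∨ σ k = -1) (g : ℕ → ℕ → G)
    (hg : ∀ n k, g n k = if cls k then A n ^ (σ k) else B n ^ (σ k))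
    (f : ℕ → ℕ → G) (t : ℕ → ℝ) (F : ℕ → ℝ → ℝ)
    (h1 : ∀ n k, k + 1 < ℓ → ∀ x : ℝ, f n (k + 1) (g n k x) = f n k x)
    (h2 : ∀ n, ∀ x : ℝ, |f n 0 (g n (ℓ - 1) x) - f n (ℓ - 1) x - t n| ≤ 1 / ((n : ℝ) + 1))
    (ht : ∀ n : ℕ, θ - 1 / ((n : ℝ) + 1) ≤ t n) (ht' : ∀ n : ℕ, t n ≤ θ)
    (hF : ∀ η : ℝ, 0 < η → ∀ n₀ : ℕ, ∃ n, n₀ ≤ n ∧ ∀ k, k < ℓ → ∀ x : ℝ,
      |f n k x - F k x| ≤ η)
    (hc : ∀ x y, ∑ k ∈ Finset.range ℓ,
        ((expo ℓ (fun j => if cls j then 1 else 0) k : ℤ) : ℝ) * F k x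
      = ∑ k ∈ Finset.range ℓ,
        ((expo ℓ (fun j => if cls j then 1 else 0) k : ℤ) : ℝ) * F k y) :
    ∃ q : ℚ, θ = q := by
  set e : ℕ → ℝ := fun k => ((expo ℓ (fun j => if cls j then 1 else 0) k : ℤ) : ℝ) with he
  have he2 : ∀ k, |e k| ≤ 2 := by
    intro k
    simp only [he, expo]
    split_ifs <;> norm_num
  set R : ℝ := (∑ k ∈ Finset.range ℓ, if cls k then (σ k : ℝ) else 0) * p / m
        + (∑ k ∈ Finset.range ℓ, if cls k then 0 else (σ k : ℝ)) * p' / m' with hR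
  set cst : ℝ := ∑ k ∈ Finset.range ℓ, e k * F k 0 with hcst
  have hℓR : (0 : ℝ) < ℓ := by exact_mod_cast hℓ
  have main : ∀ ε : ℝ, 0 < ε → |θ - R| ≤ ε := by
    intro ε hε
    obtain ⟨n₀, hn₀⟩ := exists_nat_gt (6 / ε)
    have hη : 0 < ε / (8 * ℓ) := by positivity
    obtain ⟨n, hn, hfn⟩ := hF (ε / (8 * ℓ)) hη n₀
    have hn1 : (0 : ℝ) < (n : ℝ) + 1 := by positivity
    have hnbig : 6 / ε < (n : ℝ) + 1 := by
      have : (n₀ : ℝ) ≤ n := by exact_mod_cast hn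
      linarith
    have hinv : 1 / ((n : ℝ) + 1) ≤ ε / 6 := by
      rw [div_le_iff₀ hn1]
      rw [div_lt_iff₀ hε] at hnbig
      nlinarith
    have hD : ∀ x : ℝ, |∑ k ∈ Finset.range ℓ, e k * f n k x - cst| ≤ ε / 4 := by
      intro x
      have h3 : cst = ∑ k ∈ Finset.range ℓ, e k * F k x := hc 0 x
      rw [h3, ← Finset.sum_sub_distrib]
      calc |∑ k ∈ Finset.range ℓ, (e k * f n k x - e k * F k x)|
          ≤ ∑ k ∈ Finset.range ℓ, |e k * f n k x - e k * F k x| := Finset.abs_sum_le_sum_abs _ _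
        _ ≤ ∑ k ∈ Finset.range ℓ, 2 * (ε / (8 * ℓ)) := by
            refine Finset.sum_le_sum fun k hk => ?_
            rw [← mul_sub, abs_mul]
            exact mul_le_mul (he2 k) (hfn k (Finset.mem_range.1 hk) x) (abs_nonneg _) (by norm_num)
        _ = ε / 4 := by
            rw [Finset.sum_const, Finset.card_range, nsmul_eq_mul]
            field_simp
            norm_num
    have h4 := avg_identity ℓ hℓ (A n) (B n) p p' m m' hm hm' (hA n) (hB n) cls σ hσ (g n) (hg n)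
      (f n) (t n) (1 / ((n : ℝ) + 1)) (h1 n) (h2 n) cst (ε / 4) hD
    have h5 : |t n - R| ≤ 2 * (ε / 4) + 2 * (1 / ((n : ℝ) + 1)) := h4
    have h6 := abs_le.1 h5
    have h7 := ht n
    have h8 := ht' n
    rw [abs_le]
    constructor <;> linarith [h6.1, h6.2]
  have hθ : θ = R := by
    by_contra hne
    have hpos : 0 < |θ - R| := abs_pos.2 (sub_ne_zero.2 hne)
    have := main (|θ - R| / 2) (by positivity)
    linarith
  refine ⟨(∑ k ∈ Finset.range ℓ, if cls k then (σ k : ℚ) else 0) * p / m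
        + (∑ k ∈ Finset.range ℓ, if cls k then 0 else (σ k : ℚ)) * p' / m', ?_⟩
  rw [hθ, hR]
  push_cast
  have e1 : ∀ k, ((if cls k then (σ k : ℚ) else 0 : ℚ) : ℝ) = if cls k then (σ k : ℝ) else 0 := by
    intro k; split_ifs <;> simp
  have e2 : ∀ k, ((if cls k then 0 else (σ k : ℚ) : ℚ) : ℝ) = if cls k then 0 else (σ k : ℝ) := by
    intro k; split_ifs <;> simp
  simp only [e1, e2]

end Pool.Agent.Helper29.Rot
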