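import Pool.Agent.Helper29.RotA1
import Pool.Agent.Helper29.RotA3
import Pool.Agent.Helper29.RotA5
import Pool.Agent.Helper29.RotA6
import Pool.Agent.Helper29.RotA7

set_option autoImplicit false

open CircleDeg1Lift Set

namespace Pool.Agent.Helper29.Rot

theorem j16444_congr {g g' : ℕ → G} {n : ℕ} (h : ∀ k, k < n → g k = g' k) :
    prodSeq g n = prodSeq g' n := by
  induction n with
  | zero => rfl
  | succ n ih =>
    show g n * prodSeq g n = g' n * prodSeq g' n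
    rw [h n (by omega), ih (fun k hk => h k (by omega))]

theorem j16444_list {α : Type} (φ : α → G) (d : α) (M : List α) :
    prodSeq (fun k => φ (M.getD k d)) M.length = (M.reverse.map φ).prod := by
  induction M using List.reverseRecOn with
  | nil => rfl
  | append_singleton M x ih =>
    rw [List.length_append, List.length_singleton]
    show φ ((M ++ [x]).getD M.length d) *
      prodSeq (fun k => φ ((M ++ [x]).getD k d)) M.length = _
    rw [j16444_congr (g' := fun k => φ (M.getD k d)) (fun k hk => by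
      rw [List.getD_append _ _ _ _ hk]), ih, List.getD_append_right _ _ _ _ le_rfl]
    simp

theorem j16444_mk (ρ : FreeGroup (Fin 2) →* G) (L : List (Fin 2 × Bool)) :
    ρ (FreeGroup.mk L) = (L.map (fun x : Fin 2 × Bool =>
      if x.1 = 0 then ρ (FreeGroup.of 0) ^ (if x.2 then 1 else -1 : ℤ)
      else ρ (FreeGroup.of 1) ^ (if x.2 then 1 else -1 : ℤ))).prod := by
  induction L with
  | nil => exact map_one ρ
  | cons x L ih =>
    have e : FreeGroup.mk (x :: L) = FreeGroup.mk [x] * FreeGroup.mk L := by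
      rw [FreeGroup.mul_mk]; rfl
    rw [e, map_mul, ih, List.map_cons, List.prod_cons]
    congr 1
    obtain ⟨i, b⟩ := x
    have h1 : ∀ i : Fin 2, FreeGroup.mk [(i, true)] = FreeGroup.of i := fun i => rfl
    have h2 : ∀ i : Fin 2, FreeGroup.mk [(i, false)] = (FreeGroup.of i)⁻¹ := fun i => rfl
    fin_cases i <;> cases b <;> simp [h1, h2]

theorem j16444_word (ρ : FreeGroup (Fin 2) →* G) (w : FreeGroup (Fin 2)) :
    ρ w = prodSeq (fun k => (fun x : Fin 2 × Bool =>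
      if x.1 = 0 then ρ (FreeGroup.of 0) ^ (if x.2 then 1 else -1 : ℤ)
      else ρ (FreeGroup.of 1) ^ (if x.2 then 1 else -1 : ℤ))
        (w.toWord.reverse.getD k (0, true))) w.toWord.length := by
  have h := j16444_list (fun x : Fin 2 × Bool =>
      if x.1 = 0 then ρ (FreeGroup.of 0) ^ (if x.2 then 1 else -1 : ℤ)
      else ρ (FreeGroup.of 1) ^ (if x.2 then 1 else -1 : ℤ)) (0, true) w.toWord.reverse
  rw [List.length_reverse, List.reverse_reverse] at h
  rw [h, ← j16444_mk, FreeGroup.mk_toWord]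

theorem j16444_pow {A : G} {r : ℚ} (h : IsConj A (translate (Multiplicative.ofAdd (r : ℝ)))) :
    ∀ x : ℝ, (A ^ r.den : G) x = x + (r.num : ℤ) := by
  obtain ⟨c, hc⟩ := isConj_iff.1 h
  have hA : A = c⁻¹ * translate (Multiplicative.ofAdd (r : ℝ)) * c := by
    rw [← hc]; group
  have hA' : A ^ r.den = c⁻¹ * translate (Multiplicative.ofAdd ((r.num : ℤ) : ℝ)) * c := by
    have h1 : (c⁻¹ * translate (Multiplicative.ofAdd (r : ℝ)) * c) ^ r.den =
        c⁻¹ * (translate (Multiplicative.ofAdd (r : ℝ))) ^ r.den * c := by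
      have := conj_pow (a := c⁻¹) (b := translate (Multiplicative.ofAdd (r : ℝ))) (i := r.den)
      rw [inv_inv] at this
      exact this
    rw [hA, h1, ← map_pow, ← ofAdd_nsmul]
    congr 4
    rw [nsmul_eq_mul]
    have := Rat.den_mul_eq_num r
    exact_mod_cast this
  intro x
  rw [hA']
  show (c⁻¹ : G) ((translate (Multiplicative.ofAdd ((r.num : ℤ) : ℝ))) (c x)) = _
  rw [translate_apply, add_comm, map_add_int, units_inv_apply_apply]

theorem j16444_tn {A : G} {r : ℝ} (h : IsConj A (translate (Multiplicative.ofAdd r))) :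
    translationNumber (A : CircleDeg1Lift) = r := by
  obtain ⟨c, hc⟩ := isConj_iff.1 h
  rw [← translationNumber_translate r, ← hc]
  have := translationNumber_conj_eq c (A : CircleDeg1Lift)
  rw [← this]
  rfl

theorem j16444_conj {A ψ : G} {r : ℝ} (h : IsConj A (translate (Multiplicative.ofAdd r))) :
    IsConj (ψ * A * ψ⁻¹) (translate (Multiplicative.ofAdd r)) :=
  (isConj_iff.2 ⟨ψ, rfl⟩ : IsConj A (ψ * A * ψ⁻¹)).symm.trans h

/-- the letters of the word -/
noncomputable def j16444_g (w : FreeGroup (Fin 2)) (A B : G) (k : ℕ) : G :=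
  if decide ((w.toWord.reverse.getD k (0, true)).1 = 0) then
    A ^ (if (w.toWord.reverse.getD k (0, true)).2 then 1 else -1 : ℤ)
  else B ^ (if (w.toWord.reverse.getD k (0, true)).2 then 1 else -1 : ℤ)

theorem j16444_word' (ρ : FreeGroup (Fin 2) →* G) (w : FreeGroup (Fin 2)) :
    ρ w = prodSeq (j16444_g w (ρ (FreeGroup.of 0)) (ρ (FreeGroup.of 1))) w.toWord.length := by
  rw [j16444_word ρ w]
  refine j16444_congr fun k _ => ?_
  unfold j16444_g
  simp only [decide_eq_true_eq]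

theorem j16444_mem {w : FreeGroup (Fin 2)} {A B : G} {r s : ℝ}
    (hA : IsConj A (translate (Multiplicative.ofAdd r)))
    (hB : IsConj B (translate (Multiplicative.ofAdd s))) :
    translationNumber (prodSeq (j16444_g w A B) w.toWord.length : CircleDeg1Lift) ∈
      rotSet w r s := by
  refine ⟨FreeGroup.lift ![A, B], ?_, ?_, ?_⟩
  · rw [FreeGroup.lift_apply_of]
    exact hA
  · rw [FreeGroup.lift_apply_of]
    exact hB
  · rw [j16444_word']
    simp only [FreeGroup.lift_apply_of]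
    rfl

theorem j16444_gconj (w : FreeGroup (Fin 2)) (A B ψ : G) (k : ℕ) :
    j16444_g w (ψ * A * ψ⁻¹) (ψ * B * ψ⁻¹) k = ψ * j16444_g w A B k * ψ⁻¹ := by
  unfold j16444_g
  split_ifs <;> rw [conj_zpow]

theorem j16444_lip {ℓ : ℕ} {f : ℕ → G} (hs : ∀ x : ℝ, ∑ k ∈ Finset.range ℓ, f k x = ℓ * x)
    {k : ℕ} (hk : k < ℓ) (x y : ℝ) : |f k x - f k y| ≤ ℓ * |x - y| := by
  have key : ∀ x y : ℝ, y ≤ x → |f k x - f k y| ≤ ℓ * |x - y| := by
    intro x y hxy
    have h1 : ∀ j, 0 ≤ f j x - f j y := fun j => sub_nonneg.2 ((f j : CircleDeg1Lift).monotone hxy)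
    rw [abs_of_nonneg (h1 k), abs_of_nonneg (sub_nonneg.2 hxy), mul_sub, ← hs, ← hs,
      ← Finset.sum_sub_distrib]
    exact Finset.single_le_sum (f := fun j => f j x - f j y) (fun j _ => h1 j)
      (Finset.mem_range.2 hk)
  rcases le_total y x with h | h
  · exact key x y h
  · rw [abs_sub_comm, abs_sub_comm x y]
    exact key y x h

/-- TARGET -/
theorem sys_exists (w : FreeGroup (Fin 2)) (r s : ℚ) (θ : ℝ) (hθ : Irrational θ)
    (hsup : IsLUB (rotSet w r s) θ) :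
    ∃ (ℓ : ℕ) (ε : ℕ → ℤ) (F : ℕ → ℝ → ℝ) (ρ : ℕ → ℝ) (y0 : ℝ), Sys θ ℓ ε F ∧
      (∀ k, ε k = 0 ∨ ε k = 1 ∨ ε k = -1) ∧ (∀ k, k < ℓ → HasDerivAt (F k) (ρ k) y0) ∧
      ∑ k ∈ Finset.range ℓ, (ε k : ℝ) * ρ k ≠ 0 := by
  obtain ⟨ℓ, hℓdef⟩ : ∃ ℓ : ℕ, ℓ = w.toWord.length := ⟨_, rfl⟩
  have hℓ : 0 < ℓ := by
    rcases Nat.eq_zero_or_pos ℓ with h0 | h0
    · exfalso
      obtain ⟨t, ht⟩ := hsup.nonempty
      have hz : ∀ t ∈ rotSet w r s, t = 0 := by
        rintro t ⟨ρ, -, -, rfl⟩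
        rw [j16444_word' ρ w, ← hℓdef, h0]
        show translationNumber ((1 : G) : CircleDeg1Lift) = 0
        rw [Units.val_one, translationNumber_one]
      have h1 : θ = 0 := by
        apply le_antisymm
        · exact hsup.2 fun t ht => (hz t ht).le
        · have := hsup.1 ht
          rwa [hz t ht] at this
      exact hθ.ne_zero h1
    · exact h0
  -- representations
  have hex : ∀ n : ℕ, ∃ A B : G, IsConj A (translate (Multiplicative.ofAdd (r : ℝ))) ∧
      IsConj B (translate (Multiplicative.ofAdd (s : ℝ))) ∧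
      θ - 1 / ((n : ℝ) + 1) < translationNumber (prodSeq (j16444_g w A B) ℓ : CircleDeg1Lift) := by
    intro n
    have h1 : θ - 1 / ((n : ℝ) + 1) < θ := by
      have : 0 < 1 / ((n : ℝ) + 1) := by positivity
      linarith
    obtain ⟨t, ⟨ρ, h2, h3, rfl⟩, h4⟩ := (lt_isLUB_iff hsup).1 h1
    rw [j16444_word' ρ w, ← hℓdef] at h4
    exact ⟨_, _, h2, h3, h4⟩
  choose A' B' hA' hB' ht' using hex
  have hlev : ∀ n : ℕ, ∃ (ψ : G) (f : ℕ → G),
      (∀ x : ℝ, ∑ k ∈ Finset.range ℓ, f k x = ℓ * x) ∧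
      (∀ k, k + 1 < ℓ → ∀ x : ℝ,
        f (k + 1) ((ψ * j16444_g w (A' n) (B' n) k * ψ⁻¹ : G) x) = f k x) ∧
      (∀ x : ℝ, |f 0 ((ψ * j16444_g w (A' n) (B' n) (ℓ - 1) * ψ⁻¹ : G) x) - f (ℓ - 1) x
        - translationNumber (prodSeq (j16444_g w (A' n) (B' n)) ℓ : CircleDeg1Lift)|
          ≤ 1 / ((n + 1 : ℕ) : ℝ)) ∧
      (∀ k, k < ℓ → ∀ x : ℝ, |f k x - x| ≤ ℓ * (|(r : ℝ)| + |(s : ℝ)| + 3)) := by
    intro n
    refine level_functions ℓ (n + 1) hℓ (Nat.succ_pos n) (j16444_g w (A' n) (B' n))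
      (|(r : ℝ)| + |(s : ℝ)|) ?_
    intro k _
    unfold j16444_g
    have hr := j16444_tn (hA' n)
    have hs := j16444_tn (hB' n)
    have p1 := abs_nonneg (r : ℝ)
    have p2 := abs_nonneg (s : ℝ)
    split_ifs <;> rw [translationNumber_zpow] <;> simp only [hr, hs] <;> push_cast <;>
      simp only [one_mul, neg_mul, abs_neg] <;> linarith
  choose ψ f hf1 hf2 hf3 hf4 using hlev
  obtain ⟨F, hF1, hF2, hF3, hF4⟩ := limit_functions ℓ (ℓ * (|(r : ℝ)| + |(s : ℝ)| + 3))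
    (fun n k x => f n k x) (fun n k _ => (f n k : CircleDeg1Lift).monotone)
    (fun n k _ x => (f n k : CircleDeg1Lift).map_add_one x)
    (fun n k hk x y => j16444_lip (hf1 n) hk x y) (fun n k hk x => hf4 n k hk x)
  -- the conjugated representations
  have hA : ∀ n, IsConj (ψ n * A' n * (ψ n)⁻¹) (translate (Multiplicative.ofAdd (r : ℝ))) :=
    fun n => j16444_conj (hA' n)
  have hB : ∀ n, IsConj (ψ n * B' n * (ψ n)⁻¹) (translate (Multiplicative.ofAdd (s : ℝ))) :=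
    fun n => j16444_conj (hB' n)
  obtain ⟨g, hg⟩ : ∃ g : ℕ → ℕ → G, g = fun n =>
    j16444_g w (ψ n * A' n * (ψ n)⁻¹) (ψ n * B' n * (ψ n)⁻¹) := ⟨_, rfl⟩
  have hg' : ∀ n k, g n k = ψ n * j16444_g w (A' n) (B' n) k * (ψ n)⁻¹ := by
    intro n k
    rw [hg]
    exact j16444_gconj w _ _ _ k
  obtain ⟨t, ht⟩ : ∃ t : ℕ → ℝ, t = fun n =>
    translationNumber (prodSeq (j16444_g w (A' n) (B' n)) ℓ : CircleDeg1Lift) := ⟨_, rfl⟩
  have h1 : ∀ n k, k + 1 < ℓ → ∀ x : ℝ, f n (k + 1) (g n k x) = f n k x := by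
    intro n k hk x
    rw [hg']
    exact hf2 n k hk x
  have h2 : ∀ n, ∀ x : ℝ, |f n 0 (g n (ℓ - 1) x) - f n (ℓ - 1) x - t n| ≤
      1 / ((n : ℝ) + 1) := by
    intro n x
    rw [hg', ht]
    have := hf3 n x
    push_cast at this
    exact this
  have htl : ∀ n : ℕ, θ - 1 / ((n : ℝ) + 1) ≤ t n := by
    intro n
    rw [ht]
    exact (ht' n).le
  have htu : ∀ n : ℕ, t n ≤ θ := by
    intro n
    rw [ht]
    have := hsup.1 (j16444_mem (w := w) (hA' n) (hB' n))
    rw [← hℓdef] at this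
    exact this
  obtain ⟨cls, hcls⟩ : ∃ cls : ℕ → Bool, cls = fun k =>
    decide ((w.toWord.reverse.getD k (0, true)).1 = 0) := ⟨_, rfl⟩
  obtain ⟨σ, hσ⟩ : ∃ σ : ℕ → ℤ, σ = fun k =>
    (if (w.toWord.reverse.getD k (0, true)).2 then 1 else -1 : ℤ) := ⟨_, rfl⟩
  have hσ1 : ∀ k, σ k = 1 ∨ σ k = -1 := by
    intro k
    rw [hσ]
    simp only
    split_ifs
    · exact Or.inl rfl
    · exact Or.inr rfl
  have hgcls : ∀ n k, g n k = if cls k then (ψ n * A' n * (ψ n)⁻¹) ^ (σ k)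
      else (ψ n * B' n * (ψ n)⁻¹) ^ (σ k) := by
    intro n k
    rw [hg, hcls, hσ]
    rfl
  have hle : ∀ (n : ℕ) (u : G), translationNumber
      (prodSeq (fun k => u ^ ((fun j => if cls j then (1:ℤ) else 0) k) * g n k *
        u ^ (-(fun j => if cls j then (1:ℤ) else 0) k)) ℓ : CircleDeg1Lift) ≤ θ := by
    intro n u
    have h3 := hsup.1 (j16444_mem (w := w) (j16444_conj (ψ := u) (hA n)) (hB n))
    rw [← hℓdef] at h3
    have h4 : prodSeq (fun k => u ^ ((fun j => if cls j then (1:ℤ) else 0) k) * g n k *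
        u ^ (-(fun j => if cls j then (1:ℤ) else 0) k)) ℓ =
        prodSeq (j16444_g w (u * (ψ n * A' n * (ψ n)⁻¹) * u⁻¹) (ψ n * B' n * (ψ n)⁻¹)) ℓ := by
      refine j16444_congr fun k _ => ?_
      have h5 : j16444_g w (u * (ψ n * A' n * (ψ n)⁻¹) * u⁻¹) (ψ n * B' n * (ψ n)⁻¹) k =
          if cls k then (u * (ψ n * A' n * (ψ n)⁻¹) * u⁻¹) ^ (σ k)
          else (ψ n * B' n * (ψ n)⁻¹) ^ (σ k) := by
        rw [hcls, hσ]
        rfl
      rw [h5, hgcls]
      simp only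
      split_ifs
      · rw [zpow_one, zpow_neg, zpow_one, conj_zpow (a := u)]
      · rw [zpow_zero, neg_zero, zpow_zero, one_mul, mul_one]
    rw [h4]
    exact h3
  have hnc := nc_of_limit θ ℓ hℓ (fun j => if cls j then (1:ℤ) else 0) g f t F h1 h2 htl hF1 hF2
    hF3 hF4 hle
  have hsys : Sys θ ℓ (expo ℓ (fun j => if cls j then (1:ℤ) else 0)) F :=
    ⟨hℓ, hF1, hF2, hF3, fun u N M hN hM ts q hq => hnc u N M hN hM ts q hq⟩
  have hε : ∀ k, expo ℓ (fun j => if cls j then (1:ℤ) else 0) k = 0 ∨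
      expo ℓ (fun j => if cls j then (1:ℤ) else 0) k = 1 ∨
      expo ℓ (fun j => if cls j then (1:ℤ) else 0) k = -1 := by
    intro k
    unfold expo
    beta_reduce
    split_ifs <;> simp
  by_contra hcon
  have hdz : ∀ (y : ℝ) (ρ : ℕ → ℝ), (∀ k, k < ℓ → HasDerivAt (F k) (ρ k) y) →
      ∑ k ∈ Finset.range ℓ,
        ((expo ℓ (fun j => if cls j then (1:ℤ) else 0) k : ℤ) : ℝ) * ρ k = 0 := by
    intro y ρ hρ
    by_contra hne
    exact hcon ⟨ℓ, _, F, ρ, y, hsys, hε, hρ, hne⟩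
  have hconst := const_of_deriv ℓ F
    (fun k => ((expo ℓ (fun j => if cls j then (1:ℤ) else 0) k : ℤ) : ℝ)) ℓ hF3 hdz
  obtain ⟨q, hq⟩ := rational_of_const θ ℓ hℓ r.num s.num r.den s.den r.den_pos s.den_pos
    (fun n => ψ n * A' n * (ψ n)⁻¹) (fun n => ψ n * B' n * (ψ n)⁻¹)
    (fun n => j16444_pow (hA n)) (fun n => j16444_pow (hB n)) cls σ hσ1 g hgcls f t F h1 h2 htl
    htu hF4 hconst
  exact hθ ⟨q, hq.symm⟩

end Pool.Agent.Helper29.Rot
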