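import Pool.Agent.Helper29.RotA5

set_option autoImplicit false

open CircleDeg1Lift Set

namespace Pool.Agent.Helper29.Rot

/-- TARGET -/
theorem ncs_of_sys (θ : ℝ) (ℓ : ℕ) (ε : ℕ → ℤ) (F : ℕ → ℝ → ℝ) (h : Sys θ ℓ ε F)
    (hε : ∀ k, ε k = 0 ∨ ε k = 1 ∨ ε k = -1) (y0 : ℝ) (ρ : ℕ → ℝ)
    (hder : ∀ k, k < ℓ → HasDerivAt (F k) (ρ k) y0) :
    NCS θ ℓ ε ρ (fun k => F k y0) := by
  intro U L B C₁ η hL hB hη hUout hU2 hUs2 hC1
  have hUe : ∀ e : ℤ, (e = 0 ∨ e = 1 ∨ e = -1) →
      (∀ X, L ≤ |X| → (U ^ e : ℝ ≃o ℝ) X = X) ∧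
      (∀ X Z, |(U ^ e : ℝ ≃o ℝ) X - (U ^ e : ℝ ≃o ℝ) Z| ≤ 2 * |X - Z|) := by
    rintro e (rfl | rfl | rfl)
    · rw [zpow_zero]
      refine ⟨fun X _ => rfl, fun X Z => ?_⟩
      show |X - Z| ≤ 2 * |X - Z|
      linarith [abs_nonneg (X - Z)]
    · rw [zpow_one]
      exact ⟨hUout, hU2⟩
    · rw [zpow_neg_one]
      refine ⟨fun X hX => ?_, hUs2⟩
      show U.symm X = X
      rw [OrderIso.symm_apply_eq]
      exact (hUout X hX).symm
  have hUL : ∀ e : ℤ, (e = 0 ∨ e = 1 ∨ e = -1) → ∀ X, |X| ≤ L →
      |(U ^ e : ℝ ≃o ℝ) X| ≤ L := by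
    intro e he X hX
    obtain ⟨h1, -⟩ := hUe e he
    obtain ⟨hX1, hX2⟩ := abs_le.mp hX
    have h2 := (U ^ e : ℝ ≃o ℝ).monotone hX1
    have h3 := (U ^ e : ℝ ≃o ℝ).monotone hX2
    rw [h1 (-L) (by rw [abs_neg, abs_of_pos hL])] at h2
    rw [h1 L (by rw [abs_of_pos hL])] at h3
    exact abs_le.mpr ⟨h2, h3⟩
  have hρ0 : ∀ k, k < ℓ → 0 ≤ ρ k := by
    intro k hk
    have h1 : 0 ≤ deriv (F k) y0 := (h.mono k hk).deriv_nonneg
    rwa [(hder k hk).deriv] at h1
  set e : ℝ := min (η / 4) 1 with he
  have he0 : 0 < e := lt_min (by positivity) one_pos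
  have he1 : e ≤ η / 4 := min_le_left _ _
  have he2 : e ≤ 1 := min_le_right _ _
  have hcont : ∀ k, k < ℓ → Continuous (F k) := by
    intro k hk
    have : LipschitzWith (ℓ : NNReal) (F k) := by
      apply LipschitzWith.of_dist_le_mul
      intro x y
      rw [Real.dist_eq, Real.dist_eq]
      exact_mod_cast h.lip k hk x y
    exact this.continuous
  have hint : ∀ k, k < ℓ → ∀ (m : ℤ) (x : ℝ), F k (x + m) = F k x + m := by
    intro k hk m
    induction m using Int.induction_on with
    | zero => intro x; simp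
    | succ n ih =>
      intro x
      push_cast
      rw [← add_assoc, h.deg k hk]
      have := ih x
      push_cast at this
      rw [this]; ring
    | pred n ih =>
      intro x
      have h1 := ih x
      have h2 := h.deg k hk (x + ((-(n : ℤ) - 1 : ℤ) : ℝ))
      have h3 : x + ((-(n : ℤ) - 1 : ℤ) : ℝ) + 1 = x + ((-(n : ℤ) : ℤ) : ℝ) := by
        push_cast; ring
      rw [h3, h1] at h2
      have h4 : ((-(n : ℤ) - 1 : ℤ) : ℝ) = ((-(n : ℤ) : ℤ) : ℝ) - 1 := by push_cast; ring
      linarith
  have hev : ∀ᶠ S : ℝ in Filter.atTop, ∀ k ∈ Finset.range ℓ, ∀ X : ℝ, |X| ≤ L →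
      |S * (F k (y0 + X / S) - F k y0) - ρ k * X| ≤ e := by
    rw [Filter.eventually_all_finset]
    intro k hk
    have hk' := Finset.mem_range.mp hk
    have h1 := (hder k hk').isLittleO.def (show 0 < e / L by positivity)
    rw [Metric.eventually_nhds_iff] at h1
    obtain ⟨δ, hδ, h1⟩ := h1
    filter_upwards [Filter.eventually_gt_atTop (L / δ), Filter.eventually_gt_atTop 0] with S hS hS0 X hX
    have hXS : |X / S| < δ := by
      rw [abs_div, abs_of_pos hS0, div_lt_iff₀ hS0]
      rw [div_lt_iff₀ hδ] at hS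
      linarith [mul_comm S δ]
    have h2 := h1 (y := y0 + X / S) (by rw [Real.dist_eq]; simpa using hXS)
    have e1 : y0 + X / S - y0 = X / S := by ring
    rw [e1, Real.norm_eq_abs, Real.norm_eq_abs, smul_eq_mul] at h2
    have e2 : S * (F k (y0 + X / S) - F k y0) - ρ k * X =
        S * (F k (y0 + X / S) - F k y0 - X / S * ρ k) := by
      field_simp
    rw [e2, abs_mul, abs_of_pos hS0]
    calc S * |F k (y0 + X / S) - F k y0 - X / S * ρ k| ≤ S * (e / L * |X / S|) :=
          mul_le_mul_of_nonneg_left h2 hS0.le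
      _ = e / L * |X| := by rw [abs_div, abs_of_pos hS0]; field_simp
      _ ≤ e / L * L := mul_le_mul_of_nonneg_left hX (by positivity)
      _ = e := by field_simp
  obtain ⟨S₀, hS₀⟩ := Filter.eventually_atTop.1
    (hev.and ((Filter.eventually_gt_atTop (2 * L)).and (Filter.eventually_gt_atTop (0 : ℝ))))
  refine ⟨max S₀ 1, lt_of_lt_of_le one_pos (le_max_right _ _), ?_⟩
  intro S hS N M hN hM ts b hbB H1 H2
  beta_reduce at H1 H2
  obtain ⟨hder', hS2, hS0⟩ := hS₀ S (le_trans (le_max_left _ _) hS)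
  obtain ⟨u, hu1, hu2⟩ := exists_periodic U L hL hUout y0 S hS2
  have key := h.nc u N M hN hM ts (fun k => b k / S) ?_
  · have h3 : b (N * ℓ) / S - b 0 / S ≤ M - N * θ := key
    rw [← sub_div, div_le_iff₀ hS0] at h3
    linarith [mul_comm ((M : ℝ) - N * θ) S]
  intro k hk x hx
  beta_reduce at hx ⊢
  have H1k := H1 k hk
  have H2k := H2 k hk
  clear H1 H2
  have hil : k % ℓ < ℓ := Nat.mod_lt _ h.pos
  generalize k % ℓ = i at *
  generalize ((ts : ℝ) + ((k / ℓ : ℕ) : ℝ)) * θ = τ at *
  obtain ⟨xs, hxs1, hxs2⟩ : ∃ xs, xs ≤ x ∧ F i xs = b k / S + τ := by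
    obtain ⟨n, hn⟩ := exists_nat_ge (F i x - (b k / S + τ))
    have h4 : F i (x - n) = F i x - n := by
      have := hint i hil (-(n : ℤ)) x
      push_cast at this
      rw [sub_eq_add_neg, this]; ring
    have h5 : b k / S + τ ∈ Set.Icc (F i (x - n)) (F i x) := ⟨by rw [h4]; linarith, hx⟩
    obtain ⟨xs, hxs, h6⟩ := intermediate_value_Icc
      (by linarith [Nat.cast_nonneg (α := ℝ) n]) (hcont i hil).continuousOn h5
    exact ⟨xs, hxs.2, h6⟩
  have hmono : F i ((u ^ (ε i) : G) xs) ≤ F i ((u ^ (ε i) : G) x) :=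
    h.mono i hil (((u ^ (ε i) : G) : CircleDeg1Lift).monotone hxs1)
  refine le_trans ?_ hmono
  obtain ⟨hUe1, hUe2⟩ := hUe (ε i) (hε i)
  have hρi := hρ0 i hil
  have hd := hder' i (Finset.mem_range.mpr hil)
  have hFm : ∀ l : ℤ, F i (xs - l) = F i xs - l := by
    intro l
    have := hint i hil (-l) xs
    push_cast at this
    rw [sub_eq_add_neg, this]; ring
  by_cases hA : ∃ l : ℤ, |xs - y0 - l| < L / S
  · obtain ⟨l, hl⟩ := hA
    obtain ⟨X, hX⟩ : ∃ X : ℝ, X = S * (xs - y0 - l) := ⟨_, rfl⟩
    have hXL : |X| ≤ L := by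
      rw [hX, abs_mul, abs_of_pos hS0]
      rw [lt_div_iff₀ hS0] at hl
      linarith
    have hxs3 : xs = y0 + l + X / S := by rw [hX]; field_simp; ring
    have hxs4 : xs - l = y0 + X / S := by rw [hX]; field_simp; ring
    obtain ⟨o, ho⟩ : ∃ o : ℝ, o = S * (τ - l - F i y0) := ⟨_, rfl⟩
    have hob : o + b k = S * (F i (y0 + X / S) - F i y0) := by
      rw [← hxs4, hFm, hxs2, ho]; field_simp; ring
    have h7 := abs_le.mp (hd X hXL)
    rw [← hob] at h7
    have hρX : |ρ i * X| ≤ ρ i * L := by
      rw [abs_mul, abs_of_nonneg hρi]; exact mul_le_mul_of_nonneg_left hXL hρi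
    have hρX' := abs_le.mp hρX
    have hbk := abs_le.mp (hbB k hk.le)
    have hoC : |o| ≤ C₁ := by
      refine le_trans ?_ (hC1 i hil)
      rw [abs_le]; constructor <;> linarith [h7.1, h7.2, hρX'.1, hρX'.2, hbk.1, hbk.2]
    have h8 := H2k l (by rw [← ho]; exact hoC)
    rw [← ho] at h8
    have hU := hu1 l X hXL (ε i)
    rw [← hxs3] at hU
    rw [hU]
    have h9 : F i (y0 + l + (U ^ ε i : ℝ ≃o ℝ) X / S) = F i (y0 + (U ^ ε i : ℝ ≃o ℝ) X / S) + l := by
      have := hint i hil l (y0 + (U ^ ε i : ℝ ≃o ℝ) X / S)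
      rw [← this]; congr 1; ring
    rw [h9]
    have h10 := abs_le.mp (hd _ (hUL (ε i) (hε i) X hXL))
    have hgoal : b (k + 1) + o ≤ S * (F i (y0 + (U ^ ε i : ℝ ≃o ℝ) X / S) - F i y0) := by
      by_cases hρz : ρ i = 0
      · unfold act at h8
        rw [if_pos hρz] at h8
        rw [hρz] at h7 h10
        linarith [h7.2, h10.1]
      · have hρp : 0 < ρ i := lt_of_le_of_ne hρi (Ne.symm hρz)
        unfold act at h8
        rw [if_neg hρz] at h8
        have h11 := hUe2 ((o + b k) / ρ i) X
        have h12 : |(o + b k) / ρ i - X| ≤ e / ρ i := by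
          have e3 : (o + b k) / ρ i - X = (o + b k - ρ i * X) / ρ i := by field_simp
          rw [e3, abs_div, abs_of_pos hρp]
          exact div_le_div_of_nonneg_right (abs_le.mpr h7) hρp.le
        have h13 := (abs_le.mp (h11.trans (mul_le_mul_of_nonneg_left h12 (by norm_num)))).2
        have h14 : ρ i * ((U ^ ε i : ℝ ≃o ℝ) ((o + b k) / ρ i)) ≤
            ρ i * ((U ^ ε i : ℝ ≃o ℝ) X) + 2 * e := by
          have h15 := mul_le_mul_of_nonneg_left h13 hρp.le
          have h16 : ρ i * (2 * (e / ρ i)) = 2 * e := by field_simp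
          rw [mul_sub, h16] at h15
          linarith
        linarith [h10.1]
    have h16 : b (k + 1) / S + τ = (b (k + 1) + o) / S + l + F i y0 := by
      rw [ho]; field_simp; ring
    have h17 : (b (k + 1) + o) / S ≤ F i (y0 + (U ^ ε i : ℝ ≃o ℝ) X / S) - F i y0 := by
      rw [div_le_iff₀ hS0]
      linarith [mul_comm S (F i (y0 + (U ^ ε i : ℝ ≃o ℝ) X / S) - F i y0)]
    rw [h16]
    linarith
  · push Not at hA
    rw [hu2 xs hA (ε i), hxs2]
    have hgoal : b (k + 1) ≤ b k := by
      by_cases hC : ∀ l : ℤ, C₁ < |S * (τ - l - F i y0)|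
      · exact H1k hC
      · push Not at hC
        obtain ⟨l, hl⟩ := hC
        have h8 := H2k l hl
        obtain ⟨o, ho⟩ : ∃ o : ℝ, o = S * (τ - l - F i y0) := ⟨_, rfl⟩
        rw [← ho] at h8
        by_cases hρz : ρ i = 0
        · unfold act at h8
          rw [if_pos hρz] at h8
          linarith
        · have hρp : 0 < ρ i := lt_of_le_of_ne hρi (Ne.symm hρz)
          unfold act at h8
          rw [if_neg hρz] at h8
          have hob : o + b k = S * (F i (xs - l) - F i y0) := by
            rw [hFm, hxs2, ho]; field_simp; ring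
          have hXs := hA l
          obtain ⟨Z, hZ⟩ : ∃ Z : ℝ, Z = (o + b k) / ρ i := ⟨_, rfl⟩
          have hZρ : ρ i * Z = o + b k := by rw [hZ]; field_simp
          rw [← hZ] at h8
          have heρ : 0 < e / ρ i := by positivity
          have hUZ : (U ^ ε i : ℝ ≃o ℝ) Z ≤ Z + 3 * (e / ρ i) := by
            rcases le_abs.mp hXs with hX | hX
            · have h17 : F i (y0 + L / S) ≤ F i (xs - l) := h.mono i hil (by linarith)
              have h18 := (abs_le.mp (hd L (by rw [abs_of_pos hL]))).1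
              have h19 : ρ i * L - e ≤ o + b k := by
                rw [hob]
                have := mul_le_mul_of_nonneg_left h17 hS0.le
                rw [mul_sub] at h18 ⊢
                linarith
              have h20 : L - e / ρ i ≤ Z := by
                rw [hZ, le_div_iff₀ hρp]
                have : (L - e / ρ i) * ρ i = ρ i * L - e := by field_simp
                linarith
              by_cases hZL : L ≤ Z
              · rw [hUe1 Z (le_abs.mpr (Or.inl hZL))]
                linarith
              · push Not at hZL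
                have h21 := hUe2 Z L
                rw [hUe1 L (by rw [abs_of_pos hL])] at h21
                rw [abs_of_neg (show Z - L < 0 by linarith)] at h21
                have h22 := (abs_le.mp h21).2
                linarith
            · have h17 : F i (xs - l) ≤ F i (y0 + (-L) / S) := by
                apply h.mono i hil
                rw [neg_div]; linarith
              have h18 := (abs_le.mp (hd (-L) (by rw [abs_neg, abs_of_pos hL]))).2
              have h19 : o + b k ≤ -(ρ i * L) + e := by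
                rw [hob]
                have := mul_le_mul_of_nonneg_left h17 hS0.le
                rw [mul_sub] at h18 ⊢
                linarith
              have h20 : Z ≤ -L + e / ρ i := by
                rw [hZ, div_le_iff₀ hρp]
                have : (-L + e / ρ i) * ρ i = -(ρ i * L) + e := by field_simp
                linarith
              by_cases hZL : Z ≤ -L
              · rw [hUe1 Z (le_abs.mpr (Or.inr (by linarith)))]
                linarith
              · push Not at hZL
                have h21 := hUe2 Z (-L)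
                rw [hUe1 (-L) (by rw [abs_neg, abs_of_pos hL])] at h21
                rw [abs_of_pos (show 0 < Z - -L by linarith)] at h21
                have h22 := (abs_le.mp h21).2
                linarith
          have h23 := mul_le_mul_of_nonneg_left hUZ hρp.le
          have h24 : ρ i * (Z + 3 * (e / ρ i)) = ρ i * Z + 3 * e := by field_simp
          rw [h24, hZρ] at h23
          linarith
    have := div_le_div_of_nonneg_right hgoal hS0.le
    linarith

end Pool.Agent.Helper29.Rot
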