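import Pool.Agent.Helper29.RotDefs

set_option autoImplicit false

open Set

namespace Pool.Agent.Helper29.Rot

theorem rp_zero (U : ℝ ≃o ℝ) (Z : ℝ) : (U ^ (0 : ℤ) : ℝ ≃o ℝ) Z = Z := by
  rw [zpow_zero]; rfl

theorem rp_one (U : ℝ ≃o ℝ) (Z : ℝ) : (U ^ (1 : ℤ) : ℝ ≃o ℝ) Z = U Z := by
  rw [zpow_one]

theorem rp_neg (U : ℝ ≃o ℝ) (Z : ℝ) : (U ^ (-1 : ℤ) : ℝ ≃o ℝ) Z = U.symm Z := by
  rw [zpow_neg_one]; rfl

theorem act_pos_eq (U : ℝ ≃o ℝ) (ρ : ℝ) (e : ℤ) (o g : ℝ) (hρ : 0 < ρ) :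
    act U ρ e o g - g = ρ * ((U ^ e : ℝ ≃o ℝ) ((o + g) / ρ) - (o + g) / ρ) := by
  unfold act
  rw [if_neg hρ.ne', mul_sub]
  have h : ρ * ((o + g) / ρ) = o + g := by field_simp
  rw [h]
  ring

/-- TARGET 1 -/
theorem lip_of_disp (U : ℝ ≃o ℝ) (σ : ℝ) (hσ0 : 0 ≤ σ) (hσ1 : σ ≤ 1 / 2)
    (hU : ∀ Z Z', |(U Z - Z) - (U Z' - Z')| ≤ σ * |Z - Z'|) :
    (∀ X Z, |U X - U Z| ≤ 2 * |X - Z|) ∧ (∀ X Z, |U.symm X - U.symm Z| ≤ 2 * |X - Z|) := by
  constructor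
  · intro X Z
    have h1 := hU X Z
    have h2 : |U X - U Z| ≤ |(U X - X) - (U Z - Z)| + |X - Z| := by
      have : U X - U Z = ((U X - X) - (U Z - Z)) + (X - Z) := by ring
      rw [this]
      exact abs_add_le _ _
    nlinarith [abs_nonneg (X - Z)]
  · intro X Z
    have h1 := hU (U.symm X) (U.symm Z)
    rw [U.apply_symm_apply, U.apply_symm_apply] at h1
    have h2 : |U.symm X - U.symm Z| ≤ |(X - U.symm X) - (Z - U.symm Z)| + |X - Z| := by
      have : U.symm X - U.symm Z = -((X - U.symm X) - (Z - U.symm Z)) + (X - Z) := by ring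
      rw [this]
      refine (abs_add_le _ _).trans ?_
      rw [abs_neg]
    nlinarith [abs_nonneg (U.symm X - U.symm Z)]

/-- TARGET 2 -/
theorem act_off (U : ℝ ≃o ℝ) (ρ : ℝ) (e : ℤ) (o g : ℝ) (hρ : 0 ≤ ρ)
    (he : e = 0 ∨ e = 1 ∨ e = -1) (h : 0 < ρ → U ((o + g) / ρ) = (o + g) / ρ) :
    act U ρ e o g = g := by
  rcases hρ.eq_or_lt with h0 | h0
  · unfold act
    rw [if_pos h0.symm]
  · have h1 := act_pos_eq U ρ e o g h0
    have h2 : (U ^ e : ℝ ≃o ℝ) ((o + g) / ρ) = (o + g) / ρ := by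
      rcases he with rfl | rfl | rfl
      · exact rp_zero U _
      · rw [rp_one]; exact h h0
      · rw [rp_neg]
        have h3 := h h0
        conv_lhs => rw [← h3]
        exact U.symm_apply_apply _
    rw [h2, sub_self, mul_zero] at h1
    linarith

/-- TARGET 3 -/
theorem act_bound (U : ℝ ≃o ℝ) (D : ℝ) (hD : ∀ Z, |U Z - Z| ≤ D)
    (ρ : ℝ) (e : ℤ) (o g : ℝ) (hρ : 0 ≤ ρ) (he : e = 0 ∨ e = 1 ∨ e = -1) :
    |act U ρ e o g - g| ≤ ρ * D := by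
  rcases hρ.eq_or_lt with h0 | h0
  · unfold act
    rw [if_pos h0.symm, sub_self, abs_zero, ← h0, zero_mul]
  · rw [act_pos_eq U ρ e o g h0, abs_mul, abs_of_pos h0]
    refine mul_le_mul_of_nonneg_left ?_ h0.le
    have hD0 : 0 ≤ D := (abs_nonneg _).trans (hD 0)
    rcases he with rfl | rfl | rfl
    · rw [rp_zero, sub_self, abs_zero]; exact hD0
    · rw [rp_one]; exact hD _
    · rw [rp_neg]
      have h3 := hD (U.symm ((o + g) / ρ))
      rw [U.apply_symm_apply] at h3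
      rwa [abs_sub_comm]

/-- TARGET 4 -/
theorem act_flat (U : ℝ ≃o ℝ) (ρ : ℝ) (e : ℤ) (o g X f d : ℝ) (hρ : 0 < ρ)
    (he : e = 0 ∨ e = 1 ∨ e = -1) (hU : ∀ Z, |Z - X| ≤ f → U Z = Z + d)
    (h : |(o + g) / ρ - X| + |d| ≤ f) :
    act U ρ e o g = g + ρ * e * d := by
  have h1 := act_pos_eq U ρ e o g hρ
  set Z := (o + g) / ρ with hZ
  rcases he with rfl | rfl | rfl
  · rw [rp_zero, sub_self, mul_zero] at h1
    push_cast
    linarith
  · rw [rp_one, hU Z (by linarith [abs_nonneg d])] at h1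
    push_cast
    linarith
  · have h2 : U (Z - d) = Z := by
      rw [hU (Z - d) ?_]
      · ring
      · have : Z - d - X = (Z - X) + (-d) := by ring
        rw [this]
        refine (abs_add_le _ _).trans ?_
        rw [abs_neg]
        exact h
    have h3 : U.symm Z = Z - d := by
      conv_lhs => rw [← h2]
      exact U.symm_apply_apply _
    rw [rp_neg, h3] at h1
    push_cast
    linarith

/-- TARGET 5: first order expansion -/
theorem act_first (U : ℝ ≃o ℝ) (σ D : ℝ) (hσ0 : 0 ≤ σ)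
    (hU : ∀ Z Z', |(U Z - Z) - (U Z' - Z')| ≤ σ * |Z - Z'|) (hD : ∀ Z, |U Z - Z| ≤ D)
    (ρ : ℝ) (e : ℤ) (o g : ℝ) (hρ : 0 < ρ) (he : e = 0 ∨ e = 1 ∨ e = -1) :
    |act U ρ e o g - g - ρ * e * (U ((o + g) / ρ) - (o + g) / ρ)| ≤ ρ * σ * D := by
  have hD0 : 0 ≤ D := (abs_nonneg _).trans (hD 0)
  have hnn : 0 ≤ ρ * σ * D := mul_nonneg (mul_nonneg hρ.le hσ0) hD0
  rw [act_pos_eq U ρ e o g hρ]
  set Z := (o + g) / ρ with hZ
  rcases he with rfl | rfl | rfl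
  · rw [rp_zero, sub_self]
    push_cast
    simp only [mul_zero, zero_mul, sub_zero, abs_zero]
    exact hnn
  · rw [rp_one]
    push_cast
    rw [mul_one, sub_self, abs_zero]
    exact hnn
  · rw [rp_neg]
    have h1 := hU Z (U.symm Z)
    have h2 := hD (U.symm Z)
    rw [U.apply_symm_apply] at h1 h2
    have h3 : ρ * (U.symm Z - Z) - ρ * ((-1 : ℤ) : ℝ) * (U Z - Z)
        = ρ * ((U Z - Z) - (Z - U.symm Z)) := by
      push_cast
      ring
    rw [h3, abs_mul, abs_of_pos hρ, mul_assoc]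
    refine mul_le_mul_of_nonneg_left ?_ hρ.le
    exact h1.trans (mul_le_mul_of_nonneg_left h2 hσ0)

end Pool.Agent.Helper29.Rot
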