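import Mathlib

set_option autoImplicit false

open Set

namespace Pool.Agent.Helper29.Rot

/-- one bump -/
noncomputable def hb (σ d w X Z : ℝ) : ℝ := max 0 (min |d| (σ * (w - |Z - X|)))

theorem hb_nonneg (σ d w X Z : ℝ) : 0 ≤ hb σ d w X Z := le_max_left _ _

theorem hb_le (σ d w X Z : ℝ) : hb σ d w X Z ≤ |d| :=
  max_le (abs_nonneg d) (min_le_left _ _)

theorem hb_zero {σ d w X Z : ℝ} (hσ : 0 < σ) (h : w ≤ |Z - X|) : hb σ d w X Z = 0 := by
  unfold hb
  apply max_eq_left
  refine (min_le_right _ _).trans ?_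
  exact mul_nonpos_of_nonneg_of_nonpos hσ.le (by linarith)

theorem hb_full {σ d w X Z f : ℝ} (hσ : 0 < σ) (hw : w = f + |d| / σ) (h : |Z - X| ≤ f) :
    hb σ d w X Z = |d| := by
  unfold hb
  have h1 : |d| ≤ σ * (w - |Z - X|) := by
    have : σ * (|d| / σ) = |d| := by field_simp
    nlinarith
  rw [min_eq_left h1]
  exact max_eq_right (abs_nonneg d)

theorem hb_le' {σ d w X Z : ℝ} (hσ : 0 < σ) (h : |Z - X| ≤ w) : hb σ d w X Z ≤ σ * (w - |Z - X|) := by
  unfold hb
  exact max_le (mul_nonneg hσ.le (by linarith)) (min_le_right _ _)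

theorem hb_lip (σ d w X Z Z' : ℝ) (hσ : 0 < σ) : |hb σ d w X Z - hb σ d w X Z'| ≤ σ * |Z - Z'| := by
  unfold hb
  have h1 : |max 0 (min |d| (σ * (w - |Z - X|))) - max 0 (min |d| (σ * (w - |Z' - X|)))| ≤
      |min |d| (σ * (w - |Z - X|)) - min |d| (σ * (w - |Z' - X|))| := by
    have := abs_max_sub_max_le_max (0 : ℝ) (min |d| (σ * (w - |Z - X|))) 0 (min |d| (σ * (w - |Z' - X|)))
    simpa using this
  have h2 : |min |d| (σ * (w - |Z - X|)) - min |d| (σ * (w - |Z' - X|))| ≤
      |σ * (w - |Z - X|) - σ * (w - |Z' - X|)| := by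
    have := abs_min_sub_min_le_max (|d|) (σ * (w - |Z - X|)) (|d|) (σ * (w - |Z' - X|))
    simpa using this
  refine h1.trans (h2.trans ?_)
  rw [← mul_sub, abs_mul, abs_of_pos hσ]
  apply mul_le_mul_of_nonneg_left _ hσ.le
  have : (w - |Z - X|) - (w - |Z' - X|) = |Z' - X| - |Z - X| := by ring
  rw [this]
  refine (abs_abs_sub_abs_le_abs_sub _ _).trans ?_
  rw [abs_sub_comm Z Z']
  apply le_of_eq
  congr 1
  ring

/-- TARGET: a homeomorphism of the line with disjoint trapezoidal displacement bumps -/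
theorem bump_iso (n : ℕ) (X d f w : ℕ → ℝ) (σ D : ℝ) (hσ : 0 < σ) (hσ1 : σ ≤ 1 / 2)
    (hf : ∀ j, j < n → 0 ≤ f j) (hw : ∀ j, j < n → w j = f j + |d j| / σ)
    (hD0 : 0 ≤ D) (hD : ∀ j, j < n → |d j| ≤ D)
    (hdisj : ∀ j k, j < n → k < n → j ≠ k → w j + w k ≤ |X j - X k|) :
    ∃ U : ℝ ≃o ℝ,
      (∀ Z, (∀ j, j < n → w j ≤ |Z - X j|) → U Z = Z) ∧
      (∀ j, j < n → ∀ Z, |Z - X j| ≤ f j → U Z = Z + d j) ∧
      (∀ Z Z', |(U Z - Z) - (U Z' - Z')| ≤ σ * |Z - Z'|) ∧
      (∀ Z, |U Z - Z| ≤ D) := by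
  classical
  set s : ℕ → ℝ := fun j => if 0 ≤ d j then 1 else -1 with hs
  have hs1 : ∀ j, |s j| = 1 := by
    intro j
    simp only [hs]
    split_ifs <;> simp
  have hsd : ∀ j, s j * |d j| = d j := by
    intro j
    simp only [hs]
    split_ifs with h
    · rw [abs_of_nonneg h, one_mul]
    · rw [abs_of_neg (not_le.mp h)]; ring
  set v : ℝ → ℝ := fun Z => ∑ j ∈ Finset.range n, s j * hb σ (d j) (w j) (X j) Z with hv
  have hv0 : ∀ Z, (∀ j, j < n → w j ≤ |Z - X j|) → v Z = 0 := by
    intro Z hZ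
    simp only [hv]
    apply Finset.sum_eq_zero
    intro j hj
    rw [hb_zero hσ (hZ j (Finset.mem_range.mp hj)), mul_zero]
  have huniq : ∀ Z j k, j < n → k < n → j ≠ k → |Z - X j| < w j → w k ≤ |Z - X k| := by
    intro Z j k hj hk hjk h
    have h1 := hdisj j k hj hk hjk
    have h2 : |X j - X k| ≤ |Z - X j| + |Z - X k| := by
      have : X j - X k = -(Z - X j) + (Z - X k) := by ring
      rw [this]
      refine (abs_add_le _ _).trans ?_
      rw [abs_neg]
    linarith
  have hv1 : ∀ Z j, j < n → |Z - X j| < w j → v Z = s j * hb σ (d j) (w j) (X j) Z := by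
    intro Z j hj h
    simp only [hv]
    apply Finset.sum_eq_single_of_mem j (Finset.mem_range.mpr hj)
    intro k hk hkj
    rw [hb_zero hσ (huniq Z j k hj (Finset.mem_range.mp hk) (Ne.symm hkj) h), mul_zero]
  have hcase : ∀ Z, (∀ j, j < n → w j ≤ |Z - X j|) ∨ ∃ j, j < n ∧ |Z - X j| < w j := by
    intro Z
    by_cases h : ∀ j, j < n → w j ≤ |Z - X j|
    · exact Or.inl h
    · right
      push Not at h
      exact h
  have hlip : ∀ Z Z', |v Z - v Z'| ≤ σ * |Z - Z'| := by
    intro Z Z'
    have hnn : 0 ≤ σ * |Z - Z'| := mul_nonneg hσ.le (abs_nonneg _)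
    have hone : ∀ j, |s j * hb σ (d j) (w j) (X j) Z - s j * hb σ (d j) (w j) (X j) Z'| ≤
        σ * |Z - Z'| := by
      intro j
      rw [← mul_sub, abs_mul, hs1, one_mul]
      exact hb_lip _ _ _ _ _ _ hσ
    rcases hcase Z with h | ⟨j, hj, h⟩
    · rcases hcase Z' with h' | ⟨k, hk, h'⟩
      · rw [hv0 Z h, hv0 Z' h']
        simpa using hnn
      · have := hone k
        rw [hv0 Z h, hv1 Z' k hk h']
        rw [hb_zero hσ (h k hk), mul_zero] at this
        exact this
    · rcases hcase Z' with h' | ⟨k, hk, h'⟩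
      · have := hone j
        rw [hv0 Z' h', hv1 Z j hj h]
        rw [hb_zero hσ (h' j hj), mul_zero] at this
        exact this
      · by_cases hjk : j = k
        · subst hjk
          rw [hv1 Z j hj h, hv1 Z' j hj h']
          exact hone j
        · rw [hv1 Z j hj h, hv1 Z' k hk h']
          have a1 : |s j * hb σ (d j) (w j) (X j) Z| ≤ σ * (w j - |Z - X j|) := by
            rw [abs_mul, hs1, one_mul, abs_of_nonneg (hb_nonneg _ _ _ _ _)]
            exact hb_le' hσ h.le
          have a2 : |s k * hb σ (d k) (w k) (X k) Z'| ≤ σ * (w k - |Z' - X k|) := by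
            rw [abs_mul, hs1, one_mul, abs_of_nonneg (hb_nonneg _ _ _ _ _)]
            exact hb_le' hσ h'.le
          refine (abs_sub _ _).trans ((add_le_add a1 a2).trans ?_)
          rw [← mul_add]
          apply mul_le_mul_of_nonneg_left _ hσ.le
          have h1 := hdisj j k hj hk hjk
          have h2 : |X j - X k| ≤ |Z - X j| + |Z - Z'| + |Z' - X k| := by
            have : X j - X k = -(Z - X j) + (Z - Z') + (Z' - X k) := by ring
            rw [this]
            refine (abs_add_three _ _ _).trans ?_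
            rw [abs_neg]
          linarith
  have hbd : ∀ Z, |v Z| ≤ D := by
    intro Z
    rcases hcase Z with h | ⟨j, hj, h⟩
    · rw [hv0 Z h]; simpa using hD0
    · rw [hv1 Z j hj h, abs_mul, hs1, one_mul, abs_of_nonneg (hb_nonneg _ _ _ _ _)]
      exact (hb_le _ _ _ _ _).trans (hD j hj)
  have hvc : Continuous v := by
    have : LipschitzWith ⟨σ, hσ.le⟩ v := LipschitzWith.of_dist_le_mul (fun a b => by
      rw [Real.dist_eq, Real.dist_eq]; exact hlip a b)
    exact this.continuous
  set F : ℝ → ℝ := fun Z => Z + v Z with hF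
  have hmono : StrictMono F := by
    intro a b hab
    have := hlip b a
    rw [abs_of_pos (sub_pos.mpr hab)] at this
    have h2 := (abs_le.mp this).1
    simp only [hF]
    nlinarith
  have hcont : Continuous F := continuous_id.add hvc
  have hsurj : Function.Surjective F := by
    apply hcont.surjective
    · apply Filter.tendsto_atTop_mono (f := fun Z => Z - D)
      · intro Z
        have := (abs_le.mp (hbd Z)).1
        simp only [hF]; linarith
      · exact Filter.tendsto_atTop_add_const_right _ _ Filter.tendsto_id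
    · apply Filter.tendsto_atBot_mono (f := fun Z => Z + D) (g := F)
      · intro Z
        have := (abs_le.mp (hbd Z)).2
        simp only [hF]; linarith
      · exact Filter.tendsto_atBot_add_const_right _ _ Filter.tendsto_id
  refine ⟨hmono.orderIsoOfSurjective F hsurj, ?_, ?_, ?_, ?_⟩
  · intro Z hZ
    show Z + v Z = Z
    rw [hv0 Z hZ, add_zero]
  · intro j hj Z hZ
    show Z + v Z = Z + d j
    congr 1
    by_cases hd : |Z - X j| < w j
    · rw [hv1 Z j hj hd, hb_full hσ (hw j hj) hZ, hsd]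
    · -- then d j = 0
      push Not at hd
      have h1 := hw j hj
      have h2 : 0 ≤ |d j| / σ := div_nonneg (abs_nonneg _) hσ.le
      have h3 : |d j| / σ = 0 := by linarith
      have h4 : d j = 0 := by
        rcases div_eq_zero_iff.mp h3 with h | h
        · exact abs_eq_zero.mp h
        · exact absurd h hσ.ne'
      have h5 : w j = f j := by linarith
      rw [h4]
      rcases hcase Z with h | ⟨k, hk, h⟩
      · exact hv0 Z h
      · rcases eq_or_ne k j with rfl | hkj
        · linarith
        · have := huniq Z k j hk hj hkj h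
          -- |Z - X j| = w j = f j and |Z - X k| < w k contradicts
          have h6 := hdisj k j hk hj hkj
          have h7 : |X k - X j| ≤ |Z - X k| + |Z - X j| := by
            have : X k - X j = -(Z - X k) + (Z - X j) := by ring
            rw [this]
            refine (abs_add_le _ _).trans ?_
            rw [abs_neg]
          linarith
  · intro Z Z'
    show |(Z + v Z - Z) - (Z' + v Z' - Z')| ≤ _
    have : (Z + v Z - Z) - (Z' + v Z' - Z') = v Z - v Z' := by ring
    rw [this]
    exact hlip Z Z'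
  · intro Z
    show |Z + v Z - Z| ≤ D
    rw [add_sub_cancel_left]
    exact hbd Z

end Pool.Agent.Helper29.Rot
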