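import Mathlib

set_option autoImplicit false

open CircleDeg1Lift Set

namespace Pool.Agent.Helper29.Rot

/-- the group of all homeomorphisms of the line commuting with the unit translation -/
abbrev G := CircleDeg1Liftˣ

/-- The set whose supremum is `R(w, r-, s-)`. -/
def rotSet (w : FreeGroup (Fin 2)) (r s : ℝ) : Set ℝ :=
  {t | ∃ ρ : FreeGroup (Fin 2) →* G,
      IsConj (ρ (FreeGroup.of 0)) (translate (Multiplicative.ofAdd r)) ∧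
      IsConj (ρ (FreeGroup.of 1)) (translate (Multiplicative.ofAdd s)) ∧
      t = translationNumber (ρ w : CircleDeg1Lift)}

/-- product `g (ℓ-1) * ... * g 1 * g 0` -/
def prodSeq (g : ℕ → G) : ℕ → G
  | 0 => 1
  | (n + 1) => g n * prodSeq g n

/-- exponent of the perturbation at class `k` (just before letter `k`) -/
def expo (ℓ : ℕ) (δ : ℕ → ℤ) (k : ℕ) : ℤ :=
  (if k = 0 then δ (ℓ - 1) else δ (k - 1)) - δ k

/-- the limit system: level functions `F k`, `k < ℓ`, exponents `ε k`. -/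
structure Sys (θ : ℝ) (ℓ : ℕ) (ε : ℕ → ℤ) (F : ℕ → ℝ → ℝ) : Prop where
  pos : 0 < ℓ
  mono : ∀ k, k < ℓ → Monotone (F k)
  deg : ∀ k, k < ℓ → ∀ x, F k (x + 1) = F k x + 1
  lip : ∀ k, k < ℓ → ∀ x y, |F k x - F k y| ≤ ℓ * |x - y|
  nc : ∀ (u : G) (N : ℕ) (M : ℤ), 0 < N → (N : ℝ) * θ < M → ∀ (ts : ℤ) (q : ℕ → ℝ),
    (∀ k, k < N * ℓ → ∀ x : ℝ, q k + ((ts : ℝ) + ((k / ℓ : ℕ) : ℝ)) * θ ≤ F (k % ℓ) x →
      q (k + 1) + ((ts : ℝ) + ((k / ℓ : ℕ) : ℝ)) * θ ≤ F (k % ℓ) ((u ^ (ε (k % ℓ)) : G) x)) →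
    q (N * ℓ) - q 0 ≤ M - N * θ

/-- model action of a visit with density `ρ`, exponent `e`, offset `o` on the level `g` -/
noncomputable def act (U : ℝ ≃o ℝ) (ρ : ℝ) (e : ℤ) (o g : ℝ) : ℝ :=
  if ρ = 0 then g else ρ * ((U ^ e : ℝ ≃o ℝ) ((o + g) / ρ)) - o

/-- Blown up version of the non-closing property at a point where level functions take the values
`Y k` and have the derivatives `ρ k`. -/
def NCS (θ : ℝ) (ℓ : ℕ) (ε : ℕ → ℤ) (ρ Y : ℕ → ℝ) : Prop :=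
  ∀ (U : ℝ ≃o ℝ) (L B C₁ η : ℝ), 0 < L → 0 < B → 0 < η →
    (∀ X, L ≤ |X| → U X = X) →
    (∀ X Z, |U X - U Z| ≤ 2 * |X - Z|) → (∀ X Z, |U.symm X - U.symm Z| ≤ 2 * |X - Z|) →
    (∀ k, k < ℓ → ρ k * L + B + 1 ≤ C₁) →
    ∃ S₀ : ℝ, 0 < S₀ ∧ ∀ S : ℝ, S₀ ≤ S → ∀ (N : ℕ) (M : ℤ), 0 < N → (N : ℝ) * θ < M →
      ∀ (ts : ℤ) (b : ℕ → ℝ), (∀ k, k ≤ N * ℓ → |b k| ≤ B) →
      (∀ k, k < N * ℓ →
        (∀ l : ℤ, C₁ < |S * (((ts : ℝ) + ((k / ℓ : ℕ) : ℝ)) * θ - l - Y (k % ℓ))|) →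
        b (k + 1) ≤ b k) →
      (∀ k, k < N * ℓ → ∀ l : ℤ,
        |S * (((ts : ℝ) + ((k / ℓ : ℕ) : ℝ)) * θ - l - Y (k % ℓ))| ≤ C₁ →
        b (k + 1) ≤ act U (ρ (k % ℓ)) (ε (k % ℓ))
          (S * (((ts : ℝ) + ((k / ℓ : ℕ) : ℝ)) * θ - l - Y (k % ℓ))) (b k) - η) →
      b (N * ℓ) - b 0 ≤ S * (M - N * θ)

end Pool.Agent.Helper29.Rot
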