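import Pool.Agent.Helper29.RotScale

set_option autoImplicit false

open Set Filter Topology

namespace Pool.Agent.Helper29.Rot

theorem ulim_H (U : Ultrafilter ℕ) (f : ℕ → ℝ) (a b : ℝ) (hf : ∀ n, f n ∈ Icc a b) :
    ∃ x ∈ Icc a b, Tendsto f (U : Filter ℕ) (𝓝 x) := by
  obtain ⟨x, hx, h⟩ := (isCompact_Icc (a := a) (b := b)).ultrafilter_le_nhds' (U.map f)
    (by rw [Ultrafilter.mem_map]; exact Filter.univ_mem' hf)
  exact ⟨x, hx, h⟩

theorem class_sum_H (ℓ : ℕ) (ε : ℕ → ℤ) (ρ : ℕ → ℝ) (R : ℕ → ℕ → Prop) (hr : ∀ i, R i i)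
    (hs : ∀ i j, R i j → R j i) (ht : ∀ i j k, R i j → R j k → R i k) (hρR : ∀ i j, R i j → ρ i = ρ j)
    (hρ : ∀ k, k < ℓ → 0 ≤ ρ k)
    (hne : ∑ k ∈ Finset.range ℓ, (ε k : ℝ) * ρ k ≠ 0) [∀ c, DecidablePred (R c)] :
    ∃ c0, c0 < ℓ ∧ 0 < ρ c0 ∧ ∑ i ∈ (Finset.range ℓ).filter (fun i => R c0 i), ε i ≠ 0 := by
  classical
  by_contra hcon
  push Not at hcon
  apply hne
  let s : Setoid ℕ := ⟨R, ⟨hr, fun {i j} h => hs i j h, fun {i j k} h h' => ht i j k h h'⟩⟩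
  rw [← Finset.sum_fiberwise_of_maps_to (s := Finset.range ℓ) (t := (Finset.range ℓ).image (Quotient.mk s))
    (g := Quotient.mk s) (fun x hx => Finset.mem_image_of_mem _ hx)]
  apply Finset.sum_eq_zero
  intro q hq
  obtain ⟨c, hc, rfl⟩ := Finset.mem_image.mp hq
  have hcl := Finset.mem_range.mp hc
  have e1 : (Finset.range ℓ).filter (fun k => Quotient.mk s k = Quotient.mk s c)
      = (Finset.range ℓ).filter (fun k => R c k) := by
    apply Finset.filter_congr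
    intro k _
    rw [Quotient.eq]
    exact ⟨fun h => hs _ _ h, fun h => hs _ _ h⟩
  rw [e1]
  have e2 : ∀ k ∈ (Finset.range ℓ).filter (fun k => R c k), (ε k : ℝ) * ρ k = (ε k : ℝ) * ρ c := by
    intro k hk
    rw [hρR c k (Finset.mem_filter.mp hk).2]
  rw [Finset.sum_congr rfl e2, ← Finset.sum_mul]
  rcases (hρ c hcl).eq_or_lt with h0 | h0
  · rw [← h0, mul_zero]
  · have := hcon c hcl h0
    have h3 : ∑ k ∈ (Finset.range ℓ).filter (fun k => R c k), (ε k : ℝ) = 0 := by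
      exact_mod_cast this
    rw [h3, zero_mul]

theorem low_bd_H {α : Type} (s : Finset α) (d : α → ℝ) (hd : ∀ p ∈ s, 0 < d p) :
    ∃ d0 : ℝ, 0 < d0 ∧ ∀ p ∈ s, d0 ≤ d p := by
  classical
  induction s using Finset.induction_on with
  | empty => exact ⟨1, one_pos, by simp⟩
  | insert a s ha ih =>
    obtain ⟨d0, h0, h1⟩ := ih (fun p hp => hd p (Finset.mem_insert_of_mem hp))
    refine ⟨min d0 (d a), lt_min h0 (hd a (Finset.mem_insert_self a s)), ?_⟩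
    intro p hp
    rcases Finset.mem_insert.mp hp with rfl | hp
    · exact min_le_right _ _
    · exact (min_le_left _ _).trans (h1 p hp)

/-- TARGET -/
theorem select_H (θ : ℝ) (hθ : Irrational θ)
    (hunb : ∀ e : ℝ, 0 < e → ∃ Q P : ℤ, 0 < Q ∧ Q * |Q * θ - P| < e)
    (ℓ : ℕ) (hℓ : 0 < ℓ) (ε : ℕ → ℤ) (ρ Y : ℕ → ℝ) (hρ : ∀ k, k < ℓ → 0 ≤ ρ k)
    (hne : ∑ k ∈ Finset.range ℓ, (ε k : ℝ) * ρ k ≠ 0) :
    ∃ (A0 abar : ℝ) (K : Finset ℕ) (c0 : ℕ) (h : ℤ), 4 ≤ A0 ∧ |abar| ≤ A0 ∧ (h = 1 ∨ h = -1) ∧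
      (∀ i ∈ K, i < ℓ) ∧ c0 ∈ K ∧ 0 < ρ c0 ∧ (∀ i ∈ K, ρ i = ρ c0) ∧ ∑ i ∈ K, ε i ≠ 0 ∧
      ∀ I : ℕ, ∃ (Lg d0 : ℝ), 0 ≤ Lg ∧ 0 < d0 ∧ ∀ (BIG e : ℝ), 0 < e →
        ∃ (S : ℝ) (Q1 P1 Q2 P2 : ℤ) (t l : ℕ → ℤ), BIG ≤ S ∧ 0 < Q1 ∧ BIG * Q1 ≤ S ∧
          (Q1 * P2 - Q2 * P1 = 1 ∨ Q1 * P2 - Q2 * P1 = -1) ∧
          S * (Q1 * θ - P1) = h ∧ -2 ≤ S * (Q2 * θ - P2) ∧ S * (Q2 * θ - P2) < -1 ∧
          S / 2 ≤ Q2 ∧ (Q2 : ℝ) ≤ 2 * S ∧
          (∀ i, i < ℓ → |S * (t i * θ - l i - Y i)| ≤ A0) ∧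
          (∀ i, i < ℓ → |(t i : ℝ)| ≤ A0 * S) ∧
          (∀ i ∈ K, |S * (t i * θ - l i - Y i) - abar| ≤ e) ∧
          (∀ i ∈ K, |(t i : ℝ) - t c0| ≤ Lg * Q1) ∧
          (∀ i, i < ℓ → ∀ i2 : ℤ, |(i2 : ℝ)| ≤ I →
            BIG * Q1 < |(t i : ℝ) + i2 * Q2 - t c0| ∨
            (|(t i : ℝ) + i2 * Q2 - t c0| ≤ Lg * Q1 ∧
              (ρ i = ρ c0 → ¬ (i ∈ K ∧ i2 = 0) → ∀ r : ℤ,
                d0 ≤ |r + S * (t i * θ - l i - Y i) + S * (Q2 * θ - P2) * i2 - abar|))) := by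
  classical
  have hs : ∀ n : ℕ, ∃ (S : ℝ) (Q1 P1 Q2 P2 h : ℤ), ((n : ℝ) + 8) ≤ S ∧ 0 < Q1 ∧ ((n : ℝ) + 8) * Q1 ≤ S ∧
      (h = 1 ∨ h = -1) ∧
      S * (Q1 * θ - P1) = h ∧ -2 ≤ S * (Q2 * θ - P2) ∧ S * (Q2 * θ - P2) < -1 ∧
      S / 2 ≤ Q2 ∧ (Q2 : ℝ) ≤ 2 * S ∧ (Q1 * P2 - Q2 * P1 = 1 ∨ Q1 * P2 - Q2 * P1 = -1) :=
    fun n => scale_H θ hθ hunb (n + 8)
  choose S Q1 P1 Q2 P2 hh hS8 hQ1 hQ1S hh1 hE1 hx1 hx2 hq1 hq2 hdet using hs
  have hQ1r : ∀ n, (1 : ℝ) ≤ Q1 n := fun n => by exact_mod_cast hQ1 n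
  have hb : ∀ n i : ℕ, ∃ t l : ℤ, |S n * (t * θ - l - Y i)| ≤ 4 ∧ |(t : ℝ)| ≤ 4 * S n := by
    intro n i
    have h1 := hS8 n
    have h2 := hQ1S n
    have h3 := hQ1r n
    have hn : (0 : ℝ) ≤ n := Nat.cast_nonneg n
    exact base_point θ (S n) (Q1 n) (P1 n) (Q2 n) (P2 n) (hh n) (by linarith) (hQ1 n) (by nlinarith)
      (hh1 n) (hE1 n) (hx1 n) (hx2 n) (hq1 n) (hq2 n) (Y i)
  choose t l ha4 ht4 using hb
  set U : Ultrafilter ℕ := Filter.hyperfilter ℕ with hUdef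
  have hU : ∀ N : ℕ, ∀ᶠ n in (U : Filter ℕ), N ≤ n := fun N =>
    Nat.hyperfilter_le_atTop (Filter.eventually_ge_atTop N)
  have hUr : ∀ B : ℝ, ∀ᶠ n : ℕ in (U : Filter ℕ), B ≤ (n : ℝ) := by
    intro B
    obtain ⟨N, hN⟩ := exists_nat_ge B
    filter_upwards [hU N] with n hn
    exact hN.trans (by exact_mod_cast hn)
  -- the constant sign
  obtain ⟨h, hh2, hhU⟩ : ∃ h : ℤ, (h = 1 ∨ h = -1) ∧ ∀ᶠ n in (U : Filter ℕ), hh n = h := by
    have : ∀ᶠ n in (U : Filter ℕ), hh n = 1 ∨ hh n = -1 := Filter.Eventually.of_forall hh1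
    rcases Ultrafilter.eventually_or.mp this with h1 | h1
    · exact ⟨1, Or.inl rfl, h1⟩
    · exact ⟨-1, Or.inr rfl, h1⟩
  have hhsq : h * h = 1 := by rcases hh2 with rfl | rfl <;> norm_num
  -- limits
  have hlim : ∀ i, ∃ x ∈ Icc (-4 : ℝ) 4, Tendsto (fun n => S n * (t n i * θ - l n i - Y i)) (U : Filter ℕ) (𝓝 x) :=
    fun i => ulim_H U _ _ _ (fun n => by have := abs_le.mp (ha4 n i); exact ⟨this.1, this.2⟩)
  choose α hα hαt using hlim
  obtain ⟨ξ, hξ, hξt⟩ := ulim_H U (fun n => S n * (Q2 n * θ - P2 n)) (-2) (-1)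
    (fun n => ⟨hx1 n, (hx2 n).le⟩)
  -- boundedness
  let Bd : (ℕ → ℝ) → Prop := fun v => ∃ C : ℝ, ∀ᶠ n in (U : Filter ℕ), |v n| ≤ C * Q1 n
  have Bd_not : ∀ v, ¬ Bd v → ∀ C : ℝ, ∀ᶠ n in (U : Filter ℕ), C * Q1 n < |v n| := by
    intro v hv C
    have h1 : ¬ ∀ᶠ n in (U : Filter ℕ), |v n| ≤ C * Q1 n := fun h => hv ⟨C, h⟩
    have h2 := Ultrafilter.eventually_not.mpr h1
    filter_upwards [h2] with n hn
    exact not_le.mp hn
  have Bd_zero : Bd (fun _ => 0) := ⟨0, Filter.Eventually.of_forall (fun n => by simp)⟩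
  have Bd_neg : ∀ v, Bd v → Bd (fun n => - v n) := by
    rintro v ⟨C, hC⟩
    exact ⟨C, by filter_upwards [hC] with n hn; rwa [abs_neg]⟩
  have Bd_add : ∀ v w, Bd v → Bd w → Bd (fun n => v n + w n) := by
    rintro v w ⟨C, hC⟩ ⟨D, hD⟩
    refine ⟨C + D, ?_⟩
    filter_upwards [hC, hD] with n h1 h2
    calc |v n + w n| ≤ |v n| + |w n| := abs_add_le _ _
      _ ≤ C * Q1 n + D * Q1 n := add_le_add h1 h2
      _ = (C + D) * Q1 n := by ring
  have Bd_Q1 : ∀ m : ℤ, Bd (fun n => (m : ℝ) * Q1 n) := by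
    intro m
    refine ⟨|(m : ℝ)|, Filter.Eventually.of_forall (fun n => ?_)⟩
    have h3 := hQ1r n
    rw [abs_mul, abs_of_nonneg (by linarith : (0 : ℝ) ≤ Q1 n)]
  have Bd_congr : ∀ v w : ℕ → ℝ, (∀ n, v n = w n) → Bd v → Bd w := by
    intro v w h1 h2
    have : v = w := funext h1
    rwa [← this]
  have Bd_Q2 : ∀ m : ℤ, m ≠ 0 → ¬ Bd (fun n => (m : ℝ) * Q2 n) := by
    rintro m hm ⟨C, hC⟩
    have hev := (hC.and (hUr (2 * C))).exists
    obtain ⟨n, hn1, hn2⟩ := hev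
    have h1 := hS8 n
    have h2 := hQ1S n
    have h3 := hQ1r n
    have h4 := hq1 n
    have hn : (0 : ℝ) ≤ n := Nat.cast_nonneg n
    have h5 : (1 : ℝ) ≤ |(m : ℝ)| := by
      have : (1 : ℤ) ≤ |m| := Int.one_le_abs hm
      exact_mod_cast this
    have h6 : 0 ≤ (Q2 n : ℝ) := by linarith
    rw [abs_mul, abs_of_nonneg h6] at hn1
    have h7 : (Q2 n : ℝ) ≤ |(m : ℝ)| * Q2 n := by nlinarith
    have h8 : ((n : ℝ) + 8) * Q1 n / 2 ≤ Q2 n := by linarith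
    have h9 : C * Q1 n ≤ (n : ℝ) / 2 * Q1 n := mul_le_mul_of_nonneg_right (by linarith) (by linarith)
    nlinarith
  -- the relation
  let R : ℕ → ℕ → Prop := fun i j => ρ i = ρ j ∧ ∃ m1 m2 : ℤ, α j - α i - h * m1 - ξ * m2 = 0 ∧
    Bd (fun n => (t n j : ℝ) - t n i - m1 * Q1 n - m2 * Q2 n)
  have Rr : ∀ i, R i i := by
    intro i
    refine ⟨rfl, 0, 0, by simp, Bd_congr _ _ (fun n => by simp) Bd_zero⟩
  have Rs : ∀ i j, R i j → R j i := by
    rintro i j ⟨h1, m1, m2, h2, h3⟩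
    refine ⟨h1.symm, -m1, -m2, by push_cast; linarith, Bd_congr _ _ (fun n => ?_) (Bd_neg _ h3)⟩
    push_cast; ring
  have Rt : ∀ i j k, R i j → R j k → R i k := by
    rintro i j k ⟨h1, m1, m2, h2, h3⟩ ⟨h1', m1', m2', h2', h3'⟩
    refine ⟨h1.trans h1', m1 + m1', m2 + m2', by push_cast; linarith, Bd_congr _ _ (fun n => ?_) (Bd_add _ _ h3 h3')⟩
    push_cast; ring
  obtain ⟨c0, hc0, hρc0, hsum⟩ := class_sum_H ℓ ε ρ R Rr Rs Rt (fun i j h => h.1) hρ hne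
  -- shifts
  have hm : ∀ i, ∃ m1 m2 : ℤ, (i = c0 → m1 = 0 ∧ m2 = 0) ∧ (¬ R c0 i → m1 = 0 ∧ m2 = 0) ∧
      (R c0 i → α i - α c0 - h * m1 - ξ * m2 = 0 ∧
        Bd (fun n => (t n i : ℝ) - t n c0 - m1 * Q1 n - m2 * Q2 n)) := by
    intro i
    by_cases hi : i = c0
    · subst hi
      refine ⟨0, 0, fun _ => ⟨rfl, rfl⟩, fun _ => ⟨rfl, rfl⟩, fun _ => ⟨by simp, ?_⟩⟩
      exact Bd_congr _ _ (fun n => by simp) Bd_zero
    · by_cases hR : R c0 i
      · obtain ⟨_, m1, m2, h1, h2⟩ := id hR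
        exact ⟨m1, m2, fun h => absurd h hi, fun h => absurd hR h, fun _ => ⟨h1, h2⟩⟩
      · exact ⟨0, 0, fun _ => ⟨rfl, rfl⟩, fun _ => ⟨rfl, rfl⟩, fun h => absurd h hR⟩
  choose m1 m2 hmc hmn hmR using hm
  set K : Finset ℕ := (Finset.range ℓ).filter (fun i => R c0 i) with hK
  have hKl : ∀ i ∈ K, i < ℓ := fun i hi => Finset.mem_range.mp (Finset.mem_filter.mp hi).1
  have hKR : ∀ i ∈ K, R c0 i := fun i hi => (Finset.mem_filter.mp hi).2
  have hc0K : c0 ∈ K := Finset.mem_filter.mpr ⟨Finset.mem_range.mpr hc0, Rr c0⟩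
  let t' : ℕ → ℕ → ℤ := fun n i => t n i - m1 i * Q1 n - m2 i * Q2 n
  let l' : ℕ → ℕ → ℤ := fun n i => l n i - m1 i * P1 n - m2 i * P2 n
  have ht'c : ∀ n, t' n c0 = t n c0 := by
    intro n
    simp only [t', (hmc c0 rfl).1, (hmc c0 rfl).2]; ring
  have hS0 : ∀ n, 0 < S n := by
    intro n
    have h1 := hS8 n
    have hn : (0 : ℝ) ≤ n := Nat.cast_nonneg n
    linarith
  have ha' : ∀ n i, S n * (t' n i * θ - l' n i - Y i)
      = S n * (t n i * θ - l n i - Y i) - m1 i * hh n - m2 i * (S n * (Q2 n * θ - P2 n)) := by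
    intro n i
    rw [← hE1 n]
    simp only [t', l']
    push_cast; ring
  let α' : ℕ → ℝ := fun i => α i - h * m1 i - ξ * m2 i
  have hα't : ∀ i, Tendsto (fun n => S n * (t' n i * θ - l' n i - Y i)) (U : Filter ℕ) (𝓝 (α' i)) := by
    intro i
    have h1 : Tendsto (fun n => ((hh n : ℤ) : ℝ)) (U : Filter ℕ) (𝓝 (h : ℝ)) := by
      apply Tendsto.congr' _ tendsto_const_nhds
      filter_upwards [hhU] with n hn
      rw [hn]
    have h2 := ((hαt i).sub (h1.const_mul (m1 i : ℝ))).sub (hξt.const_mul (m2 i : ℝ))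
    have e : α' i = α i - m1 i * h - m2 i * ξ := by simp only [α']; ring
    rw [e]
    exact Tendsto.congr (fun n => (ha' n i).symm) h2
  have hα'K : ∀ i ∈ K, α' i = α c0 := by
    intro i hi
    have := (hmR i (hKR i hi)).1
    simp only [α']; linarith
  let A0 : ℝ := 4 + ∑ i ∈ Finset.range ℓ, (|(m1 i : ℝ)| + 2 * |(m2 i : ℝ)|)
  have hA0 : ∀ i, i < ℓ → 4 + |(m1 i : ℝ)| + 2 * |(m2 i : ℝ)| ≤ A0 := by
    intro i hi
    have := Finset.single_le_sum (f := fun i => |(m1 i : ℝ)| + 2 * |(m2 i : ℝ)|)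
      (fun i _ => by positivity) (Finset.mem_range.mpr hi)
    simp only [A0]
    linarith
  have hA04 : 4 ≤ A0 := by
    have : 0 ≤ ∑ i ∈ Finset.range ℓ, (|(m1 i : ℝ)| + 2 * |(m2 i : ℝ)|) :=
      Finset.sum_nonneg (fun i _ => by positivity)
    simp only [A0]; linarith
  have hhabs : ∀ n, |((hh n : ℤ) : ℝ)| = 1 := by
    intro n
    rcases hh1 n with h1 | h1 <;> rw [h1] <;> simp
  refine ⟨A0, α c0, K, c0, h, hA04, (abs_le.mpr ⟨(hα c0).1, (hα c0).2⟩).trans hA04, hh2, hKl, hc0K, hρc0,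
    fun i hi => (hKR i hi).1.symm, hsum, ?_⟩
  intro I
  -- finite set of pairs
  let P : Finset (ℕ × ℤ) := Finset.range ℓ ×ˢ Finset.Icc (-(I : ℤ)) I
  let v : ℕ × ℤ → ℕ → ℝ := fun p n => (t' n p.1 : ℝ) + p.2 * Q2 n - t n c0
  have hC : ∀ p : ℕ × ℤ, ∃ C : ℝ, 0 ≤ C ∧ (Bd (v p) → ∀ᶠ n in (U : Filter ℕ), |v p n| ≤ C * Q1 n) := by
    intro p
    by_cases hp : Bd (v p)
    · obtain ⟨C, hC⟩ := id hp
      refine ⟨|C|, abs_nonneg C, fun _ => ?_⟩
      filter_upwards [hC] with n hn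
      have h3 := hQ1r n
      exact hn.trans (mul_le_mul_of_nonneg_right (le_abs_self C) (by linarith))
    · exact ⟨0, le_rfl, fun h => absurd h hp⟩
  choose C hC0 hCb using hC
  let Lg : ℝ := ∑ p ∈ P, C p
  have hLg : ∀ p ∈ P, C p ≤ Lg := fun p hp => Finset.single_le_sum (fun q _ => hC0 q) hp
  have hA : ∀ p : ℕ × ℤ, ∃ d : ℝ, 0 < d ∧ (p.1 < ℓ → Bd (v p) → ρ p.1 = ρ c0 → ¬ (p.1 ∈ K ∧ p.2 = 0) →
      ∀ r : ℤ, 2 * d ≤ |r + (α' p.1 + ξ * p.2 - α c0)|) := by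
    rintro ⟨i, i2⟩
    by_cases hcase : (i < ℓ ∧ Bd (v (i, i2)) ∧ ρ i = ρ c0 ∧ ¬ (i ∈ K ∧ i2 = 0))
    · obtain ⟨hil, hB, hρi, hnK⟩ := hcase
      set A : ℝ := α' i + ξ * i2 - α c0 with hAdef
      have hAne : A ≠ round A := by
        intro hAr
        by_cases hiK : i ∈ K
        · have hi2 : i2 ≠ 0 := fun h => hnK ⟨hiK, h⟩
          apply Bd_Q2 i2 hi2
          have hb2 := (hmR i (hKR i hiK)).2
          refine Bd_congr _ _ (fun n => ?_) (Bd_add _ _ hB (Bd_neg _ hb2))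
          simp only [v, t']; push_cast; ring
        · apply hiK
          refine Finset.mem_filter.mpr ⟨Finset.mem_range.mpr hil, hρi.symm, h * round A, -i2, ?_, ?_⟩
          · have hnR : ¬ R c0 i := fun hR => hiK (Finset.mem_filter.mpr ⟨Finset.mem_range.mpr hil, hR⟩)
            have e1 : α' i = α i := by
              simp only [α', (hmn i hnR).1, (hmn i hnR).2]; simp
            have e2 : ((h * round A : ℤ) : ℝ) * h = round A := by
              have : (h * round A) * h = round A := by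
                calc (h * round A) * h = (h * h) * round A := by ring
                  _ = round A := by rw [hhsq, one_mul]
              exact_mod_cast this
            rw [mul_comm (h : ℝ), e2, ← hAr, hAdef, e1]
            push_cast; ring
          · have hnR : ¬ R c0 i := fun hR => hiK (Finset.mem_filter.mpr ⟨Finset.mem_range.mpr hil, hR⟩)
            have hb3 := Bd_add _ _ hB (Bd_Q1 (-(h * round A)))
            refine Bd_congr _ _ (fun n => ?_) hb3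
            simp only [v, t', (hmn i hnR).1, (hmn i hnR).2]; push_cast; ring
      refine ⟨|A - round A| / 2, by
        have : 0 < |A - round A| := abs_pos.mpr (sub_ne_zero.mpr hAne)
        linarith, fun _ _ _ _ r => ?_⟩
      have h1 := round_le A (-r)
      have e : (r : ℝ) + A = A - ((-r : ℤ) : ℝ) := by push_cast; ring
      rw [e]
      linarith
    · refine ⟨1, one_pos, fun h1 h2 h3 h4 => absurd ⟨h1, h2, h3, h4⟩ hcase⟩
  choose d hd0 hdr using hA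
  obtain ⟨d0, hd00, hd01⟩ := low_bd_H P d (fun p _ => hd0 p)
  refine ⟨Lg, d0, Finset.sum_nonneg (fun p _ => hC0 p), hd00, ?_⟩
  intro BIG e he
  -- the eventual properties
  have ev1 : ∀ᶠ n in (U : Filter ℕ), ∀ i ∈ K, |S n * (t' n i * θ - l' n i - Y i) - α c0| ≤ e := by
    rw [Filter.eventually_all_finset]
    intro i hi
    have h1 := hα't i
    rw [hα'K i hi] at h1
    have h2 := (Metric.tendsto_nhds.mp h1) e he
    filter_upwards [h2] with n hn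
    rw [Real.dist_eq] at hn
    exact hn.le
  have ev2 : ∀ᶠ n in (U : Filter ℕ), ∀ p ∈ P, (BIG * Q1 n < |v p n| ∨ (|v p n| ≤ Lg * Q1 n ∧
      (ρ p.1 = ρ c0 → ¬ (p.1 ∈ K ∧ p.2 = 0) → ∀ r : ℤ,
        d0 ≤ |r + S n * (t' n p.1 * θ - l' n p.1 - Y p.1) + S n * (Q2 n * θ - P2 n) * p.2 - α c0|))) := by
    rw [Filter.eventually_all_finset]
    intro p hp
    by_cases hB : Bd (v p)
    · have hpl : p.1 < ℓ := Finset.mem_range.mp (Finset.mem_product.mp hp).1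
      have hlim2 : Tendsto (fun n => S n * (t' n p.1 * θ - l' n p.1 - Y p.1) + S n * (Q2 n * θ - P2 n) * p.2)
          (U : Filter ℕ) (𝓝 (α' p.1 + ξ * p.2)) := (hα't p.1).add (hξt.mul_const _)
      have h2 := (Metric.tendsto_nhds.mp hlim2) (d p) (hd0 p)
      filter_upwards [hCb p hB, h2] with n hn1 hn2
      refine Or.inr ⟨hn1.trans (mul_le_mul_of_nonneg_right (hLg p hp) (by have := hQ1r n; linarith)), ?_⟩
      intro hρp hnp r
      have h3 := hdr p hpl hB hρp hnp r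
      rw [Real.dist_eq] at hn2
      have h4 : d p ≤ |r + S n * (t' n p.1 * θ - l' n p.1 - Y p.1) + S n * (Q2 n * θ - P2 n) * p.2 - α c0| := by
        have h5 := abs_sub_abs_le_abs_sub (r + (α' p.1 + ξ * p.2 - α c0))
          (r + S n * (t' n p.1 * θ - l' n p.1 - Y p.1) + S n * (Q2 n * θ - P2 n) * p.2 - α c0)
        have h6 : |(r + (α' p.1 + ξ * p.2 - α c0)) - (r + S n * (t' n p.1 * θ - l' n p.1 - Y p.1)
            + S n * (Q2 n * θ - P2 n) * p.2 - α c0)| < d p := by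
          rw [abs_sub_comm]
          convert hn2 using 2
          ring
        linarith
      exact (hd01 p hp).trans h4
    · filter_upwards [Bd_not _ hB BIG] with n hn
      exact Or.inl hn
  have ev3 : ∀ᶠ n in (U : Filter ℕ), ∀ i ∈ K, |(t' n i : ℝ) - t n c0| ≤ Lg * Q1 n := by
    rw [Filter.eventually_all_finset]
    intro i hi
    have hp : (i, (0 : ℤ)) ∈ P := by
      simp only [P, Finset.mem_product, Finset.mem_range, Finset.mem_Icc]
      exact ⟨hKl i hi, by omega, by omega⟩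
    have hB : Bd (v (i, 0)) := by
      refine Bd_congr _ _ (fun n => ?_) (hmR i (hKR i hi)).2
      simp only [v, t']; push_cast; ring
    filter_upwards [hCb _ hB] with n hn
    have h1 := hn.trans (mul_le_mul_of_nonneg_right (hLg _ hp) (by have := hQ1r n; linarith))
    have e1 : v (i, 0) n = (t' n i : ℝ) - t n c0 := by simp only [v]; push_cast; ring
    rwa [e1] at h1
  obtain ⟨n, hn1, hn2, hn3, hn4, hn5⟩ := (ev1.and (ev2.and (ev3.and (hhU.and (hUr BIG))))).exists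
  have hn : (0 : ℝ) ≤ n := Nat.cast_nonneg n
  have g1 := hS8 n
  have g2 := hQ1S n
  have g3 := hQ1r n
  refine ⟨S n, Q1 n, P1 n, Q2 n, P2 n, t' n, l' n, by linarith, hQ1 n, ?_, hdet n, ?_, hx1 n, hx2 n, hq1 n, hq2 n,
    ?_, ?_, hn1, ?_, ?_⟩
  · have : BIG * Q1 n ≤ ((n : ℝ) + 8) * Q1 n := mul_le_mul_of_nonneg_right (by linarith) (by linarith)
    linarith
  · rw [← hn4]; exact hE1 n
  · intro i hi
    rw [ha']
    have k1 := ha4 n i
    have k2 : |(m1 i : ℝ) * hh n| = |(m1 i : ℝ)| := by rw [abs_mul, hhabs, mul_one]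
    have k3 : |(m2 i : ℝ) * (S n * (Q2 n * θ - P2 n))| ≤ |(m2 i : ℝ)| * 2 := by
      rw [abs_mul]
      apply mul_le_mul_of_nonneg_left _ (abs_nonneg _)
      rw [abs_le]
      have := hx1 n
      have := hx2 n
      constructor <;> linarith
    have k4 := abs_sub (S n * (t n i * θ - l n i - Y i) - m1 i * hh n) (m2 i * (S n * (Q2 n * θ - P2 n)))
    have k5 := abs_sub (S n * (t n i * θ - l n i - Y i)) (m1 i * hh n : ℝ)
    have k6 := hA0 i hi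
    linarith
  · intro i hi
    have k1 := ht4 n i
    have hQS : (Q1 n : ℝ) ≤ S n := by nlinarith
    have k2 : |(m1 i : ℝ) * Q1 n| ≤ |(m1 i : ℝ)| * S n := by
      rw [abs_mul, abs_of_nonneg (by linarith : (0 : ℝ) ≤ Q1 n)]
      exact mul_le_mul_of_nonneg_left hQS (abs_nonneg _)
    have k3 : |(m2 i : ℝ) * Q2 n| ≤ |(m2 i : ℝ)| * (2 * S n) := by
      have := hq1 n
      have := hS0 n
      rw [abs_mul, abs_of_nonneg (by linarith : (0 : ℝ) ≤ Q2 n)]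
      exact mul_le_mul_of_nonneg_left (hq2 n) (abs_nonneg _)
    have k4 := abs_sub ((t n i : ℝ) - m1 i * Q1 n) (m2 i * Q2 n : ℝ)
    have k5 := abs_sub ((t n i : ℝ)) (m1 i * Q1 n : ℝ)
    have k6 := mul_le_mul_of_nonneg_right (hA0 i hi) (hS0 n).le
    simp only [t']
    push_cast
    nlinarith
  · intro i hi
    rw [ht'c]
    exact hn3 i hi
  · intro i hi i2 hi2
    have hp : (i, i2) ∈ P := by
      simp only [P, Finset.mem_product, Finset.mem_range, Finset.mem_Icc]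
      have hi3 := abs_le.mp hi2
      refine ⟨hi, ?_, ?_⟩
      · exact_mod_cast hi3.1
      · exact_mod_cast hi3.2
    have h1 := hn2 (i, i2) hp
    rw [ht'c]
    exact h1

end Pool.Agent.Helper29.Rot
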