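import Pool.Agent.Helper29.RotH4
import Pool.Agent.Helper29.RotH5
import Pool.Agent.Helper29.RotBump

set_option autoImplicit false

open CircleDeg1Lift Set

namespace Pool.Agent.Helper29.Rot

theorem cH_posmin (n : ℕ) (f : ℕ → ℝ) (hf : ∀ i, i < n → 0 < f i) :
    ∃ η : ℝ, 0 < η ∧ ∀ i, i < n → η ≤ f i := by
  induction n with
  | zero => exact ⟨1, one_pos, fun i hi => absurd hi (Nat.not_lt_zero i)⟩
  | succ n ih =>
    obtain ⟨η, h1, h2⟩ := ih (fun i hi => hf i (by omega))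
    refine ⟨min η (f n), lt_min h1 (hf n (by omega)), fun i hi => ?_⟩
    rcases Nat.lt_succ_iff_lt_or_eq.1 hi with h3 | h3
    · exact (min_le_left _ _).trans (h2 i h3)
    · rw [h3]; exact min_le_right _ _

theorem cH_big (n : ℕ) (f : ℕ → ℝ) : ∃ m : ℤ, 0 < m ∧ ∀ i, i < n → f i < m := by
  induction n with
  | zero => exact ⟨1, one_pos, fun i hi => absurd hi (Nat.not_lt_zero i)⟩
  | succ n ih =>
    obtain ⟨m, h1, h2⟩ := ih
    obtain ⟨k, hk⟩ := exists_nat_gt (f n)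
    refine ⟨max m k, lt_max_of_lt_left h1, fun i hi => ?_⟩
    rcases Nat.lt_succ_iff_lt_or_eq.1 hi with h3 | h3
    · refine (h2 i h3).trans_le ?_
      exact_mod_cast le_max_left m (k : ℤ)
    · rw [h3]
      refine hk.trans_le ?_
      have : ((k : ℤ) : ℝ) ≤ ((max m (k : ℤ) : ℤ) : ℝ) := by exact_mod_cast le_max_right m (k : ℤ)
      exact_mod_cast this

theorem cH_small (A B C d : ℝ) (hA : 0 < A) (hB : 0 < B) (hC : 0 < C) (hd : 0 < d) :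
    ∃ x : ℝ, 0 < x ∧ A * x ≤ 1 / 4 ∧ B * x < d ∧ C * x ≤ 1 := by
  refine ⟨min (1 / (4 * A)) (min (d / (2 * B)) (1 / C)), by positivity, ?_, ?_, ?_⟩
  · calc A * min (1 / (4 * A)) (min (d / (2 * B)) (1 / C)) ≤ A * (1 / (4 * A)) :=
        mul_le_mul_of_nonneg_left (min_le_left _ _) hA.le
      _ = 1 / 4 := by field_simp
  · calc B * min (1 / (4 * A)) (min (d / (2 * B)) (1 / C)) ≤ B * (d / (2 * B)) :=
        mul_le_mul_of_nonneg_left ((min_le_right _ _).trans (min_le_left _ _)) hB.le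
      _ = d / 2 := by field_simp
      _ < d := by linarith
  · calc C * min (1 / (4 * A)) (min (d / (2 * B)) (1 / C)) ≤ C * (1 / C) :=
        mul_le_mul_of_nonneg_left ((min_le_right _ _).trans (min_le_right _ _)) hC.le
      _ = 1 := by field_simp

theorem cH_ns (dg : ℝ) (h0 : 0 < dg) (h1 : dg ≤ 1) :
    ∃ ns : ℕ, 3 ≤ ns * dg ∧ ns * dg ≤ 4 := by
  refine ⟨⌈3 / dg⌉₊, ?_, ?_⟩
  · have := Nat.le_ceil (3 / dg)
    rwa [div_le_iff₀ h0] at this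
  · have h2 := (Nat.ceil_lt_add_one (a := 3 / dg) (by positivity)).le
    calc (⌈3 / dg⌉₊ : ℝ) * dg ≤ (3 / dg + 1) * dg := mul_le_mul_of_nonneg_right h2 h0.le
      _ = 3 + dg := by field_simp
      _ ≤ 4 := by linarith

theorem cH_sign (n : ℤ) (hn : n ≠ 0) : ∃ sg : ℤ, (sg = 1 ∨ sg = -1) ∧ 1 ≤ sg * n := by
  rcases lt_or_gt_of_ne hn with h | h
  · exact ⟨-1, Or.inr rfl, by omega⟩
  · exact ⟨1, Or.inl rfl, by omega⟩

theorem cH_disj (h : ℤ) (hh : h = 1 ∨ h = -1) (m0 : ℤ) (Pp : ℕ) (abar dg r w : ℝ) (hr : 0 < r)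
    (hPp : 1 ≤ Pp) (hdg0 : 0 < dg) (hdg : dg ≤ 1) (hw : 2 * (w * r) ≤ 1) (j k : ℕ)
    (hjk : j ≠ k) :
    w + w ≤ |((h : ℝ) * (m0 + 2 * Pp * j) + abar + j * dg) / r -
      ((h : ℝ) * (m0 + 2 * Pp * k) + abar + k * dg) / r| := by
  have e : ((h : ℝ) * (m0 + 2 * Pp * j) + abar + j * dg) / r -
      ((h : ℝ) * (m0 + 2 * Pp * k) + abar + k * dg) / r =
      ((j : ℝ) - k) * (2 * Pp * h + dg) / r := by
    field_simp
    ring
  rw [e, abs_div, abs_mul, abs_of_pos hr, le_div_iff₀ hr]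
  have h1 : (1 : ℝ) ≤ |(j : ℝ) - k| := by
    have h2 : (1 : ℤ) ≤ |(j : ℤ) - k| := Int.one_le_abs (by omega)
    exact_mod_cast h2
  have hP : (1 : ℝ) ≤ Pp := by exact_mod_cast hPp
  have h2 : (1 : ℝ) ≤ |2 * (Pp : ℝ) * h + dg| := by
    rcases hh with rfl | rfl
    · push_cast
      rw [abs_of_pos (by linarith)]
      linarith
    · push_cast
      rw [abs_of_neg (by linarith)]
      linarith
  have h3 : (1 : ℝ) ≤ |(j : ℝ) - k| * |2 * (Pp : ℝ) * h + dg| := by nlinarith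
  linarith

/-- TARGET -/
theorem comb_H (θ : ℝ) (hθ : Irrational θ)
    (hunb : ∀ e : ℝ, 0 < e → ∃ Q P : ℤ, 0 < Q ∧ Q * |Q * θ - P| < e)
    (ℓ : ℕ) (ε : ℕ → ℤ) (ρ Y : ℕ → ℝ) (hℓ : 0 < ℓ)
    (hε : ∀ k, ε k = 0 ∨ ε k = 1 ∨ ε k = -1) (hρ : ∀ k, k < ℓ → 0 ≤ ρ k)
    (hne : ∑ k ∈ Finset.range ℓ, (ε k : ℝ) * ρ k ≠ 0) : ¬ NCS θ ℓ ε ρ Y := by
  intro hNCS
  obtain ⟨A0, abar, K, c0, h, hA0, habar, hh, hK, hc0, hρ0, hKρ, hKε, hsel⟩ :=
    select_H θ hθ hunb ℓ hℓ ε ρ Y hρ hne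
  obtain ⟨I, hI⟩ : ∃ I : ℕ, 8 * A0 + 20 ≤ (I : ℝ) := ⟨_, Nat.le_ceil _⟩
  obtain ⟨Lg, d0', hLg, hd0'pos, hsel⟩ := hsel I
  obtain ⟨sg, hsg, hnK⟩ := cH_sign (∑ i ∈ K, ε i) hKε
  obtain ⟨rmax, hrpos, hrmax⟩ : ∃ rmax : ℝ, 0 < rmax ∧ ∀ i, i < ℓ → ρ i ≤ rmax := by
    have h0 : ∀ i ∈ Finset.range ℓ, 0 ≤ ρ i := fun i hi => hρ i (Finset.mem_range.1 hi)
    refine ⟨∑ i ∈ Finset.range ℓ, ρ i + 1, ?_, fun i hi => ?_⟩
    · have := Finset.sum_nonneg h0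
      linarith
    · have := Finset.single_le_sum h0 (Finset.mem_range.2 hi)
      linarith
  obtain ⟨d0, hd0pos, hd0, hd0'⟩ : ∃ d0 : ℝ, 0 < d0 ∧ d0 ≤ d0' ∧ d0 ≤ 1 / 2 :=
    ⟨min d0' (1 / 2), by positivity, min_le_left _ _, min_le_right _ _⟩
  obtain ⟨n, hn⟩ : ∃ n : ℝ, n = ((sg * ∑ i ∈ K, ε i : ℤ) : ℝ) := ⟨_, rfl⟩
  have hn1 : (1 : ℝ) ≤ n := by rw [hn]; exact_mod_cast hnK
  have hn0 : 0 < n := by linarith
  have hA0p : 0 < A0 := by linarith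
  have hℓR : (0 : ℝ) < ℓ := by exact_mod_cast hℓ
  have hℓ1 : (1 : ℝ) ≤ ℓ := by exact_mod_cast hℓ
  obtain ⟨xd, hxd, hx1, hx2, hx3⟩ := cH_small
    (ℓ * (2 * I + 1) * (2 * (A0 + 2 * I + 5 + (rmax / ρ c0) * (A0 + 7)) + 1)
    * (4 * ℓ + 21) * rmax) ((2 * ℓ + 8) * ρ c0) (ρ c0 * n) d0 (by positivity) (by positivity)
    (by positivity) hd0pos
  obtain ⟨dg, hdg⟩ : ∃ dg : ℝ, dg = ρ c0 * xd * n := ⟨_, rfl⟩
  have hdg0 : 0 < dg := by rw [hdg]; positivity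
  have hdg1 : dg ≤ 1 := by rw [hdg]; linarith
  obtain ⟨ns, hns1, hns2⟩ := cH_ns dg hdg0 hdg1
  -- the return time
  obtain ⟨η', hη', hη'2⟩ := cH_posmin ℓ (fun i => if 0 < ρ i then ρ i / ρ c0 * dg / 2 else 1)
    (by
      intro i _
      split_ifs with h1
      · positivity
      · exact one_pos)
  obtain ⟨Pp, hPp, hΔ0⟩ := simul_approx ℓ (fun i => 2 * ρ i / ρ c0) η' hη'
    (⌈2 * A0 + 2 * I + 12 + Lg⌉₊ + 1)
  have hP : 2 * A0 + 2 * I + 12 + Lg < Pp := by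
    have h1 := Nat.le_ceil (2 * A0 + 2 * (I : ℝ) + 12 + Lg)
    have h2 : ((⌈2 * A0 + 2 * (I : ℝ) + 12 + Lg⌉₊ + 1 : ℕ) : ℝ) ≤ Pp := by exact_mod_cast hPp
    push_cast at h2
    linarith
  have hPp1 : 1 ≤ Pp := by omega
  have hPpR : (1 : ℝ) ≤ Pp := by exact_mod_cast hPp1
  have hΔ : ∀ i, i < ℓ → 0 < ρ i → ∃ Δ : ℤ, 1 ≤ Δ ∧
      |ρ i / ρ c0 * (2 * Pp) - Δ| ≤ ρ i / ρ c0 * dg / 2 := by
    intro i hi hri
    obtain ⟨Δ, h1⟩ := hΔ0 i hi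
    have h2 := hη'2 i hi
    simp only [hri, if_true] at h2
    have h3 : |ρ i / ρ c0 * (2 * Pp) - Δ| ≤ ρ i / ρ c0 * dg / 2 := by
      have : ρ i / ρ c0 * (2 * Pp) = 2 * ρ i / ρ c0 * Pp := by ring
      rw [this]
      exact h1.trans h2
    refine ⟨Δ, ?_, h3⟩
    have h4 := (abs_le.1 h3).2
    have h5 : 0 < ρ i / ρ c0 := by positivity
    have h6 : (0 : ℝ) < Δ := by nlinarith
    have h7 : 0 < Δ := by exact_mod_cast h6
    omega
  -- the offset m0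
  obtain ⟨m0, hm0, hm1⟩ := cH_big ℓ (fun i => (A0 + 2 * I + 7 + ρ i / ρ c0 * (A0 + 5)
      + ρ i * ((ℓ + 5) * xd)
      + (ρ i / ρ c0 + 1) * (ns * (2 * Pp)) + Pp + Lg) / |ρ i / ρ c0 - 1|)
  have hm0R : (0 : ℝ) < m0 := by exact_mod_cast hm0
  have hm : ∀ i, i < ℓ → 0 < ρ i → ρ i ≠ ρ c0 →
      A0 + 2 * I + 7 + ρ i / ρ c0 * (A0 + 5) + ρ i * ((ℓ + 5) * xd)
      + (ρ i / ρ c0 + 1) * (ns * (2 * Pp)) + Pp + Lg < |ρ i / ρ c0 - 1| * m0 := by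
    intro i hi hri hne'
    have h1 : 0 < |ρ i / ρ c0 - 1| := by
      rw [abs_pos, sub_ne_zero]
      intro h2
      apply hne'
      rw [div_eq_one_iff_eq hρ0.ne'] at h2
      exact h2
    have h2 := hm1 i hi
    rw [div_lt_iff₀ h1] at h2
    linarith
  -- the bumps
  obtain ⟨X, hX⟩ : ∃ X : ℕ → ℝ, X = fun (j : ℕ) => ((h : ℝ) * (m0 + 2 * Pp * j) + abar + j * dg) / ρ c0 :=
    ⟨_, rfl⟩
  have hsgabs : |((sg : ℝ)) * xd| = xd := by
    rcases hsg with rfl | rfl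
    · push_cast; rw [one_mul, abs_of_pos hxd]
    · push_cast; rw [neg_one_mul, abs_neg, abs_of_pos hxd]
  have hwr : 2 * ((((ℓ : ℝ) + 3) * xd + |(sg : ℝ) * xd| / (1 / 2)) * ρ c0) ≤ 1 := by
    rw [hsgabs]
    have h1 : 0 < ρ c0 * xd := by positivity
    nlinarith
  obtain ⟨U, hU1, hU2, hU3, hU4⟩ := bump_iso ns X (fun _ => (sg : ℝ) * xd)
    (fun _ => ((ℓ : ℝ) + 3) * xd) (fun _ => ((ℓ : ℝ) + 3) * xd + |(sg : ℝ) * xd| / (1 / 2))
    (1 / 2) xd (by norm_num) le_rfl (fun _ _ => by positivity) (fun _ _ => rfl) hxd.le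
    (fun _ _ => hsgabs.le) (by
      intro j k _ _ hjk
      rw [hX]
      exact cH_disj h hh m0 Pp abar dg (ρ c0) _ hρ0 hPp1 hdg0 hdg1 hwr j k hjk)
  obtain ⟨hU5, hU6⟩ := lip_of_disp U (1 / 2) (by norm_num) le_rfl hU3
  have hw : ((ℓ : ℝ) + 3) * xd + |(sg : ℝ) * xd| / (1 / 2) = (ℓ + 5) * xd := by
    rw [hsgabs]; ring
  simp only [hw] at hU1
  obtain ⟨mL, hmL0, hmL⟩ := cH_big ns (fun j => |X j| + (ℓ + 5) * xd)
  obtain ⟨L, hL⟩ : ∃ L : ℝ, L = (mL : ℝ) := ⟨_, rfl⟩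
  have hL0 : 0 < L := by rw [hL]; exact_mod_cast hmL0
  have hUL : ∀ Z, L ≤ |Z| → U Z = Z := by
    intro Z hZ
    apply hU1
    intro j hj
    have h1 := hmL j hj
    have h2 := abs_sub_abs_le_abs_sub Z (X j)
    rw [← hL] at h1
    linarith
  obtain ⟨C1, hC1a, hC1b⟩ : ∃ C1 : ℝ, A0 + m0 + 2 * Pp * ns + 1 ≤ C1 ∧ rmax * L + 7 ≤ C1 :=
    ⟨max (A0 + m0 + 2 * Pp * ns + 1) (rmax * L + 7), le_max_left _ _, le_max_right _ _⟩
  have hnsR : (0 : ℝ) ≤ ns := Nat.cast_nonneg _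
  have hIR : (0 : ℝ) ≤ I := Nat.cast_nonneg _
  have hC1p : 0 < C1 := by
    have : (0 : ℝ) ≤ 2 * Pp * ns := by positivity
    linarith
  obtain ⟨I1, hI1⟩ : ∃ I1 : ℝ, I1 = C1 + 2 * I + A0 + 1 := ⟨_, rfl⟩
  have hI1p : 0 < I1 := by rw [hI1]; positivity
  obtain ⟨R, hR⟩ : ∃ R : ℝ, R = ℓ * (2 * I + 1) * (2 * I1 + 1) := ⟨_, rfl⟩
  have hRp : 0 < R := by rw [hR]; positivity
  obtain ⟨η, hη, hη1, hη2, -⟩ := cH_small R (R * 4 * (1 / (ρ c0 * xd))) 1 1 hRp (by positivity)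
    one_pos one_pos
  have hη3 : R * η ≤ ρ c0 * xd / 4 := by
    have h1 : 0 < ρ c0 * xd := by positivity
    have h2 : R * 4 * (1 / (ρ c0 * xd)) * η = R * η * 4 / (ρ c0 * xd) := by ring
    rw [h2, div_lt_one h1] at hη2
    linarith
  obtain ⟨S₀, hS₀, hncs⟩ := hNCS U L 6 C1 η hL0 (by norm_num) hη hUL hU5 hU6 (by
    intro k hk
    have h1 := hrmax k hk
    have h2 : ρ k * L ≤ rmax * L := mul_le_mul_of_nonneg_right h1 hL0.le
    linarith)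
  obtain ⟨BIG, hB1, hB2, hB3, hB4⟩ : ∃ BIG : ℝ, S₀ ≤ BIG ∧ 4 * C1 + 4 ≤ BIG ∧
      8 * (m0 + 2 * Pp * ns + Pp + I1 + 2) ≤ BIG ∧ 1 ≤ BIG :=
    ⟨max (max S₀ (4 * C1 + 4)) (max (8 * (m0 + 2 * Pp * ns + Pp + I1 + 2)) 1),
      (le_max_left _ _).trans (le_max_left _ _), (le_max_right _ _).trans (le_max_left _ _),
      (le_max_left _ _).trans (le_max_right _ _), (le_max_right _ _).trans (le_max_right _ _)⟩
  obtain ⟨S, Q1, P1, Q2, P2, t, l, hS, hQ1, hBQ, hdet, he1, hxx1, hxx2, hq1, hq2, ha, ht, hKa, hKt,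
    hlag⟩ := hsel BIG (ρ c0 * xd / 4) (by positivity)
  have hQ1R : (0 : ℝ) < Q1 := by exact_mod_cast hQ1
  have hQ1R' : (1 : ℝ) ≤ Q1 := by exact_mod_cast hQ1
  have hPns : (0 : ℝ) ≤ 2 * Pp * ns := by positivity
  have hbq : 8 * ((m0 + 2 * Pp * ns + Pp + I1 + 2) * Q1) ≤ S := by
    have h1 := mul_le_mul_of_nonneg_right hB3 hQ1R.le
    linarith
  have hke : ns * ((2 * (Pp : ℤ) * Q1).toNat * ℓ) ≤ Q2.toNat * ℓ := by
    have h1 : (2 * (Pp : ℝ) * ns) * Q1 ≤ Q2 := by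
      have h2 : (2 * (Pp : ℝ) * ns) * Q1 ≤ (m0 + 2 * Pp * ns + Pp + I1 + 2) * Q1 :=
        mul_le_mul_of_nonneg_right (by linarith) hQ1R.le
      have h3 : (0 : ℝ) ≤ (2 * (Pp : ℝ) * ns) * Q1 := by positivity
      linarith
    have h4 : (2 * (Pp : ℤ) * ns) * Q1 ≤ Q2 := by exact_mod_cast h1
    have h5 : (0 : ℤ) ≤ 2 * (Pp : ℤ) * Q1 := by positivity
    have h6 : (0 : ℤ) ≤ (2 * (Pp : ℤ) * ns) * Q1 := by positivity
    have h7 : ns * (2 * (Pp : ℤ) * Q1).toNat ≤ Q2.toNat := by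
      zify
      rw [Int.toNat_of_nonneg h5, Int.toNat_of_nonneg (h6.trans h4)]
      linarith
    calc ns * ((2 * (Pp : ℤ) * Q1).toNat * ℓ) = (ns * (2 * (Pp : ℤ) * Q1).toNat) * ℓ := by ring
      _ ≤ Q2.toNat * ℓ := Nat.mul_le_mul_right _ h7
  let c : HD :=
    { ℓ := ℓ, ε := ε, ρ := ρ, Y := Y, θ := θ, S := S, Q1 := Q1, P1 := P1, Q2 := Q2, P2 := P2,
      h := h, t := t, l := l, K := K, c0 := c0, A0 := A0, I := I, abar := abar, Lg := Lg,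
      d0 := d0, xd := xd, sg := sg, ns := ns, Pp := Pp, m0 := m0, U := U, C1 := C1, η := η,
      rmax := rmax }
  have cdg : c.dg = dg := by rw [hdg, hn]; rfl
  have cX : ∀ j, c.X j = X j := by
    intro j
    rw [hX]
    unfold HD.X
    rw [cdg]
  have cI1 : c.I1 = I1 := by rw [hI1]; rfl
  have cR : c.R = R := by rw [hR, hI1]; rfl
  have hOk : c.Ok :=
    { hℓ := hℓ
      hε := hε
      hρ := hρ
      hS := hB4.trans hS
      hQ1 := hQ1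
      det := hdet
      hh := hh
      e1 := he1
      x1 := hxx1
      x2 := hxx2
      q1 := hq1
      q2 := hq2
      hA0 := hA0
      ha := ha
      ht := ht
      habar := habar
      hI := hI
      hK := hK
      hc0 := hc0
      hρ0 := hρ0
      hKρ := hKρ
      hsg := hsg
      hnK := hnK
      hxd := hxd
      hgain := by rw [cdg]; exact hns1
      hgain' := by rw [cdg]; exact hns2
      hη := hη
      hη1 := by rw [cR]; exact hη3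
      hη2 := by rw [cR]; exact hη1
      hd0 := by
        show (2 * (ℓ : ℝ) + 8) * (ρ c0 * xd) < d0
        linarith
      hd0' := hd0'
      hLg := hLg
      hKa := hKa
      hKt := hKt
      hP := hP
      hm0 := hm0
      hm := hm
      hΔ := by rw [cdg]; exact hΔ
      hC1 := hC1a
      hSC := hB2.trans hS
      hBIG := by rw [cI1]; exact hbq
      hlag := by
        rw [cI1]
        intro i hi i2 hi2
        rcases hlag i hi i2 hi2 with h1 | ⟨h1, h2⟩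
        · left
          refine lt_of_le_of_lt ?_ h1
          refine mul_le_mul_of_nonneg_right ?_ hQ1R.le
          show (m0 : ℝ) + 2 * Pp * ns + Pp + I1 + 1 ≤ BIG
          linarith
        · right
          exact ⟨h1, fun h3 h4 r => hd0.trans (h2 h3 h4 r)⟩
      hke := hke
      hrmax := hrmax
      hT := by
        show ℓ * (2 * (I : ℝ) + 1) * (2 * (A0 + 2 * I + 5 + (rmax / ρ c0) * (A0 + 7)) + 1)
          * (4 * ℓ + 21) * (rmax * xd) ≤ 1 / 4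
        calc _ = ℓ * (2 * (I : ℝ) + 1) * (2 * (A0 + 2 * I + 5 + (rmax / ρ c0) * (A0 + 7)) + 1)
            * (4 * ℓ + 21) * rmax * xd := by ring
          _ ≤ _ := hx1
      U1 := by
        intro Z hZ
        apply hU1
        intro j hj
        rw [← cX]
        exact hZ j hj
      U2 := by
        intro j hj Z hZ
        refine hU2 j hj Z ?_
        rw [← cX]
        exact hZ
      U3 := hU3
      U4 := hU4 }
  exact HD.contra c hOk 6 le_rfl (hncs S (hB1.trans hS))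

end Pool.Agent.Helper29.Rot
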