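import Mathlib

set_option autoImplicit false

open Set

namespace Pool.Agent.Helper29.Rot

theorem per_S (θ : ℝ) (c₀ : ℝ) (hc₀ : 0 < c₀)
    (hb : ∀ Q P : ℤ, 0 < Q → c₀ ≤ Q * |Q * θ - P|) (Y : ℕ → ℝ) (S : ℝ) (hS : 1 ≤ S) :
    ∃ (Q1 P1 Q2 P2 : ℤ) (t l : ℕ → ℤ), Q1 * P2 - Q2 * P1 = 1 ∧
      |S * (Q1 * θ - P1)| ≤ 2 + 2 / c₀ ∧ |(Q1 : ℝ) / S| ≤ 2 + 2 / c₀ ∧
      |S * (Q2 * θ - P2)| ≤ 2 + 2 / c₀ ∧ |(Q2 : ℝ) / S| ≤ 2 + 2 / c₀ ∧
      ∀ i, |S * (t i * θ - l i - Y i)| ≤ 2 + 2 / c₀ ∧ |(t i : ℝ) / S| ≤ 2 + 2 / c₀ := by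
  have hS0 : 0 < S := by linarith
  have hn : 0 < ⌊S⌋₊ := Nat.floor_pos.2 hS
  obtain ⟨j, k, hk0, hkn, hjk⟩ := Real.exists_int_int_abs_mul_sub_le θ hn
  have hkS : (k : ℝ) ≤ S := by
    have h1 : (k : ℝ) ≤ ((⌊S⌋₊ : ℤ) : ℝ) := by exact_mod_cast hkn
    have h2 : ((⌊S⌋₊ : ℤ) : ℝ) ≤ S := by
      have := Nat.floor_le hS0.le
      simpa using this
    linarith
  have hjk' : |(k : ℝ) * θ - j| ≤ 1 / S := by
    refine hjk.trans ?_
    apply one_div_le_one_div_of_le hS0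
    exact (Nat.lt_floor_add_one S).le
  -- coprime reduction
  obtain ⟨Q1, P1, hQ1, hQ1S, hQP, hcop⟩ : ∃ Q1 P1 : ℤ, 0 < Q1 ∧ (Q1 : ℝ) ≤ S ∧
      |(Q1 : ℝ) * θ - P1| ≤ 1 / S ∧ IsCoprime Q1 P1 := by
    set g : ℕ := Int.gcd k j with hg
    have hg0 : 0 < g := Int.gcd_pos_of_ne_zero_left _ hk0.ne'
    have hg1 : (1 : ℤ) ≤ (g : ℤ) := by exact_mod_cast hg0
    have hg1' : (1 : ℝ) ≤ (g : ℝ) := by exact_mod_cast hg0
    have hkd : (g : ℤ) * (k / g) = k := Int.mul_ediv_cancel' (Int.gcd_dvd_left ..)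
    have hjd : (g : ℤ) * (j / g) = j := Int.mul_ediv_cancel' (Int.gcd_dvd_right ..)
    have hkpos : 0 < k / (g : ℤ) := by
      by_contra hcon
      push Not at hcon
      nlinarith
    have hkdR : (g : ℝ) * ((k / (g : ℤ) : ℤ) : ℝ) = k := by exact_mod_cast hkd
    have hjdR : (g : ℝ) * ((j / (g : ℤ) : ℤ) : ℝ) = j := by exact_mod_cast hjd
    refine ⟨k / g, j / g, hkpos, ?_, ?_, ?_⟩
    · have : (0 : ℝ) < ((k / (g : ℤ) : ℤ) : ℝ) := by exact_mod_cast hkpos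
      nlinarith
    · refine le_trans ?_ hjk'
      rw [← hkdR, ← hjdR]
      have : (g : ℝ) * ((k / (g : ℤ) : ℤ) : ℝ) * θ - (g : ℝ) * ((j / (g : ℤ) : ℤ) : ℝ)
          = (g : ℝ) * (((k / (g : ℤ) : ℤ) : ℝ) * θ - ((j / (g : ℤ) : ℤ) : ℝ)) := by ring
      rw [this, abs_mul, abs_of_pos (by linarith : (0 : ℝ) < g)]
      nlinarith [abs_nonneg (((k / (g : ℤ) : ℤ) : ℝ) * θ - ((j / (g : ℤ) : ℤ) : ℝ))]
    · rw [Int.isCoprime_iff_gcd_eq_one]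
      exact Int.gcd_ediv_gcd_ediv_gcd hg0
  have hQ1R : (0 : ℝ) < Q1 := by exact_mod_cast hQ1
  have hcS : c₀ * S ≤ Q1 := by
    have h1 := hb Q1 P1 hQ1
    have h2 : (Q1 : ℝ) * |(Q1 : ℝ) * θ - P1| ≤ Q1 * (1 / S) :=
      mul_le_mul_of_nonneg_left hQP hQ1R.le
    have h3 : c₀ ≤ Q1 * (1 / S) := h1.trans h2
    rw [mul_one_div, le_div_iff₀ hS0] at h3
    exact h3
  obtain ⟨a, b, hab⟩ := hcop
  -- (Q2, P2)
  obtain ⟨Q2, P2, hdet, hQ20, hQ2lt⟩ : ∃ Q2 P2 : ℤ, Q1 * P2 - Q2 * P1 = 1 ∧ 0 ≤ Q2 ∧ Q2 < Q1 := by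
    refine ⟨(-b) % Q1, a - ((-b) / Q1) * P1, ?_, Int.emod_nonneg _ hQ1.ne',
      Int.emod_lt_of_pos _ hQ1⟩
    have h1 : (-b) % Q1 = -b - Q1 * ((-b) / Q1) := by
      have := Int.emod_add_mul_ediv (-b) Q1
      linarith
    rw [h1]
    linear_combination hab
  have hQ20R : (0 : ℝ) ≤ Q2 := by exact_mod_cast hQ20
  have hQ2ltR : (Q2 : ℝ) < Q1 := by exact_mod_cast hQ2lt
  have hdetR : (Q1 : ℝ) * P2 - Q2 * P1 = 1 := by exact_mod_cast hdet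
  have hc2 : 0 < 2 / c₀ := by positivity
  have s1 : |S * (Q1 * θ - P1)| ≤ 1 := by
    rw [abs_mul, abs_of_pos hS0]
    calc S * |(Q1 : ℝ) * θ - P1| ≤ S * (1 / S) := mul_le_mul_of_nonneg_left hQP hS0.le
      _ = 1 := by field_simp
  have T1 : |(Q1 : ℝ) / S| ≤ 1 := by
    rw [abs_of_pos (by positivity), div_le_one hS0]
    exact hQ1S
  have T2 : |(Q2 : ℝ) / S| ≤ 1 := by
    rw [abs_of_nonneg (by positivity), div_le_one hS0]
    linarith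
  have s2 : |S * (Q2 * θ - P2)| ≤ 2 / c₀ := by
    have e : (Q1 : ℝ) * (S * (Q2 * θ - P2)) = Q2 * (S * (Q1 * θ - P1)) - S := by
      linear_combination (-S) * hdetR
    have h1 : (Q1 : ℝ) * |S * (Q2 * θ - P2)| ≤ 2 * S := by
      have h2 : (Q1 : ℝ) * |S * (Q2 * θ - P2)| = |(Q1 : ℝ) * (S * (Q2 * θ - P2))| := by
        rw [abs_mul (Q1 : ℝ), abs_of_pos hQ1R]
      rw [h2, e]
      have h3 : |(Q2 : ℝ) * (S * (Q1 * θ - P1)) - S| ≤ |(Q2 : ℝ) * (S * (Q1 * θ - P1))| + |S| :=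
        abs_sub _ _
      rw [abs_mul (Q2 : ℝ), abs_of_nonneg hQ20R, abs_of_pos hS0] at h3
      have h4 : (Q2 : ℝ) * |S * (Q1 * θ - P1)| ≤ Q2 * 1 := mul_le_mul_of_nonneg_left s1 hQ20R
      linarith
    have h5 : c₀ * S * |S * (Q2 * θ - P2)| ≤ 2 * S := by
      have := mul_le_mul_of_nonneg_right hcS (abs_nonneg (S * (Q2 * θ - P2)))
      linarith
    rw [le_div_iff₀ hc₀]
    nlinarith
  set x1 : ℕ → ℝ := fun i => S * Y i * (Q2 / S) with hx1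
  set x2 : ℕ → ℝ := fun i => -(S * Y i * (Q1 / S)) with hx2
  refine ⟨Q1, P1, Q2, P2, fun i => round (x1 i) * Q1 + round (x2 i) * Q2,
    fun i => round (x1 i) * P1 + round (x2 i) * P2, hdet, by linarith, by linarith, by linarith,
    by linarith, fun i => ?_⟩
  have r1 := abs_sub_round (x1 i)
  have r2 := abs_sub_round (x2 i)
  have e1 : S * (((round (x1 i) * Q1 + round (x2 i) * Q2 : ℤ) : ℝ) * θ
      - ((round (x1 i) * P1 + round (x2 i) * P2 : ℤ) : ℝ) - Y i)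
      = -((x1 i - round (x1 i)) * (S * (Q1 * θ - P1)))
        - (x2 i - round (x2 i)) * (S * (Q2 * θ - P2)) := by
    push_cast
    have : x1 i * (S * (Q1 * θ - P1)) + x2 i * (S * (Q2 * θ - P2)) = S * Y i := by
      simp only [hx1, hx2]
      field_simp
      linear_combination (Y i) * hdetR
    linear_combination this
  have e2 : ((round (x1 i) * Q1 + round (x2 i) * Q2 : ℤ) : ℝ) / S
      = -((x1 i - round (x1 i)) * (Q1 / S)) - (x2 i - round (x2 i)) * (Q2 / S) := by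
    push_cast
    have : x1 i * (Q1 / S) + x2 i * (Q2 / S) = 0 := by
      simp only [hx1, hx2]
      ring
    linear_combination this
  constructor
  · simp only []
    rw [e1]
    have h1 : |-((x1 i - round (x1 i)) * (S * (Q1 * θ - P1)))
        - (x2 i - round (x2 i)) * (S * (Q2 * θ - P2))| ≤
        |x1 i - round (x1 i)| * |S * (Q1 * θ - P1)| + |x2 i - round (x2 i)| * |S * (Q2 * θ - P2)| := by
      refine (abs_sub _ _).trans ?_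
      rw [abs_neg, abs_mul (x1 i - round (x1 i)), abs_mul (x2 i - round (x2 i))]
    have h2 : |x1 i - round (x1 i)| * |S * (Q1 * θ - P1)| ≤ 1 / 2 * 1 :=
      mul_le_mul r1 s1 (abs_nonneg _) (by norm_num)
    have h3 : |x2 i - round (x2 i)| * |S * (Q2 * θ - P2)| ≤ 1 / 2 * (2 / c₀) :=
      mul_le_mul r2 s2 (abs_nonneg _) (by norm_num)
    linarith
  · simp only []
    rw [e2]
    have h1 : |-((x1 i - round (x1 i)) * (Q1 / S)) - (x2 i - round (x2 i)) * (Q2 / S)| ≤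
        |x1 i - round (x1 i)| * |(Q1 : ℝ) / S| + |x2 i - round (x2 i)| * |(Q2 : ℝ) / S| := by
      refine (abs_sub _ _).trans ?_
      rw [abs_neg, abs_mul (x1 i - round (x1 i)), abs_mul (x2 i - round (x2 i))]
    have h2 : |x1 i - round (x1 i)| * |(Q1 : ℝ) / S| ≤ 1 / 2 * 1 :=
      mul_le_mul r1 T1 (abs_nonneg _) (by norm_num)
    have h3 : |x2 i - round (x2 i)| * |(Q2 : ℝ) / S| ≤ 1 / 2 * 1 :=
      mul_le_mul r2 T2 (abs_nonneg _) (by norm_num)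
    linarith

theorem ulim (u : ℕ → ℝ) (D : ℝ) (hu : ∀ n, |u n| ≤ D) :
    ∃ L, Filter.Tendsto u (Filter.hyperfilter ℕ : Filter ℕ) (nhds L) := by
  have h1 : ((Filter.hyperfilter ℕ).map u : Filter ℝ) ≤ Filter.principal (Set.Icc (-D) D) := by
    rw [Filter.le_principal_iff]
    refine Filter.mem_map.2 (Filter.univ_mem' fun n => ?_)
    exact abs_le.1 (hu n)
  obtain ⟨L, -, hL⟩ := (isCompact_Icc (a := -D) (b := D)).ultrafilter_le_nhds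
    ((Filter.hyperfilter ℕ).map u) h1
  exact ⟨L, hL⟩

/-- TARGET -/
theorem raw_limit (θ : ℝ) (hθ : Irrational θ) (c₀ : ℝ) (hc₀ : 0 < c₀)
    (hb : ∀ Q P : ℤ, 0 < Q → c₀ ≤ Q * |Q * θ - P|) (ℓ : ℕ) (Y : ℕ → ℝ) :
    ∃ (s1 T1 s2 T2 : ℝ) (a φ : ℕ → ℝ),
      (∀ v : ℤ × ℤ, v ≠ 0 → c₀ ≤ |(v.1 : ℝ) * s1 + v.2 * s2| * |(v.1 : ℝ) * T1 + v.2 * T2|) ∧
      (s1 * T2 - s2 * T1 = 1 ∨ s1 * T2 - s2 * T1 = -1) ∧
      ∀ (δ BIG : ℝ), 0 < δ → ∃ (S : ℝ) (Q1 P1 Q2 P2 : ℤ) (t l : ℕ → ℤ), BIG ≤ S ∧ 1 ≤ S ∧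
        (Q1 * P2 - Q2 * P1 = 1 ∨ Q1 * P2 - Q2 * P1 = -1) ∧
        |S * (Q1 * θ - P1) - s1| ≤ δ ∧ |(Q1 : ℝ) / S - T1| ≤ δ ∧
        |S * (Q2 * θ - P2) - s2| ≤ δ ∧ |(Q2 : ℝ) / S - T2| ≤ δ ∧
        ∀ i, i < ℓ → |S * (t i * θ - l i - Y i) - a i| ≤ δ ∧ |(t i : ℝ) / S - φ i| ≤ δ := by
  have hper : ∀ n : ℕ, ∃ (Q1 P1 Q2 P2 : ℤ) (t l : ℕ → ℤ), Q1 * P2 - Q2 * P1 = 1 ∧
      |((n : ℝ) + 1) * (Q1 * θ - P1)| ≤ 2 + 2 / c₀ ∧ |(Q1 : ℝ) / ((n : ℝ) + 1)| ≤ 2 + 2 / c₀ ∧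
      |((n : ℝ) + 1) * (Q2 * θ - P2)| ≤ 2 + 2 / c₀ ∧ |(Q2 : ℝ) / ((n : ℝ) + 1)| ≤ 2 + 2 / c₀ ∧
      ∀ i, |((n : ℝ) + 1) * (t i * θ - l i - Y i)| ≤ 2 + 2 / c₀ ∧
        |(t i : ℝ) / ((n : ℝ) + 1)| ≤ 2 + 2 / c₀ := fun n =>
    per_S θ c₀ hc₀ hb Y ((n : ℝ) + 1) (by have := Nat.cast_nonneg (α := ℝ) n; linarith)
  choose Q1 P1 Q2 P2 t l hdet hs1 hT1 hs2 hT2 hti using hper
  obtain ⟨s1, ls1⟩ := ulim _ _ hs1
  obtain ⟨T1, lT1⟩ := ulim _ _ hT1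
  obtain ⟨s2, ls2⟩ := ulim _ _ hs2
  obtain ⟨T2, lT2⟩ := ulim _ _ hT2
  have ha : ∀ i, ∃ L, Filter.Tendsto (fun n : ℕ => ((n : ℝ) + 1) * (t n i * θ - l n i - Y i))
      (Filter.hyperfilter ℕ : Filter ℕ) (nhds L) := fun i => ulim _ _ fun n => (hti n i).1
  have hφ : ∀ i, ∃ L, Filter.Tendsto (fun n : ℕ => (t n i : ℝ) / ((n : ℝ) + 1))
      (Filter.hyperfilter ℕ : Filter ℕ) (nhds L) := fun i => ulim _ _ fun n => (hti n i).2
  choose a la using ha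
  choose φ lφ using hφ
  have hS : Filter.Tendsto (fun n : ℕ => (n : ℝ) + 1) (Filter.hyperfilter ℕ : Filter ℕ)
      Filter.atTop := by
    have h1 : Filter.Tendsto (fun n : ℕ => (n : ℝ) + 1) Filter.atTop Filter.atTop :=
      Filter.tendsto_atTop_add_const_right _ _ tendsto_natCast_atTop_atTop
    exact h1.mono_left Nat.hyperfilter_le_atTop
  have hdetR : ∀ n, (Q1 n : ℝ) * P2 n - Q2 n * P1 n = 1 := fun n => by exact_mod_cast hdet n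
  refine ⟨s1, T1, s2, T2, a, φ, ?_, ?_, ?_⟩
  · rintro ⟨v1, v2⟩ hv
    simp only []
    have l1 : Filter.Tendsto (fun n : ℕ => |(v1 : ℝ) * (((n : ℝ) + 1) * (Q1 n * θ - P1 n))
        + v2 * (((n : ℝ) + 1) * (Q2 n * θ - P2 n))|) (Filter.hyperfilter ℕ : Filter ℕ)
        (nhds |(v1 : ℝ) * s1 + v2 * s2|) :=
      ((ls1.const_mul _).add (ls2.const_mul _)).abs
    have l2 : Filter.Tendsto (fun n : ℕ => |(v1 : ℝ) * ((Q1 n : ℝ) / ((n : ℝ) + 1))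
        + v2 * ((Q2 n : ℝ) / ((n : ℝ) + 1))|) (Filter.hyperfilter ℕ : Filter ℕ)
        (nhds |(v1 : ℝ) * T1 + v2 * T2|) :=
      ((lT1.const_mul _).add (lT2.const_mul _)).abs
    have l3 := l1.mul l2
    refine ge_of_tendsto l3 ?_
    have ev1 : ∀ᶠ n : ℕ in (Filter.hyperfilter ℕ : Filter ℕ),
        |(v1 : ℝ) * (((n : ℝ) + 1) * (Q1 n * θ - P1 n))
        + v2 * (((n : ℝ) + 1) * (Q2 n * θ - P2 n))| < |(v1 : ℝ) * s1 + v2 * s2| + 1 :=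
      l1.eventually_lt_const (by linarith)
    have ev2 : ∀ᶠ n : ℕ in (Filter.hyperfilter ℕ : Filter ℕ),
        |(v1 : ℝ) * s1 + v2 * s2| + 1 < (n : ℝ) + 1 := hS.eventually_gt_atTop _
    filter_upwards [ev1, ev2] with n h1 h2
    have hn0 : (0 : ℝ) < (n : ℝ) + 1 := by positivity
    set Q : ℤ := v1 * Q1 n + v2 * Q2 n with hQ
    set P : ℤ := v1 * P1 n + v2 * P2 n with hP
    have eQ : (Q : ℝ) = v1 * Q1 n + v2 * Q2 n := by rw [hQ]; push_cast; ring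
    have eP : (P : ℝ) = v1 * P1 n + v2 * P2 n := by rw [hP]; push_cast; ring
    have f1 : (v1 : ℝ) * (((n : ℝ) + 1) * (Q1 n * θ - P1 n))
        + v2 * (((n : ℝ) + 1) * (Q2 n * θ - P2 n)) = ((n : ℝ) + 1) * (Q * θ - P) := by
      rw [eQ, eP]; ring
    have f2 : (v1 : ℝ) * ((Q1 n : ℝ) / ((n : ℝ) + 1))
        + v2 * ((Q2 n : ℝ) / ((n : ℝ) + 1)) = Q / ((n : ℝ) + 1) := by
      rw [eQ]; field_simp
    rw [f1] at h1 ⊢
    rw [f2]
    have hQ0 : Q ≠ 0 := by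
      intro h0
      have hP0 : P ≠ 0 := by
        intro hP0
        apply hv
        have g1 : v1 = Q * P2 n - P * Q2 n := by
          rw [hQ, hP]; linear_combination (-v1) * hdet n
        have g2 : v2 = P * Q1 n - Q * P1 n := by
          rw [hQ, hP]; linear_combination (-v2) * hdet n
        rw [h0, hP0] at g1 g2
        simp at g1 g2
        rw [g1, g2]
        rfl
      have h3 : (1 : ℝ) ≤ |(P : ℝ)| := by
        have : (1 : ℤ) ≤ |P| := Int.one_le_abs hP0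
        exact_mod_cast this
      rw [h0] at h1
      simp only [Int.cast_zero, zero_mul, zero_sub, mul_neg, abs_neg, abs_mul] at h1
      rw [abs_of_pos hn0] at h1
      nlinarith
    have key : c₀ ≤ |(Q : ℝ)| * |Q * θ - P| := by
      rcases lt_or_gt_of_ne hQ0 with hneg | hpos
      · have h4 := hb (-Q) (-P) (by linarith)
        push_cast at h4
        rw [abs_of_neg (by exact_mod_cast hneg : (Q : ℝ) < 0)]
        have h5 : |-(Q : ℝ) * θ - -(P : ℝ)| = |(Q : ℝ) * θ - P| := by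
          rw [← abs_neg]; congr 1; ring
        rw [h5] at h4
        exact h4
      · have h4 := hb Q P hpos
        rwa [abs_of_pos (by exact_mod_cast hpos : (0 : ℝ) < (Q : ℝ))]
    rw [abs_mul, abs_div, abs_of_pos hn0]
    calc c₀ ≤ |(Q : ℝ)| * |Q * θ - P| := key
      _ = ((n : ℝ) + 1) * |Q * θ - P| * (|(Q : ℝ)| / ((n : ℝ) + 1)) := by field_simp
  · left
    have l1 := (ls1.mul lT2).sub (ls2.mul lT1)
    refine tendsto_nhds_unique (l1.congr fun n => ?_) tendsto_const_nhds |>.symm |> Eq.symm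
    have hn0 : (n : ℝ) + 1 ≠ 0 := by positivity
    have := hdetR n
    field_simp
    linear_combination this
  · intro δ BIG hδ
    have cl : ∀ (u : ℕ → ℝ) (L : ℝ), Filter.Tendsto u (Filter.hyperfilter ℕ : Filter ℕ) (nhds L) →
        ∀ᶠ n in (Filter.hyperfilter ℕ : Filter ℕ), |u n - L| ≤ δ := by
      intro u L hu
      have := (Metric.tendsto_nhds.1 hu) δ hδ
      filter_upwards [this] with n hn
      rw [Real.dist_eq] at hn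
      exact hn.le
    have evi : ∀ᶠ n : ℕ in (Filter.hyperfilter ℕ : Filter ℕ), ∀ i ∈ Finset.range ℓ,
        |((n : ℝ) + 1) * (t n i * θ - l n i - Y i) - a i| ≤ δ ∧
        |(t n i : ℝ) / ((n : ℝ) + 1) - φ i| ≤ δ := by
      rw [Filter.eventually_all_finset]
      intro i _
      exact (cl _ _ (la i)).and (cl _ _ (lφ i))
    have evB : ∀ᶠ n : ℕ in (Filter.hyperfilter ℕ : Filter ℕ), BIG ≤ (n : ℝ) + 1 :=
      hS.eventually_ge_atTop _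
    obtain ⟨n, hB, h1, h2, h3, h4, hi⟩ :=
      (evB.and ((cl _ _ ls1).and ((cl _ _ lT1).and ((cl _ _ ls2).and
        ((cl _ _ lT2).and evi))))).exists
    refine ⟨(n : ℝ) + 1, Q1 n, P1 n, Q2 n, P2 n, t n, l n, hB, ?_, Or.inl (hdet n), h1, h2, h3, h4,
      fun i hil => hi i (Finset.mem_range.2 hil)⟩
    have := Nat.cast_nonneg (α := ℝ) n
    linarith

end Pool.Agent.Helper29.Rot
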