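import Pool.Agent.Helper29.RotLD
import Pool.Agent.Helper29.RotN0

set_option autoImplicit false

open Set

namespace Pool.Agent.Helper29.Rot

/-- TARGET -/
theorem limit_data (θ : ℝ) (hθ : Irrational θ) (c₀ : ℝ) (hc₀ : 0 < c₀)
    (hb : ∀ Q P : ℤ, 0 < Q → c₀ ≤ Q * |Q * θ - P|)
    (ℓ : ℕ) (ε : ℕ → ℤ) (ρ Y : ℕ → ℝ) (hℓ : 0 < ℓ)
    (hε : ∀ k, ε k = 0 ∨ ε k = 1 ∨ ε k = -1) (hρ : ∀ k, k < ℓ → 0 ≤ ρ k)
    (hne : ∑ k ∈ Finset.range ℓ, (ε k : ℝ) * ρ k ≠ 0) :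
    ∃ d : LD, d.Ok ∧ d.ℓ = ℓ ∧ d.ε = ε ∧ d.ρ = ρ ∧
      ∀ (δ BIG : ℝ), 0 < δ → ∃ (S : ℝ) (Q1 P1 Q2 P2 : ℤ) (t l : ℕ → ℤ), BIG ≤ S ∧ 1 ≤ S ∧
        (Q1 * P2 - Q2 * P1 = 1 ∨ Q1 * P2 - Q2 * P1 = -1) ∧
        |S * (Q1 * θ - P1) - d.s1| ≤ δ ∧ |(Q1 : ℝ) / S - d.T1| ≤ δ ∧
        |S * (Q2 * θ - P2) - d.s2| ≤ δ ∧ |(Q2 : ℝ) / S - d.T2| ≤ δ ∧
        ∀ i, i < ℓ → |S * (t i * θ - l i - Y i) - d.a i| ≤ δ ∧ |(t i : ℝ) / S - d.φ i| ≤ δ := by
  classical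
  obtain ⟨s1, T1, s2, T2, a, φ, hc, hdet, happ⟩ := raw_limit θ hθ c₀ hc₀ hb ℓ Y
  set sp : ℤ × ℤ → ℝ := fun v => (v.1 : ℝ) * s1 + v.2 * s2 with hsp
  set Tv : ℤ × ℤ → ℝ := fun v => (v.1 : ℝ) * T1 + v.2 * T2 with hTv
  have spadd : ∀ v w, sp (v + w) = sp v + sp w := fun v w => by simp [hsp]; ring
  have Tvadd : ∀ v w, Tv (v + w) = Tv v + Tv w := fun v w => by simp [hTv]; ring
  have spneg : ∀ v, sp (-v) = - sp v := fun v => by simp [hsp]; ring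
  have Tvneg : ∀ v, Tv (-v) = - Tv v := fun v => by simp [hTv]; ring
  set Rel : ℕ → ℕ → Prop := fun i j => ρ i = ρ j ∧ ∃ v : ℤ × ℤ, a j - a i = sp v ∧
    φ j - φ i = Tv v with hRel
  have hrefl : ∀ i, Rel i i := fun i => ⟨rfl, 0, by simp [hsp], by simp [hTv]⟩
  have hsymm : ∀ i j, Rel i j → Rel j i := by
    rintro i j ⟨h1, v, h2, h3⟩
    exact ⟨h1.symm, -v, by rw [spneg, ← h2]; ring, by rw [Tvneg, ← h3]; ring⟩
  have htrans : ∀ i j k, Rel i j → Rel j k → Rel i k := by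
    rintro i j k ⟨h1, v, h2, h3⟩ ⟨h4, w, h5, h6⟩
    exact ⟨h1.trans h4, v + w, by rw [spadd, ← h2, ← h5]; ring, by rw [Tvadd, ← h3, ← h6]; ring⟩
  have hex : ∀ i, ∃ j, Rel i j := fun i => ⟨i, hrefl i⟩
  set r : ℕ → ℕ := fun i => Nat.find (hex i) with hr
  have hr1 : ∀ i, Rel i (r i) := fun i => Nat.find_spec (hex i)
  have hrcongr : ∀ i j, Rel i j → r i = r j := by
    intro i j hij
    apply le_antisymm
    · exact Nat.find_min' (hex i) (htrans _ _ _ hij (hr1 j))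
    · exact Nat.find_min' (hex j) (htrans _ _ _ (hsymm _ _ hij) (hr1 i))
  choose hρr v hv1 hv2 using hr1
  refine ⟨⟨ℓ, ε, ρ, s1, T1, s2, T2, fun i => a (r i), fun i => φ (r i)⟩, ?_, rfl, rfl, rfl, ?_⟩
  · refine ⟨hℓ, hε, hρ, ⟨c₀, hc₀, hc⟩, hdet, ?_, hne⟩
    intro i j _ _ _ hij w h1 h2
    have h3 : Rel (r i) (r j) := by
      refine ⟨?_, w, h1, h2⟩
      rw [← hρr i, ← hρr j]
      exact hij
    have h4 : Rel i (r i) := ⟨hρr i, v i, hv1 i, hv2 i⟩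
    have h5 : Rel j (r j) := ⟨hρr j, v j, hv1 j, hv2 j⟩
    have h6 : r i = r j := hrcongr i j (htrans _ _ _ (htrans _ _ _ h4 h3) (hsymm _ _ h5))
    exact ⟨congrArg a h6, congrArg φ h6⟩
  · intro δ BIG hδ
    set B : ℝ := ∑ i ∈ Finset.range ℓ, (|((v i).1 : ℝ)| + |((v i).2 : ℝ)|) with hB
    have hB0 : 0 ≤ B := Finset.sum_nonneg fun i _ => by positivity
    have hBi : ∀ i, i < ℓ → |((v i).1 : ℝ)| + |((v i).2 : ℝ)| ≤ B := by
      intro i hi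
      exact Finset.single_le_sum (f := fun i => |((v i).1 : ℝ)| + |((v i).2 : ℝ)|)
        (fun i _ => by positivity) (Finset.mem_range.2 hi)
    set δ' : ℝ := δ / (1 + B) with hδ'
    have hδ'0 : 0 < δ' := by positivity
    have hδδ : δ' * (1 + B) = δ := by rw [hδ']; field_simp
    have hδle : δ' ≤ δ := by nlinarith
    obtain ⟨S, Q1, P1, Q2, P2, t, l, hS1, hS2, hd, e1, e2, e3, e4, e5⟩ := happ δ' BIG hδ'0
    refine ⟨S, Q1, P1, Q2, P2, fun i => t i + (v i).1 * Q1 + (v i).2 * Q2,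
      fun i => l i + (v i).1 * P1 + (v i).2 * P2, hS1, hS2, hd, e1.trans hδle, e2.trans hδle,
      e3.trans hδle, e4.trans hδle, fun i hi => ?_⟩
    obtain ⟨f1, f2⟩ := e5 i hi
    have hbound : ∀ x y z : ℝ, |x| ≤ δ' → |y| ≤ δ' → |z| ≤ δ' →
        |x + (v i).1 * y + (v i).2 * z| ≤ δ := by
      intro x y z hx hy hz
      have g1 : |x + (v i).1 * y + (v i).2 * z| ≤ |x| + |((v i).1 : ℝ)| * |y| +
          |((v i).2 : ℝ)| * |z| := by
        refine (abs_add_le _ _).trans ?_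
        rw [abs_mul]
        gcongr
        refine (abs_add_le _ _).trans ?_
        rw [abs_mul]
      have g2 : |((v i).1 : ℝ)| * |y| ≤ |((v i).1 : ℝ)| * δ' := by gcongr
      have g3 : |((v i).2 : ℝ)| * |z| ≤ |((v i).2 : ℝ)| * δ' := by gcongr
      have g4 := hBi i hi
      have g5 : (|((v i).1 : ℝ)| + |((v i).2 : ℝ)|) * δ' ≤ B * δ' := by gcongr
      calc |x + (v i).1 * y + (v i).2 * z| ≤ δ' + |((v i).1 : ℝ)| * δ' + |((v i).2 : ℝ)| * δ' := by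
            linarith
        _ ≤ δ' * (1 + B) := by linarith
        _ = δ := hδδ
    have hv1i := hv1 i
    have hv2i := hv2 i
    simp only [hsp] at hv1i
    simp only [hTv] at hv2i
    constructor
    · have h1 := hbound _ _ _ f1 e1 e3
      refine le_trans (le_of_eq ?_) h1
      congr 1
      simp only
      push_cast
      linear_combination -hv1i
    · have h1 := hbound _ _ _ f2 e2 e4
      refine le_trans (le_of_eq ?_) h1
      congr 1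
      simp only
      push_cast
      have hS0 : S ≠ 0 := by linarith
      field_simp
      linear_combination (-S) * hv2i

end Pool.Agent.Helper29.Rot
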