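import Pool.Agent.Helper29.RotLD

set_option autoImplicit false

open Set

namespace Pool.Agent.Helper29.Rot

theorem NH2_dense (d : LD) (hd : d.Ok) (h : ℝ) (hh : 0 < h) :
    ∃ u : ℤ × ℤ, 0 < d.T u ∧ d.T u < h := by
  let f : ℤ × ℤ →+ ℝ :=
    { toFun := d.T
      map_zero' := by simp [LD.T]
      map_add' := by
        intro a b
        simp only [LD.T, Prod.fst_add, Prod.snd_add, Int.cast_add]
        ring }
  rcases AddSubgroup.dense_or_cyclic f.range with hD | ⟨a, ha⟩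
  · obtain ⟨t, ht, h1⟩ := hD.exists_between hh
    obtain ⟨u, rfl⟩ := ht
    exact ⟨u, h1.1, h1.2⟩
  · exfalso
    have h1 : d.T1 ∈ f.range := ⟨(1, 0), by
      change d.T (1, 0) = d.T1
      simp [LD.T]⟩
    have h2 : d.T2 ∈ f.range := ⟨(0, 1), by
      change d.T (0, 1) = d.T2
      simp [LD.T]⟩
    rw [ha, AddSubgroup.mem_closure_singleton] at h1 h2
    obtain ⟨m, hm⟩ := h1
    obtain ⟨n, hn⟩ := h2
    rw [zsmul_eq_mul] at hm hn
    have hT : d.T (n, -m) = 0 := by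
      simp only [LD.T, Int.cast_neg]
      rw [← hm, ← hn]
      ring
    by_cases hv : ((n, -m) : ℤ × ℤ) = 0
    · have hn0 : n = 0 := congrArg Prod.fst hv
      have hm0 : m = 0 := by
        have := congrArg Prod.snd hv
        simpa using this
      rw [hn0] at hn
      rw [hm0] at hm
      rcases hd.det with h3 | h3
      · rw [← hm, ← hn] at h3
        norm_num at h3
      · rw [← hm, ← hn] at h3
        norm_num at h3
    · obtain ⟨c, hc, h3⟩ := hd.c0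
      have h4 := h3 _ hv
      rw [hT, abs_zero, mul_zero] at h4
      linarith

theorem NH2_cover (d : LD) (hd : d.Ok) (X : ℝ) :
    ∃ v : ℤ × ℤ, |d.sp v - X| ≤ |d.s1| + |d.s2| ∧ |d.T v| ≤ |d.T1| + |d.T2| := by
  have key : ∀ a b : ℝ, a * d.s1 + b * d.s2 = X → a * d.T1 + b * d.T2 = 0 →
      ∃ v : ℤ × ℤ, |d.sp v - X| ≤ |d.s1| + |d.s2| ∧ |d.T v| ≤ |d.T1| + |d.T2| := by
    intro a b h1 h2
    have ha : |(round a : ℝ) - a| ≤ 1 := by
      rw [abs_sub_comm]
      exact (abs_sub_round a).trans (by norm_num)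
    have hb : |(round b : ℝ) - b| ≤ 1 := by
      rw [abs_sub_comm]
      exact (abs_sub_round b).trans (by norm_num)
    refine ⟨(round a, round b), ?_, ?_⟩
    · have : d.sp (round a, round b) - X =
          ((round a : ℝ) - a) * d.s1 + ((round b : ℝ) - b) * d.s2 := by
        simp only [LD.sp]
        rw [← h1]
        ring
      rw [this]
      refine (abs_add_le _ _).trans (add_le_add ?_ ?_)
      · rw [abs_mul]
        exact mul_le_of_le_one_left (abs_nonneg _) ha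
      · rw [abs_mul]
        exact mul_le_of_le_one_left (abs_nonneg _) hb
    · have : d.T (round a, round b) =
          ((round a : ℝ) - a) * d.T1 + ((round b : ℝ) - b) * d.T2 := by
        simp only [LD.T]
        have : ((round a : ℝ) - a) * d.T1 + ((round b : ℝ) - b) * d.T2 =
          (round a : ℝ) * d.T1 + (round b : ℝ) * d.T2 - (a * d.T1 + b * d.T2) := by ring
        rw [this, h2, sub_zero]
      rw [this]
      refine (abs_add_le _ _).trans (add_le_add ?_ ?_)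
      · rw [abs_mul]
        exact mul_le_of_le_one_left (abs_nonneg _) ha
      · rw [abs_mul]
        exact mul_le_of_le_one_left (abs_nonneg _) hb
  rcases hd.det with h | h
  · refine key (X * d.T2) (-(X * d.T1)) ?_ ?_
    · have : X * d.T2 * d.s1 + -(X * d.T1) * d.s2 = X * (d.s1 * d.T2 - d.s2 * d.T1) := by ring
      rw [this, h, mul_one]
    · ring
  · refine key (-(X * d.T2)) (X * d.T1) ?_ ?_
    · have : -(X * d.T2) * d.s1 + X * d.T1 * d.s2 = -X * (d.s1 * d.T2 - d.s2 * d.T1) := by ring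
      rw [this, h]
      ring
    · ring

theorem NH2_core (d : LD) (hd : d.Ok) (x y : ℝ) (hxy : x < y) :
    ∃ M : ℝ, ∀ X : ℝ, ∃ v : ℤ × ℤ, x < d.T v ∧ d.T v < y ∧ |d.sp v - X| ≤ M := by
  obtain ⟨u, hu0, hu1⟩ := NH2_dense d hd (y - x) (sub_pos.2 hxy)
  refine ⟨|d.s1| + |d.s2| + ((|x| + (|d.T1| + |d.T2|)) / d.T u + 1) * |d.sp u|, fun X => ?_⟩
  obtain ⟨v, hv1, hv2⟩ := NH2_cover d hd X
  set k : ℤ := ⌊(x - d.T v) / d.T u⌋ + 1 with hk
  have hk1 : (x - d.T v) / d.T u < (k : ℝ) := by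
    rw [hk]
    push_cast
    exact Int.lt_floor_add_one _
  have hk2 : (k : ℝ) ≤ (x - d.T v) / d.T u + 1 := by
    rw [hk]
    push_cast
    linarith [Int.floor_le ((x - d.T v) / d.T u)]
  rw [div_lt_iff₀ hu0] at hk1
  have hk3 : (k : ℝ) * d.T u ≤ x - d.T v + d.T u := by
    have := mul_le_mul_of_nonneg_right hk2 hu0.le
    rwa [add_mul, div_mul_cancel₀ _ hu0.ne', one_mul] at this
  have hT : d.T (v + k • u) = d.T v + k * d.T u := by
    simp only [LD.T, Prod.fst_add, Prod.snd_add, Prod.smul_fst, Prod.smul_snd, smul_eq_mul,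
      Int.cast_add, Int.cast_mul]
    ring
  have hs : d.sp (v + k • u) = d.sp v + k * d.sp u := by
    simp only [LD.sp, Prod.fst_add, Prod.snd_add, Prod.smul_fst, Prod.smul_snd, smul_eq_mul,
      Int.cast_add, Int.cast_mul]
    ring
  have hkabs : |(k : ℝ)| ≤ (|x| + (|d.T1| + |d.T2|)) / d.T u + 1 := by
    have h1 : |x - d.T v| ≤ |x| + (|d.T1| + |d.T2|) :=
      (abs_sub _ _).trans (by linarith)
    have h2 : |(x - d.T v) / d.T u| ≤ (|x| + (|d.T1| + |d.T2|)) / d.T u := by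
      rw [abs_div, abs_of_pos hu0]
      exact div_le_div_of_nonneg_right h1 hu0.le
    have h3 : (x - d.T v) / d.T u < (k : ℝ) := by
      rw [div_lt_iff₀ hu0]
      exact hk1
    rw [abs_le]
    constructor
    · linarith [(abs_le.1 h2).1]
    · linarith [(abs_le.1 h2).2]
  refine ⟨v + k • u, ?_, ?_, ?_⟩
  · rw [hT]; linarith
  · rw [hT]; linarith
  · rw [hs]
    have : d.sp v + k * d.sp u - X = (d.sp v - X) + k * d.sp u := by ring
    rw [this]
    refine (abs_add_le _ _).trans (add_le_add hv1 ?_)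
    rw [abs_mul]
    exact mul_le_mul_of_nonneg_right hkabs (abs_nonneg _)

/-- TARGET -/
theorem NH2 (d : LD) (hd : d.Ok) (x y A : ℝ) (hxy : x < y) :
    (∃ v : ℤ × ℤ, x < d.T v ∧ d.T v < y ∧ A ≤ d.sp v) ∧
    (∃ v : ℤ × ℤ, x < d.T v ∧ d.T v < y ∧ d.sp v ≤ -A) := by
  obtain ⟨M, hM⟩ := NH2_core d hd x y hxy
  constructor
  · obtain ⟨v, h1, h2, h3⟩ := hM (A + M)
    exact ⟨v, h1, h2, by linarith [(abs_le.1 h3).1]⟩
  · obtain ⟨v, h1, h2, h3⟩ := hM (-A - M)
    exact ⟨v, h1, h2, by linarith [(abs_le.1 h3).2]⟩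

theorem NH3_card (c R : ℝ) : (Finset.Icc ⌈c - R⌉ ⌊c + R⌋).card ≤ ⌈2 * R⌉₊ + 1 := by
  rw [Int.card_Icc, Int.toNat_le]
  have h1 : (⌊c + R⌋ : ℝ) ≤ c + R := Int.floor_le _
  have h2 : c - R ≤ (⌈c - R⌉ : ℝ) := Int.le_ceil _
  have h3 : 2 * R ≤ (⌈2 * R⌉₊ : ℝ) := Nat.le_ceil _
  have h4 : ((⌊c + R⌋ - ⌈c - R⌉ : ℤ) : ℝ) ≤ ((⌈2 * R⌉₊ : ℤ) : ℝ) := by
    push_cast
    linarith
  have h5 : ⌊c + R⌋ - ⌈c - R⌉ ≤ (⌈2 * R⌉₊ : ℤ) := by exact_mod_cast h4
  push_cast
  linarith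

theorem NH3_mem (c R : ℝ) (n : ℤ) (h : |(n : ℝ) - c| ≤ R) : n ∈ Finset.Icc ⌈c - R⌉ ⌊c + R⌋ := by
  rw [abs_le] at h
  rw [Finset.mem_Icc, Int.ceil_le, Int.le_floor]
  constructor <;> linarith [h.1, h.2]

/-- TARGET -/
theorem NH3 (d : LD) (hd : d.Ok) (A B : ℝ) :
    ∃ Q₀ : ℕ, ∀ x y : ℝ, ∃ F : Finset (ℤ × ℤ), F.card ≤ Q₀ ∧
      ∀ v : ℤ × ℤ, |d.sp v - x| ≤ A → |d.T v - y| ≤ B → v ∈ F := by
  obtain ⟨δ, hδ, hδ1⟩ : ∃ δ : ℝ, δ = d.s1 * d.T2 - d.s2 * d.T1 ∧ (δ = 1 ∨ δ = -1) :=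
    ⟨_, rfl, hd.det⟩
  have hδ2 : δ * δ = 1 := by
    rcases hδ1 with h | h <;> rw [h] <;> norm_num
  have hδa : |δ| = 1 := by
    rcases hδ1 with h | h <;> rw [h] <;> norm_num
  refine ⟨(⌈2 * (A * |d.T2| + B * |d.s2|)⌉₊ + 1) * (⌈2 * (B * |d.s1| + A * |d.T1|)⌉₊ + 1),
    fun x y => ?_⟩
  refine ⟨Finset.Icc ⌈δ * (x * d.T2 - y * d.s2) - (A * |d.T2| + B * |d.s2|)⌉
      ⌊δ * (x * d.T2 - y * d.s2) + (A * |d.T2| + B * |d.s2|)⌋ ×ˢ
    Finset.Icc ⌈δ * (y * d.s1 - x * d.T1) - (B * |d.s1| + A * |d.T1|)⌉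
      ⌊δ * (y * d.s1 - x * d.T1) + (B * |d.s1| + A * |d.T1|)⌋, ?_, ?_⟩
  · rw [Finset.card_product]
    exact Nat.mul_le_mul (NH3_card _ _) (NH3_card _ _)
  · intro v hA hB
    rw [Finset.mem_product]
    constructor
    · apply NH3_mem
      have h1 : (v.1 : ℝ) - δ * (x * d.T2 - y * d.s2) =
          δ * ((d.sp v - x) * d.T2 - (d.T v - y) * d.s2) := by
        have h2 : (v.1 : ℝ) = δ * (d.sp v * d.T2 - d.T v * d.s2) := by
          have h3 : d.sp v * d.T2 - d.T v * d.s2 = (v.1 : ℝ) * δ := by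
            rw [hδ]
            simp only [LD.sp, LD.T]
            ring
          rw [h3, mul_comm (v.1 : ℝ), ← mul_assoc, hδ2, one_mul]
        rw [h2]
        ring
      rw [h1, abs_mul, hδa, one_mul]
      refine (abs_sub _ _).trans (add_le_add ?_ ?_)
      · rw [abs_mul]
        exact mul_le_mul_of_nonneg_right hA (abs_nonneg _)
      · rw [abs_mul]
        exact mul_le_mul_of_nonneg_right hB (abs_nonneg _)
    · apply NH3_mem
      have h1 : (v.2 : ℝ) - δ * (y * d.s1 - x * d.T1) =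
          δ * ((d.T v - y) * d.s1 - (d.sp v - x) * d.T1) := by
        have h2 : (v.2 : ℝ) = δ * (d.T v * d.s1 - d.sp v * d.T1) := by
          have h3 : d.T v * d.s1 - d.sp v * d.T1 = (v.2 : ℝ) * δ := by
            rw [hδ]
            simp only [LD.sp, LD.T]
            ring
          rw [h3, mul_comm (v.2 : ℝ), ← mul_assoc, hδ2, one_mul]
        rw [h2]
        ring
      rw [h1, abs_mul, hδa, one_mul]
      refine (abs_sub _ _).trans (add_le_add ?_ ?_)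
      · rw [abs_mul]
        exact mul_le_mul_of_nonneg_right hB (abs_nonneg _)
      · rw [abs_mul]
        exact mul_le_mul_of_nonneg_right hA (abs_nonneg _)

end Pool.Agent.Helper29.Rot
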