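import Pool.Agent.Helper29.RotLD

set_option autoImplicit false

open Set

namespace Pool.Agent.Helper29.Rot

theorem NH5_lb {α : Type} (S : Finset α) (f : α → ℝ) (h : ∀ x ∈ S, 0 < f x) :
    ∃ κ : ℝ, 0 < κ ∧ ∀ x ∈ S, κ ≤ f x := by
  classical
  induction S using Finset.induction_on with
  | empty => exact ⟨1, one_pos, by simp⟩
  | insert a s ha ih =>
    obtain ⟨κ, hκ, hk⟩ := ih (fun x hx => h x (Finset.mem_insert_of_mem hx))
    refine ⟨min κ (f a), lt_min hκ (h a (Finset.mem_insert_self a s)), ?_⟩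
    intro x hx
    rcases Finset.mem_insert.1 hx with rfl | hx
    · exact min_le_right _ _
    · exact (min_le_left _ _).trans (hk x hx)

theorem NH5_bad (d : LD) (W ν κ Ω c₀ B : ℝ) (m : ℤ × ℤ) (hκ : 0 < κ)
    (hc₀ : 0 < c₀) (hc : ∀ v : ℤ × ℤ, v ≠ 0 → c₀ ≤ |d.sp v| * |d.T v|)
    (hm : 2 * |W| + 1 < κ * |d.sp m|) (hB : B = 2 * |W| + Ω * (2 * d.ℓ) * |d.sp m| + 1)
    (hΩ : 0 ≤ Ω) (hν : ν = c₀ / (4 * B)) (i c : ℕ) (α : ℤ × ℤ)
    (hlo : κ ≤ |d.ρ i / d.ρ c - 1|) (hhi : |d.ρ i / d.ρ c - 1| ≤ Ω)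
    (j j' : ℤ) (hj : 0 ≤ j ∧ j ≤ 2 * d.ℓ) (hj' : 0 ≤ j' ∧ j' ≤ 2 * d.ℓ) (hjj : j ≠ j')
    (v v' : ℤ × ℤ)
    (h1 : |d.o i v - d.ρ i / d.ρ c * d.o c (α + j • m)| ≤ W)
    (h2 : |d.tau i v - d.tau c (α + j • m)| ≤ ν)
    (h1' : |d.o i v' - d.ρ i / d.ρ c * d.o c (α + j' • m)| ≤ W)
    (h2' : |d.tau i v' - d.tau c (α + j' • m)| ≤ ν) : False := by
  set r : ℝ := d.ρ i / d.ρ c with hr
  set u : ℤ × ℤ := v' - v - (j' - j) • m with hu
  have hBpos : 0 < B := by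
    rw [hB]
    have : 0 ≤ Ω * (2 * d.ℓ) * |d.sp m| := by positivity
    have h2 : 0 ≤ |W| := abs_nonneg _
    linarith
  have espu : d.sp u - (r - 1) * (((j' : ℝ) - j) * d.sp m) =
      (d.o i v' - r * d.o c (α + j' • m)) - (d.o i v - r * d.o c (α + j • m)) := by
    simp only [LD.o, LD.sp, hu, Prod.fst_sub, Prod.snd_sub, Prod.fst_add, Prod.snd_add,
      Prod.smul_fst, Prod.smul_snd, smul_eq_mul]
    push_cast
    ring
  have eTu : d.T u = (d.tau i v' - d.tau c (α + j' • m)) - (d.tau i v - d.tau c (α + j • m)) := by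
    simp only [LD.tau, LD.T, hu, Prod.fst_sub, Prod.snd_sub, Prod.fst_add, Prod.snd_add,
      Prod.smul_fst, Prod.smul_snd, smul_eq_mul]
    push_cast
    ring
  have hW : W ≤ |W| := le_abs_self W
  have hs : |d.sp u - (r - 1) * (((j' : ℝ) - j) * d.sp m)| ≤ 2 * |W| := by
    rw [espu]
    refine (abs_sub _ _).trans ?_
    linarith
  have hT : |d.T u| ≤ 2 * ν := by
    rw [eTu]
    refine (abs_sub _ _).trans ?_
    linarith
  have hjd : (1 : ℝ) ≤ |(j' : ℝ) - j| := by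
    have h : (1 : ℤ) ≤ |j' - j| := Int.one_le_abs (sub_ne_zero.2 (Ne.symm hjj))
    exact_mod_cast h
  have hju : |(j' : ℝ) - j| ≤ 2 * d.ℓ := by
    have h : |j' - j| ≤ 2 * (d.ℓ : ℤ) := by
      rw [abs_le]; constructor <;> omega
    exact_mod_cast h
  have habs : |(r - 1) * (((j' : ℝ) - j) * d.sp m)| = |r - 1| * (|(j' : ℝ) - j| * |d.sp m|) := by
    rw [abs_mul, abs_mul]
  have hlow : κ * |d.sp m| ≤ |(r - 1) * (((j' : ℝ) - j) * d.sp m)| := by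
    rw [habs]
    have h3 : |d.sp m| ≤ |(j' : ℝ) - j| * |d.sp m| := by
      have := mul_le_mul_of_nonneg_right hjd (abs_nonneg (d.sp m))
      linarith
    exact mul_le_mul hlo h3 (abs_nonneg _) (abs_nonneg _)
  have hupp : |(r - 1) * (((j' : ℝ) - j) * d.sp m)| ≤ Ω * (2 * d.ℓ) * |d.sp m| := by
    rw [habs]
    have h3 : |(j' : ℝ) - j| * |d.sp m| ≤ (2 * d.ℓ) * |d.sp m| :=
      mul_le_mul_of_nonneg_right hju (abs_nonneg _)
    have h4 := mul_le_mul hhi h3 (by positivity) hΩ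
    linarith
  have h5 : 1 < |d.sp u| := by
    have h6 := abs_sub_abs_le_abs_sub ((r - 1) * (((j' : ℝ) - j) * d.sp m)) (d.sp u)
    rw [abs_sub_comm] at h6
    linarith
  have h7 : |d.sp u| ≤ B := by
    have h6 := abs_sub_abs_le_abs_sub (d.sp u) ((r - 1) * (((j' : ℝ) - j) * d.sp m))
    rw [hB]
    linarith
  have hu0 : u ≠ 0 := by
    intro h0
    rw [h0] at h5
    simp [LD.sp] at h5
    linarith
  have h8 := hc u hu0
  have h9 : |d.sp u| * |d.T u| ≤ B * (2 * ν) :=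
    mul_le_mul h7 hT (abs_nonneg _) hBpos.le
  have h10 : B * (2 * ν) = c₀ / 2 := by
    rw [hν]
    field_simp
    ring
  linarith

theorem NH5_notGood (d : LD) (W ν : ℝ) (c : ℕ) (α : ℤ × ℤ) (h : ¬ d.Good W ν c α) :
    ∃ i, i < d.ℓ ∧ 0 < d.ρ i ∧ d.ρ i ≠ d.ρ c ∧ ∃ v : ℤ × ℤ,
      |d.o i v - d.ρ i / d.ρ c * d.o c α| ≤ W ∧ |d.tau i v - d.tau c α| ≤ ν := by
  unfold LD.Good at h
  push Not at h
  obtain ⟨i, hi, hρ, hne, v, h1, h2⟩ := h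
  exact ⟨i, hi, hρ, hne, v, h1, h2⟩

/-- TARGET -/
theorem NH5 (d : LD) (hd : d.Ok) (W : ℝ) :
    ∃ (m : ℤ × ℤ) (ν : ℝ), 0 < ν ∧ ∀ (c c' : ℕ) (α β : ℤ × ℤ), c < d.ℓ → c' < d.ℓ →
      0 < d.ρ c → 0 < d.ρ c' →
      ∃ j : ℤ, 0 ≤ j ∧ j ≤ 2 * d.ℓ ∧ d.Good W ν c (α + j • m) ∧ d.Good W ν c' (β + j • m) := by
  classical
  obtain ⟨c₀, hc₀, hc⟩ := hd.c0
  let S : Finset (ℕ × ℕ) := (Finset.range d.ℓ ×ˢ Finset.range d.ℓ).filter
    (fun p => 0 < d.ρ p.1 ∧ 0 < d.ρ p.2 ∧ d.ρ p.1 ≠ d.ρ p.2)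
  obtain ⟨κ, hκ, hlo⟩ := NH5_lb S (fun p => |d.ρ p.1 / d.ρ p.2 - 1|) (by
    intro p hp
    have hp := (Finset.mem_filter.1 hp).2
    refine abs_pos.2 ?_
    intro h0
    have h1 : d.ρ p.1 / d.ρ p.2 = 1 := by linarith
    rw [div_eq_one_iff_eq hp.2.1.ne'] at h1
    exact hp.2.2 h1)
  have hhi : ∀ p ∈ S, |d.ρ p.1 / d.ρ p.2 - 1| ≤ ∑ q ∈ S, |d.ρ q.1 / d.ρ q.2 - 1| := by
    intro p hp
    exact Finset.single_le_sum (f := fun q : ℕ × ℕ => |d.ρ q.1 / d.ρ q.2 - 1|)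
      (fun q _ => abs_nonneg _) hp
  set Ω : ℝ := ∑ q ∈ S, |d.ρ q.1 / d.ρ q.2 - 1| with hΩdef
  have hΩ : 0 ≤ Ω := Finset.sum_nonneg (fun q _ => abs_nonneg _)
  have hs1 : 0 < |d.s1| := by
    have h := hc (1, 0) (by simp)
    have e1 : d.sp (1, 0) = d.s1 := by simp [LD.sp]
    rw [e1] at h
    rcases (abs_nonneg d.s1).lt_or_eq with h1 | h1
    · exact h1
    · rw [← h1] at h
      simp at h
      linarith
  obtain ⟨k, hk⟩ := exists_nat_gt ((2 * |W| + 1) / (κ * |d.s1|))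
  have hm : 2 * |W| + 1 < κ * |d.sp ((k : ℤ), 0)| := by
    have e1 : d.sp ((k : ℤ), 0) = k * d.s1 := by simp [LD.sp]
    rw [e1, abs_mul, Nat.abs_cast]
    rw [div_lt_iff₀ (by positivity)] at hk
    linarith
  set m : ℤ × ℤ := ((k : ℤ), 0) with hmdef
  set B : ℝ := 2 * |W| + Ω * (2 * d.ℓ) * |d.sp m| + 1 with hB
  have hBpos : 0 < B := by
    have : 0 ≤ Ω * (2 * d.ℓ) * |d.sp m| := by positivity
    have h2 : 0 ≤ |W| := abs_nonneg _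
    rw [hB]
    linarith
  refine ⟨m, c₀ / (4 * B), by positivity, ?_⟩
  intro c c' α β hcl hcl' hρc hρc'
  by_contra hcon
  push Not at hcon
  -- choice of classes
  have hex : ∀ j : ℤ, j ∈ Finset.Icc (0 : ℤ) (2 * d.ℓ) → ∃ q : ℕ × Bool,
      q ∈ Finset.range d.ℓ ×ˢ (Finset.univ : Finset Bool) ∧
      ((q.2 = true ∧ 0 < d.ρ q.1 ∧ d.ρ q.1 ≠ d.ρ c ∧ ∃ v : ℤ × ℤ,
        |d.o q.1 v - d.ρ q.1 / d.ρ c * d.o c (α + j • m)| ≤ W ∧
        |d.tau q.1 v - d.tau c (α + j • m)| ≤ c₀ / (4 * B)) ∨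
       (q.2 = false ∧ 0 < d.ρ q.1 ∧ d.ρ q.1 ≠ d.ρ c' ∧ ∃ v : ℤ × ℤ,
        |d.o q.1 v - d.ρ q.1 / d.ρ c' * d.o c' (β + j • m)| ≤ W ∧
        |d.tau q.1 v - d.tau c' (β + j • m)| ≤ c₀ / (4 * B))) := by
    intro j hj
    rw [Finset.mem_Icc] at hj
    by_cases hg : d.Good W (c₀ / (4 * B)) c (α + j • m)
    · have hg' := hcon j hj.1 hj.2 hg
      obtain ⟨i, hi, hρ, hne, v, h1, h2⟩ := NH5_notGood d _ _ _ _ hg'
      exact ⟨(i, false), by simp [hi], Or.inr ⟨rfl, hρ, hne, v, h1, h2⟩⟩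
    · obtain ⟨i, hi, hρ, hne, v, h1, h2⟩ := NH5_notGood d _ _ _ _ hg
      exact ⟨(i, true), by simp [hi], Or.inl ⟨rfl, hρ, hne, v, h1, h2⟩⟩
  choose! F hF hF2 using hex
  have hcard : (Finset.range d.ℓ ×ˢ (Finset.univ : Finset Bool)).card <
      (Finset.Icc (0 : ℤ) (2 * d.ℓ)).card := by
    rw [Finset.card_product, Finset.card_range, Finset.card_univ, Fintype.card_bool,
      Int.card_Icc]
    omega
  obtain ⟨j, hj, j', hj', hjj, hFF⟩ := Finset.exists_ne_map_eq_of_card_lt_of_maps_to hcard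
    (f := F) (fun x hx => hF x hx)
  have hiℓ : (F j).1 < d.ℓ := by
    have := hF j hj
    rw [Finset.mem_product, Finset.mem_range] at this
    exact this.1
  have hj0 := Finset.mem_Icc.1 hj
  have hj0' := Finset.mem_Icc.1 hj'
  rcases hF2 j hj with ⟨hb, hρ, hne, v, h1, h2⟩ | ⟨hb, hρ, hne, v, h1, h2⟩
  · rcases hF2 j' hj' with ⟨hb', hρ', hne', v', h1', h2'⟩ | ⟨hb', hρ', hne', v', h1', h2'⟩
    · rw [← hFF] at h1' h2'
      have hmem : ((F j).1, c) ∈ S := by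
        refine Finset.mem_filter.2 ⟨?_, hρ, hρc, hne⟩
        simp [hiℓ, hcl]
      exact NH5_bad d W _ κ Ω c₀ B m hκ hc₀ hc hm rfl hΩ rfl (F j).1 c α
        (hlo _ hmem) (hhi _ hmem) j j' hj0 hj0' hjj v v' h1 h2 h1' h2'
    · rw [← hFF, hb] at hb'
      exact absurd hb' (by decide)
  · rcases hF2 j' hj' with ⟨hb', hρ', hne', v', h1', h2'⟩ | ⟨hb', hρ', hne', v', h1', h2'⟩
    · rw [← hFF, hb] at hb'
      exact absurd hb' (by decide)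
    · rw [← hFF] at h1' h2'
      have hmem : ((F j).1, c') ∈ S := by
        refine Finset.mem_filter.2 ⟨?_, hρ, hρc', hne⟩
        simp [hiℓ, hcl']
      exact NH5_bad d W _ κ Ω c₀ B m hκ hc₀ hc hm rfl hΩ rfl (F j).1 c' β
        (hlo _ hmem) (hhi _ hmem) j j' hj0 hj0' hjj v v' h1 h2 h1' h2'

end Pool.Agent.Helper29.Rot
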