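import Pool.Agent.Helper29.RotN2
import Pool.Agent.Helper29.RotN3
import Pool.Agent.Helper29.RotN5

set_option autoImplicit false

open Set

namespace Pool.Agent.Helper29.Rot

/-- TARGET -/
theorem pick (d : LD) (hd : d.Ok) (W : ℝ) (cM cm : ℕ) (hM : cM < d.ℓ) (hm : cm < d.ℓ)
    (hM' : 0 < d.ρ cM) (hm' : 0 < d.ρ cm) :
    ∃ ν : ℝ, 0 < ν ∧ ∀ (e A : ℝ) (ns : ℕ), 0 < e → ∃ μ α β : ℤ × ℤ, 0 < d.T μ ∧ d.T μ < e ∧
      (∀ i, i < d.ℓ → 0 < d.ρ i → ∀ c, (c = cM ∨ c = cm) →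
        ∃ μ' : ℤ × ℤ, |d.sp μ' - d.ρ i / d.ρ c * d.sp μ| ≤ e ∧ |d.T μ'| ≤ e) ∧
      A + ns * |d.sp μ| ≤ d.sp α ∧ d.sp β ≤ -(A + ns * |d.sp μ|) ∧
      d.tau cM α < d.tau cm β ∧ d.tau cm β < d.tau cM α + d.T μ ∧
      d.Good W ν cM α ∧ d.Good W ν cm β := by
  obtain ⟨m, ν, hν, h5⟩ := NH5 d hd W
  refine ⟨ν, hν, ?_⟩
  intro e A ns he
  obtain ⟨μ, hμ0, hμe, hμ'⟩ := NH1 d hd (2 * d.ℓ)
    (fun j => if j < d.ℓ then d.ρ j / d.ρ cM else d.ρ (j - d.ℓ) / d.ρ cm) e he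
  have hspadd : ∀ (v : ℤ × ℤ) (j : ℤ), d.sp (v + j • m) = d.sp v + j * d.sp m := by
    intro v j
    simp only [LD.sp, Prod.fst_add, Prod.snd_add, Prod.smul_fst, Prod.smul_snd, smul_eq_mul,
      Int.cast_add, Int.cast_mul]
    ring
  have hTadd : ∀ (v : ℤ × ℤ) (j : ℤ), d.T (v + j • m) = d.T v + j * d.T m := by
    intro v j
    simp only [LD.T, Prod.fst_add, Prod.snd_add, Prod.smul_fst, Prod.smul_snd, smul_eq_mul,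
      Int.cast_add, Int.cast_mul]
    ring
  obtain ⟨α₀, -, -, hα⟩ := (NH2 d hd 0 1 (A + ns * |d.sp μ| + 2 * d.ℓ * |d.sp m|) one_pos).1
  obtain ⟨β₀, hβ1, hβ2, hβ⟩ := (NH2 d hd (d.φ cM + d.T α₀ - d.φ cm)
    (d.φ cM + d.T α₀ - d.φ cm + d.T μ) (A + ns * |d.sp μ| + 2 * d.ℓ * |d.sp m|)
    (by linarith)).2
  obtain ⟨j, hj0, hj1, hg1, hg2⟩ := h5 cM cm α₀ β₀ hM hm hM' hm'
  have hjr0 : (0 : ℝ) ≤ (j : ℝ) := by exact_mod_cast hj0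
  have hjr1 : (j : ℝ) ≤ 2 * (d.ℓ : ℝ) := by exact_mod_cast hj1
  have hjm : |(j : ℝ) * d.sp m| ≤ 2 * d.ℓ * |d.sp m| := by
    rw [abs_mul, abs_of_nonneg hjr0]
    exact mul_le_mul_of_nonneg_right hjr1 (abs_nonneg _)
  have hjm' := abs_le.mp hjm
  refine ⟨μ, α₀ + j • m, β₀ + j • m, hμ0, hμe, ?_, ?_, ?_, ?_, ?_, hg1, hg2⟩
  · intro i hi hρi c hc
    rcases hc with rfl | rfl
    · obtain ⟨μ', h1, h2⟩ := hμ' i (by omega)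
      refine ⟨μ', ?_, h2⟩
      simpa [hi] using h1
    · obtain ⟨μ', h1, h2⟩ := hμ' (i + d.ℓ) (by omega)
      refine ⟨μ', ?_, h2⟩
      have : ¬ (i + d.ℓ < d.ℓ) := by omega
      simpa [this] using h1
  · rw [hspadd]; linarith [hjm'.1]
  · rw [hspadd]; linarith [hjm'.2]
  · simp only [LD.tau]; rw [hTadd, hTadd]; linarith
  · simp only [LD.tau]; rw [hTadd, hTadd]; linarith

end Pool.Agent.Helper29.Rot
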