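import Mathlib

set_option autoImplicit false

open Set

namespace Pool.Agent.Helper29.Rot

/-- TARGET -/
theorem NH4 (n : ℕ) (F : Finset (ℝ × ℝ)) (s ε : ℝ) (hs : 0 < s) (hε : 0 < ε) (hF : F.card ≤ n)
    (hslope : ∀ p ∈ F, s ≤ p.1) (hsm : 4 * ε * n < s) :
    ∃ z : ℝ, 0 ≤ z ∧ z ≤ 1 ∧ ∀ p ∈ F, 2 * ε < |p.1 * z + p.2| := by
  classical
  by_contra hcon
  push Not at hcon
  rcases Nat.eq_zero_or_pos n with hn | hn
  · obtain ⟨p, hp, _⟩ := hcon 0 le_rfl zero_le_one
    have h1 : F = ∅ := Finset.card_eq_zero.mp (by omega)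
    rw [h1] at hp
    exact absurd hp (Finset.notMem_empty p)
  · have hn' : (0 : ℝ) < n := Nat.cast_pos.mpr hn
    have hch : ∀ j : ℕ, ∃ p : ℝ × ℝ, j < n + 1 → p ∈ F ∧ |p.1 * ((j : ℝ) / n) + p.2| ≤ 2 * ε := by
      intro j
      by_cases hj : j < n + 1
      · have h1 : (j : ℝ) ≤ n := by exact_mod_cast Nat.lt_succ_iff.mp hj
        obtain ⟨p, hp, hp'⟩ := hcon ((j : ℝ) / n) (by positivity) ((div_le_one hn').mpr h1)
        exact ⟨p, fun _ => ⟨hp, hp'⟩⟩
      · exact ⟨(0, 0), fun h => absurd h hj⟩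
    choose q hq using hch
    obtain ⟨i, hi, j, hj, hij, heq⟩ := Finset.exists_ne_map_eq_of_card_lt_of_maps_to
      (s := Finset.range (n + 1)) (t := F) (f := q) (by rw [Finset.card_range]; omega)
      (fun j hj => (hq j (Finset.mem_range.mp hj)).1)
    have hi' := hq i (Finset.mem_range.mp hi)
    have hj' := hq j (Finset.mem_range.mp hj)
    rw [← heq] at hj'
    have hs1 := hslope _ hi'.1
    have h1 : |(q i).1 * ((i : ℝ) / n) - (q i).1 * ((j : ℝ) / n)| ≤ 4 * ε := by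
      have h2 := hi'.2
      have h3 := hj'.2
      rw [abs_le] at h2 h3 ⊢
      constructor <;> linarith [h2.1, h2.2, h3.1, h3.2]
    have h4 : (q i).1 * ((i : ℝ) / n) - (q i).1 * ((j : ℝ) / n) =
        (q i).1 * ((i : ℝ) - j) / n := by ring
    have hij1 : (1 : ℝ) ≤ |(i : ℝ) - j| := by
      have h5 : (i : ℤ) - j ≠ 0 := by
        intro h
        apply hij
        have : (i : ℤ) = j := by linarith
        exact_mod_cast this
      have h6 : (1 : ℤ) ≤ |(i : ℤ) - j| := Int.one_le_abs h5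
      exact_mod_cast h6
    rw [h4, abs_div, abs_mul, abs_of_pos (lt_of_lt_of_le hs hs1), abs_of_pos hn',
      div_le_iff₀ hn'] at h1
    have h7 : s * 1 ≤ (q i).1 * |(i : ℝ) - j| :=
      mul_le_mul hs1 hij1 zero_le_one (hs.le.trans hs1)
    linarith

end Pool.Agent.Helper29.Rot
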