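import Pool.Agent.Helper29.RotN3
import Pool.Agent.Helper29.RotN4

set_option autoImplicit false

open Set

namespace Pool.Agent.Helper29.Rot

theorem pick_z_lb {β : Type} (P : Finset β) (f : β → ℝ) (h : ∀ p ∈ P, 0 < f p) :
    ∃ s : ℝ, 0 < s ∧ ∀ p ∈ P, s ≤ f p := by
  classical
  induction P using Finset.induction_on with
  | empty => exact ⟨1, one_pos, fun p hp => absurd hp (Finset.notMem_empty p)⟩
  | insert a P _ ih =>
    obtain ⟨s, hs, hsP⟩ := ih fun p hp => h p (Finset.mem_insert_of_mem hp)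
    refine ⟨min s (f a), lt_min hs (h a (Finset.mem_insert_self a P)), fun p hp => ?_⟩
    rcases Finset.mem_insert.mp hp with rfl | hp'
    · exact min_le_right _ _
    · exact (min_le_left _ _).trans (hsP p hp')

theorem pick_z_aux (ρi ρc ov z G g oc : ℝ) (hρi : 0 < ρi) (hρc : 0 < ρc) (hz0 : 0 ≤ z)
    (hz1 : z ≤ 1) (hg0 : 0 ≤ g) (hgG : g ≤ G)
    (h : |(ov + z + G) * (ρc / ρi) - oc - z - g| ≤ 1) :
    |ov - (ρi / ρc) * oc| ≤ (ρi / ρc) * (2 + |G|) + (1 + |G|) := by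
  have hG0 : 0 ≤ G := hg0.trans hgG
  rw [abs_of_nonneg hG0]
  have hk : 0 < ρi / ρc := div_pos hρi hρc
  have hkk : (ρi / ρc) * (ρc / ρi) = 1 := by field_simp
  set k := ρi / ρc with hkd
  set k' := ρc / ρi with hkd'
  obtain ⟨h1, h2⟩ := abs_le.mp h
  have e : ov - k * oc = k * ((ov + z + G) * k' - oc - z - g) - (z + G) + k * (z + g) := by
    have : k * ((ov + z + G) * k' - oc - z - g) = (k * k') * (ov + z + G) - k * (oc + z + g) := by ring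
    rw [this, hkk]
    ring
  have h3 : k * ((ov + z + G) * k' - oc - z - g) ≤ k * 1 := mul_le_mul_of_nonneg_left h2 hk.le
  have h4 : k * (-1) ≤ k * ((ov + z + G) * k' - oc - z - g) := mul_le_mul_of_nonneg_left h1 hk.le
  have h5 : 0 ≤ k * (z + g) := mul_nonneg hk.le (by linarith)
  have h6 : k * (z + g) ≤ k * (1 + G) := mul_le_mul_of_nonneg_left (by linarith) hk.le
  have h7 : 0 ≤ k * G := mul_nonneg hk.le hG0
  rw [e, abs_le]
  constructor <;> nlinarith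

/-- TARGET -/
theorem pick_z (d : LD) (hd : d.Ok) (cM cm : ℕ) (hM : cM < d.ℓ) (hm : cm < d.ℓ)
    (hM' : 0 < d.ρ cM) (hm' : 0 < d.ρ cm)
    (hmax : ∀ i, i < d.ℓ → 0 < d.ρ i → d.n i ≠ 0 → d.ρ i ≤ d.ρ cM)
    (hmin : ∀ i, i < d.ℓ → 0 < d.ρ i → d.n i ≠ 0 → d.ρ cm ≤ d.ρ i) (G T0 : ℝ) :
    ∃ ε : ℝ, 0 < ε ∧ ∀ (α β : ℤ × ℤ) (x : ℝ), ∃ z : ℝ, 0 ≤ z ∧ z ≤ 1 ∧
      ∀ g : ℝ, 0 ≤ g → g ≤ G →
        d.Free ε G x (x + T0) z g cM α ∨ d.Free ε G x (x + T0) z g cm β := by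
  classical
  obtain ⟨P, hP⟩ : ∃ P : Finset (ℕ × ℕ), P = (Finset.range d.ℓ ×ˢ Finset.range d.ℓ).filter
    (fun p => (0 < d.ρ p.1 ∧ d.n p.1 ≠ 0 ∧ d.ρ p.1 ≠ d.ρ cM) ∧
      (0 < d.ρ p.2 ∧ d.n p.2 ≠ 0 ∧ d.ρ p.2 ≠ d.ρ cm)) := ⟨_, rfl⟩
  have hPm : ∀ p : ℕ × ℕ, p ∈ P ↔ (p.1 < d.ℓ ∧ p.2 < d.ℓ) ∧ (0 < d.ρ p.1 ∧ d.n p.1 ≠ 0 ∧
      d.ρ p.1 ≠ d.ρ cM) ∧ (0 < d.ρ p.2 ∧ d.n p.2 ≠ 0 ∧ d.ρ p.2 ≠ d.ρ cm) := by
    intro p
    rw [hP, Finset.mem_filter, Finset.mem_product, Finset.mem_range, Finset.mem_range]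
  have hPcard : P.card ≤ d.ℓ * d.ℓ := by
    rw [hP]
    refine (Finset.card_filter_le _ _).trans ?_
    rw [Finset.card_product, Finset.card_range]
  obtain ⟨s, hs0, hsP⟩ := pick_z_lb P (fun p => d.ρ cM / d.ρ p.1 - d.ρ cm / d.ρ p.2) (by
    intro p hp
    obtain ⟨⟨h1, h2⟩, ⟨h3, h4, h5⟩, h6, h7, h8⟩ := (hPm p).mp hp
    have h9 : 1 < d.ρ cM / d.ρ p.1 := by
      rw [one_lt_div h3]
      exact lt_of_le_of_ne (hmax _ h1 h3 h4) h5
    have h10 : d.ρ cm / d.ρ p.2 < 1 := by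
      rw [div_lt_one h6]
      exact lt_of_le_of_ne (hmin _ h2 h6 h7) (Ne.symm h8)
    show 0 < d.ρ cM / d.ρ p.1 - d.ρ cm / d.ρ p.2
    linarith)
  obtain ⟨A, hA⟩ : ∃ A : ℝ, ∀ i, i < d.ℓ →
      (d.ρ i / d.ρ cM) * (2 + |G|) + (1 + |G|) ≤ A ∧ (d.ρ i / d.ρ cm) * (2 + |G|) + (1 + |G|) ≤ A := by
    refine ⟨(∑ i ∈ Finset.range d.ℓ, (d.ρ i / d.ρ cM + d.ρ i / d.ρ cm) * (2 + |G|)) + (1 + |G|),
      fun i hi => ?_⟩
    have hG0 := abs_nonneg G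
    have hnn : ∀ j, j < d.ℓ → 0 ≤ d.ρ j / d.ρ cM ∧ 0 ≤ d.ρ j / d.ρ cm := fun j hj =>
      ⟨div_nonneg (hd.hρ j hj) hM'.le, div_nonneg (hd.hρ j hj) hm'.le⟩
    have h1 : (d.ρ i / d.ρ cM + d.ρ i / d.ρ cm) * (2 + |G|) ≤
        ∑ i ∈ Finset.range d.ℓ, (d.ρ i / d.ρ cM + d.ρ i / d.ρ cm) * (2 + |G|) := by
      apply Finset.single_le_sum (f := fun i => (d.ρ i / d.ρ cM + d.ρ i / d.ρ cm) * (2 + |G|))
      · intro j hj
        obtain ⟨h2, h3⟩ := hnn j (Finset.mem_range.mp hj)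
        exact mul_nonneg (add_nonneg h2 h3) (by linarith)
      · exact Finset.mem_range.mpr hi
    obtain ⟨h2, h3⟩ := hnn i hi
    constructor
    · nlinarith [mul_nonneg h3 hG0]
    · nlinarith [mul_nonneg h2 hG0]
  obtain ⟨Q₀, hQ⟩ := NH3 d hd A |T0|
  obtain ⟨n, hn⟩ : ∃ n : ℕ, n = d.ℓ * d.ℓ * (Q₀ * Q₀) := ⟨_, rfl⟩
  refine ⟨min 1 (s / (8 * ((n : ℝ) + 1))), lt_min one_pos (by positivity), fun α β x => ?_⟩
  set ε := min 1 (s / (8 * ((n : ℝ) + 1))) with hεd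
  have hε0 : 0 < ε := lt_min one_pos (by positivity)
  have hε1 : ε ≤ 1 := min_le_left _ _
  have hε2 : ε ≤ s / (8 * ((n : ℝ) + 1)) := min_le_right _ _
  choose FM hFM1 hFM2 using fun i : ℕ => hQ ((d.ρ i / d.ρ cM) * d.o cM α - d.a i) (x - d.φ i)
  choose Fm hFm1 hFm2 using fun i : ℕ => hQ ((d.ρ i / d.ρ cm) * d.o cm β - d.a i) (x - d.φ i)
  obtain ⟨aff, haff⟩ : ∃ aff : ℕ × ℕ → (ℤ × ℤ) × (ℤ × ℤ) → ℝ × ℝ, ∀ p q, aff p q =
      (d.ρ cM / d.ρ p.1 - d.ρ cm / d.ρ p.2,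
        ((d.o p.1 q.1 + G) * (d.ρ cM / d.ρ p.1) - d.o cM α) -
          ((d.o p.2 q.2 + G) * (d.ρ cm / d.ρ p.2) - d.o cm β)) := ⟨_, fun _ _ => rfl⟩
  obtain ⟨z, hz0, hz1, hz⟩ := NH4 n (P.biUnion fun p => (FM p.1 ×ˢ Fm p.2).image (aff p)) s ε hs0 hε0
    (by
      rw [hn]
      refine (Finset.card_biUnion_le_card_mul P _ (Q₀ * Q₀) fun p _ => ?_).trans
        (Nat.mul_le_mul_right _ hPcard)
      refine Finset.card_image_le.trans ?_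
      rw [Finset.card_product]
      exact Nat.mul_le_mul (hFM1 _) (hFm1 _))
    (by
      intro q hq
      rw [Finset.mem_biUnion] at hq
      obtain ⟨p, hp, hq⟩ := hq
      rw [Finset.mem_image] at hq
      obtain ⟨r, _, rfl⟩ := hq
      rw [haff]
      exact hsP p hp)
    (by
      have hn0 : (0 : ℝ) ≤ n := Nat.cast_nonneg n
      have h1 : 4 * ε * n ≤ 4 * (s / (8 * ((n : ℝ) + 1))) * n := by
        have := mul_le_mul_of_nonneg_right hε2 hn0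
        nlinarith
      have h2 : 4 * (s / (8 * ((n : ℝ) + 1))) * n < s := by
        have h3 : 4 * (s / (8 * ((n : ℝ) + 1))) * n = s * (n / (2 * (n + 1))) := by
          field_simp
          ring
        have h4 : (n : ℝ) / (2 * (n + 1)) < 1 := by
          rw [div_lt_one (by positivity)]
          linarith
        rw [h3]
        nlinarith
      linarith)
  refine ⟨z, hz0, hz1, fun g hg0 hgG => ?_⟩
  by_contra hcon
  rw [not_or] at hcon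
  obtain ⟨hc1, hc2⟩ := hcon
  unfold LD.Free at hc1 hc2
  push Not at hc1 hc2
  obtain ⟨i, hi1, hi2, hi3, hi4, v, hv1, hv2, hv3⟩ := hc1
  obtain ⟨i', hi1', hi2', hi3', hi4', v', hv1', hv2', hv3'⟩ := hc2
  have htau : ∀ j w, x ≤ d.tau j w → d.tau j w ≤ x + T0 → |d.T w - (x - d.φ j)| ≤ |T0| := by
    intro j w h1 h2
    unfold LD.tau at h1 h2
    have h3 := le_abs_self T0
    rw [abs_le]
    constructor <;> linarith [abs_nonneg T0]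
  have hmemM : v ∈ FM i := by
    apply hFM2 i v _ (htau i v hv1 hv2)
    have h1 := pick_z_aux (d.ρ i) (d.ρ cM) (d.o i v) z G g (d.o cM α) hi2 hM' hz0 hz1 hg0 hgG
      (hv3.trans hε1)
    have h2 : d.sp v - (d.ρ i / d.ρ cM * d.o cM α - d.a i) = d.o i v - d.ρ i / d.ρ cM * d.o cM α := by
      unfold LD.o
      ring
    rw [h2]
    exact h1.trans (hA i hi1).1
  have hmemm : v' ∈ Fm i' := by
    apply hFm2 i' v' _ (htau i' v' hv1' hv2')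
    have h1 := pick_z_aux (d.ρ i') (d.ρ cm) (d.o i' v') z G g (d.o cm β) hi2' hm' hz0 hz1 hg0 hgG
      (hv3'.trans hε1)
    have h2 : d.sp v' - (d.ρ i' / d.ρ cm * d.o cm β - d.a i') =
        d.o i' v' - d.ρ i' / d.ρ cm * d.o cm β := by
      unfold LD.o
      ring
    rw [h2]
    exact h1.trans (hA i' hi1').2
  have hmem : aff (i, i') (v, v') ∈ P.biUnion fun p => (FM p.1 ×ˢ Fm p.2).image (aff p) := by
    rw [Finset.mem_biUnion]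
    refine ⟨(i, i'), (hPm _).mpr ⟨⟨hi1, hi1'⟩, ⟨hi2, hi3, hi4⟩, hi2', hi3', hi4'⟩, ?_⟩
    rw [Finset.mem_image]
    exact ⟨(v, v'), Finset.mem_product.mpr ⟨hmemM, hmemm⟩, rfl⟩
  have hfin := hz _ hmem
  rw [haff] at hfin
  have he : (d.ρ cM / d.ρ i - d.ρ cm / d.ρ i') * z +
      (((d.o i v + G) * (d.ρ cM / d.ρ i) - d.o cM α) -
          ((d.o i' v' + G) * (d.ρ cm / d.ρ i') - d.o cm β)) =
      ((d.o i v + z + G) * (d.ρ cM / d.ρ i) - d.o cM α - z - g) -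
      ((d.o i' v' + z + G) * (d.ρ cm / d.ρ i') - d.o cm β - z - g) := by ring
  have hfin' : 2 * ε < |((d.o i v + z + G) * (d.ρ cM / d.ρ i) - d.o cM α - z - g) -
      ((d.o i' v' + z + G) * (d.ρ cm / d.ρ i') - d.o cm β - z - g)| := by
    rw [← he]
    exact hfin
  have htri := abs_sub ((d.o i v + z + G) * (d.ρ cM / d.ρ i) - d.o cM α - z - g)
      ((d.o i' v' + z + G) * (d.ρ cm / d.ρ i') - d.o cm β - z - g)
  linarith

end Pool.Agent.Helper29.Rot
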