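import Pool.Agent.Helper29.RotN6
import Pool.Agent.Helper29.RotN7
import Pool.Agent.Helper29.RotN8

set_option autoImplicit false

open Set

namespace Pool.Agent.Helper29.Rot

theorem ax_sp_add (d : LD) (v w : ℤ × ℤ) : d.sp (v + w) = d.sp v + d.sp w := by
  simp only [LD.sp, Prod.fst_add, Prod.snd_add]
  push_cast
  ring

theorem ax_T_add (d : LD) (v w : ℤ × ℤ) : d.T (v + w) = d.T v + d.T w := by
  simp only [LD.T, Prod.fst_add, Prod.snd_add]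
  push_cast
  ring

theorem ax_sp_sub (d : LD) (v w : ℤ × ℤ) : d.sp (v - w) = d.sp v - d.sp w := by
  simp only [LD.sp, Prod.fst_sub, Prod.snd_sub]
  push_cast
  ring

theorem ax_T_sub (d : LD) (v w : ℤ × ℤ) : d.T (v - w) = d.T v - d.T w := by
  simp only [LD.T, Prod.fst_sub, Prod.snd_sub]
  push_cast
  ring

theorem ax_sp_smul (d : LD) (k : ℕ) (v : ℤ × ℤ) : d.sp ((k : ℤ) • v) = k * d.sp v := by
  simp only [LD.sp, Prod.smul_fst, Prod.smul_snd, smul_eq_mul]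
  push_cast
  ring

theorem ax_T_smul (d : LD) (k : ℕ) (v : ℤ × ℤ) : d.T ((k : ℤ) • v) = k * d.T v := by
  simp only [LD.T, Prod.smul_fst, Prod.smul_snd, smul_eq_mul]
  push_cast
  ring

/-- some cluster of positive density is not balanced -/
theorem ax_exists (d : LD) (hd : d.Ok) : ∃ i, i < d.ℓ ∧ 0 < d.ρ i ∧ d.n i ≠ 0 := by
  classical
  by_contra hcon
  push Not at hcon
  apply hd.hne
  rw [← Finset.sum_fiberwise_of_maps_to (s := Finset.range d.ℓ)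
    (t := (Finset.range d.ℓ).image (fun k => (d.ρ k, d.a k, d.φ k)))
    (g := fun k => (d.ρ k, d.a k, d.φ k))
    (fun x hx => Finset.mem_image_of_mem _ hx)]
  apply Finset.sum_eq_zero
  intro y hy
  obtain ⟨i, hi, rfl⟩ := Finset.mem_image.1 hy
  rw [Finset.mem_range] at hi
  have h1 : (Finset.range d.ℓ).filter (fun k => (d.ρ k, d.a k, d.φ k) = (d.ρ i, d.a i, d.φ i)) =
      d.K i := by
    unfold LD.K
    ext k
    simp only [Finset.mem_filter, Prod.mk.injEq]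
  rw [h1]
  have h2 : ∑ k ∈ d.K i, (d.ε k : ℝ) * d.ρ k = (d.n i : ℝ) * d.ρ i := by
    unfold LD.n
    push_cast
    rw [Finset.sum_mul]
    apply Finset.sum_congr rfl
    intro k hk
    unfold LD.K at hk
    rw [(Finset.mem_filter.1 hk).2.1]
  rw [h2]
  rcases (hd.hρ i hi).lt_or_eq with h3 | h3
  · rw [hcon i hi h3]
    simp
  · rw [← h3, mul_zero]

/-- all parameters of the design -/
structure AP (d : LD) where
  cM : ℕ
  cm : ℕ
  ls : ℤ × ℤ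
  μ : ℤ × ℤ
  α : ℤ × ℤ
  β : ℤ × ℤ
  ns : ℕ
  R : ℝ
  r0 : ℝ
  W : ℝ
  ν1 : ℝ
  ν2 : ℝ
  r : ℝ
  ε : ℝ
  H : ℝ
  dg : ℝ
  w : ℝ
  z : ℝ
  e1 : ℝ
  Q0 : ℕ
  ok : d.Ok
  hM : cM < d.ℓ ∧ 0 < d.ρ cM ∧ d.n cM ≠ 0
  hm : cm < d.ℓ ∧ 0 < d.ρ cm ∧ d.n cm ≠ 0
  hmax : ∀ i, i < d.ℓ → 0 < d.ρ i → d.n i ≠ 0 → d.ρ i ≤ d.ρ cM
  hmin : ∀ i, i < d.ℓ → 0 < d.ρ i → d.n i ≠ 0 → d.ρ cm ≤ d.ρ i
  hls1 : 1 < d.T ls
  hls2 : d.T ls < 2
  hls3 : d.sp ls ≤ -1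
  hR1 : 1 ≤ R
  hR : ∀ i, i < d.ℓ → d.ρ i ≤ R
  hr0 : 0 < r0
  hr01 : r0 ≤ 1
  hr0' : ∀ i, i < d.ℓ → 0 < d.ρ i → r0 ≤ d.ρ i
  hW : W = 4 * R + (R / r0 + 1) * ((1 - d.sp ls) + 4) + 4
  hν2 : ∀ i c, i < d.ℓ → c < d.ℓ → ∀ v w : ℤ × ℤ,
      |d.o i v - d.o c w| ≤ W → |d.tau i v - d.tau c w| ≤ ν2 → d.tau i v = d.tau c w
  hr : ∀ i c, i < d.ℓ → c < d.ℓ → ∀ v w : ℤ × ℤ,
      d.tau i v = d.tau c w → |d.o i v - d.o c w| < r → d.o i v = d.o c w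
  hQ : ∀ x y : ℝ, ∃ F : Finset (ℤ × ℤ), F.card ≤ Q0 ∧
      ∀ v : ℤ × ℤ, |d.sp v - x| ≤ W → |d.T v - y| ≤ d.T ls + 6 → v ∈ F
  hH : 0 < H
  hH4 : H ≤ 1 / 4
  hHr : 2 * R * H + H < r
  hHε : (3 * R * H + 2 * H) * (R / r0) ≤ ε
  hns : 0 < ns
  hdg : 0 < dg
  hw : 0 < w
  hnG : ns * dg = 1 - d.sp ls
  hwH : w ≤ H
  hdH : (d.ℓ + 1) * dg ≤ H
  he1 : 0 < e1
  he2 : (ns + 5) * e1 ≤ ν1 / 8
  he3 : (ns + 5) * e1 ≤ ν2 / 8
  he4 : (ns + 5) * e1 ≤ H / 2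
  hμ : 0 < d.T μ
  hμe : d.T μ < e1
  hsμ : 2 * w * R + dg + 1 ≤ |d.sp μ|
  hμ' : ∀ i, i < d.ℓ → 0 < d.ρ i → ∀ c, (c = cM ∨ c = cm) →
        ∃ μ' : ℤ × ℤ, |d.sp μ' - d.ρ i / d.ρ c * d.sp μ| ≤ e1 ∧ |d.T μ'| ≤ e1
  hα : (|d.a cM| + |d.a cm| + (1 - d.sp ls) + 1 + w * R) + ns * |d.sp μ| ≤ d.sp α
  hβ : d.sp β ≤ -((|d.a cM| + |d.a cm| + (1 - d.sp ls) + 1 + w * R) + ns * |d.sp μ|)
  ht1 : d.tau cM α < d.tau cm β
  ht2 : d.tau cm β < d.tau cM α + d.T μ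
  gM : d.Good W ν1 cM α
  gm : d.Good W ν1 cm β
  hz : 0 ≤ z ∧ z ≤ 1
  hfree : ∀ g : ℝ, 0 ≤ g → g ≤ 1 - d.sp ls →
        d.Free ε (1 - d.sp ls) (d.tau cM α - 2) (d.tau cM α - 2 + (d.T ls + 4)) z g cM α ∨
        d.Free ε (1 - d.sp ls) (d.tau cM α - 2) (d.tau cM α - 2 + (d.T ls + 4)) z g cm β

namespace AP
variable {d : LD} (p : AP d)

/-- type of the site `k` -/
noncomputable def cl (k : ℕ) : ℕ :=
  open Classical in
  if k < p.ns then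
    (if d.Free p.ε (1 - d.sp p.ls) (d.tau p.cM p.α - 2) (d.tau p.cM p.α - 2 + (d.T p.ls + 4)) p.z
      (k * p.dg) p.cM p.α then p.cM else p.cm) else p.cM

/-- base label -/
noncomputable def bs (c : ℕ) : ℤ × ℤ := if c = p.cM then p.α else p.β

/-- site labels -/
noncomputable def al (k : ℕ) : ℤ × ℤ := p.bs (p.cl k) + (k : ℤ) • p.μ

noncomputable def γ : ℝ := min (d.T p.μ) p.H

theorem γ_pos : 0 < p.γ := lt_min p.hμ p.hH
theorem γ_le1 : p.γ ≤ d.T p.μ := min_le_left _ _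
theorem γ_le2 : p.γ ≤ p.H := min_le_right _ _

/-- the design -/
noncomputable def dd : DD where
  cM := p.cM
  cm := p.cm
  ls := p.ls
  Q0 := p.Q0
  ns := p.ns
  w := p.w
  dg := p.dg
  G := 1 - d.sp p.ls
  H := p.H
  μ := p.μ
  al := p.al
  cl := p.cl
  z := p.z
  Tst := d.tau p.cM p.α - d.T p.μ
  Ten := d.tau p.cM p.α + (p.ns + 1) * d.T p.μ
  γ := p.γ

theorem cl_or (k : ℕ) : p.cl k = p.cM ∨ p.cl k = p.cm := by
  unfold cl
  split_ifs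
  · exact Or.inl rfl
  · exact Or.inr rfl
  · exact Or.inl rfl

theorem c_lt {c : ℕ} (hc : c = p.cM ∨ c = p.cm) : c < d.ℓ := by
  rcases hc with h | h <;> rw [h]
  · exact p.hM.1
  · exact p.hm.1

theorem c_pos {c : ℕ} (hc : c = p.cM ∨ c = p.cm) : 0 < d.ρ c := by
  rcases hc with h | h <;> rw [h]
  · exact p.hM.2.1
  · exact p.hm.2.1

theorem bs_good {c : ℕ} (hc : c = p.cM ∨ c = p.cm) : d.Good p.W p.ν1 c (p.bs c) := by
  unfold bs
  by_cases h : c = p.cM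
  · rw [if_pos h, h]
    exact p.gM
  · rw [if_neg h, hc.resolve_left h]
    exact p.gm

theorem bs_tau {c : ℕ} (hc : c = p.cM ∨ c = p.cm) :
    d.tau p.cM p.α ≤ d.tau c (p.bs c) ∧ d.tau c (p.bs c) < d.tau p.cM p.α + d.T p.μ := by
  unfold bs
  by_cases h : c = p.cM
  · rw [if_pos h, h]
    exact ⟨le_rfl, by linarith [p.hμ]⟩
  · rw [if_neg h, hc.resolve_left h]
    exact ⟨p.ht1.le, p.ht2⟩

theorem kdg (k : ℕ) (hk : k < p.ns) : 0 ≤ (k : ℝ) * p.dg ∧ (k : ℝ) * p.dg ≤ 1 - d.sp p.ls := by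
  have h1 := p.hdg
  have h2 : (k : ℝ) ≤ p.ns := by exact_mod_cast hk.le
  refine ⟨by positivity, ?_⟩
  rw [← p.hnG]
  exact mul_le_mul_of_nonneg_right h2 h1.le

theorem cl_free (k : ℕ) (hk : k < p.ns) :
    d.Free p.ε (1 - d.sp p.ls) (d.tau p.cM p.α - 2) (d.tau p.cM p.α - 2 + (d.T p.ls + 4)) p.z
      (k * p.dg) (p.cl k) (p.bs (p.cl k)) := by
  by_cases h : d.Free p.ε (1 - d.sp p.ls) (d.tau p.cM p.α - 2)
      (d.tau p.cM p.α - 2 + (d.T p.ls + 4)) p.z (k * p.dg) p.cM p.α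
  · have h1 : p.cl k = p.cM := by
      unfold cl
      rw [if_pos hk, if_pos h]
    rw [h1]
    unfold bs
    rw [if_pos rfl]
    exact h
  · have h1 : p.cl k = p.cm := by
      unfold cl
      rw [if_pos hk, if_neg h]
    by_cases h2 : p.cm = p.cM
    · exfalso
      apply h
      intro i hi hρ hn hne
      exfalso
      apply hne
      apply le_antisymm (p.hmax i hi hρ hn)
      rw [← h2]
      exact p.hmin i hi hρ hn
    · rw [h1]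
      unfold bs
      rw [if_neg h2]
      exact (p.hfree _ (p.kdg k hk).1 (p.kdg k hk).2).resolve_left h

theorem o_al (k : ℕ) : d.o (p.cl k) (p.al k) = d.o (p.cl k) (p.bs (p.cl k)) + k * d.sp p.μ := by
  unfold LD.o al
  rw [ax_sp_add, ax_sp_smul]
  ring

theorem tau_al (k : ℕ) : d.tau (p.cl k) (p.al k) = d.tau (p.cl k) (p.bs (p.cl k)) + k * d.T p.μ := by
  unfold LD.tau al
  rw [ax_T_add, ax_T_smul]
  ring

theorem X_eq (k : ℕ) : p.dd.X d k =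
    (d.o (p.cl k) (p.bs (p.cl k)) + k * d.sp p.μ + p.z + k * p.dg) / d.ρ (p.cl k) := by
  have h := p.o_al k
  show (d.o (p.cl k) (p.al k) + p.z + k * p.dg) / d.ρ (p.cl k) = _
  rw [h]

theorem ti_eq (k : ℕ) : p.dd.ti d k = d.tau (p.cl k) (p.bs (p.cl k)) + k * d.T p.μ := p.tau_al k

end AP

theorem ax_est (ρi ρc u Y δ : ℝ) (hi : 0 < ρi) (hc : 0 < ρc) (h : |u / ρi - Y / ρc| ≤ δ) :
    |u - ρi / ρc * Y| ≤ ρi * δ ∧ |u * (ρc / ρi) - Y| ≤ ρc * δ := by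
  have e1 : u - ρi / ρc * Y = ρi * (u / ρi - Y / ρc) := by field_simp
  have e2 : u * (ρc / ρi) - Y = ρc * (u / ρi - Y / ρc) := by field_simp
  rw [e1, e2, abs_mul, abs_mul, abs_of_pos hi, abs_of_pos hc]
  exact ⟨mul_le_mul_of_nonneg_left h hi.le, mul_le_mul_of_nonneg_left h hc.le⟩

theorem ax_W (t1 b t3 m R Q G W : ℝ) (h1 : |t1| ≤ R) (h2 : |b| ≤ G + 2)
    (h3 : |t3| ≤ Q * (1 + G)) (h4 : |m| ≤ 1) (hQ : 1 ≤ Q) (hR : 1 ≤ R) (hG : 0 ≤ G)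
    (hW : W = 4 * R + (Q + 1) * (G + 4) + 4) : |t1 - b + t3 - m| ≤ W := by
  have e : (Q + 1) * (G + 4) = Q * (1 + G) + 3 * Q + G + 4 := by ring
  rw [hW, e]
  rw [abs_le] at h1 h2 h3 h4 ⊢
  constructor <;> linarith [h1.1, h1.2, h2.1, h2.2, h3.1, h3.2, h4.1, h4.2]

namespace AP
variable {d : LD} (p : AP d)

theorem Q1 : 1 ≤ p.R / p.r0 := by
  rw [le_div_iff₀ p.hr0]
  linarith [p.hR1, p.hr01]

theorem G0 : 0 ≤ 1 - d.sp p.ls := by linarith [p.hls3]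

theorem q_le {i c : ℕ} (hi : i < d.ℓ) (hc : c < d.ℓ) (hρc : 0 < d.ρ c) :
    d.ρ i / d.ρ c ≤ p.R / p.r0 :=
  div_le_div₀ (by linarith [p.hR1]) (p.hR i hi) p.hr0 (p.hr0' c hc hρc)

theorem δ_le : p.w + p.γ ≤ 2 * p.H := by linarith [p.hwH, p.γ_le2]

theorem ke (k : ℕ) (hk : k < p.ns) (m : ℝ) (hm : |m| ≤ p.e1) :
    |(k : ℝ) * m| ≤ p.ns * p.e1 := by
  rw [abs_mul, Nat.abs_cast]
  have h2 : (k : ℝ) ≤ p.ns := by exact_mod_cast hk.le
  exact mul_le_mul h2 hm (abs_nonneg _) (Nat.cast_nonneg _)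

theorem nse : p.ns * p.e1 ≤ p.H / 2 := by
  have := p.he4
  have := p.he1
  linarith

theorem key_sp (i k : ℕ) (v μ' : ℤ × ℤ) (b : ℝ) (hi : i < d.ℓ) (hρ : 0 < d.ρ i) (hk : k < p.ns)
    (hμ' : |d.sp μ' - d.ρ i / d.ρ (p.cl k) * d.sp p.μ| ≤ p.e1)
    (h4 : p.z - 1 ≤ b) (h5 : b ≤ p.z + (1 - d.sp p.ls) + 1)
    (h : |(d.o i v + b) / d.ρ i - p.dd.X d k| ≤ p.w + p.γ) :
    |d.o i (v - (k : ℤ) • μ') - d.ρ i / d.ρ (p.cl k) * d.o (p.cl k) (p.bs (p.cl k))| ≤ p.W := by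
  have hc := p.cl_or k
  have hcl := p.c_lt hc
  have hcp := p.c_pos hc
  rw [X_eq] at h
  obtain ⟨h1, _⟩ := ax_est _ _ _ _ _ hρ hcp h
  have hG := p.G0
  have hQ := p.Q1
  have hz := p.hz
  have hkd := p.kdg k hk
  obtain ⟨q, hq⟩ : ∃ q, q = d.ρ i / d.ρ (p.cl k) := ⟨_, rfl⟩
  have hq0 : 0 < q := by
    rw [hq]
    exact div_pos hρ hcp
  have hqQ : q ≤ p.R / p.r0 := by
    rw [hq]
    exact p.q_le hi hcl hcp
  rw [← hq] at h1 hμ' ⊢
  have e : d.o i (v - (k : ℤ) • μ') - q * d.o (p.cl k) (p.bs (p.cl k)) =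
      (d.o i v + b - q * (d.o (p.cl k) (p.bs (p.cl k)) + k * d.sp p.μ + p.z + k * p.dg)) - b +
        q * (p.z + k * p.dg) - k * (d.sp μ' - q * d.sp p.μ) := by
    unfold LD.o
    rw [ax_sp_sub, ax_sp_smul]
    ring
  rw [e]
  apply ax_W _ _ _ _ p.R (p.R / p.r0) (1 - d.sp p.ls) p.W _ _ _ _ hQ p.hR1 hG p.hW
  · refine h1.trans ?_
    have h6 := p.hR i hi
    have h7 := p.δ_le
    have h8 := p.hH4
    have h9 := p.hR1
    have h10 : p.w + p.γ ≤ 1 := by linarith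
    have h11 : 0 ≤ p.w + p.γ := by linarith [p.hw, p.γ_pos]
    nlinarith
  · rw [abs_le]
    constructor <;> linarith [hz.1, hz.2]
  · rw [abs_mul, abs_of_pos hq0, abs_of_nonneg (by linarith [hz.1, hkd.1])]
    exact mul_le_mul hqQ (by linarith [hz.2, hkd.2]) (by linarith [hz.1, hkd.1]) (by linarith)
  · refine (p.ke k hk _ hμ').trans ?_
    linarith [p.nse, p.hH4]

theorem time_bd (k : ℕ) (hk : k < p.ns) (τ t' : ℝ)
    (h1 : d.tau p.cM p.α - d.T p.μ - p.γ ≤ τ)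
    (h2 : τ ≤ d.tau p.cM p.α + (p.ns + 1) * d.T p.μ + p.γ) (ht' : |t'| ≤ p.e1) :
    |τ - k * t' - d.tau (p.cl k) (p.bs (p.cl k))| ≤ (2 * p.ns + 3) * p.e1 := by
  obtain ⟨h3, h4⟩ := p.bs_tau (p.cl_or k)
  have h5 := abs_le.1 (p.ke k hk _ ht')
  have h6 := p.γ_le1
  have h7 := p.hμe
  have h8 : (p.ns + 1) * d.T p.μ ≤ (p.ns + 1) * p.e1 :=
    mul_le_mul_of_nonneg_left h7.le (by positivity)
  have h9 : 0 ≤ (p.ns : ℝ) * p.e1 := mul_nonneg (Nat.cast_nonneg _) p.he1.le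
  have h10 := p.he1
  rw [abs_le]
  constructor
  · linarith [h5.2]
  · linarith [h5.1]

theorem hA (i : ℕ) (v : ℤ × ℤ) (k : ℕ) (b : ℝ) (hi : i < d.ℓ) (hρ : 0 < d.ρ i) (hk : k < p.ns)
    (h1 : d.tau p.cM p.α - d.T p.μ - p.γ ≤ d.tau i v)
    (h2 : d.tau i v ≤ d.tau p.cM p.α + (p.ns + 1) * d.T p.μ + p.γ)
    (h3 : ¬ (i ∈ d.K (p.cl k) ∧ v = p.al k))
    (h4 : p.z - 1 ≤ b) (h5 : b ≤ p.z + (1 - d.sp p.ls) + 1)
    (h6 : d.tau i v = p.dd.ti d k → |b - (p.z + k * p.dg)| ≤ (d.ℓ + 1) * p.dg) :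
    p.w + p.γ ≤ |(d.o i v + b) / d.ρ i - p.dd.X d k| := by
  by_contra hcon
  push Not at hcon
  have hc := p.cl_or k
  have hcl := p.c_lt hc
  have hcp := p.c_pos hc
  have he0 : 0 ≤ (p.ns : ℝ) * p.e1 := mul_nonneg (Nat.cast_nonneg _) p.he1.le
  have he10 := p.he1
  by_cases hne : d.ρ i = d.ρ (p.cl k)
  · -- equal densities
    have hq : d.ρ i / d.ρ (p.cl k) = 1 := by
      rw [hne]
      exact div_self hcp.ne'
    have hW := p.key_sp i k v p.μ b hi hρ hk (by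
      rw [hq, one_mul, sub_self, abs_zero]
      exact p.he1.le) h4 h5 hcon.le
    rw [hq, one_mul] at hW
    have hT := p.time_bd k hk _ (d.T p.μ) h1 h2 (by
      rw [abs_of_pos p.hμ]
      exact p.hμe.le)
    have e1 : d.tau i v - k * d.T p.μ = d.tau i (v - (k : ℤ) • p.μ) := by
      unfold LD.tau
      rw [ax_T_sub, ax_T_smul]
      ring
    rw [e1] at hT
    have hν : (2 * p.ns + 3) * p.e1 ≤ p.ν2 := by linarith [p.he3]
    have h7 := p.hν2 i (p.cl k) hi hcl _ _ hW (hT.trans hν)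
    have h8 : d.tau i v = d.tau (p.cl k) (p.al k) := by
      rw [p.tau_al]
      rw [← e1] at h7
      linarith
    have h9 := h6 h8
    have h10 : |d.o i v - d.o (p.cl k) (p.al k)| < p.r := by
      rw [X_eq] at hcon
      obtain ⟨h11, _⟩ := ax_est _ _ _ _ _ hρ hcp hcon.le
      rw [hq, one_mul] at h11
      have h12 : d.ρ i * (p.w + p.γ) ≤ 2 * p.R * p.H := by
        have h13 := p.hR i hi
        have h14 := p.δ_le
        have h15 : 0 ≤ p.w + p.γ := by linarith [p.hw, p.γ_pos]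
        have h16 : 0 ≤ p.R := by linarith [p.hR1]
        nlinarith
      have h13 := p.hdH
      have h14 := p.hHr
      have h15 := p.o_al k
      rw [abs_le] at h9 h11
      rw [h15, abs_lt]
      constructor <;> linarith [h9.1, h9.2, h11.1, h11.2]
    have h11 := p.hr i (p.cl k) hi hcl _ _ h8 h10
    have h12 := p.ok.norm i (p.cl k) hi hcl hρ hne (v - p.al k) (by
      rw [ax_sp_sub]
      unfold LD.o at h11
      linarith) (by
      rw [ax_T_sub]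
      unfold LD.tau at h8
      linarith)
    apply h3
    constructor
    · unfold LD.K
      rw [Finset.mem_filter, Finset.mem_range]
      exact ⟨hi, hne, h12.1, h12.2⟩
    · by_contra hv
      obtain ⟨c0, hc0, hc1⟩ := p.ok.c0
      have h13 := hc1 (v - p.al k) (sub_ne_zero.2 hv)
      have h14 : d.sp (v - p.al k) = 0 := by
        rw [ax_sp_sub]
        unfold LD.o at h11
        rw [h12.1] at h11
        linarith
      rw [h14, abs_zero, zero_mul] at h13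
      linarith
  · obtain ⟨μ', hμ1, hμ2⟩ := p.hμ' i hi hρ (p.cl k) hc
    have hW := p.key_sp i k v μ' b hi hρ hk hμ1 h4 h5 hcon.le
    have hg := p.bs_good hc i hi hρ hne _ hW
    have hT := p.time_bd k hk _ (d.T μ') h1 h2 hμ2
    have e1 : d.tau i v - k * d.T μ' = d.tau i (v - (k : ℤ) • μ') := by
      unfold LD.tau
      rw [ax_T_sub, ax_T_smul]
      ring
    rw [e1] at hT
    linarith [p.he2]

theorem hB (i : ℕ) (v : ℤ × ℤ) (k : ℕ) (b : ℝ) (hi : i < d.ℓ) (hρ : 0 < d.ρ i)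
    (hn : d.n i ≠ 0) (hk : k < p.ns) (hne : d.ρ i ≠ d.ρ (p.cl k))
    (h1 : d.tau p.cM p.α + (p.ns + 1) * d.T p.μ - p.γ ≤ d.tau i v)
    (h2 : d.tau i v ≤ d.tau p.cM p.α - d.T p.μ + d.T p.ls + p.γ)
    (h3 : |b - (p.z + (1 - d.sp p.ls))| ≤ p.H) :
    p.w + p.γ ≤ |(d.o i v + b) / d.ρ i - p.dd.X d k| := by
  by_contra hcon
  push Not at hcon
  have hc := p.cl_or k
  have hcl := p.c_lt hc
  have hcp := p.c_pos hc
  obtain ⟨μ', hμ1, hμ2⟩ := p.hμ' i hi hρ (p.cl k) hc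
  have hT := abs_le.1 (p.ke k hk _ hμ2)
  have hns := p.nse
  have hH4 := p.hH4
  have hγ1 := p.γ_le1
  have hγ2 := p.γ_le2
  have hμ := p.hμ
  have h0 : 0 ≤ (p.ns : ℝ) * d.T p.μ := mul_nonneg (Nat.cast_nonneg _) hμ.le
  have hls := p.hls1
  have e1 : d.tau i (v - (k : ℤ) • μ') = d.tau i v - k * d.T μ' := by
    unfold LD.tau
    rw [ax_T_sub, ax_T_smul]
    ring
  have hf := p.cl_free k hk i hi hρ hn hne (v - (k : ℤ) • μ') (by
    rw [e1]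
    linarith [hT.2]) (by
    rw [e1]
    linarith [hT.1])
  rw [X_eq] at hcon
  obtain ⟨_, h4⟩ := ax_est _ _ _ _ _ hρ hcp hcon.le
  obtain ⟨q, hq⟩ : ∃ q, q = d.ρ i / d.ρ (p.cl k) := ⟨_, rfl⟩
  obtain ⟨q', hq'⟩ : ∃ q', q' = d.ρ (p.cl k) / d.ρ i := ⟨_, rfl⟩
  have hqq : q' * q = 1 := by
    rw [hq, hq']
    field_simp
  have hq0 : 0 < q' := by
    rw [hq']
    exact div_pos hcp hρ
  have hqQ : q' ≤ p.R / p.r0 := by
    rw [hq']
    exact p.q_le hcl hi hρ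
  rw [← hq] at hμ1
  rw [← hq'] at h4 hf
  have e : (d.o i (v - (k : ℤ) • μ') + p.z + (1 - d.sp p.ls)) * q' -
      d.o (p.cl k) (p.bs (p.cl k)) - p.z - k * p.dg =
      ((d.o i v + b) * q' - (d.o (p.cl k) (p.bs (p.cl k)) + k * d.sp p.μ + p.z + k * p.dg)) -
        (b - (p.z + (1 - d.sp p.ls))) * q' - q' * (k * (d.sp μ' - q * d.sp p.μ)) := by
    unfold LD.o
    rw [ax_sp_sub, ax_sp_smul]
    linear_combination (-(k * d.sp p.μ)) * hqq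
  rw [e] at hf
  have hQ := p.Q1
  have b1 : |(d.o i v + b) * q' - (d.o (p.cl k) (p.bs (p.cl k)) + k * d.sp p.μ + p.z + k * p.dg)| ≤
      2 * p.R * p.H := by
    refine h4.trans ?_
    have h13 := p.hR _ hcl
    have h14 := p.δ_le
    have h15 : 0 ≤ p.w + p.γ := by linarith [p.hw, p.γ_pos]
    have h16 : 0 ≤ p.R := by linarith [p.hR1]
    nlinarith
  have b2 : |(b - (p.z + (1 - d.sp p.ls))) * q'| ≤ p.H * (p.R / p.r0) := by
    rw [abs_mul, abs_of_pos hq0]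
    exact mul_le_mul h3 hqQ hq0.le p.hH.le
  have b3 : |q' * (k * (d.sp μ' - q * d.sp p.μ))| ≤ (p.R / p.r0) * (p.H / 2) := by
    rw [abs_mul, abs_of_pos hq0]
    exact mul_le_mul hqQ ((p.ke k hk _ hμ1).trans hns) (abs_nonneg _) (by linarith)
  have b4 := p.hHε
  have b5 : 3 * p.R * p.H + 2 * p.H * (p.R / p.r0) ≤ (3 * p.R * p.H + 2 * p.H) * (p.R / p.r0) := by
    have h17 : 0 ≤ 3 * p.R * p.H := by
      have h18 := p.hR1
      have h19 := p.hH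
      positivity
    nlinarith
  have b6 : 0 ≤ p.R * p.H := by
    have h18 := p.hR1
    have h19 := p.hH
    positivity
  have b7 : 0 ≤ p.H * (p.R / p.r0) := mul_nonneg p.hH.le (by linarith)
  rw [abs_le] at b1 b2 b3
  rw [lt_abs] at hf
  rcases hf with hf | hf <;> linarith [b1.1, b1.2, b2.1, b2.2, b3.1, b3.2]

end AP

namespace AP
variable {d : LD} (p : AP d)

theorem hC (i k : ℕ) (hi : i < d.ℓ) (hρ : 0 < d.ρ i) (hk : k < p.ns) :
    ∃ F : Finset (ℤ × ℤ), F.card ≤ p.Q0 ∧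
    ∀ (v : ℤ × ℤ) (b : ℝ), d.tau p.cM p.α - d.T p.μ - p.γ ≤ d.tau i v →
      d.tau i v ≤ d.tau p.cM p.α - d.T p.μ + d.T p.ls + p.γ →
      p.z - 1 ≤ b → b ≤ p.z + (1 - d.sp p.ls) + 1 →
      |(d.o i v + b) / d.ρ i - p.dd.X d k| ≤ p.w + p.γ → v ∈ F := by
  obtain ⟨F, hF1, hF2⟩ := p.hQ (d.ρ i * p.dd.X d k - d.a i)
    (d.tau p.cM p.α - d.T p.μ - d.φ i)
  refine ⟨F, hF1, ?_⟩
  intro v b h1 h2 h4 h5 h
  have hG := p.G0
  have hQ := p.Q1
  have hz := p.hz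
  have hR1 := p.hR1
  have hH4 := p.hH4
  have hγ2 := p.γ_le2
  have hls := p.hls1
  apply hF2
  · have h6 : |d.o i v + b - d.ρ i * p.dd.X d k| ≤ p.R := by
      have e : d.o i v + b - d.ρ i * p.dd.X d k =
          d.ρ i * ((d.o i v + b) / d.ρ i - p.dd.X d k) := by field_simp
      rw [e, abs_mul, abs_of_pos hρ]
      have h7 := p.hR i hi
      have h8 := p.δ_le
      have h9 : p.w + p.γ ≤ 1 := by linarith
      have h10 : |(d.o i v + b) / d.ρ i - p.dd.X d k| ≤ 1 := h.trans h9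
      have h11 := abs_nonneg ((d.o i v + b) / d.ρ i - p.dd.X d k)
      nlinarith
    rw [abs_le] at h6 ⊢
    have h7 : 0 ≤ (p.R / p.r0) * ((1 - d.sp p.ls) + 4) := by
      apply mul_nonneg <;> linarith
    rw [p.hW]
    unfold LD.o at h6
    constructor <;> nlinarith [h6.1, h6.2, hz.1, hz.2]
  · unfold LD.tau at h1 h2
    rw [abs_le]
    unfold LD.tau
    constructor <;> linarith

theorem hD (i c : ℕ) (hi : i < d.ℓ) (hρ : 0 < d.ρ i) (hc : d.ρ c = d.ρ i)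
    (hcc : c = p.cM ∨ c = p.cm) :
    ∃ F : Finset (ℤ × ℤ), F.card ≤ p.Q0 ∧ ∀ (k : ℕ) (v : ℤ × ℤ) (b : ℝ), k < p.ns →
      p.cl k = c → d.tau p.cM p.α - d.T p.μ - p.γ ≤ d.tau i v →
      d.tau i v ≤ d.tau p.cM p.α - d.T p.μ + d.T p.ls + p.γ →
      p.z - 1 ≤ b → b ≤ p.z + (1 - d.sp p.ls) + 1 →
      |(d.o i v + b) / d.ρ i - p.dd.X d k| ≤ p.w + p.γ → v - (k : ℤ) • p.μ ∈ F := by
  obtain ⟨F, hF1, hF2⟩ := p.hQ (d.o c (p.bs c) - d.a i)
    (d.tau p.cM p.α - d.T p.μ - d.φ i)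
  refine ⟨F, hF1, ?_⟩
  intro k v b hk hkc h1 h2 h4 h5 h
  have hH4 := p.hH4
  have hγ2 := p.γ_le2
  have hls := p.hls1
  have hns := p.nse
  have hμ := p.hμ
  apply hF2
  · have hq : d.ρ i / d.ρ (p.cl k) = 1 := by
      rw [hkc, hc]
      exact div_self hρ.ne'
    have hW := p.key_sp i k v p.μ b hi hρ hk (by
      rw [hq, one_mul, sub_self, abs_zero]
      exact p.he1.le) h4 h5 h
    rw [hq, one_mul, hkc] at hW
    have e : d.sp (v - (k : ℤ) • p.μ) - (d.o c (p.bs c) - d.a i) =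
        d.o i (v - (k : ℤ) • p.μ) - d.o c (p.bs c) := by
      unfold LD.o
      ring
    rw [e]
    exact hW
  · have h6 := abs_le.1 (p.ke k hk (d.T p.μ) (by
      rw [abs_of_pos p.hμ]
      exact p.hμe.le))
    have h7 : 0 ≤ (k : ℝ) * d.T p.μ := mul_nonneg (Nat.cast_nonneg _) hμ.le
    rw [ax_T_sub, ax_T_smul]
    rw [abs_le]
    unfold LD.tau at h1 h2 ⊢
    constructor <;> linarith [h6.1, h6.2]

theorem hal (j k : ℕ) (h : p.cl j = p.cl k) :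
    p.al k - p.al j = ((k : ℤ) - (j : ℤ)) • p.μ := by
  unfold al
  rw [h, sub_smul]
  abel

theorem X_M (k : ℕ) (hk : k < p.ns) (h : p.cl k = p.cM) : p.w ≤ p.dd.X d k := by
  rw [X_eq, h, le_div_iff₀ p.hM.2.1]
  have h1 : p.bs p.cM = p.α := by
    unfold bs
    rw [if_pos rfl]
  rw [h1]
  have h2 := p.hα
  have h3 := abs_le.1 (le_refl |d.a p.cM|)
  have h4 := abs_nonneg (d.a p.cm)
  have h5 := p.G0
  have h6 := p.hR _ p.hM.1
  have h7 : p.w * d.ρ p.cM ≤ p.w * p.R := mul_le_mul_of_nonneg_left h6 p.hw.le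
  have h8 := (p.kdg k hk).1
  have h9 := p.hz.1
  have h10 : -((p.ns : ℝ) * |d.sp p.μ|) ≤ k * d.sp p.μ := by
    have h11 : (k : ℝ) ≤ p.ns := by exact_mod_cast hk.le
    have h12 : (k : ℝ) * |d.sp p.μ| ≤ p.ns * |d.sp p.μ| :=
      mul_le_mul_of_nonneg_right h11 (abs_nonneg _)
    have h13 : -((k : ℝ) * |d.sp p.μ|) ≤ k * d.sp p.μ := by
      have h14 := neg_abs_le (d.sp p.μ)
      have h15 : (0 : ℝ) ≤ k := Nat.cast_nonneg _
      nlinarith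
    linarith
  unfold LD.o
  linarith [h3.1]

theorem X_m (k : ℕ) (hk : k < p.ns) (h : p.cl k ≠ p.cM) : p.dd.X d k ≤ -p.w := by
  have hcm := (p.cl_or k).resolve_left h
  have hne : p.cm ≠ p.cM := by
    rw [← hcm]
    exact h
  rw [X_eq, hcm, div_le_iff₀ p.hm.2.1]
  have h1 : p.bs p.cm = p.β := by
    unfold bs
    rw [if_neg hne]
  rw [h1]
  have h2 := p.hβ
  have h3 := le_abs_self (d.a p.cm)
  have h4 := abs_nonneg (d.a p.cM)
  have h5 := p.G0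
  have h6 := p.hR _ p.hm.1
  have h7 : p.w * d.ρ p.cm ≤ p.w * p.R := mul_le_mul_of_nonneg_left h6 p.hw.le
  have h8 := (p.kdg k hk).2
  have h9 := p.hz.2
  have h10 : k * d.sp p.μ ≤ (p.ns : ℝ) * |d.sp p.μ| := by
    have h11 : (k : ℝ) ≤ p.ns := by exact_mod_cast hk.le
    have h12 : (k : ℝ) * |d.sp p.μ| ≤ p.ns * |d.sp p.μ| :=
      mul_le_mul_of_nonneg_right h11 (abs_nonneg _)
    have h13 : (k : ℝ) * d.sp p.μ ≤ k * |d.sp p.μ| :=
      mul_le_mul_of_nonneg_left (le_abs_self _) (Nat.cast_nonneg _)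
    linarith
  unfold LD.o
  linarith

theorem hsep (j k : ℕ) (hj : j < p.ns) (hk : k < p.ns) (hjk : j ≠ k) :
    2 * p.w ≤ |p.dd.X d j - p.dd.X d k| := by
  by_cases h : p.cl j = p.cl k
  · have hcl := p.c_lt (p.cl_or k)
    have hcp := p.c_pos (p.cl_or k)
    have e : p.dd.X d j - p.dd.X d k = ((j : ℝ) - k) * (d.sp p.μ + p.dg) / d.ρ (p.cl k) := by
      rw [X_eq, X_eq, h]
      ring
    rw [e, abs_div, abs_of_pos hcp, le_div_iff₀ hcp, abs_mul]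
    have h1 : (1 : ℝ) ≤ |(j : ℝ) - k| := by
      have h2 : (j : ℤ) - k ≠ 0 := by omega
      have h3 := Int.one_le_abs h2
      exact_mod_cast h3
    have h2 := p.hsμ
    have h3 : |d.sp p.μ| ≤ |d.sp p.μ + p.dg| + p.dg := by
      have h4 := abs_sub_abs_le_abs_sub (d.sp p.μ) (-p.dg)
      rw [abs_neg, abs_of_pos p.hdg, sub_neg_eq_add] at h4
      linarith
    have h4 := p.hR _ hcl
    have h5 : p.w * d.ρ (p.cl k) ≤ p.w * p.R := mul_le_mul_of_nonneg_left h4 p.hw.le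
    have h6 : 2 * p.w * d.ρ (p.cl k) ≤ |d.sp p.μ + p.dg| := by linarith
    have h7 : 1 * |d.sp p.μ + p.dg| ≤ |(j : ℝ) - k| * |d.sp p.μ + p.dg| :=
      mul_le_mul_of_nonneg_right h1 (abs_nonneg _)
    linarith
  · by_cases hjM : p.cl j = p.cM
    · have hkM : p.cl k ≠ p.cM := fun h1 => h (hjM.trans h1.symm)
      have h1 := p.X_M j hj hjM
      have h2 := p.X_m k hk hkM
      rw [le_abs]
      left
      linarith
    · have hjm := (p.cl_or j).resolve_left hjM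
      have hkM : p.cl k = p.cM := by
        rcases p.cl_or k with h1 | h1
        · exact h1
        · exact absurd (hjm.trans h1.symm) h
      have h1 := p.X_m j hj hjM
      have h2 := p.X_M k hk hkM
      rw [le_abs]
      right
      linarith

theorem ti_lb (k : ℕ) : d.tau p.cM p.α + k * d.T p.μ ≤ p.dd.ti d k := by
  rw [ti_eq]
  linarith [(p.bs_tau (p.cl_or k)).1]

theorem ti_ub (k : ℕ) : p.dd.ti d k < d.tau p.cM p.α + (k + 1) * d.T p.μ := by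
  rw [ti_eq]
  linarith [(p.bs_tau (p.cl_or k)).2]

theorem des : p.dd.Des d := by
  have hμ := p.hμ
  have hγ1 := p.γ_le1
  have hns0 : (0 : ℝ) ≤ (p.ns : ℝ) * d.T p.μ := mul_nonneg (Nat.cast_nonneg _) hμ.le
  exact
  { hcl := p.cl_or
    hM := p.hM
    hm := p.hm
    hsp := by
      show d.sp p.ls < 0
      linarith [p.hls3]
    hT := by
      show 0 < d.T p.ls
      linarith [p.hls1]
    hG := rfl
    hns := p.hns
    hdg := p.hdg
    hnG := p.hnG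
    hw := p.hw
    hγ := p.γ_pos
    hz := p.hz
    hal := fun j k _ _ h => p.hal j k h
    hμ := p.hμ
    hsep := p.hsep
    hti := by
      intro j k hjk _
      have h1 := p.ti_ub j
      have h2 := p.ti_lb k
      have h3 : (j : ℝ) + 1 ≤ k := by exact_mod_cast hjk
      have h4 : ((j : ℝ) + 1) * d.T p.μ ≤ k * d.T p.μ := mul_le_mul_of_nonneg_right h3 hμ.le
      linarith
    hst := by
      intro k _
      have h2 := p.ti_lb k
      have h3 : (0 : ℝ) ≤ (k : ℝ) * d.T p.μ := mul_nonneg (Nat.cast_nonneg _) hμ.le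
      show d.tau p.cM p.α - d.T p.μ + p.γ ≤ p.dd.ti d k
      linarith
    hen := by
      intro k hk
      have h1 := p.ti_ub k
      have h3 : (k : ℝ) + 1 ≤ p.ns := by exact_mod_cast hk
      have h4 : ((k : ℝ) + 1) * d.T p.μ ≤ p.ns * d.T p.μ := mul_le_mul_of_nonneg_right h3 hμ.le
      show p.dd.ti d k + p.γ ≤ d.tau p.cM p.α + (p.ns + 1) * d.T p.μ
      linarith
    hend := by
      show d.tau p.cM p.α + (p.ns + 1) * d.T p.μ + p.γ ≤ d.tau p.cM p.α - d.T p.μ + d.T p.ls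
      have h1 := p.hμe
      have h2 := p.he4
      have h3 := p.hH4
      have h4 := p.hls1
      have h5 := p.he1
      have h6 : (p.ns : ℝ) * d.T p.μ ≤ p.ns * p.e1 :=
        mul_le_mul_of_nonneg_left h1.le (Nat.cast_nonneg _)
      linarith
    A := fun i v k b hi hρ hk h1 h2 h3 h4 h5 h6 => p.hA i v k b hi hρ hk h1 h2 h3 h4 h5 h6
    B := fun i v k b hi hρ hn hk hne h1 h2 h3 => p.hB i v k b hi hρ hn hk hne h1 h2 h3
    C := fun i k hi hρ hk => p.hC i k hi hρ hk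
    D := fun i c hi hρ hc hcc => p.hD i c hi hρ hc hcc }

end AP

/-- TARGET -/
theorem design (d : LD) (hd : d.Ok) :
    ∃ (ls : ℤ × ℤ) (Q0 : ℕ) (H : ℝ), 0 < H ∧ H ≤ 1 / 4 ∧ d.sp ls < 0 ∧ 0 < d.T ls ∧
      ∀ (ns : ℕ) (dg w : ℝ), 0 < ns → 0 < dg → 0 < w → ns * dg = 1 - d.sp ls → w ≤ H →
        (d.ℓ + 1) * dg ≤ H →
        ∃ e : DD, e.Des d ∧ e.ls = ls ∧ e.Q0 = Q0 ∧ e.H = H ∧ e.ns = ns ∧ e.dg = dg ∧ e.w = w := by
  classical
  obtain ⟨i0, hi0, hi0', hi0n⟩ := ax_exists d hd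
  obtain ⟨S, hS⟩ : ∃ S : Finset ℕ, S = (Finset.range d.ℓ).filter
    (fun i => 0 < d.ρ i ∧ d.n i ≠ 0) := ⟨_, rfl⟩
  have hSm : ∀ i, i ∈ S ↔ i < d.ℓ ∧ 0 < d.ρ i ∧ d.n i ≠ 0 := by
    intro i
    rw [hS, Finset.mem_filter, Finset.mem_range]
  have hSne : S.Nonempty := ⟨i0, (hSm i0).2 ⟨hi0, hi0', hi0n⟩⟩
  obtain ⟨cM, hcM, hmax⟩ := Finset.exists_max_image S d.ρ hSne
  obtain ⟨cm, hcm, hmin⟩ := Finset.exists_min_image S d.ρ hSne
  have hM := (hSm cM).1 hcM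
  have hm := (hSm cm).1 hcm
  have hmax' : ∀ i, i < d.ℓ → 0 < d.ρ i → d.n i ≠ 0 → d.ρ i ≤ d.ρ cM :=
    fun i h1 h2 h3 => hmax i ((hSm i).2 ⟨h1, h2, h3⟩)
  have hmin' : ∀ i, i < d.ℓ → 0 < d.ρ i → d.n i ≠ 0 → d.ρ cm ≤ d.ρ i :=
    fun i h1 h2 h3 => hmin i ((hSm i).2 ⟨h1, h2, h3⟩)
  obtain ⟨ls, hls1, hls2, hls3⟩ := (NH2 d hd 1 2 1 (by norm_num)).2
  obtain ⟨R, hR1, hR⟩ : ∃ R : ℝ, 1 ≤ R ∧ ∀ i, i < d.ℓ → d.ρ i ≤ R := by
    refine ⟨1 + ∑ i ∈ Finset.range d.ℓ, |d.ρ i|, ?_, ?_⟩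
    · have := Finset.sum_nonneg (fun i (_ : i ∈ Finset.range d.ℓ) => abs_nonneg (d.ρ i))
      linarith
    · intro i hi
      have h1 : |d.ρ i| ≤ ∑ i ∈ Finset.range d.ℓ, |d.ρ i| :=
        Finset.single_le_sum (f := fun i => |d.ρ i|) (fun i _ => abs_nonneg _)
          (Finset.mem_range.2 hi)
      have h2 := le_abs_self (d.ρ i)
      linarith
  obtain ⟨r0, hr0, hr01, hr0'⟩ : ∃ r0 : ℝ, 0 < r0 ∧ r0 ≤ 1 ∧
      ∀ i, i < d.ℓ → 0 < d.ρ i → r0 ≤ d.ρ i := by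
    obtain ⟨c, hc, hcmin⟩ := Finset.exists_min_image
      ((Finset.range d.ℓ).filter (fun i => 0 < d.ρ i)) d.ρ
      ⟨i0, Finset.mem_filter.2 ⟨Finset.mem_range.2 hi0, hi0'⟩⟩
    refine ⟨min 1 (d.ρ c), lt_min one_pos (Finset.mem_filter.1 hc).2, min_le_left _ _, ?_⟩
    intro i hi hρ
    exact (min_le_right _ _).trans
      (hcmin i (Finset.mem_filter.2 ⟨Finset.mem_range.2 hi, hρ⟩))
  obtain ⟨W, hW⟩ : ∃ W : ℝ, W = 4 * R + (R / r0 + 1) * ((1 - d.sp ls) + 4) + 4 := ⟨_, rfl⟩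
  obtain ⟨ν1, hν1, hpick⟩ := pick d hd W cM cm hM.1 hm.1 hM.2.1 hm.2.1
  obtain ⟨ν2, hν2, hN6⟩ := NH6 d hd W
  obtain ⟨r, hr, hN7⟩ := NH7 d hd
  obtain ⟨ε, hε, hpz⟩ := pick_z d hd cM cm hM.1 hm.1 hM.2.1 hm.2.1 hmax' hmin'
    (1 - d.sp ls) (d.T ls + 4)
  obtain ⟨Q0, hQ0⟩ := NH3 d hd W (d.T ls + 6)
  obtain ⟨c0, hc0, hc1⟩ := hd.c0
  have hQpos : 0 < R / r0 := div_pos (by linarith) hr0
  obtain ⟨H, hH, hH4, hHr, hHε⟩ : ∃ H : ℝ, 0 < H ∧ H ≤ 1 / 4 ∧ 2 * R * H + H < r ∧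
      (3 * R * H + 2 * H) * (R / r0) ≤ ε := by
    have h1 : 0 < 2 * (2 * R + 1) := by linarith
    have h2 : 0 < (3 * R + 2) * (R / r0) := mul_pos (by linarith) hQpos
    refine ⟨min (1 / 4) (min (r / (2 * (2 * R + 1))) (ε / ((3 * R + 2) * (R / r0)))),
      lt_min (by norm_num) (lt_min (div_pos hr h1) (div_pos hε h2)), min_le_left _ _, ?_, ?_⟩
    · have h3 : min (1 / 4) (min (r / (2 * (2 * R + 1))) (ε / ((3 * R + 2) * (R / r0)))) ≤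
          r / (2 * (2 * R + 1)) := (min_le_right _ _).trans (min_le_left _ _)
      rw [le_div_iff₀ h1] at h3
      nlinarith
    · have h3 : min (1 / 4) (min (r / (2 * (2 * R + 1))) (ε / ((3 * R + 2) * (R / r0)))) ≤
          ε / ((3 * R + 2) * (R / r0)) := (min_le_right _ _).trans (min_le_right _ _)
      rw [le_div_iff₀ h2] at h3
      linarith
  refine ⟨ls, Q0, H, hH, hH4, by linarith, by linarith, ?_⟩
  intro ns dg w hns hdg hw hnG hwH hdH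
  have hden : 0 < 2 * w * R + dg + 1 := by
    have : 0 < R := by linarith
    positivity
  obtain ⟨e1, he1, he2, he3, he4, he5⟩ : ∃ e1 : ℝ, 0 < e1 ∧ (ns + 5) * e1 ≤ ν1 / 8 ∧
      (ns + 5) * e1 ≤ ν2 / 8 ∧ (ns + 5) * e1 ≤ H / 2 ∧ (2 * w * R + dg + 1) * e1 ≤ c0 := by
    have h1 : (0 : ℝ) < ns + 5 := by positivity
    obtain ⟨M, hM⟩ : ∃ M : ℝ, M = min (min (ν1 / 8) (ν2 / 8)) (H / 2) := ⟨_, rfl⟩
    have hMpos : 0 < M := by
      rw [hM]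
      exact lt_min (lt_min (by linarith) (by linarith)) (by linarith)
    have hM1 : M ≤ ν1 / 8 := by
      rw [hM]
      exact (min_le_left _ _).trans (min_le_left _ _)
    have hM2 : M ≤ ν2 / 8 := by
      rw [hM]
      exact (min_le_left _ _).trans (min_le_right _ _)
    have hM3 : M ≤ H / 2 := by
      rw [hM]
      exact min_le_right _ _
    obtain ⟨e1, he⟩ : ∃ e1 : ℝ, e1 = min (M / (ns + 5)) (c0 / (2 * w * R + dg + 1)) := ⟨_, rfl⟩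
    have h2 : e1 ≤ M / (ns + 5) := by
      rw [he]
      exact min_le_left _ _
    have h3 : e1 ≤ c0 / (2 * w * R + dg + 1) := by
      rw [he]
      exact min_le_right _ _
    rw [le_div_iff₀ h1] at h2
    rw [le_div_iff₀ hden] at h3
    refine ⟨e1, ?_, by linarith, by linarith, by linarith, by linarith⟩
    rw [he]
    exact lt_min (div_pos hMpos h1) (div_pos hc0 hden)
  obtain ⟨μ, α, β, hμ, hμe, hμ', hα, hβ, ht1, ht2, gM, gm⟩ := hpick e1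
    (|d.a cM| + |d.a cm| + (1 - d.sp ls) + 1 + w * R) ns he1
  obtain ⟨z, hz0, hz1, hz⟩ := hpz α β (d.tau cM α - 2)
  have hsμ : 2 * w * R + dg + 1 ≤ |d.sp μ| := by
    have h1 : μ ≠ 0 := by
      rintro rfl
      simp [LD.T] at hμ
    have h2 := hc1 μ h1
    rw [abs_of_pos hμ] at h2
    have h3 : |d.sp μ| * d.T μ ≤ |d.sp μ| * e1 :=
      mul_le_mul_of_nonneg_left hμe.le (abs_nonneg _)
    have h4 : (2 * w * R + dg + 1) * e1 ≤ |d.sp μ| * e1 := by linarith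
    exact le_of_mul_le_mul_right h4 he1
  let p : AP d :=
    { cM := cM, cm := cm, ls := ls, μ := μ, α := α, β := β, ns := ns, R := R, r0 := r0, W := W,
      ν1 := ν1, ν2 := ν2, r := r, ε := ε, H := H, dg := dg, w := w, z := z, e1 := e1, Q0 := Q0,
      ok := hd, hM := hM, hm := hm, hmax := hmax', hmin := hmin', hls1 := hls1, hls2 := hls2,
      hls3 := hls3, hR1 := hR1, hR := hR, hr0 := hr0, hr01 := hr01, hr0' := hr0', hW := hW,
      hν2 := hN6, hr := hN7, hQ := hQ0, hH := hH, hH4 := hH4, hHr := hHr, hHε := hHε,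
      hns := hns, hdg := hdg, hw := hw, hnG := hnG, hwH := hwH, hdH := hdH, he1 := he1,
      he2 := he2, he3 := he3, he4 := he4, hμ := hμ, hμe := hμe, hsμ := hsμ, hμ' := hμ',
      hα := hα, hβ := hβ, ht1 := ht1, ht2 := ht2, gM := gM, gm := gm, hz := ⟨hz0, hz1⟩,
      hfree := hz }
  exact ⟨p.dd, p.des, rfl, rfl, rfl, rfl, rfl, rfl⟩


end Pool.Agent.Helper29.Rot
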