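import Pool.Agent.Helper29.RotM6
import Pool.Agent.Helper29.RotN1
import Pool.Agent.Helper29.RotN9
import Pool.Agent.Helper29.RotBump

set_option autoImplicit false

open CircleDeg1Lift Set

namespace Pool.Agent.Helper29.Rot

theorem exists_lb {α : Type*} (s : Finset α) (f : α → ℝ) :
    ∃ μ : ℝ, 0 < μ ∧ ∀ a ∈ s, f a ≠ 0 → μ ≤ |f a| := by
  classical
  induction s using Finset.induction_on with
  | empty => exact ⟨1, one_pos, by simp⟩
  | insert a s ha ih =>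
    obtain ⟨μ, hμ, h⟩ := ih
    by_cases hfa : f a = 0
    · refine ⟨μ, hμ, ?_⟩
      intro b hb hfb
      rcases Finset.mem_insert.1 hb with rfl | hb
      · exact absurd hfa hfb
      · exact h b hb hfb
    · refine ⟨min μ |f a|, lt_min hμ (abs_pos.2 hfa), ?_⟩
      intro b hb hfb
      rcases Finset.mem_insert.1 hb with rfl | hb
      · exact min_le_right _ _
      · exact (min_le_left _ _).trans (h b hb hfb)

theorem param (l Q κ rm r0 G H : ℝ) (hl : 0 ≤ l) (hQ : 0 ≤ Q) (hκ : 0 ≤ κ) (hrm : 0 ≤ rm)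
    (hr0 : 0 < r0) (hG : 0 < G) (hH : 0 < H) :
    ∃ (σ : ℝ) (ns : ℕ), 0 < σ ∧ σ ≤ 1 / 2 ∧ 0 < ns ∧
      ∀ dg w : ℝ, dg = G / ns → w = (l + 3) * (dg / r0) + (dg / r0) / σ →
        (3 * l ^ 3 * Q * σ * κ * G + l ^ 2 * κ * dg) +
          (2 * l * Q * κ * (2 * rm * w + 2 * (3 * l ^ 3 * Q * σ * κ * G + l ^ 2 * κ * dg) +
            2 * dg) + dg) + dg ≤ H ∧ w ≤ H ∧ (l + 1) * dg ≤ H := by
  obtain ⟨k1, hk1⟩ : ∃ k1, k1 = 3 * l ^ 3 * Q * κ * G := ⟨_, rfl⟩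
  obtain ⟨k2, hk2⟩ : ∃ k2, k2 = 2 * l * Q * κ := ⟨_, rfl⟩
  have hk1' : 0 ≤ k1 := by rw [hk1]; positivity
  have hk2' : 0 ≤ k2 := by rw [hk2]; positivity
  obtain ⟨A, hA⟩ : ∃ A, A = k1 * (1 + 2 * k2) + 1 := ⟨_, rfl⟩
  have hA0 : 0 < A := by rw [hA]; positivity
  obtain ⟨σ, hσ⟩ : ∃ σ, σ = min (1 / 2) (H / (4 * A)) := ⟨_, rfl⟩
  have hσ0 : 0 < σ := by rw [hσ]; exact lt_min (by norm_num) (by positivity)
  have hσ1 : σ ≤ 1 / 2 := by rw [hσ]; exact min_le_left _ _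
  have hσ2 : σ * (4 * A) ≤ H := by
    have : σ ≤ H / (4 * A) := by rw [hσ]; exact min_le_right _ _
    rwa [le_div_iff₀ (by positivity)] at this
  obtain ⟨q, hq⟩ : ∃ q, q = (l + 3) / r0 + 1 / (r0 * σ) := ⟨_, rfl⟩
  have hq0 : 0 < q := by rw [hq]; positivity
  obtain ⟨K, hK⟩ : ∃ K, K = l ^ 2 * κ * (1 + 2 * k2) + k2 * (2 * rm * q + 2) + 2 := ⟨_, rfl⟩
  have hK0 : 0 < K := by rw [hK]; positivity
  obtain ⟨T, hT⟩ : ∃ T, T = K + q + (l + 1) := ⟨_, rfl⟩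
  have hT0 : 0 < T := by rw [hT]; positivity
  obtain ⟨ns, hns⟩ := exists_nat_gt (2 * G * T / H)
  have hns0 : (0 : ℝ) < ns := lt_trans (by positivity) hns
  refine ⟨σ, ns, hσ0, hσ1, by exact_mod_cast hns0, ?_⟩
  intro dg w hdg hw
  have hdg0 : 0 < dg := by rw [hdg]; positivity
  have hdgT : dg * T ≤ H / 2 := by
    rw [div_lt_iff₀ hH] at hns
    have : dg * ns = G := by rw [hdg]; field_simp
    have h1 : 2 * (dg * ns) * T < ns * H := by rw [this]; exact hns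
    have h2 : ns * (2 * (dg * T)) < ns * H := by nlinarith
    have h3 := lt_of_mul_lt_mul_left h2 hns0.le
    linarith
  have hw' : w = q * dg := by rw [hw, hq]; field_simp
  have hwn : 0 ≤ w := by rw [hw']; positivity
  have e1 : (3 * l ^ 3 * Q * σ * κ * G + l ^ 2 * κ * dg) +
          (2 * l * Q * κ * (2 * rm * w + 2 * (3 * l ^ 3 * Q * σ * κ * G + l ^ 2 * κ * dg) +
            2 * dg) + dg) + dg = k1 * (1 + 2 * k2) * σ + K * dg := by
    rw [hK, hk1, hk2, hw']; ring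
  have e2 : k1 * (1 + 2 * k2) * σ ≤ H / 4 := by
    have : k1 * (1 + 2 * k2) ≤ A := by rw [hA]; linarith
    have := mul_le_mul_of_nonneg_right this hσ0.le
    linarith
  have e3 : dg * T = K * dg + w + (l + 1) * dg := by rw [hT, hw']; ring
  have e4 : 0 ≤ K * dg := by positivity
  have e5 : 0 ≤ (l + 1) * dg := by positivity
  refine ⟨?_, ?_, ?_⟩
  · rw [e1]; linarith
  · linarith
  · linarith

theorem abs_lin {x0 x1 x2 y0 y1 y2 a b δ' δ R : ℝ} (h0 : |x0 - y0| ≤ δ') (h1 : |x1 - y1| ≤ δ')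
    (h2 : |x2 - y2| ≤ δ') (ha : |a| ≤ R) (hb : |b| ≤ R) (hδ' : 0 ≤ δ')
    (hδ : δ' * (1 + 2 * R) ≤ δ) :
    |(x0 + a * x1 + b * x2) - (y0 + a * y1 + b * y2)| ≤ δ := by
  have e : (x0 + a * x1 + b * x2) - (y0 + a * y1 + b * y2) =
      (x0 - y0) + a * (x1 - y1) + b * (x2 - y2) := by ring
  rw [e]
  have t1 : |a * (x1 - y1)| ≤ R * δ' := by
    rw [abs_mul]; exact mul_le_mul ha h1 (abs_nonneg _) ((abs_nonneg _).trans ha)
  have t2 : |b * (x2 - y2)| ≤ R * δ' := by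
    rw [abs_mul]; exact mul_le_mul hb h2 (abs_nonneg _) ((abs_nonneg _).trans hb)
  calc |(x0 - y0) + a * (x1 - y1) + b * (x2 - y2)|
      ≤ |(x0 - y0) + a * (x1 - y1)| + |b * (x2 - y2)| := abs_add_le _ _
    _ ≤ |x0 - y0| + |a * (x1 - y1)| + |b * (x2 - y2)| := by
        have := abs_add_le (x0 - y0) (a * (x1 - y1)); linarith
    _ ≤ δ := by nlinarith

theorem abs_lin2 {x1 x2 y1 y2 a b δ' δ : ℝ} (h1 : |x1 - y1| ≤ δ')
    (h2 : |x2 - y2| ≤ δ') (hδ' : 0 ≤ δ')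
    (hδ : δ' * (|a| + |b|) ≤ δ) :
    |(a * x1 + b * x2) - (a * y1 + b * y2)| ≤ δ := by
  have e : (a * x1 + b * x2) - (a * y1 + b * y2) =
      a * (x1 - y1) + b * (x2 - y2) := by ring
  rw [e]
  have t1 : |a * (x1 - y1)| ≤ |a| * δ' := by
    rw [abs_mul]; exact mul_le_mul_of_nonneg_left h1 (abs_nonneg _)
  have t2 : |b * (x2 - y2)| ≤ |b| * δ' := by
    rw [abs_mul]; exact mul_le_mul_of_nonneg_left h2 (abs_nonneg _)
  have := abs_add_le (a * (x1 - y1)) (b * (x2 - y2))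
  nlinarith

/-- TARGET -/
theorem comb_NH (θ : ℝ) (hθ : Irrational θ) (c₀ : ℝ) (hc₀ : 0 < c₀)
    (hb : ∀ Q P : ℤ, 0 < Q → c₀ ≤ Q * |Q * θ - P|)
    (ℓ : ℕ) (ε : ℕ → ℤ) (ρ Y : ℕ → ℝ) (hℓ : 0 < ℓ)
    (hε : ∀ k, ε k = 0 ∨ ε k = 1 ∨ ε k = -1) (hρ : ∀ k, k < ℓ → 0 ≤ ρ k)
    (hne : ∑ k ∈ Finset.range ℓ, (ε k : ℝ) * ρ k ≠ 0) : ¬ NCS θ ℓ ε ρ Y := by
  intro hNCS
  obtain ⟨d, hd, rfl, rfl, rfl, hlim⟩ := limit_data θ hθ c₀ hc₀ hb ℓ ε ρ Y hℓ hε hρ hne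
  obtain ⟨ls, Q0, H, hH0, hH14, hsp, hTls, hdes⟩ := design d hd
  obtain ⟨G, hG⟩ : ∃ G, G = 1 - d.sp ls := ⟨_, rfl⟩
  have hG1 : 1 < G := by rw [hG]; linarith
  -- rmax and r0
  obtain ⟨rmax, hrmax⟩ : ∃ r, r = 1 + ∑ i ∈ Finset.range d.ℓ, d.ρ i := ⟨_, rfl⟩
  have hsum0 : 0 ≤ ∑ i ∈ Finset.range d.ℓ, d.ρ i :=
    Finset.sum_nonneg (fun i hi => hρ i (Finset.mem_range.1 hi))
  have hrmax1 : 1 ≤ rmax := by rw [hrmax]; linarith
  have hrmaxi : ∀ i, i < d.ℓ → d.ρ i ≤ rmax := by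
    intro i hi
    have := Finset.single_le_sum (f := d.ρ) (fun j hj => hρ j (Finset.mem_range.1 hj))
      (Finset.mem_range.2 hi)
    rw [hrmax]; linarith
  obtain ⟨r0, hr0, hr0'⟩ := exists_lb (Finset.range d.ℓ) d.ρ
  have hr0i : ∀ i, i < d.ℓ → 0 < d.ρ i → r0 ≤ d.ρ i := by
    intro i hi h
    have := hr0' i (Finset.mem_range.2 hi) h.ne'
    rwa [abs_of_pos h] at this
  obtain ⟨σ, ns, hσ, hσ1, hns, hpar⟩ := param (d.ℓ : ℝ) (Q0 : ℝ) (rmax / r0) rmax r0 G H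
    (by positivity) (by positivity) (by positivity) (by linarith) hr0 (by linarith) hH0
  have hnsR : (0 : ℝ) < ns := by exact_mod_cast hns
  obtain ⟨dg, hdg⟩ : ∃ dg : ℝ, dg = G / ns := ⟨_, rfl⟩
  obtain ⟨w, hw⟩ : ∃ w : ℝ, w = ((d.ℓ : ℝ) + 3) * (dg / r0) + (dg / r0) / σ := ⟨_, rfl⟩
  obtain ⟨hbud, hwH, hdgH⟩ := hpar dg w hdg hw
  have hdg0 : 0 < dg := by rw [hdg]; positivity
  have hw0 : 0 < w := by rw [hw]; positivity
  obtain ⟨e, he, els, eQ0, eH, ens, edg, ew⟩ := hdes ns dg w hns hdg0 hw0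
    (by rw [hdg, ← hG]; field_simp) hwH hdgH
  have eG : e.G = G := by rw [he.hG, els, hG]
  -- displacements
  obtain ⟨dmax, hdmax⟩ : ∃ x : ℝ, x = dg / r0 := ⟨_, rfl⟩
  have hdmax0 : 0 < dmax := by rw [hdmax]; positivity
  have hρn : ∀ k, k < e.ns → r0 ≤ d.ρ (e.cl k) ∧ (1 : ℝ) ≤ |(d.n (e.cl k) : ℝ)| := by
    intro k hk
    have hint : ∀ z : ℤ, z ≠ 0 → (1 : ℝ) ≤ |(z : ℝ)| := by
      intro z hz
      have := Int.one_le_abs hz
      exact_mod_cast this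
    rcases he.hcl k with h | h
    · rw [h]; exact ⟨hr0i _ he.hM.1 he.hM.2.1, hint _ he.hM.2.2⟩
    · rw [h]; exact ⟨hr0i _ he.hm.1 he.hm.2.1, hint _ he.hm.2.2⟩
  have hdd : ∀ k, k < e.ns → |dg / (d.ρ (e.cl k) * d.n (e.cl k))| ≤ dmax := by
    intro k hk
    obtain ⟨h1, h2⟩ := hρn k hk
    have h3 : 0 < d.ρ (e.cl k) := lt_of_lt_of_le hr0 h1
    rw [abs_div, abs_mul, abs_of_pos hdg0, abs_of_pos h3, hdmax]
    apply div_le_div_of_nonneg_left hdg0.le hr0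
    calc r0 = r0 * 1 := (mul_one _).symm
      _ ≤ d.ρ (e.cl k) * |(d.n (e.cl k) : ℝ)| := mul_le_mul h1 h2 zero_le_one h3.le
  obtain ⟨U, U1, U2, U3, U4⟩ := bump_iso e.ns (fun k => e.X d k)
    (fun k => if k < e.ns then dg / (d.ρ (e.cl k) * d.n (e.cl k)) else 0)
    (fun _ => ((d.ℓ : ℝ) + 3) * dmax)
    (fun k => ((d.ℓ : ℝ) + 3) * dmax +
      |if k < e.ns then dg / (d.ρ (e.cl k) * d.n (e.cl k)) else 0| / σ) σ dmax hσ hσ1
    (fun j _ => by positivity) (fun j _ => rfl) hdmax0.le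
    (fun j hj => by simp only [hj, if_true]; exact hdd j hj)
    (by
      intro j k hj hk hjk
      simp only [hj, hk, if_true]
      have h1 := he.hsep j k hj hk hjk
      have h2 : |dg / (d.ρ (e.cl j) * d.n (e.cl j))| / σ ≤ dmax / σ :=
        div_le_div_of_nonneg_right (hdd j hj) hσ.le
      have h3 : |dg / (d.ρ (e.cl k) * d.n (e.cl k))| / σ ≤ dmax / σ :=
        div_le_div_of_nonneg_right (hdd k hk) hσ.le
      have h4 : e.w = ((d.ℓ : ℝ) + 3) * dmax + dmax / σ := by rw [ew, hw, hdmax]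
      linarith)
  have U1' : ∀ Z, (∀ k, k < e.ns → e.w ≤ |Z - e.X d k|) → U Z = Z := by
    intro Z hZ
    apply U1
    intro j hj
    simp only [hj, if_true]
    have h1 := hZ j hj
    have h2 : |dg / (d.ρ (e.cl j) * d.n (e.cl j))| / σ ≤ dmax / σ :=
      div_le_div_of_nonneg_right (hdd j hj) hσ.le
    have h4 : e.w = ((d.ℓ : ℝ) + 3) * dmax + dmax / σ := by rw [ew, hw, hdmax]
    linarith
  obtain ⟨UL1, UL2⟩ := lip_of_disp U σ hσ.le hσ1 U3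
  -- L, B, C1
  obtain ⟨L, hL⟩ : ∃ x : ℝ, x = 1 + e.w + ∑ k ∈ Finset.range e.ns, |e.X d k| := ⟨_, rfl⟩
  have hXL : ∀ k, k < e.ns → |e.X d k| + e.w + 1 ≤ L := by
    intro k hk
    have := Finset.single_le_sum (f := fun k => |e.X d k|) (fun j _ => abs_nonneg _)
      (Finset.mem_range.2 hk)
    rw [hL]; linarith
  have hew0 : 0 < e.w := he.hw
  have hL0 : 0 < L := by
    have : 0 ≤ ∑ k ∈ Finset.range e.ns, |e.X d k| := Finset.sum_nonneg (fun _ _ => abs_nonneg _)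
    rw [hL]; linarith
  have hUL : ∀ X, L ≤ |X| → U X = X := by
    intro X hX
    apply U1'
    intro k hk
    have h1 := hXL k hk
    have h2 : |X| - |e.X d k| ≤ |X - e.X d k| := abs_sub_abs_le_abs_sub _ _
    linarith
  have hγ0 := he.hγ
  obtain ⟨C1, hC1⟩ : ∃ x : ℝ, x = rmax * (L + e.γ) + G + 5 := ⟨_, rfl⟩
  have hC1a : ∀ k, k < d.ℓ → d.ρ k * L + (G + 4) + 1 ≤ C1 := by
    intro k hk
    have h1 : d.ρ k * L ≤ rmax * L := mul_le_mul_of_nonneg_right (hrmaxi k hk) hL0.le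
    have h2 : 0 ≤ rmax * e.γ := by positivity
    rw [hC1]; nlinarith
  have hC1b : ∀ k i, k < e.ns → i < d.ℓ →
      d.ρ i * (|e.X d k| + e.w + e.γ) + e.G + 4 ≤ C1 := by
    intro k i hk hi
    have h1 := hXL k hk
    have h3 : 0 ≤ |e.X d k| + e.w + e.γ := by positivity
    have h2 : d.ρ i * (|e.X d k| + e.w + e.γ) ≤ rmax * (L + e.γ) :=
      mul_le_mul (hrmaxi i hi) (by linarith) h3 (by linarith)
    rw [hC1, eG]; linarith
  have hC10 : 0 < C1 := by rw [hC1]; positivity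
  -- D0
  obtain ⟨D0, hD0⟩ : ∃ x : ℝ, x = 3 + |d.s1| + |d.s2| + |d.T1| + |d.T2| +
    (∑ i ∈ Finset.range d.ℓ, |d.a i|) + (∑ i ∈ Finset.range d.ℓ, |d.φ i|) + |e.Tst| +
      d.T e.ls := ⟨_, rfl⟩
  have hTe : 0 < d.T e.ls := he.hT
  have hsa : 0 ≤ ∑ i ∈ Finset.range d.ℓ, |d.a i| := Finset.sum_nonneg (fun _ _ => abs_nonneg _)
  have hsφ : 0 ≤ ∑ i ∈ Finset.range d.ℓ, |d.φ i| := Finset.sum_nonneg (fun _ _ => abs_nonneg _)
  have ha1 := abs_nonneg d.s1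
  have ha2 := abs_nonneg d.s2
  have ha3 := abs_nonneg d.T1
  have ha4 := abs_nonneg d.T2
  have ha5 := abs_nonneg e.Tst
  have hai : ∀ i, i < d.ℓ → |d.a i| + 1 ≤ D0 := by
    intro i hi
    have := Finset.single_le_sum (f := fun k => |d.a k|) (fun j _ => abs_nonneg _)
      (Finset.mem_range.2 hi)
    rw [hD0]; linarith
  have hφi : ∀ i, i < d.ℓ → |d.φ i| + 1 ≤ D0 := by
    intro i hi
    have := Finset.single_le_sum (f := fun k => |d.φ k|) (fun j _ => abs_nonneg _)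
      (Finset.mem_range.2 hi)
    rw [hD0]; linarith
  have hD01 : 1 ≤ D0 := by rw [hD0]; linarith
  -- Rb
  obtain ⟨Rb, hRb⟩ : ∃ x : ℕ, x = ⌈D0 * (C1 + 3 * D0)⌉₊ +
    ∑ k ∈ Finset.range e.ns, ((e.al k).1.natAbs + (e.al k).2.natAbs) := ⟨_, rfl⟩
  have hRb1 : D0 * (C1 + 3 * D0) ≤ Rb := by
    have h1 := Nat.le_ceil (D0 * (C1 + 3 * D0))
    have h2 : (⌈D0 * (C1 + 3 * D0)⌉₊ : ℝ) ≤ (Rb : ℝ) := by
      rw [hRb]; push_cast
      have : (0 : ℝ) ≤ ∑ k ∈ Finset.range e.ns,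
        (((e.al k).1.natAbs : ℝ) + ((e.al k).2.natAbs : ℝ)) :=
        Finset.sum_nonneg (fun _ _ => by positivity)
      linarith
    exact h1.trans h2
  have hsite : ∀ k, k < e.ns → |((e.al k).1 : ℝ)| ≤ Rb ∧ |((e.al k).2 : ℝ)| ≤ Rb := by
    intro k hk
    have h1 : (e.al k).1.natAbs + (e.al k).2.natAbs ≤ Rb := by
      have := Finset.single_le_sum (f := fun k => (e.al k).1.natAbs + (e.al k).2.natAbs)
        (fun j _ => Nat.zero_le _) (Finset.mem_range.2 hk)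
      rw [hRb]; omega
    have h2 : ∀ z : ℤ, |(z : ℝ)| = (z.natAbs : ℝ) := by
      intro z; rw [Nat.cast_natAbs]; push_cast; rfl
    constructor
    · rw [h2]; exact_mod_cast (by omega : (e.al k).1.natAbs ≤ Rb)
    · rw [h2]; exact_mod_cast (by omega : (e.al k).2.natAbs ≤ Rb)
  -- η
  obtain ⟨R, hR⟩ : ∃ x : ℝ, x = d.ℓ * (2 * (Rb : ℝ) + 1) ^ 2 := ⟨_, rfl⟩
  have hℓR : (0 : ℝ) < d.ℓ := by exact_mod_cast hℓ
  have hR0 : 0 < R := by rw [hR]; positivity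
  obtain ⟨η, hη⟩ : ∃ x : ℝ, x = min dg (rmax * dmax) / (4 * R) := ⟨_, rfl⟩
  have hmin0 : 0 < min dg (rmax * dmax) := lt_min hdg0 (by positivity)
  have hη0 : 0 < η := by rw [hη]; positivity
  have hηR : 4 * (R * η) = min dg (rmax * dmax) := by rw [hη]; field_simp
  obtain ⟨S₀, hS₀, hNC⟩ := hNCS U L (G + 4) C1 η hL0 (by linarith) hη0 hUL UL1 UL2 hC1a
  -- δ
  obtain ⟨μ, hμ0, hμ⟩ := exists_lb
    ((Finset.range d.ℓ ×ˢ (Finset.Icc (-(Rb : ℤ)) Rb ×ˢ Finset.Icc (-(Rb : ℤ)) Rb)) ×ˢ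
      (Finset.range d.ℓ ×ˢ (Finset.Icc (-(Rb : ℤ)) Rb ×ˢ Finset.Icc (-(Rb : ℤ)) Rb)))
    (fun x => d.tau x.1.1 x.1.2 - d.tau x.2.1 x.2.2)
  obtain ⟨δ, hδdef⟩ : ∃ x : ℝ, x = min (min (min (e.γ / 10) (e.γ * r0)) (min (1 / 10) (dg / 4)))
    (min (min (rmax * dmax / 4) (-d.sp ls / 2)) (μ / 20)) := ⟨_, rfl⟩
  have hδ0 : 0 < δ := by
    rw [hδdef]
    refine lt_min (lt_min (lt_min ?_ ?_) (lt_min ?_ ?_)) (lt_min (lt_min ?_ ?_) ?_)
    · positivity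
    · positivity
    · norm_num
    · positivity
    · positivity
    · linarith
    · positivity
  have hδ1 : δ ≤ e.γ / 10 := by
    rw [hδdef]; exact (min_le_left _ _).trans ((min_le_left _ _).trans (min_le_left _ _))
  have hδ2 : δ ≤ e.γ * r0 := by
    rw [hδdef]; exact (min_le_left _ _).trans ((min_le_left _ _).trans (min_le_right _ _))
  have hδ3 : δ ≤ 1 / 10 := by
    rw [hδdef]; exact (min_le_left _ _).trans ((min_le_right _ _).trans (min_le_left _ _))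
  have hδ4 : δ ≤ dg / 4 := by
    rw [hδdef]; exact (min_le_left _ _).trans ((min_le_right _ _).trans (min_le_right _ _))
  have hδ5 : δ ≤ rmax * dmax / 4 := by
    rw [hδdef]; exact (min_le_right _ _).trans ((min_le_left _ _).trans (min_le_left _ _))
  have hδ6 : δ ≤ -d.sp ls / 2 := by
    rw [hδdef]; exact (min_le_right _ _).trans ((min_le_left _ _).trans (min_le_right _ _))
  have hδ7 : δ ≤ μ / 20 := by
    rw [hδdef]; exact (min_le_right _ _).trans (min_le_right _ _)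
  obtain ⟨W, hW⟩ : ∃ x : ℝ, x = 1 + 2 * (Rb : ℝ) + |(ls.1 : ℝ)| + |(ls.2 : ℝ)| := ⟨_, rfl⟩
  have hW1 : 1 ≤ W := by
    rw [hW]
    have h1 := abs_nonneg (ls.1 : ℝ)
    have h2 := abs_nonneg (ls.2 : ℝ)
    have h3 : (0:ℝ) ≤ Rb := by positivity
    linarith
  have hδ'0 : 0 < δ / W := by positivity
  have hδ'δ : δ / W * W = δ := by field_simp
  have hδ'1 : δ / W ≤ δ := div_le_self hδ0.le hW1
  obtain ⟨S, Q1, P1, Q2, P2, t, l, hBIG, hS1, hdet, hq1, hq2, hq3, hq4, hqi⟩ :=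
    hlim (δ / W) (max (max S₀ (1 / δ)) (4 * C1 + 4)) hδ'0
  have hSS₀ : S₀ ≤ S := ((le_max_left _ _).trans (le_max_left _ _)).trans hBIG
  have hSδ : 1 / δ ≤ S := ((le_max_right _ _).trans (le_max_left _ _)).trans hBIG
  have hSC : 4 * C1 + 4 ≤ S := (le_max_right _ _).trans hBIG
  have hS0 : 0 < S := by linarith
  have hδS : 1 ≤ δ * S := by
    rw [div_le_iff₀ hδ0] at hSδ; linarith
  have hRb0 : (0 : ℝ) ≤ Rb := by positivity
  have hl1 := abs_nonneg (ls.1 : ℝ)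
  have hl2 := abs_nonneg (ls.2 : ℝ)
  have hWa : δ / W * (1 + 2 * (Rb : ℝ)) ≤ δ := by
    calc δ / W * (1 + 2 * (Rb : ℝ)) ≤ δ / W * W :=
          mul_le_mul_of_nonneg_left (by rw [hW]; linarith) hδ'0.le
      _ = δ := hδ'δ
  have hWb : δ / W * (|(ls.1 : ℝ)| + |(ls.2 : ℝ)|) ≤ δ := by
    calc δ / W * (|(ls.1 : ℝ)| + |(ls.2 : ℝ)|) ≤ δ / W * W :=
          mul_le_mul_of_nonneg_left (by rw [hW]; linarith) hδ'0.le
      _ = δ := hδ'δ
  have habs : ∀ x y : ℝ, |x - y| ≤ δ / W → |x| ≤ |y| + 1 := by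
    intro x y hxy
    have h1 : |x| - |y| ≤ |x - y| := abs_sub_abs_le_abs_sub _ _
    linarith
  have hTT : e.Tst ≤ e.Ten := by
    have hns' : 0 < e.ns := he.hns
    have h1 := he.hst 0 hns'
    have h2 := he.hen 0 hns'
    linarith
  have hfl : ∀ x : ℝ, |(⌊x * S⌋ : ℝ) / S - x| ≤ δ := by
    intro x
    have h1 := Int.floor_le (x * S)
    have h2 := Int.lt_floor_add_one (x * S)
    have h3 : (⌊x * S⌋ : ℝ) / S - x = ((⌊x * S⌋ : ℝ) - x * S) / S := by field_simp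
    rw [h3, abs_div, abs_of_pos hS0, div_le_iff₀ hS0]
    have h4 : |(⌊x * S⌋ : ℝ) - x * S| ≤ 1 := by
      rw [abs_le]; constructor <;> linarith
    linarith
  have hflm : ⌊e.Tst * S⌋ ≤ ⌊e.Ten * S⌋ :=
    Int.floor_le_floor (mul_le_mul_of_nonneg_right hTT hS0.le)
  let c : ND :=
    { d := d, e := e, Y := Y, θ := θ, S := S, Q1 := Q1, P1 := P1, Q2 := Q2, P2 := P2, t := t,
      l := l, δ := δ, D0 := D0, Rb := Rb, C1 := C1, η := η, U := U, σ := σ, rmax := rmax,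
      r0 := r0, ts := ⌊e.Tst * S⌋, ne := (⌊e.Ten * S⌋ - ⌊e.Tst * S⌋).toNat }
  have hc : c.Ok := by
    refine
      { hd := hd, he := he, hδ := hδ0, hS := hS1, hδS := hδS, det := hdet, hD0 := hD01,
        b1 := ?_, b2 := ?_, b3 := ?_, b4 := ?_, b5 := ?_, b6 := ?_, b7 := ?_, hRb := hRb1,
        happ := ?_, hls1 := ?_, hls2 := ?_, hδls := ?_, hts := hfl e.Tst, hne := ?_,
        htsep := ?_, hγ := ?_, hγ0 := ?_, hδ1 := hδ3, hδ2 := ?_, hδ3 := ?_, hsite := hsite,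
        hC1 := hC1b, hSC := hSC, hη := hη0, hηR := ?_, hηR2 := ?_, hr0 := hr0, hr1 := hr0i,
        hr2 := hrmaxi, hσ := hσ, hσ1 := hσ1, hβ := ?_, U1 := U1', U2 := ?_, U3 := U3, U4 := ?_,
        hbud := ?_, hH := ?_ }
    · exact (habs _ _ hq1).trans (by show _ ≤ D0; rw [hD0]; linarith)
    · exact (habs _ _ hq3).trans (by show _ ≤ D0; rw [hD0]; linarith)
    · exact (habs _ _ hq2).trans (by show _ ≤ D0; rw [hD0]; linarith)
    · exact (habs _ _ hq4).trans (by show _ ≤ D0; rw [hD0]; linarith)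
    · intro i hi
      exact (habs _ _ (hqi i hi).1).trans (hai i hi)
    · intro i hi
      exact (habs _ _ (hqi i hi).2).trans (hφi i hi)
    · show |e.Tst| + d.T e.ls + 2 ≤ D0
      rw [hD0]; linarith
    · intro i hi v hv1 hv2
      constructor
      · have h := abs_lin (hqi i hi).1 hq1 hq3 hv1 hv2 hδ'0.le hWa
        have e1 : c.of i v = S * (t i * θ - l i - Y i) + v.1 * (S * (Q1 * θ - P1)) +
            v.2 * (S * (Q2 * θ - P2)) := by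
          simp only [ND.of, ND.tm, ND.lm, c]; push_cast; ring
        have e2 : c.d.o i v = d.a i + v.1 * d.s1 + v.2 * d.s2 := by
          simp only [LD.o, LD.sp, c]; ring
        rw [e1, e2]; exact h
      · have h := abs_lin (hqi i hi).2 hq2 hq4 hv1 hv2 hδ'0.le hWa
        have e1 : (c.tm i v : ℝ) / c.S = (t i : ℝ) / S + v.1 * ((Q1 : ℝ) / S) +
            v.2 * ((Q2 : ℝ) / S) := by
          simp only [ND.tm, c]; push_cast; field_simp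
        have e2 : c.d.tau i v = d.φ i + v.1 * d.T1 + v.2 * d.T2 := by
          simp only [LD.tau, LD.T, c]; ring
        rw [e1, e2]; exact h
    · have h := abs_lin2 (a := (ls.1 : ℝ)) (b := (ls.2 : ℝ)) hq2 hq4 hδ'0.le hWb
      have e1 : (c.N : ℝ) / c.S = ls.1 * ((Q1 : ℝ) / S) + ls.2 * ((Q2 : ℝ) / S) := by
        simp only [ND.N, c, els]; push_cast; field_simp
      have e2 : c.d.T c.e.ls = ls.1 * d.T1 + ls.2 * d.T2 := by
        simp only [LD.T, c, els]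
      rw [e1, e2]; exact h
    · have h := abs_lin2 (a := (ls.1 : ℝ)) (b := (ls.2 : ℝ)) hq1 hq3 hδ'0.le hWb
      have e1 : c.S * (c.N * c.θ - c.M) = ls.1 * (S * (Q1 * θ - P1)) +
          ls.2 * (S * (Q2 * θ - P2)) := by
        simp only [ND.N, ND.M, c, els]; push_cast; ring
      have e2 : c.d.sp c.e.ls = ls.1 * d.s1 + ls.2 * d.s2 := by
        simp only [LD.sp, c, els]
      rw [e1, e2]; exact h
    · show δ < - d.sp e.ls
      rw [els]; linarith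
    · have h := hfl e.Ten
      have e1 : (((⌊e.Tst * S⌋ : ℤ) : ℝ) + (((⌊e.Ten * S⌋ - ⌊e.Tst * S⌋).toNat : ℕ) : ℝ)) =
          ((⌊e.Ten * S⌋ : ℤ) : ℝ) := by
        have h1 : (((⌊e.Ten * S⌋ - ⌊e.Tst * S⌋).toNat : ℕ) : ℤ) = ⌊e.Ten * S⌋ - ⌊e.Tst * S⌋ :=
          Int.toNat_of_nonneg (by linarith)
        have h2 : (((⌊e.Ten * S⌋ - ⌊e.Tst * S⌋).toNat : ℕ) : ℝ) =
            ((⌊e.Ten * S⌋ - ⌊e.Tst * S⌋ : ℤ) : ℝ) := by
          exact_mod_cast congrArg (fun z : ℤ => (z : ℝ)) h1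
        rw [h2]; push_cast; ring
      show |(((⌊e.Tst * S⌋ : ℤ) : ℝ) + (((⌊e.Ten * S⌋ - ⌊e.Tst * S⌋).toNat : ℕ) : ℝ)) / S
        - e.Ten| ≤ δ
      rw [e1]; exact h
    · intro i j hi hj v v' h1 h2 h3 h4 h5
      by_contra hcon
      have hne' : d.tau i v - d.tau j v' ≠ 0 := sub_ne_zero.2 hcon
      have hmem : ∀ z : ℤ, |(z : ℝ)| ≤ Rb → z ∈ Finset.Icc (-(Rb : ℤ)) Rb := by
        intro z hz
        have h6 : |z| ≤ (Rb : ℤ) := by exact_mod_cast hz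
        rw [Finset.mem_Icc]; exact abs_le.1 h6
      have := hμ ((i, v), (j, v')) (by
        simp only [Finset.mem_product, Finset.mem_range]
        exact ⟨⟨hi, hmem _ h1, hmem _ h2⟩, hj, hmem _ h3, hmem _ h4⟩) hne'
      have h6 : |d.tau i v - d.tau j v'| ≤ 10 * δ := h5
      linarith
    · show 10 * δ ≤ e.γ
      linarith
    · show δ / r0 ≤ e.γ
      rw [div_le_iff₀ hr0]; exact hδ2
    · show 4 * δ ≤ e.dg
      rw [edg]; linarith
    · show 4 * δ ≤ rmax * (e.dg / r0)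
      rw [edg, ← hdmax]; linarith
    · show 4 * ((d.ℓ * (2 * (Rb : ℝ) + 1) ^ 2) * η) ≤ e.dg
      rw [← hR, hηR, edg]; exact min_le_left _ _
    · show 4 * ((d.ℓ * (2 * (Rb : ℝ) + 1) ^ 2) * η) ≤ rmax * (e.dg / r0)
      rw [← hR, hηR, edg, ← hdmax]; exact min_le_right _ _
    · show ((d.ℓ : ℝ) + 1) * e.dg ≤ 1
      rw [edg]; linarith
    · intro k hk Z hZ
      have h1 := U2 k hk Z (by
        have : c.f = ((d.ℓ : ℝ) + 3) * dmax := by
          show ((d.ℓ : ℝ) + 3) * (e.dg / r0) = _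
          rw [edg, hdmax]
        rw [← this]; exact hZ)
      have hk' : k < e.ns := hk
      simp only [hk', if_true] at h1
      show U Z = Z + e.dg / (d.ρ (e.cl k) * d.n (e.cl k))
      rw [edg]; exact h1
    · intro Z
      show |U Z - Z| ≤ e.dg / r0
      rw [edg, ← hdmax]; exact U4 Z
    · show (3 * (d.ℓ : ℝ) ^ 3 * e.Q0 * σ * (rmax / r0) * e.G +
          (d.ℓ : ℝ) ^ 2 * (rmax / r0) * e.dg) +
        (2 * (d.ℓ : ℝ) * e.Q0 * (rmax / r0) * (2 * rmax * e.w +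
          2 * (3 * (d.ℓ : ℝ) ^ 3 * e.Q0 * σ * (rmax / r0) * e.G +
          (d.ℓ : ℝ) ^ 2 * (rmax / r0) * e.dg) + 2 * e.dg) + e.dg) + e.dg ≤ e.H
      rw [edg, ew, eQ0, eG, eH]; exact hbud
    · show e.H ≤ 1 / 4
      rw [eH]; exact hH14
  refine c.contra hc (G + 4) (by show e.G + 3 ≤ G + 4; rw [eG]; linarith) ?_
  exact hNC S hSS₀

end Pool.Agent.Helper29.Rot
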