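import Pool.Agent.Helper29.RotA8
import Pool.Agent.Helper29.RotA9
import Pool.Agent.Helper29.RotH6
import Pool.Agent.Helper29.RotM7

set_option autoImplicit false

open CircleDeg1Lift Set

namespace Pool.Agent.Helper29.Rot

theorem comb (θ : ℝ) (hθ : Irrational θ) (ℓ : ℕ) (ε : ℕ → ℤ) (ρ Y : ℕ → ℝ) (hℓ : 0 < ℓ)
    (hε : ∀ k, ε k = 0 ∨ ε k = 1 ∨ ε k = -1) (hρ : ∀ k, k < ℓ → 0 ≤ ρ k)
    (hne : ∑ k ∈ Finset.range ℓ, (ε k : ℝ) * ρ k ≠ 0) : ¬ NCS θ ℓ ε ρ Y := by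
  by_cases h : ∀ e : ℝ, 0 < e → ∃ Q P : ℤ, 0 < Q ∧ Q * |Q * θ - P| < e
  · exact comb_H θ hθ h ℓ ε ρ Y hℓ hε hρ hne
  · push Not at h
    obtain ⟨c₀, hc₀, hb⟩ := h
    exact comb_NH θ hθ c₀ hc₀ hb ℓ ε ρ Y hℓ hε hρ hne

theorem tau_of_conj {f : G} {r : ℝ} (h : IsConj f (translate (Multiplicative.ofAdd r))) :
    translationNumber (f : CircleDeg1Lift) = r := by
  obtain ⟨c, hc⟩ := isConj_iff.1 h
  have h1 := translationNumber_conj_eq c (f : CircleDeg1Lift)
  have h2 : ((c * f * c⁻¹ : G) : CircleDeg1Lift) = (c : CircleDeg1Lift) * f * ((c⁻¹ : G) : CircleDeg1Lift) := by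
    simp only [Units.val_mul]
  rw [← h1, ← h2, hc, translationNumber_translate]

theorem unit_bound (f : G) (x : ℝ) : |f x - x| ≤ |translationNumber (f : CircleDeg1Lift)| + 1 := by
  have h1 := map_lt_add_translationNumber_add_one (f : CircleDeg1Lift) x
  have h2 := map_lt_add_translationNumber_add_one ((f⁻¹ : G) : CircleDeg1Lift) (f x)
  rw [translationNumber_units_inv, units_inv_apply_apply] at h2
  have a1 := le_abs_self (translationNumber (f : CircleDeg1Lift))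
  have a2 := neg_abs_le (translationNumber (f : CircleDeg1Lift))
  rw [abs_le]
  constructor <;> linarith

theorem word_bound (r s : ℝ) (w : FreeGroup (Fin 2)) : ∃ K : ℝ, ∀ ρ : FreeGroup (Fin 2) →* G,
    IsConj (ρ (FreeGroup.of 0)) (translate (Multiplicative.ofAdd r)) →
    IsConj (ρ (FreeGroup.of 1)) (translate (Multiplicative.ofAdd s)) →
    ∀ x : ℝ, |(ρ w : CircleDeg1Lift) x - x| ≤ K := by
  have hgen : ∀ i : Fin 2, ∀ ρ : FreeGroup (Fin 2) →* G,
      IsConj (ρ (FreeGroup.of 0)) (translate (Multiplicative.ofAdd r)) →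
      IsConj (ρ (FreeGroup.of 1)) (translate (Multiplicative.ofAdd s)) →
      ∀ x : ℝ, |(ρ (FreeGroup.of i) : CircleDeg1Lift) x - x| ≤ |r| + |s| + 1 := by
    intro i ρ h0 h1 x
    have b := unit_bound (ρ (FreeGroup.of i)) x
    have hr := abs_nonneg r
    have hs := abs_nonneg s
    fin_cases i
    · have e := tau_of_conj h0
      simp only [Fin.zero_eta, Fin.isValue] at b ⊢
      rw [e] at b
      linarith
    · have e := tau_of_conj h1
      simp only [Fin.mk_one, Fin.isValue] at b ⊢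
      rw [e] at b
      linarith
  induction w using FreeGroup.induction_on with
  | C1 =>
    refine ⟨0, fun ρ _ _ x => ?_⟩
    simp
  | of i =>
    exact ⟨|r| + |s| + 1, fun ρ h0 h1 x => hgen i ρ h0 h1 x⟩
  | inv_of i _ =>
    refine ⟨|r| + |s| + 1, fun ρ h0 h1 x => ?_⟩
    have h2 := hgen i ρ h0 h1 (((ρ (FreeGroup.of i))⁻¹ : G) x)
    rw [units_apply_inv_apply] at h2
    rw [map_inv, abs_sub_comm]
    exact h2
  | mul a b ha hb =>
    obtain ⟨K1, h1⟩ := ha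
    obtain ⟨K2, h2⟩ := hb
    refine ⟨K1 + K2, fun ρ c0 c1 x => ?_⟩
    rw [map_mul, Units.val_mul, mul_apply]
    have d1 := h1 ρ c0 c1 ((ρ b : CircleDeg1Lift) x)
    have d2 := h2 ρ c0 c1 x
    have e : (ρ a : CircleDeg1Lift) ((ρ b : CircleDeg1Lift) x) - x =
      ((ρ a : CircleDeg1Lift) ((ρ b : CircleDeg1Lift) x) - (ρ b : CircleDeg1Lift) x) +
        ((ρ b : CircleDeg1Lift) x - x) := by ring
    rw [e]
    exact (abs_add_le _ _).trans (add_le_add d1 d2)

/-- TARGET 1 -/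
theorem rotSet_nonempty (w : FreeGroup (Fin 2)) (r s : ℝ) : (rotSet w r s).Nonempty := by
  refine ⟨_, FreeGroup.lift (fun i : Fin 2 => if i = 0 then translate (Multiplicative.ofAdd r)
    else translate (Multiplicative.ofAdd s)), ?_, ?_, rfl⟩
  · rw [FreeGroup.lift_apply_of, if_pos rfl]
  · rw [FreeGroup.lift_apply_of, if_neg (by decide)]

/-- TARGET 2 -/
theorem rotSet_bddAbove (w : FreeGroup (Fin 2)) (r s : ℝ) : BddAbove (rotSet w r s) := by
  obtain ⟨K, hK⟩ := word_bound r s w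
  refine ⟨K, ?_⟩
  rintro _ ⟨ρ, h0, h1, rfl⟩
  refine translationNumber_le_of_le_add _ fun x => ?_
  have := (abs_le.1 (hK ρ h0 h1 x)).2
  linarith

/-- TARGET 3 -/
theorem main (w : FreeGroup (Fin 2)) (r s : ℚ) : ∃ q : ℚ, sSup (rotSet w r s) = q := by
  by_contra hcon
  have hirr : Irrational (sSup (rotSet w r s)) := by
    rintro ⟨q, hq⟩
    exact hcon ⟨q, hq.symm⟩
  have hlub := isLUB_csSup (rotSet_nonempty w r s) (rotSet_bddAbove w r s)
  obtain ⟨ℓ, ε, F, ρ, y0, hS, hε, hder, hne⟩ := sys_exists w r s _ hirr hlub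
  have hρ : ∀ k, k < ℓ → 0 ≤ ρ k := by
    intro k hk
    rw [← (hder k hk).deriv]
    exact (hS.mono k hk).deriv_nonneg
  exact comb _ hirr ℓ ε ρ _ hS.pos hε hρ hne (ncs_of_sys _ ℓ ε F hS hε y0 ρ hder)

end Pool.Agent.Helper29.Rot
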