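import Pool.Agent.Helper29.RotHD
import Pool.Agent.Helper29.RotAct

set_option autoImplicit false

open CircleDeg1Lift Set

namespace Pool.Agent.Helper29.Rot

/-- TARGET -/
theorem HD.decomp (c : HD) (hc : c.Ok) (i : ℕ) (t' l' : ℤ) :
    ∃ i1 i2 : ℤ, t' = c.t i + i1 * c.Q1 + i2 * c.Q2 ∧ l' = c.l i + i1 * c.P1 + i2 * c.P2 ∧
      c.S * (t' * c.θ - l' - c.Y i) = c.a i + c.h * i1 + c.xx * i2 := by
  set D : ℤ := c.Q1 * c.P2 - c.Q2 * c.P1 with hD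
  have hD2 : D * D = 1 := by
    rcases hc.det with h | h <;> rw [hD, h] <;> norm_num
  refine ⟨D * ((t' - c.t i) * c.P2 - (l' - c.l i) * c.Q2),
    D * (c.Q1 * (l' - c.l i) - c.P1 * (t' - c.t i)), ?_, ?_, ?_⟩
  · have : (D * ((t' - c.t i) * c.P2 - (l' - c.l i) * c.Q2)) * c.Q1 +
      (D * (c.Q1 * (l' - c.l i) - c.P1 * (t' - c.t i))) * c.Q2 = (D * D) * (t' - c.t i) := by
      rw [hD]; ring
    rw [hD2] at this
    linarith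
  · have : (D * ((t' - c.t i) * c.P2 - (l' - c.l i) * c.Q2)) * c.P1 +
      (D * (c.Q1 * (l' - c.l i) - c.P1 * (t' - c.t i))) * c.P2 = (D * D) * (l' - c.l i) := by
      rw [hD]; ring
    rw [hD2] at this
    linarith
  · have e1 : (D * ((t' - c.t i) * c.P2 - (l' - c.l i) * c.Q2)) * c.Q1 +
      (D * (c.Q1 * (l' - c.l i) - c.P1 * (t' - c.t i))) * c.Q2 = (t' - c.t i) := by
      have : (D * ((t' - c.t i) * c.P2 - (l' - c.l i) * c.Q2)) * c.Q1 +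
        (D * (c.Q1 * (l' - c.l i) - c.P1 * (t' - c.t i))) * c.Q2 = (D * D) * (t' - c.t i) := by
        rw [hD]; ring
      rw [this, hD2, one_mul]
    have e2 : (D * ((t' - c.t i) * c.P2 - (l' - c.l i) * c.Q2)) * c.P1 +
      (D * (c.Q1 * (l' - c.l i) - c.P1 * (t' - c.t i))) * c.P2 = (l' - c.l i) := by
      have : (D * ((t' - c.t i) * c.P2 - (l' - c.l i) * c.Q2)) * c.P1 +
        (D * (c.Q1 * (l' - c.l i) - c.P1 * (t' - c.t i))) * c.P2 = (D * D) * (l' - c.l i) := by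
        rw [hD]; ring
      rw [this, hD2, one_mul]
    generalize D * ((t' - c.t i) * c.P2 - (l' - c.l i) * c.Q2) = x at *
    generalize D * (c.Q1 * (l' - c.l i) - c.P1 * (t' - c.t i)) = y at *
    have f1 : (x : ℝ) * c.Q1 + y * c.Q2 = t' - c.t i := by exact_mod_cast e1
    have f2 : (x : ℝ) * c.P1 + y * c.P2 = l' - c.l i := by exact_mod_cast e2
    have f3 := hc.e1
    unfold HD.a HD.xx
    rw [← f3]
    linear_combination (-(c.S * c.θ)) * f1 + c.S * f2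

/-- TARGET -/
theorem HD.cand_range (c : HD) (hc : c.Ok) (k : ℕ) (hk : k < c.kf) (hcand : |c.oo k| ≤ c.C1) :
    ∃ i1 i2 : ℤ, c.tt k = c.t (k % c.ℓ) + i1 * c.Q1 + i2 * c.Q2 ∧
      c.oo k = c.a (k % c.ℓ) + c.h * i1 + c.xx * i2 ∧ |(i2 : ℝ)| ≤ c.I ∧ |(i1 : ℝ)| ≤ c.I1 := by
  have hi : k % c.ℓ < c.ℓ := Nat.mod_lt _ hc.hℓ
  obtain ⟨i1, i2, h1, h2, h3⟩ := HD.decomp c hc (k % c.ℓ) (c.tt k)
    (round ((c.tt k : ℝ) * c.θ - c.Y (k % c.ℓ)))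
  have hoo : c.oo k = c.a (k % c.ℓ) + c.h * i1 + c.xx * i2 := by
    rw [← h3]; unfold HD.oo; ring
  have hS : 1 ≤ c.S := hc.hS
  have hQ1 : (1 : ℝ) ≤ c.Q1 := by exact_mod_cast hc.hQ1
  have hPp : (0 : ℝ) ≤ c.Pp := Nat.cast_nonneg _
  have hns : (0 : ℝ) ≤ c.ns := Nat.cast_nonneg _
  have hI0 : (0 : ℝ) ≤ c.I := Nat.cast_nonneg _
  have hm0 : (1 : ℝ) ≤ c.m0 := by exact_mod_cast hc.hm0
  have hA0 := hc.hA0
  have hPn : 0 ≤ 2 * (c.Pp : ℝ) * c.ns := by positivity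
  have hC1 := hc.hC1
  have hBIG := hc.hBIG
  have hI1 : c.I1 = c.C1 + 2 * c.I + c.A0 + 1 := rfl
  -- |i1| bound
  have hh : |(c.h : ℝ)| = 1 := by
    rcases hc.hh with h | h <;> rw [h] <;> simp
  have hxx : |c.xx| ≤ 2 := by
    rw [abs_le]; constructor
    · exact hc.x1
    · linarith [hc.x2]
  have hi1 : |(i1 : ℝ)| ≤ c.C1 + c.A0 + 2 * |(i2 : ℝ)| := by
    have e : (c.h : ℝ) * i1 = c.oo k - c.a (k % c.ℓ) - c.xx * i2 := by rw [hoo]; ring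
    have e2 : |(c.h : ℝ) * i1| = |(i1 : ℝ)| := by rw [abs_mul, hh, one_mul]
    rw [← e2, e]
    calc |c.oo k - c.a (k % c.ℓ) - c.xx * i2| ≤ |c.oo k - c.a (k % c.ℓ)| + |c.xx * i2| := abs_sub _ _
      _ ≤ |c.oo k| + |c.a (k % c.ℓ)| + |c.xx| * |(i2 : ℝ)| := by
          rw [abs_mul]; gcongr; exact abs_sub _ _
      _ ≤ c.C1 + c.A0 + 2 * |(i2 : ℝ)| := by
          have := hc.ha _ hi
          gcongr
  -- the time
  have hts : |(c.ts : ℝ)| ≤ c.A0 * c.S + (c.m0 + c.Pp) * c.Q1 := by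
    have e : (c.ts : ℝ) = c.t c.c0 + (c.m0 - c.Pp) * c.Q1 := by
      unfold HD.ts; push_cast; ring
    rw [e]
    calc |(c.t c.c0 : ℝ) + (c.m0 - c.Pp) * c.Q1| ≤ |(c.t c.c0 : ℝ)| + |((c.m0 : ℝ) - c.Pp) * c.Q1| :=
          abs_add_le _ _
      _ ≤ c.A0 * c.S + (c.m0 + c.Pp) * c.Q1 := by
          have h1 := hc.ht c.c0 (hc.hK _ hc.hc0)
          have h2 : |((c.m0 : ℝ) - c.Pp) * c.Q1| ≤ (c.m0 + c.Pp) * c.Q1 := by
            rw [abs_mul, abs_of_pos (by linarith : (0 : ℝ) < c.Q1)]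
            apply mul_le_mul_of_nonneg_right _ (by linarith)
            rw [abs_le]; constructor <;> linarith
          linarith
  have hQ2pos : 0 < c.Q2 := by
    have : (0 : ℝ) < c.Q2 := by linarith [hc.q1]
    exact_mod_cast this
  have hkl : ((k / c.ℓ : ℕ) : ℝ) ≤ c.Q2 := by
    have h4 : k / c.ℓ < c.Q2.toNat := by
      rw [Nat.div_lt_iff_lt_mul hc.hℓ]; exact hk
    have h5 : ((k / c.ℓ : ℕ) : ℤ) ≤ c.Q2 := by
      have : ((c.Q2.toNat : ℕ) : ℤ) = c.Q2 := Int.toNat_of_nonneg hQ2pos.le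
      omega
    have h6 : (((k / c.ℓ : ℕ) : ℤ) : ℝ) ≤ (c.Q2 : ℝ) := Int.cast_le.2 h5
    rwa [Int.cast_natCast] at h6
  have htt : |(c.tt k : ℝ)| ≤ c.A0 * c.S + (c.m0 + c.Pp) * c.Q1 + 2 * c.S := by
    have e : (c.tt k : ℝ) = c.ts + ((k / c.ℓ : ℕ) : ℝ) := by
      unfold HD.tt; rw [Int.cast_add, Int.cast_natCast]
    rw [e]
    refine (abs_add_le _ _).trans ?_
    rw [abs_of_nonneg (Nat.cast_nonneg _ : (0 : ℝ) ≤ ((k / c.ℓ : ℕ) : ℝ))]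
    linarith [hc.q2]
  have hi2 : |(i2 : ℝ)| * c.Q2 ≤ c.A0 * c.S + (c.m0 + c.Pp) * c.Q1 + 2 * c.S + c.A0 * c.S
      + |(i1 : ℝ)| * c.Q1 := by
    have e : (i2 : ℝ) * c.Q2 = c.tt k - c.t (k % c.ℓ) - i1 * c.Q1 := by
      have : (c.tt k : ℝ) = c.t (k % c.ℓ) + i1 * c.Q1 + i2 * c.Q2 := by exact_mod_cast h1
      rw [this]; ring
    have e2 : |(i2 : ℝ)| * c.Q2 = |(i2 : ℝ) * c.Q2| := by
      rw [abs_mul, abs_of_pos (by exact_mod_cast hQ2pos : (0 : ℝ) < c.Q2)]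
    rw [e2, e]
    calc |(c.tt k : ℝ) - c.t (k % c.ℓ) - i1 * c.Q1|
        ≤ |(c.tt k : ℝ) - c.t (k % c.ℓ)| + |(i1 : ℝ) * c.Q1| := abs_sub _ _
      _ ≤ |(c.tt k : ℝ)| + |(c.t (k % c.ℓ) : ℝ)| + |(i1 : ℝ)| * c.Q1 := by
          rw [abs_mul, abs_of_pos (by linarith : (0 : ℝ) < c.Q1)]
          gcongr; exact abs_sub _ _
      _ ≤ _ := by
          have := hc.ht _ hi
          linarith
  have hb2 : 0 ≤ |(i2 : ℝ)| := abs_nonneg _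
  have hq1 := hc.q1
  have hI := hc.hI
  have hC0 : 0 ≤ c.C1 := by linarith
  -- consequences of hBIG
  have g1 : 16 * (c.Q1 : ℝ) ≤ c.S := by
    have : 2 * (c.Q1 : ℝ) ≤ (c.m0 + 2 * c.Pp * c.ns + c.Pp + c.I1 + 2) * c.Q1 := by
      apply mul_le_mul_of_nonneg_right _ (by linarith)
      rw [hI1]; linarith
    linarith
  have g2 : 8 * ((c.m0 + c.Pp) * (c.Q1 : ℝ) + (c.C1 + c.A0) * c.Q1) ≤ c.S := by
    have : (c.m0 + c.Pp + (c.C1 + c.A0)) * (c.Q1 : ℝ) ≤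
        (c.m0 + 2 * c.Pp * c.ns + c.Pp + c.I1 + 2) * c.Q1 := by
      apply mul_le_mul_of_nonneg_right _ (by linarith)
      rw [hI1]; linarith
    linarith
  have g3 : |(i1 : ℝ)| * c.Q1 ≤ (c.C1 + c.A0) * c.Q1 + 2 * |(i2 : ℝ)| * c.Q1 := by
    have := mul_le_mul_of_nonneg_right hi1 (by linarith : (0 : ℝ) ≤ c.Q1)
    linarith
  have g4 : 2 * |(i2 : ℝ)| * c.Q1 ≤ |(i2 : ℝ)| * (c.S / 8) := by
    have := mul_le_mul_of_nonneg_left g1 hb2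
    linarith
  have g5 : |(i2 : ℝ)| * (c.S / 2) ≤ |(i2 : ℝ)| * c.Q2 := mul_le_mul_of_nonneg_left hq1 hb2
  have g6 : |(i2 : ℝ)| * c.S ≤ (8 * c.A0 + 20) * c.S := by nlinarith
  have g7 : |(i2 : ℝ)| ≤ 8 * c.A0 + 20 := le_of_mul_le_mul_right g6 (by linarith)
  refine ⟨i1, i2, h1, hoo, g7.trans hI, ?_⟩
  rw [hI1]
  linarith

/-- TARGET -/
theorem HD.cnt_le (c : HD) (hc : c.Ok) (k : ℕ) (hk : k ≤ c.kf) : (c.cnt k : ℝ) ≤ c.R := by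
  classical
  have H : ∀ k' : ℕ, ∃ p : ℤ × ℤ, (k' < c.kf ∧ |c.oo k'| ≤ c.C1) →
      c.tt k' = c.t (k' % c.ℓ) + p.1 * c.Q1 + p.2 * c.Q2 ∧ |(p.2 : ℝ)| ≤ c.I ∧
        |(p.1 : ℝ)| ≤ c.I1 := by
    intro k'
    by_cases h : k' < c.kf ∧ |c.oo k'| ≤ c.C1
    · obtain ⟨i1, i2, h1, _, h3, h4⟩ := HD.cand_range c hc k' h.1 h.2
      exact ⟨(i1, i2), fun _ => ⟨h1, h3, h4⟩⟩
    · exact ⟨(0, 0), fun h' => absurd h' h⟩
  choose p hp using H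
  have hI1 : 0 ≤ c.I1 := by
    have h1 := hc.hC1
    have h2 := hc.hA0
    have h3 : (0 : ℝ) < c.m0 := by exact_mod_cast hc.hm0
    have h4 : (0 : ℝ) ≤ 2 * (c.Pp : ℝ) * c.ns := by positivity
    have h5 : (0 : ℝ) ≤ c.I := Nat.cast_nonneg _
    unfold HD.I1
    linarith
  have hfl : 0 ≤ ⌊c.I1⌋ := Int.floor_nonneg.2 hI1
  let T : Finset (ℕ × (ℤ × ℤ)) := Finset.range c.ℓ ×ˢ
    (Finset.Icc (-⌊c.I1⌋) ⌊c.I1⌋ ×ˢ Finset.Icc (-(c.I : ℤ)) (c.I : ℤ))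
  have hcard : c.cnt k ≤ T.card := by
    unfold HD.cnt
    refine Finset.card_le_card_of_injOn (fun k' => (k' % c.ℓ, p k')) ?_ ?_
    · intro k' hk'
      rw [Finset.mem_coe, Finset.mem_filter, Finset.mem_range] at hk'
      have h := hp k' ⟨lt_of_lt_of_le hk'.1 hk, hk'.2⟩
      have h3 := abs_le.1 h.2.1
      have h4 := abs_le.1 h.2.2
      rw [Finset.mem_coe, Finset.mem_product, Finset.mem_product]
      refine ⟨Finset.mem_range.2 (Nat.mod_lt _ hc.hℓ), Finset.mem_Icc.2 ⟨?_, ?_⟩,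
        Finset.mem_Icc.2 ⟨?_, ?_⟩⟩
      · have : -(p k').1 ≤ ⌊c.I1⌋ := by
          rw [Int.le_floor]; push_cast; linarith [h4.1]
        show -⌊c.I1⌋ ≤ (p k').1
        linarith
      · show (p k').1 ≤ ⌊c.I1⌋
        rw [Int.le_floor]; exact h4.2
      · have : (((-(c.I : ℤ)) : ℤ) : ℝ) ≤ ((p k').2 : ℝ) := by push_cast; exact h3.1
        exact_mod_cast this
      · have : (((p k').2 : ℤ) : ℝ) ≤ (((c.I : ℤ)) : ℝ) := by push_cast; exact h3.2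
        exact_mod_cast this
    · intro k1 hk1 k2 hk2 he
      rw [Finset.mem_coe, Finset.mem_filter, Finset.mem_range] at hk1 hk2
      have h1 := (hp k1 ⟨lt_of_lt_of_le hk1.1 hk, hk1.2⟩).1
      have h2 := (hp k2 ⟨lt_of_lt_of_le hk2.1 hk, hk2.2⟩).1
      simp only [Prod.mk.injEq] at he
      have h3 : c.tt k1 = c.tt k2 := by
        rw [h1, h2, he.1, he.2]
      unfold HD.tt at h3
      have h4 : k1 / c.ℓ = k2 / c.ℓ := by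
        have : ((k1 / c.ℓ : ℕ) : ℤ) = ((k2 / c.ℓ : ℕ) : ℤ) := by linarith
        exact_mod_cast this
      rw [← Nat.div_add_mod k1 c.ℓ, ← Nat.div_add_mod k2 c.ℓ, h4, he.1]
  have hT : (T.card : ℝ) = c.ℓ * ((2 * (⌊c.I1⌋ : ℝ) + 1) * (2 * c.I + 1)) := by
    show (((Finset.range c.ℓ ×ˢ (Finset.Icc (-⌊c.I1⌋) ⌊c.I1⌋ ×ˢ
      Finset.Icc (-(c.I : ℤ)) (c.I : ℤ))).card : ℕ) : ℝ) = _
    rw [Finset.card_product, Finset.card_product, Finset.card_range, Int.card_Icc, Int.card_Icc]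
    have e1 : ((⌊c.I1⌋ + 1 - -⌊c.I1⌋).toNat : ℤ) = 2 * ⌊c.I1⌋ + 1 := by
      rw [Int.toNat_of_nonneg (by linarith)]; ring
    have e2 : (((c.I : ℤ) + 1 - -(c.I : ℤ)).toNat : ℤ) = 2 * (c.I : ℤ) + 1 := by
      rw [Int.toNat_of_nonneg (by omega)]; ring
    have e1' : (((⌊c.I1⌋ + 1 - -⌊c.I1⌋).toNat : ℕ) : ℝ) = 2 * (⌊c.I1⌋ : ℝ) + 1 := by
      exact_mod_cast e1
    have e2' : ((((c.I : ℤ) + 1 - -(c.I : ℤ)).toNat : ℕ) : ℝ) = 2 * (c.I : ℝ) + 1 := by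
      exact_mod_cast e2
    push_cast [e1', e2']
    ring
  have hfin : (c.cnt k : ℝ) ≤ T.card := by exact_mod_cast hcard
  refine hfin.trans ?_
  rw [hT]
  unfold HD.R
  have hle : (⌊c.I1⌋ : ℝ) ≤ c.I1 := Int.floor_le _
  have h6 : (0 : ℝ) ≤ c.ℓ := Nat.cast_nonneg _
  have h7 : (0 : ℝ) ≤ 2 * (c.I : ℝ) + 1 := by positivity
  calc (c.ℓ : ℝ) * ((2 * (⌊c.I1⌋ : ℝ) + 1) * (2 * c.I + 1))
      ≤ c.ℓ * ((2 * c.I1 + 1) * (2 * c.I + 1)) := by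
        apply mul_le_mul_of_nonneg_left _ h6
        apply mul_le_mul_of_nonneg_right _ h7
        linarith
    _ = c.ℓ * (2 * c.I + 1) * (2 * c.I1 + 1) := by ring

end Pool.Agent.Helper29.Rot
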