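import Pool.Agent.Helper29.RotH1

set_option autoImplicit false

open CircleDeg1Lift Set

namespace Pool.Agent.Helper29.Rot

theorem HD.sl_Pp (c : HD) (hc : c.Ok) : (0 : ℝ) < c.Pp := by
  have h1 := hc.hP
  have h2 := hc.hA0
  have h3 := hc.hLg
  have h4 : (0 : ℝ) ≤ c.I := by positivity
  linarith

theorem HD.sl_Wp (c : HD) (hc : c.Ok) :
    ∃ w' : ℕ, 0 < w' ∧ (w' : ℤ) = 2 * c.Pp * c.Q1 ∧ c.W = w' * c.ℓ := by
  have hPp' : 0 < c.Pp := by exact_mod_cast c.sl_Pp hc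
  have h1 : 0 < 2 * (c.Pp : ℤ) * c.Q1 := by
    have := hc.hQ1
    positivity
  refine ⟨(2 * (c.Pp : ℤ) * c.Q1).toNat, ?_, ?_, rfl⟩
  · have := Int.toNat_of_nonneg h1.le
    by_contra h
    have h0 : (2 * (c.Pp : ℤ) * c.Q1).toNat = 0 := by omega
    rw [h0] at this
    simp at this
    have h2 := hc.hQ1
    rcases this with h3 | h3
    · omega
    · omega
  · exact Int.toNat_of_nonneg h1.le

theorem HD.sl_time (c : HD) (hc : c.Ok) (k : ℕ) :
    (c.m0 + 2 * c.Pp * ((k / c.W : ℕ) : ℤ) - c.Pp) * c.Q1 ≤ c.tt k - c.t c.c0 ∧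
    c.tt k - c.t c.c0 < (c.m0 + 2 * c.Pp * ((k / c.W : ℕ) : ℤ) + c.Pp) * c.Q1 := by
  obtain ⟨w', hw0, hw, hW⟩ := c.sl_Wp hc
  have hdiv : k / c.W = k / c.ℓ / w' := by
    rw [hW, Nat.div_div_eq_div_mul, mul_comm]
  have htt : c.tt k - c.t c.c0 = (c.m0 - c.Pp) * c.Q1 + ((k / c.ℓ : ℕ) : ℤ) := by
    unfold HD.tt HD.ts; ring
  rw [htt, hdiv]
  generalize k / c.ℓ = q
  have h1 := Nat.div_add_mod q w'
  have h2 := Nat.mod_lt q hw0
  generalize q / w' = j at *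
  generalize q % w' = r at *
  have h3 : (w' : ℤ) * j + r = (q : ℤ) := by exact_mod_cast h1
  rw [hw] at h3
  have h4 : (r : ℤ) < 2 * c.Pp * c.Q1 := by rw [← hw]; exact_mod_cast h2
  have h5 : (0:ℤ) ≤ (r : ℤ) := by positivity
  rw [← h3]
  constructor
  · nlinarith
  · nlinarith

/-- numerical facts -/
theorem HD.sl_num (c : HD) (hc : c.Ok) :
    0 < c.ρ c.c0 * c.xd ∧ (c.ℓ + 5) * (c.ρ c.c0 * c.xd) ≤ 1 / 2 ∧
    (2 * c.ℓ + 8) * (c.ρ c.c0 * c.xd) < c.d0 ∧ c.d0 ≤ 1 / 2 ∧ 0 < c.dg ∧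
    (∀ j : ℕ, j ≤ c.ns → 0 ≤ (j : ℝ) * c.dg ∧ (j : ℝ) * c.dg ≤ 4) ∧
    c.ρ c.c0 * c.w = (c.ℓ + 5) * (c.ρ c.c0 * c.xd) := by
  have h0 : 0 < c.ρ c.c0 * c.xd := mul_pos hc.hρ0 hc.hxd
  have hl : (0 : ℝ) ≤ c.ℓ := by positivity
  have h1 := hc.hd0
  have h2 := hc.hd0'
  have hdg : 0 < c.dg := by
    unfold HD.dg
    have : (1 : ℝ) ≤ ((c.sg * c.nK : ℤ) : ℝ) := by exact_mod_cast hc.hnK
    have h3 : (0 : ℝ) < ((c.sg * c.nK : ℤ) : ℝ) := by linarith
    exact mul_pos h0 h3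
  refine ⟨h0, by nlinarith, h1, h2, hdg, ?_, ?_⟩
  · intro j hj
    have h3 : (j : ℝ) ≤ c.ns := by exact_mod_cast hj
    have h4 := hc.hgain'
    constructor
    · positivity
    · exact le_trans (mul_le_mul_of_nonneg_right h3 hdg.le) h4
  · unfold HD.w; ring

theorem HD.sl_j (c : HD) (k : ℕ) (hk : k < c.ke) : k / c.W < c.ns := by
  unfold HD.ke at hk
  apply Nat.div_lt_of_lt_mul
  rwa [mul_comm]

theorem HD.sl_rX (c : HD) (hc : c.Ok) (i j : ℕ) :
    c.ρ i * c.X j = c.om i * ((c.h : ℝ) * (c.m0 + 2 * c.Pp * j) + c.abar + j * c.dg) := by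
  unfold HD.X HD.om
  ring

theorem HD.sl_habs (c : HD) (hc : c.Ok) : |(c.h : ℝ)| = 1 ∧ (c.h : ℝ) * c.h = 1 := by
  rcases hc.hh with h | h <;> rw [h] <;> simp

theorem HD.sl_A (c : HD) (hc : c.Ok) (k : ℕ) (hk : k < c.ke) (B : ℝ)
    (hB : |B - ((k / c.W : ℕ) : ℝ) * c.dg| ≤ (c.ℓ + 1) * (c.ρ c.c0 * c.xd))
    (hcand : |c.oo k| ≤ c.C1) (hρi : 0 < c.ρ (k % c.ℓ)) (j' : ℕ) (hj' : j' < c.ns)
    (hclose : |(c.oo k + B) / c.ρ (k % c.ℓ) - c.X j'| < c.w) :
    k % c.ℓ ∈ c.K ∧ j' = k / c.W ∧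
      c.tt k = c.t (k % c.ℓ) + (c.m0 + 2 * c.Pp * ((k / c.W : ℕ) : ℤ)) * c.Q1 := by
  obtain ⟨he0, hn1, hn2, hn3, hdg, hjdg, hrw⟩ := c.sl_num hc
  obtain ⟨hh1, hh2⟩ := c.sl_habs hc
  have hPp := c.sl_Pp hc
  have hil : k % c.ℓ < c.ℓ := Nat.mod_lt _ hc.hℓ
  have hj := c.sl_j k hk
  obtain ⟨i1, i2, e1, e2, b2, b1⟩ := c.cand_range hc k (lt_of_lt_of_le hk hc.hke) hcand
  obtain ⟨ht1, ht2⟩ := c.sl_time hc k
  generalize hi : k % c.ℓ = i at *
  generalize hjj : k / c.W = j at *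
  have hQ1 : (0 : ℝ) < c.Q1 := by exact_mod_cast hc.hQ1
  have hm0 : (0 : ℝ) < c.m0 := by exact_mod_cast hc.hm0
  have hjr : (j : ℝ) < c.ns := by exact_mod_cast hj
  have hj'r : (j' : ℝ) < c.ns := by exact_mod_cast hj'
  have hj0 : (0 : ℝ) ≤ j := by positivity
  have hj'0 : (0 : ℝ) ≤ j' := by positivity
  have hns1 : (j : ℝ) + 1 ≤ c.ns := by exact_mod_cast hj
  -- real versions of time
  have ht1r : ((c.m0 : ℝ) + 2 * c.Pp * j - c.Pp) * c.Q1 ≤ (c.tt k : ℝ) - c.t c.c0 := by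
    exact_mod_cast ht1
  have ht2r : (c.tt k : ℝ) - c.t c.c0 < ((c.m0 : ℝ) + 2 * c.Pp * j + c.Pp) * c.Q1 := by
    exact_mod_cast ht2
  have e1r : (c.tt k : ℝ) = c.t i + i1 * c.Q1 + i2 * c.Q2 := by rw [e1]; push_cast; ring
  obtain ⟨lag, hlagdef⟩ : ∃ lag : ℝ, lag = (c.t i : ℝ) + i2 * c.Q2 - c.t c.c0 := ⟨_, rfl⟩
  have hlageq : lag = (c.tt k : ℝ) - c.t c.c0 - i1 * c.Q1 := by rw [hlagdef, e1r]; ring
  have hI1 := abs_le.1 b1
  have hPj : (c.Pp : ℝ) * j ≤ c.Pp * c.ns := mul_le_mul_of_nonneg_left hjr.le hPp.le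
  have hPj' : (c.Pp : ℝ) * j' ≤ c.Pp * c.ns := mul_le_mul_of_nonneg_left hj'r.le hPp.le
  have hPj0 : 0 ≤ (c.Pp : ℝ) * j := by positivity
  have hPj'0 : 0 ≤ (c.Pp : ℝ) * j' := by positivity
  have hlag := hc.hlag i hil i2 b2
  rw [← hlagdef] at hlag
  have hlagbd : |lag| ≤ (c.m0 + 2 * c.Pp * c.ns + c.Pp + c.I1 + 1) * c.Q1 := by
    rw [abs_le, hlageq]
    constructor
    · nlinarith
    · nlinarith
  rcases hlag with hlag | ⟨hlag1, hlag2⟩
  · linarith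
  have hlag1' := abs_le.1 hlag1
  -- i1 close to centre
  have hi1c : |(i1 : ℝ) - (c.m0 + 2 * c.Pp * j)| ≤ c.Pp + c.Lg := by
    have hh : ((i1 : ℝ) - (c.m0 + 2 * c.Pp * j)) * c.Q1 =
        ((c.tt k : ℝ) - c.t c.c0) - (c.m0 + 2 * c.Pp * j) * c.Q1 - lag := by
      rw [hlageq]; ring
    rw [abs_le]
    constructor
    · by_contra hcon
      push Not at hcon
      have := mul_lt_mul_of_pos_right hcon hQ1
      linarith
    · by_contra hcon
      push Not at hcon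
      have := mul_lt_mul_of_pos_right hcon hQ1
      linarith
  have hi1c' := abs_le.1 hi1c
  -- the closeness
  have hcl : |c.oo k + B - c.ρ i * c.X j'| < c.ρ i * c.w := by
    have : c.oo k + B - c.ρ i * c.X j' = c.ρ i * ((c.oo k + B) / c.ρ i - c.X j') := by
      field_simp
    rw [this, abs_mul, abs_of_pos hρi]
    exact mul_lt_mul_of_pos_left hclose hρi
  rw [c.sl_rX hc, e2] at hcl
  have hom : 0 < c.om i := div_pos hρi hc.hρ0
  have hjd := hjdg j hj.le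
  have hj'd := hjdg j' hj'.le
  have hB' := abs_le.1 hB
  have hBb : |B| ≤ 5 := by
    rw [abs_le]; constructor <;> linarith
  have hBb' := abs_le.1 hBb
  have ha := abs_le.1 (hc.ha i hil)
  have hab := abs_le.1 hc.habar
  have hxx1 := hc.x1
  have hxx2 := hc.x2
  have b2' := abs_le.1 b2
  have hxi : |c.xx * i2| ≤ 2 * c.I := by
    rw [abs_mul]
    have : |c.xx| ≤ 2 := by rw [abs_le]; constructor <;> linarith
    exact mul_le_mul this b2 (abs_nonneg _) (by norm_num)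
  have hxi' := abs_le.1 hxi
  have hcl' := abs_lt.1 hcl
  by_cases hρe : c.ρ i = c.ρ c.c0
  swap
  · exfalso
    have hm := hc.hm i hil hρi hρe
    -- bound |om m0 - i1|
    have h1 : |c.om i * c.m0 - i1| ≤ c.A0 + 2 * c.I + 5 + c.om i * (c.A0 + 4) + c.ρ i * c.w
        + c.om i * (2 * c.Pp * c.ns) := by
      have h2 : |(c.h : ℝ) * i1 - c.om i * (c.h * (c.m0 + 2 * c.Pp * j'))| ≤
          c.A0 + 2 * c.I + 5 + c.om i * (c.A0 + 4) + c.ρ i * c.w := by
        have g1 : c.om i * c.abar ≤ c.om i * c.A0 := mul_le_mul_of_nonneg_left hab.2 hom.le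
        have g2 : c.om i * (-c.A0) ≤ c.om i * c.abar := mul_le_mul_of_nonneg_left hab.1 hom.le
        have g3 : c.om i * (j' * c.dg) ≤ c.om i * 4 := mul_le_mul_of_nonneg_left hj'd.2 hom.le
        have g4 : 0 ≤ c.om i * (j' * c.dg) := mul_nonneg hom.le hj'd.1
        rw [abs_le]
        constructor
        · linarith
        · linarith
      have h3 : |(c.h : ℝ) * i1 - c.om i * (c.h * (c.m0 + 2 * c.Pp * j'))| =
          |(i1 : ℝ) - c.om i * (c.m0 + 2 * c.Pp * j')| := by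
        have : (c.h : ℝ) * i1 - c.om i * (c.h * (c.m0 + 2 * c.Pp * j')) =
          c.h * ((i1 : ℝ) - c.om i * (c.m0 + 2 * c.Pp * j')) := by ring
        rw [this, abs_mul, hh1, one_mul]
      rw [h3] at h2
      have h4 := abs_le.1 h2
      have h5 : c.om i * (2 * (c.Pp * j')) ≤ c.om i * (2 * (c.Pp * c.ns)) := by gcongr
      have h6 : 0 ≤ c.om i * (2 * (c.Pp * j')) := by positivity
      rw [abs_le]
      constructor <;> linarith
    have h7 : |(i1 : ℝ) - c.m0| ≤ 2 * c.Pp * c.ns + c.Pp + c.Lg := by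
      rw [abs_le]; constructor <;> linarith
    have h8 : |c.om i - 1| * c.m0 ≤ |c.om i * c.m0 - i1| + |(i1 : ℝ) - c.m0| := by
      have : |c.om i - 1| * c.m0 = |(c.om i * c.m0 - i1) + ((i1 : ℝ) - c.m0)| := by
        rw [← abs_of_pos hm0, ← abs_mul, abs_of_pos hm0]
        congr 1
        ring
      rw [this]
      exact abs_add_le _ _
    linarith
  · have hom1 : c.om i = 1 := by
      unfold HD.om
      rw [hρe]
      exact div_self hc.hρ0.ne'
    rw [hom1, one_mul, hρe, hrw] at hcl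
    have hcl2 := abs_lt.1 hcl
    obtain ⟨r, hr⟩ : ∃ r : ℤ, r = i1 - c.m0 - 2 * c.Pp * j' := ⟨_, rfl⟩
    have hrr : (r : ℝ) = i1 - c.m0 - 2 * c.Pp * j' := by rw [hr]; push_cast; ring
    have hkey : |(c.h : ℝ) * r + c.a i + c.xx * i2 - c.abar + (B - j' * c.dg)| <
        (c.ℓ + 5) * (c.ρ c.c0 * c.xd) := by
      have : (c.h : ℝ) * r + c.a i + c.xx * i2 - c.abar + (B - j' * c.dg) =
        c.a i + c.h * i1 + c.xx * i2 + B - (c.h * (c.m0 + 2 * c.Pp * j') + c.abar + j' * c.dg) := by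
        rw [hrr]; ring
      rw [this]
      exact hcl
    have hkey' := abs_lt.1 hkey
    have hhr : |(c.h : ℝ) * r| = |(r : ℝ)| := by rw [abs_mul, hh1, one_mul]
    have hrbd : |(r : ℝ)| ≤ 2 * c.A0 + 2 * c.I + 10 := by
      rw [← hhr, abs_le]
      constructor <;> linarith
    have hrbd' := abs_le.1 hrbd
    have hP := hc.hP
    have hjeq : j' = j := by
      have h1 : |(2 * c.Pp : ℝ) * ((j' : ℝ) - j)| < 2 * c.Pp := by
        rw [abs_lt]
        constructor <;> linarith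
      rw [abs_mul, abs_of_pos (by positivity : (0 : ℝ) < 2 * c.Pp)] at h1
      have h2 : |(j' : ℝ) - j| < 1 := by
        by_contra hcon
        push Not at hcon
        have := mul_le_mul_of_nonneg_left hcon (by positivity : (0 : ℝ) ≤ 2 * c.Pp)
        linarith
      have h3 : |((j' : ℤ) - j)| < 1 := by exact_mod_cast h2
      have h4 := Int.abs_lt_one_iff.1 h3
      omega
    subst hjeq
    have hkey2 : |(c.h : ℝ) * r + c.a i + c.xx * i2 - c.abar| <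
        (2 * c.ℓ + 6) * (c.ρ c.c0 * c.xd) := by
      rw [abs_lt]
      constructor <;> linarith
    have hKi : i ∈ c.K ∧ i2 = 0 := by
      by_contra hcon
      have h1 := hlag2 hρe hcon (c.h * r)
      push_cast at h1
      have : (2 * c.ℓ + 6) * (c.ρ c.c0 * c.xd) ≤ (2 * c.ℓ + 8) * (c.ρ c.c0 * c.xd) := by
        linarith
      linarith
    obtain ⟨hK, hi20⟩ := hKi
    subst hi20
    have hKa := abs_le.1 (hc.hKa i hK)
    have hkey3 := abs_lt.1 hkey2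
    have hr0 : r = 0 := by
      have h1 : |(c.h : ℝ) * r| < 1 := by
        push_cast at hkey3
        rw [abs_lt]
        constructor <;> linarith
      rw [hhr] at h1
      have h3 : |r| < 1 := by exact_mod_cast h1
      exact Int.abs_lt_one_iff.1 h3
    refine ⟨hK, rfl, ?_⟩
    rw [e1]
    have : i1 = c.m0 + 2 * c.Pp * j' := by omega
    rw [this]
    ring

/-- visit times -/
noncomputable def HD.kap (c : HD) (i j : ℕ) : ℕ :=
  (c.t i + (c.m0 + 2 * c.Pp * j) * c.Q1 - c.ts).toNat * c.ℓ + i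

theorem HD.sl_kap (c : HD) (hc : c.Ok) (i : ℕ) (hi : i ∈ c.K) (j : ℕ) (hj : j < c.ns) :
    c.kap i j % c.ℓ = i ∧ c.kap i j / c.W = j ∧
    c.tt (c.kap i j) = c.t i + (c.m0 + 2 * c.Pp * j) * c.Q1 ∧
    c.oo (c.kap i j) = c.a i + c.h * (c.m0 + 2 * c.Pp * j) ∧ |c.oo (c.kap i j)| ≤ c.C1 := by
  obtain ⟨hh1, hh2⟩ := c.sl_habs hc
  have hPp := c.sl_Pp hc
  have hil := hc.hK i hi
  obtain ⟨w', hw0, hw, hW⟩ := c.sl_Wp hc
  have hQ1 : (0 : ℝ) < c.Q1 := by exact_mod_cast hc.hQ1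
  have hm0 : (0 : ℝ) < c.m0 := by exact_mod_cast hc.hm0
  have hI0 : (0 : ℝ) ≤ c.I := by positivity
  have hLgPp : c.Lg < c.Pp := by
    have := hc.hP
    have := hc.hA0
    linarith
  have hKt := abs_le.1 (hc.hKt i hi)
  have hLQ : c.Lg * c.Q1 < c.Pp * c.Q1 := mul_lt_mul_of_pos_right hLgPp hQ1
  have hd1 : -((c.Pp : ℤ) * c.Q1) < c.t i - c.t c.c0 := by
    have : (-((c.Pp : ℝ) * c.Q1)) < (c.t i : ℝ) - c.t c.c0 := by linarith
    exact_mod_cast this
  have hd2 : c.t i - c.t c.c0 < (c.Pp : ℤ) * c.Q1 := by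
    have : (c.t i : ℝ) - c.t c.c0 < ((c.Pp : ℝ) * c.Q1) := by linarith
    exact_mod_cast this
  obtain ⟨v, hv⟩ : ∃ v : ℤ, v = c.t i + (c.m0 + 2 * c.Pp * j) * c.Q1 - c.ts := ⟨_, rfl⟩
  have hv2 : v = (c.t i - c.t c.c0) + (2 * c.Pp * j + c.Pp) * c.Q1 := by
    rw [hv]; unfold HD.ts; ring
  have hvlo : (j : ℤ) * w' ≤ v := by rw [hw, hv2]; linarith
  have hvhi : v < ((j : ℤ) + 1) * w' := by rw [hw, hv2]; linarith
  have hv0 : 0 ≤ v := le_trans (by positivity) hvlo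
  have hvn : ((v.toNat : ℕ) : ℤ) = v := Int.toNat_of_nonneg hv0
  have hkap : c.kap i j = v.toNat * c.ℓ + i := by unfold HD.kap; rw [← hv]
  have hdivℓ : c.kap i j / c.ℓ = v.toNat := by
    rw [hkap, add_comm, Nat.add_mul_div_right _ _ hc.hℓ, Nat.div_eq_of_lt hil, zero_add]
  have htt : c.tt (c.kap i j) = c.t i + (c.m0 + 2 * c.Pp * j) * c.Q1 := by
    unfold HD.tt
    rw [hdivℓ, hvn, hv]
    ring
  have hmod : c.kap i j % c.ℓ = i := by
    rw [hkap, add_comm, Nat.add_mul_mod_self_right, Nat.mod_eq_of_lt hil]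
  have hS0 : 0 < c.S := lt_of_lt_of_le one_pos hc.hS
  have hjr : (j : ℝ) ≤ c.ns := by exact_mod_cast hj.le
  have hPj : (c.Pp : ℝ) * j ≤ c.Pp * c.ns := mul_le_mul_of_nonneg_left hjr hPp.le
  have hPj0 : 0 ≤ (c.Pp : ℝ) * j := by positivity
  have ha := abs_le.1 (hc.ha i hil)
  have hC1 := hc.hC1
  have hSC := hc.hSC
  have hval : |c.a i + c.h * (c.m0 + 2 * c.Pp * j)| ≤ c.C1 - 1 := by
    have h1 : |(c.h : ℝ) * (c.m0 + 2 * c.Pp * j)| ≤ c.m0 + 2 * c.Pp * c.ns := by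
      rw [abs_mul, hh1, one_mul, abs_of_nonneg (by linarith)]
      linarith
    have h2 := abs_le.1 h1
    rw [abs_le]
    constructor <;> linarith
  have hoo : c.oo (c.kap i j) = c.a i + c.h * (c.m0 + 2 * c.Pp * j) := by
    unfold HD.oo
    rw [htt, hmod]
    obtain ⟨n, hn⟩ : ∃ n : ℤ, n = c.l i + (c.m0 + 2 * c.Pp * j) * c.P1 := ⟨_, rfl⟩
    obtain ⟨δ, hδ⟩ : ∃ δ : ℝ, δ = (c.a i + c.h * (c.m0 + 2 * c.Pp * j)) / c.S := ⟨_, rfl⟩
    have hSδ : c.S * δ = c.a i + c.h * (c.m0 + 2 * c.Pp * j) := by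
      rw [hδ]; field_simp
    have hy : (((c.t i + (c.m0 + 2 * c.Pp * j) * c.Q1 : ℤ) : ℝ)) * c.θ - c.Y i = δ + (n : ℝ) := by
      have h1 : c.S * ((((c.t i + (c.m0 + 2 * c.Pp * j) * c.Q1 : ℤ) : ℝ)) * c.θ - c.Y i - n) =
          c.S * δ := by
        rw [hSδ, ← hc.e1, hn]
        unfold HD.a
        push_cast
        ring
      have h2 := mul_left_cancel₀ hS0.ne' h1
      linarith
    have hδ2 : |δ| < 1 / 2 := by
      rw [hδ, abs_div, abs_of_pos hS0, div_lt_iff₀ hS0]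
      linarith
    have hδ3 := abs_lt.1 hδ2
    have hround : round (δ + (n : ℝ)) = n := by
      rw [round_add_intCast]
      have : round δ = 0 := round_eq_zero_iff.2 ⟨hδ3.1.le, hδ3.2⟩
      rw [this, zero_add]
    rw [hy, hround]
    linarith
  refine ⟨hmod, ?_, htt, hoo, ?_⟩
  · rw [hW, mul_comm, ← Nat.div_div_eq_div_mul, hdivℓ]
    apply Nat.div_eq_of_lt_le
    · have : ((j * w' : ℕ) : ℤ) ≤ (v.toNat : ℤ) := by rw [hvn]; exact_mod_cast hvlo
      exact_mod_cast this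
    · have : ((v.toNat : ℕ) : ℤ) < (((j + 1) * w' : ℕ) : ℤ) := by
        rw [hvn]; push_cast; exact hvhi
      exact_mod_cast this
  · rw [hoo]; linarith

theorem HD.sl_act_kap (c : HD) (hc : c.Ok) (i : ℕ) (hi : i ∈ c.K) (j : ℕ) (hj : j < c.ns) (B : ℝ)
    (hB : |B - (j : ℝ) * c.dg| ≤ (c.ℓ + 1) * (c.ρ c.c0 * c.xd)) :
    act c.U (c.ρ i) (c.ε i) (c.oo (c.kap i j)) B
      = B + (c.sg * (c.ρ c.c0 * c.xd)) * c.ε i := by
  obtain ⟨h1, h2, h3, h4, h5⟩ := c.sl_kap hc i hi j hj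
  have hρ0 := hc.hρ0
  have hxd := hc.hxd
  have hρi := hc.hKρ i hi
  have habs : |(c.sg : ℝ) * c.xd| = c.xd := by
    rw [abs_mul, abs_of_pos hxd]
    rcases hc.hsg with h | h <;> rw [h] <;> simp
  have hX : (c.oo (c.kap i j) + B) / c.ρ i - c.X j = (c.a i - c.abar + (B - j * c.dg)) / c.ρ c.c0 := by
    rw [h4, hρi]
    unfold HD.X
    ring
  have hKa := abs_le.1 (hc.hKa i hi)
  have hB' := abs_le.1 hB
  have hcl : |(c.oo (c.kap i j) + B) / c.ρ i - c.X j| + |(c.sg : ℝ) * c.xd| ≤ c.f := by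
    rw [hX, habs, abs_div, abs_of_pos hρ0]
    have : |c.a i - c.abar + (B - j * c.dg)| ≤ ((c.ℓ : ℝ) + 2) * (c.ρ c.c0 * c.xd) := by
      have := mul_pos hρ0 hxd
      rw [abs_le]
      constructor <;> linarith
    have h6 : |c.a i - c.abar + (B - j * c.dg)| / c.ρ c.c0 ≤ ((c.ℓ : ℝ) + 2) * c.xd := by
      rw [div_le_iff₀ hρ0]
      linarith
    unfold HD.f
    linarith
  have := act_flat c.U (c.ρ i) (c.ε i) (c.oo (c.kap i j)) B (c.X j) c.f ((c.sg : ℝ) * c.xd)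
    (by rw [hρi]; exact hρ0) (hc.hε i) (hc.U2 j hj) hcl
  rw [this, hρi]
  ring

theorem HD.sl_act_other (c : HD) (hc : c.Ok) (k : ℕ) (hk : k < c.ke) (B : ℝ)
    (hB : |B - ((k / c.W : ℕ) : ℝ) * c.dg| ≤ (c.ℓ + 1) * (c.ρ c.c0 * c.xd))
    (hcand : |c.oo k| ≤ c.C1) (hnot : ∀ i ∈ c.K, ∀ j, j < c.ns → k ≠ c.kap i j) :
    act c.U (c.ρ (k % c.ℓ)) (c.ε (k % c.ℓ)) (c.oo k) B = B := by
  have hil : k % c.ℓ < c.ℓ := Nat.mod_lt _ hc.hℓ
  apply act_off _ _ _ _ _ (hc.hρ _ hil) (hc.hε _)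
  intro hpos
  apply hc.U1
  intro j' hj'
  by_contra hcon
  push Not at hcon
  obtain ⟨hK, hjj, htt⟩ := c.sl_A hc k hk B hB hcand hpos j' hj' hcon
  apply hnot _ hK j' hj'
  unfold HD.kap
  have h1 : c.t (k % c.ℓ) + (c.m0 + 2 * c.Pp * (j' : ℤ)) * c.Q1 - c.ts = ((k / c.ℓ : ℕ) : ℤ) := by
    rw [hjj, ← htt]
    unfold HD.tt
    ring
  rw [h1, Int.toNat_natCast]
  exact (Nat.div_add_mod' k c.ℓ).symm

/-- visited sites -/
noncomputable def HD.V (c : HD) (k : ℕ) : Finset (ℕ × ℕ) :=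
  (c.K ×ˢ Finset.range c.ns).filter (fun p => c.kap p.1 p.2 < k)

noncomputable def HD.sig (c : HD) (k : ℕ) : ℤ := ∑ p ∈ c.V k, c.ε p.1

theorem HD.sl_sig_eq (c : HD) (k : ℕ) :
    c.sig k = ∑ j ∈ Finset.range c.ns, ∑ i ∈ c.K, if c.kap i j < k then c.ε i else 0 := by
  unfold HD.sig HD.V
  rw [Finset.sum_filter, Finset.sum_product_right]

theorem HD.sl_sig (c : HD) (hc : c.Ok) (k : ℕ) (hk : k < c.ke) :
    ∃ r : ℤ, |r| ≤ c.ℓ ∧ c.sig k = ((k / c.W : ℕ) : ℤ) * c.nK + r := by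
  have hj := c.sl_j k hk
  refine ⟨∑ i ∈ c.K, if c.kap i (k / c.W) < k then c.ε i else 0, ?_, ?_⟩
  · refine (Finset.abs_sum_le_sum_abs _ _).trans ?_
    have hcard : c.K.card ≤ c.ℓ := by
      have : c.K ⊆ Finset.range c.ℓ := fun i hi => Finset.mem_range.2 (hc.hK i hi)
      simpa using Finset.card_le_card this
    calc ∑ i ∈ c.K, |if c.kap i (k / c.W) < k then c.ε i else 0| ≤ ∑ i ∈ c.K, (1 : ℤ) := by
          apply Finset.sum_le_sum
          intro i _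
          split_ifs
          · rcases hc.hε i with h | h | h <;> rw [h] <;> simp
          · simp
      _ = c.K.card := by simp
      _ ≤ c.ℓ := by exact_mod_cast hcard
  · rw [c.sl_sig_eq]
    have hterm : ∀ j ∈ Finset.range c.ns, (∑ i ∈ c.K, if c.kap i j < k then c.ε i else 0) =
        (if j < k / c.W then c.nK else 0) + (if j = k / c.W then
          (∑ i ∈ c.K, if c.kap i (k / c.W) < k then c.ε i else 0) else 0) := by
      intro j hjm
      have hjn := Finset.mem_range.1 hjm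
      rcases lt_trichotomy j (k / c.W) with h | h | h
      · rw [if_pos h, if_neg h.ne, add_zero]
        unfold HD.nK
        apply Finset.sum_congr rfl
        intro i hi
        rw [if_pos]
        by_contra hcon
        push Not at hcon
        have h1 := Nat.div_le_div_right (c := c.W) hcon
        rw [(c.sl_kap hc i hi j hjn).2.1] at h1
        omega
      · rw [if_neg (by omega), if_pos h, zero_add, h]
      · rw [if_neg (by omega), if_neg h.ne', zero_add]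
        apply Finset.sum_eq_zero
        intro i hi
        rw [if_neg]
        intro hcon
        have h1 := Nat.div_le_div_right (c := c.W) hcon.le
        rw [(c.sl_kap hc i hi j hjn).2.1] at h1
        omega
    rw [Finset.sum_congr rfl hterm, Finset.sum_add_distrib, Finset.sum_ite_eq' (Finset.range c.ns),
      if_pos (Finset.mem_range.2 hj)]
    congr 1
    rw [← Finset.sum_filter]
    have : (Finset.range c.ns).filter (fun j => j < k / c.W) = Finset.range (k / c.W) := by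
      ext x
      simp only [Finset.mem_filter, Finset.mem_range]
      omega
    rw [this]
    simp

theorem HD.sl_sig_end (c : HD) (hc : c.Ok) : c.sig c.ke = (c.ns : ℤ) * c.nK := by
  rw [c.sl_sig_eq]
  have hterm : ∀ j ∈ Finset.range c.ns, (∑ i ∈ c.K, if c.kap i j < c.ke then c.ε i else 0) = c.nK := by
    intro j hjm
    have hjn := Finset.mem_range.1 hjm
    unfold HD.nK
    apply Finset.sum_congr rfl
    intro i hi
    rw [if_pos]
    by_contra hcon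
    push Not at hcon
    have h1 := Nat.div_le_div_right (c := c.W) hcon
    rw [(c.sl_kap hc i hi j hjn).2.1] at h1
    obtain ⟨w', hw0, hw, hW⟩ := c.sl_Wp hc
    have hW0 : 0 < c.W := by rw [hW]; exact Nat.mul_pos hw0 hc.hℓ
    unfold HD.ke at h1
    rw [Nat.mul_div_cancel _ hW0] at h1
    omega
  rw [Finset.sum_congr rfl hterm]
  simp

theorem HD.sl_cnt_succ (c : HD) (k : ℕ) : (c.cnt (k + 1) : ℝ) =
    c.cnt k + (open Classical in if |c.oo k| ≤ c.C1 then 1 else 0) := by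
  classical
  unfold HD.cnt
  rw [Finset.range_add_one, Finset.filter_insert]
  split_ifs with h
  · rw [Finset.card_insert_of_notMem (by simp)]
    push_cast
    rfl
  · simp

theorem HD.sl_V_succ_kap (c : HD) (hc : c.Ok) (i : ℕ) (hi : i ∈ c.K) (j : ℕ) (hj : j < c.ns) :
    c.sig (c.kap i j + 1) = c.sig (c.kap i j) + c.ε i := by
  classical
  have hV : c.V (c.kap i j + 1) = insert (i, j) (c.V (c.kap i j)) := by
    ext ⟨i', j'⟩
    unfold HD.V
    simp only [Finset.mem_filter, Finset.mem_product, Finset.mem_range, Finset.mem_insert]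
    constructor
    · rintro ⟨⟨hi', hj'⟩, hlt⟩
      rcases Nat.lt_succ_iff_lt_or_eq.1 hlt with h | h
      · exact Or.inr ⟨⟨hi', hj'⟩, h⟩
      · left
        have e1 := (c.sl_kap hc i hi j hj).1
        have e2 := (c.sl_kap hc i hi j hj).2.1
        rw [← h, (c.sl_kap hc i' hi' j' hj').1] at e1
        rw [← h, (c.sl_kap hc i' hi' j' hj').2.1] at e2
        rw [e1, e2]
    · rintro (h | ⟨⟨hi', hj'⟩, h⟩)
      · obtain ⟨rfl, rfl⟩ := Prod.mk.inj h
        exact ⟨⟨hi, hj⟩, Nat.lt_succ_self _⟩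
      · exact ⟨⟨hi', hj'⟩, Nat.lt_succ_of_lt h⟩
  unfold HD.sig
  rw [hV, Finset.sum_insert, add_comm]
  unfold HD.V
  simp

theorem HD.sl_V_succ_other (c : HD) (k : ℕ)
    (hnot : ∀ i ∈ c.K, ∀ j, j < c.ns → k ≠ c.kap i j) : c.sig (k + 1) = c.sig k := by
  have hV : c.V (k + 1) = c.V k := by
    ext ⟨i', j'⟩
    unfold HD.V
    simp only [Finset.mem_filter, Finset.mem_product, Finset.mem_range]
    constructor
    · rintro ⟨⟨hi', hj'⟩, hlt⟩
      refine ⟨⟨hi', hj'⟩, ?_⟩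
      have := hnot i' hi' j' hj'
      omega
    · rintro ⟨⟨hi', hj'⟩, hlt⟩
      exact ⟨⟨hi', hj'⟩, by omega⟩
  unfold HD.sig
  rw [hV]

theorem HD.sl_close (c : HD) (hc : c.Ok) (k : ℕ) (hk : k < c.ke)
    (hb : c.b k = (c.sg * (c.ρ c.c0 * c.xd)) * c.sig k - c.η * c.cnt k) :
    |c.b k - ((k / c.W : ℕ) : ℝ) * c.dg| ≤ (c.ℓ + 1) * (c.ρ c.c0 * c.xd) := by
  obtain ⟨r, hr, hs⟩ := c.sl_sig hc k hk
  have he : 0 < c.ρ c.c0 * c.xd := mul_pos hc.hρ0 hc.hxd
  have hcnt := c.cnt_le hc k (hk.le.trans hc.hke)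
  have hη := mul_le_mul_of_nonneg_left hcnt hc.hη.le
  have hη1 := hc.hη1
  have h0 : 0 ≤ c.η * c.cnt k := mul_nonneg hc.hη.le (by positivity)
  have hsr : |(c.sg : ℝ) * (c.ρ c.c0 * c.xd) * r| ≤ c.ℓ * (c.ρ c.c0 * c.xd) := by
    have h1 : |(c.sg : ℝ)| = 1 := by
      rcases hc.hsg with h | h <;> rw [h] <;> simp
    have h2 : |(r : ℝ)| ≤ c.ℓ := by exact_mod_cast hr
    rw [abs_mul, abs_mul, h1, one_mul, abs_of_pos he, mul_comm]
    exact mul_le_mul_of_nonneg_right h2 he.le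
  have hsr' := abs_le.1 hsr
  have heq : c.b k - ((k / c.W : ℕ) : ℝ) * c.dg = (c.sg : ℝ) * (c.ρ c.c0 * c.xd) * r - c.η * c.cnt k := by
    rw [hb, hs]
    unfold HD.dg
    generalize k / c.W = j
    push_cast
    ring
  rw [heq, abs_le]
  constructor <;> linarith

theorem HD.sl_formula (c : HD) (hc : c.Ok) (k : ℕ) (hk : k ≤ c.ke) :
    c.b k = (c.sg * (c.ρ c.c0 * c.xd)) * c.sig k - c.η * c.cnt k := by
  induction k with
  | zero =>
    have h1 : c.sig 0 = 0 := by unfold HD.sig HD.V; simp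
    have h2 : c.cnt 0 = 0 := by unfold HD.cnt; simp
    rw [h1, h2]
    simp [HD.b]
  | succ k ih =>
    have hk' : k < c.ke := hk
    have hb := ih hk'.le
    have hcl := c.sl_close hc k hk' hb
    have hcs := c.sl_cnt_succ k
    have hbs : c.b (k + 1) = (open Classical in
      if |c.oo k| ≤ c.C1 then
      (if k < c.ke then act c.U (c.ρ (k % c.ℓ)) (c.ε (k % c.ℓ)) (c.oo k) (c.b k)
       else min (c.b k) (act c.U (c.ρ (k % c.ℓ)) (c.ε (k % c.ℓ)) (c.oo k) (c.b k))) - c.η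
      else c.b k) := rfl
    by_cases hex : ∃ i ∈ c.K, ∃ j, j < c.ns ∧ k = c.kap i j
    · obtain ⟨i, hi, j, hj, hkk⟩ := hex
      obtain ⟨e1, e2, e3, e4, e5⟩ := c.sl_kap hc i hi j hj
      rw [← hkk] at e1 e2 e3 e4 e5
      rw [if_pos e5] at hcs
      rw [if_pos e5, if_pos hk', e1] at hbs
      rw [e2] at hcl
      have h1 := c.sl_act_kap hc i hi j hj (c.b k) hcl
      rw [← hkk] at h1
      rw [h1] at hbs
      have h2 := c.sl_V_succ_kap hc i hi j hj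
      rw [← hkk] at h2
      rw [hbs, hb, h2, hcs]
      push_cast
      ring
    · have hnot : ∀ i ∈ c.K, ∀ j, j < c.ns → k ≠ c.kap i j :=
        fun i hi j hj hkk => hex ⟨i, hi, j, hj, hkk⟩
      have h2 := c.sl_V_succ_other k hnot
      by_cases hcand : |c.oo k| ≤ c.C1
      · rw [if_pos hcand] at hcs
        rw [if_pos hcand, if_pos hk', c.sl_act_other hc k hk' (c.b k) hcl hcand hnot] at hbs
        rw [hbs, hb, h2, hcs]
        ring
      · rw [if_neg hcand] at hcs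
        rw [if_neg hcand] at hbs
        rw [hbs, hb, h2, hcs]
        ring

/-- TARGET -/
theorem HD.slot (c : HD) (hc : c.Ok) :
    (∀ k, k ≤ c.ke → -1 ≤ c.b k ∧ c.b k ≤ 5) ∧ |c.b c.ke - c.ns * c.dg| ≤ 1 / 4 := by
  obtain ⟨he0, hn1, hn2, hn3, hdg, hjdg, hrw⟩ := c.sl_num hc
  have hend : |c.b c.ke - c.ns * c.dg| ≤ 1 / 4 := by
    have hb := c.sl_formula hc c.ke le_rfl
    have hcnt := c.cnt_le hc c.ke hc.hke
    have hη := mul_le_mul_of_nonneg_left hcnt hc.hη.le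
    have hη2 := hc.hη2
    have h0 : 0 ≤ c.η * c.cnt c.ke := mul_nonneg hc.hη.le (by positivity)
    have heq : c.b c.ke - c.ns * c.dg = - (c.η * c.cnt c.ke) := by
      rw [hb, c.sl_sig_end hc]
      unfold HD.dg
      push_cast
      ring
    rw [heq, abs_neg, abs_of_nonneg h0]
    linarith
  refine ⟨?_, hend⟩
  intro k hk
  rcases hk.lt_or_eq with h | h
  · have h1 := abs_le.1 (c.sl_close hc k h (c.sl_formula hc k h.le))
    have h2 := hjdg (k / c.W) (c.sl_j k h).le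
    constructor <;> linarith
  · rw [h]
    have h1 := abs_le.1 hend
    have h3 := hc.hgain
    have h4 := hc.hgain'
    constructor <;> linarith

end Pool.Agent.Helper29.Rot
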