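import Pool.Agent.Helper29.RotH1

set_option autoImplicit false

open CircleDeg1Lift Set

namespace Pool.Agent.Helper29.Rot

/-- touching step -/
def HD.Tch (c : HD) (k : ℕ) : Prop :=
  |c.oo k| ≤ c.C1 ∧ act c.U (c.ρ (k % c.ℓ)) (c.ε (k % c.ℓ)) (c.oo k) (c.b k) ≠ c.b k

theorem HD.after_rm (c : HD) (hc : c.Ok) : 0 < c.rmax :=
  lt_of_lt_of_le hc.hρ0 (hc.hrmax _ (hc.hK _ hc.hc0))

open Classical in
theorem HD.after_step (c : HD) (hc : c.Ok) (k : ℕ) (hk : c.ke ≤ k) :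
    c.b (k+1) ≤ c.b k ∧
    c.b k - (if |c.oo k| ≤ c.C1 then c.η else 0) - (if c.Tch k then c.rmax * c.xd else 0)
      ≤ c.b (k+1) := by
  have hi : k % c.ℓ < c.ℓ := Nat.mod_lt _ hc.hℓ
  have hρ := hc.hρ _ hi
  have hb := act_bound c.U c.xd hc.U4 (c.ρ (k % c.ℓ)) (c.ε (k % c.ℓ)) (c.oo k) (c.b k) hρ (hc.hε _)
  have hbd : c.ρ (k % c.ℓ) * c.xd ≤ c.rmax * c.xd :=
    mul_le_mul_of_nonneg_right (hc.hrmax _ hi) hc.hxd.le
  have hη := hc.hη
  have hrx : 0 ≤ c.rmax * c.xd := mul_nonneg (c.after_rm hc).le hc.hxd.le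
  by_cases hcand : |c.oo k| ≤ c.C1
  · have e : c.b (k+1) = min (c.b k) (act c.U (c.ρ (k % c.ℓ)) (c.ε (k % c.ℓ)) (c.oo k) (c.b k))
        - c.η := by
      rw [HD.b, if_pos hcand, if_neg (by omega)]
    have hml := min_le_left (c.b k) (act c.U (c.ρ (k % c.ℓ)) (c.ε (k % c.ℓ)) (c.oo k) (c.b k))
    rw [e, if_pos hcand]
    refine ⟨by linarith, ?_⟩
    by_cases hT : c.Tch k
    · rw [if_pos hT]
      have : c.b k - c.rmax * c.xd ≤
          min (c.b k) (act c.U (c.ρ (k % c.ℓ)) (c.ε (k % c.ℓ)) (c.oo k) (c.b k)) :=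
        le_min (by linarith) (by have := (abs_le.1 hb).1; linarith)
      linarith
    · rw [if_neg hT]
      have : act c.U (c.ρ (k % c.ℓ)) (c.ε (k % c.ℓ)) (c.oo k) (c.b k) = c.b k := by
        by_contra h
        exact hT ⟨hcand, h⟩
      rw [this, min_self]
      linarith
  · have e : c.b (k+1) = c.b k := by rw [HD.b, if_neg hcand]
    rw [e, if_neg hcand, if_neg (fun h => hcand h.1)]
    exact ⟨le_refl _, by linarith⟩

theorem HD.after_anti (c : HD) (hc : c.Ok) (k k' : ℕ) (hk : c.ke ≤ k) (hkk : k ≤ k') :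
    c.b k' ≤ c.b k := by
  induction k', hkk using Nat.le_induction with
  | base => exact le_refl _
  | succ n hn ih => exact le_trans (c.after_step hc n (by omega)).1 ih

open Classical in
theorem HD.after_loss (c : HD) (hc : c.Ok) (k : ℕ) (hk : c.ke ≤ k) :
    c.b c.ke - ((Finset.Ico c.ke k).filter (fun k' => |c.oo k'| ≤ c.C1)).card * c.η
      - ((Finset.Ico c.ke k).filter (fun k' => c.Tch k')).card * (c.rmax * c.xd) ≤ c.b k := by
  have key : c.b c.ke - (∑ k' ∈ Finset.Ico c.ke k, if |c.oo k'| ≤ c.C1 then c.η else 0)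
      - (∑ k' ∈ Finset.Ico c.ke k, if c.Tch k' then c.rmax * c.xd else 0) ≤ c.b k := by
    induction k, hk using Nat.le_induction with
    | base => simp
    | succ n hn ih =>
      rw [Finset.sum_Ico_succ_top hn, Finset.sum_Ico_succ_top hn]
      have := (c.after_step hc n hn).2
      linarith
  rw [← Finset.sum_filter, Finset.sum_const, nsmul_eq_mul, ← Finset.sum_filter, Finset.sum_const,
    nsmul_eq_mul] at key
  exact key

theorem HD.after_tch (c : HD) (hc : c.Ok) (k : ℕ) (hk : k < c.kf) (hT : c.Tch k) (Δ : ℕ → ℤ) :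
    ∃ (i2 r : ℤ) (j : ℕ), 0 < c.ρ (k % c.ℓ) ∧ j < c.ns ∧ |(i2:ℝ)| ≤ c.I ∧
      c.tt k = c.t (k % c.ℓ) + (r + j * Δ (k % c.ℓ)) * c.Q1 + i2 * c.Q2 ∧
      c.oo k = c.a (k % c.ℓ) + c.h * ((r:ℝ) + j * Δ (k % c.ℓ)) + c.xx * i2 ∧
      |c.oo k + c.b k - c.om (k % c.ℓ) * ((c.h : ℝ) * (c.m0 + 2 * c.Pp * j) + c.abar + j * c.dg)|
        < c.ρ (k % c.ℓ) * c.w := by
  obtain ⟨i1, i2, h1, h2, h3, h4⟩ := c.cand_range hc k hk hT.1
  have hi : k % c.ℓ < c.ℓ := Nat.mod_lt _ hc.hℓ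
  have hρ := hc.hρ _ hi
  have hn : ¬ (0 < c.ρ (k % c.ℓ) → c.U ((c.oo k + c.b k) / c.ρ (k % c.ℓ)) =
      (c.oo k + c.b k) / c.ρ (k % c.ℓ)) := by
    intro h
    exact hT.2 (act_off c.U _ _ _ _ hρ (hc.hε _) h)
  rw [Classical.not_imp] at hn
  obtain ⟨hp, hn⟩ := hn
  have hj : ∃ j < c.ns, |(c.oo k + c.b k) / c.ρ (k % c.ℓ) - c.X j| < c.w := by
    by_contra hcon
    push Not at hcon
    exact hn (hc.U1 _ hcon)
  obtain ⟨j, hj, hX⟩ := hj
  refine ⟨i2, i1 - j * Δ (k % c.ℓ), j, hp, hj, h3, ?_, ?_, ?_⟩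
  · rw [h1]; ring
  · rw [h2]; push_cast; ring
  · have e : c.oo k + c.b k - c.om (k % c.ℓ) *
        ((c.h : ℝ) * (c.m0 + 2 * c.Pp * j) + c.abar + j * c.dg) =
        c.ρ (k % c.ℓ) * ((c.oo k + c.b k) / c.ρ (k % c.ℓ) - c.X j) := by
      have h0 := hc.hρ0.ne'
      unfold HD.om HD.X
      field_simp
    rw [e, abs_mul, abs_of_pos hp]
    exact mul_lt_mul_of_pos_left hX hp

theorem HD.after_om (c : HD) (hc : c.Ok) (i : ℕ) (hi : i < c.ℓ) (hp : 0 < c.ρ i) :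
    0 < c.om i ∧ c.om i ≤ c.rmax / c.ρ c.c0 ∧ c.ρ i * c.w = c.om i * (c.ρ c.c0 * c.w) ∧
      c.ρ c.c0 * c.w ≤ 1 / 2 := by
  have h0 := hc.hρ0
  refine ⟨div_pos hp h0, div_le_div_of_nonneg_right (hc.hrmax _ hi) h0.le, ?_, ?_⟩
  · unfold HD.om
    field_simp
  · have h1 := hc.hd0
    have h2 := hc.hd0'
    have h3 : 0 < c.ρ c.c0 * c.xd := mul_pos h0 hc.hxd
    have h4 : (0:ℝ) ≤ c.ℓ := Nat.cast_nonneg _
    have e : c.ρ c.c0 * c.w = (c.ℓ + 5) * (c.ρ c.c0 * c.xd) := by unfold HD.w; ring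
    rw [e]
    nlinarith

theorem HD.after_r (c : HD) (hc : c.Ok) (k i : ℕ) (hi : i < c.ℓ) (hp : 0 < c.ρ i)
    (D : ℤ) (hD : |c.om i * (2 * c.Pp) - D| ≤ c.om i * c.dg / 2)
    (i2 r : ℤ) (j : ℕ) (hj : j < c.ns) (h2 : |(i2 : ℝ)| ≤ c.I) (hb : |c.b k| ≤ 5)
    (ho : c.oo k = c.a i + c.h * ((r:ℝ) + j * D) + c.xx * i2)
    (h : |c.oo k + c.b k - c.om i * ((c.h : ℝ) * (c.m0 + 2 * c.Pp * j) + c.abar + j * c.dg)|
        < c.ρ i * c.w) :
    |(r : ℝ) - c.om i * c.m0| ≤ c.A0 + 2 * c.I + 5 + (c.rmax / c.ρ c.c0) * (c.A0 + 7) := by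
  obtain ⟨ho1, ho2, ho3, ho4⟩ := c.after_om hc i hi hp
  have hA := hc.hA0
  have ha := hc.ha i hi
  have hab := hc.habar
  have hx1 := hc.x1
  have hx2 := hc.x2
  have hg := hc.hgain'
  have hg' := hc.hgain
  have hjn : (j : ℝ) ≤ c.ns := by exact_mod_cast hj.le
  have hj0 : (0 : ℝ) ≤ j := Nat.cast_nonneg _
  have hdg : 0 < c.dg := by
    by_contra hcon
    push Not at hcon
    have : (c.ns : ℝ) * c.dg ≤ 0 := mul_nonpos_of_nonneg_of_nonpos (Nat.cast_nonneg _) hcon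
    linarith
  have hjd : j * c.dg ≤ 4 := le_trans (mul_le_mul_of_nonneg_right hjn hdg.le) hg
  have hjd0 : 0 ≤ j * c.dg := mul_nonneg hj0 hdg.le
  rw [ho3] at h
  have hw : c.om i * (c.ρ c.c0 * c.w) ≤ c.om i * (1 / 2) := mul_le_mul_of_nonneg_left ho4 ho1.le
  have hxi : |c.xx * i2| ≤ 2 * c.I := by
    rw [abs_mul]
    have : |c.xx| ≤ 2 := abs_le.2 ⟨by linarith, by linarith⟩
    exact mul_le_mul this h2 (abs_nonneg _) (by norm_num)
  have hJ : |(j:ℝ) * (D - c.om i * (2 * c.Pp))| ≤ c.om i * 2 := by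
    rw [abs_mul, abs_of_nonneg hj0, abs_sub_comm]
    calc (j:ℝ) * |c.om i * (2 * c.Pp) - D| ≤ j * (c.om i * c.dg / 2) :=
          mul_le_mul_of_nonneg_left hD hj0
      _ = c.om i * ((j * c.dg) / 2) := by ring
      _ ≤ c.om i * 2 := mul_le_mul_of_nonneg_left (by linarith) ho1.le
  have hob : |c.om i * c.abar| ≤ c.om i * c.A0 := by
    rw [abs_mul, abs_of_pos ho1]
    exact mul_le_mul_of_nonneg_left hab ho1.le
  have hojd : c.om i * (j * c.dg) ≤ c.om i * 4 := mul_le_mul_of_nonneg_left hjd ho1.le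
  have hojd0 : 0 ≤ c.om i * (j * c.dg) := mul_nonneg ho1.le hjd0
  have hfin : c.om i * (c.A0 + 7) ≤ (c.rmax / c.ρ c.c0) * (c.A0 + 7) :=
    mul_le_mul_of_nonneg_right ho2 (by linarith)
  have hoA : 0 ≤ c.om i * c.A0 := mul_nonneg ho1.le (by linarith)
  rw [ho] at h
  have h' := abs_lt.1 h
  have ha' := abs_le.1 ha
  have hb' := abs_le.1 hb
  have hxi' := abs_le.1 hxi
  have hJ' := abs_le.1 hJ
  have hob' := abs_le.1 hob
  rcases hc.hh with hh | hh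
  · rw [hh] at h'
    push_cast at h'
    apply abs_le.2
    constructor
    · linarith [h'.1, h'.2, ha'.1, ha'.2, hb'.1, hb'.2, hxi'.1, hxi'.2, hJ'.1, hJ'.2, hob'.1, hob'.2]
    · linarith [h'.1, h'.2, ha'.1, ha'.2, hb'.1, hb'.2, hxi'.1, hxi'.2, hJ'.1, hJ'.2, hob'.1, hob'.2]
  · rw [hh] at h'
    push_cast at h'
    apply abs_le.2
    constructor
    · linarith [h'.1, h'.2, ha'.1, ha'.2, hb'.1, hb'.2, hxi'.1, hxi'.2, hJ'.1, hJ'.2, hob'.1, hob'.2]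
    · linarith [h'.1, h'.2, ha'.1, ha'.2, hb'.1, hb'.2, hxi'.1, hxi'.2, hJ'.1, hJ'.2, hob'.1, hob'.2]

theorem HD.after_j (c : HD) (hc : c.Ok) (k k' i : ℕ) (hi : i < c.ℓ) (hp : 0 < c.ρ i)
    (hki : k % c.ℓ = i) (hki' : k' % c.ℓ = i) (hke : c.ke ≤ k) (hkk : k < k')
    (D : ℤ) (hD1 : 1 ≤ D) (hD : |c.om i * (2 * c.Pp) - D| ≤ c.om i * c.dg / 2)
    (i2 r : ℤ) (j j' : ℕ)
    (ht : c.tt k = c.t i + (r + j * D) * c.Q1 + i2 * c.Q2)
    (ht' : c.tt k' = c.t i + (r + j' * D) * c.Q1 + i2 * c.Q2)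
    (ho : c.oo k = c.a i + c.h * ((r:ℝ) + j * D) + c.xx * i2)
    (ho' : c.oo k' = c.a i + c.h * ((r:ℝ) + j' * D) + c.xx * i2)
    (h : |c.oo k + c.b k - c.om i * ((c.h : ℝ) * (c.m0 + 2 * c.Pp * j) + c.abar + j * c.dg)|
        < c.ρ i * c.w)
    (h' : |c.oo k' + c.b k' - c.om i * ((c.h : ℝ) * (c.m0 + 2 * c.Pp * j') + c.abar + j' * c.dg)|
        < c.ρ i * c.w) :
    j < j' ∧ j' < j + (4 * c.ℓ + 20) := by
  obtain ⟨ho1, ho2, ho3, ho4⟩ := c.after_om hc i hi hp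
  have hQ := hc.hQ1
  have hlt : k / c.ℓ < k' / c.ℓ := by
    have e1 := Nat.div_add_mod k c.ℓ
    have e2 := Nat.div_add_mod k' c.ℓ
    by_contra hcon
    push Not at hcon
    have := Nat.mul_le_mul_left c.ℓ hcon
    omega
  have htt : c.tt k < c.tt k' := by
    unfold HD.tt
    have : ((k / c.ℓ : ℕ) : ℤ) < ((k' / c.ℓ : ℕ) : ℤ) := by exact_mod_cast hlt
    linarith
  have hjj : j < j' := by
    rw [ht, ht'] at htt
    have h1 : (r + j * D) * c.Q1 < (r + j' * D) * c.Q1 := by linarith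
    have h2 : r + j * D < r + j' * D := lt_of_mul_lt_mul_right h1 hQ.le
    have h3 : (j : ℤ) * D < j' * D := by linarith
    have h4 : (j : ℤ) < j' := lt_of_mul_lt_mul_right h3 (by linarith)
    exact_mod_cast h4
  refine ⟨hjj, ?_⟩
  have hbb : c.b k' ≤ c.b k := c.after_anti hc k k' hke hkk.le
  have hdj : (0:ℝ) < (j' : ℝ) - j := by
    have : (j : ℝ) < j' := by exact_mod_cast hjj
    linarith
  have hJ : |((j':ℝ) - j) * (D - c.om i * (2 * c.Pp))| ≤ ((j':ℝ) - j) * (c.om i * c.dg / 2) := by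
    rw [abs_mul, abs_of_pos hdj, abs_sub_comm (D : ℝ)]
    exact mul_le_mul_of_nonneg_left hD hdj.le
  rw [ho3, ho] at h
  rw [ho3, ho'] at h'
  have e1 := (abs_lt.1 h).2
  have e2 := (abs_lt.1 h').1
  have hJ' := abs_le.1 hJ
  have main : ((j':ℝ) - j) * (c.om i * c.dg / 2) < 2 * (c.om i * (c.ρ c.c0 * c.w)) := by
    rcases hc.hh with hh | hh
    · rw [hh] at e1 e2
      push_cast at e1 e2
      linarith [hJ'.1, hJ'.2]
    · rw [hh] at e1 e2
      push_cast at e1 e2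
      linarith [hJ'.1, hJ'.2]
  have m2 : ((j':ℝ) - j) * c.dg < 4 * (c.ρ c.c0 * c.w) := by
    have : c.om i * (((j':ℝ) - j) * c.dg) < c.om i * (4 * (c.ρ c.c0 * c.w)) := by linarith
    exact lt_of_mul_lt_mul_left this ho1.le
  have hρx : 0 < c.ρ c.c0 * c.xd := mul_pos hc.hρ0 hc.hxd
  have hdg : c.ρ c.c0 * c.xd ≤ c.dg := by
    unfold HD.dg
    have : (1:ℝ) ≤ ((c.sg * c.nK : ℤ) : ℝ) := by exact_mod_cast hc.hnK
    nlinarith
  have m3 : ((j':ℝ) - j) * (c.ρ c.c0 * c.xd) < (4 * (c.ℓ + 5)) * (c.ρ c.c0 * c.xd) := by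
    have e : 4 * (c.ρ c.c0 * c.w) = (4 * (c.ℓ + 5)) * (c.ρ c.c0 * c.xd) := by unfold HD.w; ring
    rw [← e]
    exact lt_of_le_of_lt (mul_le_mul_of_nonneg_left hdg hdj.le) m2
  have m4 : (j':ℝ) - j < 4 * (c.ℓ + 5) := lt_of_mul_lt_mul_right m3 hρx.le
  have m5 : (j' : ℝ) < ((j + (4 * c.ℓ + 20) : ℕ) : ℝ) := by push_cast; linarith
  exact_mod_cast m5

theorem HD.after_icc (u B : ℝ) (hB : 0 ≤ B) :
    ((Finset.Icc ⌈u - B⌉ ⌊u + B⌋).card : ℝ) ≤ 2 * B + 1 := by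
  rw [Int.card_Icc]
  have h1 : ((⌊u + B⌋ + 1 - ⌈u - B⌉ : ℤ) : ℝ) ≤ 2 * B + 1 := by
    push_cast
    have := Int.floor_le (u + B)
    have := Int.le_ceil (u - B)
    linarith
  rcases le_total 0 (⌊u + B⌋ + 1 - ⌈u - B⌉) with h | h
  · have e : (((⌊u + B⌋ + 1 - ⌈u - B⌉).toNat : ℕ) : ℤ) = ⌊u + B⌋ + 1 - ⌈u - B⌉ :=
      Int.toNat_of_nonneg h
    have e' : (((⌊u + B⌋ + 1 - ⌈u - B⌉).toNat : ℕ) : ℝ) = ((⌊u + B⌋ + 1 - ⌈u - B⌉ : ℤ) : ℝ) := by
      exact_mod_cast congrArg (fun z : ℤ => (z : ℝ)) e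
    rw [e']
    exact h1
  · rw [Int.toNat_of_nonpos h]
    push_cast
    linarith

open Classical in
theorem HD.after_count (c : HD) (hc : c.Ok) (k : ℕ) (hk : k ≤ c.kf)
    (hb : ∀ k', c.ke ≤ k' → k' < k → |c.b k'| ≤ 5) :
    (((Finset.Ico c.ke k).filter (fun k' => c.Tch k')).card : ℝ) ≤
      c.ℓ * (2 * c.I + 1) * (2 * (c.A0 + 2 * c.I + 5 + (c.rmax / c.ρ c.c0) * (c.A0 + 7)) + 1)
    * (4 * c.ℓ + 21) := by
  set T := (Finset.Ico c.ke k).filter (fun k' => c.Tch k') with hTdef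
  set B : ℝ := c.A0 + 2 * c.I + 5 + (c.rmax / c.ρ c.c0) * (c.A0 + 7) with hBdef
  have hB0 : 0 ≤ B := by
    have h1 := hc.hA0
    have h2 : 0 < c.rmax / c.ρ c.c0 := div_pos (c.after_rm hc) hc.hρ0
    have h3 : (0:ℝ) ≤ c.I := Nat.cast_nonneg _
    have h4 : 0 < (c.rmax / c.ρ c.c0) * (c.A0 + 7) := mul_pos h2 (by linarith)
    rw [hBdef]
    linarith
  have hΔ : ∀ i, ∃ Δ : ℤ, i < c.ℓ → 0 < c.ρ i →
      1 ≤ Δ ∧ |c.om i * (2 * c.Pp) - Δ| ≤ c.om i * c.dg / 2 := by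
    intro i
    by_cases h1 : i < c.ℓ ∧ 0 < c.ρ i
    · obtain ⟨Δ, h⟩ := hc.hΔ i h1.1 h1.2
      exact ⟨Δ, fun _ _ => h⟩
    · exact ⟨0, fun h2 h3 => absurd ⟨h2, h3⟩ h1⟩
  choose Δ hΔ using hΔ
  have hmem : ∀ k', k' ∈ T → c.ke ≤ k' ∧ k' < k ∧ c.Tch k' := by
    intro k' h
    rw [hTdef, Finset.mem_filter, Finset.mem_Ico] at h
    exact ⟨h.1.1, h.1.2, h.2⟩
  have hex : ∀ k' : ℕ, ∃ (i2 r : ℤ) (j : ℕ), k' ∈ T → 0 < c.ρ (k' % c.ℓ) ∧ j < c.ns ∧
      |(i2:ℝ)| ≤ c.I ∧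
      c.tt k' = c.t (k' % c.ℓ) + (r + j * Δ (k' % c.ℓ)) * c.Q1 + i2 * c.Q2 ∧
      c.oo k' = c.a (k' % c.ℓ) + c.h * ((r:ℝ) + j * Δ (k' % c.ℓ)) + c.xx * i2 ∧
      |c.oo k' + c.b k' - c.om (k' % c.ℓ) *
        ((c.h : ℝ) * (c.m0 + 2 * c.Pp * j) + c.abar + j * c.dg)| < c.ρ (k' % c.ℓ) * c.w := by
    intro k'
    by_cases hm : k' ∈ T
    · obtain ⟨h1, h2, h3⟩ := hmem k' hm
      obtain ⟨i2, r, j, h⟩ := c.after_tch hc k' (by omega) h3 Δ
      exact ⟨i2, r, j, fun _ => h⟩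
    · exact ⟨0, 0, 0, fun h => absurd h hm⟩
  choose i2 r j hP using hex
  have hmod : ∀ k' : ℕ, k' % c.ℓ < c.ℓ := fun k' => Nat.mod_lt _ hc.hℓ
  -- the classifying map
  let φ : ℕ → ℕ × (ℤ × ℤ) := fun k' => (k' % c.ℓ, (i2 k', r k'))
  have hfib : ∀ p ∈ T.image φ, (T.filter (fun x => φ x = p)).card ≤ 4 * c.ℓ + 20 := by
    intro p _
    rcases (T.filter (fun x => φ x = p)).eq_empty_or_nonempty with he | hne
    · rw [he]; simp
    · set F := T.filter (fun x => φ x = p) with hF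
      have hFm : ∀ x ∈ F, x ∈ T ∧ x % c.ℓ = p.1 ∧ i2 x = p.2.1 ∧ r x = p.2.2 := by
        intro x hx
        rw [hF, Finset.mem_filter] at hx
        obtain ⟨hx1, hx2⟩ := hx
        refine ⟨hx1, ?_, ?_, ?_⟩
        · rw [← hx2]
        · rw [← hx2]
        · rw [← hx2]
      have hpair : ∀ x ∈ F, ∀ y ∈ F, x < y → j x < j y ∧ j y < j x + (4 * c.ℓ + 20) := by
        intro x hx y hy hxy
        obtain ⟨hx1, hx2, hx3, hx4⟩ := hFm x hx
        obtain ⟨hy1, hy2, hy3, hy4⟩ := hFm y hy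
        have hPx := hP x hx1
        have hPy := hP y hy1
        rw [hx2, hx3, hx4] at hPx
        rw [hy2, hy3, hy4] at hPy
        have hi : p.1 < c.ℓ := by rw [← hx2]; exact hmod x
        have hD := hΔ p.1 hi hPx.1
        exact c.after_j hc x y p.1 hi hPx.1 hx2 hy2 (hmem x hx1).1 hxy (Δ p.1) hD.1 hD.2 p.2.1 p.2.2
          (j x) (j y) hPx.2.2.2.1 hPy.2.2.2.1 hPx.2.2.2.2.1 hPy.2.2.2.2.1 hPx.2.2.2.2.2
          hPy.2.2.2.2.2
      have hmin := F.min'_mem hne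
      set x0 := F.min' hne with hx0
      have hcard : F.card ≤ (Finset.Ico (j x0) (j x0 + (4 * c.ℓ + 20))).card := by
        apply Finset.card_le_card_of_injOn j
        · intro x hx
          have hx' : x ∈ F := hx
          have hle : x0 ≤ x := F.min'_le x hx'
          rcases hle.eq_or_lt with h | h
          · rw [← h]
            simp
          · have := hpair x0 hmin x hx' h
            simp only [Finset.coe_Ico, Set.mem_Ico]
            omega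
        · intro x hx y hy hxy
          have hx' : x ∈ F := hx
          have hy' : y ∈ F := hy
          rcases lt_trichotomy x y with h | h | h
          · have := (hpair x hx' y hy' h).1
            omega
          · exact h
          · have := (hpair y hy' x hx' h).1
            omega
      rw [Nat.card_Ico] at hcard
      omega
  have hT1 : T.card ≤ (4 * c.ℓ + 20) * (T.image φ).card :=
    Finset.card_le_mul_card_image T _ hfib
  let NB : ℕ := ⌊2 * B + 1⌋₊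
  have hNB : (NB : ℝ) ≤ 2 * B + 1 := Nat.floor_le (by linarith)
  let Rs : ℕ → Finset ℤ := fun i => Finset.Icc ⌈c.om i * c.m0 - B⌉ ⌊c.om i * c.m0 + B⌋
  have hRs : ∀ i, (Rs i).card ≤ NB := by
    intro i
    exact Nat.le_floor (HD.after_icc _ _ hB0)
  have hsub : T.image φ ⊆ (Finset.range c.ℓ).biUnion
      (fun i => ({i} : Finset ℕ) ×ˢ ((Finset.Icc (-(c.I : ℤ)) (c.I : ℤ)) ×ˢ Rs i)) := by
    intro p hp
    rw [Finset.mem_image] at hp
    obtain ⟨x, hx, rfl⟩ := hp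
    rw [Finset.mem_biUnion]
    obtain ⟨h1, h2, h3, h4, h5, h6⟩ := hP x hx
    refine ⟨x % c.ℓ, Finset.mem_range.2 (hmod x), ?_⟩
    rw [Finset.mem_product, Finset.mem_product]
    refine ⟨Finset.mem_singleton.2 rfl, ?_, ?_⟩
    · rw [Finset.mem_Icc]
      have := abs_le.1 h3
      constructor
      · have h7 := this.1
        show -(c.I : ℤ) ≤ i2 x
        exact_mod_cast h7
      · have h7 := this.2
        show i2 x ≤ (c.I : ℤ)
        exact_mod_cast h7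
    · show r x ∈ Finset.Icc _ _
      have hD := hΔ _ (hmod x) h1
      have hxm := hmem x hx
      have := abs_le.1 (c.after_r hc x (x % c.ℓ) (hmod x) h1 _ hD.2 (i2 x) (r x) (j x) h2 h3
        (hb x hxm.1 hxm.2.1) h5 h6)
      rw [Finset.mem_Icc]
      constructor
      · rw [Int.ceil_le]; linarith [this.1]
      · rw [Int.le_floor]; linarith [this.2]
  have hcardI : (Finset.Icc (-(c.I : ℤ)) (c.I : ℤ)).card = 2 * c.I + 1 := by
    rw [Int.card_Icc]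
    omega
  have hT2 : (T.image φ).card ≤ c.ℓ * ((2 * c.I + 1) * NB) := by
    refine le_trans (Finset.card_le_card hsub) ?_
    refine le_trans (Finset.card_biUnion_le_card_mul _ _ ((2 * c.I + 1) * NB) ?_) ?_
    · intro i _
      rw [Finset.card_product, Finset.card_product, Finset.card_singleton, one_mul, hcardI]
      exact Nat.mul_le_mul_left _ (hRs i)
    · rw [Finset.card_range]
  have hT3 : T.card ≤ (4 * c.ℓ + 20) * (c.ℓ * ((2 * c.I + 1) * NB)) :=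
    le_trans hT1 (Nat.mul_le_mul_left _ hT2)
  have hT4 : (T.card : ℝ) ≤ (4 * c.ℓ + 20) * (c.ℓ * ((2 * c.I + 1) * NB)) := by
    exact_mod_cast hT3
  have hl : (0:ℝ) ≤ c.ℓ := Nat.cast_nonneg _
  have hI : (0:ℝ) ≤ c.I := Nat.cast_nonneg _
  calc (T.card : ℝ) ≤ (4 * c.ℓ + 20) * (c.ℓ * ((2 * c.I + 1) * NB)) := hT4
    _ ≤ (4 * c.ℓ + 20) * (c.ℓ * ((2 * c.I + 1) * (2 * B + 1))) := by
        apply mul_le_mul_of_nonneg_left _ (by positivity)
        apply mul_le_mul_of_nonneg_left _ hl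
        exact mul_le_mul_of_nonneg_left hNB (by positivity)
    _ ≤ (4 * c.ℓ + 21) * (c.ℓ * ((2 * c.I + 1) * (2 * B + 1))) := by
        apply mul_le_mul_of_nonneg_right (by linarith)
        have : 0 ≤ 2 * B + 1 := by linarith
        positivity
    _ = c.ℓ * (2 * c.I + 1) * (2 * B + 1) * (4 * c.ℓ + 21) := by ring

/-- TARGET -/
theorem HD.after (c : HD) (hc : c.Ok) (hke : |c.b c.ke - c.ns * c.dg| ≤ 1 / 4) :
    ∀ k, c.ke ≤ k → k ≤ c.kf → c.b c.ke - 1 / 2 ≤ c.b k ∧ c.b k ≤ c.b c.ke := by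
  classical
  intro k
  induction k using Nat.strong_induction_on with
  | _ k ih =>
    intro h1 h2
    refine ⟨?_, c.after_anti hc _ _ le_rfl h1⟩
    have hloss := c.after_loss hc k h1
    have hk' := abs_le.1 hke
    have hg := hc.hgain
    have hg' := hc.hgain'
    have hcount := c.after_count hc k h2 (by
      intro k' h3 h4
      have := ih k' h4 h3 (by omega)
      exact abs_le.2 ⟨by linarith [this.1], by linarith [this.2]⟩)
    have hrx : 0 < c.rmax * c.xd := mul_pos (c.after_rm hc) hc.hxd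
    have hA : (((Finset.Ico c.ke k).filter (fun k' => c.Tch k')).card : ℝ) * (c.rmax * c.xd)
        ≤ 1 / 4 := le_trans (mul_le_mul_of_nonneg_right hcount hrx.le) hc.hT
    have hcnt := c.cnt_le hc k h2
    have hcard : (((Finset.Ico c.ke k).filter (fun k' => |c.oo k'| ≤ c.C1)).card : ℝ) ≤ c.R := by
      refine le_trans ?_ hcnt
      unfold HD.cnt
      have : ((Finset.Ico c.ke k).filter (fun k' => |c.oo k'| ≤ c.C1)).card ≤
          ((Finset.range k).filter (fun k' => |c.oo k'| ≤ c.C1)).card := by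
        apply Finset.card_le_card
        intro x hx
        rw [Finset.mem_filter, Finset.mem_Ico] at hx
        rw [Finset.mem_filter, Finset.mem_range]
        exact ⟨hx.1.2, hx.2⟩
      convert (Nat.cast_le (α := ℝ)).2 this
    have hB : (((Finset.Ico c.ke k).filter (fun k' => |c.oo k'| ≤ c.C1)).card : ℝ) * c.η ≤ 1 / 4 :=
      le_trans (mul_le_mul_of_nonneg_right hcard hc.hη.le) hc.hη2
    linarith

end Pool.Agent.Helper29.Rot
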