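import Pool.Agent.Helper29.RotH2
import Pool.Agent.Helper29.RotH3

set_option autoImplicit false

open CircleDeg1Lift Set

namespace Pool.Agent.Helper29.Rot

/-- TARGET -/
theorem HD.contra (c : HD) (hc : c.Ok) (B : ℝ) (hB : 6 ≤ B)
    (hN : ∀ (N : ℕ) (M : ℤ), 0 < N → (N : ℝ) * c.θ < M →
      ∀ (ts : ℤ) (b : ℕ → ℝ), (∀ k, k ≤ N * c.ℓ → |b k| ≤ B) →
      (∀ k, k < N * c.ℓ →
        (∀ l : ℤ, c.C1 < |c.S * (((ts : ℝ) + ((k / c.ℓ : ℕ) : ℝ)) * c.θ - l - c.Y (k % c.ℓ))|) →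
        b (k + 1) ≤ b k) →
      (∀ k, k < N * c.ℓ → ∀ l : ℤ,
        |c.S * (((ts : ℝ) + ((k / c.ℓ : ℕ) : ℝ)) * c.θ - l - c.Y (k % c.ℓ))| ≤ c.C1 →
        b (k + 1) ≤ act c.U (c.ρ (k % c.ℓ)) (c.ε (k % c.ℓ))
          (c.S * (((ts : ℝ) + ((k / c.ℓ : ℕ) : ℝ)) * c.θ - l - c.Y (k % c.ℓ))) (b k) - c.η) →
      b (N * c.ℓ) - b 0 ≤ c.S * (M - N * c.θ)) : False := by
  have hS : 0 < c.S := by linarith [hc.hS]
  have hQ2 : (0 : ℝ) < c.Q2 := by linarith [hc.q1]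
  have hQ2' : 0 < c.Q2 := by exact_mod_cast hQ2
  have hNz : ((c.Q2.toNat : ℕ) : ℤ) = c.Q2 := Int.toNat_of_nonneg hQ2'.le
  have hNr : ((c.Q2.toNat : ℕ) : ℝ) = c.Q2 := by
    rw [← Int.cast_natCast, hNz]
  have hNpos : 0 < c.Q2.toNat := by omega
  obtain ⟨hslot, hke⟩ := HD.slot c hc
  have hafter := HD.after c hc hke
  have hxx : c.xx = c.S * (c.Q2 * c.θ - c.P2) := rfl
  have htt : ∀ k, ((c.tt k : ℤ) : ℝ) = (c.ts : ℝ) + ((k / c.ℓ : ℕ) : ℝ) := by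
    intro k
    show (((c.ts + ((k / c.ℓ : ℕ) : ℤ)) : ℤ) : ℝ) = _
    push_cast
    rfl
  have hθ : ((c.Q2.toNat : ℕ) : ℝ) * c.θ < c.P2 := by
    rw [hNr]
    have h1 : c.S * (c.Q2 * c.θ - c.P2) < -1 := hxx ▸ hc.x2
    by_contra h
    push Not at h
    have : 0 ≤ c.S * (c.Q2 * c.θ - c.P2) := mul_nonneg hS.le (by linarith)
    linarith
  have hbound : ∀ k, k ≤ c.Q2.toNat * c.ℓ → |c.b k| ≤ B := by
    intro k hk
    rcases le_total k c.ke with h | h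
    · obtain ⟨h1, h2⟩ := hslot k h
      rw [abs_le]
      constructor <;> linarith
    · obtain ⟨h1, h2⟩ := hafter k h hk
      obtain ⟨h3, h4⟩ := hslot c.ke le_rfl
      rw [abs_le]
      constructor <;> linarith
  have hoff : ∀ (k : ℕ) (l : ℤ), l = round ((c.tt k : ℝ) * c.θ - c.Y (k % c.ℓ)) →
      c.S * (((c.ts : ℝ) + ((k / c.ℓ : ℕ) : ℝ)) * c.θ - l - c.Y (k % c.ℓ)) = c.oo k := by
    intro k l hl
    show _ = c.S * ((c.tt k : ℝ) * c.θ - c.Y (k % c.ℓ) -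
      (round ((c.tt k : ℝ) * c.θ - c.Y (k % c.ℓ)) : ℤ))
    rw [← hl, htt k]
    ring
  have hfin := hN c.Q2.toNat c.P2 hNpos hθ c.ts c.b hbound ?_ ?_
  · have h0 : c.b 0 = 0 := rfl
    obtain ⟨h1, _⟩ := hafter c.kf hc.hke le_rfl
    have h2 : c.b (c.Q2.toNat * c.ℓ) = c.b c.kf := rfl
    have h3 := (abs_le.mp hke).1
    have h4 := hc.hgain
    have h5 : c.S * ((c.P2 : ℝ) - ((c.Q2.toNat : ℕ) : ℝ) * c.θ) = -c.xx := by
      rw [hNr, hxx]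
      ring
    rw [h0, h2, h5] at hfin
    linarith [hc.x1]
  · intro k _ hl
    have h1 := hl (round ((c.tt k : ℝ) * c.θ - c.Y (k % c.ℓ)))
    rw [hoff k _ rfl] at h1
    rw [HD.b, if_neg (not_le.mpr h1)]
  · intro k _ l hl
    have hround : l = round ((c.tt k : ℝ) * c.θ - c.Y (k % c.ℓ)) := by
      have h1 := abs_sub_round ((c.tt k : ℝ) * c.θ - c.Y (k % c.ℓ))
      have h2 : |((c.tt k : ℝ) * c.θ - c.Y (k % c.ℓ)) - l| < 1 / 4 := by
        have h3 : c.S * (((c.ts : ℝ) + ((k / c.ℓ : ℕ) : ℝ)) * c.θ - l - c.Y (k % c.ℓ)) =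
            c.S * (((c.tt k : ℝ) * c.θ - c.Y (k % c.ℓ)) - l) := by
          rw [htt k]
          ring
        rw [h3, abs_mul, abs_of_pos hS] at hl
        have h4 := hc.hSC
        by_contra h
        push Not at h
        have h5 : c.S * (1 / 4) ≤ c.S * |((c.tt k : ℝ) * c.θ - c.Y (k % c.ℓ)) - l| :=
          mul_le_mul_of_nonneg_left h hS.le
        linarith
      have h6 : |(l : ℝ) - (round ((c.tt k : ℝ) * c.θ - c.Y (k % c.ℓ)) : ℤ)| < 1 := by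
        rw [abs_le] at h1
        rw [abs_lt] at h2 ⊢
        constructor <;> linarith [h1.1, h1.2, h2.1, h2.2]
      have h7 : |l - round ((c.tt k : ℝ) * c.θ - c.Y (k % c.ℓ))| < 1 := by exact_mod_cast h6
      have h8 := Int.abs_lt_one_iff.mp h7
      omega
    have hoo := hoff k l hround
    rw [hoo] at hl ⊢
    rw [HD.b, if_pos hl]
    split_ifs with h
    · exact le_rfl
    · have := min_le_right (c.b k)
        (act c.U (c.ρ (k % c.ℓ)) (c.ε (k % c.ℓ)) (c.oo k) (c.b k))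
      linarith

end Pool.Agent.Helper29.Rot
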