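import Pool.Agent.Helper29.RotDefs

set_option autoImplicit false

open CircleDeg1Lift Set

namespace Pool.Agent.Helper29.Rot

/-- fixed scale data (case of unbounded type) -/
structure HD where
  ℓ : ℕ
  ε : ℕ → ℤ
  ρ : ℕ → ℝ
  Y : ℕ → ℝ
  θ : ℝ
  S : ℝ
  Q1 : ℤ
  P1 : ℤ
  Q2 : ℤ
  P2 : ℤ
  h : ℤ
  t : ℕ → ℤ
  l : ℕ → ℤ
  K : Finset ℕ
  c0 : ℕ
  A0 : ℝ
  I : ℕ
  abar : ℝ
  Lg : ℝ
  d0 : ℝ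
  xd : ℝ
  sg : ℤ
  ns : ℕ
  Pp : ℕ
  m0 : ℤ
  U : ℝ ≃o ℝ
  C1 : ℝ
  η : ℝ
  rmax : ℝ

namespace HD
variable (c : HD)

/-- offset of the base point of class `i` -/
noncomputable def a (i : ℕ) : ℝ := c.S * (c.t i * c.θ - c.l i - c.Y i)
/-- offset of the second basis vector -/
noncomputable def xx : ℝ := c.S * (c.Q2 * c.θ - c.P2)
/-- net exponent of the cluster -/
def nK : ℤ := ∑ i ∈ c.K, c.ε i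
/-- gain per site -/
noncomputable def dg : ℝ := c.ρ c.c0 * c.xd * ((c.sg * c.nK : ℤ) : ℝ)
/-- centre of the `j`-th bump -/
noncomputable def X (j : ℕ) : ℝ :=
  ((c.h : ℝ) * (c.m0 + 2 * c.Pp * j) + c.abar + j * c.dg) / c.ρ c.c0
/-- flat half width -/
noncomputable def f : ℝ := (c.ℓ + 3) * c.xd
/-- support half width -/
noncomputable def w : ℝ := (c.ℓ + 5) * c.xd
/-- starting time -/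
def ts : ℤ := c.t c.c0 + (c.m0 - c.Pp) * c.Q1
/-- time of step `k` -/
def tt (k : ℕ) : ℤ := c.ts + ((k / c.ℓ : ℕ) : ℤ)
/-- offset at step `k` (w.r.t. nearest integer) -/
noncomputable def oo (k : ℕ) : ℝ :=
  c.S * ((c.tt k : ℝ) * c.θ - c.Y (k % c.ℓ) - (round ((c.tt k : ℝ) * c.θ - c.Y (k % c.ℓ)) : ℤ))
/-- number of steps of a window -/
def W : ℕ := (2 * (c.Pp : ℤ) * c.Q1).toNat * c.ℓ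
/-- end of the slot -/
def ke : ℕ := c.ns * c.W
/-- number of all steps -/
def kf : ℕ := c.Q2.toNat * c.ℓ
/-- the barrier -/
noncomputable def b : ℕ → ℝ
  | 0 => 0
  | (k + 1) =>
    open Classical in
    if |c.oo k| ≤ c.C1 then
      (if k < c.ke then act c.U (c.ρ (k % c.ℓ)) (c.ε (k % c.ℓ)) (c.oo k) (b k)
       else min (b k) (act c.U (c.ρ (k % c.ℓ)) (c.ε (k % c.ℓ)) (c.oo k) (b k))) - c.η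
    else b k
/-- number of candidates before `k` -/
noncomputable def cnt (k : ℕ) : ℕ :=
  open Classical in ((Finset.range k).filter (fun k' => |c.oo k'| ≤ c.C1)).card
/-- bound for the first lattice coordinate -/
noncomputable def I1 : ℝ := c.C1 + 2 * c.I + c.A0 + 1
/-- bound for the number of candidates -/
noncomputable def R : ℝ := c.ℓ * (2 * c.I + 1) * (2 * c.I1 + 1)
/-- density ratio -/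
noncomputable def om (i : ℕ) : ℝ := c.ρ i / c.ρ c.c0

/-- all the hypotheses -/
structure Ok : Prop where
  hℓ : 0 < c.ℓ
  hε : ∀ i, c.ε i = 0 ∨ c.ε i = 1 ∨ c.ε i = -1
  hρ : ∀ i, i < c.ℓ → 0 ≤ c.ρ i
  hS : 1 ≤ c.S
  hQ1 : 0 < c.Q1
  det : c.Q1 * c.P2 - c.Q2 * c.P1 = 1 ∨ c.Q1 * c.P2 - c.Q2 * c.P1 = -1
  hh : c.h = 1 ∨ c.h = -1
  e1 : c.S * (c.Q1 * c.θ - c.P1) = c.h
  x1 : -2 ≤ c.xx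
  x2 : c.xx < -1
  q1 : c.S / 2 ≤ c.Q2
  q2 : (c.Q2 : ℝ) ≤ 2 * c.S
  hA0 : 4 ≤ c.A0
  ha : ∀ i, i < c.ℓ → |c.a i| ≤ c.A0
  ht : ∀ i, i < c.ℓ → |(c.t i : ℝ)| ≤ c.A0 * c.S
  habar : |c.abar| ≤ c.A0
  hI : 8 * c.A0 + 20 ≤ c.I
  hK : ∀ i ∈ c.K, i < c.ℓ
  hc0 : c.c0 ∈ c.K
  hρ0 : 0 < c.ρ c.c0
  hKρ : ∀ i ∈ c.K, c.ρ i = c.ρ c.c0
  hsg : c.sg = 1 ∨ c.sg = -1
  hnK : 1 ≤ c.sg * c.nK
  hxd : 0 < c.xd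
  hgain : 3 ≤ c.ns * c.dg
  hgain' : c.ns * c.dg ≤ 4
  hη : 0 < c.η
  hη1 : c.R * c.η ≤ c.ρ c.c0 * c.xd / 4
  hη2 : c.R * c.η ≤ 1 / 4
  hd0 : (2 * c.ℓ + 8) * (c.ρ c.c0 * c.xd) < c.d0
  hd0' : c.d0 ≤ 1 / 2
  hLg : 0 ≤ c.Lg
  hKa : ∀ i ∈ c.K, |c.a i - c.abar| ≤ c.ρ c.c0 * c.xd / 4
  hKt : ∀ i ∈ c.K, |(c.t i : ℝ) - c.t c.c0| ≤ c.Lg * c.Q1
  hP : 2 * c.A0 + 2 * c.I + 12 + c.Lg < c.Pp
  hm0 : 0 < c.m0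
  hm : ∀ i, i < c.ℓ → 0 < c.ρ i → c.ρ i ≠ c.ρ c.c0 →
    c.A0 + 2 * c.I + 7 + c.om i * (c.A0 + 5) + c.ρ i * c.w
      + (c.om i + 1) * (c.ns * (2 * c.Pp)) + c.Pp + c.Lg < |c.om i - 1| * c.m0
  hΔ : ∀ i, i < c.ℓ → 0 < c.ρ i → ∃ Δ : ℤ, 1 ≤ Δ ∧ |c.om i * (2 * c.Pp) - Δ| ≤ c.om i * c.dg / 2
  hC1 : c.A0 + c.m0 + 2 * c.Pp * c.ns + 1 ≤ c.C1
  hSC : 4 * c.C1 + 4 ≤ c.S
  hBIG : 8 * ((c.m0 + 2 * c.Pp * c.ns + c.Pp + c.I1 + 2) * c.Q1) ≤ c.S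
  hlag : ∀ i, i < c.ℓ → ∀ i2 : ℤ, |(i2 : ℝ)| ≤ c.I →
    (c.m0 + 2 * c.Pp * c.ns + c.Pp + c.I1 + 1) * c.Q1 < |(c.t i : ℝ) + i2 * c.Q2 - c.t c.c0| ∨
    (|(c.t i : ℝ) + i2 * c.Q2 - c.t c.c0| ≤ c.Lg * c.Q1 ∧
      (c.ρ i = c.ρ c.c0 → ¬ (i ∈ c.K ∧ i2 = 0) → ∀ r : ℤ, c.d0 ≤ |r + c.a i + c.xx * i2 - c.abar|))
  hke : c.ke ≤ c.kf
  hrmax : ∀ i, i < c.ℓ → c.ρ i ≤ c.rmax
  hT : c.ℓ * (2 * c.I + 1) * (2 * (c.A0 + 2 * c.I + 5 + (c.rmax / c.ρ c.c0) * (c.A0 + 7)) + 1)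
    * (4 * c.ℓ + 21) * (c.rmax * c.xd) ≤ 1 / 4
  U1 : ∀ Z, (∀ j, j < c.ns → c.w ≤ |Z - c.X j|) → c.U Z = Z
  U2 : ∀ j, j < c.ns → ∀ Z, |Z - c.X j| ≤ c.f → c.U Z = Z + c.sg * c.xd
  U3 : ∀ Z Z', |(c.U Z - Z) - (c.U Z' - Z')| ≤ 1 / 2 * |Z - Z'|
  U4 : ∀ Z, |c.U Z - Z| ≤ c.xd

end HD

end Pool.Agent.Helper29.Rot
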