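import Mathlib

set_option autoImplicit false

open Set

namespace Pool.Agent.Helper29.Rot

/-- limit data (case of bounded type) -/
structure LD where
  ℓ : ℕ
  ε : ℕ → ℤ
  ρ : ℕ → ℝ
  s1 : ℝ
  T1 : ℝ
  s2 : ℝ
  T2 : ℝ
  a : ℕ → ℝ
  φ : ℕ → ℝ

namespace LD
variable (d : LD)
/-- space coordinate of a lattice vector -/
noncomputable def sp (v : ℤ × ℤ) : ℝ := v.1 * d.s1 + v.2 * d.s2
/-- time coordinate of a lattice vector -/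
noncomputable def T (v : ℤ × ℤ) : ℝ := v.1 * d.T1 + v.2 * d.T2
/-- limit offset of the label `(i,v)` -/
noncomputable def o (i : ℕ) (v : ℤ × ℤ) : ℝ := d.a i + d.sp v
/-- limit time of the label `(i,v)` -/
noncomputable def tau (i : ℕ) (v : ℤ × ℤ) : ℝ := d.φ i + d.T v
/-- cluster of the class `i` -/
noncomputable def K (i : ℕ) : Finset ℕ :=
  open Classical in
  (Finset.range d.ℓ).filter (fun j => d.ρ j = d.ρ i ∧ d.a j = d.a i ∧ d.φ j = d.φ i)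
/-- net exponent of the cluster of `i` -/
noncomputable def n (i : ℕ) : ℤ := ∑ j ∈ d.K i, d.ε j
/-- goodness of the base label `(c,α)` -/
def Good (W ν : ℝ) (c : ℕ) (α : ℤ × ℤ) : Prop :=
  ∀ i, i < d.ℓ → 0 < d.ρ i → d.ρ i ≠ d.ρ c → ∀ v : ℤ × ℤ,
    |d.o i v - d.ρ i / d.ρ c * d.o c α| ≤ W → ν < |d.tau i v - d.tau c α|
/-- the level `g` is not blocked for the base label `(c,α)` -/
def Free (ε G x y z g : ℝ) (c : ℕ) (α : ℤ × ℤ) : Prop :=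
  ∀ i, i < d.ℓ → 0 < d.ρ i → d.n i ≠ 0 → d.ρ i ≠ d.ρ c → ∀ v : ℤ × ℤ,
    x ≤ d.tau i v → d.tau i v ≤ y → ε < |(d.o i v + z + G) * (d.ρ c / d.ρ i) - d.o c α - z - g|

/-- hypotheses on the limit data -/
structure Ok : Prop where
  hℓ : 0 < d.ℓ
  hε : ∀ i, d.ε i = 0 ∨ d.ε i = 1 ∨ d.ε i = -1
  hρ : ∀ i, i < d.ℓ → 0 ≤ d.ρ i
  c0 : ∃ c : ℝ, 0 < c ∧ ∀ v : ℤ × ℤ, v ≠ 0 → c ≤ |d.sp v| * |d.T v|
  det : d.s1 * d.T2 - d.s2 * d.T1 = 1 ∨ d.s1 * d.T2 - d.s2 * d.T1 = -1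
  norm : ∀ i j, i < d.ℓ → j < d.ℓ → 0 < d.ρ i → d.ρ i = d.ρ j → ∀ v : ℤ × ℤ,
    d.a j - d.a i = d.sp v → d.φ j - d.φ i = d.T v → d.a i = d.a j ∧ d.φ i = d.φ j
  hne : ∑ k ∈ Finset.range d.ℓ, (d.ε k : ℝ) * d.ρ k ≠ 0

end LD

/-- design data -/
structure DD where
  cM : ℕ
  cm : ℕ
  ls : ℤ × ℤ
  Q0 : ℕ
  ns : ℕ
  w : ℝ
  dg : ℝ
  G : ℝ
  H : ℝ
  μ : ℤ × ℤ
  al : ℕ → ℤ × ℤ
  cl : ℕ → ℕ
  z : ℝ
  Tst : ℝ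
  Ten : ℝ
  γ : ℝ

namespace DD
variable (e : DD) (d : LD)
/-- limit offset of the `k`-th site label -/
noncomputable def os (k : ℕ) : ℝ := d.o (e.cl k) (e.al k)
/-- limit time of the `k`-th site label -/
noncomputable def ti (k : ℕ) : ℝ := d.tau (e.cl k) (e.al k)
/-- centre of the `k`-th bump -/
noncomputable def X (k : ℕ) : ℝ := (e.os d k + e.z + k * e.dg) / d.ρ (e.cl k)

/-- the properties of a good design -/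
structure Des : Prop where
  hcl : ∀ k, e.cl k = e.cM ∨ e.cl k = e.cm
  hM : e.cM < d.ℓ ∧ 0 < d.ρ e.cM ∧ d.n e.cM ≠ 0
  hm : e.cm < d.ℓ ∧ 0 < d.ρ e.cm ∧ d.n e.cm ≠ 0
  hsp : d.sp e.ls < 0
  hT : 0 < d.T e.ls
  hG : e.G = 1 - d.sp e.ls
  hns : 0 < e.ns
  hdg : 0 < e.dg
  hnG : e.ns * e.dg = e.G
  hw : 0 < e.w
  hγ : 0 < e.γ
  hz : 0 ≤ e.z ∧ e.z ≤ 1
  hal : ∀ j k, j < e.ns → k < e.ns → e.cl j = e.cl k →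
    e.al k - e.al j = ((k : ℤ) - (j : ℤ)) • e.μ
  hμ : 0 < d.T e.μ
  hsep : ∀ j k, j < e.ns → k < e.ns → j ≠ k → 2 * e.w ≤ |e.X d j - e.X d k|
  hti : ∀ j k, j < k → k < e.ns → e.ti d j < e.ti d k
  hst : ∀ k, k < e.ns → e.Tst + e.γ ≤ e.ti d k
  hen : ∀ k, k < e.ns → e.ti d k + e.γ ≤ e.Ten
  hend : e.Ten + e.γ ≤ e.Tst + d.T e.ls
  A : ∀ (i : ℕ) (v : ℤ × ℤ) (k : ℕ) (b : ℝ), i < d.ℓ → 0 < d.ρ i → k < e.ns →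
    e.Tst - e.γ ≤ d.tau i v → d.tau i v ≤ e.Ten + e.γ → ¬ (i ∈ d.K (e.cl k) ∧ v = e.al k) →
    e.z - 1 ≤ b → b ≤ e.z + e.G + 1 →
    (d.tau i v = e.ti d k → |b - (e.z + k * e.dg)| ≤ (d.ℓ + 1) * e.dg) →
    e.w + e.γ ≤ |(d.o i v + b) / d.ρ i - e.X d k|
  B : ∀ (i : ℕ) (v : ℤ × ℤ) (k : ℕ) (b : ℝ), i < d.ℓ → 0 < d.ρ i → d.n i ≠ 0 → k < e.ns →
    d.ρ i ≠ d.ρ (e.cl k) → e.Ten - e.γ ≤ d.tau i v → d.tau i v ≤ e.Tst + d.T e.ls + e.γ →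
    |b - (e.z + e.G)| ≤ e.H → e.w + e.γ ≤ |(d.o i v + b) / d.ρ i - e.X d k|
  C : ∀ (i k : ℕ), i < d.ℓ → 0 < d.ρ i → k < e.ns → ∃ F : Finset (ℤ × ℤ), F.card ≤ e.Q0 ∧
    ∀ (v : ℤ × ℤ) (b : ℝ), e.Tst - e.γ ≤ d.tau i v → d.tau i v ≤ e.Tst + d.T e.ls + e.γ →
      e.z - 1 ≤ b → b ≤ e.z + e.G + 1 → |(d.o i v + b) / d.ρ i - e.X d k| ≤ e.w + e.γ → v ∈ F
  D : ∀ (i c : ℕ), i < d.ℓ → 0 < d.ρ i → d.ρ c = d.ρ i → (c = e.cM ∨ c = e.cm) →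
    ∃ F : Finset (ℤ × ℤ), F.card ≤ e.Q0 ∧ ∀ (k : ℕ) (v : ℤ × ℤ) (b : ℝ), k < e.ns → e.cl k = c →
      e.Tst - e.γ ≤ d.tau i v → d.tau i v ≤ e.Tst + d.T e.ls + e.γ →
      e.z - 1 ≤ b → b ≤ e.z + e.G + 1 → |(d.o i v + b) / d.ρ i - e.X d k| ≤ e.w + e.γ →
      v - (k : ℤ) • e.μ ∈ F

end DD

end Pool.Agent.Helper29.Rot
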