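import Pool.Agent.Helper29.RotND
import Pool.Agent.Helper29.RotAct

set_option autoImplicit false

open Set

namespace Pool.Agent.Helper29.Rot

theorem ND.decomp (c : ND) (hc : c.Ok) (i : ℕ) (t' l' : ℤ) :
    ∃ v : ℤ × ℤ, t' = c.tm i v ∧ l' = c.lm i v ∧ c.S * (t' * c.θ - l' - c.Y i) = c.of i v := by
  have hdet := hc.det
  obtain ⟨D, hD, hDD⟩ : ∃ D : ℤ, c.Q1 * c.P2 - c.Q2 * c.P1 = D ∧ D * D = 1 := by
    rcases hdet with h | h
    · exact ⟨1, h, by norm_num⟩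
    · exact ⟨-1, h, by norm_num⟩
  have key1 : t' = c.tm i (D * ((t' - c.t i) * c.P2 - (l' - c.l i) * c.Q2),
      D * (c.Q1 * (l' - c.l i) - c.P1 * (t' - c.t i))) := by
    unfold ND.tm
    simp only
    have : D * ((t' - c.t i) * c.P2 - (l' - c.l i) * c.Q2) * c.Q1
        + D * (c.Q1 * (l' - c.l i) - c.P1 * (t' - c.t i)) * c.Q2
        = (t' - c.t i) * (D * (c.Q1 * c.P2 - c.Q2 * c.P1)) := by ring
    rw [hD, hDD] at this
    linarith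
  have key2 : l' = c.lm i (D * ((t' - c.t i) * c.P2 - (l' - c.l i) * c.Q2),
      D * (c.Q1 * (l' - c.l i) - c.P1 * (t' - c.t i))) := by
    unfold ND.lm
    simp only
    have : D * ((t' - c.t i) * c.P2 - (l' - c.l i) * c.Q2) * c.P1
        + D * (c.Q1 * (l' - c.l i) - c.P1 * (t' - c.t i)) * c.P2
        = (l' - c.l i) * (D * (c.Q1 * c.P2 - c.Q2 * c.P1)) := by ring
    rw [hD, hDD] at this
    linarith
  refine ⟨_, key1, key2, ?_⟩
  unfold ND.of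
  rw [← key1, ← key2]

theorem ND.cand_range (c : ND) (hc : c.Ok) (k : ℕ) (hk : k < c.kf) (hcand : |c.oo k| ≤ c.C1) :
    ∃ v : ℤ × ℤ, c.tt k = c.tm (k % c.d.ℓ) v ∧ c.oo k = c.of (k % c.d.ℓ) v ∧
      |(v.1 : ℝ)| ≤ c.Rb ∧ |(v.2 : ℝ)| ≤ c.Rb := by
  obtain ⟨v, h1, h2, h3⟩ := ND.decomp c hc (k % c.d.ℓ) (c.tt k)
    (round ((c.tt k : ℝ) * c.θ - c.Y (k % c.d.ℓ)))
  have hℓ := hc.hd.hℓ
  have hi : k % c.d.ℓ < c.d.ℓ := Nat.mod_lt _ hℓ
  have hoo : c.oo k = c.of (k % c.d.ℓ) v := by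
    rw [← h3]
    unfold ND.oo
    ring
  refine ⟨v, h1, hoo, ?_⟩
  have hS : (0:ℝ) < c.S := by linarith [hc.hS]
  have hD0 := hc.hD0
  have b1 := hc.b1
  have b2 := hc.b2
  have b3 := hc.b3
  have b4 := hc.b4
  have b5 := hc.b5 _ hi
  have b6 := hc.b6 _ hi
  have b7 := hc.b7
  have hts := hc.hts
  have hls1 := hc.hls1
  have hδ := hc.hδ
  have hδ1 := hc.hδ1
  -- bound for tt k / S
  have hq : k / c.d.ℓ < c.N.toNat := by
    rw [Nat.div_lt_iff_lt_mul hℓ]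
    exact hk
  have hN0 : 0 < c.N.toNat := lt_of_le_of_lt (Nat.zero_le _) hq
  have hN : (0:ℤ) < c.N := by omega
  have hqN : ((k / c.d.ℓ : ℕ) : ℤ) < c.N := by
    have h5 : ((k / c.d.ℓ : ℕ) : ℤ) < (c.N.toNat : ℤ) := Int.ofNat_lt.2 hq
    rwa [Int.toNat_of_nonneg hN.le] at h5
  have hqN' : ((k / c.d.ℓ : ℕ) : ℝ) < (c.N : ℝ) := by
    have h5 : (((k / c.d.ℓ : ℕ) : ℤ) : ℝ) < (c.N : ℝ) := Int.cast_lt.2 hqN
    rwa [Int.cast_natCast] at h5
  have hq0 : (0:ℝ) ≤ ((k / c.d.ℓ : ℕ) : ℝ) := Nat.cast_nonneg _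
  have htt : ((c.tt k : ℤ) : ℝ) = (c.ts : ℝ) + ((k / c.d.ℓ : ℕ) : ℝ) := by
    unfold ND.tt
    push_cast
    rfl
  have hx0 : 0 ≤ ((k / c.d.ℓ : ℕ) : ℝ) / c.S := div_nonneg hq0 hS.le
  have hx1 : ((k / c.d.ℓ : ℕ) : ℝ) / c.S ≤ (c.N : ℝ) / c.S :=
    div_le_div_of_nonneg_right hqN'.le hS.le
  have hT := hc.he.hT
  have httS : |(c.tt k : ℝ) / c.S| ≤ c.D0 := by
    rw [htt, add_div]
    rw [abs_le] at hts hls1 ⊢
    have := neg_abs_le c.e.Tst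
    have := le_abs_self c.e.Tst
    constructor <;> linarith [hts.1, hts.2, hls1.1, hls1.2]
  set w1 : ℝ := (c.Q1 : ℝ) / c.S with hw1
  set w2 : ℝ := (c.Q2 : ℝ) / c.S with hw2
  set u1 : ℝ := c.S * (c.Q1 * c.θ - c.P1) with hu1
  set u2 : ℝ := c.S * (c.Q2 * c.θ - c.P2) with hu2
  have hA : |v.1 * u1 + v.2 * u2| ≤ c.C1 + c.D0 := by
    have e : v.1 * u1 + v.2 * u2 = c.oo k
        - c.S * (c.t (k % c.d.ℓ) * c.θ - c.l (k % c.d.ℓ) - c.Y (k % c.d.ℓ)) := by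
      rw [hoo, hu1, hu2]
      unfold ND.of ND.tm ND.lm
      push_cast
      ring
    rw [e]
    exact (abs_sub _ _).trans (by linarith)
  have hB : |v.1 * w1 + v.2 * w2| ≤ 2 * c.D0 := by
    have e : v.1 * w1 + v.2 * w2 = (c.tt k : ℝ) / c.S - (c.t (k % c.d.ℓ) : ℝ) / c.S := by
      rw [h1, hw1, hw2]
      unfold ND.tm
      push_cast
      field_simp
      ring
    rw [e]
    exact (abs_sub _ _).trans (by linarith)
  obtain ⟨D, hD, hDD⟩ : ∃ D : ℝ, u1 * w2 - u2 * w1 = D ∧ |D| = 1 := by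
    have e : u1 * w2 - u2 * w1 = ((c.Q1 * c.P2 - c.Q2 * c.P1 : ℤ) : ℝ) := by
      rw [hu1, hu2, hw1, hw2]
      push_cast
      field_simp
      ring
    rw [e]
    rcases hc.det with h | h
    · rw [h]; exact ⟨_, rfl, by norm_num⟩
    · rw [h]; exact ⟨_, rfl, by norm_num⟩
  have hC0 : 0 ≤ c.C1 := (abs_nonneg _).trans hcand
  have hRb := hc.hRb
  constructor
  · have e : (v.1 : ℝ) * D = (v.1 * u1 + v.2 * u2) * w2 - (v.1 * w1 + v.2 * w2) * u2 := by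
      rw [← hD]; ring
    have e2 : |(v.1 : ℝ)| = |(v.1 * u1 + v.2 * u2) * w2 - (v.1 * w1 + v.2 * w2) * u2| := by
      rw [← e, abs_mul, hDD, mul_one]
    rw [e2]
    refine (abs_sub _ _).trans ?_
    rw [abs_mul (v.1 * u1 + v.2 * u2) w2, abs_mul (v.1 * w1 + v.2 * w2) u2]
    have m1 := mul_le_mul hA b4 (abs_nonneg _) (by linarith)
    have m2 := mul_le_mul hB b2 (abs_nonneg _) (by linarith)
    nlinarith [m1, m2, hRb]
  · have e : (v.2 : ℝ) * D = (v.1 * w1 + v.2 * w2) * u1 - (v.1 * u1 + v.2 * u2) * w1 := by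
      rw [← hD]; ring
    have e2 : |(v.2 : ℝ)| = |(v.1 * w1 + v.2 * w2) * u1 - (v.1 * u1 + v.2 * u2) * w1| := by
      rw [← e, abs_mul, hDD, mul_one]
    rw [e2]
    refine (abs_sub _ _).trans ?_
    rw [abs_mul (v.1 * w1 + v.2 * w2) u1, abs_mul (v.1 * u1 + v.2 * u2) w1]
    have m1 := mul_le_mul hA b3 (abs_nonneg _) (by linarith)
    have m2 := mul_le_mul hB b1 (abs_nonneg _) (by linarith)
    nlinarith [m1, m2, hRb]

theorem ND.step_of (c : ND) (hc : c.Ok) (i : ℕ) (hi : i < c.d.ℓ) (v : ℤ × ℤ)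
    (hv : |c.of i v| ≤ c.C1) (h1 : c.ts ≤ c.tm i v) (h2 : c.tm i v < c.ts + c.N) :
    ∃ k, k < c.kf ∧ k % c.d.ℓ = i ∧ c.tt k = c.tm i v ∧ c.oo k = c.of i v ∧
      k = (c.tm i v - c.ts).toNat * c.d.ℓ + i := by
  have hℓ := hc.hd.hℓ
  have hmod : ((c.tm i v - c.ts).toNat * c.d.ℓ + i) % c.d.ℓ = i := by
    rw [Nat.mul_comm, Nat.mul_add_mod, Nat.mod_eq_of_lt hi]
  have hdiv : ((c.tm i v - c.ts).toNat * c.d.ℓ + i) / c.d.ℓ = (c.tm i v - c.ts).toNat := by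
    rw [Nat.mul_comm, Nat.mul_add_div hℓ, Nat.div_eq_of_lt hi, add_zero]
  have htt : c.tt ((c.tm i v - c.ts).toNat * c.d.ℓ + i) = c.tm i v := by
    unfold ND.tt
    rw [hdiv]
    omega
  refine ⟨_, ?_, hmod, htt, ?_, rfl⟩
  · unfold ND.kf
    have h3 : (c.tm i v - c.ts).toNat + 1 ≤ c.N.toNat := by omega
    have h4 := Nat.mul_le_mul_right c.d.ℓ h3
    rw [Nat.add_mul] at h4
    omega
  · unfold ND.oo
    rw [htt, hmod]
    have hS : (0:ℝ) < c.S := by linarith [hc.hS]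
    have hSC := hc.hSC
    have hround : round ((c.tm i v : ℝ) * c.θ - c.Y i) = c.lm i v := by
      rw [round_eq, Int.floor_eq_iff]
      unfold ND.of at hv
      rw [abs_mul, abs_of_pos hS] at hv
      have hx : |(c.tm i v : ℝ) * c.θ - c.lm i v - c.Y i| ≤ 1 / 4 := by
        by_contra hcon
        push Not at hcon
        have : c.S * (1/4) < c.S * |(c.tm i v : ℝ) * c.θ - c.lm i v - c.Y i| :=
          mul_lt_mul_of_pos_left hcon hS
        linarith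
      rw [abs_le] at hx
      constructor <;> linarith [hx.1, hx.2]
    rw [hround]
    unfold ND.of
    ring

theorem ND.cnt_le (c : ND) (hc : c.Ok) (k : ℕ) (hk : k ≤ c.kf) : (c.cnt k : ℝ) ≤ c.R := by
  classical
  have hℓ := hc.hd.hℓ
  have H : ∀ k' : ℕ, ∃ v : ℤ × ℤ, k' < c.kf → |c.oo k'| ≤ c.C1 →
      c.tt k' = c.tm (k' % c.d.ℓ) v ∧ |(v.1 : ℝ)| ≤ c.Rb ∧ |(v.2 : ℝ)| ≤ c.Rb := by
    intro k'
    by_cases h : k' < c.kf ∧ |c.oo k'| ≤ c.C1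
    · obtain ⟨v, h1, _, h3, h4⟩ := ND.cand_range c hc k' h.1 h.2
      exact ⟨v, fun _ _ => ⟨h1, h3, h4⟩⟩
    · exact ⟨0, fun a b => absurd ⟨a, b⟩ h⟩
  choose g hg using H
  have hcard : c.cnt k ≤ ((Finset.range c.d.ℓ) ×ˢ ((Finset.Icc (-(c.Rb : ℤ)) c.Rb) ×ˢ
      (Finset.Icc (-(c.Rb : ℤ)) c.Rb))).card := by
    unfold ND.cnt
    refine Finset.card_le_card_of_injOn (fun k' => (k' % c.d.ℓ, g k')) ?_ ?_
    · intro k' hk'
      simp only [Finset.coe_filter, Finset.mem_range, Set.mem_setOf_eq] at hk'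
      obtain ⟨_, h3, h4⟩ := hg k' (by omega) hk'.2
      have h3' : |(g k').1| ≤ (c.Rb : ℤ) := by exact_mod_cast h3
      have h4' : |(g k').2| ≤ (c.Rb : ℤ) := by exact_mod_cast h4
      rw [abs_le] at h3' h4'
      simp only [Finset.coe_product, Finset.coe_range, Finset.coe_Icc, Set.mem_prod, Set.mem_Iio,
        Set.mem_Icc]
      exact ⟨Nat.mod_lt _ hℓ, h3', h4'⟩
    · intro k1 hk1 k2 hk2 heq
      simp only [Finset.coe_filter, Finset.mem_range, Set.mem_setOf_eq] at hk1 hk2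
      simp only [Prod.mk.injEq] at heq
      obtain ⟨a1, _, _⟩ := hg k1 (by omega) hk1.2
      obtain ⟨a2, _, _⟩ := hg k2 (by omega) hk2.2
      rw [heq.1, heq.2, ← a2] at a1
      unfold ND.tt at a1
      have h5 : k1 / c.d.ℓ = k2 / c.d.ℓ := by omega
      rw [← Nat.div_add_mod k1 c.d.ℓ, ← Nat.div_add_mod k2 c.d.ℓ, h5, heq.1]
  have hcard2 : ((Finset.range c.d.ℓ) ×ˢ ((Finset.Icc (-(c.Rb : ℤ)) c.Rb) ×ˢ
      (Finset.Icc (-(c.Rb : ℤ)) c.Rb))).card = c.d.ℓ * (2 * c.Rb + 1) ^ 2 := by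
    rw [Finset.card_product, Finset.card_product, Finset.card_range, Int.card_Icc]
    have : ((c.Rb : ℤ) + 1 - -(c.Rb : ℤ)).toNat = 2 * c.Rb + 1 := by omega
    rw [this]
    ring
  rw [hcard2] at hcard
  unfold ND.R
  exact_mod_cast hcard

end Pool.Agent.Helper29.Rot
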