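import Pool.Agent.Helper29.RotM1

set_option autoImplicit false

open Set

namespace Pool.Agent.Helper29.Rot

/-- step of the member `i` of the site `j` -/
def ND.st (c : ND) (i j : ℕ) : ℕ := (c.tm i (c.e.al j) - c.ts).toNat * c.d.ℓ + i

theorem ND.slot_mem (c : ND) (hc : c.Ok) {i j : ℕ} (_hj : j < c.e.ns) (hi : i ∈ c.d.K (c.e.cl j)) :
    i < c.d.ℓ ∧ c.d.ρ i = c.d.ρ (c.e.cl j) ∧ c.d.o i (c.e.al j) = c.e.os c.d j ∧
      c.d.tau i (c.e.al j) = c.e.ti c.d j ∧ 0 < c.d.ρ i := by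
  unfold LD.K at hi
  rw [Finset.mem_filter, Finset.mem_range] at hi
  obtain ⟨h1, h2, h3, h4⟩ := hi
  refine ⟨h1, h2, ?_, ?_, ?_⟩
  · unfold DD.os LD.o
    rw [h3]
  · unfold DD.ti LD.tau
    rw [h4]
  · rw [h2]
    rcases hc.he.hcl j with h | h
    · rw [h]; exact hc.he.hM.2.1
    · rw [h]; exact hc.he.hm.2.1

theorem ND.slot_rho (c : ND) (hc : c.Ok) (j : ℕ) :
    0 < c.d.ρ (c.e.cl j) ∧ c.d.n (c.e.cl j) ≠ 0 ∧ c.e.cl j < c.d.ℓ := by
  rcases hc.he.hcl j with h | h
  · rw [h]; exact ⟨hc.he.hM.2.1, hc.he.hM.2.2, hc.he.hM.1⟩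
  · rw [h]; exact ⟨hc.he.hm.2.1, hc.he.hm.2.2, hc.he.hm.1⟩

theorem ND.slot_time (c : ND) (hc : c.Ok) {i1 i2 : ℕ} (h1 : i1 < c.d.ℓ) (h2 : i2 < c.d.ℓ)
    {v w : ℤ × ℤ} (v1 : |(v.1 : ℝ)| ≤ c.Rb) (v2 : |(v.2 : ℝ)| ≤ c.Rb)
    (w1 : |(w.1 : ℝ)| ≤ c.Rb) (w2 : |(w.2 : ℝ)| ≤ c.Rb) (h : c.d.tau i1 v < c.d.tau i2 w) :
    c.tm i1 v < c.tm i2 w := by
  have hS : 0 < c.S := lt_of_lt_of_le one_pos hc.hS
  have hδ := hc.hδ
  have a1 := (hc.happ i1 h1 v v1 v2).2
  have a2 := (hc.happ i2 h2 w w1 w2).2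
  have a3 : 10 * c.δ < |c.d.tau i1 v - c.d.tau i2 w| := by
    by_contra hcon
    push Not at hcon
    have := hc.htsep i1 i2 h1 h2 v w v1 v2 w1 w2 hcon
    linarith
  rw [abs_of_neg (by linarith)] at a3
  rw [abs_le] at a1 a2
  have a4 : (c.tm i1 v : ℝ) / c.S < (c.tm i2 w : ℝ) / c.S := by linarith [a1.1, a1.2, a2.1, a2.2]
  rw [div_lt_div_iff_of_pos_right hS] at a4
  exact_mod_cast a4

theorem ND.slot_ne (c : ND) (hc : c.Ok) : (c.ne : ℤ) < c.N := by
  have hS : 0 < c.S := lt_of_lt_of_le one_pos hc.hS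
  have hδ := hc.hδ
  have a1 := hc.hls1
  have a2 := hc.hts
  have a3 := hc.hne
  have a4 := hc.he.hend
  have a5 := hc.hγ
  rw [abs_le] at a1 a2 a3
  have a6 : ((c.ts : ℝ) + c.ne) / c.S < ((c.ts : ℝ) + c.N) / c.S := by
    have : ((c.ts : ℝ) + c.N) / c.S = (c.ts : ℝ) / c.S + (c.N : ℝ) / c.S := by ring
    rw [this]
    linarith [a1.1, a1.2, a2.1, a2.2, a3.1, a3.2]
  rw [div_lt_div_iff_of_pos_right hS] at a6
  have a7 : (c.ne : ℝ) < c.N := by linarith
  exact_mod_cast a7

theorem ND.slot_kekf (c : ND) (hc : c.Ok) : c.ke ≤ c.kf := by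
  have h := c.slot_ne hc
  unfold ND.ke ND.kf
  apply Nat.mul_le_mul_right
  omega

theorem ND.slot_site (c : ND) (hc : c.Ok) {i j : ℕ} (hj : j < c.e.ns) (hi : i ∈ c.d.K (c.e.cl j)) :
    |c.of i (c.e.al j) - c.e.os c.d j| ≤ c.δ ∧ |c.of i (c.e.al j)| ≤ c.C1 ∧
      c.ts ≤ c.tm i (c.e.al j) ∧ c.tm i (c.e.al j) < c.ts + c.ne := by
  have hS : 0 < c.S := lt_of_lt_of_le one_pos hc.hS
  have hδ := hc.hδ
  obtain ⟨m1, m2, m3, m4, m5⟩ := c.slot_mem hc hj hi
  obtain ⟨s1, s2⟩ := hc.hsite j hj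
  obtain ⟨b1, b2⟩ := hc.happ i m1 (c.e.al j) s1 s2
  rw [m3] at b1
  rw [m4] at b2
  have a2 := hc.hts
  have a3 := hc.hne
  have a5 := hc.hγ
  have a6 := hc.he.hst j hj
  have a7 := hc.he.hen j hj
  refine ⟨b1, ?_, ?_, ?_⟩
  · have hX : c.e.os c.d j = c.d.ρ i * c.e.X c.d j - (c.e.z + j * c.e.dg) := by
      unfold DD.X
      rw [← m2]
      field_simp
      ring
    have hz := hc.he.hz
    have hdg := hc.he.hdg
    have hjG : (j : ℝ) * c.e.dg ≤ c.e.G := by
      rw [← hc.he.hnG]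
      apply mul_le_mul_of_nonneg_right _ hdg.le
      exact_mod_cast hj.le
    have hj0 : 0 ≤ (j : ℝ) * c.e.dg := by positivity
    have h1 : |c.e.os c.d j| ≤ c.d.ρ i * |c.e.X c.d j| + (1 + c.e.G) := by
      rw [hX]
      refine (abs_sub _ _).trans ?_
      rw [abs_mul, abs_of_pos m5, abs_of_nonneg (by linarith [hz.1] : 0 ≤ c.e.z + j * c.e.dg)]
      linarith [hz.2]
    have h2 := hc.hC1 j i hj m1
    have h3 : 0 ≤ c.d.ρ i * (c.e.w + c.e.γ) :=
      mul_nonneg m5.le (by linarith [hc.he.hw, hc.he.hγ])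
    have h4 : |c.of i (c.e.al j)| ≤ |c.e.os c.d j| + c.δ := by
      have := abs_sub_abs_le_abs_sub (c.of i (c.e.al j)) (c.e.os c.d j)
      linarith
    have h5 := hc.hδ1
    nlinarith
  · rw [abs_le] at a2 b2
    have h1 : (c.ts : ℝ) / c.S < (c.tm i (c.e.al j) : ℝ) / c.S := by
      linarith [a2.1, a2.2, b2.1, b2.2]
    rw [div_lt_div_iff_of_pos_right hS] at h1
    exact le_of_lt (by exact_mod_cast h1)
  · rw [abs_le] at a3 b2
    have h1 : (c.tm i (c.e.al j) : ℝ) / c.S < ((c.ts : ℝ) + c.ne) / c.S := by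
      linarith [a3.1, a3.2, b2.1, b2.2]
    rw [div_lt_div_iff_of_pos_right hS] at h1
    exact_mod_cast h1

theorem ND.slot_st (c : ND) (hc : c.Ok) {i j : ℕ} (hj : j < c.e.ns) (hi : i ∈ c.d.K (c.e.cl j)) :
    c.st i j < c.ke ∧ c.st i j % c.d.ℓ = i ∧ c.tt (c.st i j) = c.tm i (c.e.al j) ∧
      c.oo (c.st i j) = c.of i (c.e.al j) := by
  obtain ⟨m1, m2, m3, m4, m5⟩ := c.slot_mem hc hj hi
  obtain ⟨s1, s2, s3, s4⟩ := c.slot_site hc hj hi
  have hN := c.slot_ne hc
  obtain ⟨k, k1, k2, k3, k4, k5⟩ := c.step_of hc i m1 (c.e.al j) s2 s3 (by omega)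
  have hk : c.st i j = k := by rw [k5]; rfl
  rw [hk]
  refine ⟨?_, k2, k3, k4⟩
  rw [k5]
  unfold ND.ke
  have h1 : (c.tm i (c.e.al j) - c.ts).toNat + 1 ≤ c.ne := by omega
  have h2 := Nat.mul_le_mul_right c.d.ℓ h1
  rw [Nat.add_mul, one_mul] at h2
  omega

theorem ND.slot_st_lt (c : ND) (hc : c.Ok) {i j k : ℕ} (hj : j < c.e.ns)
    (hi : i ∈ c.d.K (c.e.cl j)) (h : c.tm i (c.e.al j) < c.tt k) : c.st i j < k := by
  obtain ⟨m1, m2, m3, m4, m5⟩ := c.slot_mem hc hj hi
  obtain ⟨s1, s2, s3, s4⟩ := c.slot_site hc hj hi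
  unfold ND.tt at h
  unfold ND.st
  have h1 : (c.tm i (c.e.al j) - c.ts).toNat + 1 ≤ k / c.d.ℓ := by omega
  have h2 := Nat.mul_le_mul_right c.d.ℓ h1
  have h3 := Nat.div_mul_le_self k c.d.ℓ
  rw [Nat.add_mul, one_mul] at h2
  omega

theorem ND.slot_lt_st (c : ND) (hc : c.Ok) {i j k : ℕ} (hj : j < c.e.ns)
    (hi : i ∈ c.d.K (c.e.cl j)) (h : c.tt k < c.tm i (c.e.al j)) : k < c.st i j := by
  obtain ⟨m1, m2, m3, m4, m5⟩ := c.slot_mem hc hj hi
  obtain ⟨s1, s2, s3, s4⟩ := c.slot_site hc hj hi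
  unfold ND.tt at h
  unfold ND.st
  have h1 : k / c.d.ℓ + 1 ≤ (c.tm i (c.e.al j) - c.ts).toNat := by omega
  have h2 := Nat.mul_le_mul_right c.d.ℓ h1
  have h3 := Nat.lt_div_mul_add (a := k) hc.hd.hℓ
  rw [Nat.add_mul, one_mul] at h2
  omega

/-- contribution of the site `j` before the step `k` -/
noncomputable def ND.SS (c : ND) (k j : ℕ) : ℝ :=
  ∑ i ∈ c.d.K (c.e.cl j), if c.st i j < k then c.d.ρ (c.e.cl j) * c.d.ε i * c.dd j else 0

theorem ND.slot_rd (c : ND) (hc : c.Ok) (j : ℕ) :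
    c.d.ρ (c.e.cl j) * |c.dd j| ≤ c.e.dg ∧ |c.dd j| ≤ c.dmax := by
  obtain ⟨h1, h2, h3⟩ := c.slot_rho hc j
  have hdg := hc.he.hdg
  have hn : (1 : ℝ) ≤ |(c.d.n (c.e.cl j) : ℝ)| := by
    have : (1 : ℤ) ≤ |c.d.n (c.e.cl j)| := Int.one_le_abs h2
    exact_mod_cast this
  have e : |c.dd j| = c.e.dg / (c.d.ρ (c.e.cl j) * |(c.d.n (c.e.cl j) : ℝ)|) := by
    unfold ND.dd
    rw [abs_div, abs_mul, abs_of_pos hdg, abs_of_pos h1]
  have h4 : c.d.ρ (c.e.cl j) * |c.dd j| ≤ c.e.dg := by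
    rw [e, mul_div_assoc', div_le_iff₀ (mul_pos h1 (by linarith))]
    have : 0 < c.d.ρ (c.e.cl j) * c.e.dg := mul_pos h1 hdg
    nlinarith
  refine ⟨h4, ?_⟩
  unfold ND.dmax
  rw [le_div_iff₀ hc.hr0]
  have h5 := hc.hr1 _ h3 h1
  have h6 : |c.dd j| * c.r0 ≤ |c.dd j| * c.d.ρ (c.e.cl j) :=
    mul_le_mul_of_nonneg_left h5 (abs_nonneg _)
  linarith

theorem ND.slot_full (c : ND) (hc : c.Ok) (k j : ℕ)
    (h : ∀ i ∈ c.d.K (c.e.cl j), c.st i j < k) : c.SS k j = c.e.dg := by
  obtain ⟨h1, h2, h3⟩ := c.slot_rho hc j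
  have hn : (c.d.n (c.e.cl j) : ℝ) ≠ 0 := by exact_mod_cast h2
  unfold ND.SS
  have e1 : ∀ i ∈ c.d.K (c.e.cl j), (if c.st i j < k then c.d.ρ (c.e.cl j) * c.d.ε i * c.dd j else 0) =
      (c.d.ρ (c.e.cl j) * c.dd j) * (c.d.ε i : ℝ) := by
    intro i hi
    rw [if_pos (h i hi)]
    ring
  rw [Finset.sum_congr rfl e1, ← Finset.mul_sum]
  have e2 : ∑ i ∈ c.d.K (c.e.cl j), (c.d.ε i : ℝ) = (c.d.n (c.e.cl j) : ℝ) := by
    unfold LD.n
    push_cast
    rfl
  rw [e2]
  unfold ND.dd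
  field_simp

theorem ND.slot_zero (c : ND) (k j : ℕ)
    (h : ∀ i ∈ c.d.K (c.e.cl j), ¬ c.st i j < k) : c.SS k j = 0 := by
  unfold ND.SS
  apply Finset.sum_eq_zero
  intro i hi
  rw [if_neg (h i hi)]

theorem ND.slot_SS (c : ND) (hc : c.Ok) (k j : ℕ) : |c.SS k j| ≤ c.d.ℓ * c.e.dg := by
  have hdg := hc.he.hdg
  unfold ND.SS
  refine (Finset.abs_sum_le_sum_abs _ _).trans ?_
  have h1 : ∀ i ∈ c.d.K (c.e.cl j), |if c.st i j < k then c.d.ρ (c.e.cl j) * c.d.ε i * c.dd j else 0| ≤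
      c.e.dg := by
    intro i _
    split_ifs
    · rw [abs_mul, abs_mul, abs_of_pos (c.slot_rho hc j).1]
      have h2 := (c.slot_rd hc j).1
      have h3 : |(c.d.ε i : ℝ)| ≤ 1 := by
        rcases hc.hd.hε i with h | h | h <;> rw [h] <;> simp
      have h4 : 0 ≤ c.d.ρ (c.e.cl j) * |c.dd j| :=
        mul_nonneg (c.slot_rho hc j).1.le (abs_nonneg _)
      calc c.d.ρ (c.e.cl j) * |(c.d.ε i : ℝ)| * |c.dd j|
          = |(c.d.ε i : ℝ)| * (c.d.ρ (c.e.cl j) * |c.dd j|) := by ring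
        _ ≤ 1 * (c.d.ρ (c.e.cl j) * |c.dd j|) := mul_le_mul_of_nonneg_right h3 h4
        _ ≤ c.e.dg := by linarith
    · simpa using hdg.le
  refine (Finset.sum_le_sum h1).trans ?_
  rw [Finset.sum_const, nsmul_eq_mul]
  apply mul_le_mul_of_nonneg_right _ hdg.le
  have h5 : (c.d.K (c.e.cl j)).card ≤ c.d.ℓ := by
    unfold LD.K
    refine (Finset.card_filter_le _ _).trans ?_
    rw [Finset.card_range]
  exact_mod_cast h5

theorem ND.slot_struct (c : ND) (hc : c.Ok) (k J : ℕ) (hJ : J < c.e.ns)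
    (h1 : ∀ j, j < J → ∀ i ∈ c.d.K (c.e.cl j), c.st i j < k)
    (h2 : ∀ j, J < j → j < c.e.ns → ∀ i ∈ c.d.K (c.e.cl j), ¬ c.st i j < k) :
    |∑ j ∈ Finset.range c.e.ns, c.SS k j - J * c.e.dg| ≤ c.d.ℓ * c.e.dg := by
  have e1 : (J : ℝ) * c.e.dg = ∑ j ∈ Finset.range c.e.ns, if j < J then c.e.dg else 0 := by
    rw [← Finset.sum_filter, Finset.sum_const, nsmul_eq_mul]
    congr 2
    have : (Finset.range c.e.ns).filter (fun j => j < J) = Finset.range J := by
      ext j
      rw [Finset.mem_filter, Finset.mem_range, Finset.mem_range]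
      constructor
      · intro h; exact h.2
      · intro h; exact ⟨by omega, h⟩
    rw [this, Finset.card_range]
  rw [e1, ← Finset.sum_sub_distrib, Finset.sum_eq_single J]
  · rw [if_neg (lt_irrefl J), sub_zero]
    exact c.slot_SS hc k J
  · intro j hj hne
    rw [Finset.mem_range] at hj
    rcases lt_or_gt_of_ne hne with h | h
    · rw [if_pos h, c.slot_full hc k j (h1 j h), sub_self]
    · rw [if_neg (by omega), c.slot_zero k j (h2 j h hj), sub_zero]
  · intro h
    exact absurd (Finset.mem_range.2 hJ) h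

/-- the formula for the barrier -/
noncomputable def ND.BF (c : ND) (k : ℕ) : ℝ :=
  c.e.z + ∑ j ∈ Finset.range c.e.ns, c.SS k j - c.η * c.cnt k

theorem ND.slot_cnt (c : ND) (hc : c.Ok) (k : ℕ) (hk : k ≤ c.ke) :
    0 ≤ c.η * c.cnt k ∧ c.η * c.cnt k ≤ c.e.dg / 4 := by
  have h1 := c.cnt_le hc k (hk.trans (c.slot_kekf hc))
  have h2 := hc.hη
  have h3 := hc.hηR
  refine ⟨by positivity, ?_⟩
  have h4 : c.η * c.cnt k ≤ c.η * c.R := mul_le_mul_of_nonneg_left h1 h2.le
  linarith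

theorem ND.slot_bd (c : ND) (hc : c.Ok) (k : ℕ) (hk : k ≤ c.ke) :
    c.e.z - 1 ≤ c.BF k ∧ c.BF k ≤ c.e.z + c.e.G + 1 := by
  classical
  have hdg := hc.he.hdg
  obtain ⟨J, hJ, h1, h2⟩ : ∃ J, J < c.e.ns ∧ (∀ j, j < J → ∀ i ∈ c.d.K (c.e.cl j), c.st i j < k) ∧
      (∀ j, J < j → j < c.e.ns → ∀ i ∈ c.d.K (c.e.cl j), ¬ c.st i j < k) := by
    obtain ⟨W, hW⟩ : ∃ W : Finset ℕ, W = (Finset.range c.e.ns).filter
      (fun j => ∃ i ∈ c.d.K (c.e.cl j), c.st i j < k) := ⟨_, rfl⟩
    by_cases hne : W.Nonempty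
    · have hm := Finset.max'_mem W hne
      obtain ⟨J, hJe⟩ : ∃ J, J = W.max' hne := ⟨_, rfl⟩
      rw [← hJe] at hm
      have hm' := hm
      rw [hW, Finset.mem_filter, Finset.mem_range] at hm'
      obtain ⟨hJ, i2, hi2, hs2⟩ := hm'
      refine ⟨J, hJ, ?_, ?_⟩
      · intro j hj i hi
        have hjn : j < c.e.ns := by omega
        obtain ⟨p1, p2, p3, p4, p5⟩ := c.slot_mem hc hjn hi
        obtain ⟨q1, q2, q3, q4, q5⟩ := c.slot_mem hc hJ hi2
        have ht := hc.he.hti j J hj hJ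
        rw [← p4, ← q4] at ht
        have htm := c.slot_time hc p1 q1 (hc.hsite j hjn).1 (hc.hsite j hjn).2
          (hc.hsite J hJ).1 (hc.hsite J hJ).2 ht
        have h3 := (c.slot_st hc hJ hi2).2.2.1
        rw [← h3] at htm
        exact (c.slot_st_lt hc hjn hi htm).trans hs2
      · intro j hj hjn i hi hs
        have : j ∈ W := by
          rw [hW, Finset.mem_filter, Finset.mem_range]
          exact ⟨hjn, i, hi, hs⟩
        have := Finset.le_max' W j this
        omega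
    · refine ⟨0, hc.he.hns, fun j hj => absurd hj (by omega), ?_⟩
      intro j _ hjn i hi hs
      apply hne
      refine ⟨j, ?_⟩
      rw [hW, Finset.mem_filter, Finset.mem_range]
      exact ⟨hjn, i, hi, hs⟩
  have h3 := c.slot_struct hc k J hJ h1 h2
  obtain ⟨h4, h5⟩ := c.slot_cnt hc k hk
  have h6 := hc.hβ
  have h7 : ((J : ℝ) + 1) * c.e.dg ≤ c.e.G := by
    rw [← hc.he.hnG]
    apply mul_le_mul_of_nonneg_right _ hdg.le
    exact_mod_cast hJ
  have h8 : 0 ≤ (J : ℝ) * c.e.dg := by positivity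
  rw [abs_le] at h3
  unfold ND.BF
  constructor
  · linarith [h3.1, h3.2]
  · linarith [h3.1, h3.2]

theorem ND.slot_star (c : ND) (hc : c.Ok) (k : ℕ) (hk : k < c.ke) (i : ℕ) (hi : i < c.d.ℓ)
    (v : ℤ × ℤ) (v1 : |(v.1 : ℝ)| ≤ c.Rb) (v2 : |(v.2 : ℝ)| ≤ c.Rb) (ht : c.tt k = c.tm i v)
    (j : ℕ) (hj : j < c.e.ns) (htau : c.d.tau i v = c.e.ti c.d j) :
    |c.BF k - (c.e.z + j * c.e.dg)| ≤ (c.d.ℓ + 1) * c.e.dg := by
  have hdg := hc.he.hdg
  have h3 := c.slot_struct hc k j hj (by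
    intro j' hj' i' hi'
    have hjn : j' < c.e.ns := by omega
    obtain ⟨p1, p2, p3, p4, p5⟩ := c.slot_mem hc hjn hi'
    have ht' := hc.he.hti j' j hj' hj
    rw [← htau, ← p4] at ht'
    have htm := c.slot_time hc p1 hi (hc.hsite j' hjn).1 (hc.hsite j' hjn).2 v1 v2 ht'
    rw [← ht] at htm
    exact c.slot_st_lt hc hjn hi' htm) (by
    intro j' hj' hjn i' hi'
    obtain ⟨p1, p2, p3, p4, p5⟩ := c.slot_mem hc hjn hi'
    have ht' := hc.he.hti j j' hj' hjn
    rw [← htau, ← p4] at ht'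
    have htm := c.slot_time hc hi p1 v1 v2 (hc.hsite j' hjn).1 (hc.hsite j' hjn).2 ht'
    rw [← ht] at htm
    have := c.slot_lt_st hc hjn hi' htm
    omega)
  obtain ⟨h4, h5⟩ := c.slot_cnt hc k hk.le
  rw [abs_le] at h3 ⊢
  unfold ND.BF
  constructor
  · linarith [h3.1, h3.2]
  · linarith [h3.1, h3.2]

/-- increment -/
noncomputable def ND.INC (c : ND) (k : ℕ) : ℝ := ∑ j ∈ Finset.range c.e.ns,
  ∑ i ∈ c.d.K (c.e.cl j), if c.st i j = k then c.d.ρ (c.e.cl j) * c.d.ε i * c.dd j else 0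

theorem ND.slot_inc (c : ND) (k : ℕ) :
    ∑ j ∈ Finset.range c.e.ns, c.SS (k + 1) j = ∑ j ∈ Finset.range c.e.ns, c.SS k j + c.INC k := by
  unfold ND.INC ND.SS
  rw [← Finset.sum_add_distrib]
  apply Finset.sum_congr rfl
  intro j _
  rw [← Finset.sum_add_distrib]
  apply Finset.sum_congr rfl
  intro i _
  by_cases h1 : c.st i j < k
  · rw [if_pos (by omega), if_pos h1, if_neg (by omega), add_zero]
  · by_cases h2 : c.st i j = k
    · rw [if_pos (by omega), if_neg h1, if_pos h2, zero_add]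
    · rw [if_neg (by omega), if_neg h1, if_neg h2, zero_add]

theorem ND.slot_cnt_succ (c : ND) (k : ℕ) :
    (|c.oo k| ≤ c.C1 → c.cnt (k + 1) = c.cnt k + 1) ∧ (¬ |c.oo k| ≤ c.C1 → c.cnt (k + 1) = c.cnt k) := by
  classical
  unfold ND.cnt
  constructor
  · intro h
    rw [Finset.range_add_one, Finset.filter_insert, if_pos h, Finset.card_insert_of_notMem]
    simp
  · intro h
    rw [Finset.range_add_one, Finset.filter_insert, if_neg h]

theorem ND.slot_uniq (c : ND) (hc : c.Ok) (i : ℕ) (v w : ℤ × ℤ) (h1 : c.tm i v = c.tm i w)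
    (h2 : c.of i v = c.of i w) : v = w := by
  have hS : 0 < c.S := lt_of_lt_of_le one_pos hc.hS
  have h3 : c.lm i v = c.lm i w := by
    unfold ND.of at h2
    rw [h1] at h2
    have h4 := mul_left_cancel₀ hS.ne' h2
    have h5 : (c.lm i v : ℝ) = c.lm i w := by linarith
    exact_mod_cast h5
  unfold ND.tm at h1
  unfold ND.lm at h3
  have a1 : (v.1 - w.1) * c.Q1 + (v.2 - w.2) * c.Q2 = 0 := by linarith
  have a2 : (v.1 - w.1) * c.P1 + (v.2 - w.2) * c.P2 = 0 := by linarith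
  have d1 : (v.1 - w.1) * (c.Q1 * c.P2 - c.Q2 * c.P1) = 0 := by
    linear_combination c.P2 * a1 - c.Q2 * a2
  have d2 : (v.2 - w.2) * (c.Q1 * c.P2 - c.Q2 * c.P1) = 0 := by
    linear_combination c.Q1 * a2 - c.P1 * a1
  have hdet : c.Q1 * c.P2 - c.Q2 * c.P1 ≠ 0 := by
    rcases hc.det with h | h <;> rw [h] <;> norm_num
  have e1 := (mul_eq_zero.1 d1).resolve_right hdet
  have e2 := (mul_eq_zero.1 d2).resolve_right hdet
  exact Prod.ext (by linarith) (by linarith)

theorem ND.slot_formula (c : ND) (hc : c.Ok) (k : ℕ) (hk : k ≤ c.ke) : c.b k = c.BF k := by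
  classical
  induction k with
  | zero =>
    unfold ND.BF
    have h1 : ∑ j ∈ Finset.range c.e.ns, c.SS 0 j = 0 := by
      apply Finset.sum_eq_zero
      intro j _
      exact c.slot_zero 0 j (fun i _ => Nat.not_lt_zero _)
    have h2 : c.cnt 0 = 0 := by
      unfold ND.cnt
      simp
    rw [h1, h2]
    simp [ND.b]
  | succ k ih =>
    have hk' : k < c.ke := by omega
    have ih' := ih hk'.le
    have hstep : c.b (k + 1) = if |c.oo k| ≤ c.C1 then
      (if k < c.ke ∨ c.d.n (k % c.d.ℓ) = 0 then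
        act c.U (c.d.ρ (k % c.d.ℓ)) (c.d.ε (k % c.d.ℓ)) (c.oo k) (c.b k)
       else min (c.b k) (act c.U (c.d.ρ (k % c.d.ℓ)) (c.d.ε (k % c.d.ℓ)) (c.oo k) (c.b k))) - c.η
      else c.b k := rfl
    have hBF : c.BF (k + 1) = c.e.z + (∑ j ∈ Finset.range c.e.ns, c.SS k j + c.INC k) -
        c.η * c.cnt (k + 1) := by
      unfold ND.BF
      rw [c.slot_inc]
    rw [hstep, hBF]
    by_cases hcand : |c.oo k| ≤ c.C1
    · rw [if_pos hcand, if_pos (Or.inl hk'), (c.slot_cnt_succ k).1 hcand, ih']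
      push_cast
      have hkf : k < c.kf := lt_of_lt_of_le hk' (c.slot_kekf hc)
      obtain ⟨v, ht, ho, v1, v2⟩ := c.cand_range hc k hkf hcand
      obtain ⟨i, hi⟩ : ∃ i, i = k % c.d.ℓ := ⟨_, rfl⟩
      rw [← hi] at ht ho ⊢
      have hil : i < c.d.ℓ := by rw [hi]; exact Nat.mod_lt _ hc.hd.hℓ
      obtain ⟨happ1, happ2⟩ := hc.happ i hil v v1 v2
      have hS : 0 < c.S := lt_of_lt_of_le one_pos hc.hS
      have hδ := hc.hδ
      have hr0 := hc.hr0
      have hdg := hc.he.hdg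
      by_cases hmem : ∃ j, j < c.e.ns ∧ i ∈ c.d.K (c.e.cl j) ∧ v = c.e.al j
      · obtain ⟨j, hj, hij, hvj⟩ := hmem
        subst hvj
        obtain ⟨m1, m2, m3, m4, m5⟩ := c.slot_mem hc hj hij
        obtain ⟨s1, s2, s3, s4⟩ := c.slot_site hc hj hij
        obtain ⟨t1, t2, t3, t4⟩ := c.slot_st hc hj hij
        have hst : c.st i j = k := by
          unfold ND.st
          rw [← ht]
          unfold ND.tt
          have h1 : (c.ts + ((k / c.d.ℓ : ℕ) : ℤ) - c.ts).toNat = k / c.d.ℓ := by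
            rw [add_sub_cancel_left, Int.toNat_natCast]
          rw [h1, hi]
          exact Nat.div_add_mod' k c.d.ℓ
        have hINC : c.INC k = c.d.ρ (c.e.cl j) * c.d.ε i * c.dd j := by
          unfold ND.INC
          rw [Finset.sum_eq_single j]
          · rw [Finset.sum_eq_single i]
            · rw [if_pos hst]
            · intro i' hi' hne
              rw [if_neg]
              intro h
              apply hne
              have := (c.slot_st hc hj hi').2.1
              rw [h] at this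
              rw [← this, hi]
            · intro h
              exact absurd hij h
          · intro j' hj' hne
            rw [Finset.mem_range] at hj'
            apply Finset.sum_eq_zero
            intro i' hi'
            rw [if_neg]
            intro h
            apply hne
            obtain ⟨u1, u2, u3, u4⟩ := c.slot_st hc hj' hi'
            rw [h] at u2 u3 u4
            have hii : i' = i := by rw [← u2, hi]
            subst hii
            have hal : c.e.al j' = c.e.al j := by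
              apply c.slot_uniq hc i'
              · rw [← u3, ht]
              · rw [← u4, ho]
            have hti1 := (c.slot_mem hc hj' hi').2.2.2.1
            rw [hal, m4] at hti1
            rcases lt_trichotomy j' j with hlt | heq | hgt
            · have := hc.he.hti j' j hlt hj
              linarith
            · exact heq
            · have := hc.he.hti j j' hgt hj'
              linarith
          · intro h
            exact absurd (Finset.mem_range.2 hj) h
        have hstar := c.slot_star hc k hk' i hil (c.e.al j) v1 v2 ht j hj m4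
        have hact := act_flat c.U (c.d.ρ i) (c.d.ε i) (c.oo k) (c.BF k) (c.e.X c.d j) c.f (c.dd j)
          m5 (hc.hd.hε i) (hc.U2 j hj) (by
            have hρ0 : c.r0 ≤ c.d.ρ i := hc.hr1 i hil m5
            have e1 : (c.oo k + c.BF k) / c.d.ρ i - c.e.X c.d j =
                ((c.of i (c.e.al j) - c.e.os c.d j) + (c.BF k - (c.e.z + j * c.e.dg))) / c.d.ρ i := by
              unfold DD.X
              rw [ho, ← m2]
              field_simp
              ring
            rw [e1, abs_div, abs_of_pos m5]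
            have e2 : |(c.of i (c.e.al j) - c.e.os c.d j) + (c.BF k - (c.e.z + j * c.e.dg))| ≤
                c.δ + (c.d.ℓ + 1) * c.e.dg := (abs_add_le _ _).trans (add_le_add s1 hstar)
            have e3 : |(c.of i (c.e.al j) - c.e.os c.d j) + (c.BF k - (c.e.z + j * c.e.dg))| / c.d.ρ i ≤
                (c.δ + (c.d.ℓ + 1) * c.e.dg) / c.r0 :=
              div_le_div₀ (by positivity) e2 hr0 hρ0
            have e4 := (c.slot_rd hc j).2
            have e5 : (c.δ + (c.d.ℓ + 1) * c.e.dg) / c.r0 ≤ (c.d.ℓ + 2) * c.dmax := by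
              unfold ND.dmax
              rw [mul_div_assoc']
              apply div_le_div_of_nonneg_right _ hr0.le
              have := hc.hδ2
              linarith
            have e6 : 0 ≤ c.dmax := (abs_nonneg _).trans e4
            unfold ND.f
            linarith)
        rw [hact, hINC, m2]
        unfold ND.BF
        ring
      · have hINC : c.INC k = 0 := by
          unfold ND.INC
          apply Finset.sum_eq_zero
          intro j' hj'
          rw [Finset.mem_range] at hj'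
          apply Finset.sum_eq_zero
          intro i' hi'
          rw [if_neg]
          intro h
          obtain ⟨u1, u2, u3, u4⟩ := c.slot_st hc hj' hi'
          rw [h] at u2 u3 u4
          have hii : i' = i := by rw [← u2, hi]
          subst hii
          apply hmem
          refine ⟨j', hj', hi', ?_⟩
          apply c.slot_uniq hc i'
          · rw [← u3, ht]
          · rw [← u4, ho]
        have hact := act_off c.U (c.d.ρ i) (c.d.ε i) (c.oo k) (c.BF k) (hc.hd.hρ i hil)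
          (hc.hd.hε i) (by
            intro hρ
            apply hc.U1
            intro j hj
            have hρ0 : c.r0 ≤ c.d.ρ i := hc.hr1 i hil hρ
            have a2 := hc.hts
            have a3 := hc.hne
            have a5 := hc.hγ
            have hq : k / c.d.ℓ < c.ne := by
              rw [Nat.div_lt_iff_lt_mul hc.hd.hℓ]
              exact hk'
            have g1 : (c.ts : ℝ) / c.S ≤ (c.tm i v : ℝ) / c.S := by
              apply div_le_div_of_nonneg_right _ hS.le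
              rw [← ht]
              unfold ND.tt
              rw [Int.cast_add, Int.cast_natCast]
              have : (0 : ℝ) ≤ ((k / c.d.ℓ : ℕ) : ℝ) := Nat.cast_nonneg _
              linarith
            have g2 : (c.tm i v : ℝ) / c.S ≤ ((c.ts : ℝ) + c.ne) / c.S := by
              apply div_le_div_of_nonneg_right _ hS.le
              rw [← ht]
              unfold ND.tt
              rw [Int.cast_add, Int.cast_natCast]
              have : ((k / c.d.ℓ : ℕ) : ℝ) ≤ c.ne := by exact_mod_cast hq.le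
              linarith
            have happ2' := happ2
            rw [abs_le] at a2 a3 happ2'
            obtain ⟨bd1, bd2⟩ := c.slot_bd hc k hk'.le
            have hA := hc.he.A i v j (c.BF k) hil hρ hj (by linarith [a2.1, a2.2, happ2'.1, happ2'.2])
              (by linarith [a3.1, a3.2, happ2'.1, happ2'.2])
              (fun h => hmem ⟨j, hj, h.1, h.2⟩) bd1 bd2
              (fun htau => c.slot_star hc k hk' i hil v v1 v2 ht j hj htau)
            have e1 : (c.oo k + c.BF k) / c.d.ρ i - c.e.X c.d j =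
                ((c.d.o i v + c.BF k) / c.d.ρ i - c.e.X c.d j) + (c.of i v - c.d.o i v) / c.d.ρ i := by
              rw [ho]
              field_simp
              ring
            have e2 : |(c.of i v - c.d.o i v) / c.d.ρ i| ≤ c.δ / c.r0 := by
              rw [abs_div, abs_of_pos hρ]
              exact div_le_div₀ hδ.le happ1 hr0 hρ0
            have e3 := hc.hγ0
            rw [e1]
            have e4 := abs_sub_abs_le_abs_sub ((c.d.o i v + c.BF k) / c.d.ρ i - c.e.X c.d j)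
              (-((c.of i v - c.d.o i v) / c.d.ρ i))
            rw [abs_neg, sub_neg_eq_add] at e4
            linarith)
        rw [hact, hINC]
        unfold ND.BF
        ring
    · rw [if_neg hcand, (c.slot_cnt_succ k).2 hcand, ih']
      have hINC : c.INC k = 0 := by
        unfold ND.INC
        apply Finset.sum_eq_zero
        intro j' hj'
        rw [Finset.mem_range] at hj'
        apply Finset.sum_eq_zero
        intro i' hi'
        rw [if_neg]
        intro h
        obtain ⟨u1, u2, u3, u4⟩ := c.slot_st hc hj' hi'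
        rw [h] at u4
        apply hcand
        rw [u4]
        exact (c.slot_site hc hj' hi').2.1
      rw [hINC]
      unfold ND.BF
      ring

/-- TARGET -/
theorem ND.slot (c : ND) (hc : c.Ok) :
    c.ke ≤ c.kf ∧ (∀ k, k ≤ c.ke → c.e.z - 1 ≤ c.b k ∧ c.b k ≤ c.e.z + c.e.G + 1) ∧
      |c.b c.ke - (c.e.z + c.e.G)| ≤ c.e.dg := by
  refine ⟨c.slot_kekf hc, ?_, ?_⟩
  · intro k hk
    rw [c.slot_formula hc k hk]
    exact c.slot_bd hc k hk
  · rw [c.slot_formula hc c.ke le_rfl]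
    have h1 : ∑ j ∈ Finset.range c.e.ns, c.SS c.ke j = c.e.G := by
      have h2 : ∀ j ∈ Finset.range c.e.ns, c.SS c.ke j = c.e.dg := by
        intro j hj
        rw [Finset.mem_range] at hj
        exact c.slot_full hc c.ke j (fun i hi => (c.slot_st hc hj hi).1)
      rw [Finset.sum_congr rfl h2, Finset.sum_const, Finset.card_range, nsmul_eq_mul, hc.he.hnG]
    obtain ⟨h4, h5⟩ := c.slot_cnt hc c.ke le_rfl
    have hdg := hc.he.hdg
    unfold ND.BF
    rw [h1, abs_le]
    constructor <;> linarith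

end Pool.Agent.Helper29.Rot
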