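import Pool.Agent.Helper29.RotM1

set_option autoImplicit false

open Set

namespace Pool.Agent.Helper29.Rot

theorem LD.K_mem' (d : LD) (i j : ℕ) :
    j ∈ d.K i ↔ j < d.ℓ ∧ d.ρ j = d.ρ i ∧ d.a j = d.a i ∧ d.φ j = d.φ i := by
  simp [LD.K]

theorem LD.K_self' (d : LD) {i : ℕ} (hi : i < d.ℓ) : i ∈ d.K i := by
  rw [LD.K_mem']; exact ⟨hi, rfl, rfl, rfl⟩

theorem LD.K_eq' (d : LD) {i j : ℕ} (h : j ∈ d.K i) : d.K j = d.K i := by
  ext x
  rw [LD.K_mem', LD.K_mem']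
  rw [LD.K_mem'] at h
  rw [h.2.1, h.2.2.1, h.2.2.2]

theorem LD.n_eq' (d : LD) {i j : ℕ} (h : j ∈ d.K i) : d.n j = d.n i := by
  unfold LD.n
  rw [LD.K_eq' d h]

theorem LD.o_eq' (d : LD) {i j : ℕ} (h : j ∈ d.K i) (v : ℤ × ℤ) : d.o j v = d.o i v := by
  rw [LD.K_mem'] at h
  unfold LD.o
  rw [h.2.2.1]

theorem LD.tau_eq' (d : LD) {i j : ℕ} (h : j ∈ d.K i) (v : ℤ × ℤ) : d.tau j v = d.tau i v := by
  rw [LD.K_mem'] at h
  unfold LD.tau
  rw [h.2.2.2]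

theorem LD.T_inj' (d : LD) (hd : d.Ok) {v w : ℤ × ℤ} (h : d.T v = d.T w) : v = w := by
  obtain ⟨c, hc, hcv⟩ := hd.c0
  by_contra hne
  have h1 := hcv (v - w) (sub_ne_zero.2 hne)
  have h2 : d.T (v - w) = 0 := by
    unfold LD.T at h ⊢
    simp only [Prod.fst_sub, Prod.snd_sub, Int.cast_sub]
    linarith
  rw [h2, abs_zero, mul_zero] at h1
  linarith

theorem ND.dmax_pos (c : ND) (hc : c.Ok) : 0 < c.dmax := div_pos hc.he.hdg hc.hr0

theorem ND.S_pos (c : ND) (hc : c.Ok) : 0 < c.S := lt_of_lt_of_le one_pos hc.hS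

theorem ND.mod_lt' (c : ND) (hc : c.Ok) (j : ℕ) : j % c.d.ℓ < c.d.ℓ := Nat.mod_lt _ hc.hd.hℓ

theorem ND.rmax_pos (c : ND) (hc : c.Ok) : 0 < c.rmax :=
  lt_of_lt_of_le hc.he.hM.2.1 (hc.hr2 _ hc.he.hM.1)

theorem ND.act_le (c : ND) (hc : c.Ok) (j : ℕ) (g : ℝ) :
    |act c.U (c.d.ρ (j % c.d.ℓ)) (c.d.ε (j % c.d.ℓ)) (c.oo j) g - g| ≤ c.rmax * c.dmax := by
  have hi := c.mod_lt' hc j
  refine (act_bound c.U c.dmax hc.U4 _ _ _ _ (hc.hd.hρ _ hi) (hc.hd.hε _)).trans ?_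
  exact mul_le_mul_of_nonneg_right (hc.hr2 _ hi) (c.dmax_pos hc).le

theorem ND.b_step (c : ND) (hc : c.Ok) (j : ℕ) :
    |c.b (j + 1) - c.b j| ≤ if |c.oo j| ≤ c.C1 then c.rmax * c.dmax + c.η else 0 := by
  have h1 := c.act_le hc j (c.b j)
  have hη := hc.hη
  rw [ND.b]
  split_ifs with h2 h3
  · rw [abs_le] at h1 ⊢
    constructor <;> linarith [h1.1, h1.2]
  · rw [abs_le] at h1 ⊢
    have hm := min_le_left (c.b j)
      (act c.U (c.d.ρ (j % c.d.ℓ)) (c.d.ε (j % c.d.ℓ)) (c.oo j) (c.b j))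
    have hp : 0 ≤ c.rmax * c.dmax := mul_nonneg (c.rmax_pos hc).le (c.dmax_pos hc).le
    have hm2 : c.b j - c.rmax * c.dmax ≤ min (c.b j)
      (act c.U (c.d.ρ (j % c.d.ℓ)) (c.d.ε (j % c.d.ℓ)) (c.oo j) (c.b j)) := by
      apply le_min
      · linarith
      · linarith [h1.1]
    constructor <;> linarith
  · simp

open Classical in
theorem ND.b_diff (c : ND) (hc : c.Ok) (p q : ℕ) (hpq : p ≤ q) :
    |c.b q - c.b p| ≤
      (((Finset.Ico p q).filter (fun j => |c.oo j| ≤ c.C1)).card : ℝ) *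
        (c.rmax * c.dmax + c.η) := by
  induction q, hpq using Nat.le_induction with
  | base => simp
  | succ q hq ih =>
    have h1 := c.b_step hc q
    have h2 : Finset.Ico p (q + 1) = insert q (Finset.Ico p q) := by
      ext x; simp only [Finset.mem_Ico, Finset.mem_insert]; omega
    rw [h2, Finset.filter_insert]
    have h3 : |c.b (q + 1) - c.b p| ≤ |c.b (q + 1) - c.b q| + |c.b q - c.b p| := by
      have := abs_add_le (c.b (q + 1) - c.b q) (c.b q - c.b p)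
      simpa using this
    split_ifs with h4
    · rw [if_pos h4] at h1
      rw [Finset.card_insert_of_notMem (by simp)]
      push_cast
      linarith
    · rw [if_neg h4] at h1
      linarith

theorem ND.cand_inj (c : ND) (hc : c.Ok) (j j' : ℕ) (hj : j < c.kf) (hj' : j' < c.kf)
    (h : |c.oo j| ≤ c.C1) (h' : |c.oo j'| ≤ c.C1) (hm : j % c.d.ℓ = j' % c.d.ℓ)
    (ht : |(c.tt j : ℝ) / c.S - (c.tt j' : ℝ) / c.S| ≤ 8 * c.δ) : j = j' := by
  obtain ⟨v, hv1, hv2, hv3, hv4⟩ := c.cand_range hc j hj h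
  obtain ⟨w, hw1, hw2, hw3, hw4⟩ := c.cand_range hc j' hj' h'
  have hi := c.mod_lt' hc j
  have a1 := (hc.happ _ hi v hv3 hv4).2
  rw [← hm] at hw1 hw2
  have a2 := (hc.happ _ hi w hw3 hw4).2
  rw [← hv1] at a1
  rw [← hw1] at a2
  have a3 : |c.d.tau (j % c.d.ℓ) v - c.d.tau (j % c.d.ℓ) w| ≤ 10 * c.δ := by
    rw [abs_le] at a1 a2 ht ⊢
    constructor <;> linarith [a1.1, a1.2, a2.1, a2.2, ht.1, ht.2]
  have a4 := hc.htsep _ _ hi hi v w hv3 hv4 hw3 hw4 a3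
  have a5 : v = w := by
    apply c.d.T_inj' hc.hd
    unfold LD.tau at a4
    linarith
  rw [a5, ← hw1] at hv1
  unfold ND.tt at hv1
  have a6 : j / c.d.ℓ = j' / c.d.ℓ := by
    have := add_left_cancel hv1
    exact_mod_cast this
  rw [← Nat.div_add_mod j c.d.ℓ, ← Nat.div_add_mod j' c.d.ℓ, a6, hm]

/-- few candidate steps with close times -/
theorem ND.card_le' (c : ND) (hc : c.Ok) (J : Finset ℕ) (hJ : ∀ j ∈ J, j < c.kf)
    (hJc : ∀ j ∈ J, |c.oo j| ≤ c.C1)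
    (hJt : ∀ j ∈ J, ∀ j' ∈ J, |(c.tt j : ℝ) / c.S - (c.tt j' : ℝ) / c.S| ≤ 8 * c.δ) :
    J.card ≤ c.d.ℓ := by
  have h1 : J.card ≤ (Finset.range c.d.ℓ).card := by
    apply Finset.card_le_card_of_injOn (fun j => j % c.d.ℓ)
    · intro j hj
      simp only [Finset.coe_range, Set.mem_Iio]
      exact c.mod_lt' hc j
    · intro j hj j' hj' hm
      exact c.cand_inj hc j j' (hJ j hj) (hJ j' hj') (hJc j hj) (hJc j' hj') hm (hJt j hj j' hj')
  simpa using h1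

theorem ND.l_eta (c : ND) (hc : c.Ok) : (c.d.ℓ : ℝ) * c.η ≤ c.rmax * c.dmax / 4 := by
  have h1 := hc.hηR2
  have h2 : (c.d.ℓ : ℝ) ≤ c.R := by
    unfold ND.R
    have : (1 : ℝ) ≤ (2 * (c.Rb : ℝ) + 1) ^ 2 := by
      have : (0 : ℝ) ≤ c.Rb := Nat.cast_nonneg _
      nlinarith
    have h3 : (0 : ℝ) ≤ c.d.ℓ := Nat.cast_nonneg _
    nlinarith
  have h3 := mul_le_mul_of_nonneg_right h2 hc.hη.le
  linarith

theorem ND.tt_mono' (c : ND) {p q : ℕ} (h : p ≤ q) : c.tt p ≤ c.tt q := by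
  unfold ND.tt
  have := Nat.div_le_div_right (c := c.d.ℓ) h
  have h2 : ((p / c.d.ℓ : ℕ) : ℤ) ≤ ((q / c.d.ℓ : ℕ) : ℤ) := by exact_mod_cast this
  linarith

theorem ND.ttS_mono' (c : ND) (hc : c.Ok) {p q : ℕ} (h : p ≤ q) :
    (c.tt p : ℝ) / c.S ≤ (c.tt q : ℝ) / c.S := by
  have h1 : (c.tt p : ℝ) ≤ c.tt q := by exact_mod_cast c.tt_mono' h
  exact div_le_div_of_nonneg_right h1 (c.S_pos hc).le

theorem ND.b_close (c : ND) (hc : c.Ok) (p q : ℕ) (hpq : p ≤ q) (hq : q < c.kf)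
    (ht : |(c.tt p : ℝ) / c.S - (c.tt q : ℝ) / c.S| ≤ 8 * c.δ) :
    |c.b q - c.b p| ≤ c.d.ℓ * (c.rmax * c.dmax) + c.rmax * c.dmax / 4 := by
  classical
  have h1 := c.b_diff hc p q hpq
  have h2 : ((Finset.Ico p q).filter (fun j => |c.oo j| ≤ c.C1)).card ≤ c.d.ℓ := by
    apply c.card_le' hc
    · intro j hj
      rw [Finset.mem_filter, Finset.mem_Ico] at hj
      omega
    · intro j hj
      rw [Finset.mem_filter] at hj
      exact hj.2
    · intro j hj j' hj'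
      rw [Finset.mem_filter, Finset.mem_Ico] at hj hj'
      have a1 := c.ttS_mono' hc hj.1.1
      have a2 := c.ttS_mono' hc hj.1.2.le
      have a3 := c.ttS_mono' hc hj'.1.1
      have a4 := c.ttS_mono' hc hj'.1.2.le
      rw [abs_le] at ht ⊢
      constructor <;> linarith [ht.1, ht.2]
  have h3 : (((Finset.Ico p q).filter (fun j => |c.oo j| ≤ c.C1)).card : ℝ) ≤ c.d.ℓ := by
    exact_mod_cast h2
  have hp : 0 ≤ c.rmax * c.dmax := mul_nonneg (c.rmax_pos hc).le (c.dmax_pos hc).le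
  have h4 : (0 : ℝ) ≤ c.rmax * c.dmax + c.η := by linarith [hc.hη]
  have h5 := mul_le_mul_of_nonneg_right h3 h4
  have h6 := c.l_eta hc
  linarith

theorem ND.b_close' (c : ND) (hc : c.Ok) (p q : ℕ) (hp : p < c.kf) (hq : q < c.kf)
    (ht : |(c.tt p : ℝ) / c.S - (c.tt q : ℝ) / c.S| ≤ 8 * c.δ) :
    |c.b q - c.b p| ≤ c.d.ℓ * (c.rmax * c.dmax) + c.rmax * c.dmax / 4 := by
  rcases le_total p q with h | h
  · exact c.b_close hc p q h hq ht
  · rw [abs_sub_comm]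
    rw [abs_sub_comm] at ht
    exact c.b_close hc q p h hp ht

/-- the step of a label -/
def ND.stb (c : ND) (i : ℕ) (v : ℤ × ℤ) : ℕ := (c.tm i v - c.ts).toNat * c.d.ℓ + i

theorem ND.stb_mod (c : ND) {i : ℕ} (hi : i < c.d.ℓ) (v : ℤ × ℤ) : c.stb i v % c.d.ℓ = i := by
  unfold ND.stb
  rw [Nat.mul_comm, Nat.mul_add_mod, Nat.mod_eq_of_lt hi]

theorem ND.clus (c : ND) (hc : c.Ok) (i0 : ℕ) (hi0 : i0 < c.d.ℓ) (hn : c.d.n i0 = 0)
    (hρ : 0 < c.d.ρ i0) (v : ℤ × ℤ) (hv1 : |(v.1 : ℝ)| ≤ c.Rb) (hv2 : |(v.2 : ℝ)| ≤ c.Rb)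
    (hC : ∀ i ∈ c.d.K i0, |c.of i v| ≤ c.C1)
    (hst : ∀ i ∈ c.d.K i0, c.ts ≤ c.tm i v ∧ c.tm i v < c.ts + c.N) :
    |∑ i ∈ c.d.K i0, c.bc (c.stb i v)| ≤ 3 * c.d.ℓ ^ 2 * c.σ * (c.rmax * c.dmax) := by
  classical
  have hp : 0 < c.rmax * c.dmax := mul_pos (c.rmax_pos hc) (c.dmax_pos hc)
  -- facts about members
  have hfact : ∀ i ∈ c.d.K i0, c.stb i v < c.kf ∧ c.stb i v % c.d.ℓ = i ∧
      c.tt (c.stb i v) = c.tm i v ∧ c.oo (c.stb i v) = c.of i v := by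
    intro i hi
    have hiK := (c.d.K_mem' i0 i).1 hi
    obtain ⟨k, hk1, hk2, hk3, hk4, hk5⟩ := c.step_of hc i hiK.1 v (hC i hi) (hst i hi).1 (hst i hi).2
    have : k = c.stb i v := hk5
    rw [← this]
    exact ⟨hk1, hk2, hk3, hk4⟩
  set D : ℕ → ℝ := fun i => c.U ((c.of i v + c.b (c.stb i v)) / c.d.ρ i0) -
    (c.of i v + c.b (c.stb i v)) / c.d.ρ i0 with hD
  have hbc : ∀ i ∈ c.d.K i0, |c.bc (c.stb i v) - c.d.ρ i0 * c.d.ε i * D i| ≤
      c.rmax * c.σ * c.dmax := by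
    intro i hi
    have hiK := (c.d.K_mem' i0 i).1 hi
    obtain ⟨f1, f2, f3, f4⟩ := hfact i hi
    have hρi : 0 < c.d.ρ i := by rw [hiK.2.1]; exact hρ
    have h1 := act_first c.U c.σ c.dmax hc.hσ.le hc.U3 hc.U4 (c.d.ρ i) (c.d.ε i) (c.of i v)
      (c.b (c.stb i v)) hρi (hc.hd.hε i)
    have hni : c.d.n i = 0 := by rw [c.d.n_eq' hi]; exact hn
    unfold ND.bc
    rw [f2, f4, if_pos ⟨hC i hi, hni⟩]
    rw [hiK.2.1] at h1 ⊢
    refine h1.trans ?_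
    have h2 : c.d.ρ i0 * c.σ ≤ c.rmax * c.σ :=
      mul_le_mul_of_nonneg_right (hc.hr2 _ hi0) hc.hσ.le
    exact mul_le_mul_of_nonneg_right h2 (c.dmax_pos hc).le
  have hDd : ∀ i ∈ c.d.K i0, |c.d.ρ i0 * c.d.ε i * (D i - D i0)| ≤
      c.σ * (c.rmax * c.dmax * (c.d.ℓ + 3 / 4)) := by
    intro i hi
    have hiK := (c.d.K_mem' i0 i).1 hi
    have hi0K := c.d.K_self' hi0
    obtain ⟨f1, f2, f3, f4⟩ := hfact i hi
    obtain ⟨g1, g2, g3, g4⟩ := hfact i0 hi0K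
    have a1 := hc.happ i hiK.1 v hv1 hv2
    have a2 := hc.happ i0 hi0 v hv1 hv2
    rw [c.d.o_eq' hi, c.d.tau_eq' hi] at a1
    have a3 : |(c.tt (c.stb i v) : ℝ) / c.S - (c.tt (c.stb i0 v) : ℝ) / c.S| ≤ 8 * c.δ := by
      rw [f3, g3]
      have hδ := hc.hδ
      have b1 := abs_le.1 a1.2
      have b2 := abs_le.1 a2.2
      rw [abs_le]
      constructor <;> linarith [b1.1, b1.2, b2.1, b2.2]
    have a4 := c.b_close' hc _ _ f1 g1 a3
    have a5 : |c.of i v - c.of i0 v| ≤ 2 * c.δ := by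
      have b1 := abs_le.1 a1.1
      have b2 := abs_le.1 a2.1
      rw [abs_le]
      constructor <;> linarith [b1.1, b1.2, b2.1, b2.2]
    have a6 := hc.U3 ((c.of i v + c.b (c.stb i v)) / c.d.ρ i0)
      ((c.of i0 v + c.b (c.stb i0 v)) / c.d.ρ i0)
    have a7 : c.d.ρ i0 * |(c.of i v + c.b (c.stb i v)) / c.d.ρ i0 -
      (c.of i0 v + c.b (c.stb i0 v)) / c.d.ρ i0| =
        |(c.of i v - c.of i0 v) - (c.b (c.stb i0 v) - c.b (c.stb i v))| := by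
      rw [← sub_div, abs_div, abs_of_pos hρ]
      rw [mul_div_cancel₀ _ hρ.ne']
      congr 1; ring
    have a8 : |(c.of i v - c.of i0 v) - (c.b (c.stb i0 v) - c.b (c.stb i v))| ≤
        2 * c.δ + (c.d.ℓ * (c.rmax * c.dmax) + c.rmax * c.dmax / 4) :=
      (abs_sub _ _).trans (add_le_add a5 a4)
    have a9 : |(c.d.ε i : ℝ)| ≤ 1 := by
      rcases hc.hd.hε i with h | h | h <;> rw [h] <;> simp
    rw [abs_mul, abs_mul, abs_of_pos hρ]
    have a10 : c.d.ρ i0 * |(c.d.ε i : ℝ)| * |D i - D i0| ≤ c.d.ρ i0 * |D i - D i0| := by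
      have : c.d.ρ i0 * |(c.d.ε i : ℝ)| ≤ c.d.ρ i0 * 1 :=
        mul_le_mul_of_nonneg_left a9 hρ.le
      rw [mul_one] at this
      exact mul_le_mul_of_nonneg_right this (abs_nonneg _)
    refine a10.trans ?_
    have a11 : c.d.ρ i0 * |D i - D i0| ≤ c.d.ρ i0 * (c.σ *
        |(c.of i v + c.b (c.stb i v)) / c.d.ρ i0 -
      (c.of i0 v + c.b (c.stb i0 v)) / c.d.ρ i0|) := mul_le_mul_of_nonneg_left a6 hρ.le
    refine a11.trans ?_
    have a12 : c.d.ρ i0 * (c.σ * |(c.of i v + c.b (c.stb i v)) / c.d.ρ i0 -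
      (c.of i0 v + c.b (c.stb i0 v)) / c.d.ρ i0|) = c.σ * (c.d.ρ i0 *
        |(c.of i v + c.b (c.stb i v)) / c.d.ρ i0 -
      (c.of i0 v + c.b (c.stb i0 v)) / c.d.ρ i0|) := by ring
    rw [a12, a7]
    apply mul_le_mul_of_nonneg_left _ hc.hσ.le
    have := hc.hδ3
    linarith
  -- sum of the exponents
  have hsum : ∑ i ∈ c.d.K i0, c.d.ρ i0 * c.d.ε i * D i0 = 0 := by
    have h1 : ∑ i ∈ c.d.K i0, c.d.ρ i0 * c.d.ε i * D i0 =
        c.d.ρ i0 * ((∑ i ∈ c.d.K i0, c.d.ε i : ℤ) : ℝ) * D i0 := by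
      rw [Int.cast_sum, Finset.mul_sum, Finset.sum_mul]
    have h2 : (∑ i ∈ c.d.K i0, c.d.ε i : ℤ) = 0 := hn
    rw [h1, h2]; simp
  have hcard : ((c.d.K i0).card : ℝ) ≤ c.d.ℓ := by
    have : (c.d.K i0).card ≤ (Finset.range c.d.ℓ).card := by
      unfold LD.K
      exact Finset.card_filter_le _ _
    rw [Finset.card_range] at this
    exact_mod_cast this
  have hdec : ∑ i ∈ c.d.K i0, c.bc (c.stb i v) =
      ∑ i ∈ c.d.K i0, (c.bc (c.stb i v) - c.d.ρ i0 * c.d.ε i * D i) +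
        ∑ i ∈ c.d.K i0, c.d.ρ i0 * c.d.ε i * (D i - D i0) := by
    have : ∑ i ∈ c.d.K i0, c.d.ρ i0 * c.d.ε i * (D i - D i0) =
        ∑ i ∈ c.d.K i0, c.d.ρ i0 * c.d.ε i * D i -
          ∑ i ∈ c.d.K i0, c.d.ρ i0 * c.d.ε i * D i0 := by
      rw [← Finset.sum_sub_distrib]
      exact Finset.sum_congr rfl fun i _ => by ring
    rw [this, hsum, Finset.sum_sub_distrib]; ring
  rw [hdec]
  have e1 : |∑ i ∈ c.d.K i0, (c.bc (c.stb i v) - c.d.ρ i0 * c.d.ε i * D i)| ≤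
      c.d.ℓ * (c.rmax * c.σ * c.dmax) := by
    refine (Finset.abs_sum_le_sum_abs _ _).trans ((Finset.sum_le_sum hbc).trans ?_)
    rw [Finset.sum_const, nsmul_eq_mul]
    apply mul_le_mul_of_nonneg_right hcard
    exact mul_nonneg (mul_nonneg (c.rmax_pos hc).le hc.hσ.le) (c.dmax_pos hc).le
  have e2 : |∑ i ∈ c.d.K i0, c.d.ρ i0 * c.d.ε i * (D i - D i0)| ≤
      c.d.ℓ * (c.σ * (c.rmax * c.dmax * (c.d.ℓ + 3 / 4))) := by
    refine (Finset.abs_sum_le_sum_abs _ _).trans ((Finset.sum_le_sum hDd).trans ?_)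
    rw [Finset.sum_const, nsmul_eq_mul]
    apply mul_le_mul_of_nonneg_right hcard
    have : (0 : ℝ) ≤ c.d.ℓ := Nat.cast_nonneg _
    exact mul_nonneg hc.hσ.le (mul_nonneg hp.le (by linarith))
  refine (abs_add_le _ _).trans ((add_le_add e1 e2).trans ?_)
  have hl : (1 : ℝ) ≤ c.d.ℓ := by exact_mod_cast hc.hd.hℓ
  have hx : 0 < c.σ * (c.rmax * c.dmax) := mul_pos hc.hσ hp
  have : c.d.ℓ * (c.rmax * c.σ * c.dmax) + c.d.ℓ * (c.σ * (c.rmax * c.dmax * (c.d.ℓ + 3 / 4))) =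
      (c.d.ℓ * (c.d.ℓ + 7 / 4 : ℝ)) * (c.σ * (c.rmax * c.dmax)) := by ring
  rw [this]
  have h2 : 3 * (c.d.ℓ : ℝ) ^ 2 * c.σ * (c.rmax * c.dmax) =
      (3 * (c.d.ℓ : ℝ) ^ 2) * (c.σ * (c.rmax * c.dmax)) := by ring
  rw [h2]
  apply mul_le_mul_of_nonneg_right _ hx.le
  nlinarith

theorem ND.hcl_n (c : ND) (hc : c.Ok) (s : ℕ) : c.d.n (c.e.cl s) ≠ 0 ∧
    0 < c.d.ρ (c.e.cl s) ∧ c.e.cl s < c.d.ℓ := by
  rcases hc.he.hcl s with h | h
  · rw [h]; exact ⟨hc.he.hM.2.2, hc.he.hM.2.1, hc.he.hM.1⟩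
  · rw [h]; exact ⟨hc.he.hm.2.2, hc.he.hm.2.1, hc.he.hm.1⟩

theorem ND.div_lt (c : ND) (j : ℕ) (hj : j < c.kf) : ((j / c.d.ℓ : ℕ) : ℤ) < c.N := by
  have h1 : j / c.d.ℓ < c.N.toNat := by
    apply Nat.div_lt_of_lt_mul
    unfold ND.kf at hj
    rw [Nat.mul_comm]; exact hj
  generalize j / c.d.ℓ = q at h1 ⊢
  omega

theorem ND.touch (c : ND) (hc : c.Ok) (k : ℕ) (hk' : k ≤ c.kf)
    (hr : ∀ j, c.ke ≤ j → j < k → c.e.z - 1 ≤ c.b j ∧ c.b j ≤ c.e.z + c.e.G + 1)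
    (j : ℕ) (h1 : c.ke ≤ j) (h2 : j < k) (hbc : c.bc j ≠ 0) :
    ∃ (v : ℤ × ℤ) (s : ℕ), s < c.e.ns ∧ |c.oo j| ≤ c.C1 - 1 ∧ c.d.n (j % c.d.ℓ) = 0 ∧
      0 < c.d.ρ (j % c.d.ℓ) ∧ c.tt j = c.tm (j % c.d.ℓ) v ∧ c.oo j = c.of (j % c.d.ℓ) v ∧
      |(v.1 : ℝ)| ≤ c.Rb ∧ |(v.2 : ℝ)| ≤ c.Rb ∧
      |(c.d.o (j % c.d.ℓ) v + c.b j) / c.d.ρ (j % c.d.ℓ) - c.e.X c.d s| ≤ c.e.w + c.e.γ ∧
      c.e.Ten + c.e.γ < c.d.tau (j % c.d.ℓ) v ∧
      c.d.tau (j % c.d.ℓ) v ≤ c.e.Tst + c.d.T c.e.ls + c.e.γ := by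
  have hi := c.mod_lt' hc j
  have hS := c.S_pos hc
  have hjf : j < c.kf := lt_of_lt_of_le h2 hk'
  unfold ND.bc at hbc
  split_ifs at hbc with hcn
  swap
  · exact absurd rfl hbc
  obtain ⟨hcand, hn⟩ := hcn
  have hρ : 0 < c.d.ρ (j % c.d.ℓ) := by
    rcases (hc.hd.hρ _ hi).lt_or_eq with h | h
    · exact h
    · exfalso
      apply hbc
      rw [← h]
      unfold act
      simp
  obtain ⟨s, hs, hsX⟩ : ∃ s, s < c.e.ns ∧
      |(c.oo j + c.b j) / c.d.ρ (j % c.d.ℓ) - c.e.X c.d s| < c.e.w := by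
    by_contra hcon
    push Not at hcon
    apply hbc
    rw [act_off c.U _ _ _ _ (hc.hd.hρ _ hi) (hc.hd.hε _) (fun _ => hc.U1 _ hcon), sub_self]
  obtain ⟨v, hv1, hv2, hv3, hv4⟩ := c.cand_range hc j hjf hcand
  have happ := hc.happ _ hi v hv3 hv4
  rw [← hv1, ← hv2] at happ
  obtain ⟨hbl, hbu⟩ := hr j h1 h2
  have hz := hc.he.hz
  have hγ := hc.hγ
  have hδ := hc.hδ
  have hG1 : 1 < c.e.G := by rw [hc.he.hG]; linarith [hc.he.hsp]
  -- closeness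
  have hcl : |(c.d.o (j % c.d.ℓ) v + c.b j) / c.d.ρ (j % c.d.ℓ) -
      (c.oo j + c.b j) / c.d.ρ (j % c.d.ℓ)| ≤ c.e.γ := by
    rw [← sub_div, abs_div, abs_of_pos hρ]
    have h3 : |c.d.o (j % c.d.ℓ) v + c.b j - (c.oo j + c.b j)| ≤ c.δ := by
      rw [abs_sub_comm]
      have : c.oo j + c.b j - (c.d.o (j % c.d.ℓ) v + c.b j) = c.oo j - c.d.o (j % c.d.ℓ) v := by
        ring
      rw [this]; exact happ.1
    have h4 := hc.hr1 _ hi hρ
    calc |c.d.o (j % c.d.ℓ) v + c.b j - (c.oo j + c.b j)| / c.d.ρ (j % c.d.ℓ)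
        ≤ c.δ / c.d.ρ (j % c.d.ℓ) := div_le_div_of_nonneg_right h3 hρ.le
      _ ≤ c.δ / c.r0 := div_le_div_of_nonneg_left hδ.le hc.hr0 h4
      _ ≤ c.e.γ := hc.hγ0
  have hlt : |(c.d.o (j % c.d.ℓ) v + c.b j) / c.d.ρ (j % c.d.ℓ) - c.e.X c.d s| <
      c.e.w + c.e.γ := by
    have h3 := abs_sub_le ((c.d.o (j % c.d.ℓ) v + c.b j) / c.d.ρ (j % c.d.ℓ))
      ((c.oo j + c.b j) / c.d.ρ (j % c.d.ℓ)) (c.e.X c.d s)
    linarith
  -- size of the offset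
  have hoo : |c.oo j| ≤ c.C1 - 1 := by
    have h3 : c.oo j = c.d.ρ (j % c.d.ℓ) *
        (((c.oo j + c.b j) / c.d.ρ (j % c.d.ℓ) - c.e.X c.d s) + c.e.X c.d s) - c.b j := by
      rw [sub_add_cancel, mul_div_cancel₀ _ hρ.ne']; ring
    have h4 : |((c.oo j + c.b j) / c.d.ρ (j % c.d.ℓ) - c.e.X c.d s) + c.e.X c.d s| ≤
        |c.e.X c.d s| + c.e.w := by
      refine (abs_add_le _ _).trans ?_
      linarith
    have h5 : |c.b j| ≤ c.e.G + 2 := by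
      rw [abs_le]
      constructor <;> linarith [hz.1, hz.2]
    have h6 : |c.oo j| ≤ c.d.ρ (j % c.d.ℓ) * (|c.e.X c.d s| + c.e.w) + (c.e.G + 2) := by
      rw [h3]
      refine (abs_sub _ _).trans (add_le_add ?_ h5)
      rw [abs_mul, abs_of_pos hρ]
      exact mul_le_mul_of_nonneg_left h4 hρ.le
    have h7 := hc.hC1 s _ hs hi
    have h8 : c.d.ρ (j % c.d.ℓ) * (|c.e.X c.d s| + c.e.w) ≤
        c.d.ρ (j % c.d.ℓ) * (|c.e.X c.d s| + c.e.w + c.e.γ) :=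
      mul_le_mul_of_nonneg_left (by linarith [hc.he.hγ]) hρ.le
    linarith
  -- times
  have ht1 : (c.ts : ℝ) + c.ne ≤ c.tt j := by
    have h3 : c.ne ≤ j / c.d.ℓ := by
      rw [Nat.le_div_iff_mul_le hc.hd.hℓ]; exact h1
    have h4 : c.ts + (c.ne : ℤ) ≤ c.tt j := by
      unfold ND.tt
      have : (c.ne : ℤ) ≤ ((j / c.d.ℓ : ℕ) : ℤ) := by exact_mod_cast h3
      linarith
    exact_mod_cast h4
  have ht2 : (c.tt j : ℝ) ≤ c.ts + c.N := by
    have h3 := c.div_lt j hjf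
    have h4 : c.tt j ≤ c.ts + c.N := by
      unfold ND.tt; linarith
    exact_mod_cast h4
  have ht3 : ((c.ts : ℝ) + c.ne) / c.S ≤ c.tt j / c.S := div_le_div_of_nonneg_right ht1 hS.le
  have ht4 : (c.tt j : ℝ) / c.S ≤ c.ts / c.S + c.N / c.S := by
    rw [← add_div]; exact div_le_div_of_nonneg_right ht2 hS.le
  have b1 := abs_le.1 hc.hne
  have b2 := abs_le.1 hc.hts
  have b3 := abs_le.1 hc.hls1
  have b4 := abs_le.1 happ.2
  have hst := hc.he.hst s hs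
  have hen := hc.he.hen s hs
  have hend := hc.he.hend
  have hτ1 : c.e.Ten - 2 * c.δ ≤ c.d.tau (j % c.d.ℓ) v := by linarith [b1.1, b4.2]
  have hτ2 : c.d.tau (j % c.d.ℓ) v ≤ c.e.Tst + c.d.T c.e.ls + c.e.γ := by
    linarith [b4.1, b2.2, b3.2]
  refine ⟨v, s, hs, hoo, hn, hρ, hv1, hv2, hv3, hv4, hlt.le, ?_, hτ2⟩
  by_contra hcon
  push Not at hcon
  have hA := hc.he.A (j % c.d.ℓ) v s (c.b j) hi hρ hs (by linarith) hcon
    (by
      rintro ⟨hK, -⟩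
      exact (c.hcl_n hc s).1 (by rw [← c.d.n_eq' hK]; exact hn))
    hbl hbu
    (by
      intro h
      exfalso
      linarith)
  linarith

theorem ND.label_inj (c : ND) (hc : c.Ok) (i : ℕ) (v w : ℤ × ℤ) (h1 : c.tm i v = c.tm i w)
    (h2 : c.of i v = c.of i w) : v = w := by
  have hS := c.S_pos hc
  have h3 : c.lm i v = c.lm i w := by
    unfold ND.of at h2
    have h4 := mul_left_cancel₀ hS.ne' h2
    rw [h1] at h4
    have h5 : (c.lm i v : ℝ) = c.lm i w := by linarith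
    exact_mod_cast h5
  unfold ND.tm at h1
  unfold ND.lm at h3
  have e1 : (v.1 - w.1) * c.Q1 + (v.2 - w.2) * c.Q2 = 0 := by linear_combination h1
  have e2 : (v.1 - w.1) * c.P1 + (v.2 - w.2) * c.P2 = 0 := by linear_combination h3
  have e3 : (v.1 - w.1) * (c.Q1 * c.P2 - c.Q2 * c.P1) = 0 := by
    linear_combination c.P2 * e1 - c.Q2 * e2
  have e4 : (v.2 - w.2) * (c.Q1 * c.P2 - c.Q2 * c.P1) = 0 := by
    linear_combination c.Q1 * e2 - c.P1 * e1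
  have hdet : c.Q1 * c.P2 - c.Q2 * c.P1 ≠ 0 := by
    rcases hc.det with h | h <;> rw [h] <;> decide
  have e5 : v.1 - w.1 = 0 := (mul_eq_zero.1 e3).resolve_right hdet
  have e6 : v.2 - w.2 = 0 := (mul_eq_zero.1 e4).resolve_right hdet
  exact Prod.ext (by linarith) (by linarith)

/-- TARGET -/
theorem ND.bal_bound (c : ND) (hc : c.Ok) (k : ℕ) (hk : c.ke ≤ k) (hk' : k ≤ c.kf)
    (hr : ∀ j, c.ke ≤ j → j < k → c.e.z - 1 ≤ c.b j ∧ c.b j ≤ c.e.z + c.e.G + 1) :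
    |c.Bal k| ≤ c.V := by
  classical
  have hS := c.S_pos hc
  have hp : 0 < c.rmax * c.dmax := mul_pos (c.rmax_pos hc) (c.dmax_pos hc)
  have hδ := hc.hδ
  set J : Finset ℕ := (Finset.Ico c.ke k).filter (fun j => c.bc j ≠ 0) with hJ
  have hJm : ∀ j, j ∈ J ↔ (c.ke ≤ j ∧ j < k) ∧ c.bc j ≠ 0 := by
    intro j; rw [hJ, Finset.mem_filter, Finset.mem_Ico]
  -- labels
  have hlab : ∀ j, ∃ v : ℤ × ℤ, j ∈ J → ∃ s : ℕ, s < c.e.ns ∧ |c.oo j| ≤ c.C1 - 1 ∧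
      c.d.n (j % c.d.ℓ) = 0 ∧
      0 < c.d.ρ (j % c.d.ℓ) ∧ c.tt j = c.tm (j % c.d.ℓ) v ∧ c.oo j = c.of (j % c.d.ℓ) v ∧
      |(v.1 : ℝ)| ≤ c.Rb ∧ |(v.2 : ℝ)| ≤ c.Rb ∧
      |(c.d.o (j % c.d.ℓ) v + c.b j) / c.d.ρ (j % c.d.ℓ) - c.e.X c.d s| ≤ c.e.w + c.e.γ ∧
      c.e.Ten + c.e.γ < c.d.tau (j % c.d.ℓ) v ∧
      c.d.tau (j % c.d.ℓ) v ≤ c.e.Tst + c.d.T c.e.ls + c.e.γ := by
    intro j
    by_cases hj : j ∈ J
    · have hj' := (hJm j).1 hj
      obtain ⟨v, hv⟩ := c.touch hc k hk' hr j hj'.1.1 hj'.1.2 hj'.2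
      exact ⟨v, fun _ => hv⟩
    · exact ⟨0, fun h => absurd h hj⟩
  choose vj hvj using hlab
  -- reconstruction of a step from its label
  have hrec : ∀ j, j ∈ J → j = c.stb (j % c.d.ℓ) (vj j) := by
    intro j hj
    obtain ⟨s, -, -, -, -, h5, -⟩ := hvj j hj
    unfold ND.stb
    rw [← h5]
    unfold ND.tt
    rw [add_sub_cancel_left, Int.toNat_natCast, Nat.mul_comm]
    exact (Nat.div_add_mod j c.d.ℓ).symm
  -- completeness
  set Cp : ℕ → Prop := fun j => ∀ i ∈ c.d.K (j % c.d.ℓ), c.stb i (vj j) < k with hCp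
  set J1 := J.filter Cp with hJ1
  set J3 := J.filter (fun j => ¬ Cp j) with hJ3
  have hBal : c.Bal k = ∑ j ∈ J1, c.bc j + ∑ j ∈ J3, c.bc j := by
    rw [hJ1, hJ3, Finset.sum_filter_add_sum_filter_not, hJ]
    unfold ND.Bal
    rw [Finset.sum_filter_ne_zero]
  -- members of clusters
  have hmem : ∀ j ∈ J, ∀ i ∈ c.d.K (j % c.d.ℓ), |c.of i (vj j)| ≤ c.C1 ∧
      c.ts ≤ c.tm i (vj j) ∧ c.ke ≤ c.stb i (vj j) ∧
      |(c.tt j : ℝ) / c.S - (c.tm i (vj j) : ℝ) / c.S| ≤ 2 * c.δ := by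
    intro j hj i hi
    obtain ⟨s, hs, hoo, hn, hρ, h5, h6, hv1, hv2, h7, h8, h9⟩ := hvj j hj
    have hiK := (c.d.K_mem' _ i).1 hi
    have hjl := c.mod_lt' hc j
    have a1 := hc.happ i hiK.1 (vj j) hv1 hv2
    have a2 := hc.happ _ hjl (vj j) hv1 hv2
    rw [c.d.o_eq' hi, c.d.tau_eq' hi] at a1
    rw [← h5, ← h6] at a2
    have hδ1 := hc.hδ1
    have b1 := abs_le.1 a1.1
    have b2 := abs_le.1 a2.1
    have b3 := abs_le.1 a1.2
    have b4 := abs_le.1 a2.2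
    have b5 := abs_le.1 hoo
    have b6 := abs_le.1 hc.hne
    have hγ := hc.hγ
    have h10 : ((c.ts : ℝ) + c.ne) / c.S < (c.tm i (vj j) : ℝ) / c.S := by linarith [b6.1, b6.2]
    have h11 : (c.ts : ℝ) + c.ne < c.tm i (vj j) := (div_lt_div_iff_of_pos_right hS).1 h10
    have h12 : c.ts + (c.ne : ℤ) < c.tm i (vj j) := by exact_mod_cast h11
    have h13 : (0 : ℤ) ≤ (c.ne : ℤ) := Int.natCast_nonneg _
    refine ⟨?_, by linarith, ?_, ?_⟩
    · rw [abs_le]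
      constructor <;> linarith [b1.1, b1.2, b2.1, b2.2, b5.1, b5.2]
    · unfold ND.stb ND.ke
      have h14 : c.ne ≤ (c.tm i (vj j) - c.ts).toNat := by omega
      have h15 := Nat.mul_le_mul_right c.d.ℓ h14
      omega
    · rw [abs_le]
      constructor <;> linarith [b3.1, b3.2, b4.1, b4.2]
  -- the incomplete steps
  have hJ3card : J3.card ≤ c.d.ℓ := by
    have hclose : ∀ j ∈ J3, |(c.tt j : ℝ) / c.S - (c.tt k : ℝ) / c.S| ≤ 2 * c.δ := by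
      intro j hj
      rw [hJ3, Finset.mem_filter] at hj
      obtain ⟨hjJ, hjC⟩ := hj
      have hjJ' := (hJm j).1 hjJ
      simp only [hCp] at hjC
      push Not at hjC
      obtain ⟨i, hi, hik⟩ := hjC
      obtain ⟨m1, m2, m3, m4⟩ := hmem j hjJ i hi
      have hiK := (c.d.K_mem' _ i).1 hi
      have h1 : c.tt k ≤ c.tm i (vj j) := by
        have h2 : k / c.d.ℓ ≤ (c.tm i (vj j) - c.ts).toNat := by
          have h3 := Nat.div_le_div_right (c := c.d.ℓ) hik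
          refine h3.trans ?_
          unfold ND.stb
          rw [Nat.mul_comm, Nat.mul_add_div hc.hd.hℓ, Nat.div_eq_of_lt hiK.1, add_zero]
        unfold ND.tt
        have h4 : ((k / c.d.ℓ : ℕ) : ℤ) ≤ (((c.tm i (vj j) - c.ts).toNat : ℕ) : ℤ) := by
          exact_mod_cast h2
        rw [Int.toNat_of_nonneg (by linarith)] at h4
        linarith
      have h5 : (c.tt k : ℝ) / c.S ≤ (c.tm i (vj j) : ℝ) / c.S := by
        have : (c.tt k : ℝ) ≤ (c.tm i (vj j) : ℝ) := by exact_mod_cast h1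
        exact div_le_div_of_nonneg_right this hS.le
      have h6 := c.ttS_mono' hc hjJ'.1.2.le
      have m5 := abs_le.1 m4
      rw [abs_le]
      constructor <;> linarith [m5.1, m5.2]
    apply c.card_le' hc
    · intro j hj
      rw [hJ3, Finset.mem_filter] at hj
      have := ((hJm j).1 hj.1).1.2
      omega
    · intro j hj
      rw [hJ3, Finset.mem_filter] at hj
      obtain ⟨s, hs, hoo, -⟩ := hvj j hj.1
      linarith
    · intro j hj j' hj'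
      have a1 := abs_le.1 (hclose j hj)
      have a2 := abs_le.1 (hclose j' hj')
      rw [abs_le]
      constructor <;> linarith [a1.1, a1.2, a2.1, a2.2]
  have hbc1 : ∀ j, |c.bc j| ≤ c.rmax * c.dmax := by
    intro j
    unfold ND.bc
    split_ifs
    · exact c.act_le hc j _
    · rw [abs_zero]; exact hp.le
  have hS3 : |∑ j ∈ J3, c.bc j| ≤ c.d.ℓ * (c.rmax * c.dmax) := by
    refine (Finset.abs_sum_le_sum_abs _ _).trans
      ((Finset.sum_le_sum fun j _ => hbc1 j).trans ?_)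
    rw [Finset.sum_const, nsmul_eq_mul]
    have : (J3.card : ℝ) ≤ c.d.ℓ := by exact_mod_cast hJ3card
    exact mul_le_mul_of_nonneg_right this hp.le
  -- the complete steps
  set key : ℕ → Finset ℕ × (ℤ × ℤ) := fun j => (c.d.K (j % c.d.ℓ), vj j) with hkey
  have hfib : ∀ κ ∈ J1.image key, |∑ j ∈ J1 with key j = κ, c.bc j| ≤
      3 * c.d.ℓ ^ 2 * c.σ * (c.rmax * c.dmax) := by
    intro κ hκ
    rw [Finset.mem_image] at hκ
    obtain ⟨j0, hj0, rfl⟩ := hκ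
    have hj0J : j0 ∈ J := (Finset.mem_filter.1 hj0).1
    have hj0C : Cp j0 := (Finset.mem_filter.1 hj0).2
    obtain ⟨s, hs, hoo, hn, hρ, h5, h6, hv1, hv2, h7, h8, h9⟩ := hvj j0 hj0J
    have hjl := c.mod_lt' hc j0
    set i0 := j0 % c.d.ℓ with hi0
    set v0 := vj j0 with hv0
    have hst : ∀ i ∈ c.d.K i0, c.ts ≤ c.tm i v0 ∧ c.tm i v0 < c.ts + c.N := by
      intro i hi
      obtain ⟨m1, m2, m3, m4⟩ := hmem j0 hj0J i hi
      refine ⟨m2, ?_⟩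
      have h10 : c.stb i v0 < k := hj0C i hi
      have h11 : c.stb i v0 < c.kf := lt_of_lt_of_le h10 hk'
      have h12 := c.div_lt _ h11
      have hiK := (c.d.K_mem' _ i).1 hi
      have h13 : c.stb i v0 / c.d.ℓ = (c.tm i v0 - c.ts).toNat := by
        unfold ND.stb
        rw [Nat.mul_comm, Nat.mul_add_div hc.hd.hℓ, Nat.div_eq_of_lt hiK.1, add_zero]
      rw [h13, Int.toNat_of_nonneg (by linarith)] at h12
      linarith
    have hcl := c.clus hc i0 hjl hn hρ v0 hv1 hv2 (fun i hi => (hmem j0 hj0J i hi).1) hst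
    have hinj : Set.InjOn (fun i => c.stb i v0) (c.d.K i0 : Set ℕ) := by
      intro i hi i' hi' h
      have hiK := (c.d.K_mem' _ i).1 hi
      have hiK' := (c.d.K_mem' _ i').1 hi'
      have h10 := c.stb_mod hiK.1 v0
      have h11 := c.stb_mod hiK'.1 v0
      simp only at h
      rw [← h10, h, h11]
    have hsum : ∑ j ∈ J1 with key j = key j0, c.bc j = ∑ i ∈ c.d.K i0, c.bc (c.stb i v0) := by
      rw [← Finset.sum_image (f := c.bc) (g := fun i => c.stb i v0) hinj]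
      apply Finset.sum_subset
      · intro j hj
        rw [Finset.mem_filter] at hj
        obtain ⟨hjJ1, hjk⟩ := hj
        have hjJ : j ∈ J := (Finset.mem_filter.1 hjJ1).1
        simp only [hkey, Prod.mk.injEq] at hjk
        rw [Finset.mem_image]
        refine ⟨j % c.d.ℓ, ?_, ?_⟩
        · rw [← hjk.1]
          exact c.d.K_self' (c.mod_lt' hc j)
        · have := hrec j hjJ
          rw [hjk.2] at this
          exact this.symm
      · intro j hj hjn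
        by_contra hne
        apply hjn
        rw [Finset.mem_image] at hj
        obtain ⟨i, hi, rfl⟩ := hj
        have hiK := (c.d.K_mem' _ i).1 hi
        obtain ⟨m1, m2, m3, m4⟩ := hmem j0 hj0J i hi
        have h10 : c.stb i v0 < k := hj0C i hi
        have hjJ : c.stb i v0 ∈ J := (hJm _).2 ⟨⟨m3, h10⟩, hne⟩
        have hmod := c.stb_mod hiK.1 v0
        obtain ⟨s', hs', hoo', hn', hρ', h5', h6', -⟩ := hvj _ hjJ
        obtain ⟨k', hk1, hk2, hk3, hk4, hk5⟩ :=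
          c.step_of hc i hiK.1 v0 m1 (hst i hi).1 (hst i hi).2
        have hk6 : k' = c.stb i v0 := hk5
        rw [hk6] at hk3 hk4
        rw [hmod] at h5' h6'
        have hvv : vj (c.stb i v0) = v0 := by
          apply c.label_inj hc i
          · rw [← h5', hk3]
          · rw [← h6', hk4]
        have hKK : c.d.K i = c.d.K i0 := c.d.K_eq' hi
        rw [Finset.mem_filter]
        refine ⟨?_, ?_⟩
        · rw [hJ1, Finset.mem_filter]
          refine ⟨hjJ, ?_⟩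
          simp only [hCp]
          rw [hmod, hvv, hKK]
          exact hj0C
        · simp only [hkey]
          rw [hmod, hvv, hKK]
    rw [hsum]
    exact hcl
  have hS1 : |∑ j ∈ J1, c.bc j| ≤ (J1.card : ℝ) * (3 * c.d.ℓ ^ 2 * c.σ * (c.rmax * c.dmax)) := by
    rw [← Finset.sum_fiberwise_of_maps_to (g := key) (t := J1.image key)
      (fun x hx => Finset.mem_image_of_mem _ hx)]
    refine (Finset.abs_sum_le_sum_abs _ _).trans ((Finset.sum_le_sum hfib).trans ?_)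
    rw [Finset.sum_const, nsmul_eq_mul]
    have h1 : ((J1.image key).card : ℝ) ≤ J1.card := by exact_mod_cast Finset.card_image_le
    apply mul_le_mul_of_nonneg_right h1
    have := hc.hσ
    positivity
  -- counting
  have hF : ∀ i s : ℕ, ∃ F : Finset (ℤ × ℤ), F.card ≤ c.e.Q0 ∧ (i < c.d.ℓ → 0 < c.d.ρ i →
      s < c.e.ns → ∀ (v : ℤ × ℤ) (b : ℝ), c.e.Tst - c.e.γ ≤ c.d.tau i v →
      c.d.tau i v ≤ c.e.Tst + c.d.T c.e.ls + c.e.γ →
      c.e.z - 1 ≤ b → b ≤ c.e.z + c.e.G + 1 →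
      |(c.d.o i v + b) / c.d.ρ i - c.e.X c.d s| ≤ c.e.w + c.e.γ → v ∈ F) := by
    intro i s
    by_cases h : i < c.d.ℓ ∧ 0 < c.d.ρ i ∧ s < c.e.ns
    · obtain ⟨F, hF1, hF2⟩ := hc.he.C i s h.1 h.2.1 h.2.2
      exact ⟨F, hF1, fun _ _ _ => hF2⟩
    · exact ⟨∅, by simp, fun h1 h2 h3 => absurd ⟨h1, h2, h3⟩ h⟩
  choose F hF1 hF2 using hF
  have hcard : J.card ≤ (c.d.ℓ * c.e.ns) * c.e.Q0 := by
    have h1 : J.card ≤ ((Finset.range c.d.ℓ ×ˢ Finset.range c.e.ns).biUnion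
        (fun p => (F p.1 p.2).image (fun v => (p.1, v)))).card := by
      apply Finset.card_le_card_of_injOn (fun j => (j % c.d.ℓ, vj j))
      · intro j hj
        have hjJ : j ∈ J := hj
        obtain ⟨s, hs, hoo, hn, hρ, h5, h6, hv1, hv2, h7, h8, h9⟩ := hvj j hjJ
        have hjJ' := (hJm j).1 hjJ
        have hb := hr j hjJ'.1.1 hjJ'.1.2
        have hst := hc.he.hst s hs
        have hen := hc.he.hen s hs
        have hγ := hc.he.hγ
        rw [Finset.mem_coe, Finset.mem_biUnion]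
        refine ⟨(j % c.d.ℓ, s), ?_, ?_⟩
        · rw [Finset.mem_product, Finset.mem_range, Finset.mem_range]
          exact ⟨c.mod_lt' hc j, hs⟩
        · rw [Finset.mem_image]
          refine ⟨vj j, ?_, rfl⟩
          exact hF2 _ _ (c.mod_lt' hc j) hρ hs (vj j) (c.b j) (by linarith) h9 hb.1 hb.2 h7
      · intro j hj j' hj' h
        simp only [Prod.mk.injEq] at h
        rw [hrec j hj, hrec j' hj', h.1, h.2]
    refine h1.trans ?_
    have h2 := Finset.card_biUnion_le_card_mul (Finset.range c.d.ℓ ×ˢ Finset.range c.e.ns)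
      (fun p => (F p.1 p.2).image (fun v => (p.1, v))) c.e.Q0
      (fun p _ => Finset.card_image_le.trans (hF1 _ _))
    rw [Finset.card_product, Finset.card_range, Finset.card_range] at h2
    exact h2
  have hJ1card : (J1.card : ℝ) ≤ (c.d.ℓ * c.e.ns) * c.e.Q0 := by
    have : J1.card ≤ J.card := Finset.card_filter_le _ _
    exact_mod_cast this.trans hcard
  rw [hBal]
  refine (abs_add_le _ _).trans ((add_le_add hS1 hS3).trans ?_)
  have hX : 0 ≤ 3 * (c.d.ℓ : ℝ) ^ 2 * c.σ * (c.rmax * c.dmax) := by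
    have := hc.hσ
    positivity
  have h1 := mul_le_mul_of_nonneg_right hJ1card hX
  have h2 : (c.d.ℓ * c.e.ns : ℝ) * c.e.Q0 * (3 * (c.d.ℓ : ℝ) ^ 2 * c.σ * (c.rmax * c.dmax)) =
      3 * c.d.ℓ ^ 3 * c.e.Q0 * c.σ * (c.rmax / c.r0) * c.e.G := by
    rw [← hc.he.hnG]
    unfold ND.dmax
    ring
  have h3 : (c.d.ℓ : ℝ) * (c.rmax * c.dmax) ≤ c.d.ℓ ^ 2 * (c.rmax / c.r0) * c.e.dg := by
    have hl : (1 : ℝ) ≤ c.d.ℓ := by exact_mod_cast hc.hd.hℓ
    have h4 : (c.d.ℓ : ℝ) ^ 2 * (c.rmax / c.r0) * c.e.dg = (c.d.ℓ : ℝ) ^ 2 * (c.rmax * c.dmax) := by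
      unfold ND.dmax
      ring
    rw [h4]
    apply mul_le_mul_of_nonneg_right _ hp.le
    nlinarith
  unfold ND.V
  linarith

end Pool.Agent.Helper29.Rot
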