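import Pool.Agent.Helper29.RotM1

set_option autoImplicit false

open Set

namespace Pool.Agent.Helper29.Rot

theorem los_bound_step (c : ND) (j : ℕ) (hj : c.ke ≤ j) :
    c.b (j + 1) = c.b j + c.bc j - c.lc j := by
  have hn : ¬ j < c.ke := not_lt.2 hj
  by_cases h1 : |c.oo j| ≤ c.C1
  · by_cases h2 : c.d.n (j % c.d.ℓ) = 0
    · simp only [ND.b, ND.bc, ND.lc, h1, h2, hn, if_true, and_self, false_or]
      ring
    · simp only [ND.b, ND.bc, ND.lc, h1, h2, hn, if_true, and_false, false_or, if_false]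
      ring
  · simp only [ND.b, ND.bc, ND.lc, h1, if_false, false_and]
    ring

theorem los_bound_lc_nonneg (c : ND) (hc : c.Ok) (j : ℕ) : 0 ≤ c.lc j := by
  have := hc.hη
  unfold ND.lc
  split_ifs
  · exact this.le
  · have := min_le_left (c.b j)
      (act c.U (c.d.ρ (j % c.d.ℓ)) (c.d.ε (j % c.d.ℓ)) (c.oo j) (c.b j))
    linarith
  · exact le_rfl

theorem los_bound_lc_le (c : ND) (hc : c.Ok) (j : ℕ) : c.lc j ≤ c.η + c.rmax * c.dmax := by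
  have hη := hc.hη
  have hℓ := hc.hd.hℓ
  have hi : j % c.d.ℓ < c.d.ℓ := Nat.mod_lt _ hℓ
  have hρ := hc.hd.hρ _ hi
  have h0 : 0 ≤ c.dmax := le_trans (abs_nonneg _) (hc.U4 0)
  have h1 : c.d.ρ (j % c.d.ℓ) * c.dmax ≤ c.rmax * c.dmax :=
    mul_le_mul_of_nonneg_right (hc.hr2 _ hi) h0
  have h2 : 0 ≤ c.rmax * c.dmax := le_trans (mul_nonneg hρ h0) h1
  unfold ND.lc
  split_ifs
  · linarith
  · have h3 := act_bound c.U c.dmax hc.U4 (c.d.ρ (j % c.d.ℓ)) (c.d.ε (j % c.d.ℓ)) (c.oo j)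
      (c.b j) hρ (hc.hd.hε _)
    rw [abs_le] at h3
    rcases min_choice (c.b j)
      (act c.U (c.d.ρ (j % c.d.ℓ)) (c.d.ε (j % c.d.ℓ)) (c.oo j) (c.b j)) with h | h
    · rw [h]; linarith
    · rw [h]; linarith [h3.1]
  · linarith

/-- the touching steps -/
def LBTouch (c : ND) (j : ℕ) (s : ℕ) : Prop :=
  |c.oo j| ≤ c.C1 ∧ c.d.n (j % c.d.ℓ) ≠ 0 ∧ 0 < c.d.ρ (j % c.d.ℓ) ∧ s < c.e.ns ∧
    |(c.oo j + c.b j) / c.d.ρ (j % c.d.ℓ) - c.e.X c.d s| < c.e.w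

theorem los_bound_lc_le' (c : ND) (hc : c.Ok) (j : ℕ) (h : ∀ s, ¬ LBTouch c j s) :
    c.lc j ≤ if |c.oo j| ≤ c.C1 then c.η else 0 := by
  have hη := hc.hη
  have hℓ := hc.hd.hℓ
  have hi : j % c.d.ℓ < c.d.ℓ := Nat.mod_lt _ hℓ
  have hρ := hc.hd.hρ _ hi
  unfold ND.lc
  by_cases h1 : |c.oo j| ≤ c.C1
  · simp only [h1, if_true]
    by_cases h2 : c.d.n (j % c.d.ℓ) = 0
    · simp only [h2, if_true]; exact le_rfl
    · simp only [h2, if_false]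
      have h3 : act c.U (c.d.ρ (j % c.d.ℓ)) (c.d.ε (j % c.d.ℓ)) (c.oo j) (c.b j) = c.b j := by
        apply act_off _ _ _ _ _ hρ (hc.hd.hε _)
        intro hpos
        apply hc.U1
        intro s hs
        by_contra hcon
        exact h s ⟨h1, h2, hpos, hs, not_le.1 hcon⟩
      rw [h3, min_self]; linarith
  · simp only [h1, if_false]; exact le_rfl

theorem los_bound_bdiff (c : ND) (j : ℕ) (hj : c.ke ≤ j) :
    c.b j - c.Bal j + c.Los j = c.b c.ke := by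
  induction j, hj using Nat.le_induction with
  | base => simp [ND.Bal, ND.Los]
  | succ j hj ih =>
    have h1 : c.Bal (j + 1) = c.Bal j + c.bc j := by
      unfold ND.Bal; rw [Finset.sum_Ico_succ_top hj]
    have h2 : c.Los (j + 1) = c.Los j + c.lc j := by
      unfold ND.Los; rw [Finset.sum_Ico_succ_top hj]
    rw [h1, h2, los_bound_step c j hj, ← ih]; ring

theorem los_bound_los_mono (c : ND) (hc : c.Ok) {j k : ℕ} (h : j ≤ k) : c.Los j ≤ c.Los k := by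
  unfold ND.Los
  apply Finset.sum_le_sum_of_subset_of_nonneg
  · exact Finset.Ico_subset_Ico_right h
  · intro i _ _; exact los_bound_lc_nonneg c hc i

theorem los_bound_card (S : Finset ℕ) (L : ℕ) (h : ∀ a ∈ S, ∀ b ∈ S, a < b → b - a ≤ L) :
    S.card ≤ L + 1 := by
  rcases S.eq_empty_or_nonempty with rfl | hne
  · simp
  · have hm := S.min'_mem hne
    have hsub : S ⊆ Finset.Icc (S.min' hne) (S.min' hne + L) := by
      intro x hx
      have h1 := S.min'_le x hx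
      rw [Finset.mem_Icc]
      refine ⟨h1, ?_⟩
      rcases h1.eq_or_lt with h2 | h2
      · omega
      · have := h _ hm _ hx h2; omega
    refine (Finset.card_le_card hsub).trans ?_
    rw [Nat.card_Icc]; omega

/-- information on a touching step -/
theorem los_bound_info (c : ND) (hc : c.Ok) (k : ℕ) (hk' : k ≤ c.kf)
    (hr : ∀ j, c.ke ≤ j → j < k → |c.b j - (c.e.z + c.e.G)| ≤ c.e.H)
    (j s : ℕ) (hj : c.ke ≤ j) (hjk : j < k) (ht : LBTouch c j s) :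
    ∃ v : ℤ × ℤ, c.tt j = c.tm (j % c.d.ℓ) v ∧ c.oo j = c.of (j % c.d.ℓ) v ∧
      |(v.1 : ℝ)| ≤ c.Rb ∧ |(v.2 : ℝ)| ≤ c.Rb ∧
      c.d.ρ (c.e.cl s) = c.d.ρ (j % c.d.ℓ) ∧
      c.e.Tst - c.e.γ ≤ c.d.tau (j % c.d.ℓ) v ∧
      c.d.tau (j % c.d.ℓ) v ≤ c.e.Tst + c.d.T c.e.ls + c.e.γ ∧
      c.e.z - 1 ≤ c.b j ∧ c.b j ≤ c.e.z + c.e.G + 1 ∧
      |(c.d.o (j % c.d.ℓ) v + c.b j) / c.d.ρ (j % c.d.ℓ) - c.e.X c.d s| ≤ c.e.w + c.e.γ := by
  obtain ⟨h1, h2, h3, h4, h5⟩ := ht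
  have hℓ := hc.hd.hℓ
  have hi : j % c.d.ℓ < c.d.ℓ := Nat.mod_lt _ hℓ
  obtain ⟨v, hv1, hv2, hv3, hv4⟩ := ND.cand_range c hc j (lt_of_lt_of_le hjk hk') h1
  have happ := hc.happ _ hi v hv3 hv4
  have hS : (0:ℝ) < c.S := lt_of_lt_of_le one_pos hc.hS
  have hH := hr j hj hjk
  have hHH := hc.hH
  have hG := hc.he.hG
  have hsp := hc.he.hsp
  have hδ := hc.hδ
  have hγ := hc.hγ
  have hst := hc.he.hst 0 hc.he.hns
  have hen := hc.he.hen 0 hc.he.hns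
  -- bounds on tt
  have hne1 : c.ne ≤ j / c.d.ℓ := (Nat.le_div_iff_mul_le hℓ).2 hj
  have hlo : (c.ts : ℝ) + c.ne ≤ (c.tt j : ℝ) := by
    have h0 : (c.tt j : ℝ) = (c.ts : ℝ) + ((j / c.d.ℓ : ℕ) : ℝ) := by
      unfold ND.tt; rw [Int.cast_add, Int.cast_natCast]
    have : (c.ne : ℝ) ≤ ((j / c.d.ℓ : ℕ) : ℝ) := Nat.cast_le.2 hne1
    linarith
  have hjN : j / c.d.ℓ < c.N.toNat := (Nat.div_lt_iff_lt_mul hℓ).2 (lt_of_lt_of_le hjk hk')
  have hup : (c.tt j : ℝ) ≤ (c.ts : ℝ) + c.N := by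
    have h : c.tt j ≤ c.ts + c.N := by
      unfold ND.tt
      have : (c.N.toNat : ℤ) = c.N := Int.toNat_of_nonneg (by omega)
      omega
    exact_mod_cast h
  have hlo2 : ((c.ts : ℝ) + c.ne) / c.S ≤ (c.tt j : ℝ) / c.S :=
    div_le_div_of_nonneg_right hlo hS.le
  have hup2 : (c.tt j : ℝ) / c.S ≤ ((c.ts : ℝ) + c.N) / c.S :=
    div_le_div_of_nonneg_right hup hS.le
  rw [add_div] at hup2
  have e1 := abs_le.1 hc.hne
  have e2 := abs_le.1 hc.hts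
  have e3 := abs_le.1 hc.hls1
  have e4 := abs_le.1 happ.2
  rw [← hv1] at e4
  have tlo : c.e.Ten - c.e.γ ≤ c.d.tau (j % c.d.ℓ) v := by linarith [e1.1, e4.2]
  have tup : c.d.tau (j % c.d.ℓ) v ≤ c.e.Tst + c.d.T c.e.ls + c.e.γ := by
    linarith [e2.2, e3.2, e4.1]
  have hb := abs_le.1 hH
  have hdist : |(c.d.o (j % c.d.ℓ) v + c.b j) / c.d.ρ (j % c.d.ℓ) - c.e.X c.d s| <
      c.e.w + c.e.γ := by
    have hr1 := hc.hr1 _ hi h3
    have hr0 := hc.hr0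
    have e5 : |(c.d.o (j % c.d.ℓ) v - c.oo j) / c.d.ρ (j % c.d.ℓ)| ≤ c.δ / c.r0 := by
      rw [abs_div, abs_of_pos h3]
      have : |c.d.o (j % c.d.ℓ) v - c.oo j| ≤ c.δ := by
        rw [hv2, abs_sub_comm]; exact happ.1
      exact div_le_div₀ hδ.le this hr0 hr1
    have e6 : (c.d.o (j % c.d.ℓ) v + c.b j) / c.d.ρ (j % c.d.ℓ) - c.e.X c.d s =
        (c.d.o (j % c.d.ℓ) v - c.oo j) / c.d.ρ (j % c.d.ℓ) +
        ((c.oo j + c.b j) / c.d.ρ (j % c.d.ℓ) - c.e.X c.d s) := by ring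
    rw [e6]
    have := abs_add_le ((c.d.o (j % c.d.ℓ) v - c.oo j) / c.d.ρ (j % c.d.ℓ))
      ((c.oo j + c.b j) / c.d.ρ (j % c.d.ℓ) - c.e.X c.d s)
    have := hc.hγ0
    linarith
  refine ⟨v, hv1, hv2, hv3, hv4, ?_, ?_, tup, ?_, ?_, hdist.le⟩
  · by_contra hne
    have := hc.he.B (j % c.d.ℓ) v s (c.b j) hi h3 h2 h4 (fun h => hne h.symm) tlo tup hH
    linarith
  · linarith
  · linarith [hb.1]
  · linarith [hb.2]

set_option maxHeartbeats 4000000 in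
/-- TARGET -/
theorem ND.los_bound (c : ND) (hc : c.Ok) (k : ℕ) (hk : c.ke ≤ k) (hk' : k ≤ c.kf)
    (hr : ∀ j, c.ke ≤ j → j < k → |c.b j - (c.e.z + c.e.G)| ≤ c.e.H)
    (hB : ∀ j, c.ke ≤ j → j ≤ k → |c.Bal j| ≤ c.V) :
    0 ≤ c.Los k ∧ c.Los k ≤ c.LB := by
  classical
  refine ⟨Finset.sum_nonneg fun j _ => los_bound_lc_nonneg c hc j, ?_⟩
  have hℓ := hc.hd.hℓ
  have hdg := hc.he.hdg
  have hr0 := hc.hr0
  have hS : (0:ℝ) < c.S := lt_of_lt_of_le one_pos hc.hS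
  have hV : 0 ≤ c.V := le_trans (abs_nonneg _) (hB k hk le_rfl)
  have hδ := hc.hδ
  have hw := hc.he.hw
  have hdmax : 0 < c.dmax := div_pos hdg hr0
  have hrmax : 0 < c.rmax := by
    have h1 := hc.he.hM
    exact lt_of_lt_of_le h1.2.1 (hc.hr2 _ h1.1)
  set Tch : Finset ℕ := (Finset.Ico c.ke k).filter (fun j => ∃ s, LBTouch c j s) with hTch
  have hinfo : ∀ j, ∃ s : ℕ, ∃ v : ℤ × ℤ, j ∈ Tch → LBTouch c j s ∧
      c.tt j = c.tm (j % c.d.ℓ) v ∧ c.oo j = c.of (j % c.d.ℓ) v ∧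
      |(v.1 : ℝ)| ≤ c.Rb ∧ |(v.2 : ℝ)| ≤ c.Rb ∧
      c.d.ρ (c.e.cl s) = c.d.ρ (j % c.d.ℓ) ∧
      c.e.Tst - c.e.γ ≤ c.d.tau (j % c.d.ℓ) v ∧
      c.d.tau (j % c.d.ℓ) v ≤ c.e.Tst + c.d.T c.e.ls + c.e.γ ∧
      c.e.z - 1 ≤ c.b j ∧ c.b j ≤ c.e.z + c.e.G + 1 ∧
      |(c.d.o (j % c.d.ℓ) v + c.b j) / c.d.ρ (j % c.d.ℓ) - c.e.X c.d s| ≤ c.e.w + c.e.γ := by
    intro j
    by_cases hj : j ∈ Tch
    · have hj' := hj
      rw [hTch, Finset.mem_filter, Finset.mem_Ico] at hj'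
      obtain ⟨⟨ha, hb⟩, s, hs⟩ := hj'
      obtain ⟨v, hv⟩ := los_bound_info c hc k hk' hr j s ha hb hs
      exact ⟨s, v, fun _ => ⟨hs, hv⟩⟩
    · exact ⟨0, 0, fun h => absurd h hj⟩
  choose s v hsv using hinfo
  have hF : ∀ i cc : ℕ, ∃ F : Finset (ℤ × ℤ), F.card ≤ c.e.Q0 ∧ (i < c.d.ℓ → 0 < c.d.ρ i →
      c.d.ρ cc = c.d.ρ i → (cc = c.e.cM ∨ cc = c.e.cm) →
      ∀ (k : ℕ) (v : ℤ × ℤ) (b : ℝ), k < c.e.ns → c.e.cl k = cc →
      c.e.Tst - c.e.γ ≤ c.d.tau i v → c.d.tau i v ≤ c.e.Tst + c.d.T c.e.ls + c.e.γ →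
      c.e.z - 1 ≤ b → b ≤ c.e.z + c.e.G + 1 →
      |(c.d.o i v + b) / c.d.ρ i - c.e.X c.d k| ≤ c.e.w + c.e.γ →
      v - (k : ℤ) • c.e.μ ∈ F) := by
    intro i cc
    by_cases h : i < c.d.ℓ ∧ 0 < c.d.ρ i ∧ c.d.ρ cc = c.d.ρ i ∧ (cc = c.e.cM ∨ cc = c.e.cm)
    · obtain ⟨F, hF1, hF2⟩ := hc.he.D i cc h.1 h.2.1 h.2.2.1 h.2.2.2
      exact ⟨F, hF1, fun _ _ _ _ => hF2⟩
    · exact ⟨∅, by simp, fun h1 h2 h3 h4 => absurd ⟨h1, h2, h3, h4⟩ h⟩
  choose F hF1 hF2 using hF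
  set A : ℝ := 2 * c.rmax * c.e.w + 2 * c.V + 2 * c.δ with hA
  have hA0 : 0 ≤ A := by positivity
  set L : ℕ := ⌊A / c.e.dg⌋₊ with hL
  let g : ℕ → ℕ × ℕ × (ℤ × ℤ) := fun j => (j % c.d.ℓ, c.e.cl (s j), v j - (s j : ℤ) • c.e.μ)
  -- step index is determined by class and time
  have hdet : ∀ j1 j2, j1 % c.d.ℓ = j2 % c.d.ℓ → c.tt j1 = c.tt j2 → j1 = j2 := by
    intro j1 j2 h1 h2
    unfold ND.tt at h2
    have h3 : j1 / c.d.ℓ = j2 / c.d.ℓ := by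
      have : ((j1 / c.d.ℓ : ℕ) : ℤ) = ((j2 / c.d.ℓ : ℕ) : ℤ) := by linarith
      exact_mod_cast this
    rw [← Nat.div_add_mod j1 c.d.ℓ, ← Nat.div_add_mod j2 c.d.ℓ, h1, h3]
  have hfib : ∀ a ∈ Tch.image g, (Tch.filter fun x => g x = a).card ≤ L + 1 := by
    intro a _
    have hinj : Set.InjOn s (Tch.filter fun x => g x = a) := by
      intro j1 hj1 j2 hj2 hs12
      rw [Finset.mem_coe, Finset.mem_filter] at hj1 hj2
      have hg : g j1 = g j2 := hj1.2.trans hj2.2.symm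
      have e1 : j1 % c.d.ℓ = j2 % c.d.ℓ := congrArg Prod.fst hg
      have e2 : v j1 - (s j1 : ℤ) • c.e.μ = v j2 - (s j2 : ℤ) • c.e.μ :=
        congrArg (fun x => x.2.2) hg
      have e3 : v j1 = v j2 := by rw [hs12] at e2; exact sub_left_injective e2
      apply hdet j1 j2 e1
      rw [(hsv j1 hj1.1).2.1, (hsv j2 hj2.1).2.1, e1, e3]
    rw [← Finset.card_image_of_injOn hinj]
    apply los_bound_card
    intro s1 hs1 s2 hs2 hlt
    obtain ⟨j1, hj1, rfl⟩ := Finset.mem_image.1 hs1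
    obtain ⟨j2, hj2, rfl⟩ := Finset.mem_image.1 hs2
    rw [Finset.mem_filter] at hj1 hj2
    have hg : g j1 = g j2 := hj1.2.trans hj2.2.symm
    have e1 : j1 % c.d.ℓ = j2 % c.d.ℓ := congrArg Prod.fst hg
    have e2 : c.e.cl (s j1) = c.e.cl (s j2) := congrArg (fun x => x.2.1) hg
    have e3 : v j1 - (s j1 : ℤ) • c.e.μ = v j2 - (s j2 : ℤ) • c.e.μ :=
      congrArg (fun x => x.2.2) hg
    obtain ⟨t1, p1, p2, p3, p4, p5, -⟩ := hsv j1 hj1.1
    obtain ⟨t2, q1, q2, q3, q4, q5, -⟩ := hsv j2 hj2.1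
    obtain ⟨-, -, tρ, tns1, tw1⟩ := t1
    obtain ⟨-, -, -, tns2, tw2⟩ := t2
    have hi : j2 % c.d.ℓ < c.d.ℓ := Nat.mod_lt _ hℓ
    rw [e1] at p1 p2 p5 tρ tw1
    have hv12 : v j2 = v j1 + ((s j2 : ℤ) - (s j1 : ℤ)) • c.e.μ := by
      rw [sub_smul, ← sub_eq_zero]
      rw [← sub_eq_zero] at e3
      rw [← neg_eq_zero, ← e3]; abel
    set m : ℝ := (s j2 : ℝ) - (s j1 : ℝ) with hm
    have hmpos : 0 < m := by
      have : (s j1 : ℝ) < (s j2 : ℝ) := by exact_mod_cast hlt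
      linarith
    have hm1 : (v j2).1 = (v j1).1 + ((s j2 : ℤ) - (s j1 : ℤ)) * c.e.μ.1 := by
      rw [hv12]; simp
    have hm2 : (v j2).2 = (v j1).2 + ((s j2 : ℤ) - (s j1 : ℤ)) * c.e.μ.2 := by
      rw [hv12]; simp
    have hm1' : ((v j2).1 : ℝ) = (v j1).1 + m * c.e.μ.1 := by
      rw [hm1]; push_cast; rfl
    have hm2' : ((v j2).2 : ℝ) = (v j1).2 + m * c.e.μ.2 := by
      rw [hm2]; push_cast; rfl
    have htau : c.d.tau (j2 % c.d.ℓ) (v j2) = c.d.tau (j2 % c.d.ℓ) (v j1) + m * c.d.T c.e.μ := by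
      unfold LD.tau LD.T; rw [hm1', hm2']; ring
    have ho : c.d.o (j2 % c.d.ℓ) (v j2) = c.d.o (j2 % c.d.ℓ) (v j1) + m * c.d.sp c.e.μ := by
      unfold LD.o LD.sp; rw [hm1', hm2']; ring
    have hmT : 0 < m * c.d.T c.e.μ := mul_pos hmpos hc.he.hμ
    have a1 := hc.happ _ hi (v j1) p3 p4
    have a2 := hc.happ _ hi (v j2) q3 q4
    have b1 := abs_le.1 a1.2
    have b2 := abs_le.1 a2.2
    have hsepT : 10 * c.δ < c.d.tau (j2 % c.d.ℓ) (v j2) - c.d.tau (j2 % c.d.ℓ) (v j1) := by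
      by_contra hcon
      have h3 : |c.d.tau (j2 % c.d.ℓ) (v j2) - c.d.tau (j2 % c.d.ℓ) (v j1)| ≤ 10 * c.δ := by
        rw [abs_of_pos (by linarith)]; exact not_lt.1 hcon
      have := hc.htsep _ _ hi hi (v j2) (v j1) q3 q4 p3 p4 h3
      linarith
    have htm : c.tt j1 < c.tt j2 := by
      rw [p1, q1]
      have h4 : (c.tm (j2 % c.d.ℓ) (v j1) : ℝ) / c.S < (c.tm (j2 % c.d.ℓ) (v j2) : ℝ) / c.S := by
        linarith [b1.2, b2.1]
      have h5 := (div_lt_div_iff_of_pos_right hS).1 h4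
      exact_mod_cast h5
    have hj12 : j1 < j2 := by
      unfold ND.tt at htm
      have h6 : j1 / c.d.ℓ < j2 / c.d.ℓ := by
        have : ((j1 / c.d.ℓ : ℕ) : ℤ) < ((j2 / c.d.ℓ : ℕ) : ℤ) := by linarith
        exact_mod_cast this
      by_contra hcon
      exact absurd (Nat.div_le_div_right (c := c.d.ℓ) (not_lt.1 hcon)) (not_le.2 h6)
    have hj1T := Finset.mem_Ico.1 (Finset.mem_filter.1 hj1.1).1
    have hj2T := Finset.mem_Ico.1 (Finset.mem_filter.1 hj2.1).1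
    have f1 := los_bound_bdiff c j1 hj1T.1
    have f2 := los_bound_bdiff c j2 hj2T.1
    have f3 := los_bound_los_mono c hc hj12.le
    have f4 := abs_le.1 (hB j1 hj1T.1 hj1T.2.le)
    have f5 := abs_le.1 (hB j2 hj2T.1 hj2T.2.le)
    have hbb : c.b j2 - c.b j1 ≤ 2 * c.V := by linarith [f4.1, f5.2]
    -- the positions
    have hal := hc.he.hal (s j1) (s j2) tns1 tns2 e2
    have hal1 : ((c.e.al (s j2)).1 : ℝ) = (c.e.al (s j1)).1 + m * c.e.μ.1 := by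
      have := congrArg Prod.fst hal
      simp only [Prod.fst_sub, Prod.smul_fst, smul_eq_mul] at this
      have h' : ((c.e.al (s j2)).1 : ℝ) - (c.e.al (s j1)).1 =
        (((s j2 : ℤ) - (s j1 : ℤ) : ℤ) : ℝ) * c.e.μ.1 := by exact_mod_cast this
      push_cast at h'
      linarith
    have hal2 : ((c.e.al (s j2)).2 : ℝ) = (c.e.al (s j1)).2 + m * c.e.μ.2 := by
      have := congrArg Prod.snd hal
      simp only [Prod.snd_sub, Prod.smul_snd, smul_eq_mul] at this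
      have h' : ((c.e.al (s j2)).2 : ℝ) - (c.e.al (s j1)).2 =
        (((s j2 : ℤ) - (s j1 : ℤ) : ℤ) : ℝ) * c.e.μ.2 := by exact_mod_cast this
      push_cast at h'
      linarith
    have hos : c.e.os c.d (s j2) = c.e.os c.d (s j1) + m * c.d.sp c.e.μ := by
      unfold DD.os LD.o LD.sp
      rw [e2, hal1, hal2]; ring
    have hX1 : c.d.ρ (j2 % c.d.ℓ) * c.e.X c.d (s j1) =
        c.e.os c.d (s j1) + c.e.z + (s j1) * c.e.dg := by
      unfold DD.X; rw [p5]; field_simp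
    have hX2 : c.d.ρ (j2 % c.d.ℓ) * c.e.X c.d (s j2) =
        c.e.os c.d (s j2) + c.e.z + (s j2) * c.e.dg := by
      unfold DD.X; rw [q5]; field_simp
    have hrm := hc.hr2 _ hi
    have hE1 : |c.oo j1 + c.b j1 - c.d.ρ (j2 % c.d.ℓ) * c.e.X c.d (s j1)| ≤ c.rmax * c.e.w := by
      have h7 : c.oo j1 + c.b j1 - c.d.ρ (j2 % c.d.ℓ) * c.e.X c.d (s j1) =
        c.d.ρ (j2 % c.d.ℓ) * ((c.oo j1 + c.b j1) / c.d.ρ (j2 % c.d.ℓ) - c.e.X c.d (s j1)) := by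
        field_simp
      rw [h7, abs_mul, abs_of_pos tρ]
      exact mul_le_mul hrm tw1.le (abs_nonneg _) hrmax.le
    have hE2 : |c.oo j2 + c.b j2 - c.d.ρ (j2 % c.d.ℓ) * c.e.X c.d (s j2)| ≤ c.rmax * c.e.w := by
      have h7 : c.oo j2 + c.b j2 - c.d.ρ (j2 % c.d.ℓ) * c.e.X c.d (s j2) =
        c.d.ρ (j2 % c.d.ℓ) * ((c.oo j2 + c.b j2) / c.d.ρ (j2 % c.d.ℓ) - c.e.X c.d (s j2)) := by
        field_simp
      rw [h7, abs_mul, abs_of_pos tρ]
      exact mul_le_mul hrm tw2.le (abs_nonneg _) hrmax.le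
    rw [hX1, p2] at hE1
    rw [hX2, q2, hos] at hE2
    have g1 := abs_le.1 hE1
    have g2 := abs_le.1 hE2
    have g3 := abs_le.1 a1.1
    have g4 := abs_le.1 a2.1
    rw [ho] at g4
    have hfin : m * c.e.dg ≤ A := by
      rw [hA, hm]
      rw [hm] at g2 g4
      nlinarith [g1.1, g1.2, g2.1, g2.2, g3.1, g3.2, g4.1, g4.2]
    have hfin2 : m ≤ A / c.e.dg := (le_div_iff₀ hdg).2 hfin
    rw [hL]
    apply Nat.le_floor
    rw [Nat.cast_sub hlt.le]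
    exact hfin2
  have hcard1 := Finset.card_le_mul_card_image (f := g) Tch (L + 1) hfib
  have himg : (Tch.image g).card ≤ c.d.ℓ * 2 * c.e.Q0 := by
    have hsub : Tch.image g ⊆ (Finset.range c.d.ℓ ×ˢ ({c.e.cM, c.e.cm} : Finset ℕ)).biUnion
        (fun p => (F p.1 p.2).image (fun u => (p.1, p.2, u))) := by
      intro x hx
      obtain ⟨j, hj, rfl⟩ := Finset.mem_image.1 hx
      obtain ⟨t, p1, p2, p3, p4, p5, p6, p7, p8, p9, p10⟩ := hsv j hj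
      have hi : j % c.d.ℓ < c.d.ℓ := Nat.mod_lt _ hℓ
      have hcl := hc.he.hcl (s j)
      rw [Finset.mem_biUnion]
      refine ⟨(j % c.d.ℓ, c.e.cl (s j)), ?_, ?_⟩
      · rw [Finset.mem_product]
        refine ⟨Finset.mem_range.2 hi, ?_⟩
        rw [Finset.mem_insert, Finset.mem_singleton]; exact hcl
      · apply Finset.mem_image_of_mem (fun u => (j % c.d.ℓ, c.e.cl (s j), u))
        exact hF2 _ _ hi t.2.2.1 p5 hcl (s j) (v j) (c.b j) t.2.2.2.1 rfl p6 p7 p8 p9 p10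
    refine (Finset.card_le_card hsub).trans ?_
    refine (Finset.card_biUnion_le_card_mul _ _ c.e.Q0 ?_).trans ?_
    · intro p _
      exact Finset.card_image_le.trans (hF1 _ _)
    · apply Nat.mul_le_mul_right
      rw [Finset.card_product, Finset.card_range]
      exact Nat.mul_le_mul_left _ Finset.card_le_two
  have hcard : (Tch.card : ℝ) ≤ (A / c.e.dg + 1) * (c.d.ℓ * 2 * c.e.Q0) := by
    have h1 : Tch.card ≤ (L + 1) * (c.d.ℓ * 2 * c.e.Q0) :=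
      hcard1.trans (Nat.mul_le_mul_left _ himg)
    have h2 : (Tch.card : ℝ) ≤ (L + 1) * (c.d.ℓ * 2 * c.e.Q0) := by exact_mod_cast h1
    refine h2.trans (mul_le_mul_of_nonneg_right ?_ (by positivity))
    have : (L : ℝ) ≤ A / c.e.dg := Nat.floor_le (by positivity)
    linarith
  -- sum the losses
  have hsum : c.Los k ≤ (∑ j ∈ Finset.Ico c.ke k, if |c.oo j| ≤ c.C1 then c.η else 0) +
      Tch.card * (c.rmax * c.dmax) := by
    have h1 : ∀ j ∈ Finset.Ico c.ke k, c.lc j ≤ (if |c.oo j| ≤ c.C1 then c.η else 0) +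
        (if ∃ s, LBTouch c j s then c.rmax * c.dmax else 0) := by
      intro j _
      by_cases h2 : ∃ s, LBTouch c j s
      · rw [if_pos h2]
        have h3 : |c.oo j| ≤ c.C1 := by obtain ⟨s, hs⟩ := h2; exact hs.1
        rw [if_pos h3]
        exact los_bound_lc_le c hc j
      · rw [if_neg h2, add_zero]
        exact los_bound_lc_le' c hc j (fun s hs => h2 ⟨s, hs⟩)
    refine (Finset.sum_le_sum h1).trans ?_
    rw [Finset.sum_add_distrib, ← Finset.sum_filter (fun j => ∃ s, LBTouch c j s),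
      Finset.sum_const, nsmul_eq_mul]
  have hη := hc.hη
  have hcand : (∑ j ∈ Finset.Ico c.ke k, if |c.oo j| ≤ c.C1 then c.η else 0) ≤ c.R * c.η := by
    rw [← Finset.sum_filter, Finset.sum_const, nsmul_eq_mul]
    refine mul_le_mul_of_nonneg_right ?_ hη.le
    refine le_trans ?_ (ND.cnt_le c hc k hk')
    unfold ND.cnt
    have : ((Finset.Ico c.ke k).filter (fun j => |c.oo j| ≤ c.C1)).card ≤
        ((Finset.range k).filter (fun j => |c.oo j| ≤ c.C1)).card := by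
      apply Finset.card_le_card
      apply Finset.filter_subset_filter
      intro x hx
      exact Finset.mem_range.2 (Finset.mem_Ico.1 hx).2
    exact_mod_cast this
  have hηR := hc.hηR
  have hδ2 := hc.hδ2
  have hrd : 0 ≤ c.rmax * c.dmax := by positivity
  have hT := mul_le_mul_of_nonneg_right hcard hrd
  have hfinal : (A / c.e.dg + 1) * (c.d.ℓ * 2 * c.e.Q0) * (c.rmax * c.dmax) =
      2 * c.d.ℓ * c.e.Q0 * (c.rmax / c.r0) * (A + c.e.dg) := by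
    unfold ND.dmax
    field_simp
  have hcomp : 2 * c.d.ℓ * c.e.Q0 * (c.rmax / c.r0) * (A + c.e.dg) ≤
      2 * c.d.ℓ * c.e.Q0 * (c.rmax / c.r0) *
        (2 * c.rmax * c.e.w + 2 * c.V + 2 * c.e.dg) := by
    apply mul_le_mul_of_nonneg_left _ (by positivity)
    rw [hA]; linarith
  unfold ND.LB
  rw [hfinal] at hT
  linarith

end Pool.Agent.Helper29.Rot
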