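import Pool.Agent.Helper29.RotM2
import Pool.Agent.Helper29.RotM3
import Pool.Agent.Helper29.RotM4

set_option autoImplicit false

open Set

namespace Pool.Agent.Helper29.Rot

private theorem j20283_step (c : ND) (k : ℕ) (hk : c.ke ≤ k) :
    c.b (k + 1) = c.b k + c.bc k - c.lc k := by
  have hk' : ¬ (k < c.ke) := by omega
  unfold ND.bc ND.lc
  rw [ND.b]
  by_cases h1 : |c.oo k| ≤ c.C1
  · by_cases h2 : c.d.n (k % c.d.ℓ) = 0
    · simp only [if_pos h1, if_pos h2, if_pos (And.intro h1 h2), if_pos (Or.inr h2 : k < c.ke ∨ _)]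
      ring
    · have h3 : ¬ (k < c.ke ∨ c.d.n (k % c.d.ℓ) = 0) := by
        rintro (h | h)
        · exact hk' h
        · exact h2 h
      have h4 : ¬ (|c.oo k| ≤ c.C1 ∧ c.d.n (k % c.d.ℓ) = 0) := fun h => h2 h.2
      simp only [if_pos h1, if_neg h2, if_neg h3, if_neg h4]
      ring
  · have h4 : ¬ (|c.oo k| ≤ c.C1 ∧ c.d.n (k % c.d.ℓ) = 0) := fun h => h1 h.1
    simp only [if_neg h1, if_neg h4]
    ring

private theorem j20283_sum (c : ND) (k : ℕ) (hk : c.ke ≤ k) :
    c.b k = c.b c.ke + c.Bal k - c.Los k := by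
  induction k, hk using Nat.le_induction with
  | base => simp [ND.Bal, ND.Los]
  | succ n hn ih =>
    have e1 : c.Bal (n + 1) = c.Bal n + c.bc n := by
      unfold ND.Bal
      exact Finset.sum_Ico_succ_top hn _
    have e2 : c.Los (n + 1) = c.Los n + c.lc n := by
      unfold ND.Los
      exact Finset.sum_Ico_succ_top hn _
    rw [j20283_step c n hn, e1, e2, ih]
    ring

/-- TARGET -/
theorem ND.after (c : ND) (hc : c.Ok) :
    ∀ k, c.ke ≤ k → k ≤ c.kf → |c.b k - (c.e.z + c.e.G)| ≤ c.e.H := by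
  intro k
  induction k using Nat.strong_induction_on with
  | _ k ih =>
    intro hk hk'
    obtain ⟨hs1, hs2, hs3⟩ := ND.slot c hc
    have hG : 0 ≤ c.e.G := by
      rw [← hc.he.hnG]
      have := hc.he.hdg
      positivity
    have hr : ∀ j, c.ke ≤ j → j < k → |c.b j - (c.e.z + c.e.G)| ≤ c.e.H := fun j h1 h2 =>
      ih j h2 h1 (by omega)
    have hH := hc.hH
    have hr2 : ∀ j, c.ke ≤ j → j < k → c.e.z - 1 ≤ c.b j ∧ c.b j ≤ c.e.z + c.e.G + 1 := by
      intro j h1 h2
      have h := abs_le.1 (hr j h1 h2)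
      constructor
      · linarith [h.1]
      · linarith [h.2]
    have hB : ∀ j, c.ke ≤ j → j ≤ k → |c.Bal j| ≤ c.V := by
      intro j h1 h2
      exact ND.bal_bound c hc j h1 (by omega) (fun i h3 h4 => hr2 i h3 (by omega))
    obtain ⟨hL0, hL1⟩ := ND.los_bound c hc k hk hk' hr hB
    have hBk := abs_le.1 (hB k hk le_rfl)
    have h0 := abs_le.1 hs3
    have hbud := hc.hbud
    have hLB := hc.he.hdg
    rw [j20283_sum c k hk, abs_le]
    constructor
    · linarith [hBk.1, h0.1]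
    · linarith [hBk.2, h0.2]

end Pool.Agent.Helper29.Rot
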