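import Pool.Agent.Helper29.RotM5

set_option autoImplicit false

open Set

namespace Pool.Agent.Helper29.Rot

/-- TARGET -/
theorem ND.contra (c : ND) (hc : c.Ok) (B : ℝ) (hB : c.e.G + 3 ≤ B)
    (hN : ∀ (N : ℕ) (M : ℤ), 0 < N → (N : ℝ) * c.θ < M →
      ∀ (ts : ℤ) (b : ℕ → ℝ), (∀ k, k ≤ N * c.d.ℓ → |b k| ≤ B) →
      (∀ k, k < N * c.d.ℓ →
        (∀ l : ℤ, c.C1 < |c.S * (((ts : ℝ) + ((k / c.d.ℓ : ℕ) : ℝ)) * c.θ - l - c.Y (k % c.d.ℓ))|) →
        b (k + 1) ≤ b k) →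
      (∀ k, k < N * c.d.ℓ → ∀ l : ℤ,
        |c.S * (((ts : ℝ) + ((k / c.d.ℓ : ℕ) : ℝ)) * c.θ - l - c.Y (k % c.d.ℓ))| ≤ c.C1 →
        b (k + 1) ≤ act c.U (c.d.ρ (k % c.d.ℓ)) (c.d.ε (k % c.d.ℓ))
          (c.S * (((ts : ℝ) + ((k / c.d.ℓ : ℕ) : ℝ)) * c.θ - l - c.Y (k % c.d.ℓ))) (b k) - c.η) →
      b (N * c.d.ℓ) - b 0 ≤ c.S * (M - N * c.θ)) : False := by
  have hTst := hc.he.hst 0 hc.he.hns
  have hTen := hc.he.hen 0 hc.he.hns
  have hTend := hc.he.hend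
  have hγ := hc.hγ
  have hδ := hc.hδ
  have hS : 0 < c.S := lt_of_lt_of_le one_pos hc.hS
  have hN0 : 0 < c.N := by
    have h1 := (abs_le.mp hc.hls1).1
    have h2 : 0 < (c.N : ℝ) / c.S := by linarith
    have h3 : 0 < (c.N : ℝ) := by
      have := mul_pos h2 hS
      rwa [div_mul_cancel₀ _ hS.ne'] at this
    exact_mod_cast h3
  have hNN : ((c.N.toNat : ℕ) : ℝ) = (c.N : ℝ) := by
    have : ((c.N.toNat : ℕ) : ℤ) = c.N := Int.toNat_of_nonneg hN0.le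
    exact_mod_cast this
  have hls2 := abs_le.mp hc.hls2
  have hlt : c.S * (c.N * c.θ - c.M) < 0 := by linarith [hc.hδls]
  have hθM : (c.N : ℝ) * c.θ < c.M := by
    by_contra hcon
    push Not at hcon
    have : 0 ≤ c.S * (c.N * c.θ - c.M) := mul_nonneg hS.le (by linarith)
    linarith
  obtain ⟨hke, hslot, hslotend⟩ := ND.slot c hc
  have hafter := ND.after c hc
  have hG := hc.he.hG
  have hsp := hc.he.hsp
  have hz := hc.he.hz
  have hH := hc.hH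
  have htt : ∀ k, (c.tt k : ℝ) = (c.ts : ℝ) + ((k / c.d.ℓ : ℕ) : ℝ) := by
    intro k
    unfold ND.tt
    push_cast
    rfl
  have key : ∀ k (l : ℤ), |c.S * (((c.ts : ℝ) + ((k / c.d.ℓ : ℕ) : ℝ)) * c.θ - l - c.Y (k % c.d.ℓ))| ≤ c.C1 →
      c.oo k = c.S * (((c.ts : ℝ) + ((k / c.d.ℓ : ℕ) : ℝ)) * c.θ - l - c.Y (k % c.d.ℓ)) := by
    intro k l hl
    have hl' : |c.S * (((c.tt k : ℝ) * c.θ - c.Y (k % c.d.ℓ)) - l)| ≤ c.C1 := by
      rw [htt k]
      have e1 : c.S * (((c.ts : ℝ) + ((k / c.d.ℓ : ℕ) : ℝ)) * c.θ - c.Y (k % c.d.ℓ) - l) =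
        c.S * (((c.ts : ℝ) + ((k / c.d.ℓ : ℕ) : ℝ)) * c.θ - l - c.Y (k % c.d.ℓ)) := by ring
      rw [e1]; exact hl
    have hC : 4 * c.C1 + 4 ≤ c.S := hc.hSC
    have hlt2 : |((c.tt k : ℝ) * c.θ - c.Y (k % c.d.ℓ)) - l| < 1 / 2 := by
      rw [abs_mul, abs_of_pos hS] at hl'
      by_contra hcon
      push Not at hcon
      have : c.S * (1 / 2) ≤ c.S * |((c.tt k : ℝ) * c.θ - c.Y (k % c.d.ℓ)) - l| :=
        mul_le_mul_of_nonneg_left hcon hS.le
      linarith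
    have hr : round ((c.tt k : ℝ) * c.θ - c.Y (k % c.d.ℓ)) = l := by
      have h1 := abs_lt.mp hlt2
      rw [round_eq, Int.floor_eq_iff]
      constructor <;> linarith
    unfold ND.oo
    rw [hr, htt k]
    ring
  have hmain := hN c.N.toNat c.M (by omega) (by rw [hNN]; exact hθM) c.ts c.b ?_ ?_ ?_
  · have h1 : c.N.toNat * c.d.ℓ = c.kf := rfl
    rw [h1, hNN] at hmain
    have h2 := abs_le.mp (hafter c.kf hke le_rfl)
    have h3 : c.b 0 = c.e.z := rfl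
    have h4 : c.S * ((c.M : ℝ) - c.N * c.θ) = - (c.S * (c.N * c.θ - c.M)) := by ring
    rw [h3, h4] at hmain
    have h5 := hc.hδ1
    linarith [hls2.1]
  · intro k hk
    have hk' : k ≤ c.kf := hk
    rcases le_total k c.ke with h | h
    · have := hslot k h
      rw [abs_le]
      constructor <;> linarith [this.1, this.2, hz.1, hz.2]
    · have := abs_le.mp (hafter k h hk')
      rw [abs_le]
      constructor <;> linarith [this.1, this.2, hz.1, hz.2]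
  · intro k hk hcon
    have hnc : ¬ |c.oo k| ≤ c.C1 := by
      intro hh
      have h1 := hcon (round ((c.tt k : ℝ) * c.θ - c.Y (k % c.d.ℓ)))
      have h2 : c.oo k = c.S * (((c.ts : ℝ) + ((k / c.d.ℓ : ℕ) : ℝ)) * c.θ -
          (round ((c.tt k : ℝ) * c.θ - c.Y (k % c.d.ℓ)) : ℤ) - c.Y (k % c.d.ℓ)) := by
        unfold ND.oo
        rw [htt k]
        ring
      rw [← h2] at h1
      linarith
    show c.b (k + 1) ≤ c.b k
    rw [ND.b, if_neg hnc]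
  · intro k hk l hl
    have h1 := key k l hl
    have hcnd : |c.oo k| ≤ c.C1 := by rw [h1]; exact hl
    rw [← h1]
    rw [ND.b, if_pos hcnd]
    split_ifs with h2
    · exact le_rfl
    · exact sub_le_sub_right (min_le_right _ _) _

end Pool.Agent.Helper29.Rot
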