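import Pool.Agent.Helper29.RotLD

set_option autoImplicit false

open Set

namespace Pool.Agent.Helper29.Rot

theorem NH1_aux (d : LD) (hd : d.Ok) (n : ℕ) (ω : ℕ → ℝ) (e : ℝ)
    (D : ℝ) (hD : D * (d.s1 * d.T2 - d.s2 * d.T1) = 1)
    (η : ℝ) (hη : 0 < η) (hηs : η * (|d.s1| + |d.s2|) ≤ e) (hηT : η * (|d.T1| + |d.T2|) ≤ e)
    (a b : ℤ × ℤ) (hab : 0 < d.T a - d.T b) (hab2 : d.T a - d.T b < e)
    (h1 : ∀ j : ℕ, j < n → |Int.fract (D * (ω j * d.sp a) * d.T2) - Int.fract (D * (ω j * d.sp b) * d.T2)| < η)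
    (h2 : ∀ j : ℕ, j < n → |Int.fract (-D * (ω j * d.sp a) * d.T1) - Int.fract (-D * (ω j * d.sp b) * d.T1)| < η) :
    ∃ μ : ℤ × ℤ, 0 < d.T μ ∧ d.T μ < e ∧
      ∀ j, j < n → ∃ μ' : ℤ × ℤ, |d.sp μ' - ω j * d.sp μ| ≤ e ∧ |d.T μ'| ≤ e := by
  have hT : d.T (a - b) = d.T a - d.T b := by
    simp only [LD.T, Prod.fst_sub, Prod.snd_sub, Int.cast_sub]
    ring
  have hsp : d.sp (a - b) = d.sp a - d.sp b := by
    simp only [LD.sp, Prod.fst_sub, Prod.snd_sub, Int.cast_sub]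
    ring
  refine ⟨a - b, by rw [hT]; exact hab, by rw [hT]; exact hab2, fun j hj => ?_⟩
  have k1 := h1 j hj
  have k2 := h2 j hj
  set x1 := D * (ω j * d.sp a) * d.T2 with hx1
  set x1' := D * (ω j * d.sp b) * d.T2 with hx1'
  set x2 := -D * (ω j * d.sp a) * d.T1 with hx2
  set x2' := -D * (ω j * d.sp b) * d.T1 with hx2'
  refine ⟨(⌊x1⌋ - ⌊x1'⌋, ⌊x2⌋ - ⌊x2'⌋), ?_, ?_⟩
  · have e1 : d.sp (⌊x1⌋ - ⌊x1'⌋, ⌊x2⌋ - ⌊x2'⌋) - ω j * d.sp (a - b) =
        -((Int.fract x1 - Int.fract x1') * d.s1 + (Int.fract x2 - Int.fract x2') * d.s2) := by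
      rw [hsp]
      simp only [LD.sp, Int.cast_sub, Int.fract]
      have e2 : (x1 - x1') * d.s1 + (x2 - x2') * d.s2 = ω j * (d.sp a - d.sp b) := by
        rw [hx1, hx1', hx2, hx2']
        linear_combination (ω j * (d.sp a - d.sp b)) * hD
      simp only [LD.sp] at e2 ⊢
      linarith
    rw [e1, abs_neg]
    calc |(Int.fract x1 - Int.fract x1') * d.s1 + (Int.fract x2 - Int.fract x2') * d.s2|
        ≤ |Int.fract x1 - Int.fract x1'| * |d.s1| + |Int.fract x2 - Int.fract x2'| * |d.s2| := by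
          rw [← abs_mul, ← abs_mul]
          exact abs_add_le _ _
      _ ≤ η * |d.s1| + η * |d.s2| := by gcongr
      _ ≤ e := by linarith
  · have e1 : d.T (⌊x1⌋ - ⌊x1'⌋, ⌊x2⌋ - ⌊x2'⌋) =
        -((Int.fract x1 - Int.fract x1') * d.T1 + (Int.fract x2 - Int.fract x2') * d.T2) := by
      simp only [LD.T, Int.cast_sub, Int.fract]
      have e2 : (x1 - x1') * d.T1 + (x2 - x2') * d.T2 = 0 := by
        rw [hx1, hx1', hx2, hx2']
        ring
      linarith
    rw [e1, abs_neg]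
    calc |(Int.fract x1 - Int.fract x1') * d.T1 + (Int.fract x2 - Int.fract x2') * d.T2|
        ≤ |Int.fract x1 - Int.fract x1'| * |d.T1| + |Int.fract x2 - Int.fract x2'| * |d.T2| := by
          rw [← abs_mul, ← abs_mul]
          exact abs_add_le _ _
      _ ≤ η * |d.T1| + η * |d.T2| := by gcongr
      _ ≤ e := by linarith

/-- TARGET -/
theorem NH1 (d : LD) (hd : d.Ok) (n : ℕ) (ω : ℕ → ℝ) (e : ℝ) (he : 0 < e) :
    ∃ μ : ℤ × ℤ, 0 < d.T μ ∧ d.T μ < e ∧
      ∀ j, j < n → ∃ μ' : ℤ × ℤ, |d.sp μ' - ω j * d.sp μ| ≤ e ∧ |d.T μ'| ≤ e := by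
  obtain ⟨c, hc, hc0⟩ := hd.c0
  have hinj : ∀ v : ℤ × ℤ, v ≠ 0 → d.T v ≠ 0 := by
    intro v hv h
    have := hc0 v hv
    rw [h, abs_zero, mul_zero] at this
    linarith
  have hT2 : d.T2 ≠ 0 := by
    have := hinj (0, 1) (by simp)
    simpa [LD.T] using this
  obtain ⟨D, hD⟩ : ∃ D : ℝ, D * (d.s1 * d.T2 - d.s2 * d.T1) = 1 := by
    rcases hd.det with h | h
    · exact ⟨1, by rw [h]; norm_num⟩
    · exact ⟨-1, by rw [h]; norm_num⟩
  set M : ℝ := |d.s1| + |d.s2| + |d.T1| + |d.T2| + 1 with hM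
  have hM0 : 1 ≤ M := by
    have := abs_nonneg d.s1
    have := abs_nonneg d.s2
    have := abs_nonneg d.T1
    have := abs_nonneg d.T2
    rw [hM]; linarith
  set η : ℝ := e / M with hη
  have hη0 : 0 < η := by positivity
  have hηM : η * M = e := by rw [hη]; field_simp
  have hηe : η ≤ e := by
    rw [← hηM]
    nlinarith
  have a1 := abs_nonneg d.s1
  have a2 := abs_nonneg d.s2
  have a3 := abs_nonneg d.T1
  have a4 := abs_nonneg d.T2
  have hηs : η * (|d.s1| + |d.s2|) ≤ e := by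
    rw [← hηM]
    apply mul_le_mul_of_nonneg_left _ hη0.le
    rw [hM]; linarith
  have hηT : η * (|d.T1| + |d.T2|) ≤ e := by
    rw [← hηM]
    apply mul_le_mul_of_nonneg_left _ hη0.le
    rw [hM]; linarith
  let v : ℕ → ℤ × ℤ := fun i => ((i : ℤ), -⌊(i : ℝ) * d.T1 / d.T2⌋)
  have hTv : ∀ i, d.T (v i) = Int.fract ((i : ℝ) * d.T1 / d.T2) * d.T2 := by
    intro i
    simp only [v, LD.T, Int.fract]
    push_cast
    field_simp
    ring
  let g : ℕ → ℝ × (Fin n → ℝ) × (Fin n → ℝ) := fun i =>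
    (d.T (v i), fun j => Int.fract (D * (ω j * d.sp (v i)) * d.T2),
      fun j => Int.fract (-D * (ω j * d.sp (v i)) * d.T1))
  have hfr : ∀ x : ℝ, |Int.fract x| ≤ 1 := fun x => by
    rw [abs_of_nonneg (Int.fract_nonneg x)]
    exact (Int.fract_lt_one x).le
  have hgb : ∀ i, g i ∈ Metric.closedBall (0 : ℝ × (Fin n → ℝ) × (Fin n → ℝ)) M := by
    intro i
    rw [mem_closedBall_zero_iff]
    simp only [g, Prod.norm_def]
    apply max_le
    · rw [Real.norm_eq_abs, hTv, abs_mul]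
      have := hfr ((i : ℝ) * d.T1 / d.T2)
      have : |Int.fract ((i : ℝ) * d.T1 / d.T2)| * |d.T2| ≤ 1 * |d.T2| := by gcongr
      rw [hM]; linarith
    · apply max_le
      · rw [pi_norm_le_iff_of_nonneg (by linarith)]
        intro j
        exact (hfr _).trans hM0
      · rw [pi_norm_le_iff_of_nonneg (by linarith)]
        intro j
        exact (hfr _).trans hM0
  obtain ⟨A, -, φ, hφ, hlim⟩ := tendsto_subseq_of_bounded Metric.isBounded_closedBall hgb
  have hcau := hlim.cauchySeq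
  obtain ⟨N, hN⟩ := (Metric.cauchySeq_iff.1 hcau) η hη0
  have hdist := hN N le_rfl (N + 1) (Nat.le_succ N)
  have hne : φ N ≠ φ (N + 1) := (hφ (Nat.lt_succ_self N)).ne
  simp only [Function.comp] at hdist
  generalize φ N = p at hdist hne
  generalize φ (N + 1) = q at hdist hne
  have hvne : v p - v q ≠ 0 := by
    intro h
    apply hne
    have := congrArg Prod.fst h
    simp only [v, Prod.fst_sub, Prod.fst_zero] at this
    omega
  have hTne := hinj _ hvne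
  have hTs : d.T (v p - v q) = d.T (v p) - d.T (v q) := by
    simp only [LD.T, Prod.fst_sub, Prod.snd_sub, Int.cast_sub]
    ring
  rw [hTs] at hTne
  rw [Prod.dist_eq, Prod.dist_eq, max_lt_iff, max_lt_iff, dist_pi_lt_iff hη0, dist_pi_lt_iff hη0] at hdist
  obtain ⟨d1, d2, d3⟩ := hdist
  simp only [g, Real.dist_eq] at d1 d2 d3
  rcases lt_or_gt_of_ne hTne with h | h
  · refine NH1_aux d hd n ω e D hD η hη0 hηs hηT (v q) (v p) (by linarith) ?_ ?_ ?_
    · have := (abs_lt.1 d1).1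
      linarith
    · intro j hj
      rw [abs_sub_comm]
      exact d2 ⟨j, hj⟩
    · intro j hj
      rw [abs_sub_comm]
      exact d3 ⟨j, hj⟩
  · refine NH1_aux d hd n ω e D hD η hη0 hηs hηT (v p) (v q) (by linarith) ?_ ?_ ?_
    · have := (abs_lt.1 d1).2
      linarith
    · intro j hj
      exact d2 ⟨j, hj⟩
    · intro j hj
      exact d3 ⟨j, hj⟩

end Pool.Agent.Helper29.Rot
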