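import Pool.Agent.Helper29.RotLD

set_option autoImplicit false

open Set

namespace Pool.Agent.Helper29.Rot

theorem nh_min {ι : Type} (s : Finset ι) (f : ι → ℝ) (h : ∀ i ∈ s, 0 < f i) :
    ∃ r : ℝ, 0 < r ∧ ∀ i ∈ s, r ≤ f i := by
  rcases s.eq_empty_or_nonempty with rfl | hs
  · exact ⟨1, one_pos, by simp⟩
  · obtain ⟨i, hi, hmin⟩ := s.exists_min_image f hs
    exact ⟨f i, h i hi, hmin⟩

theorem nh_T_sub (d : LD) (v w : ℤ × ℤ) : d.T (v - w) = d.T v - d.T w := by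
  unfold LD.T
  simp only [Prod.fst_sub, Prod.snd_sub]
  push_cast
  ring

theorem nh_sp_sub (d : LD) (v w : ℤ × ℤ) : d.sp (v - w) = d.sp v - d.sp w := by
  unfold LD.sp
  simp only [Prod.fst_sub, Prod.snd_sub]
  push_cast
  ring

theorem nh_T_inj (d : LD) (hd : d.Ok) (u : ℤ × ℤ) (h : d.T u = 0) : u = 0 := by
  obtain ⟨c, hc, hc2⟩ := hd.c0
  by_contra hu
  have := hc2 u hu
  rw [h, abs_zero, mul_zero] at this
  linarith

theorem nh_fin (d : LD) (hd : d.Ok) (A B : ℝ) :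
    {u : ℤ × ℤ | |d.sp u| ≤ A ∧ |d.T u| ≤ B}.Finite := by
  obtain ⟨R, hR⟩ : ∃ R : ℤ, A * |d.T2| + B * |d.s2| + (B * |d.s1| + A * |d.T1|) ≤ R :=
    ⟨_, Int.le_ceil _⟩
  have hsub : {u : ℤ × ℤ | |d.sp u| ≤ A ∧ |d.T u| ≤ B} ⊆ Icc (-R) R ×ˢ Icc (-R) R := by
    rintro u ⟨h1, h2⟩
    have hA : 0 ≤ A := (abs_nonneg _).trans h1
    have hB : 0 ≤ B := (abs_nonneg _).trans h2
    have e1 : (u.1 : ℝ) * (d.s1 * d.T2 - d.s2 * d.T1) = d.sp u * d.T2 - d.T u * d.s2 := by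
      unfold LD.sp LD.T; ring
    have e2 : (u.2 : ℝ) * (d.s1 * d.T2 - d.s2 * d.T1) = d.T u * d.s1 - d.sp u * d.T1 := by
      unfold LD.sp LD.T; ring
    have hD : |d.s1 * d.T2 - d.s2 * d.T1| = 1 := by
      rcases hd.det with h | h
      · rw [h, abs_one]
      · rw [h, abs_neg, abs_one]
    have f1 : |(u.1 : ℝ)| = |d.sp u * d.T2 - d.T u * d.s2| := by
      rw [← e1, abs_mul, hD, mul_one]
    have f2 : |(u.2 : ℝ)| = |d.T u * d.s1 - d.sp u * d.T1| := by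
      rw [← e2, abs_mul, hD, mul_one]
    have g1 : |d.sp u * d.T2| ≤ A * |d.T2| := by
      rw [abs_mul]; exact mul_le_mul_of_nonneg_right h1 (abs_nonneg _)
    have g2 : |d.T u * d.s2| ≤ B * |d.s2| := by
      rw [abs_mul]; exact mul_le_mul_of_nonneg_right h2 (abs_nonneg _)
    have g3 : |d.T u * d.s1| ≤ B * |d.s1| := by
      rw [abs_mul]; exact mul_le_mul_of_nonneg_right h2 (abs_nonneg _)
    have g4 : |d.sp u * d.T1| ≤ A * |d.T1| := by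
      rw [abs_mul]; exact mul_le_mul_of_nonneg_right h1 (abs_nonneg _)
    have k1 : |(u.1 : ℝ)| ≤ R := by
      rw [f1]
      have := abs_sub (d.sp u * d.T2) (d.T u * d.s2)
      have p1 := (abs_nonneg _).trans g3
      have p2 := (abs_nonneg _).trans g4
      linarith
    have k2 : |(u.2 : ℝ)| ≤ R := by
      rw [f2]
      have := abs_sub (d.T u * d.s1) (d.sp u * d.T1)
      have p1 := (abs_nonneg _).trans g1
      have p2 := (abs_nonneg _).trans g2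
      linarith
    have k1' : |u.1| ≤ R := by exact_mod_cast k1
    have k2' : |u.2| ≤ R := by exact_mod_cast k2
    exact ⟨abs_le.mp k1', abs_le.mp k2'⟩
  exact ((Set.finite_Icc _ _).prod (Set.finite_Icc _ _)).subset hsub

theorem nh_6 (d : LD) (hd : d.Ok) (W : ℝ) (i c : ℕ) : ∃ ν : ℝ, 0 < ν ∧ ∀ u : ℤ × ℤ,
    |d.a i - d.a c + d.sp u| ≤ W → |d.φ i - d.φ c + d.T u| ≤ ν → d.φ i - d.φ c + d.T u = 0 := by
  classical
  have hfin := nh_fin d hd (W + |d.a i - d.a c|) (1 + |d.φ i - d.φ c|)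
  obtain ⟨r, hr, hr2⟩ := nh_min (hfin.toFinset.filter (fun u => d.φ i - d.φ c + d.T u ≠ 0))
    (fun u => |d.φ i - d.φ c + d.T u|) (fun u hu => abs_pos.mpr (Finset.mem_filter.mp hu).2)
  refine ⟨min 1 (r / 2), lt_min one_pos (by linarith), fun u h1 h2 => ?_⟩
  by_contra hne
  have h3 : |d.φ i - d.φ c + d.T u| ≤ 1 := h2.trans (min_le_left _ _)
  have h4 : |d.φ i - d.φ c + d.T u| ≤ r / 2 := h2.trans (min_le_right _ _)
  have h5 : |d.sp u| ≤ W + |d.a i - d.a c| := by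
    have : d.sp u = (d.a i - d.a c + d.sp u) - (d.a i - d.a c) := by ring
    rw [this]
    exact (abs_sub _ _).trans (by linarith)
  have h6 : |d.T u| ≤ 1 + |d.φ i - d.φ c| := by
    have : d.T u = (d.φ i - d.φ c + d.T u) - (d.φ i - d.φ c) := by ring
    rw [this]
    exact (abs_sub _ _).trans (by linarith)
  have h7 := hr2 u (Finset.mem_filter.mpr ⟨hfin.mem_toFinset.mpr ⟨h5, h6⟩, hne⟩)
  linarith

theorem nh_7 (d : LD) (hd : d.Ok) (i c : ℕ) : ∃ r : ℝ, 0 < r ∧ ∀ u : ℤ × ℤ,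
    d.φ i - d.φ c + d.T u = 0 → |d.a i - d.a c + d.sp u| < r → d.a i - d.a c + d.sp u = 0 := by
  classical
  by_cases hex : ∃ u0 : ℤ × ℤ, d.φ i - d.φ c + d.T u0 = 0
  · obtain ⟨u0, hu0⟩ := hex
    have huniq : ∀ u : ℤ × ℤ, d.φ i - d.φ c + d.T u = 0 → u = u0 := by
      intro u hu
      have h1 : d.T (u - u0) = 0 := by rw [nh_T_sub]; linarith
      exact sub_eq_zero.mp (nh_T_inj d hd _ h1)
    by_cases hz : d.a i - d.a c + d.sp u0 = 0
    · exact ⟨1, one_pos, fun u hu _ => by rw [huniq u hu]; exact hz⟩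
    · refine ⟨|d.a i - d.a c + d.sp u0|, abs_pos.mpr hz, fun u hu h => ?_⟩
      rw [huniq u hu] at h
      exact absurd h (lt_irrefl _)
  · exact ⟨1, one_pos, fun u hu _ => absurd ⟨u, hu⟩ hex⟩

/-- TARGET -/
theorem NH6 (d : LD) (hd : d.Ok) (W : ℝ) :
    ∃ ν : ℝ, 0 < ν ∧ ∀ i c, i < d.ℓ → c < d.ℓ → ∀ v w : ℤ × ℤ,
      |d.o i v - d.o c w| ≤ W → |d.tau i v - d.tau c w| ≤ ν → d.tau i v = d.tau c w := by
  choose f hf0 hf using nh_6 d hd W
  obtain ⟨ν, hν, hν2⟩ := nh_min (Finset.range d.ℓ ×ˢ Finset.range d.ℓ)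
    (fun p : ℕ × ℕ => f p.1 p.2) (fun p _ => hf0 p.1 p.2)
  refine ⟨ν, hν, fun i c hi hc v w h1 h2 => ?_⟩
  have h3 : d.o i v - d.o c w = d.a i - d.a c + d.sp (v - w) := by
    rw [nh_sp_sub]; unfold LD.o; ring
  have h4 : d.tau i v - d.tau c w = d.φ i - d.φ c + d.T (v - w) := by
    rw [nh_T_sub]; unfold LD.tau; ring
  rw [h3] at h1
  rw [h4] at h2
  have h5 := hν2 (i, c) (Finset.mem_product.mpr ⟨Finset.mem_range.mpr hi, Finset.mem_range.mpr hc⟩)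
  have h6 := hf i c (v - w) h1 (h2.trans h5)
  linarith

/-- TARGET -/
theorem NH7 (d : LD) (hd : d.Ok) :
    ∃ r : ℝ, 0 < r ∧ ∀ i c, i < d.ℓ → c < d.ℓ → ∀ v w : ℤ × ℤ,
      d.tau i v = d.tau c w → |d.o i v - d.o c w| < r → d.o i v = d.o c w := by
  choose f hf0 hf using nh_7 d hd
  obtain ⟨ν, hν, hν2⟩ := nh_min (Finset.range d.ℓ ×ˢ Finset.range d.ℓ)
    (fun p : ℕ × ℕ => f p.1 p.2) (fun p _ => hf0 p.1 p.2)
  refine ⟨ν, hν, fun i c hi hc v w h1 h2 => ?_⟩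
  have h3 : d.o i v - d.o c w = d.a i - d.a c + d.sp (v - w) := by
    rw [nh_sp_sub]; unfold LD.o; ring
  have h4 : d.tau i v - d.tau c w = d.φ i - d.φ c + d.T (v - w) := by
    rw [nh_T_sub]; unfold LD.tau; ring
  rw [h3] at h2
  have h5 := hν2 (i, c) (Finset.mem_product.mpr ⟨Finset.mem_range.mpr hi, Finset.mem_range.mpr hc⟩)
  have h6 := hf i c (v - w) (by rw [← h4, h1, sub_self]) (lt_of_lt_of_le h2 h5)
  linarith

end Pool.Agent.Helper29.Rot
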