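import Pool.Agent.Helper29.RotDefs
import Pool.Agent.Helper29.RotLD

set_option autoImplicit false

open Set

namespace Pool.Agent.Helper29.Rot

/-- fixed scale data (case of bounded type) -/
structure ND where
  d : LD
  e : DD
  Y : ℕ → ℝ
  θ : ℝ
  S : ℝ
  Q1 : ℤ
  P1 : ℤ
  Q2 : ℤ
  P2 : ℤ
  t : ℕ → ℤ
  l : ℕ → ℤ
  δ : ℝ
  D0 : ℝ
  Rb : ℕ
  C1 : ℝ
  η : ℝ
  U : ℝ ≃o ℝ
  σ : ℝ
  rmax : ℝ
  r0 : ℝ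
  ts : ℤ
  ne : ℕ

namespace ND
variable (c : ND)

/-- bound for the displacements -/
noncomputable def dmax : ℝ := c.e.dg / c.r0
/-- flat half width -/
noncomputable def f : ℝ := (c.d.ℓ + 3) * c.dmax
/-- displacement at the site `k` -/
noncomputable def dd (k : ℕ) : ℝ := c.e.dg / (c.d.ρ (c.e.cl k) * c.d.n (c.e.cl k))
/-- the period -/
def N : ℤ := c.e.ls.1 * c.Q1 + c.e.ls.2 * c.Q2
/-- the rotation of the period -/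
def M : ℤ := c.e.ls.1 * c.P1 + c.e.ls.2 * c.P2
/-- time of a label -/
def tm (i : ℕ) (v : ℤ × ℤ) : ℤ := c.t i + v.1 * c.Q1 + v.2 * c.Q2
/-- integer part of a label -/
def lm (i : ℕ) (v : ℤ × ℤ) : ℤ := c.l i + v.1 * c.P1 + v.2 * c.P2
/-- offset of a label -/
noncomputable def of (i : ℕ) (v : ℤ × ℤ) : ℝ := c.S * (c.tm i v * c.θ - c.lm i v - c.Y i)
/-- time of step `k` -/
def tt (k : ℕ) : ℤ := c.ts + ((k / c.d.ℓ : ℕ) : ℤ)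
/-- offset at step `k` (w.r.t. the nearest integer) -/
noncomputable def oo (k : ℕ) : ℝ :=
  c.S * ((c.tt k : ℝ) * c.θ - c.Y (k % c.d.ℓ)
    - (round ((c.tt k : ℝ) * c.θ - c.Y (k % c.d.ℓ)) : ℤ))
/-- end of the slot -/
def ke : ℕ := c.ne * c.d.ℓ
/-- number of all steps -/
def kf : ℕ := c.N.toNat * c.d.ℓ
/-- the barrier -/
noncomputable def b : ℕ → ℝ
  | 0 => c.e.z
  | (k + 1) =>
    open Classical in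
    if |c.oo k| ≤ c.C1 then
      (if k < c.ke ∨ c.d.n (k % c.d.ℓ) = 0 then
        act c.U (c.d.ρ (k % c.d.ℓ)) (c.d.ε (k % c.d.ℓ)) (c.oo k) (b k)
       else min (b k) (act c.U (c.d.ρ (k % c.d.ℓ)) (c.d.ε (k % c.d.ℓ)) (c.oo k) (b k))) - c.η
    else b k
/-- number of candidates before `k` -/
noncomputable def cnt (k : ℕ) : ℕ :=
  open Classical in ((Finset.range k).filter (fun k' => |c.oo k'| ≤ c.C1)).card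
/-- bound for the number of candidates -/
noncomputable def R : ℝ := c.d.ℓ * (2 * c.Rb + 1) ^ 2
/-- contribution of a step of a balanced class -/
noncomputable def bc (k : ℕ) : ℝ :=
  open Classical in
  if |c.oo k| ≤ c.C1 ∧ c.d.n (k % c.d.ℓ) = 0 then
    act c.U (c.d.ρ (k % c.d.ℓ)) (c.d.ε (k % c.d.ℓ)) (c.oo k) (c.b k) - c.b k else 0
/-- losses -/
noncomputable def lc (k : ℕ) : ℝ :=
  open Classical in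
  if |c.oo k| ≤ c.C1 then
    (if c.d.n (k % c.d.ℓ) = 0 then c.η else
      c.b k - min (c.b k) (act c.U (c.d.ρ (k % c.d.ℓ)) (c.d.ε (k % c.d.ℓ)) (c.oo k) (c.b k)) + c.η)
  else 0
/-- sum of the balanced contributions after the slot -/
noncomputable def Bal (k : ℕ) : ℝ := ∑ j ∈ Finset.Ico c.ke k, c.bc j
/-- sum of the losses after the slot -/
noncomputable def Los (k : ℕ) : ℝ := ∑ j ∈ Finset.Ico c.ke k, c.lc j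
/-- bound for the balanced contributions -/
noncomputable def V : ℝ :=
  3 * c.d.ℓ ^ 3 * c.e.Q0 * c.σ * (c.rmax / c.r0) * c.e.G + c.d.ℓ ^ 2 * (c.rmax / c.r0) * c.e.dg
/-- bound for the losses -/
noncomputable def LB : ℝ :=
  2 * c.d.ℓ * c.e.Q0 * (c.rmax / c.r0) * (2 * c.rmax * c.e.w + 2 * c.V + 2 * c.e.dg) + c.e.dg

/-- all the hypotheses -/
structure Ok : Prop where
  hd : c.d.Ok
  he : c.e.Des c.d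
  hδ : 0 < c.δ
  hS : 1 ≤ c.S
  hδS : 1 ≤ c.δ * c.S
  det : c.Q1 * c.P2 - c.Q2 * c.P1 = 1 ∨ c.Q1 * c.P2 - c.Q2 * c.P1 = -1
  hD0 : 1 ≤ c.D0
  b1 : |c.S * (c.Q1 * c.θ - c.P1)| ≤ c.D0
  b2 : |c.S * (c.Q2 * c.θ - c.P2)| ≤ c.D0
  b3 : |(c.Q1 : ℝ) / c.S| ≤ c.D0
  b4 : |(c.Q2 : ℝ) / c.S| ≤ c.D0
  b5 : ∀ i, i < c.d.ℓ → |c.S * (c.t i * c.θ - c.l i - c.Y i)| ≤ c.D0
  b6 : ∀ i, i < c.d.ℓ → |(c.t i : ℝ) / c.S| ≤ c.D0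
  b7 : |c.e.Tst| + c.d.T c.e.ls + 2 ≤ c.D0
  hRb : c.D0 * (c.C1 + 3 * c.D0) ≤ c.Rb
  happ : ∀ i, i < c.d.ℓ → ∀ v : ℤ × ℤ, |(v.1 : ℝ)| ≤ c.Rb → |(v.2 : ℝ)| ≤ c.Rb →
    |c.of i v - c.d.o i v| ≤ c.δ ∧ |(c.tm i v : ℝ) / c.S - c.d.tau i v| ≤ c.δ
  hls1 : |(c.N : ℝ) / c.S - c.d.T c.e.ls| ≤ c.δ
  hls2 : |c.S * (c.N * c.θ - c.M) - c.d.sp c.e.ls| ≤ c.δ
  hδls : c.δ < - c.d.sp c.e.ls
  hts : |(c.ts : ℝ) / c.S - c.e.Tst| ≤ c.δ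
  hne : |((c.ts : ℝ) + c.ne) / c.S - c.e.Ten| ≤ c.δ
  htsep : ∀ i j, i < c.d.ℓ → j < c.d.ℓ → ∀ v w : ℤ × ℤ, |(v.1 : ℝ)| ≤ c.Rb → |(v.2 : ℝ)| ≤ c.Rb →
    |(w.1 : ℝ)| ≤ c.Rb → |(w.2 : ℝ)| ≤ c.Rb → |c.d.tau i v - c.d.tau j w| ≤ 10 * c.δ →
    c.d.tau i v = c.d.tau j w
  hγ : 10 * c.δ ≤ c.e.γ
  hγ0 : c.δ / c.r0 ≤ c.e.γ
  hδ1 : c.δ ≤ 1 / 10
  hδ2 : 4 * c.δ ≤ c.e.dg
  hδ3 : 4 * c.δ ≤ c.rmax * c.dmax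
  hsite : ∀ k, k < c.e.ns → |((c.e.al k).1 : ℝ)| ≤ c.Rb ∧ |((c.e.al k).2 : ℝ)| ≤ c.Rb
  hC1 : ∀ k i, k < c.e.ns → i < c.d.ℓ →
    c.d.ρ i * (|c.e.X c.d k| + c.e.w + c.e.γ) + c.e.G + 4 ≤ c.C1
  hSC : 4 * c.C1 + 4 ≤ c.S
  hη : 0 < c.η
  hηR : 4 * (c.R * c.η) ≤ c.e.dg
  hηR2 : 4 * (c.R * c.η) ≤ c.rmax * c.dmax
  hr0 : 0 < c.r0
  hr1 : ∀ i, i < c.d.ℓ → 0 < c.d.ρ i → c.r0 ≤ c.d.ρ i
  hr2 : ∀ i, i < c.d.ℓ → c.d.ρ i ≤ c.rmax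
  hσ : 0 < c.σ
  hσ1 : c.σ ≤ 1 / 2
  hβ : (c.d.ℓ + 1) * c.e.dg ≤ 1
  U1 : ∀ Z, (∀ k, k < c.e.ns → c.e.w ≤ |Z - c.e.X c.d k|) → c.U Z = Z
  U2 : ∀ k, k < c.e.ns → ∀ Z, |Z - c.e.X c.d k| ≤ c.f → c.U Z = Z + c.dd k
  U3 : ∀ Z Z', |(c.U Z - Z) - (c.U Z' - Z')| ≤ c.σ * |Z - Z'|
  U4 : ∀ Z, |c.U Z - Z| ≤ c.dmax
  hbud : c.V + c.LB + c.e.dg ≤ c.e.H
  hH : c.e.H ≤ 1 / 4

end ND

end Pool.Agent.Helper29.Rot
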