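import Pool.Agent.Helper29.RotS2
import Pool.Agent.Helper29.RotBump
import Pool.Agent.Helper29.RotAct

set_option autoImplicit false

open CircleDeg1Lift Set

namespace Pool.Agent.Helper29.Rot

theorem cr_reduce (P : ℤ) (Q : ℕ) (hQ : 0 < Q) :
    ∃ (p : ℤ) (q : ℕ), 0 < q ∧ IsCoprime p (q : ℤ) ∧ (P : ℝ) / Q = (p : ℝ) / q := by
  refine ⟨((P : ℚ) / Q).num, ((P : ℚ) / Q).den, Rat.den_pos _, ?_, ?_⟩
  · rw [Int.isCoprime_iff_gcd_eq_one]
    exact Rat.reduced _
  · have h := Rat.cast_def (K := ℝ) ((P : ℚ) / Q)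
    rw [← h]
    push_cast
    rfl

theorem cr_dist (a : ℝ) : ∃ δ : ℝ, 0 < δ ∧ ∀ m : ℤ, (m : ℝ) = a ∨ δ ≤ |(m : ℝ) - a| := by
  by_cases h : ∃ z : ℤ, a = z
  · obtain ⟨z, rfl⟩ := h
    refine ⟨1, one_pos, fun m => ?_⟩
    by_cases hm : m = z
    · left; rw [hm]
    · right
      rw [← Int.cast_sub, ← Int.cast_abs]
      exact_mod_cast Int.one_le_abs (sub_ne_zero.2 hm)
  · have h0 : Int.fract a ≠ 0 := by
      intro h1
      apply h
      refine ⟨⌊a⌋, ?_⟩
      have := Int.floor_add_fract a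
      rw [h1, add_zero] at this
      exact this.symm
    refine ⟨min (Int.fract a) (1 - Int.fract a),
      lt_min (lt_of_le_of_ne (Int.fract_nonneg a) (Ne.symm h0))
        (by linarith [Int.fract_lt_one a]), fun m => ?_⟩
    right
    have h2 := Int.floor_add_fract a
    rcases le_or_gt m ⌊a⌋ with hm | hm
    · have h3 : (m : ℝ) ≤ ⌊a⌋ := by exact_mod_cast hm
      refine (min_le_left _ _).trans ?_
      rw [abs_sub_comm]
      refine le_trans ?_ (le_abs_self _)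
      linarith
    · have h3 : ((⌊a⌋ : ℤ) : ℝ) + 1 ≤ m := by exact_mod_cast hm
      refine (min_le_right _ _).trans ?_
      refine le_trans ?_ (le_abs_self _)
      linarith

theorem cr_dist_all (a : ℕ → ℝ) (ℓ : ℕ) :
    ∃ δ : ℝ, 0 < δ ∧ ∀ k, k < ℓ → ∀ m : ℤ, (m : ℝ) = a k ∨ δ ≤ |(m : ℝ) - a k| := by
  induction ℓ with
  | zero => exact ⟨1, one_pos, fun k hk => absurd hk (Nat.not_lt_zero k)⟩
  | succ n ih =>
    obtain ⟨δ, hδ, h⟩ := ih
    obtain ⟨δ', hδ', h'⟩ := cr_dist (a n)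
    refine ⟨min δ δ', lt_min hδ hδ', fun k hk m => ?_⟩
    rcases Nat.lt_succ_iff_lt_or_eq.1 hk with h1 | rfl
    · exact (h k h1 m).imp id (fun h2 => (min_le_left _ _).trans h2)
    · exact (h' m).imp id (fun h2 => (min_le_right _ _).trans h2)

theorem cr_small (A D : ℕ → ℝ) (ℓ : ℕ) (hA : ∀ k, k < ℓ → 0 ≤ A k)
    (hD : ∀ k, k < ℓ → 0 < D k) : ∃ x : ℝ, 0 < x ∧ ∀ k, k < ℓ → x * A k ≤ D k := by
  induction ℓ with
  | zero => exact ⟨1, one_pos, fun k hk => absurd hk (Nat.not_lt_zero k)⟩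
  | succ n ih =>
    obtain ⟨x, hx, h⟩ := ih (fun k hk => hA k (hk.trans (Nat.lt_succ_self n)))
      (fun k hk => hD k (hk.trans (Nat.lt_succ_self n)))
    have h1 := hA n (Nat.lt_succ_self n)
    have h2 := hD n (Nat.lt_succ_self n)
    have h3 : 0 < D n / (A n + 1) := div_pos h2 (by linarith)
    refine ⟨min x (D n / (A n + 1)), lt_min hx h3, fun k hk => ?_⟩
    rcases Nat.lt_succ_iff_lt_or_eq.1 hk with h4 | rfl
    · exact (mul_le_mul_of_nonneg_right (min_le_left _ _)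
        (hA k hk)).trans (h k h4)
    · refine (mul_le_mul_of_nonneg_right (min_le_right _ _) h1).trans ?_
      rw [div_mul_eq_mul_div, div_le_iff₀ (by linarith)]
      nlinarith

theorem cr_class (ℓ : ℕ) (ε : ℕ → ℤ) (ρ : ℕ → ℝ) (R : ℕ → ℕ → Prop) [DecidableRel R]
    (hr : ∀ i, R i i)
    (hs : ∀ i j, R i j → R j i) (ht : ∀ i j k, R i j → R j k → R i k)
    (hρR : ∀ i j, R i j → ρ i = ρ j)
    (hne : ∑ k ∈ Finset.range ℓ, (ε k : ℝ) * ρ k ≠ 0) :
    ∃ c, c < ℓ ∧ ρ c ≠ 0 ∧ ∑ k ∈ (Finset.range ℓ).filter (fun k => R k c), ε k ≠ 0 := by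
  by_contra hcon
  push Not at hcon
  apply hne
  have hm : ∀ x ∈ Finset.range ℓ, (Finset.range ℓ).filter (fun j => R j x) ∈
      (Finset.range ℓ).image (fun x => (Finset.range ℓ).filter (fun j => R j x)) :=
    fun x hx => Finset.mem_image_of_mem _ hx
  rw [← Finset.sum_fiberwise_of_maps_to hm]
  refine Finset.sum_eq_zero ?_
  intro C hC
  obtain ⟨c, hc, rfl⟩ := Finset.mem_image.1 hC
  have hc' := Finset.mem_range.1 hc
  have h1 : (Finset.range ℓ).filter (fun x => (Finset.range ℓ).filter (fun j => R j x) =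
      (Finset.range ℓ).filter (fun j => R j c)) = (Finset.range ℓ).filter (fun x => R x c) := by
    ext x
    rw [Finset.mem_filter, Finset.mem_filter]
    constructor
    · rintro ⟨h2, h3⟩
      refine ⟨h2, ?_⟩
      have h4 : x ∈ (Finset.range ℓ).filter (fun j => R j x) :=
        Finset.mem_filter.2 ⟨h2, hr x⟩
      rw [h3] at h4
      exact (Finset.mem_filter.1 h4).2
    · rintro ⟨h2, h3⟩
      refine ⟨h2, ?_⟩
      ext j
      rw [Finset.mem_filter, Finset.mem_filter]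
      constructor
      · rintro ⟨h4, h5⟩
        exact ⟨h4, ht _ _ _ h5 h3⟩
      · rintro ⟨h4, h5⟩
        exact ⟨h4, ht _ _ _ h5 (hs _ _ h3)⟩
  rw [h1]
  have h2 : ∑ x ∈ (Finset.range ℓ).filter (fun x => R x c), (ε x : ℝ) * ρ x =
      ((∑ x ∈ (Finset.range ℓ).filter (fun x => R x c), ε x : ℤ) : ℝ) * ρ c := by
    rw [Int.cast_sum, Finset.sum_mul]
    refine Finset.sum_congr rfl (fun x hx => ?_)
    rw [hρR x c (Finset.mem_filter.1 hx).2]
  rw [h2]
  by_cases h3 : ρ c = 0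
  · rw [h3, mul_zero]
  · rw [hcon c hc' h3, Int.cast_zero, zero_mul]

theorem cr_solve (p : ℤ) (q : ℕ) (hq : 0 < q) (hpq : IsCoprime p (q : ℤ)) (m : ℤ) :
    ∃ t : ℕ, t < q ∧ ∃ l : ℤ, (t : ℤ) * p - l * q = m := by
  obtain ⟨a, b, hab⟩ := hpq
  have hq' : (0 : ℤ) < q := by exact_mod_cast hq
  have h1 : 0 ≤ (m * a) % (q : ℤ) := Int.emod_nonneg _ hq'.ne'
  have h2 : (m * a) % (q : ℤ) < q := Int.emod_lt_of_pos _ hq'
  have h3 := Int.emod_add_mul_ediv (m * a) (q : ℤ)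
  refine ⟨((m * a) % (q : ℤ)).toNat, ?_, -m * b - (m * a) / q * p, ?_⟩
  · zify
    rw [Int.toNat_of_nonneg h1]
    exact h2
  · rw [Int.toNat_of_nonneg h1]
    have h4 : (m * a) % (q : ℤ) = m * a - q * ((m * a) / q) := by linarith
    rw [h4]
    linear_combination m * hab

theorem cr_unique (p : ℤ) (q : ℕ) (hpq : IsCoprime p (q : ℤ)) (t t' : ℕ)
    (ht : t < q) (ht' : t' < q) (l l' : ℤ) (h : (t : ℤ) * p - l * q = (t' : ℤ) * p - l' * q) :
    t = t' := by
  have h1 : (q : ℤ) ∣ ((t : ℤ) - t') * p := ⟨l - l', by linear_combination h⟩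
  have h2 : (q : ℤ) ∣ ((t : ℤ) - t') := hpq.symm.dvd_of_dvd_mul_right h1
  have h3 : |((t : ℤ) - t')| < q := by
    rw [abs_lt]
    constructor <;> linarith [(by exact_mod_cast ht : (t : ℤ) < q),
      (by exact_mod_cast ht' : (t' : ℤ) < q), (by positivity : (0 : ℤ) ≤ t),
      (by positivity : (0 : ℤ) ≤ t')]
  have h4 := Int.eq_zero_of_abs_lt_dvd h2 h3
  omega

theorem comb_rat_aux (p : ℤ) (q : ℕ) (hq : 0 < q) (hpq : IsCoprime p (q : ℤ)) (ℓ : ℕ)
    (ε : ℕ → ℤ) (ρ Y : ℕ → ℝ) (hℓ : 0 < ℓ)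
    (hε : ∀ k, ε k = 0 ∨ ε k = 1 ∨ ε k = -1) (hρ : ∀ k, k < ℓ → 0 ≤ ρ k)
    (Rl : ℕ → Prop) [DecidablePred Rl]
    (c : ℕ) (hρc : 0 < ρ c)
    (hRl : ∀ k, Rl k ↔ (ρ k = ρ c ∧ ∃ m : ℤ, (q : ℝ) * (Y k - Y c) = m))
    (hn : ∑ k ∈ (Finset.range ℓ).filter Rl, ε k ≠ 0) :
    ¬ NCSS ((p : ℝ) / q) ℓ ε ρ (fun k => Y k - Y c) := by
  classical
  intro hN
  have hq' : (0 : ℝ) < q := by exact_mod_cast hq
  have hℓ' : (0 : ℝ) < ℓ := by exact_mod_cast hℓ
  obtain ⟨x0, hx0, hx0'⟩ := cr_small (fun k => ((ℓ : ℝ) + 5) * ρ k + ((ℓ : ℝ) + 1) * ρ c)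
    (fun k => if ρ k = ρ c then 1 else |ρ c - ρ k|) ℓ
    (fun k hk => by have := hρ k hk; positivity)
    (fun k hk => by
      show 0 < (if ρ k = ρ c then 1 else |ρ c - ρ k|)
      split_ifs with h
      · exact one_pos
      · exact abs_pos.2 (sub_ne_zero.2 (Ne.symm h)))
  obtain ⟨x, hx, hx1, hxk⟩ : ∃ x : ℝ, 0 < x ∧ ((ℓ : ℝ) + 5) * x ≤ 1 ∧ ∀ k, k < ℓ → ρ k ≠ ρ c →
      x * (((ℓ : ℝ) + 5) * ρ k + ((ℓ : ℝ) + 1) * ρ c) ≤ |ρ c - ρ k| := by
    refine ⟨min x0 (1 / ((ℓ : ℝ) + 5)), lt_min hx0 (by positivity), ?_, ?_⟩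
    · calc ((ℓ : ℝ) + 5) * min x0 (1 / ((ℓ : ℝ) + 5)) ≤ ((ℓ : ℝ) + 5) * (1 / ((ℓ : ℝ) + 5)) :=
            mul_le_mul_of_nonneg_left (min_le_right _ _) (by positivity)
        _ = 1 := by field_simp
    · intro k hk hne
      have h1 := hx0' k hk
      simp only [if_neg hne] at h1
      refine le_trans (mul_le_mul_of_nonneg_right (min_le_left _ _) ?_) h1
      have := hρ k hk
      positivity
  set n : ℤ := ∑ k ∈ (Finset.range ℓ).filter Rl, ε k with hndef
  obtain ⟨d, hd, hdn⟩ : ∃ d : ℝ, |d| = x ∧ x ≤ d * n := by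
    rcases lt_or_gt_of_ne hn with h | h
    · refine ⟨-x, by rw [abs_neg, abs_of_pos hx], ?_⟩
      have h1 : (n : ℝ) ≤ -1 := by exact_mod_cast (by omega : n ≤ -1)
      nlinarith
    · refine ⟨x, abs_of_pos hx, ?_⟩
      have h1 : (1 : ℝ) ≤ n := by exact_mod_cast (by omega : 1 ≤ n)
      nlinarith
  obtain ⟨U, hU1, hU2, hU3, hU4⟩ := bump_iso 1 (fun _ => 1) (fun _ => d)
    (fun _ => ((ℓ : ℝ) + 3) * x) (fun _ => ((ℓ : ℝ) + 5) * x) (1 / 2) x (by norm_num) le_rfl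
    (fun j _ => by positivity) (fun j _ => by rw [hd]; ring) hx.le (fun j _ => hd.le)
    (by intro j k hj hk hjk; omega)
  have hU1' : ∀ Z : ℝ, ((ℓ : ℝ) + 5) * x ≤ |Z - 1| → U Z = Z :=
    fun Z hZ => hU1 Z (fun j _ => hZ)
  have hU2' : ∀ Z : ℝ, |Z - 1| ≤ ((ℓ : ℝ) + 3) * x → U Z = Z + d :=
    fun Z hZ => hU2 0 (by norm_num) Z hZ
  obtain ⟨hL1, hL2⟩ := lip_of_disp U (1 / 2) (by norm_num) le_rfl hU3
  set η : ℝ := ρ c * x / (q * ℓ + 1) with hη
  have hηpos : 0 < η := by positivity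
  have hηle : η * (q * ℓ) < ρ c * x := by
    rw [hη, div_mul_eq_mul_div, div_lt_iff₀ (by positivity)]
    have : 0 < ρ c * x := by positivity
    nlinarith
  obtain ⟨δ, hδ, hδ'⟩ := cr_dist_all (fun k => (q : ℝ) * (Y k - Y c)) ℓ
  obtain ⟨C₁, hC₁, hC₁'⟩ : ∃ C₁ : ℝ, 0 ≤ C₁ ∧ ∀ k, k < ℓ → ρ k * 3 + 2 * ρ c + 1 ≤ C₁ := by
    refine ⟨∑ k ∈ Finset.range ℓ, ρ k * 3 + 2 * ρ c + 1, ?_, ?_⟩
    · have : 0 ≤ ∑ k ∈ Finset.range ℓ, ρ k * 3 :=
        Finset.sum_nonneg (fun k hk => by have := hρ k (Finset.mem_range.1 hk); positivity)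
      positivity
    · intro k hk
      have : ρ k * 3 ≤ ∑ k ∈ Finset.range ℓ, ρ k * 3 :=
        Finset.single_le_sum (f := fun k => ρ k * 3)
          (fun k hk => by have := hρ k (Finset.mem_range.1 hk); positivity)
          (Finset.mem_range.2 hk)
      linarith
  obtain ⟨S₀, hS₀, hmain⟩ := hN U 3 (2 * ρ c) C₁ η (by norm_num) (by positivity) hηpos
    (fun Z hZ => hU1' Z (by
      have h1 : |Z| ≤ |Z - 1| + 1 := by
        have := abs_add_le (Z - 1) 1
        rw [sub_add_cancel, abs_one] at this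
        exact this
      linarith)) hL1 hL2 hC₁'
  obtain ⟨S, hSS₀, hSδ⟩ : ∃ S : ℝ, S₀ ≤ S ∧ C₁ < S / q * δ := by
    refine ⟨max S₀ ((C₁ + 1) * q / δ), le_max_left _ _, ?_⟩
    have h1 : (C₁ + 1) * q / δ / q * δ = C₁ + 1 := by field_simp
    have h2 : (C₁ + 1) * q / δ / q * δ ≤ max S₀ ((C₁ + 1) * q / δ) / q * δ := by
      refine mul_le_mul_of_nonneg_right ?_ hδ.le
      exact div_le_div_of_nonneg_right (le_max_right _ _) hq'.le
    linarith
  have hSpos : 0 < S := lt_of_lt_of_le hS₀ hSS₀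
  let cand : ℕ → Prop := fun j => ∃ l : ℤ,
    ((((j / ℓ : ℕ) : ℤ) * p - l * q : ℤ) : ℝ) = (q : ℝ) * (Y (j % ℓ) - Y c)
  let b : ℕ → ℝ := fun k => Nat.rec (ρ c) (fun k bk =>
    if cand k then act U (ρ (k % ℓ)) (ε (k % ℓ)) 0 bk - η else bk) k
  have hb0 : b 0 = ρ c := rfl
  have hbs : ∀ k, b (k + 1) =
      if cand k then act U (ρ (k % ℓ)) (ε (k % ℓ)) 0 (b k) - η else b k := fun k => rfl
  have hoff : ∀ (k : ℕ) (l : ℤ),
      S * ((((0 : ℤ) : ℝ) + ((k / ℓ : ℕ) : ℝ)) * ((p : ℝ) / q) - l - (Y (k % ℓ) - Y c)) =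
      S / q * (((((k / ℓ : ℕ) : ℤ) * p - l * q : ℤ) : ℝ) - (q : ℝ) * (Y (k % ℓ) - Y c)) := by
    intro k l
    generalize k / ℓ = t
    generalize Y (k % ℓ) - Y c = y
    push_cast
    field_simp
    ring
  have hmod : ∀ k, k % ℓ < ℓ := fun k => Nat.mod_lt k hℓ
  have hoff0 : ∀ (k : ℕ) (l : ℤ),
      |S * ((((0 : ℤ) : ℝ) + ((k / ℓ : ℕ) : ℝ)) * ((p : ℝ) / q) - l - (Y (k % ℓ) - Y c))| ≤ C₁ →
      ((((k / ℓ : ℕ) : ℤ) * p - l * q : ℤ) : ℝ) = (q : ℝ) * (Y (k % ℓ) - Y c) := by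
    intro k l h
    rw [hoff] at h
    rcases hδ' (k % ℓ) (hmod k) (((k / ℓ : ℕ) : ℤ) * p - l * q) with h1 | h1
    · exact h1
    · exfalso
      rw [abs_mul, abs_of_pos (by positivity : 0 < S / q)] at h
      have h2 : S / q * δ ≤ S / q *
          |(((((k / ℓ : ℕ) : ℤ) * p - l * q : ℤ) : ℝ) - (q : ℝ) * (Y (k % ℓ) - Y c))| :=
        mul_le_mul_of_nonneg_left h1 (by positivity)
      linarith
  -- visited members
  let V : ℕ → Finset ℕ := fun k => (Finset.range k).filter (fun j => cand j ∧ Rl (j % ℓ))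
  let W : ℕ → Finset ℕ := fun k => (Finset.range k).filter (fun j => cand j)
  have hinj : ∀ j j', j < q * ℓ → j' < q * ℓ → cand j → cand j' → j % ℓ = j' % ℓ → j = j' := by
    intro j j' hj hj' h1 h2 h3
    obtain ⟨l, hl⟩ := h1
    obtain ⟨l', hl'⟩ := h2
    rw [h3, ← hl'] at hl
    have h4 : (((j / ℓ : ℕ) : ℤ) * p - l * q : ℤ) = (((j' / ℓ : ℕ) : ℤ) * p - l' * q : ℤ) := by
      exact_mod_cast hl
    have h5 : j / ℓ = j' / ℓ := cr_unique p q hpq _ _
      ((Nat.div_lt_iff_lt_mul hℓ).2 hj) ((Nat.div_lt_iff_lt_mul hℓ).2 hj') l l' h4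
    rw [← Nat.div_add_mod j ℓ, ← Nat.div_add_mod j' ℓ, h3, h5]
  have hVcard : ∀ k, k ≤ q * ℓ → (V k).card ≤ ℓ := by
    intro k hk
    have h1 : (V k).card ≤ (Finset.range ℓ).card := by
      refine Finset.card_le_card_of_injOn (fun j => j % ℓ) ?_ ?_
      · intro j _
        exact Finset.mem_coe.2 (Finset.mem_range.2 (hmod j))
      · intro j hj j' hj' h
        have h2 := Finset.mem_filter.1 (Finset.mem_coe.1 hj)
        have h3 := Finset.mem_filter.1 (Finset.mem_coe.1 hj')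
        exact hinj j j' (lt_of_lt_of_le (Finset.mem_range.1 h2.1) hk)
          (lt_of_lt_of_le (Finset.mem_range.1 h3.1) hk) h2.2.1 h3.2.1 h
    rwa [Finset.card_range] at h1
  have hεabs : ∀ k, |(ε k : ℝ)| ≤ 1 := by
    intro k
    rcases hε k with h | h | h <;> rw [h] <;> simp
  have hVsum : ∀ k, k ≤ q * ℓ → |∑ j ∈ V k, (ε (j % ℓ) : ℝ)| ≤ ℓ := by
    intro k hk
    calc |∑ j ∈ V k, (ε (j % ℓ) : ℝ)| ≤ ∑ j ∈ V k, |(ε (j % ℓ) : ℝ)| :=
          Finset.abs_sum_le_sum_abs _ _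
      _ ≤ ∑ j ∈ V k, (1 : ℝ) := Finset.sum_le_sum (fun j _ => hεabs _)
      _ = (V k).card := by rw [Finset.sum_const, nsmul_eq_mul, mul_one]
      _ ≤ ℓ := by exact_mod_cast hVcard k hk
  have hWcard : ∀ k, k ≤ q * ℓ → ((W k).card : ℝ) ≤ q * ℓ := by
    intro k hk
    have h1 : (W k).card ≤ k := by
      have := Finset.card_filter_le (Finset.range k) (fun j => cand j)
      rwa [Finset.card_range] at this
    exact_mod_cast h1.trans hk
  have hform : ∀ k, k ≤ q * ℓ →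
      b k = ρ c + ρ c * d * (∑ j ∈ V k, (ε (j % ℓ) : ℝ)) - η * (W k).card := by
    intro k
    induction k with
    | zero =>
      intro _
      simp [V, W, hb0]
    | succ k ih =>
      intro hk
      have hk' : k ≤ q * ℓ := (Nat.le_succ k).trans hk
      have ihk := ih hk'
      have hbd : |b k - ρ c| ≤ ((ℓ : ℝ) + 1) * ρ c * x := by
        rw [ihk]
        have h1 := hVsum k hk'
        have h2 := hWcard k hk'
        have h3 : |ρ c + ρ c * d * (∑ j ∈ V k, (ε (j % ℓ) : ℝ)) - η * (W k).card - ρ c| ≤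
            |ρ c * d * (∑ j ∈ V k, (ε (j % ℓ) : ℝ))| + |η * (W k).card| := by
          have h4 := abs_sub (ρ c * d * (∑ j ∈ V k, (ε (j % ℓ) : ℝ))) (η * (W k).card)
          have h5 : ρ c + ρ c * d * (∑ j ∈ V k, (ε (j % ℓ) : ℝ)) - η * (W k).card - ρ c =
            ρ c * d * (∑ j ∈ V k, (ε (j % ℓ) : ℝ)) - η * (W k).card := by ring
          rw [h5]
          exact h4
        have h4 : |ρ c * d * (∑ j ∈ V k, (ε (j % ℓ) : ℝ))| ≤ ρ c * x * ℓ := by
          rw [abs_mul, abs_mul, hd, abs_of_pos hρc]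
          exact mul_le_mul_of_nonneg_left h1 (by positivity)
        have h5 : |η * (W k).card| ≤ ρ c * x := by
          rw [abs_of_nonneg (by positivity)]
          have : η * (W k).card ≤ η * (q * ℓ) := mul_le_mul_of_nonneg_left h2 hηpos.le
          linarith
        calc _ ≤ _ := h3
          _ ≤ ρ c * x * ℓ + ρ c * x := add_le_add h4 h5
          _ = ((ℓ : ℝ) + 1) * ρ c * x := by ring
      rw [hbs]
      by_cases hc : cand k
      · rw [if_pos hc]
        have hW : ((W (k + 1)).card : ℝ) = (W k).card + 1 := by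
          have : W (k + 1) = insert k (W k) := by
            show (Finset.range (k + 1)).filter (fun j => cand j) = _
            rw [Finset.range_add_one, Finset.filter_insert, if_pos hc]
          rw [this, Finset.card_insert_of_notMem (by
            intro h
            exact absurd (Finset.mem_range.1 (Finset.mem_filter.1 h).1) (lt_irrefl k))]
          push_cast
          ring
        by_cases hr : ρ (k % ℓ) = ρ c
        · have hR : Rl (k % ℓ) := by
            rw [hRl]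
            obtain ⟨l, hl⟩ := hc
            exact ⟨hr, _, hl.symm⟩
          have hV : V (k + 1) = insert k (V k) := by
            show (Finset.range (k + 1)).filter (fun j => cand j ∧ Rl (j % ℓ)) = _
            rw [Finset.range_add_one, Finset.filter_insert, if_pos ⟨hc, hR⟩]
          have hact : act U (ρ (k % ℓ)) (ε (k % ℓ)) 0 (b k) =
              b k + ρ (k % ℓ) * (ε (k % ℓ)) * d := by
            refine act_flat U (ρ (k % ℓ)) (ε (k % ℓ)) 0 (b k) 1 (((ℓ : ℝ) + 3) * x) d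
              (by rw [hr]; exact hρc) (hε _) hU2' ?_
            rw [hr, hd, zero_add]
            have h1 : b k / ρ c - 1 = (b k - ρ c) / ρ c := by field_simp
            rw [h1, abs_div, abs_of_pos hρc]
            have h2 : |b k - ρ c| / ρ c ≤ ((ℓ : ℝ) + 1) * x := by
              rw [div_le_iff₀ hρc]
              calc |b k - ρ c| ≤ ((ℓ : ℝ) + 1) * ρ c * x := hbd
                _ = ((ℓ : ℝ) + 1) * x * ρ c := by ring
            linarith
          rw [hact, hV, Finset.sum_insert (by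
            intro h
            exact absurd (Finset.mem_range.1 (Finset.mem_filter.1 h).1) (lt_irrefl k)), hW, ihk, hr]
          ring
        · have hR : ¬ Rl (k % ℓ) := by
            rw [hRl]
            exact fun h => hr h.1
          have hV : V (k + 1) = V k := by
            show (Finset.range (k + 1)).filter (fun j => cand j ∧ Rl (j % ℓ)) = _
            rw [Finset.range_add_one, Finset.filter_insert, if_neg (fun h => hR h.2)]
          have hact : act U (ρ (k % ℓ)) (ε (k % ℓ)) 0 (b k) = b k := by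
            refine act_off U (ρ (k % ℓ)) (ε (k % ℓ)) 0 (b k) (hρ _ (hmod k)) (hε _) ?_
            intro hpos
            refine hU1' _ ?_
            rw [zero_add]
            have h1 : b k / ρ (k % ℓ) - 1 = (b k - ρ (k % ℓ)) / ρ (k % ℓ) := by field_simp
            rw [h1, abs_div, abs_of_pos hpos, le_div_iff₀ hpos]
            have h2 := hxk (k % ℓ) (hmod k) hr
            have h3 : |ρ c - ρ (k % ℓ)| ≤ |b k - ρ c| + |b k - ρ (k % ℓ)| := by
              have h4 := abs_sub (b k - ρ (k % ℓ)) (b k - ρ c)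
              have h5 : b k - ρ (k % ℓ) - (b k - ρ c) = ρ c - ρ (k % ℓ) := by ring
              rw [h5] at h4
              linarith
            nlinarith
          rw [hact, hV, hW, ihk]
          ring
      · rw [if_neg hc]
        have hV : V (k + 1) = V k := by
          show (Finset.range (k + 1)).filter (fun j => cand j ∧ Rl (j % ℓ)) = _
          rw [Finset.range_add_one, Finset.filter_insert, if_neg (fun h => hc h.1)]
        have hW : W (k + 1) = W k := by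
          show (Finset.range (k + 1)).filter (fun j => cand j) = _
          rw [Finset.range_add_one, Finset.filter_insert, if_neg hc]
        rw [hV, hW]
        exact ihk
  have hbB : ∀ k, k ≤ q * ℓ → |b k| ≤ 2 * ρ c := by
    intro k hk
    rw [hform k hk]
    have h1 := hVsum k hk
    have h2 := hWcard k hk
    have h3 : |ρ c * d * (∑ j ∈ V k, (ε (j % ℓ) : ℝ))| ≤ ρ c * x * ℓ := by
      rw [abs_mul, abs_mul, hd, abs_of_pos hρc]
      exact mul_le_mul_of_nonneg_left h1 (by positivity)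
    have h4 : 0 ≤ η * (W k).card := by positivity
    have h5 : η * (W k).card ≤ ρ c * x := by
      have : η * (W k).card ≤ η * (q * ℓ) := mul_le_mul_of_nonneg_left h2 hηpos.le
      linarith
    have h6 : ρ c * x * ℓ + ρ c * x ≤ ρ c := by
      have : ρ c * (((ℓ : ℝ) + 5) * x) ≤ ρ c * 1 := mul_le_mul_of_nonneg_left hx1 hρc.le
      have h7 : 0 < ρ c * x := by positivity
      nlinarith
    rw [abs_le] at h3 ⊢
    constructor <;> linarith [h3.1, h3.2]
  have hfin := hmain S hSS₀ q p hq (by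
    have : (q : ℝ) * ((p : ℝ) / q) = p := by field_simp
    rw [this]) 0 b hbB (by
      intro k hk h
      rw [hbs]
      have hc : ¬ cand k := by
        rintro ⟨l, hl⟩
        have h1 := h l
        rw [hoff, hl, sub_self, mul_zero, abs_zero] at h1
        linarith
      rw [if_neg hc]) (by
      intro k hk l h
      have h1 := hoff0 k l h
      rw [hbs, if_pos ⟨l, h1⟩]
      have h2 : S * ((((0 : ℤ) : ℝ) + ((k / ℓ : ℕ) : ℝ)) * ((p : ℝ) / q) - l -
          (Y (k % ℓ) - Y c)) = 0 := by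
        rw [hoff, h1, sub_self, mul_zero]
      show _ ≤ act U (ρ (k % ℓ)) (ε (k % ℓ)) (S * ((((0 : ℤ) : ℝ) + ((k / ℓ : ℕ) : ℝ)) *
        ((p : ℝ) / q) - l - (Y (k % ℓ) - Y c))) (b k) - η
      rw [h2])
  have hsum : ∑ j ∈ V (q * ℓ), (ε (j % ℓ) : ℝ) = n := by
    rw [hndef, Int.cast_sum]
    refine Finset.sum_nbij (fun j => j % ℓ) ?_ ?_ ?_ ?_
    · intro j hj
      have h1 := Finset.mem_filter.1 hj
      exact Finset.mem_filter.2 ⟨Finset.mem_range.2 (hmod j), h1.2.2⟩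
    · intro j hj j' hj' h
      have h2 := Finset.mem_filter.1 (Finset.mem_coe.1 hj)
      have h3 := Finset.mem_filter.1 (Finset.mem_coe.1 hj')
      exact hinj j j' (Finset.mem_range.1 h2.1) (Finset.mem_range.1 h3.1) h2.2.1 h3.2.1 h
    · intro i hi
      have h1 := Finset.mem_filter.1 (Finset.mem_coe.1 hi)
      have h2 := Finset.mem_range.1 h1.1
      obtain ⟨h3, m, hm⟩ := (hRl i).1 h1.2
      obtain ⟨t, ht, l, hl⟩ := cr_solve p q hq hpq m
      have h4 : (t * ℓ + i) / ℓ = t := by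
        rw [Nat.add_comm, Nat.add_mul_div_right _ _ hℓ, Nat.div_eq_of_lt h2, zero_add]
      have h5 : (t * ℓ + i) % ℓ = i := by
        rw [Nat.add_comm, Nat.add_mul_mod_self_right, Nat.mod_eq_of_lt h2]
      refine ⟨t * ℓ + i, ?_, h5⟩
      refine Finset.mem_coe.2 (Finset.mem_filter.2 ⟨Finset.mem_range.2 ?_, ⟨l, ?_⟩, ?_⟩)
      · calc t * ℓ + i < t * ℓ + ℓ := by omega
          _ = (t + 1) * ℓ := by ring
          _ ≤ q * ℓ := Nat.mul_le_mul_right _ ht
      · rw [h4, h5, hm, hl]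
      · rw [h5]; exact h1.2
    · intro j _
      rfl
  rw [hb0, hform (q * ℓ) le_rfl, hsum] at hfin
  have h1 : S * ((p : ℝ) - q * ((p : ℝ) / q)) = 0 := by
    have : (q : ℝ) * ((p : ℝ) / q) = p := by field_simp
    rw [this, sub_self, mul_zero]
  rw [h1] at hfin
  have h2 : η * (W (q * ℓ)).card ≤ η * (q * ℓ) :=
    mul_le_mul_of_nonneg_left (hWcard _ le_rfl) hηpos.le
  have h3 : ρ c * x ≤ ρ c * d * n := by
    rw [mul_assoc]
    exact mul_le_mul_of_nonneg_left hdn hρc.le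
  linarith

/-- TARGET -/
theorem comb_rat (P : ℤ) (Q : ℕ) (hQ : 0 < Q) (ℓ : ℕ) (ε : ℕ → ℤ) (ρ Y : ℕ → ℝ) (hℓ : 0 < ℓ)
    (hε : ∀ k, ε k = 0 ∨ ε k = 1 ∨ ε k = -1) (hρ : ∀ k, k < ℓ → 0 ≤ ρ k)
    (hne : ∑ k ∈ Finset.range ℓ, (ε k : ℝ) * ρ k ≠ 0) :
    ∃ c, c < ℓ ∧ ¬ NCSS ((P : ℝ) / Q) ℓ ε ρ (fun k => Y k - Y c) := by
  classical
  obtain ⟨p, q, hq, hpq, hPQ⟩ := cr_reduce P Q hQ
  obtain ⟨c, hc, hc0, hn⟩ := cr_class ℓ ε ρ
    (fun k j => ρ k = ρ j ∧ ∃ m : ℤ, (q : ℝ) * (Y k - Y j) = m)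
    (fun i => ⟨rfl, 0, by simp⟩)
    (fun i j h => by
      obtain ⟨h1, m, hm⟩ := h
      refine ⟨h1.symm, -m, ?_⟩
      push_cast
      rw [← hm]
      ring)
    (fun i j k h h' => by
      obtain ⟨h1, m, hm⟩ := h
      obtain ⟨h1', m', hm'⟩ := h'
      refine ⟨h1.trans h1', m + m', ?_⟩
      push_cast
      rw [← hm, ← hm']
      ring)
    (fun i j h => h.1) hne
  refine ⟨c, hc, ?_⟩
  rw [hPQ]
  exact comb_rat_aux p q hq hpq ℓ ε ρ Y hℓ hε hρ
    (fun k => ρ k = ρ c ∧ ∃ m : ℤ, (q : ℝ) * (Y k - Y c) = m) c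
    (lt_of_le_of_ne (hρ c hc) (Ne.symm hc0)) (fun k => Iff.rfl) hn

end Pool.Agent.Helper29.Rot
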