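import Pool.Agent.Helper29.RotDefs

set_option autoImplicit false

open CircleDeg1Lift Set

namespace Pool.Agent.Helper29.Rot

lemma disp_bdd (f : CircleDeg1Lift) : ∃ C : ℝ, ∀ x : ℝ, |f x - x| ≤ C := by
  refine ⟨|f 0| + 1, fun x => ?_⟩
  have h1 := f.map_le_of_map_zero x
  have h2 := f.le_map_of_map_zero x
  have h3 := Int.ceil_lt_add_one x
  have h4 := Int.sub_one_lt_floor x
  have h5 := le_abs_self (f 0)
  have h6 := neg_abs_le (f 0)
  rw [abs_le]; constructor <;> linarith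

lemma disp_bddG (f : G) : ∃ C : ℝ, ∀ x : ℝ, |f x - x| ≤ C := disp_bdd (f : CircleDeg1Lift)

lemma orbit_close (g : G) (ρ : ℝ) (hg : translationNumber (g : CircleDeg1Lift) = ρ) (n : ℕ) :
    |((g ^ n : G) : CircleDeg1Lift) 0 - n * ρ| ≤ 1 := by
  have h := dist_pow_map_zero_mul_translationNumber_le (g : CircleDeg1Lift) n
  rw [hg, Real.dist_eq] at h
  rw [Units.val_pow_eq_pow_val]
  exact h

/-- the telescoped sum -/
lemma tele (g : G) (ρ : ℝ) (hg : translationNumber (g : CircleDeg1Lift) = ρ) (F : G) (σ : ℤ)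
    (hσ : σ = 1 ∨ σ = -1) :
    ∃ C : ℝ, ∀ n : ℕ, |∑ j ∈ Finset.range n,
      ((F : CircleDeg1Lift) ((g ^ j : G) 0) - (F : CircleDeg1Lift) ((g ^ σ : G) ((g ^ j : G) 0)))
      + (σ : ℝ) * (n * ρ)| ≤ C := by
  rcases hσ with rfl | rfl
  · obtain ⟨C, hC⟩ := disp_bdd (F : CircleDeg1Lift)
    refine ⟨|(F : CircleDeg1Lift) 0| + C + 1, fun n => ?_⟩
    have hs : ∑ j ∈ Finset.range n,
      ((F : CircleDeg1Lift) ((g ^ j : G) 0) - (F : CircleDeg1Lift) ((g ^ (1 : ℤ) : G) ((g ^ j : G) 0)))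
      = (F : CircleDeg1Lift) 0 - (F : CircleDeg1Lift) ((g ^ n : G) 0) := by
      induction n with
      | zero => simp
      | succ n ih =>
        rw [Finset.sum_range_succ, ih]
        have : ((g ^ (1 : ℤ) : G) : CircleDeg1Lift) (((g ^ n : G) : CircleDeg1Lift) 0)
            = ((g ^ (n + 1) : G) : CircleDeg1Lift) 0 := by
          rw [zpow_one, pow_succ', Units.val_mul, mul_apply]
        rw [this]; ring
    rw [hs]
    have h1 := hC (((g ^ n : G) : CircleDeg1Lift) 0)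
    have h2 := orbit_close g ρ hg n
    have h5 := le_abs_self ((F : CircleDeg1Lift) 0)
    have h6 := neg_abs_le ((F : CircleDeg1Lift) 0)
    rw [abs_le] at h1 h2 ⊢
    simp only [Int.cast_one, Int.cast_neg]
    constructor <;> linarith [h1.1, h1.2, h2.1, h2.2]
  · obtain ⟨C, hC⟩ := disp_bdd ((F * g⁻¹ : G) : CircleDeg1Lift)
    refine ⟨|((F * g⁻¹ : G) : CircleDeg1Lift) 0| + C + 1, fun n => ?_⟩
    have hs : ∑ j ∈ Finset.range n,
      ((F : CircleDeg1Lift) ((g ^ j : G) 0) - (F : CircleDeg1Lift) ((g ^ (-1 : ℤ) : G) ((g ^ j : G) 0)))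
      = ((F * g⁻¹ : G) : CircleDeg1Lift) ((g ^ n : G) 0) - ((F * g⁻¹ : G) : CircleDeg1Lift) 0 := by
      induction n with
      | zero => simp
      | succ n ih =>
        rw [Finset.sum_range_succ, ih]
        have e1 : (F : CircleDeg1Lift) (((g ^ n : G) : CircleDeg1Lift) 0)
            = ((F * g⁻¹ : G) : CircleDeg1Lift) (((g ^ (n + 1) : G) : CircleDeg1Lift) 0) := by
          rw [← mul_apply, ← mul_apply, ← Units.val_mul, ← Units.val_mul]
          congr 2
          rw [pow_succ']; group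
        have e2 : (F : CircleDeg1Lift) (((g ^ (-1 : ℤ) : G) : CircleDeg1Lift) (((g ^ n : G) : CircleDeg1Lift) 0))
            = ((F * g⁻¹ : G) : CircleDeg1Lift) (((g ^ n : G) : CircleDeg1Lift) 0) := by
          rw [← mul_apply, ← Units.val_mul, zpow_neg_one]
        rw [e1, e2]; ring
    rw [hs]
    have h1 := hC (((g ^ n : G) : CircleDeg1Lift) 0)
    have h2 := orbit_close g ρ hg n
    have h5 := le_abs_self (((F * g⁻¹ : G) : CircleDeg1Lift) 0)
    have h6 := neg_abs_le (((F * g⁻¹ : G) : CircleDeg1Lift) 0)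
    rw [abs_le] at h1 h2 ⊢
    simp only [Int.cast_one, Int.cast_neg]
    constructor <;> linarith [h1.1, h1.2, h2.1, h2.2]

/-- averaging along an orbit -/
lemma avg_lim (g : G) (ρ : ℝ) (hg : translationNumber (g : CircleDeg1Lift) = ρ)
    (S : Finset ℕ) (F : ℕ → G) (σ : ℕ → ℤ) (hσ : ∀ k, σ k = 1 ∨ σ k = -1) (c E : ℝ)
    (h : ∀ x : ℝ, |∑ k ∈ S, ((F k : CircleDeg1Lift) x - (F k : CircleDeg1Lift) ((g ^ σ k : G) x)) - c| ≤ E) :
    |(-((∑ k ∈ S, (σ k : ℝ)) * ρ)) - c| ≤ E := by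
  choose C hC using fun k => tele g ρ hg (F k) (σ k) (hσ k)
  set K : ℝ := ∑ k ∈ S, C k with hK
  have key : ∀ n : ℕ, (n : ℝ) * |(-((∑ k ∈ S, (σ k : ℝ)) * ρ)) - c| ≤ n * E + K := by
    intro n
    have h1 : |∑ j ∈ Finset.range n, (∑ k ∈ S, ((F k : CircleDeg1Lift) ((g ^ j : G) 0)
        - (F k : CircleDeg1Lift) ((g ^ σ k : G) ((g ^ j : G) 0))) - c)| ≤ n * E := by
      calc _ ≤ ∑ j ∈ Finset.range n, |∑ k ∈ S, ((F k : CircleDeg1Lift) ((g ^ j : G) 0)
        - (F k : CircleDeg1Lift) ((g ^ σ k : G) ((g ^ j : G) 0))) - c| := Finset.abs_sum_le_sum_abs _ _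
        _ ≤ ∑ j ∈ Finset.range n, E := Finset.sum_le_sum fun j _ => h _
        _ = n * E := by simp
    have h2 : |∑ k ∈ S, (∑ j ∈ Finset.range n, ((F k : CircleDeg1Lift) ((g ^ j : G) 0)
        - (F k : CircleDeg1Lift) ((g ^ σ k : G) ((g ^ j : G) 0))) + (σ k : ℝ) * (n * ρ))| ≤ K := by
      calc _ ≤ ∑ k ∈ S, |∑ j ∈ Finset.range n, ((F k : CircleDeg1Lift) ((g ^ j : G) 0)
        - (F k : CircleDeg1Lift) ((g ^ σ k : G) ((g ^ j : G) 0))) + (σ k : ℝ) * (n * ρ)| :=
            Finset.abs_sum_le_sum_abs _ _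
        _ ≤ K := Finset.sum_le_sum fun k _ => hC k n
    rw [Finset.sum_sub_distrib, Finset.sum_comm] at h1
    rw [Finset.sum_add_distrib, ← Finset.sum_mul] at h2
    simp only [Finset.sum_const, Finset.card_range, nsmul_eq_mul] at h1
    have h3 : (n : ℝ) * |(-((∑ k ∈ S, (σ k : ℝ)) * ρ)) - c|
        = |(n : ℝ) * ((-((∑ k ∈ S, (σ k : ℝ)) * ρ)) - c)| := by
      rw [abs_mul, Nat.abs_cast]
    rw [h3]
    set T := ∑ k ∈ S, ∑ j ∈ Finset.range n, ((F k : CircleDeg1Lift) ((g ^ j : G) 0)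
        - (F k : CircleDeg1Lift) ((g ^ σ k : G) ((g ^ j : G) 0)))
    set P := ∑ k ∈ S, (σ k : ℝ)
    rw [abs_le] at h1 h2 ⊢
    constructor <;> nlinarith [h1.1, h1.2, h2.1, h2.2]
  by_contra hcon
  push Not at hcon
  obtain ⟨n, hn⟩ := exists_nat_gt (K / (|(-((∑ k ∈ S, (σ k : ℝ)) * ρ)) - c| - E))
  have hpos : 0 < |(-((∑ k ∈ S, (σ k : ℝ)) * ρ)) - c| - E := by linarith
  rw [div_lt_iff₀ hpos] at hn
  have := key n
  nlinarith

/-- TARGET 1: average identity for arbitrary rotation numbers (compare D(x) = ∑ ε_k f_k(x) along an orbit of `A`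
and along an orbit of `B`). -/
theorem avg_identity_real (ℓ : ℕ) (hℓ : 0 < ℓ) (A B : G) (r s : ℝ)
    (hA : translationNumber (A : CircleDeg1Lift) = r) (hB : translationNumber (B : CircleDeg1Lift) = s)
    (cls : ℕ → Bool) (σ : ℕ → ℤ) (hσ : ∀ k, σ k = 1 ∨ σ k = -1) (g : ℕ → G)
    (hg : ∀ k, g k = if cls k then A ^ (σ k) else B ^ (σ k))
    (f : ℕ → G) (t κ : ℝ)
    (h1 : ∀ k, k + 1 < ℓ → ∀ x : ℝ, f (k + 1) (g k x) = f k x)
    (h2 : ∀ x : ℝ, |f 0 (g (ℓ - 1) x) - f (ℓ - 1) x - t| ≤ κ)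
    (cst η : ℝ)
    (hD : ∀ x : ℝ, |∑ k ∈ Finset.range ℓ,
      ((expo ℓ (fun j => if cls j then 1 else 0) k : ℤ) : ℝ) * f k x - cst| ≤ η) :
    |t - ((∑ k ∈ Finset.range ℓ, if cls k then (σ k : ℝ) else 0) * r
        + (∑ k ∈ Finset.range ℓ, if cls k then 0 else (σ k : ℝ)) * s)| ≤ 2 * η + 2 * κ := by
  obtain ⟨m, rfl⟩ : ∃ m, ℓ = m + 1 := ⟨ℓ - 1, by omega⟩
  simp only [Nat.add_sub_cancel] at h2
  -- cyclic shift
  let Fc : ℕ → G := fun k => if k < m then f (k + 1) else f 0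
  have hFc1 : ∀ k, k < m → Fc k = f (k + 1) := fun k hk => by simp [Fc, hk]
  have hFc2 : Fc m = f 0 := by simp [Fc]
  have hκ : 0 ≤ κ := le_trans (abs_nonneg _) (h2 0)
  -- rearrangement of D
  have hDeq : ∀ x : ℝ, ∑ k ∈ Finset.range (m + 1),
      ((expo (m + 1) (fun j => if cls j then 1 else 0) k : ℤ) : ℝ) * f k x
      = ∑ k ∈ Finset.range (m + 1), (if cls k then (1 : ℝ) else 0) * (Fc k x - f k x) := by
    intro x
    have e1 : ∀ k, ((expo (m + 1) (fun j => if cls j then 1 else 0) k : ℤ) : ℝ) * f k x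
        = (if k = 0 then (if cls m then (1 : ℝ) else 0) else (if cls (k - 1) then (1 : ℝ) else 0)) * f k x
          - (if cls k then (1 : ℝ) else 0) * f k x := by
      intro k
      simp only [expo, Nat.add_sub_cancel]
      push_cast
      rw [sub_mul]
    rw [Finset.sum_congr rfl fun k _ => e1 k, Finset.sum_sub_distrib]
    simp only [mul_sub]
    rw [Finset.sum_sub_distrib]
    congr 1
    rw [Finset.sum_range_succ', Finset.sum_range_succ, hFc2]
    simp only [if_true, Nat.add_sub_cancel, Nat.add_eq_zero_iff, one_ne_zero, and_false, if_false]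
    congr 1
    refine Finset.sum_congr rfl fun k hk => ?_
    rw [hFc1 k (Finset.mem_range.1 hk)]
  have hcyc : ∀ x : ℝ, ∑ k ∈ Finset.range (m + 1), (Fc k x - f k x) = 0 := by
    intro x
    rw [Finset.sum_sub_distrib, Finset.sum_range_succ, Finset.sum_range_succ' (fun k => (f k : CircleDeg1Lift) x),
      hFc2]
    rw [Finset.sum_congr rfl fun k hk => by rw [hFc1 k (Finset.mem_range.1 hk)]]
    ring
  -- the shift relation
  have hshift : ∀ k, k < m → ∀ x : ℝ, Fc k x - f k x = Fc k x - Fc k (g k x) := by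
    intro k hk x
    rw [hFc1 k hk, h1 k (by omega) x]
  have hshift2 : ∀ x : ℝ, |(Fc m x - f m x) - ((Fc m x - Fc m (g m x)) + t)| ≤ κ := by
    intro x
    rw [hFc2]
    have := h2 x
    have e : (f 0 x - f m x : ℝ) - ((f 0 x - f 0 (g m x)) + t) = f 0 (g m x) - f m x - t := by ring
    rw [e]; exact this
  -- general comparison: for any weights w ∈ {0,1}
  have hcomp : ∀ (w : ℕ → ℝ), (∀ k, w k = 0 ∨ w k = 1) → ∀ x : ℝ,
      |∑ k ∈ Finset.range (m + 1), w k * (Fc k x - f k x)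
        - (∑ k ∈ Finset.range (m + 1), w k * (Fc k x - Fc k (g k x)) + w m * t)| ≤ w m * κ := by
    intro w hw x
    rw [Finset.sum_range_succ, Finset.sum_range_succ]
    rw [Finset.sum_congr rfl fun k hk => by rw [hshift k (Finset.mem_range.1 hk) x]]
    have e : ∀ S a b : ℝ, S + w m * a - (S + w m * b + w m * t) = w m * (a - (b + t)) := by
      intro S a b; ring
    rw [e, abs_mul]
    have hwm : 0 ≤ w m := by rcases hw m with h | h <;> rw [h] <;> norm_num
    rw [abs_of_nonneg hwm]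
    exact mul_le_mul_of_nonneg_left (hshift2 x) hwm
  -- A part
  have hAp : |(-((∑ k ∈ (Finset.range (m + 1)).filter (fun k => cls k = true), (σ k : ℝ)) * r))
      - (cst - (if cls m then (1 : ℝ) else 0) * t)| ≤ η + (if cls m then (1 : ℝ) else 0) * κ := by
    apply avg_lim A r hA _ Fc σ hσ
    intro x
    have hc := hcomp (fun k => if cls k then (1 : ℝ) else 0)
      (fun k => by by_cases h : cls k <;> simp [h]) x
    have hd := hD x
    rw [hDeq x] at hd
    have e : ∑ k ∈ (Finset.range (m + 1)).filter (fun k => cls k = true),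
        ((Fc k : CircleDeg1Lift) x - (Fc k : CircleDeg1Lift) ((A ^ σ k : G) x))
        = ∑ k ∈ Finset.range (m + 1), (if cls k then (1 : ℝ) else 0) * (Fc k x - Fc k (g k x)) := by
      rw [Finset.sum_filter]
      refine Finset.sum_congr rfl fun k _ => ?_
      by_cases h : cls k = true
      · rw [hg k]; simp [h]
      · simp [h]
    rw [e]
    rw [abs_le] at hc hd ⊢
    constructor <;> linarith [hc.1, hc.2, hd.1, hd.2]
  have hBp : |(-((∑ k ∈ (Finset.range (m + 1)).filter (fun k => ¬ cls k = true), (σ k : ℝ)) * s))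
      - (- cst - (if cls m then (0 : ℝ) else 1) * t)| ≤ η + (if cls m then (0 : ℝ) else 1) * κ := by
    apply avg_lim B s hB _ Fc σ hσ
    intro x
    have hc := hcomp (fun k => if cls k then (0 : ℝ) else 1)
      (fun k => by by_cases h : cls k <;> simp [h]) x
    have hd := hD x
    rw [hDeq x] at hd
    have hcy := hcyc x
    have e : ∑ k ∈ (Finset.range (m + 1)).filter (fun k => ¬ cls k = true),
        ((Fc k : CircleDeg1Lift) x - (Fc k : CircleDeg1Lift) ((B ^ σ k : G) x))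
        = ∑ k ∈ Finset.range (m + 1), (if cls k then (0 : ℝ) else 1) * (Fc k x - Fc k (g k x)) := by
      rw [Finset.sum_filter]
      refine Finset.sum_congr rfl fun k _ => ?_
      by_cases h : cls k = true
      · simp [h]
      · rw [hg k]; simp [h]
    have e2 : ∑ k ∈ Finset.range (m + 1), (if cls k then (0 : ℝ) else 1) * (Fc k x - f k x)
        + ∑ k ∈ Finset.range (m + 1), (if cls k then (1 : ℝ) else 0) * (Fc k x - f k x) = 0 := by
      rw [← Finset.sum_add_distrib]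
      refine Eq.trans (Finset.sum_congr rfl fun k _ => ?_) hcy
      by_cases h : cls k = true <;> simp [h]
    rw [e]
    rw [abs_le] at hc hd ⊢
    constructor <;> linarith [hc.1, hc.2, hd.1, hd.2]
  have eA : (∑ k ∈ Finset.range (m + 1), if cls k then (σ k : ℝ) else 0)
      = ∑ k ∈ (Finset.range (m + 1)).filter (fun k => cls k = true), (σ k : ℝ) := by
    rw [Finset.sum_filter]
  have eB : (∑ k ∈ Finset.range (m + 1), if cls k then 0 else (σ k : ℝ))
      = ∑ k ∈ (Finset.range (m + 1)).filter (fun k => ¬ cls k = true), (σ k : ℝ) := by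
    rw [Finset.sum_filter]
    refine Finset.sum_congr rfl fun k _ => ?_
    by_cases h : cls k = true <;> simp [h]
  rw [eA, eB]
  set PA := ∑ k ∈ (Finset.range (m + 1)).filter (fun k => cls k = true), (σ k : ℝ)
  set PB := ∑ k ∈ (Finset.range (m + 1)).filter (fun k => ¬ cls k = true), (σ k : ℝ)
  by_cases h : cls m = true
  · simp only [h, if_true] at hAp hBp
    rw [abs_le] at hAp hBp ⊢
    constructor <;> linarith [hAp.1, hAp.2, hBp.1, hBp.2]
  · simp only [h] at hAp hBp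
    rw [abs_le] at hAp hBp ⊢
    simp only [Bool.false_eq_true, if_false] at hAp hBp
    constructor <;> linarith [hAp.1, hAp.2, hBp.1, hBp.2]

/-- TARGET 2 -/
theorem limit_of_const (θ r s : ℝ) (ℓ : ℕ) (hℓ : 0 < ℓ) (A B : ℕ → G)
    (hA : ∀ n : ℕ, |translationNumber (A n : CircleDeg1Lift) - r| ≤ 1 / ((n : ℝ) + 1))
    (hB : ∀ n : ℕ, |translationNumber (B n : CircleDeg1Lift) - s| ≤ 1 / ((n : ℝ) + 1))
    (cls : ℕ → Bool) (σ : ℕ → ℤ) (hσ : ∀ k, σ k = 1 ∨ σ k = -1) (g : ℕ → ℕ → G)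
    (hg : ∀ n k, g n k = if cls k then A n ^ (σ k) else B n ^ (σ k))
    (f : ℕ → ℕ → G) (t : ℕ → ℝ) (F : ℕ → ℝ → ℝ)
    (h1 : ∀ n k, k + 1 < ℓ → ∀ x : ℝ, f n (k + 1) (g n k x) = f n k x)
    (h2 : ∀ n, ∀ x : ℝ, |f n 0 (g n (ℓ - 1) x) - f n (ℓ - 1) x - t n| ≤ 1 / ((n : ℝ) + 1))
    (ht : ∀ n : ℕ, θ - 1 / ((n : ℝ) + 1) ≤ t n) (ht' : ∀ n : ℕ, t n ≤ θ)
    (hF : ∀ η : ℝ, 0 < η → ∀ n₀ : ℕ, ∃ n, n₀ ≤ n ∧ ∀ k, k < ℓ → ∀ x : ℝ,
      |f n k x - F k x| ≤ η)
    (hc : ∀ x y, ∑ k ∈ Finset.range ℓ,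
        ((expo ℓ (fun j => if cls j then 1 else 0) k : ℤ) : ℝ) * F k x
      = ∑ k ∈ Finset.range ℓ,
        ((expo ℓ (fun j => if cls j then 1 else 0) k : ℤ) : ℝ) * F k y) :
    θ = (∑ k ∈ Finset.range ℓ, if cls k then (σ k : ℝ) else 0) * r
        + (∑ k ∈ Finset.range ℓ, if cls k then 0 else (σ k : ℝ)) * s := by
  set PA := (∑ k ∈ Finset.range ℓ, if cls k then (σ k : ℝ) else 0) with hPA
  set PB := (∑ k ∈ Finset.range ℓ, if cls k then 0 else (σ k : ℝ)) with hPB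
  set cst := ∑ k ∈ Finset.range ℓ,
        ((expo ℓ (fun j => if cls j then 1 else 0) k : ℤ) : ℝ) * F k 0 with hcst
  set W := ∑ k ∈ Finset.range ℓ, |((expo ℓ (fun j => if cls j then 1 else 0) k : ℤ) : ℝ)| with hW
  have hW0 : 0 ≤ W := Finset.sum_nonneg fun _ _ => abs_nonneg _
  have key : ∀ ε : ℝ, 0 < ε → |θ - (PA * r + PB * s)| ≤ ε := by
    intro ε hε
    obtain ⟨n₀, hn₀⟩ := exists_nat_gt ((3 + |PA| + |PB|) / (ε / 2))
    have hη : 0 < ε / (4 * (W + 1)) := by positivity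
    obtain ⟨n, hn, hfn⟩ := hF _ hη n₀
    have hD : ∀ x : ℝ, |∑ k ∈ Finset.range ℓ,
      ((expo ℓ (fun j => if cls j then 1 else 0) k : ℤ) : ℝ) * f n k x - cst| ≤ W * (ε / (4 * (W + 1))) := by
      intro x
      rw [hcst, ← hc x 0, ← Finset.sum_sub_distrib]
      refine le_trans (Finset.abs_sum_le_sum_abs _ _) ?_
      rw [hW, Finset.sum_mul]
      refine Finset.sum_le_sum fun k hk => ?_
      rw [← mul_sub, abs_mul]
      exact mul_le_mul_of_nonneg_left (hfn k (Finset.mem_range.1 hk) x) (abs_nonneg _)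
    have hT := avg_identity_real ℓ hℓ (A n) (B n) _ _ rfl rfl cls σ hσ (g n) (hg n) (f n) (t n)
      (1 / ((n : ℝ) + 1)) (h1 n) (h2 n) cst _ hD
    rw [← hPA, ← hPB] at hT
    set a := translationNumber (A n : CircleDeg1Lift)
    set b := translationNumber (B n : CircleDeg1Lift)
    have ha := hA n
    have hb := hB n
    have hpa : |PA * (a - r)| ≤ |PA| * (1 / ((n : ℝ) + 1)) := by
      rw [abs_mul]; exact mul_le_mul_of_nonneg_left ha (abs_nonneg _)
    have hpb : |PB * (b - s)| ≤ |PB| * (1 / ((n : ℝ) + 1)) := by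
      rw [abs_mul]; exact mul_le_mul_of_nonneg_left hb (abs_nonneg _)
    have htn : |θ - t n| ≤ 1 / ((n : ℝ) + 1) := by
      rw [abs_le]; constructor
      · have := ht' n
        have : (0 : ℝ) ≤ 1 / ((n : ℝ) + 1) := by positivity
        linarith [ht' n]
      · linarith [ht n]
    have hWb : W * (ε / (4 * (W + 1))) ≤ ε / 4 := by
      have : W * (ε / (4 * (W + 1))) = (ε / 4) * (W / (W + 1)) := by field_simp
      rw [this]
      have h1 : W / (W + 1) ≤ 1 := by rw [div_le_one (by linarith)]; linarith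
      nlinarith
    have hsmall : (3 + |PA| + |PB|) * (1 / ((n : ℝ) + 1)) ≤ ε / 2 := by
      rw [div_lt_iff₀ (by linarith)] at hn₀
      rw [mul_one_div, div_le_iff₀ (by positivity)]
      have : (n₀ : ℝ) ≤ n := by exact_mod_cast hn
      nlinarith
    have e : θ - (PA * r + PB * s) = (θ - t n) + (t n - (PA * a + PB * b)) + PA * (a - r) + PB * (b - s) := by
      ring
    rw [e]
    rw [abs_le] at hpa hpb htn hT ⊢
    constructor <;> nlinarith [hpa.1, hpa.2, hpb.1, hpb.2, htn.1, htn.2, hT.1, hT.2]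
  have h0 : |θ - (PA * r + PB * s)| ≤ 0 := le_of_forall_pos_le_add (by simpa using key)
  have := abs_nonpos_iff.1 h0
  linarith

end Pool.Agent.Helper29.Rot
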