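import Pool.Agent.Helper29.RotFin
import Pool.Agent.Helper29.RotS1
import Pool.Agent.Helper29.RotS3
import Pool.Agent.Helper29.RotS4

set_option autoImplicit false

open CircleDeg1Lift Set

namespace Pool.Agent.Helper29.Rot

/-- class of the letters: `true` for `a` -/
def wcls (w : FreeGroup (Fin 2)) (k : ℕ) : Bool :=
  decide ((w.toWord.reverse.getD k (0, true)).1 = 0)

/-- sign of the letters -/
def wsgn (w : FreeGroup (Fin 2)) (k : ℕ) : ℤ :=
  if (w.toWord.reverse.getD k (0, true)).2 then 1 else -1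

theorem slip_zero (θ : ℝ) (ℓ : ℕ) (ε : ℕ → ℤ) (F : ℕ → ℝ → ℝ) (h : SysS θ ℓ ε F)
    (hε : ∀ k, ε k = 0 ∨ ε k = 1 ∨ ε k = -1) (y : ℝ) (ρ : ℕ → ℝ)
    (hder : ∀ k, k < ℓ → HasDerivAt (F k) (ρ k) y) :
    ∑ k ∈ Finset.range ℓ, (ε k : ℝ) * ρ k = 0 := by
  by_contra hne
  have hρ : ∀ k, k < ℓ → 0 ≤ ρ k := by
    intro k hk
    rw [← (hder k hk).deriv]
    exact (h.mono k hk).deriv_nonneg
  by_cases hirr : Irrational θ
  · exact comb θ hirr ℓ ε ρ _ h.pos hε hρ hne (ncs_of_sys θ ℓ ε F h.toSys hε y ρ hder)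
  · unfold Irrational at hirr
    push Not at hirr
    obtain ⟨q, hq⟩ := hirr
    have hq' : θ = (q.num : ℝ) / (q.den : ℕ) := by
      rw [← hq]
      exact_mod_cast (Rat.num_div_den q).symm
    obtain ⟨c, hc, hc'⟩ := comb_rat q.num q.den q.den_pos ℓ ε ρ (fun k => F k y) h.pos hε hρ hne
    apply hc'
    rw [← hq']
    exact ncs_of_sys_S θ ℓ ε (fun k x => F k x - F c y) (h.shift (F c y)) hε y ρ
      (fun k hk => (hder k hk).sub_const _)

theorem slip_core (w : FreeGroup (Fin 2)) (r s θ : ℝ) (hw : 0 < w.toWord.length)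
    (hlt : ∀ ρ : FreeGroup (Fin 2) →* G,
      translationNumber (ρ (FreeGroup.of 0) : CircleDeg1Lift) < r →
      translationNumber (ρ (FreeGroup.of 1) : CircleDeg1Lift) < s →
      translationNumber (ρ w : CircleDeg1Lift) < θ)
    (happ : ∀ n : ℕ, ∃ ρ : FreeGroup (Fin 2) →* G,
      r - 1 / ((n : ℝ) + 1) ≤ translationNumber (ρ (FreeGroup.of 0) : CircleDeg1Lift) ∧
      translationNumber (ρ (FreeGroup.of 0) : CircleDeg1Lift) < r ∧
      s - 1 / ((n : ℝ) + 1) ≤ translationNumber (ρ (FreeGroup.of 1) : CircleDeg1Lift) ∧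
      translationNumber (ρ (FreeGroup.of 1) : CircleDeg1Lift) < s ∧
      θ - 1 / ((n : ℝ) + 1) < translationNumber (ρ w : CircleDeg1Lift)) :
    θ = (∑ k ∈ Finset.range w.toWord.length, if wcls w k then (wsgn w k : ℝ) else 0) * r
        + (∑ k ∈ Finset.range w.toWord.length, if wcls w k then 0 else (wsgn w k : ℝ)) * s := by
  obtain ⟨ℓ, hℓdef⟩ : ∃ ℓ : ℕ, ℓ = w.toWord.length := ⟨_, rfl⟩
  rw [← hℓdef] at hw ⊢
  have hℓ := hw
  have hltw : ∀ A B : G, translationNumber (A : CircleDeg1Lift) < r →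
      translationNumber (B : CircleDeg1Lift) < s →
      translationNumber (prodSeq (j16444_g w A B) ℓ : CircleDeg1Lift) < θ := by
    intro A B hA hB
    have := hlt (FreeGroup.lift ![A, B]) (by rw [FreeGroup.lift_apply_of]; exact hA)
      (by rw [FreeGroup.lift_apply_of]; exact hB)
    rw [j16444_word', ← hℓdef] at this
    simp only [FreeGroup.lift_apply_of] at this
    exact this
  have hex : ∀ n : ℕ, ∃ A B : G, r - 1 / ((n : ℝ) + 1) ≤ translationNumber (A : CircleDeg1Lift) ∧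
      translationNumber (A : CircleDeg1Lift) < r ∧
      s - 1 / ((n : ℝ) + 1) ≤ translationNumber (B : CircleDeg1Lift) ∧
      translationNumber (B : CircleDeg1Lift) < s ∧
      θ - 1 / ((n : ℝ) + 1) < translationNumber (prodSeq (j16444_g w A B) ℓ : CircleDeg1Lift) := by
    intro n
    obtain ⟨ρ, a1, a2, a3, a4, a5⟩ := happ n
    rw [j16444_word' ρ w, ← hℓdef] at a5
    exact ⟨_, _, a1, a2, a3, a4, a5⟩
  choose A' B' hA1 hA2 hB1 hB2 ht' using hex
  have hlev : ∀ n : ℕ, ∃ (ψ : G) (f : ℕ → G),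
      (∀ x : ℝ, ∑ k ∈ Finset.range ℓ, f k x = ℓ * x) ∧
      (∀ k, k + 1 < ℓ → ∀ x : ℝ,
        f (k + 1) ((ψ * j16444_g w (A' n) (B' n) k * ψ⁻¹ : G) x) = f k x) ∧
      (∀ x : ℝ, |f 0 ((ψ * j16444_g w (A' n) (B' n) (ℓ - 1) * ψ⁻¹ : G) x) - f (ℓ - 1) x
        - translationNumber (prodSeq (j16444_g w (A' n) (B' n)) ℓ : CircleDeg1Lift)|
          ≤ 1 / ((n + 1 : ℕ) : ℝ)) ∧
      (∀ k, k < ℓ → ∀ x : ℝ, |f k x - x| ≤ ℓ * (|r| + |s| + 2 + 3)) := by
    intro n
    refine level_functions ℓ (n + 1) hℓ (Nat.succ_pos n) (j16444_g w (A' n) (B' n))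
      (|r| + |s| + 2) ?_
    intro k _
    unfold j16444_g
    have p1 := abs_nonneg r
    have p2 := abs_nonneg s
    have p3 : 1 / ((n : ℝ) + 1) ≤ 1 := by
      rw [div_le_one (by positivity)]
      linarith [Nat.cast_nonneg (α := ℝ) n]
    have hr : |translationNumber (A' n : CircleDeg1Lift)| ≤ |r| + 1 := by
      rw [abs_le]
      have := neg_abs_le r
      have := le_abs_self r
      constructor <;> linarith [hA1 n, hA2 n]
    have hs : |translationNumber (B' n : CircleDeg1Lift)| ≤ |s| + 1 := by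
      rw [abs_le]
      have := neg_abs_le s
      have := le_abs_self s
      constructor <;> linarith [hB1 n, hB2 n]
    split_ifs <;> rw [translationNumber_zpow] <;> push_cast <;>
      simp only [one_mul, neg_mul, abs_neg] <;> linarith
  choose ψ f hf1 hf2 hf3 hf4 using hlev
  obtain ⟨F, hF1, hF2, hF3, hF4⟩ := limit_functions ℓ (ℓ * (|r| + |s| + 2 + 3))
    (fun n k x => f n k x) (fun n k _ => (f n k : CircleDeg1Lift).monotone)
    (fun n k _ x => (f n k : CircleDeg1Lift).map_add_one x)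
    (fun n k hk x y => j16444_lip (hf1 n) hk x y) (fun n k hk x => hf4 n k hk x)
  have hcj : ∀ u A : G, translationNumber ((u * A * u⁻¹ : G) : CircleDeg1Lift) =
      translationNumber (A : CircleDeg1Lift) := by
    intro u A
    have := translationNumber_conj_eq u (A : CircleDeg1Lift)
    rw [← this]
    rfl
  obtain ⟨g, hg⟩ : ∃ g : ℕ → ℕ → G, g = fun n =>
    j16444_g w (ψ n * A' n * (ψ n)⁻¹) (ψ n * B' n * (ψ n)⁻¹) := ⟨_, rfl⟩
  have hg' : ∀ n k, g n k = ψ n * j16444_g w (A' n) (B' n) k * (ψ n)⁻¹ := by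
    intro n k
    rw [hg]
    exact j16444_gconj w _ _ _ k
  obtain ⟨t, ht⟩ : ∃ t : ℕ → ℝ, t = fun n =>
    translationNumber (prodSeq (j16444_g w (A' n) (B' n)) ℓ : CircleDeg1Lift) := ⟨_, rfl⟩
  have h1 : ∀ n k, k + 1 < ℓ → ∀ x : ℝ, f n (k + 1) (g n k x) = f n k x := by
    intro n k hk x
    rw [hg']
    exact hf2 n k hk x
  have h2 : ∀ n, ∀ x : ℝ, |f n 0 (g n (ℓ - 1) x) - f n (ℓ - 1) x - t n| ≤
      1 / ((n : ℝ) + 1) := by
    intro n x
    rw [hg', ht]
    have := hf3 n x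
    push_cast at this
    exact this
  have htl : ∀ n : ℕ, θ - 1 / ((n : ℝ) + 1) ≤ t n := by
    intro n
    rw [ht]
    exact (ht' n).le
  have htu : ∀ n : ℕ, t n ≤ θ := by
    intro n
    rw [ht]
    exact (hltw _ _ (hA2 n) (hB2 n)).le
  have hσ1 : ∀ k, wsgn w k = 1 ∨ wsgn w k = -1 := by
    intro k
    unfold wsgn
    split_ifs
    · exact Or.inl rfl
    · exact Or.inr rfl
  have hgcls : ∀ n k, g n k = if wcls w k then (ψ n * A' n * (ψ n)⁻¹) ^ (wsgn w k)
      else (ψ n * B' n * (ψ n)⁻¹) ^ (wsgn w k) := by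
    intro n k
    rw [hg]
    rfl
  have hle : ∀ (n : ℕ) (u : G), translationNumber
      (prodSeq (fun k => u ^ ((fun j => if wcls w j then (1:ℤ) else 0) k) * g n k *
        u ^ (-(fun j => if wcls w j then (1:ℤ) else 0) k)) ℓ : CircleDeg1Lift) < θ := by
    intro n u
    have h3 := hltw (u * (ψ n * A' n * (ψ n)⁻¹) * u⁻¹) (ψ n * B' n * (ψ n)⁻¹)
      (by rw [hcj, hcj]; exact hA2 n) (by rw [hcj]; exact hB2 n)
    have h4 : prodSeq (fun k => u ^ ((fun j => if wcls w j then (1:ℤ) else 0) k) * g n k *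
        u ^ (-(fun j => if wcls w j then (1:ℤ) else 0) k)) ℓ =
        prodSeq (j16444_g w (u * (ψ n * A' n * (ψ n)⁻¹) * u⁻¹) (ψ n * B' n * (ψ n)⁻¹)) ℓ := by
      refine j16444_congr fun k _ => ?_
      have h5 : j16444_g w (u * (ψ n * A' n * (ψ n)⁻¹) * u⁻¹) (ψ n * B' n * (ψ n)⁻¹) k =
          if wcls w k then (u * (ψ n * A' n * (ψ n)⁻¹) * u⁻¹) ^ (wsgn w k)
          else (ψ n * B' n * (ψ n)⁻¹) ^ (wsgn w k) := rfl
      rw [h5, hgcls]
      simp only
      split_ifs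
      · rw [zpow_one, zpow_neg, zpow_one, conj_zpow (a := u)]
      · rw [zpow_zero, neg_zero, zpow_zero, one_mul, mul_one]
    rw [h4]
    exact h3
  have hnc := nc_of_limit_S θ ℓ hℓ (fun j => if wcls w j then (1:ℤ) else 0) g f t F h1 h2 htl hF1 hF2
    hF3 hF4 hle
  have hsys : SysS θ ℓ (expo ℓ (fun j => if wcls w j then (1:ℤ) else 0)) F :=
    ⟨hℓ, hF1, hF2, hF3, fun u N M hN hM ts q hq => hnc u N M hN hM ts q hq⟩
  have hε : ∀ k, expo ℓ (fun j => if wcls w j then (1:ℤ) else 0) k = 0 ∨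
      expo ℓ (fun j => if wcls w j then (1:ℤ) else 0) k = 1 ∨
      expo ℓ (fun j => if wcls w j then (1:ℤ) else 0) k = -1 := by
    intro k
    unfold expo
    beta_reduce
    split_ifs <;> simp
  have hdz : ∀ (y : ℝ) (ρ : ℕ → ℝ), (∀ k, k < ℓ → HasDerivAt (F k) (ρ k) y) →
      ∑ k ∈ Finset.range ℓ,
        ((expo ℓ (fun j => if wcls w j then (1:ℤ) else 0) k : ℤ) : ℝ) * ρ k = 0 :=
    fun y ρ hρ => slip_zero θ ℓ _ F hsys hε y ρ hρ
  have hconst := const_of_deriv ℓ F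
    (fun k => ((expo ℓ (fun j => if wcls w j then (1:ℤ) else 0) k : ℤ) : ℝ)) ℓ hF3 hdz
  refine limit_of_const θ r s ℓ hℓ (fun n => ψ n * A' n * (ψ n)⁻¹)
    (fun n => ψ n * B' n * (ψ n)⁻¹) ?_ ?_ (wcls w) (wsgn w) hσ1 g hgcls f t F h1 h2 htl
    htu hF4 hconst
  · intro n
    rw [hcj, abs_le]
    have : 0 ≤ 1 / ((n : ℝ) + 1) := by positivity
    constructor <;> linarith [hA1 n, hA2 n]
  · intro n
    rw [hcj, abs_le]
    have : 0 ≤ 1 / ((n : ℝ) + 1) := by positivity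
    constructor <;> linarith [hB1 n, hB2 n]

end Pool.Agent.Helper29.Rot
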