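import Pool.Agent.Helper29.RotS5

set_option autoImplicit false

open CircleDeg1Lift Set

namespace Pool.Agent.Helper29.Rot

/-- positive word -/
def pword (l : List (Fin 2)) : FreeGroup (Fin 2) := (l.map FreeGroup.of).prod

theorem pword_toWord (l : List (Fin 2)) : (pword l).toWord = l.map (fun i => (i, true)) := by
  have h1 : pword l = FreeGroup.mk (l.map (fun i => (i, true))) := by
    induction l with
    | nil => rfl
    | cons x l ih =>
      have : pword (x :: l) = FreeGroup.of x * pword l := by
        simp [pword]
      rw [this, ih]
      rfl
  rw [h1, FreeGroup.toWord_mk]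
  induction l with
  | nil => rfl
  | cons x l ih =>
    have ih' := ih (by
      have : pword (x :: l) = FreeGroup.of x * pword l := by
        simp [pword]
      rw [this] at h1
      have h2 : FreeGroup.mk (List.map (fun i => (i, true)) (x :: l)) =
        FreeGroup.of x * FreeGroup.mk (List.map (fun i => (i, true)) l) := rfl
      rw [h2] at h1
      exact mul_left_cancel h1)
    rw [List.map_cons, FreeGroup.reduce.cons, ih']
    cases l with
    | nil => rfl
    | cons y l => simp

theorem pword_length (l : List (Fin 2)) : (pword l).toWord.length = l.length := by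
  rw [pword_toWord, List.length_map]

theorem sum_getD {α : Type} (L : List α) (d : α) (φ : α → ℝ) :
    ∑ k ∈ Finset.range L.length, φ (L.getD k d) = (L.map φ).sum := by
  induction L with
  | nil => simp
  | cons x L ih =>
    rw [List.length_cons, Finset.sum_range_succ', List.map_cons, List.sum_cons, ← ih, add_comm]
    congr 1

theorem pword_sum_a (l : List (Fin 2)) :
    (∑ k ∈ Finset.range l.length, if wcls (pword l) k then (wsgn (pword l) k : ℝ) else 0)
      = (l.count 0 : ℝ) := by
  have h : ∀ k ∈ Finset.range l.length,
      (if wcls (pword l) k then (wsgn (pword l) k : ℝ) else 0) =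
        (fun x : Fin 2 × Bool => if x.1 = 0 then (if x.2 then (1:ℝ) else -1) else 0)
          (((l.map (fun i => ((i, true) : Fin 2 × Bool))).reverse).getD k (0, true)) := by
    intro k _
    unfold wcls wsgn
    rw [pword_toWord]
    simp only [decide_eq_true_eq]
    split_ifs <;> simp
  rw [Finset.sum_congr rfl h]
  have h2 := sum_getD ((l.map (fun i => ((i, true) : Fin 2 × Bool))).reverse) (0, true)
    (fun x : Fin 2 × Bool => if x.1 = 0 then (if x.2 then (1:ℝ) else -1) else 0)
  rw [List.length_reverse, List.length_map] at h2
  rw [h2, List.map_reverse, List.sum_reverse, List.map_map]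
  clear h h2
  induction l with
  | nil => simp
  | cons x l ih =>
    rw [List.map_cons, List.sum_cons, ih, List.count_cons]
    fin_cases x <;> simp [add_comm]

theorem pword_sum_b (l : List (Fin 2)) :
    (∑ k ∈ Finset.range l.length, if wcls (pword l) k then 0 else (wsgn (pword l) k : ℝ))
      = (l.count 1 : ℝ) := by
  have h : ∀ k ∈ Finset.range l.length,
      (if wcls (pword l) k then 0 else (wsgn (pword l) k : ℝ)) =
        (fun x : Fin 2 × Bool => if x.1 = 0 then 0 else (if x.2 then (1:ℝ) else -1))
          (((l.map (fun i => ((i, true) : Fin 2 × Bool))).reverse).getD k (0, true)) := by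
    intro k _
    unfold wcls wsgn
    rw [pword_toWord]
    simp only [decide_eq_true_eq]
    split_ifs <;> simp
  rw [Finset.sum_congr rfl h]
  have h2 := sum_getD ((l.map (fun i => ((i, true) : Fin 2 × Bool))).reverse) (0, true)
    (fun x : Fin 2 × Bool => if x.1 = 0 then 0 else (if x.2 then (1:ℝ) else -1))
  rw [List.length_reverse, List.length_map] at h2
  rw [h2, List.map_reverse, List.sum_reverse, List.map_map]
  clear h h2
  induction l with
  | nil => simp
  | cons x l ih =>
    rw [List.map_cons, List.sum_cons, ih, List.count_cons]
    fin_cases x <;> simp [add_comm]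

end Pool.Agent.Helper29.Rot
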