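import Pool.Agent.Helper29.RotDefs

set_option autoImplicit false

open CircleDeg1Lift Set

namespace Pool.Agent.Helper29.Rot

theorem ab_cont79 (c : G) : Continuous fun x : ℝ => (c : CircleDeg1Lift) x := by
  have h := (toOrderIso c).continuous
  rwa [coe_toOrderIso] at h

/-- the perturbed representation -/
noncomputable def RR79 (cc : Fin 2 → G) (rr : Fin 2 → ℝ) (δ : ℝ) : FreeGroup (Fin 2) →* G :=
  FreeGroup.lift (fun i => (cc i)⁻¹ * translate (Multiplicative.ofAdd (rr i - δ)) * cc i)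

theorem RR79_of (cc : Fin 2 → G) (rr : Fin 2 → ℝ) (δ : ℝ) (i : Fin 2) :
    RR79 cc rr δ (FreeGroup.of i) =
      (cc i)⁻¹ * translate (Multiplicative.ofAdd (rr i - δ)) * cc i :=
  FreeGroup.lift_apply_of

theorem RR79_cont (cc : Fin 2 → G) (rr : Fin 2 → ℝ) (v : FreeGroup (Fin 2)) :
    Continuous fun p : ℝ × ℝ => ((RR79 cc rr p.1 v : G) : CircleDeg1Lift) p.2 := by
  induction v using FreeGroup.induction_on with
  | C1 =>
    simp only [map_one, Units.val_one, coe_one, id]
    exact continuous_snd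
  | of i =>
    have h : ∀ p : ℝ × ℝ, ((RR79 cc rr p.1 (FreeGroup.of i) : G) : CircleDeg1Lift) p.2 =
        ((cc i)⁻¹ : G) ((rr i - p.1) + (cc i : CircleDeg1Lift) p.2) := by
      intro p
      rw [RR79_of, Units.val_mul, Units.val_mul, mul_apply, mul_apply, CircleDeg1Lift.translate_apply]
    simp only [h]
    exact (ab_cont79 _).comp ((continuous_const.sub continuous_fst).add
      ((ab_cont79 _).comp continuous_snd))
  | inv_of i _ =>
    have h : ∀ p : ℝ × ℝ, ((RR79 cc rr p.1 (FreeGroup.of i)⁻¹ : G) : CircleDeg1Lift) p.2 =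
        ((cc i)⁻¹ : G) (-(rr i - p.1) + (cc i : CircleDeg1Lift) p.2) := by
      intro p
      have e : RR79 cc rr p.1 (FreeGroup.of i)⁻¹ =
          (cc i)⁻¹ * translate (Multiplicative.ofAdd (-(rr i - p.1))) * cc i := by
        rw [map_inv, RR79_of, ofAdd_neg, map_inv]
        group
      rw [e, Units.val_mul, Units.val_mul, mul_apply, mul_apply, CircleDeg1Lift.translate_apply]
    simp only [h]
    exact (ab_cont79 _).comp ((continuous_const.sub continuous_fst).neg.add
      ((ab_cont79 _).comp continuous_snd))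
  | mul u v hu hv =>
    have h : ∀ p : ℝ × ℝ, ((RR79 cc rr p.1 (u * v) : G) : CircleDeg1Lift) p.2 =
        ((RR79 cc rr p.1 u : G) : CircleDeg1Lift) (((RR79 cc rr p.1 v : G) : CircleDeg1Lift) p.2) := by
      intro p
      rw [map_mul, Units.val_mul, mul_apply]
    simp only [h]
    exact hu.comp (continuous_fst.prodMk hv)

theorem RR79_cont0 (cc : Fin 2 → G) (rr : Fin 2 → ℝ) (v : FreeGroup (Fin 2)) (x : ℝ) :
    Continuous fun δ : ℝ => ((RR79 cc rr δ v : G) : CircleDeg1Lift) x := by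
  have h1 : Continuous fun δ : ℝ => ((δ, x) : ℝ × ℝ) := by fun_prop
  have h2 := (RR79_cont cc rr v).comp h1
  exact h2

/-- TARGET -/
theorem approx_below (w : FreeGroup (Fin 2)) (r s θ : ℝ) (hsup : IsLUB (rotSet w r s) θ)
    (e : ℝ) (he : 0 < e) :
    ∃ ρ : FreeGroup (Fin 2) →* G,
      r - e ≤ translationNumber (ρ (FreeGroup.of 0) : CircleDeg1Lift) ∧
      translationNumber (ρ (FreeGroup.of 0) : CircleDeg1Lift) < r ∧
      s - e ≤ translationNumber (ρ (FreeGroup.of 1) : CircleDeg1Lift) ∧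
      translationNumber (ρ (FreeGroup.of 1) : CircleDeg1Lift) < s ∧
      θ - e < translationNumber (ρ w : CircleDeg1Lift) := by
  obtain ⟨t, ⟨ρ0, hr, hs, rfl⟩, ht, -⟩ := hsup.exists_between (show θ - e < θ by linarith)
  obtain ⟨q, hq1, hq2⟩ := exists_rat_btwn ht
  obtain ⟨c, hc⟩ := isConj_iff.1 hr
  obtain ⟨c', hc'⟩ := isConj_iff.1 hs
  set cc : Fin 2 → G := ![c, c'] with hcc
  set rr : Fin 2 → ℝ := ![r, s] with hrr
  have hden : (0 : ℝ) < q.den := by exact_mod_cast q.den_pos
  have hqM : (q : ℝ) * q.den = q.num := by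
    have := Rat.mul_den_eq_num q
    exact_mod_cast this
  have h0 : RR79 cc rr 0 = ρ0 := by
    apply FreeGroup.ext_hom
    intro i
    rw [RR79_of]
    fin_cases i
    · change c⁻¹ * translate (Multiplicative.ofAdd (r - 0)) * c = _
      rw [sub_zero, ← hc]
      simp only [Fin.zero_eta]
      group
    · change c'⁻¹ * translate (Multiplicative.ofAdd (s - 0)) * c' = _
      rw [sub_zero, ← hc']
      simp only [Fin.mk_one]
      group
  have hcont : Continuous fun δ : ℝ => ((RR79 cc rr δ (w ^ q.den) : G) : CircleDeg1Lift) 0 :=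
    RR79_cont0 cc rr _ 0
  have hpow : ∀ ρ : FreeGroup (Fin 2) →* G, translationNumber ((ρ (w ^ q.den) : G) : CircleDeg1Lift)
      = q.den * translationNumber ((ρ w : G) : CircleDeg1Lift) := by
    intro ρ
    rw [map_pow, Units.val_pow_eq_pow_val, translationNumber_pow]
  have hM0 : ((q.num : ℤ) : ℝ) < ((RR79 cc rr 0 (w ^ q.den) : G) : CircleDeg1Lift) 0 := by
    rw [h0]
    have h1 : ((q.num : ℤ) : ℝ) < translationNumber ((ρ0 (w ^ q.den) : G) : CircleDeg1Lift) := by
      rw [hpow, ← hqM]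
      nlinarith
    have h2 := lt_map_of_int_lt_translationNumber _ h1 0
    simpa using h2
  have hev : ∀ᶠ δ in nhdsWithin (0:ℝ) (Ioi 0),
      ((q.num : ℤ) : ℝ) < ((RR79 cc rr δ (w ^ q.den) : G) : CircleDeg1Lift) 0 :=
    ((hcont.tendsto 0).eventually (Ioi_mem_nhds hM0)).filter_mono nhdsWithin_le_nhds
  obtain ⟨δ, hδ1, hδ2⟩ := (hev.and (Ioo_mem_nhdsGT he)).exists
  have hτ : ∀ i, translationNumber ((RR79 cc rr δ (FreeGroup.of i) : G) : CircleDeg1Lift) = rr i - δ := by
    intro i
    rw [RR79_of, Units.val_mul, Units.val_mul, translationNumber_conj_eq', translationNumber_translate]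
  refine ⟨RR79 cc rr δ, ?_, ?_, ?_, ?_, ?_⟩
  · rw [hτ]
    change r - e ≤ r - δ
    linarith [hδ2.2]
  · rw [hτ]
    change r - δ < r
    linarith [hδ2.1]
  · rw [hτ]
    change s - e ≤ s - δ
    linarith [hδ2.2]
  · rw [hτ]
    change s - δ < s
    linarith [hδ2.1]
  · have h3 : ((q.num : ℤ) : ℝ) ≤ translationNumber ((RR79 cc rr δ (w ^ q.den) : G) : CircleDeg1Lift) := by
      by_contra hlt
      have h4 := map_lt_of_translationNumber_lt_int _ (not_le.1 hlt) 0
      rw [zero_add] at h4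
      linarith
    rw [hpow, ← hqM] at h3
    have h5 : (q : ℝ) ≤ translationNumber ((RR79 cc rr δ w : G) : CircleDeg1Lift) := by
      have : (q.den : ℝ) * q ≤ q.den * translationNumber ((RR79 cc rr δ w : G) : CircleDeg1Lift) := by
        linarith
      exact le_of_mul_le_mul_left this hden
    linarith

end Pool.Agent.Helper29.Rot
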