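import Pool.Agent.Helper29.RotS6
import Pool.Agent.Helper29.RotS7a

set_option autoImplicit false

open CircleDeg1Lift Set

namespace Pool.Agent.Helper29.Rot

theorem word_bound_tau (r s : ℝ) (w : FreeGroup (Fin 2)) : ∃ K : ℝ, ∀ ρ : FreeGroup (Fin 2) →* G,
    translationNumber (ρ (FreeGroup.of 0) : CircleDeg1Lift) = r →
    translationNumber (ρ (FreeGroup.of 1) : CircleDeg1Lift) = s →
    ∀ x : ℝ, |(ρ w : CircleDeg1Lift) x - x| ≤ K := by
  have hgen : ∀ i : Fin 2, ∀ ρ : FreeGroup (Fin 2) →* G,
      translationNumber (ρ (FreeGroup.of 0) : CircleDeg1Lift) = r →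
      translationNumber (ρ (FreeGroup.of 1) : CircleDeg1Lift) = s →
      ∀ x : ℝ, |(ρ (FreeGroup.of i) : CircleDeg1Lift) x - x| ≤ |r| + |s| + 1 := by
    intro i ρ h0 h1 x
    have b := unit_bound (ρ (FreeGroup.of i)) x
    have hr := abs_nonneg r
    have hs := abs_nonneg s
    fin_cases i
    · simp only [Fin.zero_eta, Fin.isValue] at b ⊢
      rw [h0] at b
      linarith
    · simp only [Fin.mk_one, Fin.isValue] at b ⊢
      rw [h1] at b
      linarith
  induction w using FreeGroup.induction_on with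
  | C1 =>
    refine ⟨0, fun ρ _ _ x => ?_⟩
    simp
  | of i =>
    exact ⟨|r| + |s| + 1, fun ρ h0 h1 x => hgen i ρ h0 h1 x⟩
  | inv_of i _ =>
    refine ⟨|r| + |s| + 1, fun ρ h0 h1 x => ?_⟩
    have h2 := hgen i ρ h0 h1 (((ρ (FreeGroup.of i))⁻¹ : G) x)
    rw [units_apply_inv_apply] at h2
    rw [map_inv, abs_sub_comm]
    exact h2
  | mul a b ha hb =>
    obtain ⟨K1, h1⟩ := ha
    obtain ⟨K2, h2⟩ := hb
    refine ⟨K1 + K2, fun ρ c0 c1 x => ?_⟩
    rw [map_mul, Units.val_mul, mul_apply]
    have d1 := h1 ρ c0 c1 ((ρ b : CircleDeg1Lift) x)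
    have d2 := h2 ρ c0 c1 x
    have e : (ρ a : CircleDeg1Lift) ((ρ b : CircleDeg1Lift) x) - x =
      ((ρ a : CircleDeg1Lift) ((ρ b : CircleDeg1Lift) x) - (ρ b : CircleDeg1Lift) x) +
        ((ρ b : CircleDeg1Lift) x - x) := by ring
    rw [e]
    exact (abs_add_le _ _).trans (add_le_add d1 d2)

/-- the values of the rotation number of `w` for given rotation numbers of the generators -/
def rotSetMax (w : FreeGroup (Fin 2)) (r s : ℝ) : Set ℝ :=
  {t | ∃ ρ : FreeGroup (Fin 2) →* G,
      translationNumber (ρ (FreeGroup.of 0) : CircleDeg1Lift) = r ∧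
      translationNumber (ρ (FreeGroup.of 1) : CircleDeg1Lift) = s ∧
      t = translationNumber (ρ w : CircleDeg1Lift)}

theorem rotSetMax_bdd (w : FreeGroup (Fin 2)) (r s : ℝ) : BddAbove (rotSetMax w r s) := by
  obtain ⟨K, hK⟩ := word_bound_tau r s w
  refine ⟨K, ?_⟩
  rintro _ ⟨ρ, h0, h1, rfl⟩
  refine translationNumber_le_of_le_add _ fun x => ?_
  have := (abs_le.1 (hK ρ h0 h1 x)).2
  linarith

theorem weak_slippery (l : List (Fin 2)) (r s : ℝ)
    (h : ∀ r' s' : ℝ, r' < r → s' < s →
      sSup (rotSetMax (pword l) r' s') < sSup (rotSet (pword l) r s)) :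
    sSup (rotSet (pword l) r s) = (l.count 0 : ℝ) * r + (l.count 1 : ℝ) * s := by
  have hlt : ∀ ρ : FreeGroup (Fin 2) →* G,
      translationNumber (ρ (FreeGroup.of 0) : CircleDeg1Lift) < r →
      translationNumber (ρ (FreeGroup.of 1) : CircleDeg1Lift) < s →
      translationNumber (ρ (pword l) : CircleDeg1Lift) < sSup (rotSet (pword l) r s) := by
    intro ρ h0 h1
    refine lt_of_le_of_lt ?_ (h _ _ h0 h1)
    exact le_csSup (rotSetMax_bdd _ _ _) ⟨ρ, rfl, rfl, rfl⟩
  rcases Nat.eq_zero_or_pos l.length with h0 | h0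
  · exfalso
    have hl : l = [] := List.length_eq_zero_iff.1 h0
    subst hl
    have e1 : ∀ ρ : FreeGroup (Fin 2) →* G,
        translationNumber (ρ (pword []) : CircleDeg1Lift) = 0 := by
      intro ρ
      have : pword [] = 1 := rfl
      rw [this, map_one, Units.val_one, translationNumber_one]
    have e2 : sSup (rotSet (pword []) r s) = 0 := by
      have e3 : rotSet (pword []) r s = {0} := by
        apply Set.eq_singleton_iff_nonempty_unique_mem.2
        refine ⟨rotSet_nonempty _ _ _, ?_⟩
        rintro t ⟨ρ, _, _, rfl⟩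
        exact e1 ρ
      rw [e3, csSup_singleton]
    have := hlt (FreeGroup.lift ![translate (Multiplicative.ofAdd (r - 1)),
      translate (Multiplicative.ofAdd (s - 1))])
      (by rw [FreeGroup.lift_apply_of]
          show translationNumber (translate (Multiplicative.ofAdd (r - 1)) : CircleDeg1Lift) < r
          rw [translationNumber_translate]
          linarith)
      (by rw [FreeGroup.lift_apply_of]
          show translationNumber (translate (Multiplicative.ofAdd (s - 1)) : CircleDeg1Lift) < s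
          rw [translationNumber_translate]
          linarith)
    rw [e1, e2] at this
    exact lt_irrefl _ this
  · have hlub := isLUB_csSup (rotSet_nonempty (pword l) r s) (rotSet_bddAbove (pword l) r s)
    have := slip_core (pword l) r s (sSup (rotSet (pword l) r s)) (by rw [pword_length]; exact h0)
      hlt (fun n => approx_below (pword l) r s _ hlub (1 / ((n : ℝ) + 1)) (by positivity))
    rw [pword_length, pword_sum_a, pword_sum_b] at this
    exact this

end Pool.Agent.Helper29.Rot
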