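import Mathlib

set_option autoImplicit false

open Set

namespace Pool.Agent.Helper29.Rot

/-- TARGET 1: simultaneous approximation of finitely many reals by a large integer -/
theorem simul_approx (n : ℕ) (ω : ℕ → ℝ) (η : ℝ) (hη : 0 < η) (P₀ : ℕ) :
    ∃ P : ℕ, P₀ ≤ P ∧ ∀ i, i < n → ∃ Δ : ℤ, |ω i * P - Δ| ≤ η := by
  obtain ⟨N, hN⟩ := exists_nat_gt (1 / η)
  have hNpos : (0 : ℝ) < N := lt_trans (by positivity) hN
  have hNη : 1 / (N : ℝ) < η := by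
    rw [div_lt_iff₀ hNpos]
    rw [div_lt_iff₀ hη] at hN
    linarith [mul_comm (N : ℝ) η]
  have hNn : 0 < N := by exact_mod_cast hNpos
  let F : ℕ → (Fin n → Fin N) := fun k i =>
    ⟨⌊Int.fract (ω i * ((k : ℝ) * ((P₀ : ℝ) + 1))) * N⌋₊, by
      rw [Nat.floor_lt (mul_nonneg (Int.fract_nonneg _) hNpos.le)]
      have := Int.fract_lt_one (ω i * ((k : ℝ) * ((P₀ : ℝ) + 1)))
      nlinarith⟩
  obtain ⟨k, k', hne, hF⟩ := Finite.exists_ne_map_eq_of_infinite F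
  wlog hlt : k < k' generalizing k k'
  · exact this k' k hne.symm hF.symm (lt_of_le_of_ne (not_lt.mp hlt) hne.symm)
  refine ⟨(k' - k) * (P₀ + 1), ?_, ?_⟩
  · have : 1 ≤ k' - k := by omega
    nlinarith
  · intro i hi
    have h1 : F k ⟨i, hi⟩ = F k' ⟨i, hi⟩ := by rw [hF]
    have h2 : ⌊Int.fract (ω i * ((k : ℝ) * ((P₀ : ℝ) + 1))) * N⌋₊ =
        ⌊Int.fract (ω i * ((k' : ℝ) * ((P₀ : ℝ) + 1))) * N⌋₊ := congrArg Fin.val h1
    set a := Int.fract (ω i * ((k : ℝ) * ((P₀ : ℝ) + 1))) with ha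
    set b := Int.fract (ω i * ((k' : ℝ) * ((P₀ : ℝ) + 1))) with hb
    have ha0 : 0 ≤ a * N := mul_nonneg (Int.fract_nonneg _) hNpos.le
    have hb0 : 0 ≤ b * N := mul_nonneg (Int.fract_nonneg _) hNpos.le
    have e1 := Nat.floor_le ha0
    have e2 := Nat.lt_floor_add_one (a * N)
    have e3 := Nat.floor_le hb0
    have e4 := Nat.lt_floor_add_one (b * N)
    rw [h2] at e1 e2
    have hab : |(b - a) * N| < 1 := by
      rw [abs_lt]; constructor <;> nlinarith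
    have hab' : |b - a| ≤ η := by
      rw [abs_mul, abs_of_pos hNpos] at hab
      have : |b - a| < 1 / N := by rw [lt_div_iff₀ hNpos]; exact hab
      linarith
    refine ⟨⌊ω i * ((k' : ℝ) * ((P₀ : ℝ) + 1))⌋ - ⌊ω i * ((k : ℝ) * ((P₀ : ℝ) + 1))⌋, ?_⟩
    have hcast : ((((k' - k) * (P₀ + 1) : ℕ)) : ℝ) = ((k' : ℝ) - k) * ((P₀ : ℝ) + 1) := by
      push_cast [Nat.cast_sub hlt.le]; ring
    rw [hcast]
    have e5 : b = ω i * ((k' : ℝ) * ((P₀ : ℝ) + 1)) - ⌊ω i * ((k' : ℝ) * ((P₀ : ℝ) + 1))⌋ := rfl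
    have e6 : a = ω i * ((k : ℝ) * ((P₀ : ℝ) + 1)) - ⌊ω i * ((k : ℝ) * ((P₀ : ℝ) + 1))⌋ := rfl
    have : ω i * (((k' : ℝ) - k) * ((P₀ : ℝ) + 1)) -
        ((⌊ω i * ((k' : ℝ) * ((P₀ : ℝ) + 1))⌋ - ⌊ω i * ((k : ℝ) * ((P₀ : ℝ) + 1))⌋ : ℤ) : ℝ) = b - a := by
      rw [e5, e6]; push_cast; ring
    rw [this]; exact hab'

/-- TARGET 2: if `θ` is irrational and `Q * |Q θ - P|` is not bounded below, there are arbitrarily fine scales with
a good basis -/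
theorem scale_H (θ : ℝ) (hθ : Irrational θ)
    (hunb : ∀ e : ℝ, 0 < e → ∃ Q P : ℤ, 0 < Q ∧ Q * |Q * θ - P| < e) (BIG : ℝ) :
    ∃ (S : ℝ) (Q1 P1 Q2 P2 h : ℤ), BIG ≤ S ∧ 0 < Q1 ∧ BIG * Q1 ≤ S ∧ (h = 1 ∨ h = -1) ∧
      S * (Q1 * θ - P1) = h ∧ -2 ≤ S * (Q2 * θ - P2) ∧ S * (Q2 * θ - P2) < -1 ∧
      S / 2 ≤ Q2 ∧ (Q2 : ℝ) ≤ 2 * S ∧ (Q1 * P2 - Q2 * P1 = 1 ∨ Q1 * P2 - Q2 * P1 = -1) := by
  have hBpos : (0 : ℝ) < 16 * (|BIG| + 2) := by positivity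
  obtain ⟨Q, P, hQ, hQP⟩ := hunb (1 / (16 * (|BIG| + 2))) (by positivity)
  obtain ⟨g, Q1, P1, hg, hcop, hQe, hPe⟩ : ∃ g Q1 P1 : ℤ, 0 < g ∧ IsCoprime Q1 P1 ∧ Q = g * Q1 ∧ P = g * P1 := by
    have hgpos : 0 < Int.gcd Q P := Int.gcd_pos_of_ne_zero_left _ hQ.ne'
    obtain ⟨a, b, hc, h1, h2⟩ := Int.exists_gcd_one hgpos
    refine ⟨(Int.gcd Q P : ℤ), a, b, by exact_mod_cast hgpos, ?_, by rw [mul_comm]; exact h1, by rw [mul_comm]; exact h2⟩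
    exact Int.isCoprime_iff_gcd_eq_one.mpr hc
  have hQ1 : 0 < Q1 := by
    rw [hQe] at hQ
    exact (pos_iff_pos_of_mul_pos hQ).mp hg
  set δ : ℝ := Q1 * θ - P1 with hδ
  have hQ1R : (0 : ℝ) < Q1 := by exact_mod_cast hQ1
  have hgR : (1 : ℝ) ≤ g := by exact_mod_cast hg
  have hδ0 : δ ≠ 0 := by
    intro h0
    have : θ = ((P1 : ℚ) / (Q1 : ℚ) : ℚ) := by
      push_cast
      rw [eq_div_iff hQ1R.ne']
      rw [hδ] at h0
      linarith [mul_comm θ (Q1 : ℝ)]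
    exact hθ ⟨_, this.symm⟩
  have hδa : 0 < |δ| := abs_pos.mpr hδ0
  have hsmall : (Q1 : ℝ) * |δ| < 1 / (16 * (|BIG| + 2)) := by
    have e1 : (Q : ℝ) * |Q * θ - P| = (g : ℝ) ^ 2 * (Q1 * |δ|) := by
      rw [hQe, hPe]; push_cast
      have : (g : ℝ) * Q1 * θ - g * P1 = g * δ := by rw [hδ]; ring
      rw [this, abs_mul, abs_of_pos (by linarith : (0 : ℝ) < g)]; ring
    rw [e1] at hQP
    have e2 : (Q1 : ℝ) * |δ| ≤ (g : ℝ) ^ 2 * (Q1 * |δ|) := by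
      have : 0 ≤ (Q1 : ℝ) * |δ| := by positivity
      exact le_mul_of_one_le_left this (one_le_pow₀ hgR)
    linarith
  set S : ℝ := 1 / |δ| with hS
  have hSpos : 0 < S := by positivity
  have hSδ : S * |δ| = 1 := by rw [hS]; field_simp
  have hSbig : 16 * (|BIG| + 2) * Q1 ≤ S := by
    rw [hS, le_div_iff₀ hδa]
    rw [lt_div_iff₀ hBpos] at hsmall
    nlinarith
  have hQ1one : (1 : ℝ) ≤ Q1 := by exact_mod_cast hQ1
  have habs := le_abs_self BIG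
  have habs0 := abs_nonneg BIG
  obtain ⟨h, hh, hSh⟩ : ∃ h : ℤ, (h = 1 ∨ h = -1) ∧ S * δ = h := by
    rcases lt_or_gt_of_ne hδ0 with hl | hl
    · refine ⟨-1, Or.inr rfl, ?_⟩
      rw [abs_of_neg hl] at hSδ
      push_cast; linarith
    · refine ⟨1, Or.inl rfl, ?_⟩
      rw [abs_of_pos hl] at hSδ
      push_cast; linarith
  obtain ⟨u, v, huv⟩ := hcop
  -- u * Q1 + v * P1 = 1 ; P2' = h u, Q2' = - h v
  have hhR : (h : ℝ) * h = 1 := by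
    rcases hh with rfl | rfl <;> norm_num
  have hhZ : h * h = 1 := by
    rcases hh with rfl | rfl <;> norm_num
  set x' : ℝ := S * (((-h * v : ℤ) : ℝ) * θ - ((h * u : ℤ) : ℝ)) with hx'
  -- want m with x' + m h in [-2,-1)
  obtain ⟨m, hm1, hm2⟩ : ∃ m : ℤ, -2 ≤ x' + m * h ∧ x' + m * h < -1 := by
    refine ⟨h * (-2 - ⌊x'⌋), ?_, ?_⟩
    · have := Int.floor_le x'
      push_cast
      have e : (h : ℝ) * (-2 - ⌊x'⌋) * h = (h * h) * (-2 - ⌊x'⌋) := by ring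
      rw [e, hhR]; linarith
    · have := Int.lt_floor_add_one x'
      push_cast
      have e : (h : ℝ) * (-2 - ⌊x'⌋) * h = (h * h) * (-2 - ⌊x'⌋) := by ring
      rw [e, hhR]; linarith
  have hdet : Q1 * (h * u + m * P1) - (-h * v + m * Q1) * P1 = h := by
    linear_combination h * huv
  have hxx : S * (((-h * v + m * Q1 : ℤ) : ℝ) * θ - ((h * u + m * P1 : ℤ) : ℝ)) = x' + m * h := by
    rw [hx', ← hSh, hδ]; push_cast; ring
  have hdetR : (Q1 : ℝ) * ((h * u + m * P1 : ℤ) : ℝ) - ((-h * v + m * Q1 : ℤ) : ℝ) * P1 = h := by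
    exact_mod_cast hdet
  have hQ2 : ((-h * v + m * Q1 : ℤ) : ℝ) = S + h * Q1 * (x' + m * h) := by
    rw [← hxx]
    set q2 : ℝ := ((-h * v + m * Q1 : ℤ) : ℝ)
    set p2 : ℝ := ((h * u + m * P1 : ℤ) : ℝ)
    -- h * q2 = S*δ*q2
    have e : (h : ℝ) * q2 = Q1 * (S * (q2 * θ - p2)) + S * h := by
      nth_rewrite 1 [← hSh]
      rw [hδ, ← hdetR]; ring
    calc q2 = (h * h) * q2 := by rw [hhR]; ring
      _ = h * (h * q2) := by ring
      _ = h * (Q1 * (S * (q2 * θ - p2)) + S * h) := by rw [e]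
      _ = S * (h * h) + h * Q1 * (S * (q2 * θ - p2)) := by ring
      _ = S + h * Q1 * (S * (q2 * θ - p2)) := by rw [hhR]; ring
  have hbound : |(h : ℝ) * Q1 * (x' + m * h)| ≤ S / 8 := by
    have e1 : |(h : ℝ)| = 1 := by rcases hh with rfl | rfl <;> norm_num
    have e2 : |x' + m * h| ≤ 2 := by rw [abs_le]; constructor <;> linarith
    rw [abs_mul, abs_mul, e1, abs_of_pos hQ1R, one_mul]
    have e3 : 32 * (Q1 : ℝ) ≤ S := by nlinarith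
    nlinarith
  obtain ⟨hb1, hb2⟩ := abs_le.mp hbound
  refine ⟨S, Q1, P1, -h * v + m * Q1, h * u + m * P1, h, ?_, hQ1, ?_, hh, hSh, ?_, ?_, ?_, ?_, ?_⟩
  · nlinarith
  · nlinarith
  · rw [hxx]; exact hm1
  · rw [hxx]; exact hm2
  · rw [hQ2]; linarith
  · rw [hQ2]; linarith
  · rw [hdet]; exact hh

/-- TARGET 3: base point of a class -/
theorem base_point (θ : ℝ) (S : ℝ) (Q1 P1 Q2 P2 h : ℤ) (hS : 1 ≤ S) (hQ1 : 0 < Q1) (hQS : 8 * (Q1 : ℝ) ≤ S)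
    (hh : h = 1 ∨ h = -1) (e1 : S * (Q1 * θ - P1) = h) (x1 : -2 ≤ S * (Q2 * θ - P2))
    (x2 : S * (Q2 * θ - P2) < -1) (q1 : S / 2 ≤ Q2) (q2 : (Q2 : ℝ) ≤ 2 * S) (y : ℝ) :
    ∃ t l : ℤ, |S * (t * θ - l - y)| ≤ 4 ∧ |(t : ℝ)| ≤ 4 * S := by
  set x : ℝ := S * (Q2 * θ - P2) with hx
  have hQ1R : (0 : ℝ) < Q1 := by exact_mod_cast hQ1
  have hD : (h : ℝ) * Q2 - x * Q1 ≠ 0 := by
    rcases hh with rfl | rfl
    · push_cast
      have : 0 < 1 * (Q2 : ℝ) - x * Q1 := by nlinarith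
      exact this.ne'
    · push_cast
      have : (-1) * (Q2 : ℝ) - x * Q1 < 0 := by nlinarith
      exact this.ne
  set D : ℝ := (h : ℝ) * Q2 - x * Q1 with hDd
  set α : ℝ := S * y * Q2 / D with hα
  set β : ℝ := -(S * y * Q1) / D with hβ
  have s1 : α * h + β * x = S * y := by
    rw [hα, hβ]; field_simp; rw [hDd]; ring
  have s2 : α * Q1 + β * Q2 = 0 := by
    rw [hα, hβ]; field_simp; ring
  refine ⟨⌊α⌋ * Q1 + ⌊β⌋ * Q2, ⌊α⌋ * P1 + ⌊β⌋ * P2, ?_, ?_⟩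
  · have e : S * (((⌊α⌋ * Q1 + ⌊β⌋ * Q2 : ℤ) : ℝ) * θ - ((⌊α⌋ * P1 + ⌊β⌋ * P2 : ℤ) : ℝ) - y)
        = -(Int.fract α * h + Int.fract β * x) := by
      have f1 : (⌊α⌋ : ℝ) = α - Int.fract α := by rw [Int.fract]; ring
      have f2 : (⌊β⌋ : ℝ) = β - Int.fract β := by rw [Int.fract]; ring
      push_cast
      have : S * (((⌊α⌋ : ℝ) * Q1 + ⌊β⌋ * Q2) * θ - (⌊α⌋ * P1 + ⌊β⌋ * P2) - y)
          = ⌊α⌋ * (S * (Q1 * θ - P1)) + ⌊β⌋ * (S * (Q2 * θ - P2)) - S * y := by ring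
      rw [this, e1, ← hx, f1, f2, ← s1]; ring
    rw [e, abs_neg]
    have a0 := Int.fract_nonneg α
    have a1 := (Int.fract_lt_one α).le
    have b0 := Int.fract_nonneg β
    have b1 := (Int.fract_lt_one β).le
    have hxa : |x| ≤ 2 := by rw [abs_le]; constructor <;> linarith
    have hha : |(h : ℝ)| = 1 := by rcases hh with rfl | rfl <;> norm_num
    calc |Int.fract α * h + Int.fract β * x| ≤ |Int.fract α * h| + |Int.fract β * x| := abs_add_le _ _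
      _ = Int.fract α * 1 + Int.fract β * |x| := by
          rw [abs_mul, abs_mul, abs_of_nonneg a0, abs_of_nonneg b0, hha]
      _ ≤ 4 := by nlinarith
  · have e : ((⌊α⌋ * Q1 + ⌊β⌋ * Q2 : ℤ) : ℝ) = -(Int.fract α * Q1 + Int.fract β * Q2) := by
      have f1 : (⌊α⌋ : ℝ) = α - Int.fract α := by rw [Int.fract]; ring
      have f2 : (⌊β⌋ : ℝ) = β - Int.fract β := by rw [Int.fract]; ring
      push_cast
      rw [f1, f2]; linear_combination s2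
    rw [e, abs_neg]
    have a0 := Int.fract_nonneg α
    have a1 := (Int.fract_lt_one α).le
    have b0 := Int.fract_nonneg β
    have b1 := (Int.fract_lt_one β).le
    have hQ2p : (0 : ℝ) < Q2 := by linarith
    rw [abs_of_nonneg (by positivity)]
    nlinarith

end Pool.Agent.Helper29.Rot
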